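import Pool.Agent.Lib.MP_3efbeb_nt.LG.SpecB

/-!
# LongPatterns (MP_3efbeb_nt), module CBB: bounds for a block (helper91)
-/

set_option autoImplicit false

namespace Pool.Agent.Lib.MP3efbeb.LG

open Finset MeasureTheory
open Pool.Agent.Lib.MP391708.QPA (PB rInd Wp Rough)

namespace CBBM

lemma cnt {N e : ℝ} (hN : 1 < N) (he : 0 < e) (S : Finset ℕ) (m : ℕ) (hm : m ≠ 0)
    (hmN : (m : ℝ) ≤ N ^ 2) (hS : ∀ q ∈ S, q.Prime ∧ N ^ e < q ∧ q ∣ m) :
    (S.card : ℝ) ≤ 2 / e := by
  have h1 : ∏ q ∈ S, q ∣ m :=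
    Finset.prod_primes_dvd m (fun q hq => (hS q hq).1.prime) (fun q hq => (hS q hq).2.2)
  have h2 : ((∏ q ∈ S, q : ℕ) : ℝ) ≤ N ^ 2 :=
    le_trans (by exact_mod_cast Nat.le_of_dvd (Nat.pos_of_ne_zero hm) h1) hmN
  have h3 : (N ^ e) ^ S.card ≤ ((∏ q ∈ S, q : ℕ) : ℝ) := by
    push_cast
    rw [← Finset.prod_const]
    exact Finset.prod_le_prod (fun q _ => (Real.rpow_nonneg (by linarith) e))
      (fun q hq => (hS q hq).2.1.le)
  have h4 : N ^ (e * S.card) ≤ N ^ (2 : ℝ) := by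
    rw [Real.rpow_mul (by linarith), Real.rpow_natCast]
    refine le_trans h3 (le_trans h2 (le_of_eq ?_))
    norm_cast
  have h5 : e * S.card ≤ 2 := (Real.rpow_le_rpow_left_iff hN).1 h4
  rw [le_div_iff₀ he]
  linarith

lemma mem_PR {A : ℝ} (hA : 0 ≤ A) {p : ℕ} (h : p ∈ PR A) :
    p.Prime ∧ A < p ∧ (p : ℝ) ≤ 2 * A := by
  unfold PR IO at h
  rw [mem_filter, mem_Ioc] at h
  exact ⟨h.2, (Nat.floor_lt hA).1 h.1.1, (Nat.le_floor_iff' h.2.ne_zero).1 h.1.2⟩

/-- the numerical facts for large `N` -/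
structure Big (N c e : ℝ) : Prop where
  hc : 1 ≤ c
  hN : 16 ≤ N
  hL : 2 ≤ Real.log N
  hz : Real.log N ^ (5 * c) ≤ N ^ e

lemma exists_big (e : ℝ) (he : 0 < e) (c : ℝ) (hc : 1 ≤ c) : ∃ N₀ : ℝ, ∀ N : ℝ, N₀ ≤ N →
    Big N c e := by
  have h1 : ∀ᶠ N : ℝ in Filter.atTop, Real.log N ^ (5 * c) ≤ N ^ e := by
    have := (isLittleO_log_rpow_rpow_atTop (5 * c) he).bound (c := 1) one_pos
    filter_upwards [this, Filter.eventually_ge_atTop (1 : ℝ)] with N hN h1N
    have h2 : 0 ≤ Real.log N ^ (5 * c) := Real.rpow_nonneg (Real.log_nonneg h1N) _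
    have h3 : 0 ≤ N ^ e := Real.rpow_nonneg (by linarith) _
    rw [one_mul, Real.norm_of_nonneg h2, Real.norm_of_nonneg h3] at hN
    exact hN
  have h2 : ∀ᶠ N : ℝ in Filter.atTop, 2 ≤ Real.log N :=
    Real.tendsto_log_atTop.eventually_ge_atTop 2
  obtain ⟨N₀, h⟩ := Filter.eventually_atTop.1 (h1.and (h2.and (Filter.eventually_ge_atTop 16)))
  exact ⟨N₀, fun N hN => ⟨hc, (h N hN).2.2, (h N hN).2.1, (h N hN).1⟩⟩

section

variable {N c e A B E : ℝ} {u : ℕ → ℝ}

lemma A_one (g : Big N c e) (h : Blk N c e A B E u) : 1 ≤ A :=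
  le_trans (Real.one_le_rpow (by linarith [g.hL]) (by linarith [g.hc])) h.hA

lemma zz_ge (g : Big N c e) : 1 ≤ zz N c :=
  Real.one_le_rpow (by linarith [g.hL]) (by linarith [g.hc])

lemma B_ge (g : Big N c e) (h : Blk N c e A B E u) : zz N c ≤ B := le_trans g.hz h.hB

lemma two_A_lt (g : Big N c e) (h : Blk N c e A B E u) : 2 * A < zz N c := by
  have hL : 0 < Real.log N := by linarith [g.hL]
  have h1 : zz N c = Real.log N ^ (2 * c) * Real.log N ^ (3 * c) := by
    unfold zz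
    rw [← Real.rpow_add hL]
    ring_nf
  have h2 : (8 : ℝ) ≤ Real.log N ^ (3 * c) := by
    calc (8 : ℝ) = 2 ^ (3 : ℝ) := by norm_num
      _ ≤ Real.log N ^ (3 : ℝ) := Real.rpow_le_rpow (by norm_num) g.hL (by norm_num)
      _ ≤ Real.log N ^ (3 * c) :=
        Real.rpow_le_rpow_of_exponent_le (by linarith [g.hL]) (by linarith [g.hc])
  have h3 : 1 ≤ Real.log N ^ (2 * c) :=
    Real.one_le_rpow (by linarith [g.hL]) (by linarith [g.hc])
  rw [h1]
  nlinarith [h.hA']

lemma u_zero (g : Big N c e) (h : Blk N c e A B E u) : u 0 = 0 := by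
  by_contra h0
  have h1 := (h.supp 0 h0).1
  have hA := A_one g h
  have hB := le_trans (zz_ge g) (B_ge g h)
  have hN := g.hN
  have : (0 : ℝ) < N / (8 * A * B) := by positivity
  simp only [Nat.cast_zero] at h1
  linarith

lemma term (g : Big N c e) (h : Blk N c e A B E u) {p q n : ℕ} (hp : p ∈ PR A) (hq : q ∈ PR B)
    (hd : p * q ∣ n) (hu : u (n / (p * q)) ≠ 0) :
    n ≠ 0 ∧ N / 8 < n ∧ (n : ℝ) ≤ 16 * N ∧ ∀ l : ℕ, l.Prime → l ∣ n → l = p ∨ zz N c ≤ l := by
  have hA := A_one g h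
  have hB := le_trans (zz_ge g) (B_ge g h)
  have hN := g.hN
  obtain ⟨hp1, hp2, hp3⟩ := mem_PR (by linarith) hp
  obtain ⟨hq1, hq2, hq3⟩ := mem_PR (by linarith) hq
  obtain ⟨k, rfl⟩ := hd
  have hk : p * q * k / (p * q) = k :=
    Nat.mul_div_cancel_left k (Nat.mul_pos hp1.pos hq1.pos)
  rw [hk] at hu
  obtain ⟨hs1, hs2⟩ := h.supp k hu
  have hAB : 0 < A * B := by positivity
  have hkpos : (0 : ℝ) < k := lt_trans (by positivity) hs1
  have hk1 : N < 8 * (A * B) * k := by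
    rw [div_lt_iff₀ (by positivity)] at hs1
    nlinarith
  have hk2 : A * B * k ≤ 4 * N := by
    rw [le_div_iff₀ hAB] at hs2
    linarith
  have hpq1 : A * B ≤ (p : ℝ) * q := mul_le_mul hp2.le hq2.le (by linarith) (by positivity)
  have hpq2 : (p : ℝ) * q ≤ 4 * (A * B) := by
    calc (p : ℝ) * q ≤ (2 * A) * (2 * B) := mul_le_mul hp3 hq3 (by positivity) (by positivity)
      _ = _ := by ring
  refine ⟨?_, ?_, ?_, ?_⟩
  · have : k ≠ 0 := by
      rintro rfl
      simp at hkpos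
    exact Nat.mul_ne_zero (Nat.mul_ne_zero hp1.ne_zero hq1.ne_zero) this
  · push_cast
    have := mul_le_mul_of_nonneg_right hpq1 hkpos.le
    linarith
  · push_cast
    have := mul_le_mul_of_nonneg_right hpq2 hkpos.le
    linarith
  · intro l hl hd
    rcases (Nat.Prime.dvd_mul hl).1 hd with h1 | h1
    · rcases (Nat.Prime.dvd_mul hl).1 h1 with h2 | h2
      · left
        exact (Nat.prime_dvd_prime_iff_eq hl hp1).1 h2
      · right
        rw [(Nat.prime_dvd_prime_iff_eq hl hq1).1 h2]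
        exact le_trans (B_ge g h) hq2.le
    · right
      exact h.rough k hu l hl h1

lemma inner_le (g : Big N c e) (h : Blk N c e A B E u) (he : 0 < e) (m : ℕ) (f : ℕ → ℕ) (m' : ℕ)
    (hf : ∀ q ∈ PR B, q ∣ m → u (f q) ≠ 0 → m' ≠ 0 ∧ (m' : ℝ) ≤ N ^ 2 ∧ q ∣ m') :
    |∑ q ∈ PR B, if q ∣ m then u (f q) else 0| ≤ 2 / e := by
  have hB := le_trans (zz_ge g) (B_ge g h)
  have hN := g.hN
  have h0 : |∑ q ∈ PR B, if q ∣ m then u (f q) else 0| ≤
      (((PR B).filter (fun q => q ∣ m ∧ u (f q) ≠ 0)).card : ℝ) := by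
    refine le_trans (Finset.abs_sum_le_sum_abs _ _) ?_
    rw [Finset.card_filter]
    push_cast
    refine Finset.sum_le_sum fun q _ => ?_
    by_cases h1 : q ∣ m
    · by_cases h2 : u (f q) = 0
      · simp [h1, h2]
      · simpa [h1, h2] using h.bd (f q)
    · simp [h1]
  refine le_trans h0 ?_
  rcases ((PR B).filter (fun q => q ∣ m ∧ u (f q) ≠ 0)).eq_empty_or_nonempty with hE | ⟨q0, hq0⟩
  · rw [hE]
    simp only [card_empty, Nat.cast_zero]
    positivity
  · rw [mem_filter] at hq0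
    obtain ⟨hm1, hm2, _⟩ := hf q0 hq0.1 hq0.2.1 hq0.2.2
    refine cnt (by linarith) he _ m' hm1 hm2 fun q hq => ?_
    rw [mem_filter] at hq
    obtain ⟨hq1, hq2, -⟩ := mem_PR (by linarith) hq.1
    exact ⟨hq1, lt_of_le_of_lt h.hB hq2, (hf q hq.1 hq.2.1 hq.2.2).2.2⟩

end

end CBBM

open CBBM in
theorem specCBB : SpecCBB := by
  intro e he he'
  refine ⟨2 / e, ?_, fun c hc => ?_⟩
  · rw [le_div_iff₀ he]
    linarith
  obtain ⟨N₀, hN₀⟩ := exists_big e he c hc
  refine ⟨N₀, fun N A B E u hN h => ?_⟩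
  have g := hN₀ N hN
  have hA := A_one g h
  have hB := le_trans (zz_ge g) (B_ge g h)
  have hN16 := g.hN
  have hL : 0 < Real.log N := by linarith [g.hL]
  refine ⟨fun n => ?_, fun m => ?_, fun n hn => ?_⟩
  · unfold cb
    by_cases hE : ∃ p ∈ PR A, ∃ q ∈ PR B, p * q ∣ n ∧ u (n / (p * q)) ≠ 0
    · obtain ⟨p0, hp0, q0, hq0, hd0, hu0⟩ := hE
      obtain ⟨hn0, hn1, hn2, hn3⟩ := term g h hp0 hq0 hd0 hu0
      rw [Finset.sum_eq_single p0]
      · have h1 : ∀ q ∈ PR B, (if p0 * q ∣ n then u (n / (p0 * q)) else 0) =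
            if q ∣ n then (if p0 * q ∣ n then u (n / (p0 * q)) else 0) else 0 := by
          intro q _
          by_cases h2 : q ∣ n
          · simp [h2]
          · have : ¬ p0 * q ∣ n := fun h3 => h2 (dvd_trans (dvd_mul_left q p0) h3)
            simp [h2, this]
        rw [Finset.sum_congr rfl h1]
        have h0 : |∑ q ∈ PR B, if q ∣ n then (if p0 * q ∣ n then u (n / (p0 * q)) else 0) else 0| ≤
            (((PR B).filter (fun q => q ∣ n)).card : ℝ) := by
          refine le_trans (Finset.abs_sum_le_sum_abs _ _) ?_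
          rw [Finset.card_filter]
          push_cast
          refine Finset.sum_le_sum fun q _ => ?_
          by_cases h1 : q ∣ n
          · by_cases h2 : p0 * q ∣ n
            · simpa [h1, h2] using h.bd _
            · simp [h1, h2]
          · simp [h1]
        refine le_trans h0 (cnt (N := N) (by linarith) he _ n hn0 (by nlinarith) fun q hq => ?_)
        rw [mem_filter] at hq
        obtain ⟨hq1, hq2, -⟩ := mem_PR (by linarith) hq.1
        exact ⟨hq1, lt_of_le_of_lt h.hB hq2, hq.2⟩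
      · intro p hp hne
        refine Finset.sum_eq_zero fun q hq => ?_
        by_cases h2 : p * q ∣ n
        · rw [if_pos h2]
          by_contra h3
          obtain ⟨-, -, -, h4⟩ := term g h hp hq h2 h3
          obtain ⟨hp1, hp2, hp3⟩ := mem_PR (by linarith) hp
          rcases hn3 p hp1 (dvd_trans (dvd_mul_right p q) h2) with h5 | h5
          · exact hne h5
          · linarith [two_A_lt g h]
        · rw [if_neg h2]
      · intro h1
        exact absurd hp0 h1
    · push Not at hE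
      have : ∑ p ∈ PR A, ∑ q ∈ PR B, (if p * q ∣ n then u (n / (p * q)) else 0) = 0 := by
        refine Finset.sum_eq_zero fun p hp => Finset.sum_eq_zero fun q hq => ?_
        by_cases h2 : p * q ∣ n
        · rw [if_pos h2]
          exact hE p hp q hq h2
        · rw [if_neg h2]
      rw [this, abs_zero]
      positivity
  · refine inner_le g h he m (fun q => m / q) m fun q hq hd hu => ?_
    obtain ⟨hq1, hq2, hq3⟩ := mem_PR (by linarith) hq
    obtain ⟨k, rfl⟩ := hd
    have hk : q * k / q = k := Nat.mul_div_cancel_left k hq1.pos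
    simp only [hk] at hu
    have hk0 : k ≠ 0 := by
      rintro rfl
      exact hu (u_zero g h)
    obtain ⟨hs1, hs2⟩ := h.supp k hu
    refine ⟨Nat.mul_ne_zero hq1.ne_zero hk0, ?_, dvd_mul_right q k⟩
    push_cast
    rw [le_div_iff₀ (by positivity)] at hs2
    have h1 : (q : ℝ) * k ≤ 2 * B * k := mul_le_mul_of_nonneg_right hq3 (by positivity)
    have h2 : B * k ≤ k * (A * B) := by
      have : 0 ≤ B * k := by positivity
      nlinarith
    nlinarith
  · unfold cb at hn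
    obtain ⟨p, hp, hn⟩ := Finset.exists_ne_zero_of_sum_ne_zero hn
    obtain ⟨q, hq, hn⟩ := Finset.exists_ne_zero_of_sum_ne_zero hn
    have hd : p * q ∣ n := by
      by_contra h1
      rw [if_neg h1] at hn
      exact hn rfl
    rw [if_pos hd] at hn
    obtain ⟨-, h1, h2, h3⟩ := term g h hp hq hd hn
    refine ⟨h1, h2, fun l hl hd' => ?_⟩
    obtain ⟨hp1, hp2, hp3⟩ := mem_PR (by linarith) hp
    rcases h3 l hl hd' with h4 | h4
    · rw [h4]
      exact lt_of_le_of_lt h.hA hp2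
    · have h5 := h.hA
      have h6 := two_A_lt g h
      linarith

end Pool.Agent.Lib.MP3efbeb.LG
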