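import Pool.Agent.Lib.MP_3efbeb_nt.LG.SpecB
import Pool.Agent.Lib.MP_3efbeb_nt.SV.Sieve

set_option autoImplicit false

namespace Pool.Agent.Lib.MP3efbeb.LG

open Finset Filter
open Pool.Agent.Lib.MP391708.QPA (PB rInd Wp Rough)

noncomputable section

namespace FRBM

lemma mem_IO {x y : ℝ} (hx : 0 ≤ x) (hy : 0 ≤ y) {n : ℕ} (h : n ∈ IO x y) :
    x < n ∧ (n : ℝ) ≤ y := by
  unfold IO at h
  rw [Finset.mem_Ioc] at h
  exact ⟨(Nat.floor_lt hx).1 h.1, (Nat.le_floor_iff hy).1 h.2⟩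

lemma two_pow_le {x : ℝ} (hx : 1 ≤ x) : (2 : ℝ) ^ ⌊Real.logb 2 x⌋₊ ≤ x := by
  have h0 : 0 ≤ Real.logb 2 x := Real.logb_nonneg (by norm_num) hx
  calc (2 : ℝ) ^ ⌊Real.logb 2 x⌋₊ = (2 : ℝ) ^ ((⌊Real.logb 2 x⌋₊ : ℕ) : ℝ) :=
        (Real.rpow_natCast _ _).symm
    _ ≤ (2 : ℝ) ^ (Real.logb 2 x) :=
        Real.rpow_le_rpow_of_exponent_le (by norm_num) (Nat.floor_le h0)
    _ = x := Real.rpow_logb (by norm_num) (by norm_num) (by linarith)

lemma mem_PPs {N c : ℝ} (hc : 0 ≤ c) (hL : 1 ≤ Real.log N) {p : ℕ} (h : p ∈ PPs N c) :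
    p.Prime ∧ (p : ℝ) ≤ Real.log N ^ (2 * c) := by
  unfold PPs at h
  rw [Finset.mem_filter] at h
  refine ⟨h.2, ?_⟩
  have h1 : 1 ≤ Real.log N ^ c := Real.one_le_rpow hL hc
  have h0 : (0 : ℝ) ≤ (2 : ℝ) ^ ⌊Real.logb 2 (Real.log N ^ c)⌋₊ := by positivity
  have h2 := (mem_IO (by linarith) (mul_nonneg h0 (by linarith)) h.1).2
  refine h2.trans ?_
  calc (2 : ℝ) ^ ⌊Real.logb 2 (Real.log N ^ c)⌋₊ * Real.log N ^ c
      ≤ Real.log N ^ c * Real.log N ^ c :=
        mul_le_mul_of_nonneg_right (two_pow_le h1) (by linarith)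
    _ = Real.log N ^ (2 * c) := by
        rw [← Real.rpow_add (by linarith)]
        congr 1
        ring

lemma mem_QQs {N e : ℝ} (he : 0 ≤ e) (hN : 1 ≤ N) {q : ℕ} (h : q ∈ QQs N e) :
    q.Prime ∧ N ^ e < q ∧ (q : ℝ) ≤ N ^ (2 * e) := by
  unfold QQs at h
  rw [Finset.mem_filter] at h
  have h1 : 1 ≤ N ^ e := Real.one_le_rpow hN he
  have h0 : (0 : ℝ) ≤ (2 : ℝ) ^ ⌊Real.logb 2 (N ^ e)⌋₊ := by positivity
  have h2 := mem_IO (by linarith) (mul_nonneg h0 (by linarith)) h.1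
  refine ⟨h.2, h2.1, h2.2.trans ?_⟩
  calc (2 : ℝ) ^ ⌊Real.logb 2 (N ^ e)⌋₊ * N ^ e
      ≤ N ^ e * N ^ e := mul_le_mul_of_nonneg_right (two_pow_le h1) (by linarith)
    _ = N ^ (2 * e) := by
        rw [← Real.rpow_add (by linarith)]
        congr 1
        ring

lemma list_prod_le {y : ℝ} (hy : 0 ≤ y) : ∀ l : List ℕ, (∀ p ∈ l, (p : ℝ) ≤ y) →
    ((l.prod : ℕ) : ℝ) ≤ y ^ l.length
  | [], _ => by simp
  | p :: l, h => by
    rw [List.prod_cons, List.length_cons, pow_succ, Nat.cast_mul, mul_comm]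
    have h1 := list_prod_le hy l (fun q hq => h q (List.mem_cons_of_mem _ hq))
    exact mul_le_mul h1 (h p List.mem_cons_self) (Nat.cast_nonneg _) (by positivity)

lemma mem_DDs {N e : ℝ} (hN : 1 ≤ N) {s d : ℕ} (h : d ∈ DDs N e s) :
    d ≠ 0 ∧ d.primeFactorsList.length = s ∧ (∀ p : ℕ, p.Prime → p ∣ d → N ^ (e / 3) < p) ∧
      (d : ℝ) ≤ N ^ (2 * e * s / 3) := by
  unfold DDs at h
  rw [Finset.mem_filter, Finset.mem_Icc] at h
  obtain ⟨⟨h1, _⟩, h2, h3⟩ := h
  have hd : d ≠ 0 := by omega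
  refine ⟨hd, h2, fun p hp hpd => (h3 p ((Nat.mem_primeFactorsList hd).2 ⟨hp, hpd⟩)).1, ?_⟩
  have h4 := list_prod_le (y := N ^ (2 * e / 3)) (by positivity) d.primeFactorsList
    (fun p hp => (h3 p hp).2)
  rw [Nat.prod_primeFactorsList hd, h2, ← Real.rpow_natCast, ← Real.rpow_mul (by linarith)] at h4
  refine h4.trans (le_of_eq ?_)
  congr 1
  ring

/-- number of products of `s` primes from `S` -/
lemma card_prod_le (S : Finset ℕ) : ∀ (s : ℕ) (D : Finset ℕ),
    (∀ d ∈ D, d ≠ 0 ∧ d.primeFactorsList.length = s ∧ ∀ p : ℕ, p.Prime → p ∣ d → p ∈ S) →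
    D.card ≤ S.card ^ s
  | 0, D, h => by
    have h1 : D ⊆ {1} := by
      intro d hd
      obtain ⟨h2, h3, _⟩ := h d hd
      rw [Finset.mem_singleton]
      have h4 := Nat.prod_primeFactorsList h2
      rw [List.length_eq_zero_iff.1 h3] at h4
      simpa using h4.symm
    simpa using Finset.card_le_card h1
  | s + 1, D, h => by
    classical
    set D' : Finset ℕ := D.image (fun d => d / d.minFac) with hD'
    have h1 : D ⊆ (S ×ˢ D').image (fun t => t.1 * t.2) := by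
      intro d hd
      obtain ⟨h2, h3, h4⟩ := h d hd
      have h5 : d ≠ 1 := by
        rintro rfl
        simp at h3
      rw [Finset.mem_image]
      refine ⟨(d.minFac, d / d.minFac), ?_, Nat.mul_div_cancel' (Nat.minFac_dvd d)⟩
      rw [Finset.mem_product]
      exact ⟨h4 _ (Nat.minFac_prime h5) (Nat.minFac_dvd d), Finset.mem_image_of_mem _ hd⟩
    have h2 : D'.card ≤ S.card ^ s := by
      refine card_prod_le S s D' ?_
      intro d' hd'
      obtain ⟨d, hd, rfl⟩ := Finset.mem_image.1 hd'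
      obtain ⟨h2, h3, h4⟩ := h d hd
      have h5 : d ≠ 1 := by
        rintro rfl
        simp at h3
      have h6 : d.minFac * (d / d.minFac) = d := Nat.mul_div_cancel' (Nat.minFac_dvd d)
      have h7 : d / d.minFac ≠ 0 := by
        intro h0
        rw [h0, mul_zero] at h6
        exact h2 h6.symm
      refine ⟨h7, ?_, fun p hp hpd => h4 p hp (hpd.trans ⟨d.minFac, by rw [mul_comm]; exact h6.symm⟩)⟩
      have h8 : ArithmeticFunction.cardFactors (d.minFac * (d / d.minFac)) =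
          ArithmeticFunction.cardFactors d.minFac + ArithmeticFunction.cardFactors (d / d.minFac) :=
        ArithmeticFunction.cardFactors_mul (Nat.minFac_prime h5).ne_zero h7
      rw [h6, ArithmeticFunction.cardFactors_apply_prime (Nat.minFac_prime h5),
        ArithmeticFunction.cardFactors_apply, ArithmeticFunction.cardFactors_apply, h3] at h8
      omega
    calc D.card ≤ ((S ×ˢ D').image (fun t => t.1 * t.2)).card := Finset.card_le_card h1
      _ ≤ (S ×ˢ D').card := Finset.card_image_le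
      _ = S.card * D'.card := Finset.card_product _ _
      _ ≤ S.card * S.card ^ s := Nat.mul_le_mul_left _ h2
      _ = S.card ^ (s + 1) := by rw [pow_succ, mul_comm]

/-- number of the large prime factors -/
lemma card_large {N y : ℝ} {n : ℕ} (hN : 1 < N) (hy : 0 < y) (hn : n ≠ 0) (hn2 : (n : ℝ) ≤ N ^ (2 : ℝ)) :
    (((n.primeFactors.filter (fun p : ℕ => N ^ y < p)).card : ℕ) : ℝ) ≤ 2 / y := by
  set S := n.primeFactors.filter (fun p : ℕ => N ^ y < p) with hS
  have h1 : (∏ p ∈ S, p) ∣ n :=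
    (Finset.prod_dvd_prod_of_subset _ _ _ (Finset.filter_subset _ _)).trans (Nat.prod_primeFactors_dvd n)
  have h2 : ((∏ p ∈ S, p : ℕ) : ℝ) ≤ n := by exact_mod_cast Nat.le_of_dvd (Nat.pos_of_ne_zero hn) h1
  have h3 : (N ^ y) ^ S.card ≤ ((∏ p ∈ S, p : ℕ) : ℝ) := by
    rw [Nat.cast_prod, ← Finset.prod_const]
    refine Finset.prod_le_prod (fun p _ => by positivity) (fun p hp => ?_)
    exact (Finset.mem_filter.1 hp).2.le
  have h4 : N ^ (y * S.card) ≤ N ^ (2 : ℝ) := by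
    rw [Real.rpow_mul (by linarith), Real.rpow_natCast]
    exact h3.trans (h2.trans hn2)
  have h5 : y * S.card ≤ 2 := (Real.rpow_le_rpow_left_iff hN).1 h4
  rw [le_div_iff₀ hy, mul_comm]
  exact h5

/-- the numerical hypotheses -/
structure Num (N c e : ℝ) : Prop where
  hN : 4 ≤ N
  hL : 1 < Real.log N
  h2 : 2 ≤ zz N c
  hz : zz N c ≤ N ^ (e / 3)
  hz4 : zz N c ≤ N ^ ((1 : ℝ) / 4)
  hP : 2 * Real.log N ^ (2 * c) ≤ N ^ ((7 : ℝ) / 12)
  hW : 1 ≤ Wp (zz N c) * (Real.log N / 4)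

variable {N c e : ℝ} {r n : ℕ}

lemma long_ge (hc : 0 ≤ c) (he : 0 < e) (hr : 3 ≤ r) (her : e * r ≤ 1 / 4) (hh : Num N c e)
    (hn : N / 2 < n) {p q d k : ℕ} (hp : p ∈ PPs N c) (hq : q ∈ QQs N e) (hd : d ∈ DDs N e (r - 3))
    (hk : n = p * q * d * k) : N ^ ((1 : ℝ) / 4) ≤ k := by
  have hN := hh.hN
  have hN0 : 0 < N := by linarith
  have hN1 : 1 ≤ N := by linarith
  have h1 := (mem_PPs hc hh.hL.le hp).2
  have h2 := (mem_QQs he.le hN1 hq).2.2
  have h3 := (mem_DDs hN1 hd).2.2.2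
  have hs : ((r - 3 : ℕ) : ℝ) = (r : ℝ) - 3 := by
    rw [Nat.cast_sub hr]
    norm_num
  rw [hs] at h3
  have h4 : (q : ℝ) * d ≤ N ^ ((1 : ℝ) / 6) := by
    calc (q : ℝ) * d ≤ N ^ (2 * e) * N ^ (2 * e * ((r : ℝ) - 3) / 3) :=
          mul_le_mul h2 h3 (Nat.cast_nonneg _) (by positivity)
      _ = N ^ (2 * e + 2 * e * ((r : ℝ) - 3) / 3) := (Real.rpow_add hN0 _ _).symm
      _ ≤ N ^ ((1 : ℝ) / 6) := by
          refine Real.rpow_le_rpow_of_exponent_le hN1 ?_
          have : 2 * e + 2 * e * ((r : ℝ) - 3) / 3 = 2 / 3 * (e * r) := by ring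
          rw [this]
          linarith
  by_contra hcon
  push Not at hcon
  have h5 : (n : ℝ) ≤ Real.log N ^ (2 * c) * N ^ ((1 : ℝ) / 6) * N ^ ((1 : ℝ) / 4) := by
    have e1 : (n : ℝ) = p * (q * d) * k := by
      rw [hk]
      push_cast
      ring
    rw [e1]
    have hl0 : 0 ≤ Real.log N ^ (2 * c) := Real.rpow_nonneg (by linarith [hh.hL]) _
    exact mul_le_mul (mul_le_mul h1 h4 (by positivity) hl0) hcon.le (Nat.cast_nonneg _)
      (mul_nonneg hl0 (by positivity))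
  have h6 : N ^ ((7 : ℝ) / 12) * N ^ ((1 : ℝ) / 6) * N ^ ((1 : ℝ) / 4) = N := by
    rw [← Real.rpow_add hN0, ← Real.rpow_add hN0]
    norm_num
  have h7 : 2 * (Real.log N ^ (2 * c) * N ^ ((1 : ℝ) / 6) * N ^ ((1 : ℝ) / 4)) ≤ N := by
    calc 2 * (Real.log N ^ (2 * c) * N ^ ((1 : ℝ) / 6) * N ^ ((1 : ℝ) / 4))
        = (2 * Real.log N ^ (2 * c)) * N ^ ((1 : ℝ) / 6) * N ^ ((1 : ℝ) / 4) := by ring
      _ ≤ N ^ ((7 : ℝ) / 12) * N ^ ((1 : ℝ) / 6) * N ^ ((1 : ℝ) / 4) := by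
          refine mul_le_mul_of_nonneg_right (mul_le_mul_of_nonneg_right hh.hP ?_) ?_ <;> positivity
      _ = N := h6
  linarith

/-- the hypotheses on the weight of the long variable -/
structure Wt (N c : ℝ) (w : ℕ → ℝ) : Prop where
  w0 : ∀ k, 0 ≤ w k
  w1 : ∀ k : ℕ, N ^ ((1 : ℝ) / 4) ≤ k → w k ≤ 1
  wr : ∀ k : ℕ, N ^ ((1 : ℝ) / 4) ≤ k → w k ≠ 0 → ∀ p : ℕ, p.Prime → p ∣ k → zz N c ≤ p

lemma p_eq (hc : 0 < c) (he : 0 < e) (hh : Num N c e) {w : ℕ → ℝ} (hw : Wt N c w) {s : ℕ}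
    {p q d k : ℕ} (hp : p ∈ PPs N c) (hq : q ∈ QQs N e) (hd : d ∈ DDs N e s)
    (hk : n = p * q * d * k) (hk4 : N ^ ((1 : ℝ) / 4) ≤ k) (hwk : w k ≠ 0) : p = n.minFac := by
  have hN := hh.hN
  have hN1 : 1 ≤ N := by linarith
  have hL := hh.hL
  obtain ⟨hpp, h1⟩ := mem_PPs hc.le hL.le hp
  obtain ⟨hqp, h2, _⟩ := mem_QQs he.le hN1 hq
  obtain ⟨hd0, _, h3, _⟩ := mem_DDs hN1 hd
  have hpn : p ∣ n := by
    rw [hk, mul_assoc, mul_assoc]
    exact dvd_mul_right _ _
  have hn1 : n ≠ 1 := by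
    intro h
    rw [h] at hpn
    exact hpp.one_lt.ne' (Nat.dvd_one.1 hpn)
  have hm := Nat.minFac_prime hn1
  have hmd := Nat.minFac_dvd n
  have hle : n.minFac ≤ p := Nat.minFac_le_of_dvd hpp.two_le hpn
  have hpz : (p : ℝ) < zz N c := by
    refine h1.trans_lt ?_
    unfold zz
    exact Real.rpow_lt_rpow_of_exponent_lt hL (by linarith)
  by_contra hne
  have key : zz N c ≤ (n.minFac : ℝ) := by
    rw [hk] at hmd
    rw [← hk] at hmd
    have hmd' : n.minFac ∣ p * q * d * k := by rw [← hk]; exact hmd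
    rcases (Nat.Prime.dvd_mul hm).1 hmd' with h | h
    · rcases (Nat.Prime.dvd_mul hm).1 h with h | h
      · rcases (Nat.Prime.dvd_mul hm).1 h with h | h
        · exact absurd ((Nat.prime_dvd_prime_iff_eq hm hpp).1 h).symm hne
        · rw [(Nat.prime_dvd_prime_iff_eq hm hqp).1 h]
          refine hh.hz.trans (le_of_lt (lt_of_le_of_lt ?_ h2))
          exact Real.rpow_le_rpow_of_exponent_le hN1 (by linarith)
      · exact hh.hz.trans (h3 _ hm h).le
    · exact hw.wr k hk4 hwk _ hm h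
  have : (n.minFac : ℝ) ≤ p := by exact_mod_cast hle
  linarith

/-- the main bound -/
lemma cof_le (hc : 0 < c) (he : 0 < e) (he2 : e ≤ 1 / 20) (hr : 3 ≤ r) (her : e * r ≤ 1 / 4)
    (hh : Num N c e) {w : ℕ → ℝ} (hw : Wt N c w) (hn : N / 2 < n) (hn4 : (n : ℝ) ≤ 4 * N) :
    0 ≤ cof N c e r w n ∧ cof N c e r w n ≤ (6 / e) ^ r := by
  classical
  have hN := hh.hN
  have hN0 : 0 < N := by linarith
  have hN1 : 1 ≤ N := by linarith
  have hn0 : n ≠ 0 := by
    rintro rfl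
    norm_num at hn
    linarith
  have hn2 : (n : ℝ) ≤ N ^ (2 : ℝ) := by
    refine hn4.trans ?_
    have : N ^ (2 : ℝ) = N * N := by
      rw [show (2 : ℝ) = ((2 : ℕ) : ℝ) by norm_num, Real.rpow_natCast]
      ring
    rw [this]
    exact mul_le_mul_of_nonneg_right hN hN0.le
  set S : Finset ℕ := n.primeFactors.filter (fun p : ℕ => N ^ (e / 3) < p) with hS
  set D : Finset ℕ := (DDs N e (r - 3)).filter (fun d => d ∣ n) with hD
  have hScard : (S.card : ℝ) ≤ 6 / e := by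
    have h := card_large (n := n) (by linarith : 1 < N) (by positivity : 0 < e / 3) hn0 hn2
    refine h.trans (le_of_eq ?_)
    field_simp
    norm_num
  have hDcard : D.card ≤ S.card ^ (r - 3) := by
    refine card_prod_le S (r - 3) D ?_
    intro d hd
    rw [hD, Finset.mem_filter] at hd
    obtain ⟨h1, h2, h3, _⟩ := mem_DDs hN1 hd.1
    refine ⟨h1, h2, fun p hp hpd => ?_⟩
    rw [hS, Finset.mem_filter]
    exact ⟨Nat.mem_primeFactors.2 ⟨hp, hpd.trans hd.2, hn0⟩, h3 p hp hpd⟩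
  have hterm : ∀ p ∈ PPs N c, ∀ q ∈ QQs N e, ∀ d ∈ DDs N e (r - 3),
      (if p * q * d ∣ n then w (n / (p * q * d)) else 0) ≤
        (if p = n.minFac then 1 else 0) * ((if q ∈ S then 1 else 0) * (if d ∈ D then 1 else 0)) := by
    intro p hp q hq d hd
    have hnn : (0 : ℝ) ≤ (if p = n.minFac then 1 else 0) *
        ((if q ∈ S then 1 else 0) * (if d ∈ D then 1 else 0)) := by
      refine mul_nonneg ?_ (mul_nonneg ?_ ?_) <;> split_ifs <;> norm_num
    by_cases h0 : p * q * d ∣ n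
    · rw [if_pos h0]
      by_cases hw0 : w (n / (p * q * d)) = 0
      · rw [hw0]
        exact hnn
      · have hk : n = p * q * d * (n / (p * q * d)) := (Nat.mul_div_cancel' h0).symm
        have hk4 := long_ge hc.le he hr her hh hn hp hq hd hk
        have e1 := p_eq hc he hh hw hp hq hd hk hk4 hw0
        obtain ⟨hqp, hq1, _⟩ := mem_QQs he.le hN1 hq
        have e2 : q ∈ S := by
          rw [hS, Finset.mem_filter]
          refine ⟨Nat.mem_primeFactors.2 ⟨hqp, ?_, hn0⟩, lt_of_le_of_lt ?_ hq1⟩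
          · exact (Dvd.intro_left _ rfl : q ∣ p * q).trans ((Dvd.intro _ rfl : p * q ∣ p * q * d).trans h0)
          · exact Real.rpow_le_rpow_of_exponent_le hN1 (by linarith)
        have e3 : d ∈ D := by
          rw [hD, Finset.mem_filter]
          exact ⟨hd, (Dvd.intro_left _ rfl : d ∣ p * q * d).trans h0⟩
        rw [if_pos e1, if_pos e2, if_pos e3]
        simpa using hw.w1 _ hk4
    · rw [if_neg h0]
      exact hnn
  constructor
  · unfold cof
    refine Finset.sum_nonneg fun p _ => Finset.sum_nonneg fun q _ => Finset.sum_nonneg fun d _ => ?_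
    split_ifs
    · exact hw.w0 _
    · exact le_refl _
  · have h1 : cof N c e r w n ≤ ∑ p ∈ PPs N c, ∑ q ∈ QQs N e, ∑ d ∈ DDs N e (r - 3),
        ((if p = n.minFac then (1 : ℝ) else 0) * ((if q ∈ S then 1 else 0) * (if d ∈ D then 1 else 0))) := by
      unfold cof
      exact Finset.sum_le_sum fun p hp => Finset.sum_le_sum fun q hq =>
        Finset.sum_le_sum fun d hd => hterm p hp q hq d hd
    have h2 : ∑ p ∈ PPs N c, ∑ q ∈ QQs N e, ∑ d ∈ DDs N e (r - 3),
        ((if p = n.minFac then (1 : ℝ) else 0) * ((if q ∈ S then 1 else 0) * (if d ∈ D then 1 else 0))) =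
        (∑ p ∈ PPs N c, if p = n.minFac then (1 : ℝ) else 0) * ((∑ q ∈ QQs N e, if q ∈ S then (1 : ℝ) else 0) *
          ∑ d ∈ DDs N e (r - 3), if d ∈ D then (1 : ℝ) else 0) := by
      rw [Finset.sum_mul]
      refine Finset.sum_congr rfl fun p _ => ?_
      rw [Finset.sum_mul, Finset.mul_sum]
      refine Finset.sum_congr rfl fun q _ => ?_
      rw [Finset.mul_sum, Finset.mul_sum]
    have h3 : (∑ p ∈ PPs N c, if p = n.minFac then (1 : ℝ) else 0) ≤ 1 := by
      rw [Finset.sum_ite_eq']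
      split_ifs <;> norm_num
    have h4 : (∑ q ∈ QQs N e, if q ∈ S then (1 : ℝ) else 0) ≤ S.card := by
      rw [← Finset.sum_filter, Finset.sum_const, nsmul_eq_mul, mul_one]
      exact_mod_cast Finset.card_le_card (fun q hq => (Finset.mem_filter.1 hq).2)
    have h5 : (∑ d ∈ DDs N e (r - 3), if d ∈ D then (1 : ℝ) else 0) ≤ D.card := by
      rw [← Finset.sum_filter, Finset.sum_const, nsmul_eq_mul, mul_one]
      exact_mod_cast Finset.card_le_card (fun q hq => (Finset.mem_filter.1 hq).2)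
    have h40 : 0 ≤ (∑ q ∈ QQs N e, if q ∈ S then (1 : ℝ) else 0) :=
      Finset.sum_nonneg fun _ _ => by split_ifs <;> norm_num
    have h50 : 0 ≤ (∑ d ∈ DDs N e (r - 3), if d ∈ D then (1 : ℝ) else 0) :=
      Finset.sum_nonneg fun _ _ => by split_ifs <;> norm_num
    have h6 : (6 / e) ≥ 1 := by
      rw [ge_iff_le, le_div_iff₀ he]
      linarith
    calc cof N c e r w n ≤ _ := h1
      _ = _ := h2
      _ ≤ 1 * ((S.card : ℝ) * D.card) :=
          mul_le_mul h3 (mul_le_mul h4 h5 h50 (Nat.cast_nonneg _)) (mul_nonneg h40 h50) zero_le_one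
      _ ≤ (S.card : ℝ) * (S.card : ℝ) ^ (r - 3) := by
          rw [one_mul]
          refine mul_le_mul_of_nonneg_left ?_ (Nat.cast_nonneg _)
          exact_mod_cast hDcard
      _ = (S.card : ℝ) ^ (r - 3 + 1) := by rw [pow_succ, mul_comm]
      _ ≤ (6 / e) ^ (r - 3 + 1) := pow_le_pow_left₀ (Nat.cast_nonneg _) hScard _
      _ ≤ (6 / e) ^ r := pow_le_pow_right₀ h6 (by omega)

lemma wt_pI (hh : Num N c e) : Wt N c pI where
  w0 := fun k => by unfold pI; split_ifs <;> norm_num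
  w1 := fun k _ => by unfold pI; split_ifs <;> norm_num
  wr := fun k hk hw p hp hpk => by
    have hkp : k.Prime := by
      by_contra h
      exact hw (by unfold pI; rw [if_neg h])
    rw [(Nat.prime_dvd_prime_iff_eq hp hkp).1 hpk]
    exact hh.hz4.trans hk

lemma Wp_nonneg (z : ℝ) : 0 ≤ Wp z := by
  unfold Wp
  refine Finset.prod_nonneg fun p hp => ?_
  have hp2 := (Pool.Agent.Lib.MP391708.QPA.FL.mem_PB.1 hp).1.two_le
  have h1 : (1 : ℝ) ≤ p := by exact_mod_cast (by omega : 1 ≤ p)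
  rw [sub_nonneg, div_le_one (by linarith)]
  exact h1

lemma wt_w0 (hh : Num N c e) : Wt N c (w0 N c) where
  w0 := fun k => by
    unfold w0 rInd
    refine div_nonneg (by split_ifs <;> norm_num) (mul_nonneg (Wp_nonneg _) ?_)
    exact Real.log_natCast_nonneg k
  w1 := fun k hk => by
    have hN := hh.hN
    have hN0 : 0 < N := by linarith
    have h1 : Real.log N / 4 ≤ Real.log k := by
      have h := Real.log_le_log (by positivity) hk
      rw [Real.log_rpow hN0] at h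
      linarith
    have h2 : 1 ≤ Wp (zz N c) * Real.log k :=
      hh.hW.trans (mul_le_mul_of_nonneg_left h1 (Wp_nonneg _))
    have h3 : rInd (zz N c) k ≤ 1 := by
      unfold rInd
      split_ifs <;> norm_num
    unfold w0
    rw [div_le_one (by linarith)]
    linarith
  wr := fun k _ hw p hp hpk => by
    have hR : Rough (zz N c) k := by
      by_contra h
      exact hw (by unfold w0 rInd; rw [if_neg h, zero_div])
    exact hR p hp hpk

lemma fr_card (hh : 1 ≤ N) (hr : 3 ≤ r) (he : 0 ≤ e) (hc : 0 ≤ c) (hL : 1 ≤ Real.log N)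
    (h : fr N c e r n ≠ 0) : n.primeFactorsList.length = r := by
  unfold fr cof at h
  obtain ⟨p, hp, h⟩ := Finset.exists_ne_zero_of_sum_ne_zero h
  obtain ⟨q, hq, h⟩ := Finset.exists_ne_zero_of_sum_ne_zero h
  obtain ⟨d, hd, h⟩ := Finset.exists_ne_zero_of_sum_ne_zero h
  have h0 : p * q * d ∣ n := by
    by_contra hcon
    exact h (if_neg hcon)
  rw [if_pos h0] at h
  set k := n / (p * q * d) with hk
  have hn : n = p * q * d * k := (Nat.mul_div_cancel' h0).symm
  have hkp : k.Prime := by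
    by_contra h'
    exact h (by unfold pI; rw [if_neg h'])
  have hpp := (mem_PPs hc hL hp).1
  have hqp := (mem_QQs he hh hq).1
  obtain ⟨hd0, hds, _⟩ := mem_DDs hh hd
  have e1 : ArithmeticFunction.cardFactors n = r := by
    rw [hn, ArithmeticFunction.cardFactors_mul (mul_ne_zero (mul_ne_zero hpp.ne_zero hqp.ne_zero) hd0)
      hkp.ne_zero, ArithmeticFunction.cardFactors_mul (mul_ne_zero hpp.ne_zero hqp.ne_zero) hd0,
      ArithmeticFunction.cardFactors_mul hpp.ne_zero hqp.ne_zero,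
      ArithmeticFunction.cardFactors_apply_prime hpp, ArithmeticFunction.cardFactors_apply_prime hqp,
      ArithmeticFunction.cardFactors_apply_prime hkp, ArithmeticFunction.cardFactors_apply, hds]
    omega
  rw [ArithmeticFunction.cardFactors_apply] at e1
  exact e1

lemma dens_one : Pool.Agent.Lib.MP_3efbeb_nt.SV.SieveM.Dens 1 (fun p => 1 / (p : ℝ)) := by
  intro p hp
  have h2 : (2 : ℝ) ≤ p := by exact_mod_cast hp.two_le
  refine ⟨by positivity, by norm_num, ?_⟩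
  have h3 : 1 / (p : ℝ) ≤ 1 / 2 := one_div_le_one_div_of_le (by norm_num) h2
  refine h3.trans (le_of_eq ?_)
  norm_num

lemma Wp_ge {z : ℝ} (hz : 2 ≤ z) : 1 ≤ (4 * (1 + Real.log z)) ^ 16 * Wp z := by
  have h := Pool.Agent.Lib.MP_3efbeb_nt.SV.SieveM.prod_ge 1 hz dens_one
  simpa [Wp] using h

lemma eventually_num (hc : 0 < c) (he : 0 < e) : ∀ᶠ N : ℝ in atTop, Num N c e := by
  have tl := Real.tendsto_log_atTop
  have a1 : ∀ᶠ N : ℝ in atTop, 4 ≤ N := eventually_ge_atTop 4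
  have a2 : ∀ᶠ N : ℝ in atTop, 1 < Real.log N := tl.eventually (eventually_gt_atTop 1)
  have a3 : ∀ᶠ N : ℝ in atTop, 2 ≤ zz N c := by
    have h : Tendsto (fun x : ℝ => x ^ (5 * c)) atTop atTop := tendsto_rpow_atTop (by linarith)
    exact (h.comp tl).eventually (eventually_ge_atTop 2)
  have b : ∀ s t : ℝ, 0 < t → ∀ᶠ N : ℝ in atTop, 2 * Real.log N ^ s ≤ N ^ t := by
    intro s t ht
    have h := (isLittleO_log_rpow_rpow_atTop s ht).bound (show (0 : ℝ) < 1 / 2 by norm_num)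
    filter_upwards [h, a1, a2] with N hN h4 hL
    rw [Real.norm_of_nonneg (Real.rpow_nonneg (by linarith) _),
      Real.norm_of_nonneg (Real.rpow_nonneg (by linarith) _)] at hN
    linarith
  have a4 : ∀ᶠ N : ℝ in atTop, zz N c ≤ N ^ (e / 3) := by
    filter_upwards [b (5 * c) (e / 3) (by positivity), a2] with N h hL
    have : 0 ≤ Real.log N ^ (5 * c) := Real.rpow_nonneg (by linarith) _
    unfold zz
    linarith
  have a5 : ∀ᶠ N : ℝ in atTop, zz N c ≤ N ^ ((1 : ℝ) / 4) := by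
    filter_upwards [b (5 * c) (1 / 4) (by positivity), a2] with N h hL
    have : 0 ≤ Real.log N ^ (5 * c) := Real.rpow_nonneg (by linarith) _
    unfold zz
    linarith
  have a6 := b (2 * c) (7 / 12) (by norm_num)
  have a7 : ∀ᶠ x : ℝ in atTop, (4 * (1 + 5 * c * Real.log x)) ^ 16 ≤ x / 4 := by
    have h := (isLittleO_log_rpow_atTop (show (0 : ℝ) < 1 / 32 by norm_num)).bound
      (show (0 : ℝ) < 1 / (4 * (1 + 5 * c)) by positivity)
    filter_upwards [h, eventually_ge_atTop (Real.exp 1), eventually_ge_atTop 16] with x h1 h2 h3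
    have hx0 : 0 < x := by linarith
    have hl : 1 ≤ Real.log x := (Real.le_log_iff_exp_le hx0).2 h2
    rw [Real.norm_of_nonneg (by linarith), Real.norm_of_nonneg (by positivity)] at h1
    have h4 : 4 * (1 + 5 * c * Real.log x) ≤ x ^ ((1 : ℝ) / 32) := by
      have h5 : 4 * (1 + 5 * c) * Real.log x ≤ x ^ ((1 : ℝ) / 32) := by
        have := mul_le_mul_of_nonneg_left h1 (show (0 : ℝ) ≤ 4 * (1 + 5 * c) by positivity)
        rwa [← mul_assoc, mul_one_div_cancel (by positivity), one_mul] at this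
      nlinarith
    calc (4 * (1 + 5 * c * Real.log x)) ^ 16 ≤ (x ^ ((1 : ℝ) / 32)) ^ 16 :=
          pow_le_pow_left₀ (by positivity) h4 _
      _ = x ^ ((1 : ℝ) / 2) := by
          rw [← Real.rpow_natCast, ← Real.rpow_mul hx0.le]
          norm_num
      _ = √x := (Real.sqrt_eq_rpow x).symm
      _ ≤ x / 4 := by
          rw [Real.sqrt_le_left (by linarith)]
          nlinarith
  filter_upwards [a1, a2, a3, a4, a5, a6, tl.eventually a7] with N h1 h2 h3 h4 h5 h6 h7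
  refine ⟨h1, h2, h3, h4, h5, h6, ?_⟩
  have h8 := Wp_ge h3
  have h9 : Real.log (zz N c) = 5 * c * Real.log (Real.log N) := by
    unfold zz
    rw [Real.log_rpow (by linarith)]
  rw [h9] at h8
  have h10 := mul_le_mul_of_nonneg_right h7 (Wp_nonneg (zz N c))
  linarith [mul_comm (Wp (zz N c)) (Real.log N / 4)]

end FRBM

open FRBM in
theorem specFRB : SpecFRB := by
  intro e r he he2 hr her
  have h6 : 1 ≤ 6 / e := by
    rw [le_div_iff₀ he]
    linarith
  refine ⟨(6 / e) ^ r, one_le_pow₀ h6, fun c hc => ?_⟩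
  obtain ⟨N₀, hN₀⟩ := Filter.eventually_atTop.1 (eventually_num (c := c) (e := e) (by linarith) he)
  refine ⟨N₀, fun N n hN hn hn4 => ?_⟩
  have hh := hN₀ N hN
  have hc0 : 0 < c := by linarith
  obtain ⟨f1, f2⟩ := cof_le hc0 he he2 hr her hh (wt_pI hh) hn hn4
  obtain ⟨g1, g2⟩ := cof_le hc0 he he2 hr her hh (wt_w0 hh) hn hn4
  exact ⟨f1, f2, g1, g2, fr_card (by linarith [hh.hN]) hr he.le hc0.le hh.hL.le⟩

end

end Pool.Agent.Lib.MP3efbeb.LG
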