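import Pool.Agent.Lib.MP_3efbeb_nt.LG.SpecC
import Pool.Agent.Lib.MP_3efbeb_nt.LG.FRB
import Pool.Agent.Lib.MP_3efbeb_nt.LG.CBB

/-!
# LongPatterns (MP_3efbeb_nt), module AD2: all blocks together (helper25)
-/

set_option autoImplicit false

namespace Pool.Agent.Lib.MP3efbeb.LG

open Finset MeasureTheory Filter
open Pool.Agent.Lib.MP391708.QPA (PB rInd Wp Rough)

noncomputable section

namespace AD2M

open FRBM (mem_IO two_pow_le list_prod_le card_prod_le card_large Wp_nonneg Wp_ge)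
open CBBM (mem_PR)

/-- the sum over the divisors `d` -/
def vv (N c e : ℝ) (s k : ℕ) : ℝ := ∑ d ∈ DE N e s, if d ∣ k then pL N (k / d) - w1 N c (k / d) else 0

/-- the weight of a block -/
def uu (C₂ N c e : ℝ) (s : ℕ) (A : ℝ) (k : ℕ) : ℝ :=
  if N / (8 * A) < k ∧ (k : ℝ) ≤ 4 * N / A then C₂⁻¹ * vv N c e s k else 0

/-- the ends of the blocks -/
def AA (X : ℝ) (i : ℕ) : ℝ := 2 ^ i * X

/-- the numerical hypotheses -/
structure Nm (N c e : ℝ) : Prop where
  hN : 16 ≤ N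
  hL : 2 ≤ Real.log N
  h2 : 2 ≤ zz N c
  hz : zz N c ≤ N ^ e
  hlong : zz N c * (8 * Real.log N ^ (2 * c)) ≤ N ^ ((3 : ℝ) / 4)
  hW : 1 ≤ Wp (zz N c) * (2 * Real.log N)

lemma mem_DE {N e : ℝ} (hN : 1 ≤ N) {s d : ℕ} (h : d ∈ DE N e s) :
    d ≠ 0 ∧ d.primeFactorsList.length = s ∧ (∀ p : ℕ, p.Prime → p ∣ d → N ^ e < p) ∧
      (d : ℝ) ≤ N ^ (2 * e * s) := by
  unfold DE at h
  rw [Finset.mem_filter, Finset.mem_Icc] at h
  obtain ⟨⟨h1, _⟩, h2, h3⟩ := h
  have hd : d ≠ 0 := by omega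
  refine ⟨hd, h2, fun p hp hpd => (h3 p ((Nat.mem_primeFactorsList hd).2 ⟨hp, hpd⟩)).1, ?_⟩
  have h4 := list_prod_le (y := N ^ (2 * e)) (by positivity) d.primeFactorsList
    (fun p hp => (h3 p hp).2)
  rwa [Nat.prod_primeFactorsList hd, h2, ← Real.rpow_natCast, ← Real.rpow_mul (by linarith)] at h4

section

variable {N c e : ℝ}

lemma pL_bd (h : Nm N c e) {m : ℕ} (hm : (m : ℝ) ≤ N ^ (2 : ℝ)) : 0 ≤ pL N m ∧ pL N m ≤ 1 := by
  have hN := h.hN
  have hL := h.hL
  unfold pL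
  split_ifs with hp
  · have h0 : 0 ≤ Real.log m := Real.log_natCast_nonneg m
    refine ⟨div_nonneg h0 (by linarith), ?_⟩
    rw [div_le_one (by linarith)]
    have h1 : (0 : ℝ) < m := by exact_mod_cast hp.pos
    have h2 := Real.log_le_log h1 hm
    rwa [Real.log_rpow (by linarith)] at h2
  · exact ⟨le_refl _, zero_le_one⟩

lemma w1_bd (h : Nm N c e) (m : ℕ) : 0 ≤ w1 N c m ∧ w1 N c m ≤ 1 := by
  have hL := h.hL
  have hW := h.hW
  have h1 : 0 ≤ rInd (zz N c) m ∧ rInd (zz N c) m ≤ 1 := by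
    unfold rInd
    split_ifs <;> norm_num
  have h2 : 1 ≤ 2 * Real.log N * Wp (zz N c) := by rw [mul_comm]; exact hW
  unfold w1
  refine ⟨div_nonneg h1.1 (by linarith), ?_⟩
  rw [div_le_one (by linarith)]
  linarith [h1.2]

lemma diff_bd (h : Nm N c e) {m : ℕ} (hm : (m : ℝ) ≤ N ^ (2 : ℝ)) :
    |pL N m - w1 N c m| ≤ 1 := by
  obtain ⟨h1, h2⟩ := pL_bd h hm
  obtain ⟨h3, h4⟩ := w1_bd h m
  rw [abs_le]
  constructor <;> linarith

lemma vv_bd (h : Nm N c e) (he : 0 < e) {k : ℕ} (hk0 : k ≠ 0) (hk : (k : ℝ) ≤ N ^ (2 : ℝ)) (s : ℕ) :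
    |vv N c e s k| ≤ (2 / e) ^ s := by
  classical
  have hN := h.hN
  set S : Finset ℕ := k.primeFactors.filter (fun p : ℕ => N ^ e < p) with hS
  set D : Finset ℕ := (DE N e s).filter (fun d => d ∣ k) with hD
  have hScard : (S.card : ℝ) ≤ 2 / e := card_large (by linarith : 1 < N) he hk0 hk
  have hDcard : D.card ≤ S.card ^ s := by
    refine card_prod_le S s D ?_
    intro d hd
    rw [hD, Finset.mem_filter] at hd
    obtain ⟨h1, h2, h3, _⟩ := mem_DE (by linarith) hd.1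
    refine ⟨h1, h2, fun p hp hpd => ?_⟩
    rw [hS, Finset.mem_filter]
    exact ⟨Nat.mem_primeFactors.2 ⟨hp, hpd.trans hd.2, hk0⟩, h3 p hp hpd⟩
  have h1 : |vv N c e s k| ≤ D.card := by
    unfold vv
    refine (Finset.abs_sum_le_sum_abs _ _).trans ?_
    rw [hD, Finset.card_filter]
    push_cast
    refine Finset.sum_le_sum fun d _ => ?_
    split_ifs with hd
    · refine diff_bd h (le_trans ?_ hk)
      exact_mod_cast Nat.div_le_self k d
    · rw [abs_zero]
  calc |vv N c e s k| ≤ D.card := h1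
    _ ≤ (S.card : ℝ) ^ s := by exact_mod_cast hDcard
    _ ≤ (2 / e) ^ s := pow_le_pow_left₀ (Nat.cast_nonneg _) hScard _

lemma vv_rough (h : Nm N c e) {s : ℕ} (hes : e * s ≤ 1 / 8) {A : ℝ} (hA0 : 0 < A)
    (hA : A ≤ Real.log N ^ (2 * c)) {k : ℕ} (hk : N / (8 * A) < k) (hv : vv N c e s k ≠ 0) :
    ∀ p : ℕ, p.Prime → p ∣ k → zz N c ≤ p := by
  intro p hp hpk
  have hN := h.hN
  have hN0 : 0 < N := by linarith
  unfold vv at hv
  obtain ⟨d, hd, hd2⟩ := Finset.exists_ne_zero_of_sum_ne_zero hv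
  have hdk : d ∣ k := by
    by_contra hcon
    exact hd2 (if_neg hcon)
  rw [if_pos hdk] at hd2
  obtain ⟨h1, -, h3, h4⟩ := mem_DE (by linarith) hd
  have hkd : k = d * (k / d) := (Nat.mul_div_cancel' hdk).symm
  rw [hkd] at hpk
  rcases (Nat.Prime.dvd_mul hp).1 hpk with h5 | h5
  · exact h.hz.trans (h3 p hp h5).le
  · by_cases hR : Rough (zz N c) (k / d)
    · exact hR p hp h5
    · have hw : w1 N c (k / d) = 0 := by
        unfold w1 rInd
        rw [if_neg hR, zero_div]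
      rw [hw, sub_zero] at hd2
      have hkp : (k / d).Prime := by
        by_contra hcon
        exact hd2 (by unfold pL; rw [if_neg hcon])
      rw [(Nat.prime_dvd_prime_iff_eq hp hkp).1 h5]
      -- `k / d` is large
      have h6 : (d : ℝ) ≤ N ^ ((1 : ℝ) / 4) := by
        refine h4.trans (Real.rpow_le_rpow_of_exponent_le (by linarith) ?_)
        linarith
      have h7 : (k : ℝ) = d * ((k / d : ℕ) : ℝ) := by exact_mod_cast hkd
      have hl0 : 0 < Real.log N := by linarith [h.hL]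
      have hlp : 0 < Real.log N ^ (2 * c) := Real.rpow_pos_of_pos hl0 _
      have hz0 : 0 < zz N c := by linarith [h.h2]
      by_contra hcon
      push Not at hcon
      have h8 : (k : ℝ) < N ^ ((1 : ℝ) / 4) * zz N c := by
        rw [h7]
        calc (d : ℝ) * ((k / d : ℕ) : ℝ) ≤ N ^ ((1 : ℝ) / 4) * ((k / d : ℕ) : ℝ) :=
              mul_le_mul_of_nonneg_right h6 (Nat.cast_nonneg _)
          _ < N ^ ((1 : ℝ) / 4) * zz N c := mul_lt_mul_of_pos_left hcon (by positivity)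
      have h9 : N < N ^ ((1 : ℝ) / 4) * zz N c * (8 * A) := by
        rw [div_lt_iff₀ (by positivity)] at hk
        exact hk.trans (mul_lt_mul_of_pos_right h8 (by positivity))
      have h10 : N ^ ((1 : ℝ) / 4) * zz N c * (8 * A) ≤ N := by
        calc N ^ ((1 : ℝ) / 4) * zz N c * (8 * A)
            ≤ N ^ ((1 : ℝ) / 4) * zz N c * (8 * Real.log N ^ (2 * c)) := by gcongr
          _ = N ^ ((1 : ℝ) / 4) * (zz N c * (8 * Real.log N ^ (2 * c))) := by ring
          _ ≤ N ^ ((1 : ℝ) / 4) * N ^ ((3 : ℝ) / 4) :=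
              mul_le_mul_of_nonneg_left h.hlong (by positivity)
          _ = N := by
              rw [← Real.rpow_add hN0]
              norm_num
      linarith

lemma sq_N (h : Nm N c e) : 4 * N ≤ N ^ (2 : ℝ) := by
  have hN := h.hN
  have : N ^ (2 : ℝ) = N * N := by
    rw [show (2 : ℝ) = ((2 : ℕ) : ℝ) by norm_num, Real.rpow_natCast]
    ring
  rw [this]
  nlinarith

lemma uu_bd (h : Nm N c e) (he : 0 < e) {s : ℕ} {C₂ A : ℝ} (hC : (2 / e) ^ s ≤ C₂) (hC0 : 0 < C₂)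
    (hA : 1 ≤ A) (k : ℕ) : |uu C₂ N c e s A k| ≤ 1 := by
  have hN := h.hN
  unfold uu
  split_ifs with hk
  · have hk0 : k ≠ 0 := by
      rintro rfl
      have : 0 < N / (8 * A) := by positivity
      simp only [Nat.cast_zero] at hk
      linarith [hk.1]
    have hk2 : (k : ℝ) ≤ N ^ (2 : ℝ) := by
      refine hk.2.trans (le_trans ?_ (sq_N h))
      exact div_le_self (by linarith) hA
    rw [abs_mul, abs_of_pos (inv_pos.mpr hC0), inv_mul_le_iff₀ hC0, mul_one]
    exact (vv_bd h he hk0 hk2 s).trans hC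
  · rw [abs_zero]
    exact zero_le_one

/-- one term of a block -/
lemma uu_term (h : Nm N c e) {s : ℕ} {C₂ A : ℝ} (hA : 1 ≤ A) {p n : ℕ} (hp : p ∈ PR A) (hd : p ∣ n)
    (hu : uu C₂ N c e s A (n / p) ≠ 0) : N / 8 < n ∧ (n : ℝ) ≤ 8 * N := by
  have hN := h.hN
  obtain ⟨hp1, hp2, hp3⟩ := mem_PR (by linarith) hp
  have hk : N / (8 * A) < (n / p : ℕ) ∧ ((n / p : ℕ) : ℝ) ≤ 4 * N / A := by
    by_contra hcon
    exact hu (if_neg hcon)
  have hn : (n : ℝ) = p * ((n / p : ℕ) : ℝ) := by exact_mod_cast (Nat.mul_div_cancel' hd).symm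
  have hA0 : 0 < A := by linarith
  have hk0 : (0 : ℝ) < (n / p : ℕ) := lt_trans (by positivity) hk.1
  constructor
  · rw [hn]
    have h1 : N / 8 = A * (N / (8 * A)) := by field_simp
    rw [h1]
    exact mul_lt_mul'' hp2 hk.1 hA0.le (by positivity)
  · rw [hn]
    calc (p : ℝ) * ((n / p : ℕ) : ℝ) ≤ 2 * A * (4 * N / A) :=
          mul_le_mul hp3 hk.2 hk0.le (by positivity)
      _ = 8 * N := by field_simp; ring

lemma uu_block (h : Nm N c e) (hc : 1 ≤ c) (he : 0 < e) {s : ℕ} (hes : e * s ≤ 1 / 8) {C₂ A b η D : ℝ}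
    (hC : (2 / e) ^ s ≤ C₂) (hC1 : 1 ≤ C₂) (hA : Real.log N ^ c ≤ A) (hA' : A ≤ Real.log N ^ (2 * c))
    (hUE : ∀ (q : ℕ) [NeZero q] (χ : DirichletCharacter ℂ q) (E : Set ℝ), (q : ℝ) ≤ Real.log N ^ b →
      MeasurableSet E → E ⊆ Set.Icc (-N) N → volume E ≤ ENNReal.ofReal (N ^ η) →
      ∫ t in E, ‖DP (SV N A) (fun k => ((∑ d ∈ DE N e s, if d ∣ k then pL N (k / d) - w1 N c (k / d)
        else 0 : ℝ) : ℂ) * χ k) t‖ ^ 2 ≤ (N / A) ^ 2 / Real.log N ^ D) :
    Bk2 N c A b η D (uu C₂ N c e s A) := by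
  have hN := h.hN
  have hL := h.hL
  have hA1 : 1 ≤ A := (Real.one_le_rpow (by linarith) (by linarith)).trans hA
  refine ⟨hA, hA', uu_bd h he hC (by linarith) hA1, ?_, ?_, ?_⟩
  · intro k hk
    by_contra hcon
    exact hk (if_neg hcon)
  · intro k hk
    have hcon : N / (8 * A) < k ∧ (k : ℝ) ≤ 4 * N / A := by
      by_contra hcon
      exact hk (if_neg hcon)
    refine vv_rough h hes (by linarith) hA' hcon.1 ?_
    intro h0
    refine hk ?_
    unfold uu
    rw [h0, mul_zero, ite_self]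
  · intro q _ χ E hq hE hE2 hE3
    have h1 := hUE q χ E hq hE hE2 hE3
    have h2 : ∀ t, DP (SV N A) (fun k => (uu C₂ N c e s A k : ℂ) * χ k) t =
        (C₂⁻¹ : ℝ) * DP (SV N A) (fun k => ((∑ d ∈ DE N e s, if d ∣ k then pL N (k / d) - w1 N c (k / d)
        else 0 : ℝ) : ℂ) * χ k) t := by
      intro t
      unfold DP
      rw [Finset.mul_sum]
      refine Finset.sum_congr rfl fun k hk => ?_
      have h3 : N / (8 * A) < k ∧ (k : ℝ) ≤ 4 * N / A :=
        mem_IO (by positivity) (by positivity) hk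
      have h4 : uu C₂ N c e s A k = C₂⁻¹ * ∑ d ∈ DE N e s, if d ∣ k then pL N (k / d) - w1 N c (k / d)
          else 0 := if_pos h3
      beta_reduce
      rw [h4, Complex.ofReal_mul]
      ring
    have h5 : ∀ t, ‖DP (SV N A) (fun k => (uu C₂ N c e s A k : ℂ) * χ k) t‖ ^ 2 =
        (C₂⁻¹) ^ 2 * ‖DP (SV N A) (fun k => ((∑ d ∈ DE N e s, if d ∣ k then pL N (k / d) -
          w1 N c (k / d) else 0 : ℝ) : ℂ) * χ k) t‖ ^ 2 := by
      intro t
      rw [h2, norm_mul, mul_pow, Complex.norm_real, Real.norm_of_nonneg (by positivity)]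
    simp_rw [h5]
    rw [integral_const_mul]
    refine le_trans ?_ h1
    refine mul_le_of_le_one_left (integral_nonneg fun t => by positivity) ?_
    have h6 : C₂⁻¹ ≤ 1 := inv_le_one_of_one_le₀ hC1
    have h7 : 0 ≤ C₂⁻¹ := by positivity
    nlinarith

end

/-- the union of the blocks -/
lemma sum_blocks {X : ℝ} (hX : 0 ≤ X) (F : ℕ → ℝ) (a : ℕ) :
    ∑ i ∈ range a, ∑ p ∈ PR (AA X i), F p = ∑ p ∈ (IO X (2 ^ a * X)).filter Nat.Prime, F p := by
  induction a with
  | zero =>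
    simp [IO]
  | succ a ih =>
    rw [Finset.sum_range_succ, ih]
    unfold PR AA IO
    rw [Finset.sum_filter, Finset.sum_filter, Finset.sum_filter,
      show (2 : ℝ) * (2 ^ a * X) = 2 ^ (a + 1) * X by ring]
    have h1 : (1 : ℝ) ≤ 2 ^ a := one_le_pow₀ (by norm_num)
    refine Finset.sum_Ioc_consecutive _ (Nat.floor_le_floor ?_) (Nat.floor_le_floor ?_)
    · nlinarith
    · rw [pow_succ]
      nlinarith

lemma eventually_nm {c e : ℝ} (hc : 0 < c) (he : 0 < e) : ∀ᶠ N : ℝ in atTop, Nm N c e := by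
  have tl := Real.tendsto_log_atTop
  have a1 : ∀ᶠ N : ℝ in atTop, 16 ≤ N := eventually_ge_atTop 16
  have a2 : ∀ᶠ N : ℝ in atTop, 2 ≤ Real.log N := tl.eventually (eventually_ge_atTop 2)
  have b : ∀ s t : ℝ, 0 < t → ∀ᶠ N : ℝ in atTop, 8 * Real.log N ^ s ≤ N ^ t := by
    intro s t ht
    have h := (isLittleO_log_rpow_rpow_atTop s ht).bound (show (0 : ℝ) < 1 / 8 by norm_num)
    filter_upwards [h, a1, a2] with N hN h4 hL
    rw [Real.norm_of_nonneg (Real.rpow_nonneg (by linarith) _),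
      Real.norm_of_nonneg (Real.rpow_nonneg (by linarith) _)] at hN
    linarith
  filter_upwards [a1, a2, FRBM.eventually_num (c := c) (e := e) hc he, b (5 * c) e he,
    b (7 * c) (3 / 4) (by norm_num)] with N h1 h2 h3 h4 h5
  have hl0 : 0 < Real.log N := by linarith
  refine ⟨h1, h2, h3.h2, ?_, ?_, ?_⟩
  · have : 0 ≤ Real.log N ^ (5 * c) := Real.rpow_nonneg (by linarith) _
    unfold zz
    linarith
  · unfold zz
    calc Real.log N ^ (5 * c) * (8 * Real.log N ^ (2 * c))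
        = 8 * (Real.log N ^ (5 * c) * Real.log N ^ (2 * c)) := by ring
      _ = 8 * Real.log N ^ (7 * c) := by
          rw [← Real.rpow_add hl0]
          congr 2
          ring
      _ ≤ N ^ ((3 : ℝ) / 4) := h5
  · have h6 := h3.hW
    have h7 := Wp_nonneg (zz N c)
    nlinarith

/-- products of two weights -/
lemma diff_eq {N c e : ℝ} {r n : ℕ} : f2 N c e r n - g2 N c e r n =
    ∑ p ∈ PPs N c, if p ∣ n then vv N c e (r - 2) (n / p) else 0 := by
  unfold f2 g2 co2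
  rw [← Finset.sum_sub_distrib]
  refine Finset.sum_congr rfl fun p hp => ?_
  have hpp : p.Prime := (Finset.mem_filter.1 hp).2
  rw [← Finset.sum_sub_distrib]
  split_ifs with hpn
  · unfold vv
    refine Finset.sum_congr rfl fun d _ => ?_
    have h1 : p * d ∣ n ↔ d ∣ n / p := (Nat.dvd_div_iff_mul_dvd hpn).symm
    by_cases h2 : d ∣ n / p
    · rw [if_pos (h1.2 h2), if_pos (h1.2 h2), if_pos h2, Nat.div_div_eq_div_mul]
    · rw [if_neg (fun h3 => h2 (h1.1 h3)), if_neg (fun h3 => h2 (h1.1 h3)), if_neg h2, sub_zero]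
  · refine Finset.sum_eq_zero fun d _ => ?_
    have h1 : ¬ p * d ∣ n := fun h2 => hpn ((Dvd.intro _ rfl : p ∣ p * d).trans h2)
    rw [if_neg h1, if_neg h1, sub_zero]

section

variable {N c e : ℝ}

lemma AA_ge {X : ℝ} (hX : 0 ≤ X) (i : ℕ) : X ≤ AA X i := by
  unfold AA
  have h1 : (1 : ℝ) ≤ 2 ^ i := one_le_pow₀ (by norm_num)
  nlinarith

lemma AA_le {X : ℝ} (hX : 1 ≤ X) {i : ℕ} (hi : i < ⌊Real.logb 2 X⌋₊) : 2 * AA X i ≤ X * X := by
  unfold AA
  have h1 : (2 : ℝ) ^ (i + 1) ≤ 2 ^ ⌊Real.logb 2 X⌋₊ := pow_le_pow_right₀ (by norm_num) (by omega)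
  have h2 := h1.trans (two_pow_le hX)
  rw [pow_succ] at h2
  nlinarith

/-- at most one block contributes -/
lemma one_block (h : Nm N c e) (hc : 1 ≤ c) (he : 0 < e) {s : ℕ} (hes : e * s ≤ 1 / 8) {C₂ : ℝ}
    (hC : (2 / e) ^ s ≤ C₂) (hC1 : 1 ≤ C₂) (n : ℕ) :
    |∑ i ∈ range ⌊Real.logb 2 (Real.log N ^ c)⌋₊, cd (AA (Real.log N ^ c) i)
      (uu C₂ N c e s (AA (Real.log N ^ c) i)) n| ≤ 1 ∧
    ((∑ i ∈ range ⌊Real.logb 2 (Real.log N ^ c)⌋₊, cd (AA (Real.log N ^ c) i)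
      (uu C₂ N c e s (AA (Real.log N ^ c) i)) n ≠ 0) → N / 8 < n ∧ (n : ℝ) ≤ 8 * N) := by
  have hN := h.hN
  have hL := h.hL
  have hl0 : 0 < Real.log N := by linarith
  set X := Real.log N ^ c with hX
  set a := ⌊Real.logb 2 X⌋₊ with ha
  have hX1 : 1 ≤ X := Real.one_le_rpow (by linarith) (by linarith)
  have hXX : X * X = Real.log N ^ (2 * c) := by
    rw [hX, ← Real.rpow_add hl0]
    congr 1
    ring
  have hzlt : X * X < zz N c := by
    rw [hXX]
    unfold zz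
    exact Real.rpow_lt_rpow_of_exponent_lt (by linarith) (by linarith)
  by_cases hE : ∃ i ∈ range a, ∃ p ∈ PR (AA X i), p ∣ n ∧ uu C₂ N c e s (AA X i) (n / p) ≠ 0
  · obtain ⟨i0, hi0, p0, hp0, hd0, hu0⟩ := hE
    have hA0 : 1 ≤ AA X i0 := hX1.trans (AA_ge (by linarith) _)
    -- the prime is determined
    have key : ∀ i ∈ range a, ∀ p ∈ PR (AA X i), p ∣ n → p = p0 := by
      intro i hi p hp hd
      obtain ⟨hp1, hp2, hp3⟩ := mem_PR (by linarith) hp0
      obtain ⟨hq1, hq2, hq3⟩ := mem_PR (by linarith [hX1.trans (AA_ge (by linarith : 0 ≤ X) i)]) hp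
      have hcut : N / (8 * AA X i0) < (n / p0 : ℕ) ∧ ((n / p0 : ℕ) : ℝ) ≤ 4 * N / AA X i0 := by
        by_contra hcon
        exact hu0 (if_neg hcon)
      have hvv : vv N c e s (n / p0) ≠ 0 := by
        intro h0
        refine hu0 ?_
        unfold uu
        rw [h0, mul_zero, ite_self]
      have hrough := vv_rough h hes (by linarith : 0 < AA X i0)
        (by
          rw [← hXX]
          have := AA_le hX1 (Finset.mem_range.1 hi0)
          linarith) hcut.1 hvv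
      rw [← Nat.mul_div_cancel' hd0] at hd
      rcases (Nat.Prime.dvd_mul hq1).1 hd with h1 | h1
      · exact (Nat.prime_dvd_prime_iff_eq hq1 hp1).1 h1
      · have h2 := hrough p hq1 h1
        have h3 := AA_le hX1 (Finset.mem_range.1 hi)
        exfalso
        linarith
    have hsum : ∑ i ∈ range a, cd (AA X i) (uu C₂ N c e s (AA X i)) n =
        uu C₂ N c e s (AA X i0) (n / p0) := by
      rw [Finset.sum_eq_single_of_mem i0 hi0]
      · unfold cd
        rw [Finset.sum_eq_single_of_mem p0 hp0, if_pos hd0]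
        intro p hp hne
        exact if_neg fun hd => hne (key i0 hi0 p hp hd)
      · intro i hi hne
        unfold cd
        refine Finset.sum_eq_zero fun p hp => if_neg fun hd => hne ?_
        have h1 := key i hi p hp hd
        subst h1
        obtain ⟨-, hp2, hp3⟩ := mem_PR (by linarith) hp0
        obtain ⟨-, hq2, hq3⟩ := mem_PR (by linarith [hX1.trans (AA_ge (by linarith : 0 ≤ X) i)]) hp
        unfold AA at hp2 hp3 hq2 hq3
        have h2 : (2 : ℝ) ^ i0 < 2 ^ (i + 1) := by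
          rw [pow_succ]
          by_contra hcon
          push Not at hcon
          have := mul_le_mul_of_nonneg_right hcon (by linarith : 0 ≤ X)
          linarith
        have h3 : (2 : ℝ) ^ i < 2 ^ (i0 + 1) := by
          rw [pow_succ]
          by_contra hcon
          push Not at hcon
          have := mul_le_mul_of_nonneg_right hcon (by linarith : 0 ≤ X)
          linarith
        have h4 := (pow_lt_pow_iff_right₀ (by norm_num : (1 : ℝ) < 2)).1 h2
        have h5 := (pow_lt_pow_iff_right₀ (by norm_num : (1 : ℝ) < 2)).1 h3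
        omega
    rw [hsum]
    exact ⟨uu_bd h he hC (by linarith) hA0 _, fun _ => uu_term h hA0 hp0 hd0 hu0⟩
  · push Not at hE
    have hsum : ∑ i ∈ range a, cd (AA X i) (uu C₂ N c e s (AA X i)) n = 0 := by
      refine Finset.sum_eq_zero fun i hi => ?_
      unfold cd
      refine Finset.sum_eq_zero fun p hp => ?_
      split_ifs with hd
      · exact hE i hi p hp hd
      · rfl
    rw [hsum, abs_zero]
    exact ⟨zero_le_one, fun h0 => absurd rfl h0⟩

/-- the blocks give the difference -/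
lemma blocks_eq (h : Nm N c e) (hc : 1 ≤ c) {r : ℕ} {C₂ : ℝ} (hC1 : 1 ≤ C₂) {n : ℕ}
    (hn : N / 2 < n) (hn4 : (n : ℝ) ≤ 4 * N) :
    C₂ * ∑ i ∈ range ⌊Real.logb 2 (Real.log N ^ c)⌋₊, cd (AA (Real.log N ^ c) i)
      (uu C₂ N c e (r - 2) (AA (Real.log N ^ c) i)) n = f2 N c e r n - g2 N c e r n := by
  have hN := h.hN
  have hL := h.hL
  set X := Real.log N ^ c with hX
  have hX1 : 1 ≤ X := Real.one_le_rpow (by linarith) (by linarith)
  have h1 : ∀ i ∈ range ⌊Real.logb 2 X⌋₊, cd (AA X i) (uu C₂ N c e (r - 2) (AA X i)) n =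
      ∑ p ∈ PR (AA X i), C₂⁻¹ * (if p ∣ n then vv N c e (r - 2) (n / p) else 0) := by
    intro i _
    have hA1 : 1 ≤ AA X i := hX1.trans (AA_ge (by linarith) _)
    unfold cd
    refine Finset.sum_congr rfl fun p hp => ?_
    obtain ⟨hp1, hp2, hp3⟩ := mem_PR (by linarith) hp
    split_ifs with hd
    · have hnn : (n : ℝ) = p * ((n / p : ℕ) : ℝ) := by exact_mod_cast (Nat.mul_div_cancel' hd).symm
      have hp0 : (0 : ℝ) < p := by linarith
      have hk : ((n / p : ℕ) : ℝ) = n / p := by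
        rw [hnn]
        field_simp
      refine if_pos ⟨?_, ?_⟩
      · rw [hk, div_lt_div_iff₀ (by positivity) hp0]
        nlinarith
      · rw [hk, div_le_div_iff₀ hp0 (by linarith)]
        nlinarith
    · rw [mul_zero]
  rw [Finset.sum_congr rfl h1, sum_blocks (by linarith), ← Finset.mul_sum, ← mul_assoc,
    mul_inv_cancel₀ (by linarith), one_mul, diff_eq]
  rfl

end

lemma cs_sum {a : ℕ} (z : ℕ → ℂ) : ‖∑ i ∈ range a, z i‖ ^ 2 ≤ a * ∑ i ∈ range a, ‖z i‖ ^ 2 := by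
  have h1 := norm_sum_le (range a) z
  have h2 : (∑ i ∈ range a, ‖z i‖) ^ 2 ≤ ((range a).card : ℝ) * ∑ i ∈ range a, ‖z i‖ ^ 2 :=
    sq_sum_le_card_mul_sum_sq
  rw [Finset.card_range] at h2
  exact (pow_le_pow_left₀ (norm_nonneg _) h1 2).trans h2

end AD2M

open AD2M in
theorem specAD2 (hSU2 : SpecSU2) (hUE2 : SpecUE2) : SpecAD2 := by
  intro D e r hD he hr her
  obtain ⟨η, hη, hη2, hUE⟩ := hUE2
  obtain ⟨D', c₀, hD', hc₀, hSU⟩ := hSU2 η (D + 3) hη (by linarith) (by linarith)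
  set C₂ : ℝ := 2 * (2 / e) ^ r + 1 with hC₂
  have he8 : e ≤ 1 / 16 := by
    have h1 : (2 : ℝ) ≤ r := by exact_mod_cast hr
    nlinarith
  have h2e : 1 ≤ 2 / e := by
    rw [le_div_iff₀ he]
    linarith
  have hC0 : 1 ≤ C₂ := by
    have : 0 ≤ (2 / e) ^ r := by positivity
    rw [hC₂]
    linarith
  have hCs : (2 / e) ^ (r - 2) ≤ C₂ := by
    have h1 : (2 / e) ^ (r - 2) ≤ (2 / e) ^ r := pow_le_pow_right₀ h2e (by omega)
    have : 0 ≤ (2 / e) ^ r := by positivity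
    rw [hC₂]
    linarith
  have hes : e * ((r - 2 : ℕ) : ℝ) ≤ 1 / 8 := by
    have h1 : ((r - 2 : ℕ) : ℝ) ≤ r := by exact_mod_cast Nat.sub_le r 2
    nlinarith
  refine ⟨C₂, c₀, hC0, by linarith, fun c hc => ?_⟩
  have hc1 : 1 ≤ c := by linarith
  obtain ⟨N₁, hN₁⟩ := hSU c hc
  obtain ⟨N₂, hN₂⟩ := hUE D' (8 * (D + 3) + 16) c e (r - 2) hD' (by linarith) hc1 (by linarith) he hes
  have ev : ∀ᶠ N : ℝ in atTop, N₁ ≤ N ∧ N₂ ≤ N ∧ Nm N c e ∧ C₂ ^ 2 ≤ Real.log N ∧
      Real.logb 2 (Real.log N ^ c) ≤ Real.log N := by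
    have tl := Real.tendsto_log_atTop
    have a1 : ∀ᶠ x : ℝ in atTop, Real.logb 2 (x ^ c) ≤ x := by
      have h := Real.isLittleO_log_id_atTop.bound (show (0 : ℝ) < Real.log 2 / c by
        have := Real.log_pos (by norm_num : (1 : ℝ) < 2)
        positivity)
      filter_upwards [h, eventually_ge_atTop 1] with x h1 h2
      have hl2 := Real.log_pos (by norm_num : (1 : ℝ) < 2)
      rw [Real.norm_of_nonneg (Real.log_nonneg h2), id, Real.norm_of_nonneg (by linarith)] at h1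
      unfold Real.logb
      rw [Real.log_rpow (by linarith), div_le_iff₀ hl2]
      have h3 := mul_le_mul_of_nonneg_left h1 (by linarith : 0 ≤ c)
      calc c * Real.log x ≤ c * (Real.log 2 / c * x) := h3
        _ = x * Real.log 2 := by field_simp
    filter_upwards [eventually_ge_atTop N₁, eventually_ge_atTop N₂,
      eventually_nm (c := c) (e := e) (by linarith) he, tl.eventually (eventually_ge_atTop (C₂ ^ 2)),
      tl.eventually a1] with N h1 h2 h3 h4 h5
    exact ⟨h1, h2, h3, h4, h5⟩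
  obtain ⟨N₀, hN₀⟩ := Filter.eventually_atTop.1 ev
  refine ⟨N₀, fun N hN => ?_⟩
  obtain ⟨h1, h2, h3, h4, h5⟩ := hN₀ N hN
  have hN16 := h3.hN
  have hL := h3.hL
  have hl0 : 0 < Real.log N := by linarith
  set X := Real.log N ^ c with hX
  set a := ⌊Real.logb 2 X⌋₊ with ha
  have hX1 : 1 ≤ X := Real.one_le_rpow (by linarith) (by linarith)
  have hXX : X * X = Real.log N ^ (2 * c) := by
    rw [hX, ← Real.rpow_add hl0]
    congr 1
    ring
  refine ⟨fun n => C₂ * ∑ i ∈ range a, cd (AA X i) (uu C₂ N c e (r - 2) (AA X i)) n, ?_, ?_, ?_, ?_⟩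
  · intro n hn hn4
    exact blocks_eq h3 hc1 hC0 hn hn4
  · intro n hn
    have h6 := (one_block h3 hc1 he hes hCs hC0 n).2 (right_ne_zero_of_mul hn)
    exact ⟨h6.1, by linarith [h6.2]⟩
  · intro n
    rw [abs_mul, abs_of_pos (by linarith : 0 < C₂)]
    have h6 := (one_block h3 hc1 he hes hCs hC0 n).1
    calc C₂ * _ ≤ C₂ * 1 := mul_le_mul_of_nonneg_left h6 (by linarith)
      _ = C₂ := mul_one _
  · intro α J
    have hblk : ∀ i ∈ range a, ∑ j ∈ range J, ‖∑ n ∈ Ioc j (j + Hn N c),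
        (cd (AA X i) (uu C₂ N c e (r - 2) (AA X i)) n : ℂ) * ee (α * n)‖ ^ 2 ≤
          N * (Hn N c : ℝ) ^ 2 / Real.log N ^ (D + 3) := by
      intro i hi
      have hA1 : X ≤ AA X i := AA_ge (by linarith) _
      have hA2 : AA X i ≤ Real.log N ^ (2 * c) := by
        rw [← hXX]
        have := AA_le hX1 (Finset.mem_range.1 hi)
        linarith
      refine hN₁ N (AA X i) _ h1 (uu_block h3 hc1 he hes hCs hC0 hA1 hA2 ?_) α J
      intro q _ χ E hq hE hE2 hE3
      exact hN₂ N (AA X i) q χ E h2 hA1 hA2 hq hE hE2 hE3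
    have ha1 : (a : ℝ) ≤ Real.log N := (Nat.floor_le (Real.logb_nonneg (by norm_num) hX1)).trans h5
    have h6 : ∀ j, ‖∑ n ∈ Ioc j (j + Hn N c), ((C₂ * ∑ i ∈ range a, cd (AA X i)
        (uu C₂ N c e (r - 2) (AA X i)) n : ℝ) : ℂ) * ee (α * n)‖ ^ 2 ≤
        C₂ ^ 2 * (a * ∑ i ∈ range a, ‖∑ n ∈ Ioc j (j + Hn N c),
          (cd (AA X i) (uu C₂ N c e (r - 2) (AA X i)) n : ℂ) * ee (α * n)‖ ^ 2) := by
      intro j
      have h7 : ∑ n ∈ Ioc j (j + Hn N c), ((C₂ * ∑ i ∈ range a, cd (AA X i)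
          (uu C₂ N c e (r - 2) (AA X i)) n : ℝ) : ℂ) * ee (α * n) =
          (C₂ : ℂ) * ∑ i ∈ range a, ∑ n ∈ Ioc j (j + Hn N c),
            (cd (AA X i) (uu C₂ N c e (r - 2) (AA X i)) n : ℂ) * ee (α * n) := by
        rw [Finset.sum_comm, Finset.mul_sum]
        refine Finset.sum_congr rfl fun n _ => ?_
        rw [← Finset.sum_mul]
        push_cast
        ring
      rw [h7, norm_mul, mul_pow, Complex.norm_real, Real.norm_of_nonneg (by linarith)]
      exact mul_le_mul_of_nonneg_left (cs_sum _) (by positivity)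
    have h8 : (0 : ℝ) ≤ N * (Hn N c : ℝ) ^ 2 / Real.log N ^ (D + 3) :=
      div_nonneg (by positivity) (Real.rpow_nonneg hl0.le _)
    calc ∑ j ∈ range J, ‖∑ n ∈ Ioc j (j + Hn N c), ((C₂ * ∑ i ∈ range a, cd (AA X i)
        (uu C₂ N c e (r - 2) (AA X i)) n : ℝ) : ℂ) * ee (α * n)‖ ^ 2
        ≤ ∑ j ∈ range J, C₂ ^ 2 * (a * ∑ i ∈ range a, ‖∑ n ∈ Ioc j (j + Hn N c),
          (cd (AA X i) (uu C₂ N c e (r - 2) (AA X i)) n : ℂ) * ee (α * n)‖ ^ 2) :=
          Finset.sum_le_sum fun j _ => h6 j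
      _ = C₂ ^ 2 * (a * ∑ i ∈ range a, ∑ j ∈ range J, ‖∑ n ∈ Ioc j (j + Hn N c),
          (cd (AA X i) (uu C₂ N c e (r - 2) (AA X i)) n : ℂ) * ee (α * n)‖ ^ 2) := by
          rw [← Finset.mul_sum, ← Finset.mul_sum, Finset.sum_comm]
      _ ≤ C₂ ^ 2 * (a * ∑ i ∈ range a, N * (Hn N c : ℝ) ^ 2 / Real.log N ^ (D + 3)) := by
          refine mul_le_mul_of_nonneg_left (mul_le_mul_of_nonneg_left
            (Finset.sum_le_sum hblk) (Nat.cast_nonneg _)) (by positivity)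
      _ = C₂ ^ 2 * (a * a * (N * (Hn N c : ℝ) ^ 2 / Real.log N ^ (D + 3))) := by
          rw [Finset.sum_const, Finset.card_range, nsmul_eq_mul]
          ring
      _ ≤ Real.log N * (Real.log N * Real.log N * (N * (Hn N c : ℝ) ^ 2 / Real.log N ^ (D + 3))) := by
          gcongr
      _ = N * (Hn N c : ℝ) ^ 2 / Real.log N ^ D := by
          rw [Real.rpow_add hl0, show (3 : ℝ) = ((3 : ℕ) : ℝ) by norm_num, Real.rpow_natCast]
          have h9 : Real.log N ^ D ≠ 0 := (Real.rpow_pos_of_pos hl0 _).ne'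
          field_simp

end

end Pool.Agent.Lib.MP3efbeb.LG
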