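import Pool.Agent.Lib.MP_3efbeb_nt.LG.SpecB
import Pool.Agent.Lib.MP_3efbeb_nt.LG.CBB
import Pool.Agent.Lib.MP_3efbeb_nt.SV.Sieve

/-!
# LongPatterns (MP_3efbeb_nt), module ADD: all blocks together (helper63)
-/

set_option autoImplicit false

namespace Pool.Agent.Lib.MP3efbeb.LG

open Finset MeasureTheory
open Pool.Agent.Lib.MP391708.QPA (PB rInd Wp Rough)

namespace ADDM

lemma sum_dyadic (X : ℝ) (hX : 0 ≤ X) (F : ℕ → ℝ) (a : ℕ) :
    ∑ p ∈ (IO X (2 ^ a * X)).filter Nat.Prime, F p = ∑ i ∈ range a, ∑ p ∈ PR (2 ^ i * X), F p := by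
  induction a with
  | zero => simp [IO]
  | succ a ih =>
    rw [Finset.sum_range_succ, ← ih]
    unfold PR IO
    rw [Finset.sum_filter, Finset.sum_filter, Finset.sum_filter]
    have e : 2 * (2 ^ a * X) = 2 ^ (a + 1) * X := by ring
    rw [e]
    have h1 : (1 : ℝ) ≤ 2 ^ a := one_le_pow₀ (by norm_num)
    refine (Finset.sum_Ioc_consecutive _ ?_ ?_).symm
    · apply Nat.floor_le_floor
      nlinarith
    · apply Nat.floor_le_floor
      rw [pow_succ]
      nlinarith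

lemma prod_le (M : ℝ) (hM : 0 ≤ M) : ∀ l : List ℕ, (∀ p ∈ l, (p : ℝ) ≤ M) →
    ((l.prod : ℕ) : ℝ) ≤ M ^ l.length
  | [], _ => by simp
  | p :: l, h => by
    rw [List.prod_cons, List.length_cons, pow_succ', Nat.cast_mul]
    exact mul_le_mul (h p List.mem_cons_self)
      (prod_le M hM l fun q hq => h q (List.mem_cons_of_mem _ hq)) (Nat.cast_nonneg _) hM

lemma mem_DDs {N e : ℝ} {s d : ℕ} (h : d ∈ DDs N e s) : 1 ≤ d ∧ d.primeFactorsList.length = s ∧
    ∀ p ∈ d.primeFactorsList, N ^ (e / 3) < p ∧ (p : ℝ) ≤ N ^ (2 * e / 3) := by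
  unfold DDs at h
  rw [mem_filter, mem_Icc] at h
  exact ⟨h.1.1, h.2.1, h.2.2⟩

lemma DDs_le {N e : ℝ} {s d : ℕ} (hN : 1 ≤ N) (hes : e * s ≤ 1 / 4)
    (h : d ∈ DDs N e s) : (d : ℝ) ≤ N ^ ((1 : ℝ) / 6) := by
  obtain ⟨h1, h2, h3⟩ := mem_DDs h
  have h4 := prod_le (N ^ (2 * e / 3)) (Real.rpow_nonneg (by linarith) _) d.primeFactorsList
    fun p hp => (h3 p hp).2
  rw [Nat.prod_primeFactorsList (by omega), h2, ← Real.rpow_natCast, ← Real.rpow_mul (by linarith)] at h4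
  refine h4.trans (Real.rpow_le_rpow_of_exponent_le hN ?_)
  linarith

lemma cnt_DDs {N e : ℝ} (hN : 1 < N) (he : 0 < e) (s k : ℕ) (hk : k ≠ 0) (hkN : (k : ℝ) ≤ N ^ 2) :
    (((DDs N e s).filter (fun d => d ∣ k)).card : ℝ) ≤ (6 / e) ^ s := by
  obtain ⟨S, hS⟩ : ∃ S : Finset ℕ, S = k.primeFactors.filter (fun p : ℕ => N ^ (e / 3) < p) := ⟨_, rfl⟩
  have h1 : (S.card : ℝ) ≤ 6 / e := by
    have h2 := CBBM.cnt hN (e := e / 3) (by positivity) S k hk hkN (by
      intro q hq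
      rw [hS, mem_filter] at hq
      exact ⟨Nat.prime_of_mem_primeFactors hq.1, hq.2, Nat.dvd_of_mem_primeFactors hq.1⟩)
    have h3 : 2 / (e / 3) = 6 / e := by
      field_simp
      norm_num
    rw [h3] at h2
    exact h2
  have h2 : ((DDs N e s).filter (fun d => d ∣ k)).card ≤
      (Fintype.piFinset (fun _ : Fin s => S)).card := by
    refine Finset.card_le_card_of_injOn (fun d (i : Fin s) => d.primeFactorsList.getD i 0) ?_ ?_
    · intro d hd
      rw [Finset.mem_coe, mem_filter] at hd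
      obtain ⟨hd1, hd2⟩ := hd
      obtain ⟨g1, g2, g3⟩ := mem_DDs hd1
      rw [Finset.mem_coe, Fintype.mem_piFinset]
      intro i
      have hi : (i : ℕ) < d.primeFactorsList.length := by rw [g2]; exact i.2
      have hm : d.primeFactorsList.getD i 0 ∈ d.primeFactorsList := by
        rw [List.getD_eq_getElem _ _ hi]
        exact List.getElem_mem hi
      rw [hS, mem_filter, Nat.mem_primeFactors]
      exact ⟨⟨Nat.prime_of_mem_primeFactorsList hm,
        (Nat.dvd_of_mem_primeFactorsList hm).trans hd2, hk⟩, (g3 _ hm).1⟩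
    · intro d hd d' hd' h
      rw [Finset.mem_coe, mem_filter] at hd hd'
      obtain ⟨g1, g2, -⟩ := mem_DDs hd.1
      obtain ⟨g1', g2', -⟩ := mem_DDs hd'.1
      have h3 : d.primeFactorsList = d'.primeFactorsList := by
        apply List.ext_getElem (by rw [g2, g2'])
        intro i hi hi'
        have h4 := congrFun h ⟨i, by rw [← g2]; exact hi⟩
        simp only at h4
        rw [List.getD_eq_getElem _ _ hi, List.getD_eq_getElem _ _ hi'] at h4
        exact h4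
      rw [← Nat.prod_primeFactorsList (n := d) (by omega), h3,
        Nat.prod_primeFactorsList (n := d') (by omega)]
  rw [Fintype.card_piFinset_const] at h2
  calc (((DDs N e s).filter (fun d => d ∣ k)).card : ℝ) ≤ ((S.card ^ s : ℕ) : ℝ) := by exact_mod_cast h2
    _ = (S.card : ℝ) ^ s := by push_cast; ring
    _ ≤ (6 / e) ^ s := pow_le_pow_left₀ (Nat.cast_nonneg _) h1 s

/-- the numerical facts -/
structure Fac (N c e C : ℝ) : Prop where
  big : CBBM.Big N c e
  z3 : zz N c ≤ N ^ (e / 3)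
  l8 : 8 * Real.log N ^ (2 * c) ≤ N ^ ((1 : ℝ) / 4)
  w : (4 * (1 + Real.log (zz N c))) ^ 16 ≤ Real.log N / 4
  a1 : Real.logb 2 (Real.log N ^ c) ≤ Real.log N
  hC : C ≤ Real.log N

lemma exists_fac (c e C : ℝ) (hc : 1 ≤ c) (he : 0 < e) : ∃ N₀ : ℝ, ∀ N : ℝ, N₀ ≤ N → Fac N c e C := by
  obtain ⟨N₁, hN₁⟩ := CBBM.exists_big e he c hc
  have h1 : ∀ᶠ N : ℝ in Filter.atTop, ‖Real.log N ^ (5 * c)‖ ≤ 1 * ‖N ^ (e / 3)‖ :=
    (isLittleO_log_rpow_rpow_atTop (5 * c) (by positivity)).bound one_pos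
  have h2 : ∀ᶠ N : ℝ in Filter.atTop, ‖Real.log N ^ (2 * c)‖ ≤ (1 / 8) * ‖N ^ ((1 : ℝ) / 4)‖ :=
    (isLittleO_log_rpow_rpow_atTop (2 * c) (by norm_num)).bound (by norm_num)
  have h3 : ∀ᶠ L : ℝ in Filter.atTop, ‖Real.log L ^ 16‖ ≤
      (1 / (4 * (4 * (1 + 5 * c)) ^ 16)) * ‖L‖ :=
    (Real.isLittleO_pow_log_id_atTop (n := 16)).bound (by positivity)
  have h4 : ∀ᶠ L : ℝ in Filter.atTop, ‖Real.log L‖ ≤ (Real.log 2 / c) * ‖L‖ :=
    (Real.isLittleO_log_id_atTop).bound (div_pos (Real.log_pos (by norm_num)) (by linarith))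
  have h5 : ∀ᶠ N : ℝ in Filter.atTop, max C 3 ≤ Real.log N :=
    Real.tendsto_log_atTop.eventually_ge_atTop _
  obtain ⟨N₂, hN₂⟩ := Filter.eventually_atTop.1 (h1.and (h2.and (h5.and
    ((Real.tendsto_log_atTop.eventually h3).and (Real.tendsto_log_atTop.eventually h4)))))
  refine ⟨max N₁ (max N₂ 16), fun N hN => ?_⟩
  have g := hN₁ N ((le_max_left _ _).trans hN)
  obtain ⟨k1, k2, k5, k3, k4⟩ := hN₂ N ((le_max_left _ _).trans ((le_max_right _ _).trans hN))
  have hN16 := g.hN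
  have hL3 : 3 ≤ Real.log N := (le_max_right _ _).trans k5
  have hL0 : 0 < Real.log N := by linarith
  have hlL : 1 ≤ Real.log (Real.log N) := by
    have e1 : Real.exp 1 ≤ Real.log N := by
      have := Real.exp_one_lt_d9
      linarith
    have := Real.log_le_log (Real.exp_pos 1) e1
    rwa [Real.log_exp] at this
  refine ⟨g, ?_, ?_, ?_, ?_, (le_max_left _ _).trans k5⟩
  · rw [Real.norm_of_nonneg (Real.rpow_nonneg hL0.le _),
      Real.norm_of_nonneg (Real.rpow_nonneg (by linarith) _), one_mul] at k1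
    exact k1
  · rw [Real.norm_of_nonneg (Real.rpow_nonneg hL0.le _),
      Real.norm_of_nonneg (Real.rpow_nonneg (by linarith) _)] at k2
    linarith
  · rw [Real.norm_of_nonneg (by positivity), Real.norm_of_nonneg hL0.le] at k3
    have e1 : Real.log (zz N c) = 5 * c * Real.log (Real.log N) := by
      unfold zz
      rw [Real.log_rpow hL0]
    rw [e1]
    have e2 : 4 * (1 + 5 * c * Real.log (Real.log N)) ≤
        4 * (1 + 5 * c) * Real.log (Real.log N) := by nlinarith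
    have e3 : 0 ≤ 4 * (1 + 5 * c * Real.log (Real.log N)) := by positivity
    calc (4 * (1 + 5 * c * Real.log (Real.log N))) ^ 16
        ≤ (4 * (1 + 5 * c) * Real.log (Real.log N)) ^ 16 := pow_le_pow_left₀ e3 e2 16
      _ = (4 * (1 + 5 * c)) ^ 16 * Real.log (Real.log N) ^ 16 := by rw [mul_pow]
      _ ≤ (4 * (1 + 5 * c)) ^ 16 * ((1 / (4 * (4 * (1 + 5 * c)) ^ 16)) * Real.log N) :=
        mul_le_mul_of_nonneg_left k3 (by positivity)
      _ = Real.log N / 4 := by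
        have : (4 * (1 + 5 * c)) ^ 16 ≠ 0 := by positivity
        field_simp
  · rw [Real.norm_of_nonneg (by linarith), Real.norm_of_nonneg hL0.le] at k4
    have hc0 : 0 < c := by linarith
    have hl2 : 0 < Real.log 2 := Real.log_pos (by norm_num)
    unfold Real.logb
    rw [Real.log_rpow hL0, div_le_iff₀ hl2]
    have e1 : c * Real.log (Real.log N) ≤ c * (Real.log 2 / c * Real.log N) :=
      mul_le_mul_of_nonneg_left k4 hc0.le
    have e2 : c * (Real.log 2 / c * Real.log N) = Real.log N * Real.log 2 := by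
      field_simp
    linarith

lemma wd {N c e C : ℝ} (h : Fac N c e C) (m : ℕ) (hm : N ^ ((1 : ℝ) / 4) ≤ m) :
    |pI m - w0 N c m| ≤ 1 := by
  have g := h.big
  have hL := g.hL
  have hN := g.hN
  have hz2 : 2 ≤ zz N c := by
    unfold zz
    calc (2 : ℝ) ≤ Real.log N := hL
      _ = Real.log N ^ (1 : ℝ) := (Real.rpow_one _).symm
      _ ≤ Real.log N ^ (5 * c) :=
        Real.rpow_le_rpow_of_exponent_le (by linarith) (by linarith [g.hc])
  have h1 : 1 ≤ (4 * (1 + Real.log (zz N c))) ^ (8 * 1 * (1 + 1)) *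
      ∏ p ∈ PB (zz N c), (1 - 1 / (p : ℝ)) := by
    refine MP_3efbeb_nt.SV.SieveM.prod_ge 1 hz2 (g := fun p => 1 / (p : ℝ)) ?_
    intro p hp
    have hp2 : (2 : ℝ) ≤ p := by exact_mod_cast hp.two_le
    refine ⟨by positivity, by simp, ?_⟩
    rw [div_le_div_iff₀ (by linarith) (by norm_num)]
    push_cast
    linarith
  have h2 : 1 ≤ (Real.log N / 4) * Wp (zz N c) := by
    have e1 : 0 ≤ Wp (zz N c) := by
      unfold Wp
      refine Finset.prod_nonneg fun p hp => ?_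
      have hp' : p.Prime := by
        unfold PB at hp
        exact (mem_filter.1 hp).2
      have hp2 : (2 : ℝ) ≤ p := by exact_mod_cast hp'.two_le
      have : 1 / (p : ℝ) ≤ 1 := by
        rw [div_le_one (by linarith)]
        linarith
      linarith
    refine h1.trans ?_
    have e2 := mul_le_mul_of_nonneg_right h.w e1
    unfold Wp at e2 ⊢
    norm_num at e2 ⊢
    exact e2
  have h3 : Real.log N / 4 ≤ Real.log m := by
    have := Real.log_le_log (Real.rpow_pos_of_pos (by linarith) _) hm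
    rw [Real.log_rpow (by linarith)] at this
    linarith
  have hW : 0 < Wp (zz N c) := by
    by_contra hcon
    push Not at hcon
    nlinarith
  have h4 : 1 ≤ Wp (zz N c) * Real.log m := by
    have := mul_le_mul_of_nonneg_left h3 hW.le
    linarith
  have h5 : 0 ≤ w0 N c m ∧ w0 N c m ≤ 1 := by
    unfold w0
    have e1 : 0 ≤ rInd (zz N c) m ∧ rInd (zz N c) m ≤ 1 := by
      unfold rInd
      split_ifs <;> norm_num
    refine ⟨div_nonneg e1.1 (by linarith), ?_⟩
    rw [div_le_one (by linarith)]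
    linarith [e1.2]
  have h6 : 0 ≤ pI m ∧ pI m ≤ 1 := by
    unfold pI
    split_ifs <;> norm_num
  rw [abs_le]
  constructor <;> linarith [h5.1, h5.2, h6.1, h6.2]

lemma w_ne {N c : ℝ} {m : ℕ} (h : pI m - w0 N c m ≠ 0) : m.Prime ∨ Rough (zz N c) m := by
  by_contra hcon
  rw [not_or] at hcon
  apply h
  unfold pI w0 rInd
  rw [if_neg hcon.1, if_neg hcon.2]
  simp

/-- the common weight -/
noncomputable def vs (N c e : ℝ) (s k : ℕ) : ℝ :=
  ∑ d ∈ DDs N e s, if d ∣ k then pI (k / d) - w0 N c (k / d) else 0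

/-- the range of the parameters of a block -/
structure Rg (N c e A B : ℝ) : Prop where
  hA : Real.log N ^ c ≤ A
  hA' : A ≤ Real.log N ^ (2 * c)
  hB : N ^ e ≤ B
  hB' : B ≤ N ^ ((1 : ℝ) / 10)

section

variable {N c e C A B : ℝ} {s : ℕ}

lemma Rg.A1 (h : Fac N c e C) (r : Rg N c e A B) : 1 ≤ A :=
  le_trans (Real.one_le_rpow (by linarith [h.big.hL]) (by linarith [h.big.hc])) r.hA

lemma Rg.B1 (h : Fac N c e C) (he : 0 < e) (r : Rg N c e A B) : 1 ≤ B :=
  le_trans (Real.one_le_rpow (by linarith [h.big.hN]) he.le) r.hB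

lemma long_ge (h : Fac N c e C) (he : 0 < e) (hes : e * s ≤ 1 / 4) (r : Rg N c e A B) {k d : ℕ}
    (hk : N / (8 * A * B) < k) (hd : d ∈ DDs N e s) (hdk : d ∣ k) :
    N ^ ((1 : ℝ) / 4) ≤ ((k / d : ℕ) : ℝ) := by
  have hN := h.big.hN
  have hN0 : (0 : ℝ) < N := by linarith
  have hA := r.A1 h
  have hB := r.B1 h he
  obtain ⟨m, rfl⟩ := hdk
  have hd1 : 0 < d := (mem_DDs hd).1
  rw [Nat.mul_div_cancel_left m hd1]
  by_contra hcon
  push Not at hcon
  have h1 := DDs_le (by linarith) hes hd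
  rw [div_lt_iff₀ (by positivity)] at hk
  push_cast at hk
  have h2 : (d : ℝ) * m ≤ N ^ ((1 : ℝ) / 6) * N ^ ((1 : ℝ) / 4) :=
    mul_le_mul h1 hcon.le (Nat.cast_nonneg _) (Real.rpow_nonneg hN0.le _)
  have h3 : 8 * A * B ≤ N ^ ((1 : ℝ) / 4) * N ^ ((1 : ℝ) / 10) :=
    mul_le_mul (by linarith [r.hA', h.l8]) r.hB' (by linarith) (Real.rpow_nonneg hN0.le _)
  have h4 : (d : ℝ) * m * (8 * A * B) ≤ (N ^ ((1 : ℝ) / 6) * N ^ ((1 : ℝ) / 4)) *
      (N ^ ((1 : ℝ) / 4) * N ^ ((1 : ℝ) / 10)) :=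
    mul_le_mul h2 h3 (by positivity) (by positivity)
  have h5 : (N ^ ((1 : ℝ) / 6) * N ^ ((1 : ℝ) / 4)) *
      (N ^ ((1 : ℝ) / 4) * N ^ ((1 : ℝ) / 10)) = N ^ ((23 : ℝ) / 30) := by
    rw [← Real.rpow_add hN0, ← Real.rpow_add hN0, ← Real.rpow_add hN0]
    norm_num
  have h6 : N ^ ((23 : ℝ) / 30) ≤ N ^ (1 : ℝ) :=
    Real.rpow_le_rpow_of_exponent_le (by linarith) (by norm_num)
  rw [Real.rpow_one] at h6
  rw [h5] at h4
  linarith

lemma k_le (h : Fac N c e C) (he : 0 < e) (r : Rg N c e A B) {k : ℕ}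
    (hk : (k : ℝ) ≤ 4 * N / (A * B)) : (k : ℝ) ≤ N ^ 2 := by
  have hN := h.big.hN
  have hA := r.A1 h
  have hB := r.B1 h he
  have h1 : 1 ≤ A * B := by nlinarith
  have h2 : 4 * N / (A * B) ≤ 4 * N := div_le_self (by linarith) h1
  nlinarith

lemma vs_bd (h : Fac N c e C) (he : 0 < e) (hes : e * s ≤ 1 / 4) (r : Rg N c e A B) {k : ℕ}
    (hk : N / (8 * A * B) < k) (hk' : (k : ℝ) ≤ 4 * N / (A * B)) : |vs N c e s k| ≤ (6 / e) ^ s := by
  have hN := h.big.hN
  have hA := r.A1 h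
  have hB := r.B1 h he
  have hk0 : k ≠ 0 := by
    rintro rfl
    have : 0 < N / (8 * A * B) := by positivity
    simp only [Nat.cast_zero] at hk
    linarith
  refine le_trans ?_ (cnt_DDs (N := N) (by linarith) he s k hk0 (k_le h he r hk'))
  unfold vs
  refine (Finset.abs_sum_le_sum_abs _ _).trans ?_
  rw [Finset.card_filter]
  push_cast
  refine Finset.sum_le_sum fun d hd => ?_
  by_cases hdk : d ∣ k
  · rw [if_pos hdk, if_pos hdk]
    exact wd h _ (long_ge h he hes r hk hd hdk)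
  · rw [if_neg hdk, if_neg hdk]
    simp

lemma vs_rough (h : Fac N c e C) (he : 0 < e) (he' : e ≤ 1 / 20) (hes : e * s ≤ 1 / 4) (r : Rg N c e A B) {k : ℕ}
    (hk : N / (8 * A * B) < k) (hv : vs N c e s k ≠ 0) (p : ℕ) (hp : p.Prime) (hpk : p ∣ k) :
    zz N c ≤ p := by
  have hN := h.big.hN
  unfold vs at hv
  obtain ⟨d, hd, hv⟩ := Finset.exists_ne_zero_of_sum_ne_zero hv
  have hdk : d ∣ k := by
    by_contra hcon
    rw [if_neg hcon] at hv
    exact hv rfl
  rw [if_pos hdk] at hv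
  have hlong := long_ge h he hes r hk hd hdk
  have hd1 := (mem_DDs hd).1
  have h1 : p ∣ d * (k / d) := by rwa [Nat.mul_div_cancel' hdk]
  rcases (Nat.Prime.dvd_mul hp).1 h1 with h2 | h2
  · have h3 : p ∈ d.primeFactorsList := (Nat.mem_primeFactorsList (by omega)).2 ⟨hp, h2⟩
    exact h.z3.trans ((mem_DDs hd).2.2 p h3).1.le
  · rcases w_ne hv with h3 | h3
    · rw [(Nat.prime_dvd_prime_iff_eq hp h3).1 h2]
      refine le_trans h.z3 (le_trans ?_ hlong)
      exact Real.rpow_le_rpow_of_exponent_le (by linarith) (by linarith)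
    · exact h3 p hp h2

end

/-- the weight of a block -/
noncomputable def ub (N c e C A B : ℝ) (s k : ℕ) : ℝ :=
  if N / (8 * A * B) < k ∧ (k : ℝ) ≤ 4 * N / (A * B) then vs N c e s k / C else 0

section

variable {N c e C A B E : ℝ} {s : ℕ}

lemma blk (h : Fac N c e C) (he : 0 < e) (he' : e ≤ 1 / 20) (hes : e * s ≤ 1 / 4)
    (r : Rg N c e A B) (hC : (6 / e) ^ s ≤ C) (hC1 : 1 ≤ C)
    (hE : ∀ t : ℝ, |t| ≤ Real.log N ^ E → ‖DP (SU N A B) (fun k => ((∑ d ∈ DDs N e s,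
      if d ∣ k then pI (k / d) - w0 N c (k / d) else 0 : ℝ) : ℂ)) t‖ ≤
        N / (A * B) / Real.log N ^ E) : Blk N c e A B E (ub N c e C A B s) := by
  have hN := h.big.hN
  have hA := r.A1 h
  have hB := r.B1 h he
  refine ⟨r.hA, r.hA', r.hB, r.hB', fun k => ?_, fun k hk => ?_, fun k hk p hp hpk => ?_,
    fun t ht => ?_⟩
  · unfold ub
    split_ifs with hc
    · rw [abs_div, abs_of_pos (by linarith : (0 : ℝ) < C), div_le_one (by linarith)]
      exact (vs_bd h he hes r hc.1 hc.2).trans hC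
    · simp
  · unfold ub at hk
    by_contra hcon
    rw [if_neg hcon] at hk
    exact hk rfl
  · unfold ub at hk
    have hc : N / (8 * A * B) < k ∧ (k : ℝ) ≤ 4 * N / (A * B) := by
      by_contra hcon
      rw [if_neg hcon] at hk
      exact hk rfl
    rw [if_pos hc] at hk
    refine vs_rough h he he' hes r hc.1 (fun h0 => hk ?_) p hp hpk
    rw [h0, zero_div]
  · have h1 : DP (SU N A B) (fun k => ((ub N c e C A B s k : ℝ) : ℂ)) t =
        ((1 / C : ℝ) : ℂ) * DP (SU N A B) (fun k => ((∑ d ∈ DDs N e s,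
          if d ∣ k then pI (k / d) - w0 N c (k / d) else 0 : ℝ) : ℂ)) t := by
      unfold DP
      rw [Finset.mul_sum]
      refine Finset.sum_congr rfl fun k hk => ?_
      have hc : N / (8 * A * B) < k ∧ (k : ℝ) ≤ 4 * N / (A * B) := by
        unfold SU IO at hk
        rw [mem_Ioc] at hk
        have hk0 : k ≠ 0 := by omega
        exact ⟨(Nat.floor_lt (by positivity)).1 hk.1, (Nat.le_floor_iff' hk0).1 hk.2⟩
      have h2 : ub N c e C A B s k = (1 / C) * ∑ d ∈ DDs N e s,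
          (if d ∣ k then pI (k / d) - w0 N c (k / d) else 0) := by
        unfold ub
        rw [if_pos hc]
        unfold vs
        ring
      simp only [h2]
      push_cast
      ring
    rw [h1, norm_mul, Complex.norm_real, Real.norm_of_nonneg (by positivity)]
    have h3 := hE t ht
    have h4 : 1 / C ≤ 1 := by
      rw [div_le_one (by linarith)]
      exact hC1
    calc 1 / C * _ ≤ 1 * _ := mul_le_mul_of_nonneg_right h4 (norm_nonneg _)
      _ ≤ _ := by rw [one_mul]; exact h3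

/-- the term of the pair `p, q` -/
noncomputable def GG (N c e : ℝ) (s n p q : ℕ) : ℝ :=
  if p * q ∣ n then vs N c e s (n / (p * q)) else 0

lemma cb_GG (h : Fac N c e C) (he : 0 < e) (r : Rg N c e A B) (hC1 : 1 ≤ C) {n : ℕ}
    (hn : N / 2 < n) (hn' : (n : ℝ) ≤ 4 * N) :
    C * cb A B (ub N c e C A B s) n = ∑ p ∈ PR A, ∑ q ∈ PR B, GG N c e s n p q := by
  have hN := h.big.hN
  have hA := r.A1 h
  have hB := r.B1 h he
  unfold cb
  rw [Finset.mul_sum]
  refine Finset.sum_congr rfl fun p hp => ?_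
  rw [Finset.mul_sum]
  refine Finset.sum_congr rfl fun q hq => ?_
  obtain ⟨hp1, hp2, hp3⟩ := CBBM.mem_PR (by linarith) hp
  obtain ⟨hq1, hq2, hq3⟩ := CBBM.mem_PR (by linarith) hq
  unfold GG
  by_cases hd : p * q ∣ n
  · rw [if_pos hd, if_pos hd]
    obtain ⟨k, rfl⟩ := hd
    have hpq : 0 < p * q := Nat.mul_pos hp1.pos hq1.pos
    rw [Nat.mul_div_cancel_left k hpq]
    have hk0 : (0 : ℝ) ≤ k := Nat.cast_nonneg _
    push_cast at hn hn'
    have hpq1 : A * B ≤ (p : ℝ) * q := mul_le_mul hp2.le hq2.le (by linarith) (by positivity)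
    have hpq2 : (p : ℝ) * q ≤ 4 * (A * B) := by
      calc (p : ℝ) * q ≤ (2 * A) * (2 * B) := mul_le_mul hp3 hq3 (by positivity) (by positivity)
        _ = _ := by ring
    have e1 := mul_le_mul_of_nonneg_right hpq1 hk0
    have e2 := mul_le_mul_of_nonneg_right hpq2 hk0
    have hAB : 0 < A * B := by positivity
    have hc : N / (8 * A * B) < k ∧ (k : ℝ) ≤ 4 * N / (A * B) := by
      constructor
      · rw [div_lt_iff₀ (by positivity)]
        nlinarith
      · rw [le_div_iff₀ hAB]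
        linarith
    unfold ub
    rw [if_pos hc]
    field_simp
  · rw [if_neg hd, if_neg hd, mul_zero]

lemma fr_sub (N c e : ℝ) (r n : ℕ) : fr N c e r n - gr N c e r n =
    ∑ p ∈ PPs N c, ∑ q ∈ QQs N e, GG N c e (r - 3) n p q := by
  unfold fr gr cof
  rw [← Finset.sum_sub_distrib]
  refine Finset.sum_congr rfl fun p hp => ?_
  rw [← Finset.sum_sub_distrib]
  refine Finset.sum_congr rfl fun q hq => ?_
  rw [← Finset.sum_sub_distrib]
  unfold GG vs
  by_cases hd : p * q ∣ n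
  · rw [if_pos hd]
    refine Finset.sum_congr rfl fun d _ => ?_
    by_cases hdd : p * q * d ∣ n
    · rw [if_pos hdd, if_pos hdd, if_pos ((Nat.dvd_div_iff_mul_dvd hd).2 hdd),
        Nat.div_div_eq_div_mul]
    · rw [if_neg hdd, if_neg hdd, if_neg (fun h => hdd ((Nat.dvd_div_iff_mul_dvd hd).1 h)), sub_zero]
  · rw [if_neg hd]
    refine Finset.sum_eq_zero fun d _ => ?_
    have hdd : ¬ p * q * d ∣ n := fun h => hd (dvd_trans (dvd_mul_right _ _) h)
    rw [if_neg hdd, if_neg hdd, sub_zero]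

/-- sums over all blocks -/
lemma sum_blocks (X Y : ℝ) (hX : 0 ≤ X) (hY : 0 ≤ Y) (a b : ℕ) (F : ℕ → ℕ → ℝ) :
    ∑ x ∈ range a ×ˢ range b, ∑ p ∈ PR (2 ^ x.1 * X), ∑ q ∈ PR (2 ^ x.2 * Y), F p q =
      ∑ p ∈ (IO X (2 ^ a * X)).filter Nat.Prime, ∑ q ∈ (IO Y (2 ^ b * Y)).filter Nat.Prime, F p q := by
  rw [Finset.sum_product, sum_dyadic X hX]
  refine Finset.sum_congr rfl fun i _ => ?_
  have hc := Finset.sum_comm (s := range b) (t := PR (2 ^ i * X))
    (f := fun j p => ∑ q ∈ PR (2 ^ j * Y), F p q)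
  refine hc.trans (Finset.sum_congr rfl fun p _ => ?_)
  rw [sum_dyadic Y hY]

lemma two_pow_le {X : ℝ} (hX : 1 ≤ X) {i : ℕ} (hi : i ≤ ⌊Real.logb 2 X⌋₊) : (2 : ℝ) ^ i ≤ X := by
  have h0 : 0 ≤ Real.logb 2 X := Real.logb_nonneg (by norm_num) hX
  have h1 : (i : ℝ) ≤ Real.logb 2 X := (Nat.le_floor_iff h0).1 hi
  rw [← Real.rpow_natCast]
  exact (Real.le_logb_iff_rpow_le (by norm_num) (by linarith)).1 h1

lemma rg (h : Fac N c e C) (he : 0 < e) (he' : e ≤ 1 / 20) {i j : ℕ}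
    (hi : i < ⌊Real.logb 2 (Real.log N ^ c)⌋₊) (hj : j < ⌊Real.logb 2 (N ^ e)⌋₊) :
    Rg N c e (2 ^ i * Real.log N ^ c) (2 ^ j * N ^ e) := by
  have hN := h.big.hN
  have hL := h.big.hL
  have hX : 1 ≤ Real.log N ^ c := Real.one_le_rpow (by linarith) (by linarith [h.big.hc])
  have hY : 1 ≤ N ^ e := Real.one_le_rpow (by linarith) he.le
  have h1 : (1 : ℝ) ≤ 2 ^ i := one_le_pow₀ (by norm_num)
  have h2 : (1 : ℝ) ≤ 2 ^ j := one_le_pow₀ (by norm_num)
  have h3 := two_pow_le hX hi.le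
  have h4 := two_pow_le hY hj.le
  refine ⟨by nlinarith, ?_, by nlinarith, ?_⟩
  · calc 2 ^ i * Real.log N ^ c ≤ Real.log N ^ c * Real.log N ^ c :=
        mul_le_mul_of_nonneg_right h3 (by linarith)
      _ = Real.log N ^ (2 * c) := by
        rw [← Real.rpow_add (by linarith)]
        ring_nf
  · calc 2 ^ j * N ^ e ≤ N ^ e * N ^ e := mul_le_mul_of_nonneg_right h4 (by linarith)
      _ = N ^ (2 * e) := by
        rw [← Real.rpow_add (by linarith)]
        ring_nf
      _ ≤ N ^ ((1 : ℝ) / 10) := Real.rpow_le_rpow_of_exponent_le (by linarith) (by linarith)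

/-- the condition of the terms of `n` with the small prime `p` -/
def cond (N c : ℝ) (n p : ℕ) : Prop :=
  n ≠ 0 ∧ (n : ℝ) ≤ 16 * N ∧ ∀ l : ℕ, l.Prime → l ∣ n → l = p ∨ zz N c ≤ l

open Classical in
lemma cb_le (h : Fac N c e C) {u : ℕ → ℝ} (hb : Blk N c e A B E u) (n : ℕ) :
    |cb A B u n| ≤ ∑ p ∈ PR A, ∑ q ∈ PR B, if p * q ∣ n ∧ cond N c n p then (1 : ℝ) else 0 := by
  unfold cb
  refine (Finset.abs_sum_le_sum_abs _ _).trans (Finset.sum_le_sum fun p hp => ?_)
  refine (Finset.abs_sum_le_sum_abs _ _).trans (Finset.sum_le_sum fun q hq => ?_)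
  by_cases hd : p * q ∣ n
  · rw [if_pos hd]
    by_cases hu : u (n / (p * q)) = 0
    · rw [hu, abs_zero]
      split_ifs <;> norm_num
    · obtain ⟨g1, -, g3, g4⟩ := CBBM.term h.big hb hp hq hd hu
      rw [if_pos ⟨hd, g1, g3, g4⟩]
      exact hb.bd _
  · rw [if_neg hd, abs_zero]
    split_ifs <;> norm_num

open Classical in
lemma total (h : Fac N c e C) (he : 0 < e) (n : ℕ) :
    ∑ p ∈ PPs N c, ∑ q ∈ QQs N e, (if p * q ∣ n ∧ cond N c n p then (1 : ℝ) else 0) ≤ 2 / e := by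
  have hN := h.big.hN
  have hL := h.big.hL
  have hX : 1 ≤ Real.log N ^ c := Real.one_le_rpow (by linarith) (by linarith [h.big.hc])
  by_cases hE : ∃ p ∈ PPs N c, p ∣ n ∧ cond N c n p
  · obtain ⟨p0, hp0, hd0, hc0⟩ := hE
    rw [Finset.sum_eq_single p0]
    · have h1 : ∑ q ∈ QQs N e, (if p0 * q ∣ n ∧ cond N c n p0 then (1 : ℝ) else 0) ≤
          (((QQs N e).filter (fun q => q ∣ n)).card : ℝ) := by
        rw [Finset.card_filter]
        push_cast
        refine Finset.sum_le_sum fun q _ => ?_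
        by_cases hq : q ∣ n
        · rw [if_pos hq]
          split_ifs <;> norm_num
        · rw [if_neg hq, if_neg (fun h => hq (dvd_trans (dvd_mul_left q p0) h.1))]
      refine h1.trans (CBBM.cnt (N := N) (by linarith) he _ n hc0.1 (by nlinarith [hc0.2.1]) ?_)
      intro q hq
      rw [mem_filter] at hq
      have hq1 := hq.1
      unfold QQs IO at hq1
      rw [mem_filter, mem_Ioc] at hq1
      exact ⟨hq1.2, (Nat.floor_lt (Real.rpow_nonneg (by linarith) _)).1 hq1.1.1, hq.2⟩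
    · intro p hp hne
      refine Finset.sum_eq_zero fun q _ => ?_
      rw [if_neg]
      rintro ⟨hd, -⟩
      have hp1 := hp
      unfold PPs IO at hp1
      rw [mem_filter, mem_Ioc] at hp1
      rcases hc0.2.2 p hp1.2 (dvd_trans (dvd_mul_right p q) hd) with h2 | h2
      · exact hne h2
      · have h3 := (Nat.le_floor_iff' hp1.2.ne_zero).1 hp1.1.2
        have h4 := two_pow_le hX le_rfl
        have h5 : Real.log N ^ c * Real.log N ^ c = Real.log N ^ (2 * c) := by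
          rw [← Real.rpow_add (by linarith)]
          ring_nf
        have h6 : zz N c = Real.log N ^ (2 * c) * Real.log N ^ (3 * c) := by
          unfold zz
          rw [← Real.rpow_add (by linarith)]
          ring_nf
        have h7 : (2 : ℝ) ≤ Real.log N ^ (3 * c) := by
          calc (2 : ℝ) ≤ Real.log N := hL
            _ = Real.log N ^ (1 : ℝ) := (Real.rpow_one _).symm
            _ ≤ _ := Real.rpow_le_rpow_of_exponent_le (by linarith) (by linarith [h.big.hc])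
        have h8 : 0 < Real.log N ^ (2 * c) := Real.rpow_pos_of_pos (by linarith) _
        nlinarith
    · intro h1
      exact absurd hp0 h1
  · push Not at hE
    have : ∑ p ∈ PPs N c, ∑ q ∈ QQs N e,
        (if p * q ∣ n ∧ cond N c n p then (1 : ℝ) else 0) = 0 := by
      refine Finset.sum_eq_zero fun p hp => Finset.sum_eq_zero fun q _ => ?_
      rw [if_neg]
      rintro ⟨hd, hc⟩
      exact hE p hp (dvd_trans (dvd_mul_right p q) hd) hc
    rw [this]
    positivity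

end

/-- Cauchy-Schwarz for a finite sum of complex numbers -/
lemma cs {ι : Type*} (S : Finset ι) (f : ι → ℂ) : ‖∑ x ∈ S, f x‖ ^ 2 ≤ S.card * ∑ x ∈ S, ‖f x‖ ^ 2 := by
  calc ‖∑ x ∈ S, f x‖ ^ 2 ≤ (∑ x ∈ S, ‖f x‖) ^ 2 :=
        pow_le_pow_left₀ (norm_nonneg _) (norm_sum_le _ _) 2
    _ ≤ _ := sq_sum_le_card_mul_sum_sq

end ADDM

open ADDM in
theorem specADD (hSUP : SpecSUP) (hUSR : SpecUSR) : SpecADD := by
  intro D e r hD he he' hr her
  obtain ⟨E, c₀, hE, hc₀, H⟩ := hSUP (D + 6) e (by linarith) he he'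
  obtain ⟨s, hs⟩ : ∃ s, s = r - 3 := ⟨_, rfl⟩
  have hes : e * (s : ℝ) ≤ 1 / 4 := by
    refine le_trans ?_ her
    apply mul_le_mul_of_nonneg_left _ he.le
    rw [hs]
    exact_mod_cast Nat.sub_le r 3
  obtain ⟨C, hC⟩ : ∃ C : ℝ, C = (6 / e) ^ s := ⟨_, rfl⟩
  have hC1 : 1 ≤ C := by
    rw [hC]
    apply one_le_pow₀
    rw [le_div_iff₀ he]
    linarith
  have h2e : 1 ≤ 2 / e := by
    rw [le_div_iff₀ he]
    linarith
  refine ⟨C * (2 / e), c₀, by nlinarith, hc₀, fun c hc => ?_⟩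
  obtain ⟨N₁, h1⟩ := H c hc
  obtain ⟨N₂, h2⟩ := hUSR c e E s (by linarith) he he' hes hE.le
  obtain ⟨N₃, h3⟩ := exists_fac c e C (by linarith) he
  refine ⟨max N₁ (max N₂ N₃), fun N hN => ?_⟩
  have hN1 : N₁ ≤ N := (le_max_left _ _).trans hN
  have hN2 : N₂ ≤ N := (le_max_left _ _).trans ((le_max_right _ _).trans hN)
  have hN3 : N₃ ≤ N := (le_max_right _ _).trans ((le_max_right _ _).trans hN)
  have h := h3 N hN3
  have hN16 := h.big.hN
  have hL := h.big.hL
  obtain ⟨X, hX⟩ : ∃ X : ℝ, X = Real.log N ^ c := ⟨_, rfl⟩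
  obtain ⟨Y, hY⟩ : ∃ Y : ℝ, Y = N ^ e := ⟨_, rfl⟩
  have hX0 : 0 ≤ X := by rw [hX]; exact Real.rpow_nonneg (by linarith) _
  have hY0 : 0 ≤ Y := by rw [hY]; exact Real.rpow_nonneg (by linarith) _
  obtain ⟨a, ha⟩ : ∃ a : ℕ, a = ⌊Real.logb 2 X⌋₊ := ⟨_, rfl⟩
  obtain ⟨b, hb⟩ : ∃ b : ℕ, b = ⌊Real.logb 2 Y⌋₊ := ⟨_, rfl⟩
  have hPP : PPs N c = (IO X (2 ^ a * X)).filter Nat.Prime := by
    rw [ha, hX]
    rfl
  have hQQ : QQs N e = (IO Y (2 ^ b * Y)).filter Nat.Prime := by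
    rw [hb, hY]
    rfl
  have hrg : ∀ x ∈ range a ×ˢ range b, Rg N c e (2 ^ x.1 * X) (2 ^ x.2 * Y) := by
    intro x hx
    rw [mem_product, mem_range, mem_range] at hx
    rw [hX, hY]
    exact rg h he he' (by rw [← hX, ← ha]; exact hx.1) (by rw [← hY, ← hb]; exact hx.2)
  let uu : ℕ × ℕ → ℕ → ℝ := fun x => ub N c e C (2 ^ x.1 * X) (2 ^ x.2 * Y) s
  have hblk : ∀ x ∈ range a ×ˢ range b, Blk N c e (2 ^ x.1 * X) (2 ^ x.2 * Y) E (uu x) := by
    intro x hx
    have r := hrg x hx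
    exact blk h he he' hes r hC.ge hC1 (h2 N _ _ hN2 r.hA r.hA' r.hB r.hB')
  have hcard : ((range a ×ˢ range b).card : ℝ) ≤ Real.log N ^ 2 := by
    rw [card_product, card_range, card_range]
    push_cast
    have hX1 : 1 ≤ X := by
      rw [hX]
      exact Real.one_le_rpow (by linarith) (by linarith [h.big.hc])
    have hY1 : 1 ≤ Y := by
      rw [hY]
      exact Real.one_le_rpow (by linarith) he.le
    have e1 : (a : ℝ) ≤ Real.log N := by
      rw [ha]
      refine (Nat.floor_le (Real.logb_nonneg (by norm_num) hX1)).trans ?_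
      rw [hX]
      exact h.a1
    have e2 : (b : ℝ) ≤ Real.log N := by
      rw [hb]
      refine (Nat.floor_le (Real.logb_nonneg (by norm_num) hY1)).trans ?_
      rw [hY]
      unfold Real.logb
      rw [Real.log_rpow (by linarith)]
      have e3 := Real.log_two_gt_d9
      rw [div_le_iff₀ (by linarith)]
      nlinarith
    rw [pow_two]
    exact mul_le_mul e1 e2 (Nat.cast_nonneg _) (by linarith)
  refine ⟨fun n => C * ∑ x ∈ range a ×ˢ range b, cb (2 ^ x.1 * X) (2 ^ x.2 * Y) (uu x) n,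
    fun n hn hn' => ?_, fun n hn => ?_, fun n => ?_, fun α J => ?_⟩
  · simp only
    rw [fr_sub, ← hs, hPP, hQQ, ← sum_blocks X Y hX0 hY0, Finset.mul_sum]
    refine Finset.sum_congr rfl fun x hx => ?_
    exact cb_GG h he (hrg x hx) hC1 hn hn'
  · simp only at hn
    have hn2 := right_ne_zero_of_mul hn
    obtain ⟨x, hx, hn3⟩ := Finset.exists_ne_zero_of_sum_ne_zero hn2
    unfold cb at hn3
    obtain ⟨p, hp, hn4⟩ := Finset.exists_ne_zero_of_sum_ne_zero hn3
    obtain ⟨q, hq, hn5⟩ := Finset.exists_ne_zero_of_sum_ne_zero hn4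
    have hd : p * q ∣ n := by
      by_contra hcon
      rw [if_neg hcon] at hn5
      exact hn5 rfl
    rw [if_pos hd] at hn5
    obtain ⟨-, g1, g2, -⟩ := CBBM.term h.big (hblk x hx) hp hq hd hn5
    exact ⟨g1, g2⟩
  · classical
    simp only
    rw [abs_mul, abs_of_pos (by linarith : (0 : ℝ) < C)]
    apply mul_le_mul_of_nonneg_left _ (by linarith)
    refine (Finset.abs_sum_le_sum_abs _ _).trans ?_
    calc ∑ x ∈ range a ×ˢ range b, |cb (2 ^ x.1 * X) (2 ^ x.2 * Y) (uu x) n|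
        ≤ ∑ x ∈ range a ×ˢ range b, ∑ p ∈ PR (2 ^ x.1 * X), ∑ q ∈ PR (2 ^ x.2 * Y),
          (if p * q ∣ n ∧ cond N c n p then (1 : ℝ) else 0) :=
          Finset.sum_le_sum fun x hx => cb_le h (hblk x hx) n
      _ = ∑ p ∈ PPs N c, ∑ q ∈ QQs N e, (if p * q ∣ n ∧ cond N c n p then (1 : ℝ) else 0) := by
          rw [sum_blocks X Y hX0 hY0, hPP, hQQ]
      _ ≤ 2 / e := total h he n
  · have hL0 : 0 < Real.log N := by linarith
    have e1 : ∀ j : ℕ, ‖∑ n ∈ Ioc j (j + Hn N c),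
        ((C * ∑ x ∈ range a ×ˢ range b, cb (2 ^ x.1 * X) (2 ^ x.2 * Y) (uu x) n : ℝ) : ℂ) *
          ee (α * n)‖ ^ 2 ≤ C ^ 2 * (Real.log N ^ 2 * ∑ x ∈ range a ×ˢ range b,
            ‖∑ n ∈ Ioc j (j + Hn N c), (cb (2 ^ x.1 * X) (2 ^ x.2 * Y) (uu x) n : ℂ) *
              ee (α * n)‖ ^ 2) := by
      intro j
      have e2 : ∑ n ∈ Ioc j (j + Hn N c),
          ((C * ∑ x ∈ range a ×ˢ range b, cb (2 ^ x.1 * X) (2 ^ x.2 * Y) (uu x) n : ℝ) : ℂ) *
            ee (α * n) = (C : ℂ) * ∑ x ∈ range a ×ˢ range b, ∑ n ∈ Ioc j (j + Hn N c),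
              (cb (2 ^ x.1 * X) (2 ^ x.2 * Y) (uu x) n : ℂ) * ee (α * n) := by
        rw [Finset.sum_comm, Finset.mul_sum]
        refine Finset.sum_congr rfl fun n _ => ?_
        push_cast
        rw [← Finset.sum_mul]
        ring
      rw [e2, norm_mul, mul_pow, Complex.norm_real, Real.norm_of_nonneg (by linarith)]
      apply mul_le_mul_of_nonneg_left _ (by positivity)
      refine (cs _ _).trans (mul_le_mul_of_nonneg_right hcard ?_)
      exact Finset.sum_nonneg fun _ _ => by positivity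
    refine (Finset.sum_le_sum fun j _ => e1 j).trans ?_
    rw [← Finset.mul_sum, ← Finset.mul_sum, Finset.sum_comm]
    have e3 : ∑ x ∈ range a ×ˢ range b, ∑ j ∈ range J,
        ‖∑ n ∈ Ioc j (j + Hn N c), (cb (2 ^ x.1 * X) (2 ^ x.2 * Y) (uu x) n : ℂ) *
          ee (α * n)‖ ^ 2 ≤ Real.log N ^ 2 * (N * (Hn N c : ℝ) ^ 2 / Real.log N ^ (D + 6)) := by
      refine (Finset.sum_le_sum fun x hx => h1 N _ _ _ hN1 (hblk x hx) α J).trans ?_
      rw [Finset.sum_const, nsmul_eq_mul]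
      exact mul_le_mul_of_nonneg_right hcard (by positivity)
    have e4 : Real.log N ^ (D + 6) = Real.log N ^ D * Real.log N ^ 6 := by
      rw [Real.rpow_add hL0]
      norm_cast
    have hCL : C ^ 2 ≤ Real.log N ^ 2 := pow_le_pow_left₀ (by linarith) h.hC 2
    have hD0 : 0 < Real.log N ^ D := Real.rpow_pos_of_pos hL0 _
    calc C ^ 2 * (Real.log N ^ 2 * ∑ x ∈ range a ×ˢ range b, ∑ j ∈ range J,
        ‖∑ n ∈ Ioc j (j + Hn N c), (cb (2 ^ x.1 * X) (2 ^ x.2 * Y) (uu x) n : ℂ) *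
          ee (α * n)‖ ^ 2)
        ≤ Real.log N ^ 2 * (Real.log N ^ 2 *
          (Real.log N ^ 2 * (N * (Hn N c : ℝ) ^ 2 / Real.log N ^ (D + 6)))) := by
          apply mul_le_mul hCL _ (by positivity) (by positivity)
          exact mul_le_mul_of_nonneg_left e3 (by positivity)
      _ = N * (Hn N c : ℝ) ^ 2 / Real.log N ^ D := by
          rw [e4]
          field_simp

end Pool.Agent.Lib.MP3efbeb.LG
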