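import Pool.Agent.Lib.MP_3efbeb_nt.LG.SpecB

/-!
# AVG: patterns on average
-/

set_option autoImplicit false

namespace Pool.Agent.Lib.MP3efbeb.LG

open Finset MeasureTheory
open Pool.Agent.Lib.MP391708.QPA (PB rInd Wp Rough)

noncomputable section

namespace AVGM

/-- the estimate for one `N` -/
lemma core (hTEL : SpecTEL) (k : ℕ) (A c C₁ : ℝ) (hk : 1 ≤ k) (hc : 1 ≤ c) (hC : 1 ≤ C₁)
    (N H : ℕ) (f g : Fin k → ℕ → ℝ) (hL2 : 2 ≤ Real.log N) (hLk : 4 * k * C₁ ^ k ≤ Real.log N)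
    (hf : ∀ i n, N < n → n ≤ 4 * N → |f i n| ≤ C₁) (hg : ∀ i n, N < n → n ≤ 4 * N → |g i n| ≤ C₁)
    (hcor : ∀ (i : Fin k) (w : ℕ → ℝ) (b : ℕ), (∀ n, |w n| ≤ 1) → b ≤ N →
      ∑ h ∈ range (Hn N c / 2), (∑ n ∈ Ioc N (2 * N), w n * (f i (n + b + h) - g i (n + b + h))) ^ 2 ≤
        (N : ℝ) ^ 2 * Hn N c / Real.log N ^ (2 * A + 4))
    (hH : Hn N c ≤ H) (h2H : 2 * H ≤ N) (P : ℕ → ℝ) (hP : ∀ n, |P n| ≤ 1) :
    ∑ h ∈ Fintype.piFinset (fun _ : Fin k => Icc 1 H), |∑ n ∈ Ioc N (2 * N), P n *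
      (∏ i, f i (n + h i) - ∏ i, g i (n + h i))| ≤ N * (H : ℝ) ^ k / Real.log N ^ A := by
  set L : ℝ := Real.log N with hL
  have hL0 : 0 < L := by linarith
  have hL1 : 1 ≤ L := by linarith
  -- the window
  have hHn2 : 2 ≤ Hn N c := by
    have h1 : (2 : ℝ) ≤ L ^ (4 * c) := by
      calc (2 : ℝ) ≤ L := hL2
        _ = L ^ (1 : ℝ) := (Real.rpow_one L).symm
        _ ≤ L ^ (4 * c) := Real.rpow_le_rpow_of_exponent_le hL1 (by linarith)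
    have h2 : (2 : ℝ) ≤ (Hn N c : ℝ) := by
      unfold Hn
      exact h1.trans (Nat.le_ceil _)
    exact_mod_cast h2
  have hH0 : 1 ≤ Hn N c / 2 := by omega
  have hH0H : Hn N c / 2 ≤ H := by omega
  set Γ : ℝ := (N : ℝ) ^ 2 * Hn N c / L ^ (2 * A + 4) with hΓ
  have hLD : 0 < L ^ (2 * A + 4) := Real.rpow_pos_of_pos hL0 _
  have hΓ0 : 0 ≤ Γ := by positivity
  set F : Fin k → ℕ → ℝ := fun i n => if N < n ∧ n ≤ 4 * N then f i n else 0 with hF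
  set G : Fin k → ℕ → ℝ := fun i n => if N < n ∧ n ≤ 4 * N then g i n else 0 with hG
  have hFb : ∀ i n, |F i n| ≤ C₁ := by
    intro i n
    simp only [hF]
    split_ifs with h
    · exact hf i n h.1 h.2
    · rw [abs_zero]; linarith
  have hGb : ∀ i n, |G i n| ≤ C₁ := by
    intro i n
    simp only [hG]
    split_ifs with h
    · exact hg i n h.1 h.2
    · rw [abs_zero]; linarith
  have hFe : ∀ i n, N < n → n ≤ 4 * N → F i n = f i n := by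
    intro i n h1 h2
    simp only [hF]
    rw [if_pos ⟨h1, h2⟩]
  have hGe : ∀ i n, N < n → n ≤ 4 * N → G i n = g i n := by
    intro i n h1 h2
    simp only [hG]
    rw [if_pos ⟨h1, h2⟩]
  have h1 := hTEL k F G N (Hn N c / 2) H C₁ Γ hC hH0 hH0H hΓ0 hFb hGb (by
    intro i w b hw hb
    have h2 := hcor i w b hw (by omega)
    refine le_trans (le_of_eq ?_) h2
    refine sum_congr rfl fun h hh => ?_
    congr 1
    refine sum_congr rfl fun n hn => ?_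
    rw [mem_range] at hh
    rw [mem_Ioc] at hn
    rw [hFe i _ (by omega) (by omega), hGe i _ (by omega) (by omega)]) P hP
  have h3 : ∑ h ∈ Fintype.piFinset (fun _ : Fin k => Icc 1 H), |∑ n ∈ Ioc N (2 * N), P n *
      (∏ i, f i (n + h i) - ∏ i, g i (n + h i))| =
      ∑ h ∈ Fintype.piFinset (fun _ : Fin k => Icc 1 H), |∑ n ∈ Ioc N (2 * N), P n *
      (∏ i, F i (n + h i) - ∏ i, G i (n + h i))| := by
    refine sum_congr rfl fun h hh => ?_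
    congr 1
    refine sum_congr rfl fun n hn => ?_
    rw [mem_Ioc] at hn
    have h4 : ∀ i, 1 ≤ h i ∧ h i ≤ H := by
      intro i
      have := Fintype.mem_piFinset.1 hh i
      rwa [mem_Icc] at this
    congr 2
    · refine prod_congr rfl fun i _ => ?_
      have := h4 i
      rw [hFe i _ (by omega) (by omega)]
    · refine prod_congr rfl fun i _ => ?_
      have := h4 i
      rw [hGe i _ (by omega) (by omega)]
  rw [h3]
  refine h1.trans ?_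
  -- the square root
  have hLA2 : 0 < L ^ (A + 2) := Real.rpow_pos_of_pos hL0 _
  have hpow : L ^ (2 * A + 4) = L ^ (A + 2) * L ^ (A + 2) := by
    rw [← Real.rpow_add hL0]
    congr 1
    ring
  have hsq : √(Γ / ((Hn N c / 2 : ℕ) : ℝ)) ≤ 2 * N / L ^ (A + 2) := by
    refine Real.sqrt_le_iff.2 ⟨by positivity, ?_⟩
    have h4 : (Hn N c : ℝ) ≤ 4 * ((Hn N c / 2 : ℕ) : ℝ) := by
      have : Hn N c ≤ 4 * (Hn N c / 2) := by omega
      exact_mod_cast this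
    have h5 : (0 : ℝ) < ((Hn N c / 2 : ℕ) : ℝ) := by exact_mod_cast hH0
    rw [div_le_iff₀ h5, hΓ, hpow]
    rw [show (2 * (N : ℝ) / L ^ (A + 2)) ^ 2 * ((Hn N c / 2 : ℕ) : ℝ) =
      (N : ℝ) ^ 2 * (4 * ((Hn N c / 2 : ℕ) : ℝ)) / (L ^ (A + 2) * L ^ (A + 2)) by
        field_simp
        ring]
    gcongr
  have hkH : (H : ℝ) ^ k = H * (H : ℝ) ^ (k - 1) := by
    obtain ⟨m, rfl⟩ : ∃ m, k = m + 1 := ⟨k - 1, by omega⟩
    rw [pow_succ]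
    simp
    ring
  have hA2 : L ^ (A + 2) = L ^ A * (L * L) := by
    rw [Real.rpow_add hL0, Real.rpow_two]
    ring
  have hLA : 0 < L ^ A := Real.rpow_pos_of_pos hL0 _
  calc (k : ℝ) * C₁ ^ k * (2 * (H : ℝ)) * H ^ (k - 1) * √(Γ / ((Hn N c / 2 : ℕ) : ℝ))
      ≤ (k : ℝ) * C₁ ^ k * (2 * (H : ℝ)) * H ^ (k - 1) * (2 * N / L ^ (A + 2)) :=
        mul_le_mul_of_nonneg_left hsq (by positivity)
    _ = (4 * k * C₁ ^ k) * ((N : ℝ) * (H : ℝ) ^ k / L ^ A) / (L * L) := by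
        rw [hkH, hA2]
        field_simp
        ring
    _ ≤ (L * L) * ((N : ℝ) * (H : ℝ) ^ k / L ^ A) / (L * L) := by
        have : 4 * k * C₁ ^ k ≤ L * L := hLk.trans (by nlinarith)
        gcongr
    _ = (N : ℝ) * (H : ℝ) ^ k / L ^ A := by
        field_simp

/-- the quantifiers -/
lemma shuffle (hTEL : SpecTEL) (k : ℕ) (A : ℝ) (hk : 1 ≤ k) (f g : ℝ → ℝ → Fin k → ℕ → ℝ)
    (hcor : ∀ i : Fin k, ∃ c₀ : ℝ, 1 ≤ c₀ ∧ ∀ c : ℝ, c₀ ≤ c → ∃ N₀ : ℕ, ∀ N : ℕ, N₀ ≤ N →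
      ∀ (w : ℕ → ℝ) (b : ℕ), (∀ n, |w n| ≤ 1) → b ≤ N →
      ∑ h ∈ range (Hn N c / 2),
        (∑ n ∈ Ioc N (2 * N), w n * (f N c i (n + b + h) - g N c i (n + b + h))) ^ 2 ≤
        (N : ℝ) ^ 2 * Hn N c / Real.log N ^ (2 * A + 4))
    (hfr : ∀ i : Fin k, ∃ C₁ : ℝ, 1 ≤ C₁ ∧ ∀ c : ℝ, 1 ≤ c → ∃ N₀ : ℝ, ∀ (N : ℝ) (n : ℕ), N₀ ≤ N →
      N / 2 < n → (n : ℝ) ≤ 4 * N → 0 ≤ f N c i n ∧ f N c i n ≤ C₁ ∧ 0 ≤ g N c i n ∧ g N c i n ≤ C₁) :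
    ∃ c₀ : ℝ, 1 ≤ c₀ ∧ ∀ c : ℝ, c₀ ≤ c → ∃ N₀ : ℕ, ∀ N H : ℕ, N₀ ≤ N →
    Hn N c ≤ H → 2 * H ≤ N → ∀ P : ℕ → ℝ, (∀ n, |P n| ≤ 1) →
    ∑ h ∈ Fintype.piFinset (fun _ : Fin k => Icc 1 H), |∑ n ∈ Ioc N (2 * N), P n *
      (∏ i, f N c i (n + h i) - ∏ i, g N c i (n + h i))| ≤
      N * (H : ℝ) ^ k / Real.log N ^ A := by
  choose c₀ hc₀ hc using hcor
  choose C₁ hC₁ hC using hfr
  refine ⟨1 + ∑ i, c₀ i, ?_, ?_⟩
  · have : 0 ≤ ∑ i, c₀ i := sum_nonneg fun i _ => by linarith [hc₀ i]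
    linarith
  intro c hcc
  have hci : ∀ i, c₀ i ≤ c := by
    intro i
    have : c₀ i ≤ ∑ i, c₀ i :=
      single_le_sum (f := c₀) (fun j _ => by linarith [hc₀ j]) (mem_univ i)
    linarith
  have hc1 : 1 ≤ c := by
    have : 0 ≤ ∑ i, c₀ i := sum_nonneg fun i _ => by linarith [hc₀ i]
    linarith
  choose N₁ hN₁ using fun i => hc i c (hci i)
  choose N₂ hN₂ using fun i => hC i c hc1
  set C : ℝ := 1 + ∑ i, C₁ i with hCdef
  have hCs : 0 ≤ ∑ i, C₁ i := sum_nonneg fun i _ => by linarith [hC₁ i]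
  have hC1 : 1 ≤ C := by linarith
  have hCi : ∀ i, C₁ i ≤ C := by
    intro i
    have : C₁ i ≤ ∑ i, C₁ i :=
      single_le_sum (f := C₁) (fun j _ => by linarith [hC₁ j]) (mem_univ i)
    linarith
  refine ⟨∑ i, N₁ i + ∑ i, ⌈N₂ i⌉₊ + ⌈Real.exp (2 + 4 * k * C ^ k)⌉₊, ?_⟩
  intro N H hN hH h2H P hP
  have hNa : ∀ i, N₁ i ≤ N := by
    intro i
    have : N₁ i ≤ ∑ i, N₁ i := single_le_sum (f := N₁) (fun j _ => Nat.zero_le _) (mem_univ i)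
    omega
  have hNb : ∀ i, N₂ i ≤ N := by
    intro i
    have h1 : ⌈N₂ i⌉₊ ≤ ∑ i, ⌈N₂ i⌉₊ :=
      single_le_sum (f := fun i => ⌈N₂ i⌉₊) (fun j _ => Nat.zero_le _) (mem_univ i)
    have h2 : ⌈N₂ i⌉₊ ≤ N := by omega
    exact (Nat.le_ceil _).trans (by exact_mod_cast h2)
  have hNc : Real.exp (2 + 4 * k * C ^ k) ≤ N := by
    have h2 : ⌈Real.exp (2 + 4 * k * C ^ k)⌉₊ ≤ N := by omega
    exact (Nat.le_ceil _).trans (by exact_mod_cast h2)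
  have hlog : 2 + 4 * k * C ^ k ≤ Real.log N := by
    calc 2 + 4 * k * C ^ k = Real.log (Real.exp (2 + 4 * k * C ^ k)) := (Real.log_exp _).symm
      _ ≤ Real.log N := Real.log_le_log (Real.exp_pos _) hNc
  have hkC : 0 ≤ 4 * k * C ^ k := by positivity
  have hrange : ∀ n : ℕ, N < n → n ≤ 4 * N → (N : ℝ) / 2 < n ∧ (n : ℝ) ≤ 4 * N := by
    intro n h1 h2
    have h3 : (N : ℝ) < n := by exact_mod_cast h1
    have h4 : (n : ℝ) ≤ 4 * N := by exact_mod_cast h2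
    have h5 : (0 : ℝ) ≤ N := Nat.cast_nonneg N
    exact ⟨by linarith, h4⟩
  refine core hTEL k A c C hk hc1 hC1 N H (f N c) (g N c) (by linarith) (by linarith) ?_ ?_ ?_ hH h2H
    P hP
  · intro i n h1 h2
    obtain ⟨h3, h4⟩ := hrange n h1 h2
    obtain ⟨h5, h6, -, -⟩ := hN₂ i N n (hNb i) h3 h4
    rw [abs_of_nonneg h5]
    exact h6.trans (hCi i)
  · intro i n h1 h2
    obtain ⟨h3, h4⟩ := hrange n h1 h2
    obtain ⟨-, -, h5, h6⟩ := hN₂ i N n (hNb i) h3 h4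
    rw [abs_of_nonneg h5]
    exact h6.trans (hCi i)
  · intro i w b hw hb
    exact hN₁ i N (hNa i) w b hw hb

end AVGM

theorem specAVG (hCOR : SpecCOR) (hTEL : SpecTEL) (hFRB : SpecFRB) : SpecAVG := by
  intro k r A e hk hA he he1 hr
  refine AVGM.shuffle hTEL k A hk (fun N c i n => fr N c e (r i) n) (fun N c i n => gr N c e (r i) n)
    (fun i => hCOR (2 * A + 4) e (r i) (by linarith) he he1 (hr i).1 (hr i).2) (fun i => ?_)
  obtain ⟨C₁, hC₁, h⟩ := hFRB e (r i) he he1 (hr i).1 (hr i).2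
  refine ⟨C₁, hC₁, fun c hc => ?_⟩
  obtain ⟨N₀, h2⟩ := h c hc
  refine ⟨N₀, fun N n h3 h4 h5 => ?_⟩
  obtain ⟨a, b, c', d, -⟩ := h2 N n h3 h4 h5
  exact ⟨a, b, c', d⟩

end

end Pool.Agent.Lib.MP3efbeb.LG
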