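import Pool.Agent.Lib.MP_3efbeb_nt.LG.SpecC
import Pool.Agent.Lib.MP_3efbeb_nt.LG.AVG

/-!
# AV2: patterns on average, version 2
-/

set_option autoImplicit false

namespace Pool.Agent.Lib.MP3efbeb.LG

open Finset MeasureTheory

noncomputable section

theorem specAV2 (hCO2 : SpecCO2) (hTEL : SpecTEL) (hFR2 : SpecFR2) : SpecAV2 := by
  intro k r A e hk hA he hr
  refine AVGM.shuffle hTEL k A hk (fun N c i n => f2 N c e (r i) n) (fun N c i n => g2 N c e (r i) n)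
    (fun i => hCO2 (2 * A + 4) e (r i) (by linarith) he (hr i).1 (hr i).2) (fun i => ?_)
  obtain ⟨C₁, hC₁, h⟩ := hFR2 e (r i) he (hr i).1 (hr i).2
  refine ⟨C₁, hC₁, fun c hc => ?_⟩
  obtain ⟨N₀, h2⟩ := h c hc
  refine ⟨N₀, fun N n h3 h4 h5 => ?_⟩
  obtain ⟨a, b, c', d, -⟩ := h2 N n h3 h4 h5
  exact ⟨a, b, c', d⟩

end

end Pool.Agent.Lib.MP3efbeb.LG
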