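import Pool.Agent.Lib.MP_3efbeb_nt.LG.SpecA

/-!
# BET: removal of a small `β`
-/

set_option autoImplicit false

namespace Pool.Agent.Lib.MP3efbeb.LG

open Finset MeasureTheory

noncomputable section

namespace BETM

/-- Abel summation. -/
theorem abel (c : ℕ → ℂ) (f : ℕ → ℂ) (j H : ℕ) :
    ∑ n ∈ Ioc j (j + H), c n * f n = f (j + H) * ∑ n ∈ Ioc j (j + H), c n -
      ∑ y ∈ range H, (f (j + y + 1) - f (j + y)) * ∑ n ∈ Ioc j (j + y), c n := by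
  induction H with
  | zero => simp
  | succ H ih =>
    have h1 : ∀ g : ℕ → ℂ, ∑ n ∈ Ioc j (j + (H + 1)), g n =
        ∑ n ∈ Ioc j (j + H), g n + g (j + H + 1) := by
      intro g
      rw [← add_assoc, Finset.sum_Ioc_succ_top (by omega)]
    rw [h1, h1, ih, Finset.sum_range_succ, ← add_assoc]
    ring

theorem norm_ee_sub (x β : ℝ) : ‖ee (x + β) - ee x‖ ≤ 2 * Real.pi * |β| := by
  have h1 : ee (x + β) - ee x = ee x * (Complex.exp (Complex.I * ((2 * Real.pi * β : ℝ) : ℂ)) - 1) := by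
    unfold ee
    rw [mul_sub, mul_one, ← Complex.exp_add]
    congr 2
    push_cast
    ring
  have h2 : ‖ee x‖ = 1 := by
    unfold ee
    have : (2 * Real.pi * x * Complex.I : ℂ) = ((2 * Real.pi * x : ℝ) : ℂ) * Complex.I := by
      push_cast
      ring
    rw [this, Complex.norm_exp_ofReal_mul_I]
  rw [h1, norm_mul, h2, one_mul]
  refine (Real.norm_exp_I_mul_ofReal_sub_one_le).trans ?_
  rw [Real.norm_eq_abs, abs_mul, abs_of_pos (by positivity : (0 : ℝ) < 2 * Real.pi)]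

theorem norm_ee (x : ℝ) : ‖ee x‖ = 1 := by
  unfold ee
  have : (2 * Real.pi * x * Complex.I : ℂ) = ((2 * Real.pi * x : ℝ) : ℂ) * Complex.I := by
    push_cast
    ring
  rw [this, Complex.norm_exp_ofReal_mul_I]

/-- The pointwise bound. -/
theorem pointwise (H : ℕ) (β : ℝ) (c : ℕ → ℂ) (j : ℕ) :
    ‖∑ n ∈ Ioc j (j + H), c n * ee (β * n)‖ ^ 2 ≤ 2 * ‖∑ n ∈ Ioc j (j + H), c n‖ ^ 2 +
      2 * ((2 * Real.pi * |β|) ^ 2 * H * ∑ y ∈ range H, ‖∑ n ∈ Ioc j (j + y), c n‖ ^ 2) := by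
  rw [abel c (fun n => ee (β * n)) j H]
  set T : ℂ := ∑ n ∈ Ioc j (j + H), c n with hT
  set R : ℂ := ∑ y ∈ range H, (ee (β * (j + y + 1 : ℕ)) - ee (β * (j + y : ℕ))) *
    ∑ n ∈ Ioc j (j + y), c n with hR
  have h1 : ‖ee (β * (j + H : ℕ)) * T - R‖ ≤ ‖T‖ + ‖R‖ := by
    refine (norm_sub_le _ _).trans ?_
    rw [norm_mul, norm_ee, one_mul]
  have h2 : ‖R‖ ≤ (2 * Real.pi * |β|) * ∑ y ∈ range H, ‖∑ n ∈ Ioc j (j + y), c n‖ := by
    rw [hR, Finset.mul_sum]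
    refine (norm_sum_le _ _).trans (Finset.sum_le_sum fun y _ => ?_)
    rw [norm_mul]
    refine mul_le_mul_of_nonneg_right ?_ (norm_nonneg _)
    have h3 : β * ((j + y + 1 : ℕ) : ℝ) = β * ((j + y : ℕ) : ℝ) + β := by
      push_cast
      ring
    rw [h3]
    exact norm_ee_sub _ _
  have h4 : (∑ y ∈ range H, ‖∑ n ∈ Ioc j (j + y), c n‖) ^ 2 ≤
      (H : ℝ) * ∑ y ∈ range H, ‖∑ n ∈ Ioc j (j + y), c n‖ ^ 2 := by
    have := sq_sum_le_card_mul_sum_sq (s := range H) (f := fun y => ‖∑ n ∈ Ioc j (j + y), c n‖)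
    simpa using this
  have h5 : ‖R‖ ^ 2 ≤ (2 * Real.pi * |β|) ^ 2 * H *
      ∑ y ∈ range H, ‖∑ n ∈ Ioc j (j + y), c n‖ ^ 2 := by
    have h6 : ‖R‖ ^ 2 ≤ ((2 * Real.pi * |β|) * ∑ y ∈ range H, ‖∑ n ∈ Ioc j (j + y), c n‖) ^ 2 :=
      pow_le_pow_left₀ (norm_nonneg _) h2 2
    rw [mul_pow] at h6
    have h7 := mul_le_mul_of_nonneg_left h4 (show (0 : ℝ) ≤ (2 * Real.pi * |β|) ^ 2 by positivity)
    rw [← mul_assoc] at h7
    exact h6.trans h7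
  have h7 : ‖ee (β * (j + H : ℕ)) * T - R‖ ^ 2 ≤ (‖T‖ + ‖R‖) ^ 2 :=
    pow_le_pow_left₀ (norm_nonneg _) h1 2
  have h8 : (‖T‖ + ‖R‖) ^ 2 ≤ 2 * ‖T‖ ^ 2 + 2 * ‖R‖ ^ 2 := by
    nlinarith [sq_nonneg (‖T‖ - ‖R‖)]
  linarith

end BETM

open BETM in
theorem specBET : SpecBET := by
  intro H J β G c hG hG0
  have h0 : ∀ y : ℕ, y ≤ H → ∑ j ∈ range J, ‖∑ n ∈ Ioc j (j + y), c n‖ ^ 2 ≤ G := by
    intro y hy
    rcases Nat.eq_zero_or_pos y with h | h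
    · subst h
      simpa using hG0
    · exact hG y h hy
  have h1 : ∑ j ∈ range J, ‖∑ n ∈ Ioc j (j + H), c n * ee (β * n)‖ ^ 2 ≤
      ∑ j ∈ range J, (2 * ‖∑ n ∈ Ioc j (j + H), c n‖ ^ 2 +
      2 * ((2 * Real.pi * |β|) ^ 2 * H * ∑ y ∈ range H, ‖∑ n ∈ Ioc j (j + y), c n‖ ^ 2)) :=
    Finset.sum_le_sum fun j _ => pointwise H β c j
  refine h1.trans ?_
  rw [Finset.sum_add_distrib, ← Finset.mul_sum, ← Finset.mul_sum, ← Finset.mul_sum,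
    Finset.sum_comm]
  have h2 : ∑ y ∈ range H, ∑ j ∈ range J, ‖∑ n ∈ Ioc j (j + y), c n‖ ^ 2 ≤ H * G := by
    refine (Finset.sum_le_sum fun y hy => h0 y (Finset.mem_range.1 hy).le).trans ?_
    rw [Finset.sum_const, Finset.card_range, nsmul_eq_mul]
  have h3 := h0 H le_rfl
  have h4 : (2 * Real.pi * |β|) ^ 2 * H *
      ∑ y ∈ range H, ∑ j ∈ range J, ‖∑ n ∈ Ioc j (j + y), c n‖ ^ 2 ≤
      (2 * Real.pi * |β|) ^ 2 * H * (H * G) :=
    mul_le_mul_of_nonneg_left h2 (by positivity)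
  have h5 : (2 * (1 + (2 * Real.pi * |β| * H) ^ 2) * G : ℝ) =
      2 * G + 2 * ((2 * Real.pi * |β|) ^ 2 * H * (H * G)) := by
    ring
  rw [h5]
  linarith

end

end Pool.Agent.Lib.MP3efbeb.LG
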