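import Pool.Agent.Lib.MP_3efbeb_nt.LG.SpecB

/-!
# LongPatterns, module BVC: the weighted Bombieri-Vinogradov theorem at a small level
-/

set_option autoImplicit false

namespace Pool.Agent.Lib.MP3efbeb.LG

open Finset MeasureTheory Filter

noncomputable section

namespace BVCM

/-- the error in the prime number theorem for a progression -/
def er (X Q a : ℕ) : ℝ := |(((Icc 1 X).filter (fun p => p.Prime ∧ p ≡ a [MOD Q])).card : ℝ) -
    (((Icc 1 X).filter Nat.Prime).card : ℝ) / Q.totient|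

lemma er_congr (X Q a a' : ℕ) (h : a ≡ a' [MOD Q]) : er X Q a = er X Q a' := by
  unfold er
  have h1 : (Icc 1 X).filter (fun p => p.Prime ∧ p ≡ a [MOD Q]) =
      (Icc 1 X).filter (fun p => p.Prime ∧ p ≡ a' [MOD Q]) := by
    apply Finset.filter_congr
    intro p _
    constructor
    · rintro ⟨h1, h2⟩
      exact ⟨h1, h2.trans h⟩
    · rintro ⟨h1, h2⟩
      exact ⟨h1, h2.trans h.symm⟩
  rw [h1]

lemma coprime_mod (b q : ℕ) (hb : b.Coprime q) : (b % q).Coprime q := by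
  have h := (Nat.mod_modEq b q).gcd_eq
  unfold Nat.Coprime
  rw [h]
  exact hb

lemma exists_max (X : ℕ) : ∃ a : ℕ → ℕ, (∀ q, (a q).Coprime q) ∧
    ∀ Q b : ℕ, 1 ≤ Q → b.Coprime Q → er X Q b ≤ er X Q (a Q) := by
  have h : ∀ q : ℕ, ∃ a : ℕ, a.Coprime q ∧
      (1 ≤ q → ∀ b : ℕ, b.Coprime q → er X q b ≤ er X q a) := by
    intro q
    rcases Nat.eq_zero_or_pos q with h0 | h0
    · subst h0
      exact ⟨1, by simp, by omega⟩
    · have hne : ((range q).filter (fun b => b.Coprime q)).Nonempty := ⟨1 % q, by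
        rw [Finset.mem_filter, Finset.mem_range]
        exact ⟨Nat.mod_lt _ h0, coprime_mod 1 q (Nat.coprime_one_left q)⟩⟩
      obtain ⟨a, ha, hmax⟩ := Finset.exists_max_image _ (fun b => er X q b) hne
      refine ⟨a, (Finset.mem_filter.mp ha).2, fun _ b hb => ?_⟩
      have h1 : er X q b = er X q (b % q) := er_congr X q b (b % q) (Nat.mod_modEq b q).symm
      rw [h1]
      apply hmax
      rw [Finset.mem_filter, Finset.mem_range]
      exact ⟨Nat.mod_lt _ h0, coprime_mod b q hb⟩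
  choose a ha using h
  exact ⟨a, fun q => (ha q).1, fun Q b hQ hb => (ha Q).2 hQ b hb⟩

lemma totient_ge (q : ℕ) : (q : ℝ) ≤ 2 ^ q.primeFactors.card * q.totient := by
  have h := Nat.totient_mul_prod_primeFactors q
  have h1 : ∏ p ∈ q.primeFactors, p ≤ 2 ^ q.primeFactors.card * ∏ p ∈ q.primeFactors, (p - 1) := by
    rw [← Finset.prod_const, ← Finset.prod_mul_distrib]
    apply Finset.prod_le_prod'
    intro p hp
    have := (Nat.prime_of_mem_primeFactors hp).two_le
    omega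
  have h2 : 0 < ∏ p ∈ q.primeFactors, p :=
    Finset.prod_pos fun p hp => (Nat.prime_of_mem_primeFactors hp).pos
  have h3 : q * ∏ p ∈ q.primeFactors, p ≤
      (2 ^ q.primeFactors.card * q.totient) * ∏ p ∈ q.primeFactors, p := by
    calc q * ∏ p ∈ q.primeFactors, p
        ≤ q * (2 ^ q.primeFactors.card * ∏ p ∈ q.primeFactors, (p - 1)) :=
          Nat.mul_le_mul_left _ h1
      _ = 2 ^ q.primeFactors.card * (q * ∏ p ∈ q.primeFactors, (p - 1)) := by ring
      _ = (2 ^ q.primeFactors.card * q.totient) * ∏ p ∈ q.primeFactors, p := by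
          rw [← h]
          ring
  have h4 := Nat.le_of_mul_le_mul_right h3 h2
  exact_mod_cast h4

lemma card_le (X Q a : ℕ) (hQ : 1 ≤ Q) :
    (((Icc 1 X).filter (fun p => p.Prime ∧ p ≡ a [MOD Q])).card : ℝ) ≤ X / Q + 1 := by
  have h1 : ((Icc 1 X).filter (fun p => p.Prime ∧ p ≡ a [MOD Q])).card ≤
      ((Ioc 0 X).filter (fun p => p ≡ a [MOD Q])).card := by
    apply Finset.card_le_card
    intro p hp
    rw [Finset.mem_filter, Finset.mem_Icc] at hp
    rw [Finset.mem_filter, Finset.mem_Ioc]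
    exact ⟨⟨by omega, hp.1.2⟩, hp.2.2⟩
  have h2 := Nat.Ioc_filter_modEq_card 0 X (r := Q) (by omega) a
  have h3 : (((Ioc 0 X).filter (fun p => p ≡ a [MOD Q])).card : ℤ) ≤ ⌊(X / Q + 1 : ℝ)⌋ := by
    rw [h2]
    apply max_le
    · have e1 : (⌊((X : ℚ) - a) / Q⌋ : ℝ) ≤ ((X : ℝ) - a) / Q := by
        have := Int.floor_le (((X : ℚ) - a) / Q)
        exact_mod_cast this
      have e2 : (((0 : ℕ) : ℝ) - a) / Q < ⌊(((0 : ℕ) : ℚ) - a) / Q⌋ + 1 := by
        have := Int.lt_floor_add_one ((((0 : ℕ) : ℚ) - a) / Q)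
        have h := (Rat.cast_lt (K := ℝ)).mpr this
        push_cast at h ⊢
        exact h
      apply Int.le_floor.mpr
      push_cast at e1 e2 ⊢
      have e3 : ((X : ℝ) - a) / Q = X / Q + (0 - a) / Q := by ring
      linarith
    · positivity
  have h4 : (((Ioc 0 X).filter (fun p => p ≡ a [MOD Q])).card : ℝ) ≤ X / Q + 1 := by
    calc (((Ioc 0 X).filter (fun p => p ≡ a [MOD Q])).card : ℝ)
        ≤ ((⌊(X / Q + 1 : ℝ)⌋ : ℤ) : ℝ) := by exact_mod_cast h3
      _ ≤ X / Q + 1 := Int.floor_le _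
  exact le_trans (by exact_mod_cast h1) h4

lemma er_le (N X Q a : ℕ) (hX : X ≤ 2 * N) (hQ : 1 ≤ Q) (hQN : Q ≤ N) :
    er X Q a ≤ 5 * N * 2 ^ Q.primeFactors.card / Q := by
  have hQ0 : (0 : ℝ) < Q := by exact_mod_cast hQ
  have ht0 : (0 : ℝ) < Q.totient := by exact_mod_cast Nat.totient_pos.mpr hQ
  have h1 := card_le X Q a hQ
  have h2 : (((Icc 1 X).filter Nat.Prime).card : ℝ) ≤ X := by
    have : ((Icc 1 X).filter Nat.Prime).card ≤ X := by
      calc ((Icc 1 X).filter Nat.Prime).card ≤ (Icc 1 X).card := Finset.card_filter_le _ _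
        _ = X := by simp
    exact_mod_cast this
  have h3 : (((Icc 1 X).filter Nat.Prime).card : ℝ) / Q.totient ≤
      X * 2 ^ Q.primeFactors.card / Q := by
    rw [div_le_div_iff₀ ht0 hQ0]
    calc (((Icc 1 X).filter Nat.Prime).card : ℝ) * Q ≤ X * (2 ^ Q.primeFactors.card * Q.totient) :=
          mul_le_mul h2 (totient_ge Q) hQ0.le (by positivity)
      _ = X * 2 ^ Q.primeFactors.card * Q.totient := by ring
  have h5 : (0 : ℝ) ≤ (((Icc 1 X).filter Nat.Prime).card : ℝ) / Q.totient := by positivity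
  have h6 : (0 : ℝ) ≤ (((Icc 1 X).filter (fun p => p.Prime ∧ p ≡ a [MOD Q])).card : ℝ) := by
    positivity
  have h7 : er X Q a ≤ (X / Q + 1) + X * 2 ^ Q.primeFactors.card / Q := by
    unfold er
    rw [abs_le]
    constructor
    · linarith
    · have : (0 : ℝ) ≤ X * 2 ^ Q.primeFactors.card / Q := by positivity
      linarith
  refine le_trans h7 ?_
  have hX' : (X : ℝ) ≤ 2 * N := by exact_mod_cast hX
  have hQN' : (Q : ℝ) ≤ N := by exact_mod_cast hQN
  have h2p : (1 : ℝ) ≤ 2 ^ Q.primeFactors.card := one_le_pow₀ (by norm_num)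
  have h8 : (X : ℝ) / Q + 1 + X * 2 ^ Q.primeFactors.card / Q =
      (X + Q + X * 2 ^ Q.primeFactors.card) / Q := by
    field_simp
  rw [h8]
  apply div_le_div_of_nonneg_right _ hQ0.le
  have hN0 : (0 : ℝ) ≤ N := by positivity
  nlinarith [mul_le_mul hX' h2p (by norm_num) (by positivity),
    mul_le_mul_of_nonneg_left h2p hN0,
    mul_le_mul_of_nonneg_right hX' (show (0 : ℝ) ≤ 2 ^ Q.primeFactors.card by positivity)]

/-- `(m+1)^ω(Q) ≤ ∑_{d | Q} m^ω(d)` -/
lemma pow_succ_le (m Q : ℕ) (hQ : 1 ≤ Q) :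
    ((m : ℝ) + 1) ^ Q.primeFactors.card ≤ ∑ d ∈ Q.divisors, (m : ℝ) ^ d.primeFactors.card := by
  have h1 := Finset.sum_pow_mul_eq_add_pow (m : ℝ) 1 Q.primeFactors
  simp only [one_pow, mul_one] at h1
  rw [← h1]
  have hinj : Set.InjOn (fun t : Finset ℕ => ∏ p ∈ t, p) (Q.primeFactors.powerset : Set (Finset ℕ)) := by
    intro s hs t ht hst
    simp only [Finset.coe_powerset, Set.mem_preimage, Set.mem_powerset_iff, Finset.coe_subset] at hs ht
    have e1 : (∏ p ∈ s, p).primeFactors = s :=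
      Nat.primeFactors_prod fun p hp => Nat.prime_of_mem_primeFactors (hs hp)
    have e2 : (∏ p ∈ t, p).primeFactors = t :=
      Nat.primeFactors_prod fun p hp => Nat.prime_of_mem_primeFactors (ht hp)
    have e3 : ∏ p ∈ s, p = ∏ p ∈ t, p := hst
    rw [← e1, ← e2, e3]
  calc ∑ t ∈ Q.primeFactors.powerset, (m : ℝ) ^ t.card
      = ∑ t ∈ Q.primeFactors.powerset, (m : ℝ) ^ (∏ p ∈ t, p).primeFactors.card := by
        apply Finset.sum_congr rfl
        intro t ht
        rw [Nat.primeFactors_prod fun p hp =>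
          Nat.prime_of_mem_primeFactors ((Finset.mem_powerset.mp ht) hp)]
    _ = ∑ d ∈ (Q.primeFactors.powerset).image (fun t => ∏ p ∈ t, p),
          (m : ℝ) ^ d.primeFactors.card := by
        rw [Finset.sum_image hinj]
    _ ≤ ∑ d ∈ Q.divisors, (m : ℝ) ^ d.primeFactors.card := by
        apply Finset.sum_le_sum_of_subset_of_nonneg
        · intro d hd
          rw [Finset.mem_image] at hd
          obtain ⟨t, ht, rfl⟩ := hd
          rw [Nat.mem_divisors]
          refine ⟨?_, by omega⟩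
          apply dvd_trans _ (Nat.prod_primeFactors_dvd Q)
          exact Finset.prod_dvd_prod_of_subset _ _ _ (Finset.mem_powerset.mp ht)
        · intro d _ _
          positivity

/-- the harmonic sum -/
def Hs (M : ℕ) : ℝ := ∑ k ∈ Icc 1 M, 1 / (k : ℝ)

lemma Hs_nonneg (M : ℕ) : 0 ≤ Hs M := Finset.sum_nonneg fun k _ => by positivity

lemma Hs_le (M : ℕ) : Hs M ≤ 1 + Real.log M := by
  have h := harmonic_le_one_add_log M
  refine le_trans (le_of_eq ?_) h
  unfold Hs
  rw [harmonic_eq_sum_Icc]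
  push_cast
  apply Finset.sum_congr rfl
  intro k _
  rw [one_div]

lemma sum_mult (M d : ℕ) (hd : 1 ≤ d) :
    ∑ Q ∈ (Icc 1 M).filter (fun Q => d ∣ Q), 1 / (Q : ℝ) ≤ 1 / (d : ℝ) * Hs M := by
  have hinj : Set.InjOn (fun Q : ℕ => Q / d) ((Icc 1 M).filter (fun Q => d ∣ Q) : Finset ℕ) := by
    intro s hs t ht hst
    simp only [Finset.coe_filter, Set.mem_ofPred_eq] at hs ht
    have e1 := Nat.div_mul_cancel hs.2
    have e2 := Nat.div_mul_cancel ht.2
    have e3 : s / d = t / d := hst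
    rw [← e1, ← e2, e3]
  calc ∑ Q ∈ (Icc 1 M).filter (fun Q => d ∣ Q), 1 / (Q : ℝ)
      = ∑ Q ∈ (Icc 1 M).filter (fun Q => d ∣ Q), 1 / (d : ℝ) * (1 / ((Q / d : ℕ) : ℝ)) := by
        apply Finset.sum_congr rfl
        intro Q hQ
        have h2 := (Finset.mem_filter.mp hQ).2
        have hd0 : (d : ℝ) ≠ 0 := by
          have : (0 : ℝ) < d := by exact_mod_cast hd
          exact this.ne'
        rw [Nat.cast_div h2 hd0]
        field_simp
    _ = ∑ k ∈ ((Icc 1 M).filter (fun Q => d ∣ Q)).image (fun Q => Q / d),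
          1 / (d : ℝ) * (1 / (k : ℝ)) := by
        rw [Finset.sum_image hinj]
    _ ≤ ∑ k ∈ Icc 1 M, 1 / (d : ℝ) * (1 / (k : ℝ)) := by
        apply Finset.sum_le_sum_of_subset_of_nonneg
        · intro k hk
          rw [Finset.mem_image] at hk
          obtain ⟨Q, hQ, rfl⟩ := hk
          rw [Finset.mem_filter, Finset.mem_Icc] at hQ
          rw [Finset.mem_Icc]
          constructor
          · exact Nat.div_pos (Nat.le_of_dvd (by omega) hQ.2) (by omega)
          · exact le_trans (Nat.div_le_self _ _) hQ.1.2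
        · intro k _ _
          positivity
    _ = 1 / (d : ℝ) * Hs M := by
        unfold Hs
        rw [Finset.mul_sum]

lemma sum_pow_omega (m M : ℕ) :
    ∑ Q ∈ Icc 1 M, (m : ℝ) ^ Q.primeFactors.card / Q ≤ (1 + Hs M) ^ m := by
  induction m with
  | zero =>
    simp only [pow_zero, Nat.cast_zero]
    calc ∑ Q ∈ Icc 1 M, (0 : ℝ) ^ Q.primeFactors.card / Q
        ≤ ∑ Q ∈ Icc 1 M, if Q = 1 then (1 : ℝ) else 0 := by
          apply Finset.sum_le_sum
          intro Q hQ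
          by_cases h1 : Q = 1
          · subst h1
            simp
          · have h2 : Q.primeFactors.card ≠ 0 := by
              rw [Finset.card_ne_zero]
              rw [Nat.nonempty_primeFactors]
              have := (Finset.mem_Icc.mp hQ).1
              omega
            rw [if_neg h1, zero_pow h2, zero_div]
      _ ≤ 1 := by
          rw [Finset.sum_ite_eq']
          split_ifs <;> norm_num
  | succ m ih =>
    calc ∑ Q ∈ Icc 1 M, ((m + 1 : ℕ) : ℝ) ^ Q.primeFactors.card / Q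
        ≤ ∑ Q ∈ Icc 1 M, ∑ d ∈ Q.divisors, (m : ℝ) ^ d.primeFactors.card / Q := by
          apply Finset.sum_le_sum
          intro Q hQ
          rw [← Finset.sum_div]
          have := pow_succ_le m Q (Finset.mem_Icc.mp hQ).1
          push_cast
          gcongr
      _ = ∑ Q ∈ Icc 1 M, ∑ d ∈ Icc 1 M,
            if d ∣ Q then (m : ℝ) ^ d.primeFactors.card / Q else 0 := by
          apply Finset.sum_congr rfl
          intro Q hQ
          rw [← Finset.sum_filter]
          apply Finset.sum_congr _ fun _ _ => rfl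
          ext d
          rw [Nat.mem_divisors, Finset.mem_filter, Finset.mem_Icc]
          rw [Finset.mem_Icc] at hQ
          constructor
          · rintro ⟨h1, h2⟩
            exact ⟨⟨Nat.pos_of_dvd_of_pos h1 (by omega), le_trans (Nat.le_of_dvd (by omega) h1) hQ.2⟩, h1⟩
          · rintro ⟨h1, h2⟩
            exact ⟨h2, by omega⟩
      _ = ∑ d ∈ Icc 1 M, ∑ Q ∈ Icc 1 M,
            if d ∣ Q then (m : ℝ) ^ d.primeFactors.card / Q else 0 := Finset.sum_comm
      _ = ∑ d ∈ Icc 1 M, (m : ℝ) ^ d.primeFactors.card *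
            ∑ Q ∈ (Icc 1 M).filter (fun Q => d ∣ Q), 1 / (Q : ℝ) := by
          apply Finset.sum_congr rfl
          intro d _
          rw [Finset.mul_sum, Finset.sum_filter]
          apply Finset.sum_congr rfl
          intro Q _
          split_ifs
          · ring
          · rfl
      _ ≤ ∑ d ∈ Icc 1 M, (m : ℝ) ^ d.primeFactors.card * (1 / (d : ℝ) * Hs M) := by
          apply Finset.sum_le_sum
          intro d hd
          have := sum_mult M d (Finset.mem_Icc.mp hd).1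
          gcongr
      _ = (∑ d ∈ Icc 1 M, (m : ℝ) ^ d.primeFactors.card / d) * Hs M := by
          rw [Finset.sum_mul]
          apply Finset.sum_congr rfl
          intro d _
          ring
      _ ≤ (1 + Hs M) ^ m * (1 + Hs M) := by
          have := Hs_nonneg M
          gcongr
          linarith
      _ = (1 + Hs M) ^ (m + 1) := by ring

/-- Bombieri-Vinogradov at a natural number, for the errors -/
lemma sum_er (ε x₀ : ℝ) (B' : ℕ)
    (h : ∀ x : ℝ, x₀ ≤ x → ∀ a : ℕ → ℕ, (∀ q, (a q).Coprime q) →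
      ∑ q ∈ Icc 1 ⌊x ^ ε⌋₊,
        |(((Icc 1 ⌊x⌋₊).filter (fun p => p.Prime ∧ p ≡ a q [MOD q])).card : ℝ) -
          (((Icc 1 ⌊x⌋₊).filter Nat.Prime).card : ℝ) / q.totient| ≤ x / Real.log x ^ B')
    (X M : ℕ) (hX : x₀ ≤ X) (hM : (M : ℝ) ≤ (X : ℝ) ^ ε) (a : ℕ → ℕ)
    (ha : ∀ q, (a q).Coprime q) :
    ∑ Q ∈ Icc 1 M, er X Q (a Q) ≤ X / Real.log X ^ B' := by
  have h1 := h X hX a ha
  rw [Nat.floor_natCast] at h1
  refine le_trans ?_ h1
  apply Finset.sum_le_sum_of_subset_of_nonneg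
  · apply Finset.Icc_subset_Icc le_rfl
    exact Nat.le_floor hM
  · intro Q _ _
    exact abs_nonneg _

end BVCM

open BVCM in
/-- the weighted form of the Bombieri-Vinogradov theorem at a small level -/
theorem specBVC (hBVS : SpecBVS) : SpecBVC := by
  obtain ⟨ε, hε, h⟩ := hBVS
  refine ⟨min ε 1, lt_min hε one_pos, ?_⟩
  intro K B
  obtain ⟨x₀, hx⟩ := h (2 * B + 2 * K ^ 2 + 1)
  have hev : ∀ᶠ N : ℕ in atTop, x₀ ≤ (N : ℝ) ∧ 1 ≤ Real.log N ∧
      30 * 9 ^ (K ^ 2) ≤ Real.log N ∧ 1 ≤ N := by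
    have hl : Tendsto (fun N : ℕ => Real.log (N : ℝ)) atTop atTop :=
      Real.tendsto_log_atTop.comp tendsto_natCast_atTop_atTop
    exact (tendsto_natCast_atTop_atTop.eventually_ge_atTop x₀).and
      ((hl.eventually_ge_atTop _).and ((hl.eventually_ge_atTop _).and (eventually_ge_atTop 1)))
  obtain ⟨N₀, hN₀⟩ := eventually_atTop.mp hev
  refine ⟨N₀, fun N hN => ?_⟩
  obtain ⟨hNx, hL1, hLbig, hN1⟩ := hN₀ N hN
  set L := Real.log N with hL
  have hL0 : 0 < L := by linarith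
  have hNr : (1 : ℝ) ≤ N := by exact_mod_cast hN1
  have hN0 : (0 : ℝ) < N := by linarith
  obtain ⟨a₁, ha₁, hm₁⟩ := exists_max N
  obtain ⟨a₂, ha₂, hm₂⟩ := exists_max (2 * N)
  have her0 : ∀ X Q a, 0 ≤ er X Q a := fun X Q a => abs_nonneg _
  refine ⟨fun Q => er N Q (a₁ Q) + er (2 * N) Q (a₂ Q), ?_, ?_⟩
  · intro X Q a hX hQ ha
    have h0 : er X Q a ≤ er N Q (a₁ Q) + er (2 * N) Q (a₂ Q) := by
      rcases hX with hX | hX
      · rw [hX]
        have h1 := hm₁ Q a hQ ha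
        have h2 := her0 (2 * N) Q (a₂ Q)
        linarith
      · rw [hX]
        have h1 := hm₂ Q a hQ ha
        have h2 := her0 N Q (a₁ Q)
        linarith
    exact h0
  set M : ℕ := ⌊(N : ℝ) ^ (min ε 1)⌋₊ with hM
  have hMr : (M : ℝ) ≤ (N : ℝ) ^ (min ε 1) := Nat.floor_le (by positivity)
  have hMN : M ≤ N := by
    have h1 : (N : ℝ) ^ (min ε 1) ≤ N := by
      calc (N : ℝ) ^ (min ε 1) ≤ (N : ℝ) ^ (1 : ℝ) :=
            Real.rpow_le_rpow_of_exponent_le hNr (min_le_right _ _)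
        _ = N := Real.rpow_one _
    have : (M : ℝ) ≤ N := le_trans hMr h1
    exact_mod_cast this
  have hM1 : (M : ℝ) ≤ (N : ℝ) ^ ε :=
    le_trans hMr (Real.rpow_le_rpow_of_exponent_le hNr (min_le_left _ _))
  have hM2 : (M : ℝ) ≤ ((2 * N : ℕ) : ℝ) ^ ε := by
    refine le_trans hM1 (Real.rpow_le_rpow (by positivity) ?_ hε.le)
    push_cast
    linarith
  set Bp : ℕ := 2 * B + 2 * K ^ 2 + 1 with hBp
  have hE1 := sum_er ε x₀ Bp hx N M hNx hM1 a₁ ha₁
  have hE2 := sum_er ε x₀ Bp hx (2 * N) M (by push_cast; linarith) hM2 a₂ ha₂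
  have hE3 : ∑ Q ∈ Icc 1 M, er (2 * N) Q (a₂ Q) ≤ 2 * N / L ^ Bp := by
    refine le_trans hE2 ?_
    push_cast
    apply div_le_div_of_nonneg_left (by positivity) (by positivity)
    apply pow_le_pow_left₀ hL0.le
    exact Real.log_le_log hN0 (by linarith)
  set Em : ℕ → ℝ := fun Q => er N Q (a₁ Q) + er (2 * N) Q (a₂ Q) with hEm
  have hEm0 : ∀ Q, 0 ≤ Em Q := fun Q => add_nonneg (her0 _ _ _) (her0 _ _ _)
  have hE : ∑ Q ∈ Icc 1 M, Em Q ≤ 3 * N / L ^ Bp := by
    rw [hEm, Finset.sum_add_distrib]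
    have : 3 * (N : ℝ) / L ^ Bp = N / L ^ Bp + 2 * N / L ^ Bp := by ring
    linarith
  have hW : ∑ Q ∈ Icc 1 M, ((K : ℝ) ^ Q.primeFactors.card) ^ 2 * Em Q ≤
      10 * N * (3 * L) ^ (2 * K ^ 2) := by
    have h1 : ∀ Q ∈ Icc 1 M, ((K : ℝ) ^ Q.primeFactors.card) ^ 2 * Em Q ≤
        10 * N * (((2 * K ^ 2 : ℕ) : ℝ) ^ Q.primeFactors.card / Q) := by
      intro Q hQ
      rw [Finset.mem_Icc] at hQ
      have e1 := er_le N N Q (a₁ Q) (by omega) hQ.1 (by omega)
      have e2 := er_le N (2 * N) Q (a₂ Q) le_rfl hQ.1 (by omega)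
      have e3 : Em Q ≤ 10 * N * 2 ^ Q.primeFactors.card / Q := by
        have : 10 * (N : ℝ) * 2 ^ Q.primeFactors.card / Q =
            5 * N * 2 ^ Q.primeFactors.card / Q + 5 * N * 2 ^ Q.primeFactors.card / Q := by ring
        rw [this, hEm]
        exact add_le_add e1 e2
      calc ((K : ℝ) ^ Q.primeFactors.card) ^ 2 * Em Q
          ≤ ((K : ℝ) ^ Q.primeFactors.card) ^ 2 * (10 * N * 2 ^ Q.primeFactors.card / Q) := by
            gcongr
        _ = 10 * N * (((2 * K ^ 2 : ℕ) : ℝ) ^ Q.primeFactors.card / Q) := by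
            push_cast
            rw [mul_pow, ← pow_mul, ← pow_mul, mul_comm 2 Q.primeFactors.card]
            ring
    have h2 := sum_pow_omega (2 * K ^ 2) M
    have h3 : 1 + Hs M ≤ 3 * L := by
      have h4 := Hs_le M
      have h5 : Real.log M ≤ L := by
        rcases Nat.eq_zero_or_pos M with h0 | h0
        · rw [h0]
          simp
          linarith
        · exact Real.log_le_log (by exact_mod_cast h0) (by exact_mod_cast hMN)
      linarith
    calc ∑ Q ∈ Icc 1 M, ((K : ℝ) ^ Q.primeFactors.card) ^ 2 * Em Q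
        ≤ ∑ Q ∈ Icc 1 M, 10 * N * (((2 * K ^ 2 : ℕ) : ℝ) ^ Q.primeFactors.card / Q) :=
          Finset.sum_le_sum h1
      _ = 10 * N * ∑ Q ∈ Icc 1 M, ((2 * K ^ 2 : ℕ) : ℝ) ^ Q.primeFactors.card / Q := by
          rw [Finset.mul_sum]
      _ ≤ 10 * N * (1 + Hs M) ^ (2 * K ^ 2) := by gcongr
      _ ≤ 10 * N * (3 * L) ^ (2 * K ^ 2) := by
          have := Hs_nonneg M
          gcongr
  have hCS := Finset.sum_mul_sq_le_sq_mul_sq (Icc 1 M)
    (fun Q => (K : ℝ) ^ Q.primeFactors.card * √(Em Q)) (fun Q => √(Em Q))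
  have hc1 : ∑ Q ∈ Icc 1 M, (K : ℝ) ^ Q.primeFactors.card * √(Em Q) * √(Em Q) =
      ∑ Q ∈ Icc 1 M, (K : ℝ) ^ Q.primeFactors.card * Em Q := by
    apply Finset.sum_congr rfl
    intro Q _
    rw [mul_assoc, Real.mul_self_sqrt (hEm0 Q)]
  have hc2 : ∑ Q ∈ Icc 1 M, ((K : ℝ) ^ Q.primeFactors.card * √(Em Q)) ^ 2 =
      ∑ Q ∈ Icc 1 M, ((K : ℝ) ^ Q.primeFactors.card) ^ 2 * Em Q := by
    apply Finset.sum_congr rfl
    intro Q _
    rw [mul_pow, Real.sq_sqrt (hEm0 Q)]
  have hc3 : ∑ Q ∈ Icc 1 M, √(Em Q) ^ 2 = ∑ Q ∈ Icc 1 M, Em Q := by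
    apply Finset.sum_congr rfl
    intro Q _
    rw [Real.sq_sqrt (hEm0 Q)]
  rw [hc1, hc2, hc3] at hCS
  have hfin : (∑ Q ∈ Icc 1 M, (K : ℝ) ^ Q.primeFactors.card * Em Q) ^ 2 ≤
      (N / L ^ B) ^ 2 := by
    refine le_trans hCS ?_
    have hE0 : 0 ≤ ∑ Q ∈ Icc 1 M, Em Q := Finset.sum_nonneg fun Q _ => hEm0 Q
    calc (∑ Q ∈ Icc 1 M, ((K : ℝ) ^ Q.primeFactors.card) ^ 2 * Em Q) * ∑ Q ∈ Icc 1 M, Em Q
        ≤ (10 * N * (3 * L) ^ (2 * K ^ 2)) * (3 * N / L ^ Bp) := by gcongr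
      _ = (N ^ 2 / L ^ (2 * B)) * ((30 * 9 ^ (K ^ 2)) / L) := by
          rw [hBp, mul_pow, pow_mul (3 : ℝ) 2 (K ^ 2), pow_add, pow_add, pow_one]
          have h1 : L ^ (2 * K ^ 2) ≠ 0 := by positivity
          have h2 : L ^ (2 * B) ≠ 0 := by positivity
          field_simp
          norm_num
      _ ≤ (N ^ 2 / L ^ (2 * B)) * 1 := by
          apply mul_le_mul_of_nonneg_left _ (by positivity)
          rw [div_le_one hL0]
          exact hLbig
      _ = (N / L ^ B) ^ 2 := by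
          rw [mul_one, div_pow, ← pow_mul, mul_comm B 2]
  exact le_trans (le_abs_self _) (abs_le_of_sq_le_sq hfin (by positivity))

end

end Pool.Agent.Lib.MP3efbeb.LG
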