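import Pool.Agent.Lib.MP_3efbeb_nt.LG.SpecC
import Pool.Agent.Lib.MP_3efbeb_nt.LG.CBB

/-!
# LongPatterns (MP_3efbeb_nt), module CB2: bounds for a two factor block (helper26)
-/

set_option autoImplicit false

namespace Pool.Agent.Lib.MP3efbeb.LG

open Finset MeasureTheory
open Pool.Agent.Lib.MP391708.QPA (PB rInd Wp Rough)

namespace CB2M

open CBBM (Big exists_big mem_PR zz_ge)

section

variable {N c A b η D : ℝ} {u : ℕ → ℝ}

lemma A_one (g : Big N c 1) (h : Bk2 N c A b η D u) : 1 ≤ A :=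
  le_trans (Real.one_le_rpow (by linarith [g.hL]) (by linarith [g.hc])) h.hA

lemma two_A_lt (g : Big N c 1) (h : Bk2 N c A b η D u) : 2 * A < zz N c := by
  have hL : 0 < Real.log N := by linarith [g.hL]
  have h1 : zz N c = Real.log N ^ (2 * c) * Real.log N ^ (3 * c) := by
    unfold zz
    rw [← Real.rpow_add hL]
    ring_nf
  have h2 : (8 : ℝ) ≤ Real.log N ^ (3 * c) := by
    calc (8 : ℝ) = 2 ^ (3 : ℝ) := by norm_num
      _ ≤ Real.log N ^ (3 : ℝ) := Real.rpow_le_rpow (by norm_num) g.hL (by norm_num)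
      _ ≤ Real.log N ^ (3 * c) :=
        Real.rpow_le_rpow_of_exponent_le (by linarith [g.hL]) (by linarith [g.hc])
  have h3 : 1 ≤ Real.log N ^ (2 * c) :=
    Real.one_le_rpow (by linarith [g.hL]) (by linarith [g.hc])
  rw [h1]
  nlinarith [h.hA']

lemma term (g : Big N c 1) (h : Bk2 N c A b η D u) {p n : ℕ} (hp : p ∈ PR A)
    (hd : p ∣ n) (hu : u (n / p) ≠ 0) :
    N / 8 < n ∧ (n : ℝ) ≤ 8 * N ∧ ∀ l : ℕ, l.Prime → l ∣ n → l = p ∨ zz N c ≤ l := by
  have hA := A_one g h
  have hN := g.hN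
  obtain ⟨hp1, hp2, hp3⟩ := mem_PR (by linarith) hp
  obtain ⟨k, rfl⟩ := hd
  have hk : p * k / p = k := Nat.mul_div_cancel_left k hp1.pos
  rw [hk] at hu
  obtain ⟨hs1, hs2⟩ := h.supp k hu
  have hA0 : 0 < A := by linarith
  have hkpos : (0 : ℝ) < k := lt_trans (by positivity) hs1
  have hk1 : N < 8 * A * k := by
    rw [div_lt_iff₀ (by positivity)] at hs1
    linarith
  have hk2 : A * k ≤ 4 * N := by
    rw [le_div_iff₀ hA0] at hs2
    linarith
  refine ⟨?_, ?_, ?_⟩
  · push_cast
    have := mul_le_mul_of_nonneg_right hp2.le hkpos.le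
    linarith
  · push_cast
    have := mul_le_mul_of_nonneg_right hp3 hkpos.le
    linarith
  · intro l hl hd
    rcases (Nat.Prime.dvd_mul hl).1 hd with h1 | h1
    · left
      exact (Nat.prime_dvd_prime_iff_eq hl hp1).1 h1
    · right
      exact h.rough k hu l hl h1

end

end CB2M

open CB2M in
open CBBM (Big exists_big mem_PR zz_ge) in
theorem specCB2 : SpecCB2 := by
  intro c hc
  obtain ⟨N₀, hN₀⟩ := exists_big 1 one_pos c hc
  refine ⟨N₀, fun N A b η D u hN h => ?_⟩
  have g := hN₀ N hN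
  have hA := A_one g h
  have hL : 0 < Real.log N := by linarith [g.hL]
  refine ⟨fun n => ?_, fun n hn => ?_⟩
  · unfold cd
    by_cases hE : ∃ p ∈ PR A, p ∣ n ∧ u (n / p) ≠ 0
    · obtain ⟨p0, hp0, hd0, hu0⟩ := hE
      obtain ⟨hn1, hn2, hn3⟩ := term g h hp0 hd0 hu0
      rw [Finset.sum_eq_single p0]
      · rw [if_pos hd0]
        exact h.bd _
      · intro p hp hne
        by_cases h2 : p ∣ n
        · rw [if_pos h2]
          obtain ⟨hp1, hp2, hp3⟩ := mem_PR (by linarith) hp
          rcases hn3 p hp1 h2 with h5 | h5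
          · exact absurd h5 hne
          · linarith [two_A_lt g h]
        · rw [if_neg h2]
      · intro h1
        exact absurd hp0 h1
    · push Not at hE
      have : ∑ p ∈ PR A, (if p ∣ n then u (n / p) else 0) = 0 := by
        refine Finset.sum_eq_zero fun p hp => ?_
        by_cases h2 : p ∣ n
        · rw [if_pos h2]
          exact hE p hp h2
        · rw [if_neg h2]
      rw [this, abs_zero]
      exact zero_le_one
  · unfold cd at hn
    obtain ⟨p, hp, hn⟩ := Finset.exists_ne_zero_of_sum_ne_zero hn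
    have hd : p ∣ n := by
      by_contra h1
      rw [if_neg h1] at hn
      exact hn rfl
    rw [if_pos hd] at hn
    obtain ⟨h1, h2, h3⟩ := term g h hp hd hn
    refine ⟨h1, h2, fun l hl hd' => ?_⟩
    obtain ⟨hp1, hp2, hp3⟩ := mem_PR (by linarith) hp
    rcases h3 l hl hd' with h4 | h4
    · rw [h4]
      exact lt_of_le_of_lt h.hA hp2
    · have h5 := h.hA
      have h6 := two_A_lt g h
      linarith

end Pool.Agent.Lib.MP3efbeb.LG
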