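import Pool.Agent.Lib.MP_3efbeb_nt.LG.SpecB
import Pool.Agent.Lib.MP_391708_nt.QPA.H.MER

/-!
# Module COF: the cofactors
-/

set_option autoImplicit false

namespace Pool.Agent.Lib.MP3efbeb.LG

open Finset Filter

noncomputable section

namespace COFM

/-! ### sums over primes -/

/-- the primes in `(x, y]` -/
def PI (x y : ℝ) : Finset ℕ := (IO x y).filter Nat.Prime

lemma mem_PI {x y : ℝ} (hx : 0 ≤ x) (hy : 0 ≤ y) {p : ℕ} :
    p ∈ PI x y ↔ (x < p ∧ (p : ℝ) ≤ y) ∧ p.Prime := by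
  unfold PI IO
  rw [Finset.mem_filter, Finset.mem_Ioc, Nat.floor_lt hx, Nat.le_floor_iff hy]

lemma prime_sums : ∃ x₀ : ℝ, 4 ≤ x₀ ∧ ∀ x y : ℝ, x₀ ≤ x → x ^ ((3 : ℝ) / 2) ≤ y → y ≤ x ^ 2 →
    1 / 8 ≤ ∑ p ∈ PI x y, 1 / (p : ℝ) ∧ ∑ p ∈ PI x y, 1 / (p : ℝ) ≤ 2 := by
  obtain ⟨C, hC0, hC⟩ := Pool.Agent.Lib.MP391708.QPA.H.MERM.mert_low
  refine ⟨max 4 (Real.exp (8 + 4 * C)), le_max_left _ _, fun x y hx hxy hyx => ?_⟩
  have hx4 : 4 ≤ x := (le_max_left _ _).trans hx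
  have hx0 : 0 < x := by linarith
  have hlx : 8 + 4 * C ≤ Real.log x := by
    rw [Real.le_log_iff_exp_le hx0]
    exact (le_max_right _ _).trans hx
  have hlx0 : 0 < Real.log x := by linarith
  have hx32 : x ≤ x ^ ((3 : ℝ) / 2) := by
    calc x = x ^ (1 : ℝ) := (Real.rpow_one x).symm
      _ ≤ _ := Real.rpow_le_rpow_of_exponent_le (by linarith) (by norm_num)
  have hxy' : x ≤ y := hx32.trans hxy
  have hy0 : 0 < y := by linarith
  have h1 := hC x y (by linarith) hxy'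
  have h2 := Pool.Agent.Lib.MP391708.QPA.P3M.mert x y (by linarith) hxy'
  have hly : 3 / 2 * Real.log x ≤ Real.log y := by
    rw [← Real.log_rpow hx0]
    exact Real.log_le_log (by positivity) hxy
  have hly2 : Real.log y ≤ 2 * Real.log x := by
    have := Real.log_le_log hy0 hyx
    rwa [Real.log_pow, Nat.cast_ofNat] at this
  have hm : ∀ p ∈ PI x y, 0 < (p : ℝ) ∧ Real.log x ≤ Real.log p ∧ Real.log p ≤ 2 * Real.log x := by
    intro p hp
    rw [mem_PI hx0.le hy0.le] at hp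
    obtain ⟨⟨h3, h4⟩, h5⟩ := hp
    have hp0 : (0 : ℝ) < p := by linarith
    exact ⟨hp0, Real.log_le_log hx0 h3.le, (Real.log_le_log hp0 h4).trans hly2⟩
  constructor
  · have h3 : (∑ p ∈ PI x y, Real.log p / (p : ℝ)) / (2 * Real.log x) ≤ ∑ p ∈ PI x y, 1 / (p : ℝ) := by
      rw [Finset.sum_div]
      refine Finset.sum_le_sum fun p hp => ?_
      obtain ⟨h4, h5, h6⟩ := hm p hp
      rw [div_div, div_le_div_iff₀ (by positivity) h4, one_mul]
      nlinarith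
    have h4 : 1 / 8 ≤ (∑ p ∈ PI x y, Real.log p / (p : ℝ)) / (2 * Real.log x) := by
      rw [le_div_iff₀ (by positivity)]
      have : (∑ p ∈ PI x y, Real.log p / (p : ℝ)) =
        ∑ p ∈ (Ioc ⌊x⌋₊ ⌊y⌋₊).filter Nat.Prime, Real.log p / (p : ℝ) := rfl
      rw [this]
      linarith
    linarith
  · have h3 : ∑ p ∈ PI x y, 1 / (p : ℝ) ≤ (∑ p ∈ PI x y, Real.log p / (p : ℝ)) / Real.log x := by
      rw [Finset.sum_div]
      refine Finset.sum_le_sum fun p hp => ?_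
      obtain ⟨h4, h5, h6⟩ := hm p hp
      rw [div_div, div_le_div_iff₀ h4 (by positivity), one_mul]
      nlinarith
    refine h3.trans ?_
    rw [div_le_iff₀ hlx0]
    have : (∑ p ∈ PI x y, Real.log p / (p : ℝ)) =
      ∑ p ∈ (Ioc ⌊x⌋₊ ⌊y⌋₊).filter Nat.Prime, Real.log p / (p : ℝ) := rfl
    rw [this]
    linarith

lemma two_pow_le {x : ℝ} (hx : 1 ≤ x) : (2 : ℝ) ^ ⌊Real.logb 2 x⌋₊ ≤ x := by
  have h0 : 0 ≤ Real.logb 2 x := Real.logb_nonneg (by norm_num) hx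
  calc (2 : ℝ) ^ ⌊Real.logb 2 x⌋₊ = (2 : ℝ) ^ ((⌊Real.logb 2 x⌋₊ : ℕ) : ℝ) :=
        (Real.rpow_natCast _ _).symm
    _ ≤ (2 : ℝ) ^ (Real.logb 2 x) :=
        Real.rpow_le_rpow_of_exponent_le (by norm_num) (Nat.floor_le h0)
    _ = x := Real.rpow_logb (by norm_num) (by norm_num) (by linarith)

lemma le_two_pow {x : ℝ} (hx : 1 ≤ x) : x / 2 ≤ (2 : ℝ) ^ ⌊Real.logb 2 x⌋₊ := by
  have h1 : x ≤ (2 : ℝ) ^ (⌊Real.logb 2 x⌋₊ + 1) := by
    calc x = (2 : ℝ) ^ (Real.logb 2 x) := (Real.rpow_logb (by norm_num) (by norm_num) (by linarith)).symm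
      _ ≤ (2 : ℝ) ^ (((⌊Real.logb 2 x⌋₊ + 1 : ℕ)) : ℝ) := by
          refine Real.rpow_le_rpow_of_exponent_le (by norm_num) ?_
          have := (Nat.lt_floor_add_one (Real.logb 2 x)).le
          push_cast
          exact this
      _ = _ := Real.rpow_natCast _ _
  rw [pow_succ] at h1
  linarith

/-- the upper end `2^⌊logb 2 x⌋ x` -/
lemma dyad {x : ℝ} (hx : 4 ≤ x) : x ^ ((3 : ℝ) / 2) ≤ 2 ^ ⌊Real.logb 2 x⌋₊ * x ∧
    2 ^ ⌊Real.logb 2 x⌋₊ * x ≤ x ^ 2 := by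
  have hx0 : 0 < x := by linarith
  have h1 := two_pow_le (x := x) (by linarith)
  have h2 := le_two_pow (x := x) (by linarith)
  constructor
  · have h3 : x ^ ((3 : ℝ) / 2) = x * √x := by
      rw [Real.sqrt_eq_rpow, ← Real.rpow_one_add' hx0.le (by norm_num)]
      norm_num
    have h4 : √x ≤ x / 2 := by
      rw [Real.sqrt_le_left (by linarith)]
      nlinarith
    rw [h3]
    nlinarith
  · rw [pow_two]
    exact mul_le_mul_of_nonneg_right h1 hx0.le

/-! ### products of `s` primes -/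

/-- products of `s` primes of `(a, b]` -/
def DX (M : ℕ) (a b : ℝ) (s : ℕ) : Finset ℕ :=
  (Icc 1 M).filter (fun d => d.primeFactorsList.length = s ∧
    ∀ p ∈ d.primeFactorsList, a < p ∧ (p : ℝ) ≤ b)

lemma pfl_mul {p d : ℕ} (hp : p.Prime) (hd : d ≠ 0) :
    (p * d).primeFactorsList.Perm (p :: d.primeFactorsList) := by
  have h := Nat.perm_primeFactorsList_mul hp.ne_zero hd
  rwa [Nat.primeFactorsList_prime hp, List.singleton_append] at h

lemma mul_mem_DX {M : ℕ} {a b : ℝ} {s p d : ℕ} (hp : p.Prime) (ha : a < p) (hb : (p : ℝ) ≤ b)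
    (hd : d ∈ DX M a b s) (hM : p * d ≤ M) : p * d ∈ DX M a b (s + 1) := by
  unfold DX at hd ⊢
  rw [Finset.mem_filter, Finset.mem_Icc] at hd ⊢
  obtain ⟨⟨h1, h2⟩, h3, h4⟩ := hd
  have hpm := pfl_mul hp (show d ≠ 0 by omega)
  refine ⟨⟨Nat.succ_le_of_lt (Nat.mul_pos hp.pos h1), hM⟩, ?_, ?_⟩
  · rw [hpm.length_eq, List.length_cons, h3]
  · intro q hq
    rw [hpm.mem_iff, List.mem_cons] at hq
    rcases hq with rfl | hq
    · exact ⟨ha, hb⟩
    · exact h4 q hq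

lemma div_mem_DX {M : ℕ} {a b : ℝ} {s p d : ℕ} (hp : p.Prime) (hd : d ∈ DX M a b s) (hpd : p ∣ d) :
    ∃ s' d', s = s' + 1 ∧ d = p * d' ∧ d' ∈ DX M a b s' ∧ a < p ∧ (p : ℝ) ≤ b := by
  unfold DX at hd
  rw [Finset.mem_filter, Finset.mem_Icc] at hd
  obtain ⟨⟨h1, h2⟩, h3, h4⟩ := hd
  obtain ⟨d', rfl⟩ := hpd
  have hd' : d' ≠ 0 := by
    rintro rfl
    simp at h1
  have hpm := pfl_mul hp hd'
  rw [hpm.length_eq, List.length_cons] at h3
  have h5 := h4 p (hpm.mem_iff.2 List.mem_cons_self)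
  refine ⟨d'.primeFactorsList.length, d', h3.symm, rfl, ?_, h5.1, h5.2⟩
  unfold DX
  rw [Finset.mem_filter, Finset.mem_Icc]
  refine ⟨⟨Nat.pos_of_ne_zero hd', ?_⟩, rfl, fun q hq => h4 q (hpm.mem_iff.2 (List.mem_cons_of_mem _ hq))⟩
  calc d' = 1 * d' := (one_mul _).symm
    _ ≤ p * d' := Nat.mul_le_mul_right _ hp.one_le
    _ ≤ M := h2

lemma DX_zero {M : ℕ} (hM : 1 ≤ M) (a b : ℝ) : DX M a b 0 = {1} := by
  ext d
  unfold DX
  rw [Finset.mem_filter, Finset.mem_Icc, Finset.mem_singleton]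
  constructor
  · rintro ⟨⟨h1, _⟩, h2, _⟩
    have h3 := Nat.prod_primeFactorsList (show d ≠ 0 by omega)
    rw [List.length_eq_zero_iff.1 h2] at h3
    simpa using h3.symm
  · rintro rfl
    simp [hM]

lemma DX_pos {M : ℕ} {a b : ℝ} {s d : ℕ} (hd : d ∈ DX M a b s) : 1 ≤ d := by
  unfold DX at hd
  rw [Finset.mem_filter, Finset.mem_Icc] at hd
  exact hd.1.1

lemma list_prod_le {y : ℝ} (hy : 0 ≤ y) : ∀ l : List ℕ, (∀ p ∈ l, (p : ℝ) ≤ y) →
    ((l.prod : ℕ) : ℝ) ≤ y ^ l.length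
  | [], _ => by simp
  | p :: l, h => by
    rw [List.prod_cons, List.length_cons, pow_succ, Nat.cast_mul, mul_comm]
    have h1 := list_prod_le hy l (fun q hq => h q (List.mem_cons_of_mem _ hq))
    exact mul_le_mul h1 (h p List.mem_cons_self) (Nat.cast_nonneg _) (by positivity)

lemma DX_le {M : ℕ} {a b : ℝ} (hb : 0 ≤ b) {s d : ℕ} (hd : d ∈ DX M a b s) : (d : ℝ) ≤ b ^ s := by
  have h0 := DX_pos hd
  unfold DX at hd
  rw [Finset.mem_filter, Finset.mem_Icc] at hd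
  obtain ⟨_, h3, h4⟩ := hd
  have h5 := list_prod_le hb d.primeFactorsList (fun p hp => (h4 p hp).2)
  rwa [Nat.prod_primeFactorsList (by omega), h3] at h5

/-- the sum of the reciprocals -/
def TX (M : ℕ) (a b : ℝ) (s : ℕ) : ℝ := ∑ d ∈ DX M a b s, 1 / (d : ℝ)

lemma TX_nonneg (M : ℕ) (a b : ℝ) (s : ℕ) : 0 ≤ TX M a b s :=
  Finset.sum_nonneg fun _ _ => by positivity

lemma TX_succ_le {M : ℕ} {a b : ℝ} (ha : 0 ≤ a) (hb : 0 ≤ b) (s : ℕ) :
    TX M a b (s + 1) ≤ (∑ p ∈ PI a b, 1 / (p : ℝ)) * TX M a b s := by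
  classical
  have h1 : DX M a b (s + 1) ⊆ (PI a b ×ˢ DX M a b s).image (fun t : ℕ × ℕ => t.1 * t.2) := by
    intro d hd
    have h1 : d ≠ 1 := by
      rintro rfl
      unfold DX at hd
      rw [Finset.mem_filter, Nat.primeFactorsList_one] at hd
      simp at hd
    obtain ⟨s', d', hs, hdd, h2, h3, h4⟩ := div_mem_DX (Nat.minFac_prime h1) hd (Nat.minFac_dvd d)
    have hs' : s' = s := by omega
    subst hs'
    rw [Finset.mem_image]
    refine ⟨(d.minFac, d'), ?_, hdd.symm⟩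
    rw [Finset.mem_product]
    exact ⟨(mem_PI ha hb).2 ⟨⟨h3, h4⟩, Nat.minFac_prime h1⟩, h2⟩
  unfold TX
  calc ∑ d ∈ DX M a b (s + 1), 1 / (d : ℝ)
      ≤ ∑ d ∈ ((PI a b ×ˢ DX M a b s).image (fun t : ℕ × ℕ => t.1 * t.2) : Finset ℕ), 1 / (d : ℝ) :=
        Finset.sum_le_sum_of_subset_of_nonneg h1 fun _ _ _ => by positivity
    _ ≤ ∑ t ∈ PI a b ×ˢ DX M a b s, 1 / ((t.1 * t.2 : ℕ) : ℝ) :=
        Finset.sum_image_le_of_nonneg fun _ _ => by positivity
    _ = _ := by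
        rw [Finset.sum_product, Finset.sum_mul_sum]
        refine Finset.sum_congr rfl fun p _ => Finset.sum_congr rfl fun d _ => ?_
        push_cast
        rw [one_div_mul_one_div]

lemma le_TX_succ {M : ℕ} {a b : ℝ} (ha : 0 ≤ a) (hb : 0 ≤ b) (s : ℕ) (hM : b ^ (s + 1) ≤ M) :
    (∑ p ∈ PI a b, 1 / (p : ℝ)) * TX M a b s ≤ (s + 1) * TX M a b (s + 1) := by
  classical
  have hmap : ∀ t ∈ PI a b ×ˢ DX M a b s, t.1 * t.2 ∈ DX M a b (s + 1) := by
    intro t ht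
    rw [Finset.mem_product, mem_PI ha hb] at ht
    obtain ⟨⟨⟨h1, h2⟩, h3⟩, h4⟩ := ht
    refine mul_mem_DX h3 h1 h2 h4 ?_
    have h5 := DX_le hb h4
    have h6 : ((t.1 * t.2 : ℕ) : ℝ) ≤ M := by
      push_cast
      refine le_trans ?_ hM
      rw [pow_succ, mul_comm]
      exact mul_le_mul h5 h2 (Nat.cast_nonneg _) (by positivity)
    exact_mod_cast h6
  unfold TX
  calc (∑ p ∈ PI a b, 1 / (p : ℝ)) * ∑ d ∈ DX M a b s, 1 / (d : ℝ)
      = ∑ t ∈ PI a b ×ˢ DX M a b s, 1 / ((t.1 * t.2 : ℕ) : ℝ) := by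
        rw [Finset.sum_product, Finset.sum_mul_sum]
        refine Finset.sum_congr rfl fun p _ => Finset.sum_congr rfl fun d _ => ?_
        push_cast
        rw [one_div_mul_one_div]
    _ = ∑ d ∈ DX M a b (s + 1), ∑ t ∈ (PI a b ×ˢ DX M a b s).filter (fun t => t.1 * t.2 = d),
          1 / ((t.1 * t.2 : ℕ) : ℝ) := (Finset.sum_fiberwise_of_maps_to hmap _).symm
    _ ≤ ∑ d ∈ DX M a b (s + 1), (s + 1) * (1 / (d : ℝ)) := by
        refine Finset.sum_le_sum fun d hd => ?_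
        have h0 := DX_pos hd
        have h1 : ∑ t ∈ (PI a b ×ˢ DX M a b s).filter (fun t => t.1 * t.2 = d),
            1 / ((t.1 * t.2 : ℕ) : ℝ) =
            ((PI a b ×ˢ DX M a b s).filter (fun t => t.1 * t.2 = d)).card * (1 / (d : ℝ)) := by
          rw [← nsmul_eq_mul, ← Finset.sum_const]
          refine Finset.sum_congr rfl fun t ht => ?_
          rw [(Finset.mem_filter.1 ht).2]
        rw [h1]
        refine mul_le_mul_of_nonneg_right ?_ (by positivity)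
        have h2 : ((PI a b ×ˢ DX M a b s).filter (fun t => t.1 * t.2 = d)).card ≤
            d.primeFactorsList.toFinset.card := by
          refine Finset.card_le_card_of_injOn (fun t => t.1) ?_ ?_
          · intro t ht
            rw [Finset.mem_coe, Finset.mem_filter, Finset.mem_product, mem_PI ha hb] at ht
            rw [Finset.mem_coe, List.mem_toFinset, Nat.mem_primeFactorsList (by omega)]
            exact ⟨ht.1.1.2, ⟨t.2, ht.2.symm⟩⟩
          · intro t ht t' ht' htt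
            rw [Finset.mem_coe, Finset.mem_filter, Finset.mem_product, mem_PI ha hb] at ht ht'
            have htt' : t.1 = t'.1 := htt
            refine Prod.ext htt' ?_
            have h3 : t.1 * t.2 = t.1 * t'.2 := by rw [ht.2, htt', ht'.2]
            exact Nat.eq_of_mul_eq_mul_left ht.1.1.2.pos h3
        have h3 : d.primeFactorsList.length = s + 1 := by
          unfold DX at hd
          rw [Finset.mem_filter] at hd
          exact hd.2.1
        have h4 := h2.trans (List.toFinset_card_le _)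
        rw [h3] at h4
        exact_mod_cast h4
    _ = _ := by rw [Finset.mul_sum]

lemma TX_le {M : ℕ} (hM : 1 ≤ M) {a b : ℝ} (ha : 0 ≤ a) (hb : 0 ≤ b)
    (h2 : ∑ p ∈ PI a b, 1 / (p : ℝ) ≤ 2) (s : ℕ) : TX M a b s ≤ 2 ^ s := by
  induction s with
  | zero => unfold TX; rw [DX_zero hM]; simp
  | succ s ih =>
    refine (TX_succ_le ha hb s).trans ?_
    rw [pow_succ, mul_comm]
    exact mul_le_mul ih h2 (Finset.sum_nonneg fun _ _ => by positivity) (by positivity)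

lemma le_TX {M : ℕ} (hM : 1 ≤ M) {a b : ℝ} (ha : 0 ≤ a) (hb : 1 ≤ b)
    (h8 : 1 / 8 ≤ ∑ p ∈ PI a b, 1 / (p : ℝ)) (s : ℕ) (hs : b ^ s ≤ M) :
    (1 / 8) ^ s / (s.factorial : ℝ) ≤ TX M a b s := by
  induction s with
  | zero => unfold TX; rw [DX_zero hM]; simp
  | succ s ih =>
    have h1 := ih ((pow_le_pow_right₀ hb (Nat.le_succ s)).trans hs)
    have h2 := le_TX_succ ha (by linarith) s hs
    rw [Nat.factorial_succ, div_le_iff₀ (by positivity)]
    rw [div_le_iff₀ (by positivity)] at h1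
    push_cast
    have h3 : (1 / 8 : ℝ) * TX M a b s ≤ (s + 1) * TX M a b (s + 1) :=
      (mul_le_mul_of_nonneg_right h8 (TX_nonneg _ _ _ _)).trans h2
    calc ((1 : ℝ) / 8) ^ (s + 1) = 1 / 8 * (1 / 8) ^ s := by rw [pow_succ, mul_comm]
      _ ≤ 1 / 8 * (TX M a b s * s.factorial) := by gcongr
      _ = (1 / 8 * TX M a b s) * s.factorial := by ring
      _ ≤ ((s + 1) * TX M a b (s + 1)) * s.factorial := by gcongr
      _ = _ := by ring

/-- multiples of a prime -/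
lemma TX_dvd {M : ℕ} (hM : 1 ≤ M) {a b : ℝ} (ha : 0 ≤ a) (hb : 0 ≤ b)
    (h2 : ∑ p ∈ PI a b, 1 / (p : ℝ) ≤ 2) (s : ℕ) {l : ℕ} (hl : l.Prime) :
    (∑ d ∈ DX M a b s, if l ∣ d then 1 / (d : ℝ) else 0) ≤ 2 ^ s / l := by
  classical
  have hl0 : (0 : ℝ) < l := by exact_mod_cast hl.pos
  rw [← Finset.sum_filter]
  rcases s with _ | s
  · have : (DX M a b 0).filter (fun d => l ∣ d) = ∅ := by
      rw [DX_zero hM]
      ext d
      simp only [Finset.mem_filter, Finset.mem_singleton, Finset.notMem_empty, iff_false, not_and]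
      rintro rfl h
      exact hl.one_lt.ne' (Nat.dvd_one.1 h)
    rw [this, Finset.sum_empty]
    positivity
  · have h1 : (DX M a b (s + 1)).filter (fun d => l ∣ d) ⊆ (DX M a b s).image (fun d => l * d) := by
      intro d hd
      rw [Finset.mem_filter] at hd
      obtain ⟨s', d', hs, hdd, h3, _, _⟩ := div_mem_DX hl hd.1 hd.2
      have hs' : s' = s := by omega
      subst hs'
      exact Finset.mem_image.2 ⟨d', h3, hdd.symm⟩
    calc ∑ d ∈ (DX M a b (s + 1)).filter (fun d => l ∣ d), 1 / (d : ℝ)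
        ≤ ∑ d ∈ (DX M a b s).image (fun d => l * d), 1 / (d : ℝ) :=
          Finset.sum_le_sum_of_subset_of_nonneg h1 fun _ _ _ => by positivity
      _ ≤ ∑ d ∈ DX M a b s, 1 / ((l * d : ℕ) : ℝ) :=
          Finset.sum_image_le_of_nonneg fun _ _ => by positivity
      _ = TX M a b s / l := by
          unfold TX
          rw [Finset.sum_div]
          refine Finset.sum_congr rfl fun d _ => ?_
          push_cast
          rw [div_div, mul_comm]
      _ ≤ 2 ^ (s + 1) / l := by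
          gcongr
          refine (TX_le hM ha hb h2 s).trans ?_
          exact pow_le_pow_right₀ (by norm_num) (Nat.le_succ s)

/-! ### the cofactors -/

variable {N c e : ℝ} {r : ℕ}

/-- the numerical conditions -/
structure Num (x₀ N c e : ℝ) : Prop where
  hN : 4 ≤ N
  hL : 1 ≤ Real.log N
  hx : x₀ ≤ Real.log N ^ c
  hx' : x₀ ≤ N ^ (e / 3)
  sep : Real.log N ^ (2 * c) ≤ N ^ (e / 3)

lemma PPs_eq (N c : ℝ) : PPs N c = PI (Real.log N ^ c)
    (2 ^ ⌊Real.logb 2 (Real.log N ^ c)⌋₊ * Real.log N ^ c) := rfl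

lemma QQs_eq (N e : ℝ) : QQs N e = PI (N ^ e) (2 ^ ⌊Real.logb 2 (N ^ e)⌋₊ * N ^ e) := rfl

lemma DDs_eq (N e : ℝ) (s : ℕ) : DDs N e s = DX ⌊N⌋₊ (N ^ (e / 3)) (N ^ (2 * e / 3)) s := rfl

lemma sq_rpow {x : ℝ} (hx : 0 ≤ x) (t : ℝ) : (x ^ t) ^ 2 = x ^ (2 * t) := by
  rw [← Real.rpow_natCast, ← Real.rpow_mul hx, mul_comm]
  norm_num

variable {x₀ : ℝ}

lemma mem_PPs (h4 : 4 ≤ x₀) (h : Num x₀ N c e) {p : ℕ} (hp : p ∈ PPs N c) :
    p.Prime ∧ Real.log N ^ c < p ∧ (p : ℝ) ≤ Real.log N ^ (2 * c) := by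
  have h1 : 4 ≤ Real.log N ^ c := h4.trans h.hx
  have h2 := (dyad h1).2
  have h3 : 0 ≤ (2 : ℝ) ^ ⌊Real.logb 2 (Real.log N ^ c)⌋₊ * Real.log N ^ c := by positivity
  rw [PPs_eq, mem_PI (by linarith) h3] at hp
  refine ⟨hp.2, hp.1.1, hp.1.2.trans (h2.trans ?_)⟩
  rw [sq_rpow (by linarith [h.hL])]

lemma mem_QQs (h4 : 4 ≤ x₀) (he : 0 < e) (h : Num x₀ N c e) {q : ℕ} (hq : q ∈ QQs N e) :
    q.Prime ∧ N ^ e < q ∧ (q : ℝ) ≤ N ^ (2 * e) := by
  have hN := h.hN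
  have h0 : x₀ ≤ N ^ e := h.hx'.trans (Real.rpow_le_rpow_of_exponent_le (by linarith) (by linarith))
  have h1 : 4 ≤ N ^ e := h4.trans h0
  have h2 := (dyad h1).2
  have h3 : 0 ≤ (2 : ℝ) ^ ⌊Real.logb 2 (N ^ e)⌋₊ * N ^ e := by positivity
  rw [QQs_eq, mem_PI (by linarith) h3] at hq
  refine ⟨hq.2, hq.1.1, hq.1.2.trans (h2.trans ?_)⟩
  rw [sq_rpow (by linarith)]

lemma mem_DDs {s d : ℕ} (hd : d ∈ DDs N e s) : 1 ≤ d ∧ d.primeFactorsList.length = s ∧
    ∀ p : ℕ, p.Prime → p ∣ d → N ^ (e / 3) < p ∧ (p : ℝ) ≤ N ^ (2 * e / 3) := by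
  unfold DDs at hd
  rw [Finset.mem_filter, Finset.mem_Icc] at hd
  exact ⟨hd.1.1, hd.2.1, fun p hp hpd => hd.2.2 p ((Nat.mem_primeFactorsList (by omega)).2 ⟨hp, hpd⟩)⟩

lemma inj (h4 : 4 ≤ x₀) (he : 0 < e) (h : Num x₀ N c e) {s p q d p' q' d' : ℕ}
    (hp : p ∈ PPs N c) (hq : q ∈ QQs N e) (hd : d ∈ DDs N e s)
    (hp' : p' ∈ PPs N c) (hq' : q' ∈ QQs N e) (hd' : d' ∈ DDs N e s)
    (heq : p * q * d = p' * q' * d') : p = p' ∧ q = q' ∧ d = d' := by
  have hN := h.hN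
  have m1 := mem_PPs h4 h hp
  have m1' := mem_PPs h4 h hp'
  have m2 := mem_QQs h4 he h hq
  have m2' := mem_QQs h4 he h hq'
  have m3 := mem_DDs hd
  have m3' := mem_DDs hd'
  have hsep := h.sep
  have e1 : N ^ (e / 3) ≤ N ^ e := Real.rpow_le_rpow_of_exponent_le (by linarith) (by linarith)
  have e2 : N ^ (2 * e / 3) ≤ N ^ e := Real.rpow_le_rpow_of_exponent_le (by linarith) (by linarith)
  have hpp : p = p' := by
    have h1 : p ∣ p' * q' * d' := by rw [← heq, mul_assoc]; exact dvd_mul_right _ _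
    rcases (Nat.Prime.dvd_mul m1.1).1 h1 with h2 | h2
    · rcases (Nat.Prime.dvd_mul m1.1).1 h2 with h3 | h3
      · exact (Nat.prime_dvd_prime_iff_eq m1.1 m1'.1).1 h3
      · exfalso
        have h5 := (Nat.prime_dvd_prime_iff_eq m1.1 m2'.1).1 h3
        have h6 : (p : ℝ) = q' := by exact_mod_cast h5
        linarith [m1.2.2, m2'.2.1]
    · exfalso
      linarith [m1.2.2, (m3'.2.2 p m1.1 h2).1]
  subst hpp
  have heq2 : q * d = q' * d' := by
    rw [mul_assoc, mul_assoc] at heq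
    exact Nat.eq_of_mul_eq_mul_left m1.1.pos heq
  have hqq : q = q' := by
    have h1 : q ∣ q' * d' := by rw [← heq2]; exact dvd_mul_right _ _
    rcases (Nat.Prime.dvd_mul m2.1).1 h1 with h3 | h3
    · exact (Nat.prime_dvd_prime_iff_eq m2.1 m2'.1).1 h3
    · exfalso
      linarith [m2.2.1, (m3'.2.2 q m2.1 h3).2]
  subst hqq
  exact ⟨rfl, rfl, Nat.eq_of_mul_eq_mul_left m2.1.pos heq2⟩

lemma sum_mm (h4 : 4 ≤ x₀) (he : 0 < e) (h : Num x₀ N c e) (F : ℕ → ℝ) :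
    ∑ m ∈ mm N c e r, F m =
      ∑ p ∈ PPs N c, ∑ q ∈ QQs N e, ∑ d ∈ DDs N e (r - 3), F (p * q * d) := by
  unfold mm
  rw [Finset.sum_image, Finset.sum_product, Finset.sum_product]
  rintro ⟨⟨p, q⟩, d⟩ ht ⟨⟨p', q'⟩, d'⟩ ht' heq
  rw [Finset.mem_coe, Finset.mem_product, Finset.mem_product] at ht ht'
  obtain ⟨h1, h2, h3⟩ := inj h4 he h ht.1.1 ht.1.2 ht.2 ht'.1.1 ht'.1.2 ht'.2 heq
  simp only at h1 h2 h3
  rw [h1, h2, h3]

lemma eventually_num (hc : 0 < c) (he : 0 < e) : ∀ᶠ N : ℝ in atTop, Num x₀ N c e := by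
  have tl := Real.tendsto_log_atTop
  have a1 : ∀ᶠ N : ℝ in atTop, 4 ≤ N := eventually_ge_atTop 4
  have a2 : ∀ᶠ N : ℝ in atTop, 1 ≤ Real.log N := tl.eventually (eventually_ge_atTop 1)
  have a3 : ∀ᶠ N : ℝ in atTop, x₀ ≤ Real.log N ^ c := by
    have h : Tendsto (fun x : ℝ => x ^ c) atTop atTop := tendsto_rpow_atTop hc
    exact (h.comp tl).eventually (eventually_ge_atTop x₀)
  have a4 : ∀ᶠ N : ℝ in atTop, x₀ ≤ N ^ (e / 3) :=
    (tendsto_rpow_atTop (by positivity)).eventually (eventually_ge_atTop x₀)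
  have a5 : ∀ᶠ N : ℝ in atTop, Real.log N ^ (2 * c) ≤ N ^ (e / 3) := by
    have h := (isLittleO_log_rpow_rpow_atTop (2 * c) (show 0 < e / 3 by positivity)).bound
      (show (0 : ℝ) < 1 by norm_num)
    filter_upwards [h, a1, a2] with N hN h4 hL
    rw [Real.norm_of_nonneg (Real.rpow_nonneg (by linarith) _),
      Real.norm_of_nonneg (Real.rpow_nonneg (by linarith) _)] at hN
    linarith
  filter_upwards [a1, a2, a3, a4, a5] with N h1 h2 h3 h4 h5
  exact ⟨h1, h2, h3, h4, h5⟩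

end COFM

open COFM in
theorem specCOF : SpecCOF := by
  classical
  intro r hr
  obtain ⟨x₀, hx4, hps⟩ := prime_sums
  refine ⟨(1 / 8) ^ 2 * ((1 / 8) ^ (r - 3) / ((r - 3).factorial : ℝ)), 3 * 2 ^ r, by positivity, ?_, ?_⟩
  · have : (1 : ℝ) ≤ 2 ^ r := one_le_pow₀ (by norm_num)
    linarith
  intro e c he he2 her hc
  obtain ⟨N₀, hN₀⟩ := Filter.eventually_atTop.1 (eventually_num (x₀ := x₀) (c := c) (e := e) (by linarith) he)
  refine ⟨N₀, fun N hN => ?_⟩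
  have h := hN₀ N hN
  have hN4 := h.hN
  have hN0 : 0 < N := by linarith
  have hL := h.hL
  have hr3 : ((r - 3 : ℕ) : ℝ) = (r : ℝ) - 3 := by
    rw [Nat.cast_sub hr]
    norm_num
  have hNe : x₀ ≤ N ^ e := h.hx'.trans (Real.rpow_le_rpow_of_exponent_le (by linarith) (by linarith))
  have hM : 1 ≤ ⌊N⌋₊ := Nat.le_floor (by push_cast; linarith)
  have hb1 : 1 ≤ N ^ (2 * e / 3) := Real.one_le_rpow (by linarith) (by positivity)
  -- the three sums
  obtain ⟨p1, p2⟩ := hps _ _ h.hx (dyad (hx4.trans h.hx)).1 (dyad (hx4.trans h.hx)).2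
  rw [← PPs_eq] at p1 p2
  obtain ⟨q1, q2⟩ := hps _ _ hNe (dyad (hx4.trans hNe)).1 (dyad (hx4.trans hNe)).2
  rw [← QQs_eq] at q1 q2
  have hab : (N ^ (e / 3)) ^ 2 = N ^ (2 * e / 3) := by
    rw [sq_rpow hN0.le]
    congr 1
    ring
  obtain ⟨d1, d2⟩ := hps _ _ h.hx' (by
    rw [← hab, ← Real.rpow_natCast]
    exact Real.rpow_le_rpow_of_exponent_le (by linarith [hx4.trans h.hx']) (by norm_num)) hab.ge
  have hbs : (N ^ (2 * e / 3)) ^ (r - 3) ≤ ((⌊N⌋₊ : ℕ) : ℝ) := by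
    have h1 : (N ^ (2 * e / 3)) ^ (r - 3) ≤ N ^ ((1 : ℝ) / 2) := by
      rw [← Real.rpow_natCast, ← Real.rpow_mul hN0.le]
      refine Real.rpow_le_rpow_of_exponent_le (by linarith) ?_
      rw [hr3]
      nlinarith
    have h2 : N ^ ((1 : ℝ) / 2) ≤ N / 2 := by
      rw [← Real.sqrt_eq_rpow, Real.sqrt_le_left (by linarith)]
      nlinarith
    have h3 := (Nat.lt_floor_add_one N).le
    linarith
  have t1 := le_TX hM (by positivity : (0 : ℝ) ≤ N ^ (e / 3)) hb1 d1 (r - 3) hbs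
  have t2 := TX_le hM (by positivity : (0 : ℝ) ≤ N ^ (e / 3)) (by linarith) d2 (r - 3)
  set T := TX ⌊N⌋₊ (N ^ (e / 3)) (N ^ (2 * e / 3)) (r - 3) with hT
  have hT0 : 0 ≤ T := TX_nonneg _ _ _ _
  set P := ∑ p ∈ PPs N c, 1 / (p : ℝ) with hP
  set Q := ∑ q ∈ QQs N e, 1 / (q : ℝ) with hQ
  have hpow : (2 : ℝ) ^ r = 8 * 2 ^ (r - 3) := by
    conv_lhs => rw [show r = 3 + (r - 3) by omega, pow_add]
    norm_num
  have hsum : ∑ m ∈ mm N c e r, 1 / (m : ℝ) = P * Q * T := by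
    rw [sum_mm hx4 he h, hP, hQ, hT, Finset.sum_mul_sum, Finset.sum_mul]
    refine Finset.sum_congr rfl fun p _ => ?_
    rw [Finset.sum_mul]
    refine Finset.sum_congr rfl fun q _ => ?_
    unfold TX
    rw [Finset.mul_sum]
    refine Finset.sum_congr rfl fun d _ => ?_
    push_cast
    rw [one_div_mul_one_div, one_div_mul_one_div]
  have hPQ : P * Q ≤ 4 := by nlinarith
  have hPQ' : (1 / 8) ^ 2 ≤ P * Q := by nlinarith
  refine ⟨?_, ?_, ?_, ?_, ?_⟩
  · intro m hm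
    unfold mm at hm
    rw [Finset.mem_image] at hm
    obtain ⟨⟨⟨p, q⟩, d⟩, ht, rfl⟩ := hm
    rw [Finset.mem_product, Finset.mem_product] at ht
    simp only at ht ⊢
    obtain ⟨m11, m12, m13⟩ := mem_PPs hx4 h ht.1.1
    obtain ⟨m21, m22, m23⟩ := mem_QQs hx4 he h ht.1.2
    obtain ⟨m31, m32, m33⟩ := mem_DDs ht.2
    have hd := DX_le (show (0 : ℝ) ≤ N ^ (2 * e / 3) by positivity) (DDs_eq N e (r - 3) ▸ ht.2)
    have hlc : Real.log N ^ c ≤ Real.log N ^ (2 * c) :=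
      Real.rpow_le_rpow_of_exponent_le hL (by linarith)
    have hlt : Real.log N ^ c ≤ N ^ (e / 3) := hlc.trans h.sep
    refine ⟨Nat.mul_pos (Nat.mul_pos m11.pos m21.pos) m31, ?_, ?_, ?_⟩
    · push_cast
      calc (p : ℝ) * q * d ≤ (N ^ (e / 3) * N ^ (2 * e)) * (N ^ (2 * e / 3)) ^ (r - 3) := by
            refine mul_le_mul (mul_le_mul (m13.trans h.sep) m23 (by positivity) (by positivity)) hd
              (by positivity) (by positivity)
        _ = N ^ (e / 3 + 2 * e + 2 * e / 3 * ((r - 3 : ℕ) : ℝ)) := by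
            rw [← Real.rpow_natCast, ← Real.rpow_mul hN0.le, ← Real.rpow_add hN0, ← Real.rpow_add hN0]
        _ ≤ N ^ (e * r) := by
            refine Real.rpow_le_rpow_of_exponent_le (by linarith) ?_
            rw [hr3]
            have : (3 : ℝ) ≤ r := by exact_mod_cast hr
            nlinarith
    · rw [mul_assoc, (pfl_mul m11 (Nat.mul_ne_zero m21.ne_zero (by omega))).length_eq, List.length_cons,
        (pfl_mul m21 (show d ≠ 0 by omega)).length_eq, List.length_cons, m32]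
      omega
    · intro l hl hlm
      rcases (Nat.Prime.dvd_mul hl).1 hlm with h2 | h2
      · rcases (Nat.Prime.dvd_mul hl).1 h2 with h3 | h3
        · rw [(Nat.prime_dvd_prime_iff_eq hl m11).1 h3]
          exact m12
        · rw [(Nat.prime_dvd_prime_iff_eq hl m21).1 h3]
          refine lt_of_le_of_lt (hlt.trans ?_) m22
          exact Real.rpow_le_rpow_of_exponent_le (by linarith) (by linarith)
      · exact lt_of_le_of_lt hlt (m33 l hl h2).1
  · rw [hsum]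
    exact mul_le_mul hPQ' t1 (by positivity) (by nlinarith)
  · rw [hsum]
    calc P * Q * T ≤ 4 * 2 ^ (r - 3) := mul_le_mul hPQ t2 hT0 (by norm_num)
      _ ≤ 3 * 2 ^ r := by
        rw [hpow]
        have : (0 : ℝ) < 2 ^ (r - 3) := by positivity
        linarith
  · intro l hl
    have hl0 : (0 : ℝ) < l := by exact_mod_cast hl.pos
    rw [Finset.sum_filter, sum_mm hx4 he h]
    have key : ∀ p ∈ PPs N c, ∀ q ∈ QQs N e, ∀ d ∈ DDs N e (r - 3),
        (if l ∣ p * q * d then 1 / ((p * q * d : ℕ) : ℝ) else 0) ≤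
        (if l = p then 1 / (p : ℝ) else 0) * (1 / (q : ℝ)) * (1 / (d : ℝ)) +
        1 / (p : ℝ) * (if l = q then 1 / (q : ℝ) else 0) * (1 / (d : ℝ)) +
        1 / (p : ℝ) * (1 / (q : ℝ)) * (if l ∣ d then 1 / (d : ℝ) else 0) := by
      intro p hp q hq d hd
      have a1 : 0 ≤ (if l = p then 1 / (p : ℝ) else 0) := by split_ifs <;> positivity
      have a2 : 0 ≤ (if l = q then 1 / (q : ℝ) else 0) := by split_ifs <;> positivity
      have a3 : 0 ≤ (if l ∣ d then 1 / (d : ℝ) else 0) := by split_ifs <;> positivity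
      have b1 : 0 ≤ (if l = p then 1 / (p : ℝ) else 0) * (1 / (q : ℝ)) * (1 / (d : ℝ)) := by positivity
      have b2 : 0 ≤ 1 / (p : ℝ) * (if l = q then 1 / (q : ℝ) else 0) * (1 / (d : ℝ)) := by positivity
      have b3 : 0 ≤ 1 / (p : ℝ) * (1 / (q : ℝ)) * (if l ∣ d then 1 / (d : ℝ) else 0) := by positivity
      have ee1 : 1 / ((p * q * d : ℕ) : ℝ) = 1 / (p : ℝ) * (1 / (q : ℝ)) * (1 / (d : ℝ)) := by
        push_cast
        rw [one_div_mul_one_div, one_div_mul_one_div]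
      by_cases hdv : l ∣ p * q * d
      · rw [if_pos hdv, ee1]
        rcases (Nat.Prime.dvd_mul hl).1 hdv with h2 | h2
        · rcases (Nat.Prime.dvd_mul hl).1 h2 with h3 | h3
          · have h4 := (Nat.prime_dvd_prime_iff_eq hl (mem_PPs hx4 h hp).1).1 h3
            rw [if_pos h4] at b1 ⊢
            linarith
          · have h4 := (Nat.prime_dvd_prime_iff_eq hl (mem_QQs hx4 he h hq).1).1 h3
            rw [if_pos h4] at b2 ⊢
            linarith
        · rw [if_pos h2] at b3 ⊢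
          linarith
      · rw [if_neg hdv]
        linarith
    have hA : ∑ p ∈ PPs N c, (if l = p then 1 / (p : ℝ) else 0) ≤ 1 / l := by
      rw [Finset.sum_ite_eq]
      split_ifs
      · exact le_rfl
      · positivity
    have hB : ∑ q ∈ QQs N e, (if l = q then 1 / (q : ℝ) else 0) ≤ 1 / l := by
      rw [Finset.sum_ite_eq]
      split_ifs
      · exact le_rfl
      · positivity
    have hD := TX_dvd hM (by positivity : (0 : ℝ) ≤ N ^ (e / 3)) (by linarith) d2 (r - 3) hl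
    rw [← DDs_eq] at hD
    have hTD : T = ∑ d ∈ DDs N e (r - 3), 1 / (d : ℝ) := rfl
    have hA0 : 0 ≤ ∑ p ∈ PPs N c, (if l = p then 1 / (p : ℝ) else 0) :=
      Finset.sum_nonneg fun _ _ => by split_ifs <;> positivity
    have hB0 : 0 ≤ ∑ q ∈ QQs N e, (if l = q then 1 / (q : ℝ) else 0) :=
      Finset.sum_nonneg fun _ _ => by split_ifs <;> positivity
    have hD0 : 0 ≤ ∑ d ∈ DDs N e (r - 3), (if l ∣ d then 1 / (d : ℝ) else 0) :=
      Finset.sum_nonneg fun _ _ => by split_ifs <;> positivity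
    have hP0 : 0 ≤ P := by linarith
    have hQ0 : 0 ≤ Q := by linarith
    have tri : ∀ f g k : ℕ → ℝ, ∑ p ∈ PPs N c, ∑ q ∈ QQs N e, ∑ d ∈ DDs N e (r - 3), f p * g q * k d =
        (∑ p ∈ PPs N c, f p) * (∑ q ∈ QQs N e, g q) * ∑ d ∈ DDs N e (r - 3), k d := by
      intro f g k
      rw [Finset.sum_mul_sum, Finset.sum_mul]
      refine Finset.sum_congr rfl fun p _ => ?_
      rw [Finset.sum_mul]
      refine Finset.sum_congr rfl fun q _ => ?_
      rw [Finset.mul_sum]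
    calc ∑ p ∈ PPs N c, ∑ q ∈ QQs N e, ∑ d ∈ DDs N e (r - 3),
          (if l ∣ p * q * d then 1 / ((p * q * d : ℕ) : ℝ) else 0)
        ≤ ∑ p ∈ PPs N c, ∑ q ∈ QQs N e, ∑ d ∈ DDs N e (r - 3),
          ((if l = p then 1 / (p : ℝ) else 0) * (1 / (q : ℝ)) * (1 / (d : ℝ)) +
          1 / (p : ℝ) * (if l = q then 1 / (q : ℝ) else 0) * (1 / (d : ℝ)) +
          1 / (p : ℝ) * (1 / (q : ℝ)) * (if l ∣ d then 1 / (d : ℝ) else 0)) :=
          Finset.sum_le_sum fun p hp => Finset.sum_le_sum fun q hq => Finset.sum_le_sum fun d hd =>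
            key p hp q hq d hd
      _ = (∑ p ∈ PPs N c, (if l = p then 1 / (p : ℝ) else 0)) * Q * T +
          P * (∑ q ∈ QQs N e, (if l = q then 1 / (q : ℝ) else 0)) * T +
          P * Q * ∑ d ∈ DDs N e (r - 3), (if l ∣ d then 1 / (d : ℝ) else 0) := by
          rw [hTD, hP, hQ, ← tri, ← tri, ← tri]
          simp only [← Finset.sum_add_distrib]
      _ ≤ 1 / l * 2 * 2 ^ (r - 3) + 2 * (1 / l) * 2 ^ (r - 3) + 4 * (2 ^ (r - 3) / l) := by
          refine add_le_add (add_le_add ?_ ?_) ?_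
          · exact mul_le_mul (mul_le_mul hA q2 hQ0 (by positivity)) t2 hT0 (by positivity)
          · exact mul_le_mul (mul_le_mul p2 hB hB0 (by norm_num)) t2 hT0 (by positivity)
          · exact mul_le_mul hPQ hD hD0 (by norm_num)
      _ ≤ 3 * 2 ^ r / l := by
          rw [hpow]
          have : (0 : ℝ) < 2 ^ (r - 3) := by positivity
          have h5 : 1 / (l : ℝ) * 2 * 2 ^ (r - 3) + 2 * (1 / l) * 2 ^ (r - 3) + 4 * (2 ^ (r - 3) / l) =
            8 * 2 ^ (r - 3) / l := by ring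
          rw [h5]
          exact div_le_div_of_nonneg_right (by linarith) hl0.le
  · intro n
    rw [sum_mm hx4 he h (fun m => if m ∣ n then w0 N c (n / m) else 0)]
    rfl

end

end Pool.Agent.Lib.MP3efbeb.LG

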