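import Pool.Agent.Lib.MP_3efbeb_nt.LG.SpecC
import Pool.Agent.Lib.MP_3efbeb_nt.LG.COF

/-!
# Module CF2: the cofactors, version 2
-/

set_option autoImplicit false

namespace Pool.Agent.Lib.MP3efbeb.LG

open Finset Filter

noncomputable section

namespace CF2M

open COFM

variable {N c e x₀ : ℝ} {r : ℕ}

lemma DE_eq (N e : ℝ) (s : ℕ) : DE N e s = DX ⌊N⌋₊ (N ^ e) (N ^ (2 * e)) s := rfl

lemma mem_DE {s d : ℕ} (hd : d ∈ DE N e s) : 1 ≤ d ∧ d.primeFactorsList.length = s ∧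
    ∀ p : ℕ, p.Prime → p ∣ d → N ^ e < p ∧ (p : ℝ) ≤ N ^ (2 * e) := by
  unfold DE at hd
  rw [Finset.mem_filter, Finset.mem_Icc] at hd
  exact ⟨hd.1.1, hd.2.1, fun p hp hpd => hd.2.2 p ((Nat.mem_primeFactorsList (by omega)).2 ⟨hp, hpd⟩)⟩

lemma sep' (he : 0 < e) (h : Num x₀ N c e) : Real.log N ^ (2 * c) ≤ N ^ e :=
  h.sep.trans (Real.rpow_le_rpow_of_exponent_le (by linarith [h.hN]) (by linarith))

lemma inj2 (h4 : 4 ≤ x₀) (he : 0 < e) (h : Num x₀ N c e) {s p d p' d' : ℕ}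
    (hp : p ∈ PPs N c) (hd : d ∈ DE N e s) (hp' : p' ∈ PPs N c) (hd' : d' ∈ DE N e s)
    (heq : p * d = p' * d') : p = p' ∧ d = d' := by
  have m1 := COFM.mem_PPs h4 h hp
  have m1' := COFM.mem_PPs h4 h hp'
  have m3' := mem_DE hd'
  have hsep := sep' he h
  have hpp : p = p' := by
    have h1 : p ∣ p' * d' := by rw [← heq]; exact dvd_mul_right _ _
    rcases (Nat.Prime.dvd_mul m1.1).1 h1 with h3 | h2
    · exact (Nat.prime_dvd_prime_iff_eq m1.1 m1'.1).1 h3
    · exfalso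
      linarith [m1.2.2, (m3'.2.2 p m1.1 h2).1]
  subst hpp
  exact ⟨rfl, Nat.eq_of_mul_eq_mul_left m1.1.pos heq⟩

lemma sum_m2 (h4 : 4 ≤ x₀) (he : 0 < e) (h : Num x₀ N c e) (F : ℕ → ℝ) :
    ∑ m ∈ m2 N c e r, F m = ∑ p ∈ PPs N c, ∑ d ∈ DE N e (r - 2), F (p * d) := by
  unfold m2
  rw [Finset.sum_image, Finset.sum_product]
  rintro ⟨p, d⟩ ht ⟨p', d'⟩ ht' heq
  rw [Finset.mem_coe, Finset.mem_product] at ht ht'
  obtain ⟨h1, h3⟩ := inj2 h4 he h ht.1 ht.2 ht'.1 ht'.2 heq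
  simp only at h1 h3
  rw [h1, h3]

end CF2M

open COFM CF2M in
theorem specCF2 : SpecCF2 := by
  classical
  intro r hr
  obtain ⟨x₀, hx4, hps⟩ := prime_sums
  refine ⟨(1 / 8) * ((1 / 8) ^ (r - 2) / ((r - 2).factorial : ℝ)), 2 * 2 ^ r, by positivity, ?_, ?_⟩
  · have : (1 : ℝ) ≤ 2 ^ r := one_le_pow₀ (by norm_num)
    linarith
  intro e c he her hc
  obtain ⟨N₀, hN₀⟩ := Filter.eventually_atTop.1
    (eventually_num (x₀ := x₀) (c := c) (e := e) (by linarith) he)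
  refine ⟨N₀, fun N hN => ?_⟩
  have h := hN₀ N hN
  have hN4 := h.hN
  have hN0 : 0 < N := by linarith
  have hL := h.hL
  have hr2 : ((r - 2 : ℕ) : ℝ) = (r : ℝ) - 2 := by
    rw [Nat.cast_sub hr]
    norm_num
  have hr2' : (2 : ℝ) ≤ r := by exact_mod_cast hr
  have hNe : x₀ ≤ N ^ e := h.hx'.trans (Real.rpow_le_rpow_of_exponent_le (by linarith) (by linarith))
  have hM : 1 ≤ ⌊N⌋₊ := Nat.le_floor (by push_cast; linarith)
  have hb1 : 1 ≤ N ^ (2 * e) := Real.one_le_rpow (by linarith) (by positivity)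
  -- the two sums
  obtain ⟨p1, p2⟩ := hps _ _ h.hx (dyad (hx4.trans h.hx)).1 (dyad (hx4.trans h.hx)).2
  rw [← PPs_eq] at p1 p2
  have hab : (N ^ e) ^ 2 = N ^ (2 * e) := sq_rpow hN0.le e
  obtain ⟨d1, d2⟩ := hps _ _ hNe (by
    rw [← hab, ← Real.rpow_natCast]
    exact Real.rpow_le_rpow_of_exponent_le (by linarith [hx4.trans hNe]) (by norm_num)) hab.ge
  have hbs : (N ^ (2 * e)) ^ (r - 2) ≤ ((⌊N⌋₊ : ℕ) : ℝ) := by
    have h1 : (N ^ (2 * e)) ^ (r - 2) ≤ N ^ ((1 : ℝ) / 2) := by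
      rw [← Real.rpow_natCast, ← Real.rpow_mul hN0.le]
      refine Real.rpow_le_rpow_of_exponent_le (by linarith) ?_
      rw [hr2]
      nlinarith
    have h2 : N ^ ((1 : ℝ) / 2) ≤ N / 2 := by
      rw [← Real.sqrt_eq_rpow, Real.sqrt_le_left (by linarith)]
      nlinarith
    have h3 := (Nat.lt_floor_add_one N).le
    linarith
  have t1 := le_TX hM (by positivity : (0 : ℝ) ≤ N ^ e) hb1 d1 (r - 2) hbs
  have t2 := TX_le hM (by positivity : (0 : ℝ) ≤ N ^ e) (by linarith) d2 (r - 2)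
  set T := TX ⌊N⌋₊ (N ^ e) (N ^ (2 * e)) (r - 2) with hT
  have hT0 : 0 ≤ T := TX_nonneg _ _ _ _
  set P := ∑ p ∈ PPs N c, 1 / (p : ℝ) with hP
  have hpow : (2 : ℝ) ^ r = 4 * 2 ^ (r - 2) := by
    conv_lhs => rw [show r = 2 + (r - 2) by omega, pow_add]
    norm_num
  have hsum : ∑ m ∈ m2 N c e r, 1 / (m : ℝ) = P * T := by
    rw [sum_m2 hx4 he h, hP, hT]
    unfold TX
    rw [Finset.sum_mul_sum]
    refine Finset.sum_congr rfl fun p _ => Finset.sum_congr rfl fun d _ => ?_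
    push_cast
    rw [one_div_mul_one_div]
  refine ⟨?_, ?_, ?_, ?_, ?_⟩
  · intro m hm
    unfold m2 at hm
    rw [Finset.mem_image] at hm
    obtain ⟨⟨p, d⟩, ht, rfl⟩ := hm
    rw [Finset.mem_product] at ht
    simp only at ht ⊢
    obtain ⟨m11, m12, m13⟩ := COFM.mem_PPs hx4 h ht.1
    obtain ⟨m31, m32, m33⟩ := mem_DE ht.2
    have hd := DX_le (show (0 : ℝ) ≤ N ^ (2 * e) by positivity) (DE_eq N e (r - 2) ▸ ht.2)
    have hlc : Real.log N ^ c ≤ Real.log N ^ (2 * c) :=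
      Real.rpow_le_rpow_of_exponent_le hL (by linarith)
    have hlt : Real.log N ^ c ≤ N ^ e := hlc.trans (sep' he h)
    refine ⟨Nat.mul_pos m11.pos m31, ?_, ?_, ?_⟩
    · push_cast
      calc (p : ℝ) * d ≤ N ^ e * (N ^ (2 * e)) ^ (r - 2) :=
            mul_le_mul (m13.trans (sep' he h)) hd (by positivity) (by positivity)
        _ = N ^ (e + 2 * e * ((r - 2 : ℕ) : ℝ)) := by
            rw [← Real.rpow_natCast, ← Real.rpow_mul hN0.le, ← Real.rpow_add hN0]
        _ ≤ N ^ (2 * e * r) := by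
            refine Real.rpow_le_rpow_of_exponent_le (by linarith) ?_
            rw [hr2]
            nlinarith
    · rw [(pfl_mul m11 (show d ≠ 0 by omega)).length_eq, List.length_cons, m32]
      omega
    · intro l hl hlm
      rcases (Nat.Prime.dvd_mul hl).1 hlm with h3 | h2
      · rw [(Nat.prime_dvd_prime_iff_eq hl m11).1 h3]
        exact m12
      · exact lt_of_le_of_lt hlt (m33 l hl h2).1
  · rw [hsum]
    exact mul_le_mul p1 t1 (by positivity) (by linarith)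
  · rw [hsum]
    calc P * T ≤ 2 * 2 ^ (r - 2) := mul_le_mul p2 t2 hT0 (by norm_num)
      _ ≤ 2 * 2 ^ r := by
        rw [hpow]
        have : (0 : ℝ) < 2 ^ (r - 2) := by positivity
        linarith
  · intro l hl
    have hl0 : (0 : ℝ) < l := by exact_mod_cast hl.pos
    rw [Finset.sum_filter, sum_m2 hx4 he h]
    have key : ∀ p ∈ PPs N c, ∀ d ∈ DE N e (r - 2),
        (if l ∣ p * d then 1 / ((p * d : ℕ) : ℝ) else 0) ≤
        (if l = p then 1 / (p : ℝ) else 0) * (1 / (d : ℝ)) +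
        1 / (p : ℝ) * (if l ∣ d then 1 / (d : ℝ) else 0) := by
      intro p hp d hd
      have a1 : 0 ≤ (if l = p then 1 / (p : ℝ) else 0) := by split_ifs <;> positivity
      have a3 : 0 ≤ (if l ∣ d then 1 / (d : ℝ) else 0) := by split_ifs <;> positivity
      have b1 : 0 ≤ (if l = p then 1 / (p : ℝ) else 0) * (1 / (d : ℝ)) := by positivity
      have b3 : 0 ≤ 1 / (p : ℝ) * (if l ∣ d then 1 / (d : ℝ) else 0) := by positivity
      have ee1 : 1 / ((p * d : ℕ) : ℝ) = 1 / (p : ℝ) * (1 / (d : ℝ)) := by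
        push_cast
        rw [one_div_mul_one_div]
      by_cases hdv : l ∣ p * d
      · rw [if_pos hdv, ee1]
        rcases (Nat.Prime.dvd_mul hl).1 hdv with h3 | h2
        · have h4 := (Nat.prime_dvd_prime_iff_eq hl (COFM.mem_PPs hx4 h hp).1).1 h3
          rw [if_pos h4] at b1 ⊢
          linarith
        · rw [if_pos h2] at b3 ⊢
          linarith
      · rw [if_neg hdv]
        linarith
    have hA : ∑ p ∈ PPs N c, (if l = p then 1 / (p : ℝ) else 0) ≤ 1 / l := by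
      rw [Finset.sum_ite_eq]
      split_ifs
      · exact le_rfl
      · positivity
    have hD := TX_dvd hM (by positivity : (0 : ℝ) ≤ N ^ e) (by linarith) d2 (r - 2) hl
    rw [← DE_eq] at hD
    have hTD : T = ∑ d ∈ DE N e (r - 2), 1 / (d : ℝ) := rfl
    have hA0 : 0 ≤ ∑ p ∈ PPs N c, (if l = p then 1 / (p : ℝ) else 0) :=
      Finset.sum_nonneg fun _ _ => by split_ifs <;> positivity
    have hD0 : 0 ≤ ∑ d ∈ DE N e (r - 2), (if l ∣ d then 1 / (d : ℝ) else 0) :=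
      Finset.sum_nonneg fun _ _ => by split_ifs <;> positivity
    have hP0 : 0 ≤ P := by linarith
    calc ∑ p ∈ PPs N c, ∑ d ∈ DE N e (r - 2), (if l ∣ p * d then 1 / ((p * d : ℕ) : ℝ) else 0)
        ≤ ∑ p ∈ PPs N c, ∑ d ∈ DE N e (r - 2),
          ((if l = p then 1 / (p : ℝ) else 0) * (1 / (d : ℝ)) +
          1 / (p : ℝ) * (if l ∣ d then 1 / (d : ℝ) else 0)) :=
          Finset.sum_le_sum fun p hp => Finset.sum_le_sum fun d hd => key p hp d hd
      _ = (∑ p ∈ PPs N c, (if l = p then 1 / (p : ℝ) else 0)) * T +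
          P * ∑ d ∈ DE N e (r - 2), (if l ∣ d then 1 / (d : ℝ) else 0) := by
          rw [hTD, hP, Finset.sum_mul_sum, Finset.sum_mul_sum]
          simp only [← Finset.sum_add_distrib]
      _ ≤ 1 / l * 2 ^ (r - 2) + 2 * (2 ^ (r - 2) / l) := by
          refine add_le_add ?_ ?_
          · exact mul_le_mul hA t2 hT0 (by positivity)
          · exact mul_le_mul p2 hD hD0 (by norm_num)
      _ ≤ 2 * 2 ^ r / l := by
          rw [hpow]
          have : (0 : ℝ) < 2 ^ (r - 2) := by positivity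
          have h5 : 1 / (l : ℝ) * 2 ^ (r - 2) + 2 * (2 ^ (r - 2) / l) = 3 * 2 ^ (r - 2) / l := by ring
          rw [h5]
          exact div_le_div_of_nonneg_right (by linarith) hl0.le
  · intro n
    rw [sum_m2 hx4 he h (fun m => if m ∣ n then w1 N c (n / m) else 0)]
    rfl

end

end Pool.Agent.Lib.MP3efbeb.LG

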