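import Pool.Agent.Lib.MP_3efbeb_nt.LG.SpecA

/-!
# CHX: additive characters by multiplicative ones
-/

set_option autoImplicit false

namespace Pool.Agent.Lib.MP3efbeb.LG

open Finset MeasureTheory

noncomputable section

namespace CHXM

lemma norm_ee (θ : ℝ) : ‖ee θ‖ = 1 := by
  unfold ee
  rw [show (2 * Real.pi * θ * Complex.I : ℂ) = ((2 * Real.pi * θ : ℝ) : ℂ) * Complex.I by
    push_cast; ring, Complex.norm_exp_ofReal_mul_I]

lemma ee_add (x y : ℝ) : ee (x + y) = ee x * ee y := by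
  unfold ee
  rw [← Complex.exp_add]
  congr 1
  push_cast
  ring

lemma ee_int (k : ℤ) : ee (k : ℝ) = 1 := by
  unfold ee
  rw [Complex.exp_eq_one_iff]
  exact ⟨k, by push_cast; ring⟩

/-- The phase as a function on `ZMod q`. -/
def ff (q : ℕ) (a : ℤ) (x : ZMod q) : ℂ := ee ((a : ℝ) / q * (x.val : ℝ))

lemma ee_nat (q : ℕ) [NeZero q] (a : ℤ) (n : ℕ) :
    ee ((a : ℝ) / q * n) = ff q a (n : ZMod q) := by
  unfold ff
  rw [ZMod.val_natCast]
  have hq : (q : ℝ) ≠ 0 := by exact_mod_cast NeZero.ne q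
  have h2 : (n : ℝ) = ((n % q : ℕ) : ℝ) + q * ((n / q : ℕ) : ℝ) := by
    exact_mod_cast (Nat.mod_add_div n q).symm
  have h1 : (a : ℝ) / q * n = (a : ℝ) / q * ((n % q : ℕ) : ℝ) + ((a * ((n / q : ℕ) : ℤ) : ℤ) : ℝ) := by
    have h3 : ((a * ((n / q : ℕ) : ℤ) : ℤ) : ℝ) = (a : ℝ) * ((n / q : ℕ) : ℝ) := by
      rw [Int.cast_mul, Int.cast_natCast]
    rw [h3]
    conv_lhs => rw [h2]
    field_simp
  rw [h1, ee_add, ee_int, mul_one]

/-- The coefficients. -/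
def cc (q : ℕ) [NeZero q] (a : ℤ) (χ : DirichletCharacter ℂ q) : ℂ :=
  (q.totient : ℂ)⁻¹ * ∑ b : (ZMod q)ˣ, ff q a b * χ ((b : ZMod q)⁻¹)

lemma tot_ne (q : ℕ) [NeZero q] : (q.totient : ℂ) ≠ 0 := by
  have : 0 < q.totient := Nat.totient_pos.2 (Nat.pos_of_ne_zero (NeZero.ne q))
  exact_mod_cast this.ne'

lemma norm_cc (q : ℕ) [NeZero q] (a : ℤ) (χ : DirichletCharacter ℂ q) : ‖cc q a χ‖ ≤ 1 := by
  have h0 : (0 : ℝ) < (q.totient : ℝ) := by
    have : 0 < q.totient := Nat.totient_pos.2 (Nat.pos_of_ne_zero (NeZero.ne q))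
    exact_mod_cast this
  have h1 : ‖∑ b : (ZMod q)ˣ, ff q a b * χ ((b : ZMod q)⁻¹)‖ ≤ (q.totient : ℝ) := by
    calc ‖∑ b : (ZMod q)ˣ, ff q a b * χ ((b : ZMod q)⁻¹)‖
        ≤ ∑ b : (ZMod q)ˣ, ‖ff q a b * χ ((b : ZMod q)⁻¹)‖ := norm_sum_le _ _
      _ ≤ ∑ _b : (ZMod q)ˣ, (1 : ℝ) := by
          refine Finset.sum_le_sum fun b _ => ?_
          rw [norm_mul]
          have h2 : ‖ff q a b‖ = 1 := norm_ee _
          have h3 : ‖χ ((b : ZMod q)⁻¹)‖ ≤ 1 := DirichletCharacter.norm_le_one χ _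
          rw [h2, one_mul]
          exact h3
      _ = (q.totient : ℝ) := by
          rw [Finset.sum_const, nsmul_eq_mul, mul_one, Finset.card_univ, ZMod.card_units_eq_totient]
  rw [cc, norm_mul, norm_inv, Complex.norm_natCast]
  calc (q.totient : ℝ)⁻¹ * ‖∑ b : (ZMod q)ˣ, ff q a b * χ ((b : ZMod q)⁻¹)‖
      ≤ (q.totient : ℝ)⁻¹ * (q.totient : ℝ) := mul_le_mul_of_nonneg_left h1 (by positivity)
    _ = 1 := inv_mul_cancel₀ h0.ne'

lemma expand (q : ℕ) [NeZero q] (a : ℤ) (y : (ZMod q)ˣ) :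
    ff q a y = ∑ χ : DirichletCharacter ℂ q, cc q a χ * χ (y : ZMod q) := by
  have h1 : ∀ χ : DirichletCharacter ℂ q, cc q a χ * χ (y : ZMod q)
      = (q.totient : ℂ)⁻¹ * ∑ b : (ZMod q)ˣ, ff q a b * (χ ((b : ZMod q)⁻¹) * χ (y : ZMod q)) := by
    intro χ
    rw [cc, mul_assoc, Finset.sum_mul]
    congr 1
    refine Finset.sum_congr rfl fun b _ => ?_
    ring
  simp only [h1]
  rw [← Finset.mul_sum, Finset.sum_comm]
  have h2 : ∀ b : (ZMod q)ˣ, ∑ χ : DirichletCharacter ℂ q,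
      ff q a b * (χ ((b : ZMod q)⁻¹) * χ (y : ZMod q))
      = if b = y then ff q a b * (q.totient : ℂ) else 0 := by
    intro b
    rw [← Finset.mul_sum, DirichletCharacter.sum_char_inv_mul_char_eq ℂ b.isUnit]
    by_cases h : b = y
    · subst h; simp
    · have h' : (b : ZMod q) ≠ (y : ZMod q) := fun hh => h (Units.ext hh)
      simp [h, h']
  simp only [h2]
  rw [Finset.sum_ite_eq' Finset.univ y]
  simp only [Finset.mem_univ, if_true]
  have := tot_ne q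
  field_simp

end CHXM

open CHXM in
theorem specCHX : SpecCHX := by
  intro q _ a I c hI
  have h1 : ∀ n ∈ I, c n * ee ((a : ℝ) / q * n)
      = ∑ χ : DirichletCharacter ℂ q, cc q a χ * (c n * χ n) := by
    intro n hn
    by_cases hc : c n = 0
    · simp [hc]
    · have hu : IsUnit ((n : ℕ) : ZMod q) := (ZMod.isUnit_iff_coprime n q).2 (hI n hn hc)
      obtain ⟨y, hy⟩ := hu
      rw [ee_nat, ← hy, expand, Finset.mul_sum]
      refine Finset.sum_congr rfl fun χ _ => ?_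
      ring
  rw [Finset.sum_congr rfl h1, Finset.sum_comm]
  calc ‖∑ χ : DirichletCharacter ℂ q, ∑ n ∈ I, cc q a χ * (c n * χ n)‖
      ≤ ∑ χ : DirichletCharacter ℂ q, ‖∑ n ∈ I, cc q a χ * (c n * χ n)‖ := norm_sum_le _ _
    _ ≤ ∑ χ : DirichletCharacter ℂ q, ‖∑ n ∈ I, c n * χ n‖ := by
        refine Finset.sum_le_sum fun χ _ => ?_
        rw [← Finset.mul_sum, norm_mul]
        calc ‖cc q a χ‖ * ‖∑ n ∈ I, c n * χ n‖ ≤ 1 * ‖∑ n ∈ I, c n * χ n‖ :=
              mul_le_mul_of_nonneg_right (norm_cc q a χ) (norm_nonneg _)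
          _ = _ := one_mul _

end

end Pool.Agent.Lib.MP3efbeb.LG
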