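import Pool.Agent.Lib.MP_3efbeb_nt.LG.SpecC

/-!
# Correlations with bounded functions, version 2 (module CO2)
-/

set_option autoImplicit false

namespace Pool.Agent.Lib.MP3efbeb.LG

open Finset MeasureTheory Filter Topology

noncomputable section

namespace CO2M

/-- the window length is small -/
theorem Hn_small (c : ℝ) : ∀ᶠ N : ℝ in atTop, (Hn N c : ℝ) < N / 8 := by
  have h1 : Tendsto (fun N : ℝ => Real.log N ^ (4 * c) / N ^ (1 : ℝ)) atTop (𝓝 0) :=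
    (isLittleO_log_rpow_rpow_atTop (4 * c) one_pos).tendsto_div_nhds_zero
  have h2 : ∀ᶠ N : ℝ in atTop, Real.log N ^ (4 * c) / N ^ (1 : ℝ) < 1 / 16 :=
    h1.eventually_lt_const (by norm_num)
  filter_upwards [h2, eventually_gt_atTop (16 : ℝ)] with N hN hN2
  have h0 : 0 < N := by linarith
  rw [Real.rpow_one, div_lt_iff₀ h0] at hN
  have h3 : 0 ≤ Real.log N ^ (4 * c) := Real.rpow_nonneg (Real.log_nonneg (by linarith)) _
  have h4 : (Hn N c : ℝ) < Real.log N ^ (4 * c) + 1 := Nat.ceil_lt_add_one h3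
  linarith

/-- the window length is at least `2` -/
theorem Hn_two (c : ℝ) (hc : 1 ≤ c) : ∀ᶠ N : ℝ in atTop, 2 ≤ Hn N c := by
  filter_upwards [Real.tendsto_log_atTop.eventually_ge_atTop 2] with N hN
  have h1 : (2 : ℝ) ≤ Real.log N ^ (4 * c) := by
    calc (2 : ℝ) ≤ Real.log N := hN
      _ = Real.log N ^ (1 : ℝ) := (Real.rpow_one _).symm
      _ ≤ Real.log N ^ (4 * c) := Real.rpow_le_rpow_of_exponent_le (by linarith) (by linarith)
  have h2 : (2 : ℝ) ≤ (Hn N c : ℝ) := h1.trans (Nat.le_ceil _)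
  exact_mod_cast h2

end CO2M

/-- CO2: correlations with bounded functions, version 2 -/
theorem specCO2 (hAD2 : SpecAD2) (hTWO : SpecTWO) (hDUA : SpecDUA) : SpecCO2 := by
  intro D e r hD he hr her
  obtain ⟨C₁, c₀, hC₁, hc₀, hA⟩ := hAD2 (2 * D + 4) e r (by linarith) he hr her
  refine ⟨c₀, hc₀, fun c hc => ?_⟩
  obtain ⟨N₁, hN₁⟩ := hA c hc
  have hev : ∀ᶠ N : ℕ in atTop, N₁ ≤ (N : ℝ) ∧ (Hn N c : ℝ) < (N : ℝ) / 8 ∧ 2 ≤ Hn N c ∧
      18 * C₁ ≤ Real.log N ∧ 1 ≤ N := by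
    have h1 := tendsto_natCast_atTop_atTop (R := ℝ)
    filter_upwards [h1.eventually (eventually_ge_atTop N₁), h1.eventually (CO2M.Hn_small c),
      h1.eventually (CO2M.Hn_two c (hc₀.trans hc)),
      (Real.tendsto_log_atTop.comp h1).eventually_ge_atTop (18 * C₁), eventually_ge_atTop 1]
      with N a1 a2 a3 a4 a5
    exact ⟨a1, a2, a3, a4, a5⟩
  obtain ⟨N₀, hN₀⟩ := eventually_atTop.1 hev
  refine ⟨N₀, fun N hN g b hg hb => ?_⟩
  obtain ⟨a1, a2, a3, a4, a5⟩ := hN₀ N hN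
  obtain ⟨ε, hε1, hε2, hε3, hε4⟩ := hN₁ N a1
  obtain ⟨H, hH⟩ : ∃ H, H = Hn N c := ⟨_, rfl⟩
  obtain ⟨L, hL⟩ : ∃ L, L = Real.log N := ⟨_, rfl⟩
  rw [← hH] at a2 a3 ⊢
  rw [← hL] at a4 ⊢
  rw [← hH, ← hL] at hε4
  have hNpos : (1 : ℝ) ≤ N := by exact_mod_cast a5
  have hL1 : 1 ≤ L := by linarith
  have hL0 : 0 < L := by linarith
  have hHpos : (0 : ℝ) < H := by
    have : (2 : ℝ) ≤ H := by exact_mod_cast a3
    linarith
  -- the support
  have hsup : ∀ n, ε n ≠ 0 → H < n ∧ n ≤ 16 * N := by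
    intro n hn
    obtain ⟨b1, b2⟩ := hε2 n hn
    constructor
    · have : (H : ℝ) < n := a2.trans b1
      exact_mod_cast this
    · exact_mod_cast b2
  obtain ⟨P, hP⟩ : ∃ P, P = L ^ (2 * D + 4) := ⟨_, rfl⟩
  have hP0 : 0 < P := by rw [hP]; exact Real.rpow_pos_of_pos hL0 _
  rw [← hP] at hε4
  have h1 := hTWO ε H (16 * N) (N * (H : ℝ) ^ 2 / P) (by omega) hsup
    (fun α => hε4 α (16 * N + 1))
  -- the sum of the squares
  have h2 : ∑ n ∈ range (16 * N + 1), ε n ^ 2 ≤ 17 * N * C₁ ^ 2 := by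
    have h3 : ∑ n ∈ range (16 * N + 1), ε n ^ 2 ≤ ∑ _n ∈ range (16 * N + 1), C₁ ^ 2 := by
      refine Finset.sum_le_sum fun n _ => ?_
      rw [← sq_abs]
      exact pow_le_pow_left₀ (abs_nonneg _) (hε3 n) 2
    rw [Finset.sum_const, Finset.card_range, nsmul_eq_mul] at h3
    push_cast at h3
    nlinarith [sq_nonneg C₁]
  obtain ⟨Γ, hΓ⟩ : ∃ Γ : ℝ, Γ = 68 * C₁ ^ 2 * N ^ 2 * H / P := ⟨_, rfl⟩
  have hΓ0 : 0 ≤ Γ := by rw [hΓ]; positivity
  have h4 : ∑ h ∈ range (H / 2), (∑ n ∈ range (16 * N + 1), ε n * ε (n + h)) ^ 2 ≤ Γ := by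
    refine (Finset.sum_le_sum_of_subset_of_nonneg ?_ fun _ _ _ => sq_nonneg _).trans (h1.trans ?_)
    · exact Finset.range_subset_range.2 (Nat.le_succ _)
    · rw [div_le_iff₀ hHpos]
      calc 4 * (N * (H : ℝ) ^ 2 / P) * ∑ n ∈ range (16 * N + 1), ε n ^ 2
          ≤ 4 * (N * (H : ℝ) ^ 2 / P) * (17 * N * C₁ ^ 2) :=
            mul_le_mul_of_nonneg_left h2 (by positivity)
        _ = Γ * H := by rw [hΓ]; ring
  have h5 := hDUA ε g (H / 2) (16 * N) N b Γ (by omega)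
    (fun n hn => ⟨lt_of_le_of_lt (Nat.div_le_self _ _) (hsup n hn).1, (hsup n hn).2⟩) hg hΓ0 h4
  -- replace `ε` by the difference
  have h6 : ∀ h ∈ range (H / 2), (∑ n ∈ Ioc N (2 * N), g n *
      (f2 N c e r (n + b + h) - g2 N c e r (n + b + h))) ^ 2 =
      (∑ n ∈ Ioc N (2 * N), g n * ε (n + b + h)) ^ 2 := by
    intro h hh
    congr 1
    refine Finset.sum_congr rfl fun n hn => ?_
    rw [hε1]
    · have b1 := (Finset.mem_Ioc.1 hn).1
      have b2 : (N : ℝ) < n := by exact_mod_cast b1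
      push_cast
      have b3 : (0 : ℝ) ≤ b := Nat.cast_nonneg _
      have b4 : (0 : ℝ) ≤ h := Nat.cast_nonneg _
      linarith
    · have b1 := (Finset.mem_Ioc.1 hn).2
      have b2 : (n : ℝ) ≤ 2 * N := by exact_mod_cast b1
      have b3 : (b : ℝ) ≤ N := by exact_mod_cast hb
      have b4 : h ≤ H := by
        have := Finset.mem_range.1 hh
        omega
      have b5 : (h : ℝ) ≤ H := by exact_mod_cast b4
      push_cast
      linarith
  rw [Finset.sum_congr rfl h6]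
  refine h5.trans ?_
  -- the numbers
  have h7 : ((H / 2 : ℕ) : ℝ) * Γ ≤ (9 * C₁ * N * H / L ^ (D + 2)) ^ 2 := by
    have h8 : ((H / 2 : ℕ) : ℝ) ≤ H := by
      exact_mod_cast Nat.div_le_self _ _
    have h9 : P = L ^ (D + 2) * L ^ (D + 2) := by
      rw [hP, ← Real.rpow_add hL0]
      congr 1
      ring
    have h10 : 0 < L ^ (D + 2) := Real.rpow_pos_of_pos hL0 _
    calc ((H / 2 : ℕ) : ℝ) * Γ ≤ H * Γ := mul_le_mul_of_nonneg_right h8 hΓ0
      _ = 68 * (C₁ * N * H / L ^ (D + 2)) ^ 2 := by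
          rw [hΓ, h9]
          field_simp
      _ ≤ 81 * (C₁ * N * H / L ^ (D + 2)) ^ 2 :=
          mul_le_mul_of_nonneg_right (by norm_num) (sq_nonneg _)
      _ = (9 * C₁ * N * H / L ^ (D + 2)) ^ 2 := by ring
  have h11 : 0 < L ^ (D + 2) := Real.rpow_pos_of_pos hL0 _
  have h12 : √(((H / 2 : ℕ) : ℝ) * Γ) ≤ 9 * C₁ * N * H / L ^ (D + 2) := by
    refine Real.sqrt_le_iff.2 ⟨by positivity, h7⟩
  have h13 : L ^ (D + 2) = L ^ D * L ^ 2 := by
    rw [Real.rpow_add hL0]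
    norm_cast
  have h14 : 0 < L ^ D := Real.rpow_pos_of_pos hL0 _
  calc 2 * (N : ℝ) * √(((H / 2 : ℕ) : ℝ) * Γ) ≤ 2 * N * (9 * C₁ * N * H / L ^ (D + 2)) :=
        mul_le_mul_of_nonneg_left h12 (by positivity)
    _ = ((N : ℝ) ^ 2 * H / L ^ D) * (18 * C₁ / L ^ 2) := by
        rw [h13]
        field_simp
        ring
    _ ≤ ((N : ℝ) ^ 2 * H / L ^ D) * 1 := by
        refine mul_le_mul_of_nonneg_left ?_ (by positivity)
        rw [div_le_one (by positivity)]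
        nlinarith
    _ = (N : ℝ) ^ 2 * H / L ^ D := mul_one _

end

end Pool.Agent.Lib.MP3efbeb.LG
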