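import Pool.Agent.Lib.MP_3efbeb_nt.LG.SpecB

/-!
# LongPatterns, module CPT: coprime tuples
-/

set_option autoImplicit false

namespace Pool.Agent.Lib.MP3efbeb.LG

open Finset

noncomputable section

namespace CPTM

/-- the tail of the sum of the inverse squares -/
theorem tail {y : ℝ} (hy : 1 ≤ y) (L : Finset ℕ) (hL : ∀ l ∈ L, y < (l : ℝ)) :
    ∑ l ∈ L, 1 / (l : ℝ) ^ 2 ≤ 2 / y := by
  have hm : 1 ≤ ⌊y⌋₊ := (Nat.one_le_floor_iff y).2 hy
  set m := ⌊y⌋₊ with hmdef
  set X := m + ∑ l ∈ L, l with hX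
  have hsub : L ⊆ Ioc m X := by
    intro l hl
    rw [mem_Ioc]
    refine ⟨(Nat.floor_lt (by linarith)).2 (hL l hl), ?_⟩
    have h7 : l ≤ ∑ l ∈ L, l := single_le_sum (f := fun l : ℕ => l) (fun _ _ => Nat.zero_le _) hl
    omega
  have h1 : ∑ l ∈ L, 1 / (l : ℝ) ^ 2 ≤ ∑ l ∈ Ioc m X, ((l : ℝ) ^ 2)⁻¹ := by
    refine (sum_le_sum_of_subset_of_nonneg hsub fun l _ _ => by positivity).trans (le_of_eq ?_)
    exact sum_congr rfl fun l _ => one_div _
  have h2 : ∑ l ∈ Ioc m X, ((l : ℝ) ^ 2)⁻¹ ≤ (m : ℝ)⁻¹ - (X : ℝ)⁻¹ :=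
    sum_Ioc_inv_sq_le_sub (by omega) (by omega)
  have hm0 : (0 : ℝ) < m := by exact_mod_cast hm
  have h3 : (m : ℝ)⁻¹ ≤ 2 / y := by
    rw [inv_eq_one_div, div_le_div_iff₀ hm0 (by linarith)]
    have h4 : y < m + 1 := Nat.lt_floor_add_one y
    have h5 : (1 : ℝ) ≤ m := by exact_mod_cast hm
    linarith
  have h6 : (0 : ℝ) ≤ (X : ℝ)⁻¹ := by positivity
  linarith

/-- the number of the prime factors -/
theorem card_pf (Δ : ℕ) (hΔ : 1 ≤ Δ) : (Δ.primeFactors.card : ℝ) ≤ Real.logb 2 Δ := by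
  have h1 : 2 ^ Δ.primeFactors.card ≤ Δ := by
    calc 2 ^ Δ.primeFactors.card = ∏ p ∈ Δ.primeFactors, 2 := by rw [prod_const]
      _ ≤ ∏ p ∈ Δ.primeFactors, p :=
        prod_le_prod' fun p hp => (Nat.prime_of_mem_primeFactors hp).two_le
      _ ≤ Δ := Nat.le_of_dvd (by omega) (Nat.prod_primeFactors_dvd Δ)
  have h2 : ((2 : ℝ) ^ Δ.primeFactors.card) ≤ (Δ : ℝ) := by exact_mod_cast h1
  rw [Real.le_logb_iff_rpow_le (by norm_num) (by exact_mod_cast hΔ), Real.rpow_natCast]
  exact h2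

section

variable {k : ℕ} (M : Fin k → Finset ℕ) (Cst : ℝ)

/-- the weight of a tuple -/
def F (m : Fin k → ℕ) : ℝ := ∏ i, 1 / (m i : ℝ)

theorem F_nonneg (m : Fin k → ℕ) : 0 ≤ F m := prod_nonneg fun i _ => by positivity

/-- the sum over the tuples with prescribed multiples of `l` -/
theorem sum_S (h1 : ∀ i, ∑ m ∈ M i, 1 / (m : ℝ) ≤ Cst)
    (h2 : ∀ i, ∀ l : ℕ, l.Prime → ∑ m ∈ (M i).filter (fun m => l ∣ m), 1 / (m : ℝ) ≤ Cst / l)
    (S : Finset (Fin k)) (l : ℕ) (hl : l.Prime) :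
    ∑ m ∈ (Fintype.piFinset M).filter (fun m => ∀ i ∈ S, l ∣ m i), F m ≤
      Cst ^ k * (1 / (l : ℝ)) ^ S.card := by
  have hset : (Fintype.piFinset M).filter (fun m => ∀ i ∈ S, l ∣ m i) =
      Fintype.piFinset (fun i => if i ∈ S then (M i).filter (fun m => l ∣ m) else M i) := by
    ext m
    simp only [mem_filter, Fintype.mem_piFinset]
    constructor
    · rintro ⟨ha, hb⟩ i
      by_cases hi : i ∈ S
      · rw [if_pos hi, mem_filter]
        exact ⟨ha i, hb i hi⟩
      · rw [if_neg hi]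
        exact ha i
    · intro ha
      refine ⟨fun i => ?_, fun i hi => ?_⟩
      · have := ha i
        by_cases hi : i ∈ S
        · rw [if_pos hi, mem_filter] at this
          exact this.1
        · rwa [if_neg hi] at this
      · have := ha i
        rw [if_pos hi, mem_filter] at this
        exact this.2
  rw [hset]
  unfold F
  rw [← prod_univ_sum (fun i => if i ∈ S then (M i).filter (fun m => l ∣ m) else M i)
    (fun _ m => 1 / (m : ℝ))]
  have hle : ∀ i ∈ (univ : Finset (Fin k)),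
      (∑ m ∈ (if i ∈ S then (M i).filter (fun m => l ∣ m) else M i), 1 / (m : ℝ)) ≤
        Cst * (if i ∈ S then 1 / (l : ℝ) else 1) := by
    intro i _
    by_cases hi : i ∈ S
    · rw [if_pos hi, if_pos hi, mul_one_div]
      exact h2 i l hl
    · rw [if_neg hi, if_neg hi, mul_one]
      exact h1 i
  refine (prod_le_prod (fun i _ => sum_nonneg fun m _ => by positivity) hle).trans (le_of_eq ?_)
  rw [prod_mul_distrib, prod_const, card_univ, Fintype.card_fin, prod_ite_mem, univ_inter,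
    prod_const]

end

end CPTM

open CPTM in
theorem specCPT : SpecCPT := by
  intro k M cst Cst y Δ hc hC hy hΔ hM h1 h2 h3
  classical
  have hC0 : (0 : ℝ) ≤ Cst ^ k := by positivity
  set P := Fintype.piFinset M with hP
  -- all tuples
  have hall : cst ^ k ≤ ∑ m ∈ P, F m := by
    unfold F
    rw [hP, ← prod_univ_sum M (fun _ m => 1 / (m : ℝ))]
    calc cst ^ k = ∏ _i : Fin k, cst := by rw [prod_const, card_univ, Fintype.card_fin]
      _ ≤ _ := prod_le_prod (fun i _ => hc.le) fun i _ => h1 i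
  -- the two sets of primes
  set D : Finset ℕ := Δ.primeFactors.filter (fun l : ℕ => y < (l : ℝ)) with hD
  set L := univ.biUnion (fun i : Fin k => (M i).biUnion Nat.primeFactors) with hLdef
  have hLy : ∀ l ∈ L, l.Prime ∧ y < (l : ℝ) := by
    intro l hl
    rw [hLdef] at hl
    simp only [mem_biUnion, mem_univ, true_and] at hl
    obtain ⟨i, m, hm, hlm⟩ := hl
    have hp := Nat.prime_of_mem_primeFactors hlm
    exact ⟨hp, (hM i m hm).2 l hp (Nat.dvd_of_mem_primeFactors hlm)⟩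
  -- union bound
  have hub : ∑ m ∈ P.filter (fun m => ¬ ((∀ i j, i ≠ j → (m i).Coprime (m j)) ∧
      ∀ i, (m i).Coprime Δ)), F m ≤
      (∑ i : Fin k, ∑ l ∈ D, ∑ m ∈ P.filter (fun m => ∀ a ∈ ({i} : Finset (Fin k)), l ∣ m a), F m) +
      ∑ ij ∈ (univ : Finset (Fin k)).offDiag, ∑ l ∈ L,
        ∑ m ∈ P.filter (fun m => ∀ a ∈ ({ij.1, ij.2} : Finset (Fin k)), l ∣ m a), F m := by
    have e1 : (∑ i : Fin k, ∑ l ∈ D,
        ∑ m ∈ P.filter (fun m => ∀ a ∈ ({i} : Finset (Fin k)), l ∣ m a), F m) =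
        ∑ m ∈ P, ∑ i : Fin k, ∑ l ∈ D,
          if (∀ a ∈ ({i} : Finset (Fin k)), l ∣ m a) then F m else 0 := by
      symm
      rw [sum_comm]
      refine sum_congr rfl fun i _ => ?_
      rw [sum_comm]
      refine sum_congr rfl fun l _ => ?_
      rw [sum_filter]
    have e2 : (∑ ij ∈ (univ : Finset (Fin k)).offDiag, ∑ l ∈ L,
        ∑ m ∈ P.filter (fun m => ∀ a ∈ ({ij.1, ij.2} : Finset (Fin k)), l ∣ m a), F m) =
        ∑ m ∈ P, ∑ ij ∈ (univ : Finset (Fin k)).offDiag, ∑ l ∈ L,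
          if (∀ a ∈ ({ij.1, ij.2} : Finset (Fin k)), l ∣ m a) then F m else 0 := by
      symm
      rw [sum_comm]
      refine sum_congr rfl fun i _ => ?_
      rw [sum_comm]
      refine sum_congr rfl fun l _ => ?_
      rw [sum_filter]
    rw [e1, e2, ← sum_add_distrib, sum_filter]
    refine sum_le_sum fun m hm => ?_
    have hF := F_nonneg m
    have n1 : ∀ i ∈ (univ : Finset (Fin k)), 0 ≤ ∑ l ∈ D,
        (if (∀ a ∈ ({i} : Finset (Fin k)), l ∣ m a) then F m else 0) := fun i _ =>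
      sum_nonneg fun l _ => by split_ifs <;> linarith
    have n2 : ∀ ij ∈ (univ : Finset (Fin k)).offDiag, 0 ≤ ∑ l ∈ L,
        (if (∀ a ∈ ({ij.1, ij.2} : Finset (Fin k)), l ∣ m a) then F m else 0) := fun i _ =>
      sum_nonneg fun l _ => by split_ifs <;> linarith
    have N1 := sum_nonneg n1
    have N2 := sum_nonneg n2
    by_cases hg : ((∀ i j, i ≠ j → (m i).Coprime (m j)) ∧ ∀ i, (m i).Coprime Δ)
    · rw [if_neg (not_not.2 hg)]
      linarith
    · rw [if_pos hg]
      have hmM : ∀ i, m i ∈ M i := fun i => by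
        have := hm
        rw [hP, Fintype.mem_piFinset] at this
        exact this i
      rw [not_and_or] at hg
      rcases hg with hg | hg
      · push Not at hg
        obtain ⟨i, j, hij, hnc⟩ := hg
        obtain ⟨l, hl, hli, hlj⟩ := Nat.Prime.not_coprime_iff_dvd.1 hnc
        have hlL : l ∈ L := by
          rw [hLdef]
          simp only [mem_biUnion, mem_univ, true_and]
          exact ⟨i, m i, hmM i, Nat.mem_primeFactors.2 ⟨hl, hli, by
            have := (hM i (m i) (hmM i)).1; omega⟩⟩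
        have hij' : (i, j) ∈ (univ : Finset (Fin k)).offDiag :=
          mem_offDiag.2 ⟨mem_univ i, mem_univ j, hij⟩
        have s1 := single_le_sum n2 hij'
        have s2 := single_le_sum (f := fun l =>
          (if (∀ a ∈ ({i, j} : Finset (Fin k)), l ∣ m a) then F m else 0))
          (fun l _ => by beta_reduce; split_ifs <;> linarith) hlL
        have hcond : ∀ a ∈ ({i, j} : Finset (Fin k)), l ∣ m a := by
          intro a ha
          rw [mem_insert, mem_singleton] at ha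
          rcases ha with rfl | rfl
          · exact hli
          · exact hlj
        simp only [if_pos hcond] at s2
        simp only at s1
        linarith
      · push Not at hg
        obtain ⟨i, hnc⟩ := hg
        obtain ⟨l, hl, hli, hlΔ⟩ := Nat.Prime.not_coprime_iff_dvd.1 hnc
        have hlD : l ∈ D := by
          rw [hD, mem_filter]
          exact ⟨Nat.mem_primeFactors.2 ⟨hl, hlΔ, by omega⟩, (hM i (m i) (hmM i)).2 l hl hli⟩
        have s1 := single_le_sum n1 (mem_univ i)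
        have s2 := single_le_sum (f := fun l =>
          (if (∀ a ∈ ({i} : Finset (Fin k)), l ∣ m a) then F m else 0))
          (fun l _ => by beta_reduce; split_ifs <;> linarith) hlD
        have hcond : ∀ a ∈ ({i} : Finset (Fin k)), l ∣ m a := by
          intro a ha
          rw [mem_singleton] at ha
          rw [ha]; exact hli
        simp only [if_pos hcond] at s2
        linarith
  -- the first sum
  have hb1 : (∑ i : Fin k, ∑ l ∈ D,
      ∑ m ∈ P.filter (fun m => ∀ a ∈ ({i} : Finset (Fin k)), l ∣ m a), F m) ≤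
      k * (Real.logb 2 Δ * (Cst ^ k * (1 / y))) := by
    have hi : ∀ i ∈ (univ : Finset (Fin k)), (∑ l ∈ D,
        ∑ m ∈ P.filter (fun m => ∀ a ∈ ({i} : Finset (Fin k)), l ∣ m a), F m) ≤
        Real.logb 2 Δ * (Cst ^ k * (1 / y)) := by
      intro i _
      have hl : ∀ l ∈ D, (∑ m ∈ P.filter (fun m => ∀ a ∈ ({i} : Finset (Fin k)), l ∣ m a), F m) ≤
          Cst ^ k * (1 / y) := by
        intro l hl
        rw [hD, mem_filter] at hl
        have := sum_S M Cst h2 h3 {i} l (Nat.prime_of_mem_primeFactors hl.1)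
        rw [card_singleton, pow_one] at this
        refine this.trans (mul_le_mul_of_nonneg_left ?_ hC0)
        exact one_div_le_one_div_of_le (by linarith) hl.2.le
      have := sum_le_card_nsmul D _ _ hl
      rw [nsmul_eq_mul] at this
      refine this.trans (mul_le_mul_of_nonneg_right ?_ (by positivity))
      refine le_trans ?_ (card_pf Δ hΔ)
      exact_mod_cast card_filter_le _ _
    have := sum_le_card_nsmul univ _ _ hi
    rwa [card_univ, Fintype.card_fin, nsmul_eq_mul] at this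
  -- the second sum
  have hb2 : (∑ ij ∈ (univ : Finset (Fin k)).offDiag, ∑ l ∈ L,
      ∑ m ∈ P.filter (fun m => ∀ a ∈ ({ij.1, ij.2} : Finset (Fin k)), l ∣ m a), F m) ≤
      (k : ℝ) ^ 2 * (Cst ^ k * (2 / y)) := by
    have hi : ∀ ij ∈ (univ : Finset (Fin k)).offDiag, (∑ l ∈ L,
        ∑ m ∈ P.filter (fun m => ∀ a ∈ ({ij.1, ij.2} : Finset (Fin k)), l ∣ m a), F m) ≤
        Cst ^ k * (2 / y) := by
      intro ij hij
      rw [mem_offDiag] at hij
      have hl : ∀ l ∈ L, (∑ m ∈ P.filter (fun m => ∀ a ∈ ({ij.1, ij.2} : Finset (Fin k)),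
          l ∣ m a), F m) ≤ Cst ^ k * (1 / (l : ℝ) ^ 2) := by
        intro l hl
        have := sum_S M Cst h2 h3 {ij.1, ij.2} l (hLy l hl).1
        rwa [card_pair hij.2.2, one_div_pow] at this
      refine (sum_le_sum hl).trans ?_
      rw [← mul_sum]
      exact mul_le_mul_of_nonneg_left (tail hy L fun l hl => (hLy l hl).2) hC0
    have := sum_le_card_nsmul (univ : Finset (Fin k)).offDiag _ _ hi
    rw [nsmul_eq_mul] at this
    refine this.trans (mul_le_mul_of_nonneg_right ?_ (by positivity))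
    have hcard : (univ : Finset (Fin k)).offDiag.card ≤ k ^ 2 := by
      rw [offDiag_card, card_univ, Fintype.card_fin, sq]
      exact Nat.sub_le _ _
    exact_mod_cast hcard
  -- conclusion
  have hsplit := sum_filter_add_sum_filter_not P (fun m : Fin k → ℕ =>
    (∀ i j, i ≠ j → (m i).Coprime (m j)) ∧ ∀ i, (m i).Coprime Δ) F
  have hlog : 0 ≤ Real.logb 2 Δ :=
    Real.logb_nonneg (by norm_num) (by exact_mod_cast hΔ)
  have hk : (k : ℝ) ≤ (k : ℝ) ^ 2 := by
    rcases Nat.eq_zero_or_pos k with h | h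
    · subst h; norm_num
    · have : (1 : ℝ) ≤ k := by exact_mod_cast h
      nlinarith
  have hfin : k * (Real.logb 2 Δ * (Cst ^ k * (1 / y))) + (k : ℝ) ^ 2 * (Cst ^ k * (2 / y)) ≤
      (k : ℝ) ^ 2 * Cst ^ k * (2 + Real.logb 2 Δ) / y := by
    have h5 : (k : ℝ) * (Real.logb 2 Δ * (Cst ^ k * (1 / y))) ≤
        (k : ℝ) ^ 2 * (Real.logb 2 Δ * (Cst ^ k * (1 / y))) :=
      mul_le_mul_of_nonneg_right hk (by positivity)
    have h6 : (k : ℝ) ^ 2 * (Real.logb 2 Δ * (Cst ^ k * (1 / y))) +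
        (k : ℝ) ^ 2 * (Cst ^ k * (2 / y)) = (k : ℝ) ^ 2 * Cst ^ k * (2 + Real.logb 2 Δ) / y := by
      ring
    linarith
  have hgoal : cst ^ k - (k : ℝ) ^ 2 * Cst ^ k * (2 + Real.logb 2 Δ) / y ≤
      ∑ m ∈ P.filter (fun m => (∀ i j, i ≠ j → (m i).Coprime (m j)) ∧
        ∀ i, (m i).Coprime Δ), F m := by
    linarith
  refine hgoal.trans (le_of_eq ?_)
  rfl

end

end Pool.Agent.Lib.MP3efbeb.LG
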