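import Pool.Agent.Lib.MP_3efbeb_nt.LG.SpecA

/-! # LongPatterns, module DIR (helper4): the standard sum over the multiples of `α` -/

set_option autoImplicit false

namespace Pool.Agent.Lib.MP3efbeb.LG

open Finset

noncomputable section

namespace DIRM

def Gm (q : ℕ) (L : ℝ) (m : ℕ) : ℝ := if m ≤ 2 then L else q / ((m : ℝ) - 2)

theorem Gm_nonneg (q : ℕ) {L : ℝ} (hL : 0 ≤ L) (m : ℕ) : 0 ≤ Gm q L m := by
  unfold Gm
  split_ifs with h
  · exact hL
  · have : (3 : ℝ) ≤ m := by exact_mod_cast (by omega : 3 ≤ m)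
    exact div_nonneg (Nat.cast_nonneg _) (by linarith)

theorem sum_Gm (q : ℕ) (L : ℝ) (Q : ℕ) :
    ∑ m ∈ range (Q + 3), Gm q L m = 3 * L + q * ((harmonic Q : ℚ) : ℝ) := by
  induction Q with
  | zero =>
    simp only [zero_add, Finset.sum_range_succ, Finset.sum_range_zero, Gm, harmonic_zero]
    norm_num
    ring
  | succ Q ih =>
    rw [show Q + 1 + 3 = (Q + 3) + 1 by ring, Finset.sum_range_succ, ih, harmonic_succ]
    unfold Gm
    rw [if_neg (by omega)]
    push_cast
    have h : (Q : ℝ) + 3 - 2 = Q + 1 := by ring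
    rw [h]
    ring

theorem sum_Gm_le {q : ℕ} {L : ℝ} (hL : 0 ≤ L) :
    ∑ m ∈ range (q + 1), Gm q L m ≤ 3 * L + q * (1 + Real.log q) := by
  calc ∑ m ∈ range (q + 1), Gm q L m ≤ ∑ m ∈ range (q + 3), Gm q L m :=
        Finset.sum_le_sum_of_subset_of_nonneg (Finset.range_mono (by omega))
          fun m _ _ => Gm_nonneg q hL m
    _ = 3 * L + q * ((harmonic q : ℚ) : ℝ) := sum_Gm q L q
    _ ≤ _ := by
      have := harmonic_le_one_add_log q
      have h2 := mul_le_mul_of_nonneg_left this (Nat.cast_nonneg q : (0 : ℝ) ≤ q)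
      linarith

theorem point {q : ℕ} (hq : 1 ≤ q) {L f x δ : ℝ} (r : ℤ) (hL : 0 ≤ L) (hδ : |δ| ≤ 2)
    (hx : x * q = r + δ) (hf0 : 0 ≤ f) (hfL : f ≤ L) (hf : f * nd x ≤ 1) :
    f ≤ Gm q L (r % q).toNat + Gm q L (q - (r % q).toNat) := by
  have hq0 : (0 : ℤ) < q := by exact_mod_cast hq
  have hqR : (0 : ℝ) < q := by exact_mod_cast hq
  obtain ⟨s, hs⟩ : ∃ s : ℕ, (s : ℤ) = r % q := ⟨(r % q).toNat, Int.toNat_of_nonneg (Int.emod_nonneg _ hq0.ne')⟩
  have hsq : s < q := by
    have := Int.emod_lt_of_pos r hq0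
    omega
  rw [← hs, Int.toNat_natCast]
  set N := round x with hN
  have hnd : nd x = |x - N| := rfl
  have h1 : nd x * q = |(r - q * N : ℝ) + δ| := by
    rw [hnd, ← abs_of_pos hqR, ← abs_mul, abs_of_pos hqR]
    congr 1
    rw [sub_mul, hx]
    ring
  have key : ∀ m : ℕ, ((m : ℤ) ≤ |r - q * N|) → f ≤ Gm q L m := by
    intro m hm
    unfold Gm
    split_ifs with h
    · exact hfL
    · have h3 : (3 : ℝ) ≤ m := by exact_mod_cast (by omega : 3 ≤ m)
      have h4 : (m : ℝ) ≤ |(r - q * N : ℝ)| := by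
        have : ((m : ℤ) : ℝ) ≤ ((|r - q * N| : ℤ) : ℝ) := by exact_mod_cast hm
        rw [Int.cast_abs] at this
        push_cast at this
        exact this
      have h5 : (m : ℝ) - 2 ≤ nd x * q := by
        rw [h1]
        have : |(r - q * N : ℝ)| ≤ |(r - q * N : ℝ) + δ| + |δ| := by
          have := abs_sub (((r : ℝ) - q * N) + δ) δ
          rwa [add_sub_cancel_right] at this
        linarith
      rw [le_div_iff₀ (by linarith)]
      calc f * ((m : ℝ) - 2) ≤ f * (nd x * q) := mul_le_mul_of_nonneg_left h5 hf0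
        _ = (f * nd x) * q := by ring
        _ ≤ 1 * q := mul_le_mul_of_nonneg_right hf hqR.le
        _ = q := one_mul _
  have hdiv : r - q * N = s + q * (r / q - N) := by
    have := Int.emod_add_mul_ediv r q
    rw [← hs] at this
    linear_combination -this
  rcases le_or_gt 0 (r / q - N) with ht | ht
  · have := key s (by
      rw [hdiv, abs_of_nonneg (by positivity)]
      have : 0 ≤ (q : ℤ) * (r / q - N) := by positivity
      linarith)
    have h2 := Gm_nonneg q hL (q - s)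
    linarith
  · have := key (q - s) (by
      rw [hdiv]
      have h3 : (q : ℤ) * (r / q - N) ≤ q * (-1) := mul_le_mul_of_nonneg_left (by omega) hq0.le
      rw [abs_of_neg (by omega)]
      omega)
    have h2 := Gm_nonneg q hL s
    linarith

theorem block {α : ℝ} {a : ℤ} {q : ℕ} {F : ℕ → ℝ} {L : ℝ} (hq : 1 ≤ q)
    (hco : IsCoprime a (q : ℤ)) (hα : |α - a / q| ≤ 1 / (q : ℝ) ^ 2) (hL : 0 ≤ L)
    (hF : ∀ k, 0 ≤ F k ∧ F k ≤ L ∧ F k * nd (α * k) ≤ 1) (k₀ : ℕ) :
    ∑ j ∈ range q, F (k₀ + j) ≤ 6 * (L + q * (1 + Real.log q)) := by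
  classical
  have hq0 : (0 : ℤ) < q := by exact_mod_cast hq
  have hqR : (0 : ℝ) < q := by exact_mod_cast hq
  set b := ⌊α * k₀ * q⌋ with hb
  set φ : ℕ → ℕ := fun j => ((b + a * j) % q).toNat with hφ
  have hpt : ∀ j ∈ range q, F (k₀ + j) ≤ Gm q L (φ j) + Gm q L (q - φ j) := by
    intro j hj
    obtain ⟨h1, h2, h3⟩ := hF (k₀ + j)
    have hjq : j < q := Finset.mem_range.mp hj
    have hjR : (j : ℝ) < q := by exact_mod_cast hjq
    have he : |(α - a / q) * j * q| ≤ 1 := by
      rw [abs_mul, abs_mul, abs_of_nonneg (Nat.cast_nonneg j : (0 : ℝ) ≤ j), abs_of_pos hqR]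
      calc |α - a / q| * j * q ≤ 1 / (q : ℝ) ^ 2 * q * q := by gcongr
        _ = 1 := by field_simp
    have hfr0 := Int.floor_le (α * k₀ * q)
    have hfr1 := Int.lt_floor_add_one (α * k₀ * q)
    rw [abs_le] at he
    refine point hq (x := α * (k₀ + j : ℕ))
      (δ := (α * k₀ * q - b) + (α - a / q) * j * q) (b + a * j) hL ?_ ?_ h1 h2 h3
    · rw [abs_le]
      constructor
      · linarith [he.1]
      · linarith [he.2]
    · push_cast
      field_simp
      ring
  have hinj : Set.InjOn φ (range q) := by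
    intro i hi j hj hij
    have hi' : i < q := by simpa using hi
    have hj' : j < q := by simpa using hj
    have h1 : (b + a * i) % q = (b + a * j) % q := by
      have h2 := Int.toNat_of_nonneg (Int.emod_nonneg (b + a * i) hq0.ne')
      have h3 := Int.toNat_of_nonneg (Int.emod_nonneg (b + a * j) hq0.ne')
      rw [← h2, ← h3]
      exact congrArg _ hij
    have h2 : (q : ℤ) ∣ (b + a * i) - (b + a * j) := Int.ModEq.dvd (Int.ModEq.symm h1)
    have h3 : (q : ℤ) ∣ a * ((i : ℤ) - j) := by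
      have : (b + a * (i : ℤ)) - (b + a * j) = a * ((i : ℤ) - j) := by ring
      rwa [this] at h2
    have h4 : (q : ℤ) ∣ (i : ℤ) - j := hco.symm.dvd_of_dvd_mul_left h3
    by_contra hne
    have h5 : ((i : ℤ) - j) ≠ 0 := by omega
    have h6 := Int.le_of_dvd (abs_pos.mpr h5) ((dvd_abs _ _).mpr h4)
    rcases abs_cases ((i : ℤ) - j) with ⟨h7, _⟩ | ⟨h7, _⟩ <;> omega
  have hmem : ∀ j, φ j < q := by
    intro j
    have := Int.emod_lt_of_pos (b + a * j) hq0
    have h0 := Int.emod_nonneg (b + a * j) hq0.ne'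
    show ((b + a * j) % q).toNat < q
    omega
  have hsum : ∀ H : ℕ → ℝ, (∀ m, 0 ≤ H m) → ∑ j ∈ range q, H (φ j) ≤ ∑ m ∈ range q, H m := by
    intro H hH
    rw [← Finset.sum_image hinj]
    apply Finset.sum_le_sum_of_subset_of_nonneg
    · intro m hm
      obtain ⟨j, _, rfl⟩ := Finset.mem_image.mp hm
      exact Finset.mem_range.mpr (hmem j)
    · exact fun m _ _ => hH m
  have hS := sum_Gm_le (q := q) hL
  have h1 : ∑ m ∈ range q, Gm q L m ≤ ∑ m ∈ range (q + 1), Gm q L m :=
    Finset.sum_le_sum_of_subset_of_nonneg (Finset.range_mono (by omega))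
      fun m _ _ => Gm_nonneg q hL m
  have h2 : ∑ m ∈ range q, Gm q L (q - m) ≤ ∑ m ∈ range (q + 1), Gm q L m := by
    rw [← Finset.sum_range_reflect (fun m => Gm q L m) (q + 1)]
    simp only [Nat.add_sub_cancel]
    exact Finset.sum_le_sum_of_subset_of_nonneg (Finset.range_mono (by omega))
      fun m _ _ => Gm_nonneg q hL _
  have h3 := hsum (Gm q L) (Gm_nonneg q hL)
  have h4 := hsum (fun m => Gm q L (q - m)) fun m => Gm_nonneg q hL _
  have h5 := Finset.sum_le_sum hpt
  rw [Finset.sum_add_distrib] at h5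
  have h6 : 0 ≤ (q : ℝ) * (1 + Real.log q) :=
    mul_nonneg hqR.le (by have := Real.log_nonneg (by exact_mod_cast hq : (1 : ℝ) ≤ q); linarith)
  linarith

end DIRM

open DIRM in
theorem specDIR : SpecDIR := by
  refine ⟨6, by norm_num, ?_⟩
  intro α a q A F L hq hco hα hL hF
  have hqR : (0 : ℝ) < q := by exact_mod_cast hq
  set E := L + q * (1 + Real.log q) with hE
  have hE0 : 0 ≤ E := by
    have := Real.log_nonneg (by exact_mod_cast hq : (1 : ℝ) ≤ q)
    positivity
  have hblk : ∀ t : ℕ, ∑ k ∈ range (t * q), F k ≤ t * (6 * E) := by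
    intro t
    induction t with
    | zero => simp
    | succ t ih =>
      rw [Nat.succ_mul, Finset.sum_range_add]
      have := block hq hco hα hL hF (t * q)
      push_cast
      linarith
  have h1 : ∑ k ∈ Icc 1 A, F k ≤ ∑ k ∈ range ((A / q + 1) * q), F k := by
    apply Finset.sum_le_sum_of_subset_of_nonneg
    · intro k hk
      have := (Finset.mem_Icc.mp hk).2
      rw [Finset.mem_range]
      have h2 := Nat.lt_div_mul_add (a := A) (b := q) (by omega)
      rw [Nat.succ_mul]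
      omega
    · exact fun k _ _ => (hF k).1
  refine h1.trans ((hblk _).trans ?_)
  push_cast
  have h2 : ((A / q : ℕ) : ℝ) ≤ (A : ℝ) / q := Nat.cast_div_le
  have h3 : (((A / q : ℕ) : ℝ) + 1) * (6 * E) ≤ ((A : ℝ) / q + 1) * (6 * E) :=
    mul_le_mul_of_nonneg_right (by linarith) (by linarith)
  linarith

end

end Pool.Agent.Lib.MP3efbeb.LG
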