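import Pool.Agent.Lib.MP_3efbeb_nt.LG.SpecC

/-!
# LongPatterns, module DIV (helper53): moments of the divisor function
-/

set_option autoImplicit false

namespace Pool.Agent.Lib.MP3efbeb.LG

open Finset

noncomputable section

namespace DIVM

/-- `τ(dm) ≤ τ(d) τ(m)` -/
theorem tau_mul (d m : ℕ) : ((d * m).divisors.card : ℝ) ≤ (d.divisors.card : ℝ) * (m.divisors.card : ℝ) := by
  have h : (d * m).divisors.card ≤ d.divisors.card * m.divisors.card := by
    rw [Nat.divisors_mul]
    exact Finset.card_mul_le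
  exact_mod_cast h

/-- the multiples -/
theorem sum_tau (F : ℕ → ℝ) (X : ℕ) : ∑ n ∈ Icc 1 X, F n * (n.divisors.card : ℝ) =
    ∑ d ∈ Icc 1 X, ∑ m ∈ Icc 1 (X / d), F (d * m) := by
  have h1 : ∀ n ∈ Icc 1 X, F n * (n.divisors.card : ℝ) = ∑ d ∈ (Icc 1 X).filter (fun d => d ∣ n), F n := by
    intro n hn
    rw [mem_Icc] at hn
    rw [Finset.sum_const, nsmul_eq_mul, mul_comm]
    congr 3
    ext d
    simp only [Nat.mem_divisors, mem_filter, mem_Icc]
    constructor
    · rintro ⟨h1, h2⟩
      have h3 := Nat.pos_of_dvd_of_pos h1 (by omega)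
      have h4 := Nat.le_of_dvd (by omega) h1
      exact ⟨⟨h3, by omega⟩, h1⟩
    · rintro ⟨h1, h2⟩
      exact ⟨h2, by omega⟩
  rw [Finset.sum_congr rfl h1]
  have h2 : ∑ n ∈ Icc 1 X, ∑ d ∈ (Icc 1 X).filter (fun d => d ∣ n), F n =
      ∑ d ∈ Icc 1 X, ∑ n ∈ (Icc 1 X).filter (fun n => d ∣ n), F n := by
    rw [Finset.sum_comm' (t' := Icc 1 X) (s' := fun d => (Icc 1 X).filter (fun n => d ∣ n))]
    intro n d
    simp only [mem_filter]
    tauto
  rw [h2]
  apply Finset.sum_congr rfl
  intro d hd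
  rw [mem_Icc] at hd
  have hd0 : 0 < d := by omega
  symm
  refine Finset.sum_bij (fun m _ => d * m) ?_ ?_ ?_ ?_
  · intro m hm
    rw [mem_Icc] at hm
    rw [mem_filter, mem_Icc]
    have h3 : d * m ≤ X := by
      have := (Nat.le_div_iff_mul_le hd0).1 hm.2
      rw [mul_comm]
      exact this
    exact ⟨⟨Nat.mul_pos hd0 (by omega), h3⟩, dvd_mul_right d m⟩
  · intro m _ m' _ h
    exact Nat.eq_of_mul_eq_mul_left hd0 h
  · intro n hn
    rw [mem_filter, mem_Icc] at hn
    obtain ⟨⟨h3, h4⟩, m, rfl⟩ := hn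
    refine ⟨m, ?_, rfl⟩
    rw [mem_Icc]
    constructor
    · rcases Nat.eq_zero_or_pos m with h | h
      · subst h
        omega
      · exact h
    · rw [Nat.le_div_iff_mul_le hd0, mul_comm]
      exact h4
  · intro m _
    rfl

theorem harm (X : ℕ) (hX : 1 ≤ X) : ∑ n ∈ Icc 1 X, (1 : ℝ) / n ≤ 1 + Real.log X := by
  have h1 := harmonic_le_one_add_log X
  have h2 : ((harmonic X : ℚ) : ℝ) = ∑ n ∈ Icc 1 X, (1 : ℝ) / n := by
    rw [harmonic_eq_sum_Icc]
    push_cast
    apply Finset.sum_congr rfl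
    intro n _
    rw [one_div]
  rw [← h2]
  exact h1

theorem log_le (X d : ℕ) (hd : 1 ≤ d) (hdX : d ≤ X) :
    0 ≤ 1 + Real.log ((X / d : ℕ) : ℝ) ∧ 1 + Real.log ((X / d : ℕ) : ℝ) ≤ 1 + Real.log X := by
  have h1 : 1 ≤ X / d := (Nat.one_le_div_iff (by omega)).2 hdX
  have h1' : (1 : ℝ) ≤ ((X / d : ℕ) : ℝ) := by exact_mod_cast h1
  have h2 : X / d ≤ X := Nat.div_le_self X d
  have h2' : ((X / d : ℕ) : ℝ) ≤ X := by exact_mod_cast h2
  have h3 := Real.log_nonneg h1'
  have h4 := Real.log_le_log (by linarith) h2'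
  constructor
  · linarith
  · linarith

/-- the sums with `1/n` -/
theorem part2 (j : ℕ) : ∀ X : ℕ, 1 ≤ X →
    ∑ n ∈ Icc 1 X, (n.divisors.card : ℝ) ^ j / n ≤ (1 + Real.log X) ^ (2 ^ j) := by
  induction j with
  | zero =>
    intro X hX
    simp only [pow_zero, pow_one]
    exact harm X hX
  | succ j ih =>
    intro X hX
    have hL : 0 ≤ 1 + Real.log X := (log_le X 1 le_rfl hX).1.trans (log_le X 1 le_rfl hX).2
    have e1 : ∀ n ∈ Icc 1 X, (n.divisors.card : ℝ) ^ (j + 1) / n =
        ((n.divisors.card : ℝ) ^ j / n) * (n.divisors.card : ℝ) := by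
      intro n _
      rw [pow_succ]
      ring
    rw [Finset.sum_congr rfl e1, sum_tau (fun n => (n.divisors.card : ℝ) ^ j / n) X]
    calc ∑ d ∈ Icc 1 X, ∑ m ∈ Icc 1 (X / d), (((d * m).divisors.card : ℝ) ^ j / ((d * m : ℕ) : ℝ))
        ≤ ∑ d ∈ Icc 1 X, ((d.divisors.card : ℝ) ^ j / d) * (1 + Real.log X) ^ (2 ^ j) := by
          apply Finset.sum_le_sum
          intro d hd
          rw [mem_Icc] at hd
          have h1 : 1 ≤ X / d := (Nat.one_le_div_iff (by omega)).2 hd.2
          have h2 := ih (X / d) h1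
          have h3 := log_le X d hd.1 hd.2
          have h4 : (1 + Real.log ((X / d : ℕ) : ℝ)) ^ (2 ^ j) ≤ (1 + Real.log X) ^ (2 ^ j) :=
            pow_le_pow_left₀ h3.1 h3.2 _
          calc ∑ m ∈ Icc 1 (X / d), (((d * m).divisors.card : ℝ) ^ j / ((d * m : ℕ) : ℝ))
              ≤ ∑ m ∈ Icc 1 (X / d), ((d.divisors.card : ℝ) ^ j / d) * ((m.divisors.card : ℝ) ^ j / m) := by
                apply Finset.sum_le_sum
                intro m _
                push_cast
                rw [div_mul_div_comm, ← mul_pow]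
                have := tau_mul d m
                gcongr
            _ = ((d.divisors.card : ℝ) ^ j / d) * ∑ m ∈ Icc 1 (X / d), ((m.divisors.card : ℝ) ^ j / m) := by
                rw [Finset.mul_sum]
            _ ≤ ((d.divisors.card : ℝ) ^ j / d) * (1 + Real.log X) ^ (2 ^ j) := by
                apply mul_le_mul_of_nonneg_left (h2.trans h4)
                positivity
      _ = (∑ d ∈ Icc 1 X, (d.divisors.card : ℝ) ^ j / d) * (1 + Real.log X) ^ (2 ^ j) := by
          rw [Finset.sum_mul]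
      _ ≤ (1 + Real.log X) ^ (2 ^ j) * (1 + Real.log X) ^ (2 ^ j) := by
          apply mul_le_mul_of_nonneg_right (ih X hX)
          positivity
      _ = (1 + Real.log X) ^ (2 ^ (j + 1)) := by
          rw [← pow_add]
          congr 1
          rw [pow_succ]
          ring

/-- the sums -/
theorem part1 (j : ℕ) : ∀ X : ℕ, 1 ≤ X →
    ∑ n ∈ Icc 1 X, (n.divisors.card : ℝ) ^ j ≤ X * (1 + Real.log X) ^ (2 ^ j - 1) := by
  induction j with
  | zero =>
    intro X hX
    simp
  | succ j ih =>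
    intro X hX
    have hL : 0 ≤ 1 + Real.log X := (log_le X 1 le_rfl hX).1.trans (log_le X 1 le_rfl hX).2
    have e1 : ∀ n ∈ Icc 1 X, (n.divisors.card : ℝ) ^ (j + 1) =
        ((n.divisors.card : ℝ) ^ j) * (n.divisors.card : ℝ) := by
      intro n _
      rw [pow_succ]
    rw [Finset.sum_congr rfl e1, sum_tau (fun n => (n.divisors.card : ℝ) ^ j) X]
    calc ∑ d ∈ Icc 1 X, ∑ m ∈ Icc 1 (X / d), (((d * m).divisors.card : ℝ) ^ j)
        ≤ ∑ d ∈ Icc 1 X, ((d.divisors.card : ℝ) ^ j / d) * (X * (1 + Real.log X) ^ (2 ^ j - 1)) := by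
          apply Finset.sum_le_sum
          intro d hd
          rw [mem_Icc] at hd
          have h1 : 1 ≤ X / d := (Nat.one_le_div_iff (by omega)).2 hd.2
          have h2 := ih (X / d) h1
          have h3 := log_le X d hd.1 hd.2
          have h4 : (1 + Real.log ((X / d : ℕ) : ℝ)) ^ (2 ^ j - 1) ≤ (1 + Real.log X) ^ (2 ^ j - 1) :=
            pow_le_pow_left₀ h3.1 h3.2 _
          have h5 : ((X / d : ℕ) : ℝ) ≤ (X : ℝ) / d := Nat.cast_div_le
          have hd0 : (0 : ℝ) < d := by
            have : 0 < d := by omega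
            exact_mod_cast this
          calc ∑ m ∈ Icc 1 (X / d), (((d * m).divisors.card : ℝ) ^ j)
              ≤ ∑ m ∈ Icc 1 (X / d), ((d.divisors.card : ℝ) ^ j) * ((m.divisors.card : ℝ) ^ j) := by
                apply Finset.sum_le_sum
                intro m _
                rw [← mul_pow]
                have := tau_mul d m
                gcongr
            _ = ((d.divisors.card : ℝ) ^ j) * ∑ m ∈ Icc 1 (X / d), ((m.divisors.card : ℝ) ^ j) := by
                rw [Finset.mul_sum]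
            _ ≤ ((d.divisors.card : ℝ) ^ j) * ((X : ℝ) / d * (1 + Real.log X) ^ (2 ^ j - 1)) := by
                apply mul_le_mul_of_nonneg_left _ (by positivity)
                refine h2.trans ?_
                apply mul_le_mul h5 h4 (pow_nonneg h3.1 _) (by positivity)
            _ = ((d.divisors.card : ℝ) ^ j / d) * (X * (1 + Real.log X) ^ (2 ^ j - 1)) := by
                field_simp
      _ = (∑ d ∈ Icc 1 X, (d.divisors.card : ℝ) ^ j / d) * (X * (1 + Real.log X) ^ (2 ^ j - 1)) := by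
          rw [Finset.sum_mul]
      _ ≤ (1 + Real.log X) ^ (2 ^ j) * (X * (1 + Real.log X) ^ (2 ^ j - 1)) := by
          apply mul_le_mul_of_nonneg_right (part2 j X hX)
          positivity
      _ = X * (1 + Real.log X) ^ (2 ^ (j + 1) - 1) := by
          have h2 : 2 ^ (j + 1) - 1 = 2 ^ j + (2 ^ j - 1) := by
            have : 1 ≤ 2 ^ j := Nat.one_le_two_pow
            rw [pow_succ]
            omega
          rw [h2, pow_add]
          ring

end DIVM

open DIVM in
theorem specDIV : SpecDIV := fun j X hX => ⟨part1 j X hX, part2 j X hX⟩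

end

end Pool.Agent.Lib.MP3efbeb.LG
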