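import Pool.Agent.Lib.MP_3efbeb_nt.LG.SpecC
import Pool.Agent.Lib.MP_3efbeb_nt.LG.FRB

set_option autoImplicit false

namespace Pool.Agent.Lib.MP3efbeb.LG

open Finset Filter
open Pool.Agent.Lib.MP391708.QPA (PB rInd Wp Rough)

noncomputable section

namespace FR2M

open FRBM (mem_PPs list_prod_le card_prod_le card_large Wp_ge Wp_nonneg)

lemma mem_DE {N e : ℝ} (hN : 1 ≤ N) {s d : ℕ} (h : d ∈ DE N e s) :
    d ≠ 0 ∧ d.primeFactorsList.length = s ∧ (∀ p : ℕ, p.Prime → p ∣ d → N ^ e < p) ∧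
      (d : ℝ) ≤ N ^ (2 * e * s) := by
  unfold DE at h
  rw [Finset.mem_filter, Finset.mem_Icc] at h
  obtain ⟨⟨h1, _⟩, h2, h3⟩ := h
  have hd : d ≠ 0 := by omega
  refine ⟨hd, h2, fun p hp hpd => (h3 p ((Nat.mem_primeFactorsList hd).2 ⟨hp, hpd⟩)).1, ?_⟩
  have h4 := list_prod_le (y := N ^ (2 * e)) (by positivity) d.primeFactorsList
    (fun p hp => (h3 p hp).2)
  rw [Nat.prod_primeFactorsList hd, h2, ← Real.rpow_natCast, ← Real.rpow_mul (by linarith)] at h4
  exact h4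

/-- the numerical hypotheses -/
structure Num (N c e : ℝ) : Prop where
  hN : 4 ≤ N
  hL : 1 < Real.log N
  h2 : 2 ≤ zz N c
  hz : zz N c ≤ N ^ e
  hz4 : zz N c ≤ N ^ ((1 : ℝ) / 4)
  hP : 2 * Real.log N ^ (2 * c) ≤ N ^ ((1 : ℝ) / 2)
  hW : 1 ≤ 2 * Real.log N * Wp (zz N c)

variable {N c e : ℝ} {r n : ℕ}

lemma long_ge (hc : 0 ≤ c) (he : 0 < e) (hr : 2 ≤ r) (her : e * r ≤ 1 / 8) (hh : Num N c e)
    (hn : N / 2 < n) {p d k : ℕ} (hp : p ∈ PPs N c) (hd : d ∈ DE N e (r - 2))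
    (hk : n = p * d * k) : N ^ ((1 : ℝ) / 4) ≤ k := by
  have hN := hh.hN
  have hN0 : 0 < N := by linarith
  have hN1 : 1 ≤ N := by linarith
  have h1 := (mem_PPs hc hh.hL.le hp).2
  have h3 := (mem_DE hN1 hd).2.2.2
  have hs : ((r - 2 : ℕ) : ℝ) = (r : ℝ) - 2 := by
    rw [Nat.cast_sub hr]
    norm_num
  rw [hs] at h3
  have h4 : (d : ℝ) ≤ N ^ ((1 : ℝ) / 4) := by
    refine h3.trans (Real.rpow_le_rpow_of_exponent_le hN1 ?_)
    have : 2 * e * ((r : ℝ) - 2) = 2 * (e * r) - 4 * e := by ring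
    rw [this]
    linarith
  by_contra hcon
  push Not at hcon
  have hl0 : 0 ≤ Real.log N ^ (2 * c) := Real.rpow_nonneg (by linarith [hh.hL]) _
  have h5 : (n : ℝ) ≤ Real.log N ^ (2 * c) * N ^ ((1 : ℝ) / 4) * N ^ ((1 : ℝ) / 4) := by
    have e1 : (n : ℝ) = p * d * k := by
      rw [hk]
      push_cast
      ring
    rw [e1]
    exact mul_le_mul (mul_le_mul h1 h4 (by positivity) hl0) hcon.le (Nat.cast_nonneg _)
      (mul_nonneg hl0 (by positivity))
  have h6 : N ^ ((1 : ℝ) / 2) * N ^ ((1 : ℝ) / 4) * N ^ ((1 : ℝ) / 4) = N := by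
    rw [← Real.rpow_add hN0, ← Real.rpow_add hN0]
    norm_num
  have h7 : 2 * (Real.log N ^ (2 * c) * N ^ ((1 : ℝ) / 4) * N ^ ((1 : ℝ) / 4)) ≤ N := by
    calc 2 * (Real.log N ^ (2 * c) * N ^ ((1 : ℝ) / 4) * N ^ ((1 : ℝ) / 4))
        = (2 * Real.log N ^ (2 * c)) * N ^ ((1 : ℝ) / 4) * N ^ ((1 : ℝ) / 4) := by ring
      _ ≤ N ^ ((1 : ℝ) / 2) * N ^ ((1 : ℝ) / 4) * N ^ ((1 : ℝ) / 4) := by
          refine mul_le_mul_of_nonneg_right (mul_le_mul_of_nonneg_right hh.hP ?_) ?_ <;> positivity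
      _ = N := h6
  linarith

/-- the hypotheses on the weight of the long variable -/
structure Wt (N c : ℝ) (w : ℕ → ℝ) : Prop where
  w0 : ∀ k, 0 ≤ w k
  w1 : ∀ k : ℕ, (k : ℝ) ≤ 4 * N → w k ≤ 1
  wr : ∀ k : ℕ, N ^ ((1 : ℝ) / 4) ≤ k → w k ≠ 0 → ∀ p : ℕ, p.Prime → p ∣ k → zz N c ≤ p

lemma p_eq (hc : 0 < c) (hh : Num N c e) {w : ℕ → ℝ} (hw : Wt N c w) {s : ℕ}
    {p d k : ℕ} (hp : p ∈ PPs N c) (hd : d ∈ DE N e s)
    (hk : n = p * d * k) (hk4 : N ^ ((1 : ℝ) / 4) ≤ k) (hwk : w k ≠ 0) : p = n.minFac := by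
  have hN := hh.hN
  have hN1 : 1 ≤ N := by linarith
  have hL := hh.hL
  obtain ⟨hpp, h1⟩ := mem_PPs hc.le hL.le hp
  obtain ⟨hd0, _, h3, _⟩ := mem_DE hN1 hd
  have hpn : p ∣ n := by
    rw [hk, mul_assoc]
    exact dvd_mul_right _ _
  have hn1 : n ≠ 1 := by
    intro h
    rw [h] at hpn
    exact hpp.one_lt.ne' (Nat.dvd_one.1 hpn)
  have hm := Nat.minFac_prime hn1
  have hmd := Nat.minFac_dvd n
  have hle : n.minFac ≤ p := Nat.minFac_le_of_dvd hpp.two_le hpn
  have hpz : (p : ℝ) < zz N c := by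
    refine h1.trans_lt ?_
    unfold zz
    exact Real.rpow_lt_rpow_of_exponent_lt hL (by linarith)
  by_contra hne
  have key : zz N c ≤ (n.minFac : ℝ) := by
    have hmd' : n.minFac ∣ p * d * k := by rw [← hk]; exact hmd
    rcases (Nat.Prime.dvd_mul hm).1 hmd' with h | h
    · rcases (Nat.Prime.dvd_mul hm).1 h with h | h
      · exact absurd ((Nat.prime_dvd_prime_iff_eq hm hpp).1 h).symm hne
      · exact hh.hz.trans (h3 _ hm h).le
    · exact hw.wr k hk4 hwk _ hm h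
  have : (n.minFac : ℝ) ≤ p := by exact_mod_cast hle
  linarith

/-- the main bound -/
lemma co2_le (hc : 0 < c) (he : 0 < e) (hr : 2 ≤ r) (her : e * r ≤ 1 / 8)
    (hh : Num N c e) {w : ℕ → ℝ} (hw : Wt N c w) (hn : N / 2 < n) (hn4 : (n : ℝ) ≤ 4 * N) :
    0 ≤ co2 N c e r w n ∧ co2 N c e r w n ≤ (2 / e) ^ r := by
  classical
  have hN := hh.hN
  have hN0 : 0 < N := by linarith
  have hN1 : 1 ≤ N := by linarith
  have hn0 : n ≠ 0 := by
    rintro rfl
    norm_num at hn
    linarith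
  have hn2 : (n : ℝ) ≤ N ^ (2 : ℝ) := by
    refine hn4.trans ?_
    have : N ^ (2 : ℝ) = N * N := by
      rw [show (2 : ℝ) = ((2 : ℕ) : ℝ) by norm_num, Real.rpow_natCast]
      ring
    rw [this]
    exact mul_le_mul_of_nonneg_right hN hN0.le
  have he1 : e ≤ 1 := by
    have hr2 : (2 : ℝ) ≤ r := by exact_mod_cast hr
    nlinarith
  set S : Finset ℕ := n.primeFactors.filter (fun p : ℕ => N ^ e < p) with hS
  set D : Finset ℕ := (DE N e (r - 2)).filter (fun d => d ∣ n) with hD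
  have hScard : (S.card : ℝ) ≤ 2 / e := card_large (n := n) (by linarith : 1 < N) he hn0 hn2
  have hDcard : D.card ≤ S.card ^ (r - 2) := by
    refine card_prod_le S (r - 2) D ?_
    intro d hd
    rw [hD, Finset.mem_filter] at hd
    obtain ⟨h1, h2, h3, _⟩ := mem_DE hN1 hd.1
    refine ⟨h1, h2, fun p hp hpd => ?_⟩
    rw [hS, Finset.mem_filter]
    exact ⟨Nat.mem_primeFactors.2 ⟨hp, hpd.trans hd.2, hn0⟩, h3 p hp hpd⟩
  have hterm : ∀ p ∈ PPs N c, ∀ d ∈ DE N e (r - 2),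
      (if p * d ∣ n then w (n / (p * d)) else 0) ≤
        (if p = n.minFac then 1 else 0) * (if d ∈ D then 1 else 0) := by
    intro p hp d hd
    have hnn : (0 : ℝ) ≤ (if p = n.minFac then 1 else 0) * (if d ∈ D then 1 else 0) := by
      refine mul_nonneg ?_ ?_ <;> split_ifs <;> norm_num
    by_cases h0 : p * d ∣ n
    · rw [if_pos h0]
      by_cases hw0 : w (n / (p * d)) = 0
      · rw [hw0]
        exact hnn
      · have hk : n = p * d * (n / (p * d)) := (Nat.mul_div_cancel' h0).symm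
        have hk4 := long_ge hc.le he hr her hh hn hp hd hk
        have e1 := p_eq hc hh hw hp hd hk hk4 hw0
        have e3 : d ∈ D := by
          rw [hD, Finset.mem_filter]
          exact ⟨hd, (Dvd.intro_left _ rfl : d ∣ p * d).trans h0⟩
        have e4 : ((n / (p * d) : ℕ) : ℝ) ≤ 4 * N := by
          refine le_trans ?_ hn4
          exact_mod_cast Nat.div_le_self _ _
        rw [if_pos e1, if_pos e3]
        simpa using hw.w1 _ e4
    · rw [if_neg h0]
      exact hnn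
  constructor
  · unfold co2
    refine Finset.sum_nonneg fun p _ => Finset.sum_nonneg fun d _ => ?_
    split_ifs
    · exact hw.w0 _
    · exact le_refl _
  · have h1 : co2 N c e r w n ≤ ∑ p ∈ PPs N c, ∑ d ∈ DE N e (r - 2),
        ((if p = n.minFac then (1 : ℝ) else 0) * (if d ∈ D then 1 else 0)) := by
      unfold co2
      exact Finset.sum_le_sum fun p hp => Finset.sum_le_sum fun d hd => hterm p hp d hd
    have h2 : ∑ p ∈ PPs N c, ∑ d ∈ DE N e (r - 2),
        ((if p = n.minFac then (1 : ℝ) else 0) * (if d ∈ D then 1 else 0)) =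
        (∑ p ∈ PPs N c, if p = n.minFac then (1 : ℝ) else 0) *
          ∑ d ∈ DE N e (r - 2), if d ∈ D then (1 : ℝ) else 0 := by
      rw [Finset.sum_mul]
      refine Finset.sum_congr rfl fun p _ => ?_
      rw [Finset.mul_sum]
    have h3 : (∑ p ∈ PPs N c, if p = n.minFac then (1 : ℝ) else 0) ≤ 1 := by
      rw [Finset.sum_ite_eq']
      split_ifs <;> norm_num
    have h5 : (∑ d ∈ DE N e (r - 2), if d ∈ D then (1 : ℝ) else 0) ≤ D.card := by
      rw [← Finset.sum_filter, Finset.sum_const, nsmul_eq_mul, mul_one]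
      exact_mod_cast Finset.card_le_card (fun q hq => (Finset.mem_filter.1 hq).2)
    have h50 : 0 ≤ (∑ d ∈ DE N e (r - 2), if d ∈ D then (1 : ℝ) else 0) :=
      Finset.sum_nonneg fun _ _ => by split_ifs <;> norm_num
    have h6 : (2 / e) ≥ 1 := by
      rw [ge_iff_le, le_div_iff₀ he]
      linarith
    calc co2 N c e r w n ≤ _ := h1
      _ = _ := h2
      _ ≤ 1 * (D.card : ℝ) := mul_le_mul h3 h5 h50 zero_le_one
      _ ≤ (S.card : ℝ) ^ (r - 2) := by
          rw [one_mul]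
          exact_mod_cast hDcard
      _ ≤ (2 / e) ^ (r - 2) := pow_le_pow_left₀ (Nat.cast_nonneg _) hScard _
      _ ≤ (2 / e) ^ r := pow_le_pow_right₀ h6 (by omega)

lemma wt_pL (hh : Num N c e) : Wt N c (pL N) where
  w0 := fun k => by
    unfold pL
    split_ifs
    · exact div_nonneg (Real.log_natCast_nonneg k) (by linarith [hh.hL])
    · exact le_refl _
  w1 := fun k hk => by
    have hN := hh.hN
    have hL := hh.hL
    unfold pL
    split_ifs with hkp
    · rw [div_le_one (by linarith)]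
      have hk0 : (0 : ℝ) < k := by exact_mod_cast hkp.pos
      have h1 : (k : ℝ) ≤ N * N := hk.trans (mul_le_mul_of_nonneg_right hN (by linarith))
      have h2 := Real.log_le_log hk0 h1
      rw [Real.log_mul (by linarith) (by linarith)] at h2
      linarith
    · norm_num
  wr := fun k hk hw p hp hpk => by
    have hkp : k.Prime := by
      by_contra h
      exact hw (by unfold pL; rw [if_neg h])
    rw [(Nat.prime_dvd_prime_iff_eq hp hkp).1 hpk]
    exact hh.hz4.trans hk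

lemma wt_w1 (hh : Num N c e) : Wt N c (w1 N c) where
  w0 := fun k => by
    unfold w1 rInd
    refine div_nonneg (by split_ifs <;> norm_num) (mul_nonneg ?_ (Wp_nonneg _))
    linarith [hh.hL]
  w1 := fun k _ => by
    have h3 : rInd (zz N c) k ≤ 1 := by
      unfold rInd
      split_ifs <;> norm_num
    unfold w1
    rw [div_le_one (by linarith [hh.hW])]
    linarith [hh.hW]
  wr := fun k _ hw p hp hpk => by
    have hR : Rough (zz N c) k := by
      by_contra h
      exact hw (by unfold w1 rInd; rw [if_neg h, zero_div])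
    exact hR p hp hpk

lemma f2_card (hh : 1 ≤ N) (hr : 2 ≤ r) (hc : 0 ≤ c) (hL : 1 ≤ Real.log N)
    (h : f2 N c e r n ≠ 0) : n.primeFactorsList.length = r := by
  unfold f2 co2 at h
  obtain ⟨p, hp, h⟩ := Finset.exists_ne_zero_of_sum_ne_zero h
  obtain ⟨d, hd, h⟩ := Finset.exists_ne_zero_of_sum_ne_zero h
  have h0 : p * d ∣ n := by
    by_contra hcon
    exact h (if_neg hcon)
  rw [if_pos h0] at h
  set k := n / (p * d) with hk
  have hn : n = p * d * k := (Nat.mul_div_cancel' h0).symm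
  have hkp : k.Prime := by
    by_contra h'
    exact h (by unfold pL; rw [if_neg h'])
  have hpp := (mem_PPs hc hL hp).1
  obtain ⟨hd0, hds, _⟩ := mem_DE hh hd
  have e1 : ArithmeticFunction.cardFactors n = r := by
    rw [hn, ArithmeticFunction.cardFactors_mul (mul_ne_zero hpp.ne_zero hd0)
      hkp.ne_zero, ArithmeticFunction.cardFactors_mul hpp.ne_zero hd0,
      ArithmeticFunction.cardFactors_apply_prime hpp,
      ArithmeticFunction.cardFactors_apply_prime hkp, ArithmeticFunction.cardFactors_apply, hds]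
    omega
  rw [ArithmeticFunction.cardFactors_apply] at e1
  exact e1

lemma eventually_num (hc : 0 < c) (he : 0 < e) : ∀ᶠ N : ℝ in atTop, Num N c e := by
  have a := FRBM.eventually_num (c := c) (e := e) hc he
  have b : ∀ s t : ℝ, 0 < t → ∀ᶠ N : ℝ in atTop, 2 * Real.log N ^ s ≤ N ^ t := by
    intro s t ht
    have h := (isLittleO_log_rpow_rpow_atTop s ht).bound (show (0 : ℝ) < 1 / 2 by norm_num)
    filter_upwards [h, a] with N hN hh
    rw [Real.norm_of_nonneg (Real.rpow_nonneg (by linarith [hh.hL]) _),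
      Real.norm_of_nonneg (Real.rpow_nonneg (by linarith [hh.hN]) _)] at hN
    linarith
  filter_upwards [a, b (2 * c) (1 / 2) (by norm_num)] with N h1 h2
  have hN := h1.hN
  refine ⟨h1.hN, h1.hL, h1.h2, h1.hz.trans ?_, h1.hz4, h2, ?_⟩
  · exact Real.rpow_le_rpow_of_exponent_le (by linarith) (by linarith)
  · have h3 := h1.hW
    have h4 := mul_nonneg (Wp_nonneg (zz N c)) (show (0 : ℝ) ≤ Real.log N by linarith [h1.hL])
    linarith [mul_div_assoc (Wp (zz N c)) (Real.log N) 4, mul_comm (2 * Real.log N) (Wp (zz N c)),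
      mul_left_comm (Wp (zz N c)) 2 (Real.log N)]

end FR2M

open FR2M in
theorem specFR2 : SpecFR2 := by
  intro e r he hr her
  have he1 : e ≤ 1 := by
    have hr2 : (2 : ℝ) ≤ r := by exact_mod_cast hr
    nlinarith
  have h6 : 1 ≤ 2 / e := by
    rw [le_div_iff₀ he]
    linarith
  refine ⟨(2 / e) ^ r, one_le_pow₀ h6, fun c hc => ?_⟩
  obtain ⟨N₀, hN₀⟩ := Filter.eventually_atTop.1 (eventually_num (c := c) (e := e) (by linarith) he)
  refine ⟨N₀, fun N n hN hn hn4 => ?_⟩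
  have hh := hN₀ N hN
  have hc0 : 0 < c := by linarith
  obtain ⟨f1, f2⟩ := co2_le hc0 he hr her hh (wt_pL hh) hn hn4
  obtain ⟨g1, g2⟩ := co2_le hc0 he hr her hh (wt_w1 hh) hn hn4
  exact ⟨f1, f2, g1, g2, f2_card (by linarith [hh.hN]) hr hc0.le hh.hL.le⟩

end

end Pool.Agent.Lib.MP3efbeb.LG
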