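import Pool.Agent.Lib.MP_3efbeb_nt.LG.SpecA

/-!
# Module HMI of LongPatterns (MP_3efbeb_nt): the inequality of Halász and Montgomery for integrals
-/

set_option autoImplicit false

namespace Pool.Agent.Lib.MP3efbeb.LG

open Finset MeasureTheory

namespace HMIM

theorem nit_norm (n : ℕ) (t : ℝ) : ‖nit n t‖ = 1 := by
  unfold nit
  exact Complex.norm_exp_ofReal_mul_I _

theorem nit_conj (n : ℕ) (t : ℝ) : (starRingEnd ℂ) (nit n t) = nit n (-t) := by
  unfold nit
  rw [← Complex.exp_conj, map_mul, Complex.conj_ofReal, Complex.conj_I]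
  congr 1
  push_cast
  ring

theorem nit_add (n : ℕ) (t s : ℝ) : nit n t * nit n s = nit n (t + s) := by
  unfold nit
  rw [← Complex.exp_add]
  congr 1
  push_cast
  ring

theorem nit_cont (n : ℕ) : Continuous (nit n) := by
  unfold nit
  fun_prop

theorem DP_cont (S : Finset ℕ) (a : ℕ → ℂ) : Continuous (DP S a) := by
  unfold DP
  exact continuous_finsetSum _ fun n _ => continuous_const.mul (nit_cont n)

theorem DP_bound (S : Finset ℕ) (a : ℕ → ℂ) (t : ℝ) : ‖DP S a t‖ ≤ ∑ n ∈ S, ‖a n‖ := by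
  unfold DP
  refine (norm_sum_le _ _).trans (sum_le_sum fun n _ => ?_)
  rw [norm_mul, nit_norm, mul_one]

theorem D_even (S : Finset ℕ) (u : ℝ) :
    ‖DP S (fun _ => 1) (-u)‖ = ‖DP S (fun _ => 1) u‖ := by
  have h : DP S (fun _ => 1) (-u) = (starRingEnd ℂ) (DP S (fun _ => 1) u) := by
    unfold DP
    rw [map_sum]
    refine sum_congr rfl fun n _ => ?_
    rw [map_mul, nit_conj, map_one]
  rw [h, Complex.norm_conj]

/-- the real quadratic inequality -/
theorem real_part (μ : Measure ℝ) [IsFiniteMeasure μ] (k d : ℝ → ℝ) (hk : Continuous k)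
    (hd : Continuous d) (hk0 : ∀ t, 0 ≤ k t) (hd0 : ∀ t, 0 ≤ d t) (A B : ℝ) (hkA : ∀ t, k t ≤ A)
    (hdB : ∀ t, d t ≤ B) (hev : ∀ t, d (-t) = d t) (M : ℝ)
    (hM : ∀ᵐ t ∂μ, ∫ t', d (t - t') ∂μ ≤ M) :
    ∫ t, k t * ∫ t', k t' * d (t - t') ∂μ ∂μ ≤ M * ∫ t, k t ^ 2 ∂μ := by
  have hA0 : 0 ≤ A := (hk0 0).trans (hkA 0)
  have hB0 : 0 ≤ B := (hd0 0).trans (hdB 0)
  have i0 : Integrable (fun z : ℝ × ℝ => k z.1 * (k z.2 * d (z.1 - z.2))) (μ.prod μ) := by
    refine Integrable.of_bound (C := A * (A * B)) ?_ ?_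
    · exact Continuous.aestronglyMeasurable (by fun_prop)
    · refine Filter.Eventually.of_forall fun z => ?_
      have h1 : 0 ≤ k z.1 * (k z.2 * d (z.1 - z.2)) := mul_nonneg (hk0 _) (mul_nonneg (hk0 _) (hd0 _))
      rw [Real.norm_eq_abs, abs_of_nonneg h1]
      exact mul_le_mul (hkA _) (mul_le_mul (hkA _) (hdB _) (hd0 _) hA0)
        (mul_nonneg (hk0 _) (hd0 _)) hA0
  have i1 : Integrable (fun z : ℝ × ℝ => k z.1 ^ 2 * d (z.1 - z.2)) (μ.prod μ) := by
    refine Integrable.of_bound (C := A ^ 2 * B) ?_ ?_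
    · exact Continuous.aestronglyMeasurable (by fun_prop)
    · refine Filter.Eventually.of_forall fun z => ?_
      have h1 : 0 ≤ k z.1 ^ 2 * d (z.1 - z.2) := mul_nonneg (sq_nonneg _) (hd0 _)
      rw [Real.norm_eq_abs, abs_of_nonneg h1]
      exact mul_le_mul (pow_le_pow_left₀ (hk0 _) (hkA _) 2) (hdB _) (hd0 _) (sq_nonneg _)
  have i2 : Integrable (fun z : ℝ × ℝ => k z.2 ^ 2 * d (z.1 - z.2)) (μ.prod μ) := by
    refine Integrable.of_bound (C := A ^ 2 * B) ?_ ?_
    · exact Continuous.aestronglyMeasurable (by fun_prop)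
    · refine Filter.Eventually.of_forall fun z => ?_
      have h1 : 0 ≤ k z.2 ^ 2 * d (z.1 - z.2) := mul_nonneg (sq_nonneg _) (hd0 _)
      rw [Real.norm_eq_abs, abs_of_nonneg h1]
      exact mul_le_mul (pow_le_pow_left₀ (hk0 _) (hkA _) 2) (hdB _) (hd0 _) (sq_nonneg _)
  have ik : Integrable (fun t => M * k t ^ 2) μ := by
    refine Integrable.of_bound (C := |M| * A ^ 2) ?_ ?_
    · exact Continuous.aestronglyMeasurable (by fun_prop)
    · refine Filter.Eventually.of_forall fun t => ?_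
      rw [norm_mul, Real.norm_eq_abs, Real.norm_eq_abs, abs_of_nonneg (sq_nonneg (k t))]
      exact mul_le_mul_of_nonneg_left (pow_le_pow_left₀ (hk0 _) (hkA _) 2) (abs_nonneg _)
  have e0 : ∫ t, k t * ∫ t', k t' * d (t - t') ∂μ ∂μ =
      ∫ z, k z.1 * (k z.2 * d (z.1 - z.2)) ∂(μ.prod μ) := by
    rw [integral_prod _ i0]
    refine integral_congr_ae (Filter.Eventually.of_forall fun t => ?_)
    simp only
    rw [integral_const_mul]
  have e1 : ∫ z, k z.1 ^ 2 * d (z.1 - z.2) ∂(μ.prod μ) ≤ M * ∫ t, k t ^ 2 ∂μ := by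
    rw [integral_prod _ i1, ← integral_const_mul]
    refine integral_mono_ae i1.integral_prod_left ik ?_
    filter_upwards [hM] with t ht
    rw [integral_const_mul]
    calc k t ^ 2 * ∫ t', d (t - t') ∂μ ≤ k t ^ 2 * M := mul_le_mul_of_nonneg_left ht (sq_nonneg _)
      _ = M * k t ^ 2 := mul_comm _ _
  have e2 : ∫ z, k z.2 ^ 2 * d (z.1 - z.2) ∂(μ.prod μ) ≤ M * ∫ t, k t ^ 2 ∂μ := by
    rw [integral_prod_symm _ i2, ← integral_const_mul]
    refine integral_mono_ae i2.integral_prod_right ik ?_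
    filter_upwards [hM] with t ht
    rw [integral_const_mul]
    have h3 : ∫ x, d (x - t) ∂μ = ∫ x, d (t - x) ∂μ := by
      refine integral_congr_ae (Filter.Eventually.of_forall fun x => ?_)
      simp only
      rw [← hev, neg_sub]
    rw [h3]
    calc k t ^ 2 * ∫ t', d (t - t') ∂μ ≤ k t ^ 2 * M := mul_le_mul_of_nonneg_left ht (sq_nonneg _)
      _ = M * k t ^ 2 := mul_comm _ _
  rw [e0]
  have h4 : ∫ z, k z.1 * (k z.2 * d (z.1 - z.2)) ∂(μ.prod μ) ≤
      ∫ z, (k z.1 ^ 2 * d (z.1 - z.2) + k z.2 ^ 2 * d (z.1 - z.2)) / 2 ∂(μ.prod μ) := by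
    refine integral_mono i0 ((i1.add i2).div_const 2) fun z => ?_
    simp only
    have h5 : k z.1 * k z.2 ≤ (k z.1 ^ 2 + k z.2 ^ 2) / 2 := by
      nlinarith [sq_nonneg (k z.1 - k z.2)]
    nlinarith [mul_le_mul_of_nonneg_right h5 (hd0 (z.1 - z.2))]
  have h6 : ∫ z, (k z.1 ^ 2 * d (z.1 - z.2) + k z.2 ^ 2 * d (z.1 - z.2)) / 2 ∂(μ.prod μ) =
      (∫ z, k z.1 ^ 2 * d (z.1 - z.2) ∂(μ.prod μ) + ∫ z, k z.2 ^ 2 * d (z.1 - z.2) ∂(μ.prod μ)) / 2 := by
    rw [integral_div, integral_add i1 i2]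
  rw [h6] at h4
  linarith

end HMIM

open HMIM in
theorem specHMI : SpecHMI := by
  intro S a E T M hE hET hM0 hM
  have : IsFiniteMeasure (volume.restrict E) := ⟨by
    rw [Measure.restrict_apply_univ]
    exact lt_of_le_of_lt (measure_mono hET) (by rw [Real.volume_Icc]; exact ENNReal.ofReal_lt_top)⟩
  set μ : Measure ℝ := volume.restrict E with hμ
  set K : ℝ → ℂ := DP S a with hK
  set D : ℝ → ℂ := DP S (fun _ => 1) with hD
  have hKc : Continuous K := DP_cont S a
  have hDc : Continuous D := DP_cont S _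
  have hKb : ∀ t, ‖K t‖ ≤ ∑ n ∈ S, ‖a n‖ := DP_bound S a
  set KA : ℝ := ∑ n ∈ S, ‖a n‖ with hKA
  have iK : ∀ n : ℕ, Integrable (fun t => nit n (-t) * K t) μ := by
    intro n
    refine Integrable.of_bound (C := KA) ?_ ?_
    · exact (((nit_cont n).comp continuous_neg).mul hKc).aestronglyMeasurable
    · refine Filter.Eventually.of_forall fun t => ?_
      rw [norm_mul, nit_norm, one_mul]
      exact hKb t
  have iK' : ∀ n : ℕ, Integrable (fun t => nit n t * (starRingEnd ℂ) (K t)) μ := by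
    intro n
    refine Integrable.of_bound (C := KA) ?_ ?_
    · exact ((nit_cont n).mul (Complex.continuous_conj.comp hKc)).aestronglyMeasurable
    · refine Filter.Eventually.of_forall fun t => ?_
      rw [norm_mul, nit_norm, one_mul, Complex.norm_conj]
      exact hKb t
  set v : ℕ → ℂ := fun n => ∫ t, nit n (-t) * K t ∂μ with hv
  set I : ℝ := ∫ t, ‖K t‖ ^ 2 ∂μ with hI
  have hI0 : 0 ≤ I := integral_nonneg fun t => sq_nonneg _
  -- (1)
  have h1 : (I : ℂ) = ∑ n ∈ S, (starRingEnd ℂ) (a n) * v n := by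
    have h00 : (I : ℂ) = ∫ t, ((‖K t‖ ^ 2 : ℝ) : ℂ) ∂μ := integral_ofReal.symm
    rw [h00]
    have h2 : ∀ t, ((‖K t‖ ^ 2 : ℝ) : ℂ) = ∑ n ∈ S, (starRingEnd ℂ) (a n) * (nit n (-t) * K t) := by
      intro t
      have h3 : ((‖K t‖ ^ 2 : ℝ) : ℂ) = (starRingEnd ℂ) (K t) * K t := by
        rw [← Complex.normSq_eq_conj_mul_self, Complex.normSq_eq_norm_sq]
      rw [h3]
      have h4 : (starRingEnd ℂ) (K t) = ∑ n ∈ S, (starRingEnd ℂ) (a n) * nit n (-t) := by
        rw [hK]
        unfold DP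
        rw [map_sum]
        refine sum_congr rfl fun n _ => ?_
        rw [map_mul, nit_conj]
      rw [h4, sum_mul]
      refine sum_congr rfl fun n _ => ?_
      ring
    rw [integral_congr_ae (Filter.Eventually.of_forall h2), integral_finsetSum]
    · refine sum_congr rfl fun n _ => ?_
      rw [integral_const_mul]
    · intro n _
      exact (iK n).const_mul _
  have h5 : I ≤ ∑ n ∈ S, ‖a n‖ * ‖v n‖ := by
    have : ‖(I : ℂ)‖ ≤ ∑ n ∈ S, ‖a n‖ * ‖v n‖ := by
      rw [h1]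
      refine (norm_sum_le _ _).trans (le_of_eq (sum_congr rfl fun n _ => ?_))
      rw [norm_mul, Complex.norm_conj]
    rwa [Complex.norm_real, Real.norm_eq_abs, abs_of_nonneg hI0] at this
  have h6 : I ^ 2 ≤ (∑ n ∈ S, ‖a n‖ ^ 2) * ∑ n ∈ S, ‖v n‖ ^ 2 := by
    calc I ^ 2 ≤ (∑ n ∈ S, ‖a n‖ * ‖v n‖) ^ 2 := pow_le_pow_left₀ hI0 h5 2
      _ ≤ _ := sum_mul_sq_le_sq_mul_sq _ _ _
  -- (2)
  have h7 : ∀ n, (starRingEnd ℂ) (v n) = ∫ t, nit n t * (starRingEnd ℂ) (K t) ∂μ := by
    intro n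
    rw [hv]
    simp only
    rw [← integral_conj]
    refine integral_congr_ae (Filter.Eventually.of_forall fun t => ?_)
    simp only
    rw [map_mul, nit_conj, neg_neg]
  have h8 : ((∑ n ∈ S, ‖v n‖ ^ 2 : ℝ) : ℂ) =
      ∫ t, K t * ∫ t', (starRingEnd ℂ) (K t') * D (t' - t) ∂μ ∂μ := by
    have h9 : ∀ t, ∫ t', (starRingEnd ℂ) (K t') * D (t' - t) ∂μ =
        ∑ n ∈ S, (starRingEnd ℂ) (v n) * nit n (-t) := by
      intro t
      have h10 : ∀ t', (starRingEnd ℂ) (K t') * D (t' - t) =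
          ∑ n ∈ S, nit n (-t) * (nit n t' * (starRingEnd ℂ) (K t')) := by
        intro t'
        rw [hD]
        unfold DP
        rw [mul_sum]
        refine sum_congr rfl fun n _ => ?_
        rw [one_mul, sub_eq_add_neg, ← nit_add]
        ring
      rw [integral_congr_ae (Filter.Eventually.of_forall h10), integral_finsetSum]
      · refine sum_congr rfl fun n _ => ?_
        rw [integral_const_mul, h7]
        ring
      · intro n _
        exact (iK' n).const_mul _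
    have h11 : ∀ t, K t * ∫ t', (starRingEnd ℂ) (K t') * D (t' - t) ∂μ =
        ∑ n ∈ S, (starRingEnd ℂ) (v n) * (nit n (-t) * K t) := by
      intro t
      rw [h9, mul_sum]
      refine sum_congr rfl fun n _ => ?_
      ring
    rw [integral_congr_ae (Filter.Eventually.of_forall h11), integral_finsetSum]
    · rw [Complex.ofReal_sum]
      refine sum_congr rfl fun n _ => ?_
      rw [integral_const_mul]
      show _ = (starRingEnd ℂ) (v n) * v n
      rw [← Complex.normSq_eq_conj_mul_self, Complex.normSq_eq_norm_sq]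
    · intro n _
      exact (iK n).const_mul _
  -- (3)
  have h12 : ∑ n ∈ S, ‖v n‖ ^ 2 ≤ ∫ t, ‖K t‖ * ∫ t', ‖K t'‖ * ‖D (t - t')‖ ∂μ ∂μ := by
    have h13 : ∑ n ∈ S, ‖v n‖ ^ 2 = ‖((∑ n ∈ S, ‖v n‖ ^ 2 : ℝ) : ℂ)‖ := by
      rw [Complex.norm_real, Real.norm_eq_abs, abs_of_nonneg (sum_nonneg fun n _ => sq_nonneg _)]
    rw [h13, h8]
    refine (norm_integral_le_integral_norm _).trans ?_
    have hDb : ∀ t, ‖D t‖ ≤ ∑ n ∈ S, ‖(1 : ℂ)‖ := DP_bound S (fun _ => 1)
    set DB : ℝ := ∑ n ∈ S, ‖(1 : ℂ)‖ with hDB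
    have hKA0 : 0 ≤ KA := sum_nonneg fun n _ => norm_nonneg _
    have hDB0 : 0 ≤ DB := sum_nonneg fun n _ => norm_nonneg _
    have j0 : Integrable (fun z : ℝ × ℝ => ‖K z.1‖ * (‖K z.2‖ * ‖D (z.1 - z.2)‖)) (μ.prod μ) := by
      refine Integrable.of_bound (C := KA * (KA * DB)) ?_ ?_
      · exact Continuous.aestronglyMeasurable (by fun_prop)
      · refine Filter.Eventually.of_forall fun z => ?_
        rw [Real.norm_eq_abs, abs_of_nonneg (by positivity)]
        exact mul_le_mul (hKb _) (mul_le_mul (hKb _) (hDb _) (norm_nonneg _) hKA0)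
          (by positivity) hKA0
    have j1 : Integrable (fun z : ℝ × ℝ => K z.1 * ((starRingEnd ℂ) (K z.2) * D (z.2 - z.1)))
        (μ.prod μ) := by
      refine Integrable.of_bound (C := KA * (KA * DB)) ?_ ?_
      · have : Continuous (fun z : ℝ × ℝ => (starRingEnd ℂ) (K z.2)) :=
          Complex.continuous_conj.comp (hKc.comp continuous_snd)
        exact Continuous.aestronglyMeasurable (by fun_prop)
      · refine Filter.Eventually.of_forall fun z => ?_
        rw [norm_mul, norm_mul, Complex.norm_conj]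
        exact mul_le_mul (hKb _) (mul_le_mul (hKb _) (hDb _) (norm_nonneg _) hKA0)
          (by positivity) hKA0
    have j2 := j0.integral_prod_left
    have j3 := j1.integral_prod_left
    refine integral_mono_ae ?_ ?_ (Filter.Eventually.of_forall fun t => ?_)
    · refine (j3.norm).congr (Filter.Eventually.of_forall fun t => ?_)
      simp only
      rw [integral_const_mul]
    · refine j2.congr (Filter.Eventually.of_forall fun t => ?_)
      simp only
      rw [integral_const_mul]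
    · simp only
      rw [norm_mul]
      refine mul_le_mul_of_nonneg_left ?_ (norm_nonneg _)
      refine (norm_integral_le_integral_norm _).trans (le_of_eq ?_)
      refine integral_congr_ae (Filter.Eventually.of_forall fun t' => ?_)
      simp only
      rw [norm_mul, Complex.norm_conj]
      congr 1
      rw [hD, ← D_even, neg_sub]
  have h14 := real_part μ (fun t => ‖K t‖) (fun t => ‖D t‖) hKc.norm hDc.norm
    (fun t => norm_nonneg _) (fun t => norm_nonneg _) KA (∑ n ∈ S, ‖(1 : ℂ)‖) hKb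
    (DP_bound S (fun _ => 1)) (fun t => D_even S t) M (by
      rw [hμ, ae_restrict_iff' hE]
      exact Filter.Eventually.of_forall fun t ht => hM t ht)
  have h15 : I ^ 2 ≤ (∑ n ∈ S, ‖a n‖ ^ 2) * (M * I) :=
    h6.trans (mul_le_mul_of_nonneg_left (h12.trans h14) (sum_nonneg fun n _ => sq_nonneg _))
  have hA0 : 0 ≤ ∑ n ∈ S, ‖a n‖ ^ 2 := sum_nonneg fun n _ => sq_nonneg _
  show I ≤ M * ∑ n ∈ S, ‖a n‖ ^ 2
  rcases hI0.eq_or_lt with h0 | hpos
  · rw [← h0]; positivity
  · nlinarith [h15]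

end Pool.Agent.Lib.MP3efbeb.LG
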