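import Pool.Agent.Lib.MP_3efbeb_nt.LG.SpecB
import Pool.Agent.Lib.VK.Main
import Pool.Agent.Lib.LP2.PNE
import Pool.Agent.Lib.BVS.Main

/-!
# LongPatterns: the three classical inputs
-/

set_option autoImplicit false

namespace Pool.Agent.Lib.MP3efbeb.LG

/-- pointwise bound for sums over primes -/
theorem inPPB : SpecPPB := Pool.Agent.Lib.VK.ppb

/-- prime number theorem with error -/
theorem inPNE : SpecPNE := Pool.Agent.Lib.LP2.specPNE Pool.Agent.Lib.VK.pnp

/-- Bombieri-Vinogradov at a small level -/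
theorem inBVS : SpecBVS := Pool.Agent.Lib.BVS.bvs

end Pool.Agent.Lib.MP3efbeb.LG
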