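import Pool.Agent.Lib.MP_3efbeb_nt.LG.SpecA

/-!
# LG, module LVP: the measure of the large values
-/

set_option autoImplicit false

namespace Pool.Agent.Lib.MP3efbeb.LG

open Finset MeasureTheory

noncomputable section

namespace LVPM

lemma nit_prod {l : ℕ} (f : Fin l → ℕ) (hf : ∀ i, 1 ≤ f i) (t : ℝ) :
    nit (∏ i, f i) t = ∏ i, nit (f i) t := by
  unfold nit
  rw [← Complex.exp_sum]
  congr 1
  rw [← Finset.sum_mul]
  congr 1
  rw [← Complex.ofReal_sum]
  congr 1
  rw [← Finset.mul_sum]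
  congr 1
  push_cast
  rw [Real.log_prod]
  intro i _
  have := hf i
  positivity

/-- the tuples -/
def Fu (S : Finset ℕ) (l : ℕ) : Finset (Fin l → ℕ) := Fintype.piFinset (fun _ : Fin l => S)

/-- the product -/
def pr {l : ℕ} (f : Fin l → ℕ) : ℕ := ∏ i, f i

/-- the coefficients of the power -/
def be (S : Finset ℕ) (b : ℕ → ℂ) (l n : ℕ) : ℂ := ∑ f ∈ (Fu S l).filter (fun f => pr f = n), ∏ i, b (f i)

lemma pow_eq (S : Finset ℕ) (hS : ∀ p ∈ S, 1 ≤ p) (b : ℕ → ℂ) (l : ℕ) (t : ℝ) :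
    DP S b t ^ l = DP ((Fu S l).image pr) (be S b l) t := by
  have h1 : DP S b t ^ l = ∑ f ∈ Fu S l, ∏ i, (b (f i) * nit (f i) t) := by
    have := Finset.prod_univ_sum (fun _ : Fin l => S) (fun _ p => b p * nit p t)
    rw [Finset.prod_const, Finset.card_fin] at this
    exact this
  rw [h1]
  have h2 : ∀ f ∈ Fu S l, ∏ i, (b (f i) * nit (f i) t) = (∏ i, b (f i)) * nit (pr f) t := by
    intro f hf
    rw [Fu, Fintype.mem_piFinset] at hf
    rw [Finset.prod_mul_distrib, pr, nit_prod f (fun i => hS _ (hf i))]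
  rw [Finset.sum_congr rfl h2,
    ← Finset.sum_fiberwise_of_maps_to (t := (Fu S l).image pr) (g := pr)
      (fun f hf => Finset.mem_image_of_mem _ hf)]
  unfold DP be
  refine Finset.sum_congr rfl (fun n _ => ?_)
  rw [Finset.sum_mul]
  refine Finset.sum_congr rfl (fun f hf => ?_)
  rw [(Finset.mem_filter.1 hf).2]

lemma card_fib (S : Finset ℕ) (hS : ∀ p ∈ S, Nat.Prime p) (l n : ℕ) :
    ((Fu S l).filter (fun f => pr f = n)).card ≤ l.factorial := by
  have key : ∀ f ∈ (Fu S l).filter (fun f => pr f = n), (List.ofFn f).Perm n.primeFactorsList := by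
    intro f hf
    rw [Finset.mem_filter, Fu, Fintype.mem_piFinset] at hf
    refine Nat.primeFactorsList_unique ?_ ?_
    · rw [List.prod_ofFn]; exact hf.2
    · intro p hp
      rw [List.mem_ofFn] at hp
      obtain ⟨i, rfl⟩ := hp
      exact hS _ (hf.1 i)
  rcases ((Fu S l).filter (fun f => pr f = n)).eq_empty_or_nonempty with h | ⟨f0, hf0⟩
  · rw [h]; simp
  · have len : n.primeFactorsList.length = l := by
      rw [← (key f0 hf0).length_eq, List.length_ofFn]
    have h1 : ((Fu S l).filter (fun f => pr f = n)).card ≤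
        (n.primeFactorsList.permutations.toFinset).card := by
      refine Finset.card_le_card_of_injOn (fun f => List.ofFn f) (fun f hf => ?_)
        (List.ofFn_injective.injOn)
      have := key f hf
      simp only [Finset.mem_coe, List.mem_toFinset, List.mem_permutations]
      exact this
    refine h1.trans ((List.toFinset_card_le _).trans ?_)
    rw [List.length_permutations, len]

lemma sum_be (S : Finset ℕ) (hS : ∀ p ∈ S, Nat.Prime p) (b : ℕ → ℂ) (hb : ∀ p, ‖b p‖ ≤ 1) (l : ℕ) :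
    ∑ n ∈ (Fu S l).image pr, ‖be S b l n‖ ^ 2 ≤ (l.factorial : ℝ) * (S.card : ℝ) ^ l := by
  have h1 : ∀ n, ‖be S b l n‖ ≤ (((Fu S l).filter (fun f => pr f = n)).card : ℝ) := by
    intro n
    unfold be
    refine (norm_sum_le _ _).trans ?_
    rw [← nsmul_one, ← Finset.sum_const]
    refine Finset.sum_le_sum (fun f _ => ?_)
    rw [norm_prod]
    exact Finset.prod_le_one (fun i _ => norm_nonneg _) (fun i _ => hb _)
  have h2 : ∀ n, ‖be S b l n‖ ^ 2 ≤ (l.factorial : ℝ) *
      (((Fu S l).filter (fun f => pr f = n)).card : ℝ) := by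
    intro n
    have h3 : (((Fu S l).filter (fun f => pr f = n)).card : ℝ) ≤ (l.factorial : ℝ) := by
      exact_mod_cast card_fib S hS l n
    rw [sq]
    exact mul_le_mul ((h1 n).trans h3) (h1 n) (norm_nonneg _) (by positivity)
  refine (Finset.sum_le_sum (fun n _ => h2 n)).trans (le_of_eq ?_)
  rw [← Finset.mul_sum]
  congr 1
  rw [← Nat.cast_sum, ← Finset.card_eq_sum_card_image pr (Fu S l), Fu, Fintype.card_piFinset]
  simp

lemma mem_PR {A : ℝ} (hA : 0 ≤ A) {p : ℕ} (hp : p ∈ PR A) : Nat.Prime p ∧ (p : ℝ) ≤ 2 * A := by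
  unfold PR IO at hp
  rw [Finset.mem_filter, Finset.mem_Ioc] at hp
  exact ⟨hp.2, (Nat.le_floor_iff (by linarith)).1 hp.1.2⟩

lemma card_PR {A : ℝ} (hA : 0 ≤ A) : ((PR A).card : ℝ) ≤ 2 * A := by
  have h1 : (PR A).card ≤ ⌊2 * A⌋₊ := by
    unfold PR IO
    refine (Finset.card_filter_le _ _).trans ?_
    rw [Nat.card_Ioc]
    omega
  exact (Nat.le_floor_iff (by linarith)).1 h1

lemma DP_cont (S : Finset ℕ) (b : ℕ → ℂ) : Continuous (fun t : ℝ => DP S b t) := by
  unfold DP nit
  fun_prop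

end LVPM

open LVPM in
theorem specLVP (hMVT : SpecMVT) : SpecLVP := by
  obtain ⟨C, hC, hM⟩ := hMVT
  -- the size of `N`
  have hev : ∀ᶠ L : ℝ in Filter.atTop, 10 ≤ L ∧ 1 ≤ Real.log L ∧
      Real.log (2 * C) + 2 * Real.log L ≤ 4 / 100 * L := by
    have h1 : ∀ᶠ L : ℝ in Filter.atTop, Real.log L ≤ 1 / 100 * L := by
      have := Real.isLittleO_log_id_atTop.def (by norm_num : (0 : ℝ) < 1 / 100)
      filter_upwards [this, Filter.eventually_ge_atTop (1 : ℝ)] with L hL h1
      rw [Real.norm_eq_abs, Real.norm_eq_abs, id, abs_of_nonneg (Real.log_nonneg h1),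
        abs_of_nonneg (by linarith)] at hL
      exact hL
    filter_upwards [h1, Filter.eventually_ge_atTop (10 : ℝ),
      Real.tendsto_log_atTop.eventually_ge_atTop (1 : ℝ),
      Filter.eventually_ge_atTop (100 * Real.log (2 * C))] with L h1 h2 h3 h4
    exact ⟨h2, h3, by linarith⟩
  obtain ⟨N₀, hN₀⟩ := Filter.eventually_atTop.1 (Real.tendsto_log_atTop.eventually hev)
  refine ⟨max N₀ 1, fun N c A T b hN hc hAc hAN hT hTN hb => ?_⟩
  obtain ⟨hL10, hLL, hLC⟩ := hN₀ N ((le_max_left _ _).trans hN)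
  have hN1 : 1 ≤ N := (le_max_right _ _).trans hN
  set L := Real.log N with hL
  have hLpos : 0 < L := by linarith
  -- `x = log A`
  have hApos : 0 < A := lt_of_lt_of_le (Real.rpow_pos_of_pos hLpos c) hAc
  set x := Real.log A with hx
  have hx1 : 64 * Real.log L ≤ x := by
    have h1 : c * Real.log L ≤ x := by
      rw [hx, ← Real.log_rpow hLpos]
      exact Real.log_le_log (Real.rpow_pos_of_pos hLpos c) hAc
    have h2 : 64 * Real.log L ≤ c * Real.log L := mul_le_mul_of_nonneg_right hc (by linarith)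
    linarith
  have hxpos : 0 < x := by linarith
  have hxL : x ≤ L := Real.log_le_log hApos hAN
  have hTpos : 0 < T := by linarith
  have hT0 : 0 ≤ Real.log T := Real.log_nonneg hT
  have hTL : Real.log T ≤ L := Real.log_le_log hTpos hTN
  have hAexp : A = Real.exp x := (Real.exp_log hApos).symm
  have hA1 : 1 ≤ A := by rw [hAexp]; exact Real.one_le_exp hxpos.le
  -- the exponent
  set m := ⌈Real.log T / x⌉₊ with hm
  have hm1 : Real.log T / x ≤ m := Nat.le_ceil _
  have hm2 : (m : ℝ) < Real.log T / x + 1 := Nat.ceil_lt_add_one (div_nonneg hT0 hxpos.le)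
  set l := m + 1 with hl
  have hlm : (l : ℝ) = m + 1 := by rw [hl]; push_cast; ring
  have hl1 : Real.log T ≤ l * x := by
    rw [div_le_iff₀ hxpos] at hm1
    rw [hlm]; nlinarith
  have hl2 : l * x ≤ 3 * L := by
    have h1 : (m : ℝ) * x < Real.log T + x := by
      have := mul_lt_mul_of_pos_right hm2 hxpos
      rwa [add_mul, div_mul_cancel₀ _ hxpos.ne', one_mul] at this
    rw [hlm]; nlinarith
  have hl3 : (l : ℝ) * (64 * Real.log L) ≤ L + 2 * (64 * Real.log L) := by
    have h1 : Real.log T / x ≤ L / (64 * Real.log L) := by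
      have h2 : Real.log T / x ≤ L / x := div_le_div_of_nonneg_right hTL hxpos.le
      have h3 : L / x ≤ L / (64 * Real.log L) :=
        div_le_div_of_nonneg_left hLpos.le (by linarith) hx1
      exact h2.trans h3
    have h4 : (l : ℝ) ≤ L / (64 * Real.log L) + 2 := by rw [hlm]; linarith
    have h5 := mul_le_mul_of_nonneg_right h4 (by linarith : 0 ≤ 64 * Real.log L)
    rwa [add_mul, div_mul_cancel₀ _ (by linarith : 64 * Real.log L ≠ 0)] at h5
  -- the mean value theorem
  set S := PR A with hS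
  have hSp : ∀ p ∈ S, Nat.Prime p ∧ (p : ℝ) ≤ 2 * A := fun p hp => mem_PR hApos.le hp
  set X : ℝ := (2 * A) ^ l with hX
  have hX1 : 1 ≤ X := one_le_pow₀ (by linarith)
  have hTX : T ≤ X := by
    have h1 : T ≤ A ^ l := by
      rw [hAexp, ← Real.exp_nat_mul]
      calc T = Real.exp (Real.log T) := (Real.exp_log hTpos).symm
        _ ≤ _ := Real.exp_le_exp.2 hl1
    exact h1.trans (pow_le_pow_left₀ hApos.le (by linarith) l)
  have hmem : ∀ n ∈ (Fu S l).image pr, 1 ≤ n ∧ (n : ℝ) ≤ X := by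
    intro n hn
    obtain ⟨f, hf, rfl⟩ := Finset.mem_image.1 hn
    rw [Fu, Fintype.mem_piFinset] at hf
    refine ⟨Finset.one_le_prod' (fun i _ => (hSp _ (hf i)).1.one_lt.le), ?_⟩
    rw [pr, hX]
    push_cast
    calc ∏ i, ((f i : ℕ) : ℝ) ≤ ∏ _i : Fin l, (2 * A) :=
          Finset.prod_le_prod (fun i _ => Nat.cast_nonneg _) (fun i _ => (hSp _ (hf i)).2)
      _ = (2 * A) ^ l := by rw [Finset.prod_const, Finset.card_fin]
  have hmv := hM ((Fu S l).image pr) X T (be S b l) hX1 hT hmem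
  have hsb : ∑ n ∈ (Fu S l).image pr, ‖be S b l n‖ ^ 2 ≤ (l.factorial : ℝ) * X := by
    refine (sum_be S (fun p hp => (hSp p hp).1) b hb l).trans ?_
    refine mul_le_mul_of_nonneg_left ?_ (by positivity)
    exact pow_le_pow_left₀ (Nat.cast_nonneg _) (card_PR hApos.le) l
  have hpw : ∀ t : ℝ, ‖DP ((Fu S l).image pr) (be S b l) t‖ ^ 2 = ‖DP S b t‖ ^ (2 * l) := by
    intro t
    rw [← pow_eq S (fun p hp => (hSp p hp).1.one_lt.le) b l t, norm_pow, ← pow_mul, mul_comm l 2]
  set a : ℝ := A ^ ((99 : ℝ) / 100) with ha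
  have hapos : 0 < a := Real.rpow_pos_of_pos hApos _
  have hint : ∫ t in Set.Icc (-T) T, ‖DP S b t‖ ^ (2 * l) ≤ C * (2 * X) * ((l.factorial : ℝ) * X) := by
    rw [integral_Icc_eq_integral_Ioc, ← intervalIntegral.integral_of_le (by linarith)]
    simp_rw [← hpw]
    refine hmv.trans (mul_le_mul ?_ hsb (Finset.sum_nonneg fun _ _ => by positivity) (by positivity))
    exact mul_le_mul_of_nonneg_left (by linarith) hC.le
  -- Markov's inequality
  have hcont : Continuous (fun t : ℝ => ‖DP S b t‖ ^ (2 * l)) := (DP_cont S b).norm.pow _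
  have hmk := mul_meas_ge_le_integral_of_nonneg (μ := volume.restrict (Set.Icc (-T) T))
    (f := fun t : ℝ => ‖DP S b t‖ ^ (2 * l)) (Filter.Eventually.of_forall fun t => by positivity)
    (hcont.continuousOn.integrableOn_compact isCompact_Icc) (a ^ (2 * l))
  set E : Set ℝ := {t : ℝ | t ∈ Set.Icc (-T) T ∧ a ≤ ‖DP S b t‖} with hE
  have hEfin : volume (Set.Icc (-T) T) ≠ ⊤ := by
    rw [Real.volume_Icc]; exact ENNReal.ofReal_ne_top
  have hEsub : E ⊆ Set.Icc (-T) T := fun t ht => ht.1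
  have hv : volume.real E ≤ (volume.restrict (Set.Icc (-T) T)).real {t | a ^ (2 * l) ≤ ‖DP S b t‖ ^ (2 * l)} := by
    rw [measureReal_restrict_apply' measurableSet_Icc]
    refine measureReal_mono (fun t ht => ⟨?_, ht.1⟩) (measure_ne_top_of_subset Set.inter_subset_right hEfin)
    exact pow_le_pow_left₀ hapos.le ht.2 _
  have hvE : volume E = ENNReal.ofReal (volume.real E) := by
    rw [Measure.real, ENNReal.ofReal_toReal (measure_ne_top_of_subset hEsub hEfin)]
  rw [hvE]
  refine ENNReal.ofReal_le_ofReal ?_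
  -- the final computation
  have hmain : a ^ (2 * l) * volume.real E ≤ C * (2 * X) * ((l.factorial : ℝ) * X) :=
    (mul_le_mul_of_nonneg_left hv (by positivity)).trans (hmk.trans hint)
  set B : ℝ := A ^ ((1 : ℝ) / 100) with hB
  have hAaB : A = a * B := by
    rw [ha, hB, ← Real.rpow_add hApos]; norm_num
  have hXX : X * X = 4 ^ l * (a ^ (2 * l) * B ^ (2 * l)) := by
    rw [← mul_pow a B, ← hAaB, hX, ← mul_pow, pow_mul A 2 l, ← mul_pow]
    congr 1; ring
  have hv2 : volume.real E ≤ 2 * C * ((l.factorial : ℝ) * 4 ^ l) * B ^ (2 * l) := by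
    have h1 : a ^ (2 * l) * volume.real E ≤
        a ^ (2 * l) * (2 * C * ((l.factorial : ℝ) * 4 ^ l) * B ^ (2 * l)) := by
      refine hmain.trans (le_of_eq ?_)
      calc C * (2 * X) * ((l.factorial : ℝ) * X) = 2 * C * l.factorial * (X * X) := by ring
        _ = _ := by rw [hXX]; ring
    exact le_of_mul_le_mul_left h1 (by positivity)
  have hBl : B ^ (2 * l) ≤ Real.exp (3 * L / 50) := by
    rw [hB, hAexp, ← Real.exp_mul, ← Real.exp_nat_mul]
    refine Real.exp_le_exp.2 ?_
    push_cast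
    linarith
  have h4l : 4 * (l : ℝ) ≤ L := by
    rcases le_or_gt (l : ℝ) 2 with h | h
    · linarith
    · nlinarith
  have hfac : (l.factorial : ℝ) * 4 ^ l ≤ Real.exp (l * Real.log L) := by
    have h1 : (l.factorial : ℝ) ≤ (l : ℝ) ^ l := by exact_mod_cast Nat.factorial_le_pow l
    calc (l.factorial : ℝ) * 4 ^ l ≤ (l : ℝ) ^ l * 4 ^ l := mul_le_mul_of_nonneg_right h1 (by positivity)
      _ = (4 * (l : ℝ)) ^ l := by rw [← mul_pow, mul_comm]
      _ ≤ L ^ l := pow_le_pow_left₀ (by positivity) h4l l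
      _ = Real.exp (l * Real.log L) := by rw [Real.exp_nat_mul, Real.exp_log hLpos]
  calc volume.real E ≤ 2 * C * ((l.factorial : ℝ) * 4 ^ l) * B ^ (2 * l) := hv2
    _ ≤ Real.exp (Real.log (2 * C)) * Real.exp (l * Real.log L) * Real.exp (3 * L / 50) := by
        rw [Real.exp_log (by positivity)]
        gcongr
    _ = Real.exp (Real.log (2 * C) + l * Real.log L + 3 * L / 50) := by
        rw [← Real.exp_add, ← Real.exp_add]
    _ ≤ Real.exp (L * ((1 : ℝ) / 8)) := Real.exp_le_exp.2 (by linarith)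
    _ = N ^ ((1 : ℝ) / 8) := by
        rw [Real.exp_mul, hL, Real.exp_log (by linarith)]

end

end Pool.Agent.Lib.MP3efbeb.LG
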