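import Pool.Agent.Lib.MP_3efbeb_nt.LG.SpecC
import Pool.Agent.Lib.MP_3efbeb_nt.LG.LVP

/-!
# LG, module LVQ: the measure of the large values, version 2 (helper91, adapted from LVP)
-/

set_option autoImplicit false

namespace Pool.Agent.Lib.MP3efbeb.LG

open Finset MeasureTheory

noncomputable section

open LVPM in
theorem specLVQ (hMVT : SpecMVT) : SpecLVQ := by
  obtain ⟨C, hC, hM⟩ := hMVT
  intro η hη hη1
  set κ : ℝ := 8 / η with hκ
  have hκη : κ * η = 8 := div_mul_cancel₀ _ hη.ne'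
  have hκ8 : 8 ≤ κ := by rw [hκ, le_div_iff₀ hη]; linarith
  -- the size of `N`
  have hev : ∀ᶠ L : ℝ in Filter.atTop, 16 ≤ L ∧ 1 ≤ Real.log L ∧
      Real.log (2 * C) + 2 * Real.log L ≤ η / 2 * L := by
    have h1 : ∀ᶠ L : ℝ in Filter.atTop, Real.log L ≤ η / 8 * L := by
      have := Real.isLittleO_log_id_atTop.def (by positivity : (0 : ℝ) < η / 8)
      filter_upwards [this, Filter.eventually_ge_atTop (1 : ℝ)] with L hL h1
      rw [Real.norm_eq_abs, Real.norm_eq_abs, id, abs_of_nonneg (Real.log_nonneg h1),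
        abs_of_nonneg (by linarith)] at hL
      exact hL
    filter_upwards [h1, Filter.eventually_ge_atTop (16 : ℝ),
      Real.tendsto_log_atTop.eventually_ge_atTop (1 : ℝ),
      Filter.eventually_ge_atTop (4 / η * Real.log (2 * C))] with L h1 h2 h3 h4
    have h5 : Real.log (2 * C) ≤ η / 4 * L := by
      have h6 := mul_le_mul_of_nonneg_left h4 (by positivity : 0 ≤ η / 4)
      have h7 : η / 4 * (4 / η * Real.log (2 * C)) = Real.log (2 * C) := by field_simp
      linarith
    exact ⟨h2, h3, by linarith⟩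
  obtain ⟨N₀, hN₀⟩ := Filter.eventually_atTop.1 (Real.tendsto_log_atTop.eventually hev)
  refine ⟨max N₀ 1, fun N c A T b hN hc hAc hAN hT hTN hb => ?_⟩
  obtain ⟨hL10, hLL, hLC⟩ := hN₀ N ((le_max_left _ _).trans hN)
  have hN1 : 1 ≤ N := (le_max_right _ _).trans hN
  set L := Real.log N with hL
  have hLpos : 0 < L := by linarith
  -- `x = log A`
  have hApos : 0 < A := lt_of_lt_of_le (Real.rpow_pos_of_pos hLpos c) hAc
  set x := Real.log A with hx
  have hx1 : κ * Real.log L ≤ x := by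
    have h1 : c * Real.log L ≤ x := by
      rw [hx, ← Real.log_rpow hLpos]
      exact Real.log_le_log (Real.rpow_pos_of_pos hLpos c) hAc
    have h2 : κ * Real.log L ≤ c * Real.log L := mul_le_mul_of_nonneg_right hc (by linarith)
    linarith
  have hκL : 0 < κ * Real.log L := by positivity
  have hxpos : 0 < x := by linarith
  have hxL : x ≤ L := Real.log_le_log hApos hAN
  have hTpos : 0 < T := by linarith
  have hT0 : 0 ≤ Real.log T := Real.log_nonneg hT
  have hTL : Real.log T ≤ L := Real.log_le_log hTpos hTN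
  have hAexp : A = Real.exp x := (Real.exp_log hApos).symm
  have hA1 : 1 ≤ A := by rw [hAexp]; exact Real.one_le_exp hxpos.le
  -- the exponent
  set m := ⌈Real.log T / x⌉₊ with hm
  have hm1 : Real.log T / x ≤ m := Nat.le_ceil _
  have hm2 : (m : ℝ) < Real.log T / x + 1 := Nat.ceil_lt_add_one (div_nonneg hT0 hxpos.le)
  set l := m + 1 with hl
  have hlm : (l : ℝ) = m + 1 := by rw [hl]; push_cast; ring
  have hl1 : Real.log T ≤ l * x := by
    rw [div_le_iff₀ hxpos] at hm1
    rw [hlm]; nlinarith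
  have hl2 : l * x ≤ 3 * L := by
    have h1 : (m : ℝ) * x < Real.log T + x := by
      have := mul_lt_mul_of_pos_right hm2 hxpos
      rwa [add_mul, div_mul_cancel₀ _ hxpos.ne', one_mul] at this
    rw [hlm]; nlinarith
  have hl3 : (l : ℝ) * (κ * Real.log L) ≤ L + 2 * (κ * Real.log L) := by
    have h1 : Real.log T / x ≤ L / (κ * Real.log L) := by
      have h2 : Real.log T / x ≤ L / x := div_le_div_of_nonneg_right hTL hxpos.le
      have h3 : L / x ≤ L / (κ * Real.log L) :=
        div_le_div_of_nonneg_left hLpos.le hκL hx1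
      exact h2.trans h3
    have h4 : (l : ℝ) ≤ L / (κ * Real.log L) + 2 := by rw [hlm]; linarith
    have h5 := mul_le_mul_of_nonneg_right h4 hκL.le
    rwa [add_mul, div_mul_cancel₀ _ hκL.ne'] at h5
  have hl4 : (l : ℝ) * Real.log L ≤ η / 8 * L + 2 * Real.log L := by
    have h1 := mul_le_mul_of_nonneg_left hl3 (by positivity : 0 ≤ η / 8)
    have h2 : η / 8 * ((l : ℝ) * (κ * Real.log L)) = (κ * η) * ((l : ℝ) * Real.log L) / 8 := by ring
    have h3 : η / 8 * (L + 2 * (κ * Real.log L)) = η / 8 * L + (κ * η) * (2 * Real.log L) / 8 := by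
      ring
    rw [h2, h3, hκη] at h1
    linarith
  -- the mean value theorem
  set S := PR A with hS
  have hSp : ∀ p ∈ S, Nat.Prime p ∧ (p : ℝ) ≤ 2 * A := fun p hp => mem_PR hApos.le hp
  set X : ℝ := (2 * A) ^ l with hX
  have hX1 : 1 ≤ X := one_le_pow₀ (by linarith)
  have hTX : T ≤ X := by
    have h1 : T ≤ A ^ l := by
      rw [hAexp, ← Real.exp_nat_mul]
      calc T = Real.exp (Real.log T) := (Real.exp_log hTpos).symm
        _ ≤ _ := Real.exp_le_exp.2 hl1
    exact h1.trans (pow_le_pow_left₀ hApos.le (by linarith) l)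
  have hmem : ∀ n ∈ (Fu S l).image pr, 1 ≤ n ∧ (n : ℝ) ≤ X := by
    intro n hn
    obtain ⟨f, hf, rfl⟩ := Finset.mem_image.1 hn
    rw [Fu, Fintype.mem_piFinset] at hf
    refine ⟨Finset.one_le_prod' (fun i _ => (hSp _ (hf i)).1.one_lt.le), ?_⟩
    rw [pr, hX]
    push_cast
    calc ∏ i, ((f i : ℕ) : ℝ) ≤ ∏ _i : Fin l, (2 * A) :=
          Finset.prod_le_prod (fun i _ => Nat.cast_nonneg _) (fun i _ => (hSp _ (hf i)).2)
      _ = (2 * A) ^ l := by rw [Finset.prod_const, Finset.card_fin]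
  have hmv := hM ((Fu S l).image pr) X T (be S b l) hX1 hT hmem
  have hsb : ∑ n ∈ (Fu S l).image pr, ‖be S b l n‖ ^ 2 ≤ (l.factorial : ℝ) * X := by
    refine (sum_be S (fun p hp => (hSp p hp).1) b hb l).trans ?_
    refine mul_le_mul_of_nonneg_left ?_ (by positivity)
    exact pow_le_pow_left₀ (Nat.cast_nonneg _) (card_PR hApos.le) l
  have hpw : ∀ t : ℝ, ‖DP ((Fu S l).image pr) (be S b l) t‖ ^ 2 = ‖DP S b t‖ ^ (2 * l) := by
    intro t
    rw [← pow_eq S (fun p hp => (hSp p hp).1.one_lt.le) b l t, norm_pow, ← pow_mul, mul_comm l 2]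
  set a : ℝ := A ^ (1 - η / 16) with ha
  have hapos : 0 < a := Real.rpow_pos_of_pos hApos _
  have hint : ∫ t in Set.Icc (-T) T, ‖DP S b t‖ ^ (2 * l) ≤ C * (2 * X) * ((l.factorial : ℝ) * X) := by
    rw [integral_Icc_eq_integral_Ioc, ← intervalIntegral.integral_of_le (by linarith)]
    simp_rw [← hpw]
    refine hmv.trans (mul_le_mul ?_ hsb (Finset.sum_nonneg fun _ _ => by positivity) (by positivity))
    exact mul_le_mul_of_nonneg_left (by linarith) hC.le
  -- Markov's inequality
  have hcont : Continuous (fun t : ℝ => ‖DP S b t‖ ^ (2 * l)) := (DP_cont S b).norm.pow _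
  have hmk := mul_meas_ge_le_integral_of_nonneg (μ := volume.restrict (Set.Icc (-T) T))
    (f := fun t : ℝ => ‖DP S b t‖ ^ (2 * l)) (Filter.Eventually.of_forall fun t => by positivity)
    (hcont.continuousOn.integrableOn_compact isCompact_Icc) (a ^ (2 * l))
  set E : Set ℝ := {t : ℝ | t ∈ Set.Icc (-T) T ∧ a ≤ ‖DP S b t‖} with hE
  have hEfin : volume (Set.Icc (-T) T) ≠ ⊤ := by
    rw [Real.volume_Icc]; exact ENNReal.ofReal_ne_top
  have hEsub : E ⊆ Set.Icc (-T) T := fun t ht => ht.1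
  have hv : volume.real E ≤ (volume.restrict (Set.Icc (-T) T)).real {t | a ^ (2 * l) ≤ ‖DP S b t‖ ^ (2 * l)} := by
    rw [measureReal_restrict_apply' measurableSet_Icc]
    refine measureReal_mono (fun t ht => ⟨?_, ht.1⟩) (measure_ne_top_of_subset Set.inter_subset_right hEfin)
    exact pow_le_pow_left₀ hapos.le ht.2 _
  have hvE : volume E = ENNReal.ofReal (volume.real E) := by
    rw [Measure.real, ENNReal.ofReal_toReal (measure_ne_top_of_subset hEsub hEfin)]
  rw [hvE]
  refine ENNReal.ofReal_le_ofReal ?_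
  -- the final computation
  have hmain : a ^ (2 * l) * volume.real E ≤ C * (2 * X) * ((l.factorial : ℝ) * X) :=
    (mul_le_mul_of_nonneg_left hv (by positivity)).trans (hmk.trans hint)
  set B : ℝ := A ^ (η / 16) with hB
  have hAaB : A = a * B := by
    rw [ha, hB, ← Real.rpow_add hApos]
    have : 1 - η / 16 + η / 16 = 1 := by ring
    rw [this, Real.rpow_one]
  have hXX : X * X = 4 ^ l * (a ^ (2 * l) * B ^ (2 * l)) := by
    rw [← mul_pow a B, ← hAaB, hX, ← mul_pow, pow_mul A 2 l, ← mul_pow]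
    congr 1; ring
  have hv2 : volume.real E ≤ 2 * C * ((l.factorial : ℝ) * 4 ^ l) * B ^ (2 * l) := by
    have h1 : a ^ (2 * l) * volume.real E ≤
        a ^ (2 * l) * (2 * C * ((l.factorial : ℝ) * 4 ^ l) * B ^ (2 * l)) := by
      refine hmain.trans (le_of_eq ?_)
      calc C * (2 * X) * ((l.factorial : ℝ) * X) = 2 * C * l.factorial * (X * X) := by ring
        _ = _ := by rw [hXX]; ring
    exact le_of_mul_le_mul_left h1 (by positivity)
  have hBl : B ^ (2 * l) ≤ Real.exp (3 * η / 8 * L) := by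
    rw [hB, hAexp, ← Real.exp_mul, ← Real.exp_nat_mul]
    refine Real.exp_le_exp.2 ?_
    push_cast
    have h1 := mul_le_mul_of_nonneg_left hl2 (by positivity : 0 ≤ η / 8)
    have h2 : 2 * (l : ℝ) * (x * (η / 16)) = η / 8 * (l * x) := by ring
    rw [h2]
    linarith
  have h4l : 4 * (l : ℝ) ≤ L := by
    have hκ8' : 8 ≤ κ * Real.log L := by nlinarith
    rcases le_or_gt (l : ℝ) 2 with h | h
    · linarith
    · have h1 : ((l : ℝ) - 2) * (κ * Real.log L) ≤ L := by linarith
      have h2 : ((l : ℝ) - 2) * 8 ≤ ((l : ℝ) - 2) * (κ * Real.log L) :=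
        mul_le_mul_of_nonneg_left hκ8' (by linarith)
      linarith
  have hfac : (l.factorial : ℝ) * 4 ^ l ≤ Real.exp (l * Real.log L) := by
    have h1 : (l.factorial : ℝ) ≤ (l : ℝ) ^ l := by exact_mod_cast Nat.factorial_le_pow l
    calc (l.factorial : ℝ) * 4 ^ l ≤ (l : ℝ) ^ l * 4 ^ l := mul_le_mul_of_nonneg_right h1 (by positivity)
      _ = (4 * (l : ℝ)) ^ l := by rw [← mul_pow, mul_comm]
      _ ≤ L ^ l := pow_le_pow_left₀ (by positivity) h4l l
      _ = Real.exp (l * Real.log L) := by rw [Real.exp_nat_mul, Real.exp_log hLpos]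
  calc volume.real E ≤ 2 * C * ((l.factorial : ℝ) * 4 ^ l) * B ^ (2 * l) := hv2
    _ ≤ Real.exp (Real.log (2 * C)) * Real.exp (l * Real.log L) * Real.exp (3 * η / 8 * L) := by
        rw [Real.exp_log (by positivity)]
        gcongr
    _ = Real.exp (Real.log (2 * C) + l * Real.log L + 3 * η / 8 * L) := by
        rw [← Real.exp_add, ← Real.exp_add]
    _ ≤ Real.exp (L * η) := Real.exp_le_exp.2 (by linarith)
    _ = N ^ η := by
        rw [Real.exp_mul, hL, Real.exp_log (by linarith)]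

end

end Pool.Agent.Lib.MP3efbeb.LG
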