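import Pool.Agent.Lib.MP_3efbeb_nt.LG.SpecA

/-!
# Module MIN (helper69): the minor arcs
-/

set_option autoImplicit false

namespace Pool.Agent.Lib.MP3efbeb.LG

open Finset MeasureTheory

namespace MINM

lemma ee_add (x y : ℝ) : ee (x + y) = ee x * ee y := by
  unfold ee
  rw [← Complex.exp_add]
  congr 1
  push_cast
  ring

lemma norm_ee (x : ℝ) : ‖ee x‖ = 1 := by
  unfold ee
  have h : (2 * Real.pi * x * Complex.I : ℂ) = ((2 * Real.pi * x : ℝ) : ℂ) * Complex.I := by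
    push_cast
    ring
  rw [h, Complex.norm_exp_ofReal_mul_I]

lemma conj_ee (x : ℝ) : (starRingEnd ℂ) (ee x) = ee (-x) := by
  unfold ee
  rw [← Complex.exp_conj]
  congr 1
  simp only [map_mul, Complex.conj_ofReal, Complex.conj_I, map_ofNat]
  push_cast
  ring

lemma ee_int (n : ℤ) : ee n = 1 := by
  unfold ee
  rw [Complex.exp_eq_one_iff]
  exact ⟨n, by push_cast; ring⟩

lemma ee_sub_round (x : ℝ) : ee x = ee (x - round x) := by
  have h := ee_add (x - round x) (round x)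
  rw [ee_int, mul_one] at h
  rw [← h]
  congr 1
  ring

lemma four_nd_le (x : ℝ) : 4 * nd x ≤ ‖ee x - 1‖ := by
  rw [ee_sub_round]
  have hx := abs_sub_round x
  unfold nd
  set y : ℝ := x - round x with hy
  have h1 : ee y = Complex.exp (Complex.I * ((2 * Real.pi * y : ℝ) : ℂ)) := by
    unfold ee
    congr 1
    push_cast
    ring
  rw [h1, Complex.norm_exp_I_mul_ofReal_sub_one]
  have h2 : 2 * Real.pi * y / 2 = Real.pi * y := by ring
  rw [h2, Real.norm_eq_abs, abs_mul, abs_of_pos (by norm_num : (0 : ℝ) < 2)]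
  have h3 : |Real.sin (Real.pi * y)| = Real.sin (Real.pi * |y|) := by
    rcases le_or_gt 0 y with h | h
    · rw [abs_of_nonneg h, abs_of_nonneg]
      rw [abs_of_nonneg h] at hx
      exact Real.sin_nonneg_of_nonneg_of_le_pi (by positivity)
        (by nlinarith [Real.pi_pos])
    · rw [abs_of_neg h, mul_neg, Real.sin_neg, abs_of_nonpos]
      rw [abs_of_neg h] at hx
      have h4 := Real.sin_nonneg_of_nonneg_of_le_pi (x := Real.pi * (-y))
        (by nlinarith [Real.pi_pos]) (by nlinarith [Real.pi_pos])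
      rw [mul_neg, Real.sin_neg] at h4
      linarith
  rw [h3]
  have h4 := Real.mul_le_sin (x := Real.pi * |y|) (by positivity) (by nlinarith [Real.pi_pos])
  have h5 : 2 / Real.pi * (Real.pi * |y|) = 2 * |y| := by
    field_simp
  rw [h5] at h4
  linarith

lemma tele (θ : ℝ) (s t : ℕ) (h : s ≤ t) :
    (ee θ - 1) * ∑ m ∈ Ico s t, ee (θ * m) = ee (θ * t) - ee (θ * s) := by
  induction t, h using Nat.le_induction with
  | base => simp
  | succ t ht ih =>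
    rw [Finset.sum_Ico_succ_top ht, mul_add, ih]
    have e : ee (θ * ((t + 1 : ℕ) : ℝ)) = ee θ * ee (θ * t) := by
      rw [← ee_add]
      congr 1
      push_cast
      ring
    rw [e]
    ring

lemma nd_nonneg (x : ℝ) : 0 ≤ nd x := abs_nonneg _

lemma geo (θ : ℝ) (s t : ℕ) : ‖∑ m ∈ Ico s t, ee (θ * m)‖ * nd θ ≤ 1 := by
  rcases le_or_gt s t with h | h
  · have h1 := congrArg norm (tele θ s t h)
    rw [norm_mul] at h1
    have h2 : ‖ee (θ * t) - ee (θ * s)‖ ≤ 2 := by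
      refine (norm_sub_le _ _).trans ?_
      rw [norm_ee, norm_ee]
      norm_num
    have h3 := four_nd_le θ
    have h4 : 4 * nd θ * ‖∑ m ∈ Ico s t, ee (θ * m)‖ ≤
        ‖ee θ - 1‖ * ‖∑ m ∈ Ico s t, ee (θ * m)‖ :=
      mul_le_mul_of_nonneg_right h3 (norm_nonneg _)
    nlinarith
  · rw [Finset.Ico_eq_empty_of_le h.le]
    simp

lemma triv (θ : ℝ) (s t : ℕ) : ‖∑ m ∈ Ico s t, ee (θ * m)‖ ≤ (t - s : ℕ) := by
  refine (norm_sum_le _ _).trans ?_
  simp [norm_ee]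

/-- the majorant `min (ℓ, 1/nd (α k))` -/
noncomputable def Fd (α : ℝ) (l : ℕ) (k : ℕ) : ℝ :=
  if nd (α * k) * l ≤ 1 then l else 1 / nd (α * k)

lemma Fd_spec (α : ℝ) (l k : ℕ) :
    0 ≤ Fd α l k ∧ Fd α l k ≤ l ∧ Fd α l k * nd (α * k) ≤ 1 := by
  have h0 := nd_nonneg (α * k)
  unfold Fd
  split_ifs with h
  · refine ⟨Nat.cast_nonneg _, le_refl _, ?_⟩
    rw [mul_comm]
    exact h
  · rw [not_le] at h
    have h1 : 0 < nd (α * k) := by
      rcases h0.eq_or_lt with h2 | h2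
      · rw [← h2, zero_mul] at h
        linarith
      · exact h2
    refine ⟨by positivity, ?_, ?_⟩
    · rw [div_le_iff₀ h1]
      linarith
    · rw [div_mul_cancel₀ _ h1.ne']

lemma geoF (α : ℝ) (l k s t : ℕ) (h : t ≤ s + l) :
    ‖∑ m ∈ Ico s t, ee (α * k * m)‖ ≤ Fd α l k := by
  have h0 := nd_nonneg (α * k)
  unfold Fd
  split_ifs with h1
  · refine (triv _ _ _).trans ?_
    exact_mod_cast (by omega : t - s ≤ l)
  · rw [not_le] at h1
    have h2 : 0 < nd (α * k) := by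
      rcases h0.eq_or_lt with h2 | h2
      · rw [← h2, zero_mul] at h1
        linarith
      · exact h2
    rw [le_div_iff₀ h2]
    exact geo _ _ _

lemma geoF_neg (α : ℝ) (l k s t : ℕ) (h : t ≤ s + l) :
    ‖∑ m ∈ Ico s t, ee (-(α * k) * m)‖ ≤ Fd α l k := by
  have e : ∑ m ∈ Ico s t, ee (-(α * k) * m) =
      (starRingEnd ℂ) (∑ m ∈ Ico s t, ee (α * k * m)) := by
    rw [map_sum]
    refine Finset.sum_congr rfl (fun m _ => ?_)
    rw [conj_ee]
    congr 1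
    ring
  rw [e, RCLike.norm_conj]
  exact geoF α l k s t h

/-- the distance of two natural numbers -/
def dst (p p' : ℕ) : ℕ := (p - p') + (p' - p)

lemma geoD (α : ℝ) (l p p' s t : ℕ) (h : t ≤ s + l) :
    ‖∑ m ∈ Ico s t, ee (α * ((p : ℝ) - p') * m)‖ ≤ Fd α l (dst p p') := by
  rcases le_total p' p with h1 | h1
  · have e : ((p : ℝ) - p') = ((dst p p' : ℕ) : ℝ) := by
      unfold dst
      rw [Nat.sub_eq_zero_of_le h1, add_zero, Nat.cast_sub h1]
    rw [e]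
    exact geoF α l _ s t h
  · have e : α * ((p : ℝ) - p') = -(α * ((dst p p' : ℕ) : ℝ)) := by
      unfold dst
      rw [Nat.sub_eq_zero_of_le h1, zero_add, Nat.cast_sub h1]
      ring
    rw [e]
    exact geoF_neg α l _ s t h

lemma abel_id (g f : ℕ → ℂ) (s t : ℕ) (h : s ≤ t) :
    ∑ m ∈ Ico s t, g m * f m = (∑ m ∈ Ico s t, g m) * f t -
      ∑ m ∈ Ico s t, (∑ i ∈ Ico s (m + 1), g i) * (f (m + 1) - f m) := by
  induction t, h using Nat.le_induction with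
  | base => simp
  | succ t ht ih =>
    rw [Finset.sum_Ico_succ_top ht, Finset.sum_Ico_succ_top ht (f := fun m => (∑ i ∈ Ico s (m + 1),
      g i) * (f (m + 1) - f m)), ih, Finset.sum_Ico_succ_top ht (f := g)]
    ring

lemma abel (g f : ℕ → ℂ) (s t l : ℕ) (B δ G : ℝ) (htl : t ≤ s + l) (hB : 0 ≤ B)
    (hδ : 0 ≤ δ) (hG : 0 ≤ G) (hf : ∀ m, ‖f m‖ ≤ B) (hd : ∀ m, ‖f (m + 1) - f m‖ ≤ δ)
    (hg : ∀ u, u ≤ s + l → ‖∑ m ∈ Ico s u, g m‖ ≤ G) :
    ‖∑ m ∈ Ico s t, g m * f m‖ ≤ (B + l * δ) * G := by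
  rcases le_or_gt s t with h | h
  · rw [abel_id g f s t h]
    refine (norm_sub_le _ _).trans ?_
    have h1 : ‖(∑ m ∈ Ico s t, g m) * f t‖ ≤ G * B := by
      rw [norm_mul]
      exact mul_le_mul (hg t htl) (hf t) (norm_nonneg _) hG
    have h2 : ‖∑ m ∈ Ico s t, (∑ i ∈ Ico s (m + 1), g i) * (f (m + 1) - f m)‖ ≤ l * (G * δ) := by
      refine (norm_sum_le _ _).trans ?_
      have h3 : ∀ m ∈ Ico s t, ‖(∑ i ∈ Ico s (m + 1), g i) * (f (m + 1) - f m)‖ ≤ G * δ := by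
        intro m hm
        rw [Finset.mem_Ico] at hm
        rw [norm_mul]
        exact mul_le_mul (hg (m + 1) (by omega)) (hd m) (norm_nonneg _) hG
      refine (Finset.sum_le_sum h3).trans ?_
      rw [Finset.sum_const, Nat.card_Ico, nsmul_eq_mul]
      refine mul_le_mul_of_nonneg_right ?_ (mul_nonneg hG hδ)
      exact_mod_cast (by omega : t - s ≤ l)
    nlinarith
  · rw [Finset.Ico_eq_empty_of_le h.le, Finset.sum_empty, norm_zero]
    positivity

lemma blocks (h : ℕ → ℂ) (l : ℕ) (X : ℝ) (hX : 0 ≤ X)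
    (hb : ∀ s t, t ≤ s + l → ‖∑ m ∈ Ico s t, h m‖ ≤ X) :
    ∀ k s t : ℕ, t ≤ s + k * l → ‖∑ m ∈ Ico s t, h m‖ ≤ k * X := by
  intro k
  induction k with
  | zero =>
    intro s t hst
    rw [Finset.Ico_eq_empty_of_le (by omega)]
    simp
  | succ k ih =>
    intro s t hst
    have e1 : (k + 1) * l = k * l + l := by ring
    rw [e1] at hst
    rcases le_total t (s + l) with h1 | h1
    · refine (hb s t h1).trans ?_
      push_cast
      nlinarith [(Nat.cast_nonneg k : (0 : ℝ) ≤ k)]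
    · rw [← Finset.sum_Ico_consecutive h (Nat.le_add_right s l) h1]
      refine (norm_add_le _ _).trans ?_
      have h2 := hb s (s + l) le_rfl
      have h3 := ih (s + l) t (by omega)
      push_cast
      linarith

/-! ### The window sums -/

/-- the sum over a window -/
noncomputable def Sj (α : ℝ) (H : ℕ) (c : ℕ → ℝ) (j : ℕ) : ℂ :=
  ∑ n ∈ Ioc j (j + H), (c n : ℂ) * ee (α * n)

/-- the dual sum -/
noncomputable def Zn (α : ℝ) (H J : ℕ) (c : ℕ → ℝ) (n : ℕ) : ℂ :=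
  ∑ j ∈ range J, if j < n ∧ n ≤ j + H then (starRingEnd ℂ) (Sj α H c j) else 0

lemma norm_Sj (α : ℝ) (H : ℕ) (c : ℕ → ℝ) (C₁ : ℝ) (hc : ∀ n, |c n| ≤ C₁) (j : ℕ) :
    ‖Sj α H c j‖ ≤ H * C₁ := by
  unfold Sj
  refine (norm_sum_le _ _).trans ?_
  have h1 : ∀ n ∈ Ioc j (j + H), ‖(c n : ℂ) * ee (α * n)‖ ≤ C₁ := by
    intro n _
    rw [norm_mul, norm_ee, mul_one, Complex.norm_real]
    exact hc n
  refine (Finset.sum_le_sum h1).trans ?_
  rw [Finset.sum_const, Nat.card_Ioc, nsmul_eq_mul]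
  simp

lemma norm_Zn (α : ℝ) (H J : ℕ) (c : ℕ → ℝ) (C₁ : ℝ) (hC : 0 ≤ C₁) (hc : ∀ n, |c n| ≤ C₁)
    (n : ℕ) : ‖Zn α H J c n‖ ≤ H * (H * C₁) := by
  unfold Zn
  rw [← Finset.sum_filter]
  refine (norm_sum_le _ _).trans ?_
  have h1 : ∀ j ∈ (range J).filter (fun j => j < n ∧ n ≤ j + H),
      ‖(starRingEnd ℂ) (Sj α H c j)‖ ≤ H * C₁ := by
    intro j _
    rw [RCLike.norm_conj]
    exact norm_Sj α H c C₁ hc j
  refine (Finset.sum_le_sum h1).trans ?_
  rw [Finset.sum_const, nsmul_eq_mul]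
  refine mul_le_mul_of_nonneg_right ?_ (by positivity)
  have h2 : (range J).filter (fun j => j < n ∧ n ≤ j + H) ⊆ Ico (n - H) n := by
    intro j hj
    rw [Finset.mem_filter] at hj
    rw [Finset.mem_Ico]
    omega
  have h3 := Finset.card_le_card h2
  rw [Nat.card_Ico] at h3
  exact_mod_cast (by omega : ((range J).filter (fun j => j < n ∧ n ≤ j + H)).card ≤ H)

lemma step_Zn (α : ℝ) (H J : ℕ) (c : ℕ → ℝ) (C₁ : ℝ) (hC : 0 ≤ C₁) (hc : ∀ n, |c n| ≤ C₁)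
    (hH : 1 ≤ H) (n : ℕ) : ‖Zn α H J c (n + 1) - Zn α H J c n‖ ≤ 2 * (H * C₁) := by
  unfold Zn
  rw [← Finset.sum_sub_distrib]
  refine (norm_sum_le _ _).trans ?_
  have hK : 0 ≤ (H : ℝ) * C₁ := by positivity
  have h1 : ∀ j ∈ range J, ‖(if j < n + 1 ∧ n + 1 ≤ j + H then (starRingEnd ℂ) (Sj α H c j) else 0) -
      (if j < n ∧ n ≤ j + H then (starRingEnd ℂ) (Sj α H c j) else 0)‖ ≤
      (if j = n then (H : ℝ) * C₁ else 0) + (if j = n - H then (H : ℝ) * C₁ else 0) := by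
    intro j _
    have h2 : ‖(starRingEnd ℂ) (Sj α H c j)‖ ≤ H * C₁ := by
      rw [RCLike.norm_conj]
      exact norm_Sj α H c C₁ hc j
    by_cases e1 : j = n
    · have h3 : ¬ (j < n ∧ n ≤ j + H) := by omega
      have h4 : j < n + 1 ∧ n + 1 ≤ j + H := by omega
      rw [if_neg h3, if_pos h4, if_pos e1, sub_zero]
      have h5 : 0 ≤ (if j = n - H then (H : ℝ) * C₁ else 0) := by
        split_ifs
        · exact hK
        · exact le_refl _
      linarith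
    · by_cases e2 : n = j + H
      · have h3 : j < n ∧ n ≤ j + H := by omega
        have h4 : ¬ (j < n + 1 ∧ n + 1 ≤ j + H) := by omega
        have e3 : j = n - H := by omega
        rw [if_pos h3, if_neg h4, if_neg e1, if_pos e3, zero_sub, norm_neg, zero_add]
        exact h2
      · have h5 : (j < n + 1 ∧ n + 1 ≤ j + H) ↔ (j < n ∧ n ≤ j + H) := by omega
        have h6 : (if j < n + 1 ∧ n + 1 ≤ j + H then (starRingEnd ℂ) (Sj α H c j) else 0) =
            (if j < n ∧ n ≤ j + H then (starRingEnd ℂ) (Sj α H c j) else 0) := by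
          by_cases h7 : j < n ∧ n ≤ j + H
          · rw [if_pos h7, if_pos (h5.2 h7)]
          · rw [if_neg h7, if_neg (fun h8 => h7 (h5.1 h8))]
        rw [h6, sub_self, norm_zero]
        have h7 : ∀ P : Prop, ∀ [Decidable P], 0 ≤ (if P then (H : ℝ) * C₁ else 0) := by
          intro P _
          split_ifs
          · exact hK
          · exact le_refl _
        exact add_nonneg (h7 _) (h7 _)
  refine (Finset.sum_le_sum h1).trans ?_
  rw [Finset.sum_add_distrib, Finset.sum_ite_eq', Finset.sum_ite_eq']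
  have h7 : ∀ P : Prop, ∀ [Decidable P], (if P then (H : ℝ) * C₁ else 0) ≤ (H : ℝ) * C₁ := by
    intro P _
    split_ifs
    · exact le_refl _
    · exact hK
  have h8 := h7 (n ∈ range J)
  have h9 := h7 (n - H ∈ range J)
  linarith

lemma steps_Zn (α : ℝ) (H J : ℕ) (c : ℕ → ℝ) (C₁ : ℝ) (hC : 0 ≤ C₁) (hc : ∀ n, |c n| ≤ C₁)
    (hH : 1 ≤ H) (n p : ℕ) : ‖Zn α H J c (n + p) - Zn α H J c n‖ ≤ p * (2 * (H * C₁)) := by
  induction p with
  | zero => simp
  | succ p ih =>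
    have h1 := step_Zn α H J c C₁ hC hc hH (n + p)
    have e : Zn α H J c (n + (p + 1)) - Zn α H J c n =
        (Zn α H J c (n + p + 1) - Zn α H J c (n + p)) + (Zn α H J c (n + p) - Zn α H J c n) := by
      rw [← add_assoc]
      ring
    rw [e]
    refine (norm_add_le _ _).trans ?_
    push_cast
    linarith

/-! ### Rearrangement -/

lemma one_prime (α : ℝ) (H M p j : ℕ) (b : ℕ → ℝ) (hp : 0 < p)
    (hb : ∀ m, b m ≠ 0 → m ∈ Icc 1 M) :
    ∑ n ∈ Ioc j (j + H), ((if p ∣ n then b (n / p) else 0 : ℝ) : ℂ) * ee (α * n) =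
      ∑ m ∈ Icc 1 M, if j < p * m ∧ p * m ≤ j + H then (b m : ℂ) * ee (α * (p * m : ℕ)) else 0 := by
  rw [← Finset.sum_filter]
  have e1 : ∑ m ∈ (Icc 1 M).filter (fun m => j < p * m ∧ p * m ≤ j + H),
      (b m : ℂ) * ee (α * (p * m : ℕ)) =
      ∑ n ∈ ((Icc 1 M).filter (fun m => j < p * m ∧ p * m ≤ j + H)).image (fun m => p * m),
        ((if p ∣ n then b (n / p) else 0 : ℝ) : ℂ) * ee (α * n) := by
    rw [Finset.sum_image]
    · refine Finset.sum_congr rfl (fun m _ => ?_)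
      rw [if_pos (Dvd.intro m rfl), Nat.mul_div_cancel_left m hp]
    · intro m _ m' _ h
      exact Nat.eq_of_mul_eq_mul_left hp h
  rw [e1]
  symm
  refine Finset.sum_subset ?_ ?_
  · intro n hn
    rw [Finset.mem_image] at hn
    obtain ⟨m, hm, rfl⟩ := hn
    rw [Finset.mem_filter] at hm
    rw [Finset.mem_Ioc]
    exact hm.2
  · intro n hn hn'
    rw [Finset.mem_Ioc] at hn
    by_cases h1 : p ∣ n
    · rw [if_pos h1]
      have h2 : b (n / p) = 0 := by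
        by_contra h3
        refine hn' ?_
        rw [Finset.mem_image]
        refine ⟨n / p, ?_, Nat.mul_div_cancel' h1⟩
        rw [Finset.mem_filter, Nat.mul_div_cancel' h1]
        exact ⟨hb _ h3, hn⟩
      rw [h2]
      simp
    · rw [if_neg h1]
      simp

lemma Sj_eq (α : ℝ) (H M j : ℕ) (P : Finset ℕ) (b c : ℕ → ℝ) (hP : ∀ p ∈ P, 0 < p)
    (hb : ∀ m, b m ≠ 0 → m ∈ Icc 1 M)
    (hc : ∀ n, c n = ∑ p ∈ P, if p ∣ n then b (n / p) else 0) :
    Sj α H c j = ∑ m ∈ Icc 1 M, ∑ p ∈ P,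
      if j < p * m ∧ p * m ≤ j + H then (b m : ℂ) * ee (α * (p * m : ℕ)) else 0 := by
  unfold Sj
  have e1 : ∀ n ∈ Ioc j (j + H), (c n : ℂ) * ee (α * n) =
      ∑ p ∈ P, ((if p ∣ n then b (n / p) else 0 : ℝ) : ℂ) * ee (α * n) := by
    intro n _
    rw [hc n, Complex.ofReal_sum, Finset.sum_mul]
  rw [Finset.sum_congr rfl e1, Finset.sum_comm, Finset.sum_comm (s := Icc 1 M)]
  refine Finset.sum_congr rfl (fun p hp => ?_)
  exact one_prime α H M p j b (hP p hp) hb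

lemma main_id (α : ℝ) (H J M : ℕ) (P : Finset ℕ) (b c : ℕ → ℝ) (hP : ∀ p ∈ P, 0 < p)
    (hb : ∀ m, b m ≠ 0 → m ∈ Icc 1 M)
    (hc : ∀ n, c n = ∑ p ∈ P, if p ∣ n then b (n / p) else 0) :
    ((∑ j ∈ range J, ‖Sj α H c j‖ ^ 2 : ℝ) : ℂ) =
      ∑ m ∈ Icc 1 M, (b m : ℂ) * ∑ p ∈ P, ee (α * (p * m : ℕ)) * Zn α H J c (p * m) := by
  have e1 : ∀ j ∈ range J, ((‖Sj α H c j‖ ^ 2 : ℝ) : ℂ) = ∑ m ∈ Icc 1 M, ∑ p ∈ P,
      (b m : ℂ) * (ee (α * (p * m : ℕ)) * if j < p * m ∧ p * m ≤ j + H then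
        (starRingEnd ℂ) (Sj α H c j) else 0) := by
    intro j _
    have e2 : ((‖Sj α H c j‖ ^ 2 : ℝ) : ℂ) = (starRingEnd ℂ) (Sj α H c j) * Sj α H c j := by
      rw [mul_comm, Complex.mul_conj, Complex.normSq_eq_norm_sq]
    rw [e2]
    refine (congrArg (fun z => (starRingEnd ℂ) (Sj α H c j) * z)
      (Sj_eq α H M j P b c hP hb hc)).trans ?_
    rw [Finset.mul_sum]
    refine Finset.sum_congr rfl (fun m _ => ?_)
    rw [Finset.mul_sum]
    refine Finset.sum_congr rfl (fun p _ => ?_)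
    split_ifs
    · ring
    · ring
  rw [Complex.ofReal_sum, Finset.sum_congr rfl e1, Finset.sum_comm]
  refine Finset.sum_congr rfl (fun m _ => ?_)
  rw [Finset.sum_comm, Finset.mul_sum]
  refine Finset.sum_congr rfl (fun p _ => ?_)
  unfold Zn
  rw [Finset.mul_sum, Finset.mul_sum]

/-! ### The sum over pairs -/

/-- the pair sum -/
noncomputable def TT (α : ℝ) (M : ℕ) (Z : ℕ → ℂ) (p p' : ℕ) : ℂ :=
  ∑ m ∈ Icc 1 M, ee (α * ((p : ℝ) - p') * m) * (Z (p * m) * (starRingEnd ℂ) (Z (p' * m)))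

lemma E_le (α : ℝ) (M : ℕ) (P : Finset ℕ) (Z : ℕ → ℂ) :
    ∑ m ∈ Icc 1 M, ‖∑ p ∈ P, ee (α * (p * m : ℕ)) * Z (p * m)‖ ^ 2 ≤
      ∑ p ∈ P, ∑ p' ∈ P, ‖TT α M Z p p'‖ := by
  have e1 : ((∑ m ∈ Icc 1 M, ‖∑ p ∈ P, ee (α * (p * m : ℕ)) * Z (p * m)‖ ^ 2 : ℝ) : ℂ) =
      ∑ p ∈ P, ∑ p' ∈ P, TT α M Z p p' := by
    rw [Complex.ofReal_sum]
    have e2 : ∀ m ∈ Icc 1 M, ((‖∑ p ∈ P, ee (α * (p * m : ℕ)) * Z (p * m)‖ ^ 2 : ℝ) : ℂ) =
        ∑ p ∈ P, ∑ p' ∈ P, ee (α * ((p : ℝ) - p') * m) *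
          (Z (p * m) * (starRingEnd ℂ) (Z (p' * m))) := by
      intro m _
      rw [← Complex.normSq_eq_norm_sq, ← Complex.mul_conj, map_sum, Finset.sum_mul_sum]
      refine Finset.sum_congr rfl (fun p _ => Finset.sum_congr rfl (fun p' _ => ?_))
      rw [map_mul, conj_ee]
      have e3 : α * ((p : ℝ) - p') * m = α * (p * m : ℕ) + -(α * (p' * m : ℕ)) := by
        push_cast
        ring
      rw [e3, ee_add]
      ring
    rw [Finset.sum_congr rfl e2, Finset.sum_comm]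
    refine Finset.sum_congr rfl (fun p _ => ?_)
    rw [Finset.sum_comm]
    rfl
  have h0 : 0 ≤ ∑ m ∈ Icc 1 M, ‖∑ p ∈ P, ee (α * (p * m : ℕ)) * Z (p * m)‖ ^ 2 :=
    Finset.sum_nonneg (fun _ _ => by positivity)
  have h1 := congrArg norm e1
  rw [Complex.norm_real, Real.norm_of_nonneg h0] at h1
  rw [h1]
  refine (norm_sum_le _ _).trans (Finset.sum_le_sum (fun p _ => norm_sum_le _ _))

lemma TT_diag (α : ℝ) (M : ℕ) (Z : ℕ → ℂ) (B : ℝ) (hZ : ∀ n, ‖Z n‖ ≤ B) (hB : 0 ≤ B) (p : ℕ) :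
    ‖TT α M Z p p‖ ≤ M * B ^ 2 := by
  unfold TT
  refine (norm_sum_le _ _).trans ?_
  have h1 : ∀ m ∈ Icc 1 M, ‖ee (α * ((p : ℝ) - p) * m) *
      (Z (p * m) * (starRingEnd ℂ) (Z (p * m)))‖ ≤ B ^ 2 := by
    intro m _
    rw [norm_mul, norm_ee, one_mul, norm_mul, RCLike.norm_conj, sq]
    exact mul_le_mul (hZ _) (hZ _) (norm_nonneg _) hB
  refine (Finset.sum_le_sum h1).trans ?_
  rw [Finset.sum_const, Nat.card_Icc, nsmul_eq_mul]
  simp

lemma TT_off (α : ℝ) (M l : ℕ) (Z : ℕ → ℂ) (B D : ℝ) (hZ : ∀ n, ‖Z n‖ ≤ B) (hB : 0 ≤ B)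
    (hl : 1 ≤ l) (p p' : ℕ) (hD : 0 ≤ D)
    (h1 : ∀ m, ‖Z (p * (m + 1)) - Z (p * m)‖ ≤ D) (h2 : ∀ m, ‖Z (p' * (m + 1)) - Z (p' * m)‖ ≤ D)
    (hlD : l * D ≤ 4 * B) :
    ‖TT α M Z p p'‖ ≤ (M / l + 1 : ℕ) * (9 * B ^ 2 * Fd α l (dst p p')) := by
  obtain ⟨hF0, hF1, hF2⟩ := Fd_spec α l (dst p p')
  have e1 : TT α M Z p p' = ∑ m ∈ Ico 1 (M + 1), ee (α * ((p : ℝ) - p') * m) *
      (Z (p * m) * (starRingEnd ℂ) (Z (p' * m))) := by
    unfold TT
    refine Finset.sum_congr ?_ (fun _ _ => rfl)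
    ext m
    simp only [Finset.mem_Icc, Finset.mem_Ico]
    omega
  rw [e1]
  refine blocks _ l _ (by positivity) ?_ (M / l + 1) 1 (M + 1) ?_
  · intro s t hst
    have h3 := abel (fun m => ee (α * ((p : ℝ) - p') * m))
      (fun m => Z (p * m) * (starRingEnd ℂ) (Z (p' * m))) s t l (B ^ 2) (2 * B * D)
      (Fd α l (dst p p')) hst (by positivity) (by positivity) hF0 ?_ ?_ ?_
    · refine h3.trans ?_
      refine mul_le_mul_of_nonneg_right ?_ hF0
      nlinarith [mul_le_mul_of_nonneg_left hlD hB]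
    · intro m
      rw [norm_mul, RCLike.norm_conj, sq]
      exact mul_le_mul (hZ _) (hZ _) (norm_nonneg _) hB
    · intro m
      have e2 : Z (p * (m + 1)) * (starRingEnd ℂ) (Z (p' * (m + 1))) -
          Z (p * m) * (starRingEnd ℂ) (Z (p' * m)) =
          (Z (p * (m + 1)) - Z (p * m)) * (starRingEnd ℂ) (Z (p' * (m + 1))) +
          Z (p * m) * (starRingEnd ℂ) (Z (p' * (m + 1)) - Z (p' * m)) := by
        rw [map_sub]
        ring
      rw [e2]
      refine (norm_add_le _ _).trans ?_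
      rw [norm_mul, norm_mul, RCLike.norm_conj, RCLike.norm_conj]
      have h4 := mul_le_mul (h1 m) (hZ (p' * (m + 1))) (norm_nonneg _) hD
      have h5 := mul_le_mul (hZ (p * m)) (h2 m) (norm_nonneg _) hB
      linarith
    · intro u hu
      exact geoD α l p p' s u hu
  · have h3 := Nat.div_add_mod M l
    have h4 := Nat.mod_lt M (by omega : 0 < l)
    have e3 : (M / l + 1) * l = l * (M / l) + l := by ring
    omega

lemma sum_dst (P : Finset ℕ) (K p : ℕ) (F : ℕ → ℝ) (hF : ∀ k, 0 ≤ F k)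
    (hP : ∀ p' ∈ P, p' ≤ K) (hp : p ≤ K) :
    ∑ p' ∈ P.erase p, F (dst p p') ≤ 2 * ∑ k ∈ Icc 1 K, F k := by
  have e1 : ∑ p' ∈ P.erase p, F (dst p p') =
      ∑ p' ∈ (P.erase p).filter (fun p' => p' < p), F (dst p p') +
      ∑ p' ∈ (P.erase p).filter (fun p' => ¬ p' < p), F (dst p p') :=
    (Finset.sum_filter_add_sum_filter_not _ _ _).symm
  have h1 : ∑ p' ∈ (P.erase p).filter (fun p' => p' < p), F (dst p p') ≤ ∑ k ∈ Icc 1 K, F k := by
    rw [← Finset.sum_image (f := F) (g := fun p' => dst p p')]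
    · refine Finset.sum_le_sum_of_subset_of_nonneg ?_ (fun k _ _ => hF k)
      intro k hk
      rw [Finset.mem_image] at hk
      obtain ⟨p', hp', rfl⟩ := hk
      rw [Finset.mem_filter] at hp'
      rw [Finset.mem_Icc]
      unfold dst
      omega
    · intro x hx y hy hxy
      rw [Finset.mem_coe, Finset.mem_filter] at hx hy
      simp only [dst] at hxy
      omega
  have h2 : ∑ p' ∈ (P.erase p).filter (fun p' => ¬ p' < p), F (dst p p') ≤
      ∑ k ∈ Icc 1 K, F k := by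
    rw [← Finset.sum_image (f := F) (g := fun p' => dst p p')]
    · refine Finset.sum_le_sum_of_subset_of_nonneg ?_ (fun k _ _ => hF k)
      intro k hk
      rw [Finset.mem_image] at hk
      obtain ⟨p', hp', rfl⟩ := hk
      rw [Finset.mem_filter, Finset.mem_erase] at hp'
      have h3 := hP p' hp'.1.2
      rw [Finset.mem_Icc]
      unfold dst
      omega
    · intro x hx y hy hxy
      rw [Finset.mem_coe, Finset.mem_filter] at hx hy
      simp only [dst] at hxy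
      omega
  rw [e1]
  linarith

/-- the bound for `E` -/
lemma E_bound (α : ℝ) (M l K : ℕ) (P : Finset ℕ) (Z : ℕ → ℂ) (B D Q : ℝ)
    (hZ : ∀ n, ‖Z n‖ ≤ B) (hB : 0 ≤ B) (hl : 1 ≤ l) (hD : 0 ≤ D)
    (h1 : ∀ p ∈ P, ∀ m, ‖Z (p * (m + 1)) - Z (p * m)‖ ≤ D) (hlD : l * D ≤ 4 * B)
    (hP : ∀ p ∈ P, p ≤ K) (hQ : ∑ k ∈ Icc 1 K, Fd α l k ≤ Q) :
    ∑ m ∈ Icc 1 M, ‖∑ p ∈ P, ee (α * (p * m : ℕ)) * Z (p * m)‖ ^ 2 ≤
      P.card * (M * B ^ 2 + (M / l + 1 : ℕ) * (9 * B ^ 2 * (2 * Q))) := by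
  refine (E_le α M P Z).trans ?_
  have h2 : ∀ p ∈ P, ∑ p' ∈ P, ‖TT α M Z p p'‖ ≤
      M * B ^ 2 + (M / l + 1 : ℕ) * (9 * B ^ 2 * (2 * Q)) := by
    intro p hp
    rw [← Finset.add_sum_erase P _ hp]
    refine add_le_add (TT_diag α M Z B hZ hB p) ?_
    have h3 : ∑ p' ∈ P.erase p, ‖TT α M Z p p'‖ ≤
        ∑ p' ∈ P.erase p, (M / l + 1 : ℕ) * (9 * B ^ 2 * Fd α l (dst p p')) := by
      refine Finset.sum_le_sum (fun p' hp' => ?_)
      exact TT_off α M l Z B D hZ hB hl p p' hD (h1 p hp) (h1 p' (Finset.mem_of_mem_erase hp')) hlD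
    refine h3.trans ?_
    rw [← Finset.mul_sum, ← Finset.mul_sum]
    have h4 := sum_dst P K p (Fd α l) (fun k => (Fd_spec α l k).1) hP (hP p hp)
    have h5 : ∑ p' ∈ P.erase p, Fd α l (dst p p') ≤ 2 * Q := by linarith
    refine mul_le_mul_of_nonneg_left ?_ (Nat.cast_nonneg _)
    exact mul_le_mul_of_nonneg_left h5 (by positivity)
  refine (Finset.sum_le_sum h2).trans ?_
  rw [Finset.sum_const, nsmul_eq_mul]

lemma num1 (A W H q l Λ K : ℝ) (hW : 2 ≤ W) (hWA : W ≤ A) (hAH : A ^ 2 ≤ H) (hWq : W ≤ q)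
    (hqW : q * W ≤ H) (hl : H / (2 * A) ≤ l) (hΛ : 1 ≤ Λ) (hK0 : 0 ≤ K) (hK : K ≤ 2 * A) :
    (K / q + 1) * ((l + q * Λ) / l) ≤ 9 * A * Λ / W := by
  have hA : 0 < A := by linarith
  have hq : 0 < q := by linarith
  have hH : 0 < H := by nlinarith
  have hW0 : 0 < W := by linarith
  have hl0 : 0 < l := lt_of_lt_of_le (by positivity) hl
  have h1 : K / q ≤ 2 * A / q := div_le_div_of_nonneg_right hK hq.le
  have h2 : (l + q * Λ) / l = 1 + q * Λ / l := by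
    rw [add_div, div_self hl0.ne']
  have h3 : q * Λ / l ≤ 2 * A * q * Λ / H := by
    rw [div_le_div_iff₀ hl0 hH]
    rw [div_le_iff₀ (by positivity)] at hl
    have h0 : 0 ≤ q * Λ := by positivity
    have h01 := mul_le_mul_of_nonneg_left hl h0
    linarith
  have hKq : 0 ≤ K / q := by positivity
  have h4 : (K / q + 1) * ((l + q * Λ) / l) ≤ (2 * A / q + 1) * (1 + 2 * A * q * Λ / H) := by
    rw [h2]
    refine mul_le_mul (by linarith) (by linarith) (by positivity) (by linarith)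
  have h5 : (2 * A / q + 1) * (1 + 2 * A * q * Λ / H) =
      2 * A / q + 4 * A ^ 2 * Λ / H + 1 + 2 * A * q * Λ / H := by
    field_simp
    ring
  have h6 : 2 * A / q ≤ 2 * (A * Λ / W) := by
    rw [← mul_div_assoc, div_le_div_iff₀ hq hW0]
    have h7 : A * W ≤ A * q := mul_le_mul_of_nonneg_left hWq hA.le
    have h71 := mul_le_mul_of_nonneg_left hΛ (by positivity : 0 ≤ A * q)
    linarith
  have h8 : 1 ≤ A * Λ / W := by
    rw [le_div_iff₀ hW0]
    have h81 := mul_le_mul_of_nonneg_left hΛ hA.le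
    linarith
  have h9 : Λ ≤ A * Λ / W := by
    rw [le_div_iff₀ hW0]
    have h91 := mul_le_mul_of_nonneg_left hWA (by linarith : 0 ≤ Λ)
    linarith
  have h10 : 4 * A ^ 2 * Λ / H ≤ 4 * Λ := by
    rw [div_le_iff₀ hH]
    have h101 := mul_le_mul_of_nonneg_right hAH (by linarith : 0 ≤ Λ)
    linarith
  have h11 : 2 * A * q * Λ / H ≤ 2 * (A * Λ / W) := by
    rw [← mul_div_assoc, div_le_div_iff₀ hH hW0]
    have h111 := mul_le_mul_of_nonneg_left hqW (by positivity : 0 ≤ A * Λ)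
    linarith
  have h12 : 9 * A * Λ / W = 9 * (A * Λ / W) := by ring
  rw [h12]
  linarith

end MINM

open MINM in
theorem specMIN (hDIR : SpecDIR) : SpecMIN := by
  obtain ⟨C0, hC0, hdir⟩ := hDIR
  refine ⟨16 * (32 + 10368 * C0), by positivity, ?_⟩
  intro N A W C₁ α H J q a b c hC1 hW hWA hAH hHN hb hc hbm hcn hq hcop hα hWq hqW
  have hA : 2 ≤ A := hW.trans hWA
  have hA0 : 0 < A := by linarith
  have hW0 : 0 < W := by linarith
  have hH4 : (4 : ℝ) ≤ H := by nlinarith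
  have hH0 : (0 : ℝ) < H := by linarith
  have hH1 : 1 ≤ H := by exact_mod_cast (by linarith : (1 : ℝ) ≤ H)
  have hN0 : 0 < N := by linarith
  have hq1 : (1 : ℝ) ≤ q := by exact_mod_cast hq
  have hqH : (q : ℝ) ≤ H :=
    (le_mul_of_one_le_right (by linarith) (by linarith)).trans hqW
  obtain ⟨M, hM⟩ : ∃ M : ℕ, M = ⌊16 * N / A⌋₊ := ⟨_, rfl⟩
  obtain ⟨l, hl⟩ : ∃ l : ℕ, l = ⌊(H : ℝ) / A⌋₊ := ⟨_, rfl⟩
  obtain ⟨K, hK⟩ : ∃ K : ℕ, K = ⌊2 * A⌋₊ := ⟨_, rfl⟩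
  have hHA : A ≤ H / A := by
    rw [le_div_iff₀ hA0, ← sq]
    exact hAH
  have hlle : (l : ℝ) ≤ H / A := by
    rw [hl]
    exact Nat.floor_le (by positivity)
  have hllt : (H : ℝ) / A < l + 1 := by
    rw [hl]
    exact Nat.lt_floor_add_one _
  have hlR : (1 : ℝ) < l := by linarith
  have hl1 : 1 ≤ l := by exact_mod_cast hlR.le
  have hl0 : (0 : ℝ) < l := by linarith
  have hlge : (H : ℝ) / (2 * A) ≤ l := by
    have e : (H : ℝ) / (2 * A) = H / A / 2 := by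
      field_simp
    rw [e]
    linarith
  have hlA : l * A ≤ H := by
    rw [le_div_iff₀ hA0] at hlle
    exact hlle
  have hMle : (M : ℝ) ≤ 16 * N / A := by
    rw [hM]
    exact Nat.floor_le (by positivity)
  have hKle : (K : ℝ) ≤ 2 * A := by
    rw [hK]
    exact Nat.floor_le (by positivity)
  have hP : ∀ p ∈ PR A, 0 < p ∧ p ≤ K := by
    intro p hp
    unfold PR IO at hp
    rw [Finset.mem_filter, Finset.mem_Ioc] at hp
    exact ⟨hp.2.pos, hK ▸ hp.1.2⟩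
  have hcard : ((PR A).card : ℝ) ≤ 2 * A := by
    refine le_trans ?_ hKle
    have h1 : PR A ⊆ Ioc 0 K := by
      intro p hp
      rw [Finset.mem_Ioc]
      exact hP p hp
    have h2 := Finset.card_le_card h1
    rw [Nat.card_Ioc, Nat.sub_zero] at h2
    exact_mod_cast h2
  have hbM : ∀ m, b m ≠ 0 → m ∈ Icc 1 M := by
    intro m hm
    obtain ⟨h1, h2⟩ := hbm m hm
    rw [Finset.mem_Icc, hM]
    exact ⟨h1, Nat.le_floor h2⟩
  have hC10 : 0 ≤ C₁ := by linarith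
  -- the bound for E
  obtain ⟨B, hBdef⟩ : ∃ B : ℝ, B = H * (H * C₁) := ⟨_, rfl⟩
  have hB : 0 ≤ B := by
    rw [hBdef]
    positivity
  obtain ⟨Λ, hΛdef⟩ : ∃ Λ : ℝ, Λ = 1 + Real.log H := ⟨_, rfl⟩
  have hΛ : 1 ≤ Λ := by
    rw [hΛdef]
    have := Real.log_nonneg (by linarith : (1 : ℝ) ≤ H)
    linarith
  have hlogq : Real.log q ≤ Real.log H := Real.log_le_log (by linarith) hqH
  have hlogq0 : 0 ≤ Real.log q := Real.log_nonneg hq1
  have hQ := hdir α a q K (Fd α l) l hq hcop hα hl0.le (fun k => Fd_spec α l k)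
  have hQ2 : ∑ k ∈ Icc 1 K, Fd α l k ≤ C0 * ((K : ℝ) / q + 1) * (l + q * Λ) := by
    refine hQ.trans ?_
    refine mul_le_mul_of_nonneg_left ?_ (by positivity)
    have : (q : ℝ) * (1 + Real.log q) ≤ q * Λ := by
      refine mul_le_mul_of_nonneg_left ?_ (by positivity)
      rw [hΛdef]
      linarith
    linarith
  have hE := E_bound α M l K (PR A) (Zn α H J c) B (2 * A * (2 * (H * C₁)))
    (C0 * ((K : ℝ) / q + 1) * (l + q * Λ))
    (fun n => by rw [hBdef]; exact norm_Zn α H J c C₁ hC10 hc n) hB hl1 (by positivity)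
    (by
      intro p hp m
      have h1 := steps_Zn α H J c C₁ hC10 hc hH1 (p * m) p
      have e : p * (m + 1) = p * m + p := by ring
      rw [e]
      refine h1.trans ?_
      refine mul_le_mul_of_nonneg_right ?_ (by positivity)
      have h2 : (p : ℝ) ≤ K := by exact_mod_cast (hP p hp).2
      linarith)
    (by
      rw [hBdef]
      have h1 : 0 ≤ (H : ℝ) * C₁ := by positivity
      have h2 := mul_le_mul_of_nonneg_right hlA h1
      linarith)
    (fun p hp => (hP p hp).2) hQ2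
  obtain ⟨E, hEdef⟩ : ∃ E : ℝ, E = ∑ m ∈ Icc 1 M, ‖∑ p ∈ PR A, ee (α * (p * m : ℕ)) *
      Zn α H J c (p * m)‖ ^ 2 := ⟨_, rfl⟩
  rw [← hEdef] at hE
  have hE0 : 0 ≤ E := by
    rw [hEdef]
    exact Finset.sum_nonneg (fun _ _ => by positivity)
  have hblk : ((M / l + 1 : ℕ) : ℝ) ≤ 32 * N / (A * l) := by
    push_cast
    have h1 : ((M / l : ℕ) : ℝ) ≤ M / l := Nat.cast_div_le
    have h2 : (M : ℝ) / l ≤ 16 * N / (A * l) := by
      rw [← div_div]
      exact div_le_div_of_nonneg_right hMle hl0.le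
    have h3 : 1 ≤ 16 * N / (A * l) := by
      rw [le_div_iff₀ (by positivity)]
      linarith
    have h4 : 32 * N / (A * l) = 16 * N / (A * l) + 16 * N / (A * l) := by ring
    linarith
  have hnum := num1 A W H q l Λ K hW hWA hAH hWq hqW hlge hΛ (Nat.cast_nonneg _) hKle
  have hE2 : E ≤ (32 + 10368 * C0) * (B ^ 2 * N * (A * Λ / W)) := by
    have h1 : (M : ℝ) * B ^ 2 ≤ 16 * N / A * B ^ 2 :=
      mul_le_mul_of_nonneg_right hMle (by positivity)
    have h2 : ((M / l + 1 : ℕ) : ℝ) * (9 * B ^ 2 * (2 * (C0 * ((K : ℝ) / q + 1) * (l + q * Λ)))) ≤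
        32 * N / (A * l) * (9 * B ^ 2 * (2 * (C0 * ((K : ℝ) / q + 1) * (l + q * Λ)))) :=
      mul_le_mul_of_nonneg_right hblk (by positivity)
    have h3 : E ≤ 2 * A * (16 * N / A * B ^ 2 +
        32 * N / (A * l) * (9 * B ^ 2 * (2 * (C0 * ((K : ℝ) / q + 1) * (l + q * Λ))))) := by
      refine hE.trans ?_
      refine mul_le_mul hcard (by linarith) (by positivity) (by positivity)
    have h4 : 2 * A * (16 * N / A * B ^ 2 +
        32 * N / (A * l) * (9 * B ^ 2 * (2 * (C0 * ((K : ℝ) / q + 1) * (l + q * Λ))))) =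
        32 * (B ^ 2 * N) + 1152 * C0 * (B ^ 2 * N) * (((K : ℝ) / q + 1) * ((l + q * Λ) / l)) := by
      field_simp
      ring
    have h5 : 0 ≤ 1152 * C0 * (B ^ 2 * N) := by positivity
    have h6 := mul_le_mul_of_nonneg_left hnum h5
    have h7 : 1 ≤ A * Λ / W := by
      rw [le_div_iff₀ hW0]
      have h71 := mul_le_mul_of_nonneg_left hΛ hA0.le
      linarith
    have h8 : 0 ≤ B ^ 2 * N := by positivity
    have h9 := mul_le_mul_of_nonneg_left h7 h8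
    have h10 : 1152 * C0 * (B ^ 2 * N) * (9 * A * Λ / W) =
        10368 * C0 * (B ^ 2 * N * (A * Λ / W)) := by ring
    rw [h4] at h3
    rw [h10] at h6
    linarith
  -- Cauchy-Schwarz
  obtain ⟨S, hSdef⟩ : ∃ S : ℝ, S = ∑ j ∈ range J, ‖Sj α H c j‖ ^ 2 := ⟨_, rfl⟩
  have hS0 : 0 ≤ S := by
    rw [hSdef]
    exact Finset.sum_nonneg (fun _ _ => by positivity)
  have hS1 : S ^ 2 ≤ 16 * N / A * C₁ ^ 2 * E := by
    have h1 := main_id α H J M (PR A) b c (fun p hp => (hP p hp).1) hbM hcn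
    rw [← hSdef] at h1
    have h2 := congrArg norm h1
    rw [Complex.norm_real, Real.norm_of_nonneg hS0] at h2
    have h3 : S ≤ ∑ m ∈ Icc 1 M, |b m| * ‖∑ p ∈ PR A, ee (α * (p * m : ℕ)) *
        Zn α H J c (p * m)‖ := by
      rw [h2]
      refine (norm_sum_le _ _).trans (Finset.sum_le_sum (fun m _ => ?_))
      rw [norm_mul, Complex.norm_real, Real.norm_eq_abs]
    have h4 := Finset.sum_mul_sq_le_sq_mul_sq (Icc 1 M) (fun m => |b m|)
      (fun m => ‖∑ p ∈ PR A, ee (α * (p * m : ℕ)) * Zn α H J c (p * m)‖)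
    have h5 : S ^ 2 ≤ (∑ m ∈ Icc 1 M, |b m| * ‖∑ p ∈ PR A, ee (α * (p * m : ℕ)) *
        Zn α H J c (p * m)‖) ^ 2 := pow_le_pow_left₀ hS0 h3 2
    have h6 : ∑ m ∈ Icc 1 M, |b m| ^ 2 ≤ 16 * N / A * C₁ ^ 2 := by
      have h7 : ∀ m ∈ Icc 1 M, |b m| ^ 2 ≤ C₁ ^ 2 := fun m _ =>
        pow_le_pow_left₀ (abs_nonneg _) (hb m) 2
      refine (Finset.sum_le_sum h7).trans ?_
      rw [Finset.sum_const, Nat.card_Icc, nsmul_eq_mul, Nat.add_sub_cancel]
      exact mul_le_mul_of_nonneg_right hMle (by positivity)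
    refine (h5.trans h4).trans ?_
    rw [hEdef]
    exact mul_le_mul_of_nonneg_right h6 (Finset.sum_nonneg (fun _ _ => by positivity))
  have hgoal : ∑ j ∈ range J, ‖∑ n ∈ Ioc j (j + H), (c n : ℂ) * ee (α * n)‖ ^ 2 = S := by
    rw [hSdef]
    rfl
  rw [hgoal, ← hΛdef]
  have hWh : 1 ≤ W ^ ((1 : ℝ) / 2) := Real.one_le_rpow (by linarith) (by norm_num)
  have hWh2 : W ^ ((1 : ℝ) / 2) ≤ W := by
    calc W ^ ((1 : ℝ) / 2) ≤ W ^ (1 : ℝ) :=
          Real.rpow_le_rpow_of_exponent_le (by linarith) (by norm_num)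
      _ = W := Real.rpow_one W
  have hR0 : 0 ≤ Λ / W ^ ((1 : ℝ) / 2) := by positivity
  have hRsq : ((Λ / W ^ ((1 : ℝ) / 2)) ^ ((1 : ℝ) / 2)) ^ 2 = Λ / W ^ ((1 : ℝ) / 2) := by
    rw [← Real.rpow_natCast, ← Real.rpow_mul hR0]
    norm_num
  have hC : 1 ≤ 16 * (32 + 10368 * C0) := by linarith
  rw [← pow_le_pow_iff_left₀ hS0 (by positivity) (two_ne_zero)]
  have e1 : (16 * (32 + 10368 * C0) * C₁ ^ 2 * N * (H : ℝ) ^ 2 *
      (Λ / W ^ ((1 : ℝ) / 2)) ^ ((1 : ℝ) / 2)) ^ 2 =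
      (16 * (32 + 10368 * C0)) * ((16 * (32 + 10368 * C0)) *
        (C₁ ^ 4 * N ^ 2 * (H : ℝ) ^ 4 * (Λ / W ^ ((1 : ℝ) / 2)))) := by
    rw [mul_pow, hRsq]
    ring
  rw [e1]
  have h1 : Λ / W ≤ Λ / W ^ ((1 : ℝ) / 2) :=
    div_le_div_of_nonneg_left (by linarith) (by linarith) hWh2
  have h2 : 16 * N / A * C₁ ^ 2 * E ≤ (16 * (32 + 10368 * C0)) *
      (C₁ ^ 4 * N ^ 2 * (H : ℝ) ^ 4 * (Λ / W)) := by
    have h3 := mul_le_mul_of_nonneg_left hE2 (by positivity : 0 ≤ 16 * N / A * C₁ ^ 2)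
    refine h3.trans (le_of_eq ?_)
    rw [hBdef]
    field_simp
  have h4 : (16 * (32 + 10368 * C0)) * (C₁ ^ 4 * N ^ 2 * (H : ℝ) ^ 4 * (Λ / W)) ≤
      (16 * (32 + 10368 * C0)) * (C₁ ^ 4 * N ^ 2 * (H : ℝ) ^ 4 * (Λ / W ^ ((1 : ℝ) / 2))) := by
    refine mul_le_mul_of_nonneg_left ?_ (by linarith)
    exact mul_le_mul_of_nonneg_left h1 (by positivity)
  have h5 : 0 ≤ (16 * (32 + 10368 * C0)) *
      (C₁ ^ 4 * N ^ 2 * (H : ℝ) ^ 4 * (Λ / W ^ ((1 : ℝ) / 2))) := by positivity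
  have h6 := mul_le_mul_of_nonneg_right hC h5
  linarith

end Pool.Agent.Lib.MP3efbeb.LG
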