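import Pool.Agent.Lib.MP_3efbeb_nt.LG.SpecC
import Pool.Agent.Lib.MP_3efbeb_nt.SV.Sieve
import Pool.Agent.Lib.MP_391708_nt.QPA.PNT
import Pool.Agent.Lib.MP_391708_nt.QPA.PNTAP

set_option autoImplicit false

namespace Pool.Agent.Lib.MP3efbeb.LG

open Finset MeasureTheory
open Pool.Agent.Lib.MP391708.QPA (PB rInd Wp Rough)

noncomputable section

namespace MT2M

/-! ## Counting in a class -/

lemma card_class {N Q : ℕ} (hQ : 1 ≤ Q) (T : Finset ℕ) (hT : T ⊆ Ioc N (2 * N))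
    (hc : ∀ a ∈ T, ∀ b ∈ T, a ≤ b → Q ∣ b - a) : (T.card : ℝ) ≤ N / Q + 1 := by
  have inj : ∀ a ∈ T, ∀ b ∈ T, a ≤ b → (a - N - 1) / Q = (b - N - 1) / Q → a = b := by
    intro a ha b hb hab h
    obtain ⟨t, ht⟩ := hc a ha b hb hab
    have h1 := mem_Ioc.1 (hT ha)
    have h2 := mem_Ioc.1 (hT hb)
    have h3 : b - N - 1 = (a - N - 1) + Q * t := by omega
    rw [h3, Nat.add_mul_div_left _ _ (by omega)] at h
    have h4 : t = 0 := by omega
    rw [h4] at ht
    omega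
  have h : T.card ≤ (range (N / Q + 1)).card := by
    refine card_le_card_of_injOn (fun n => (n - N - 1) / Q) ?_ ?_
    · intro n hn
      have h1 := mem_Ioc.1 (hT hn)
      rw [mem_coe, mem_range]
      exact Nat.lt_succ_of_le (Nat.div_le_div_right (by omega))
    · intro a ha b hb hab
      rcases le_total a b with h | h
      · exact inj a ha b hb h hab
      · exact (inj b hb a ha h hab.symm).symm
  rw [card_range] at h
  have h1 : ((N / Q : ℕ) : ℝ) ≤ (N : ℝ) / Q := Nat.cast_div_le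
  have h2 : (T.card : ℝ) ≤ ((N / Q + 1 : ℕ) : ℝ) := by exact_mod_cast h
  push_cast at h2
  linarith

lemma prod_dvd_sub {k : ℕ} (f h : Fin k → ℕ) (hf : ∀ i j, i ≠ j → (f i).Coprime (f j)) {a b : ℕ}
    (hab : a ≤ b) (ha : ∀ i, f i ∣ a + h i) (hb : ∀ i, f i ∣ b + h i) : ∏ i, f i ∣ b - a := by
  have h1 : ∀ i, f i ∣ b - a := fun i => by
    have h2 := (Nat.dvd_sub (hb i) (ha i))
    have h3 : b + h i - (a + h i) = b - a := by omega
    rwa [h3] at h2
  have h4 : ((∏ i, (f i : ℤ)) : ℤ) ∣ ((b - a : ℕ) : ℤ) := by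
    refine Finset.prod_dvd_of_coprime ?_ (fun i _ => by exact_mod_cast h1 i)
    intro i _ j _ hij
    exact Nat.isCoprime_iff_coprime.2 (hf i j hij)
  exact_mod_cast h4

lemma prod_update' {k : ℕ} (m : Fin k → ℕ) (i : Fin k) (l : ℕ) :
    ∏ j, Function.update m i (l * m i) j = l * ∏ j, m j := by
  rw [Finset.prod_update_of_mem (mem_univ i), mul_assoc]
  congr 1
  rw [← Finset.prod_eq_mul_prod_sdiff_singleton_of_mem (mem_univ i)]

/-- the bad integers -/
def Bad {k : ℕ} (N : ℕ) (h m : Fin k → ℕ) : Finset ℕ :=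
  (univ : Finset (Fin k)).biUnion fun i => (m i).primeFactors.biUnion fun l =>
    (Ioc N (2 * N)).filter (fun n => (∀ j, m j ∣ n + h j) ∧ l * m i ∣ n + h i)

lemma Bad_card {k : ℕ} (N : ℕ) (h m : Fin k → ℕ) (r : Fin k → ℕ) (y : ℝ) (hy : 1 ≤ y)
    (hm : ∀ i, 1 ≤ m i) (hmc : ∀ i j, i ≠ j → (m i).Coprime (m j))
    (hr : ∀ i, (m i).primeFactors.card ≤ r i)
    (hl : ∀ i, ∀ l ∈ (m i).primeFactors, y < l) :
    ((Bad N h m).card : ℝ) ≤ (∑ i, (r i : ℝ)) * (N / y * (1 / ∏ i, (m i : ℝ)) + 1) := by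
  have hP : (0 : ℝ) < ∏ i, (m i : ℝ) := prod_pos fun i _ => by
    have : (1 : ℝ) ≤ m i := by exact_mod_cast hm i
    linarith
  have hX : 0 ≤ (N : ℝ) / y * (1 / ∏ i, (m i : ℝ)) + 1 := by positivity
  have h1 : ∀ i, ∀ l ∈ (m i).primeFactors,
      (((Ioc N (2 * N)).filter (fun n => (∀ j, m j ∣ n + h j) ∧ l * m i ∣ n + h i)).card : ℝ) ≤
        N / y * (1 / ∏ i, (m i : ℝ)) + 1 := by
    intro i l hli
    have hlp := Nat.prime_of_mem_primeFactors hli
    have hlm := Nat.dvd_of_mem_primeFactors hli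
    have hcop : ∀ a b, a ≠ b → (Function.update m i (l * m i) a).Coprime
        (Function.update m i (l * m i) b) := by
      have key : ∀ b, b ≠ i → (l * m i).Coprime (m b) := fun b hb =>
        Nat.Coprime.mul_left ((hmc i b (Ne.symm hb)).coprime_dvd_left hlm) (hmc i b (Ne.symm hb))
      intro a b hab
      by_cases ha : a = i
      · subst ha
        rw [Function.update_self, Function.update_of_ne (Ne.symm hab)]
        exact key b (Ne.symm hab)
      · by_cases hb : b = i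
        · subst hb
          rw [Function.update_self, Function.update_of_ne ha]
          exact (key a ha).symm
        · rw [Function.update_of_ne ha, Function.update_of_ne hb]
          exact hmc a b hab
    have hQ : 1 ≤ l * ∏ j, m j := Nat.mul_pos hlp.pos (prod_pos fun j _ => hm j)
    have h2 := card_class hQ
      ((Ioc N (2 * N)).filter (fun n => (∀ j, m j ∣ n + h j) ∧ l * m i ∣ n + h i))
      (filter_subset _ _) (fun a ha b hb hab => by
        rw [← prod_update' m i l]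
        have ha' := (mem_filter.1 ha).2
        have hb' := (mem_filter.1 hb).2
        refine prod_dvd_sub _ h hcop hab (fun j => ?_) (fun j => ?_)
        · by_cases hj : j = i
          · subst hj
            rw [Function.update_self]
            exact ha'.2
          · rw [Function.update_of_ne hj]
            exact ha'.1 j
        · by_cases hj : j = i
          · subst hj
            rw [Function.update_self]
            exact hb'.2
          · rw [Function.update_of_ne hj]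
            exact hb'.1 j)
    refine h2.trans ?_
    have h3 : (N : ℝ) / ((l * ∏ j, m j : ℕ) : ℝ) ≤ N / y * (1 / ∏ i, (m i : ℝ)) := by
      rw [div_mul_div_comm, mul_one]
      push_cast
      refine div_le_div_of_nonneg_left (Nat.cast_nonneg _) (by positivity) ?_
      exact mul_le_mul_of_nonneg_right (hl i l hli).le hP.le
    linarith
  have h2 : (Bad N h m).card ≤ ∑ i, ∑ l ∈ (m i).primeFactors,
      ((Ioc N (2 * N)).filter (fun n => (∀ j, m j ∣ n + h j) ∧ l * m i ∣ n + h i)).card :=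
    card_biUnion_le.trans (sum_le_sum fun i _ => card_biUnion_le)
  calc ((Bad N h m).card : ℝ) ≤ ((∑ i, ∑ l ∈ (m i).primeFactors,
      ((Ioc N (2 * N)).filter (fun n => (∀ j, m j ∣ n + h j) ∧ l * m i ∣ n + h i)).card : ℕ) : ℝ) := by
        exact_mod_cast h2
    _ = ∑ i, ∑ l ∈ (m i).primeFactors,
      (((Ioc N (2 * N)).filter (fun n => (∀ j, m j ∣ n + h j) ∧ l * m i ∣ n + h i)).card : ℝ) := by
        push_cast
        rfl
    _ ≤ ∑ i, ∑ l ∈ (m i).primeFactors, (N / y * (1 / ∏ i, (m i : ℝ)) + 1) :=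
        sum_le_sum fun i _ => sum_le_sum fun l hl => h1 i l hl
    _ ≤ ∑ i, (r i : ℝ) * (N / y * (1 / ∏ i, (m i : ℝ)) + 1) := by
        refine sum_le_sum fun i _ => ?_
        rw [sum_const, nsmul_eq_mul]
        exact mul_le_mul_of_nonneg_right (by exact_mod_cast hr i) hX
    _ = (∑ i, (r i : ℝ)) * (N / y * (1 / ∏ i, (m i : ℝ)) + 1) := by rw [sum_mul]

/-! ## Counting representations -/

/-- a pairwise coprime system with a cofactor -/
def Sys {k : ℕ} (m : Fin k → ℕ) (δ : ℕ) : Prop :=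
  (∀ i, 1 ≤ m i) ∧ (∀ i j, i ≠ j → (m i).Coprime (m j)) ∧ δ.Coprime (∏ i, m i)

open Classical in
/-- the part a prime belongs to -/
def Phi {k : ℕ} (m : Fin k → ℕ) (p : ℕ) : Option (Fin k) :=
  if h : ∃ i, p ∣ m i then some h.choose else none

lemma Phi_iff {k : ℕ} {m : Fin k → ℕ} {δ p : ℕ} (hs : Sys m δ) (hp : p.Prime) (i : Fin k) :
    Phi m p = some i ↔ p ∣ m i := by
  unfold Phi
  constructor
  · intro h
    split_ifs at h with h1
    · have h2 : h1.choose = i := Option.some.inj h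
      rw [← h2]
      exact h1.choose_spec
  · intro h
    have h1 : ∃ i, p ∣ m i := ⟨i, h⟩
    rw [dif_pos h1]
    congr 1
    by_contra hne
    have h2 := hs.2.1 _ _ hne
    exact Nat.Prime.not_coprime_iff_dvd.2 ⟨p, hp, h1.choose_spec, h⟩ h2

lemma Sys_dvd {k : ℕ} {m m' : Fin k → ℕ} {δ δ' : ℕ} (hs : Sys m δ) (hs' : Sys m' δ')
    (hQ : δ * ∏ i, m i = δ' * ∏ i, m' i)
    (hPhi : ∀ p : ℕ, p.Prime → p ∣ δ * ∏ i, m i → Phi m p = Phi m' p) (i : Fin k) : m i ∣ m' i := by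
  have h0 : ∏ j, m' j = m' i * ∏ j ∈ univ.erase i, m' j := (mul_prod_erase _ _ (mem_univ i)).symm
  have h1 : (m i).Coprime (δ' * ∏ j ∈ univ.erase i, m' j) := by
    by_contra hn
    obtain ⟨p, hp, h2, h3⟩ := Nat.Prime.not_coprime_iff_dvd.1 hn
    have h4 : p ∣ δ * ∏ j, m j := (h2.trans (dvd_prod_of_mem m (mem_univ i))).trans (dvd_mul_left _ _)
    have h5 : p ∣ m' i := by
      rw [← Phi_iff hs' hp, ← hPhi p hp h4, Phi_iff hs hp]
      exact h2
    rcases (Nat.Prime.dvd_mul hp).1 h3 with h6 | h6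
    · refine Nat.Prime.not_coprime_iff_dvd.2 ⟨p, hp, h6, ?_⟩ hs'.2.2
      exact h5.trans (dvd_prod_of_mem m' (mem_univ i))
    · obtain ⟨j, hj, h7⟩ := (Prime.dvd_finsetProd_iff hp.prime _).1 h6
      exact Nat.Prime.not_coprime_iff_dvd.2 ⟨p, hp, h5, h7⟩ (hs'.2.1 i j (Ne.symm (mem_erase.1 hj).1))
  have h2 : m i ∣ m' i * (δ' * ∏ j ∈ univ.erase i, m' j) := by
    have h3 : m i ∣ δ * ∏ j, m j := (dvd_prod_of_mem m (mem_univ i)).trans (dvd_mul_left _ _)
    rw [hQ, h0] at h3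
    refine h3.trans (dvd_of_eq ?_)
    ring
  exact h1.dvd_of_dvd_mul_right h2

lemma fiber_card {k : ℕ} (Q : ℕ) (F : Finset ((_ : Fin k → ℕ) × ℕ))
    (hF : ∀ x ∈ F, Sys x.1 x.2 ∧ x.2 * ∏ i, x.1 i = Q) :
    F.card ≤ (k + 1) ^ Q.primeFactors.card := by
  have h1 : F.card ≤ (Q.primeFactors.pi (fun _ => (univ : Finset (Option (Fin k))))).card := by
    refine card_le_card_of_injOn (fun x => fun p _ => Phi x.1 p) ?_ ?_
    · intro x _
      rw [mem_coe, mem_pi]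
      intro p _
      exact mem_univ _
    · intro x hx x' hx' he
      obtain ⟨hs, hq⟩ := hF x hx
      obtain ⟨hs', hq'⟩ := hF x' hx'
      have hQ0 : Q ≠ 0 ∨ Q = 0 := (ne_or_eq Q 0)
      have he' : ∀ p : ℕ, p.Prime → p ∣ Q → Q ≠ 0 → Phi x.1 p = Phi x'.1 p := by
        intro p hp hpQ h0
        exact congrFun (congrFun he p) (Nat.mem_primeFactors.2 ⟨hp, hpQ, h0⟩)
      have hm : x.1 = x'.1 := by
        rcases hQ0 with h0 | h0
        · funext i
          refine Nat.dvd_antisymm ?_ ?_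
          · refine Sys_dvd hs hs' (by rw [hq, hq']) (fun p hp hd => ?_) i
            rw [hq] at hd
            exact he' p hp hd h0
          · refine Sys_dvd hs' hs (by rw [hq, hq']) (fun p hp hd => ?_) i
            rw [hq'] at hd
            exact (he' p hp hd h0).symm
        · -- `δ = 0`, so `∏ m = 1`
          have aux : ∀ y : (_ : Fin k → ℕ) × ℕ, Sys y.1 y.2 → y.2 * ∏ i, y.1 i = Q → ∀ i, y.1 i = 1 := by
            intro y hy hyq i
            have hpos : 0 < ∏ i, y.1 i := prod_pos fun j _ => hy.1 j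
            have hd : y.2 = 0 := by
              rw [h0] at hyq
              rcases Nat.mul_eq_zero.1 hyq with h | h
              · exact h
              · omega
            have hc := hy.2.2
            rw [hd, Nat.coprime_zero_left] at hc
            exact Nat.dvd_one.1 (hc ▸ dvd_prod_of_mem y.1 (mem_univ i))
          funext i
          rw [aux x hs hq i, aux x' hs' hq' i]
      have hd : x.2 = x'.2 := by
        have hpos : 0 < ∏ i, x.1 i := prod_pos fun j _ => hs.1 j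
        have h2 : x.2 * ∏ i, x.1 i = x'.2 * ∏ i, x.1 i := by
          rw [hq]
          rw [hm]
          exact hq'.symm
        exact Nat.eq_of_mul_eq_mul_right hpos h2
      exact Sigma.ext hm (heq_of_eq hd)
  refine h1.trans (le_of_eq ?_)
  rw [card_pi, prod_const, card_univ, Fintype.card_option, Fintype.card_fin]

lemma rep_sum {k : ℕ} (G : Finset (Fin k → ℕ)) (D : (Fin k → ℕ) → Finset ℕ) (Em : ℕ → ℝ) (X : ℕ)
    (hG : ∀ m ∈ G, ∀ δ ∈ D m, Sys m δ ∧ 1 ≤ δ ∧ δ * ∏ i, m i ≤ X) (hEm : ∀ Q, 1 ≤ Q → 0 ≤ Em Q)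
    (hk : 1 ≤ k) :
    ∑ m ∈ G, ∑ δ ∈ D m, (k : ℝ) ^ δ.primeFactors.card * Em (δ * ∏ i, m i) ≤
      ∑ Q ∈ Icc 1 X, ((k * (k + 1) : ℕ) : ℝ) ^ Q.primeFactors.card * Em Q := by
  classical
  rw [Finset.sum_sigma' G D (fun m δ => (k : ℝ) ^ δ.primeFactors.card * Em (δ * ∏ i, m i))]
  rw [← Finset.sum_fiberwise_of_maps_to (s := G.sigma D) (t := Icc 1 X)
    (g := fun x => x.2 * ∏ i, x.1 i)]
  · refine sum_le_sum fun Q hQ => ?_
    have hQ1 := (mem_Icc.1 hQ).1
    have hk1 : (1 : ℝ) ≤ k := by exact_mod_cast hk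
    have hF : ∀ x ∈ (G.sigma D).filter (fun x => x.2 * ∏ i, x.1 i = Q), Sys x.1 x.2 ∧
        x.2 * ∏ i, x.1 i = Q := by
      intro x hx
      obtain ⟨h1, h2⟩ := mem_filter.1 hx
      obtain ⟨h3, h4⟩ := mem_sigma.1 h1
      exact ⟨(hG _ h3 _ h4).1, h2⟩
    have hcard := fiber_card Q _ hF
    calc ∑ x ∈ (G.sigma D).filter (fun x => x.2 * ∏ i, x.1 i = Q),
          (k : ℝ) ^ x.2.primeFactors.card * Em (x.2 * ∏ i, x.1 i)
        ≤ ∑ x ∈ (G.sigma D).filter (fun x => x.2 * ∏ i, x.1 i = Q),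
          (k : ℝ) ^ Q.primeFactors.card * Em Q := by
          refine sum_le_sum fun x hx => ?_
          obtain ⟨h1, h2⟩ := hF x hx
          rw [h2]
          refine mul_le_mul_of_nonneg_right ?_ (hEm Q hQ1)
          refine pow_le_pow_right₀ hk1 (card_le_card ?_)
          refine Nat.primeFactors_mono ?_ (by omega)
          rw [← h2]
          exact dvd_mul_right _ _
      _ = (((G.sigma D).filter (fun x => x.2 * ∏ i, x.1 i = Q)).card : ℝ) *
          ((k : ℝ) ^ Q.primeFactors.card * Em Q) := by rw [sum_const, nsmul_eq_mul]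
      _ ≤ (((k + 1) ^ Q.primeFactors.card : ℕ) : ℝ) * ((k : ℝ) ^ Q.primeFactors.card * Em Q) := by
          refine mul_le_mul_of_nonneg_right (by exact_mod_cast hcard) ?_
          exact mul_nonneg (by positivity) (hEm Q hQ1)
      _ = ((k * (k + 1) : ℕ) : ℝ) ^ Q.primeFactors.card * Em Q := by
          push_cast
          rw [mul_pow]
          ring
  · intro x hx
    obtain ⟨h3, h4⟩ := mem_sigma.1 hx
    have h5 := hG _ h3 _ h4
    rw [mem_Icc]
    refine ⟨?_, h5.2.2⟩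
    exact Nat.mul_pos h5.2.1 (prod_pos fun j _ => h5.1.1 j)

/-! ## One tuple -/

lemma dvd_dl {k : ℕ} {h : Fin k → ℕ} {i j : Fin k} (hij : i ≠ j) {l : ℕ}
    (hl : l ∣ ((h i : ℤ) - h j).natAbs) : l ∣ dl h := by
  have key : ∀ a b : Fin k, a < b → l ∣ ((h a : ℤ) - h b).natAbs → l ∣ dl h := by
    intro a b hab h1
    unfold dl
    refine Dvd.dvd.mul_left ?_ _
    refine (h1.trans ?_).trans (dvd_prod_of_mem (fun i => ∏ j ∈ univ.filter (fun j => i < j),
      ((h i : ℤ) - h j).natAbs) (mem_univ a))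
    exact dvd_prod_of_mem (fun j => ((h a : ℤ) - h j).natAbs) (mem_filter.2 ⟨mem_univ b, hab⟩)
  rcases lt_or_gt_of_ne hij with h1 | h1
  · exact key i j h1 hl
  · refine key j i h1 ?_
    rw [← Int.natAbs_neg, neg_sub]
    exact hl

lemma rough_of {k : ℕ} {h m : Fin k → ℕ} {z : ℝ} {n : ℕ}
    (hcd : ∀ i, (m i).Coprime (dl h)) (hdiv : ∀ i, m i ∣ n + h i)
    (hz : ∀ i, ∀ l : ℕ, l.Prime → (l : ℝ) < z → ¬ l ∣ (∏ i, m i) → ¬ l ∣ n + h i)
    (hb : ∀ i, ∀ l : ℕ, l.Prime → l ∣ m i → ¬ l * m i ∣ n + h i) (i : Fin k) :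
    Rough z ((n + h i) / m i) := by
  intro l hl hd
  by_contra hlt
  have hlt' : (l : ℝ) < z := not_le.1 hlt
  obtain ⟨t, ht⟩ := hd
  have h1 : n + h i = m i * (l * t) := by
    rw [← ht, Nat.mul_div_cancel' (hdiv i)]
  have h2 : l * m i ∣ n + h i := ⟨t, by rw [h1]; ring⟩
  have h3 : l ∣ n + h i := (dvd_mul_right _ _).trans h2
  by_cases h4 : l ∣ ∏ i, m i
  · obtain ⟨j, _, hj⟩ := (Prime.dvd_finsetProd_iff hl.prime _).1 h4
    by_cases hij : i = j
    · subst hij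
      exact hb i l hl hj h2
    · have h5 : l ∣ n + h j := hj.trans (hdiv j)
      have h6 : (l : ℤ) ∣ ((h i : ℤ) - h j) := by
        have a1 : (l : ℤ) ∣ ((n + h i : ℕ) : ℤ) := by exact_mod_cast h3
        have a2 : (l : ℤ) ∣ ((n + h j : ℕ) : ℤ) := by exact_mod_cast h5
        have a3 := dvd_sub a1 a2
        push_cast at a3
        have a4 : (n : ℤ) + h i - (n + h j) = h i - h j := by ring
        rwa [a4] at a3
      have h7 := dvd_dl hij (Int.natCast_dvd.1 h6)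
      exact Nat.Prime.not_coprime_iff_dvd.2 ⟨l, hl, hj, h7⟩ (hcd j)
  · exact hz i l hl hlt' h4 h3

lemma tuple_ge {k : ℕ} (N : ℕ) (h m : Fin k → ℕ) (z κ : ℝ) (w : ℕ → ℝ) (S : Finset ℕ)
    (hw0 : ∀ j, 0 ≤ w j) (hw : ∀ j, Rough z j → w j = κ) (hm : ∀ i, 1 ≤ m i)
    (hcd : ∀ i, (m i).Coprime (dl h)) (hS : ∀ n ∈ S, n ∈ Ioc N (2 * N) ∧ n.Prime ∧
      ∀ i, m i ∣ n + h i ∧ ∀ l : ℕ, l.Prime → (l : ℝ) < z → ¬ l ∣ (∏ i, m i) → ¬ l ∣ n + h i)
    (hκ : 0 ≤ κ) :
    κ ^ k * ((S.card : ℝ) - (Bad N h m).card) ≤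
      ∑ n ∈ Ioc N (2 * N), pI n * ∏ i, (if m i ∣ n + h i then w ((n + h i) / m i) else 0) := by
  have hnn : ∀ n, 0 ≤ pI n * ∏ i, (if m i ∣ n + h i then w ((n + h i) / m i) else 0) := by
    intro n
    refine mul_nonneg ?_ (prod_nonneg fun i _ => ?_)
    · unfold pI
      split_ifs <;> norm_num
    · split_ifs
      · exact hw0 _
      · exact le_rfl
  have hval : ∀ n ∈ S \ Bad N h m,
      pI n * ∏ i, (if m i ∣ n + h i then w ((n + h i) / m i) else 0) = κ ^ k := by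
    intro n hn
    obtain ⟨hn1, hn2⟩ := mem_sdiff.1 hn
    obtain ⟨hn3, hn4, hn5⟩ := hS n hn1
    have hb : ∀ i, ∀ l : ℕ, l.Prime → l ∣ m i → ¬ l * m i ∣ n + h i := by
      intro i l hl hli hd
      refine hn2 ?_
      unfold Bad
      rw [mem_biUnion]
      refine ⟨i, mem_univ i, ?_⟩
      rw [mem_biUnion]
      refine ⟨l, Nat.mem_primeFactors.2 ⟨hl, hli, by have := hm i; omega⟩, ?_⟩
      exact mem_filter.2 ⟨hn3, fun j => (hn5 j).1, hd⟩
    have hR := rough_of hcd (fun i => (hn5 i).1) (fun i => (hn5 i).2) hb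
    have h1 : ∀ i ∈ (univ : Finset (Fin k)),
        (if m i ∣ n + h i then w ((n + h i) / m i) else 0) = κ := by
      intro i _
      rw [if_pos (hn5 i).1]
      exact hw _ (hR i)
    rw [prod_congr rfl h1, prod_const, card_univ, Fintype.card_fin]
    unfold pI
    rw [if_pos hn4, one_mul]
  have hsub : S \ Bad N h m ⊆ Ioc N (2 * N) := fun n hn => (hS n (mem_sdiff.1 hn).1).1
  have h2 := sum_le_sum_of_subset_of_nonneg hsub (fun n _ _ => hnn n)
  rw [sum_congr rfl hval, sum_const, nsmul_eq_mul] at h2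
  refine le_trans ?_ h2
  rw [mul_comm]
  refine mul_le_mul_of_nonneg_right ?_ (by positivity)
  have h3 : S.card ≤ (S \ Bad N h m).card + (Bad N h m).card := by
    have := Finset.le_card_sdiff (Bad N h m) S
    omega
  have h4 : (S.card : ℝ) ≤ ((S \ Bad N h m).card : ℝ) + ((Bad N h m).card : ℝ) := by
    exact_mod_cast h3
  linarith

lemma total_ge {k : ℕ} (N : ℕ) (h : Fin k → ℕ) (M : Fin k → Finset ℕ)
    (G : Finset (Fin k → ℕ)) (hG : G ⊆ Fintype.piFinset M) (z κ : ℝ) (w : ℕ → ℝ)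
    (S : (Fin k → ℕ) → Finset ℕ)
    (hw0 : ∀ j, 0 ≤ w j) (hw : ∀ j, Rough z j → w j = κ) (hm : ∀ m ∈ G, ∀ i, 1 ≤ m i)
    (hcd : ∀ m ∈ G, ∀ i, (m i).Coprime (dl h)) (hS : ∀ m ∈ G, ∀ n ∈ S m, n ∈ Ioc N (2 * N) ∧
      n.Prime ∧ ∀ i, m i ∣ n + h i ∧ ∀ l : ℕ, l.Prime → (l : ℝ) < z → ¬ l ∣ (∏ i, m i) →
        ¬ l ∣ n + h i)
    (hκ : 0 ≤ κ) :
    κ ^ k * ∑ m ∈ G, (((S m).card : ℝ) - (Bad N h m).card) ≤
      ∑ n ∈ Ioc N (2 * N), pI n * ∏ i, ∑ m ∈ M i, if m ∣ n + h i then w ((n + h i) / m) else 0 := by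
  have e1 : ∑ n ∈ Ioc N (2 * N), pI n * ∏ i, ∑ m ∈ M i,
      (if m ∣ n + h i then w ((n + h i) / m) else 0) =
      ∑ m ∈ Fintype.piFinset M, ∑ n ∈ Ioc N (2 * N),
        pI n * ∏ i, (if m i ∣ n + h i then w ((n + h i) / m i) else 0) := by
    rw [sum_comm]
    refine sum_congr rfl fun n _ => ?_
    rw [prod_univ_sum, mul_sum]
  rw [e1, mul_sum]
  refine (sum_le_sum fun m hm' => tuple_ge N h m z κ w (S m) hw0 hw (hm m hm') (hcd m hm')
    (hS m hm') hκ).trans ?_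
  refine sum_le_sum_of_subset_of_nonneg hG fun m _ _ => sum_nonneg fun n _ => ?_
  refine mul_nonneg ?_ (prod_nonneg fun i _ => ?_)
  · unfold pI
    split_ifs <;> norm_num
  · split_ifs
    · exact hw0 _
    · exact le_rfl

/-! ## Analysis -/

lemma dl_log {k N : ℕ} (h : Fin k → ℕ) (hN : 2 ≤ N) (hh : ∀ i, 1 ≤ h i ∧ h i ≤ N) (h0 : dl h ≠ 0) :
    Real.logb 2 (dl h) ≤ 2 * ((k : ℝ) + k ^ 2) * Real.log N := by
  have h1 : dl h ≤ N ^ (k + k * k) := by
    unfold dl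
    rw [pow_add, pow_mul]
    refine Nat.mul_le_mul ?_ ?_
    · calc ∏ i, h i ≤ ∏ _i : Fin k, N := Finset.prod_le_prod' fun i _ => (hh i).2
        _ = N ^ k := by rw [prod_const, card_univ, Fintype.card_fin]
    · calc ∏ i, ∏ j ∈ univ.filter (fun j => i < j), ((h i : ℤ) - h j).natAbs ≤ ∏ _i : Fin k, N ^ k := by
            refine Finset.prod_le_prod' fun i _ => ?_
            calc ∏ j ∈ univ.filter (fun j => i < j), ((h i : ℤ) - h j).natAbs
                ≤ ∏ _j ∈ univ.filter (fun j => i < j), N := by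
                  refine Finset.prod_le_prod' fun j _ => ?_
                  have a1 := hh i
                  have a2 := hh j
                  omega
              _ = N ^ (univ.filter (fun j => i < j)).card := by rw [prod_const]
              _ ≤ N ^ k := by
                  refine Nat.pow_le_pow_right (by omega) ?_
                  exact (card_filter_le _ _).trans (by rw [card_univ, Fintype.card_fin])
        _ = (N ^ k) ^ k := by rw [prod_const, card_univ, Fintype.card_fin]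
  have hN' : (1 : ℝ) < N := by exact_mod_cast (by omega : 1 < N)
  have hL : 0 < Real.log N := Real.log_pos hN'
  have h2 : Real.log (dl h) ≤ (k + k * k : ℕ) * Real.log N := by
    have h3 : (dl h : ℝ) ≤ (N : ℝ) ^ (k + k * k) := by exact_mod_cast h1
    have h4 : (0 : ℝ) < dl h := by exact_mod_cast Nat.pos_of_ne_zero h0
    calc Real.log (dl h) ≤ Real.log ((N : ℝ) ^ (k + k * k)) := Real.log_le_log h4 h3
      _ = (k + k * k : ℕ) * Real.log N := by rw [Real.log_pow]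
  have hl2 : (1 : ℝ) / 2 ≤ Real.log 2 := by linarith [Real.log_two_gt_d9]
  have hl2' : 0 < Real.log 2 := by linarith
  unfold Real.logb
  rw [div_le_iff₀ hl2']
  push_cast at h2
  have h5 : 0 ≤ ((k : ℝ) + k * k) * Real.log N := by positivity
  nlinarith [h2, h5, hl2]

lemma primes_ge : ∃ N₀ : ℝ, ∀ N : ℕ, N₀ ≤ N →
    (N : ℝ) / (2 * Real.log N) ≤ (((Ioc N (2 * N)).filter Nat.Prime).card : ℝ) := by
  obtain ⟨X₀, hX₀⟩ := Pool.Agent.Lib.MP391708.QPA.specPNT Pool.Agent.Lib.MP391708.QPA.specPNTAP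
    (1 / 20) (by norm_num)
  refine ⟨max X₀ (Real.exp 32), fun N hN => ?_⟩
  have h1 : X₀ ≤ N := (le_max_left _ _).trans hN
  have h2 : Real.exp 32 ≤ N := (le_max_right _ _).trans hN
  have hN0 : (0 : ℝ) < N := (Real.exp_pos _).trans_le h2
  have hL : 32 ≤ Real.log N := by
    rw [← Real.log_exp 32]
    exact Real.log_le_log (Real.exp_pos _) h2
  have p1 := hX₀ N h1
  have p2 := hX₀ ((2 * N : ℕ) : ℝ) (by push_cast; linarith)
  rw [Nat.floor_natCast] at p1 p2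
  have e : (((Icc 1 (2 * N)).filter Nat.Prime).card : ℝ) =
      (((Icc 1 N).filter Nat.Prime).card : ℝ) + (((Ioc N (2 * N)).filter Nat.Prime).card : ℝ) := by
    have h3 : Icc 1 (2 * N) = Icc 1 N ∪ Ioc N (2 * N) := by
      ext x
      simp only [mem_union, mem_Icc, mem_Ioc]
      omega
    have h4 : Disjoint ((Icc 1 N).filter Nat.Prime) ((Ioc N (2 * N)).filter Nat.Prime) := by
      rw [disjoint_left]
      intro x hx hx'
      have a1 := mem_Icc.1 (mem_filter.1 hx).1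
      have a2 := mem_Ioc.1 (mem_filter.1 hx').1
      omega
    rw [h3, filter_union, card_union_of_disjoint h4]
    push_cast
    ring
  have hl2 : Real.log ((2 * N : ℕ) : ℝ) = Real.log 2 + Real.log N := by
    push_cast
    rw [Real.log_mul (by norm_num) hN0.ne']
  rw [hl2] at p2
  have hlog2 : Real.log 2 ≤ 1 := by linarith [Real.log_two_lt_d9]
  have hlog20 : 0 < Real.log 2 := by linarith [Real.log_two_gt_d9]
  have q1 := (abs_le.1 p1).2
  have q2 := (abs_le.1 p2).1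
  rw [e] at q2
  push_cast at q2
  have q3 : 2 * (N : ℝ) / (Real.log 2 + Real.log N) ≥ 2 * (N : ℝ) / (33 / 32 * Real.log N) := by
    refine div_le_div_of_nonneg_left (by positivity) (by linarith) ?_
    linarith
  have q4 : 2 * (N : ℝ) / (33 / 32 * Real.log N) = 64 / 33 * (N / Real.log N) := by
    field_simp
    norm_num
  have q5 : 1 / 20 * (2 * (N : ℝ)) / (Real.log 2 + Real.log N) =
      1 / 20 * (2 * (N : ℝ) / (Real.log 2 + Real.log N)) := by ring
  have q6 : 1 / 20 * (N : ℝ) / Real.log N = 1 / 20 * (N / Real.log N) := by ring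
  have q7 : (N : ℝ) / (2 * Real.log N) = 1 / 2 * (N / Real.log N) := by
    field_simp
  have q8 : 0 < (N : ℝ) / Real.log N := by positivity
  rw [q5] at q2
  rw [q6] at q1
  rw [q7]
  nlinarith [q1, q2, q3, q4, q8]

/-- the asymptotic facts -/
lemma ev_facts (c ε : ℝ) (b : ℕ) (hc : 1 ≤ c) (hε : 0 < ε) (L₀ : ℝ) : ∃ N₀ : ℝ, ∀ N : ℝ, N₀ ≤ N →
    16 ≤ Real.log N ∧ L₀ ≤ Real.log N ∧ Real.log N ^ c ≤ N ^ ((1 : ℝ) / 4) ∧
    (4 * (1 + Real.log (zz N c))) ^ 16 ≤ Real.log N ∧ 3 ≤ zz N c ∧ zz N c ≤ N ∧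
    zz N c ^ b ≤ N ^ (ε / 2) ∧ 3 ≤ N := by
  have e1 := Real.tendsto_log_atTop.eventually_ge_atTop 16
  have e2 := Real.tendsto_log_atTop.eventually_ge_atTop L₀
  have e3 := (isLittleO_log_rpow_rpow_atTop c (by norm_num : (0 : ℝ) < 1 / 4)).bound
    (zero_lt_one (α := ℝ))
  have e4 := (isLittleO_log_rpow_rpow_atTop (5 * c) (zero_lt_one (α := ℝ))).bound
    (zero_lt_one (α := ℝ))
  have e7 := (isLittleO_log_rpow_rpow_atTop (5 * c * b) (by positivity : 0 < ε / 2)).bound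
    (zero_lt_one (α := ℝ))
  have e5 : ∀ᶠ L : ℝ in Filter.atTop, 4 * (1 + 5 * c * Real.log L) ≤ L ^ ((1 : ℝ) / 16) := by
    have f1 := (isLittleO_log_rpow_atTop (by norm_num : (0 : ℝ) < 1 / 16)).bound
      (show (0 : ℝ) < 1 / (40 * c) by positivity)
    have f2 := (tendsto_rpow_atTop (by norm_num : (0 : ℝ) < 1 / 16)).eventually_ge_atTop 8
    filter_upwards [f1, f2, Filter.eventually_ge_atTop (1 : ℝ)] with L h1 h2 h3
    have h4 : 0 ≤ Real.log L := Real.log_nonneg h3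
    have h5 : 0 ≤ L ^ ((1 : ℝ) / 16) := by positivity
    rw [Real.norm_of_nonneg h4, Real.norm_of_nonneg h5] at h1
    have h6 : 20 * c * Real.log L ≤ 20 * c * (1 / (40 * c) * L ^ ((1 : ℝ) / 16)) :=
      mul_le_mul_of_nonneg_left h1 (by positivity)
    have h7 : 20 * c * (1 / (40 * c) * L ^ ((1 : ℝ) / 16)) = L ^ ((1 : ℝ) / 16) / 2 := by
      field_simp
      norm_num
    linarith
  have e5' := Real.tendsto_log_atTop.eventually e5
  have e6 := Filter.eventually_ge_atTop (3 : ℝ)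
  obtain ⟨N₀, hN₀⟩ := Filter.eventually_atTop.1
    (e1.and (e2.and (e3.and (e4.and (e7.and (e5'.and e6))))))
  refine ⟨N₀, fun N hN => ?_⟩
  obtain ⟨h1, h2, h3, h4, h7, h5, h6⟩ := hN₀ N hN
  have hL0 : 0 ≤ Real.log N := by linarith
  have hN0 : 0 ≤ N := by linarith
  refine ⟨h1, h2, ?_, ?_, ?_, ?_, ?_, h6⟩
  · rw [one_mul, Real.norm_of_nonneg (by positivity), Real.norm_of_nonneg (by positivity)] at h3
    exact h3
  · have hlz : Real.log (zz N c) = 5 * c * Real.log (Real.log N) := by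
      unfold zz
      rw [Real.log_rpow (by linarith)]
    have h7 : 0 ≤ Real.log (Real.log N) := Real.log_nonneg (by linarith)
    rw [hlz]
    calc (4 * (1 + 5 * c * Real.log (Real.log N))) ^ 16 ≤ (Real.log N ^ ((1 : ℝ) / 16)) ^ 16 :=
          pow_le_pow_left₀ (by positivity) h5 16
      _ = Real.log N := by
          rw [← Real.rpow_natCast, ← Real.rpow_mul hL0]
          norm_num
  · unfold zz
    calc (3 : ℝ) ≤ Real.log N := by linarith
      _ = Real.log N ^ (1 : ℝ) := (Real.rpow_one _).symm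
      _ ≤ Real.log N ^ (5 * c) := Real.rpow_le_rpow_of_exponent_le (by linarith) (by linarith)
  · rw [one_mul, Real.norm_of_nonneg (by positivity), Real.norm_of_nonneg (by positivity),
      Real.rpow_one] at h4
    exact h4
  · rw [one_mul, Real.norm_of_nonneg (by positivity), Real.norm_of_nonneg (by positivity)] at h7
    unfold zz
    rw [← Real.rpow_natCast, ← Real.rpow_mul hL0]
    exact h7

/-- the numerical conclusion -/
lemma numeric {k : ℕ} {N L W z κ y P T E cs cst Cst R c0 Err Bad S : ℝ}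
    (hL16 : 16 ≤ L) (hN : 3 ≤ N) (hW : 1 ≤ L * W) (hκ : κ = 1 / (2 * L * W))
    (hz : 4 * (1 + z) ≤ L) (hcs : 0 < cs) (hcst : 0 < cst) (hCst : 1 ≤ Cst) (hR : 0 ≤ R)
    (hy : L ^ (k + 4) ≤ y) (hP : N / (2 * L) ≤ P) (hT1 : cst ^ k / 2 ≤ T) (hT2 : T ≤ Cst ^ k)
    (hS : 1 / 2 * P * (cs * W ^ k) * T - 4 * (1 + z) * Err ≤ S)
    (hErr0 : 0 ≤ Err) (hErr : Err ≤ N / L ^ (k + 3)) (hB : Bad ≤ R * (N / y * T + E)) (hE : E ≤ N / y * T)
    (hc0 : c0 = cs * cst ^ k / (8 * 2 ^ k))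
    (hL1 : 2 * (1 + 2 * R * Cst ^ k) ≤ c0 * L) :
    c0 / 2 * N / L ^ (k + 1) ≤ κ ^ k * (S - Bad) := by
  have hL0 : 0 < L := by linarith
  have hW0 : 0 < W := by
    by_contra h
    have : W ≤ 0 := not_lt.1 h
    nlinarith
  have hκ0 : 0 < κ := by rw [hκ]; positivity
  have hκ1 : κ ≤ 1 := by
    rw [hκ, div_le_one (by positivity)]
    linarith
  have hκk : κ ^ k ≤ 1 := pow_le_one₀ hκ0.le hκ1
  have hκk0 : 0 < κ ^ k := by positivity
  have hy0 : 0 < y := (by positivity : 0 < L ^ (k + 4)).trans_le hy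
  -- the main term
  have m1 : κ ^ k * (1 / 2 * P * (cs * W ^ k) * T) = cs / 2 * (1 / (2 ^ k * L ^ k)) * P * T := by
    rw [hκ, div_pow, one_pow, mul_pow, mul_pow]
    field_simp
  have m2 : cs / 2 * (1 / (2 ^ k * L ^ k)) * (N / (2 * L)) * (cst ^ k / 2) ≤
      cs / 2 * (1 / (2 ^ k * L ^ k)) * P * T := by
    have hP0 : 0 ≤ N / (2 * L) := by positivity
    have hT0 : 0 ≤ cst ^ k / 2 := by positivity
    have a1 : 0 ≤ cs / 2 * (1 / (2 ^ k * L ^ k)) := by positivity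
    have a2 : N / (2 * L) * (cst ^ k / 2) ≤ P * T := mul_le_mul hP hT1 hT0 (hP0.trans hP)
    calc cs / 2 * (1 / (2 ^ k * L ^ k)) * (N / (2 * L)) * (cst ^ k / 2)
        = cs / 2 * (1 / (2 ^ k * L ^ k)) * (N / (2 * L) * (cst ^ k / 2)) := by ring
      _ ≤ cs / 2 * (1 / (2 ^ k * L ^ k)) * (P * T) := mul_le_mul_of_nonneg_left a2 a1
      _ = _ := by ring
  have m3 : cs / 2 * (1 / (2 ^ k * L ^ k)) * (N / (2 * L)) * (cst ^ k / 2) = c0 * N / L ^ (k + 1) := by
    rw [hc0, pow_succ]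
    field_simp
    norm_num
  -- the errors
  have r1 : κ ^ k * (4 * (1 + z) * Err) ≤ N / L ^ (k + 2) := by
    have a1 : 4 * (1 + z) * Err ≤ L * Err := mul_le_mul_of_nonneg_right hz hErr0
    have a2 : L * Err ≤ L * (N / L ^ (k + 3)) := mul_le_mul_of_nonneg_left hErr hL0.le
    have a3 : L * (N / L ^ (k + 3)) = N / L ^ (k + 2) := by
      rw [pow_succ L (k + 2)]
      field_simp
    have a4 : κ ^ k * (4 * (1 + z) * Err) ≤ κ ^ k * (N / L ^ (k + 2)) :=
      mul_le_mul_of_nonneg_left (by linarith) hκk0.le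
    have a5 : κ ^ k * (N / L ^ (k + 2)) ≤ 1 * (N / L ^ (k + 2)) :=
      mul_le_mul_of_nonneg_right hκk (by positivity)
    linarith
  have r2 : κ ^ k * Bad ≤ 2 * R * Cst ^ k * (N / L ^ (k + 2)) := by
    have hT0 : 0 ≤ T := le_trans (by positivity) hT1
    have a1 : Bad ≤ 2 * R * (N / y * T) := by
      have : R * (N / y * T + E) ≤ R * (N / y * T + N / y * T) :=
        mul_le_mul_of_nonneg_left (by linarith) hR
      linarith
    have a2 : N / y ≤ N / L ^ (k + 2) := by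
      refine div_le_div_of_nonneg_left (by linarith) (by positivity) ?_
      refine le_trans ?_ hy
      exact pow_le_pow_right₀ (by linarith) (by omega)
    have a3 : N / y * T ≤ N / L ^ (k + 2) * Cst ^ k := mul_le_mul a2 hT2 hT0 (by positivity)
    have a4 : κ ^ k * Bad ≤ κ ^ k * (2 * R * (N / L ^ (k + 2) * Cst ^ k)) := by
      refine mul_le_mul_of_nonneg_left (a1.trans ?_) hκk0.le
      exact mul_le_mul_of_nonneg_left a3 (by linarith)
    have a5 : κ ^ k * (2 * R * (N / L ^ (k + 2) * Cst ^ k)) ≤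
        1 * (2 * R * (N / L ^ (k + 2) * Cst ^ k)) :=
      mul_le_mul_of_nonneg_right hκk (by positivity)
    linarith
  have r3 : (1 + 2 * R * Cst ^ k) * (N / L ^ (k + 2)) ≤ c0 / 2 * N / L ^ (k + 1) := by
    have a1 : c0 / 2 * N / L ^ (k + 1) = (c0 * L / 2) * (N / L ^ (k + 2)) := by
      rw [pow_succ L (k + 1)]
      field_simp
    rw [a1]
    exact mul_le_mul_of_nonneg_right (by linarith) (by positivity)
  have s1 : κ ^ k * (1 / 2 * P * (cs * W ^ k) * T - 4 * (1 + z) * Err) ≤ κ ^ k * S :=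
    mul_le_mul_of_nonneg_left hS hκk0.le
  have s2 : κ ^ k * (1 / 2 * P * (cs * W ^ k) * T - 4 * (1 + z) * Err) =
    κ ^ k * (1 / 2 * P * (cs * W ^ k) * T) - κ ^ k * (4 * (1 + z) * Err) := by ring
  have s3 : κ ^ k * (S - Bad) = κ ^ k * S - κ ^ k * Bad := by ring
  have s4 : c0 * N / L ^ (k + 1) = 2 * (c0 / 2 * N / L ^ (k + 1)) := by ring
  rw [s3]
  rw [s2, m1] at s1
  rw [m3, s4] at m2
  have s5 : (1 + 2 * R * Cst ^ k) * (N / L ^ (k + 2)) =
    N / L ^ (k + 2) + 2 * R * Cst ^ k * (N / L ^ (k + 2)) := by ring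
  rw [s5] at r3
  linarith

lemma Wp_ge {z : ℝ} (hz : 2 ≤ z) : 1 ≤ (4 * (1 + Real.log z)) ^ 16 * Wp z := by
  have h := Pool.Agent.Lib.MP_3efbeb_nt.SV.SieveM.prod_ge 1 hz (g := fun p => 1 / (p : ℝ)) (by
    intro p hp
    have hp2 : (2 : ℝ) ≤ p := by exact_mod_cast hp.two_le
    refine ⟨by positivity, ?_, ?_⟩
    · simp
    · rw [div_le_div_iff₀ (by linarith) (by norm_num)]
      push_cast
      linarith)
  simpa [Wp] using h

end MT2M

open MT2M in
open scoped Classical in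
theorem specMT2 (hCF2 : SpecCF2) (hCPT : SpecCPT) (hSLB : SpecSLB) (hSSL : SpecSSL)
    (hBVC : SpecBVC) : SpecMT2 := by
  intro k r hk hr
  obtain ⟨ε, hε, hBV⟩ := hBVC
  obtain ⟨b, hb⟩ := hSLB k hk
  obtain ⟨cs, hcs, hss⟩ := hSSL k hk
  choose cst₁ Cst₁ hc1 hC1 hCF using fun i => hCF2 (r i) (hr i)
  have : Nonempty (Fin k) := ⟨⟨0, hk⟩⟩
  obtain ⟨cst, hcst0, hcst⟩ : ∃ cst : ℝ, 0 < cst ∧ ∀ i, cst ≤ cst₁ i := by
    obtain ⟨i₀, hi₀⟩ := Finite.exists_min cst₁
    exact ⟨cst₁ i₀, hc1 i₀, hi₀⟩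
  obtain ⟨Cst, hCst1, hCst⟩ : ∃ Cst : ℝ, 1 ≤ Cst ∧ ∀ i, Cst₁ i ≤ Cst := by
    obtain ⟨i₀, hi₀⟩ := Finite.exists_max Cst₁
    exact ⟨Cst₁ i₀, hC1 i₀, hi₀⟩
  obtain ⟨R, hR⟩ : ∃ R : ℝ, R = ∑ i, (r i : ℝ) := ⟨_, rfl⟩
  have hRi : ∀ i, (r i : ℝ) ≤ R := by
    intro i
    rw [hR]
    exact single_le_sum (f := fun i => (r i : ℝ)) (fun i _ => Nat.cast_nonneg _) (mem_univ i)
  have hR1 : 1 ≤ R := by
    have h1 := hRi ⟨0, hk⟩
    have h2 : (2 : ℝ) ≤ r ⟨0, hk⟩ := by exact_mod_cast hr _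
    linarith
  have hR0 : 0 < R := by linarith
  have hCk : 0 < Cst ^ k := by positivity
  have hck : 0 < cst ^ k := by positivity
  obtain ⟨c0, hc0⟩ : ∃ c0 : ℝ, c0 = cs * cst ^ k / (8 * 2 ^ k) := ⟨_, rfl⟩
  have hc00 : 0 < c0 := by rw [hc0]; positivity
  refine ⟨min (1 / 8) (ε / 4) / R, c0 / 2, by positivity, ?_, by positivity, ?_⟩
  · intro i
    rw [div_mul_eq_mul_div, div_le_iff₀ hR0]
    have h1 : min (1 / 8 : ℝ) (ε / 4) ≤ 1 / 8 := min_le_left _ _
    have h2 : (0 : ℝ) ≤ min (1 / 8 : ℝ) (ε / 4) := by positivity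
    exact mul_le_mul h1 (hRi i) (Nat.cast_nonneg _) (by norm_num)
  intro e c he he0 hc
  have hk0 : (0 : ℝ) ≤ k := Nat.cast_nonneg _
  have hc1' : 1 ≤ c := by linarith
  have heR : e * R ≤ min (1 / 8) (ε / 4) := (le_div_iff₀ hR0).1 he0
  have heR1 : e * R ≤ 1 / 8 := heR.trans (min_le_left _ _)
  have heR2 : e * R ≤ ε / 4 := heR.trans (min_le_right _ _)
  have heri : ∀ i, e * r i ≤ 1 / 8 := fun i =>
    (mul_le_mul_of_nonneg_left (hRi i) he.le).trans heR1
  choose N₁ hN₁ using fun i => hCF i e c he (heri i) hc1'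
  obtain ⟨i₁, hi₁⟩ := Finite.exists_max N₁
  obtain ⟨N₂, hN₂⟩ := hBV (k * (k + 1)) (k + 3)
  obtain ⟨N₃, hN₃⟩ := primes_ge
  obtain ⟨a, ha⟩ : ∃ a : ℝ, a = 2 + 2 * ((k : ℝ) + k ^ 2) := ⟨_, rfl⟩
  obtain ⟨N₄, hN₄⟩ := ev_facts c ε b hc1' hε
    (max (2 * (1 + 2 * R * Cst ^ k) / c0) (2 * (k : ℝ) ^ 2 * Cst ^ k * a / cst ^ k))
  refine ⟨max (max ⌈N₁ i₁⌉₊ N₂) (max ⌈N₃⌉₊ ⌈N₄⌉₊), fun N h hN hh hd0 hAdm => ?_⟩
  have g1 : N₁ i₁ ≤ N := (Nat.le_ceil _).trans (by
    exact_mod_cast ((le_max_left _ _).trans (le_max_left _ _)).trans hN)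
  have g2' : N₂ ≤ N := ((le_max_right _ _).trans (le_max_left _ _)).trans hN
  have g3 : N₃ ≤ N := (Nat.le_ceil _).trans (by
    exact_mod_cast ((le_max_left _ _).trans (le_max_right _ _)).trans hN)
  have g4 : N₄ ≤ N := (Nat.le_ceil _).trans (by
    exact_mod_cast ((le_max_right _ _).trans (le_max_right _ _)).trans hN)
  obtain ⟨hL16, hL0', hLc, hzL, hz3, hzN, hzb, hN3⟩ := hN₄ N g4
  have hL1 := (le_max_left _ _).trans hL0'
  have hL2 := (le_max_right _ _).trans hL0'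
  have hP := hN₃ N g3
  obtain ⟨Em, hEm, hErrBV⟩ := hN₂ N g2'
  have hCFi := fun i => hN₁ i N ((hi₁ i).trans g1)
  have hN0 : (0 : ℝ) < N := by linarith
  have hN1 : (1 : ℝ) ≤ N := by linarith
  have hL0 : 0 < Real.log N := by linarith
  -- the system
  have hy1 : 1 ≤ Real.log N ^ c := Real.one_le_rpow (by linarith) (by linarith)
  have hy0 : 0 < Real.log N ^ c := by linarith
  have hyk : Real.log N ^ (k + 4) ≤ Real.log N ^ c := by
    rw [← Real.rpow_natCast]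
    refine Real.rpow_le_rpow_of_exponent_le (by linarith) ?_
    push_cast
    linarith
  obtain ⟨M, hM⟩ : ∃ M : Fin k → Finset ℕ, M = fun i => m2 N c e (r i) := ⟨_, rfl⟩
  have hMi : ∀ i, M i = m2 N c e (r i) := fun i => by rw [hM]
  obtain ⟨G, hG⟩ : ∃ G : Finset (Fin k → ℕ), G = (Fintype.piFinset M).filter (fun m =>
    (∀ i j, i ≠ j → (m i).Coprime (m j)) ∧ ∀ i, (m i).Coprime (dl h)) := ⟨_, rfl⟩
  have hGm : ∀ m ∈ G, (∀ i, m i ∈ m2 N c e (r i)) ∧ (∀ i j, i ≠ j → (m i).Coprime (m j)) ∧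
      ∀ i, (m i).Coprime (dl h) := by
    intro m hm
    rw [hG] at hm
    obtain ⟨h1, h2⟩ := mem_filter.1 hm
    exact ⟨fun i => by rw [← hMi]; exact Fintype.mem_piFinset.1 h1 i, h2⟩
  have hm1 : ∀ m ∈ G, ∀ i, 1 ≤ m i := fun m hm i => ((hCFi i).1 _ ((hGm m hm).1 i)).1
  have hmP : ∀ m ∈ G, ((∏ i, m i : ℕ) : ℝ) ≤ (N : ℝ) ^ (2 * e * R) := by
    intro m hm
    push_cast
    calc ∏ i, (m i : ℝ) ≤ ∏ i, (N : ℝ) ^ (2 * e * r i) :=
          prod_le_prod (fun i _ => Nat.cast_nonneg _) fun i _ =>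
            ((hCFi i).1 _ ((hGm m hm).1 i)).2.1
      _ = (N : ℝ) ^ (∑ i, 2 * e * r i) := (Real.rpow_sum_of_pos hN0 _ _).symm
      _ = (N : ℝ) ^ (2 * e * R) := by rw [hR, mul_sum]
  have hmprod : ∀ m : Fin k → ℕ, ∏ i, 1 / (m i : ℝ) = 1 / ∏ i, (m i : ℝ) := by
    intro m
    simp only [one_div, prod_inv_distrib]
  -- the sieve weight
  have hWp := Wp_ge (show 2 ≤ zz N c by linarith)
  have hlz0 : 0 ≤ Real.log (zz N c) := Real.log_nonneg (by linarith)
  have hx1 : 1 ≤ 4 * (1 + Real.log (zz N c)) := by linarith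
  have hxL : 4 * (1 + Real.log (zz N c)) ≤ Real.log N :=
    (le_self_pow₀ hx1 (by norm_num)).trans hzL
  have hW0 : 0 < Wp (zz N c) := by
    by_contra hneg
    have h1 : Wp (zz N c) ≤ 0 := not_lt.1 hneg
    have h2 : 0 ≤ (4 * (1 + Real.log (zz N c))) ^ 16 := by positivity
    nlinarith
  have hWL : 1 ≤ Real.log N * Wp (zz N c) :=
    hWp.trans (mul_le_mul_of_nonneg_right hzL hW0.le)
  -- the sum over the good tuples
  obtain ⟨T, hT⟩ : ∃ T : ℝ, T = ∑ m ∈ G, ∏ i, 1 / (m i : ℝ) := ⟨_, rfl⟩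
  have hT1 : cst ^ k / 2 ≤ T := by
    have h1 := hCPT k M cst Cst (Real.log N ^ c) (dl h) hcst0 hCst1 hy1 (Nat.pos_of_ne_zero hd0)
      (fun i m hm => by
        rw [hMi] at hm
        exact ⟨((hCFi i).1 m hm).1, ((hCFi i).1 m hm).2.2.2⟩)
      (fun i => by rw [hMi]; exact (hcst i).trans (hCFi i).2.1)
      (fun i => by rw [hMi]; exact (hCFi i).2.2.1.trans (hCst i))
      (fun i l hl => by
        rw [hMi]
        refine ((hCFi i).2.2.2.1 l hl).trans ?_
        exact div_le_div_of_nonneg_right (hCst i) (Nat.cast_nonneg _))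
    have h2 : T = ∑ m ∈ (Fintype.piFinset M).filter (fun m =>
        (∀ i j, i ≠ j → (m i).Coprime (m j)) ∧ ∀ i, (m i).Coprime (dl h)), ∏ i, 1 / (m i : ℝ) := by
      rw [hT, hG]
    rw [← h2] at h1
    have h3 := dl_log h (by exact_mod_cast (by linarith : (2 : ℝ) ≤ N)) hh hd0
    have h4 : (k : ℝ) ^ 2 * Cst ^ k * (2 + Real.logb 2 (dl h)) / Real.log N ^ c ≤ cst ^ k / 2 := by
      rw [div_le_iff₀ hy0]
      have h5 : 2 + Real.logb 2 (dl h) ≤ a * Real.log N := by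
        rw [ha]
        nlinarith
      have h6 : Real.log N * Real.log N ≤ Real.log N ^ c := by
        refine le_trans ?_ hyk
        rw [← sq]
        exact pow_le_pow_right₀ (by linarith) (by omega)
      have h7 : 2 * (k : ℝ) ^ 2 * Cst ^ k * a ≤ Real.log N * cst ^ k := (div_le_iff₀ hck).1 hL2
      calc (k : ℝ) ^ 2 * Cst ^ k * (2 + Real.logb 2 (dl h))
          ≤ (k : ℝ) ^ 2 * Cst ^ k * (a * Real.log N) :=
            mul_le_mul_of_nonneg_left h5 (by positivity)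
        _ = (2 * (k : ℝ) ^ 2 * Cst ^ k * a) * Real.log N / 2 := by ring
        _ ≤ (Real.log N * cst ^ k) * Real.log N / 2 := by
            have := mul_le_mul_of_nonneg_right h7 hL0.le
            linarith
        _ = cst ^ k / 2 * (Real.log N * Real.log N) := by ring
        _ ≤ cst ^ k / 2 * Real.log N ^ c := mul_le_mul_of_nonneg_left h6 (by positivity)
    linarith
  have hT2 : T ≤ Cst ^ k := by
    have h1 : T ≤ ∑ m ∈ Fintype.piFinset M, ∏ i, 1 / (m i : ℝ) := by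
      rw [hT, hG]
      refine sum_le_sum_of_subset_of_nonneg (filter_subset _ _) fun m _ _ => ?_
      exact prod_nonneg fun i _ => by positivity
    rw [← prod_univ_sum M (fun _ m => 1 / (m : ℝ))] at h1
    refine h1.trans ?_
    calc ∏ i, ∑ m ∈ M i, 1 / (m : ℝ) ≤ ∏ _i : Fin k, Cst :=
          prod_le_prod (fun i _ => sum_nonneg fun m _ => by positivity) fun i _ => by
            rw [hMi]
            exact (hCFi i).2.2.1.trans (hCst i)
      _ = Cst ^ k := by rw [prod_const, card_univ, Fintype.card_fin]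
  -- the error terms
  have hEm0 : ∀ Q, 1 ≤ Q → 0 ≤ Em Q := fun Q hQ =>
    (abs_nonneg _).trans (hEm N Q 1 (Or.inl rfl) hQ (Nat.coprime_one_left Q))
  obtain ⟨D, hD⟩ : ∃ D : (Fin k → ℕ) → Finset ℕ, D = fun m =>
    (Icc 1 ⌊zz N c ^ b⌋₊).filter (fun δ => Squarefree δ ∧ δ.Coprime (∏ i, m i)) := ⟨_, rfl⟩
  obtain ⟨Err, hErr⟩ : ∃ Err : ℝ, Err = ∑ m ∈ G, ∑ δ ∈ D m,
    (k : ℝ) ^ δ.primeFactors.card * Em (δ * ∏ i, m i) := ⟨_, rfl⟩
  have hDm : ∀ m ∈ G, ∀ δ ∈ D m, Sys m δ ∧ 1 ≤ δ ∧ δ * ∏ i, m i ≤ ⌊(N : ℝ) ^ ε⌋₊ := by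
    intro m hm δ hδ
    rw [hD] at hδ
    obtain ⟨h1, h2⟩ := mem_filter.1 hδ
    obtain ⟨h3, h4⟩ := mem_Icc.1 h1
    refine ⟨⟨hm1 m hm, (hGm m hm).2.1, h2.2⟩, h3, ?_⟩
    rw [Nat.le_floor_iff (by positivity)]
    rw [Nat.cast_mul]
    have h5 : (δ : ℝ) ≤ (N : ℝ) ^ (ε / 2) := by
      have h6 : ((⌊zz N c ^ b⌋₊ : ℕ) : ℝ) ≤ zz N c ^ b := Nat.floor_le (by
        have : 0 ≤ zz N c := by linarith
        positivity)
      have h7 : (δ : ℝ) ≤ ((⌊zz N c ^ b⌋₊ : ℕ) : ℝ) := by exact_mod_cast h4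
      linarith
    have h8 : (N : ℝ) ^ (2 * e * R) ≤ (N : ℝ) ^ (ε / 2) :=
      Real.rpow_le_rpow_of_exponent_le hN1 (by linarith)
    calc (δ : ℝ) * ((∏ i, m i : ℕ) : ℝ) ≤ (N : ℝ) ^ (ε / 2) * (N : ℝ) ^ (ε / 2) :=
          mul_le_mul h5 ((hmP m hm).trans h8) (Nat.cast_nonneg _) (by positivity)
      _ = (N : ℝ) ^ ε := by
          rw [← Real.rpow_add hN0]
          congr 1
          ring
  have hErr0 : 0 ≤ Err := by
    rw [hErr]
    refine sum_nonneg fun m hm => sum_nonneg fun δ hδ => mul_nonneg (by positivity) (hEm0 _ ?_)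
    exact Nat.mul_pos (hDm m hm δ hδ).2.1 (prod_pos fun i _ => hm1 m hm i)
  have hErr1 : Err ≤ N / Real.log N ^ (k + 3) := by
    rw [hErr]
    exact (rep_sum G D Em ⌊(N : ℝ) ^ ε⌋₊ hDm hEm0 hk).trans hErrBV
  -- the bad integers
  have hBad : ∑ m ∈ G, ((Bad N h m).card : ℝ) ≤ R * (N / Real.log N ^ c * T + G.card) := by
    have h1 : ∀ m ∈ G, ((Bad N h m).card : ℝ) ≤
        R * (N / Real.log N ^ c * ∏ i, 1 / (m i : ℝ) + 1) := by
      intro m hm
      rw [hmprod, hR]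
      refine Bad_card N h m r (Real.log N ^ c) hy1 (hm1 m hm) (hGm m hm).2.1 (fun i => ?_)
        (fun i l hl => ?_)
      · have h2 := ((hCFi i).1 _ ((hGm m hm).1 i)).2.2.1
        have h3 : (m i).primeFactors.card ≤ (m i).primeFactorsList.length :=
          List.toFinset_card_le _
        omega
      · exact ((hCFi i).1 _ ((hGm m hm).1 i)).2.2.2 l (Nat.prime_of_mem_primeFactors hl)
          (Nat.dvd_of_mem_primeFactors hl)
    refine (sum_le_sum h1).trans (le_of_eq ?_)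
    rw [← mul_sum, sum_add_distrib, ← mul_sum, sum_const, nsmul_eq_mul, mul_one, hT]
  have hGc : (G.card : ℝ) ≤ N / Real.log N ^ c * T := by
    have h1 : ∀ m ∈ G, (1 : ℝ) ≤ N / Real.log N ^ c * ∏ i, 1 / (m i : ℝ) := by
      intro m hm
      rw [hmprod, div_mul_div_comm, mul_one]
      have hP0 : (0 : ℝ) < ∏ i, (m i : ℝ) := prod_pos fun i _ => by
        exact_mod_cast hm1 m hm i
      rw [le_div_iff₀ (by positivity), one_mul]
      have h2 := hmP m hm
      push_cast at h2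
      have h3 : (N : ℝ) ^ (2 * e * R) ≤ (N : ℝ) ^ ((1 : ℝ) / 4) :=
        Real.rpow_le_rpow_of_exponent_le hN1 (by linarith)
      calc Real.log N ^ c * ∏ i, (m i : ℝ) ≤ (N : ℝ) ^ ((1 : ℝ) / 4) * (N : ℝ) ^ ((1 : ℝ) / 4) :=
            mul_le_mul hLc (h2.trans h3) hP0.le (by positivity)
        _ = (N : ℝ) ^ ((1 : ℝ) / 2) := by
            rw [← Real.rpow_add hN0]
            norm_num
        _ ≤ (N : ℝ) ^ (1 : ℝ) := Real.rpow_le_rpow_of_exponent_le hN1 (by norm_num)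
        _ = N := Real.rpow_one _
    have h2 := sum_le_sum h1
    rw [sum_const, nsmul_eq_mul, mul_one, ← mul_sum, ← hT] at h2
    exact h2
  -- the sieve
  obtain ⟨S, hS⟩ : ∃ S : (Fin k → ℕ) → Finset ℕ, S = fun m =>
    (Ioc N (2 * N)).filter (fun n : ℕ => n.Prime ∧ ∀ i, m i ∣ n + h i ∧
      ∀ l : ℕ, l.Prime → (l : ℝ) < zz N c → ¬ l ∣ (∏ i, m i) → ¬ l ∣ n + h i) := ⟨_, rfl⟩
  obtain ⟨P, hPdef⟩ : ∃ P : ℝ, P = (((Ioc N (2 * N)).filter Nat.Prime).card : ℝ) := ⟨_, rfl⟩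
  have hP0 : 0 ≤ P := by rw [hPdef]; exact Nat.cast_nonneg _
  have hSsum : 1 / 2 * P * (cs * Wp (zz N c) ^ k) * T - 4 * (1 + Real.log (zz N c)) * Err ≤
      ∑ m ∈ G, ((S m).card : ℝ) := by
    have h1 : ∀ m ∈ G, 1 / 2 * P * (cs * Wp (zz N c) ^ k) * ∏ i, 1 / (m i : ℝ) -
        4 * (1 + Real.log (zz N c)) * ∑ δ ∈ D m, (k : ℝ) ^ δ.primeFactors.card *
          Em (δ * ∏ i, m i) ≤ ((S m).card : ℝ) := by
      intro m hm
      have h2 := hb N (zz N c) h m Em (by linarith) hzN (fun i => (hh i).1) hAdm (hm1 m hm)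
        (hGm m hm).2.1 (hGm m hm).2.2 hEm
      have h3 := hss h (zz N c) (by linarith) hAdm
      have hPpos : 0 < ∏ i, m i := prod_pos fun i _ => hm1 m hm i
      have hφ0 : (0 : ℝ) < ((∏ i, m i).totient : ℝ) := by
        exact_mod_cast Nat.totient_pos.2 hPpos
      have hφ : ((∏ i, m i).totient : ℝ) ≤ ((∏ i, m i : ℕ) : ℝ) := by
        exact_mod_cast Nat.totient_le _
      have h4 : P * ∏ i, 1 / (m i : ℝ) ≤ P / ((∏ i, m i).totient : ℝ) := by
        rw [hmprod, mul_one_div]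
        refine div_le_div_of_nonneg_left hP0 hφ0 ?_
        push_cast at hφ
        exact hφ
      have h5 : 1 / 2 * P * (cs * Wp (zz N c) ^ k) * ∏ i, 1 / (m i : ℝ) ≤
          1 / 2 * (P / ((∏ i, m i).totient : ℝ)) * ∏ l ∈ PB (zz N c), (1 - gd h l) := by
        have h6 : 0 ≤ cs * Wp (zz N c) ^ k := by positivity
        have h7 : 0 ≤ P / ((∏ i, m i).totient : ℝ) := by positivity
        calc 1 / 2 * P * (cs * Wp (zz N c) ^ k) * ∏ i, 1 / (m i : ℝ)
            = 1 / 2 * (P * ∏ i, 1 / (m i : ℝ)) * (cs * Wp (zz N c) ^ k) := by ring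
          _ ≤ 1 / 2 * (P / ((∏ i, m i).totient : ℝ)) * (cs * Wp (zz N c) ^ k) := by
              refine mul_le_mul_of_nonneg_right ?_ h6
              linarith
          _ ≤ _ := mul_le_mul_of_nonneg_left h3 (by positivity)
      have h8 : ((S m).card : ℝ) = (((Ioc N (2 * N)).filter (fun n : ℕ => n.Prime ∧
          ∀ i, m i ∣ n + h i ∧ ∀ l : ℕ, l.Prime → (l : ℝ) < zz N c → ¬ l ∣ (∏ i, m i) →
            ¬ l ∣ n + h i)).card : ℝ) := by rw [hS]
      have h9 : ∑ δ ∈ D m, (k : ℝ) ^ δ.primeFactors.card * Em (δ * ∏ i, m i) =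
          ∑ δ ∈ (Icc 1 ⌊zz N c ^ b⌋₊).filter (fun δ => Squarefree δ ∧ δ.Coprime (∏ i, m i)),
            (k : ℝ) ^ δ.primeFactors.card * Em (δ * ∏ i, m i) := by rw [hD]
      rw [h8, h9]
      rw [hPdef] at h5
      rw [hPdef]
      refine le_trans ?_ h2
      linarith
    have h2 := sum_le_sum h1
    rw [sum_sub_distrib, ← mul_sum, ← mul_sum, ← hT, ← hErr] at h2
    exact h2
  -- the weights
  obtain ⟨κ, hκ⟩ : ∃ κ : ℝ, κ = 1 / (2 * Real.log N * Wp (zz N c)) := ⟨_, rfl⟩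
  have hκ0 : 0 ≤ κ := by rw [hκ]; positivity
  have hw0 : ∀ j, 0 ≤ w1 N c j := by
    intro j
    unfold w1 rInd
    split_ifs
    · positivity
    · simp
  have hw : ∀ j, Rough (zz N c) j → w1 N c j = κ := by
    intro j hj
    unfold w1 rInd
    rw [if_pos hj, hκ]
  have htot := total_ge N h M G (by rw [hG]; exact filter_subset _ _) (zz N c) κ (w1 N c) S hw0 hw
    hm1 (fun m hm => (hGm m hm).2.2) (fun m hm n hn => by
      rw [hS] at hn
      obtain ⟨h1, h2⟩ := mem_filter.1 hn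
      exact ⟨h1, h2⟩) hκ0
  rw [sum_sub_distrib] at htot
  have hfin : ∑ n ∈ Ioc N (2 * N), pI n * ∏ i, g2 N c e (r i) (n + h i) =
      ∑ n ∈ Ioc N (2 * N), pI n * ∏ i, ∑ m ∈ M i,
        if m ∣ n + h i then w1 N c ((n + h i) / m) else 0 := by
    refine sum_congr rfl fun n _ => ?_
    congr 1
    refine prod_congr rfl fun i _ => ?_
    rw [hMi]
    exact (hCFi i).2.2.2.2 _
  rw [hfin]
  refine le_trans ?_ htot
  have hL1' : 2 * (1 + 2 * R * Cst ^ k) ≤ c0 * Real.log N := by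
    rw [mul_comm c0]
    exact (div_le_iff₀ hc00).1 hL1
  exact numeric hL16 hN3 hWL hκ hxL hcs hcst0 hCst1 hR0.le hyk (by rw [hPdef]; exact hP) hT1 hT2
    hSsum hErr0 hErr1 hBad hGc hc0 hL1'

end

end Pool.Agent.Lib.MP3efbeb.LG
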