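import Pool.Agent.Lib.MP_3efbeb_nt.LG.SpecA

/-!
# Module MVT: the mean value theorem for Dirichlet polynomials
-/

set_option autoImplicit false

namespace Pool.Agent.Lib.MP3efbeb.LG

open Finset MeasureTheory

namespace MVTM

theorem tele (a : ℝ) (ha : 0 < a) (M : ℕ) :
    ∑ j ∈ range M, 2 / (1 + a * (((j + 1 : ℕ) : ℝ))) ^ 2 ≤ 2 / a * (1 - 1 / (1 + a * M)) := by
  induction M with
  | zero => simp
  | succ M ih =>
    rw [sum_range_succ]
    have hu : 0 < 1 + a * (M : ℝ) := by positivity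
    have hv : 0 < 1 + a * ((M + 1 : ℕ) : ℝ) := by positivity
    have huv : 1 + a * (M : ℝ) ≤ 1 + a * ((M + 1 : ℕ) : ℝ) := by
      push_cast
      nlinarith
    have h1 : 1 / (1 + a * (M : ℝ)) - 1 / (1 + a * ((M + 1 : ℕ) : ℝ)) =
        a / ((1 + a * (M : ℝ)) * (1 + a * ((M + 1 : ℕ) : ℝ))) := by
      rw [div_sub_div _ _ hu.ne' hv.ne']
      congr 1
      push_cast
      ring
    have h2 : 2 / (1 + a * ((M + 1 : ℕ) : ℝ)) ^ 2 ≤
        2 / a * (1 / (1 + a * (M : ℝ)) - 1 / (1 + a * ((M + 1 : ℕ) : ℝ))) := by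
      rw [h1, div_mul_div_cancel₀ ha.ne']
      apply div_le_div_of_nonneg_left (by norm_num) (by positivity)
      rw [sq]
      exact mul_le_mul_of_nonneg_right huv hv.le
    calc _ ≤ 2 / a * (1 - 1 / (1 + a * M)) +
          2 / a * (1 / (1 + a * (M : ℝ)) - 1 / (1 + a * ((M + 1 : ℕ) : ℝ))) := add_le_add ih h2
      _ = _ := by ring

theorem tele' (a : ℝ) (ha : 0 < a) (M : ℕ) :
    ∑ j ∈ range M, 2 / (1 + a * (((j + 1 : ℕ) : ℝ))) ^ 2 ≤ 2 / a := by
  refine (tele a ha M).trans ?_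
  have h : 0 ≤ 1 / (1 + a * (M : ℝ)) := by positivity
  have h2 : 0 ≤ 2 / a := by positivity
  nlinarith

theorem row (a : ℝ) (ha : 0 < a) (S : Finset ℕ) (n : ℕ) :
    ∑ m ∈ S, 2 / (1 + a * |(n : ℝ) - m|) ^ 2 ≤ 2 + 4 / a := by
  set M := S.sup id + 1 with hM
  have hsub : S ⊆ range (n + 1 + M) := by
    intro m hm
    rw [mem_range]
    have := le_sup (f := id) hm
    simp only [id] at this
    omega
  refine (sum_le_sum_of_subset_of_nonneg hsub fun _ _ _ => by positivity).trans ?_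
  rw [sum_range_add]
  have h1 : ∑ m ∈ range (n + 1), 2 / (1 + a * |(n : ℝ) - m|) ^ 2 ≤ 2 + 2 / a := by
    have e : ∑ m ∈ range (n + 1), 2 / (1 + a * |(n : ℝ) - m|) ^ 2 =
        ∑ j ∈ range (n + 1), 2 / (1 + a * (j : ℝ)) ^ 2 := by
      rw [← sum_range_reflect (fun j : ℕ => 2 / (1 + a * (j : ℝ)) ^ 2) (n + 1)]
      refine sum_congr rfl fun m hm => ?_
      rw [mem_range] at hm
      rw [show n + 1 - 1 - m = n - m by omega, Nat.cast_sub (by omega), abs_of_nonneg]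
      rw [sub_nonneg]
      exact_mod_cast (by omega : m ≤ n)
    rw [e, sum_range_succ']
    have h2 := tele' a ha n
    have h3 : 2 / (1 + a * ((0 : ℕ) : ℝ)) ^ 2 = 2 := by simp
    rw [h3]
    linarith
  have h2 : ∑ j ∈ range M, 2 / (1 + a * |(n : ℝ) - ((n + 1 + j : ℕ) : ℝ)|) ^ 2 ≤ 2 / a := by
    refine le_trans (le_of_eq ?_) (tele' a ha M)
    refine sum_congr rfl fun j _ => ?_
    have : |(n : ℝ) - ((n + 1 + j : ℕ) : ℝ)| = ((j + 1 : ℕ) : ℝ) := by
      push_cast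
      rw [show (n : ℝ) - (n + 1 + j) = -(j + 1) by ring, abs_neg, abs_of_nonneg (by positivity)]
    rw [this]
  have h4 : (4 : ℝ) / a = 2 / a + 2 / a := by ring
  linarith

theorem exp_le (u : ℝ) (hu : 0 ≤ u) : Real.exp (-u ^ 2) ≤ 2 / (1 + u) ^ 2 := by
  have h1 : 1 + u ^ 2 ≤ Real.exp (u ^ 2) := by
    have := Real.add_one_le_exp (u ^ 2)
    linarith
  rw [Real.exp_neg, ← one_div]
  calc 1 / Real.exp (u ^ 2) ≤ 1 / (1 + u ^ 2) := one_div_le_one_div_of_le (by positivity) h1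
    _ ≤ 2 / (1 + u) ^ 2 := by
        rw [div_le_div_iff₀ (by positivity) (by positivity)]
        nlinarith [sq_nonneg (1 - u)]

theorem log_ge (X : ℝ) (n m : ℕ) (hn : 1 ≤ n) (hm : 1 ≤ m) (hnX : (n : ℝ) ≤ X) (hmX : (m : ℝ) ≤ X) :
    |(n : ℝ) - m| / X ≤ |Real.log n - Real.log m| := by
  have key : ∀ n m : ℕ, 1 ≤ n → 1 ≤ m → (n : ℝ) ≤ X → m ≤ n →
      |(n : ℝ) - m| / X ≤ |Real.log n - Real.log m| := by
    intro n m hn hm hnX hmn
    have hn0 : (0 : ℝ) < n := by exact_mod_cast hn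
    have hm0 : (0 : ℝ) < m := by exact_mod_cast hm
    have hmn' : (m : ℝ) ≤ n := by exact_mod_cast hmn
    have hl : Real.log m ≤ Real.log n := Real.log_le_log hm0 hmn'
    rw [abs_of_nonneg (sub_nonneg.2 hmn'), abs_of_nonneg (sub_nonneg.2 hl)]
    have h1 := Real.log_le_sub_one_of_pos (div_pos hm0 hn0)
    rw [Real.log_div hm0.ne' hn0.ne'] at h1
    have h2 : ((n : ℝ) - m) / X ≤ ((n : ℝ) - m) / n :=
      div_le_div_of_nonneg_left (sub_nonneg.2 hmn') hn0 hnX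
    have h3 : ((n : ℝ) - m) / n = 1 - m / n := by
      rw [sub_div, div_self hn0.ne']
    linarith
  rcases le_total m n with h | h
  · exact key n m hn hm hnX h
  · rw [abs_sub_comm, abs_sub_comm (Real.log n)]
    exact key m n hm hn hmX h

/-- the Gaussian integral of one frequency -/
noncomputable def GI (T x : ℝ) : ℂ :=
  ∫ t : ℝ, Complex.exp (Complex.I * x * t) * Complex.exp (-((1 / T ^ 2 : ℝ) : ℂ) * t ^ 2)

theorem re_pos {T : ℝ} (hT : 1 ≤ T) : 0 < ((1 / T ^ 2 : ℝ) : ℂ).re := by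
  rw [Complex.ofReal_re]
  positivity

theorem integrable_GI {T : ℝ} (hT : 1 ≤ T) (x : ℝ) : Integrable fun t : ℝ =>
    Complex.exp (Complex.I * x * t) * Complex.exp (-((1 / T ^ 2 : ℝ) : ℂ) * t ^ 2) := by
  have h := integrable_cexp_quadratic (re_pos hT) (Complex.I * x) 0
  refine h.congr (Filter.Eventually.of_forall fun t => ?_)
  dsimp only
  rw [← Complex.exp_add]
  congr 1
  ring

theorem norm_GI {T : ℝ} (hT : 1 ≤ T) (x : ℝ) :
    ‖GI T x‖ = √Real.pi * T * Real.exp (-(T * x / 2) ^ 2) := by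
  have hT0 : 0 < T := by linarith
  unfold GI
  rw [fourierIntegral_gaussian (re_pos hT), norm_mul]
  have e1 : (Real.pi : ℂ) / ((1 / T ^ 2 : ℝ) : ℂ) = ((Real.pi * T ^ 2 : ℝ) : ℂ) := by
    push_cast
    rw [div_div_eq_mul_div, div_one]
  have e2 : -(x : ℂ) ^ 2 / (4 * ((1 / T ^ 2 : ℝ) : ℂ)) = ((-(T * x / 2) ^ 2 : ℝ) : ℂ) := by
    have : (T : ℂ) ≠ 0 := by exact_mod_cast hT0.ne'
    push_cast
    field_simp
    ring
  rw [e1, e2, Complex.norm_exp, Complex.ofReal_re,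
    Complex.norm_cpow_eq_rpow_re_of_pos (by positivity)]
  have e3 : ((1 / 2 : ℂ)).re = 1 / 2 := by norm_num
  rw [e3, ← Real.sqrt_eq_rpow, Real.sqrt_mul Real.pi_pos.le, Real.sqrt_sq hT0.le]

theorem DP_continuous (S : Finset ℕ) (b : ℕ → ℂ) : Continuous (DP S b) := by
  unfold DP nit
  fun_prop

theorem expand (S : Finset ℕ) (b : ℕ → ℂ) (T t : ℝ) :
    ((‖DP S b t‖ ^ 2 * Real.exp (-(1 / T ^ 2) * t ^ 2) : ℝ) : ℂ) =
      ∑ n ∈ S, ∑ m ∈ S, (b n * (starRingEnd ℂ) (b m)) *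
        (Complex.exp (Complex.I * ((Real.log n - Real.log m : ℝ) : ℂ) * t) *
          Complex.exp (-((1 / T ^ 2 : ℝ) : ℂ) * t ^ 2)) := by
  have h1 : ((‖DP S b t‖ ^ 2 : ℝ) : ℂ) = DP S b t * (starRingEnd ℂ) (DP S b t) := by
    rw [Complex.mul_conj, Complex.normSq_eq_norm_sq]
  have h2 : ((Real.exp (-(1 / T ^ 2) * t ^ 2) : ℝ) : ℂ) =
      Complex.exp (-((1 / T ^ 2 : ℝ) : ℂ) * t ^ 2) := by
    push_cast
    rfl
  rw [Complex.ofReal_mul, h1, h2]
  unfold DP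
  rw [map_sum, sum_mul_sum, sum_mul]
  refine sum_congr rfl fun n _ => ?_
  rw [sum_mul]
  refine sum_congr rfl fun m _ => ?_
  have h3 : nit n t * (starRingEnd ℂ) (nit m t) =
      Complex.exp (Complex.I * ((Real.log n - Real.log m : ℝ) : ℂ) * t) := by
    unfold nit
    rw [← Complex.exp_conj, ← Complex.exp_add]
    congr 1
    rw [map_mul, Complex.conj_ofReal, Complex.conj_I]
    push_cast
    ring
  rw [map_mul, ← h3]
  ring

theorem main (S : Finset ℕ) (b : ℕ → ℂ) {T : ℝ} (hT : 1 ≤ T) :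
    Integrable (fun t : ℝ => ‖DP S b t‖ ^ 2 * Real.exp (-(1 / T ^ 2) * t ^ 2)) ∧
    ∫ t : ℝ, ‖DP S b t‖ ^ 2 * Real.exp (-(1 / T ^ 2) * t ^ 2) ≤
      ∑ n ∈ S, ∑ m ∈ S, ‖b n‖ * ‖b m‖ *
        (√Real.pi * T * Real.exp (-(T * (Real.log n - Real.log m) / 2) ^ 2)) := by
  have hterm : ∀ n ∈ S, ∀ m ∈ S, Integrable fun t : ℝ => (b n * (starRingEnd ℂ) (b m)) *
        (Complex.exp (Complex.I * ((Real.log n - Real.log m : ℝ) : ℂ) * t) *
          Complex.exp (-((1 / T ^ 2 : ℝ) : ℂ) * t ^ 2)) := fun n _ m _ =>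
    (integrable_GI hT _).const_mul _
  have hint : Integrable fun t : ℝ =>
      ((‖DP S b t‖ ^ 2 * Real.exp (-(1 / T ^ 2) * t ^ 2) : ℝ) : ℂ) := by
    simp_rw [expand]
    exact integrable_finsetSum _ fun n hn => integrable_finsetSum _ fun m hm => hterm n hn m hm
  refine ⟨?_, ?_⟩
  · have := hint.re
    simpa only [RCLike.re_eq_complex_re, Complex.ofReal_re] using this
  · have h1 : ((∫ t : ℝ, ‖DP S b t‖ ^ 2 * Real.exp (-(1 / T ^ 2) * t ^ 2) : ℝ) : ℂ) =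
        ∑ n ∈ S, ∑ m ∈ S, (b n * (starRingEnd ℂ) (b m)) * GI T (Real.log n - Real.log m) := by
      rw [← integral_complex_ofReal]
      simp_rw [expand]
      rw [integral_finsetSum _ fun n hn => integrable_finsetSum _ fun m hm => hterm n hn m hm]
      refine sum_congr rfl fun n hn => ?_
      rw [integral_finsetSum _ fun m hm => hterm n hn m hm]
      refine sum_congr rfl fun m _ => ?_
      rw [integral_const_mul]
      rfl
    have h2 : (∫ t : ℝ, ‖DP S b t‖ ^ 2 * Real.exp (-(1 / T ^ 2) * t ^ 2)) ≤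
        ‖((∫ t : ℝ, ‖DP S b t‖ ^ 2 * Real.exp (-(1 / T ^ 2) * t ^ 2) : ℝ) : ℂ)‖ := by
      rw [Complex.norm_real]
      exact le_abs_self _
    refine h2.trans ?_
    rw [h1]
    refine (norm_sum_le _ _).trans (sum_le_sum fun n _ => (norm_sum_le _ _).trans
      (sum_le_sum fun m _ => ?_))
    rw [norm_mul, norm_mul, RCLike.norm_conj, norm_GI hT]

theorem quad (S : Finset ℕ) (b : ℕ → ℂ) (K : ℕ → ℕ → ℝ) (B : ℝ) (hK : ∀ n m, 0 ≤ K n m)
    (hs : ∀ n m, K n m = K m n) (hB : ∀ n ∈ S, ∑ m ∈ S, K n m ≤ B) :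
    ∑ n ∈ S, ∑ m ∈ S, ‖b n‖ * ‖b m‖ * K n m ≤ B * ∑ n ∈ S, ‖b n‖ ^ 2 := by
  have h1 : ∑ n ∈ S, ∑ m ∈ S, ‖b n‖ * ‖b m‖ * K n m ≤
      ∑ n ∈ S, ∑ m ∈ S, (1 / 2 * (‖b n‖ ^ 2 * K n m) + 1 / 2 * (‖b m‖ ^ 2 * K n m)) := by
    refine sum_le_sum fun n _ => sum_le_sum fun m _ => ?_
    have h2 : ‖b n‖ * ‖b m‖ ≤ 1 / 2 * (‖b n‖ ^ 2 + ‖b m‖ ^ 2) := by
      nlinarith [sq_nonneg (‖b n‖ - ‖b m‖)]
    have h3 := mul_le_mul_of_nonneg_right h2 (hK n m)
    linarith
  have h2 : ∑ n ∈ S, ∑ m ∈ S, ‖b m‖ ^ 2 * K n m = ∑ n ∈ S, ∑ m ∈ S, ‖b n‖ ^ 2 * K n m := by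
    rw [sum_comm]
    exact sum_congr rfl fun n _ => sum_congr rfl fun m _ => by rw [hs]
  have h3 : ∑ n ∈ S, ∑ m ∈ S, ‖b n‖ ^ 2 * K n m ≤ B * ∑ n ∈ S, ‖b n‖ ^ 2 := by
    rw [mul_sum]
    refine sum_le_sum fun n hn => ?_
    rw [← mul_sum, mul_comm B]
    exact mul_le_mul_of_nonneg_left (hB n hn) (sq_nonneg _)
  refine h1.trans ?_
  simp_rw [sum_add_distrib, ← mul_sum]
  simp_rw [← mul_sum] at h2 h3
  rw [h2]
  linarith

end MVTM

open MVTM

theorem specMVT : SpecMVT := by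
  refine ⟨Real.exp 1 * (8 * √Real.pi), by positivity, fun S X T b hX hT hS => ?_⟩
  have hT0 : 0 < T := by linarith
  have hX0 : 0 < X := by linarith
  obtain ⟨hint, hmain⟩ := main S b hT
  have hcont : Continuous fun t : ℝ => ‖DP S b t‖ ^ 2 := ((DP_continuous S b).norm).pow 2
  -- the weight
  have h1 : ∫ t in (-T)..T, ‖DP S b t‖ ^ 2 ≤
      Real.exp 1 * ∫ t : ℝ, ‖DP S b t‖ ^ 2 * Real.exp (-(1 / T ^ 2) * t ^ 2) := by
    rw [intervalIntegral.integral_of_le (by linarith), ← integral_const_mul]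
    calc ∫ t in Set.Ioc (-T) T, ‖DP S b t‖ ^ 2 ≤ ∫ t in Set.Ioc (-T) T,
          Real.exp 1 * (‖DP S b t‖ ^ 2 * Real.exp (-(1 / T ^ 2) * t ^ 2)) := by
          apply setIntegral_mono_on
          · exact (hcont.integrableOn_Icc).mono_set Set.Ioc_subset_Icc_self
          · exact (hint.const_mul _).integrableOn
          · exact measurableSet_Ioc
          · intro t ht
            have h2 : t ^ 2 ≤ T ^ 2 := by
              apply sq_le_sq'
              · linarith [ht.1]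
              · exact ht.2
            have h3 : 1 ≤ Real.exp 1 * Real.exp (-(1 / T ^ 2) * t ^ 2) := by
              rw [← Real.exp_add]
              apply Real.one_le_exp
              have : 1 / T ^ 2 * t ^ 2 ≤ 1 := by
                rw [one_div_mul_eq_div, div_le_one (by positivity)]
                exact h2
              linarith
            nlinarith [sq_nonneg ‖DP S b t‖]
      _ ≤ ∫ t : ℝ, Real.exp 1 * (‖DP S b t‖ ^ 2 * Real.exp (-(1 / T ^ 2) * t ^ 2)) := by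
          apply setIntegral_le_integral (hint.const_mul _)
          exact Filter.Eventually.of_forall fun t => by positivity
  -- the quadratic form
  set a : ℝ := T / (2 * X) with ha
  have ha0 : 0 < a := by positivity
  have h2 : ∑ n ∈ S, ∑ m ∈ S, ‖b n‖ * ‖b m‖ *
      (√Real.pi * T * Real.exp (-(T * (Real.log n - Real.log m) / 2) ^ 2)) ≤
      ∑ n ∈ S, ∑ m ∈ S, ‖b n‖ * ‖b m‖ * (√Real.pi * T * (2 / (1 + a * |(n : ℝ) - m|) ^ 2)) := by
    refine sum_le_sum fun n hn => sum_le_sum fun m hm => ?_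
    apply mul_le_mul_of_nonneg_left _ (by positivity)
    apply mul_le_mul_of_nonneg_left _ (by positivity)
    refine le_trans ?_ (exp_le (a * |(n : ℝ) - m|) (by positivity))
    apply Real.exp_le_exp.2
    apply neg_le_neg
    have h3 := log_ge X n m (hS n hn).1 (hS m hm).1 (hS n hn).2 (hS m hm).2
    have h4 : a * |(n : ℝ) - m| ≤ |T * (Real.log n - Real.log m) / 2| := by
      rw [abs_div, abs_mul, abs_of_pos hT0, abs_of_pos (by norm_num : (0 : ℝ) < 2)]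
      calc a * |(n : ℝ) - m| = T * (|(n : ℝ) - m| / X) / 2 := by
            rw [ha]
            field_simp
        _ ≤ _ := by gcongr
    calc (a * |(n : ℝ) - m|) ^ 2 ≤ |T * (Real.log n - Real.log m) / 2| ^ 2 :=
          pow_le_pow_left₀ (by positivity) h4 2
      _ = _ := sq_abs _
  have h3 : ∑ n ∈ S, ∑ m ∈ S, ‖b n‖ * ‖b m‖ * (√Real.pi * T * (2 / (1 + a * |(n : ℝ) - m|) ^ 2)) ≤
      (8 * √Real.pi * (T + X)) * ∑ n ∈ S, ‖b n‖ ^ 2 := by
    apply quad S b (fun n m => √Real.pi * T * (2 / (1 + a * |(n : ℝ) - m|) ^ 2))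
    · intro n m
      positivity
    · intro n m
      rw [abs_sub_comm]
    · intro n _
      rw [← mul_sum]
      have h4 := row a ha0 S n
      have h5 : 4 / a = 8 * X / T := by
        rw [ha]
        field_simp
        norm_num
      calc √Real.pi * T * ∑ m ∈ S, 2 / (1 + a * |(n : ℝ) - m|) ^ 2 ≤
          √Real.pi * T * (2 + 8 * X / T) := by
            apply mul_le_mul_of_nonneg_left _ (by positivity)
            rw [← h5]
            exact h4
        _ = √Real.pi * (2 * T + 8 * X) := by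
            field_simp
        _ ≤ √Real.pi * (8 * (T + X)) := by
            apply mul_le_mul_of_nonneg_left _ (Real.sqrt_nonneg _)
            linarith
        _ = _ := by ring
  calc ∫ t in (-T)..T, ‖DP S b t‖ ^ 2 ≤
      Real.exp 1 * ∫ t : ℝ, ‖DP S b t‖ ^ 2 * Real.exp (-(1 / T ^ 2) * t ^ 2) := h1
    _ ≤ Real.exp 1 * ((8 * √Real.pi * (T + X)) * ∑ n ∈ S, ‖b n‖ ^ 2) :=
        mul_le_mul_of_nonneg_left ((hmain.trans h2).trans h3) (Real.exp_pos _).le
    _ = _ := by ring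

end Pool.Agent.Lib.MP3efbeb.LG
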