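import Pool.Agent.Lib.MP_3efbeb_nt.LG.SpecC

/-!
# The pointwise bound with weights `Λ` (module PPL)
-/

set_option autoImplicit false

namespace Pool.Agent.Lib.MP3efbeb.LG

open Finset MeasureTheory Filter Topology
open ArithmeticFunction (vonMangoldt moebius)

noncomputable section

namespace PPLM

/-- Abel summation, identity. -/
theorem abel_id (f : ℕ → ℂ) (g : ℕ → ℝ) (a b : ℕ) (hab : a ≤ b) :
    ∑ n ∈ Ioc a b, (g n : ℂ) * f n = g b * ∑ n ∈ Ioc a b, f n -
      ∑ m ∈ Ico a b, ((g (m + 1) - g m : ℝ) : ℂ) * ∑ n ∈ Ioc a m, f n := by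
  induction b, hab using Nat.le_induction with
  | base => simp
  | succ b hab ih =>
    rw [Finset.sum_Ioc_succ_top (by omega), Finset.sum_Ioc_succ_top (by omega),
      Finset.sum_Ico_succ_top hab, ih]
    push_cast
    ring

theorem tel (g : ℕ → ℝ) (a b : ℕ) (hab : a ≤ b) :
    ∑ m ∈ Ico a b, (g (m + 1) - g m) = g b - g a := by
  induction b, hab using Nat.le_induction with
  | base => simp
  | succ b hab ih =>
    rw [Finset.sum_Ico_succ_top hab, ih]
    ring

/-- Abel summation, bound. -/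
theorem abel_bound (f : ℕ → ℂ) (g : ℕ → ℝ) (a b : ℕ) (M : ℝ) (hM : 0 ≤ M) (hab : a ≤ b)
    (hmono : ∀ m, a ≤ m → m < b → g m ≤ g (m + 1)) (h0 : 0 ≤ g a)
    (hS : ∀ m, a ≤ m → m ≤ b → ‖∑ n ∈ Ioc a m, f n‖ ≤ M) :
    ‖∑ n ∈ Ioc a b, (g n : ℂ) * f n‖ ≤ 2 * M * g b := by
  have htel := tel g a b hab
  have hgb : g a ≤ g b := by
    have : 0 ≤ ∑ m ∈ Ico a b, (g (m + 1) - g m) := by
      refine Finset.sum_nonneg fun m hm => ?_
      have h := Finset.mem_Ico.1 hm
      linarith [hmono m h.1 h.2]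
    linarith
  rw [abel_id f g a b hab]
  have h1 : ‖(g b : ℂ) * ∑ n ∈ Ioc a b, f n‖ ≤ g b * M := by
    rw [norm_mul, Complex.norm_real, Real.norm_of_nonneg (by linarith)]
    exact mul_le_mul_of_nonneg_left (hS b hab le_rfl) (by linarith)
  have h2 : ‖∑ m ∈ Ico a b, ((g (m + 1) - g m : ℝ) : ℂ) * ∑ n ∈ Ioc a m, f n‖ ≤
      (g b - g a) * M := by
    rw [← htel, Finset.sum_mul]
    refine norm_sum_le_of_le _ fun m hm => ?_
    have h := Finset.mem_Ico.1 hm
    have h3 := hmono m h.1 h.2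
    rw [norm_mul, Complex.norm_real, Real.norm_of_nonneg (by linarith)]
    exact mul_le_mul_of_nonneg_left (hS m h.1 h.2.le) (by linarith)
  refine (norm_sub_le _ _).trans ((add_le_add h1 h2).trans ?_)
  nlinarith

/-- `n ^ (it)` as a complex power. -/
theorem nit_eq (n : ℕ) (hn : n ≠ 0) (t : ℝ) : nit n t = (n : ℂ) ^ (t * Complex.I) := by
  have h : (n : ℂ) ≠ 0 := by exact_mod_cast hn
  rw [nit, Complex.cpow_def_of_ne_zero h, ← Complex.natCast_log]
  congr 1
  push_cast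
  ring

theorem norm_nit (n : ℕ) (t : ℝ) : ‖nit n t‖ = 1 := by
  rw [nit, Complex.norm_exp_ofReal_mul_I]

end PPLM

open PPLM in
/-- PPL: the pointwise bound with weights `Λ` -/
theorem specPPL (hPPB : SpecPPB) : SpecPPL := by
  intro A b hA hb
  obtain ⟨K', X₀, hP⟩ := hPPB (A + 2) (b + 1) 8 (by linarith) (by linarith) (by norm_num)
  obtain ⟨K₁, hK₁⟩ : ∃ K₁ : ℝ, K₁ = max K' 0 := ⟨_, rfl⟩
  have hK₁0 : 0 ≤ K₁ := by rw [hK₁]; exact le_max_right _ _
  have hK₁' : K' ≤ K₁ := by rw [hK₁]; exact le_max_left _ _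
  -- the size of `N`
  have hev : ∀ᶠ N : ℝ in atTop, 1 ≤ N ∧ X₀ ≤ N ^ ((1 : ℝ) / 8) ∧
      8 * 8 ^ b ≤ Real.log N ∧ 8 * 8 ^ (A + 2) ≤ Real.log N ∧ 2 ^ K₁ ≤ Real.log N ∧
      Real.log N ^ (A + 1) ≤ N ^ ((1 : ℝ) / 16) / 64 ∧ 8 ≤ Real.log N := by
    have e1 : Tendsto (fun N : ℝ => N ^ ((1 : ℝ) / 8)) atTop atTop :=
      tendsto_rpow_atTop (by norm_num)
    have e2 : Tendsto (fun N : ℝ => Real.log N ^ (A + 1) / N ^ ((1 : ℝ) / 16)) atTop (𝓝 0) :=
      (isLittleO_log_rpow_rpow_atTop (A + 1) (by norm_num)).tendsto_div_nhds_zero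
    have e3 : ∀ᶠ N : ℝ in atTop, Real.log N ^ (A + 1) / N ^ ((1 : ℝ) / 16) < 1 / 64 :=
      e2.eventually_lt_const (by norm_num)
    filter_upwards [eventually_ge_atTop (1 : ℝ), e1.eventually_ge_atTop X₀,
      Real.tendsto_log_atTop.eventually_ge_atTop (8 * 8 ^ b),
      Real.tendsto_log_atTop.eventually_ge_atTop (8 * 8 ^ (A + 2)),
      Real.tendsto_log_atTop.eventually_ge_atTop (2 ^ K₁), e3,
      Real.tendsto_log_atTop.eventually_ge_atTop 8] with N a1 a2 a3 a4 a5 a6 a7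
    refine ⟨a1, a2, a3, a4, a5, ?_, a7⟩
    have h0 : 0 < N ^ ((1 : ℝ) / 16) := Real.rpow_pos_of_pos (by linarith) _
    rw [div_lt_iff₀ h0] at a6
    linarith
  obtain ⟨N₀, hN₀⟩ := eventually_atTop.1 hev
  refine ⟨K₁ + 1, N₀, by linarith, ?_⟩
  intro N s s' t q _ χ hN hs hs64 hss' hs2 hq ht hχ
  obtain ⟨a1, a2, a3, a4, a5, a6, a7⟩ := hN₀ N hN
  obtain ⟨L, hL⟩ : ∃ L, L = Real.log N := ⟨_, rfl⟩
  rw [← hL] at a3 a4 a5 a6 a7 hq hχ ⊢
  have hN0 : 0 < N := by linarith
  have hL0 : 0 < L := by linarith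
  have hNs0 : 0 < N ^ ((1 : ℝ) / 8) := Real.rpow_pos_of_pos hN0 _
  have hs0 : 0 < s := hNs0.trans_le hs
  -- logarithms
  obtain ⟨l, hl⟩ : ∃ l, l = Real.log s := ⟨_, rfl⟩
  have hl1 : L / 8 ≤ l := by
    have h := Real.log_le_log hNs0 hs
    rw [Real.log_rpow hN0, ← hL, ← hl] at h
    linarith
  have hl1' : 1 ≤ l := by linarith
  have hl0 : 0 < l := by linarith
  have hlog64 : Real.log 64 ≤ 5 := by
    have h1 : Real.log 64 = 6 * Real.log 2 := by
      rw [show (64 : ℝ) = 2 ^ 6 by norm_num, Real.log_pow]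
      norm_num
    have h2 := Real.log_two_lt_d9
    rw [h1]
    linarith
  have hl2 : l ≤ 2 * L := by
    have h := Real.log_le_log hs0 hs64
    rw [Real.log_mul (by norm_num) hN0.ne', ← hL, ← hl] at h
    linarith
  have hs1 : 1 ≤ s := by
    by_contra h
    have h2 : Real.log s < 0 := Real.log_neg hs0 (not_le.1 h)
    rw [← hl] at h2
    linarith
  have hs'0 : 0 < s' := by linarith
  have hls' : Real.log s' ≤ 2 * l := by
    have h := Real.log_le_log hs'0 hs2
    rw [Real.log_mul (by norm_num) hs0.ne', ← hl] at h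
    have h2 := Real.log_two_lt_d9
    linarith
  have hls'0 : 0 ≤ Real.log s' := Real.log_nonneg (by linarith)
  -- the bound for the primes
  obtain ⟨M, hM⟩ : ∃ M, M = s / l ^ (A + 2) := ⟨_, rfl⟩
  have hlA : 0 < l ^ (A + 2) := Real.rpow_pos_of_pos hl0 _
  have hM0 : 0 ≤ M := by rw [hM]; positivity
  obtain ⟨f, hf⟩ : ∃ f : ℕ → ℂ, f = fun n => if n.Prime then χ n * nit n t else 0 := ⟨_, rfl⟩
  have hSum : ∀ m, ⌊s⌋₊ ≤ m → m ≤ ⌊s'⌋₊ → ‖∑ n ∈ Ioc ⌊s⌋₊ m, f n‖ ≤ M := by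
    intro m hm1 hm2
    rcases hm1.eq_or_lt with h | h
    · rw [← h]
      simpa using hM0
    · have b1 : s < m := (Nat.floor_lt hs0.le).1 h
      have b2 : (m : ℝ) ≤ s' := (Nat.le_floor_iff hs'0.le).1 hm2
      have hq' : (q : ℝ) ≤ Real.log s ^ (b + 1) := by
        rw [← hl]
        calc (q : ℝ) ≤ L ^ b := hq
          _ ≤ (8 * l) ^ b := Real.rpow_le_rpow hL0.le (by linarith) (by linarith)
          _ = 8 ^ b * l ^ b := Real.mul_rpow (by norm_num) hl0.le
          _ ≤ l * l ^ b := by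
              refine mul_le_mul_of_nonneg_right ?_ (Real.rpow_nonneg hl0.le _)
              linarith
          _ = l ^ (b + 1) := by
              rw [Real.rpow_add hl0, Real.rpow_one, mul_comm]
      have ht' : |t| ≤ s ^ (8 : ℝ) := by
        calc |t| ≤ N := ht
          _ = (N ^ ((1 : ℝ) / 8)) ^ (8 : ℝ) := by
              rw [← Real.rpow_mul hN0.le]
              norm_num
          _ ≤ s ^ (8 : ℝ) := Real.rpow_le_rpow hNs0.le hs (by norm_num)
      have hχ' : χ ≠ 1 ∨ Real.log s ^ K' ≤ |t| := by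
        rcases hχ with h | h
        · exact Or.inl h
        · right
          rw [← hl]
          calc l ^ K' ≤ l ^ K₁ := Real.rpow_le_rpow_of_exponent_le hl1' hK₁'
            _ ≤ (2 * L) ^ K₁ := Real.rpow_le_rpow hl0.le hl2 hK₁0
            _ = 2 ^ K₁ * L ^ K₁ := Real.mul_rpow (by norm_num) hL0.le
            _ ≤ L * L ^ K₁ := mul_le_mul_of_nonneg_right a5 (Real.rpow_nonneg hL0.le _)
            _ = L ^ (K₁ + 1) := by rw [Real.rpow_add hL0, Real.rpow_one, mul_comm]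
            _ ≤ |t| := h
      have h1 := hP s m q χ t (a2.trans hs) b1.le (b2.trans hs2) hq' ht' hχ'
      rw [Nat.floor_natCast, ← hl, ← hM] at h1
      have h2 : ∑ n ∈ Ioc ⌊s⌋₊ m, f n =
          ∑ p ∈ (Ioc ⌊s⌋₊ m).filter Nat.Prime, χ (p : ZMod q) * (p : ℂ) ^ (t * Complex.I) := by
        rw [Finset.sum_filter, hf]
        refine Finset.sum_congr rfl fun n _ => ?_
        by_cases hn : n.Prime
        · simp only [if_pos hn]
          rw [nit_eq n hn.ne_zero]
        · simp only [if_neg hn]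
      rw [h2]
      exact h1
  have hfl : ⌊s⌋₊ ≤ ⌊s'⌋₊ := Nat.floor_mono hss'
  have hfl1 : 1 ≤ ⌊s⌋₊ := (Nat.one_le_floor_iff s).2 hs1
  have hprime : ‖∑ n ∈ Ioc ⌊s⌋₊ ⌊s'⌋₊, (Real.log n : ℂ) * f n‖ ≤ 2 * M * (2 * l) := by
    have h1 := abel_bound f (fun n => Real.log n) ⌊s⌋₊ ⌊s'⌋₊ M hM0 hfl
      (fun m hm _ => Real.log_le_log (by exact_mod_cast (hfl1.trans hm)) (by push_cast; linarith))
      (Real.log_nonneg (by exact_mod_cast hfl1)) hSum
    refine h1.trans (mul_le_mul_of_nonneg_left ?_ (by linarith))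
    refine (Real.log_le_log ?_ (Nat.floor_le hs'0.le)).trans hls'
    exact_mod_cast hfl1.trans hfl
  -- the prime powers
  have hpow : ‖∑ n ∈ Ioc ⌊s⌋₊ ⌊s'⌋₊, (if n.Prime then 0 else (vonMangoldt n : ℂ) * χ n * nit n t)‖ ≤
      2 * √s' * Real.log s' := by
    have h1 : ∀ n ∈ Ioc ⌊s⌋₊ ⌊s'⌋₊,
        ‖(if n.Prime then 0 else (vonMangoldt n : ℂ) * χ n * nit n t)‖ ≤
        if ¬ n.Prime then vonMangoldt n else 0 := by
      intro n _
      by_cases hn : n.Prime
      · simp [hn]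
      · rw [if_neg hn, if_pos hn, norm_mul, norm_mul, norm_nit, mul_one, Complex.norm_real,
          Real.norm_of_nonneg ArithmeticFunction.vonMangoldt_nonneg]
        exact mul_le_of_le_one_right ArithmeticFunction.vonMangoldt_nonneg
          (DirichletCharacter.norm_le_one χ _)
    refine (norm_sum_le_of_le _ h1).trans ?_
    rw [← Finset.sum_filter]
    refine le_trans ?_ (Chebyshev.psi_sub_theta_le (x := s') (by linarith))
    rw [Chebyshev.psi_sub_theta_eq_sum_not_prime]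
    refine Finset.sum_le_sum_of_subset_of_nonneg ?_
      fun _ _ _ => ArithmeticFunction.vonMangoldt_nonneg
    intro n hn
    rw [Finset.mem_filter, Finset.mem_Ioc] at hn ⊢
    exact ⟨⟨by omega, hn.1.2⟩, hn.2⟩
  -- together
  have hsplit : DP (IO s s') (fun n => (vonMangoldt n : ℂ) * χ n) t =
      (∑ n ∈ Ioc ⌊s⌋₊ ⌊s'⌋₊, (Real.log n : ℂ) * f n) +
      ∑ n ∈ Ioc ⌊s⌋₊ ⌊s'⌋₊, (if n.Prime then 0 else (vonMangoldt n : ℂ) * χ n * nit n t) := by
    rw [DP, IO, ← Finset.sum_add_distrib]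
    refine Finset.sum_congr rfl fun n _ => ?_
    rw [hf]
    by_cases hn : n.Prime
    · simp only [if_pos hn]
      rw [ArithmeticFunction.vonMangoldt_apply_prime hn]
      ring
    · simp only [if_neg hn]
      ring
  rw [hsplit]
  refine (norm_add_le _ _).trans ((add_le_add hprime hpow).trans ?_)
  have hLA : 0 < L ^ A := Real.rpow_pos_of_pos hL0 _
  -- first part
  have c1 : 2 * M * (2 * l) ≤ s / L ^ A / 2 := by
    have d1 : L ^ (A + 1) ≤ 8 ^ (A + 1) * l ^ (A + 1) := by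
      rw [← Real.mul_rpow (by norm_num) hl0.le]
      exact Real.rpow_le_rpow hL0.le (by linarith) (by linarith)
    have d2 : l ^ (A + 2) = l * l ^ (A + 1) := by
      rw [show A + 2 = (A + 1) + 1 by ring, Real.rpow_add hl0, Real.rpow_one, mul_comm]
    have d3 : L ^ (A + 1) = L * L ^ A := by
      rw [Real.rpow_add hL0, Real.rpow_one, mul_comm]
    have d4 : (8 : ℝ) ^ (A + 2) = 8 * 8 ^ (A + 1) := by
      rw [show A + 2 = (A + 1) + 1 by ring, Real.rpow_add (by norm_num), Real.rpow_one, mul_comm]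
    have d5 : 0 < l ^ (A + 1) := Real.rpow_pos_of_pos hl0 _
    have d6 : (0 : ℝ) < 8 ^ (A + 1) := Real.rpow_pos_of_pos (by norm_num) _
    have d7 : 8 * L ^ A ≤ l ^ (A + 1) := by
      have : 8 ^ (A + 1) * (8 * L ^ A) ≤ 8 ^ (A + 1) * l ^ (A + 1) := by
        refine le_trans ?_ d1
        rw [d3]
        have : 8 * 8 ^ (A + 1) * L ^ A ≤ L * L ^ A := by
          refine mul_le_mul_of_nonneg_right ?_ hLA.le
          rw [← d4]
          have : (0 : ℝ) < 8 ^ (A + 2) := Real.rpow_pos_of_pos (by norm_num) _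
          linarith
        linarith
      exact le_of_mul_le_mul_left this d6
    rw [hM, d2]
    have e1 : 2 * (s / (l * l ^ (A + 1))) * (2 * l) = 4 * s / l ^ (A + 1) := by
      field_simp
      ring
    rw [e1, div_div, div_le_div_iff₀ d5 (by positivity)]
    nlinarith
  -- second part
  have c2 : 2 * √s' * Real.log s' ≤ s / L ^ A / 2 := by
    have e1 : √s' ≤ 2 * √s := by
      rw [show 2 * √s = √(4 * s) by
        rw [Real.sqrt_mul (by norm_num), show (4 : ℝ) = 2 ^ 2 by norm_num,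
          Real.sqrt_sq (by norm_num)]]
      exact Real.sqrt_le_sqrt (by linarith)
    have e2 : N ^ ((1 : ℝ) / 16) ≤ √s := by
      rw [Real.sqrt_eq_rpow, show (1 : ℝ) / 16 = 1 / 8 * (1 / 2) by norm_num,
        Real.rpow_mul hN0.le]
      exact Real.rpow_le_rpow hNs0.le hs (by norm_num)
    have e3 : √s * √s = s := Real.mul_self_sqrt hs0.le
    have e4 : L ^ (A + 1) = L * L ^ A := by
      rw [Real.rpow_add hL0, Real.rpow_one, mul_comm]
    have e5 : 0 ≤ √s := Real.sqrt_nonneg _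
    have e6 : Real.log s' ≤ 4 * L := by linarith
    rw [div_div, le_div_iff₀ (by positivity)]
    calc 2 * √s' * Real.log s' * (L ^ A * 2) ≤ 2 * (2 * √s) * (4 * L) * (L ^ A * 2) := by
          refine mul_le_mul_of_nonneg_right ?_ (by positivity)
          exact mul_le_mul (by linarith) e6 hls'0 (by positivity)
      _ = √s * (32 * (L * L ^ A)) := by ring
      _ = √s * (32 * L ^ (A + 1)) := by rw [e4]
      _ ≤ √s * √s := mul_le_mul_of_nonneg_left (by linarith) e5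
      _ = s := e3
  linarith

end

end Pool.Agent.Lib.MP3efbeb.LG
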