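import Pool.Agent.Lib.MP_3efbeb_nt.LG.SpecC

/-!
# Module PRV of LongPatterns (MP_3efbeb_nt): primes on a small set
-/

set_option autoImplicit false

namespace Pool.Agent.Lib.MP3efbeb.LG

open Finset MeasureTheory
open ArithmeticFunction (vonMangoldt moebius)
open Pool.Agent.Lib.MP391708.QPA (PB rInd Wp Rough)

namespace PRVM

theorem nit_norm (n : ℕ) (t : ℝ) : ‖nit n t‖ = 1 := by
  unfold nit
  exact Complex.norm_exp_ofReal_mul_I _

theorem nit_cont (n : ℕ) : Continuous (nit n) := by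
  unfold nit
  fun_prop

theorem DP_cont (S : Finset ℕ) (a : ℕ → ℂ) : Continuous (DP S a) := by
  unfold DP
  exact continuous_finsetSum _ fun n _ => continuous_const.mul (nit_cont n)

theorem DP_int (S : Finset ℕ) (a : ℕ → ℂ) (E : Set ℝ) (T : ℝ) (hE : E ⊆ Set.Icc (-T) T) :
    IntegrableOn (fun t => ‖DP S a t‖ ^ 2) E := by
  have h : Continuous (fun t => ‖DP S a t‖ ^ 2) := (DP_cont S a).norm.pow 2
  exact (h.continuousOn.integrableOn_Icc).mono_set hE

/-- prime powers which are not prime -/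
noncomputable def np (k : ℕ) : ℝ := if k.Prime then 0 else vonMangoldt k

theorem np_nonneg (k : ℕ) : 0 ≤ np k := by
  unfold np
  split_ifs
  · exact le_rfl
  · exact ArithmeticFunction.vonMangoldt_nonneg

theorem np_sum (y : ℝ) (hy : 1 ≤ y) :
    ∑ k ∈ IO y (32 * y), np k ≤ 2 * √(32 * y) * Real.log (32 * y) := by
  have h1 : ∑ k ∈ IO y (32 * y), np k ≤ ∑ k ∈ Ioc 0 ⌊32 * y⌋₊, np k := by
    refine Finset.sum_le_sum_of_subset_of_nonneg ?_ fun k _ _ => np_nonneg k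
    unfold IO
    exact Finset.Ioc_subset_Ioc_left (Nat.zero_le _)
  refine h1.trans ?_
  have h2 := Chebyshev.psi_sub_theta_le (x := 32 * y) (by linarith)
  rw [Chebyshev.psi_sub_theta_eq_sum_not_prime, Finset.sum_filter] at h2
  refine le_trans (le_of_eq (Finset.sum_congr rfl fun k _ => ?_)) h2
  unfold np
  by_cases hk : k.Prime <;> simp [hk]

theorem np_bound (y : ℝ) (hy : 1 ≤ y) {q : ℕ} (χ : DirichletCharacter ℂ q) (t : ℝ) :
    ‖DP (IO y (32 * y)) (fun k => (np k : ℂ) * χ k) t‖ ≤ 2 * √(32 * y) * Real.log (32 * y) := by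
  refine le_trans ?_ (np_sum y hy)
  unfold DP
  refine (norm_sum_le _ _).trans (Finset.sum_le_sum fun k _ => ?_)
  rw [norm_mul, nit_norm, mul_one, norm_mul, Complex.norm_real, Real.norm_eq_abs,
    abs_of_nonneg (np_nonneg k)]
  calc np k * ‖χ k‖ ≤ np k * 1 := mul_le_mul_of_nonneg_left (χ.norm_le_one _) (np_nonneg k)
    _ = np k := mul_one _

theorem sq4 (a b c d : ℂ) : ‖a - b + c - d‖ ^ 2 ≤ 4 * (‖a‖ ^ 2 + ‖b‖ ^ 2 + ‖c‖ ^ 2 + ‖d‖ ^ 2) := by
  have h : ‖a - b + c - d‖ ≤ ‖a‖ + ‖b‖ + ‖c‖ + ‖d‖ := by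
    calc ‖a - b + c - d‖ ≤ ‖a - b + c‖ + ‖d‖ := norm_sub_le _ _
      _ ≤ ‖a - b‖ + ‖c‖ + ‖d‖ := by gcongr; exact norm_add_le _ _
      _ ≤ ‖a‖ + ‖b‖ + ‖c‖ + ‖d‖ := by gcongr; exact norm_sub_le _ _
  have h0 := norm_nonneg (a - b + c - d)
  have h1 : ‖a - b + c - d‖ ^ 2 ≤ (‖a‖ + ‖b‖ + ‖c‖ + ‖d‖) ^ 2 := pow_le_pow_left₀ h0 h 2
  refine h1.trans ?_
  nlinarith [sq_nonneg (‖a‖ - ‖b‖), sq_nonneg (‖a‖ - ‖c‖), sq_nonneg (‖a‖ - ‖d‖),
    sq_nonneg (‖b‖ - ‖c‖), sq_nonneg (‖b‖ - ‖d‖), sq_nonneg (‖c‖ - ‖d‖)]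

/-- the decomposition -/
theorem decomp (hVAU : SpecVAU) (V : ℕ) (N y : ℝ) (hL : 1 ≤ Real.log N) (hV : (V : ℝ) ≤ y)
    {q : ℕ} (χ : DirichletCharacter ℂ q) (t : ℝ) :
    ‖DP (IO y (32 * y)) (fun k => (pL N k : ℂ) * χ k) t‖ ^ 2 ≤
      ‖DP (IO y (32 * y)) (fun k => (va1 V k : ℂ) * χ k) t‖ ^ 2 +
      ‖DP (IO y (32 * y)) (fun k => (va2 V k : ℂ) * χ k) t‖ ^ 2 +
      ‖DP (IO y (32 * y)) (fun k => (va3 V k : ℂ) * χ k) t‖ ^ 2 +
      ‖DP (IO y (32 * y)) (fun k => (np k : ℂ) * χ k) t‖ ^ 2 := by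
  set L := Real.log N with hLdef
  have L0 : 0 < L := by linarith
  have e : DP (IO y (32 * y)) (fun k => (pL N k : ℂ) * χ k) t = ((1 / (2 * L) : ℝ) : ℂ) *
      (DP (IO y (32 * y)) (fun k => (va1 V k : ℂ) * χ k) t -
      DP (IO y (32 * y)) (fun k => (va2 V k : ℂ) * χ k) t +
      DP (IO y (32 * y)) (fun k => (va3 V k : ℂ) * χ k) t -
      DP (IO y (32 * y)) (fun k => (np k : ℂ) * χ k) t) := by
    unfold DP
    rw [← Finset.sum_sub_distrib, ← Finset.sum_add_distrib, ← Finset.sum_sub_distrib,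
      Finset.mul_sum]
    refine Finset.sum_congr rfl fun k hk => ?_
    have hVk : V < k := by
      unfold IO at hk
      have h1 := (Finset.mem_Ioc.1 hk).1
      have h2 : (V : ℕ) ≤ ⌊y⌋₊ := Nat.le_floor hV
      omega
    have hvm := ((hVAU V k 0).1 hVk)
    have hp : pL N k = 1 / (2 * L) * (va1 V k - va2 V k + va3 V k - np k) := by
      rw [← hvm]
      unfold pL np
      rw [← hLdef]
      by_cases hk' : k.Prime
      · rw [if_pos hk', if_pos hk', ArithmeticFunction.vonMangoldt_apply_prime hk']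
        ring
      · rw [if_neg hk', if_neg hk']
        ring
    simp only [hp]
    push_cast
    ring
  rw [e, norm_mul, mul_pow]
  have h1 := sq4 (DP (IO y (32 * y)) (fun k => (va1 V k : ℂ) * χ k) t)
    (DP (IO y (32 * y)) (fun k => (va2 V k : ℂ) * χ k) t)
    (DP (IO y (32 * y)) (fun k => (va3 V k : ℂ) * χ k) t)
    (DP (IO y (32 * y)) (fun k => (np k : ℂ) * χ k) t)
  have h2 : ‖((1 / (2 * L) : ℝ) : ℂ)‖ ^ 2 ≤ 1 / 4 := by
    rw [Complex.norm_real, Real.norm_eq_abs, sq_abs]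
    rw [div_pow, one_pow, div_le_div_iff₀ (by positivity) (by norm_num)]
    nlinarith
  refine (mul_le_mul h2 h1 (by positivity) (by norm_num)).trans (le_of_eq ?_)
  ring

theorem int4 (f0 f1 f2 f3 f4 : ℝ → ℝ) (E : Set ℝ) (hE : MeasurableSet E)
    (i0 : IntegrableOn f0 E) (i1 : IntegrableOn f1 E) (i2 : IntegrableOn f2 E)
    (i3 : IntegrableOn f3 E) (i4 : IntegrableOn f4 E)
    (h : ∀ t ∈ E, f0 t ≤ f1 t + f2 t + f3 t + f4 t) (B : ℝ) (h1 : ∫ t in E, f1 t ≤ B)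
    (h2 : ∫ t in E, f2 t ≤ B) (h3 : ∫ t in E, f3 t ≤ B) (h4 : ∫ t in E, f4 t ≤ B) :
    ∫ t in E, f0 t ≤ B * 4 := by
  have hm : ∫ t in E, f0 t ≤ ∫ t in E, (f1 t + f2 t + f3 t + f4 t) :=
    setIntegral_mono_on i0 (((i1.add i2).add i3).add i4) hE h
  have e1 : ∫ t in E, (f1 t + f2 t + f3 t + f4 t) =
      (∫ t in E, (f1 t + f2 t + f3 t)) + ∫ t in E, f4 t := integral_add ((i1.add i2).add i3) i4
  have e2 : ∫ t in E, (f1 t + f2 t + f3 t) = (∫ t in E, (f1 t + f2 t)) + ∫ t in E, f3 t :=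
    integral_add (i1.add i2) i3
  have e3 : ∫ t in E, (f1 t + f2 t) = (∫ t in E, f1 t) + ∫ t in E, f2 t := integral_add i1 i2
  linarith

/-- conditions on `N` -/
theorem ev (D K₁ : ℝ) : ∀ᶠ N : ℝ in Filter.atTop, 64 ≤ N ∧ 6 ≤ Real.log N ∧
    (2 : ℝ) ^ K₁ ≤ Real.log N ∧ 16 * N ^ ((1 : ℝ) / 2) ≤ N ^ ((3 : ℝ) / 5) ∧
    512 * Real.log N ^ (D + 3) * N ^ ((1 : ℝ) / 16) ≤ N ^ ((3 : ℝ) / 5) := by
  have hl : Filter.Tendsto Real.log Filter.atTop Filter.atTop := Real.tendsto_log_atTop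
  have h1 := Filter.eventually_ge_atTop (α := ℝ) 64
  have h2 := hl.eventually_ge_atTop 6
  have h3 := hl.eventually_ge_atTop ((2 : ℝ) ^ K₁)
  have h4 := (tendsto_rpow_atTop (show (0 : ℝ) < 1 / 10 by norm_num)).eventually_ge_atTop 16
  have h5 := (isLittleO_log_rpow_rpow_atTop (D + 3) (show (0 : ℝ) < 1 / 2 by norm_num)).bound
    (show (0 : ℝ) < 1 / 512 by norm_num)
  filter_upwards [h1, h2, h3, h4, h5] with N g1 g2 g3 g4 g5
  have N0 : 0 < N := by linarith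
  refine ⟨g1, g2, g3, ?_, ?_⟩
  · calc 16 * N ^ ((1 : ℝ) / 2) ≤ N ^ ((1 : ℝ) / 10) * N ^ ((1 : ℝ) / 2) :=
          mul_le_mul_of_nonneg_right g4 (Real.rpow_nonneg N0.le _)
      _ = N ^ ((3 : ℝ) / 5) := by rw [← Real.rpow_add N0]; norm_num
  · have g6 : Real.log N ^ (D + 3) ≤ 1 / 512 * N ^ ((1 : ℝ) / 2) := by
      have e1 : ‖Real.log N ^ (D + 3)‖ = Real.log N ^ (D + 3) := by
        rw [Real.norm_eq_abs, abs_of_nonneg (Real.rpow_nonneg (by linarith) _)]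
      have e2 : ‖N ^ ((1 : ℝ) / 2)‖ = N ^ ((1 : ℝ) / 2) := by
        rw [Real.norm_eq_abs, abs_of_nonneg (Real.rpow_nonneg N0.le _)]
      rwa [e1, e2] at g5
    calc 512 * Real.log N ^ (D + 3) * N ^ ((1 : ℝ) / 16) ≤
          512 * (1 / 512 * N ^ ((1 : ℝ) / 2)) * N ^ ((1 : ℝ) / 16) := by
            have := Real.rpow_nonneg N0.le ((1 : ℝ) / 16)
            gcongr
      _ = N ^ ((1 : ℝ) / 2 + (1 : ℝ) / 16) := by rw [Real.rpow_add N0]; ring
      _ ≤ N ^ ((3 : ℝ) / 5) := Real.rpow_le_rpow_of_exponent_le (by linarith) (by norm_num)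

end PRVM

theorem specPRV (hVAU : SpecVAU) (hTYI : SpecTYI) (hTYJ : SpecTYJ) : SpecPRV := by
  obtain ⟨η₁, hη₁, hI⟩ := hTYI
  obtain ⟨η₂, hη₂, hJ⟩ := hTYJ
  refine ⟨min (min η₁ η₂) (1 / 16), by positivity, ?_⟩
  intro D b hD hb
  obtain ⟨K₁, N₁, hK₁, hI⟩ := hI (D + 1) b (by linarith) hb
  obtain ⟨K₂, N₂, hK₂, hJ⟩ := hJ (D + 1) b (by linarith) hb
  obtain ⟨N₃, hN₃⟩ := Filter.eventually_atTop.1 (PRVM.ev D K₁)
  refine ⟨max (K₁ + 1) K₂, max (max N₁ N₂) N₃, le_max_of_le_left (by linarith), ?_⟩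
  intro N y q _ χ E hN hy hyN hq hEm hE hvol hA
  have hNN₁ : N₁ ≤ N := (le_max_left _ _).trans ((le_max_left _ _).trans hN)
  have hNN₂ : N₂ ≤ N := (le_max_right _ _).trans ((le_max_left _ _).trans hN)
  obtain ⟨g1, g2, g3, g4, g5⟩ := hN₃ N ((le_max_right _ _).trans hN)
  have N0 : 0 < N := by linarith
  have N1 : 1 ≤ N := by linarith
  set L := Real.log N with hLdef
  have L1 : 1 ≤ L := by linarith
  have L0 : 0 < L := by linarith
  have y12 : N ^ ((1 : ℝ) / 2) ≤ y :=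
    (Real.rpow_le_rpow_of_exponent_le N1 (by norm_num)).trans hy
  have N12 : 1 ≤ N ^ ((1 : ℝ) / 2) := Real.one_le_rpow N1 (by norm_num)
  have y1 : 1 ≤ y := N12.trans y12
  have y0 : 0 < y := by linarith
  set V := ⌊N ^ ((1 : ℝ) / 8)⌋₊ + 1 with hV
  have N18 : 1 ≤ N ^ ((1 : ℝ) / 8) := Real.one_le_rpow N1 (by norm_num)
  have V2 : (V : ℝ) ≤ 2 * N ^ ((1 : ℝ) / 8) := by
    rw [hV]
    push_cast
    have := Nat.floor_le (show 0 ≤ N ^ ((1 : ℝ) / 8) by positivity)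
    linarith
  -- the second scale
  set M := 256 * N with hM
  have M0 : 0 < M := by positivity
  have hMN : N ≤ M := by rw [hM]; linarith
  have hlogM : L ≤ Real.log M := Real.log_le_log N0 hMN
  have hlogM2 : Real.log M ≤ 2 * L := by
    rw [hM, Real.log_mul (by norm_num) N0.ne']
    have : Real.log 256 ≤ 6 := by
      have h2 := Real.log_two_lt_d9
      have : Real.log 256 = 8 * Real.log 2 := by
        rw [show (256 : ℝ) = 2 ^ 8 by norm_num, Real.log_pow]; norm_num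
      rw [this]
      linarith
    linarith
  have M14 : M ^ ((1 : ℝ) / 4) = 4 * (N ^ ((1 : ℝ) / 8)) ^ 2 := by
    rw [hM, Real.mul_rpow (by norm_num) N0.le, ← Real.rpow_natCast (N ^ ((1 : ℝ) / 8)),
      ← Real.rpow_mul N0.le]
    have : (256 : ℝ) ^ ((1 : ℝ) / 4) = 4 := by
      rw [show (256 : ℝ) = 4 ^ (4 : ℝ) by norm_num, ← Real.rpow_mul (by norm_num)]
      norm_num
    rw [this]
    norm_num
  have M12 : M ^ ((1 : ℝ) / 2) = 16 * N ^ ((1 : ℝ) / 2) := by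
    rw [hM, Real.mul_rpow (by norm_num) N0.le]
    have : (256 : ℝ) ^ ((1 : ℝ) / 2) = 16 := by
      rw [show (256 : ℝ) = 16 ^ (2 : ℝ) by norm_num, ← Real.rpow_mul (by norm_num)]
      norm_num
    rw [this]
  have VM : (V : ℝ) ^ 2 ≤ M ^ ((1 : ℝ) / 4) := by
    rw [M14]
    have : (0 : ℝ) ≤ V := Nat.cast_nonneg _
    nlinarith
  have V1 : (1 : ℝ) ≤ V := by rw [hV]; push_cast; linarith [Nat.cast_nonneg (α := ℝ) ⌊N ^ ((1 : ℝ) / 8)⌋₊]
  have M14M : M ^ ((1 : ℝ) / 4) ≤ M := by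
    calc M ^ ((1 : ℝ) / 4) ≤ M ^ (1 : ℝ) :=
          Real.rpow_le_rpow_of_exponent_le (by linarith) (by norm_num)
      _ = M := Real.rpow_one M
  have Vy : (V : ℝ) ≤ y := by
    refine le_trans ?_ hy
    calc (V : ℝ) ≤ 2 * N ^ ((1 : ℝ) / 8) := V2
      _ ≤ 16 * N ^ ((1 : ℝ) / 2) := by
          have : N ^ ((1 : ℝ) / 8) ≤ N ^ ((1 : ℝ) / 2) :=
            Real.rpow_le_rpow_of_exponent_le N1 (by norm_num)
          linarith
      _ ≤ _ := g4
  have hE' : E ⊆ Set.Icc (-M) M := hE.trans (Set.Icc_subset_Icc (by linarith) hMN)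
  have hvolη : ∀ η, 0 < η → min (min η₁ η₂) (1 / 16) ≤ η → ∀ N', N ≤ N' →
      volume E ≤ ENNReal.ofReal (N' ^ η) := by
    intro η hη hm N' hN'
    refine hvol.trans (ENNReal.ofReal_le_ofReal ?_)
    calc N ^ (min (min η₁ η₂) (1 / 16)) ≤ N ^ η := Real.rpow_le_rpow_of_exponent_le N1 hm
      _ ≤ N' ^ η := Real.rpow_le_rpow N0.le hN' hη.le
  have hAM : Away M K₁ χ E := by
    rcases hA with h | h
    · exact Or.inl h
    · refine Or.inr fun t ht => le_trans ?_ (h t ht)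
      calc Real.log M ^ K₁ ≤ (2 * L) ^ K₁ :=
            Real.rpow_le_rpow (by linarith) hlogM2 (by linarith)
        _ = 2 ^ K₁ * L ^ K₁ := Real.mul_rpow (by norm_num) L0.le
        _ ≤ L * L ^ K₁ := mul_le_mul_of_nonneg_right g3 (Real.rpow_nonneg L0.le _)
        _ = L ^ (K₁ + 1) := by rw [Real.rpow_add_one L0.ne']; ring
        _ ≤ L ^ (max (K₁ + 1) K₂) := Real.rpow_le_rpow_of_exponent_le L1 (le_max_left _ _)
  have hAN : Away N K₂ χ E := by
    rcases hA with h | h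
    · exact Or.inl h
    · exact Or.inr fun t ht =>
        (Real.rpow_le_rpow_of_exponent_le L1 (le_max_right _ _)).trans (h t ht)
  have hqM : (q : ℝ) ≤ Real.log M ^ b := hq.trans (Real.rpow_le_rpow L0.le hlogM hb.le)
  have M12y : M ^ ((1 : ℝ) / 2) ≤ y := by rw [M12]; exact g4.trans hy
  have lM2 : 1 ≤ Real.log M := L1.trans hlogM
  have step : ∀ x : ℝ, x ≤ y ^ 2 / Real.log M ^ (D + 1) → x ≤ y ^ 2 / L ^ (D + 1) := by
    intro x hx
    refine hx.trans ?_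
    have : 0 < L ^ (D + 1) := Real.rpow_pos_of_pos L0 _
    gcongr
  -- the three sums
  have I1 : ∫ t in E, ‖DP (IO y (32 * y)) (fun k => (va1 V k : ℂ) * χ k) t‖ ^ 2 ≤
      y ^ 2 / L ^ (D + 1) := by
    refine step _ ?_
    have h := hI M y q χ E (fun m => if m ≤ V then (moebius m : ℝ) else 0)
      (fun n => Real.log n) (hNN₁.trans hMN) M12y (hyN.trans hMN) hqM hEm hE'
      (hvolη η₁ hη₁ ((min_le_left _ _).trans (min_le_left _ _)) M hMN) hAM
      (by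
        intro m
        have h2 : |((moebius m : ℤ) : ℝ)| ≤ 1 := by
          have := ArithmeticFunction.abs_moebius_le_one (n := m)
          exact_mod_cast this
        split_ifs
        · linarith
        · rw [abs_zero]; linarith)
      (by
        intro m hm
        have hm' : m ≤ V := by
          by_contra h
          exact hm (if_neg h)
        have : (m : ℝ) ≤ V := by exact_mod_cast hm'
        nlinarith)
      (Or.inr fun n => rfl)
    refine le_trans (le_of_eq ?_) h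
    have ec : ∀ k : ℕ, (va1 V k : ℝ) = ∑ m ∈ k.divisors,
        (if m ≤ V then (moebius m : ℝ) else 0) * Real.log ((k / m : ℕ) : ℝ) := by
      intro k
      unfold va1
      rw [Finset.sum_filter]
      refine Finset.sum_congr rfl fun m hm => ?_
      have hd := Nat.dvd_of_mem_divisors hm
      have hm0 : (m : ℝ) ≠ 0 := by
        have := Nat.pos_of_mem_divisors hm
        positivity
      rw [Nat.cast_div hd hm0]
      split_ifs <;> simp
    simp only [ec]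
  have I2 : ∫ t in E, ‖DP (IO y (32 * y)) (fun k => (va2 V k : ℂ) * χ k) t‖ ^ 2 ≤
      y ^ 2 / L ^ (D + 1) := by
    refine step _ ?_
    have hsup : ∀ m, vaa V m ≠ 0 → (m : ℝ) ≤ M ^ ((1 : ℝ) / 4) := by
      intro m hm
      have h1 : m ≤ V ^ 2 := by
        by_contra h
        exact hm ((hVAU V 0 m).2.2.1 (by omega))
      have : (m : ℝ) ≤ (V : ℝ) ^ 2 := by exact_mod_cast h1
      exact this.trans VM
    have h := hI M y q χ E (fun m => vaa V m)
      (fun _ => 1) (hNN₁.trans hMN) M12y (hyN.trans hMN) hqM hEm hE'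
      (hvolη η₁ hη₁ ((min_le_left _ _).trans (min_le_left _ _)) M hMN) hAM
      (by
        intro m
        by_cases hm : vaa V m = 0
        · rw [hm, abs_zero]; linarith
        · refine (hVAU V 0 m).2.1.trans ?_
          rcases Nat.eq_zero_or_pos m with h0 | h0
          · rw [h0, Nat.cast_zero, Real.log_zero]; linarith
          · have h1 : Real.log m ≤ Real.log M :=
              Real.log_le_log (by exact_mod_cast h0) ((hsup m hm).trans M14M)
            linarith)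
      hsup (Or.inl fun n => rfl)
    refine le_trans (le_of_eq ?_) h
    have ec : ∀ k : ℕ, (va2 V k : ℝ) = ∑ m ∈ k.divisors, vaa V m * 1 := by
      intro k
      unfold va2
      refine Finset.sum_congr rfl fun m hm => (mul_one _).symm
    simp only [ec]
  have I3 : ∫ t in E, ‖DP (IO y (32 * y)) (fun k => (va3 V k : ℂ) * χ k) t‖ ^ 2 ≤
      y ^ 2 / L ^ (D + 1) :=
    hJ N y q χ E hNN₂ y12 hyN hq hEm hE
      (hvolη η₂ hη₂ ((min_le_left _ _).trans (min_le_right _ _)) N le_rfl) hAN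
  have I4 : ∫ t in E, ‖DP (IO y (32 * y)) (fun k => (PRVM.np k : ℂ) * χ k) t‖ ^ 2 ≤
      y ^ 2 / L ^ (D + 1) := by
    have hlog : Real.log (32 * y) ≤ 2 * L := by
      calc Real.log (32 * y) ≤ Real.log (N * N) :=
            Real.log_le_log (by positivity) (by nlinarith)
        _ = 2 * L := by rw [Real.log_mul N0.ne' N0.ne']; ring
    have hlog0 : 0 ≤ Real.log (32 * y) := Real.log_nonneg (by linarith)
    have hb : ∀ t ∈ E, ‖DP (IO y (32 * y)) (fun k => (PRVM.np k : ℂ) * χ k) t‖ ^ 2 ≤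
        512 * y * L ^ 2 := by
      intro t _
      have h := PRVM.np_bound y y1 χ t
      calc ‖DP (IO y (32 * y)) (fun k => (PRVM.np k : ℂ) * χ k) t‖ ^ 2
          ≤ (2 * √(32 * y) * Real.log (32 * y)) ^ 2 := pow_le_pow_left₀ (norm_nonneg _) h 2
        _ = 4 * (32 * y) * Real.log (32 * y) ^ 2 := by
            rw [mul_pow, mul_pow, Real.sq_sqrt (by positivity)]; ring
        _ ≤ 4 * (32 * y) * (2 * L) ^ 2 := by gcongr
        _ = 512 * y * L ^ 2 := by ring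
    have hfin : volume E < ⊤ := lt_of_le_of_lt hvol ENNReal.ofReal_lt_top
    have hI4 : ∫ t in E, ‖DP (IO y (32 * y)) (fun k => (PRVM.np k : ℂ) * χ k) t‖ ^ 2 ≤
        ∫ _t in E, 512 * y * L ^ 2 := by
      refine setIntegral_mono_on (PRVM.DP_int _ _ E N hE) ?_ hEm hb
      exact integrableOn_const hfin.ne
    refine hI4.trans ?_
    rw [setIntegral_const, smul_eq_mul]
    have hvr : volume.real E ≤ N ^ ((1 : ℝ) / 16) := by
      rw [Measure.real]
      refine ENNReal.toReal_le_of_le_ofReal (by positivity) ?_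
      exact hvolη (1 / 16) (by norm_num) (min_le_right _ _) N le_rfl
    have hLD : L ^ (D + 3) = L ^ (D + 1) * L ^ 2 := by
      rw [show D + 3 = (D + 1) + 2 by ring, Real.rpow_add L0, Real.rpow_two]
    have hLD0 : 0 < L ^ (D + 1) := Real.rpow_pos_of_pos L0 _
    rw [le_div_iff₀ hLD0]
    calc volume.real E * (512 * y * L ^ 2) * L ^ (D + 1)
        ≤ N ^ ((1 : ℝ) / 16) * (512 * y * L ^ 2) * L ^ (D + 1) := by gcongr
      _ = (512 * L ^ (D + 3) * N ^ ((1 : ℝ) / 16)) * y := by rw [hLD]; ring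
      _ ≤ y * y := mul_le_mul_of_nonneg_right (g5.trans hy) y0.le
      _ = y ^ 2 := by ring
  -- together
  have main := PRVM.int4 _ _ _ _ _ E hEm
    (PRVM.DP_int (IO y (32 * y)) (fun k => (pL N k : ℂ) * χ k) E N hE)
    (PRVM.DP_int (IO y (32 * y)) (fun k => (va1 V k : ℂ) * χ k) E N hE)
    (PRVM.DP_int (IO y (32 * y)) (fun k => (va2 V k : ℂ) * χ k) E N hE)
    (PRVM.DP_int (IO y (32 * y)) (fun k => (va3 V k : ℂ) * χ k) E N hE)
    (PRVM.DP_int (IO y (32 * y)) (fun k => (PRVM.np k : ℂ) * χ k) E N hE)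
    (fun t _ => PRVM.decomp hVAU V N y L1 Vy χ t) _ I1 I2 I3 I4
  have e5 : y ^ 2 / L ^ (D + 1) * 4 ≤ y ^ 2 / L ^ D := by
    rw [Real.rpow_add_one L0.ne']
    have : 0 < L ^ D := Real.rpow_pos_of_pos L0 _
    rw [div_mul_eq_mul_div, div_le_div_iff₀ (by positivity) this]
    have : 0 ≤ y ^ 2 * L ^ D := by positivity
    nlinarith
  linarith

end Pool.Agent.Lib.MP3efbeb.LG
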