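import Pool.Agent.Lib.MP_3efbeb_nt.LG.SpecB
import Pool.Agent.Lib.MP_391708_nt.QPA.FL

/-!
# RGH: rough numbers in intervals
-/

set_option autoImplicit false

namespace Pool.Agent.Lib.MP3efbeb.LG

open Finset
open Pool.Agent.Lib.MP391708.QPA (PB rInd Wp Rough)

namespace RGHM

lemma ev (c E C : ℝ) : ∀ᶠ L : ℝ in Filter.atTop, C ≤ L ∧ 1 ≤ L ∧ 1 ≤ Real.log L ∧
    5 * c * Real.log L * (8 * ((E + 1) * Real.log L + 1) + 16) ≤ L / 8 ∧
    C * (1 + 5 * c * Real.log L) ≤ L / 8 := by
  have hl : Filter.Tendsto Real.log Filter.atTop Filter.atTop := Real.tendsto_log_atTop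
  have h1 := hl.eventually_ge_atTop 1
  have h2 := Filter.eventually_ge_atTop (α := ℝ) C
  have h3 := Filter.eventually_ge_atTop (α := ℝ) 1
  set M : ℝ := |5 * c| * (8 * (|E + 1| + 1) + 16) + |C| * (1 + |5 * c|) + 1 with hM
  have hM0 : 0 < M := by positivity
  have h4 := (Real.isLittleO_pow_log_id_atTop (n := 2)).bound
    (show (0 : ℝ) < 1 / (8 * M) by positivity)
  filter_upwards [h1, h2, h3, h4] with L g1 g2 g3 g4
  have g5 : Real.log L ^ 2 ≤ 1 / (8 * M) * L := by
    have : ‖Real.log L ^ 2‖ = Real.log L ^ 2 := by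
      rw [Real.norm_eq_abs, abs_of_nonneg (sq_nonneg _)]
    rw [this] at g4
    have h6 : ‖id L‖ = L := by
      rw [id, Real.norm_eq_abs, abs_of_nonneg (by linarith)]
    rwa [h6] at g4
  have g6 : M * Real.log L ^ 2 ≤ L / 8 := by
    calc M * Real.log L ^ 2 ≤ M * (1 / (8 * M) * L) := mul_le_mul_of_nonneg_left g5 hM0.le
      _ = L / 8 := by field_simp
  have l0 : 0 ≤ Real.log L := by linarith
  refine ⟨g2, g3, g1, ?_, ?_⟩
  · refine le_trans ?_ g6
    have e1 : 5 * c * Real.log L * (8 * ((E + 1) * Real.log L + 1) + 16) ≤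
        |5 * c| * Real.log L * (8 * ((|E + 1| + 1) * Real.log L) + 16 * Real.log L) := by
      have a1 : 5 * c * Real.log L ≤ |5 * c| * Real.log L :=
        mul_le_mul_of_nonneg_right (le_abs_self _) l0
      have a2 : 8 * ((E + 1) * Real.log L + 1) + 16 ≤
          8 * ((|E + 1| + 1) * Real.log L) + 16 * Real.log L := by
        have : (E + 1) * Real.log L ≤ |E + 1| * Real.log L :=
          mul_le_mul_of_nonneg_right (le_abs_self _) l0
        nlinarith
      have a3 : 0 ≤ 8 * ((|E + 1| + 1) * Real.log L) + 16 * Real.log L := by positivity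
      have a4 : 0 ≤ |5 * c| * Real.log L := by positivity
      calc 5 * c * Real.log L * (8 * ((E + 1) * Real.log L + 1) + 16)
          ≤ |5 * c * Real.log L| * |8 * ((E + 1) * Real.log L + 1) + 16| := by
            rw [← abs_mul]; exact le_abs_self _
        _ ≤ (|5 * c| * Real.log L) * (8 * ((|E + 1| + 1) * Real.log L) + 16 * Real.log L) := by
            refine mul_le_mul ?_ ?_ (abs_nonneg _) a4
            · rw [abs_mul, abs_of_nonneg l0]
            · rw [abs_le]
              refine ⟨?_, a2⟩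
              have : -(|E + 1| * Real.log L) ≤ (E + 1) * Real.log L := by
                have := neg_abs_le (E + 1)
                nlinarith
              nlinarith
    refine e1.trans ?_
    have e2 : |5 * c| * Real.log L * (8 * ((|E + 1| + 1) * Real.log L) + 16 * Real.log L) =
        |5 * c| * (8 * (|E + 1| + 1) + 16) * Real.log L ^ 2 := by ring
    rw [e2]
    refine mul_le_mul_of_nonneg_right ?_ (sq_nonneg _)
    rw [hM]
    have : 0 ≤ |C| * (1 + |5 * c|) := by positivity
    linarith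
  · refine le_trans ?_ g6
    have e1 : C * (1 + 5 * c * Real.log L) ≤ |C| * ((1 + |5 * c|) * Real.log L ^ 2) := by
      calc C * (1 + 5 * c * Real.log L) ≤ |C| * |1 + 5 * c * Real.log L| := by
            rw [← abs_mul]; exact le_abs_self _
        _ ≤ |C| * ((1 + |5 * c|) * Real.log L ^ 2) := by
            refine mul_le_mul_of_nonneg_left ?_ (abs_nonneg _)
            calc |1 + 5 * c * Real.log L| ≤ |1| + |5 * c * Real.log L| := abs_add_le _ _
              _ = 1 + |5 * c| * Real.log L := by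
                  rw [abs_one, abs_mul (5 * c), abs_of_nonneg l0]
              _ ≤ (1 + |5 * c|) * Real.log L ^ 2 := by
                  have := abs_nonneg (5 * c)
                  have h7 : Real.log L ≤ Real.log L ^ 2 := by nlinarith
                  nlinarith
    refine e1.trans ?_
    rw [← mul_assoc]
    refine mul_le_mul_of_nonneg_right ?_ (sq_nonneg _)
    rw [hM]
    have : 0 ≤ |5 * c| * (8 * (|E + 1| + 1) + 16) := by positivity
    linarith

lemma card_dvd (a b δ : ℕ) (hab : a ≤ b) :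
    (((Ioc a b).filter (fun k => δ ∣ k)).card : ℝ) = ((b / δ : ℕ) : ℝ) - ((a / δ : ℕ) : ℝ) := by
  have h1 : ((Ioc 0 b).filter (fun k => δ ∣ k)).card =
      ((Ioc 0 a).filter (fun k => δ ∣ k)).card + ((Ioc a b).filter (fun k => δ ∣ k)).card := by
    rw [← Finset.card_union_of_disjoint, ← Finset.filter_union,
      Finset.Ioc_union_Ioc_eq_Ioc (Nat.zero_le a) hab]
    rw [Finset.disjoint_left]
    intro x hx hx'
    rw [Finset.mem_filter, Finset.mem_Ioc] at hx hx'
    omega
  rw [Nat.Ioc_filter_dvd_card_eq_div, Nat.Ioc_filter_dvd_card_eq_div] at h1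
  rw [h1]
  push_cast
  ring

lemma rem (y y' : ℝ) (hy : 0 ≤ y) (hy' : y ≤ y') (δ : ℕ) (hδ : Squarefree δ) :
    |(∑ _i ∈ (IO y y').filter (fun i => δ ∣ i), (1 : ℝ)) -
      (y' - y) * ∏ p ∈ δ.primeFactors, 1 / (p : ℝ)| ≤ 1 := by
  have h1 : ∏ p ∈ δ.primeFactors, 1 / (p : ℝ) = 1 / (δ : ℝ) := by
    rw [Finset.prod_div_distrib, Finset.prod_const_one]
    congr 1
    conv_rhs => rw [← Nat.prod_primeFactors_of_squarefree hδ]
    push_cast
    rfl
  have δ0 : 0 < δ := Nat.pos_of_ne_zero hδ.ne_zero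
  have δ0' : (0 : ℝ) < δ := by exact_mod_cast δ0
  rw [h1, Finset.sum_const, nsmul_eq_mul, mul_one, IO, card_dvd _ _ _ (Nat.floor_le_floor hy')]
  rw [← Nat.floor_div_natCast, ← Nat.floor_div_natCast]
  have a1 := Nat.floor_le (div_nonneg hy δ0'.le)
  have a2 := Nat.lt_floor_add_one (y / δ)
  have a3 := Nat.floor_le (div_nonneg (hy.trans hy') δ0'.le)
  have a4 := Nat.lt_floor_add_one (y' / δ)
  have a5 : (y' - y) * (1 / (δ : ℝ)) = y' / δ - y / δ := by ring
  rw [a5, abs_le]
  constructor <;> linarith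

end RGHM

theorem specRGH : SpecRGH := by
  classical
  intro c E hc hE
  obtain ⟨C, hC, hFL⟩ := Pool.Agent.Lib.MP391708.QPA.specFL
  obtain ⟨N₁, hN₁⟩ := Filter.eventually_atTop.1
    (Real.tendsto_log_atTop.eventually (RGHM.ev c E C))
  refine ⟨max N₁ 1, ?_⟩
  intro N hN y y' hy hyy
  obtain ⟨hCL, hL1, hl1, h1, h2⟩ := hN₁ N ((le_max_left _ _).trans hN)
  have N0 : 0 < N := lt_of_lt_of_le one_pos ((le_max_right _ _).trans hN)
  set L := Real.log N with hLdef
  have L0 : 0 < L := by linarith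
  have hN8 : N = Real.exp L := (Real.exp_log N0).symm
  set z := zz N c with hz
  have hzL : z = L ^ (5 * c) := rfl
  have lz : Real.log z = 5 * c * Real.log L := by
    rw [hzL, Real.log_rpow L0]
  have z0 : 0 < z := by rw [hzL]; exact Real.rpow_pos_of_pos L0 _
  have hz2 : 2 ≤ z := by
    have : Real.log 2 ≤ Real.log z := by
      rw [lz]
      have := Real.log_two_lt_d9
      nlinarith
    exact (Real.log_le_log_iff (by norm_num) z0).1 this
  set b := ⌈(E + 1) * Real.log L⌉₊ with hb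
  have hb1 : (E + 1) * Real.log L ≤ b := Nat.le_ceil _
  have hb2 : (b : ℝ) ≤ (E + 1) * Real.log L + 1 :=
    (Nat.ceil_lt_add_one (by positivity)).le
  have key := hFL b z hz2 (IO y y') id (fun _ => 1) (y' - y) (fun p => 1 / (p : ℝ))
    (by linarith) (fun _ _ => zero_le_one) (by
      intro p hp
      have hp2 : (2 : ℝ) ≤ p := by exact_mod_cast hp.two_le
      have hp0 : (0 : ℝ) < p := by linarith
      refine ⟨by positivity, by gcongr; norm_num, ?_⟩
      rw [div_le_div_iff₀ hp0 (by norm_num)]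
      linarith)
  have W0 : 0 ≤ ∏ p ∈ PB z, (1 - 1 / (p : ℝ)) ∧ ∏ p ∈ PB z, (1 - 1 / (p : ℝ)) ≤ 1 := by
    have : ∀ p ∈ PB z, 0 ≤ 1 - 1 / (p : ℝ) ∧ 1 - 1 / (p : ℝ) ≤ 1 := by
      intro p hp
      have hp1 : (Finset.filter Nat.Prime (range ⌈z⌉₊)) = PB z := rfl
      rw [← hp1] at hp
      have hp2 := (Finset.mem_filter.1 hp).2
      have hp3 : (1 : ℝ) ≤ p := by exact_mod_cast hp2.one_le
      have : 1 / (p : ℝ) ≤ 1 := by
        rw [div_le_one (by linarith)]; exact hp3
      have : 0 ≤ 1 / (p : ℝ) := by positivity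
      constructor <;> linarith
    exact ⟨Finset.prod_nonneg fun p hp => (this p hp).1,
      Finset.prod_le_one (fun p hp => (this p hp).1) fun p hp => (this p hp).2⟩
  have e1 : ∑ i ∈ IO y y', (1 : ℝ) * rInd z (id i) = ∑ k ∈ IO y y', rInd z k := by
    refine Finset.sum_congr rfl fun i _ => ?_
    rw [one_mul, id]
  have e2 : Wp z = ∏ p ∈ PB z, (1 - 1 / (p : ℝ)) := rfl
  rw [e1] at key
  rw [e2, mul_comm _ (y' - y)]
  refine key.trans (add_le_add ?_ ?_)
  · have hexp : C * Real.exp (-(b : ℝ)) ≤ 1 / L ^ E := by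
      have a1 : Real.exp (-(b : ℝ)) ≤ Real.exp (-((E + 1) * Real.log L)) :=
        Real.exp_le_exp.2 (by linarith)
      have a2 : Real.exp (-((E + 1) * Real.log L)) = 1 / (L ^ E * L) := by
        rw [← Real.rpow_add_one L0.ne', Real.rpow_def_of_pos L0, one_div, ← Real.exp_neg]
        congr 1
        ring
      have a3 : 0 < L ^ E := Real.rpow_pos_of_pos L0 _
      calc C * Real.exp (-(b : ℝ)) ≤ L * (1 / (L ^ E * L)) := by
            rw [← a2]
            exact mul_le_mul hCL a1 (Real.exp_pos _).le L0.le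
        _ = 1 / L ^ E := by field_simp
    calc C * Real.exp (-(b : ℝ)) * (y' - y) * ∏ p ∈ PB z, (1 - 1 / (p : ℝ))
        ≤ C * Real.exp (-(b : ℝ)) * (y' - y) * 1 := by
          refine mul_le_mul_of_nonneg_left W0.2 ?_
          have := Real.exp_pos (-(b : ℝ))
          have : 0 ≤ y' - y := by linarith
          positivity
      _ ≤ 1 / L ^ E * (y' - y) := by
          rw [mul_one]
          exact mul_le_mul_of_nonneg_right hexp (by linarith)
      _ = (y' - y) / L ^ E := by ring
  · have hsum : ∑ δ ∈ (Icc 1 ⌊z ^ (8 * b + 16)⌋₊).filter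
        (fun δ => Squarefree δ ∧ ∀ p : ℕ, p.Prime → p ∣ δ → (p : ℝ) < z),
        |(∑ i ∈ (IO y y').filter (fun i => δ ∣ id i), (1 : ℝ)) -
          (y' - y) * ∏ p ∈ δ.primeFactors, 1 / (p : ℝ)| ≤ z ^ (8 * b + 16) := by
      calc _ ≤ ∑ δ ∈ (Icc 1 ⌊z ^ (8 * b + 16)⌋₊).filter
            (fun δ => Squarefree δ ∧ ∀ p : ℕ, p.Prime → p ∣ δ → (p : ℝ) < z), (1 : ℝ) := by
            refine Finset.sum_le_sum fun δ hδ => ?_
            exact RGHM.rem y y' hy hyy δ (Finset.mem_filter.1 hδ).2.1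
        _ ≤ ∑ δ ∈ Icc 1 ⌊z ^ (8 * b + 16)⌋₊, (1 : ℝ) :=
            Finset.sum_le_sum_of_subset_of_nonneg (Finset.filter_subset _ _)
              fun _ _ _ => zero_le_one
        _ = (⌊z ^ (8 * b + 16)⌋₊ : ℝ) := by
            rw [Finset.sum_const, nsmul_eq_mul, mul_one, Nat.card_Icc, Nat.add_sub_cancel]
        _ ≤ z ^ (8 * b + 16) := Nat.floor_le (by positivity)
    have hz8 : z ^ (8 * b + 16) ≤ Real.exp (L / 8) := by
      rw [← Real.exp_log (show 0 < z ^ (8 * b + 16) by positivity), Real.log_pow, lz]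
      refine Real.exp_le_exp.2 (le_trans ?_ h1)
      push_cast
      rw [mul_comm]
      refine mul_le_mul_of_nonneg_left ?_ (by positivity)
      linarith
    have hc8 : C * (1 + Real.log z) ≤ Real.exp (L / 8) := by
      rw [lz]
      refine h2.trans ?_
      have := Real.add_one_le_exp (L / 8)
      linarith
    have hN4 : N ^ ((1 : ℝ) / 4) = Real.exp (L / 8) * Real.exp (L / 8) := by
      rw [Real.rpow_def_of_pos N0, ← Real.exp_add, ← hLdef]
      congr 1
      ring
    rw [hN4]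
    have lz0 : 0 ≤ Real.log z := by rw [lz]; positivity
    refine mul_le_mul hc8 (hsum.trans hz8) (Finset.sum_nonneg fun _ _ => abs_nonneg _)
      (Real.exp_pos _).le

end Pool.Agent.Lib.MP3efbeb.LG
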