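import Pool.Agent.Lib.MP_3efbeb_nt.LG.SpecC

/-!
# SI2 (MP_3efbeb_nt, LongPatterns, version 2): the short interval theorem

`theorem specSI2`: the sums of a two factor block over the windows `(j, j + y]`, twisted by a character of small modulus,
are small in mean square.
-/

set_option autoImplicit false

namespace Pool.Agent.Lib.MP3efbeb.LG

open Finset MeasureTheory Filter

noncomputable section

namespace SI2M

lemma norm_nit (n : ℕ) (t : ℝ) : ‖nit n t‖ = 1 := by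
  unfold nit
  exact Complex.norm_exp_ofReal_mul_I _

lemma continuous_nit (n : ℕ) : Continuous (nit n) := by
  unfold nit
  fun_prop

lemma continuous_DP (S : Finset ℕ) (b : ℕ → ℂ) : Continuous (DP S b) := by
  unfold DP
  exact continuous_finsetSum _ (fun n _ => continuous_const.mul (continuous_nit n))

lemma norm_DP_le (S : Finset ℕ) (b : ℕ → ℂ) (hb : ∀ n, ‖b n‖ ≤ 1) (t : ℝ) : ‖DP S b t‖ ≤ S.card := by
  unfold DP
  refine (norm_sum_le _ _).trans ?_
  have : ∀ n ∈ S, ‖b n * nit n t‖ ≤ 1 := by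
    intro n _
    rw [norm_mul, norm_nit, mul_one]
    exact hb n
  refine (Finset.sum_le_sum this).trans ?_
  simp

lemma norm_PR_le (A : ℝ) (hA : 0 ≤ A) (b : ℕ → ℂ) (hb : ∀ n, ‖b n‖ ≤ 1) (t : ℝ) :
    ‖DP (PR A) b t‖ ≤ 2 * A := by
  refine (norm_DP_le _ b hb t).trans ?_
  have h1 : (PR A).card ≤ (IO A (2 * A)).card := Finset.card_le_card (Finset.filter_subset _ _)
  have h2 : (IO A (2 * A)).card ≤ ⌊2 * A⌋₊ := by
    unfold IO
    rw [Nat.card_Ioc]
    omega
  have h3 : ((⌊2 * A⌋₊ : ℕ) : ℝ) ≤ 2 * A := Nat.floor_le (by linarith)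
  calc ((PR A).card : ℝ) ≤ (⌊2 * A⌋₊ : ℕ) := by exact_mod_cast h1.trans h2
    _ ≤ 2 * A := h3

/-- the trivial bound -/
lemma trivial_bound (M : ℝ) (c : ℕ → ℂ) (y J : ℕ) (hM : 0 ≤ M) (hc : ∀ n, ‖c n‖ ≤ 1)
    (hs : ∀ n, c n ≠ 0 → (n : ℝ) ≤ M) :
    ∑ j ∈ range J, ‖∑ n ∈ Ioc j (j + y), c n‖ ^ 2 ≤ (M + 1) * (y : ℝ) ^ 2 := by
  have h1 : ∀ j ∈ range J, ‖∑ n ∈ Ioc j (j + y), c n‖ ^ 2 ≤
      if j < ⌈M⌉₊ then (y : ℝ) ^ 2 else 0 := by
    intro j _
    split_ifs with hj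
    · have h2 : ‖∑ n ∈ Ioc j (j + y), c n‖ ≤ y := by
        refine (norm_sum_le _ _).trans ((Finset.sum_le_sum (fun n _ => hc n)).trans ?_)
        simp
      exact pow_le_pow_left₀ (norm_nonneg _) h2 2
    · have h3 : ∑ n ∈ Ioc j (j + y), c n = 0 := by
        refine Finset.sum_eq_zero ?_
        intro n hn
        rw [Finset.mem_Ioc] at hn
        by_contra h0
        have h4 := hs n h0
        have h5 : M ≤ (j : ℝ) := (Nat.le_ceil M).trans (by exact_mod_cast not_lt.mp hj)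
        have h6 : (j : ℝ) < n := by exact_mod_cast hn.1
        linarith
      rw [h3]
      simp
  refine (Finset.sum_le_sum h1).trans ?_
  rw [← Finset.sum_filter, Finset.sum_const, nsmul_eq_mul]
  refine mul_le_mul_of_nonneg_right ?_ (by positivity)
  have h7 : ((range J).filter (fun j => j < ⌈M⌉₊)).card ≤ ⌈M⌉₊ := by
    calc ((range J).filter (fun j => j < ⌈M⌉₊)).card ≤ (range ⌈M⌉₊).card := by
          refine Finset.card_le_card ?_
          intro j hj
          rw [Finset.mem_filter] at hj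
          exact Finset.mem_range.mpr hj.2
      _ = ⌈M⌉₊ := Finset.card_range _
  calc (((range J).filter (fun j => j < ⌈M⌉₊)).card : ℝ) ≤ (⌈M⌉₊ : ℕ) := by exact_mod_cast h7
    _ ≤ M + 1 := (Nat.ceil_lt_add_one hM).le

/-- splitting of the mean square -/
lemma split_bound (P U : ℝ → ℂ) (hP : Continuous P) (hU : Continuous U) (T T' Q R G V : ℝ)
    (hT : 0 ≤ T) (hTT : T ≤ T')
    (hQ : ∀ t, ‖P t‖ ≤ Q)
    (hE : ∫ t in {t : ℝ | t ∈ Set.Icc (-T') T' ∧ R ≤ ‖P t‖}, ‖U t‖ ^ 2 ≤ G)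
    (hV : ∫ t in (-T')..T', ‖U t‖ ^ 2 ≤ V) :
    ∫ t in (-T)..T, ‖P t * U t‖ ^ 2 ≤ Q ^ 2 * G + R ^ 2 * V := by
  set E : Set ℝ := {t : ℝ | t ∈ Set.Icc (-T') T' ∧ R ≤ ‖P t‖} with hEdef
  have hT' : 0 ≤ T' := hT.trans hTT
  have hEm : MeasurableSet E := by
    have : E = Set.Icc (-T') T' ∩ {t | R ≤ ‖P t‖} := by
      ext t
      simp [hEdef]
    rw [this]
    exact measurableSet_Icc.inter (isClosed_le continuous_const hP.norm).measurableSet
  have hEs : E ⊆ Set.Icc (-T') T' := fun t ht => ht.1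
  have hfc : Continuous (fun t => ‖P t * U t‖ ^ 2) := by fun_prop
  have hUc : Continuous (fun t => ‖U t‖ ^ 2) := by fun_prop
  have hfi : IntegrableOn (fun t => ‖P t * U t‖ ^ 2) (Set.Icc (-T') T') :=
    hfc.continuousOn.integrableOn_Icc
  have hUi : IntegrableOn (fun t => ‖U t‖ ^ 2) (Set.Icc (-T') T') :=
    hUc.continuousOn.integrableOn_Icc
  have h1 : ∫ t in (-T)..T, ‖P t * U t‖ ^ 2 ≤ ∫ t in Set.Icc (-T') T', ‖P t * U t‖ ^ 2 := by
    rw [intervalIntegral.integral_of_le (by linarith)]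
    refine setIntegral_mono_set hfi ?_ ?_
    · exact Filter.Eventually.of_forall (fun t => by positivity)
    · refine (HasSubset.Subset.eventuallyLE ?_)
      intro t ht
      exact ⟨by linarith [ht.1], by linarith [ht.2]⟩
  have h2 : ∫ t in Set.Icc (-T') T', ‖P t * U t‖ ^ 2 =
      (∫ t in E, ‖P t * U t‖ ^ 2) + ∫ t in Set.Icc (-T') T' \ E, ‖P t * U t‖ ^ 2 := by
    rw [← setIntegral_union Set.disjoint_sdiff_right (measurableSet_Icc.diff hEm)
      (hfi.mono_set hEs) (hfi.mono_set Set.sdiff_subset), Set.union_sdiff_cancel hEs]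
  have h3 : ∫ t in E, ‖P t * U t‖ ^ 2 ≤ Q ^ 2 * G := by
    calc ∫ t in E, ‖P t * U t‖ ^ 2 ≤ ∫ t in E, Q ^ 2 * ‖U t‖ ^ 2 := by
          refine setIntegral_mono_on (hfi.mono_set hEs) ((hUi.mono_set hEs).const_mul _) hEm ?_
          intro t _
          rw [norm_mul, mul_pow]
          exact mul_le_mul_of_nonneg_right (pow_le_pow_left₀ (norm_nonneg _) (hQ t) 2) (by positivity)
      _ = Q ^ 2 * ∫ t in E, ‖U t‖ ^ 2 := by
          rw [integral_const_mul]
      _ ≤ Q ^ 2 * G := mul_le_mul_of_nonneg_left hE (by positivity)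
  have h4 : ∫ t in Set.Icc (-T') T' \ E, ‖P t * U t‖ ^ 2 ≤ R ^ 2 * V := by
    calc ∫ t in Set.Icc (-T') T' \ E, ‖P t * U t‖ ^ 2
        ≤ ∫ t in Set.Icc (-T') T' \ E, R ^ 2 * ‖U t‖ ^ 2 := by
          refine setIntegral_mono_on (hfi.mono_set Set.sdiff_subset)
            ((hUi.mono_set Set.sdiff_subset).const_mul _) (measurableSet_Icc.diff hEm) ?_
          intro t ht
          have h5 : ‖P t‖ ≤ R := by
            by_contra h6
            exact ht.2 ⟨ht.1, (not_le.mp h6).le⟩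
          rw [norm_mul, mul_pow]
          exact mul_le_mul_of_nonneg_right (pow_le_pow_left₀ (norm_nonneg _) h5 2) (by positivity)
      _ ≤ ∫ t in Set.Icc (-T') T', R ^ 2 * ‖U t‖ ^ 2 := by
          refine setIntegral_mono_set (hUi.const_mul _) ?_ ?_
          · exact Filter.Eventually.of_forall (fun t => by positivity)
          · exact (HasSubset.Subset.eventuallyLE Set.sdiff_subset)
      _ = R ^ 2 * ∫ t in (-T')..T', ‖U t‖ ^ 2 := by
          rw [integral_const_mul, integral_Icc_eq_integral_Ioc,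
            intervalIntegral.integral_of_le (by linarith)]
      _ ≤ R ^ 2 * V := mul_le_mul_of_nonneg_left hV (by positivity)
  linarith

/-- the conditions for large `N` -/
lemma large (c D M N₁ N₂ N₃ : ℝ)   : ∃ N₀ : ℝ, ∀ N : ℝ, N₀ ≤ N →
    N₁ ≤ N / 8 ∧ N₂ ≤ N ∧ N₃ ≤ N ∧ 8 ≤ N ∧ M ≤ Real.log N ∧ Real.log N ^ (2 * c) ≤ N ∧
    Real.log N ^ (4 * c) + 1 ≤ (N / 8) ^ ((1 : ℝ) / 10) ∧
    Real.log N ^ (D + 2) ≤ (N / 8) ^ ((1 : ℝ) / 10) := by
  have e1 : ∀ᶠ N : ℝ in atTop, M ≤ Real.log N := Real.tendsto_log_atTop.eventually_ge_atTop M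
  have e2 : ∀ᶠ N : ℝ in atTop, ‖Real.log N ^ (4 * c)‖ ≤ 1 / 4 * ‖N ^ ((1 : ℝ) / 10)‖ :=
    (isLittleO_log_rpow_rpow_atTop (4 * c) (by norm_num : (0 : ℝ) < 1 / 10)).def (by norm_num)
  have e3 : ∀ᶠ N : ℝ in atTop, ‖Real.log N ^ (D + 2)‖ ≤ 1 / 4 * ‖N ^ ((1 : ℝ) / 10)‖ :=
    (isLittleO_log_rpow_rpow_atTop (D + 2) (by norm_num : (0 : ℝ) < 1 / 10)).def (by norm_num)
  have e4 : ∀ᶠ N : ℝ in atTop, ‖Real.log N ^ (2 * c)‖ ≤ 1 * ‖N ^ (1 : ℝ)‖ :=
    (isLittleO_log_rpow_rpow_atTop (2 * c) (by norm_num : (0 : ℝ) < 1)).def (by norm_num)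
  have e5 : ∀ᶠ N : ℝ in atTop, 4 ≤ N ^ ((1 : ℝ) / 10) :=
    (tendsto_rpow_atTop (by norm_num : (0 : ℝ) < 1 / 10)).eventually_ge_atTop 4
  have e6 : ∀ᶠ N : ℝ in atTop, N₁ * 8 ≤ N := eventually_ge_atTop _
  have e7 : ∀ᶠ N : ℝ in atTop, N₂ ≤ N := eventually_ge_atTop _
  have e8 : ∀ᶠ N : ℝ in atTop, N₃ ≤ N := eventually_ge_atTop _
  have e9 : ∀ᶠ N : ℝ in atTop, 8 ≤ N := eventually_ge_atTop _
  obtain ⟨N₀, h₀⟩ := eventually_atTop.mp
    (e1.and (e2.and (e3.and (e4.and (e5.and (e6.and (e7.and (e8.and e9))))))))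
  refine ⟨N₀, fun N hN => ?_⟩
  obtain ⟨h1, h2, h3, h4, h5, h6, h7, h8, h9⟩ := h₀ N hN
  have hN0 : (0 : ℝ) ≤ N := by linarith
  have hL : 0 ≤ Real.log N := Real.log_nonneg (by linarith)
  have hr : ∀ r : ℝ, ‖Real.log N ^ r‖ = Real.log N ^ r := fun r => by
    rw [Real.norm_eq_abs, abs_of_nonneg (Real.rpow_nonneg hL r)]
  have hs : ∀ r : ℝ, ‖N ^ r‖ = N ^ r := fun r => by
    rw [Real.norm_eq_abs, abs_of_nonneg (Real.rpow_nonneg hN0 r)]
  rw [hr, hs] at h2 h3 h4
  rw [Real.rpow_one, one_mul] at h4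
  have h10 : N ^ ((1 : ℝ) / 10) / 2 ≤ (N / 8) ^ ((1 : ℝ) / 10) := by
    rw [Real.div_rpow hN0 (by norm_num)]
    have h11 : (8 : ℝ) ^ ((1 : ℝ) / 10) ≤ 2 := by
      calc (8 : ℝ) ^ ((1 : ℝ) / 10) ≤ (8 : ℝ) ^ ((1 : ℝ) / 3) :=
            Real.rpow_le_rpow_of_exponent_le (by norm_num) (by norm_num)
        _ = ((2 : ℝ) ^ (3 : ℝ)) ^ ((1 : ℝ) / 3) := by norm_num
        _ = 2 := by
            rw [← Real.rpow_mul (by norm_num)]
            norm_num
    have h12 : (0 : ℝ) < (8 : ℝ) ^ ((1 : ℝ) / 10) := by positivity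
    exact div_le_div_of_nonneg_left (Real.rpow_nonneg hN0 _) h12 h11
  refine ⟨by linarith, h7, h8, h9, h1, h4, by linarith, by linarith⟩

/-- the final computation -/
lemma final (N L D H Y CW CM I p B : ℝ) (hN : 0 < N) (hL : 1 ≤ L) (hCW : 0 < CW) (hCM : 0 < CM)
    (hM : CW * (33 + 160 * CM) ≤ L) (hp : p = L ^ (D + 2)) (hD : 0 < D)
    (hY0 : 0 ≤ Y) (hYH : Y ≤ H) (hA : 1 ≤ Y * (1 / p))
    (hI : I ≤ N ^ 2 / p ^ 2 * (4 + 20 * CM)) (hI0 : 0 ≤ I)
    (hB : B ≤ CW * (Y ^ 2 / ((1 / p) * (N / 8)) * I + (N / 8) * ((1 / p) * Y + 1) ^ 2)) :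
    B ≤ N * H ^ 2 / L ^ D := by
  have hL0 : 0 < L := by linarith
  have hp0 : 0 < p := by rw [hp]; positivity
  have hp1 : p = L ^ D * L ^ 2 := by
    rw [hp, Real.rpow_add hL0]
    norm_num
  have hLD : 0 < L ^ D := by positivity
  have hp2 : 1 ≤ p := by
    rw [hp]
    exact Real.one_le_rpow hL (by linarith)
  have hYY : Y ^ 2 ≤ H ^ 2 := pow_le_pow_left₀ hY0 hYH 2
  have t1 : Y ^ 2 / ((1 / p) * (N / 8)) * I ≤ 8 * (4 + 20 * CM) * (N * H ^ 2 / p) := by
    have : Y ^ 2 / ((1 / p) * (N / 8)) = 8 * Y ^ 2 * p / N := by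
      field_simp
    rw [this]
    calc 8 * Y ^ 2 * p / N * I ≤ 8 * H ^ 2 * p / N * (N ^ 2 / p ^ 2 * (4 + 20 * CM)) := by
          refine mul_le_mul ?_ hI hI0 (by positivity)
          gcongr
      _ = 8 * (4 + 20 * CM) * (N * H ^ 2 / p) := by
          field_simp
  have t2 : (N / 8) * ((1 / p) * Y + 1) ^ 2 ≤ 1 * (N * H ^ 2 / p) := by
    have h1 : (1 / p) * Y + 1 ≤ 2 * (Y * (1 / p)) := by linarith
    have h0 : 0 ≤ (1 / p) * Y + 1 := by positivity
    calc (N / 8) * ((1 / p) * Y + 1) ^ 2 ≤ (N / 8) * (2 * (Y * (1 / p))) ^ 2 := by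
          gcongr
      _ = N * Y ^ 2 / p * (1 / (2 * p)) := by
          field_simp
          ring
      _ ≤ N * H ^ 2 / p * 1 := by
          refine mul_le_mul ?_ ?_ (by positivity) (by positivity)
          · gcongr
          · rw [div_le_one (by positivity)]
            linarith
      _ = 1 * (N * H ^ 2 / p) := by ring
  have hX : 0 ≤ N * H ^ 2 / L ^ D := by positivity
  calc B ≤ CW * (Y ^ 2 / ((1 / p) * (N / 8)) * I + (N / 8) * ((1 / p) * Y + 1) ^ 2) := hB
    _ ≤ CW * (8 * (4 + 20 * CM) * (N * H ^ 2 / p) + 1 * (N * H ^ 2 / p)) :=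
        mul_le_mul_of_nonneg_left (add_le_add t1 t2) hCW.le
    _ = CW * (33 + 160 * CM) * (N * H ^ 2 / p) := by ring
    _ ≤ L * (N * H ^ 2 / p) := mul_le_mul_of_nonneg_right hM (by positivity)
    _ = N * H ^ 2 / L ^ D * (1 / L) := by
        rw [hp1]
        field_simp
    _ ≤ N * H ^ 2 / L ^ D * 1 := by
        refine mul_le_mul_of_nonneg_left ?_ hX
        rw [div_le_one hL0]
        exact hL
    _ = N * H ^ 2 / L ^ D := mul_one _

/-- the case of short windows -/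
lemma short (N A L D c H Y B : ℝ) (hN : 8 ≤ N) (hL : 9 ≤ L) (hD : 0 < D) (hc : D + 3 ≤ c)
    (hA : A ≤ L ^ (2 * c)) (hA0 : 0 ≤ A) (hH : L ^ (4 * c) ≤ H) (hY0 : 0 ≤ Y)
    (hY : Y ≤ A * L ^ 3 * L ^ (D + 2)) (hB : B ≤ (8 * N + 1) * Y ^ 2) :
    B ≤ N * H ^ 2 / L ^ D := by
  have hL0 : 0 < L := by linarith
  have hL1 : 1 ≤ L := by linarith
  have h1 : Y ≤ L ^ (2 * c + D + 5) := by
    refine hY.trans ?_
    calc A * L ^ 3 * L ^ (D + 2) ≤ L ^ (2 * c) * L ^ 3 * L ^ (D + 2) := by gcongr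
      _ = L ^ (2 * c + D + 5) := by
          rw [← Real.rpow_natCast L 3, ← Real.rpow_add hL0, ← Real.rpow_add hL0]
          congr 1
          push_cast
          ring
  rw [le_div_iff₀ (by positivity)]
  calc B * L ^ D ≤ ((8 * N + 1) * (L ^ (2 * c + D + 5)) ^ 2) * L ^ D := by
        refine mul_le_mul_of_nonneg_right (hB.trans ?_) (by positivity)
        gcongr
    _ ≤ ((L * N) * (L ^ (2 * c + D + 5)) ^ 2) * L ^ D := by
        gcongr
        nlinarith
    _ = N * L ^ (4 * c + 3 * D + 11) := by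
        have e1 : (L ^ (2 * c + D + 5)) ^ 2 = L ^ (4 * c + 2 * D + 10) := by
          rw [← Real.rpow_natCast (L ^ (2 * c + D + 5)) 2, ← Real.rpow_mul hL0.le]
          congr 1
          push_cast
          ring
        have e2 : L ^ (4 * c + 3 * D + 11) = L ^ (1 : ℝ) * L ^ (4 * c + 2 * D + 10) * L ^ D := by
          rw [← Real.rpow_add hL0, ← Real.rpow_add hL0]
          congr 1
          ring
        rw [e1, e2, Real.rpow_one]
        ring
    _ ≤ N * L ^ (8 * c) := by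
        have : (4 * c + 3 * D + 11) ≤ 8 * c := by linarith
        exact mul_le_mul_of_nonneg_left (Real.rpow_le_rpow_of_exponent_le hL1 this) (by linarith)
    _ = N * (L ^ (4 * c)) ^ 2 := by
        congr 1
        rw [← Real.rpow_natCast (L ^ (4 * c)) 2, ← Real.rpow_mul hL0.le]
        congr 1
        push_cast
        ring
    _ ≤ N * H ^ 2 := by gcongr

end SI2M

open SI2M in
theorem specSI2 (hWIN : SpecWIN) (hMVT : SpecMVT) (hLVQ : SpecLVQ) (hCB2 : SpecCB2)
    (hFA2 : SpecFA2) : SpecSI2 := by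
  intro η D b hη hη1 hD hb
  obtain ⟨CW, NW, hCW, hWIN⟩ := hWIN 64 (by norm_num)
  obtain ⟨CM, hCM, hMVT⟩ := hMVT
  obtain ⟨NL, hLVQ⟩ := hLVQ η hη hη1
  have hc0 : D + 3 ≤ 8 * (2 * D + 4) / η := by
    rw [le_div_iff₀ hη]
    nlinarith
  refine ⟨2 * D + 6, 8 * (2 * D + 4) / η, by linarith, by linarith, ?_⟩
  intro c hc
  have hc1 : 1 ≤ c := by linarith
  have hc2 : 8 / η ≤ c := by
    refine le_trans ?_ hc
    gcongr
    linarith
  have hc3 : 2 * D + 4 ≤ c * (η / 8) := by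
    rw [div_le_iff₀ hη] at hc
    linarith
  obtain ⟨NC, hCB2⟩ := hCB2 c hc1
  obtain ⟨N₀, hlarge⟩ := large c D (max 9 (CW * (33 + 160 * CM))) NW NL NC
  refine ⟨N₀, ?_⟩
  intro N A u hN hB q _ χ y J hq hy
  obtain ⟨hNW, hNL, hNC, hN8, hlog, hAN, h4c, hDN⟩ := hlarge N hN
  have hL9 : 9 ≤ Real.log N := (le_max_left _ _).trans hlog
  have hLM : CW * (33 + 160 * CM) ≤ Real.log N := (le_max_right _ _).trans hlog
  set L := Real.log N with hLdef
  have hL0 : 0 < L := by linarith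
  have hL1 : 1 ≤ L := by linarith
  have hN0 : 0 < N := by linarith
  obtain ⟨hcd, hcds⟩ := hCB2 N A b η (2 * D + 6) u hNC hB
  have hLA : L ^ c ≤ A := hB.hA
  have hAL : A ≤ L ^ (2 * c) := hB.hA'
  have hA1 : 1 ≤ A := (Real.one_le_rpow hL1 (by linarith)).trans hLA
  have hA0 : 0 < A := by linarith
  have hAN' : A ≤ N := hAL.trans hAN
  have hH1 : L ^ (4 * c) ≤ (Hn N c : ℝ) := by
    unfold Hn
    exact Nat.le_ceil _
  have hH2 : (Hn N c : ℝ) ≤ L ^ (4 * c) + 1 := by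
    unfold Hn
    exact (Nat.ceil_lt_add_one (by positivity)).le
  have hyH : (y : ℝ) ≤ (Hn N c : ℝ) := by exact_mod_cast hy
  set a : ℕ → ℂ := fun n => (cd A u n : ℂ) * χ n with hadef
  have hχ1 : ∀ n : ℕ, ‖χ (n : ZMod q)‖ ≤ 1 := fun n => DirichletCharacter.norm_le_one χ _
  have ha1 : ∀ n, ‖a n‖ ≤ 1 := by
    intro n
    rw [hadef]
    simp only [norm_mul]
    have h1 : ‖(cd A u n : ℂ)‖ ≤ 1 := by
      rw [Complex.norm_real, Real.norm_eq_abs]
      exact hcd n
    calc ‖(cd A u n : ℂ)‖ * ‖χ (n : ZMod q)‖ ≤ 1 * 1 :=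
          mul_le_mul h1 (hχ1 n) (norm_nonneg _) (by norm_num)
      _ = 1 := one_mul 1
  have ha2 : ∀ n, a n ≠ 0 → N / 8 < n ∧ (n : ℝ) ≤ 8 * N := by
    intro n hn
    have h1 : cd A u n ≠ 0 := by
      intro h0
      apply hn
      rw [hadef]
      simp [h0]
    exact ⟨(hcds n h1).1, (hcds n h1).2.1⟩
  by_cases hyA : (y : ℝ) ≤ A * L ^ 3 * L ^ (D + 2)
  · refine short N A L D c (Hn N c) y _ hN8 hL9 hD (hc0.trans hc) hAL hA0.le hH1 (Nat.cast_nonneg _)
      hyA ?_
    exact trivial_bound (8 * N) a y J (by linarith) ha1 (fun n hn => (ha2 n hn).2)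
  · have hyA' : A * L ^ 3 * L ^ (D + 2) ≤ (y : ℝ) := (not_le.mp hyA).le
    set p : ℝ := L ^ (D + 2) with hpdef
    have hp0 : 0 < p := by positivity
    have hp1 : 1 ≤ p := Real.one_le_rpow hL1 (by linarith)
    have hL3 : 1 ≤ L ^ 3 := one_le_pow₀ hL1
    have hAL3 : 1 ≤ A * L ^ 3 := by nlinarith
    have hpy : p ≤ y := by nlinarith
    have hy1 : (1 : ℝ) ≤ y := hp1.trans hpy
    have hy0 : (0 : ℝ) < y := by linarith
    have hw : (N / 8) ^ (-(1 : ℝ) / 10) ≤ 1 / p := by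
      have : (-(1 : ℝ) / 10) = -((1 : ℝ) / 10) := by ring
      rw [this, Real.rpow_neg (by positivity), ← one_div]
      exact one_div_le_one_div_of_le hp0 hDN
    have hw10 : 1 / p ≤ 1 / 10 := by
      refine one_div_le_one_div_of_le (by norm_num) ?_
      calc (10 : ℝ) ≤ L ^ (2 : ℝ) := by
            rw [Real.rpow_two]
            nlinarith
        _ ≤ L ^ (D + 2) := Real.rpow_le_rpow_of_exponent_le hL1 (by linarith)
    have key := hWIN (N / 8) (1 / p) y a J hNW (by exact_mod_cast hy1)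
      (by linarith) hw hw10
      (by
        intro n hn
        refine ⟨(ha2 n hn).1, ?_⟩
        have := (ha2 n hn).2
        push_cast
        linarith) ha1
    have e64 : ((64 : ℕ) : ℝ) * (N / 8) = 8 * N := by
      push_cast
      ring
    rw [e64] at key
    have hfac : ∀ t : ℝ, DP (IO (N / 8) (8 * N)) a t =
        DP (PR A) (fun n => χ n) t * DP (SV N A) (fun k => (u k : ℂ) * χ k) t := by
      intro t
      exact hFA2 N A u (fun n => χ n) hN0 hA1 hB.supp (by intro m n; push_cast; exact map_mul χ _ _) t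
    have hint : ∀ T : ℝ, 0 ≤ T → T ≤ N / A →
        ∫ t in (-T)..T, ‖DP (IO (N / 8) (8 * N)) a t‖ ^ 2 ≤ N ^ 2 / p ^ 2 * (4 + 20 * CM) := by
      intro T hT hTA
      have hNA1 : 1 ≤ N / A := by
        rw [le_div_iff₀ hA0]
        linarith
      have hNAN : N / A ≤ N := div_le_self hN0.le hA1
      have hE := hB.hE q χ {t : ℝ | t ∈ Set.Icc (-(N / A)) (N / A) ∧
        A ^ (1 - η / 16) ≤ ‖DP (PR A) (fun n => χ n) t‖} hq
        (by
          have : {t : ℝ | t ∈ Set.Icc (-(N / A)) (N / A) ∧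
              A ^ (1 - η / 16) ≤ ‖DP (PR A) (fun n => χ n) t‖} = Set.Icc (-(N / A)) (N / A) ∩
              {t | A ^ (1 - η / 16) ≤ ‖DP (PR A) (fun n => χ n) t‖} := by
            ext t
            simp
          rw [this]
          exact measurableSet_Icc.inter
            (isClosed_le continuous_const (continuous_DP _ _).norm).measurableSet)
        (fun t ht => ⟨by linarith [ht.1.1], by linarith [ht.1.2]⟩)
        (hLVQ N c A (N / A) (fun n => χ n) hNL hc2 hLA hAN' hNA1 hNAN (fun n => hχ1 n))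
      have hV := hMVT (SV N A) (4 * N / A) (N / A) (fun k => (u k : ℂ) * χ k)
        (by rw [le_div_iff₀ hA0]; linarith) hNA1
        (by
          intro n hn
          unfold SV IO at hn
          rw [Finset.mem_Ioc] at hn
          refine ⟨by omega, ?_⟩
          exact (Nat.le_floor_iff (by positivity)).mp hn.2)
      have hsum : ∑ n ∈ SV N A, ‖(u n : ℂ) * χ n‖ ^ 2 ≤ 4 * N / A := by
        have h1 : ∀ n ∈ SV N A, ‖(u n : ℂ) * χ n‖ ^ 2 ≤ 1 := by
          intro n _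
          have h2 : ‖(u n : ℂ) * χ n‖ ≤ 1 := by
            rw [norm_mul, Complex.norm_real, Real.norm_eq_abs]
            calc |u n| * ‖χ (n : ZMod q)‖ ≤ 1 * 1 :=
                  mul_le_mul (hB.bd n) (hχ1 n) (norm_nonneg _) (by norm_num)
              _ = 1 := one_mul 1
          exact pow_le_one₀ (norm_nonneg _) h2
        refine (Finset.sum_le_sum h1).trans ?_
        rw [Finset.sum_const, nsmul_eq_mul, mul_one]
        have h3 : (SV N A).card ≤ ⌊4 * N / A⌋₊ := by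
          unfold SV IO
          rw [Nat.card_Ioc]
          omega
        calc ((SV N A).card : ℝ) ≤ (⌊4 * N / A⌋₊ : ℕ) := by exact_mod_cast h3
          _ ≤ 4 * N / A := Nat.floor_le (by positivity)
      have hV' : ∫ t in (-(N / A))..(N / A), ‖DP (SV N A) (fun k => (u k : ℂ) * χ k) t‖ ^ 2 ≤
          CM * (N / A + 4 * N / A) * (4 * N / A) :=
        hV.trans (mul_le_mul_of_nonneg_left hsum (by positivity))
      have hsp := split_bound (DP (PR A) (fun n => χ n)) (DP (SV N A) (fun k => (u k : ℂ) * χ k))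
        (continuous_DP _ _) (continuous_DP _ _) T (N / A) (2 * A) (A ^ (1 - η / 16)) _ _ hT hTA
        (fun t => norm_PR_le A hA0.le _ hχ1 t) hE hV'
      have heq : (fun t : ℝ => ‖DP (IO (N / 8) (8 * N)) a t‖ ^ 2) = fun t : ℝ =>
          ‖DP (PR A) (fun n => χ n) t * DP (SV N A) (fun k => (u k : ℂ) * χ k) t‖ ^ 2 := by
        funext t
        rw [hfac t]
      rw [heq]
      refine hsp.trans ?_
      have hp2 : L ^ (2 * D + 6) = p ^ 2 * L ^ 2 := by
        rw [hpdef, ← Real.rpow_natCast (L ^ (D + 2)) 2, ← Real.rpow_natCast L 2,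
          ← Real.rpow_mul hL0.le, ← Real.rpow_add hL0]
        congr 1
        push_cast
        ring
      have hf1 : (2 * A) ^ 2 * ((N / A) ^ 2 / L ^ (2 * D + 6)) ≤ N ^ 2 / p ^ 2 * 4 := by
        rw [hp2]
        have : (2 * A) ^ 2 * ((N / A) ^ 2 / (p ^ 2 * L ^ 2)) = N ^ 2 / p ^ 2 * 4 * (1 / L ^ 2) := by
          field_simp
          ring
        rw [this]
        refine mul_le_of_le_one_right (by positivity) ?_
        rw [div_le_one (by positivity)]
        exact one_le_pow₀ hL1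
      have hf2 : (A ^ (1 - η / 16)) ^ 2 * (CM * (N / A + 4 * N / A) * (4 * N / A)) ≤
          N ^ 2 / p ^ 2 * (20 * CM) := by
        have h1 : (A ^ (1 - η / 16)) ^ 2 = A ^ 2 / A ^ (η / 8) := by
          rw [← Real.rpow_natCast (A ^ (1 - η / 16)) 2, ← Real.rpow_natCast A 2,
            ← Real.rpow_mul hA0.le, ← Real.rpow_sub hA0]
          congr 1
          push_cast
          ring
        have h2 : p ^ 2 ≤ A ^ (η / 8) := by
          calc p ^ 2 = L ^ (2 * D + 4) := by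
                rw [hpdef, ← Real.rpow_natCast (L ^ (D + 2)) 2, ← Real.rpow_mul hL0.le]
                congr 1
                push_cast
                ring
            _ ≤ L ^ (c * (η / 8)) := Real.rpow_le_rpow_of_exponent_le hL1 hc3
            _ = (L ^ c) ^ (η / 8) := by rw [Real.rpow_mul hL0.le]
            _ ≤ A ^ (η / 8) := Real.rpow_le_rpow (by positivity) hLA (by positivity)
        have h3 : (A ^ (1 - η / 16)) ^ 2 * (CM * (N / A + 4 * N / A) * (4 * N / A)) =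
            N ^ 2 / A ^ (η / 8) * (20 * CM) := by
          rw [h1]
          field_simp
          ring
        rw [h3]
        refine mul_le_mul_of_nonneg_right ?_ (by positivity)
        gcongr
      linarith
    refine final N L D (Hn N c) y CW CM _ p _ hN0 hL1 hCW hCM hLM hpdef hD hy0.le hyH ?_
      (hint _ ?_ ?_) ?_ key
    · rw [mul_one_div, le_div_iff₀ hp0]
      linarith
    · have : 0 ≤ Real.log (N / 8) := Real.log_nonneg (by linarith)
      positivity
    · have h1 : Real.log (N / 8) ≤ L := Real.log_le_log (by positivity) (by linarith)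
      have h0 : 0 ≤ Real.log (N / 8) := Real.log_nonneg (by linarith)
      have h2 : Real.log (N / 8) ^ 3 ≤ L ^ 3 := pow_le_pow_left₀ h0 h1 3
      rw [div_le_div_iff₀ (by positivity) hA0]
      have h3 : N / 8 * Real.log (N / 8) ^ 3 * A ≤ N * (A * L ^ 3) := by
        have : N / 8 * Real.log (N / 8) ^ 3 * A ≤ N * L ^ 3 * A := by
          gcongr
          linarith
        linarith
      refine h3.trans ?_
      have h4 : A * L ^ 3 ≤ 1 / p * y := by
        rw [one_div_mul_eq_div, le_div_iff₀ hp0]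
        exact hyA'
      gcongr
    · refine intervalIntegral.integral_nonneg ?_ (fun t _ => by positivity)
      have : 0 ≤ Real.log (N / 8) := Real.log_nonneg (by linarith)
      have h5 : 0 ≤ N / 8 * Real.log (N / 8) ^ 3 / (1 / p * y) := by positivity
      linarith

end

end Pool.Agent.Lib.MP3efbeb.LG
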