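import Pool.Agent.Lib.MP_3efbeb_nt.LG.SpecB
import Pool.Agent.Lib.MP_3efbeb_nt.SV.Sieve

/-!
# SLB: the sieve for one tuple of cofactors (MP_3efbeb_nt, LongPatterns)
-/

set_option autoImplicit false

namespace Pool.Agent.Lib.MP3efbeb.LG

open Finset
open Pool.Agent.Lib.MP391708.QPA (PB rInd Wp Rough)
open Pool.Agent.Lib.MP391708.QPA.FL (mem_PB)
open Pool.Agent.Lib.MP_3efbeb_nt.SV.SieveM (Mk Dens flk)
open scoped Classical

namespace SLBM

/-! ## residue classes -/

lemma crt_card {m n : ℕ} (hmn : m.Coprime n) (hm : 0 < m) (hn : 0 < n) (P P' : ℕ → Prop)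
    [DecidablePred P] [DecidablePred P'] [DecidablePred fun a => P (a % m) ∧ P' (a % n)] :
    ((range (m * n)).filter (fun a => P (a % m) ∧ P' (a % n))).card =
      ((range m).filter P).card * ((range n).filter P').card := by
  rw [← card_product]
  refine card_bij (fun a _ => (a % m, a % n)) ?_ ?_ ?_
  · intro a ha
    rw [mem_filter] at ha
    rw [mem_product, mem_filter, mem_filter]
    exact ⟨⟨mem_range.2 (Nat.mod_lt _ hm), ha.2.1⟩, ⟨mem_range.2 (Nat.mod_lt _ hn), ha.2.2⟩⟩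
  · intro a ha b hb h
    rw [mem_filter, mem_range] at ha hb
    rw [Prod.mk.injEq] at h
    have h1 : a ≡ b [MOD m * n] := (Nat.modEq_and_modEq_iff_modEq_mul hmn).1 ⟨h.1, h.2⟩
    exact Nat.ModEq.eq_of_lt_of_lt h1 ha.1 hb.1
  · rintro ⟨x, y⟩ hxy
    rw [mem_product, mem_filter, mem_filter, mem_range, mem_range] at hxy
    obtain ⟨⟨hx, hPx⟩, ⟨hy, hPy⟩⟩ := hxy
    simp only at hx hPx hy hPy
    obtain ⟨c, hc1, hc2⟩ := Nat.chineseRemainder hmn x y
    have e1 : c % (m * n) % m = x := by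
      rw [Nat.mod_mul_right_mod, hc1, Nat.mod_eq_of_lt hx]
    have e2 : c % (m * n) % n = y := by
      rw [Nat.mod_mul_left_mod, hc2, Nat.mod_eq_of_lt hy]
    refine ⟨c % (m * n), ?_, ?_⟩
    · rw [mem_filter, mem_range, e1, e2]
      exact ⟨Nat.mod_lt _ (Nat.mul_pos hm hn), hPx, hPy⟩
    · show (c % (m * n) % m, c % (m * n) % n) = (x, y)
      rw [e1, e2]

/-- the number of nonzero classes `-h_i` -/
def cc {k : ℕ} (h : Fin k → ℕ) (l : ℕ) : ℕ := ((univ.image (fun i => h i % l)).erase 0).card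

lemma cl {k : ℕ} (h : Fin k → ℕ) {l : ℕ} (hl : l.Prime) :
    ((range l).filter (fun a => ¬ l ∣ a ∧ l ∣ ∏ i, (a + h i))).card = cc h l := by
  unfold cc
  refine card_bij (fun a _ => l - a) ?_ ?_ ?_
  · intro a ha
    rw [mem_filter, mem_range] at ha
    obtain ⟨hal, hla, hd⟩ := ha
    obtain ⟨i, -, hi⟩ := (hl.prime.dvd_finsetProd_iff _).1 hd
    have ha0 : a ≠ 0 := by
      rintro rfl
      exact hla (dvd_zero l)
    rw [mem_erase, mem_image]
    refine ⟨by omega, i, mem_univ i, ?_⟩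
    have h1 : l ∣ a + h i % l := by
      have h2 : a + h i = a + h i % l + l * (h i / l) := by
        have := Nat.mod_add_div (h i) l
        omega
      rw [h2] at hi
      exact (Nat.dvd_add_left (dvd_mul_right l _)).1 hi
    obtain ⟨q, hq⟩ := h1
    have h3 := Nat.mod_lt (h i) hl.pos
    have h4 : q = 1 := by
      have h5 : l * q < l * 2 := by omega
      have h6 := Nat.lt_of_mul_lt_mul_left h5
      have h7 : q ≠ 0 := by
        rintro rfl
        omega
      omega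
    rw [h4] at hq
    omega
  · intro a ha b hb hab
    rw [mem_filter, mem_range] at ha hb
    change l - a = l - b at hab
    omega
  · intro b hb
    rw [mem_erase, mem_image] at hb
    obtain ⟨hb0, i, -, hi⟩ := hb
    have h3 := Nat.mod_lt (h i) hl.pos
    refine ⟨l - b, ?_, by omega⟩
    rw [mem_filter, mem_range]
    refine ⟨by omega, ?_, ?_⟩
    · intro hd
      have := Nat.le_of_dvd (by omega) hd
      omega
    · refine dvd_trans ?_ (dvd_prod_of_mem (fun i => l - b + h i) (mem_univ i))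
      have h2 : l - b + h i = l + l * (h i / l) := by
        have := Nat.mod_add_div (h i) l
        omega
      rw [h2]
      exact dvd_add dvd_rfl (dvd_mul_right l _)

lemma cc_le {k : ℕ} (h : Fin k → ℕ) (l : ℕ) : cc h l ≤ k := by
  unfold cc
  refine (card_le_card (erase_subset _ _)).trans (card_image_le.trans ?_)
  rw [card_univ, Fintype.card_fin]

lemma cc_adm {k : ℕ} {h : Fin k → ℕ} (hA : Adm h) {l : ℕ} (hl : l.Prime) : cc h l + 2 ≤ l := by
  rw [← cl h hl]
  obtain ⟨a, ha⟩ := hA l hl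
  have h1 : (range l).filter (fun a => ¬ l ∣ a ∧ l ∣ ∏ i, (a + h i)) ⊆
      ((range l).erase 0).erase (a % l) := by
    intro b hb
    rw [mem_filter] at hb
    rw [mem_erase, mem_erase]
    refine ⟨?_, ?_, hb.1⟩
    · rintro rfl
      apply ha
      obtain ⟨i, -, hi⟩ := (hl.prime.dvd_finsetProd_iff _).1 hb.2.2
      refine dvd_mul_of_dvd_right (dvd_trans ?_ (dvd_prod_of_mem (fun i => a + h i) (mem_univ i))) a
      have h2 : a + h i = a % l + h i + l * (a / l) := by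
        have := Nat.mod_add_div a l
        omega
      show l ∣ a + h i
      rw [h2]
      exact dvd_add hi (dvd_mul_right l _)
    · rintro rfl
      exact hb.2.1 (dvd_zero l)
  have h2 := card_le_card h1
  have h3 : a % l ∈ (range l).erase 0 := by
    rw [mem_erase, mem_range]
    refine ⟨?_, Nat.mod_lt _ hl.pos⟩
    intro h4
    exact ha (dvd_mul_of_dvd_left (Nat.dvd_of_mod_eq_zero h4) _)
  rw [card_erase_of_mem h3, card_erase_of_mem (mem_range.2 hl.pos), card_range] at h2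
  have h5 : 1 ≤ l - 1 := by
    have := hl.two_le
    omega
  have h6 : l ≠ 2 ∨ l = 2 := by omega
  omega

lemma dvd_prod_mod {k : ℕ} (h : Fin k → ℕ) {l n : ℕ} (a : ℕ) (hln : l ∣ n) :
    l ∣ ∏ i, (a % n + h i) ↔ l ∣ ∏ i, (a + h i) := by
  have h1 : ((a % n : ℕ) : ZMod l) = (a : ZMod l) :=
    (ZMod.natCast_eq_natCast_iff _ _ _).2 ((Nat.mod_modEq a n).of_dvd hln)
  rw [← ZMod.natCast_eq_zero_iff, ← ZMod.natCast_eq_zero_iff]
  push_cast
  rw [h1]

lemma dvd_add_mod {l n : ℕ} (a x : ℕ) (hln : l ∣ n) : l ∣ a % n + x ↔ l ∣ a + x := by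
  have h1 : ((a % n : ℕ) : ZMod l) = (a : ZMod l) :=
    (ZMod.natCast_eq_natCast_iff _ _ _).2 ((Nat.mod_modEq a n).of_dvd hln)
  rw [← ZMod.natCast_eq_zero_iff, ← ZMod.natCast_eq_zero_iff]
  push_cast
  rw [h1]

/-- the condition on the residue classes -/
def CP {k : ℕ} (h : Fin k → ℕ) (s : Finset ℕ) (a : ℕ) : Prop :=
  ∀ l ∈ s, ¬ l ∣ a ∧ l ∣ ∏ i, (a + h i)

lemma CP_mod {k : ℕ} (h : Fin k → ℕ) {s : Finset ℕ} {n : ℕ} (a : ℕ) (hs : ∀ l ∈ s, l ∣ n) :
    CP h s (a % n) ↔ CP h s a := by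
  unfold CP
  refine forall₂_congr fun l hl => ?_
  rw [dvd_prod_mod h a (hs l hl), Nat.dvd_mod_iff (hs l hl)]

lemma prodset {k : ℕ} (h : Fin k → ℕ) (s : Finset ℕ) (hs : ∀ l ∈ s, l.Prime) :
    ((range (∏ l ∈ s, l)).filter (CP h s)).card = ∏ l ∈ s, cc h l := by
  induction s using Finset.induction_on with
  | empty =>
    rw [prod_empty, prod_empty, filter_true_of_mem]
    · rfl
    · intro a _ l hl
      exact absurd hl (notMem_empty l)
  | insert l s hls ih =>
    have hl : l.Prime := hs l (mem_insert_self l s)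
    have hs' : ∀ l' ∈ s, l'.Prime := fun l' h' => hs l' (mem_insert_of_mem h')
    rw [prod_insert hls, prod_insert hls, ← ih hs', ← cl h hl]
    have hcop : Nat.Coprime l (∏ l ∈ s, l) := by
      refine Nat.Coprime.prod_right fun l' h' => ?_
      rw [Nat.coprime_primes hl (hs' l' h')]
      rintro rfl
      exact hls h'
    rw [← crt_card hcop hl.pos (prod_pos fun l' h' => (hs' l' h').pos)
      (fun a => ¬ l ∣ a ∧ l ∣ ∏ i, (a + h i)) (CP h s)]
    congr 1
    refine filter_congr fun a _ => ?_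
    rw [CP_mod h a (fun l' h' => dvd_prod_of_mem _ h')]
    rw [dvd_prod_mod h a dvd_rfl, Nat.dvd_mod_iff dvd_rfl]
    unfold CP
    rw [forall_mem_insert]

lemma single {k : ℕ} (h m : Fin k → ℕ) (hm : ∀ i, 1 ≤ m i)
    (hcop : ∀ i j, i ≠ j → (m i).Coprime (m j)) :
    ((range (∏ i, m i)).filter (fun a => ∀ i, m i ∣ a + h i)).card = 1 := by
  have hM0 : 0 < ∏ i, m i := prod_pos fun i _ => hm i
  rw [card_eq_one]
  have hpw : Set.Pairwise ((univ : Finset (Fin k)) : Set (Fin k))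
      (Function.onFun Nat.Coprime m) := fun i _ j _ hij => hcop i j hij
  obtain ⟨c, hc⟩ := Nat.chineseRemainderOfFinset (fun i => h i * (m i - 1)) m univ
    (fun i _ => by have := hm i; omega) hpw
  have hc' : ∀ i, m i ∣ c + h i := by
    intro i
    have h1 := hc i (mem_univ i)
    have h2 : c + h i ≡ h i * (m i - 1) + h i [MOD m i] := Nat.ModEq.add_right _ h1
    have h3 : h i * (m i - 1) + h i = m i * h i := by
      obtain ⟨x, hx⟩ : ∃ x, m i = x + 1 := ⟨m i - 1, by have := hm i; omega⟩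
      rw [hx, Nat.add_sub_cancel]
      ring
    rw [h3] at h2
    exact (h2.dvd_iff dvd_rfl).2 (dvd_mul_right _ _)
  refine ⟨c % ∏ i, m i, ?_⟩
  ext a
  rw [mem_filter, mem_range, mem_singleton]
  constructor
  · rintro ⟨ha, hd⟩
    have h1 : ∀ i ∈ (univ : Finset (Fin k)), ((m i : ℕ) : ℤ) ∣ (c : ℤ) - a := by
      intro i _
      have h2 := hd i
      have h3 := hc' i
      have h4 : ((m i : ℕ) : ℤ) ∣ ((c + h i : ℕ) : ℤ) - ((a + h i : ℕ) : ℤ) :=
        dvd_sub (by exact_mod_cast h3) (by exact_mod_cast h2)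
      have h5 : ((c + h i : ℕ) : ℤ) - ((a + h i : ℕ) : ℤ) = (c : ℤ) - a := by push_cast; ring
      rwa [h5] at h4
    have h2 := Finset.prod_dvd_of_coprime (t := (univ : Finset (Fin k)))
      (s := fun i => ((m i : ℕ) : ℤ)) (z := (c : ℤ) - a)
      (fun i _ j _ hij => Nat.isCoprime_iff_coprime.2 (hcop i j hij)) h1
    have h3 : a ≡ c [MOD ∏ i, m i] := by
      rw [Nat.modEq_iff_dvd]
      push_cast
      exact h2
    have h4 : a % ∏ i, m i = c % ∏ i, m i := h3
    rw [← h4, Nat.mod_eq_of_lt ha]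
  · rintro rfl
    refine ⟨Nat.mod_lt _ hM0, fun i => ?_⟩
    exact (dvd_add_mod c (h i) (dvd_prod_of_mem m (mem_univ i))).2 (hc' i)

lemma R_card {k : ℕ} (h m : Fin k → ℕ) (hm : ∀ i, 1 ≤ m i)
    (hcop : ∀ i j, i ≠ j → (m i).Coprime (m j)) (s : Finset ℕ) (hs : ∀ l ∈ s, l.Prime)
    (hsm : Nat.Coprime (∏ l ∈ s, l) (∏ i, m i)) :
    ((range ((∏ l ∈ s, l) * ∏ i, m i)).filter
      (fun a => CP h s a ∧ ∀ i, m i ∣ a + h i)).card = ∏ l ∈ s, cc h l := by
  have h1 := crt_card hsm (prod_pos fun l' h' => (hs l' h').pos) (prod_pos fun i _ => hm i)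
    (CP h s) (fun a => ∀ i, m i ∣ a + h i)
  rw [prodset h s hs, single h m hm hcop, mul_one] at h1
  rw [← h1]
  congr 1
  refine filter_congr fun a _ => ?_
  rw [CP_mod h a (fun l' h' => dvd_prod_of_mem _ h')]
  refine and_congr_right fun _ => forall_congr' fun i => ?_
  exact (dvd_add_mod a (h i) (dvd_prod_of_mem m (mem_univ i))).symm

/-! ## primes in the classes -/

lemma split (N : ℕ) (P : ℕ → Prop) [DecidablePred P] :
    (((Icc 1 (2 * N)).filter P).card : ℝ) =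
      (((Icc 1 N).filter P).card : ℝ) + (((Ioc N (2 * N)).filter P).card : ℝ) := by
  rw [← Nat.cast_add, ← card_union_of_disjoint]
  · congr 2
    ext n
    simp only [mem_union, mem_filter, mem_Icc, mem_Ioc]
    constructor
    · rintro ⟨h1, h2⟩
      rcases Nat.lt_or_ge N n with h | h
      · exact Or.inr ⟨by omega, h2⟩
      · exact Or.inl ⟨by omega, h2⟩
    · rintro (⟨h1, h2⟩ | ⟨h1, h2⟩) <;> exact ⟨by omega, h2⟩
  · rw [disjoint_left]
    intro n hn hn'
    rw [mem_filter, mem_Icc] at hn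
    rw [mem_filter, mem_Ioc] at hn'
    omega

lemma class_err {N : ℕ} {Em : ℕ → ℝ} (hE : IsEm N Em) {Q a : ℕ} (hQ : 1 ≤ Q)
    (ha : a.Coprime Q) :
    |(((Ioc N (2 * N)).filter (fun p => p.Prime ∧ p ≡ a [MOD Q])).card : ℝ) -
      (((Ioc N (2 * N)).filter Nat.Prime).card : ℝ) / Q.totient| ≤ 2 * Em Q := by
  have h1 := hE N Q a (Or.inl rfl) hQ ha
  have h2 := hE (2 * N) Q a (Or.inr rfl) hQ ha
  rw [split N (fun p => p.Prime ∧ p ≡ a [MOD Q]), split N Nat.Prime] at h2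
  rw [abs_le] at h1 h2 ⊢
  rw [add_div] at h2
  constructor <;> linarith [h1.1, h1.2, h2.1, h2.2]

lemma Em_nonneg {N : ℕ} {Em : ℕ → ℝ} (hE : IsEm N Em) {Q : ℕ} (hQ : 1 ≤ Q) : 0 ≤ Em Q :=
  (abs_nonneg _).trans (hE N Q 1 (Or.inl rfl) hQ (Nat.coprime_one_left Q))

lemma totient_prod (s : Finset ℕ) (hs : ∀ l ∈ s, l.Prime) :
    Nat.totient (∏ l ∈ s, l) = ∏ l ∈ s, (l - 1) := by
  induction s using Finset.induction_on with
  | empty => simp
  | insert l s hls ih =>
    have hl : l.Prime := hs l (mem_insert_self l s)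
    have hs' : ∀ l' ∈ s, l'.Prime := fun l' h' => hs l' (mem_insert_of_mem h')
    have hcop : Nat.Coprime l (∏ l ∈ s, l) := by
      refine Nat.Coprime.prod_right fun l' h' => ?_
      rw [Nat.coprime_primes hl (hs' l' h')]
      rintro rfl
      exact hls h'
    rw [prod_insert hls, prod_insert hls, Nat.totient_mul hcop, Nat.totient_prime hl, ih hs']

/-- the product of the sieving primes dividing the value -/
noncomputable def vv {k : ℕ} (z : ℝ) (h m : Fin k → ℕ) (n : ℕ) : ℕ :=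
  ∏ l ∈ (PB z).filter (fun l => ¬ l ∣ (∏ i, m i) ∧ l ∣ ∏ i, (n + h i)), l

lemma dvd_vv {k : ℕ} {z : ℝ} {h m : Fin k → ℕ} {n l : ℕ} (hl : l.Prime) :
    l ∣ vv z h m n ↔ (l : ℝ) < z ∧ ¬ l ∣ (∏ i, m i) ∧ l ∣ ∏ i, (n + h i) := by
  unfold vv
  rw [hl.prime.dvd_finsetProd_iff]
  constructor
  · rintro ⟨l', h1, h2⟩
    rw [mem_filter, mem_PB] at h1
    have h3 : l = l' := (Nat.prime_dvd_prime_iff_eq hl h1.1.1).1 h2
    subst h3
    exact ⟨h1.1.2, h1.2⟩
  · rintro ⟨h1, h2⟩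
    exact ⟨l, mem_filter.2 ⟨mem_PB.2 ⟨hl, h1⟩, h2⟩, dvd_rfl⟩

lemma rem {k N : ℕ} {z : ℝ} {h m : Fin k → ℕ} {Em : ℕ → ℝ} (hzN : z ≤ N) (hm : ∀ i, 1 ≤ m i)
    (hcop : ∀ i j, i ≠ j → (m i).Coprime (m j)) (hdl : ∀ i, (m i).Coprime (dl h))
    (hE : IsEm N Em) {δ : ℕ} (hδ : 1 ≤ δ) (hsq : Squarefree δ)
    (hlt : ∀ p : ℕ, p.Prime → p ∣ δ → (p : ℝ) < z) (hδM : δ.Coprime (∏ i, m i)) :
    |((((Ioc N (2 * N)).filter (fun n : ℕ => n.Prime ∧ ∀ i, m i ∣ n + h i)).filter
        (fun n => δ ∣ vv z h m n)).card : ℝ) -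
      ((((Ioc N (2 * N)).filter Nat.Prime).card : ℝ) / (∏ i, m i).totient) *
        ∏ p ∈ δ.primeFactors, gd h p| ≤
      2 * ((k : ℝ) ^ δ.primeFactors.card * Em (δ * ∏ i, m i)) := by
  set M := ∏ i, m i with hM
  have hM0 : 0 < M := prod_pos fun i _ => hm i
  set s := δ.primeFactors with hs
  have hsp : ∀ l ∈ s, l.Prime := fun l hl => Nat.prime_of_mem_primeFactors hl
  have hδs : ∏ l ∈ s, l = δ := Nat.prod_primeFactors_of_squarefree hsq
  have hsd : ∀ l ∈ s, l ∣ δ := fun l hl => Nat.dvd_of_mem_primeFactors hl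
  set R := (range (δ * M)).filter (fun a => CP h s a ∧ ∀ i, m i ∣ a + h i) with hR
  have hRc : R.card = ∏ l ∈ s, cc h l := by
    have h1 := R_card h m hm hcop s hsp (by rw [hδs]; exact hδM)
    rw [hδs] at h1
    exact h1
  have hQ0 : 0 < δ * M := Nat.mul_pos (by omega) hM0
  -- the set
  set A := ((Ioc N (2 * N)).filter (fun n : ℕ => n.Prime ∧ ∀ i, m i ∣ n + h i)).filter
        (fun n => δ ∣ vv z h m n) with hA
  have hmodR : ∀ n : ℕ, n % (δ * M) ∈ R ↔ CP h s n ∧ ∀ i, m i ∣ n + h i := by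
    intro n
    rw [hR, mem_filter, mem_range, CP_mod h n (fun l hl => (hsd l hl).mul_right M)]
    constructor
    · rintro ⟨_, h1, h2⟩
      exact ⟨h1, fun i => (dvd_add_mod n (h i)
        ((dvd_prod_of_mem m (mem_univ i)).mul_left δ)).1 (h2 i)⟩
    · rintro ⟨h1, h2⟩
      exact ⟨Nat.mod_lt _ hQ0, h1, fun i => (dvd_add_mod n (h i)
        ((dvd_prod_of_mem m (mem_univ i)).mul_left δ)).2 (h2 i)⟩
  have hAmem : ∀ n, n ∈ A ↔ (n ∈ Ioc N (2 * N) ∧ n.Prime) ∧ n % (δ * M) ∈ R := by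
    intro n
    rw [hmodR, hA, mem_filter, mem_filter]
    constructor
    · rintro ⟨⟨h1, h2, h3⟩, h4⟩
      refine ⟨⟨h1, h2⟩, ?_, h3⟩
      intro l hl
      have h5 := (dvd_vv (hsp l hl)).1 ((hsd l hl).trans h4)
      refine ⟨?_, h5.2.2⟩
      intro h6
      have h7 := (Nat.prime_dvd_prime_iff_eq (hsp l hl) h2).1 h6
      have h8 : (N : ℝ) < n := by exact_mod_cast (mem_Ioc.1 h1).1
      rw [← h7] at h8
      linarith [h5.1]
    · rintro ⟨⟨h1, h2⟩, h3, h4⟩
      refine ⟨⟨h1, h2, h4⟩, ?_⟩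
      rw [← hδs]
      unfold vv
      refine prod_dvd_prod_of_subset _ _ _ ?_
      intro l hl
      rw [mem_filter, mem_PB]
      refine ⟨⟨hsp l hl, hlt l (hsp l hl) (hsd l hl)⟩, ?_, (h3 l hl).2⟩
      intro h5
      have h6 := Nat.dvd_gcd (hsd l hl) h5
      rw [hδM] at h6
      exact (hsp l hl).one_lt.ne' (Nat.dvd_one.1 h6)
  -- the classes are coprime to the modulus
  have hRcop : ∀ a ∈ R, a.Coprime (δ * M) := by
    intro a ha
    rw [hR, mem_filter] at ha
    obtain ⟨_, h1, h2⟩ := ha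
    refine Nat.Coprime.mul_right ?_ ?_
    · rw [← hδs]
      refine Nat.Coprime.prod_right fun l hl => ?_
      exact Nat.Coprime.symm ((Nat.Prime.coprime_iff_not_dvd (hsp l hl)).2 (h1 l hl).1)
    · rw [hM]
      refine Nat.Coprime.prod_right fun i _ => ?_
      rw [Nat.coprime_iff_gcd_eq_one]
      have h3 : Nat.gcd a (m i) ∣ h i := by
        have h4 : Nat.gcd a (m i) ∣ a + h i := (Nat.gcd_dvd_right a (m i)).trans (h2 i)
        exact (Nat.dvd_add_right (Nat.gcd_dvd_left a (m i))).1 h4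
      have h4 : h i ∣ dl h := by
        unfold dl
        exact dvd_mul_of_dvd_left (dvd_prod_of_mem h (mem_univ i)) _
      have h5 : Nat.gcd a (m i) ∣ Nat.gcd (m i) (dl h) :=
        Nat.dvd_gcd (Nat.gcd_dvd_right a (m i)) (h3.trans h4)
      rw [hdl i] at h5
      exact Nat.dvd_one.1 h5
  -- the count as a sum over the classes
  have hcount : (A.card : ℝ) = ∑ a ∈ R,
      (((Ioc N (2 * N)).filter (fun p => p.Prime ∧ p ≡ a [MOD (δ * M)])).card : ℝ) := by
    rw [← Nat.cast_sum]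
    congr 1
    rw [card_eq_sum_card_fiberwise (f := fun n => n % (δ * M)) (t := R)
      (fun n hn => ((hAmem n).1 (mem_coe.1 hn)).2)]
    refine sum_congr rfl fun a ha => ?_
    congr 1
    ext n
    have ha' : a < δ * M := by
      have ha1 := ha
      rw [hR, mem_filter, mem_range] at ha1
      exact ha1.1
    constructor
    · intro hn
      obtain ⟨hn1, h4⟩ := mem_filter.1 hn
      obtain ⟨⟨h1, h2⟩, h3⟩ := (hAmem n).1 hn1
      refine mem_filter.2 ⟨h1, h2, ?_⟩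
      show n % (δ * M) = a % (δ * M)
      rw [Nat.mod_eq_of_lt ha']
      exact h4
    · intro hn
      obtain ⟨h1, h2, h3⟩ := mem_filter.1 hn
      have h4 : n % (δ * M) = a := by
        have h5 : n % (δ * M) = a % (δ * M) := h3
        rw [h5, Nat.mod_eq_of_lt ha']
      refine mem_filter.2 ⟨(hAmem n).2 ⟨⟨h1, h2⟩, ?_⟩, h4⟩
      rw [h4]
      exact ha
  -- the main term
  have htot : ((δ * M).totient : ℝ) = (M.totient : ℝ) * ∏ l ∈ s, ((l : ℝ) - 1) := by
    rw [Nat.totient_mul hδM, ← hδs, totient_prod s hsp]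
    push_cast
    rw [mul_comm]
    congr 1
    refine prod_congr rfl fun l hl => ?_
    rw [Nat.cast_sub (hsp l hl).one_lt.le, Nat.cast_one]
  have hmain : ((((Ioc N (2 * N)).filter Nat.Prime).card : ℝ) / M.totient) *
      ∏ p ∈ s, gd h p = ∑ a ∈ R, (((Ioc N (2 * N)).filter Nat.Prime).card : ℝ) /
        (δ * M).totient := by
    rw [sum_const, nsmul_eq_mul, hRc, htot]
    have h1 : ∏ p ∈ s, gd h p = (∏ l ∈ s, (cc h l : ℝ)) / ∏ l ∈ s, ((l : ℝ) - 1) := by
      rw [← prod_div_distrib]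
      rfl
    rw [h1]
    push_cast
    ring
  rw [hcount, hmain, ← sum_sub_distrib]
  refine (abs_sum_le_sum_abs _ _).trans ?_
  refine (sum_le_sum fun a ha => class_err hE hQ0 (hRcop a ha)).trans ?_
  rw [sum_const, nsmul_eq_mul, hRc]
  have hE0 := Em_nonneg hE hQ0
  have h1 : ((∏ l ∈ s, cc h l : ℕ) : ℝ) ≤ (k : ℝ) ^ s.card := by
    rw [← prod_const]
    push_cast
    exact prod_le_prod (fun _ _ => Nat.cast_nonneg _) (fun l _ => by exact_mod_cast cc_le h l)
  calc ((∏ l ∈ s, cc h l : ℕ) : ℝ) * (2 * Em (δ * M)) ≤ (k : ℝ) ^ s.card * (2 * Em (δ * M)) :=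
        mul_le_mul_of_nonneg_right h1 (by positivity)
    _ = _ := by ring

end SLBM

open SLBM in
theorem specSLB : SpecSLB := by
  intro k hk
  obtain ⟨b, hb⟩ : ∃ b : ℕ, Mk (2 * k) * Real.exp (-(b : ℝ)) ≤ 1 / 2 := by
    have hM : 0 < Mk (2 * k) := Real.exp_pos _
    obtain ⟨b, hb⟩ := exists_nat_ge (2 * Mk (2 * k))
    refine ⟨b, ?_⟩
    rw [Real.exp_neg]
    have h1 : 2 * Mk (2 * k) ≤ Real.exp b := hb.trans (by linarith [Real.add_one_le_exp (b : ℝ)])
    rw [mul_inv_le_iff₀ (Real.exp_pos _)]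
    linarith
  refine ⟨8 * b + 16, ?_⟩
  intro N z h m Em hz hzN hh hAdm hm hcop hdl hE
  set M := ∏ i, m i with hM
  have hM0 : 0 < M := prod_pos fun i _ => hm i
  have hk0 : (0 : ℝ) < k := by exact_mod_cast hk
  have hgdD : ∀ l : ℕ, l.Prime → 0 ≤ gd h l ∧ gd h l ≤ ((2 * k : ℕ) : ℝ) / (l : ℝ) ∧
      gd h l ≤ ((2 * k : ℕ) : ℝ) / (((2 * k : ℕ) : ℝ) + 1) := by
    intro l hl
    have h1 : (cc h l : ℝ) ≤ k := by exact_mod_cast cc_le h l
    have h2 : (cc h l : ℝ) + 2 ≤ l := by exact_mod_cast cc_adm hAdm hl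
    have hl2 : (2 : ℝ) ≤ l := by exact_mod_cast hl.two_le
    have hl1 : (0 : ℝ) < (l : ℝ) - 1 := by linarith
    have hc0 : (0 : ℝ) ≤ cc h l := Nat.cast_nonneg _
    have e : gd h l = (cc h l : ℝ) / ((l : ℝ) - 1) := rfl
    rw [e]
    push_cast
    refine ⟨by positivity, ?_, ?_⟩
    · rw [div_le_div_iff₀ hl1 (by linarith)]
      nlinarith
    · rw [div_le_div_iff₀ hl1 (by positivity)]
      rcases le_total ((l : ℝ) - 1) (2 * k + 1) with h3 | h3
      · nlinarith
      · nlinarith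
  set g : ℕ → ℝ := fun l => if l ∣ M then 0 else gd h l with hg
  have hgD : Dens (2 * k) g := by
    intro l hl
    rw [hg]
    simp only
    split_ifs with hd
    · refine ⟨le_rfl, by positivity, by positivity⟩
    · exact hgdD l hl
  have hgle : ∀ l ∈ PB z, 0 ≤ 1 - gd h l ∧ 1 - gd h l ≤ 1 - g l := by
    intro l hl
    have hlp := (mem_PB.1 hl).1
    have h1 := hgdD l hlp
    have h2 : ((2 * k : ℕ) : ℝ) / (((2 * k : ℕ) : ℝ) + 1) ≤ 1 := by
      rw [div_le_one (by positivity)]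
      linarith
    refine ⟨by linarith [h1.2.2], ?_⟩
    rw [hg]
    simp only
    split_ifs with hd
    · linarith [h1.1]
    · exact le_rfl
  set T := (Ioc N (2 * N)).filter (fun n : ℕ => n.Prime ∧ ∀ i, m i ∣ n + h i) with hT
  set X : ℝ := (((Ioc N (2 * N)).filter Nat.Prime).card : ℝ) / M.totient with hX
  have hX0 : 0 ≤ X := by positivity
  have hfl := flk (2 * k) b hb z hz T (vv z h m) (fun _ => 1) X g hX0
    (fun _ _ => zero_le_one) hgD
  have hlog0 : 0 ≤ 1 + Real.log z := by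
    have := Real.log_nonneg (by linarith : (1 : ℝ) ≤ z)
    linarith
  -- the right side
  have hrhs : ∑ i ∈ T, (1 : ℝ) * rInd z (vv z h m i) ≤
      (((Ioc N (2 * N)).filter (fun n : ℕ => n.Prime ∧ ∀ i, m i ∣ n + h i ∧
      ∀ l : ℕ, l.Prime → (l : ℝ) < z → ¬ l ∣ M → ¬ l ∣ n + h i)).card : ℝ) := by
    have e1 : ∑ i ∈ T, (1 : ℝ) * rInd z (vv z h m i) =
        ((T.filter (fun n => Rough z (vv z h m n))).card : ℝ) := by
      rw [card_filter]
      push_cast
      refine sum_congr rfl fun n _ => ?_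
      rw [one_mul]
      rfl
    rw [e1, Nat.cast_le]
    refine card_le_card ?_
    intro n hn
    rw [mem_filter, hT, mem_filter] at hn
    obtain ⟨⟨h1, h2, h3⟩, h4⟩ := hn
    rw [mem_filter]
    refine ⟨h1, h2, fun i => ⟨h3 i, ?_⟩⟩
    intro l hl hlz hlM hd
    have h5 : l ∣ vv z h m n := (dvd_vv hl).2 ⟨hlz, hlM,
      hd.trans (dvd_prod_of_mem (fun i => n + h i) (mem_univ i))⟩
    exact absurd (h4 l hl h5) (not_le.2 hlz)
  -- the remainders
  set D := (Icc 1 ⌊z ^ (8 * b + 16)⌋₊).filter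
    (fun δ => Squarefree δ ∧ ∀ p : ℕ, p.Prime → p ∣ δ → (p : ℝ) < z) with hD
  set D' := (Icc 1 ⌊z ^ (8 * b + 16)⌋₊).filter (fun δ => Squarefree δ ∧ δ.Coprime M) with hD'
  have hrem : ∑ δ ∈ D, |(∑ i ∈ T.filter (fun i => δ ∣ vv z h m i), (1 : ℝ)) -
      X * ∏ p ∈ δ.primeFactors, g p| ≤
      ∑ δ ∈ D', 2 * ((k : ℝ) ^ δ.primeFactors.card * Em (δ * M)) := by
    have h1 : ∀ δ ∈ D, |(∑ i ∈ T.filter (fun i => δ ∣ vv z h m i), (1 : ℝ)) -
        X * ∏ p ∈ δ.primeFactors, g p| ≤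
        if δ.Coprime M then 2 * ((k : ℝ) ^ δ.primeFactors.card * Em (δ * M)) else 0 := by
      intro δ hδ
      rw [hD, mem_filter, mem_Icc] at hδ
      obtain ⟨⟨hδ1, _⟩, hsq, hlt⟩ := hδ
      have e1 : (∑ i ∈ T.filter (fun i => δ ∣ vv z h m i), (1 : ℝ)) =
          ((T.filter (fun i => δ ∣ vv z h m i)).card : ℝ) := by
        rw [sum_const, nsmul_eq_mul, mul_one]
      rw [e1]
      split_ifs with hc
      · have e2 : ∏ p ∈ δ.primeFactors, g p = ∏ p ∈ δ.primeFactors, gd h p := by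
          refine prod_congr rfl fun p hp => ?_
          rw [hg]
          simp only
          rw [if_neg]
          intro hpM
          have h6 := Nat.dvd_gcd (Nat.dvd_of_mem_primeFactors hp) hpM
          rw [hc] at h6
          exact (Nat.prime_of_mem_primeFactors hp).one_lt.ne' (Nat.dvd_one.1 h6)
        rw [e2]
        exact rem hzN hm hcop hdl hE hδ1 hsq hlt hc
      · obtain ⟨p, hp, hpδ, hpM⟩ := Nat.Prime.not_coprime_iff_dvd.1 hc
        have e2 : ∏ p ∈ δ.primeFactors, g p = 0 := by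
          refine prod_eq_zero (Nat.mem_primeFactors.2 ⟨hp, hpδ, by omega⟩) ?_
          rw [hg]
          simp only
          rw [if_pos hpM]
        have e3 : T.filter (fun i => δ ∣ vv z h m i) = ∅ := by
          refine filter_false_of_mem fun n _ hd => ?_
          exact ((dvd_vv hp).1 (hpδ.trans hd)).2.1 hpM
        rw [e2, e3]
        simp
    refine (sum_le_sum h1).trans ?_
    rw [← sum_filter]
    refine sum_le_sum_of_subset_of_nonneg ?_ ?_
    · intro δ hδ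
      rw [mem_filter, hD, mem_filter] at hδ
      rw [hD', mem_filter]
      exact ⟨hδ.1.1, hδ.1.2.1, hδ.2⟩
    · intro δ hδ _
      rw [hD', mem_filter, mem_Icc] at hδ
      have := Em_nonneg hE (Nat.mul_pos (by omega : 0 < δ) hM0)
      positivity
  rw [← mul_sum] at hrem
  -- the product
  have hprod : ∏ l ∈ PB z, (1 - gd h l) ≤ ∏ p ∈ PB z, (1 - g p) :=
    prod_le_prod (fun l hl => (hgle l hl).1) (fun l hl => (hgle l hl).2)
  refine le_trans ?_ (hfl.trans hrhs)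
  have h1 : 1 / 2 * X * ∏ l ∈ PB z, (1 - gd h l) ≤ 1 / 2 * X * ∏ p ∈ PB z, (1 - g p) :=
    mul_le_mul_of_nonneg_left hprod (by positivity)
  have h2 := mul_le_mul_of_nonneg_left hrem (by linarith : 0 ≤ 2 * (1 + Real.log z))
  linarith

end Pool.Agent.Lib.MP3efbeb.LG
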