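import Pool.Agent.Lib.MP_3efbeb_nt.LG.SpecB

/-!
# SSL: the singular series is bounded below
-/

set_option autoImplicit false

namespace Pool.Agent.Lib.MP3efbeb.LG

open Finset MeasureTheory
open Pool.Agent.Lib.MP391708.QPA (PB rInd Wp Rough)

noncomputable section

namespace SSLM

lemma card_le_k {k : ℕ} (h : Fin k → ℕ) (l : ℕ) :
    ((univ.image (fun i => h i % l)).erase 0).card ≤ k := by
  refine (Finset.card_erase_le).trans (Finset.card_image_le.trans ?_)
  simp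

lemma card_add_two_le {k : ℕ} (h : Fin k → ℕ) (hA : Adm h) {l : ℕ} (hl : l.Prime) :
    ((univ.image (fun i => h i % l)).erase 0).card + 2 ≤ l := by
  obtain ⟨a, ha⟩ := hA l hl
  have hl2 := hl.two_le
  have ha0 : a % l ≠ 0 := by
    intro h0
    exact ha (Dvd.dvd.mul_right (Nat.dvd_of_mod_eq_zero h0) _)
  have hal : a % l < l := Nat.mod_lt _ (by omega)
  set b := l - a % l with hb
  have hsub : (univ.image (fun i => h i % l)).erase 0 ⊆ ((range l).erase 0).erase b := by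
    intro x hx
    rw [Finset.mem_erase, Finset.mem_image] at hx
    obtain ⟨hx0, i, -, hi⟩ := hx
    rw [Finset.mem_erase, Finset.mem_erase, Finset.mem_range]
    refine ⟨?_, hx0, ?_⟩
    · intro hxb
      apply ha
      apply Dvd.dvd.mul_left
      refine Dvd.dvd.trans ?_ (Finset.dvd_prod_of_mem (fun i => a + h i) (Finset.mem_univ i))
      apply Nat.dvd_of_mod_eq_zero
      rw [Nat.add_mod, hi, hxb, hb]
      have : a % l + (l - a % l) = l := by omega
      rw [this, Nat.mod_self]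
    · rw [← hi]; exact Nat.mod_lt _ (by omega)
  have h1 := Finset.card_le_card hsub
  have hmem0 : 0 ∈ range l := Finset.mem_range.2 (by omega)
  have hmemb : b ∈ (range l).erase 0 := by
    rw [Finset.mem_erase, Finset.mem_range]; omega
  rw [Finset.card_erase_of_mem hmemb, Finset.card_erase_of_mem hmem0, Finset.card_range] at h1
  omega

/-- The factor for the prime `l`. -/
def cl (k l : ℕ) : ℝ :=
  if l < 2 * k ^ 2 + 2 then 1 / ((2 * k ^ 2 + 2 : ℕ) : ℝ) else 1 - (k : ℝ) ^ 2 / ((l : ℝ) - 1) ^ 2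

lemma factor {k : ℕ} (hk : 1 ≤ k) (h : Fin k → ℕ) (hA : Adm h) {l : ℕ} (hl : l.Prime) :
    cl k l * (1 - 1 / (l : ℝ)) ^ k ≤ 1 - gd h l := by
  have hl2 : (2 : ℝ) ≤ l := by exact_mod_cast hl.two_le
  have hl1 : (0 : ℝ) < (l : ℝ) - 1 := by linarith
  have hinv : 1 / (l : ℝ) ≤ 1 / 2 := one_div_le_one_div_of_le (by norm_num) hl2
  have hinv0 : 0 < 1 / (l : ℝ) := by positivity
  unfold cl
  split_ifs with hlt
  · have h1 : (1 - 1 / (l : ℝ)) ^ k ≤ 1 := pow_le_one₀ (by linarith) (by linarith)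
    have h2 : (1 : ℝ) / ((2 * k ^ 2 + 2 : ℕ) : ℝ) ≤ 1 / ((l : ℝ) - 1) := by
      apply one_div_le_one_div_of_le hl1
      have : (l : ℝ) < ((2 * k ^ 2 + 2 : ℕ) : ℝ) := by exact_mod_cast hlt
      linarith
    have h3 : (0 : ℝ) ≤ 1 / ((2 * k ^ 2 + 2 : ℕ) : ℝ) := by positivity
    have h4 : gd h l ≤ 1 - 1 / ((l : ℝ) - 1) := by
      have h5 : ((((univ.image (fun i => h i % l)).erase 0).card : ℕ) : ℝ) + 2 ≤ l := by
        exact_mod_cast card_add_two_le h hA hl
      have h6 : gd h l ≤ ((l : ℝ) - 2) / ((l : ℝ) - 1) := by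
        unfold gd
        apply div_le_div_of_nonneg_right _ hl1.le
        linarith
      have h7 : ((l : ℝ) - 2) / ((l : ℝ) - 1) = 1 - 1 / ((l : ℝ) - 1) := by
        field_simp
        ring
      rw [← h7]; exact h6
    calc 1 / ((2 * k ^ 2 + 2 : ℕ) : ℝ) * (1 - 1 / (l : ℝ)) ^ k
        ≤ 1 / ((2 * k ^ 2 + 2 : ℕ) : ℝ) * 1 := mul_le_mul_of_nonneg_left h1 h3
      _ ≤ 1 / ((l : ℝ) - 1) := by rw [mul_one]; exact h2
      _ ≤ 1 - gd h l := by linarith
  · push Not at hlt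
    have hk' : (1 : ℝ) ≤ k := by exact_mod_cast hk
    have hlk : (2 : ℝ) * (k : ℝ) ^ 2 + 2 ≤ l := by exact_mod_cast hlt
    set t : ℝ := 1 / ((l : ℝ) - 1) with ht
    have ht0 : 0 < t := by positivity
    have hkt : (k : ℝ) * t ≤ 1 := by
      rw [ht, mul_one_div, div_le_one hl1]
      nlinarith
    have h1 : 1 + (k : ℝ) * t ≤ (1 + t) ^ k := one_add_mul_le_pow (by linarith) k
    have h2 : (1 + t) * (1 - 1 / (l : ℝ)) = 1 := by
      rw [ht]; field_simp; ring
    have h3 : (1 : ℝ) - (k : ℝ) ^ 2 / ((l : ℝ) - 1) ^ 2 = (1 - k * t) * (1 + k * t) := by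
      rw [ht]; field_simp; ring
    have h4 : gd h l ≤ k * t := by
      unfold gd
      rw [ht, mul_one_div]
      apply div_le_div_of_nonneg_right _ hl1.le
      exact_mod_cast card_le_k h l
    have h5 : (0 : ℝ) ≤ (1 - 1 / (l : ℝ)) ^ k := pow_nonneg (by linarith) k
    calc (1 - (k : ℝ) ^ 2 / ((l : ℝ) - 1) ^ 2) * (1 - 1 / (l : ℝ)) ^ k
        = (1 - k * t) * ((1 + k * t) * (1 - 1 / (l : ℝ)) ^ k) := by rw [h3]; ring
      _ ≤ (1 - k * t) * ((1 + t) ^ k * (1 - 1 / (l : ℝ)) ^ k) := by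
          apply mul_le_mul_of_nonneg_left _ (by linarith)
          exact mul_le_mul_of_nonneg_right h1 h5
      _ = 1 - k * t := by rw [← mul_pow, h2, one_pow, mul_one]
      _ ≤ 1 - gd h l := by linarith

lemma prod_one_sub (s : Finset ℕ) (a : ℕ → ℝ) (h0 : ∀ i ∈ s, 0 ≤ a i) (h1 : ∀ i ∈ s, a i ≤ 1) :
    1 - ∑ i ∈ s, a i ≤ ∏ i ∈ s, (1 - a i) := by
  classical
  induction s using Finset.induction_on with
  | empty => simp
  | insert j s hj ih =>
    rw [Finset.sum_insert hj, Finset.prod_insert hj]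
    have ih' := ih (fun i hi => h0 i (Finset.mem_insert_of_mem hi))
      (fun i hi => h1 i (Finset.mem_insert_of_mem hi))
    have hj0 := h0 j (Finset.mem_insert_self j s)
    have hj1 := h1 j (Finset.mem_insert_self j s)
    have hS : 0 ≤ ∑ i ∈ s, a i :=
      Finset.sum_nonneg fun i hi => h0 i (Finset.mem_insert_of_mem hi)
    have h2 : (1 - a j) * (1 - ∑ i ∈ s, a i) ≤ (1 - a j) * ∏ i ∈ s, (1 - a i) :=
      mul_le_mul_of_nonneg_left ih' (by linarith)
    nlinarith [mul_nonneg hj0 hS]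

lemma sum_tail (M : ℕ) (hM : 3 ≤ M) (N : ℕ) (hN : M ≤ N) :
    ∑ l ∈ Ico M N, 1 / ((l : ℝ) - 1) ^ 2 ≤ 1 / ((M : ℝ) - 2) - 1 / ((N : ℝ) - 2) := by
  induction N, hN using Nat.le_induction with
  | base => simp
  | succ N hN ih =>
    rw [Finset.sum_Ico_succ_top hN]
    have hN3 : (3 : ℝ) ≤ N := by exact_mod_cast hM.trans hN
    have h1 : 1 / ((N : ℝ) - 1) ^ 2 ≤ 1 / ((N : ℝ) - 2) - 1 / (((N + 1 : ℕ) : ℝ) - 2) := by
      have e1 : 1 / ((N : ℝ) - 2) - 1 / (((N + 1 : ℕ) : ℝ) - 2) = 1 / (((N : ℝ) - 2) * ((N : ℝ) - 1)) := by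
        push_cast
        have h2 : (N : ℝ) - 2 ≠ 0 := by linarith
        have h3 : (N : ℝ) + 1 - 2 ≠ 0 := by linarith
        have h4 : (N : ℝ) - 1 ≠ 0 := by linarith
        field_simp
        ring
      rw [e1]
      apply one_div_le_one_div_of_le
      · apply mul_pos <;> linarith
      · nlinarith
    linarith

lemma prod_cl {k : ℕ} (hk : 1 ≤ k) (z : ℝ) :
    (1 / ((2 * k ^ 2 + 2 : ℕ) : ℝ)) ^ (2 * k ^ 2 + 2) * (1 / 2) ≤ ∏ l ∈ PB z, cl k l := by
  classical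
  set M := 2 * k ^ 2 + 2 with hM
  have hk2 : 1 ≤ k ^ 2 := Nat.one_le_pow _ _ hk
  have hM4 : 4 ≤ M := by omega
  have hMpos : (0 : ℝ) < (M : ℝ) := by exact_mod_cast (by omega : 0 < M)
  have hM1 : 1 / (M : ℝ) ≤ 1 := by
    rw [div_le_one hMpos]; exact_mod_cast (by omega : 1 ≤ M)
  rw [← Finset.prod_filter_mul_prod_filter_not (PB z) (fun l => l < M)]
  apply mul_le_mul
  · have h1 : ∏ l ∈ (PB z).filter (fun l => l < M), cl k l
        = (1 / (M : ℝ)) ^ ((PB z).filter (fun l => l < M)).card := by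
      rw [← Finset.prod_const]
      refine Finset.prod_congr rfl fun l hl => ?_
      unfold cl
      rw [if_pos (Finset.mem_filter.1 hl).2]
    rw [h1]
    apply pow_le_pow_of_le_one (by positivity) hM1
    have : (PB z).filter (fun l => l < M) ⊆ range M := by
      intro l hl
      exact Finset.mem_range.2 (Finset.mem_filter.1 hl).2
    simpa using Finset.card_le_card this
  · have h1 : ∏ l ∈ (PB z).filter (fun l => ¬ l < M), cl k l
        = ∏ l ∈ (PB z).filter (fun l => ¬ l < M), (1 - (k : ℝ) ^ 2 / ((l : ℝ) - 1) ^ 2) := by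
      refine Finset.prod_congr rfl fun l hl => ?_
      unfold cl
      rw [if_neg (Finset.mem_filter.1 hl).2]
    rw [h1]
    have hge : ∀ l ∈ (PB z).filter (fun l => ¬ l < M), (M : ℝ) ≤ l := by
      intro l hl
      have := (Finset.mem_filter.1 hl).2
      exact_mod_cast not_lt.1 this
    have hMr : (M : ℝ) = 2 * (k : ℝ) ^ 2 + 2 := by rw [hM]; push_cast; ring
    have hk' : (1 : ℝ) ≤ k := by exact_mod_cast hk
    have h2 := prod_one_sub ((PB z).filter (fun l => ¬ l < M))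
      (fun l => (k : ℝ) ^ 2 / ((l : ℝ) - 1) ^ 2) (fun l _ => by positivity) (by
        intro l hl
        have h3 := hge l hl
        rw [hMr] at h3
        have h4 : (0 : ℝ) < (l : ℝ) - 1 := by nlinarith
        rw [div_le_one (by positivity)]
        have h5 : (k : ℝ) ≤ (l : ℝ) - 1 := by nlinarith
        nlinarith)
    refine le_trans ?_ h2
    have h3 : ∑ l ∈ (PB z).filter (fun l => ¬ l < M), (k : ℝ) ^ 2 / ((l : ℝ) - 1) ^ 2 ≤ 1 / 2 := by
      have h4 : ∑ l ∈ (PB z).filter (fun l => ¬ l < M), (k : ℝ) ^ 2 / ((l : ℝ) - 1) ^ 2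
          ≤ ∑ l ∈ Ico M (max M ⌈z⌉₊), (k : ℝ) ^ 2 / ((l : ℝ) - 1) ^ 2 := by
        apply Finset.sum_le_sum_of_subset_of_nonneg
        · intro l hl
          rw [Finset.mem_filter] at hl
          have hl1 : l ∈ (range ⌈z⌉₊).filter Nat.Prime := hl.1
          rw [Finset.mem_filter, Finset.mem_range] at hl1
          rw [Finset.mem_Ico]
          exact ⟨not_lt.1 hl.2, lt_of_lt_of_le hl1.1 (le_max_right _ _)⟩
        · intro l _ _; positivity
      have h5 : ∑ l ∈ Ico M (max M ⌈z⌉₊), (k : ℝ) ^ 2 / ((l : ℝ) - 1) ^ 2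
          = (k : ℝ) ^ 2 * ∑ l ∈ Ico M (max M ⌈z⌉₊), 1 / ((l : ℝ) - 1) ^ 2 := by
        rw [Finset.mul_sum]
        refine Finset.sum_congr rfl fun l _ => ?_
        rw [mul_one_div]
      have h6 := sum_tail M (by omega) (max M ⌈z⌉₊) (le_max_left _ _)
      have h7 : (0 : ℝ) ≤ 1 / (((max M ⌈z⌉₊ : ℕ) : ℝ) - 2) := by
        have : (M : ℝ) ≤ ((max M ⌈z⌉₊ : ℕ) : ℝ) := by exact_mod_cast le_max_left _ _
        have h8 : (4 : ℝ) ≤ M := by exact_mod_cast hM4
        apply div_nonneg zero_le_one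
        linarith
      have h8 : ∑ l ∈ Ico M (max M ⌈z⌉₊), 1 / ((l : ℝ) - 1) ^ 2 ≤ 1 / ((M : ℝ) - 2) := by linarith
      have h9 : (k : ℝ) ^ 2 * (1 / ((M : ℝ) - 2)) = 1 / 2 := by
        rw [hMr]
        have : (k : ℝ) ≠ 0 := by linarith
        field_simp
        ring
      calc _ ≤ _ := h4
        _ = _ := h5
        _ ≤ (k : ℝ) ^ 2 * (1 / ((M : ℝ) - 2)) := mul_le_mul_of_nonneg_left h8 (by positivity)
        _ = 1 / 2 := h9
    linarith
  · norm_num
  · apply Finset.prod_nonneg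
    intro l hl
    unfold cl
    rw [if_pos (Finset.mem_filter.1 hl).2]
    positivity

lemma cl_nonneg {k : ℕ} (hk : 1 ≤ k) (l : ℕ) : 0 ≤ cl k l := by
  unfold cl
  split_ifs with h
  · positivity
  · push Not at h
    have h1 : (2 : ℝ) * (k : ℝ) ^ 2 + 2 ≤ l := by exact_mod_cast h
    have hk' : (1 : ℝ) ≤ k := by exact_mod_cast hk
    have h4 : (0 : ℝ) < (l : ℝ) - 1 := by nlinarith
    rw [sub_nonneg, div_le_one (by positivity)]
    have h5 : (k : ℝ) ≤ (l : ℝ) - 1 := by nlinarith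
    nlinarith

end SSLM

open SSLM in
theorem specSSL : SpecSSL := by
  intro k hk
  refine ⟨(1 / ((2 * k ^ 2 + 2 : ℕ) : ℝ)) ^ (2 * k ^ 2 + 2) * (1 / 2), by positivity, ?_⟩
  intro h z _ hA
  have hprime : ∀ l ∈ PB z, l.Prime := by
    intro l hl
    have : l ∈ (range ⌈z⌉₊).filter Nat.Prime := hl
    exact (Finset.mem_filter.1 this).2
  have hf0 : ∀ l ∈ PB z, (0 : ℝ) ≤ 1 - 1 / (l : ℝ) := by
    intro l hl
    have hl2 : (2 : ℝ) ≤ l := by exact_mod_cast (hprime l hl).two_le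
    have : 1 / (l : ℝ) ≤ 1 / 2 := one_div_le_one_div_of_le (by norm_num) hl2
    linarith
  have hW : 0 ≤ Wp z ^ k := by
    apply pow_nonneg
    exact Finset.prod_nonneg hf0
  calc (1 / ((2 * k ^ 2 + 2 : ℕ) : ℝ)) ^ (2 * k ^ 2 + 2) * (1 / 2) * Wp z ^ k
      ≤ (∏ l ∈ PB z, cl k l) * Wp z ^ k := mul_le_mul_of_nonneg_right (prod_cl hk z) hW
    _ = ∏ l ∈ PB z, cl k l * (1 - 1 / (l : ℝ)) ^ k := by
        rw [Finset.prod_mul_distrib, Finset.prod_pow]; rfl
    _ ≤ ∏ l ∈ PB z, (1 - gd h l) := by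
        apply Finset.prod_le_prod
        · intro l hl
          exact mul_nonneg (cl_nonneg hk l) (pow_nonneg (hf0 l hl) k)
        · intro l hl
          exact factor hk h hA (hprime l hl)

end

end Pool.Agent.Lib.MP3efbeb.LG
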