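import Pool.Agent.Lib.MP_3efbeb_nt.LG.SpecA

/-!
# LongPatterns, module TEL: telescoping over the members of a pattern
-/

set_option autoImplicit false

namespace Pool.Agent.Lib.MP3efbeb.LG

open Finset

namespace TELM

theorem sum_blocks (f : ℕ → ℝ) (B Q : ℕ) :
    ∑ y ∈ range (Q * B), f y = ∑ q ∈ range Q, ∑ h ∈ range B, f (q * B + h) := by
  induction Q with
  | zero => simp
  | succ Q ih =>
    rw [Nat.succ_mul, Finset.sum_range_add, ih, Finset.sum_range_succ]

/-- sum over an interval by blocks -/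
theorem block (D : ℕ → ℝ) (hD : ∀ x, 0 ≤ D x) (H₀ H : ℕ) (Γ : ℝ) (h0 : 1 ≤ H₀) (h1 : H₀ ≤ H)
    (h : ∀ b, b ≤ 2 * H → ∑ x ∈ range H₀, D (b + x) ^ 2 ≤ Γ) :
    ∑ x ∈ Icc 1 H, D x ≤ 2 * (H : ℝ) * √(Γ / H₀) := by
  have hH0 : (0 : ℝ) < H₀ := by exact_mod_cast h0
  set Q := (H - 1) / H₀ + 1 with hQ
  have h2 := Nat.div_add_mod (H - 1) H₀
  have h3 := Nat.mod_lt (H - 1) (show 0 < H₀ by omega)
  have hcomm : (H - 1) / H₀ * H₀ = H₀ * ((H - 1) / H₀) := mul_comm _ _
  have hQH : H ≤ Q * H₀ := by
    rw [hQ, Nat.add_mul, one_mul, hcomm]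
    omega
  have e1 : ∑ x ∈ Icc 1 H, D x = ∑ y ∈ range H, D (1 + y) := by
    have : Icc 1 H = Ico 1 (H + 1) := by
      ext
      simp only [mem_Icc, mem_Ico]
      omega
    rw [this, Finset.sum_Ico_eq_sum_range, Nat.add_sub_cancel]
  have e2 : ∑ y ∈ range H, D (1 + y) ≤ ∑ y ∈ range (Q * H₀), D (1 + y) :=
    sum_le_sum_of_subset_of_nonneg (range_subset_range.2 hQH) fun y _ _ => hD _
  have e3 : ∀ q ∈ range Q, ∑ x ∈ range H₀, D (1 + (q * H₀ + x)) ≤ √(H₀ * Γ) := by
    intro q hq
    rw [mem_range, hQ] at hq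
    have hqb : q * H₀ ≤ H - 1 := by
      calc q * H₀ ≤ (H - 1) / H₀ * H₀ := Nat.mul_le_mul_right _ (by omega)
        _ ≤ H - 1 := Nat.div_mul_le_self _ _
    apply Real.le_sqrt_of_sq_le
    have e4 := sq_sum_le_card_mul_sum_sq (s := range H₀) (f := fun x => D (1 + (q * H₀ + x)))
    rw [card_range] at e4
    refine e4.trans (mul_le_mul_of_nonneg_left ?_ hH0.le)
    have e5 := h (1 + q * H₀) (by omega)
    simpa only [add_assoc] using e5
  have e6 : ∑ y ∈ range (Q * H₀), D (1 + y) ≤ Q * √(H₀ * Γ) := by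
    rw [sum_blocks (fun y => D (1 + y)) H₀ Q]
    calc ∑ q ∈ range Q, ∑ x ∈ range H₀, D (1 + (q * H₀ + x)) ≤ ∑ q ∈ range Q, √(H₀ * Γ) :=
          sum_le_sum e3
      _ = Q * √(H₀ * Γ) := by rw [sum_const, card_range, nsmul_eq_mul]
  have e7 : √(H₀ * Γ) = H₀ * √(Γ / H₀) := by
    have : (H₀ : ℝ) * Γ = (H₀ : ℝ) ^ 2 * (Γ / H₀) := by
      field_simp
    rw [this, Real.sqrt_mul (by positivity), Real.sqrt_sq hH0.le]
  have e8 : (Q : ℝ) * H₀ ≤ 2 * H := by
    have : Q * H₀ ≤ 2 * H := by
      rw [hQ, Nat.add_mul, one_mul, hcomm]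
      omega
    exact_mod_cast this
  rw [e1]
  refine (e2.trans e6).trans ?_
  rw [e7, ← mul_assoc]
  exact mul_le_mul_of_nonneg_right e8 (Real.sqrt_nonneg _)

/-- sum over the box, coordinate `j` first -/
theorem sum_box (k H : ℕ) (j : Fin k) (f : (Fin k → ℕ) → ℝ) :
    ∑ h ∈ Fintype.piFinset (fun _ : Fin k => Icc 1 H), f h =
      ∑ h ∈ Fintype.piFinset (fun i : Fin k => if i = j then {1} else Icc 1 H),
        ∑ x ∈ Icc 1 H, f (Function.update h j x) := by
  rw [← Finset.sum_product']
  refine Finset.sum_nbij' (fun h => (Function.update h j 1, h j))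
    (fun p => Function.update p.1 j p.2) ?_ ?_ ?_ ?_ ?_
  · intro h hh
    rw [Fintype.mem_piFinset] at hh
    rw [mem_product, Fintype.mem_piFinset]
    refine ⟨fun i => ?_, hh j⟩
    by_cases hij : i = j
    · subst hij
      simp
    · simpa [hij] using hh i
  · rintro ⟨h, x⟩ hh
    rw [mem_product, Fintype.mem_piFinset] at hh
    rw [Fintype.mem_piFinset]
    intro i
    by_cases hij : i = j
    · subst hij
      simpa using hh.2
    · have := hh.1 i
      simpa [hij] using this
  · intro h _
    simp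
  · rintro ⟨h, x⟩ hh
    rw [mem_product, Fintype.mem_piFinset] at hh
    have h1 : h j = 1 := by
      have := hh.1 j
      simpa using this
    ext i
    · by_cases hij : i = j
      · subst hij
        simp [h1]
      · simp [hij]
    · simp
  · intro h _
    simp

theorem card_box (k H : ℕ) (j : Fin k) :
    (Fintype.piFinset (fun i : Fin k => if i = j then ({1} : Finset ℕ) else Icc 1 H)).card =
      H ^ (k - 1) := by
  rw [Fintype.card_piFinset]
  have h : ∀ i : Fin k, (if i = j then ({1} : Finset ℕ) else Icc 1 H).card =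
      if i = j then 1 else H := by
    intro i
    split_ifs <;> simp
  rw [Finset.prod_congr rfl (fun i _ => h i), Finset.prod_ite, prod_const_one, one_mul,
    prod_const, Finset.filter_ne', card_erase_of_mem (mem_univ _), card_univ, Fintype.card_fin]

theorem abs_prod_le {ι : Type} (s : Finset ι) (f : ι → ℝ) (C : ℝ) (h : ∀ i, |f i| ≤ C) :
    |∏ i ∈ s, f i| ≤ C ^ s.card := by
  rw [Finset.abs_prod]
  calc ∏ i ∈ s, |f i| ≤ ∏ _i ∈ s, C := Finset.prod_le_prod (fun i _ => abs_nonneg _) fun i _ => h i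
    _ = C ^ s.card := prod_const _

end TELM

theorem specTEL : SpecTEL := by
  intro k F G N H₀ H C₁ Γ hC h0 h1 hΓ hF hG hyp P hP
  have hC0 : (0 : ℝ) < C₁ := by linarith
  have hCk : (0 : ℝ) < C₁ ^ k := by positivity
  -- telescoping
  have htel : ∀ (h : Fin k → ℕ) (n : ℕ), ∏ i, F i (n + h i) - ∏ i, G i (n + h i) =
      ∑ i, ((F i (n + h i) - G i (n + h i)) * ∏ j with j < i, F j (n + h j)) *
        ∏ j with i < j, G j (n + h j) := by
    intro h n
    have e := Finset.prod_add_ordered (univ : Finset (Fin k)) (fun i => G i (n + h i))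
      (fun i => F i (n + h i) - G i (n + h i))
    simp only [add_sub_cancel] at e
    rw [e]
    ring
  -- one coordinate
  have hone : ∀ (j : Fin k) (h : Fin k → ℕ),
      ∑ x ∈ Icc 1 H, |∑ n ∈ Ioc N (2 * N), P n *
        (((F j (n + x) - G j (n + x)) * ∏ i with i < j, F i (n + h i)) *
          ∏ i with j < i, G i (n + h i))| ≤ C₁ ^ k * (2 * (H : ℝ) * √(Γ / H₀)) := by
    intro j h
    let g : ℕ → ℝ := fun n => P n * (∏ i with i < j, F i (n + h i)) *
      (∏ i with j < i, G i (n + h i)) / C₁ ^ k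
    have hg : ∀ n, |g n| ≤ 1 := by
      intro n
      simp only [g]
      rw [abs_div, abs_mul, abs_mul, abs_of_pos hCk, div_le_one hCk]
      have a1 := TELM.abs_prod_le (univ.filter (fun i : Fin k => i < j))
        (fun i => F i (n + h i)) C₁ (fun i => hF i _)
      have a2 := TELM.abs_prod_le (univ.filter (fun i : Fin k => j < i))
        (fun i => G i (n + h i)) C₁ (fun i => hG i _)
      have a3 : (univ.filter (fun i : Fin k => i < j)).card +
          (univ.filter (fun i : Fin k => j < i)).card ≤ k := by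
        rw [← Finset.card_union_of_disjoint]
        · exact (card_le_univ _).trans (by rw [Fintype.card_fin])
        · rw [Finset.disjoint_filter]
          intro i _ hi hi'
          exact lt_asymm hi hi'
      calc |P n| * |∏ i with i < j, F i (n + h i)| * |∏ i with j < i, G i (n + h i)|
          ≤ 1 * C₁ ^ (univ.filter (fun i : Fin k => i < j)).card *
              C₁ ^ (univ.filter (fun i : Fin k => j < i)).card := by
            apply mul_le_mul (mul_le_mul (hP n) a1 (abs_nonneg _) zero_le_one) a2 (abs_nonneg _)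
            positivity
        _ ≤ C₁ ^ k := by
            rw [one_mul, ← pow_add]
            exact pow_le_pow_right₀ hC a3
    have hb := TELM.block (fun x => |∑ n ∈ Ioc N (2 * N), g n * (F j (n + x) - G j (n + x))|)
      (fun x => abs_nonneg _) H₀ H Γ h0 h1 (by
        intro b hb
        have := hyp j g b hg hb
        simpa only [sq_abs, add_assoc] using this)
    refine le_trans (le_of_eq ?_) (mul_le_mul_of_nonneg_left hb hCk.le)
    rw [mul_sum]
    refine sum_congr rfl fun x _ => ?_
    have hsum : ∑ n ∈ Ioc N (2 * N), P n *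
        (((F j (n + x) - G j (n + x)) * ∏ i with i < j, F i (n + h i)) *
          ∏ i with j < i, G i (n + h i)) =
        C₁ ^ k * ∑ n ∈ Ioc N (2 * N), g n * (F j (n + x) - G j (n + x)) := by
      rw [mul_sum]
      refine sum_congr rfl fun n _ => ?_
      simp only [g]
      field_simp
    rw [hsum, abs_mul, abs_of_pos hCk]
  -- sum
  have hj : ∀ j : Fin k, ∑ h ∈ Fintype.piFinset (fun _ : Fin k => Icc 1 H),
      |∑ n ∈ Ioc N (2 * N), P n *
        (((F j (n + h j) - G j (n + h j)) * ∏ i with i < j, F i (n + h i)) *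
          ∏ i with j < i, G i (n + h i))| ≤
        (H : ℝ) ^ (k - 1) * (C₁ ^ k * (2 * (H : ℝ) * √(Γ / H₀))) := by
    intro j
    rw [TELM.sum_box k H j]
    calc _ ≤ ∑ h ∈ Fintype.piFinset (fun i : Fin k => if i = j then ({1} : Finset ℕ) else Icc 1 H),
          (C₁ ^ k * (2 * (H : ℝ) * √(Γ / H₀))) := by
          refine sum_le_sum fun h _ => ?_
          refine le_trans (le_of_eq ?_) (hone j h)
          refine sum_congr rfl fun x _ => ?_
          congr 1
          refine sum_congr rfl fun n _ => ?_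
          have b1 : ∏ i with i < j, F i (n + Function.update h j x i) =
              ∏ i with i < j, F i (n + h i) := by
            refine prod_congr rfl fun i hi => ?_
            rw [mem_filter] at hi
            rw [Function.update_of_ne (ne_of_lt hi.2)]
          have b2 : ∏ i with j < i, G i (n + Function.update h j x i) =
              ∏ i with j < i, G i (n + h i) := by
            refine prod_congr rfl fun i hi => ?_
            rw [mem_filter] at hi
            rw [Function.update_of_ne (ne_of_gt hi.2)]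
          rw [b1, b2, Function.update_self]
      _ = _ := by
          rw [sum_const, TELM.card_box, nsmul_eq_mul]
          push_cast
          ring
  calc ∑ h ∈ Fintype.piFinset (fun _ : Fin k => Icc 1 H),
        |∑ n ∈ Ioc N (2 * N), P n * (∏ i, F i (n + h i) - ∏ i, G i (n + h i))|
      ≤ ∑ h ∈ Fintype.piFinset (fun _ : Fin k => Icc 1 H), ∑ j : Fin k,
          |∑ n ∈ Ioc N (2 * N), P n *
            (((F j (n + h j) - G j (n + h j)) * ∏ i with i < j, F i (n + h i)) *
              ∏ i with j < i, G i (n + h i))| := by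
        refine sum_le_sum fun h _ => ?_
        have e : ∑ n ∈ Ioc N (2 * N), P n * (∏ i, F i (n + h i) - ∏ i, G i (n + h i)) =
            ∑ j : Fin k, ∑ n ∈ Ioc N (2 * N), P n *
              (((F j (n + h j) - G j (n + h j)) * ∏ i with i < j, F i (n + h i)) *
                ∏ i with j < i, G i (n + h i)) := by
          rw [sum_comm]
          refine sum_congr rfl fun n _ => ?_
          rw [htel, mul_sum]
        rw [e]
        exact abs_sum_le_sum_abs _ _
    _ = ∑ j : Fin k, ∑ h ∈ Fintype.piFinset (fun _ : Fin k => Icc 1 H),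
          |∑ n ∈ Ioc N (2 * N), P n *
            (((F j (n + h j) - G j (n + h j)) * ∏ i with i < j, F i (n + h i)) *
              ∏ i with j < i, G i (n + h i))| := sum_comm
    _ ≤ ∑ _j : Fin k, (H : ℝ) ^ (k - 1) * (C₁ ^ k * (2 * (H : ℝ) * √(Γ / H₀))) :=
        sum_le_sum fun j _ => hj j
    _ = k * C₁ ^ k * (2 * (H : ℝ)) * H ^ (k - 1) * √(Γ / H₀) := by
        rw [sum_const, card_univ, Fintype.card_fin, nsmul_eq_mul]
        ring

end Pool.Agent.Lib.MP3efbeb.LG
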