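import Pool.Agent.Lib.MP_3efbeb_nt.LG.SpecA

/-!
# TWO: the fourth moment (from exponential sums over short intervals to correlations)
-/

set_option autoImplicit false

namespace Pool.Agent.Lib.MP3efbeb.LG

open Finset

noncomputable section

namespace TWOM

lemma ee_add (x y : ℝ) : ee (x + y) = ee x * ee y := by
  unfold ee
  rw [← Complex.exp_add]
  congr 1
  push_cast
  ring

lemma ee_zero : ee 0 = 1 := by simp [ee]

lemma conj_ee (x : ℝ) : (starRingEnd ℂ) (ee x) = ee (-x) := by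
  unfold ee
  rw [← Complex.exp_conj]
  congr 1
  simp only [map_mul, Complex.conj_ofReal, Complex.conj_I, map_ofNat]
  push_cast
  ring

lemma ee_nat_mul (k : ℕ) (x : ℝ) : ee (k * x) = ee x ^ k := by
  unfold ee
  rw [← Complex.exp_nat_mul]
  congr 1
  push_cast
  ring

/-- orthogonality -/
lemma orth (P : ℕ) (hP : 0 < P) (m : ℤ) (hm : |m| < P) :
    ∑ b ∈ range P, ee ((b : ℝ) / P * m) = if m = 0 then (P : ℂ) else 0 := by
  split_ifs with h
  · subst h
    simp [ee_zero]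
  · have hP' : (P : ℝ) ≠ 0 := by positivity
    have h1 : ∀ b ∈ range P, ee ((b : ℝ) / P * m) = ee ((m : ℝ) / P) ^ b := by
      intro b _
      rw [← ee_nat_mul]
      congr 1
      ring
    rw [sum_congr rfl h1]
    have h2 : ee ((m : ℝ) / P) ^ P = 1 := by
      rw [← ee_nat_mul]
      have h3 : (P : ℝ) * ((m : ℝ) / P) = m := by field_simp
      rw [h3]
      unfold ee
      rw [Complex.exp_eq_one_iff]
      exact ⟨m, by push_cast; ring⟩
    have h3 : ee ((m : ℝ) / P) ≠ 1 := by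
      intro h4
      unfold ee at h4
      rw [Complex.exp_eq_one_iff] at h4
      obtain ⟨k, hk⟩ := h4
      have h5 : ((m : ℝ) / P) = k := by
        have h6 : (2 * Real.pi * Complex.I : ℂ) ≠ 0 := Complex.two_pi_I_ne_zero
        have h7 : (((m : ℝ) / P : ℝ) : ℂ) = ((k : ℝ) : ℂ) := by
          apply mul_right_cancel₀ h6
          rw [Complex.ofReal_intCast]
          linear_combination hk
        exact_mod_cast h7
      have h8 : (m : ℝ) = k * P := by
        field_simp at h5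
        linarith
      have h9 : m = k * P := by exact_mod_cast h8
      have h10 : k ≠ 0 := by
        rintro rfl
        exact h (by simpa using h9)
      have h11 : 1 ≤ |k| := Int.one_le_abs h10
      have h12 : |m| = |k| * P := by rw [h9, abs_mul, Nat.abs_cast]
      have h13 : (0 : ℤ) < P := by exact_mod_cast hP
      nlinarith
    rw [geom_sum_eq h3, h2]
    simp

variable (e : ℕ → ℝ) (H X : ℕ)

/-- the correlation, with its weight -/
def D (h : ℕ) : ℝ := ((H : ℝ) - h) * ∑ n ∈ range (X + 1), e n * e (n + h)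

/-- the mean square of the windows -/
def F (α : ℝ) : ℝ := ∑ j ∈ range (X + 1), ‖∑ n ∈ Ioc j (j + H), (e n : ℂ) * ee (α * n)‖ ^ 2

variable {e H X}

lemma F_nonneg (α : ℝ) : 0 ≤ F e H X α := sum_nonneg fun _ _ => by positivity

/-- the expansion of the square -/
lemma F_exp (α : ℝ) : ((F e H X α : ℝ) : ℂ) = ∑ j ∈ range (X + 1), ∑ n ∈ Ioc j (j + H),
    ∑ m ∈ Ioc j (j + H), ((e n * e m : ℝ) : ℂ) * ee (α * ((n : ℝ) - m)) := by
  unfold F
  push_cast
  refine sum_congr rfl fun j _ => ?_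
  rw [← Complex.mul_conj', map_sum, sum_mul_sum]
  refine sum_congr rfl fun n _ => sum_congr rfl fun m _ => ?_
  rw [map_mul, Complex.conj_ofReal, conj_ee]
  have h1 : α * ((n : ℝ) - m) = α * n + -(α * m) := by ring
  rw [h1, ee_add]
  ring

/-- the number of the windows -/
lemma count (he : ∀ n, e n ≠ 0 → H < n ∧ n ≤ X) (h : ℕ) (hh : h ≤ H) :
    ∑ j ∈ range (X + 1), ∑ m ∈ Ioc j (j + H), (if m + h ≤ j + H then e m * e (m + h) else 0) =
      D e H X h := by
  have h1 : ∀ j ∈ range (X + 1), ∑ m ∈ Ioc j (j + H), (if m + h ≤ j + H then e m * e (m + h) else 0) =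
      ∑ m ∈ range (X + 1), (if j < m ∧ m + h ≤ j + H then e m * e (m + h) else 0) := by
    intro j _
    rw [← sum_filter, ← sum_filter]
    have h2 : ((Ioc j (j + H)).filter fun m => m + h ≤ j + H) ⊆ Ioc j (j + H) := filter_subset _ _
    -- both are sums over the larger set of the `m` with `j < m`, `m + h ≤ j + H`
    have h3 : ((range (X + 1)).filter fun m => j < m ∧ m + h ≤ j + H) ⊆
        ((Ioc j (j + H)).filter fun m => m + h ≤ j + H) := by
      intro m hm
      simp only [mem_filter, mem_range, mem_Ioc] at hm ⊢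
      omega
    symm
    apply sum_subset h3
    intro m hm1 hm2
    simp only [mem_filter, mem_range, mem_Ioc] at hm1 hm2
    have h4 : e m = 0 := by
      by_contra h5
      have := he m h5
      apply hm2
      omega
    rw [h4, zero_mul]
  rw [sum_congr rfl h1, sum_comm]
  unfold D
  rw [mul_sum]
  refine sum_congr rfl fun m _ => ?_
  by_cases hm : e m = 0
  · simp [hm]
  · obtain ⟨h2, h3⟩ := he m hm
    rw [← sum_filter, sum_const, nsmul_eq_mul]
    have h4 : ((range (X + 1)).filter fun j => j < m ∧ m + h ≤ j + H) = Ico (m + h - H) m := by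
      ext j
      simp only [mem_filter, mem_range, mem_Ico]
      omega
    rw [h4, Nat.card_Ico]
    have h5 : m - (m + h - H) = H - h := by omega
    rw [h5, Nat.cast_sub hh]

/-- the Fourier coefficients of `b ↦ F (b / P)` -/
lemma coef (he : ∀ n, e n ≠ 0 → H < n ∧ n ≤ X) (hH : 1 ≤ H) (h : ℕ) (hh : h ≤ H) :
    ∑ b ∈ range (2 * H), ((F e H X ((b : ℝ) / (2 * H : ℕ)) : ℝ) : ℂ) * ee (-((b : ℝ) / (2 * H : ℕ) * h)) =
      ((((2 * H : ℕ) : ℝ) * D e H X h : ℝ) : ℂ) := by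
  have h1 : ∀ b ∈ range (2 * H), ((F e H X ((b : ℝ) / (2 * H : ℕ)) : ℝ) : ℂ) *
      ee (-((b : ℝ) / (2 * H : ℕ) * h)) = ∑ j ∈ range (X + 1), ∑ m ∈ Ioc j (j + H),
      ∑ n ∈ Ioc j (j + H), ((e n * e m : ℝ) : ℂ) *
        ee ((b : ℝ) / (2 * H : ℕ) * (((n : ℤ) - m - h : ℤ) : ℝ)) := by
    intro b _
    rw [F_exp, sum_mul]
    refine sum_congr rfl fun j _ => ?_
    rw [sum_comm, sum_mul]
    refine sum_congr rfl fun m _ => ?_
    rw [sum_mul]
    refine sum_congr rfl fun n _ => ?_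
    have h2 : (b : ℝ) / (2 * H : ℕ) * (((n : ℤ) - m - h : ℤ) : ℝ) =
        (b : ℝ) / (2 * H : ℕ) * ((n : ℝ) - m) + -((b : ℝ) / (2 * H : ℕ) * h) := by
      push_cast
      ring
    rw [h2, ee_add]
    ring
  rw [sum_congr rfl h1, sum_comm]
  rw [← count he h hh]
  push_cast
  rw [mul_sum]
  refine sum_congr rfl fun j _ => ?_
  rw [sum_comm, mul_sum]
  refine sum_congr rfl fun m hm => ?_
  rw [sum_comm]
  have h3 : ∀ n ∈ Ioc j (j + H), ∑ b ∈ range (2 * H), ((e n : ℂ) * (e m : ℂ)) *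
      ee ((b : ℝ) / (2 * (H : ℝ)) * ((n : ℝ) - m - h)) =
      if n = m + h then (2 * (H : ℂ)) * ((e n : ℂ) * (e m : ℂ)) else 0 := by
    intro n hn
    rw [mem_Ioc] at hm hn
    rw [← mul_sum]
    have h4 := orth (2 * H) (by omega) ((n : ℤ) - m - h) (by
      rw [abs_lt]
      push_cast
      constructor <;> omega)
    push_cast at h4
    rw [h4]
    by_cases h5 : n = m + h
    · rw [if_pos h5, if_pos (by omega)]
      ring
    · rw [if_neg h5, if_neg (by omega), mul_zero]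
  rw [sum_congr rfl h3, sum_ite_eq']
  rw [mem_Ioc] at hm
  by_cases h6 : m + h ≤ j + H
  · rw [if_pos h6, if_pos (by rw [mem_Ioc]; omega)]
    push_cast
    ring
  · rw [if_neg h6, if_neg (by rw [mem_Ioc]; omega)]
    simp

/-- the trigonometric polynomial of the coefficients -/
def K (e : ℕ → ℝ) (H X : ℕ) (b : ℕ) : ℂ :=
  ∑ h ∈ range (H / 2 + 1), (D e H X h : ℂ) * ee (-((b : ℝ) / (2 * H : ℕ) * h))

/-- the sum of the squares of the coefficients -/
def T (e : ℕ → ℝ) (H X : ℕ) : ℝ := ∑ h ∈ range (H / 2 + 1), D e H X h ^ 2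

lemma sum_FK (he : ∀ n, e n ≠ 0 → H < n ∧ n ≤ X) (hH : 1 ≤ H) :
    ∑ b ∈ range (2 * H), F e H X ((b : ℝ) / (2 * H : ℕ)) * (K e H X b).re =
      ((2 * H : ℕ) : ℝ) * T e H X := by
  have h1 : ∑ b ∈ range (2 * H), ((F e H X ((b : ℝ) / (2 * H : ℕ)) : ℝ) : ℂ) * K e H X b =
      ((((2 * H : ℕ) : ℝ) * T e H X : ℝ) : ℂ) := by
    unfold K
    have h2 : ∀ b ∈ range (2 * H), ((F e H X ((b : ℝ) / (2 * H : ℕ)) : ℝ) : ℂ) *
        ∑ h ∈ range (H / 2 + 1), (D e H X h : ℂ) * ee (-((b : ℝ) / (2 * H : ℕ) * h)) =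
        ∑ h ∈ range (H / 2 + 1), (D e H X h : ℂ) * (((F e H X ((b : ℝ) / (2 * H : ℕ)) : ℝ) : ℂ) *
          ee (-((b : ℝ) / (2 * H : ℕ) * h))) := by
      intro b _
      rw [mul_sum]
      refine sum_congr rfl fun h _ => ?_
      ring
    rw [sum_congr rfl h2, sum_comm]
    have h3 : ∀ h ∈ range (H / 2 + 1), ∑ b ∈ range (2 * H), (D e H X h : ℂ) *
        (((F e H X ((b : ℝ) / (2 * H : ℕ)) : ℝ) : ℂ) * ee (-((b : ℝ) / (2 * H : ℕ) * h))) =
        ((((2 * H : ℕ) : ℝ) * D e H X h ^ 2 : ℝ) : ℂ) := by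
      intro h hh
      rw [mem_range] at hh
      rw [← mul_sum, coef he hH h (by omega)]
      push_cast
      ring
    rw [sum_congr rfl h3]
    unfold T
    rw [mul_sum]
    push_cast
    rfl
  have h2 := congrArg Complex.re h1
  rw [Complex.ofReal_re, Complex.re_sum] at h2
  rw [← h2]
  refine sum_congr rfl fun b _ => ?_
  rw [Complex.re_ofReal_mul]

lemma sum_KK (hH : 1 ≤ H) :
    ∑ b ∈ range (2 * H), ‖K e H X b‖ ^ 2 = ((2 * H : ℕ) : ℝ) * T e H X := by
  have h1 : ∑ b ∈ range (2 * H), ((‖K e H X b‖ : ℂ)) ^ 2 = ((((2 * H : ℕ) : ℝ) * T e H X : ℝ) : ℂ) := by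
    have h2 : ∀ b ∈ range (2 * H), ((‖K e H X b‖ : ℂ)) ^ 2 = ∑ h ∈ range (H / 2 + 1),
        ∑ k ∈ range (H / 2 + 1), ((D e H X h * D e H X k : ℝ) : ℂ) *
          ee ((b : ℝ) / (2 * H : ℕ) * (((k : ℤ) - h : ℤ) : ℝ)) := by
      intro b _
      rw [← Complex.mul_conj']
      unfold K
      rw [map_sum, sum_mul_sum]
      refine sum_congr rfl fun h _ => sum_congr rfl fun k _ => ?_
      rw [map_mul, Complex.conj_ofReal, conj_ee, neg_neg]
      have h3 : (b : ℝ) / (2 * H : ℕ) * (((k : ℤ) - h : ℤ) : ℝ) =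
          -((b : ℝ) / (2 * H : ℕ) * h) + (b : ℝ) / (2 * H : ℕ) * k := by
        push_cast
        ring
      rw [h3, ee_add]
      push_cast
      ring
    rw [sum_congr rfl h2, sum_comm]
    unfold T
    rw [mul_sum]
    push_cast
    refine sum_congr rfl fun h hh => ?_
    rw [sum_comm]
    have h4 : ∀ k ∈ range (H / 2 + 1), ∑ b ∈ range (2 * H), ((D e H X h : ℂ) * (D e H X k : ℂ)) *
        ee ((b : ℝ) / (2 * (H : ℝ)) * ((k : ℝ) - h)) =
        if k = h then (2 * (H : ℂ)) * ((D e H X h : ℂ) * (D e H X k : ℂ)) else 0 := by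
      intro k hk
      rw [mem_range] at hk hh
      rw [← mul_sum]
      have h5 := orth (2 * H) (by omega) ((k : ℤ) - h) (by
        rw [abs_lt]
        push_cast
        constructor <;> omega)
      push_cast at h5
      rw [h5]
      by_cases h6 : k = h
      · rw [if_pos h6, if_pos (by omega)]
        ring
      · rw [if_neg h6, if_neg (by omega), mul_zero]
    rw [sum_congr rfl h4, sum_ite_eq', if_pos hh]
    ring
  exact_mod_cast h1

end TWOM

open TWOM in
theorem specTWO : SpecTWO := by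
  intro e H X G hH he hG
  have hHr : (0 : ℝ) < H := by exact_mod_cast hH
  have hPr : (0 : ℝ) < ((2 * H : ℕ) : ℝ) := by push_cast; linarith
  -- Bessel's inequality
  have h1 : ((2 * H : ℕ) : ℝ) * T e H X ≤
      ∑ b ∈ range (2 * H), F e H X ((b : ℝ) / (2 * H : ℕ)) ^ 2 := by
    have h2 : 0 ≤ ∑ b ∈ range (2 * H),
        ‖((F e H X ((b : ℝ) / (2 * H : ℕ)) : ℝ) : ℂ) - K e H X b‖ ^ 2 :=
      sum_nonneg fun _ _ => by positivity
    have h3 : ∀ b ∈ range (2 * H),
        ‖((F e H X ((b : ℝ) / (2 * H : ℕ)) : ℝ) : ℂ) - K e H X b‖ ^ 2 =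
        F e H X ((b : ℝ) / (2 * H : ℕ)) ^ 2 -
          2 * (F e H X ((b : ℝ) / (2 * H : ℕ)) * (K e H X b).re) + ‖K e H X b‖ ^ 2 := by
      intro b _
      rw [Complex.sq_norm, Complex.sq_norm, Complex.normSq_apply, Complex.normSq_apply]
      simp only [Complex.sub_re, Complex.sub_im, Complex.ofReal_re, Complex.ofReal_im]
      ring
    rw [sum_congr rfl h3, sum_add_distrib, sum_sub_distrib, ← mul_sum, sum_FK he hH, sum_KK hH] at h2
    linarith
  -- the mean of `F`
  have h4 : ∑ b ∈ range (2 * H), F e H X ((b : ℝ) / (2 * H : ℕ)) =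
      ((2 * H : ℕ) : ℝ) * (H * ∑ n ∈ range (X + 1), e n ^ 2) := by
    have h5 := coef he hH 0 (Nat.zero_le H)
    have h6 : ∀ b ∈ range (2 * H), ((F e H X ((b : ℝ) / (2 * H : ℕ)) : ℝ) : ℂ) *
        ee (-((b : ℝ) / (2 * H : ℕ) * (0 : ℕ))) = ((F e H X ((b : ℝ) / (2 * H : ℕ)) : ℝ) : ℂ) := by
      intro b _
      rw [Nat.cast_zero, mul_zero, neg_zero, ee_zero, mul_one]
    rw [sum_congr rfl h6, ← Complex.ofReal_sum] at h5
    have h7 := Complex.ofReal_injective h5
    rw [h7]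
    congr 1
    unfold D
    rw [Nat.cast_zero, sub_zero]
    congr 1
    refine sum_congr rfl fun n _ => ?_
    rw [add_zero, sq]
  have h5 : ∑ b ∈ range (2 * H), F e H X ((b : ℝ) / (2 * H : ℕ)) ^ 2 ≤
      G * ∑ b ∈ range (2 * H), F e H X ((b : ℝ) / (2 * H : ℕ)) := by
    rw [mul_sum]
    refine sum_le_sum fun b _ => ?_
    rw [sq]
    exact mul_le_mul_of_nonneg_right (hG _) (F_nonneg _)
  have h6 : T e H X ≤ G * (H * ∑ n ∈ range (X + 1), e n ^ 2) := by
    rw [h4] at h5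
    have h7 : ((2 * H : ℕ) : ℝ) * T e H X ≤
        ((2 * H : ℕ) : ℝ) * (G * (H * ∑ n ∈ range (X + 1), e n ^ 2)) := by
      calc _ ≤ _ := h1
        _ ≤ _ := h5
        _ = _ := by ring
    exact le_of_mul_le_mul_left h7 hPr
  have h7 : (H : ℝ) ^ 2 / 4 * ∑ h ∈ range (H / 2 + 1), (∑ n ∈ range (X + 1), e n * e (n + h)) ^ 2 ≤
      T e H X := by
    unfold T D
    rw [mul_sum]
    refine sum_le_sum fun h hh => ?_
    rw [mem_range] at hh
    rw [mul_pow]
    apply mul_le_mul_of_nonneg_right _ (sq_nonneg _)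
    have h8 : 2 * h ≤ H := by omega
    have h9 : (2 : ℝ) * h ≤ H := by exact_mod_cast h8
    have h10 : (H : ℝ) / 2 ≤ H - h := by linarith
    nlinarith
  have h8 := h7.trans h6
  rw [le_div_iff₀ hHr]
  have h9 : (H : ℝ) * ((∑ h ∈ range (H / 2 + 1), (∑ n ∈ range (X + 1), e n * e (n + h)) ^ 2) * H) ≤
      H * (4 * G * ∑ n ∈ range (X + 1), e n ^ 2) := by
    nlinarith
  exact le_of_mul_le_mul_left h9 hHr

end

end Pool.Agent.Lib.MP3efbeb.LG
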