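import Pool.Agent.Lib.MP_3efbeb_nt.LG.SpecC

/-!
# TYI: Type I sums on a small set of frequencies
-/

set_option autoImplicit false

namespace Pool.Agent.Lib.MP3efbeb.LG

open Finset MeasureTheory

noncomputable section

namespace TYIM

/-- Abel summation with the weight `log`. -/
theorem abel (f : ℕ → ℂ) (X : ℕ) (W : ℝ) (hX : 1 ≤ X) (X' : ℕ) (hXX : X ≤ X')
    (h : ∀ z, X ≤ z → z ≤ X' → ‖∑ n ∈ Ioc X z, f n‖ ≤ W) :
    ‖∑ n ∈ Ioc X X', ((Real.log n : ℝ) : ℂ) * f n‖ ≤ 2 * W * Real.log X' := by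
  have key : ∀ z, X ≤ z → z ≤ X' →
      ‖(∑ n ∈ Ioc X z, ((Real.log n : ℝ) : ℂ) * f n) -
        ((Real.log z : ℝ) : ℂ) * ∑ n ∈ Ioc X z, f n‖ ≤ W * (Real.log z - Real.log X) := by
    intro z hz
    induction z, hz using Nat.le_induction with
    | base => intro _; simp
    | succ z hz ih =>
      intro hz'
      have h1 := ih (by omega)
      have h2 := h z hz (by omega)
      rw [Finset.sum_Ioc_succ_top (by omega), Finset.sum_Ioc_succ_top (by omega)]
      have hz0 : (0 : ℝ) < z := by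
        have : 0 < z := by omega
        exact_mod_cast this
      have hlog : Real.log z ≤ Real.log ((z + 1 : ℕ) : ℝ) :=
        Real.log_le_log hz0 (by push_cast; linarith)
      have e : (∑ n ∈ Ioc X z, ((Real.log n : ℝ) : ℂ) * f n) +
          ((Real.log ((z + 1 : ℕ) : ℝ) : ℝ) : ℂ) * f (z + 1) -
          ((Real.log ((z + 1 : ℕ) : ℝ) : ℝ) : ℂ) * (∑ n ∈ Ioc X z, f n + f (z + 1)) =
          ((∑ n ∈ Ioc X z, ((Real.log n : ℝ) : ℂ) * f n) -
            ((Real.log z : ℝ) : ℂ) * ∑ n ∈ Ioc X z, f n) -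
          ((Real.log ((z + 1 : ℕ) : ℝ) - Real.log z : ℝ) : ℂ) * ∑ n ∈ Ioc X z, f n := by
        push_cast
        ring
      rw [e]
      refine (norm_sub_le _ _).trans ?_
      have h3 : ‖((Real.log ((z + 1 : ℕ) : ℝ) - Real.log z : ℝ) : ℂ) * ∑ n ∈ Ioc X z, f n‖ ≤
          (Real.log ((z + 1 : ℕ) : ℝ) - Real.log z) * W := by
        rw [norm_mul, Complex.norm_real, Real.norm_eq_abs, abs_of_nonneg (by linarith)]
        exact mul_le_mul_of_nonneg_left h2 (by linarith)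
      linarith
  have h1 := key X' hXX le_rfl
  have h2 := h X' hXX le_rfl
  have hX0 : (0 : ℝ) ≤ Real.log X := Real.log_natCast_nonneg X
  have hX0' : (0 : ℝ) ≤ Real.log X' := Real.log_natCast_nonneg X'
  have hW : 0 ≤ W := (norm_nonneg _).trans h2
  have h3 : ‖((Real.log X' : ℝ) : ℂ) * ∑ n ∈ Ioc X X', f n‖ ≤ Real.log X' * W := by
    rw [norm_mul, Complex.norm_real, Real.norm_eq_abs, abs_of_nonneg hX0']
    exact mul_le_mul_of_nonneg_left h2 hX0'
  have h4 := norm_le_norm_sub_add (∑ n ∈ Ioc X X', ((Real.log n : ℝ) : ℂ) * f n)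
    (((Real.log X' : ℝ) : ℂ) * ∑ n ∈ Ioc X X', f n)
  have h5 : 0 ≤ W * Real.log X := mul_nonneg hW hX0
  nlinarith

/-- sums over multiples -/
theorem sum_dvd (m Y Y' : ℕ) (hm : 0 < m) (F : ℕ → ℂ) :
    ∑ k ∈ (Ioc Y Y').filter (m ∣ ·), F k = ∑ n ∈ Ioc (Y / m) (Y' / m), F (m * n) := by
  refine Finset.sum_nbij' (fun k => k / m) (fun n => m * n) ?_ ?_ ?_ ?_ ?_
  · intro k hk
    rw [mem_filter, mem_Ioc] at hk
    obtain ⟨⟨h1, h2⟩, r, rfl⟩ := hk
    rw [mem_Ioc, Nat.mul_div_cancel_left _ hm, Nat.div_lt_iff_lt_mul hm, Nat.le_div_iff_mul_le hm,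
      mul_comm r m]
    exact ⟨h1, h2⟩
  · intro n hn
    rw [mem_Ioc, Nat.div_lt_iff_lt_mul hm, Nat.le_div_iff_mul_le hm, mul_comm n m] at hn
    rw [mem_filter, mem_Ioc]
    exact ⟨hn, Dvd.intro _ rfl⟩
  · intro k hk
    rw [mem_filter] at hk
    exact Nat.mul_div_cancel' hk.2
  · intro n _
    exact Nat.mul_div_cancel_left _ hm
  · intro k hk
    rw [mem_filter] at hk
    rw [Nat.mul_div_cancel' hk.2]

/-- `n ↦ n^(it)` is completely multiplicative -/
theorem nit_mul (m n : ℕ) (hm : 0 < m) (hn : 0 < n) (t : ℝ) : nit (m * n) t = nit m t * nit n t := by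
  unfold nit
  rw [← Complex.exp_add]
  congr 1
  have h1 : (m : ℝ) ≠ 0 := by exact_mod_cast hm.ne'
  have h2 : (n : ℝ) ≠ 0 := by exact_mod_cast hn.ne'
  push_cast
  rw [Real.log_mul h1 h2]
  push_cast
  ring

/-- rearranging the sum -/
theorem rearr (Y Y' M q : ℕ) (χ : DirichletCharacter ℂ q) (a ψ : ℕ → ℝ) (t : ℝ)
    (ha : ∀ m, a m ≠ 0 → m ≤ M) :
    DP (Ioc Y Y') (fun k => ((∑ m ∈ k.divisors, a m * ψ (k / m) : ℝ) : ℂ) * χ k) t =
      ∑ m ∈ Icc 1 M, ((a m : ℝ) : ℂ) * χ (m : ZMod q) * nit m t *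
        ∑ n ∈ Ioc (Y / m) (Y' / m), ((ψ n : ℝ) : ℂ) * (χ (n : ZMod q) * nit n t) := by
  have h1 : ∀ k ∈ Ioc Y Y',
      ((∑ m ∈ k.divisors, a m * ψ (k / m) : ℝ) : ℂ) * χ (k : ZMod q) * nit k t =
      ∑ m ∈ Icc 1 M, if m ∣ k then
        ((a m : ℝ) : ℂ) * ((ψ (k / m) : ℝ) : ℂ) * χ (k : ZMod q) * nit k t else 0 := by
    intro k hk
    rw [mem_Ioc] at hk
    have hk0 : k ≠ 0 := by omega
    have e1 : ∑ m ∈ k.divisors, a m * ψ (k / m) =
        ∑ m ∈ Icc 1 M, if m ∣ k then a m * ψ (k / m) else 0 := by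
      rw [← Finset.sum_filter]
      have e2 : (Icc 1 M).filter (fun m => m ∣ k) ⊆ k.divisors := by
        intro m hm
        rw [mem_filter] at hm
        exact Nat.mem_divisors.2 ⟨hm.2, hk0⟩
      symm
      refine Finset.sum_subset e2 fun m hm hm' => ?_
      rw [Nat.mem_divisors] at hm
      have h3 : ¬ m ≤ M := by
        intro h4
        apply hm'
        rw [mem_filter, mem_Icc]
        exact ⟨⟨Nat.pos_of_dvd_of_pos hm.1 (by omega), h4⟩, hm.1⟩
      have h4 : a m = 0 := by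
        by_contra h5
        exact h3 (ha m h5)
      rw [h4, zero_mul]
    rw [e1]
    push_cast
    rw [Finset.sum_mul, Finset.sum_mul]
    refine Finset.sum_congr rfl fun m _ => ?_
    split_ifs <;> push_cast <;> ring
  unfold DP
  rw [Finset.sum_congr rfl h1, Finset.sum_comm]
  refine Finset.sum_congr rfl fun m hm => ?_
  rw [mem_Icc] at hm
  have hm0 : 0 < m := by omega
  rw [← Finset.sum_filter, sum_dvd m Y Y' hm0, Finset.mul_sum]
  refine Finset.sum_congr rfl fun n hn => ?_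
  rw [mem_Ioc] at hn
  have hn0 : 0 < n := Nat.zero_lt_of_lt hn.1
  rw [Nat.mul_div_cancel_left _ hm0, nit_mul m n hm0 hn0, Nat.cast_mul, map_mul]
  ring

/-- `∑_{m ≤ M} 1/m ≤ 1 + log M`, in a convenient form -/
theorem harm (M : ℕ) (L : ℝ) (hL : 1 ≤ L) (hM : Real.log M ≤ L) :
    ∑ m ∈ Icc 1 M, (1 : ℝ) / m ≤ 2 * L := by
  have h1 : ∑ m ∈ Icc 1 M, (1 : ℝ) / m = ((harmonic M : ℚ) : ℝ) := by
    rw [harmonic_eq_sum_Icc]
    push_cast
    refine Finset.sum_congr rfl fun m _ => ?_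
    rw [one_div]
  rw [h1]
  have := harmonic_le_one_add_log M
  linarith

end TYIM

open TYIM in
theorem specTYI (hZSC : SpecZSC) : SpecTYI := by
  obtain ⟨c, C, hc0, hc1, hC, H⟩ := hZSC 4 (by norm_num)
  have hJi : Integrable (fun t : ℝ => (1 + ‖t‖) ^ (-(3 / 2 : ℝ))) :=
    integrable_one_add_norm (by rw [Module.finrank_self]; norm_num)
  set J : ℝ := ∫ t : ℝ, (1 + ‖t‖) ^ (-(3 / 2 : ℝ)) with hJ
  have hJ0 : 0 ≤ J := integral_nonneg fun t => by positivity
  refine ⟨c / 4, by linarith, ?_⟩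
  intro D b hD hb
  -- the size of `N`
  obtain ⟨N₀, hN₀⟩ : ∃ N₀ : ℝ, ∀ N, N₀ ≤ N → 4 ≤ Real.log N ∧ 1024 * C ^ 2 * J ≤ Real.log N ∧
      1024 * C ^ 2 * Real.log N ^ (6 + 4 * b + D) ≤ N ^ (c / 4) ∧ 1 ≤ N := by
    have h1 := Real.tendsto_log_atTop.eventually_ge_atTop 4
    have h2 := Real.tendsto_log_atTop.eventually_ge_atTop (1024 * C ^ 2 * J)
    have h3 := (isLittleO_log_rpow_rpow_atTop (6 + 4 * b + D) (by linarith : 0 < c / 4)).bound
      (by positivity : (0 : ℝ) < 1 / (1024 * C ^ 2))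
    have h4 := (h1.and (h2.and (h3.and (Filter.eventually_ge_atTop 1))))
    obtain ⟨N₀, hN₀⟩ := Filter.eventually_atTop.1 h4
    refine ⟨N₀, fun N hN => ?_⟩
    obtain ⟨e1, e2, e3, e4⟩ := hN₀ N hN
    refine ⟨e1, e2, ?_, e4⟩
    rw [Real.norm_eq_abs, Real.norm_eq_abs, abs_of_nonneg (Real.rpow_nonneg (by linarith) _),
      abs_of_nonneg (Real.rpow_nonneg (by linarith) _), one_div, inv_mul_eq_div,
      le_div_iff₀ (by positivity)] at e3
    linarith
  refine ⟨2 * (D + 4 * b + 7), N₀, by linarith, ?_⟩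
  intro N y q _ χ E a ψ hN hy1 hy2 hq hE hEN hvol haway ha ha' hψ
  obtain ⟨hL4, hLJ, hLN, hN1⟩ := hN₀ N hN
  set L := Real.log N with hLdef
  have hL0 : 0 < L := by linarith
  have hN0 : 0 < N := by linarith
  have hr0 : 0 < N ^ ((1 : ℝ) / 4) := Real.rpow_pos_of_pos hN0 _
  have hr1 : 1 ≤ N ^ ((1 : ℝ) / 4) := Real.one_le_rpow hN1 (by norm_num)
  have hrr : N ^ ((1 : ℝ) / 4) * N ^ ((1 : ℝ) / 4) = N ^ ((1 : ℝ) / 2) := by
    rw [← Real.rpow_add hN0]; norm_num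
  have hr4 : (N ^ ((1 : ℝ) / 4)) ^ 4 = N := by
    rw [← Real.rpow_natCast, ← Real.rpow_mul hN0.le]; norm_num
  have hy0 : 0 < y := by nlinarith
  set M := ⌊N ^ ((1 : ℝ) / 4)⌋₊ with hM
  set Y := ⌊y⌋₊ with hY
  set Y' := ⌊32 * y⌋₊ with hY'
  have haM : ∀ m, a m ≠ 0 → m ≤ M := fun m hm => Nat.le_floor (ha' m hm)
  have hchi : ∀ n : ℕ, ‖χ (n : ZMod q)‖ ≤ 1 := fun n => DirichletCharacter.norm_le_one χ n
  have hnit : ∀ (n : ℕ) (t : ℝ), ‖nit n t‖ = 1 := fun n t => by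
    unfold nit
    exact Complex.norm_exp_ofReal_mul_I _
  set δ : ℝ → ℝ := fun t => if χ = 1 then 1 / (1 + |t|) else 0 with hδ
  have hδ0 : ∀ t, 0 ≤ δ t := by
    intro t
    simp only [hδ]
    split_ifs
    · positivity
    · exact le_rfl
  set ν := N ^ (-(c / 4)) with hν
  have hν0 : 0 < ν := Real.rpow_pos_of_pos hN0 _
  have hmm : ∀ m ∈ Icc 1 M, (1 : ℝ) ≤ m ∧ N ^ ((1 : ℝ) / 4) ≤ y / m := by
    intro m hm
    rw [mem_Icc] at hm
    have h1 : (1 : ℝ) ≤ m := by exact_mod_cast hm.1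
    have h2 : (m : ℝ) ≤ N ^ ((1 : ℝ) / 4) := (Nat.le_floor_iff hr0.le).1 hm.2
    refine ⟨h1, ?_⟩
    rw [le_div_iff₀ (by linarith)]
    calc N ^ ((1 : ℝ) / 4) * m ≤ N ^ ((1 : ℝ) / 4) * N ^ ((1 : ℝ) / 4) :=
          mul_le_mul_of_nonneg_left h2 hr0.le
      _ ≤ y := by rw [hrr]; exact hy1
  -- the inner sums
  have hG : ∀ t ∈ E, ∀ m ∈ Icc 1 M,
      ‖∑ n ∈ Ioc (Y / m) (Y' / m), ((ψ n : ℝ) : ℂ) * (χ (n : ZMod q) * nit n t)‖ ≤
        4 * L * (C * q ^ 2 * y * (δ t + ν) * (1 / m)) := by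
    intro t htE m hm
    obtain ⟨hm1, hm2⟩ := hmm m hm
    have hm0 : (0 : ℝ) < m := by linarith
    have htN : |t| ≤ N := abs_le.2 (hEN htE)
    have ht4 : |t| ≤ (y / m) ^ 4 := by
      calc |t| ≤ N := htN
        _ = (N ^ ((1 : ℝ) / 4)) ^ 4 := hr4.symm
        _ ≤ (y / m) ^ 4 := pow_le_pow_left₀ hr0.le hm2 4
    have hx1 : 1 ≤ y / m := hr1.trans hm2
    have hx0 : 0 < y / m := by linarith
    set W := C * q ^ 2 * y * (δ t + ν) * (1 / m) with hW
    have hW0 : 0 ≤ W := by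
      have := hδ0 t
      positivity
    have hpw : (y / m) ^ (1 - c) ≤ (y / m) * ν := by
      have e1 : (y / m) ^ (1 - c) = (y / m) * (y / m) ^ (-c) := by
        rw [show (1 : ℝ) - c = 1 + -c by ring, Real.rpow_add hx0, Real.rpow_one]
      have e2 : (y / m) ^ (-c) ≤ (N ^ ((1 : ℝ) / 4)) ^ (-c) :=
        Real.rpow_le_rpow_of_nonpos hr0 hm2 (by linarith)
      have e3 : (N ^ ((1 : ℝ) / 4)) ^ (-c) = ν := by
        rw [hν, ← Real.rpow_mul hN0.le]
        congr 1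
        ring
      rw [e1, ← e3]
      exact mul_le_mul_of_nonneg_left e2 hx0.le
    have hpart : ∀ z, Y / m ≤ z → z ≤ Y' / m →
        ‖∑ n ∈ Ioc (Y / m) z, χ (n : ZMod q) * nit n t‖ ≤ W := by
      intro z hz1 hz2
      rcases lt_or_ge (z : ℝ) (y / m) with h | h
      · have h1 : z ≤ Y / m := by
          rw [hY, ← Nat.floor_div_natCast]
          exact Nat.le_floor h.le
        rw [Finset.Ioc_eq_empty (by omega), Finset.sum_empty, norm_zero]
        exact hW0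
      · have h1 : (z : ℝ) ≤ 64 * (y / m) := by
          have h2 : (z : ℝ) ≤ 32 * y / m := by
            rw [hY', ← Nat.floor_div_natCast] at hz2
            exact (Nat.le_floor_iff (by positivity)).1 hz2
          have h3 : 32 * y / m = 32 * (y / m) := by ring
          linarith
        have h2 := H (y / m) z t q χ hx1 h h1 ht4
        have h3 : DP (IO (y / m) z) (fun n => χ n) t =
            ∑ n ∈ Ioc (Y / m) z, χ (n : ZMod q) * nit n t := by
          unfold DP IO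
          rw [Nat.floor_div_natCast, Nat.floor_natCast]
        rw [h3] at h2
        have hCq : 0 ≤ C * (q : ℝ) ^ 2 := by positivity
        rcases h2 with ⟨h4, h5⟩ | ⟨h4, h5⟩
        · refine h4.trans ?_
          have h6 : δ t = 0 := by simp only [hδ]; rw [if_neg h5]
          rw [hW, h6, zero_add]
          calc C * (q : ℝ) ^ 2 * (y / m) ^ (1 - c) ≤ C * q ^ 2 * ((y / m) * ν) :=
                mul_le_mul_of_nonneg_left hpw hCq
            _ = _ := by ring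
        · refine h4.trans ?_
          have h6 : δ t = 1 / (1 + |t|) := by simp only [hδ]; rw [if_pos h5]
          rw [hW, h6]
          calc C * (q : ℝ) ^ 2 * (y / m / (1 + |t|) + (y / m) ^ (1 - c)) ≤
                C * q ^ 2 * (y / m / (1 + |t|) + (y / m) * ν) :=
                mul_le_mul_of_nonneg_left (by linarith) hCq
            _ = _ := by ring
    have hYm : Y / m ≤ Y' / m := by
      apply Nat.div_le_div_right
      rw [hY, hY']
      exact Nat.floor_mono (by linarith)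
    have hYm1 : 1 ≤ Y / m := by
      rw [hY, ← Nat.floor_div_natCast]
      exact Nat.le_floor (by simpa using hx1)
    rcases hψ with hψ | hψ
    · have h1 : ∑ n ∈ Ioc (Y / m) (Y' / m), ((ψ n : ℝ) : ℂ) * (χ (n : ZMod q) * nit n t) =
          ∑ n ∈ Ioc (Y / m) (Y' / m), χ (n : ZMod q) * nit n t := by
        refine Finset.sum_congr rfl fun n _ => ?_
        rw [hψ, Complex.ofReal_one, one_mul]
      rw [h1]
      refine (hpart _ hYm le_rfl).trans ?_
      nlinarith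
    · have h1 : ∑ n ∈ Ioc (Y / m) (Y' / m), ((ψ n : ℝ) : ℂ) * (χ (n : ZMod q) * nit n t) =
          ∑ n ∈ Ioc (Y / m) (Y' / m), ((Real.log n : ℝ) : ℂ) * (χ (n : ZMod q) * nit n t) := by
        refine Finset.sum_congr rfl fun n _ => ?_
        rw [hψ]
      rw [h1]
      refine (abel (fun n => χ (n : ZMod q) * nit n t) (Y / m) W hYm1 (Y' / m) hYm hpart).trans ?_
      have h2 : Real.log ((Y' / m : ℕ) : ℝ) ≤ 2 * L := by
        have h3 : ((Y' / m : ℕ) : ℝ) ≤ 32 * N := by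
          have h4 : ((Y' / m : ℕ) : ℝ) ≤ (Y' : ℝ) := by exact_mod_cast Nat.div_le_self _ _
          have h5 : (Y' : ℝ) ≤ 32 * y := Nat.floor_le (by linarith)
          linarith
        have h6 : (0 : ℝ) < ((Y' / m : ℕ) : ℝ) := by
          have : 0 < Y' / m := by omega
          exact_mod_cast this
        have h7 : Real.log (32 * N) = Real.log 32 + L := Real.log_mul (by norm_num) hN0.ne'
        have h8 : Real.log 32 ≤ 4 := by
          have e1 : (32 : ℝ) = 2 ^ 5 := by norm_num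
          rw [e1, Real.log_pow]
          have := Real.log_two_lt_d9
          push_cast
          linarith
        have h9 := Real.log_le_log h6 h3
        linarith
      nlinarith
  -- the pointwise bound
  have hlogM : Real.log M ≤ L := by
    rcases Nat.eq_zero_or_pos M with h | h
    · rw [h]; simp; linarith
    · refine Real.log_le_log (by exact_mod_cast h) ?_
      have h1 : (M : ℝ) ≤ N ^ ((1 : ℝ) / 4) := Nat.floor_le hr0.le
      have h2 : N ^ ((1 : ℝ) / 4) ≤ N ^ (1 : ℝ) :=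
        Real.rpow_le_rpow_of_exponent_le hN1 (by norm_num)
      rw [Real.rpow_one] at h2
      linarith
  have hP : ∀ t ∈ E, ‖DP (IO y (32 * y))
      (fun k => ((∑ m ∈ k.divisors, a m * ψ (k / m) : ℝ) : ℂ) * χ k) t‖ ≤
      16 * C * L ^ 3 * q ^ 2 * y * (δ t + ν) := by
    intro t htE
    have h1 : DP (IO y (32 * y)) (fun k => ((∑ m ∈ k.divisors, a m * ψ (k / m) : ℝ) : ℂ) * χ k) t =
      ∑ m ∈ Icc 1 M, ((a m : ℝ) : ℂ) * χ (m : ZMod q) * nit m t *
        ∑ n ∈ Ioc (Y / m) (Y' / m), ((ψ n : ℝ) : ℂ) * (χ (n : ZMod q) * nit n t) :=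
      rearr Y Y' M q χ a ψ t haM
    rw [h1]
    have hb0 : 0 ≤ C * (q : ℝ) ^ 2 * y * (δ t + ν) := by
      have := hδ0 t
      positivity
    calc ‖∑ m ∈ Icc 1 M, ((a m : ℝ) : ℂ) * χ (m : ZMod q) * nit m t *
        ∑ n ∈ Ioc (Y / m) (Y' / m), ((ψ n : ℝ) : ℂ) * (χ (n : ZMod q) * nit n t)‖
        ≤ ∑ m ∈ Icc 1 M, (2 * L) * (4 * L * (C * q ^ 2 * y * (δ t + ν) * (1 / m))) := by
          refine norm_sum_le_of_le _ fun m hm => ?_
          rw [norm_mul, norm_mul, norm_mul, hnit, mul_one, Complex.norm_real, Real.norm_eq_abs]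
          have e1 : |a m| * ‖χ (m : ZMod q)‖ ≤ 2 * L := by
            calc |a m| * ‖χ (m : ZMod q)‖ ≤ |a m| * 1 :=
                  mul_le_mul_of_nonneg_left (hchi m) (abs_nonneg _)
              _ ≤ 2 * L := by rw [mul_one]; exact ha m
          exact mul_le_mul e1 (hG t htE m hm) (norm_nonneg _) (by linarith)
      _ = 8 * L ^ 2 * (C * q ^ 2 * y * (δ t + ν)) * ∑ m ∈ Icc 1 M, (1 : ℝ) / m := by
          rw [Finset.mul_sum]
          refine Finset.sum_congr rfl fun m _ => ?_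
          ring
      _ ≤ 8 * L ^ 2 * (C * q ^ 2 * y * (δ t + ν)) * (2 * L) :=
          mul_le_mul_of_nonneg_left (harm M L (by linarith) hlogM) (by positivity)
      _ = _ := by ring
  -- the square
  set κ := L ^ (-(D + 4 * b + 7)) with hκ
  have hκ0 : 0 < κ := Real.rpow_pos_of_pos hL0 _
  have hδ2 : ∀ t ∈ E, δ t ^ 2 ≤ κ * (1 + ‖t‖) ^ (-(3 / 2 : ℝ)) := by
    intro t htE
    by_cases hχ : χ = 1
    · have h1 : δ t = 1 / (1 + |t|) := by simp only [hδ]; rw [if_pos hχ]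
      have h2 : L ^ (2 * (D + 4 * b + 7)) ≤ |t| := by
        rcases haway with h | h
        · exact absurd hχ h
        · exact h t htE
      have h3 : 0 < 1 + |t| := by positivity
      have h4 : (1 + |t|) ^ (-(1 / 2 : ℝ)) ≤ κ := by
        have e1 : (1 + |t|) ^ (-(1 / 2 : ℝ)) ≤ (L ^ (2 * (D + 4 * b + 7))) ^ (-(1 / 2 : ℝ)) :=
          Real.rpow_le_rpow_of_nonpos (Real.rpow_pos_of_pos hL0 _) (by linarith) (by norm_num)
        refine e1.trans (le_of_eq ?_)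
        rw [hκ, ← Real.rpow_mul hL0.le]
        congr 1
        ring
      have h5 : δ t ^ 2 = (1 + |t|) ^ (-(1 / 2 : ℝ)) * (1 + |t|) ^ (-(3 / 2 : ℝ)) := by
        rw [← Real.rpow_add h3, h1]
        have e1 : (-(1 / 2 : ℝ) + -(3 / 2)) = -((2 : ℕ) : ℝ) := by push_cast; norm_num
        rw [e1, Real.rpow_neg h3.le, Real.rpow_natCast]
        rw [one_div, inv_pow]
      rw [h5, Real.norm_eq_abs]
      exact mul_le_mul_of_nonneg_right h4 (Real.rpow_nonneg h3.le _)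
    · have h1 : δ t = 0 := by simp only [hδ]; rw [if_neg hχ]
      rw [h1]
      have : 0 ≤ (1 + ‖t‖) ^ (-(3 / 2 : ℝ)) := Real.rpow_nonneg (by positivity) _
      nlinarith
  set Q := 512 * C ^ 2 * L ^ 6 * (q : ℝ) ^ 4 * y ^ 2 with hQ
  have hQ0 : 0 ≤ Q := by positivity
  have hsq : ∀ t ∈ E, ‖DP (IO y (32 * y))
      (fun k => ((∑ m ∈ k.divisors, a m * ψ (k / m) : ℝ) : ℂ) * χ k) t‖ ^ 2 ≤
      Q * (κ * (1 + ‖t‖) ^ (-(3 / 2 : ℝ)) + ν ^ 2) := by
    intro t htE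
    have h1 := pow_le_pow_left₀ (norm_nonneg _) (hP t htE) 2
    refine h1.trans ?_
    have h2 := hδ2 t htE
    have h3 : (δ t + ν) ^ 2 ≤ 2 * (δ t ^ 2 + ν ^ 2) := by nlinarith [sq_nonneg (δ t - ν)]
    have h4 : (16 * C * L ^ 3 * q ^ 2 * y * (δ t + ν)) ^ 2 =
        (256 * C ^ 2 * L ^ 6 * (q : ℝ) ^ 4 * y ^ 2) * (δ t + ν) ^ 2 := by ring
    rw [h4]
    have h5 : 0 ≤ 256 * C ^ 2 * L ^ 6 * (q : ℝ) ^ 4 * y ^ 2 := by positivity
    calc (256 * C ^ 2 * L ^ 6 * (q : ℝ) ^ 4 * y ^ 2) * (δ t + ν) ^ 2 ≤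
          (256 * C ^ 2 * L ^ 6 * (q : ℝ) ^ 4 * y ^ 2) *
            (2 * (κ * (1 + ‖t‖) ^ (-(3 / 2 : ℝ)) + ν ^ 2)) :=
          mul_le_mul_of_nonneg_left (by linarith) h5
      _ = _ := by rw [hQ]; ring
  -- the integral
  have hfin : volume E < ⊤ := hvol.trans_lt ENNReal.ofReal_lt_top
  have hgi : Integrable (fun t : ℝ => Q * (κ * (1 + ‖t‖) ^ (-(3 / 2 : ℝ)) + ν ^ 2))
      (volume.restrict E) := by
    refine Integrable.const_mul (Integrable.add (hJi.restrict.const_mul κ) ?_) Q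
    exact integrableOn_const hfin.ne
  have hint : ∫ t in E, ‖DP (IO y (32 * y))
      (fun k => ((∑ m ∈ k.divisors, a m * ψ (k / m) : ℝ) : ℂ) * χ k) t‖ ^ 2 ≤
      ∫ t in E, Q * (κ * (1 + ‖t‖) ^ (-(3 / 2 : ℝ)) + ν ^ 2) := by
    refine integral_mono_of_nonneg (Filter.Eventually.of_forall fun t => by positivity) hgi ?_
    exact (ae_restrict_iff' hE).2 (Filter.Eventually.of_forall hsq)
  have hval : ∫ t in E, Q * (κ * (1 + ‖t‖) ^ (-(3 / 2 : ℝ)) + ν ^ 2) ≤
      Q * (κ * J + N ^ (c / 4) * ν ^ 2) := by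
    rw [integral_const_mul, integral_add (hJi.restrict.const_mul κ) (integrableOn_const hfin.ne),
      integral_const_mul, setIntegral_const, smul_eq_mul]
    have h1 : ∫ t in E, (1 + ‖t‖) ^ (-(3 / 2 : ℝ)) ≤ J :=
      setIntegral_le_integral hJi (Filter.Eventually.of_forall fun t => by positivity)
    have h2 : volume.real E ≤ N ^ (c / 4) := by
      rw [measureReal_def]
      exact ENNReal.toReal_le_of_le_ofReal (by positivity) hvol
    refine mul_le_mul_of_nonneg_left (add_le_add ?_ ?_) hQ0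
    · exact mul_le_mul_of_nonneg_left h1 hκ0.le
    · exact mul_le_mul_of_nonneg_right h2 (by positivity)
  refine hint.trans (hval.trans ?_)
  -- the final numbers
  set d := L ^ D with hd
  set p := L ^ (4 * b) with hp
  set R := N ^ (c / 4) with hR
  have hd0 : 0 < d := Real.rpow_pos_of_pos hL0 _
  have hp0 : 0 < p := Real.rpow_pos_of_pos hL0 _
  have hR0 : 0 < R := Real.rpow_pos_of_pos hN0 _
  have hq4 : (q : ℝ) ^ 4 ≤ p := by
    have h1 := pow_le_pow_left₀ (Nat.cast_nonneg q) hq 4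
    refine h1.trans (le_of_eq ?_)
    rw [hp, ← Real.rpow_natCast, ← Real.rpow_mul hL0.le]
    congr 1
    push_cast
    ring
  have hκe : κ = 1 / (d * p * L ^ 7) := by
    have e1 : L ^ (D + 4 * b + 7) = d * p * L ^ 7 := by
      rw [hd, hp, Real.rpow_add hL0, Real.rpow_add hL0]
      congr 1
      rw [← Real.rpow_natCast]; norm_num
    rw [hκ, Real.rpow_neg hL0.le, e1, one_div]
  have hνe : ν = 1 / R := by
    rw [hν, hR, Real.rpow_neg hN0.le, one_div]
  have hLe : L ^ (6 + 4 * b + D) = L ^ 6 * p * d := by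
    rw [hd, hp, Real.rpow_add hL0, Real.rpow_add hL0]
    congr 2
    rw [← Real.rpow_natCast]; norm_num
  rw [hLe] at hLN
  have e1 : κ * J + R * ν ^ 2 = J / (d * p * L ^ 7) + 1 / R := by
    rw [hκe, hνe]
    field_simp
  rw [e1]
  have e2 : Q * (J / (d * p * L ^ 7) + 1 / R) ≤
      512 * C ^ 2 * L ^ 6 * p * y ^ 2 * (J / (d * p * L ^ 7) + 1 / R) := by
    have h0 : 0 ≤ J / (d * p * L ^ 7) + 1 / R := by positivity
    refine mul_le_mul_of_nonneg_right ?_ h0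
    rw [hQ]
    have h1 : 0 ≤ 512 * C ^ 2 * L ^ 6 * y ^ 2 := by positivity
    nlinarith [mul_le_mul_of_nonneg_left hq4 h1]
  refine e2.trans ?_
  have e3 : 512 * C ^ 2 * L ^ 6 * p * y ^ 2 * (J / (d * p * L ^ 7) + 1 / R) =
      y ^ 2 / d * ((512 * C ^ 2 * J) / L + (512 * C ^ 2 * (L ^ 6 * p * d)) / R) := by
    field_simp
  rw [e3]
  have e4 : (512 * C ^ 2 * J) / L ≤ 1 / 2 := by
    rw [div_le_iff₀ hL0]; linarith
  have e5 : (512 * C ^ 2 * (L ^ 6 * p * d)) / R ≤ 1 / 2 := by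
    rw [div_le_iff₀ hR0]; linarith
  have e6 : 0 ≤ y ^ 2 / d := by positivity
  nlinarith

end

end Pool.Agent.Lib.MP3efbeb.LG
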