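import Pool.Agent.Lib.MP_3efbeb_nt.LG.SpecC

/-!
# Module TYJ (LongPatterns, part C): Type II sums on a small set of frequencies
(helper92)
-/

set_option autoImplicit false

namespace Pool.Agent.Lib.MP3efbeb.LG

open Finset MeasureTheory
open ArithmeticFunction (vonMangoldt moebius)

namespace TYJM

lemma nit_norm (n : ℕ) (t : ℝ) : ‖nit n t‖ = 1 := by
  unfold nit
  exact Complex.norm_exp_ofReal_mul_I _

lemma nit_mul {m n : ℕ} (hm : 1 ≤ m) (hn : 1 ≤ n) (t : ℝ) :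
    nit (m * n) t = nit m t * nit n t := by
  unfold nit
  rw [← Complex.exp_add, Nat.cast_mul, Real.log_mul (by positivity) (by positivity)]
  congr 1
  push_cast
  ring

lemma continuous_DP (S : Finset ℕ) (c : ℕ → ℂ) : Continuous (DP S c) := by
  unfold DP nit
  fun_prop

lemma mem_IO {x y : ℝ} (hx : 0 ≤ x) (hy : 0 ≤ y) {n : ℕ} :
    n ∈ IO x y ↔ x < (n : ℝ) ∧ (n : ℝ) ≤ y := by
  unfold IO
  rw [Finset.mem_Ioc, Nat.floor_lt hx, Nat.le_floor_iff hy]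

/-- the cutting points -/
noncomputable def sC (V : ℕ) (ρ : ℝ) (i : ℕ) : ℝ := V * ρ ^ i

lemma sC_pos {V : ℕ} {ρ : ℝ} (hV : 1 ≤ V) (hρ : 1 ≤ ρ) (i : ℕ) : 0 < sC V ρ i := by
  unfold sC
  have : (0 : ℝ) < V := by exact_mod_cast hV
  positivity

lemma sC_succ (V : ℕ) (ρ : ℝ) (i : ℕ) : sC V ρ (i + 1) = ρ * sC V ρ i := by
  unfold sC
  ring

lemma sC_mono {V : ℕ} {ρ : ℝ} (hρ : 1 ≤ ρ) : Monotone (sC V ρ) := by
  intro i j hij
  unfold sC
  exact mul_le_mul_of_nonneg_left (pow_le_pow_right₀ hρ hij) (Nat.cast_nonneg _)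

lemma sum_pieces {M : Type*} [AddCommMonoid M] {V : ℕ} {ρ : ℝ} (hρ : 1 ≤ ρ) (g : ℕ → M) (n : ℕ) :
    ∑ i ∈ range n, ∑ c ∈ IO (sC V ρ i) (sC V ρ (i + 1)), g c = ∑ c ∈ Ioc V ⌊sC V ρ n⌋₊, g c := by
  have h0 : ⌊sC V ρ 0⌋₊ = V := by
    unfold sC
    rw [pow_zero, mul_one, Nat.floor_natCast]
  induction n with
  | zero =>
    rw [h0]
    simp
  | succ n ih =>
    rw [Finset.sum_range_succ, ih]
    unfold IO
    refine Finset.sum_Ioc_consecutive g ?_ ?_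
    · exact le_of_eq_of_le h0.symm (Nat.floor_le_floor (sC_mono hρ (Nat.zero_le n)))
    · exact Nat.floor_le_floor (sC_mono hρ (Nat.le_succ n))

/-- the difference of the two conditions -/
noncomputable def dl (V : ℕ) (ρ y : ℝ) (i c k : ℕ) : ℝ :=
  (if k ∈ IO y (32 * y) then 1 else 0) -
    (if k / c ∈ IO (y / sC V ρ i) (32 * y / sC V ρ i) then 1 else 0)

lemma dl_abs (V : ℕ) (ρ y : ℝ) (i c k : ℕ) : |dl V ρ y i c k| ≤ 1 := by
  unfold dl
  split_ifs <;> norm_num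

lemma dl_zero {V : ℕ} {ρ y : ℝ} (hV : 1 ≤ V) (hρ : 1 ≤ ρ) (hy : 1 ≤ y) {i c k : ℕ}
    (hc : c ∈ IO (sC V ρ i) (sC V ρ (i + 1))) (hck : c ∣ k)
    (h1 : k ∉ IO y (ρ * y)) (h2 : k ∉ IO (32 * y) (32 * (ρ * y))) : dl V ρ y i c k = 0 := by
  have hs := sC_pos hV hρ i
  have hρ0 : 0 < ρ := by linarith
  rw [mem_IO hs.le (by rw [sC_succ]; positivity), sC_succ] at hc
  obtain ⟨m, rfl⟩ := hck
  have hc0 : 0 < c := by
    have : (0 : ℝ) < c := hs.trans hc.1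
    exact_mod_cast this
  unfold dl
  rw [Nat.mul_div_cancel_left m hc0]
  rw [mem_IO (by positivity) (by positivity)] at h1 h2
  have i1 : c * m ∈ IO y (32 * y) ↔ (y < (c : ℝ) * m ∧ (c : ℝ) * m ≤ 32 * y) := by
    rw [mem_IO (by positivity) (by positivity)]
    push_cast
    rfl
  have i2 : m ∈ IO (y / sC V ρ i) (32 * y / sC V ρ i) ↔
      (y < m * sC V ρ i ∧ m * sC V ρ i ≤ 32 * y) := by
    rw [mem_IO (by positivity) (by positivity), div_lt_iff₀ hs, le_div_iff₀ hs]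
  push_cast at h1 h2
  have hm : (0 : ℝ) ≤ m := Nat.cast_nonneg m
  have g1 : sC V ρ i * m ≤ c * m := mul_le_mul_of_nonneg_right hc.1.le hm
  have g2 : (c : ℝ) * m ≤ ρ * (sC V ρ i * m) := by
    rw [← mul_assoc]
    exact mul_le_mul_of_nonneg_right hc.2 hm
  have hiff : (y < (c : ℝ) * m ∧ (c : ℝ) * m ≤ 32 * y) ↔
      (y < m * sC V ρ i ∧ m * sC V ρ i ≤ 32 * y) := by
    rw [mul_comm (m : ℝ)]
    constructor
    · rintro ⟨h3, h4⟩
      refine ⟨?_, g1.trans h4⟩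
      by_contra h5
      push Not at h5
      exact h1 ⟨h3, g2.trans (mul_le_mul_of_nonneg_left h5 hρ0.le)⟩
    · rintro ⟨h3, h4⟩
      refine ⟨h3.trans_le g1, ?_⟩
      by_contra h5
      push Not at h5
      refine h2 ⟨h5, g2.trans ?_⟩
      calc ρ * (sC V ρ i * m) ≤ ρ * (32 * y) := mul_le_mul_of_nonneg_left h4 hρ0.le
        _ = 32 * (ρ * y) := by ring
  by_cases h3 : y < (c : ℝ) * m ∧ (c : ℝ) * m ≤ 32 * y
  · rw [if_pos (i1.2 h3), if_pos (i2.2 (hiff.1 h3)), sub_self]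
  · rw [if_neg (fun h => h3 (i1.1 h)), if_neg (fun h => h3 (hiff.2 (i2.1 h))), sub_self]

lemma vab_abs (V m : ℕ) : |vab V m| ≤ m.divisors.card := by
  unfold vab
  refine (Finset.abs_sum_le_sum_abs _ _).trans ?_
  have h : ∀ b ∈ m.divisors.filter (fun b => V < b), |(moebius b : ℝ)| ≤ 1 := by
    intro b _
    exact_mod_cast ArithmeticFunction.abs_moebius_le_one
  refine (Finset.sum_le_sum h).trans ?_
  rw [Finset.sum_const, nsmul_eq_mul, mul_one]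
  exact_mod_cast Finset.card_filter_le _ _

lemma vab_zero {V m : ℕ} (h : m ≤ V) : vab V m = 0 := by
  unfold vab
  rw [Finset.filter_false_of_mem, Finset.sum_empty]
  intro b hb
  have := Nat.divisor_le hb
  omega

/-- the expansion of `va3` -/
lemma va3_eq {V : ℕ} {ρ y : ℝ} (hV : 1 ≤ V) (hρ : 1 ≤ ρ) {n : ℕ}
    (hn : sC V ρ n = 32 * y / V) {k : ℕ} (hk : 1 ≤ k) (hky : (k : ℝ) ≤ 32 * y) :
    va3 V k = ∑ i ∈ range n, ∑ c ∈ IO (sC V ρ i) (sC V ρ (i + 1)),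
      if c ∣ k then vonMangoldt c * vab V (k / c) else 0 := by
  rw [sum_pieces hρ, ← Finset.sum_filter]
  unfold va3
  symm
  have hV0 : (0 : ℝ) < V := by exact_mod_cast hV
  refine Finset.sum_subset ?_ ?_
  · intro c hc
    rw [Finset.mem_filter, Finset.mem_Ioc] at hc
    rw [Finset.mem_filter, Nat.mem_divisors]
    exact ⟨⟨hc.2, by omega⟩, hc.1.1⟩
  · intro c hc hc'
    rw [Finset.mem_filter, Nat.mem_divisors] at hc
    rw [Finset.mem_filter, Finset.mem_Ioc] at hc'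
    have h1 : ⌊sC V ρ n⌋₊ < c := by
      by_contra h
      exact hc' ⟨⟨hc.2, not_lt.1 h⟩, hc.1.1⟩
    rw [Nat.floor_lt (sC_pos hV hρ n).le, hn, div_lt_iff₀ hV0] at h1
    obtain ⟨m, rfl⟩ := hc.1.1
    have hc0 : 0 < c := by omega
    rw [Nat.mul_div_cancel_left m hc0]
    have h2 : m ≤ V := by
      by_contra h
      push Not at h
      have h3 : (V : ℝ) ≤ m := by exact_mod_cast h.le
      have h4 : (c : ℝ) * V ≤ c * m := mul_le_mul_of_nonneg_left h3 (Nat.cast_nonneg _)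
      push_cast at hky
      linarith
    rw [vab_zero h2, mul_zero]

/-- the bound for the error -/
noncomputable def er (V : ℕ) (ρ y : ℝ) (n k : ℕ) : ℝ :=
  (if k ∈ IO y (32 * y) then va3 V k else 0) -
    ∑ i ∈ range n, ∑ c ∈ IO (sC V ρ i) (sC V ρ (i + 1)),
      if c ∣ k then vonMangoldt c * vab V (k / c) *
        (if k / c ∈ IO (y / sC V ρ i) (32 * y / sC V ρ i) then 1 else 0) else 0

lemma er_eq {V : ℕ} {ρ y : ℝ} (hV : 1 ≤ V) (hρ : 1 ≤ ρ) (hy : 1 ≤ y) {n : ℕ}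
    (hn : sC V ρ n = 32 * y / V) (k : ℕ) :
    er V ρ y n k = ∑ i ∈ range n, ∑ c ∈ IO (sC V ρ i) (sC V ρ (i + 1)),
      if c ∣ k then vonMangoldt c * vab V (k / c) * dl V ρ y i c k else 0 := by
  have h1 : (if k ∈ IO y (32 * y) then va3 V k else 0) = ∑ i ∈ range n,
      ∑ c ∈ IO (sC V ρ i) (sC V ρ (i + 1)), if c ∣ k then vonMangoldt c * vab V (k / c) *
        (if k ∈ IO y (32 * y) then 1 else 0) else 0 := by
    by_cases hk : k ∈ IO y (32 * y)
    · simp only [hk, if_true, mul_one]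
      rw [mem_IO (by linarith) (by linarith)] at hk
      have hk1 : 1 ≤ k := by
        have : (0 : ℝ) < k := by linarith [hk.1]
        exact_mod_cast this
      exact va3_eq hV hρ hn hk1 hk.2
    · simp only [hk, if_false, mul_zero, ite_self, Finset.sum_const_zero]
  unfold er
  rw [h1, ← Finset.sum_sub_distrib]
  refine Finset.sum_congr rfl fun i _ => ?_
  rw [← Finset.sum_sub_distrib]
  refine Finset.sum_congr rfl fun c _ => ?_
  unfold dl
  by_cases hc : c ∣ k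
  · simp only [hc, if_true]
    ring
  · simp only [hc, if_false, sub_self]

lemma er_zero {V : ℕ} {ρ y : ℝ} (hV : 1 ≤ V) (hρ : 1 ≤ ρ) (hy : 1 ≤ y) {n : ℕ}
    (hn : sC V ρ n = 32 * y / V) {k : ℕ}
    (h1 : k ∉ IO y (ρ * y)) (h2 : k ∉ IO (32 * y) (32 * (ρ * y))) : er V ρ y n k = 0 := by
  rw [er_eq hV hρ hy hn]
  refine Finset.sum_eq_zero fun i _ => Finset.sum_eq_zero fun c hc => ?_
  by_cases hck : c ∣ k
  · rw [if_pos hck, dl_zero hV hρ hy hc hck h1 h2, mul_zero]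
  · rw [if_neg hck]

lemma er_abs {V : ℕ} {ρ y : ℝ} (hV : 1 ≤ V) (hρ : 1 ≤ ρ) (hy : 1 ≤ y) {n : ℕ}
    (hn : sC V ρ n = 32 * y / V) {k : ℕ} (hk : 1 ≤ k) :
    |er V ρ y n k| ≤ Real.log k * k.divisors.card := by
  rw [er_eq hV hρ hy hn]
  have h1 : |∑ i ∈ range n, ∑ c ∈ IO (sC V ρ i) (sC V ρ (i + 1)),
      if c ∣ k then vonMangoldt c * vab V (k / c) * dl V ρ y i c k else 0| ≤
      ∑ i ∈ range n, ∑ c ∈ IO (sC V ρ i) (sC V ρ (i + 1)),
        if c ∣ k then vonMangoldt c * k.divisors.card else 0 := by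
    refine (Finset.abs_sum_le_sum_abs _ _).trans (Finset.sum_le_sum fun i _ => ?_)
    refine (Finset.abs_sum_le_sum_abs _ _).trans (Finset.sum_le_sum fun c _ => ?_)
    by_cases hck : c ∣ k
    · rw [if_pos hck, if_pos hck, abs_mul, abs_mul,
        abs_of_nonneg ArithmeticFunction.vonMangoldt_nonneg]
      have h2 : |vab V (k / c)| ≤ k.divisors.card := by
        refine (vab_abs V _).trans ?_
        have h3 : (k / c).divisors ⊆ k.divisors :=
          Nat.divisors_subset_of_dvd (by omega) (Nat.div_dvd_of_dvd hck)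
        exact_mod_cast Finset.card_le_card h3
      have h3 := dl_abs V ρ y i c k
      have h4 : (0 : ℝ) ≤ vonMangoldt c := ArithmeticFunction.vonMangoldt_nonneg
      calc vonMangoldt c * |vab V (k / c)| * |dl V ρ y i c k|
          ≤ vonMangoldt c * |vab V (k / c)| * 1 :=
            mul_le_mul_of_nonneg_left h3 (by positivity)
        _ = vonMangoldt c * |vab V (k / c)| := mul_one _
        _ ≤ vonMangoldt c * k.divisors.card := mul_le_mul_of_nonneg_left h2 h4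
    · rw [if_neg hck, if_neg hck, abs_zero]
  refine h1.trans ?_
  rw [sum_pieces hρ, ← Finset.sum_filter, ← Finset.sum_mul]
  refine mul_le_mul_of_nonneg_right ?_ (Nat.cast_nonneg _)
  rw [← ArithmeticFunction.vonMangoldt_sum]
  refine Finset.sum_le_sum_of_subset_of_nonneg ?_ fun _ _ _ => ArithmeticFunction.vonMangoldt_nonneg
  intro c hc
  rw [Finset.mem_filter] at hc
  exact Nat.mem_divisors.2 ⟨hc.2, by omega⟩

/-- the inner sum -/
lemma inner (S T : Finset ℕ) {c : ℕ} (hc : 0 < c) (f g : ℕ → ℂ)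
    (h1 : ∀ m ∈ T, f m ≠ 0 → c * m ∈ S) (h2 : ∀ m, c * m ∈ S → f m ≠ 0 → m ∈ T) :
    ∑ k ∈ S, (if c ∣ k then f (k / c) else 0) * g k = ∑ m ∈ T, f m * g (c * m) := by
  symm
  refine Finset.sum_bij_ne_zero (fun m _ _ => c * m) ?_ ?_ ?_ ?_
  · intro m hm hm'
    exact h1 m hm (left_ne_zero_of_mul hm')
  · intro a _ _ b _ _ hab
    exact Nat.eq_of_mul_eq_mul_left hc hab
  · intro k hk hk'
    have h3 := left_ne_zero_of_mul hk'
    by_cases hd : c ∣ k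
    · obtain ⟨m, rfl⟩ := hd
      rw [if_pos (Dvd.intro m rfl), Nat.mul_div_cancel_left m hc] at h3 hk'
      exact ⟨m, h2 m hk h3, hk', rfl⟩
    · rw [if_neg hd] at h3
      exact absurd rfl h3
  · intro m _ _
    rw [if_pos (Dvd.intro m rfl), Nat.mul_div_cancel_left m hc]

lemma main_i {V : ℕ} {ρ y : ℝ} (hV : 1 ≤ V) (hρ : 1 ≤ ρ) (hρ2 : ρ ≤ 2) (hy : 1 ≤ y) (i : ℕ)
    (χ : ℕ → ℂ) (hχ : ∀ m n, χ (m * n) = χ m * χ n) (t : ℝ) :
    DP (IO (sC V ρ i) (sC V ρ (i + 1))) (fun n => (vonMangoldt n : ℂ) * χ n) t *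
      DP (IO (y / sC V ρ i) (32 * y / sC V ρ i)) (fun m => (vab V m : ℂ) * χ m) t =
    ∑ k ∈ IO y (64 * y), ((∑ c ∈ IO (sC V ρ i) (sC V ρ (i + 1)),
      if c ∣ k then vonMangoldt c * vab V (k / c) *
        (if k / c ∈ IO (y / sC V ρ i) (32 * y / sC V ρ i) then 1 else 0) else 0 : ℝ) : ℂ) *
        (χ k * nit k t) := by
  have hs := sC_pos hV hρ i
  have hρ0 : 0 < ρ := by linarith
  have e1 : ∀ k ∈ IO y (64 * y), ((∑ c ∈ IO (sC V ρ i) (sC V ρ (i + 1)),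
      if c ∣ k then vonMangoldt c * vab V (k / c) *
        (if k / c ∈ IO (y / sC V ρ i) (32 * y / sC V ρ i) then 1 else 0) else 0 : ℝ) : ℂ) *
        (χ k * nit k t) = ∑ c ∈ IO (sC V ρ i) (sC V ρ (i + 1)),
      (if c ∣ k then ((fun m => (((vonMangoldt c * vab V m *
        (if m ∈ IO (y / sC V ρ i) (32 * y / sC V ρ i) then 1 else 0) : ℝ) : ℂ))) (k / c)) else 0) *
        (χ k * nit k t) := by
    intro k _
    rw [Complex.ofReal_sum, Finset.sum_mul]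
    refine Finset.sum_congr rfl fun c _ => ?_
    by_cases hck : c ∣ k
    · rw [if_pos hck, if_pos hck]
    · rw [if_neg hck, if_neg hck, Complex.ofReal_zero]
  rw [Finset.sum_congr rfl e1, Finset.sum_comm]
  unfold DP
  rw [Finset.sum_mul]
  refine Finset.sum_congr rfl fun c hc => ?_
  rw [mem_IO hs.le (by rw [sC_succ]; positivity), sC_succ] at hc
  have hc0 : 0 < c := by
    have : (0 : ℝ) < c := hs.trans hc.1
    exact_mod_cast this
  rw [inner (IO y (64 * y)) (IO (y / sC V ρ i) (32 * y / sC V ρ i)) hc0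
    (fun m => ((vonMangoldt c * vab V m *
        (if m ∈ IO (y / sC V ρ i) (32 * y / sC V ρ i) then 1 else 0) : ℝ) : ℂ))
    (fun k => χ k * nit k t), Finset.mul_sum]
  · refine Finset.sum_congr rfl fun m hm => ?_
    have hm0 : 1 ≤ m := by
      unfold IO at hm
      rw [Finset.mem_Ioc] at hm
      omega
    rw [if_pos hm, hχ, nit_mul hc0 hm0]
    push_cast
    ring
  · intro m hm _
    rw [mem_IO (by positivity) (by positivity), div_lt_iff₀ hs, le_div_iff₀ hs] at hm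
    rw [mem_IO (by positivity) (by positivity)]
    push_cast
    have hm' : (0 : ℝ) < m := by
      by_contra h
      push Not at h
      have h3 : (m : ℝ) * sC V ρ i ≤ 0 := mul_nonpos_of_nonpos_of_nonneg h hs.le
      linarith [hm.1]
    constructor
    · calc y < m * sC V ρ i := hm.1
        _ = sC V ρ i * m := mul_comm _ _
        _ ≤ c * m := mul_le_mul_of_nonneg_right hc.1.le hm'.le
    · calc (c : ℝ) * m ≤ (ρ * sC V ρ i) * m := mul_le_mul_of_nonneg_right hc.2 hm'.le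
        _ = ρ * (m * sC V ρ i) := by ring
        _ ≤ 2 * (32 * y) := mul_le_mul hρ2 hm.2 (by positivity) (by norm_num)
        _ = 64 * y := by ring
  · intro m _ hm
    by_contra h
    rw [if_neg h, mul_zero] at hm
    exact hm Complex.ofReal_zero

/-- the decomposition -/
lemma decomp {V : ℕ} {ρ y : ℝ} (hV : 1 ≤ V) (hρ : 1 ≤ ρ) (hρ2 : ρ ≤ 2) (hy : 1 ≤ y) (n : ℕ)
    (χ : ℕ → ℂ) (hχ : ∀ m n, χ (m * n) = χ m * χ n) (t : ℝ) :
    DP (IO y (32 * y)) (fun k => (va3 V k : ℂ) * χ k) t =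
      ∑ i ∈ range n, DP (IO (sC V ρ i) (sC V ρ (i + 1))) (fun n => (vonMangoldt n : ℂ) * χ n) t *
        DP (IO (y / sC V ρ i) (32 * y / sC V ρ i)) (fun m => (vab V m : ℂ) * χ m) t +
      DP (IO y (64 * y)) (fun k => (er V ρ y n k : ℂ) * χ k) t := by
  rw [Finset.sum_congr rfl fun i _ => main_i hV hρ hρ2 hy i χ hχ t, Finset.sum_comm]
  have e1 : DP (IO y (32 * y)) (fun k => (va3 V k : ℂ) * χ k) t =
      ∑ k ∈ IO y (64 * y), ((if k ∈ IO y (32 * y) then va3 V k else 0 : ℝ) : ℂ) *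
        (χ k * nit k t) := by
    have hsub : IO y (32 * y) ⊆ IO y (64 * y) := by
      intro k hk
      rw [mem_IO (by linarith) (by linarith)] at hk ⊢
      exact ⟨hk.1, by linarith [hk.2]⟩
    unfold DP
    rw [← Finset.sum_subset hsub (f := fun k => ((if k ∈ IO y (32 * y) then va3 V k else 0 : ℝ) : ℂ) *
        (χ k * nit k t))]
    · refine Finset.sum_congr rfl fun k hk => ?_
      rw [if_pos hk]
      ring
    · intro k _ hk
      simp only [if_neg hk, Complex.ofReal_zero, zero_mul]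
  rw [e1]
  unfold DP
  rw [← Finset.sum_add_distrib]
  refine Finset.sum_congr rfl fun k _ => ?_
  rw [← Finset.sum_mul]
  unfold er
  push_cast
  ring

lemma card_IO_le {a b : ℝ} (ha : 0 ≤ a) (hab : a ≤ b) : ((IO a b).card : ℝ) ≤ b - a + 1 := by
  unfold IO
  rw [Nat.card_Ioc, Nat.cast_sub (Nat.floor_le_floor hab)]
  have h1 := Nat.floor_le (ha.trans hab)
  have h2 := Nat.lt_floor_add_one a
  linarith

/-- the mean square of the divisor function over short intervals -/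
lemma tau_short (hDIV : SpecDIV) {L κ ρ y : ℝ} (hL : 1 ≤ L) (hy : 1 ≤ y) (hρ : 1 ≤ ρ)
    (hρ2 : ρ ≤ 2) (hκ : ρ ≤ 1 + κ) (hκy : 2 ≤ κ * y) (hlog : 1 + Real.log (64 * y) ≤ 2 * L) :
    (∑ k ∈ IO y (ρ * y) ∪ IO (32 * y) (32 * (ρ * y)), (k.divisors.card : ℝ) ^ 2) ^ 2 ≤
      2 ^ 28 * κ * y ^ 2 * L ^ 15 := by
  have hy0 : 0 < y := by linarith
  have hρy : y ≤ ρ * y := by nlinarith
  have hρy2 : ρ * y ≤ 2 * y := by nlinarith
  have hρκ : ρ * y ≤ y + κ * y := by nlinarith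
  obtain ⟨J, hJ⟩ : ∃ J, J = IO y (ρ * y) ∪ IO (32 * y) (32 * (ρ * y)) := ⟨_, rfl⟩
  rw [← hJ]
  have hcard : (J.card : ℝ) ≤ 34 * (κ * y) := by
    have h1 : (J.card : ℝ) ≤ (IO y (ρ * y)).card + (IO (32 * y) (32 * (ρ * y))).card := by
      rw [hJ]
      exact_mod_cast Finset.card_union_le _ _
    have h2 := card_IO_le hy0.le hρy
    have h3 := card_IO_le (a := 32 * y) (b := 32 * (ρ * y)) (by linarith) (by linarith)
    linarith
  have hsub : J ⊆ Icc 1 ⌊64 * y⌋₊ := by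
    intro k hk
    rw [hJ, Finset.mem_union, mem_IO (by positivity) (by positivity),
      mem_IO (by positivity) (by positivity)] at hk
    rw [Finset.mem_Icc, Nat.le_floor_iff (by positivity)]
    have h1 : (0 : ℝ) < k ∧ (k : ℝ) ≤ 64 * y := by
      rcases hk with ⟨h1, h2⟩ | ⟨h1, h2⟩
      · exact ⟨by linarith, by linarith⟩
      · exact ⟨by linarith, by linarith⟩
    exact ⟨by exact_mod_cast h1.1, h1.2⟩
  have hX1 : 1 ≤ ⌊64 * y⌋₊ := by
    rw [Nat.le_floor_iff (by positivity)]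
    push_cast
    linarith
  have hXle : ((⌊64 * y⌋₊ : ℕ) : ℝ) ≤ 64 * y := Nat.floor_le (by positivity)
  have hX0 : (0 : ℝ) < ((⌊64 * y⌋₊ : ℕ) : ℝ) := by exact_mod_cast hX1
  have h4 : ∑ k ∈ J, (k.divisors.card : ℝ) ^ 4 ≤ 64 * y * (2 * L) ^ 15 := by
    refine (Finset.sum_le_sum_of_subset_of_nonneg hsub fun _ _ _ => by positivity).trans ?_
    refine ((hDIV 4 ⌊64 * y⌋₊ hX1).1).trans ?_
    have h5 : 1 + Real.log ((⌊64 * y⌋₊ : ℕ) : ℝ) ≤ 2 * L :=
      (add_le_add_right (Real.log_le_log hX0 hXle) 1).trans hlog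
    have h6 : 0 ≤ 1 + Real.log ((⌊64 * y⌋₊ : ℕ) : ℝ) := by
      have := Real.log_nonneg (x := ((⌊64 * y⌋₊ : ℕ) : ℝ)) (by exact_mod_cast hX1)
      linarith
    exact mul_le_mul hXle (pow_le_pow_left₀ h6 h5 _) (pow_nonneg h6 _) (by positivity)
  have h7 : (∑ k ∈ J, (k.divisors.card : ℝ) ^ 2) ^ 2 ≤
      J.card * ∑ k ∈ J, ((k.divisors.card : ℝ) ^ 2) ^ 2 := sq_sum_le_card_mul_sum_sq
  have h8 : ∑ k ∈ J, ((k.divisors.card : ℝ) ^ 2) ^ 2 = ∑ k ∈ J, (k.divisors.card : ℝ) ^ 4 :=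
    Finset.sum_congr rfl fun k _ => by ring
  rw [h8] at h7
  refine h7.trans ?_
  calc (J.card : ℝ) * ∑ k ∈ J, (k.divisors.card : ℝ) ^ 4
      ≤ (34 * (κ * y)) * (64 * y * (2 * L) ^ 15) :=
        mul_le_mul hcard h4 (Finset.sum_nonneg fun _ _ => by positivity) (by nlinarith)
    _ = (34 * 64 * 2 ^ 15) * (κ * y * (y * L ^ 15)) := by ring
    _ ≤ 2 ^ 28 * (κ * y * (y * L ^ 15)) := by
        refine mul_le_mul_of_nonneg_right (by norm_num) ?_
        have : 0 ≤ κ * y := by linarith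
        positivity
    _ = 2 ^ 28 * κ * y ^ 2 * L ^ 15 := by ring

/-- the sum of the squares of the error -/
lemma er_sum {V : ℕ} {L ρ y B : ℝ} (hV : 1 ≤ V) (hρ : 1 ≤ ρ) (hy : 1 ≤ y) {n : ℕ}
    (hn : sC V ρ n = 32 * y / V) (hL : 1 ≤ L) (hlog : 1 + Real.log (64 * y) ≤ 2 * L)
    (hB : ∑ k ∈ IO y (ρ * y) ∪ IO (32 * y) (32 * (ρ * y)), (k.divisors.card : ℝ) ^ 2 ≤ B) :
    ∑ k ∈ IO y (64 * y), |er V ρ y n k| ^ 2 ≤ 4 * L ^ 2 * B := by
  have hy0 : 0 < y := by linarith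
  have h1 : ∑ k ∈ IO y (64 * y), |er V ρ y n k| ^ 2 ≤
      ∑ k ∈ IO y (ρ * y) ∪ IO (32 * y) (32 * (ρ * y)), 4 * L ^ 2 * (k.divisors.card : ℝ) ^ 2 := by
    have h2 : ∀ k ∈ IO y (64 * y), |er V ρ y n k| ^ 2 ≤
        if k ∈ IO y (ρ * y) ∪ IO (32 * y) (32 * (ρ * y)) then
          4 * L ^ 2 * (k.divisors.card : ℝ) ^ 2 else 0 := by
      intro k hk
      rw [mem_IO (by positivity) (by positivity)] at hk
      have hk0 : (0 : ℝ) < k := by linarith [hk.1]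
      have hk1 : 1 ≤ k := by exact_mod_cast hk0
      by_cases hkJ : k ∈ IO y (ρ * y) ∪ IO (32 * y) (32 * (ρ * y))
      · rw [if_pos hkJ]
        have h3 := er_abs hV hρ hy hn hk1
        have h4 : Real.log k ≤ 2 * L := by
          have := Real.log_le_log hk0 hk.2
          linarith
        have h5 : 0 ≤ Real.log k := Real.log_nonneg (by exact_mod_cast hk1)
        calc |er V ρ y n k| ^ 2 ≤ (Real.log k * k.divisors.card) ^ 2 :=
              pow_le_pow_left₀ (abs_nonneg _) h3 2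
          _ ≤ (2 * L * k.divisors.card) ^ 2 :=
              pow_le_pow_left₀ (by positivity)
                (mul_le_mul_of_nonneg_right h4 (Nat.cast_nonneg _)) 2
          _ = 4 * L ^ 2 * (k.divisors.card : ℝ) ^ 2 := by ring
      · rw [if_neg hkJ]
        rw [Finset.mem_union, not_or] at hkJ
        rw [er_zero hV hρ hy hn hkJ.1 hkJ.2]
        simp
    refine (Finset.sum_le_sum h2).trans ?_
    rw [← Finset.sum_filter]
    refine Finset.sum_le_sum_of_subset_of_nonneg ?_ fun _ _ _ => by positivity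
    intro k hk
    exact (Finset.mem_filter.1 hk).2
  refine h1.trans ?_
  rw [← Finset.mul_sum]
  exact mul_le_mul_of_nonneg_left hB (by positivity)

/-- the second factor -/
lemma second {C N y s : ℝ} {V : ℕ} (hDIV : SpecDIV) (hC : 0 < C) (hN : 1 ≤ N)
    (hVN : N ^ ((1 : ℝ) / 8) ≤ V) (hs1 : 1 ≤ s) (hs : s ≤ 32 * y / V) (hyN : y ≤ N) (hy : 1 ≤ y)
    (hL : 1 ≤ Real.log N) (hlog : 1 + Real.log (64 * y) ≤ 2 * Real.log N) (E : Set ℝ)
    (hH : ∀ (x : ℝ) (S : Finset ℕ) (a : ℕ → ℂ), N ^ ((1 : ℝ) / 8) ≤ x → x ≤ 64 * N →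
      S ⊆ IO x (64 * x) → ∫ t in E, ‖DP S a t‖ ^ 2 ≤ C * x * Real.log N * ∑ n ∈ S, ‖a n‖ ^ 2)
    (χ : ℕ → ℂ) (hχ : ∀ n, ‖χ n‖ ≤ 1) :
    ∫ t in E, ‖DP (IO (y / s) (32 * y / s)) (fun m => (vab V m : ℂ) * χ m) t‖ ^ 2 ≤
      8192 * C * (y / s) ^ 2 * Real.log N ^ 4 := by
  have hs0 : 0 < s := by linarith
  have hN8 : 1 ≤ N ^ ((1 : ℝ) / 8) := Real.one_le_rpow hN (by norm_num)
  have hN8' : N ^ ((1 : ℝ) / 8) ≤ N := by
    calc N ^ ((1 : ℝ) / 8) ≤ N ^ (1 : ℝ) := Real.rpow_le_rpow_of_exponent_le hN (by norm_num)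
      _ = N := Real.rpow_one N
  have hV0 : (0 : ℝ) < V := by linarith
  have hys : (V : ℝ) ≤ 32 * (y / s) := by
    rw [le_div_iff₀ hV0] at hs
    rw [← mul_div_assoc, le_div_iff₀ hs0]
    linarith
  have hys0 : 0 < y / s := by positivity
  have hysN : y / s ≤ N := by
    rw [div_le_iff₀ hs0]
    nlinarith
  obtain ⟨S, hS⟩ : ∃ S, S = (IO (y / s) (32 * y / s)).filter (fun m => V < m) := ⟨_, rfl⟩
  have e1 : ∀ t, DP (IO (y / s) (32 * y / s)) (fun m => (vab V m : ℂ) * χ m) t =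
      DP S (fun m => (vab V m : ℂ) * χ m) t := by
    intro t
    unfold DP
    rw [hS]
    symm
    refine Finset.sum_subset (Finset.filter_subset _ _) ?_
    intro m hm hm'
    rw [Finset.mem_filter, not_and, not_lt] at hm'
    show ((vab V m : ℝ) : ℂ) * χ m * nit m t = 0
    rw [vab_zero (hm' hm)]
    simp
  simp_rw [e1]
  have hmS : ∀ m ∈ S, y / s < m ∧ (m : ℝ) ≤ 32 * y / s ∧ (V : ℝ) < m := by
    intro m hm
    rw [hS, Finset.mem_filter, mem_IO hys0.le (by positivity)] at hm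
    exact ⟨hm.1.1, hm.1.2, by exact_mod_cast hm.2⟩
  have hx : max (y / s) (N ^ ((1 : ℝ) / 8)) ≤ 32 * (y / s) :=
    max_le (by linarith) (hVN.trans hys)
  refine (hH (max (y / s) (N ^ ((1 : ℝ) / 8))) S _ (le_max_right _ _)
    (max_le (by linarith) (by linarith)) ?_).trans ?_
  · intro m hm
    obtain ⟨h1, h2, h3⟩ := hmS m hm
    rw [mem_IO (by positivity) (by positivity)]
    refine ⟨max_lt h1 (hVN.trans_lt h3), h2.trans ?_⟩
    have h4 := le_max_left (y / s) (N ^ ((1 : ℝ) / 8))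
    rw [mul_div_assoc]
    linarith
  · have hX1 : 1 ≤ ⌊32 * y / s⌋₊ := by
      rw [Nat.le_floor_iff (by positivity)]
      push_cast
      rw [mul_div_assoc]
      linarith
    have hXle : ((⌊32 * y / s⌋₊ : ℕ) : ℝ) ≤ 32 * y / s := Nat.floor_le (by positivity)
    have hX0 : (0 : ℝ) < ((⌊32 * y / s⌋₊ : ℕ) : ℝ) := by exact_mod_cast hX1
    have h4 : ∑ m ∈ S, ‖(vab V m : ℂ) * χ m‖ ^ 2 ≤ 256 * (y / s) * Real.log N ^ 3 := by
      have h5 : ∀ m ∈ S, ‖(vab V m : ℂ) * χ m‖ ^ 2 ≤ (m.divisors.card : ℝ) ^ 2 := by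
        intro m _
        rw [norm_mul, Complex.norm_real, Real.norm_eq_abs]
        refine pow_le_pow_left₀ (by positivity) ?_ 2
        calc |vab V m| * ‖χ m‖ ≤ |vab V m| * 1 := mul_le_mul_of_nonneg_left (hχ m) (abs_nonneg _)
          _ = |vab V m| := mul_one _
          _ ≤ m.divisors.card := vab_abs V m
      refine (Finset.sum_le_sum h5).trans ?_
      have hsub : S ⊆ Icc 1 ⌊32 * y / s⌋₊ := by
        intro m hm
        obtain ⟨h1, h2, h3⟩ := hmS m hm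
        rw [Finset.mem_Icc, Nat.le_floor_iff (by positivity)]
        refine ⟨?_, h2⟩
        have : (0 : ℝ) < m := by linarith
        exact_mod_cast this
      refine (Finset.sum_le_sum_of_subset_of_nonneg hsub fun _ _ _ => by positivity).trans ?_
      refine ((hDIV 2 ⌊32 * y / s⌋₊ hX1).1).trans ?_
      have h6 : 1 + Real.log ((⌊32 * y / s⌋₊ : ℕ) : ℝ) ≤ 2 * Real.log N := by
        refine (add_le_add_right (Real.log_le_log hX0 ?_) 1).trans hlog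
        refine hXle.trans ?_
        rw [div_le_iff₀ hs0]
        nlinarith
      have h7 : 0 ≤ 1 + Real.log ((⌊32 * y / s⌋₊ : ℕ) : ℝ) := by
        have := Real.log_nonneg (x := ((⌊32 * y / s⌋₊ : ℕ) : ℝ)) (by exact_mod_cast hX1)
        linarith
      calc ((⌊32 * y / s⌋₊ : ℕ) : ℝ) * (1 + Real.log ((⌊32 * y / s⌋₊ : ℕ) : ℝ)) ^ (2 ^ 2 - 1)
          ≤ (32 * y / s) * (2 * Real.log N) ^ (2 ^ 2 - 1) :=
            mul_le_mul hXle (pow_le_pow_left₀ h7 h6 _) (pow_nonneg h7 _) (by positivity)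
        _ = 256 * (y / s) * Real.log N ^ 3 := by
            norm_num
            ring
    have hL0 : 0 < Real.log N := by linarith
    calc C * max (y / s) (N ^ ((1 : ℝ) / 8)) * Real.log N * ∑ m ∈ S, ‖(vab V m : ℂ) * χ m‖ ^ 2
        ≤ C * (32 * (y / s)) * Real.log N * (256 * (y / s) * Real.log N ^ 3) := by
          refine mul_le_mul ?_ h4 (Finset.sum_nonneg fun _ _ => by positivity) (by positivity)
          exact mul_le_mul_of_nonneg_right (mul_le_mul_of_nonneg_left hx hC.le) hL0.le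
      _ = 8192 * C * (y / s) ^ 2 * Real.log N ^ 4 := by ring

lemma intOn {f : ℝ → ℝ} (hf : Continuous f) {E : Set ℝ} {N : ℝ} (hE : E ⊆ Set.Icc (-N) N) :
    IntegrableOn f E :=
  (hf.continuousOn.integrableOn_compact isCompact_Icc).mono_set hE

/-- the main part -/
lemma mainpart {n : ℕ} {E : Set ℝ} {N G : ℝ} (hEm : MeasurableSet E) (hE : E ⊆ Set.Icc (-N) N)
    (A B : ℕ → ℝ → ℂ) (hA : ∀ i, Continuous (A i)) (hB : ∀ i, Continuous (B i)) (a b : ℕ → ℝ)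
    (ha : ∀ i < n, ∀ t ∈ E, ‖A i t‖ ≤ a i) (hb : ∀ i < n, ∫ t in E, ‖B i t‖ ^ 2 ≤ b i)
    (hG : ∀ i < n, a i ^ 2 * b i ≤ G) :
    ∫ t in E, ‖∑ i ∈ range n, A i t * B i t‖ ^ 2 ≤ (n : ℝ) ^ 2 * G := by
  have h1 : ∀ t, ‖∑ i ∈ range n, A i t * B i t‖ ^ 2 ≤
      n * ∑ i ∈ range n, ‖A i t‖ ^ 2 * ‖B i t‖ ^ 2 := by
    intro t
    calc ‖∑ i ∈ range n, A i t * B i t‖ ^ 2 ≤ (∑ i ∈ range n, ‖A i t * B i t‖) ^ 2 :=
          pow_le_pow_left₀ (norm_nonneg _) (norm_sum_le _ _) 2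
      _ ≤ (range n).card * ∑ i ∈ range n, ‖A i t * B i t‖ ^ 2 := sq_sum_le_card_mul_sum_sq
      _ = n * ∑ i ∈ range n, ‖A i t‖ ^ 2 * ‖B i t‖ ^ 2 := by
          rw [Finset.card_range]
          congr 1
          refine Finset.sum_congr rfl fun i _ => ?_
          rw [norm_mul, mul_pow]
  have hcAB : ∀ i, Continuous fun t => ‖A i t‖ ^ 2 * ‖B i t‖ ^ 2 := fun i =>
    ((hA i).norm.pow 2).mul ((hB i).norm.pow 2)
  have h2 : ∫ t in E, ‖∑ i ∈ range n, A i t * B i t‖ ^ 2 ≤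
      ∫ t in E, (n * ∑ i ∈ range n, ‖A i t‖ ^ 2 * ‖B i t‖ ^ 2 : ℝ) := by
    refine setIntegral_mono (intOn ?_ hE) (intOn ?_ hE) h1
    · exact (continuous_finsetSum _ fun i _ => (hA i).mul (hB i)).norm.pow 2
    · exact continuous_const.mul (continuous_finsetSum _ fun i _ => hcAB i)
  refine h2.trans ?_
  rw [integral_const_mul, integral_finsetSum _ fun i _ => intOn (hcAB i) hE]
  have h3 : ∀ i ∈ range n, ∫ t in E, ‖A i t‖ ^ 2 * ‖B i t‖ ^ 2 ≤ G := by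
    intro i hi
    rw [Finset.mem_range] at hi
    have h4 : ∫ t in E, ‖A i t‖ ^ 2 * ‖B i t‖ ^ 2 ≤ ∫ t in E, a i ^ 2 * ‖B i t‖ ^ 2 := by
      refine setIntegral_mono_on (intOn (hcAB i) hE)
        (intOn (continuous_const.mul ((hB i).norm.pow 2)) hE) hEm fun t ht => ?_
      exact mul_le_mul_of_nonneg_right (pow_le_pow_left₀ (norm_nonneg _) (ha i hi t ht) 2)
        (by positivity)
    refine h4.trans ?_
    rw [integral_const_mul]
    exact (mul_le_mul_of_nonneg_left (hb i hi) (sq_nonneg _)).trans (hG i hi)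
  calc (n : ℝ) * ∑ i ∈ range n, ∫ t in E, ‖A i t‖ ^ 2 * ‖B i t‖ ^ 2
      ≤ n * ∑ i ∈ range n, G :=
        mul_le_mul_of_nonneg_left (Finset.sum_le_sum h3) (Nat.cast_nonneg _)
    _ = (n : ℝ) ^ 2 * G := by
        rw [Finset.sum_const, Finset.card_range, nsmul_eq_mul]
        ring

lemma combine {E : Set ℝ} {N : ℝ} (hE : E ⊆ Set.Icc (-N) N) (f f1 f2 : ℝ → ℝ)
    (hf : Continuous f) (hf1 : Continuous f1) (hf2 : Continuous f2)
    (h : ∀ t, f t ≤ 2 * f1 t + 2 * f2 t) (a1 a2 : ℝ) (h1 : ∫ t in E, f1 t ≤ a1)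
    (h2 : ∫ t in E, f2 t ≤ a2) : ∫ t in E, f t ≤ 2 * a1 + 2 * a2 := by
  have c1 : IntegrableOn (fun t => 2 * f1 t) E := intOn (continuous_const.mul hf1) hE
  have c2 : IntegrableOn (fun t => 2 * f2 t) E := intOn (continuous_const.mul hf2) hE
  have h3 : ∫ t in E, f t ≤ ∫ t in E, (2 * f1 t + 2 * f2 t) :=
    setIntegral_mono (intOn hf hE) (c1.add c2) h
  rw [integral_add c1 c2, integral_const_mul, integral_const_mul] at h3
  linarith

/-- the cutting ratio -/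
lemma exists_rho {V n : ℕ} {y L Fx : ℝ} (hV : 1 ≤ V) (hVy : (V : ℝ) ^ 2 ≤ 32 * y) (hn : 1 ≤ n)
    (hL : 0 < L) (hR : Real.log (32 * y / (V : ℝ) ^ 2) ≤ 2 * L) (hnL : Fx * L ≤ n)
    (hFx : 4 ≤ Fx) :
    ∃ ρ : ℝ, 1 ≤ ρ ∧ ρ ≤ 2 ∧ ρ ≤ 1 + 4 / Fx ∧ sC V ρ n = 32 * y / V := by
  have hV0 : (0 : ℝ) < V := by exact_mod_cast hV
  have hV2 : (0 : ℝ) < (V : ℝ) ^ 2 := by positivity
  have hR1 : 1 ≤ 32 * y / (V : ℝ) ^ 2 := by
    rw [le_div_iff₀ hV2]
    linarith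
  have hR0 : 0 < 32 * y / (V : ℝ) ^ 2 := by linarith
  have hn0 : (0 : ℝ) < n := by exact_mod_cast hn
  have hFx0 : 0 < Fx := by linarith
  have h1 : 1 ≤ (32 * y / (V : ℝ) ^ 2) ^ ((n : ℝ)⁻¹) :=
    Real.one_le_rpow hR1 (inv_nonneg.2 hn0.le)
  have h2 : (32 * y / (V : ℝ) ^ 2) ^ ((n : ℝ)⁻¹) ≤ 1 + 4 / Fx := by
    rw [Real.rpow_def_of_pos hR0]
    have h3 : Real.log (32 * y / (V : ℝ) ^ 2) * (n : ℝ)⁻¹ ≤ 2 / Fx := by
      rw [← div_eq_mul_inv, div_le_iff₀ hn0]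
      have h5 : 2 / Fx * (Fx * L) ≤ 2 / Fx * n := mul_le_mul_of_nonneg_left hnL (by positivity)
      have h6 : 2 / Fx * (Fx * L) = 2 * L := by field_simp
      linarith
    have h4 : 0 ≤ Real.log (32 * y / (V : ℝ) ^ 2) * (n : ℝ)⁻¹ :=
      mul_nonneg (Real.log_nonneg hR1) (inv_nonneg.2 hn0.le)
    have h5 : 2 / Fx ≤ 1 := by
      rw [div_le_one hFx0]
      linarith
    have h6 := Real.abs_exp_sub_one_le
      (x := Real.log (32 * y / (V : ℝ) ^ 2) * (n : ℝ)⁻¹) (by rw [abs_of_nonneg h4]; linarith)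
    rw [abs_of_nonneg h4] at h6
    have h7 := le_abs_self (Real.exp (Real.log (32 * y / (V : ℝ) ^ 2) * (n : ℝ)⁻¹) - 1)
    have h8 : 4 / Fx = 2 * (2 / Fx) := by ring
    linarith
  refine ⟨_, h1, h2.trans ?_, h2, ?_⟩
  · have h3 : 4 / Fx ≤ 1 := by
      rw [div_le_one hFx0]
      linarith
    linarith
  · unfold sC
    rw [Real.rpow_inv_natCast_pow hR0.le (by omega)]
    field_simp

end TYJM

open TYJM

theorem specTYJ (hPPL : SpecPPL) (hHMJ : SpecHMJ) (hDIV : SpecDIV) : SpecTYJ := by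
  obtain ⟨η₀, C, N₂, hη₀, -, hC, hHM⟩ := hHMJ
  refine ⟨η₀, hη₀, fun D b hD hb => ?_⟩
  obtain ⟨F, hF⟩ : ∃ F : ℝ, F = 2 * D + 23 := ⟨_, rfl⟩
  obtain ⟨A, hA⟩ : ∃ A : ℝ, A = F + 3 + (D + 1) / 2 := ⟨_, rfl⟩
  obtain ⟨K, N₁, hK, hP⟩ := hPPL A (max b 1) (by linarith) (le_max_right _ _)
  have ev : ∀ᶠ N : ℝ in Filter.atTop, N₁ ≤ N ∧ N₂ ≤ N ∧ 1 ≤ N ∧ 6 ≤ Real.log N ∧
      C * 2 ^ 19 ≤ Real.log N ∧ Real.log N ^ F ≤ N ^ ((1 : ℝ) / 2) := by
    have h1 : ∀ᶠ N : ℝ in Filter.atTop, Real.log N ^ F ≤ N ^ ((1 : ℝ) / 2) := by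
      have h2 := (isLittleO_log_rpow_rpow_atTop F (by norm_num : (0 : ℝ) < 1 / 2)).bound
        (by norm_num : (0 : ℝ) < 1)
      filter_upwards [h2, Filter.eventually_ge_atTop (1 : ℝ)] with N h3 h4
      rw [one_mul, Real.norm_eq_abs, Real.norm_eq_abs,
        abs_of_nonneg (Real.rpow_nonneg (Real.log_nonneg h4) _),
        abs_of_nonneg (Real.rpow_nonneg (by linarith) _)] at h3
      exact h3
    filter_upwards [Filter.eventually_ge_atTop N₁, Filter.eventually_ge_atTop N₂,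
      Filter.eventually_ge_atTop (1 : ℝ), Real.tendsto_log_atTop.eventually_ge_atTop 6,
      Real.tendsto_log_atTop.eventually_ge_atTop (C * 2 ^ 19), h1] with N a1 a2 a3 a4 a5 a6
    exact ⟨a1, a2, a3, a4, a5, a6⟩
  obtain ⟨N₀, hN₀⟩ := Filter.eventually_atTop.1 ev
  refine ⟨K, N₀, hK, ?_⟩
  intro N y q _ χ E hN hNy hyN hq hEm hEN hvol haway
  obtain ⟨hN1, hN2, hN0, hL6, hLC, hLF⟩ := hN₀ N hN
  obtain ⟨L, hLdef⟩ : ∃ L, L = Real.log N := ⟨_, rfl⟩
  have hNpos : 0 < N := by linarith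
  rw [← hLdef] at hL6 hLC hLF hq ⊢
  have hL0 : 0 < L := by linarith
  have hL1 : 1 ≤ L := by linarith
  have hN12 : 1 ≤ N ^ ((1 : ℝ) / 2) := Real.one_le_rpow hN0 (by norm_num)
  have hN18 : 1 ≤ N ^ ((1 : ℝ) / 8) := Real.one_le_rpow hN0 (by norm_num)
  have hy1 : 1 ≤ y := hN12.trans hNy
  have hy0 : 0 < y := by linarith
  obtain ⟨V, hVdef⟩ : ∃ V, V = ⌊N ^ ((1 : ℝ) / 8)⌋₊ + 1 := ⟨_, rfl⟩
  rw [← hVdef]
  have hV1 : 1 ≤ V := by omega
  have hV0 : (0 : ℝ) < V := by exact_mod_cast hV1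
  have hVN : N ^ ((1 : ℝ) / 8) ≤ V := by
    rw [hVdef]
    push_cast
    exact (Nat.lt_floor_add_one _).le
  have hVN' : (V : ℝ) ≤ 2 * N ^ ((1 : ℝ) / 8) := by
    rw [hVdef]
    push_cast
    have := Nat.floor_le (zero_le_one.trans hN18)
    linarith
  have hVy : (V : ℝ) ^ 2 ≤ 32 * y := by
    have h1 : (V : ℝ) ^ 2 ≤ (2 * N ^ ((1 : ℝ) / 8)) ^ 2 := pow_le_pow_left₀ hV0.le hVN' 2
    have h2 : (2 * N ^ ((1 : ℝ) / 8)) ^ 2 = 4 * N ^ ((1 : ℝ) / 4) := by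
      rw [mul_pow, ← Real.rpow_natCast (N ^ ((1 : ℝ) / 8)) 2, ← Real.rpow_mul hNpos.le]
      norm_num
    have h3 : N ^ ((1 : ℝ) / 4) ≤ N ^ ((1 : ℝ) / 2) :=
      Real.rpow_le_rpow_of_exponent_le hN0 (by norm_num)
    linarith
  have hlog64 : Real.log 64 ≤ 5 := by
    have h1 : (64 : ℝ) = 2 ^ 6 := by norm_num
    rw [h1, Real.log_pow]
    have := Real.log_two_lt_d9
    push_cast
    linarith
  have hlogy : Real.log y ≤ L := by
    rw [hLdef]
    exact Real.log_le_log hy0 hyN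
  have hlog : 1 + Real.log (64 * y) ≤ 2 * L := by
    rw [Real.log_mul (by norm_num) hy0.ne']
    linarith
  have hR : Real.log (32 * y / (V : ℝ) ^ 2) ≤ 2 * L := by
    have h1 : Real.log (32 * y / (V : ℝ) ^ 2) ≤ Real.log (64 * y) := by
      refine Real.log_le_log (by positivity) ?_
      rw [div_le_iff₀ (by positivity)]
      have h2 : (1 : ℝ) ≤ V := by exact_mod_cast hV1
      have h3 : (1 : ℝ) ≤ (V : ℝ) ^ 2 := one_le_pow₀ h2
      nlinarith
    linarith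
  have hFpos : 0 < F := by linarith
  have hLFpos : 0 < L ^ F := Real.rpow_pos_of_pos hL0 _
  have hLF4 : 4 ≤ L ^ F := by
    have h1 : L ^ (1 : ℝ) ≤ L ^ F := Real.rpow_le_rpow_of_exponent_le hL1 (by linarith)
    rw [Real.rpow_one] at h1
    linarith
  obtain ⟨n, hndef⟩ : ∃ n, n = ⌈L ^ F * L⌉₊ := ⟨_, rfl⟩
  have hLFL : 1 ≤ L ^ F * L := by nlinarith
  have hn1 : L ^ F * L ≤ n := by
    rw [hndef]
    exact Nat.le_ceil _
  have hn1' : 1 ≤ n := by
    have : (1 : ℝ) ≤ n := hLFL.trans hn1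
    exact_mod_cast this
  have hn2 : (n : ℝ) ≤ 2 * (L ^ F * L) := by
    have := Nat.ceil_lt_add_one (a := L ^ F * L) (by positivity)
    rw [hndef]
    linarith
  obtain ⟨ρ, hρ1, hρ2, hρκ, hsn⟩ := exists_rho hV1 hVy hn1' hL0 hR hn1 hLF4
  have hκy : 2 ≤ 4 / L ^ F * y := by
    rw [div_mul_eq_mul_div, le_div_iff₀ hLFpos]
    linarith
  -- the error
  have hB2 := tau_short hDIV hL1 hy1 hρ1 hρ2 hρκ hκy hlog
  have hB : ∑ k ∈ IO y (ρ * y) ∪ IO (32 * y) (32 * (ρ * y)), (k.divisors.card : ℝ) ^ 2 ≤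
      2 ^ 15 * y * L ^ ((15 - F) / 2) := by
    rw [← pow_le_pow_iff_left₀ (Finset.sum_nonneg fun _ _ => by positivity) (by positivity)
      (two_ne_zero)]
    refine hB2.trans (le_of_eq ?_)
    have h1 : (L ^ ((15 - F) / 2)) ^ 2 = L ^ 15 / L ^ F := by
      rw [← Real.rpow_natCast (L ^ ((15 - F) / 2)) 2, ← Real.rpow_mul hL0.le]
      push_cast
      rw [div_mul_cancel₀ _ (two_ne_zero), Real.rpow_sub hL0]
      congr 1
      exact_mod_cast Real.rpow_natCast L 15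
    rw [mul_pow, mul_pow, h1]
    field_simp
    ring
  have hE1 := er_sum hV1 hρ1 hy1 hsn hL1 hlog hB
  have hχ1 : ∀ k : ℕ, ‖χ k‖ ≤ 1 := fun k => DirichletCharacter.norm_le_one χ _
  have hN18' : N ^ ((1 : ℝ) / 8) ≤ y := by
    refine le_trans ?_ hNy
    exact Real.rpow_le_rpow_of_exponent_le hN0 (by norm_num)
  have hErr : ∫ t in E, ‖DP (IO y (64 * y)) (fun k => (er V ρ y n k : ℂ) * χ k) t‖ ^ 2 ≤
      C * y * L * (4 * L ^ 2 * (2 ^ 15 * y * L ^ ((15 - F) / 2))) := by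
    refine (hHM N y _ _ E hN2 hN18' (by linarith) (Finset.Subset.refl _) hEm hEN hvol).trans ?_
    rw [← hLdef]
    refine mul_le_mul_of_nonneg_left (le_trans ?_ hE1) (by positivity)
    refine Finset.sum_le_sum fun k _ => ?_
    rw [norm_mul, Complex.norm_real, Real.norm_eq_abs]
    refine pow_le_pow_left₀ (by positivity) ?_ 2
    calc |er V ρ y n k| * ‖χ k‖ ≤ |er V ρ y n k| * 1 :=
          mul_le_mul_of_nonneg_left (hχ1 k) (abs_nonneg _)
      _ = |er V ρ y n k| := mul_one _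
  -- the main part
  have hsi1 : ∀ i, (V : ℝ) ≤ sC V ρ i := by
    intro i
    have h1 := sC_mono (V := V) hρ1 (Nat.zero_le i)
    unfold sC at h1 ⊢
    rwa [pow_zero, mul_one] at h1
  have hsi2 : ∀ i ≤ n, sC V ρ i ≤ 32 * y / V := fun i hi => hsn ▸ sC_mono hρ1 hi
  have hV1' : (1 : ℝ) ≤ V := by exact_mod_cast hV1
  have hMain := mainpart (n := n) hEm hEN
    (fun i t => DP (IO (sC V ρ i) (sC V ρ (i + 1))) (fun n => (vonMangoldt n : ℂ) * χ n) t)
    (fun i t => DP (IO (y / sC V ρ i) (32 * y / sC V ρ i)) (fun m => (vab V m : ℂ) * χ m) t)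
    (fun i => continuous_DP _ _) (fun i => continuous_DP _ _)
    (fun i => sC V ρ i / L ^ A) (fun i => 8192 * C * (y / sC V ρ i) ^ 2 * L ^ 4)
    (G := 8192 * C * y ^ 2 * L ^ 4 / (L ^ A) ^ 2)
    (by
      intro i hi t ht
      have h1 := hsi1 i
      have h2 := hsi2 i hi.le
      have h3 : 32 * y / (V : ℝ) ≤ 32 * y := div_le_self (by positivity) hV1'
      have h4 := sC_pos hV1 hρ1 i
      have h5 := hP N (sC V ρ i) (sC V ρ (i + 1)) t q χ hN1 (hVN.trans h1) (by linarith)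
        (sC_mono hρ1 (Nat.le_succ i))
        (by rw [sC_succ]; exact mul_le_mul_of_nonneg_right hρ2 h4.le)
        (hq.trans (by
          rw [← hLdef]
          exact Real.rpow_le_rpow_of_exponent_le hL1 (le_max_left _ _)))
        (abs_le.2 (hEN ht))
        (by
          rcases haway with h6 | h6
          · exact Or.inl h6
          · exact Or.inr (h6 t ht))
      rw [← hLdef] at h5
      exact h5)
    (by
      intro i hi
      have h1 := second hDIV hC hN0 hVN (hV1'.trans (hsi1 i)) (hsi2 i hi.le) hyN hy1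
        (by rw [← hLdef]; exact hL1) (by rw [← hLdef]; exact hlog) E
        (fun x S a hx1 hx2 hS => hHM N x S a E hN2 hx1 hx2 hS hEm hEN hvol)
        (fun m => χ (m : ZMod q)) hχ1
      rw [← hLdef] at h1
      exact h1)
    (by
      intro i _
      have h4 := sC_pos hV1 hρ1 i
      refine le_of_eq ?_
      have h5 : 0 < L ^ A := Real.rpow_pos_of_pos hL0 _
      field_simp)
  -- together
  have hdec : ∀ t, ‖DP (IO y (32 * y)) (fun k => (va3 V k : ℂ) * χ k) t‖ ^ 2 ≤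
      2 * ‖∑ i ∈ range n, DP (IO (sC V ρ i) (sC V ρ (i + 1)))
        (fun n => (vonMangoldt n : ℂ) * χ n) t *
        DP (IO (y / sC V ρ i) (32 * y / sC V ρ i)) (fun m => (vab V m : ℂ) * χ m) t‖ ^ 2 +
      2 * ‖DP (IO y (64 * y)) (fun k => (er V ρ y n k : ℂ) * χ k) t‖ ^ 2 := by
    intro t
    rw [decomp hV1 hρ1 hρ2 hy1 n (fun m => χ (m : ZMod q))
      (fun m n => by push_cast; rw [map_mul]) t]
    have h1 := norm_add_le (∑ i ∈ range n, DP (IO (sC V ρ i) (sC V ρ (i + 1)))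
        (fun n => (vonMangoldt n : ℂ) * χ n) t *
        DP (IO (y / sC V ρ i) (32 * y / sC V ρ i)) (fun m => (vab V m : ℂ) * χ m) t)
      (DP (IO y (64 * y)) (fun k => (er V ρ y n k : ℂ) * χ k) t)
    refine (pow_le_pow_left₀ (norm_nonneg _) h1 2).trans ?_
    nlinarith [sq_nonneg (‖∑ i ∈ range n, DP (IO (sC V ρ i) (sC V ρ (i + 1)))
        (fun n => (vonMangoldt n : ℂ) * χ n) t *
        DP (IO (y / sC V ρ i) (32 * y / sC V ρ i)) (fun m => (vab V m : ℂ) * χ m) t‖ -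
      ‖DP (IO y (64 * y)) (fun k => (er V ρ y n k : ℂ) * χ k) t‖)]
  have hc1 : Continuous fun t => ‖∑ i ∈ range n, DP (IO (sC V ρ i) (sC V ρ (i + 1)))
        (fun n => (vonMangoldt n : ℂ) * χ n) t *
        DP (IO (y / sC V ρ i) (32 * y / sC V ρ i)) (fun m => (vab V m : ℂ) * χ m) t‖ ^ 2 :=
    (continuous_finsetSum _ fun i _ => (continuous_DP _ _).mul (continuous_DP _ _)).norm.pow 2
  have hc2 : Continuous fun t => ‖DP (IO y (64 * y)) (fun k => (er V ρ y n k : ℂ) * χ k) t‖ ^ 2 :=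
    (continuous_DP _ _).norm.pow 2
  have hint : ∫ t in E, ‖DP (IO y (32 * y)) (fun k => (va3 V k : ℂ) * χ k) t‖ ^ 2 ≤
      2 * ((n : ℝ) ^ 2 * (8192 * C * y ^ 2 * L ^ 4 / (L ^ A) ^ 2)) +
      2 * (C * y * L * (4 * L ^ 2 * (2 ^ 15 * y * L ^ ((15 - F) / 2)))) := by
    exact combine hEN _ _ _ ((continuous_DP _ _).norm.pow 2) hc1 hc2 hdec _ _ hMain hErr
  refine hint.trans ?_
  have hy2 : 0 < y ^ 2 := by positivity
  have hLD : 0 < L ^ D := Real.rpow_pos_of_pos hL0 _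
  have hA2 : (L ^ A) ^ 2 = L ^ F * L ^ F * L ^ 6 * (L * L ^ D) := by
    rw [← Real.rpow_natCast (L ^ A) 2, ← Real.rpow_mul hL0.le, ← Real.rpow_add hL0,
      ← Real.rpow_natCast L 6, ← Real.rpow_add hL0]
    have h1 : L * L ^ D = L ^ (1 + D) := by
      rw [Real.rpow_add hL0, Real.rpow_one]
    rw [h1, ← Real.rpow_add hL0]
    congr 1
    rw [hA]
    push_cast
    ring
  have hT1 : 2 * ((n : ℝ) ^ 2 * (8192 * C * y ^ 2 * L ^ 4 / (L ^ A) ^ 2)) ≤
      (C * 2 ^ 16 / L) * (y ^ 2 / L ^ D) := by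
    have h1 : (n : ℝ) ^ 2 ≤ (2 * (L ^ F * L)) ^ 2 := pow_le_pow_left₀ (Nat.cast_nonneg _) hn2 2
    have h2 : 0 ≤ 8192 * C * y ^ 2 * L ^ 4 / (L ^ A) ^ 2 := by
      rw [hA2]
      positivity
    refine (mul_le_mul_of_nonneg_left (mul_le_mul_of_nonneg_right h1 h2) (by norm_num)).trans
      (le_of_eq ?_)
    rw [hA2]
    field_simp
    ring
  have hT2 : 2 * (C * y * L * (4 * L ^ 2 * (2 ^ 15 * y * L ^ ((15 - F) / 2)))) =
      (C * 2 ^ 18 / L) * (y ^ 2 / L ^ D) := by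
    have h1 : L ^ ((15 - F) / 2) = 1 / (L ^ 4 * L ^ D) := by
      rw [← Real.rpow_natCast L 4, ← Real.rpow_add hL0, one_div, ← Real.rpow_neg hL0.le]
      congr 1
      rw [hF]
      push_cast
      ring
    rw [h1]
    field_simp
    ring
  have h3 : 0 < y ^ 2 / L ^ D := by positivity
  have h4 : C * 2 ^ 16 / L + C * 2 ^ 18 / L ≤ 1 := by
    rw [← add_div, div_le_one hL0]
    nlinarith
  calc 2 * ((n : ℝ) ^ 2 * (8192 * C * y ^ 2 * L ^ 4 / (L ^ A) ^ 2)) +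
      2 * (C * y * L * (4 * L ^ 2 * (2 ^ 15 * y * L ^ ((15 - F) / 2))))
      ≤ (C * 2 ^ 16 / L) * (y ^ 2 / L ^ D) + (C * 2 ^ 18 / L) * (y ^ 2 / L ^ D) :=
        add_le_add hT1 hT2.le
    _ = (C * 2 ^ 16 / L + C * 2 ^ 18 / L) * (y ^ 2 / L ^ D) := by ring
    _ ≤ 1 * (y ^ 2 / L ^ D) := mul_le_mul_of_nonneg_right h4 h3.le
    _ = y ^ 2 / L ^ D := one_mul _

end Pool.Agent.Lib.MP3efbeb.LG
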