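import Pool.Agent.Lib.MP_3efbeb_nt.LG.SpecC
import Pool.Agent.Lib.MP_3efbeb_nt.LG.HMI

/-!
# Module U0B of LongPatterns (MP_3efbeb_nt): the long prime minus its model on any small set of frequencies

On the frequencies which are admissible for `χ` the two polynomials are small by PRV and WPO. For `χ = 1` and `|t| < L^K` the
character is `1` on the support of the difference, and US2 applies.
-/

set_option autoImplicit false

namespace Pool.Agent.Lib.MP3efbeb.LG

open Finset MeasureTheory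
open Pool.Agent.Lib.MP391708.QPA (PB rInd Wp Rough)

namespace U0BM

theorem sq_int (S : Finset ℕ) (a : ℕ → ℂ) (E : Set ℝ) (T : ℝ) (hET : E ⊆ Set.Icc (-T) T) :
    IntegrableOn (fun t => ‖DP S a t‖ ^ 2) E := by
  have hc : Continuous (fun t => ‖DP S a t‖ ^ 2) := (HMIM.DP_cont S a).norm.pow 2
  exact (hc.continuousOn.integrableOn_Icc (a := -T) (b := T)).mono_set hET

theorem DP_sub (S : Finset ℕ) (u v : ℕ → ℝ) (χ : ℕ → ℂ) (t : ℝ) :
    DP S (fun k => ((u k - v k : ℝ) : ℂ) * χ k) t =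
      DP S (fun k => (u k : ℂ) * χ k) t - DP S (fun k => (v k : ℂ) * χ k) t := by
  unfold DP
  rw [← sum_sub_distrib]
  refine sum_congr rfl fun k _ => ?_
  push_cast
  ring

theorem norm_sub_sq_le' (a b : ℂ) : ‖a - b‖ ^ 2 ≤ 2 * ‖a‖ ^ 2 + 2 * ‖b‖ ^ 2 := by
  have h := norm_sub_le a b
  have h0 := norm_nonneg (a - b)
  have : ‖a - b‖ ^ 2 ≤ (‖a‖ + ‖b‖) ^ 2 := pow_le_pow_left₀ h0 h 2
  nlinarith [sq_nonneg (‖a‖ - ‖b‖)]

theorem int_sub_le (S : Finset ℕ) (u v : ℕ → ℝ) (χ : ℕ → ℂ) (E : Set ℝ) (T X : ℝ)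
    (hET : E ⊆ Set.Icc (-T) T)
    (h1 : ∫ t in E, ‖DP S (fun k => (u k : ℂ) * χ k) t‖ ^ 2 ≤ X)
    (h2 : ∫ t in E, ‖DP S (fun k => (v k : ℂ) * χ k) t‖ ^ 2 ≤ X) :
    ∫ t in E, ‖DP S (fun k => ((u k - v k : ℝ) : ℂ) * χ k) t‖ ^ 2 ≤ 4 * X := by
  have i1 := sq_int S (fun k => (u k : ℂ) * χ k) E T hET
  have i2 := sq_int S (fun k => (v k : ℂ) * χ k) E T hET
  have i3 := sq_int S (fun k => ((u k - v k : ℝ) : ℂ) * χ k) E T hET
  have hle : ∫ t in E, ‖DP S (fun k => ((u k - v k : ℝ) : ℂ) * χ k) t‖ ^ 2 ≤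
      ∫ t in E, (2 * ‖DP S (fun k => (u k : ℂ) * χ k) t‖ ^ 2 +
        2 * ‖DP S (fun k => (v k : ℂ) * χ k) t‖ ^ 2) := by
    refine integral_mono i3 ((i1.const_mul 2).add (i2.const_mul 2)) fun t => ?_
    simp only []
    rw [DP_sub]
    exact norm_sub_sq_le' _ _
  rw [integral_add (i1.const_mul 2) (i2.const_mul 2), integral_const_mul, integral_const_mul] at hle
  linarith

theorem ev (b : ℝ) : ∃ N₄ : ℝ, ∀ N : ℝ, N₄ ≤ N → Real.log N ^ b < N ^ ((3 : ℝ) / 5) := by
  have h := (isLittleO_log_rpow_rpow_atTop b (show (0 : ℝ) < 3 / 5 by norm_num)).bound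
    (show (0 : ℝ) < 1 / 2 by norm_num)
  obtain ⟨N₄, hN₄⟩ := Filter.eventually_atTop.1 h
  refine ⟨max N₄ 1, fun N hN => ?_⟩
  have h1 := hN₄ N ((le_max_left _ _).trans hN)
  have hN1 : 1 ≤ N := (le_max_right _ _).trans hN
  have hpos : 0 < N ^ ((3 : ℝ) / 5) := Real.rpow_pos_of_pos (by linarith) _
  have h2 : Real.log N ^ b ≤ 1 / 2 * N ^ ((3 : ℝ) / 5) := by
    calc Real.log N ^ b ≤ ‖Real.log N ^ b‖ := Real.le_norm_self _
      _ ≤ 1 / 2 * ‖N ^ ((3 : ℝ) / 5)‖ := h1
      _ = 1 / 2 * N ^ ((3 : ℝ) / 5) := by rw [Real.norm_of_nonneg hpos.le]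
  linarith

theorem one_char (q k : ℕ) [NeZero q] (h : ∀ p : ℕ, p.Prime → p ∣ k → q < p) :
    (1 : DirichletCharacter ℂ q) (k : ZMod q) = 1 := by
  have hco : k.Coprime q := by
    refine Nat.coprime_of_dvd fun p hp hpk hpq => ?_
    have h1 := Nat.le_of_dvd (Nat.pos_of_ne_zero (NeZero.ne q)) hpq
    have h2 := h p hp hpk
    omega
  exact MulChar.one_apply ((ZMod.isUnit_iff_coprime k q).2 hco)

theorem vol_sym (R : ℝ) (hR : 0 ≤ R) (E : Set ℝ) (h : E ⊆ Set.Icc (-R) R) :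
    volume.real E ≤ 2 * R ∧ volume E < ⊤ := by
  have h1 : volume E ≤ ENNReal.ofReal (2 * R) := by
    refine (measure_mono h).trans ?_
    rw [Real.volume_Icc]
    refine ENNReal.ofReal_le_ofReal ?_
    linarith
  refine ⟨?_, h1.trans_lt ENNReal.ofReal_lt_top⟩
  have := ENNReal.toReal_mono ENNReal.ofReal_ne_top h1
  rw [ENNReal.toReal_ofReal (by linarith)] at this
  exact this

end U0BM

open U0BM in
theorem specU0B (hPRV : SpecPRV) (hWPO : SpecWPO) (hUS2 : SpecUS2) : SpecU0B := by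
  obtain ⟨η₁, h1, H1⟩ := hPRV
  obtain ⟨η₂, h2, H2⟩ := hWPO
  refine ⟨min (min η₁ η₂) (1 / 16), lt_min (lt_min h1 h2) (by norm_num), min_le_right _ _, ?_⟩
  intro D b c hD hb hc hbc
  obtain ⟨K₁, N₁, hK1, P1⟩ := H1 (D + 3) b (by linarith) hb
  obtain ⟨K₂, N₂, hK2, P2⟩ := H2 (D + 3) b c (by linarith) hb hc
  obtain ⟨K, hK⟩ : ∃ K, K = max K₁ K₂ := ⟨_, rfl⟩
  have hKK1 : K₁ ≤ K := hK ▸ le_max_left _ _
  have hKK2 : K₂ ≤ K := hK ▸ le_max_right _ _
  obtain ⟨N₃, P3⟩ := hUS2 c (K + D + 1) hc (by linarith)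
  obtain ⟨N₄, P4⟩ := ev b
  refine ⟨max (max N₁ N₂) (max N₃ (max N₄ (Real.exp 4))), ?_⟩
  intro N y q _ χ E hN hy hyN hq hE hET hvol
  have hN1 : N₁ ≤ N := ((le_max_left _ _).trans (le_max_left _ _)).trans hN
  have hN2 : N₂ ≤ N := ((le_max_right _ _).trans (le_max_left _ _)).trans hN
  have hN3 : N₃ ≤ N := ((le_max_left _ _).trans (le_max_right _ _)).trans hN
  have hN4 : N₄ ≤ N := (((le_max_left _ _).trans (le_max_right _ _)).trans (le_max_right _ _)).trans hN
  have hN5 : Real.exp 4 ≤ N :=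
    (((le_max_right _ _).trans (le_max_right _ _)).trans (le_max_right _ _)).trans hN
  have hNpos : 0 < N := (Real.exp_pos 4).trans_le hN5
  have hNone : 1 ≤ N := by
    have := Real.add_one_le_exp (4 : ℝ)
    linarith
  have hL : 4 ≤ Real.log N := (Real.le_log_iff_exp_le hNpos).2 hN5
  have hL0 : 0 < Real.log N := by linarith
  have hL1 : 1 ≤ Real.log N := by linarith
  have hL1' : 1 < Real.log N := by linarith
  have hqy : (q : ℝ) < y := (hq.trans_lt (P4 N hN4)).trans_le hy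
  have hy0 : 0 < y := (Nat.cast_nonneg q).trans_lt hqy
  have hv1 : ∀ F : Set ℝ, F ⊆ E → volume F ≤ ENNReal.ofReal (N ^ η₁) := fun F hF =>
    ((measure_mono hF).trans hvol).trans (ENNReal.ofReal_le_ofReal
      (Real.rpow_le_rpow_of_exponent_le hNone ((min_le_left _ _).trans (min_le_left _ _))))
  have hv2 : ∀ F : Set ℝ, F ⊆ E → volume F ≤ ENNReal.ofReal (N ^ η₂) := fun F hF =>
    ((measure_mono hF).trans hvol).trans (ENNReal.ofReal_le_ofReal
      (Real.rpow_le_rpow_of_exponent_le hNone ((min_le_left _ _).trans (min_le_right _ _))))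
  -- the admissible frequencies
  have key : ∀ F : Set ℝ, F ⊆ E → MeasurableSet F → Away N K χ F →
      ∫ t in F, ‖DP (IO y (32 * y)) (fun k => ((pL N k - w1 N c k : ℝ) : ℂ) * χ k) t‖ ^ 2 ≤
        4 * (y ^ 2 / Real.log N ^ (D + 3)) := by
    intro F hFE hF hA
    have hA' : ∀ K' : ℝ, K' ≤ K → Away N K' χ F := by
      intro K' hK'
      rcases hA with hA | hA
      · exact Or.inl hA
      · exact Or.inr fun t ht => (Real.rpow_le_rpow_of_exponent_le hL1 hK').trans (hA t ht)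
    refine int_sub_le (IO y (32 * y)) (pL N) (w1 N c) (fun k => χ k) F N _ (hFE.trans hET) ?_ ?_
    · exact P1 N y q χ F hN1 hy hyN hq hF (hFE.trans hET) (hv1 F hFE) (hA' K₁ hKK1)
    · exact P2 N y q χ F hN2 hy hyN hq hF (hFE.trans hET) (hv2 F hFE) (hA' K₂ hKK2)
  have hLD : 0 < Real.log N ^ D := Real.rpow_pos_of_pos hL0 _
  have hy2 : 0 < y ^ 2 := by positivity
  have hfirst : 4 * (y ^ 2 / Real.log N ^ (D + 3)) ≤ y ^ 2 / Real.log N ^ D / 2 := by
    have e1 : Real.log N ^ (D + 3) = Real.log N ^ D * Real.log N ^ 3 := by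
      rw [Real.rpow_add hL0]
      norm_cast
    have e2 : (64 : ℝ) ≤ Real.log N ^ 3 := by
      have := pow_le_pow_left₀ (by norm_num : (0 : ℝ) ≤ 4) hL 3
      linarith
    rw [e1, ← div_div]
    have e3 : y ^ 2 / Real.log N ^ D / Real.log N ^ 3 ≤ y ^ 2 / Real.log N ^ D / 64 :=
      div_le_div_of_nonneg_left (by positivity) (by norm_num) e2
    have e4 : 0 ≤ y ^ 2 / Real.log N ^ D := by positivity
    linarith
  have hX0 : 0 ≤ y ^ 2 / Real.log N ^ D := by positivity
  by_cases hχ : χ = 1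
  swap
  · have := key E subset_rfl hE (Or.inl hχ)
    linarith
  -- the principal character
  have hmeas : MeasurableSet {t : ℝ | Real.log N ^ K ≤ |t|} :=
    measurableSet_le measurable_const continuous_abs.measurable
  have hsplit := integral_inter_add_sdiff (μ := volume) (s := E) (t := {t : ℝ | Real.log N ^ K ≤ |t|})
    (f := fun t => ‖DP (IO y (32 * y)) (fun k => ((pL N k - w1 N c k : ℝ) : ℂ) * χ k) t‖ ^ 2) hmeas
    (sq_int _ _ E N hET)
  rw [← hsplit]
  have hpart1 := key (E ∩ {t : ℝ | Real.log N ^ K ≤ |t|}) Set.inter_subset_left (hE.inter hmeas)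
    (Or.inr fun t ht => ht.2)
  have hLK : 0 < Real.log N ^ K := Real.rpow_pos_of_pos hL0 _
  have hsub : E \ {t : ℝ | Real.log N ^ K ≤ |t|} ⊆ Set.Icc (-(Real.log N ^ K)) (Real.log N ^ K) := by
    intro t ht
    have h3 : |t| ≤ Real.log N ^ K := by
      have := ht.2
      simp only [Set.mem_ofPred_eq, not_le] at this
      exact this.le
    exact ⟨(abs_le.1 h3).1, (abs_le.1 h3).2⟩
  obtain ⟨hvr, hvt⟩ := vol_sym (Real.log N ^ K) hLK.le _ hsub
  have hDP : ∀ t, DP (IO y (32 * y)) (fun k => ((pL N k - w1 N c k : ℝ) : ℂ) * χ k) t =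
      DP (IO y (32 * y)) (fun k => ((pL N k - w1 N c k : ℝ) : ℂ)) t := by
    intro t
    unfold DP
    refine sum_congr rfl fun k hk => ?_
    by_cases h0 : pL N k - w1 N c k = 0
    · simp only [h0]
      simp
    · have hk1 : χ (k : ZMod q) = 1 := by
        rw [hχ]
        refine one_char q k ?_
        by_cases hkp : k.Prime
        · intro p hp hpk
          have hpk' := (Nat.prime_dvd_prime_iff_eq hp hkp).1 hpk
          rw [hpk']
          have hyk : y < k := by
            unfold IO at hk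
            exact (Nat.floor_lt hy0.le).1 (mem_Ioc.1 hk).1
          exact_mod_cast hqy.trans hyk
        · have hpL : pL N k = 0 := if_neg hkp
          have hw : w1 N c k ≠ 0 := by
            intro hw
            exact h0 (by rw [hpL, hw, sub_zero])
          have hR : Rough (zz N c) k := by
            by_contra hR
            refine hw ?_
            unfold w1 rInd
            rw [if_neg hR, zero_div]
          intro p hp hpk
          have hzp := hR p hp hpk
          have hqz : (q : ℝ) < zz N c := by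
            refine hq.trans_lt ?_
            unfold zz
            exact Real.rpow_lt_rpow_of_exponent_lt hL1' (by linarith)
          exact_mod_cast hqz.trans_le hzp
      beta_reduce
      rw [hk1, mul_one]
  have hy12 : N ^ ((1 : ℝ) / 2) ≤ y :=
    (Real.rpow_le_rpow_of_exponent_le hNone (by norm_num)).trans hy
  have hpart2 : ∫ t in E \ {t : ℝ | Real.log N ^ K ≤ |t|},
      ‖DP (IO y (32 * y)) (fun k => ((pL N k - w1 N c k : ℝ) : ℂ) * χ k) t‖ ^ 2 ≤
      (y / Real.log N ^ (K + D + 1)) ^ 2 * (2 * Real.log N ^ K) := by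
    have hb := norm_setIntegral_le_of_norm_le_const (μ := volume)
      (s := E \ {t : ℝ | Real.log N ^ K ≤ |t|})
      (f := fun t => ‖DP (IO y (32 * y)) (fun k => ((pL N k - w1 N c k : ℝ) : ℂ) * χ k) t‖ ^ 2)
      (C := (y / Real.log N ^ (K + D + 1)) ^ 2) hvt ?_
    · refine ((Real.le_norm_self _).trans hb).trans ?_
      exact mul_le_mul_of_nonneg_left hvr (by positivity)
    · intro t ht
      rw [hDP t, Real.norm_of_nonneg (by positivity)]
      refine pow_le_pow_left₀ (norm_nonneg _) ?_ 2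
      refine P3 N hN3 y t hy12 hyN ?_
      have h4 := hsub ht
      exact (abs_le.2 ⟨h4.1, h4.2⟩).trans (Real.rpow_le_rpow_of_exponent_le hL1 (by linarith))
  have hsecond : (y / Real.log N ^ (K + D + 1)) ^ 2 * (2 * Real.log N ^ K) ≤
      y ^ 2 / Real.log N ^ D / 2 := by
    have e1 : (Real.log N ^ (K + D + 1)) ^ 2 = Real.log N ^ K * (Real.log N ^ D * Real.log N ^ (K + D + 2)) := by
      rw [← Real.rpow_natCast, ← Real.rpow_mul hL0.le, ← Real.rpow_add hL0, ← Real.rpow_add hL0]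
      congr 1
      push_cast
      ring
    have e2 : (4 : ℝ) ≤ Real.log N ^ (K + D + 2) := by
      calc (4 : ℝ) ≤ Real.log N := hL
        _ = Real.log N ^ (1 : ℝ) := (Real.rpow_one _).symm
        _ ≤ Real.log N ^ (K + D + 2) := Real.rpow_le_rpow_of_exponent_le hL1 (by linarith)
    have e3 : (y / Real.log N ^ (K + D + 1)) ^ 2 * (2 * Real.log N ^ K) =
        2 * (y ^ 2 / Real.log N ^ D / Real.log N ^ (K + D + 2)) := by
      rw [div_pow, e1]
      field_simp
    rw [e3]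
    have e4 : y ^ 2 / Real.log N ^ D / Real.log N ^ (K + D + 2) ≤ y ^ 2 / Real.log N ^ D / 4 :=
      div_le_div_of_nonneg_left hX0 (by norm_num) e2
    linarith
  linarith

end Pool.Agent.Lib.MP3efbeb.LG
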