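import Pool.Agent.Lib.MP_3efbeb_nt.LG.SpecC

set_option autoImplicit false

/-! Module UE2: the sum over the divisors `d`. -/

namespace Pool.Agent.Lib.MP3efbeb.LG

open Finset MeasureTheory Filter
open Pool.Agent.Lib.MP391708.QPA (PB rInd Wp Rough)

noncomputable section

namespace UE2M

lemma nit_mul {m n : ℕ} (hm : 0 < m) (hn : 0 < n) (t : ℝ) :
    nit (m * n) t = nit m t * nit n t := by
  unfold nit
  rw [← Complex.exp_add]
  congr 1
  have h : Real.log ((m * n : ℕ) : ℝ) = Real.log m + Real.log n := by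
    push_cast
    exact Real.log_mul (by exact_mod_cast hm.ne') (by exact_mod_cast hn.ne')
  rw [h]
  push_cast
  ring

lemma norm_nit (n : ℕ) (t : ℝ) : ‖nit n t‖ = 1 := by
  unfold nit
  exact Complex.norm_exp_ofReal_mul_I _

lemma cont_nit (n : ℕ) : Continuous (fun t => nit n t) := by
  unfold nit
  fun_prop

lemma cont_DP (S : Finset ℕ) (c : ℕ → ℂ) : Continuous (fun t => DP S c t) := by
  unfold DP
  exact continuous_finsetSum _ fun n _ => continuous_const.mul (cont_nit n)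

lemma mem_IO {x y : ℝ} (hx : 0 ≤ x) (hy : 0 ≤ y) {n : ℕ} :
    n ∈ IO x y ↔ x < (n : ℝ) ∧ (n : ℝ) ≤ y := by
  unfold IO
  rw [Finset.mem_Ioc, Nat.floor_lt hx, Nat.le_floor_iff hy]

/-- a product of numbers at most `B` -/
lemma prod_le {B : ℝ} (hB : 0 ≤ B) : ∀ l : List ℕ, (∀ p ∈ l, (p : ℝ) ≤ B) →
    ((l.prod : ℕ) : ℝ) ≤ B ^ l.length
  | [], _ => by simp
  | a :: l, h => by
    rw [List.prod_cons, List.length_cons, pow_succ', Nat.cast_mul]
    exact mul_le_mul (h a (by simp)) (prod_le hB l fun p hp => h p (by simp [hp]))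
      (Nat.cast_nonneg _) hB

/-- the size of the divisors -/
lemma le_DE {N e : ℝ} {s d : ℕ} (hN : 1 ≤ N) (hes : e * s ≤ 1 / 8) (hd : d ∈ DE N e s) :
    1 ≤ d ∧ (d : ℝ) ≤ N ^ ((1 : ℝ) / 4) := by
  unfold DE at hd
  rw [mem_filter, mem_Icc] at hd
  obtain ⟨⟨h1, -⟩, h2, h3⟩ := hd
  refine ⟨h1, ?_⟩
  have h4 := prod_le (B := N ^ (2 * e)) (by positivity) d.primeFactorsList fun p hp => (h3 p hp).2
  rw [Nat.prod_primeFactorsList (by omega), h2, ← Real.rpow_natCast, ← Real.rpow_mul (by linarith)]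
    at h4
  refine h4.trans (Real.rpow_le_rpow_of_exponent_le hN ?_)
  linarith

/-- the inner sum -/
lemma inner {x y : ℝ} (hx : 0 ≤ x) (hy : 0 ≤ y) (f : ℕ → ℝ) (c : ℕ → ℂ) {d : ℕ} (hd : 1 ≤ d) :
    ∑ k ∈ IO x y, (((if d ∣ k then f (k / d) else 0 : ℝ) : ℂ) * c k) =
      ∑ m ∈ IO (x / d) (y / d), (f m : ℂ) * c (d * m) := by
  have hd0 : 0 < d := hd
  have hdr : (0 : ℝ) < d := by exact_mod_cast hd
  symm
  refine Finset.sum_bij_ne_zero (fun k _ _ => d * k) ?_ ?_ ?_ ?_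
  · intro k hk _
    rw [mem_IO (by positivity) (by positivity)] at hk
    rw [mem_IO hx hy]
    push_cast
    constructor
    · have := hk.1
      rw [div_lt_iff₀ hdr] at this
      linarith
    · have := hk.2
      rw [le_div_iff₀ hdr] at this
      linarith
  · intro a _ _ b _ _ hab
    exact Nat.eq_of_mul_eq_mul_left hd0 hab
  · intro n hn hne
    by_cases hdn : d ∣ n
    · obtain ⟨k, rfl⟩ := hdn
      rw [if_pos (Dvd.intro k rfl), Nat.mul_div_cancel_left k hd0] at hne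
      refine ⟨k, ?_, hne, rfl⟩
      rw [mem_IO hx hy] at hn
      push_cast at hn
      rw [mem_IO (by positivity) (by positivity), div_lt_iff₀ hdr, le_div_iff₀ hdr]
      constructor
      · linarith [hn.1]
      · linarith [hn.2]
    · rw [if_neg hdn] at hne
      exact absurd (by simp) hne
  · intro k _ _
    rw [if_pos (Dvd.intro k rfl), Nat.mul_div_cancel_left k hd0]

/-- the decomposition of the polynomial -/
lemma decomp {x y : ℝ} (hx : 0 ≤ x) (hy : 0 ≤ y) (f : ℕ → ℝ) {q : ℕ} (χ : DirichletCharacter ℂ q)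
    (T : Finset ℕ) (hT : ∀ d ∈ T, 1 ≤ d) (t : ℝ) :
    DP (IO x y) (fun k => ((∑ d ∈ T, if d ∣ k then f (k / d) else 0 : ℝ) : ℂ) * χ k) t =
      ∑ d ∈ T, (χ d * nit d t) * DP (IO (x / d) (y / d)) (fun k => (f k : ℂ) * χ k) t := by
  have e1 : DP (IO x y) (fun k => ((∑ d ∈ T, if d ∣ k then f (k / d) else 0 : ℝ) : ℂ) * χ k) t =
      ∑ d ∈ T, ∑ k ∈ IO x y,
        (((if d ∣ k then f (k / d) else 0 : ℝ) : ℂ) * (χ k * nit k t)) := by
    unfold DP
    rw [Finset.sum_comm]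
    refine Finset.sum_congr rfl fun k _ => ?_
    simp only
    rw [Complex.ofReal_sum, Finset.sum_mul, Finset.sum_mul]
    refine Finset.sum_congr rfl fun d _ => ?_
    ring
  rw [e1]
  refine Finset.sum_congr rfl fun d hd => ?_
  have hd1 := hT d hd
  rw [inner hx hy f (fun k => χ k * nit k t) hd1]
  unfold DP
  rw [Finset.mul_sum]
  refine Finset.sum_congr rfl fun m hm => ?_
  rw [mem_IO (by positivity) (by positivity)] at hm
  have hm0 : 0 < m := by
    rcases Nat.eq_zero_or_pos m with h | h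
    · subst h
      have h0 : (0 : ℝ) ≤ x / d := by positivity
      have := hm.1
      push_cast at this
      linarith
    · exact h
  simp only
  rw [nit_mul hd1 hm0]
  push_cast
  rw [map_mul]
  ring

/-- Cauchy-Schwarz with the weights `1/d` -/
lemma cs (T : Finset ℕ) (hT : ∀ d ∈ T, 1 ≤ d) (v : ℕ → ℂ) :
    ‖∑ d ∈ T, v d‖ ^ 2 ≤ (∑ d ∈ T, 1 / (d : ℝ)) * ∑ d ∈ T, (d : ℝ) * ‖v d‖ ^ 2 := by
  have h1 : ‖∑ d ∈ T, v d‖ ≤ ∑ d ∈ T, ‖v d‖ := norm_sum_le _ _
  have h2 : (∑ d ∈ T, ‖v d‖) ^ 2 ≤ (∑ d ∈ T, 1 / (d : ℝ)) * ∑ d ∈ T, (d : ℝ) * ‖v d‖ ^ 2 := by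
    refine Finset.sum_sq_le_sum_mul_sum_of_sq_le_mul T (fun d _ => by positivity)
      (fun d _ => by positivity) fun d hd => le_of_eq ?_
    have : (0 : ℝ) < d := by exact_mod_cast hT d hd
    field_simp
  refine le_trans ?_ h2
  exact pow_le_pow_left₀ (norm_nonneg _) h1 2

/-- the sum of the reciprocals -/
lemma recip {N e : ℝ} {s : ℕ} (hN : 1 ≤ N) (hL : 1 ≤ Real.log N) :
    ∑ d ∈ DE N e s, 1 / (d : ℝ) ≤ 2 * Real.log N := by
  have h1 : ∑ d ∈ DE N e s, 1 / (d : ℝ) ≤ ∑ d ∈ Icc 1 ⌊N⌋₊, 1 / (d : ℝ) :=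
    Finset.sum_le_sum_of_subset_of_nonneg (Finset.filter_subset _ _) fun d _ _ => by positivity
  have h2 : ∑ d ∈ Icc 1 ⌊N⌋₊, 1 / (d : ℝ) ≤ 1 + Real.log ⌊N⌋₊ := by
    have h := harmonic_le_one_add_log ⌊N⌋₊
    rw [harmonic_eq_sum_Icc] at h
    push_cast at h
    simpa [one_div] using h
  have h3 : Real.log ⌊N⌋₊ ≤ Real.log N := by
    apply Real.log_le_log
    · exact_mod_cast Nat.floor_pos.2 hN
    · exact Nat.floor_le (by linarith)
  linarith

/-- elementary estimate for large `N` -/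
lemma large (c : ℝ) : ∃ N₀ : ℝ, ∀ N : ℝ, N₀ ≤ N →
    3 ≤ N ∧ 1 ≤ Real.log N ∧ 8 * Real.log N ^ (2 * c) ≤ N ^ ((3 : ℝ) / 20) := by
  have h1 : ∀ᶠ N : ℝ in atTop, ‖Real.log N ^ (2 * c)‖ ≤ 1 / 8 * ‖N ^ ((3 : ℝ) / 20)‖ :=
    (isLittleO_log_rpow_rpow_atTop (2 * c) (by norm_num : (0 : ℝ) < 3 / 20)).bound (by norm_num)
  obtain ⟨N₀, h⟩ := Filter.eventually_atTop.1 (h1.and (Filter.eventually_ge_atTop (3 : ℝ)))
  refine ⟨N₀, fun N hN => ?_⟩
  obtain ⟨h2, h3⟩ := h N hN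
  have hlog : 1 ≤ Real.log N := by
    rw [Real.le_log_iff_exp_le (by linarith)]
    linarith [Real.exp_one_lt_d9]
  refine ⟨h3, hlog, ?_⟩
  rw [Real.norm_of_nonneg (by positivity), Real.norm_of_nonneg (by positivity)] at h2
  linarith

end UE2M

open UE2M

theorem specUE2 (hU0B : SpecU0B) : SpecUE2 := by
  obtain ⟨η, hη, hη', hU⟩ := hU0B
  refine ⟨η, hη, hη', ?_⟩
  intro D b c e s hD hb hc hbc he hes
  obtain ⟨N₁, h1⟩ := hU (D + 2) b c (by linarith) hb hc hbc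
  obtain ⟨N₂, h2⟩ := large c
  refine ⟨max N₁ N₂, ?_⟩
  intro N A q _ χ E hN hA hA' hq hE hEN hvol
  have hN1 : N₁ ≤ N := le_trans (le_max_left _ _) hN
  obtain ⟨hN3, hL1, hbig⟩ := h2 N (le_trans (le_max_right _ _) hN)
  have hN0 : (0 : ℝ) < N := by linarith
  have hL0 : 0 < Real.log N := by linarith
  have hA1 : 1 ≤ A := le_trans (Real.one_le_rpow hL1 (by linarith)) hA
  have hA0 : 0 < A := by linarith
  set T := DE N e s with hTdef
  have hT : ∀ d ∈ T, 1 ≤ d := fun d hd => (le_DE (by linarith) hes hd).1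
  have hT' : ∀ d ∈ T, (d : ℝ) ≤ N ^ ((1 : ℝ) / 4) := fun d hd => (le_DE (by linarith) hes hd).2
  set F : ℕ → ℝ := fun k => pL N k - w1 N c k with hF
  -- the pieces
  set v : ℕ → ℝ → ℂ := fun d t =>
    DP (IO (N / (8 * A) / d) (4 * N / A / d)) (fun k => (F k : ℂ) * χ k) t with hv
  have hcontv : ∀ d : ℕ, Continuous (fun t => (d : ℝ) * ‖v d t‖ ^ 2) := fun d =>
    continuous_const.mul ((cont_DP _ _).norm.pow 2)
  have hEfin : volume E ≠ ⊤ := ne_top_of_le_ne_top ENNReal.ofReal_ne_top hvol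
  have hint : ∀ g : ℝ → ℝ, Continuous g → IntegrableOn g E := by
    intro g hg
    exact (hg.integrableOn_Icc (a := -N) (b := N)).mono_set hEN
  -- the bound for one piece
  have hpiece : ∀ d ∈ T, ∫ t in E, (d : ℝ) * ‖v d t‖ ^ 2 ≤
      1 / (d : ℝ) * ((N / (8 * A)) ^ 2 / Real.log N ^ (D + 2)) := by
    intro d hd
    have hd1 : (1 : ℝ) ≤ d := by exact_mod_cast hT d hd
    have hd0 : (0 : ℝ) < d := by linarith
    have hy1 : N ^ ((3 : ℝ) / 5) ≤ N / (8 * A) / d := by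
      rw [div_div, le_div_iff₀ (by positivity)]
      have ha : 8 * A ≤ N ^ ((3 : ℝ) / 20) := by linarith
      have hb' : 8 * A * d ≤ N ^ ((3 : ℝ) / 20) * N ^ ((1 : ℝ) / 4) :=
        mul_le_mul ha (hT' d hd) hd0.le (by positivity)
      calc N ^ ((3 : ℝ) / 5) * (8 * A * d) ≤
          N ^ ((3 : ℝ) / 5) * (N ^ ((3 : ℝ) / 20) * N ^ ((1 : ℝ) / 4)) :=
            mul_le_mul_of_nonneg_left hb' (by positivity)
        _ = N := by
          rw [← Real.rpow_add hN0, ← Real.rpow_add hN0]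
          norm_num
    have hy2 : N / (8 * A) / d ≤ N := by
      rw [div_div]
      apply div_le_self hN0.le
      nlinarith
    have h3 := h1 N (N / (8 * A) / d) q χ E hN1 hy1 hy2 hq hE hEN hvol
    have h32 : 32 * (N / (8 * A) / d) = 4 * N / A / d := by
      field_simp
      ring
    rw [h32] at h3
    rw [integral_const_mul]
    calc (d : ℝ) * ∫ t in E, ‖DP (IO (N / (8 * A) / d) (4 * N / A / d))
          (fun k => ((pL N k - w1 N c k : ℝ) : ℂ) * χ k) t‖ ^ 2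
        ≤ d * ((N / (8 * A) / d) ^ 2 / Real.log N ^ (D + 2)) :=
          mul_le_mul_of_nonneg_left h3 hd0.le
      _ = 1 / (d : ℝ) * ((N / (8 * A)) ^ 2 / Real.log N ^ (D + 2)) := by
          field_simp
  -- the pointwise bound
  have hpt : ∀ t : ℝ, ‖DP (SV N A) (fun k => ((∑ d ∈ T, if d ∣ k then
      pL N (k / d) - w1 N c (k / d) else 0 : ℝ) : ℂ) * χ k) t‖ ^ 2 ≤
      (∑ d ∈ T, 1 / (d : ℝ)) * ∑ d ∈ T, (d : ℝ) * ‖v d t‖ ^ 2 := by
    intro t
    have h4 := decomp (x := N / (8 * A)) (y := 4 * N / A) (by positivity) (by positivity) F χ T hT t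
    unfold SV
    rw [hF] at h4
    simp only at h4
    rw [h4]
    refine (cs T hT _).trans ?_
    refine mul_le_mul_of_nonneg_left ?_ (Finset.sum_nonneg fun d _ => by positivity)
    refine Finset.sum_le_sum fun d _ => ?_
    refine mul_le_mul_of_nonneg_left ?_ (Nat.cast_nonneg _)
    refine pow_le_pow_left₀ (norm_nonneg _) ?_ 2
    rw [norm_mul, norm_mul, norm_nit, mul_one]
    calc ‖χ d‖ * ‖DP (IO (N / (8 * A) / d) (4 * N / A / d))
          (fun k => ((pL N k - w1 N c k : ℝ) : ℂ) * χ k) t‖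
        ≤ 1 * ‖DP (IO (N / (8 * A) / d) (4 * N / A / d))
          (fun k => ((pL N k - w1 N c k : ℝ) : ℂ) * χ k) t‖ :=
          mul_le_mul_of_nonneg_right (DirichletCharacter.norm_le_one χ _) (norm_nonneg _)
      _ = ‖v d t‖ := by rw [one_mul]
  have hS : ∑ d ∈ T, 1 / (d : ℝ) ≤ 2 * Real.log N := recip (by linarith) hL1
  have hS0 : 0 ≤ ∑ d ∈ T, 1 / (d : ℝ) := Finset.sum_nonneg fun d _ => by positivity
  set X : ℝ := (N / (8 * A)) ^ 2 / Real.log N ^ (D + 2) with hX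
  have hX0 : 0 ≤ X := by positivity
  calc ∫ t in E, ‖DP (SV N A) (fun k => ((∑ d ∈ T, if d ∣ k then
        pL N (k / d) - w1 N c (k / d) else 0 : ℝ) : ℂ) * χ k) t‖ ^ 2
      ≤ ∫ t in E, (∑ d ∈ T, 1 / (d : ℝ)) * ∑ d ∈ T, (d : ℝ) * ‖v d t‖ ^ 2 := by
        refine setIntegral_mono (hint _ ((cont_DP _ _).norm.pow 2)) (hint _ ?_) hpt
        exact continuous_const.mul (continuous_finsetSum _ fun d _ => hcontv d)
    _ = (∑ d ∈ T, 1 / (d : ℝ)) * ∑ d ∈ T, ∫ t in E, (d : ℝ) * ‖v d t‖ ^ 2 := by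
        rw [integral_const_mul, integral_finsetSum]
        intro d _
        exact hint _ (hcontv d)
    _ ≤ (∑ d ∈ T, 1 / (d : ℝ)) * ∑ d ∈ T, 1 / (d : ℝ) * X :=
        mul_le_mul_of_nonneg_left (Finset.sum_le_sum hpiece) hS0
    _ = (∑ d ∈ T, 1 / (d : ℝ)) ^ 2 * X := by
        rw [← Finset.sum_mul]
        ring
    _ ≤ (2 * Real.log N) ^ 2 * X :=
        mul_le_mul_of_nonneg_right (pow_le_pow_left₀ hS0 hS 2) hX0
    _ ≤ (N / A) ^ 2 / Real.log N ^ D := by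
        have h5 : Real.log N ^ (D + 2) = Real.log N ^ D * Real.log N ^ 2 := by
          rw [Real.rpow_add hL0]
          norm_num
        rw [hX, h5]
        have h6 : (2 * Real.log N) ^ 2 * ((N / (8 * A)) ^ 2 / (Real.log N ^ D * Real.log N ^ 2)) =
            1 / 16 * ((N / A) ^ 2 / Real.log N ^ D) := by
          have : Real.log N ^ D ≠ 0 := by positivity
          field_simp
          ring
        rw [h6]
        have h7 : 0 ≤ (N / A) ^ 2 / Real.log N ^ D := by positivity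
        linarith

end

end Pool.Agent.Lib.MP3efbeb.LG
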