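import Pool.Agent.Lib.MP_3efbeb_nt.LG.SpecB
import Pool.Agent.Lib.MP_3efbeb_nt.SV.Sieve

set_option autoImplicit false

namespace Pool.Agent.Lib.MP3efbeb.LG

open Finset MeasureTheory
open Pool.Agent.Lib.MP391708.QPA (PB rInd Wp Rough)

noncomputable section

namespace USMM

/-! ## Abel summation -/

lemma abel0 (f r : ℕ → ℝ) (n : ℕ) (G : ℝ) (hf0 : ∀ k, 0 ≤ f k) (hanti : ∀ k, f (k + 1) ≤ f k)
    (hR : ∀ m, m ≤ n → |∑ k ∈ range m, r k| ≤ G) :
    |∑ k ∈ range n, f k * r k| ≤ G * f 0 := by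
  have key : ∀ m, ∑ k ∈ range m, f k * r k = f m * ∑ k ∈ range m, r k +
      ∑ j ∈ range m, (f j - f (j + 1)) * ∑ k ∈ range (j + 1), r k := by
    intro m
    induction m with
    | zero => simp
    | succ m ih =>
      rw [sum_range_succ (fun k => f k * r k), ih,
        sum_range_succ (fun j => (f j - f (j + 1)) * ∑ k ∈ range (j + 1), r k), sum_range_succ r m]
      ring
  rw [key n]
  have h1 : |f n * ∑ k ∈ range n, r k| ≤ f n * G := by
    rw [abs_mul, abs_of_nonneg (hf0 n)]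
    exact mul_le_mul_of_nonneg_left (hR n le_rfl) (hf0 n)
  have h2 : |∑ j ∈ range n, (f j - f (j + 1)) * ∑ k ∈ range (j + 1), r k| ≤
      ∑ j ∈ range n, (f j - f (j + 1)) * G := by
    refine (abs_sum_le_sum_abs _ _).trans (sum_le_sum fun j hj => ?_)
    have h0 : 0 ≤ f j - f (j + 1) := by linarith [hanti j]
    rw [abs_mul, abs_of_nonneg h0]
    exact mul_le_mul_of_nonneg_left (hR _ (by have := mem_range.1 hj; omega)) h0
  rw [← sum_mul, sum_range_sub'] at h2
  have h3 := abs_add_le (f n * ∑ k ∈ range n, r k)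
    (∑ j ∈ range n, (f j - f (j + 1)) * ∑ k ∈ range (j + 1), r k)
  nlinarith [h1, h2, h3]

lemma Ioc_sum (g : ℕ → ℝ) (a b : ℕ) :
    ∑ k ∈ Ioc a b, g k = ∑ i ∈ range (b - a), g (a + 1 + i) := by
  have h : Ioc a b = Ico (a + 1) (b + 1) := by
    ext k
    simp only [mem_Ioc, mem_Ico]
    omega
  have h2 : b + 1 - (a + 1) = b - a := by omega
  rw [h, Finset.sum_Ico_eq_sum_range, h2]

lemma abel1 (f r : ℕ → ℝ) (a b : ℕ) (G : ℝ) (hf0 : ∀ k, a < k → 0 ≤ f k)
    (hanti : ∀ k, a < k → f (k + 1) ≤ f k)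
    (hR : ∀ m, a ≤ m → m ≤ b ∨ m = a → |∑ k ∈ Ioc a m, r k| ≤ G) :
    |∑ k ∈ Ioc a b, f k * r k| ≤ G * f (a + 1) := by
  rw [Ioc_sum (fun k => f k * r k)]
  have h := abel0 (fun i => f (a + 1 + i)) (fun i => r (a + 1 + i)) (b - a) G
    (fun k => hf0 (a + 1 + k) (by omega)) (fun k => hanti (a + 1 + k) (by omega)) (fun m hm => by
      have h1 := hR (a + m) (by omega) (by omega)
      rw [Ioc_sum] at h1
      have h2 : a + m - a = m := by omega
      rwa [h2] at h1)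
  simpa using h

/-! ## `∑ 1/log k` and the integral -/

/-- the weight -/
def fl (t : ℝ) : ℝ := 1 / Real.log t

lemma log_three : (1 : ℝ) ≤ Real.log 3 := by
  rw [Real.le_log_iff_exp_le (by norm_num)]
  linarith [Real.exp_one_lt_d9]

lemma log_ge_one {t : ℝ} (ht : 3 ≤ t) : 1 ≤ Real.log t :=
  log_three.trans (Real.log_le_log (by norm_num) ht)

lemma fl_nonneg {t : ℝ} (ht : 1 ≤ t) : 0 ≤ fl t := by
  unfold fl
  exact div_nonneg zero_le_one (Real.log_nonneg ht)

lemma fl_le_one {t : ℝ} (ht : 3 ≤ t) : fl t ≤ 1 := by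
  unfold fl
  rw [div_le_one (by linarith [log_ge_one ht])]
  exact log_ge_one ht

lemma fl_anti {s t : ℝ} (hs : 2 ≤ s) (hst : s ≤ t) : fl t ≤ fl s := by
  unfold fl
  have h1 : 0 < Real.log s := Real.log_pos (by linarith)
  exact one_div_le_one_div_of_le h1 (Real.log_le_log (by linarith) hst)

lemma fl_cont (a b : ℝ) (ha : 2 ≤ a) (hb : 2 ≤ b) : IntervalIntegrable fl volume a b := by
  refine ContinuousOn.intervalIntegrable ?_
  intro t ht
  have h2 : 2 ≤ t := by
    rcases Set.mem_uIcc.1 ht with h | h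
    · linarith [h.1]
    · linarith [h.1]
  have hl : Real.log t ≠ 0 := (Real.log_pos (by linarith)).ne'
  unfold fl
  exact (ContinuousAt.div continuousAt_const (Real.continuousAt_log (by linarith)) hl).continuousWithinAt

lemma fl_int_le {a b : ℝ} (ha : 3 ≤ a) (hab : a ≤ b) :
    0 ≤ ∫ t in a..b, fl t ∧ ∫ t in a..b, fl t ≤ b - a := by
  constructor
  · exact intervalIntegral.integral_nonneg hab fun t ht => fl_nonneg (by linarith [ht.1])
  · have h := intervalIntegral.integral_mono_on hab (fl_cont a b (by linarith) (by linarith))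
      (intervalIntegrable_const (c := (1 : ℝ))) (fun t ht => fl_le_one (by linarith [ht.1]))
    simpa using h

lemma sum_fl (a b : ℕ) (ha : 3 ≤ a) (hab : a ≤ b) :
    |∑ k ∈ Ioc a b, fl k - ∫ t in (a : ℝ)..b, fl t| ≤ 1 := by
  have ha' : (3 : ℝ) ≤ a := by exact_mod_cast ha
  have hanti : AntitoneOn fl (Set.Icc (a : ℝ) b) := by
    intro s hs t _ hst
    exact fl_anti (by linarith [hs.1]) hst
  have h1 := hanti.sum_le_integral_Ico hab
  have h2 := hanti.integral_le_sum_Ico hab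
  have e1 : ∑ i ∈ Ico a b, fl ((i + 1 : ℕ) : ℝ) = ∑ k ∈ Ioc a b, fl k := by
    rw [Ioc_sum (fun k => fl k), Finset.sum_Ico_eq_sum_range]
    refine sum_congr rfl fun i _ => ?_
    congr 2
    omega
  have e2 : ∑ i ∈ Ico a b, fl (i : ℝ) = ∑ i ∈ Ico a b, fl ((i + 1 : ℕ) : ℝ) + (fl a - fl b) := by
    have h := Finset.sum_Ico_sub (fun i : ℕ => fl (i : ℝ)) hab
    rw [sum_sub_distrib] at h
    linarith
  rw [e1] at h1
  rw [e2, e1] at h2
  have h3 : fl a ≤ 1 := fl_le_one ha'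
  have h4 : 0 ≤ fl (b : ℝ) := fl_nonneg (by
    have : (a : ℝ) ≤ b := by exact_mod_cast hab
    linarith)
  rw [abs_le]
  constructor <;> linarith

lemma sum_fl_real {s y : ℝ} (hs : 4 ≤ s) (hsy : s ≤ y) :
    |∑ k ∈ IO s y, fl k - ∫ t in s..y, fl t| ≤ 3 := by
  have hs0 : 0 ≤ s := by linarith
  have hy0 : 0 ≤ y := by linarith
  have ha : 3 ≤ ⌊s⌋₊ := by
    rw [Nat.le_floor_iff hs0]
    push_cast
    linarith
  have hab : ⌊s⌋₊ ≤ ⌊y⌋₊ := Nat.floor_le_floor hsy
  have ha' : (3 : ℝ) ≤ (⌊s⌋₊ : ℝ) := by exact_mod_cast ha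
  have hab' : (⌊s⌋₊ : ℝ) ≤ (⌊y⌋₊ : ℝ) := by exact_mod_cast hab
  have hb' : (3 : ℝ) ≤ (⌊y⌋₊ : ℝ) := by linarith
  have h1 := sum_fl _ _ ha hab
  have fs := Nat.floor_le hs0
  have fs' := Nat.lt_floor_add_one s
  have fy := Nat.floor_le hy0
  have fy' := Nat.lt_floor_add_one y
  have h2 := fl_int_le ha' fs
  have h3 := fl_int_le hb' fy
  have e1 := intervalIntegral.integral_add_adjacent_intervals
      (fl_cont (⌊s⌋₊ : ℝ) (⌊y⌋₊ : ℝ) (by linarith) (by linarith))
      (fl_cont (⌊y⌋₊ : ℝ) y (by linarith) (by linarith))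
  have e2 := intervalIntegral.integral_add_adjacent_intervals
      (fl_cont (⌊s⌋₊ : ℝ) s (by linarith) (by linarith))
      (fl_cont s y (by linarith) (by linarith))
  have h4 := abs_le.1 h1
  unfold IO
  rw [abs_le]
  constructor <;> linarith [h4.1, h4.2, h2.1, h2.2, h3.1, h3.2]

/-! ## The model -/

lemma Wp_ge {z : ℝ} (hz : 2 ≤ z) : 1 ≤ (4 * (1 + Real.log z)) ^ 16 * Wp z := by
  have h := Pool.Agent.Lib.MP_3efbeb_nt.SV.SieveM.prod_ge 1 hz (g := fun p => 1 / (p : ℝ)) (by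
    intro p hp
    have hp2 : (2 : ℝ) ≤ p := by exact_mod_cast hp.two_le
    refine ⟨by positivity, ?_, ?_⟩
    · simp
    · rw [div_le_div_iff₀ (by linarith) (by norm_num)]
      push_cast
      linarith)
  simpa [Wp] using h

lemma w0_bd {N c M : ℝ} (hz : 3 ≤ zz N c) (hM : 0 ≤ M) (hW : 1 ≤ M * Wp (zz N c)) (k : ℕ) :
    0 ≤ w0 N c k ∧ w0 N c k ≤ M := by
  have hW0 : 0 < Wp (zz N c) := by
    by_contra h
    have h1 : Wp (zz N c) ≤ 0 := not_lt.1 h
    nlinarith
  unfold w0 rInd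
  by_cases hk : Rough (zz N c) k
  · rw [if_pos hk]
    rcases Nat.lt_or_ge k 2 with h2 | h2
    · interval_cases k
      · have := hk 2 Nat.prime_two (dvd_zero _)
        norm_num at this
        linarith
      · simp [hM]
    · have hp := Nat.minFac_prime (n := k) (by omega)
      have h3 := hk _ hp (Nat.minFac_dvd k)
      have h4 : ((Nat.minFac k : ℕ) : ℝ) ≤ k := by
        exact_mod_cast Nat.minFac_le (by omega)
      have h5 : 1 ≤ Real.log k := log_ge_one (by linarith)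
      have h6 : 0 < Wp (zz N c) * Real.log k := by positivity
      refine ⟨by positivity, ?_⟩
      rw [div_le_iff₀ h6]
      have h7 : M * Wp (zz N c) ≤ M * Wp (zz N c) * Real.log k := le_mul_of_one_le_right (by linarith) h5
      linarith
  · rw [if_neg hk]
    simp [hM]

lemma pI_bd (k : ℕ) : 0 ≤ pI k ∧ pI k ≤ 1 := by
  unfold pI
  split_ifs <;> norm_num

/-- the number of primes up to `x` -/
lemma sum_pI {s y : ℝ} (hsy : s ≤ y) :
    ∑ k ∈ IO s y, pI k = (((Icc 1 ⌊y⌋₊).filter Nat.Prime).card : ℝ) -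
      (((Icc 1 ⌊s⌋₊).filter Nat.Prime).card : ℝ) := by
  have h : ∀ n : ℕ, (((Icc 1 n).filter Nat.Prime).card : ℝ) = ∑ k ∈ Ioc 0 n, pI k := by
    intro n
    have e : Ioc 0 n = Icc 1 n := by
      ext k
      simp only [mem_Ioc, mem_Icc]
      omega
    rw [e, card_filter]
    push_cast
    rfl
  rw [h, h]
  have h2 := Finset.sum_Ioc_consecutive pI (Nat.zero_le ⌊s⌋₊) (Nat.floor_le_floor hsy)
  unfold IO
  linarith

/-- the asymptotic facts -/
lemma ev_facts (c E : ℝ) (hc : 1 ≤ c) (L₀ X₀ : ℝ) : ∃ N₀ : ℝ, ∀ N : ℝ, N₀ ≤ N →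
    16 ≤ Real.log N ∧ L₀ ≤ Real.log N ∧ X₀ ≤ N ^ ((1 : ℝ) / 4) ∧
    Real.log N ^ (E + 2) ≤ N ^ ((1 : ℝ) / 4) ∧
    (4 * (1 + Real.log (zz N c))) ^ 16 ≤ Real.log N ∧ 3 ≤ zz N c ∧ 1 ≤ N := by
  have e1 := Real.tendsto_log_atTop.eventually_ge_atTop 16
  have e2 := Real.tendsto_log_atTop.eventually_ge_atTop L₀
  have e3 := (tendsto_rpow_atTop (by norm_num : (0 : ℝ) < 1 / 4)).eventually_ge_atTop X₀
  have e4 := (isLittleO_log_rpow_rpow_atTop (E + 2) (by norm_num : (0 : ℝ) < 1 / 4)).bound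
    (zero_lt_one (α := ℝ))
  have e5 : ∀ᶠ L : ℝ in Filter.atTop, 4 * (1 + 5 * c * Real.log L) ≤ L ^ ((1 : ℝ) / 16) := by
    have f1 := (isLittleO_log_rpow_atTop (by norm_num : (0 : ℝ) < 1 / 16)).bound
      (show (0 : ℝ) < 1 / (40 * c) by positivity)
    have f2 := (tendsto_rpow_atTop (by norm_num : (0 : ℝ) < 1 / 16)).eventually_ge_atTop 8
    filter_upwards [f1, f2, Filter.eventually_ge_atTop (1 : ℝ)] with L h1 h2 h3
    have h4 : 0 ≤ Real.log L := Real.log_nonneg h3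
    have h5 : 0 ≤ L ^ ((1 : ℝ) / 16) := by positivity
    rw [Real.norm_of_nonneg h4, Real.norm_of_nonneg h5] at h1
    have h6 : 20 * c * Real.log L ≤ 20 * c * (1 / (40 * c) * L ^ ((1 : ℝ) / 16)) :=
      mul_le_mul_of_nonneg_left h1 (by positivity)
    have h7 : 20 * c * (1 / (40 * c) * L ^ ((1 : ℝ) / 16)) = L ^ ((1 : ℝ) / 16) / 2 := by
      field_simp
      norm_num
    linarith
  have e5' := Real.tendsto_log_atTop.eventually e5
  have e6 := Filter.eventually_ge_atTop (1 : ℝ)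
  obtain ⟨N₀, hN₀⟩ := Filter.eventually_atTop.1 (e1.and (e2.and (e3.and (e4.and (e5'.and e6)))))
  refine ⟨N₀, fun N hN => ?_⟩
  obtain ⟨h1, h2, h3, h4, h5, h6⟩ := hN₀ N hN
  have hL0 : 0 ≤ Real.log N := by linarith
  have hN0 : 0 ≤ N := by linarith
  refine ⟨h1, h2, h3, ?_, ?_, ?_, h6⟩
  · rw [one_mul, Real.norm_of_nonneg (by positivity), Real.norm_of_nonneg (by positivity)] at h4
    exact h4
  · have hlz : Real.log (zz N c) = 5 * c * Real.log (Real.log N) := by
      unfold zz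
      rw [Real.log_rpow (by linarith)]
    have h7 : 0 ≤ Real.log (Real.log N) := Real.log_nonneg (by linarith)
    rw [hlz]
    calc (4 * (1 + 5 * c * Real.log (Real.log N))) ^ 16 ≤ (Real.log N ^ ((1 : ℝ) / 16)) ^ 16 :=
          pow_le_pow_left₀ (by positivity) h5 16
      _ = Real.log N := by
          rw [← Real.rpow_natCast, ← Real.rpow_mul hL0]
          norm_num
  · unfold zz
    calc (3 : ℝ) ≤ Real.log N := by linarith
      _ = Real.log N ^ (1 : ℝ) := (Real.rpow_one _).symm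
      _ ≤ Real.log N ^ (5 * c) := Real.rpow_le_rpow_of_exponent_le (by linarith) (by linarith)

end USMM

open USMM in
theorem specUSM (hRGH : SpecRGH) (hPNE : SpecPNE) : SpecUSM := by
  intro c E hc hE
  obtain ⟨N₁, hN₁⟩ := hRGH c (E + 6) hc (by linarith)
  obtain ⟨x₀, hx₀⟩ := hPNE (⌈E⌉₊ + 4)
  obtain ⟨N₂, hN₂⟩ := ev_facts c E hc (8 * 4 ^ (⌈E⌉₊ + 4)) (max x₀ 4)
  generalize hB : ⌈E⌉₊ + 4 = B at *
  refine ⟨max N₁ N₂, fun N hN y y' hy hyy' hlow _ => ?_⟩
  obtain ⟨hL16, hLB, hX, hLE, hM, hz3, hN1⟩ := hN₂ N ((le_max_right _ _).trans hN)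
  have hR := hN₁ N ((le_max_left _ _).trans hN)
  have hQ0 : x₀ ≤ N ^ ((1 : ℝ) / 4) := (le_max_left _ _).trans hX
  have hQ4 : 4 ≤ N ^ ((1 : ℝ) / 4) := (le_max_right _ _).trans hX
  have hQQ : N ^ ((1 : ℝ) / 2) = N ^ ((1 : ℝ) / 4) * N ^ ((1 : ℝ) / 4) := by
    rw [← Real.rpow_add (by linarith)]
    norm_num
  have hlogQ : Real.log (N ^ ((1 : ℝ) / 4)) = Real.log N / 4 := by
    rw [Real.log_rpow (by linarith)]
    ring
  have hW := Wp_ge (show 2 ≤ zz N c by linarith)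
  have hM0 : 0 ≤ (4 * (1 + Real.log (zz N c))) ^ 16 := by positivity
  have hw := fun k => w0_bd hz3 hM0 hW k
  generalize (4 * (1 + Real.log (zz N c))) ^ 16 = M at *
  have hW0 : 0 < Wp (zz N c) := by
    by_contra h
    have h1 : Wp (zz N c) ≤ 0 := not_lt.1 h
    nlinarith
  rw [hQQ] at hlow
  generalize hQ : N ^ ((1 : ℝ) / 4) = Q at *
  generalize hLdef : Real.log N = L at *
  have hL0 : 0 < L := by linarith
  -- powers of `L`
  have hE2 : L ^ (E + 2) = L ^ E * L ^ 2 := by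
    rw [Real.rpow_add hL0]
    norm_num
  have hE6 : L ^ (E + 6) = L ^ E * L ^ 6 := by
    rw [Real.rpow_add hL0]
    norm_num
  have hLE0 : 0 < L ^ E := Real.rpow_pos_of_pos hL0 E
  have hLE1 : 1 ≤ L ^ E := Real.one_le_rpow (by linarith) hE
  have hBE : L ^ E * L ^ 4 ≤ L ^ B := by
    have h : L ^ (E + 4) = L ^ E * L ^ 4 := by
      rw [Real.rpow_add hL0]
      norm_num
    rw [← h, ← Real.rpow_natCast]
    refine Real.rpow_le_rpow_of_exponent_le (by linarith) ?_
    rw [← hB]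
    push_cast
    linarith [Nat.le_ceil E]
  generalize L ^ E = R at *
  rw [hE2] at hLE
  rw [hE6] at hR
  -- the splitting point
  have hD0 : 0 < R * L ^ 2 := by positivity
  have hD1 : 1 ≤ R * L ^ 2 := by nlinarith
  have hy'0 : 0 < y' := by nlinarith
  obtain ⟨x₁, hx₁⟩ : ∃ x₁, x₁ = y' / (R * L ^ 2) := ⟨_, rfl⟩
  have hx₁Q : Q ≤ x₁ := by
    rw [hx₁, le_div_iff₀ hD0]
    nlinarith
  have hx₁y : x₁ ≤ y' := by
    rw [hx₁, div_le_iff₀ hD0]
    nlinarith
  obtain ⟨s, hs⟩ : ∃ s, s = max y x₁ := ⟨_, rfl⟩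
  have hsy' : s ≤ y' := by rw [hs]; exact max_le hyy' hx₁y
  have hys : y ≤ s := by rw [hs]; exact le_max_left _ _
  have hQs : Q ≤ s := by rw [hs]; exact hx₁Q.trans (le_max_right _ _)
  -- the first part
  have hsplit : ∑ k ∈ IO y y', (pI k - w0 N c k) =
      ∑ k ∈ IO y s, (pI k - w0 N c k) + ∑ k ∈ IO s y', (pI k - w0 N c k) := by
    unfold IO
    exact (Finset.sum_Ioc_consecutive _ (Nat.floor_le_floor hys) (Nat.floor_le_floor hsy')).symm
  have hM1 : 1 ≤ M := by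
    have h : Wp (zz N c) ≤ 1 := by
      unfold Wp
      refine prod_le_one (fun p hp => ?_) (fun p _ => ?_)
      · have hp2 : (2 : ℝ) ≤ p := by
          exact_mod_cast (mem_filter.1 hp).2.two_le
        have : 1 / (p : ℝ) ≤ 1 := by
          rw [div_le_one (by linarith)]
          linarith
        linarith
      · have : 0 ≤ 1 / (p : ℝ) := by positivity
        linarith
    nlinarith
  have hfirst : |∑ k ∈ IO y s, (pI k - w0 N c k)| ≤ 2 * M * x₁ := by
    have h1 : |∑ k ∈ IO y s, (pI k - w0 N c k)| ≤ ∑ k ∈ IO y s, M := by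
      refine (abs_sum_le_sum_abs _ _).trans (sum_le_sum fun k _ => ?_)
      have h2 := hw k
      have h3 := pI_bd k
      rw [abs_le]
      constructor <;> linarith [h2.1, h2.2, h3.1, h3.2]
    rw [sum_const, nsmul_eq_mul] at h1
    have h2 : (((IO y s).card : ℕ) : ℝ) ≤ x₁ := by
      unfold IO
      rw [Nat.card_Ioc]
      rcases le_total x₁ y with h | h
      · rw [hs, max_eq_left h]
        simp
        linarith
      · rw [hs, max_eq_right h]
        calc ((⌊x₁⌋₊ - ⌊y⌋₊ : ℕ) : ℝ) ≤ (⌊x₁⌋₊ : ℝ) := by exact_mod_cast Nat.sub_le _ _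
          _ ≤ x₁ := Nat.floor_le (by linarith)
    have hx0 : 0 ≤ x₁ := by linarith
    have h3 := mul_le_mul_of_nonneg_right h2 hM0
    have h4 := mul_nonneg hM0 hx0
    linarith
  -- the primes
  have hprimes : |∑ k ∈ IO s y', pI k - ∫ t in s..y', fl t| ≤ 2 * (y' * 4 ^ B / L ^ B) := by
    rw [sum_pI hsy']
    have hlogs : L / 4 ≤ Real.log s := by
      rw [← hlogQ]
      exact Real.log_le_log (by linarith) hQs
    have hlogy : Real.log s ≤ Real.log y' := Real.log_le_log (by linarith) hsy'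
    have p1 := hx₀ s (hQ0.trans hQs)
    have p2 := hx₀ y' (hQ0.trans (hQs.trans hsy'))
    have e1 := intervalIntegral.integral_add_adjacent_intervals
      (fl_cont 2 s (by linarith) (by linarith)) (fl_cont s y' (by linarith) (by linarith))
    have q : ∀ x : ℝ, 0 ≤ x → x ≤ y' → L / 4 ≤ Real.log x → x / Real.log x ^ B ≤ y' * 4 ^ B / L ^ B := by
      intro x hx hxy hl
      have h1 : (L / 4) ^ B ≤ Real.log x ^ B := pow_le_pow_left₀ (by positivity) hl B
      calc x / Real.log x ^ B ≤ y' / (L / 4) ^ B :=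
            div_le_div₀ (by linarith) hxy (by positivity) h1
        _ = y' * 4 ^ B / L ^ B := by
            rw [div_pow]
            field_simp
    have q1 := q s (by linarith) hsy' hlogs
    have q2 := q y' (by linarith) le_rfl (hlogs.trans hlogy)
    have e0 : ∀ x : ℝ, ∫ t in (2 : ℝ)..x, 1 / Real.log t = ∫ t in (2 : ℝ)..x, fl t := fun x => rfl
    rw [e0] at p1 p2
    have p1' := abs_le.1 p1
    have p2' := abs_le.1 p2
    rw [abs_le]
    constructor <;> linarith [p1'.1, p1'.2, p2'.1, p2'.2]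
  -- the model
  have hmodel : |∑ k ∈ IO s y', w0 N c k - ∑ k ∈ IO s y', fl k| ≤ M * (y' / (R * L ^ 6) + Q) := by
    have hs4 : 4 ≤ s := by linarith
    have hfs : 3 ≤ ⌊s⌋₊ := by
      rw [Nat.le_floor_iff (by linarith)]
      push_cast
      linarith
    have hbfl : ∀ k, ⌊s⌋₊ < k → (3 : ℝ) ≤ k := by
      intro k hk
      have : 3 ≤ k := by omega
      exact_mod_cast this
    have h1 := abel1 (fun k => fl k) (fun k => rInd (zz N c) k - Wp (zz N c)) ⌊s⌋₊ ⌊y'⌋₊
      (y' / (R * L ^ 6) + Q) (fun k hk => fl_nonneg (by linarith [hbfl k hk]))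
      (fun k hk => by
        push_cast
        exact fl_anti (by linarith [hbfl k hk]) (by linarith))
      (fun m hm1 hm2 => by
        have hfsy : ⌊s⌋₊ ≤ ⌊y'⌋₊ := Nat.floor_le_floor hsy'
        have hm3 : m ≤ ⌊y'⌋₊ := by omega
        have hm4 : (m : ℝ) ≤ y' := (by exact_mod_cast hm3 : (m : ℝ) ≤ (⌊y'⌋₊ : ℝ)).trans
          (Nat.floor_le (by linarith))
        have h := hR (⌊s⌋₊ : ℝ) (m : ℝ) (Nat.cast_nonneg _) (by exact_mod_cast hm1)
        unfold IO at h
        rw [Nat.floor_natCast, Nat.floor_natCast] at h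
        rw [sum_sub_distrib, sum_const, Nat.card_Ioc, nsmul_eq_mul, Nat.cast_sub hm1]
        have h2 : ((m : ℝ) - ⌊s⌋₊) / (R * L ^ 6) ≤ y' / (R * L ^ 6) := by
          refine div_le_div_of_nonneg_right ?_ (by positivity)
          have : (0 : ℝ) ≤ (⌊s⌋₊ : ℝ) := Nat.cast_nonneg _
          linarith
        rw [mul_comm (Wp (zz N c))] at h
        linarith)
    have h2 : fl ((⌊s⌋₊ + 1 : ℕ) : ℝ) ≤ 1 := fl_le_one (hbfl _ (by omega))
    have hG0 : 0 ≤ y' / (R * L ^ 6) + Q := by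
      have : 0 ≤ y' / (R * L ^ 6) := by positivity
      linarith
    have h3 : |∑ k ∈ Ioc ⌊s⌋₊ ⌊y'⌋₊, fl k * (rInd (zz N c) k - Wp (zz N c))| ≤
        y' / (R * L ^ 6) + Q := h1.trans (mul_le_of_le_one_right hG0 h2)
    have h4 : ∑ k ∈ IO s y', w0 N c k - ∑ k ∈ IO s y', fl k =
        (Wp (zz N c))⁻¹ * ∑ k ∈ Ioc ⌊s⌋₊ ⌊y'⌋₊, fl k * (rInd (zz N c) k - Wp (zz N c)) := by
      unfold IO
      rw [← sum_sub_distrib, mul_sum]
      refine sum_congr rfl fun k hk => ?_
      have hk3 := hbfl k (mem_Ioc.1 hk).1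
      have hlk : Real.log (k : ℝ) ≠ 0 := by
        have := log_ge_one hk3
        linarith
      unfold w0 fl
      field_simp
    rw [h4, abs_mul, abs_of_pos (inv_pos.2 hW0)]
    have h5 : (Wp (zz N c))⁻¹ ≤ M := by
      rw [inv_le_iff_one_le_mul₀ hW0]
      exact hW
    exact mul_le_mul h5 h3 (abs_nonneg _) hM0
  have hfl := sum_fl_real (show 4 ≤ s by linarith) hsy'
  -- conclusion
  have hsum : |∑ k ∈ IO s y', (pI k - w0 N c k)| ≤
      2 * (y' * 4 ^ B / L ^ B) + M * (y' / (R * L ^ 6) + Q) + 3 := by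
    rw [sum_sub_distrib]
    have a1 := abs_le.1 hprimes
    have a2 := abs_le.1 hmodel
    have a3 := abs_le.1 hfl
    rw [abs_le]
    constructor <;> linarith [a1.1, a1.2, a2.1, a2.2, a3.1, a3.2]
  rw [hsplit]
  refine (abs_add_le _ _).trans ((add_le_add hfirst hsum).trans ?_)
  have hYR : 0 < y' / R := by positivity
  have t1 : 2 * M * x₁ ≤ y' / R / 8 := by
    rw [hx₁]
    calc 2 * M * (y' / (R * L ^ 2)) ≤ 2 * L * (y' / (R * L ^ 2)) := by gcongr
      _ = y' / R * (2 / L) := by field_simp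
      _ ≤ y' / R * (1 / 8) := by
          refine mul_le_mul_of_nonneg_left ?_ hYR.le
          rw [div_le_div_iff₀ hL0 (by norm_num)]
          linarith
      _ = y' / R / 8 := by ring
  have t2 : 2 * (y' * 4 ^ B / L ^ B) ≤ y' / R / 4 := by
    calc 2 * (y' * 4 ^ B / L ^ B) ≤ 2 * (y' * 4 ^ B / (R * L ^ 4)) := by gcongr
      _ = y' / R * (2 * 4 ^ B / L ^ 4) := by field_simp
      _ ≤ y' / R * (1 / 4) := by
          refine mul_le_mul_of_nonneg_left ?_ hYR.le
          rw [div_le_div_iff₀ (by positivity) (by norm_num)]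
          have : L ≤ L ^ 4 := le_self_pow₀ (by linarith) (by norm_num)
          linarith
      _ = y' / R / 4 := by ring
  have t3 : M * (y' / (R * L ^ 6)) ≤ y' / R / 16 := by
    calc M * (y' / (R * L ^ 6)) ≤ L * (y' / (R * L ^ 6)) := by gcongr
      _ = y' / R * (1 / L ^ 5) := by field_simp
      _ ≤ y' / R * (1 / 16) := by
          refine mul_le_mul_of_nonneg_left ?_ hYR.le
          rw [div_le_div_iff₀ (by positivity) (by norm_num)]
          have : L ≤ L ^ 5 := le_self_pow₀ (by linarith) (by norm_num)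
          linarith
      _ = y' / R / 16 := by ring
  have t4 : M * Q + 3 ≤ y' / R / 8 := by
    rw [div_div, le_div_iff₀ (by positivity)]
    have h1 : M * Q + 3 ≤ 2 * L * Q := by nlinarith
    have h2 : (M * Q + 3) * (R * 8) ≤ 2 * L * Q * (R * 8) := by
      exact mul_le_mul_of_nonneg_right h1 (by positivity)
    have h3 : 2 * L * Q * (R * 8) ≤ R * L ^ 2 * Q := by
      have : 16 * L ≤ L ^ 2 := by nlinarith
      have h4 : 0 ≤ R * Q := by positivity
      nlinarith [mul_le_mul_of_nonneg_left this h4]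
    have h4 : R * L ^ 2 * Q ≤ Q * Q := mul_le_mul_of_nonneg_right hLE (by linarith)
    linarith
  have t5 : M * (y' / (R * L ^ 6) + Q) = M * (y' / (R * L ^ 6)) + M * Q := by ring
  rw [t5]
  linarith

end

end Pool.Agent.Lib.MP3efbeb.LG
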