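import Pool.Agent.Lib.MP_3efbeb_nt.LG.SpecC
import Pool.Agent.Lib.MP_3efbeb_nt.LG.USM

/-!
# US2: small frequencies, the long prime with weight `log k/(2L)` against its model
-/

set_option autoImplicit false

namespace Pool.Agent.Lib.MP3efbeb.LG

open Finset MeasureTheory
open Pool.Agent.Lib.MP391708.QPA (PB rInd Wp Rough)

namespace US2M

lemma nitNorm (n : ℕ) (t : ℝ) : ‖nit n t‖ = 1 := by
  unfold nit
  exact Complex.norm_exp_ofReal_mul_I _

lemma nitStep (m : ℕ) (hm : 1 ≤ m) (t : ℝ) :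
    ‖nit m t - nit (m + 1) t‖ ≤ |t| / m := by
  have hm0 : (0 : ℝ) < m := by exact_mod_cast hm
  have h1 : nit (m + 1) t = nit m t *
      Complex.exp (Complex.I * ((t * (Real.log ((m : ℝ) + 1) - Real.log m) : ℝ) : ℂ)) := by
    unfold nit
    rw [← Complex.exp_add]
    congr 1
    push_cast
    ring
  have h2 : nit m t - nit (m + 1) t = -(nit m t *
      (Complex.exp (Complex.I * ((t * (Real.log ((m : ℝ) + 1) - Real.log m) : ℝ) : ℂ)) - 1)) := by
    rw [h1]
    ring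
  rw [h2, norm_neg, norm_mul, nitNorm, one_mul]
  refine le_trans Real.norm_exp_I_mul_ofReal_sub_one_le ?_
  rw [Real.norm_eq_abs, abs_mul]
  have h3 : Real.log ((m : ℝ) + 1) - Real.log m = Real.log (1 + 1 / m) := by
    rw [← Real.log_div (by positivity) hm0.ne']
    congr 1
    field_simp
  have h4 : Real.log (1 + 1 / (m : ℝ)) ≤ 1 / m := by
    have h5 := Real.log_le_sub_one_of_pos (show (0 : ℝ) < 1 + 1 / m by positivity)
    linarith
  have h5 : 0 ≤ Real.log (1 + 1 / (m : ℝ)) := Real.log_nonneg (by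
    have : (0 : ℝ) ≤ 1 / m := by positivity
    linarith)
  have h6 : |t| / (m : ℝ) = |t| * (1 / m) := by rw [mul_one_div]
  rw [h3, abs_of_nonneg h5, h6]
  exact mul_le_mul_of_nonneg_left h4 (abs_nonneg t)

lemma abel (a b : ℕ) (g : ℕ → ℝ) (δ t : ℝ) (hδ : 0 ≤ δ)
    (hG : ∀ m, a < m → m ≤ b → |∑ k ∈ Ioc a m, g k| ≤ δ * m) :
    ∀ m, a ≤ m → m ≤ b →
      ‖∑ k ∈ Ioc a m, (g k : ℂ) * nit k t - ((∑ k ∈ Ioc a m, g k : ℝ) : ℂ) * nit m t‖ ≤
        δ * |t| * ((m : ℝ) - a) := by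
  intro m ham
  induction m, ham using Nat.le_induction with
  | base =>
    intro _
    simp
  | succ m ham ih =>
    intro hmb
    have ih' := ih (by omega)
    rw [Finset.sum_Ioc_succ_top (by omega), Finset.sum_Ioc_succ_top (by omega)]
    have h1 : ∑ k ∈ Ioc a m, (g k : ℂ) * nit k t + (g (m + 1) : ℂ) * nit (m + 1) t -
        ((∑ k ∈ Ioc a m, g k + g (m + 1) : ℝ) : ℂ) * nit (m + 1) t =
        (∑ k ∈ Ioc a m, (g k : ℂ) * nit k t - ((∑ k ∈ Ioc a m, g k : ℝ) : ℂ) * nit m t) +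
        ((∑ k ∈ Ioc a m, g k : ℝ) : ℂ) * (nit m t - nit (m + 1) t) := by
      push_cast
      ring
    rw [h1]
    have h2 : ‖((∑ k ∈ Ioc a m, g k : ℝ) : ℂ) * (nit m t - nit (m + 1) t)‖ ≤ δ * |t| := by
      rcases Nat.eq_or_lt_of_le ham with h | h
      · subst h
        simp only [Finset.Ioc_self, Finset.sum_empty, Complex.ofReal_zero, zero_mul, norm_zero]
        positivity
      · have hm1 : 1 ≤ m := by omega
        have hm0 : (0 : ℝ) < m := by exact_mod_cast hm1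
        rw [norm_mul, Complex.norm_real, Real.norm_eq_abs]
        calc |∑ k ∈ Ioc a m, g k| * ‖nit m t - nit (m + 1) t‖
            ≤ (δ * m) * (|t| / m) :=
              mul_le_mul (hG m h (by omega)) (nitStep m hm1 t) (norm_nonneg _) (by positivity)
          _ = δ * |t| := by
              field_simp
    refine le_trans (norm_add_le _ _) ?_
    have h3 : δ * |t| * (((m + 1 : ℕ) : ℝ) - a) = δ * |t| * ((m : ℝ) - a) + δ * |t| := by
      push_cast
      ring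
    rw [h3]
    exact add_le_add ih' h2

lemma abelBound (a b : ℕ) (hab : a < b) (g : ℕ → ℝ) (δ t : ℝ) (hδ : 0 ≤ δ)
    (hG : ∀ m, a < m → m ≤ b → |∑ k ∈ Ioc a m, g k| ≤ δ * m) :
    ‖∑ k ∈ Ioc a b, (g k : ℂ) * nit k t‖ ≤ δ * (1 + |t|) * b := by
  have h1 := abel a b g δ t hδ hG b hab.le le_rfl
  have h2 : ‖((∑ k ∈ Ioc a b, g k : ℝ) : ℂ) * nit b t‖ ≤ δ * b := by
    rw [norm_mul, nitNorm, mul_one, Complex.norm_real, Real.norm_eq_abs]
    exact hG b hab le_rfl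
  have h3 := norm_add_le
    (∑ k ∈ Ioc a b, (g k : ℂ) * nit k t - ((∑ k ∈ Ioc a b, g k : ℝ) : ℂ) * nit b t)
    (((∑ k ∈ Ioc a b, g k : ℝ) : ℂ) * nit b t)
  rw [sub_add_cancel] at h3
  have h4 : 0 ≤ δ * |t| * a := by positivity
  nlinarith [h1, h2, h3, h4]

/-- the sum of `pL` -/
lemma sum_pL (N : ℝ) {a m : ℕ} (ham : a ≤ m) :
    ∑ k ∈ Ioc a m, pL N k = (∑ p ∈ (Icc 1 m).filter Nat.Prime, Real.log p
      - ∑ p ∈ (Icc 1 a).filter Nat.Prime, Real.log p) / (2 * Real.log N) := by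
  have h : ∀ n : ℕ, ∑ p ∈ (Icc 1 n).filter Nat.Prime, Real.log p / (2 * Real.log N)
      = ∑ k ∈ Ioc 0 n, pL N k := by
    intro n
    have e : Ioc 0 n = Icc 1 n := by
      ext k
      simp only [mem_Ioc, mem_Icc]
      omega
    rw [e, Finset.sum_filter]
    rfl
  have h2 := Finset.sum_Ioc_consecutive (pL N) (Nat.zero_le a) ham
  rw [sub_div, Finset.sum_div, Finset.sum_div, h, h]
  linarith

lemma num1 {L LE y : ℝ} (hL : 16 ≤ L) (hLE : 1 ≤ LE) (hy : 0 ≤ y) (x : ℝ) (hx0 : 0 ≤ x)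
    (hx : x ≤ LE) : 2 / (LE * LE * L ^ 4) * (1 + x) * (32 * y) ≤ y / LE := by
  have hLE0 : 0 < LE := by linarith
  have hL0 : 0 < L := by linarith
  have h1 : 2 / (LE * LE * L ^ 4) * (1 + x) * (32 * y)
      ≤ 2 / (LE * LE * L ^ 4) * (2 * LE) * (32 * y) := by
    apply mul_le_mul_of_nonneg_right _ (by positivity)
    exact mul_le_mul_of_nonneg_left (by linarith) (by positivity)
  refine h1.trans ?_
  have h2 : 2 / (LE * LE * L ^ 4) * (2 * LE) * (32 * y) = y / LE * (128 / L ^ 4) := by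
    field_simp
    ring
  rw [h2]
  have h3 : 128 / L ^ 4 ≤ 1 := by
    rw [div_le_one (by positivity)]
    have : (16 : ℝ) ^ 4 ≤ L ^ 4 := pow_le_pow_left₀ (by norm_num) hL 4
    linarith
  calc y / LE * (128 / L ^ 4) ≤ y / LE * 1 := mul_le_mul_of_nonneg_left h3 (by positivity)
    _ = y / LE := mul_one _

end US2M

open US2M in
theorem specUS2 (hRGH : SpecRGH) (hPNL : SpecPNL) : SpecUS2 := by
  intro c E hc hE
  obtain ⟨B, hB⟩ : ∃ B : ℕ, 2 * E + 5 ≤ B := exists_nat_ge _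
  obtain ⟨x₀, hPNL⟩ := hPNL B
  obtain ⟨N₁, hRGH⟩ := hRGH c (2 * E + 4) hc (by linarith)
  obtain ⟨N₂, hev⟩ := USMM.ev_facts c (2 * E + 2) hc (2 ^ B) x₀
  refine ⟨max N₁ N₂, fun N hN y t hy hyN ht => ?_⟩
  have hRGH := hRGH N (le_trans (le_max_left _ _) hN)
  obtain ⟨hL16, hLB, hx0, hLN, hWz, hz3, hN1⟩ := hev N (le_trans (le_max_right _ _) hN)
  set L : ℝ := Real.log N with hL
  have hL0 : 0 < L := by linarith
  have hN0 : 0 < N := by linarith
  have hN4 : 1 ≤ N ^ ((1 : ℝ) / 4) := Real.one_le_rpow hN1 (by norm_num)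
  have hN42 : N ^ ((1 : ℝ) / 4) * N ^ ((1 : ℝ) / 4) = N ^ ((1 : ℝ) / 2) := by
    rw [← Real.rpow_add hN0]
    norm_num
  have hy4 : N ^ ((1 : ℝ) / 4) * N ^ ((1 : ℝ) / 4) ≤ y := by
    rw [hN42]
    exact hy
  have hy4' : N ^ ((1 : ℝ) / 4) ≤ y := by nlinarith
  have hy1 : 1 ≤ y := by linarith
  have hy0 : 0 < y := by linarith
  have hE4 : 2 * E + 2 + 2 = 2 * E + 4 := by ring
  rw [hE4] at hLN
  set LD : ℝ := L ^ (2 * E + 4) with hLD
  have hLD0 : 0 < LD := Real.rpow_pos_of_pos hL0 _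
  set z : ℝ := zz N c with hz
  set w : ℝ := Wp z with hw
  have hWge := USMM.Wp_ge (z := z) (by linarith)
  rw [← hw] at hWge
  have hWL : 1 ≤ L * w := by
    have hw0 : 0 < w := by
      by_contra h
      have h1 : w ≤ 0 := not_lt.1 h
      have h2 : (4 * (1 + Real.log z)) ^ 16 * w ≤ 0 :=
        mul_nonpos_of_nonneg_of_nonpos (by positivity) h1
      linarith
    have h3 := mul_le_mul_of_nonneg_right hWz hw0.le
    linarith
  have hw0 : 0 < w := by
    by_contra h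
    have h1 : w ≤ 0 := not_lt.1 h
    have h2 : L * w ≤ 0 := mul_nonpos_of_nonneg_of_nonpos hL0.le h1
    linarith
  -- the logarithm of `x ≥ y`
  have hlogx : ∀ x : ℝ, y ≤ x → LD ≤ Real.log x ^ B ∧ x₀ ≤ x := by
    intro x hx
    have h1 : L / 2 ≤ Real.log x := by
      have h2 : Real.log (N ^ ((1 : ℝ) / 2)) ≤ Real.log x :=
        Real.log_le_log (Real.rpow_pos_of_pos hN0 _) (hy.trans hx)
      rw [Real.log_rpow hN0] at h2
      linarith
    have h2 : (L / 2) ^ B ≤ Real.log x ^ B := pow_le_pow_left₀ (by positivity) h1 B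
    have h3 : LD * 2 ^ B ≤ L ^ B := by
      calc LD * 2 ^ B ≤ LD * L := mul_le_mul_of_nonneg_left hLB hLD0.le
        _ = L ^ (2 * E + 4 + 1) := by
            rw [Real.rpow_add hL0, Real.rpow_one]
        _ ≤ L ^ (B : ℝ) := Real.rpow_le_rpow_of_exponent_le (by linarith) (by linarith)
        _ = L ^ B := Real.rpow_natCast _ _
    have h4 : LD ≤ (L / 2) ^ B := by
      rw [div_pow, le_div_iff₀ (by positivity)]
      exact h3
    exact ⟨h4.trans h2, hx0.trans (hy4'.trans hx)⟩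
  have hθ : ∀ x : ℝ, y ≤ x → |∑ p ∈ (Icc 1 ⌊x⌋₊).filter Nat.Prime, Real.log p - x| ≤ x / LD := by
    intro x hx
    obtain ⟨h1, h2⟩ := hlogx x hx
    refine (hPNL x h2).trans ?_
    exact div_le_div_of_nonneg_left (by linarith) hLD0 h1
  -- the partial sums
  have hG : ∀ m : ℕ, ⌊y⌋₊ < m → m ≤ ⌊32 * y⌋₊ →
      |∑ k ∈ Ioc ⌊y⌋₊ m, (pL N k - w1 N c k)| ≤ 2 / LD * m := by
    intro m hm _
    have hym : y < m := (Nat.floor_lt hy0.le).1 hm
    have hm0 : (0 : ℝ) < m := by linarith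
    have e1 := hθ m hym.le
    have e2 := hθ y le_rfl
    rw [Nat.floor_natCast] at e1
    have e3 := hRGH y m hy0.le hym.le
    rw [IO, Nat.floor_natCast] at e3
    set θm := ∑ p ∈ (Icc 1 m).filter Nat.Prime, Real.log p with hθm
    set θy := ∑ p ∈ (Icc 1 ⌊y⌋₊).filter Nat.Prime, Real.log p with hθy
    set R := ∑ k ∈ Ioc ⌊y⌋₊ m, rInd z k with hR
    have s1 : ∑ k ∈ Ioc ⌊y⌋₊ m, pL N k = (θm - θy) / (2 * L) := sum_pL N hm.le
    have s2 : ∑ k ∈ Ioc ⌊y⌋₊ m, w1 N c k = R / (2 * L * w) := by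
      rw [hR, Finset.sum_div]
      rfl
    rw [Finset.sum_sub_distrib, s1, s2]
    have s3 : (θm - θy) / (2 * L) - R / (2 * L * w)
        = ((θm - m) - (θy - y)) / (2 * L) - (R - w * (m - y)) / (2 * L * w) := by
      field_simp
      ring
    rw [s3]
    have t1 : |((θm - m) - (θy - y)) / (2 * L)| ≤ m / LD := by
      rw [abs_div, abs_of_pos (show 0 < 2 * L by positivity), div_le_iff₀ (by positivity)]
      have h1 : |(θm - m) - (θy - y)| ≤ m / LD + y / LD := (abs_sub _ _).trans (add_le_add e1 e2)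
      have h2 : y / LD ≤ m / LD := div_le_div_of_nonneg_right hym.le hLD0.le
      have h3 : m / LD * 2 ≤ m / LD * (2 * L) :=
        mul_le_mul_of_nonneg_left (by linarith) (by positivity)
      linarith
    have t2 : |(R - w * (m - y)) / (2 * L * w)| ≤ m / LD := by
      rw [abs_div, abs_of_pos (show 0 < 2 * L * w by positivity), div_le_iff₀ (by positivity)]
      have h1 : (m - y) / LD ≤ m / LD := div_le_div_of_nonneg_right (by linarith) hLD0.le
      have h2 : N ^ ((1 : ℝ) / 4) ≤ m / LD := by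
        rw [le_div_iff₀ hLD0]
        calc N ^ ((1 : ℝ) / 4) * LD ≤ N ^ ((1 : ℝ) / 4) * N ^ ((1 : ℝ) / 4) :=
              mul_le_mul_of_nonneg_left hLN (by positivity)
          _ ≤ y := hy4
          _ ≤ m := hym.le
      have h3 : m / LD * 2 ≤ m / LD * (2 * L * w) :=
        mul_le_mul_of_nonneg_left (by linarith) (by positivity)
      linarith
    have t3 : |((θm - m) - (θy - y)) / (2 * L) - (R - w * (m - y)) / (2 * L * w)|
        ≤ m / LD + m / LD := (abs_sub _ _).trans (add_le_add t1 t2)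
    refine t3.trans (le_of_eq ?_)
    ring
  have hfl : ⌊y⌋₊ < ⌊32 * y⌋₊ := by
    rw [Nat.lt_iff_add_one_le]
    apply Nat.le_floor
    push_cast
    have := Nat.floor_le hy0.le
    linarith
  have hδ : 0 ≤ 2 / LD := by positivity
  have hfin := abelBound ⌊y⌋₊ ⌊32 * y⌋₊ hfl (fun k => pL N k - w1 N c k) (2 / LD) t hδ hG
  have hDP : DP (IO y (32 * y)) (fun k => ((pL N k - w1 N c k : ℝ) : ℂ)) t
      = ∑ k ∈ Ioc ⌊y⌋₊ ⌊32 * y⌋₊, ((pL N k - w1 N c k : ℝ) : ℂ) * nit k t := rfl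
  rw [hDP]
  refine hfin.trans ?_
  have hfl2 : (⌊32 * y⌋₊ : ℝ) ≤ 32 * y := Nat.floor_le (by linarith)
  have hLE1 : 1 ≤ L ^ E := Real.one_le_rpow (by linarith) hE
  have hLDeq : LD = L ^ E * L ^ E * L ^ 4 := by
    rw [hLD, ← Real.rpow_natCast, ← Real.rpow_add hL0, ← Real.rpow_add hL0]
    congr 1
    push_cast
    ring
  have hn := num1 (y := y) hL16 hLE1 hy0.le |t| (abs_nonneg t) ht
  rw [← hLDeq] at hn
  refine le_trans ?_ hn
  exact mul_le_mul_of_nonneg_left hfl2 (by positivity)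

end Pool.Agent.Lib.MP3efbeb.LG
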