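import Pool.Agent.Lib.MP_3efbeb_nt.LG.SpecC

/-!
# LongPatterns, module VAU (helper53): Vaughan's identity
-/

set_option autoImplicit false

namespace Pool.Agent.Lib.MP3efbeb.LG

open Finset
open ArithmeticFunction (vonMangoldt moebius)

noncomputable section

namespace VAUM

/-- `μ` on `[1, V]` -/
def M1 (V : ℕ) : ArithmeticFunction ℝ := ⟨fun n => if n ≤ V then (moebius n : ℝ) else 0, by simp⟩

/-- `μ` beyond `V` -/
def M2 (V : ℕ) : ArithmeticFunction ℝ := ⟨fun n => if V < n then (moebius n : ℝ) else 0, by simp⟩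

/-- `Λ` on `[1, V]` -/
def L1 (V : ℕ) : ArithmeticFunction ℝ := ⟨fun n => if n ≤ V then vonMangoldt n else 0, by simp⟩

/-- `Λ` beyond `V` -/
def L2 (V : ℕ) : ArithmeticFunction ℝ := ⟨fun n => if V < n then vonMangoldt n else 0, by simp⟩

theorem M1_apply (V n : ℕ) : (M1 V) n = if n ≤ V then (moebius n : ℝ) else 0 := rfl
theorem M2_apply (V n : ℕ) : (M2 V) n = if V < n then (moebius n : ℝ) else 0 := rfl
theorem L1_apply (V n : ℕ) : (L1 V) n = if n ≤ V then vonMangoldt n else 0 := rfl
theorem L2_apply (V n : ℕ) : (L2 V) n = if V < n then vonMangoldt n else 0 := rfl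

theorem M_add (V : ℕ) : M1 V + M2 V = (moebius : ArithmeticFunction ℝ) := by
  ext n
  rw [ArithmeticFunction.add_apply, M1_apply, M2_apply, ArithmeticFunction.intCoe_apply]
  by_cases h : n ≤ V
  · rw [if_pos h, if_neg (by omega), add_zero]
  · rw [if_neg h, if_pos (by omega), zero_add]

theorem L_add (V : ℕ) : L1 V + L2 V = vonMangoldt := by
  ext n
  rw [ArithmeticFunction.add_apply, L1_apply, L2_apply]
  by_cases h : n ≤ V
  · rw [if_pos h, if_neg (by omega), add_zero]
  · rw [if_neg h, if_pos (by omega), zero_add]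

theorem va1_eq (V k : ℕ) : va1 V k = (M1 V * ArithmeticFunction.log) k := by
  rw [ArithmeticFunction.mul_apply, Nat.sum_divisorsAntidiagonal
    (f := fun a b => (M1 V) a * ArithmeticFunction.log b)]
  unfold va1
  rw [Finset.sum_filter]
  apply Finset.sum_congr rfl
  intro b hb
  have hd := Nat.dvd_of_mem_divisors hb
  have h0 : b ≠ 0 := (Nat.pos_of_mem_divisors hb).ne'
  rw [M1_apply, ArithmeticFunction.log_apply, Nat.cast_div hd (by exact_mod_cast h0)]
  split_ifs <;> simp

theorem vaa_eq (V m : ℕ) : vaa V m = (M1 V * L1 V) m := by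
  rw [ArithmeticFunction.mul_apply, Nat.sum_divisorsAntidiagonal
    (f := fun a b => (M1 V) a * (L1 V) b)]
  unfold vaa
  rw [Finset.sum_filter]
  apply Finset.sum_congr rfl
  intro b hb
  rw [M1_apply, L1_apply]
  by_cases h1 : b ≤ V
  · by_cases h2 : m / b ≤ V
    · rw [if_pos ⟨h1, h2⟩, if_pos h1, if_pos h2]
    · rw [if_neg (fun h => h2 h.2), if_neg h2, mul_zero]
  · rw [if_neg (fun h => h1 h.1), if_neg h1, zero_mul]

theorem va2_eq (V k : ℕ) : va2 V k = (M1 V * L1 V * (ArithmeticFunction.zeta : ArithmeticFunction ℝ)) k := by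
  rw [ArithmeticFunction.coe_mul_zeta_apply]
  unfold va2
  apply Finset.sum_congr rfl
  intro m _
  exact vaa_eq V m

theorem vab_eq (V m : ℕ) : vab V m = (M2 V * (ArithmeticFunction.zeta : ArithmeticFunction ℝ)) m := by
  rw [ArithmeticFunction.coe_mul_zeta_apply]
  unfold vab
  rw [Finset.sum_filter]
  apply Finset.sum_congr rfl
  intro b _
  rw [M2_apply]

theorem va3_eq (V k : ℕ) : va3 V k =
    (L2 V * (M2 V * (ArithmeticFunction.zeta : ArithmeticFunction ℝ))) k := by
  rw [ArithmeticFunction.mul_apply, Nat.sum_divisorsAntidiagonal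
    (f := fun a b => (L2 V) a * (M2 V * (ArithmeticFunction.zeta : ArithmeticFunction ℝ)) b)]
  unfold va3
  rw [Finset.sum_filter]
  apply Finset.sum_congr rfl
  intro c _
  rw [vab_eq, L2_apply]
  split_ifs <;> simp

theorem ident (V : ℕ) : L2 V + M1 V * L1 V * (ArithmeticFunction.zeta : ArithmeticFunction ℝ) =
    M1 V * ArithmeticFunction.log + L2 V * (M2 V * (ArithmeticFunction.zeta : ArithmeticFunction ℝ)) := by
  have h1 : (vonMangoldt * (ArithmeticFunction.zeta : ArithmeticFunction ℝ)) = ArithmeticFunction.log :=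
    ArithmeticFunction.vonMangoldt_mul_zeta
  have h2 : (moebius : ArithmeticFunction ℝ) * (ArithmeticFunction.zeta : ArithmeticFunction ℝ) = 1 :=
    ArithmeticFunction.coe_moebius_mul_coe_zeta
  rw [← M_add V] at h2
  rw [← L_add V] at h1
  rw [← h1]
  have h3 : L2 V = L2 V * ((M1 V + M2 V) * (ArithmeticFunction.zeta : ArithmeticFunction ℝ)) := by
    rw [h2, mul_one]
  calc L2 V + M1 V * L1 V * (ArithmeticFunction.zeta : ArithmeticFunction ℝ)
      = L2 V * ((M1 V + M2 V) * (ArithmeticFunction.zeta : ArithmeticFunction ℝ)) +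
        M1 V * L1 V * (ArithmeticFunction.zeta : ArithmeticFunction ℝ) := by rw [← h3]
    _ = _ := by ring

theorem mu_abs_le (b : ℕ) : |(moebius b : ℝ)| ≤ 1 := by
  have := ArithmeticFunction.abs_moebius_le_one (n := b)
  exact_mod_cast this

end VAUM

open VAUM in
theorem specVAU : SpecVAU := by
  intro V k m
  refine ⟨?_, ?_, ?_, ?_, ?_⟩
  · intro hk
    rw [va1_eq, va2_eq, va3_eq]
    have h := congrArg (fun f : ArithmeticFunction ℝ => f k) (ident V)
    simp only [ArithmeticFunction.add_apply] at h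
    have h2 : (L2 V) k = vonMangoldt k := by
      rw [L2_apply, if_pos hk]
    rw [h2] at h
    linarith
  · unfold vaa
    calc |∑ b ∈ m.divisors.filter (fun b => b ≤ V ∧ m / b ≤ V), (moebius b : ℝ) * vonMangoldt (m / b)|
        ≤ ∑ b ∈ m.divisors.filter (fun b => b ≤ V ∧ m / b ≤ V), |(moebius b : ℝ) * vonMangoldt (m / b)| :=
          Finset.abs_sum_le_sum_abs _ _
      _ ≤ ∑ b ∈ m.divisors.filter (fun b => b ≤ V ∧ m / b ≤ V), vonMangoldt (m / b) := by
          apply Finset.sum_le_sum
          intro b _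
          have h0 : 0 ≤ vonMangoldt (m / b) := ArithmeticFunction.vonMangoldt_nonneg
          rw [abs_mul, abs_of_nonneg h0]
          have := mu_abs_le b
          nlinarith
      _ ≤ ∑ b ∈ m.divisors, vonMangoldt (m / b) :=
          Finset.sum_le_sum_of_subset_of_nonneg (Finset.filter_subset _ _)
            (fun b _ _ => ArithmeticFunction.vonMangoldt_nonneg)
      _ = ∑ b ∈ m.divisors, vonMangoldt b := Nat.sum_div_divisors m (fun c => vonMangoldt c)
      _ = Real.log m := ArithmeticFunction.vonMangoldt_sum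
  · intro hV
    unfold vaa
    apply Finset.sum_eq_zero
    intro b hb
    exfalso
    rw [Finset.mem_filter] at hb
    obtain ⟨h1, h2, h3⟩ := hb
    have h4 : b * (m / b) = m := Nat.mul_div_cancel' (Nat.dvd_of_mem_divisors h1)
    have h5 : b * (m / b) ≤ V * V := Nat.mul_le_mul h2 h3
    nlinarith
  · unfold vab
    calc |∑ b ∈ m.divisors.filter (fun b => V < b), (moebius b : ℝ)|
        ≤ ∑ b ∈ m.divisors.filter (fun b => V < b), |(moebius b : ℝ)| := Finset.abs_sum_le_sum_abs _ _
      _ ≤ ∑ _b ∈ m.divisors.filter (fun b => V < b), (1 : ℝ) := Finset.sum_le_sum fun b _ => mu_abs_le b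
      _ = ((m.divisors.filter (fun b => V < b)).card : ℝ) := by simp
      _ ≤ (m.divisors.card : ℝ) := by exact_mod_cast Finset.card_filter_le _ _
  · intro hm
    unfold vab
    apply Finset.sum_eq_zero
    intro b hb
    exfalso
    rw [Finset.mem_filter] at hb
    have := Nat.divisor_le hb.1
    omega

end

end Pool.Agent.Lib.MP3efbeb.LG
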