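import Pool.Agent.Lib.MP_3efbeb_nt.LG.SpecA

/-!
# WIN: mean squares of sums over short intervals by Dirichlet polynomials
-/

set_option autoImplicit false

namespace Pool.Agent.Lib.MP3efbeb.LG

open Finset MeasureTheory

noncomputable section

namespace WINM

/-- the number of the integers in a real interval -/
lemma card_le (S : Finset ℕ) (lo hi : ℝ) (hlo : 0 ≤ lo) (hh : lo ≤ hi)
    (h : ∀ n ∈ S, lo < (n : ℝ) ∧ (n : ℝ) < hi) : (S.card : ℝ) ≤ hi - lo + 1 := by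
  have h1 : S ⊆ Finset.Ioc ⌊lo⌋₊ ⌊hi⌋₊ := by
    intro n hn
    obtain ⟨h2, h3⟩ := h n hn
    rw [Finset.mem_Ioc]
    exact ⟨(Nat.floor_lt hlo).2 h2, Nat.le_floor h3.le⟩
  have h2 : S.card ≤ ⌊hi⌋₊ - ⌊lo⌋₊ := by
    have := Finset.card_le_card h1
    rwa [Nat.card_Ioc] at this
  have h4 : ⌊lo⌋₊ ≤ ⌊hi⌋₊ := Nat.floor_le_floor hh
  have h3 : (S.card : ℝ) ≤ (⌊hi⌋₊ : ℝ) - ⌊lo⌋₊ := by
    rw [← Nat.cast_sub h4]
    exact_mod_cast h2
  have h5 := Nat.floor_le (hlo.trans hh)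
  have h6 := Nat.lt_floor_add_one lo
  linarith

lemma mem_IO {N : ℝ} {K n : ℕ} (hN : 0 ≤ N) (h1 : N < n) (h2 : (n : ℝ) ≤ K * N) :
    n ∈ IO N (K * N) := by
  rw [IO, Finset.mem_Ioc]
  exact ⟨(Nat.floor_lt hN).2 h1, Nat.le_floor h2⟩

lemma card_IO {N : ℝ} {K : ℕ} (hN : 0 ≤ N) : ((IO N (K * N)).card : ℝ) ≤ K * N := by
  rw [IO, Nat.card_Ioc]
  have h0 : (0 : ℝ) ≤ K * N := by positivity
  calc ((⌊(K : ℝ) * N⌋₊ - ⌊N⌋₊ : ℕ) : ℝ) ≤ (⌊(K : ℝ) * N⌋₊ : ℝ) := by
        exact_mod_cast Nat.sub_le _ _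
    _ ≤ K * N := Nat.floor_le h0

lemma sum_boole_le (S : Finset ℕ) (lo hi : ℝ) (hlo : 0 ≤ lo) (hh : lo ≤ hi) :
    ∑ n ∈ S, (if lo < (n : ℝ) ∧ (n : ℝ) < hi then (1 : ℝ) else 0) ≤ hi - lo + 1 := by
  rw [Finset.sum_boole]
  exact card_le _ lo hi hlo hh fun n hn => (Finset.mem_filter.1 hn).2

/-- the sharp sum and the smoothed sum -/
lemma close (hWNB : SpecWNB) {K : ℕ} (hK : 1 ≤ K) {N η : ℝ} {y : ℕ} {c : ℕ → ℂ}
    (hN : Real.exp (10 * K) ≤ N) (hy : 1 ≤ y) (hyN : (y : ℝ) ^ 2 ≤ N / 12) (hη : 0 < η)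
    (hη1 : η ≤ 1 / 10) (hc : ∀ n, c n ≠ 0 → N < n ∧ (n : ℝ) ≤ K * N) (hc1 : ∀ n, ‖c n‖ ≤ 1)
    {x v : ℝ} {j : ℕ} (hx : N / 2 ≤ x) (hxj : x ≤ j) (hjx : (j : ℝ) < x * (1 + η))
    (hjN : (j : ℝ) < K * N) (hv1 : Real.log j ≤ v) (hv2 : v ≤ Real.log (j + 1)) :
    ‖(∑ n ∈ Ioc j (j + y), c n) - ∑ n ∈ IO N (K * N),
      c n * (Wd (y / x) (η * y / (K * N * Real.log N)) (Real.log n - v) : ℂ)‖
      ≤ 10 * (η * y + 1) := by
  have hK1 : (1 : ℝ) ≤ K := by exact_mod_cast hK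
  have hN0 : 0 < N := lt_of_lt_of_le (Real.exp_pos _) hN
  have hL : 10 * (K : ℝ) ≤ Real.log N := (Real.le_log_iff_exp_le hN0).2 hN
  set L : ℝ := Real.log N with hLdef
  have hL0 : 0 < L := by linarith
  have hy1 : (1 : ℝ) ≤ y := by exact_mod_cast hy
  have hN12 : 12 ≤ N := by
    have := one_le_pow₀ hy1 (n := 2)
    linarith
  have hx0 : 0 < x := by linarith
  have hj0 : (0 : ℝ) < j := by linarith
  set S := IO N (K * N) with hS
  set δ : ℝ := y / x with hδ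
  set ε : ℝ := η * y / (K * N * L) with hε
  set κ : ℝ := η * y / (K * N) with hκ
  have hKN : 0 < (K : ℝ) * N := by positivity
  have hδ0 : 0 < δ := by positivity
  have hε0 : 0 < ε := by positivity
  have hκ0 : 0 ≤ κ := by positivity
  have hκε : κ = ε * L := by
    rw [hκ, hε]
    field_simp
  have hE : κ ^ 2 / (2 * ε ^ 2) = L ^ 2 / 2 := by
    rw [hκε]
    field_simp
  set E : ℝ := 2 * Real.exp (-(L ^ 2 / 2)) with hEdef
  have hE0 : 0 ≤ E := by positivity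
  -- bounds
  have hηy : 0 ≤ η * y := by positivity
  have hjκ : (j : ℝ) * κ ≤ η * y := by
    rw [hκ, ← mul_div_assoc, div_le_iff₀ hKN]
    have := mul_le_mul_of_nonneg_right hjN.le hηy
    linarith
  have hy0 : (0 : ℝ) < y := by linarith
  have hjδ1 : (y : ℝ) ≤ j * δ := by
    rw [hδ, ← mul_div_assoc, le_div_iff₀ hx0]
    have := mul_le_mul_of_nonneg_right hxj hy0.le
    linarith
  have hjδ2 : (j : ℝ) * δ ≤ y * (1 + η) := by
    rw [hδ, ← mul_div_assoc, div_le_iff₀ hx0]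
    have := mul_le_mul_of_nonneg_right hjx.le hy0.le
    linarith
  have hκ1 : κ ≤ y / N := by
    rw [hκ, div_le_div_iff₀ hKN hN0]
    have h1 : η * (y * N) ≤ 1 * (y * N) := mul_le_mul_of_nonneg_right (by linarith) (by positivity)
    have h2 : 1 * (y * N) ≤ K * (y * N) := mul_le_mul_of_nonneg_right hK1 (by positivity)
    linarith
  have hδ1 : δ ≤ 2 * (y / N) := by
    rw [hδ, div_le_iff₀ hx0]
    have h1 : 2 * ((y : ℝ) / N) * x = y * (2 * x / N) := by
      field_simp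
    have h2 : 1 ≤ 2 * x / N := by
      rw [le_div_iff₀ hN0]
      linarith
    rw [h1]
    exact le_mul_of_one_le_right hy0.le h2
  have hyyN : (y : ℝ) * (y / N) ≤ 1 / 12 := by
    rw [← mul_div_assoc, div_le_iff₀ hN0]
    rw [sq] at hyN
    linarith
  have hyN1 : (y : ℝ) / N ≤ 1 / 12 := by
    have h0 : 0 ≤ (y : ℝ) / N := by positivity
    exact le_trans (le_mul_of_one_le_left h0 hy1) hyyN
  have hyN0 : 0 ≤ (y : ℝ) / N := by positivity
  have hκ2 : κ ≤ 1 := by linarith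
  have hs1 : δ + κ ≤ 1 := by linarith
  have hs0 : 0 ≤ δ + κ := by linarith
  have hA : (j : ℝ) + y - η * y ≤ j * Real.exp (δ - κ) := by
    have h1 := Real.add_one_le_exp (δ - κ)
    have h2 := mul_le_mul_of_nonneg_left h1 hj0.le
    linarith
  have hB : ((j : ℝ) + 1) * Real.exp (δ + κ) ≤ j + y + 2 * (η * y) + 4 := by
    have h1 : Real.exp (δ + κ) ≤ 1 + (δ + κ) + (δ + κ) ^ 2 := by
      have h2 := (abs_le.1 (Real.abs_exp_sub_one_sub_id_le (x := δ + κ)
        (by rw [abs_of_nonneg hs0]; exact hs1))).2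
      linarith
    have h2 := mul_le_mul_of_nonneg_left h1 (show (0 : ℝ) ≤ (j : ℝ) + 1 by positivity)
    refine h2.trans ?_
    have h3 : (j : ℝ) * (δ + κ) ≤ y + 2 * (η * y) := by
      rw [mul_add]
      linarith
    have h4 : (y : ℝ) + 2 * (η * y) ≤ 2 * y := by
      have := mul_le_mul_of_nonneg_right hη1 hy0.le
      linarith
    have h5 : (δ + κ) * (j * (δ + κ)) ≤ 3 * (y / N) * (2 * y) := by
      apply mul_le_mul (by linarith) (by linarith) (by positivity) (by positivity)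
    have h6 : (δ + κ) ^ 2 ≤ 1 := pow_le_one₀ hs0 hs1
    have h8 : 3 * ((y : ℝ) / N) * (2 * y) = 6 * (y * (y / N)) := by ring
    rw [h8] at h5
    have h7 : ((j : ℝ) + 1) * (1 + (δ + κ) + (δ + κ) ^ 2)
        = j + 1 + j * (δ + κ) + (δ + κ) + (δ + κ) * (j * (δ + κ)) + (δ + κ) ^ 2 := by ring
    rw [h7]
    linarith
  have hC : ((j : ℝ) + 1) * Real.exp κ - j * Real.exp (-κ) ≤ 3 + 3 * (η * y) := by
    have h1 : Real.exp κ ≤ 1 + 2 * κ := by
      have h2 := (abs_le.1 (Real.abs_exp_sub_one_sub_id_le (x := κ)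
        (by rw [abs_of_nonneg hκ0]; exact hκ2))).2
      have h3 : κ ^ 2 ≤ κ := by
        rw [sq]
        exact mul_le_of_le_one_left hκ0 hκ2
      linarith
    have h2 : 1 - κ ≤ Real.exp (-κ) := by
      have := Real.add_one_le_exp (-κ)
      linarith
    have h3 := mul_le_mul_of_nonneg_left h1 (show (0 : ℝ) ≤ (j : ℝ) + 1 by positivity)
    have h4 := mul_le_mul_of_nonneg_left h2 hj0.le
    linarith
  set lo1 : ℝ := j * Real.exp (-κ) with hlo1
  set hi1 : ℝ := ((j : ℝ) + 1) * Real.exp κ with hhi1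
  set lo2 : ℝ := (j : ℝ) + y - η * y with hlo2
  set hi2 : ℝ := (j : ℝ) + y + 2 * (η * y) + 4 with hhi2
  have hlo1j : lo1 ≤ j := by
    have h1 : Real.exp (-κ) ≤ 1 := Real.exp_le_one_iff.2 (by linarith)
    exact mul_le_of_le_one_right hj0.le h1
  have hhi1j : (j : ℝ) + 1 ≤ hi1 := by
    have h1 : 1 ≤ Real.exp κ := Real.one_le_exp hκ0
    exact le_mul_of_one_le_right (by positivity) h1
  have hlo1pos : 0 < lo1 := by positivity
  have hηy1 : η * y ≤ y := mul_le_of_le_one_left hy0.le (by linarith)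
  have hlo2pos : 0 < lo2 := by
    rw [hlo2]
    linarith
  -- the pointwise comparison
  have hpt : ∀ n ∈ S, |(if j < n ∧ n ≤ j + y then (1 : ℝ) else 0) - Wd δ ε (Real.log n - v)|
      ≤ (if lo1 < (n : ℝ) ∧ (n : ℝ) < hi1 then (1 : ℝ) else 0)
        + (if lo2 < (n : ℝ) ∧ (n : ℝ) < hi2 then (1 : ℝ) else 0) + E := by
    intro n hn
    have hn1 : 0 < n := by
      rw [hS, IO, Finset.mem_Ioc] at hn
      omega
    have hn0 : (0 : ℝ) < n := by exact_mod_cast hn1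
    obtain ⟨w0, w1, w2, w3⟩ := hWNB δ ε κ (Real.log n - v) hδ0 hε0 hκ0
    rw [hE, ← hEdef] at w2 w3
    have hone : |(if j < n ∧ n ≤ j + y then (1 : ℝ) else 0) - Wd δ ε (Real.log n - v)| ≤ 1 := by
      rw [abs_le]
      split_ifs <;> constructor <;> linarith
    by_cases hb1 : lo1 < (n : ℝ) ∧ (n : ℝ) < hi1
    · rw [if_pos hb1]
      have : (0 : ℝ) ≤ if lo2 < (n : ℝ) ∧ (n : ℝ) < hi2 then (1 : ℝ) else 0 := by
        split_ifs <;> norm_num
      linarith
    by_cases hb2 : lo2 < (n : ℝ) ∧ (n : ℝ) < hi2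
    · rw [if_pos hb2, if_neg hb1]
      linarith
    rw [if_neg hb1, if_neg hb2, zero_add, zero_add]
    rw [not_and_or, not_lt, not_lt] at hb1 hb2
    rcases hb1 with h1 | h1
    · have h2 : ¬ (j < n ∧ n ≤ j + y) := by
        rintro ⟨h3, -⟩
        have : (j : ℝ) < n := by exact_mod_cast h3
        linarith
      rw [if_neg h2, zero_sub, abs_neg, abs_of_nonneg w0]
      apply w3
      left
      have h3 : Real.log n ≤ Real.log lo1 := Real.log_le_log hn0 h1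
      rw [hlo1, Real.log_mul hj0.ne' (Real.exp_pos _).ne', Real.log_exp] at h3
      linarith
    · rcases hb2 with h2 | h2
      · have h3 : j < n ∧ n ≤ j + y := by
          constructor
          · have : (j : ℝ) < n := by linarith
            exact_mod_cast this
          · have : (n : ℝ) ≤ (j + y : ℕ) := by
              push_cast
              linarith
            exact_mod_cast this
        rw [if_pos h3, abs_of_nonneg (by linarith)]
        have h4 : κ ≤ Real.log n - v := by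
          have h5 : Real.log hi1 ≤ Real.log n := Real.log_le_log (by positivity) h1
          rw [hhi1, Real.log_mul (by positivity) (Real.exp_pos _).ne', Real.log_exp] at h5
          linarith
        have h6 : Real.log n - v ≤ δ - κ := by
          have h7 : Real.log n ≤ Real.log (j * Real.exp (δ - κ)) :=
            Real.log_le_log hn0 (h2.trans hA)
          rw [Real.log_mul hj0.ne' (Real.exp_pos _).ne', Real.log_exp] at h7
          linarith
        have h8 := w2 h4 h6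
        linarith
      · have h3 : ¬ (j < n ∧ n ≤ j + y) := by
          rintro ⟨-, h4⟩
          have : (n : ℝ) ≤ (j + y : ℕ) := by exact_mod_cast h4
          push_cast at this
          linarith
        rw [if_neg h3, zero_sub, abs_neg, abs_of_nonneg w0]
        apply w3
        right
        have h5 : Real.log (((j : ℝ) + 1) * Real.exp (δ + κ)) ≤ Real.log n :=
          Real.log_le_log (by positivity) (hB.trans h2)
        rw [Real.log_mul (by positivity) (Real.exp_pos _).ne', Real.log_exp] at h5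
        linarith
  -- the sharp sum as a sum over `S`
  have e1 : ∑ n ∈ Ioc j (j + y), c n
      = ∑ n ∈ S, c n * ((if j < n ∧ n ≤ j + y then (1 : ℝ) else 0 : ℝ) : ℂ) := by
    have h1 : ∑ n ∈ S, c n * ((if j < n ∧ n ≤ j + y then (1 : ℝ) else 0 : ℝ) : ℂ)
        = ∑ n ∈ S.filter (fun n => j < n ∧ n ≤ j + y), c n := by
      rw [Finset.sum_filter]
      refine Finset.sum_congr rfl fun n _ => ?_
      split_ifs <;> simp
    rw [h1]
    symm
    refine Finset.sum_subset ?_ ?_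
    · intro n hn
      rw [Finset.mem_filter] at hn
      rw [Finset.mem_Ioc]
      exact hn.2
    · intro n hn hn2
      by_contra h
      obtain ⟨h3, h4⟩ := hc n h
      exact hn2 (Finset.mem_filter.2 ⟨mem_IO hN0.le h3 h4, Finset.mem_Ioc.1 hn⟩)
  rw [e1, ← Finset.sum_sub_distrib]
  refine (norm_sum_le _ _).trans ?_
  have e2 : ∀ n ∈ S, ‖c n * ((if j < n ∧ n ≤ j + y then (1 : ℝ) else 0 : ℝ) : ℂ)
      - c n * (Wd δ ε (Real.log n - v) : ℂ)‖
      ≤ (if lo1 < (n : ℝ) ∧ (n : ℝ) < hi1 then (1 : ℝ) else 0)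
        + (if lo2 < (n : ℝ) ∧ (n : ℝ) < hi2 then (1 : ℝ) else 0) + E := by
    intro n hn
    rw [← mul_sub, norm_mul, ← Complex.ofReal_sub, Complex.norm_real, Real.norm_eq_abs]
    refine le_trans ?_ (hpt n hn)
    have h1 := hc1 n
    have h2 := abs_nonneg ((if j < n ∧ n ≤ j + y then (1 : ℝ) else 0) - Wd δ ε (Real.log n - v))
    exact mul_le_of_le_one_left h2 h1
  refine (Finset.sum_le_sum e2).trans ?_
  rw [Finset.sum_add_distrib, Finset.sum_add_distrib, Finset.sum_const, nsmul_eq_mul]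
  have f1 := sum_boole_le S lo1 hi1 hlo1pos.le (by linarith)
  have f2 := sum_boole_le S lo2 hi2 hlo2pos.le (by rw [hlo2, hhi2]; linarith)
  have f3 : (S.card : ℝ) * E ≤ 1 := by
    have h1 : (S.card : ℝ) ≤ K * N := card_IO hN0.le
    have h2 : (S.card : ℝ) * E ≤ K * N * E := mul_le_mul_of_nonneg_right h1 hE0
    refine h2.trans ?_
    have h3 : N = Real.exp L := by rw [hLdef, Real.exp_log hN0]
    have h4 : 2 * (K : ℝ) ≤ Real.exp L := by
      have := Real.add_one_le_exp L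
      linarith
    have h5 : (K : ℝ) * N * E = (2 * K) * (Real.exp L * Real.exp (-(L ^ 2 / 2))) := by
      rw [hEdef, ← h3]
      ring
    rw [h5]
    calc (2 * (K : ℝ)) * (Real.exp L * Real.exp (-(L ^ 2 / 2)))
        ≤ Real.exp L * (Real.exp L * Real.exp (-(L ^ 2 / 2))) :=
          mul_le_mul_of_nonneg_right h4 (by positivity)
      _ = Real.exp (L + (L + -(L ^ 2 / 2))) := by rw [Real.exp_add, Real.exp_add]
      _ ≤ 1 := by
          rw [Real.exp_le_one_iff]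
          have := mul_nonneg hL0.le (show 0 ≤ L - 4 by linarith)
          linarith
  have f4 : hi2 - lo2 = 3 * (η * y) + 4 := by
    rw [hhi2, hlo2]
    ring
  linarith

/-- a single `j` -/
lemma one_j (hWNB : SpecWNB) {K : ℕ} (hK : 1 ≤ K) {N η : ℝ} {y : ℕ} {c : ℕ → ℂ}
    (hN : Real.exp (10 * K) ≤ N) (hy : 1 ≤ y) (hyN : (y : ℝ) ^ 2 ≤ N / 12) (hη : 0 < η)
    (hη1 : η ≤ 1 / 10) (hc : ∀ n, c n ≠ 0 → N < n ∧ (n : ℝ) ≤ K * N) (hc1 : ∀ n, ‖c n‖ ≤ 1)
    {x : ℝ} {j : ℕ} (hx : N / 2 ≤ x) (hxj : x ≤ j) (hjx : (j : ℝ) < x * (1 + η))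
    (hjN : (j : ℝ) < K * N)
    (hint : Integrable (fun v : ℝ => ‖∑ n ∈ IO N (K * N),
      c n * (Wd (y / x) (η * y / (K * N * Real.log N)) (Real.log n - v) : ℂ)‖ ^ 2)) :
    ‖∑ n ∈ Ioc j (j + y), c n‖ ^ 2 ≤ 8 * x * (∫ v in (Real.log j)..(Real.log (j + 1)),
      ‖∑ n ∈ IO N (K * N),
        c n * (Wd (y / x) (η * y / (K * N * Real.log N)) (Real.log n - v) : ℂ)‖ ^ 2)
      + 200 * (η * y + 1) ^ 2 := by
  set T : ℂ := ∑ n ∈ Ioc j (j + y), c n with hT
  set f : ℝ → ℝ := fun v => ‖∑ n ∈ IO N (K * N),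
      c n * (Wd (y / x) (η * y / (K * N * Real.log N)) (Real.log n - v) : ℂ)‖ ^ 2 with hf
  have hN0 : 0 < N := lt_of_lt_of_le (Real.exp_pos _) hN
  have hy1 : (1 : ℝ) ≤ y := by exact_mod_cast hy
  have hN12 : 12 ≤ N := by
    have := one_le_pow₀ hy1 (n := 2)
    linarith
  have hx0 : 0 < x := by linarith
  have hj0 : (0 : ℝ) < j := by linarith
  set Z : ℝ := (‖T‖ ^ 2 - 200 * (η * y + 1) ^ 2) / 2 with hZ
  have hab : Real.log (j : ℝ) ≤ Real.log ((j : ℝ) + 1) := Real.log_le_log hj0 (by linarith)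
  have h1 : ∀ v ∈ Set.Icc (Real.log (j : ℝ)) (Real.log ((j : ℝ) + 1)), Z ≤ f v := by
    intro v hv
    have h2 := close hWNB hK hN hy hyN hη hη1 hc hc1 hx hxj hjx hjN hv.1 hv.2
    set Sm : ℂ := ∑ n ∈ IO N (K * N),
      c n * (Wd (y / x) (η * y / (K * N * Real.log N)) (Real.log n - v) : ℂ) with hSm
    have h3 : ‖T‖ ≤ ‖Sm‖ + 10 * (η * y + 1) := by
      have h4 := norm_sub_norm_le T Sm
      linarith
    have h5 : (0 : ℝ) ≤ ‖T‖ := norm_nonneg _
    have h6 : (0 : ℝ) ≤ ‖Sm‖ := norm_nonneg _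
    have h7 : ‖T‖ ^ 2 ≤ (‖Sm‖ + 10 * (η * y + 1)) ^ 2 := pow_le_pow_left₀ h5 h3 2
    show Z ≤ ‖Sm‖ ^ 2
    rw [hZ]
    linarith [sq_nonneg (‖Sm‖ - 10 * (η * y + 1))]
  have h2 : (Real.log ((j : ℝ) + 1) - Real.log j) * Z
      ≤ ∫ v in (Real.log (j : ℝ))..(Real.log ((j : ℝ) + 1)), f v := by
    have h3 := intervalIntegral.integral_mono_on (μ := volume) (f := fun _ => Z) (g := f) hab
      intervalIntegrable_const hint.intervalIntegrable h1
    rwa [intervalIntegral.integral_const, smul_eq_mul] at h3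
  have hI0 : 0 ≤ ∫ v in (Real.log (j : ℝ))..(Real.log ((j : ℝ) + 1)), f v :=
    intervalIntegral.integral_nonneg hab fun v _ => by positivity
  have h4 : 1 / (4 * x) ≤ Real.log ((j : ℝ) + 1) - Real.log j := by
    have h5 := Real.one_sub_inv_le_log_of_pos (show (0 : ℝ) < ((j : ℝ) + 1) / j by positivity)
    rw [Real.log_div (by positivity) hj0.ne', inv_div] at h5
    refine le_trans ?_ h5
    have h6 : 1 - (j : ℝ) / (j + 1) = 1 / (j + 1) := by
      field_simp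
      ring
    rw [h6]
    apply one_div_le_one_div_of_le (by positivity)
    have := mul_le_mul_of_nonneg_left hη1 hx0.le
    linarith
  have h7 : Z ≤ 4 * x * ∫ v in (Real.log (j : ℝ))..(Real.log ((j : ℝ) + 1)), f v := by
    rcases le_total Z 0 with hZ0 | hZ0
    · exact hZ0.trans (by positivity)
    · have h8 : 1 / (4 * x) * Z ≤ ∫ v in (Real.log (j : ℝ))..(Real.log ((j : ℝ) + 1)), f v :=
        (mul_le_mul_of_nonneg_right h4 hZ0).trans h2
      calc Z = 4 * x * (1 / (4 * x) * Z) := by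
            field_simp
        _ ≤ _ := mul_le_mul_of_nonneg_left h8 (by positivity)
  have h9 : ‖T‖ ^ 2 = 2 * Z + 200 * (η * y + 1) ^ 2 := by
    rw [hZ]
    ring
  rw [h9]
  linarith

/-- one block -/
lemma block (hGPL : SpecGPL) (hWNB : SpecWNB) {K : ℕ} (hK : 1 ≤ K) {N η : ℝ} {y : ℕ} {c : ℕ → ℂ}
    (hN : Real.exp (10 * K) ≤ N) (hy : 1 ≤ y) (hyN : (y : ℝ) ^ 2 ≤ N / 12) (hη : 0 < η)
    (hη1 : η ≤ 1 / 10) (hc : ∀ n, c n ≠ 0 → N < n ∧ (n : ℝ) ≤ K * N) (hc1 : ∀ n, ‖c n‖ ≤ 1)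
    {x : ℝ} (hx : N / 2 ≤ x) {a b : ℕ} (hab : a ≤ b) (ha : ∀ j ∈ Ico a b, x ≤ (j : ℝ))
    (hb : ∀ j ∈ Ico a b, (j : ℝ) < x * (1 + η)) (ha0 : 1 ≤ a) :
    ∑ j ∈ Ico a b, ‖∑ n ∈ Ioc j (j + y), c n‖ ^ 2 ≤
      16 * ((y : ℝ) ^ 2 / N) * (∫ t : ℝ, ‖DP (IO N (K * N)) c t‖ ^ 2 *
        Real.exp (-((η * y / (K * N * Real.log N)) ^ 2 * t ^ 2)))
      + ∑ j ∈ Ico a b, (if (j : ℝ) < K * N then 200 * (η * y + 1) ^ 2 else 0) := by
  have hN0 : 0 < N := lt_of_lt_of_le (Real.exp_pos _) hN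
  have hy1 : (1 : ℝ) ≤ y := by exact_mod_cast hy
  have hN12 : 12 ≤ N := by
    have := one_le_pow₀ hy1 (n := 2)
    linarith
  have hx0 : 0 < x := by linarith
  have hK1 : (1 : ℝ) ≤ K := by exact_mod_cast hK
  have hL : 10 * (K : ℝ) ≤ Real.log N := (Real.le_log_iff_exp_le hN0).2 hN
  have hL0 : 0 < Real.log N := by linarith
  set ε : ℝ := η * y / (K * N * Real.log N) with hε
  have hε0 : 0 < ε := by positivity
  obtain ⟨hint, hint2, hP⟩ := hGPL (IO N (K * N)) c (y / x) ε (by positivity) hε0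
  set f : ℝ → ℝ := fun v => ‖∑ n ∈ IO N (K * N),
      c n * (Wd (y / x) ε (Real.log n - v) : ℂ)‖ ^ 2 with hf
  have hf0 : ∀ v, 0 ≤ f v := fun v => by positivity
  have h1 : ∀ j ∈ Ico a b, ‖∑ n ∈ Ioc j (j + y), c n‖ ^ 2
      ≤ 8 * x * (∫ v in (Real.log (j : ℕ))..(Real.log ((j + 1 : ℕ) : ℝ)), f v)
        + (if (j : ℝ) < K * N then 200 * (η * y + 1) ^ 2 else 0) := by
    intro j hj
    have hj1 : 1 ≤ j := ha0.trans (Finset.mem_Ico.1 hj).1
    have hj0 : (0 : ℝ) < j := by exact_mod_cast hj1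
    have hcast : ((j + 1 : ℕ) : ℝ) = (j : ℝ) + 1 := by push_cast; ring
    rw [hcast]
    by_cases hjN : (j : ℝ) < K * N
    · rw [if_pos hjN]
      exact one_j hWNB hK hN hy hyN hη hη1 hc hc1 hx (ha j hj) (hb j hj) hjN hint
    · rw [if_neg hjN]
      have h2 : ∑ n ∈ Ioc j (j + y), c n = 0 := by
        refine Finset.sum_eq_zero fun n hn => ?_
        by_contra h
        have h3 := (hc n h).2
        have h4 : (j : ℝ) < n := by exact_mod_cast (Finset.mem_Ioc.1 hn).1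
        linarith
      rw [h2, norm_zero, add_zero]
      have h5 : 0 ≤ ∫ v in (Real.log (j : ℝ))..(Real.log ((j : ℝ) + 1)), f v :=
        intervalIntegral.integral_nonneg (Real.log_le_log hj0 (by linarith)) fun v _ => hf0 v
      have h6 : 0 ≤ 8 * x * ∫ v in (Real.log (j : ℝ))..(Real.log ((j : ℝ) + 1)), f v := by
        positivity
      calc (0 : ℝ) ^ 2 = 0 := by norm_num
        _ ≤ _ := h6
  refine (Finset.sum_le_sum h1).trans ?_
  rw [Finset.sum_add_distrib, ← Finset.mul_sum]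
  have h2 := intervalIntegral.sum_integral_adjacent_intervals_Ico (f := f) (μ := volume)
    (a := fun k : ℕ => Real.log (k : ℝ)) hab (fun k _ => hint.intervalIntegrable)
  rw [h2]
  have h3 : ∫ v in (Real.log (a : ℝ))..(Real.log (b : ℝ)), f v ≤ ∫ v, f v := by
    rw [intervalIntegral.integral_of_le (Real.log_le_log (by exact_mod_cast ha0)
      (by exact_mod_cast hab))]
    exact setIntegral_le_integral hint (Filter.Eventually.of_forall hf0)
  have h4 : ∫ v, f v ≤ (y / x) ^ 2 * ∫ t : ℝ, ‖DP (IO N (K * N)) c t‖ ^ 2 *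
        Real.exp (-(ε ^ 2 * t ^ 2)) := hP
  have hG0 : 0 ≤ ∫ t : ℝ, ‖DP (IO N (K * N)) c t‖ ^ 2 * Real.exp (-(ε ^ 2 * t ^ 2)) :=
    integral_nonneg fun t => by positivity
  refine add_le_add ?_ le_rfl
  refine (mul_le_mul_of_nonneg_left (h3.trans h4) (by positivity)).trans ?_
  rw [← mul_assoc]
  refine mul_le_mul_of_nonneg_right ?_ hG0
  have h5 : 8 * x * ((y : ℝ) / x) ^ 2 = 8 * (y : ℝ) ^ 2 / x := by
    field_simp
  rw [h5, div_le_iff₀ hx0]
  have h6 : 16 * ((y : ℝ) ^ 2 / N) * x = 8 * (y : ℝ) ^ 2 * (2 * x / N) := by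
    field_simp
    ring
  have h7 : 1 ≤ 2 * x / N := by
    rw [le_div_iff₀ hN0]
    linarith
  rw [h6]
  exact le_mul_of_one_le_right (by positivity) h7

lemma sum_blocks (F : ℕ → ℝ) (a : ℕ → ℕ) (ha : Monotone a) (M : ℕ) :
    ∑ j ∈ Ico (a 0) (a M), F j = ∑ i ∈ range M, ∑ j ∈ Ico (a i) (a (i + 1)), F j := by
  induction M with
  | zero => simp
  | succ M ih =>
    rw [Finset.sum_range_succ, ← ih]
    exact (Finset.sum_Ico_consecutive F (ha (Nat.zero_le M)) (ha (Nat.le_succ M))).symm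

lemma norm_DP_le {N : ℝ} {K : ℕ} (hN : 0 ≤ N) {c : ℕ → ℂ} (hc1 : ∀ n, ‖c n‖ ≤ 1) (t : ℝ) :
    ‖DP (IO N (K * N)) c t‖ ≤ K * N := by
  refine (norm_sum_le _ _).trans (le_trans (Finset.sum_le_sum fun n _ => ?_) (?_ :
    ∑ n ∈ IO N (K * N), (1 : ℝ) ≤ K * N))
  · rw [norm_mul, nit, Complex.norm_exp_ofReal_mul_I, mul_one]
    exact hc1 n
  · rw [Finset.sum_const, nsmul_eq_mul, mul_one]
    exact card_IO hN

lemma continuous_DP (S : Finset ℕ) (c : ℕ → ℂ) : Continuous (DP S c) := by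
  unfold DP nit
  fun_prop

/-- the tail of the integral -/
lemma tail {K : ℕ} (hK : 1 ≤ K) {N η : ℝ} {y : ℕ} {c : ℕ → ℂ} (hN : Real.exp (10 * K) ≤ N)
    (hη0 : N ^ (-(1 : ℝ) / 10) ≤ η) (hy : 1 ≤ y) (hc1 : ∀ n, ‖c n‖ ≤ 1)
    (hint : Integrable (fun t : ℝ => ‖DP (IO N (K * N)) c t‖ ^ 2 *
      Real.exp (-((η * y / (K * N * Real.log N)) ^ 2 * t ^ 2)))) :
    ∫ t : ℝ, ‖DP (IO N (K * N)) c t‖ ^ 2 *
        Real.exp (-((η * y / (K * N * Real.log N)) ^ 2 * t ^ 2))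
      ≤ (∫ t in (-(N * Real.log N ^ 3 / (η * y)))..(N * Real.log N ^ 3 / (η * y)),
        ‖DP (IO N (K * N)) c t‖ ^ 2) + 1 := by
  have hK1 : (1 : ℝ) ≤ K := by exact_mod_cast hK
  have hN0 : 0 < N := lt_of_lt_of_le (Real.exp_pos _) hN
  have hL : 10 * (K : ℝ) ≤ Real.log N := (Real.le_log_iff_exp_le hN0).2 hN
  set L : ℝ := Real.log N with hLdef
  have hL0 : 0 < L := by linarith
  have hy1 : (1 : ℝ) ≤ y := by exact_mod_cast hy
  have hNL : N = Real.exp L := by rw [hLdef, Real.exp_log hN0]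
  have hη : 0 < η := lt_of_lt_of_le (Real.rpow_pos_of_pos hN0 _) hη0
  have hN1 : 1 ≤ N := by
    rw [hNL]
    exact Real.one_le_exp hL0.le
  set ε : ℝ := η * y / (K * N * L) with hε
  set T : ℝ := N * L ^ 3 / (η * y) with hT
  have hε0 : 0 < ε := by positivity
  have hT0 : 0 < T := by positivity
  have hεT : ε * T = L ^ 2 / K := by
    rw [hε, hT]
    field_simp
  set D : ℝ := (K * N) ^ 2 * Real.exp (-((ε * T) ^ 2 / 2)) with hD
  have hD0 : 0 ≤ D := by positivity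
  have hpt : ∀ t : ℝ, ‖DP (IO N (K * N)) c t‖ ^ 2 * Real.exp (-(ε ^ 2 * t ^ 2))
      ≤ (Set.Ioc (-T) T).indicator (fun t => ‖DP (IO N (K * N)) c t‖ ^ 2) t
        + D * Real.exp (-(ε ^ 2 / 2) * t ^ 2) := by
    intro t
    by_cases ht : t ∈ Set.Ioc (-T) T
    · rw [Set.indicator_of_mem ht]
      have h1 : Real.exp (-(ε ^ 2 * t ^ 2)) ≤ 1 := by
        rw [Real.exp_le_one_iff]
        have : 0 ≤ ε ^ 2 * t ^ 2 := by positivity
        linarith
      have h2 : 0 ≤ D * Real.exp (-(ε ^ 2 / 2) * t ^ 2) := by positivity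
      have h3 : 0 ≤ ‖DP (IO N (K * N)) c t‖ ^ 2 := by positivity
      nlinarith
    · rw [Set.indicator_of_notMem ht, zero_add]
      have h1 : T ^ 2 ≤ t ^ 2 := by
        rw [Set.mem_Ioc, not_and_or, not_lt, not_le] at ht
        rcases ht with h | h
        · nlinarith
        · nlinarith
      have h2 : ‖DP (IO N (K * N)) c t‖ ^ 2 ≤ (K * N) ^ 2 :=
        pow_le_pow_left₀ (norm_nonneg _) (norm_DP_le hN0.le hc1 t) 2
      have h3 : Real.exp (-(ε ^ 2 * t ^ 2))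
          ≤ Real.exp (-((ε * T) ^ 2 / 2)) * Real.exp (-(ε ^ 2 / 2) * t ^ 2) := by
        rw [← Real.exp_add]
        apply Real.exp_le_exp.2
        have h4 : ε ^ 2 * T ^ 2 ≤ ε ^ 2 * t ^ 2 := mul_le_mul_of_nonneg_left h1 (by positivity)
        rw [mul_pow]
        linarith
      calc ‖DP (IO N (K * N)) c t‖ ^ 2 * Real.exp (-(ε ^ 2 * t ^ 2))
          ≤ (K * N) ^ 2 * (Real.exp (-((ε * T) ^ 2 / 2)) * Real.exp (-(ε ^ 2 / 2) * t ^ 2)) :=
            mul_le_mul h2 h3 (Real.exp_pos _).le (by positivity)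
        _ = D * Real.exp (-(ε ^ 2 / 2) * t ^ 2) := by
            rw [hD]
            ring
  have hb : 0 < ε ^ 2 / 2 := by positivity
  have hcont : Continuous (fun t => ‖DP (IO N (K * N)) c t‖ ^ 2) :=
    ((continuous_DP _ _).norm).pow 2
  have hi1 : Integrable ((Set.Ioc (-T) T).indicator (fun t => ‖DP (IO N (K * N)) c t‖ ^ 2)) := by
    rw [integrable_indicator_iff measurableSet_Ioc]
    exact (hcont.integrableOn_Icc).mono_set Set.Ioc_subset_Icc_self
  have hi2 : Integrable (fun t : ℝ => D * Real.exp (-(ε ^ 2 / 2) * t ^ 2)) :=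
    (integrable_exp_neg_mul_sq hb).const_mul D
  have h1 := integral_mono hint (hi1.add hi2) hpt
  have h2 : ∫ t, (((Set.Ioc (-T) T).indicator (fun t => ‖DP (IO N (K * N)) c t‖ ^ 2))
      + (fun t : ℝ => D * Real.exp (-(ε ^ 2 / 2) * t ^ 2))) t
      = (∫ t in (-T)..T, ‖DP (IO N (K * N)) c t‖ ^ 2) + D * √(Real.pi / (ε ^ 2 / 2)) := by
    rw [integral_add' hi1 hi2, integral_indicator measurableSet_Ioc,
      intervalIntegral.integral_of_le (by linarith), integral_const_mul, integral_gaussian]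
  refine h1.trans (le_of_eq_of_le h2 (add_le_add le_rfl ?_))
  have h3 : √(Real.pi / (ε ^ 2 / 2)) ≤ 3 / ε := by
    rw [Real.sqrt_le_left (by positivity)]
    have h8 : (3 / ε) ^ 2 = 9 / ε ^ 2 := by
      rw [div_pow]
      norm_num
    rw [h8, div_le_div_iff₀ hb (by positivity)]
    have := Real.pi_lt_d2
    nlinarith [sq_nonneg ε]
  have h4 : 1 / ε ≤ K * N ^ 3 := by
    rw [hε, one_div_div, div_le_iff₀ (by positivity)]
    have h5 : N ^ (-(1 : ℝ)) ≤ η := by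
      refine le_trans ?_ hη0
      exact Real.rpow_le_rpow_of_exponent_le hN1 (by norm_num)
    rw [Real.rpow_neg_one] at h5
    have h6 : 1 ≤ N * η := by
      have := mul_le_mul_of_nonneg_left h5 hN0.le
      rwa [mul_inv_cancel₀ hN0.ne'] at this
    have h7 : L ≤ N := by
      have := Real.add_one_le_exp L
      rw [← hNL] at this
      linarith
    have h8 : 1 ≤ N * η * y := one_le_mul_of_one_le_of_one_le h6 hy1
    calc (K : ℝ) * N * L ≤ K * N * N := mul_le_mul_of_nonneg_left h7 (by positivity)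
      _ = K * N * N * 1 := (mul_one _).symm
      _ ≤ K * N * N * (N * η * y) := mul_le_mul_of_nonneg_left h8 (by positivity)
      _ = K * N ^ 3 * (η * y) := by ring
  have h5 : Real.exp (-((ε * T) ^ 2 / 2)) ≤ Real.exp (-(8 * L)) := by
    apply Real.exp_le_exp.2
    rw [hεT]
    have h6 : 10 * L ≤ L ^ 2 / K := by
      rw [le_div_iff₀ (by linarith)]
      have := mul_le_mul_of_nonneg_left hL hL0.le
      rw [sq]
      linarith
    have h7 : (10 * L) ^ 2 ≤ (L ^ 2 / K) ^ 2 := pow_le_pow_left₀ (by positivity) h6 2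
    have h8 := mul_le_mul_of_nonneg_left (show 1 ≤ L by linarith) hL0.le
    have h9 : (10 * L) ^ 2 = 100 * (L * L) := by ring
    rw [h9] at h7
    linarith
  have h6 : 3 * (K : ℝ) ^ 3 ≤ Real.exp (3 * L) := by
    have h7 : L ≤ Real.exp L := by
      have := Real.add_one_le_exp L
      linarith
    have h8 : L ^ 3 ≤ (Real.exp L) ^ 3 := pow_le_pow_left₀ hL0.le h7 3
    have h9 : (10 * (K : ℝ)) ^ 3 ≤ L ^ 3 := pow_le_pow_left₀ (by positivity) hL 3
    have h10 : (Real.exp L) ^ 3 = Real.exp (3 * L) := by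
      rw [← Real.exp_nat_mul]
      norm_num
    have h11 : 0 ≤ (K : ℝ) ^ 3 := by positivity
    have h12 : (10 * (K : ℝ)) ^ 3 = 1000 * (K : ℝ) ^ 3 := by ring
    rw [h12] at h9
    rw [← h10]
    linarith
  calc D * √(Real.pi / (ε ^ 2 / 2)) ≤ D * (3 / ε) := mul_le_mul_of_nonneg_left h3 hD0
    _ = 3 * D * (1 / ε) := by ring
    _ ≤ 3 * D * (K * N ^ 3) := mul_le_mul_of_nonneg_left h4 (by positivity)
    _ = (3 * (K : ℝ) ^ 3) * (N ^ 5 * Real.exp (-((ε * T) ^ 2 / 2))) := by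
        rw [hD]
        ring
    _ ≤ Real.exp (3 * L) * (N ^ 5 * Real.exp (-(8 * L))) :=
        mul_le_mul h6 (mul_le_mul_of_nonneg_left h5 (by positivity)) (by positivity)
          (by positivity)
    _ = 1 := by
        have h7 : N ^ 5 = Real.exp (5 * L) := by
          rw [hNL, ← Real.exp_nat_mul]
          norm_num
        rw [h7, ← Real.exp_add, ← Real.exp_add]
        rw [show 3 * L + (5 * L + -(8 * L)) = 0 by ring, Real.exp_zero]

lemma fin_ineq {K N B Q I A1 A2 : ℝ} (hK : 1 ≤ K) (hN : 1 ≤ N) (hB : 1 ≤ B) (hQ : 0 ≤ Q)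
    (hQN : Q ≤ N) (hI : 0 ≤ I) (h1 : A1 ≤ 48 * K * Q * (I + 1))
    (h2 : A2 ≤ (K * N + 1) * (200 * B)) : A1 + A2 ≤ 500 * K * (Q * I + N * B) := by
  have e1 : K * Q ≤ K * N * B := by
    have h3 : K * Q ≤ K * N := mul_le_mul_of_nonneg_left hQN (by linarith)
    have h4 : K * N * 1 ≤ K * N * B := mul_le_mul_of_nonneg_left hB (by positivity)
    linarith
  have e2 : (K * N + 1) * (200 * B) ≤ 400 * (K * N * B) := by
    have h3 : 1 ≤ K * N := one_le_mul_of_one_le_of_one_le hK hN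
    have h4 : (K * N + 1) * (200 * B) ≤ (2 * (K * N)) * (200 * B) :=
      mul_le_mul_of_nonneg_right (by linarith) (by linarith)
    linarith
  have e3 : 0 ≤ K * (Q * I) := by positivity
  have e4 : 0 ≤ K * N * B := by positivity
  linarith

end WINM

open WINM

/-- the bound, with the parentheses around the integral -/
theorem WINM.main (hGPL : SpecGPL) (hWNB : SpecWNB) : ∀ K : ℕ, 1 ≤ K → ∃ C N₀ : ℝ, 0 < C ∧
  ∀ (N η : ℝ) (y : ℕ) (c : ℕ → ℂ) (J : ℕ),
  N₀ ≤ N → 1 ≤ y → (y : ℝ) ≤ N ^ ((1 : ℝ) / 10) → N ^ (-(1 : ℝ) / 10) ≤ η → η ≤ 1 / 10 →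
  (∀ n, c n ≠ 0 → N < n ∧ (n : ℝ) ≤ K * N) → (∀ n, ‖c n‖ ≤ 1) →
  ∑ j ∈ range J, ‖∑ n ∈ Ioc j (j + y), c n‖ ^ 2 ≤
    C * ((y : ℝ) ^ 2 / (η * N) * (∫ t in (-(N * Real.log N ^ 3 / (η * y)))..(N * Real.log N ^ 3 / (η * y)),
      ‖DP (IO N (K * N)) c t‖ ^ 2) + N * (η * y + 1) ^ 2) := by
  intro K hK
  refine ⟨500 * K, Real.exp (10 * K), by positivity, ?_⟩
  intro N η y c J hN hy hyN hη0 hη1 hc hc1
  have hK1 : (1 : ℝ) ≤ K := by exact_mod_cast hK
  have hN0 : 0 < N := lt_of_lt_of_le (Real.exp_pos _) hN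
  have hL : 10 * (K : ℝ) ≤ Real.log N := (Real.le_log_iff_exp_le hN0).2 hN
  have hL0 : 0 < Real.log N := by linarith
  have hNL : N = Real.exp (Real.log N) := by rw [Real.exp_log hN0]
  have hN1 : 1 ≤ N := by
    rw [hNL]
    exact Real.one_le_exp hL0.le
  have hη : 0 < η := lt_of_lt_of_le (Real.rpow_pos_of_pos hN0 _) hη0
  have hy1 : (1 : ℝ) ≤ y := by exact_mod_cast hy
  have hyN2 : (y : ℝ) ^ 2 ≤ N / 12 := by
    have h1 : (y : ℝ) ^ 2 ≤ (N ^ ((1 : ℝ) / 10)) ^ 2 := pow_le_pow_left₀ (by positivity) hyN 2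
    have h2 : (N ^ ((1 : ℝ) / 10)) ^ 2 = N ^ ((1 : ℝ) / 5) := by
      rw [← Real.rpow_natCast, ← Real.rpow_mul hN0.le]
      norm_num
    have h3 : N ^ ((1 : ℝ) / 5) * N ^ ((4 : ℝ) / 5) = N := by
      rw [← Real.rpow_add hN0]
      norm_num
    have h4 : (12 : ℝ) ≤ N ^ ((4 : ℝ) / 5) := by
      have h5 : N ^ ((4 : ℝ) / 5) = Real.exp (4 / 5 * Real.log N) := by
        rw [Real.rpow_def_of_pos hN0, mul_comm]
      rw [h5]
      have h6 : Real.exp 8 ≤ Real.exp (4 / 5 * Real.log N) := Real.exp_le_exp.2 (by linarith)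
      have h7 : Real.exp 8 = (Real.exp 1) ^ 8 := by
        rw [← Real.exp_nat_mul]
        norm_num
      have h8 : (2 : ℝ) ≤ Real.exp 1 := by linarith [Real.exp_one_gt_d9]
      have h9 : (2 : ℝ) ^ 8 ≤ (Real.exp 1) ^ 8 := pow_le_pow_left₀ (by norm_num) h8 8
      norm_num at h9
      linarith
    have h5 : 0 < N ^ ((1 : ℝ) / 5) := Real.rpow_pos_of_pos hN0 _
    rw [h2] at h1
    have h6 := mul_le_mul_of_nonneg_left h4 h5.le
    linarith
  have hN12 : 12 ≤ N := by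
    have := one_le_pow₀ hy1 (n := 2)
    linarith
  have hyN3 : (y : ℝ) ≤ N / 2 := by
    have h1 : (y : ℝ) ≤ (y : ℝ) ^ 2 := by
      rw [sq]
      exact le_mul_of_one_le_left (by positivity) hy1
    linarith
  set G : ℝ := ∫ t : ℝ, ‖DP (IO N (K * N)) c t‖ ^ 2 *
        Real.exp (-((η * y / (K * N * Real.log N)) ^ 2 * t ^ 2)) with hG
  have hG0 : 0 ≤ G := integral_nonneg fun t => by positivity
  set x : ℕ → ℝ := fun i => N / 2 * (1 + η) ^ i with hxdef
  have hx : ∀ i, N / 2 ≤ x i := by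
    intro i
    have h1 : 1 ≤ (1 + η) ^ i := one_le_pow₀ (by linarith)
    exact le_mul_of_one_le_right (by linarith) h1
  have hxs : ∀ i, x (i + 1) = x i * (1 + η) := by
    intro i
    show N / 2 * (1 + η) ^ (i + 1) = N / 2 * (1 + η) ^ i * (1 + η)
    ring
  set a : ℕ → ℕ := fun i => ⌈x i⌉₊ with hadef
  have hmono : Monotone a := by
    refine monotone_nat_of_le_succ fun i => ?_
    apply Nat.ceil_le_ceil
    rw [hxs]
    have := hx i
    exact le_mul_of_one_le_right (by linarith) (by linarith)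
  have ha1 : ∀ i, 1 ≤ a i := by
    intro i
    have h1 := hx i
    have : 0 < ⌈x i⌉₊ := Nat.ceil_pos.2 (by linarith)
    exact this
  set M : ℕ := ⌈2 * K / η⌉₊ with hM
  have hM1 : (M : ℝ) ≤ 3 * K / η := by
    have h1 : (M : ℝ) < 2 * K / η + 1 := Nat.ceil_lt_add_one (by positivity)
    have h2 : 1 ≤ K / η := by
      rw [le_div_iff₀ hη]
      linarith
    have h3 : 3 * K / η = 2 * K / η + K / η := by ring
    linarith
  have hxM : K * N ≤ x M := by
    have h1 : 1 + (M : ℝ) * η ≤ (1 + η) ^ M := one_add_mul_le_pow (by linarith) M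
    have h2 : 2 * K / η ≤ M := Nat.le_ceil _
    have h3 : 2 * K ≤ M * η := by rwa [div_le_iff₀ hη] at h2
    have h4 : 2 * (K : ℝ) ≤ (1 + η) ^ M := by linarith
    show K * N ≤ N / 2 * (1 + η) ^ M
    have h5 := mul_le_mul_of_nonneg_left h4 (show 0 ≤ N / 2 by linarith)
    linarith
  have s1 : ∑ j ∈ range J, ‖∑ n ∈ Ioc j (j + y), c n‖ ^ 2
      ≤ ∑ j ∈ Ico (a 0) (a M), ‖∑ n ∈ Ioc j (j + y), c n‖ ^ 2 := by
    have h1 : ∑ j ∈ range J, ‖∑ n ∈ Ioc j (j + y), c n‖ ^ 2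
        = ∑ j ∈ (range J).filter (fun j => j ∈ Ico (a 0) (a M)),
          ‖∑ n ∈ Ioc j (j + y), c n‖ ^ 2 := by
      symm
      refine Finset.sum_subset (Finset.filter_subset _ _) fun j hj hj2 => ?_
      have h2 : ∑ n ∈ Ioc j (j + y), c n = 0 := by
        refine Finset.sum_eq_zero fun n hn => ?_
        by_contra h
        obtain ⟨h3, h4⟩ := hc n h
        obtain ⟨h5, h6⟩ := Finset.mem_Ioc.1 hn
        have h7 : (j : ℝ) < n := by exact_mod_cast h5
        have h8 : (n : ℝ) ≤ j + y := by exact_mod_cast h6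
        apply hj2
        rw [Finset.mem_filter, Finset.mem_Ico]
        refine ⟨hj, ?_, ?_⟩
        · apply Nat.ceil_le.2
          show N / 2 * (1 + η) ^ 0 ≤ j
          rw [pow_zero, mul_one]
          linarith
        · exact Nat.lt_ceil.2 (by linarith)
      rw [h2]
      simp
    rw [h1]
    refine Finset.sum_le_sum_of_subset_of_nonneg ?_ fun _ _ _ => by positivity
    intro j hj
    exact (Finset.mem_filter.1 hj).2
  refine s1.trans ?_
  rw [sum_blocks _ a hmono M]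
  have s2 : ∀ i ∈ range M, ∑ j ∈ Ico (a i) (a (i + 1)), ‖∑ n ∈ Ioc j (j + y), c n‖ ^ 2
      ≤ 16 * ((y : ℝ) ^ 2 / N) * G
        + ∑ j ∈ Ico (a i) (a (i + 1)), (if (j : ℝ) < K * N then 200 * (η * y + 1) ^ 2 else 0) := by
    intro i _
    refine block hGPL hWNB hK hN hy hyN2 hη hη1 hc hc1 (hx i) (hmono (Nat.le_succ i)) ?_ ?_ (ha1 i)
    · intro j hj
      exact Nat.ceil_le.1 (Finset.mem_Ico.1 hj).1
    · intro j hj
      rw [← hxs]
      exact Nat.lt_ceil.1 (Finset.mem_Ico.1 hj).2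
  refine (Finset.sum_le_sum s2).trans ?_
  rw [Finset.sum_add_distrib, ← sum_blocks _ a hmono M, Finset.sum_const, Finset.card_range,
    nsmul_eq_mul]
  have s3 : ∑ j ∈ Ico (a 0) (a M), (if (j : ℝ) < K * N then 200 * (η * y + 1) ^ 2 else 0)
      ≤ (K * N + 1) * (200 * (η * y + 1) ^ 2) := by
    rw [← Finset.sum_filter, Finset.sum_const, nsmul_eq_mul]
    refine mul_le_mul_of_nonneg_right ?_ (by positivity)
    have h1 : (Ico (a 0) (a M)).filter (fun j : ℕ => (j : ℝ) < K * N) ⊆ range ⌈(K : ℝ) * N⌉₊ := by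
      intro j hj
      rw [Finset.mem_range]
      exact Nat.lt_ceil.2 (Finset.mem_filter.1 hj).2
    have h2 := Finset.card_le_card h1
    rw [Finset.card_range] at h2
    have h3 : (⌈(K : ℝ) * N⌉₊ : ℝ) < K * N + 1 := Nat.ceil_lt_add_one (by positivity)
    have h4 : ((((Ico (a 0) (a M)).filter (fun j : ℕ => (j : ℝ) < K * N)).card : ℕ) : ℝ)
        ≤ (⌈(K : ℝ) * N⌉₊ : ℝ) := by exact_mod_cast h2
    linarith
  have hε0 : 0 < η * y / (K * N * Real.log N) := by positivity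
  obtain ⟨-, hint2, -⟩ := hGPL (IO N (K * N)) c 1 _ one_pos hε0
  have s4 := tail hK hN hη0 hy hc1 hint2
  rw [← hG] at s4
  set I : ℝ := ∫ t in (-(N * Real.log N ^ 3 / (η * y)))..(N * Real.log N ^ 3 / (η * y)),
        ‖DP (IO N (K * N)) c t‖ ^ 2 with hI
  have hT0 : 0 ≤ N * Real.log N ^ 3 / (η * y) := by positivity
  have hI0 : 0 ≤ I := intervalIntegral.integral_nonneg (by linarith) fun t _ => by positivity
  have s5 : (M : ℝ) * (16 * ((y : ℝ) ^ 2 / N) * G)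
      ≤ 48 * K * ((y : ℝ) ^ 2 / (η * N)) * (I + 1) := by
    calc (M : ℝ) * (16 * ((y : ℝ) ^ 2 / N) * G)
        ≤ 3 * K / η * (16 * ((y : ℝ) ^ 2 / N) * G) :=
          mul_le_mul_of_nonneg_right hM1 (by positivity)
      _ = 48 * K * ((y : ℝ) ^ 2 / (η * N)) * G := by
          field_simp
          ring
      _ ≤ _ := mul_le_mul_of_nonneg_left s4 (by positivity)
  have s6 : (y : ℝ) ^ 2 / (η * N) ≤ N := by
    rw [div_le_iff₀ (by positivity)]
    have h5 : N ^ (-(1 : ℝ)) ≤ η := by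
      refine le_trans ?_ hη0
      exact Real.rpow_le_rpow_of_exponent_le hN1 (by norm_num)
    rw [Real.rpow_neg_one] at h5
    have h6 : 1 ≤ N * η := by
      have := mul_le_mul_of_nonneg_left h5 hN0.le
      rwa [mul_inv_cancel₀ hN0.ne'] at this
    calc (y : ℝ) ^ 2 ≤ N * 1 := by linarith
      _ ≤ N * (N * η) := mul_le_mul_of_nonneg_left h6 hN0.le
      _ = N * (η * N) := by ring
  have hB1 : 1 ≤ (η * y + 1) ^ 2 := by
    have : 0 ≤ η * y := by positivity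
    exact one_le_pow₀ (by linarith)
  have hQ0 : 0 ≤ (y : ℝ) ^ 2 / (η * N) := by positivity
  exact fin_ineq hK1 hN1 hB1 hQ0 s6 hI0 s5 s3

theorem specWIN (hGPL : SpecGPL) (hWNB : SpecWNB) : SpecWIN := WINM.main hGPL hWNB

end

end Pool.Agent.Lib.MP3efbeb.LG
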