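import Pool.Agent.Lib.MP_3efbeb_nt.LG.SpecA

/-!
# WNB: the smoothed window is close to the sharp one (MP_3efbeb_nt)
-/

set_option autoImplicit false

namespace Pool.Agent.Lib.MP3efbeb.LG

open MeasureTheory

namespace WNBM

lemma gau_nonneg (ε x : ℝ) (hε : 0 < ε) : 0 ≤ gau ε x := by
  unfold gau
  positivity

lemma gau_neg (ε x : ℝ) : gau ε (-x) = gau ε x := by
  unfold gau
  rw [neg_sq]

lemma gau_eq (ε x : ℝ) :
    gau ε x = Real.exp (-(1 / (2 * ε ^ 2)) * x ^ 2) * (ε * √(2 * Real.pi))⁻¹ := by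
  unfold gau
  rw [div_eq_mul_inv]
  congr 2
  ring

lemma integrable_gau (ε : ℝ) (hε : 0 < ε) : Integrable (gau ε) := by
  have h : gau ε = fun x => Real.exp (-(1 / (2 * ε ^ 2)) * x ^ 2) * (ε * √(2 * Real.pi))⁻¹ :=
    funext (gau_eq ε)
  rw [h]
  exact (integrable_exp_neg_mul_sq (by positivity)).mul_const _

lemma integral_gau (ε : ℝ) (hε : 0 < ε) : ∫ x, gau ε x = 1 := by
  have h : gau ε = fun x => Real.exp (-(1 / (2 * ε ^ 2)) * x ^ 2) * (ε * √(2 * Real.pi))⁻¹ :=
    funext (gau_eq ε)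
  rw [h, integral_mul_const, integral_gaussian]
  have h1 : Real.pi / (1 / (2 * ε ^ 2)) = ε ^ 2 * (2 * Real.pi) := by
    field_simp
  rw [h1, Real.sqrt_mul (by positivity), Real.sqrt_sq hε.le]
  have h2 : 0 < √(2 * Real.pi) := Real.sqrt_pos.mpr (by positivity)
  exact mul_inv_cancel₀ (by positivity)

lemma tailR (ε κ : ℝ) (hε : 0 < ε) (hκ : 0 ≤ κ) :
    ∫ x in Set.Ioi κ, gau ε x ≤ Real.exp (-(κ ^ 2 / (2 * ε ^ 2))) := by
  have hint := integrable_gau ε hε
  have hsh : Integrable (fun x => gau ε (x - κ)) := hint.comp_sub_right κ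
  have hsh2 : Integrable (fun x => Real.exp (-(κ ^ 2 / (2 * ε ^ 2))) * gau ε (x - κ)) :=
    hsh.const_mul _
  have h1 : ∫ x in Set.Ioi κ, gau ε x ≤
      ∫ x in Set.Ioi κ, Real.exp (-(κ ^ 2 / (2 * ε ^ 2))) * gau ε (x - κ) := by
    refine setIntegral_mono_on hint.integrableOn hsh2.integrableOn measurableSet_Ioi ?_
    intro x hx
    have hx' : κ < x := hx
    unfold gau
    rw [← mul_div_assoc, ← Real.exp_add]
    apply div_le_div_of_nonneg_right _ (by positivity)
    apply Real.exp_le_exp.mpr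
    have h2 : κ ^ 2 / (2 * ε ^ 2) + (x - κ) ^ 2 / (2 * ε ^ 2) ≤ x ^ 2 / (2 * ε ^ 2) := by
      rw [← add_div]
      apply div_le_div_of_nonneg_right _ (by positivity)
      nlinarith [mul_nonneg hκ (by linarith : 0 ≤ x - κ)]
    linarith
  have h3 : ∫ x in Set.Ioi κ, Real.exp (-(κ ^ 2 / (2 * ε ^ 2))) * gau ε (x - κ) ≤
      ∫ x, Real.exp (-(κ ^ 2 / (2 * ε ^ 2))) * gau ε (x - κ) := by
    refine setIntegral_le_integral hsh2 (Filter.Eventually.of_forall fun x => ?_)
    exact mul_nonneg (Real.exp_pos _).le (gau_nonneg ε _ hε)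
  have h4 : ∫ x, Real.exp (-(κ ^ 2 / (2 * ε ^ 2))) * gau ε (x - κ) =
      Real.exp (-(κ ^ 2 / (2 * ε ^ 2))) := by
    rw [integral_const_mul, integral_sub_right_eq_self (fun x => gau ε x) κ, integral_gau ε hε,
      mul_one]
  linarith

lemma tailL (ε κ : ℝ) (hε : 0 < ε) (hκ : 0 ≤ κ) :
    ∫ x in Set.Iic (-κ), gau ε x ≤ Real.exp (-(κ ^ 2 / (2 * ε ^ 2))) := by
  have h := integral_comp_neg_Iic (-κ) (gau ε)
  rw [neg_neg] at h
  have h2 : ∫ x in Set.Iic (-κ), gau ε (-x) = ∫ x in Set.Iic (-κ), gau ε x := by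
    refine integral_congr_ae (Filter.Eventually.of_forall fun x => ?_)
    exact gau_neg ε x
  rw [← h2, h]
  exact tailR ε κ hε hκ

lemma Wd_eq (δ ε u : ℝ) (hδ : 0 < δ) : Wd δ ε u = ∫ x in Set.Ioc (u - δ) u, gau ε x := by
  unfold Wd
  rw [intervalIntegral.integral_comp_sub_left (fun x => gau ε x) u, sub_zero,
    intervalIntegral.integral_of_le (by linarith)]

lemma mono_set {ε : ℝ} (hε : 0 < ε) {s t : Set ℝ} (hst : s ⊆ t) :
    ∫ x in s, gau ε x ≤ ∫ x in t, gau ε x :=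
  setIntegral_mono_set (integrable_gau ε hε).integrableOn
    (Filter.Eventually.of_forall fun x => gau_nonneg ε x hε) hst.eventuallyLE

end WNBM

open WNBM

theorem specWNB : SpecWNB := by
  intro δ ε κ u hδ hε hκ
  have hint := integrable_gau ε hε
  have hsplit : (∫ x in Set.Iic (u - δ), gau ε x) + Wd δ ε u +
      (∫ x in Set.Ioi u, gau ε x) = 1 := by
    have h1 : (∫ x in Set.Iic (u - δ), gau ε x) + (∫ x in Set.Ioc (u - δ) u, gau ε x) =
        ∫ x in Set.Iic u, gau ε x := by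
      rw [← setIntegral_union _ measurableSet_Ioc hint.integrableOn hint.integrableOn,
        Set.Iic_union_Ioc_eq_Iic (by linarith)]
      exact Set.Iic_disjoint_Ioc (le_refl _)
    rw [Wd_eq δ ε u hδ, h1, ← integral_gau ε hε,
      ← intervalIntegral.integral_Iic_add_Ioi hint.integrableOn hint.integrableOn]
  refine ⟨?_, ?_, ?_, ?_⟩
  · rw [Wd_eq δ ε u hδ]
    exact setIntegral_nonneg measurableSet_Ioc fun x _ => gau_nonneg ε x hε
  · rw [Wd_eq δ ε u hδ, ← integral_gau ε hε]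
    exact setIntegral_le_integral hint
      (Filter.Eventually.of_forall fun x => gau_nonneg ε x hε)
  · intro h1 h2
    have h3 : ∫ x in Set.Iic (u - δ), gau ε x ≤ Real.exp (-(κ ^ 2 / (2 * ε ^ 2))) :=
      (mono_set hε (Set.Iic_subset_Iic.mpr (by linarith))).trans (tailL ε κ hε hκ)
    have h4 : ∫ x in Set.Ioi u, gau ε x ≤ Real.exp (-(κ ^ 2 / (2 * ε ^ 2))) :=
      (mono_set hε (Set.Ioi_subset_Ioi h1)).trans (tailR ε κ hε hκ)
    linarith
  · intro h
    have hpos := Real.exp_pos (-(κ ^ 2 / (2 * ε ^ 2)))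
    rw [Wd_eq δ ε u hδ]
    rcases h with h | h
    · have h3 : ∫ x in Set.Ioc (u - δ) u, gau ε x ≤ ∫ x in Set.Iic (-κ), gau ε x := by
        apply mono_set hε
        intro x hx
        exact hx.2.trans h
      have h4 := tailL ε κ hε hκ
      linarith
    · have h3 : ∫ x in Set.Ioc (u - δ) u, gau ε x ≤ ∫ x in Set.Ioi κ, gau ε x := by
        apply mono_set hε
        intro x hx
        have h5 := hx.1
        show κ < x
        linarith
      have h4 := tailR ε κ hε hκ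
      linarith

end Pool.Agent.Lib.MP3efbeb.LG
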