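import Pool.Agent.Lib.MP_3efbeb_nt.LG.SpecC
import Pool.Agent.Lib.MP_3efbeb_nt.LG.FRB
import Pool.Agent.Lib.MP_3efbeb_nt.LG.DIV
import Pool.Agent.Lib.MP_391708_nt.QPA.FLP

/-!
# LongPatterns, module WPO: the model of the primes on a small set of frequencies
-/

set_option autoImplicit false

namespace Pool.Agent.Lib.MP3efbeb.LG

open Finset MeasureTheory Filter Topology
open Pool.Agent.Lib.MP391708.QPA (PB rInd Wp Rough)

noncomputable section

namespace WPOM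

open Pool.Agent.Lib.MP391708.QPA (SpecFLP specFLP)
open Pool.Agent.Lib.MP391708.QPA.FL (rInd_eq)
open Pool.Agent.Lib.MP391708.QPA.FLW (Dset)

/-! ### Sieve weights -/

open scoped Classical in
lemma mem_Dset {z : ℝ} {b δ : ℕ} (h : δ ∈ Dset z b) :
    1 ≤ δ ∧ δ ≤ ⌊z ^ (8 * b + 16)⌋₊ ∧ Squarefree δ := by
  unfold Dset at h
  rw [Finset.mem_filter, Finset.mem_Icc] at h
  exact ⟨h.1.1, h.1.2, h.2.1⟩

lemma ind_prod {δ : ℕ} (hδ : Squarefree δ) (k : ℕ) :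
    ∏ p ∈ δ.primeFactors, (if p ∣ k then (1 : ℝ) else 0) = if δ ∣ k then 1 else 0 := by
  by_cases h : δ ∣ k
  · rw [if_pos h]
    refine Finset.prod_eq_one fun p hp => ?_
    rw [if_pos ((Nat.dvd_of_mem_primeFactors hp).trans h)]
  · rw [if_neg h]
    have : ∃ p ∈ δ.primeFactors, ¬ p ∣ k := by
      by_contra hcon
      push Not at hcon
      apply h
      rw [← Nat.prod_primeFactors_of_squarefree hδ]
      exact Finset.prod_primes_dvd k (fun p hp => (Nat.prime_of_mem_primeFactors hp).prime) hcon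
    obtain ⟨p, hp, hpk⟩ := this
    exact Finset.prod_eq_zero hp (by rw [if_neg hpk])

lemma inv_prod {δ : ℕ} (hδ : Squarefree δ) :
    ∏ p ∈ δ.primeFactors, (1 / (p : ℝ)) = 1 / δ := by
  rw [Finset.prod_div_distrib, Finset.prod_const_one]
  congr 1
  rw [← Nat.cast_prod, Nat.prod_primeFactors_of_squarefree hδ]

/-- the sum of the weights over the divisors -/
def up (D : Finset ℕ) (w : ℕ → ℝ) (k : ℕ) : ℝ := ∑ δ ∈ D, if δ ∣ k then w δ else 0

lemma up_le_card {D : Finset ℕ} {w : ℕ → ℝ} (hw : ∀ δ, |w δ| ≤ 1) {k : ℕ}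
    (hk : 1 ≤ k) : up D w k ≤ k.divisors.card := by
  unfold up
  rw [← Finset.sum_filter]
  calc ∑ δ ∈ D.filter (fun δ => δ ∣ k), w δ ≤ ∑ δ ∈ D.filter (fun δ => δ ∣ k), (1 : ℝ) :=
        Finset.sum_le_sum fun δ _ => (abs_le.1 (hw δ)).2
    _ = ((D.filter (fun δ => δ ∣ k)).card : ℝ) := by simp
    _ ≤ _ := by
        have : D.filter (fun δ => δ ∣ k) ⊆ k.divisors := by
          intro δ hδ
          rw [Finset.mem_filter] at hδ
          exact Nat.mem_divisors.2 ⟨hδ.2, by omega⟩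
        exact_mod_cast Finset.card_le_card this

lemma sieve_pt {z : ℝ} {b : ℕ} {cp ce : ℕ → ℝ}
    (h : ∀ a : ℕ → ℝ, (∀ p : ℕ, p.Prime → 0 ≤ a p ∧ a p ≤ 1) →
      0 ≤ (∑ δ ∈ Dset z b, cp δ * ∏ p ∈ δ.primeFactors, a p) - ∏ p ∈ PB z, (1 - a p) ∧
      (∑ δ ∈ Dset z b, cp δ * ∏ p ∈ δ.primeFactors, a p) - ∏ p ∈ PB z, (1 - a p) ≤
        ∑ δ ∈ Dset z b, ce δ * ∏ p ∈ δ.primeFactors, a p) (k : ℕ) :
    0 ≤ up (Dset z b) cp k - rInd z k ∧
      up (Dset z b) cp k - rInd z k ≤ up (Dset z b) ce k := by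
  have h1 := h (fun p => if p ∣ k then 1 else 0) (fun p _ => by
    show (0 : ℝ) ≤ (if p ∣ k then 1 else 0) ∧ (if p ∣ k then (1 : ℝ) else 0) ≤ 1
    split_ifs <;> norm_num)
  have h2 : ∀ w : ℕ → ℝ, ∑ δ ∈ Dset z b, w δ * ∏ p ∈ δ.primeFactors,
      (if p ∣ k then (1 : ℝ) else 0) = up (Dset z b) w k := by
    intro w
    unfold up
    refine Finset.sum_congr rfl fun δ hδ => ?_
    rw [ind_prod (mem_Dset hδ).2.2]
    split_ifs <;> simp
  rw [h2, h2, ← rInd_eq] at h1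
  exact h1

/-- the sum of the error over an initial segment -/
lemma sum_up_le {D : Finset ℕ} {w : ℕ → ℝ} {B : ℝ} (hw : ∀ δ, |w δ| ≤ B) (M : ℕ) :
    ∑ k ∈ Ioc 0 M, up D w k ≤ M * (∑ δ ∈ D, w δ * (1 / (δ : ℝ))) + D.card * B := by
  unfold up
  rw [Finset.sum_comm]
  have h1 : ∀ δ ∈ D, ∑ k ∈ Ioc 0 M, (if δ ∣ k then w δ else 0) ≤
      (M : ℝ) * (w δ * (1 / (δ : ℝ))) + B := by
    intro δ _
    rw [← Finset.sum_filter, Finset.sum_const, nsmul_eq_mul, Nat.Ioc_filter_dvd_card_eq_div]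
    have h2 : |((M / δ : ℕ) : ℝ) - (M : ℝ) / δ| ≤ 1 := by
      rcases Nat.eq_zero_or_pos δ with h0 | h0
      · subst h0; simp
      · have h3 : ((M / δ : ℕ) : ℝ) ≤ (M : ℝ) / δ := Nat.cast_div_le
        have h4 : (M : ℝ) / δ < ((M / δ : ℕ) : ℝ) + 1 := by
          rw [div_lt_iff₀ (by exact_mod_cast h0)]
          have h5 : M < (M / δ + 1) * δ := by
            calc M < δ * (M / δ + 1) := Nat.lt_mul_div_succ M h0
              _ = _ := by ring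
          exact_mod_cast h5
        rw [abs_le]
        constructor <;> linarith
    have h5 : ((M / δ : ℕ) : ℝ) * w δ - (M : ℝ) * (w δ * (1 / (δ : ℝ))) =
        (((M / δ : ℕ) : ℝ) - (M : ℝ) / δ) * w δ := by ring
    have h6 : (((M / δ : ℕ) : ℝ) - (M : ℝ) / δ) * w δ ≤ B := by
      refine (le_abs_self _).trans ?_
      rw [abs_mul]
      calc |((M / δ : ℕ) : ℝ) - (M : ℝ) / δ| * |w δ| ≤ 1 * B :=
            mul_le_mul h2 (hw δ) (abs_nonneg _) zero_le_one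
        _ = B := one_mul B
    linarith
  refine (Finset.sum_le_sum h1).trans (le_of_eq ?_)
  rw [Finset.sum_add_distrib, Finset.sum_const, nsmul_eq_mul, Finset.mul_sum]

/-! ### Dirichlet polynomials -/

lemma continuous_DP (S : Finset ℕ) (c : ℕ → ℂ) : Continuous (DP S c) := by
  unfold DP nit
  fun_prop

lemma nit_norm (n : ℕ) (t : ℝ) : ‖nit n t‖ = 1 := by
  unfold nit
  exact Complex.norm_exp_ofReal_mul_I _

lemma nit_mul {m n : ℕ} (hm : 1 ≤ m) (hn : 1 ≤ n) (t : ℝ) :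
    nit (m * n) t = nit m t * nit n t := by
  unfold nit
  rw [← Complex.exp_add, Nat.cast_mul, Real.log_mul (by positivity) (by positivity)]
  congr 1
  push_cast
  ring

lemma mem_IO {x y : ℝ} (hx : 0 ≤ x) (hy : 0 ≤ y) {n : ℕ} :
    n ∈ IO x y ↔ x < n ∧ (n : ℝ) ≤ y := by
  unfold IO
  rw [Finset.mem_Ioc, Nat.floor_lt hx, Nat.le_floor_iff hy]

lemma sum_mult {y : ℝ} (hy : 0 ≤ y) {δ : ℕ} (hδ : 1 ≤ δ) (F : ℕ → ℂ) :
    ∑ n ∈ IO y (32 * y), (if δ ∣ n then F n else 0) =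
      ∑ m ∈ IO (y / δ) (32 * y / δ), F (δ * m) := by
  rw [← Finset.sum_filter]
  have hδ0 : (0 : ℝ) < δ := by exact_mod_cast hδ
  symm
  refine Finset.sum_nbij' (fun m => δ * m) (fun n => n / δ) ?_ ?_ ?_ ?_ ?_
  · intro m hm
    rw [mem_IO (by positivity) (by positivity)] at hm
    rw [Finset.mem_filter, mem_IO hy (by positivity)]
    obtain ⟨h1, h2⟩ := hm
    rw [div_lt_iff₀ hδ0] at h1
    rw [le_div_iff₀ hδ0] at h2
    refine ⟨⟨?_, ?_⟩, Dvd.intro m rfl⟩ <;> push_cast <;> linarith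
  · intro n hn
    rw [Finset.mem_filter, mem_IO hy (by positivity)] at hn
    obtain ⟨⟨h1, h2⟩, m, rfl⟩ := hn
    rw [Nat.mul_div_cancel_left m (by omega), mem_IO (by positivity) (by positivity),
      div_lt_iff₀ hδ0, le_div_iff₀ hδ0]
    push_cast at h1 h2
    exact ⟨by linarith, by linarith⟩
  · intro m _
    exact Nat.mul_div_cancel_left m (by omega)
  · intro n hn
    rw [Finset.mem_filter] at hn
    exact Nat.mul_div_cancel' hn.2
  · intro m _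
    rfl

lemma DP_up {q : ℕ} [NeZero q] (χ : DirichletCharacter ℂ q) {y : ℝ} (hy : 0 ≤ y) {D : Finset ℕ}
    (hD : ∀ δ ∈ D, 1 ≤ δ) (w : ℕ → ℝ) (t : ℝ) :
    DP (IO y (32 * y)) (fun k => (up D w k : ℂ) * χ k) t =
      ∑ δ ∈ D, (w δ : ℂ) * χ δ * nit δ t * DP (IO (y / δ) (32 * y / δ)) (fun n => χ n) t := by
  have h1 : DP (IO y (32 * y)) (fun k => (up D w k : ℂ) * χ k) t =
      ∑ δ ∈ D, ∑ n ∈ IO y (32 * y), (if δ ∣ n then (w δ : ℂ) * (χ n * nit n t) else 0) := by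
    unfold DP up
    rw [Finset.sum_comm]
    refine Finset.sum_congr rfl fun n _ => ?_
    push_cast
    rw [Finset.sum_mul, Finset.sum_mul]
    refine Finset.sum_congr rfl fun δ _ => ?_
    split_ifs
    · ring
    · simp
  rw [h1]
  refine Finset.sum_congr rfl fun δ hδ => ?_
  have hδ1 := hD δ hδ
  rw [sum_mult hy hδ1 (fun n => (w δ : ℂ) * (χ n * nit n t))]
  unfold DP
  rw [Finset.mul_sum]
  refine Finset.sum_congr rfl fun m hm => ?_
  have hm1 : 1 ≤ m := by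
    unfold IO at hm
    rw [Finset.mem_Ioc] at hm
    omega
  rw [nit_mul hδ1 hm1, Nat.cast_mul, map_mul]
  ring

open scoped Classical in
/-- the factor for the principal character -/
def io {q : ℕ} (χ : DirichletCharacter ℂ q) (t : ℝ) : ℝ := if χ = 1 then (1 + |t|)⁻¹ else 0

lemma io_nonneg {q : ℕ} (χ : DirichletCharacter ℂ q) (t : ℝ) : 0 ≤ io χ t := by
  unfold io
  split_ifs
  · positivity
  · exact le_rfl

lemma io_zsc {c' C x x' t : ℝ} {q : ℕ} [NeZero q] (χ : DirichletCharacter ℂ q)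
    (h : ‖DP (IO x x') (fun n => χ n) t‖ ≤ C * q ^ 2 * x ^ (1 - c') ∧ χ ≠ 1 ∨
      ‖DP (IO x x') (fun n => χ n) t‖ ≤ C * q ^ 2 * (x / (1 + |t|) + x ^ (1 - c')) ∧ χ = 1) :
    ‖DP (IO x x') (fun n => χ n) t‖ ≤ C * q ^ 2 * (x * io χ t + x ^ (1 - c')) := by
  unfold io
  rcases h with ⟨h1, h2⟩ | ⟨h1, h2⟩
  · rw [if_neg h2, mul_zero, zero_add]
    exact h1
  · rw [if_pos h2, ← div_eq_mul_inv]
    exact h1

lemma harm_le {D : Finset ℕ} {M : ℕ} (hD : D ⊆ Icc 1 M) :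
    ∑ δ ∈ D, 1 / (δ : ℝ) ≤ 1 + Real.log M := by
  have h1 : ∑ δ ∈ D, 1 / (δ : ℝ) ≤ ∑ δ ∈ Icc 1 M, 1 / (δ : ℝ) :=
    Finset.sum_le_sum_of_subset_of_nonneg hD (fun _ _ _ => by positivity)
  refine h1.trans ?_
  have h2 := harmonic_le_one_add_log M
  rw [harmonic_eq_sum_Icc] at h2
  push_cast at h2
  simpa [one_div] using h2

/-- the Type I estimate -/
lemma type1 {c' C : ℝ} (hc' : 0 < c') (hc'2 : c' ≤ 1 / 2) (hC : 0 < C)
    (hZ : ∀ (x x' t : ℝ) (q : ℕ) [NeZero q] (χ : DirichletCharacter ℂ q), 1 ≤ x → x ≤ x' →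
      x' ≤ 64 * x → |t| ≤ x ^ 4 →
      ‖DP (IO x x') (fun n => χ n) t‖ ≤ C * q ^ 2 * x ^ (1 - c') ∧ χ ≠ 1 ∨
      ‖DP (IO x x') (fun n => χ n) t‖ ≤ C * q ^ 2 * (x / (1 + |t|) + x ^ (1 - c')) ∧ χ = 1)
    {N y : ℝ} (hN : 1 ≤ N) (hy : N ^ ((3 : ℝ) / 5) ≤ y) {q : ℕ} [NeZero q]
    (χ : DirichletCharacter ℂ q) {D : Finset ℕ} (hD : ∀ δ ∈ D, 1 ≤ δ ∧ (δ : ℝ) ≤ N ^ ((1 : ℝ) / 8))
    {w : ℕ → ℝ} (hw : ∀ δ, |w δ| ≤ 1) {t : ℝ} (ht : |t| ≤ N) :
    ‖DP (IO y (32 * y)) (fun k => (up D w k : ℂ) * χ k) t‖ ≤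
      C * q ^ 2 * y * (io χ t + N ^ (-(c' / 4))) * ∑ δ ∈ D, 1 / (δ : ℝ) := by
  have hN0 : 0 < N := by linarith
  have hy0 : 0 < y := lt_of_lt_of_le (Real.rpow_pos_of_pos hN0 _) hy
  rw [DP_up χ hy0.le (fun δ hδ => (hD δ hδ).1) w t]
  refine (norm_sum_le _ _).trans ?_
  rw [Finset.mul_sum]
  refine Finset.sum_le_sum fun δ hδ => ?_
  obtain ⟨hδ1, hδN⟩ := hD δ hδ
  have hδ0 : (0 : ℝ) < δ := by exact_mod_cast hδ1
  have hx : N ^ ((19 : ℝ) / 40) ≤ y / δ := by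
    rw [le_div_iff₀ hδ0]
    calc N ^ ((19 : ℝ) / 40) * δ ≤ N ^ ((19 : ℝ) / 40) * N ^ ((1 : ℝ) / 8) := by gcongr
      _ = N ^ ((3 : ℝ) / 5) := by rw [← Real.rpow_add hN0]; norm_num
      _ ≤ y := hy
  have hx1 : 1 ≤ y / δ := le_trans (Real.one_le_rpow hN (by norm_num)) hx
  have hx0 : 0 < y / δ := by positivity
  have ht4 : |t| ≤ (y / δ) ^ 4 := by
    refine ht.trans ?_
    calc N = N ^ (1 : ℝ) := (Real.rpow_one N).symm
      _ ≤ N ^ ((19 : ℝ) / 40 * 4) := Real.rpow_le_rpow_of_exponent_le hN (by norm_num)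
      _ = (N ^ ((19 : ℝ) / 40)) ^ 4 := by
          rw [Real.rpow_mul hN0.le]; norm_cast
      _ ≤ (y / δ) ^ 4 := by gcongr
  have h1 := io_zsc χ (hZ (y / δ) (32 * y / δ) t q χ hx1
    (by rw [div_le_div_iff_of_pos_right hδ0]; linarith)
    (by rw [mul_div_assoc]; linarith) ht4)
  have h2 : (y / δ) ^ (1 - c') ≤ y / δ * N ^ (-(c' / 4)) := by
    rw [Real.rpow_sub hx0, Real.rpow_one, div_eq_mul_inv]
    refine mul_le_mul_of_nonneg_left ?_ hx0.le
    rw [← Real.rpow_neg hx0.le]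
    calc (y / δ) ^ (-c') ≤ (N ^ ((19 : ℝ) / 40)) ^ (-c') :=
          Real.rpow_le_rpow_of_nonpos (Real.rpow_pos_of_pos hN0 _) hx (by linarith)
      _ = N ^ ((19 : ℝ) / 40 * (-c')) := (Real.rpow_mul hN0.le _ _).symm
      _ ≤ N ^ (-(c' / 4)) := Real.rpow_le_rpow_of_exponent_le hN (by nlinarith)
  have hq0 : 0 ≤ C * (q : ℝ) ^ 2 := by positivity
  rw [norm_mul, norm_mul, norm_mul, nit_norm, mul_one, Complex.norm_real, Real.norm_eq_abs]
  have h3 : |w δ| * ‖χ (δ : ZMod q)‖ ≤ 1 := by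
    calc |w δ| * ‖χ (δ : ZMod q)‖ ≤ 1 * 1 :=
          mul_le_mul (hw δ) (DirichletCharacter.norm_le_one χ _) (norm_nonneg _) zero_le_one
      _ = 1 := one_mul 1
  calc |w δ| * ‖χ (δ : ZMod q)‖ * ‖DP (IO (y / δ) (32 * y / δ)) (fun n => χ n) t‖
      ≤ 1 * (C * q ^ 2 * (y / δ * io χ t + (y / δ) ^ (1 - c'))) :=
        mul_le_mul h3 h1 (norm_nonneg _) zero_le_one
    _ ≤ C * q ^ 2 * (y / δ * io χ t + y / δ * N ^ (-(c' / 4))) := by
        rw [one_mul]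
        exact mul_le_mul_of_nonneg_left (by linarith) hq0
    _ = C * q ^ 2 * y * (io χ t + N ^ (-(c' / 4))) * (1 / δ) := by ring

/-- the constant of the integral over the frequencies -/
def I0 : ℝ := ∫ t : ℝ, (1 + ‖t‖) ^ (-(3 / 2 : ℝ))

lemma I0_int : Integrable (fun t : ℝ => (1 + ‖t‖) ^ (-(3 / 2 : ℝ))) :=
  integrable_one_add_norm (by rw [Module.finrank_self]; norm_num)

lemma I0_nonneg : 0 ≤ I0 := integral_nonneg fun t => by positivity

/-- the integral of `io ^ 2` over admissible frequencies -/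
lemma io_sq_le {N K : ℝ} (hL : 1 < Real.log N) {q : ℕ} (χ : DirichletCharacter ℂ q)
    {E : Set ℝ} (hA : Away N K χ E) {t : ℝ} (ht : t ∈ E) :
    io χ t ^ 2 ≤ Real.log N ^ (-(K / 2)) * (1 + ‖t‖) ^ (-(3 / 2 : ℝ)) := by
  have hL0 : 0 < Real.log N := by linarith
  unfold io
  split_ifs with h
  · have h1 : Real.log N ^ K ≤ |t| := by
      rcases hA with h2 | h2
      · exact absurd h h2
      · exact h2 t ht
    have h0 : 0 < 1 + |t| := by positivity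
    rw [Real.norm_eq_abs]
    have e1 : ((1 + |t|)⁻¹) ^ 2 = (1 + |t|) ^ (-(1 / 2 : ℝ)) * (1 + |t|) ^ (-(3 / 2 : ℝ)) := by
      rw [← Real.rpow_add h0, inv_pow, ← Real.rpow_natCast, ← Real.rpow_neg h0.le]
      norm_num
    rw [e1]
    refine mul_le_mul_of_nonneg_right ?_ (by positivity)
    calc (1 + |t|) ^ (-(1 / 2 : ℝ)) ≤ (Real.log N ^ K) ^ (-(1 / 2 : ℝ)) :=
          Real.rpow_le_rpow_of_nonpos (Real.rpow_pos_of_pos hL0 _) (by linarith) (by norm_num)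
      _ = Real.log N ^ (-(K / 2)) := by
          rw [← Real.rpow_mul hL0.le]; congr 1; ring
  · rw [zero_pow two_ne_zero]
    have : 0 < 1 + ‖t‖ := by positivity
    positivity

lemma int_E {E : Set ℝ} {N : ℝ} (hEN : E ⊆ Set.Icc (-N) N) {f : ℝ → ℝ}
    (hf : Continuous f) : IntegrableOn f E :=
  (hf.continuousOn.integrableOn_Icc (a := -N) (b := N)).mono_set hEN

/-- the Type I part -/
lemma part1 {c' : ℝ} {A : ℝ} {N K η : ℝ} (hN : 1 ≤ N)
    (hη : η ≤ c' / 4) (hL : 1 < Real.log N) {q : ℕ} (χ : DirichletCharacter ℂ q)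
    {E : Set ℝ} (hE : MeasurableSet E) (hEN : E ⊆ Set.Icc (-N) N)
    (hvol : volume E ≤ ENNReal.ofReal (N ^ η)) (hA : Away N K χ E) {f : ℝ → ℂ}
    (hf : Continuous f) (hfb : ∀ t, |t| ≤ N → ‖f t‖ ≤ A * (io χ t + N ^ (-(c' / 4)))) :
    ∫ t in E, ‖f t‖ ^ 2 ≤ 2 * A ^ 2 * (Real.log N ^ (-(K / 2)) * I0 + N ^ (-(c' / 4))) := by
  have hN0 : 0 < N := by linarith
  have hL0 : 0 < Real.log N := by linarith
  have h1 : ∫ t in E, ‖f t‖ ^ 2 ≤ ∫ t in E, (2 * A ^ 2 * (Real.log N ^ (-(K / 2)) *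
      (1 + ‖t‖) ^ (-(3 / 2 : ℝ))) + 2 * A ^ 2 * N ^ (-(c' / 2))) := by
    refine setIntegral_mono_on (int_E hEN (by fun_prop)) ?_ hE ?_
    · refine Integrable.add ?_ ?_
      · exact ((I0_int.const_mul _).const_mul _).integrableOn
      · refine integrableOn_const ?_ ?_
        · exact (lt_of_le_of_lt hvol ENNReal.ofReal_lt_top).ne
        · exact enorm_ne_top
    · intro t ht
      have htN : |t| ≤ N := abs_le.2 (hEN ht)
      have h2 := hfb t htN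
      have h3 := io_sq_le hL χ hA ht
      have h4 := io_nonneg χ t
      have h5 : (0 : ℝ) ≤ N ^ (-(c' / 4)) := by positivity
      have h6 : (N ^ (-(c' / 4))) ^ 2 = N ^ (-(c' / 2)) := by
        rw [← Real.rpow_natCast, ← Real.rpow_mul hN0.le]
        congr 1; push_cast; ring
      calc ‖f t‖ ^ 2 ≤ (A * (io χ t + N ^ (-(c' / 4)))) ^ 2 := by gcongr
        _ ≤ 2 * A ^ 2 * (io χ t ^ 2 + (N ^ (-(c' / 4))) ^ 2) := by
            nlinarith [mul_nonneg (sq_nonneg A) (sq_nonneg (io χ t - N ^ (-(c' / 4))))]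
        _ ≤ 2 * A ^ 2 * (Real.log N ^ (-(K / 2)) * (1 + ‖t‖) ^ (-(3 / 2 : ℝ)) +
            N ^ (-(c' / 2))) := by
            rw [h6]
            have : 0 ≤ 2 * A ^ 2 := by positivity
            exact mul_le_mul_of_nonneg_left (by linarith) this
        _ = _ := by ring
  refine h1.trans ?_
  have hi1 : IntegrableOn (fun t : ℝ => 2 * A ^ 2 * (Real.log N ^ (-(K / 2)) *
      (1 + ‖t‖) ^ (-(3 / 2 : ℝ)))) E := ((I0_int.const_mul _).const_mul _).integrableOn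
  have hi2 : IntegrableOn (fun _ : ℝ => 2 * A ^ 2 * N ^ (-(c' / 2))) E := by
    refine integrableOn_const ?_ ?_
    · exact (lt_of_le_of_lt hvol ENNReal.ofReal_lt_top).ne
    · exact enorm_ne_top
  rw [integral_add hi1 hi2, integral_const_mul, integral_const_mul]
  have h7 : ∫ t in E, (1 + ‖t‖) ^ (-(3 / 2 : ℝ)) ≤ I0 :=
    setIntegral_le_integral I0_int (Eventually.of_forall fun t => by positivity)
  have h8 : ∫ _t in E, 2 * A ^ 2 * N ^ (-(c' / 2)) ≤ 2 * A ^ 2 * N ^ (-(c' / 4)) := by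
    rw [setIntegral_const, smul_eq_mul]
    have h9 : volume.real E ≤ N ^ η := by
      have := ENNReal.toReal_mono ENNReal.ofReal_ne_top hvol
      rwa [ENNReal.toReal_ofReal (by positivity)] at this
    have h10 : N ^ η * N ^ (-(c' / 2)) ≤ N ^ (-(c' / 4)) := by
      rw [← Real.rpow_add hN0]
      exact Real.rpow_le_rpow_of_exponent_le hN (by linarith)
    calc volume.real E * (2 * A ^ 2 * N ^ (-(c' / 2))) ≤ N ^ η * (2 * A ^ 2 * N ^ (-(c' / 2))) :=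
          mul_le_mul_of_nonneg_right h9 (by positivity)
      _ = 2 * A ^ 2 * (N ^ η * N ^ (-(c' / 2))) := by ring
      _ ≤ 2 * A ^ 2 * N ^ (-(c' / 4)) := mul_le_mul_of_nonneg_left h10 (by positivity)
  have h11 : 2 * A ^ 2 * (Real.log N ^ (-(K / 2)) * ∫ t in E, (1 + ‖t‖) ^ (-(3 / 2 : ℝ))) ≤
      2 * A ^ 2 * (Real.log N ^ (-(K / 2)) * I0) := by gcongr
  calc _ ≤ 2 * A ^ 2 * (Real.log N ^ (-(K / 2)) * I0) + 2 * A ^ 2 * N ^ (-(c' / 4)) := by
        linarith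
    _ = _ := by ring

/-! ### The error -/

/-- the mean square of the error of the sieve -/
lemma err_sq {z : ℝ} {b M : ℕ} {cp ce : ℕ → ℝ} {B X₁ : ℝ} (hcp : ∀ δ, |cp δ| ≤ 1)
    (hce : ∀ δ, |ce δ| ≤ B)
    (h : ∀ k, 0 ≤ up (Dset z b) cp k - rInd z k ∧
      up (Dset z b) cp k - rInd z k ≤ up (Dset z b) ce k)
    (hX : (M : ℝ) * (∑ δ ∈ Dset z b, ce δ * (1 / (δ : ℝ))) + (Dset z b).card * B ≤ X₁)
    {X₃ : ℝ} (hX₃ : ∑ n ∈ Icc 1 M, (n.divisors.card : ℝ) ^ 3 ≤ X₃)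
    {S : Finset ℕ} (hS : S ⊆ Ioc 0 M) :
    (∑ k ∈ S, (up (Dset z b) cp k - rInd z k) ^ 2) ^ 2 ≤ X₁ * X₃ := by
  have h1 : (∑ k ∈ S, (up (Dset z b) cp k - rInd z k) ^ 2) ^ 2 ≤
      (∑ k ∈ S, (up (Dset z b) cp k - rInd z k)) *
        ∑ k ∈ S, (up (Dset z b) cp k - rInd z k) ^ 3 := by
    refine Finset.sum_sq_le_sum_mul_sum_of_sq_le_mul S (fun k _ => (h k).1)
      (fun k _ => pow_nonneg (h k).1 3) (fun k _ => le_of_eq (by ring))
  have h2 : ∑ k ∈ S, (up (Dset z b) cp k - rInd z k) ≤ X₁ := by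
    calc ∑ k ∈ S, (up (Dset z b) cp k - rInd z k)
        ≤ ∑ k ∈ Ioc 0 M, (up (Dset z b) cp k - rInd z k) :=
          Finset.sum_le_sum_of_subset_of_nonneg hS (fun k _ _ => (h k).1)
      _ ≤ ∑ k ∈ Ioc 0 M, up (Dset z b) ce k := Finset.sum_le_sum fun k _ => (h k).2
      _ ≤ _ := (sum_up_le hce M).trans hX
  have h3 : ∑ k ∈ S, (up (Dset z b) cp k - rInd z k) ^ 3 ≤ X₃ := by
    calc ∑ k ∈ S, (up (Dset z b) cp k - rInd z k) ^ 3
        ≤ ∑ k ∈ Ioc 0 M, (up (Dset z b) cp k - rInd z k) ^ 3 :=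
          Finset.sum_le_sum_of_subset_of_nonneg hS (fun k _ _ => pow_nonneg (h k).1 3)
      _ ≤ ∑ k ∈ Ioc 0 M, (k.divisors.card : ℝ) ^ 3 := by
          refine Finset.sum_le_sum fun k hk => ?_
          rw [Finset.mem_Ioc] at hk
          have h4 := up_le_card hcp (D := Dset z b) (k := k) (by omega)
          have h5 : 0 ≤ rInd z k := by
            unfold Pool.Agent.Lib.MP391708.QPA.rInd
            split_ifs <;> norm_num
          exact pow_le_pow_left₀ (h k).1 (by linarith) 3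
      _ = ∑ k ∈ Icc 1 M, (k.divisors.card : ℝ) ^ 3 := by
          congr 1
      _ ≤ X₃ := hX₃
  have h6 : 0 ≤ ∑ k ∈ S, (up (Dset z b) cp k - rInd z k) ^ 3 :=
    Finset.sum_nonneg fun k _ => pow_nonneg (h k).1 3
  have h7 : 0 ≤ ∑ k ∈ S, (up (Dset z b) cp k - rInd z k) :=
    Finset.sum_nonneg fun k _ => (h k).1
  exact h1.trans (mul_le_mul h2 h3 h6 (h7.trans h2))

/-- the two parts together -/
lemma combine {E : Set ℝ} (hE : MeasurableSet E) {N X : ℝ} (hEN : E ⊆ Set.Icc (-N) N)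
    {f g h : ℝ → ℂ} (hf : Continuous f) (hg : Continuous g) (hh : Continuous h)
    (hfun : ∀ t, ‖f t‖ ^ 2 ≤ ‖g t‖ ^ 2 / 2 + ‖h t‖ ^ 2 / 2)
    (h1 : ∫ t in E, ‖g t‖ ^ 2 ≤ X) (h2 : ∫ t in E, ‖h t‖ ^ 2 ≤ X) :
    ∫ t in E, ‖f t‖ ^ 2 ≤ X := by
  have hi1 : IntegrableOn (fun t => ‖g t‖ ^ 2) E := int_E hEN (hg.norm.pow 2)
  have hi2 : IntegrableOn (fun t => ‖h t‖ ^ 2) E := int_E hEN (hh.norm.pow 2)
  have hi3 : IntegrableOn (fun t => ‖f t‖ ^ 2) E := int_E hEN (hf.norm.pow 2)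
  have hi4 : IntegrableOn (fun t => ‖g t‖ ^ 2 / 2 + ‖h t‖ ^ 2 / 2) E :=
    Integrable.add (hi1.div_const 2) (hi2.div_const 2)
  calc ∫ t in E, ‖f t‖ ^ 2 ≤ ∫ t in E, (‖g t‖ ^ 2 / 2 + ‖h t‖ ^ 2 / 2) :=
        setIntegral_mono_on hi3 hi4 hE (fun t _ => hfun t)
    _ = (∫ t in E, ‖g t‖ ^ 2) / 2 + (∫ t in E, ‖h t‖ ^ 2) / 2 := by
        rw [integral_add (hi1.div_const 2) (hi2.div_const 2), integral_div, integral_div]
    _ ≤ _ := by linarith

lemma model_split {q : ℕ} [NeZero q] (χ : DirichletCharacter ℂ q) (S : Finset ℕ) {κ : ℝ}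
    (hκ0 : 0 ≤ κ) (hκ1 : κ ≤ 1 / 8) {w u r : ℕ → ℝ} (hw : ∀ k, w k = κ * r k) (t : ℝ) :
    ‖DP S (fun k => (w k : ℂ) * χ k) t‖ ^ 2 ≤ ‖DP S (fun k => (u k : ℂ) * χ k) t‖ ^ 2 / 2 +
      ‖DP S (fun k => ((u k - r k : ℝ) : ℂ) * χ k) t‖ ^ 2 / 2 := by
  have h1 : DP S (fun k => (w k : ℂ) * χ k) t = (κ : ℂ) * (DP S (fun k => (u k : ℂ) * χ k) t -
      DP S (fun k => ((u k - r k : ℝ) : ℂ) * χ k) t) := by
    unfold DP
    rw [← Finset.sum_sub_distrib, Finset.mul_sum]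
    refine Finset.sum_congr rfl fun k _ => ?_
    simp only [hw k]
    push_cast
    ring
  rw [h1, norm_mul, mul_pow, Complex.norm_real, Real.norm_of_nonneg hκ0]
  have h3 := norm_sub_le (DP S (fun k => (u k : ℂ) * χ k) t)
    (DP S (fun k => ((u k - r k : ℝ) : ℂ) * χ k) t)
  generalize DP S (fun k => (u k : ℂ) * χ k) t = d1 at h3 ⊢
  generalize DP S (fun k => ((u k - r k : ℝ) : ℂ) * χ k) t = d2 at h3 ⊢
  have h4 : κ ^ 2 ≤ 1 / 4 := by nlinarith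
  have h5 : ‖d1 - d2‖ ^ 2 ≤ (‖d1‖ + ‖d2‖) ^ 2 := pow_le_pow_left₀ (norm_nonneg _) h3 2
  calc κ ^ 2 * ‖d1 - d2‖ ^ 2 ≤ 1 / 4 * (‖d1‖ + ‖d2‖) ^ 2 :=
        mul_le_mul h4 h5 (by positivity) (by norm_num)
    _ ≤ _ := by nlinarith [sq_nonneg (‖d1‖ - ‖d2‖)]

/-! ### Large `N` -/

lemma ev_pow (s t M : ℝ) (ht : 0 < t) : ∀ᶠ N : ℝ in atTop, M * Real.log N ^ s ≤ N ^ t := by
  have h := (isLittleO_log_rpow_rpow_atTop s ht).bound
    (show (0 : ℝ) < 1 / (|M| + 1) by positivity)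
  filter_upwards [h, eventually_ge_atTop 1] with N hN h1
  have hl : 0 ≤ Real.log N := Real.log_nonneg h1
  rw [Real.norm_of_nonneg (Real.rpow_nonneg hl _),
    Real.norm_of_nonneg (Real.rpow_nonneg (by linarith) _)] at hN
  have h2 : 0 ≤ Real.log N ^ s := Real.rpow_nonneg hl _
  have h3 : (|M| + 1) * Real.log N ^ s ≤ N ^ t := by
    have := mul_le_mul_of_nonneg_left hN (show 0 ≤ |M| + 1 by positivity)
    rwa [← mul_assoc, mul_one_div_cancel (by positivity), one_mul] at this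
  have h4 := le_abs_self M
  nlinarith

lemma ev_level (F c : ℝ) (hF : 0 ≤ F) (hc : 0 ≤ c) : ∀ᶠ N : ℝ in atTop,
    zz N c ^ (8 * ⌈F * Real.log (Real.log N)⌉₊ + 16) ≤ N ^ ((1 : ℝ) / 8) := by
  have h1 : ∀ᶠ x : ℝ in atTop, (8 * F + 24) * (5 * c) * Real.log x ^ 2 ≤ x / 8 := by
    obtain ⟨Q, hQ⟩ : ∃ Q, Q = (8 * F + 24) * (5 * c) := ⟨_, rfl⟩
    have hQ0 : 0 ≤ Q := by rw [hQ]; positivity
    have h := (Real.isLittleO_pow_log_id_atTop (n := 2)).bound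
      (show (0 : ℝ) < 1 / (8 * (Q + 1)) by positivity)
    rw [← hQ]
    filter_upwards [h, eventually_ge_atTop 1] with x hx h1
    rw [Real.norm_of_nonneg (by positivity), id, Real.norm_of_nonneg (by linarith)] at hx
    have h3 : (8 * (Q + 1)) * Real.log x ^ 2 ≤ x := by
      calc (8 * (Q + 1)) * Real.log x ^ 2 ≤ (8 * (Q + 1)) * (1 / (8 * (Q + 1)) * x) :=
            mul_le_mul_of_nonneg_left hx (by positivity)
        _ = x := by field_simp
    nlinarith [sq_nonneg (Real.log x)]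
  filter_upwards [Real.tendsto_log_atTop.eventually h1,
    Real.tendsto_log_atTop.eventually (eventually_ge_atTop (Real.exp 1)),
    eventually_ge_atTop 1] with N h2 h3 h4
  have hL0 : 0 < Real.log N := lt_of_lt_of_le (Real.exp_pos _) h3
  have hl1 : 1 ≤ Real.log (Real.log N) := (Real.le_log_iff_exp_le hL0).2 h3
  have hN0 : 0 < N := by linarith
  have hz0 : 0 < zz N c := Real.rpow_pos_of_pos hL0 _
  have hlz : Real.log (zz N c) = 5 * c * Real.log (Real.log N) := by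
    unfold zz
    rw [Real.log_rpow hL0]
  rw [← Real.exp_log hz0, ← Real.exp_nat_mul, Real.rpow_def_of_pos hN0]
  refine Real.exp_le_exp.2 ?_
  rw [hlz]
  have h5 : (⌈F * Real.log (Real.log N)⌉₊ : ℝ) ≤ F * Real.log (Real.log N) + 1 :=
    (Nat.ceil_lt_add_one (by positivity)).le
  push_cast
  have h6 : (8 * (⌈F * Real.log (Real.log N)⌉₊ : ℝ) + 16) ≤
      (8 * F + 24) * Real.log (Real.log N) := by nlinarith
  have h7 : 0 ≤ 5 * c * Real.log (Real.log N) := by positivity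
  calc (8 * (⌈F * Real.log (Real.log N)⌉₊ : ℝ) + 16) * (5 * c * Real.log (Real.log N))
      ≤ ((8 * F + 24) * Real.log (Real.log N)) * (5 * c * Real.log (Real.log N)) :=
        mul_le_mul_of_nonneg_right h6 h7
    _ = (8 * F + 24) * (5 * c) * Real.log (Real.log N) ^ 2 := by ring
    _ ≤ Real.log N / 8 := h2
    _ = Real.log N * (1 / 8) := by ring

end WPOM

open WPOM in
open Pool.Agent.Lib.MP391708.QPA (SpecFLP specFLP) in
open Pool.Agent.Lib.MP391708.QPA.FLW (Dset) in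
theorem specWPO' (hDIV : SpecDIV) (hZSC : SpecZSC) (hHMJ : SpecHMJ) : SpecWPO := by
  obtain ⟨c', C, hc', hc'2, hC, hZ⟩ := hZSC 4 (by norm_num)
  obtain ⟨η₀, C₂, N₂, hη₀, hη₀', hC₂, hH⟩ := hHMJ
  obtain ⟨C₁, hC₁, hFL⟩ := specFLP 1 one_pos
  refine ⟨min η₀ (c' / 4), lt_min hη₀ (by linarith), ?_⟩
  intro T b c hT hb hc
  have hc0 : 0 < c := by linarith
  obtain ⟨F, hF⟩ : ∃ F, F = 2 * T + 10 := ⟨_, rfl⟩
  have hF0 : 0 ≤ F := by linarith
  have hev : ∀ᶠ N : ℝ in atTop, FRBM.Num N c 1 ∧ N₂ ≤ N ∧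
      zz N c ^ (8 * ⌈F * Real.log (Real.log N)⌉₊ + 16) ≤ N ^ ((1 : ℝ) / 8) ∧
      C₁ * (1 + 5 * c) * Real.log N ^ (F + 1) ≤ N ^ ((19 : ℝ) / 40) ∧
      C₂ ^ 2 * ((32 * C₁ + 1) * (32 * 5 ^ 7)) ≤ Real.log N ∧ 16 * C ^ 2 * I0 ≤ Real.log N ∧
      16 * C ^ 2 * Real.log N ^ (4 * b + 2 + T) ≤ N ^ (c' / 4) ∧ 2 ≤ Real.log N := by
    have tl := Real.tendsto_log_atTop
    filter_upwards [FRBM.eventually_num hc0 one_pos, eventually_ge_atTop N₂,
      ev_level F c hF0 hc0.le, ev_pow (F + 1) (19 / 40) (C₁ * (1 + 5 * c)) (by norm_num),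
      tl.eventually (eventually_ge_atTop (C₂ ^ 2 * ((32 * C₁ + 1) * (32 * 5 ^ 7)))),
      tl.eventually (eventually_ge_atTop (16 * C ^ 2 * I0)),
      ev_pow (4 * b + 2 + T) (c' / 4) (16 * C ^ 2) (by positivity),
      tl.eventually (eventually_ge_atTop 2)] with N h1 h2 h3 h4 h5 h6 h7 h8
    exact ⟨h1, h2, h3, h4, h5, h6, h7, h8⟩
  obtain ⟨N₀, hN₀⟩ := eventually_atTop.1 hev
  refine ⟨2 * (4 * b + 3 + T), N₀, by linarith, ?_⟩
  intro N y q _ χ E hN hy hyN hq hE hEN hvol hA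
  obtain ⟨hNum, e2, e3, e4, e5, e6, e7, e8⟩ := hN₀ N hN
  obtain ⟨L, hLdef⟩ : ∃ L, L = Real.log N := ⟨_, rfl⟩
  have hN1 : 1 ≤ N := by linarith [hNum.hN]
  have hN0 : 0 < N := by linarith
  have hL2 : 2 ≤ Real.log N := e8
  have hL0 : 0 < Real.log N := by linarith
  have hL1 : 1 < Real.log N := by linarith
  have hy0 : 0 < y := lt_of_lt_of_le (Real.rpow_pos_of_pos hN0 _) hy
  have hy1 : 1 ≤ y := le_trans (Real.one_le_rpow hN1 (by norm_num)) hy
  have hvol₀ : volume E ≤ ENNReal.ofReal (N ^ η₀) :=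
    hvol.trans (ENNReal.ofReal_le_ofReal
      (Real.rpow_le_rpow_of_exponent_le hN1 (min_le_left _ _)))
  obtain ⟨z, hz⟩ : ∃ z, z = zz N c := ⟨_, rfl⟩
  have hz2 : 2 ≤ z := by rw [hz]; exact hNum.h2
  obtain ⟨b', hb'⟩ : ∃ b', b' = ⌈F * Real.log (Real.log N)⌉₊ := ⟨_, rfl⟩
  rw [← hz, ← hb'] at e3
  obtain ⟨cp, ce, hcp, hce, hpt, hden⟩ := hFL b' z hz2
  have hpt' := sieve_pt hpt
  obtain ⟨D, hD⟩ : ∃ D, D = Dset z b' := ⟨_, rfl⟩
  have hDm : ∀ δ ∈ D, 1 ≤ δ ∧ (δ : ℝ) ≤ N ^ ((1 : ℝ) / 8) := by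
    intro δ hδ
    rw [hD] at hδ
    obtain ⟨h1, h2, -⟩ := mem_Dset hδ
    refine ⟨h1, ?_⟩
    have h3 : ((⌊z ^ (8 * b' + 16)⌋₊ : ℕ) : ℝ) ≤ z ^ (8 * b' + 16) :=
      Nat.floor_le (by positivity)
    have h4 : (δ : ℝ) ≤ ((⌊z ^ (8 * b' + 16)⌋₊ : ℕ) : ℝ) := by exact_mod_cast h2
    linarith
  have hDsub : D ⊆ Icc 1 ⌊N ^ ((1 : ℝ) / 8)⌋₊ := by
    intro δ hδ
    rw [Finset.mem_Icc]
    exact ⟨(hDm δ hδ).1, Nat.le_floor (hDm δ hδ).2⟩
  have hfl8 : ((⌊N ^ ((1 : ℝ) / 8)⌋₊ : ℕ) : ℝ) ≤ N ^ ((1 : ℝ) / 8) := Nat.floor_le (by positivity)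
  have hDcard : (D.card : ℝ) ≤ N ^ ((1 : ℝ) / 8) := by
    have h1 := Finset.card_le_card hDsub
    rw [Nat.card_Icc, Nat.add_sub_cancel] at h1
    have h2 : (D.card : ℝ) ≤ ((⌊N ^ ((1 : ℝ) / 8)⌋₊ : ℕ) : ℝ) := by exact_mod_cast h1
    linarith
  -- the harmonic sum
  have hharm : ∑ δ ∈ D, 1 / (δ : ℝ) ≤ 2 * Real.log N := by
    refine (harm_le hDsub).trans ?_
    have h1 : 1 ≤ ⌊N ^ ((1 : ℝ) / 8)⌋₊ := by
      rw [Nat.one_le_floor_iff]
      exact Real.one_le_rpow hN1 (by norm_num)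
    have h2 : Real.log ((⌊N ^ ((1 : ℝ) / 8)⌋₊ : ℕ) : ℝ) ≤ Real.log (N ^ ((1 : ℝ) / 8)) :=
      Real.log_le_log (by exact_mod_cast h1) hfl8
    rw [Real.log_rpow hN0] at h2
    linarith
  have hharm0 : 0 ≤ ∑ δ ∈ D, 1 / (δ : ℝ) := Finset.sum_nonneg fun _ _ => by positivity
  -- Type I part
  have hP1 : ∫ t in E, ‖DP (IO y (32 * y)) (fun k => (up D cp k : ℂ) * χ k) t‖ ^ 2 ≤
      y ^ 2 / Real.log N ^ T := by
    have h1 := part1 (c' := c') (A := 2 * C * Real.log N ^ (2 * b + 1) * y)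
      (K := 2 * (4 * b + 3 + T)) hN1 (min_le_right η₀ (c' / 4)) hL1 χ hE hEN hvol hA
      (continuous_DP (IO y (32 * y)) (fun k => (up D cp k : ℂ) * χ k)) (by
        intro t ht
        refine (type1 hc' hc'2 hC hZ hN1 hy χ hDm hcp ht).trans ?_
        have h2 : 0 ≤ io χ t + N ^ (-(c' / 4)) := add_nonneg (io_nonneg χ t) (by positivity)
        have h3 : (q : ℝ) ^ 2 ≤ Real.log N ^ (2 * b) := by
          calc (q : ℝ) ^ 2 ≤ (Real.log N ^ b) ^ 2 := by gcongr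
            _ = Real.log N ^ (2 * b) := by
                rw [← Real.rpow_natCast, ← Real.rpow_mul hL0.le]; congr 1; push_cast; ring
        calc C * q ^ 2 * y * (io χ t + N ^ (-(c' / 4))) * ∑ δ ∈ D, 1 / (δ : ℝ)
            ≤ C * Real.log N ^ (2 * b) * y * (io χ t + N ^ (-(c' / 4))) * (2 * Real.log N) := by
              gcongr
          _ = 2 * C * (Real.log N ^ (2 * b) * Real.log N ^ (1 : ℝ)) * y *
              (io χ t + N ^ (-(c' / 4))) := by rw [Real.rpow_one]; ring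
          _ = _ := by rw [← Real.rpow_add hL0])
    refine h1.trans ?_
    have h4 : (Real.log N ^ (2 * b + 1)) ^ 2 = Real.log N ^ (4 * b + 2) := by
      rw [← Real.rpow_natCast, ← Real.rpow_mul hL0.le]; congr 1; push_cast; ring
    have h5 : Real.log N ^ (-(2 * (4 * b + 3 + T) / 2)) =
        Real.log N ^ (-(4 * b + 2)) * ((Real.log N)⁻¹ * Real.log N ^ (-T)) := by
      rw [← Real.rpow_neg_one (Real.log N), ← Real.rpow_add hL0, ← Real.rpow_add hL0]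
      congr 1; ring
    have h6 : Real.log N ^ (4 * b + 2) * Real.log N ^ (-(4 * b + 2)) = 1 := by
      rw [← Real.rpow_add hL0, add_neg_cancel, Real.rpow_zero]
    have h7 : 16 * C ^ 2 * (I0 * (Real.log N)⁻¹) ≤ 1 := by
      rw [← mul_assoc, ← div_eq_mul_inv, div_le_one hL0]
      exact e6
    have h8 : 16 * C ^ 2 * (Real.log N ^ (4 * b + 2) * Real.log N ^ T * N ^ (-(c' / 4))) ≤ 1 := by
      rw [← Real.rpow_add hL0, Real.rpow_neg hN0.le, ← mul_assoc, ← div_eq_mul_inv,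
        div_le_one (by positivity)]
      exact e7
    have h9 : Real.log N ^ T * Real.log N ^ (-T) = 1 := by
      rw [← Real.rpow_add hL0, add_neg_cancel, Real.rpow_zero]
    rw [mul_pow, mul_pow, h4, h5]
    have hLT : 0 < Real.log N ^ (-T) := by positivity
    have h10 : y ^ 2 / Real.log N ^ T = y ^ 2 * Real.log N ^ (-T) := by
      rw [Real.rpow_neg hL0.le, div_eq_mul_inv]
    rw [h10]
    have e : 2 * ((2 * C) ^ 2 * Real.log N ^ (4 * b + 2) * y ^ 2) *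
        (Real.log N ^ (-(4 * b + 2)) * ((Real.log N)⁻¹ * Real.log N ^ (-T)) * I0 +
          N ^ (-(c' / 4))) =
        y ^ 2 * Real.log N ^ (-T) * ((16 * C ^ 2 * (I0 * (Real.log N)⁻¹)) / 2 *
          (Real.log N ^ (4 * b + 2) * Real.log N ^ (-(4 * b + 2)))) +
        y ^ 2 * ((8 * C ^ 2 * (Real.log N ^ (4 * b + 2) * N ^ (-(c' / 4))))) := by ring
    rw [e, h6, mul_one]
    have h11 : 8 * C ^ 2 * (Real.log N ^ (4 * b + 2) * N ^ (-(c' / 4))) ≤
        Real.log N ^ (-T) / 2 := by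
      have h12 : 8 * C ^ 2 * (Real.log N ^ (4 * b + 2) * N ^ (-(c' / 4))) =
          (16 * C ^ 2 * (Real.log N ^ (4 * b + 2) * Real.log N ^ T * N ^ (-(c' / 4)))) / 2 *
            Real.log N ^ (-T) := by
        calc _ = 8 * C ^ 2 * (Real.log N ^ (4 * b + 2) * N ^ (-(c' / 4))) *
              (Real.log N ^ T * Real.log N ^ (-T)) := by rw [h9, mul_one]
          _ = _ := by ring
      rw [h12]
      nlinarith
    have hy2 : 0 < y ^ 2 := by positivity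
    have h13 : y ^ 2 * Real.log N ^ (-T) * ((16 * C ^ 2 * (I0 * (Real.log N)⁻¹)) / 2) ≤
        y ^ 2 * Real.log N ^ (-T) * (1 / 2) :=
      mul_le_mul_of_nonneg_left (by linarith) (by positivity)
    have h14 := mul_le_mul_of_nonneg_left h11 hy2.le
    linarith
  -- the error
  obtain ⟨M, hM⟩ : ∃ M, M = ⌊32 * y⌋₊ := ⟨_, rfl⟩
  have hMy : (M : ℝ) ≤ 32 * y := by rw [hM]; exact Nat.floor_le (by linarith)
  have hM1 : 1 ≤ M := by
    rw [hM, Nat.one_le_floor_iff]; linarith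
  have hlz : Real.log z = 5 * c * Real.log (Real.log N) := by
    rw [hz]
    unfold zz
    rw [Real.log_rpow hL0]
  have hlogL : Real.log (Real.log N) ≤ Real.log N := (Real.log_le_self hL0.le)
  have hlz1 : 1 + Real.log z ≤ (1 + 5 * c) * Real.log N := by
    rw [hlz]
    nlinarith
  have hLF : Real.exp (-(b' : ℝ)) ≤ Real.log N ^ (-F) := by
    rw [Real.rpow_def_of_pos hL0]
    refine Real.exp_le_exp.2 ?_
    have : F * Real.log (Real.log N) ≤ b' := by rw [hb']; exact Nat.le_ceil _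
    linarith
  have hWp1 : ∏ p ∈ PB z, (1 - 1 / (p : ℝ)) ≤ 1 := by
    refine Finset.prod_le_one (fun p hp => ?_) (fun p hp => ?_)
    · have h2 : (2 : ℝ) ≤ p := by
        exact_mod_cast (Finset.mem_filter.1 hp).2.two_le
      have : 1 / (p : ℝ) ≤ 1 := by
        rw [div_le_one (by linarith)]; linarith
      linarith
    · have : 0 ≤ 1 / (p : ℝ) := by positivity
      linarith
  have hsum1 : ∑ δ ∈ Dset z b', ce δ * (1 / (δ : ℝ)) ≤ C₁ * Real.log N ^ (-F) := by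
    have h1 := hden (fun p => 1 / (p : ℝ)) (by
      intro p hp
      have h2 : (2 : ℝ) ≤ p := by exact_mod_cast hp.two_le
      refine ⟨by positivity, le_rfl, ?_⟩
      show 1 / (p : ℝ) ≤ 2 / 3
      have h3 : 1 / (p : ℝ) ≤ 1 / 2 := one_div_le_one_div_of_le (by norm_num) h2
      linarith)
    have h2 : ∑ δ ∈ Dset z b', ce δ * ∏ p ∈ δ.primeFactors, (1 / (p : ℝ)) =
        ∑ δ ∈ Dset z b', ce δ * (1 / (δ : ℝ)) := by
      refine Finset.sum_congr rfl fun δ hδ => ?_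
      rw [inv_prod (mem_Dset hδ).2.2]
    rw [h2] at h1
    refine h1.trans ?_
    calc C₁ * Real.exp (-(b' : ℝ)) * ∏ p ∈ PB z, (1 - 1 / (p : ℝ))
        ≤ C₁ * Real.exp (-(b' : ℝ)) * 1 := mul_le_mul_of_nonneg_left hWp1 (by positivity)
      _ = C₁ * Real.exp (-(b' : ℝ)) := mul_one _
      _ ≤ _ := mul_le_mul_of_nonneg_left hLF hC₁.le
  have hX1 : (M : ℝ) * (∑ δ ∈ Dset z b', ce δ * (1 / (δ : ℝ))) +
      (Dset z b').card * (C₁ * (1 + Real.log z)) ≤ (32 * C₁ + 1) * y * Real.log N ^ (-F) := by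
    have h1 : (M : ℝ) * (∑ δ ∈ Dset z b', ce δ * (1 / (δ : ℝ))) ≤
        32 * y * (C₁ * Real.log N ^ (-F)) := by
      calc (M : ℝ) * (∑ δ ∈ Dset z b', ce δ * (1 / (δ : ℝ)))
          ≤ (M : ℝ) * (C₁ * Real.log N ^ (-F)) :=
            mul_le_mul_of_nonneg_left hsum1 (Nat.cast_nonneg M)
        _ ≤ _ := mul_le_mul_of_nonneg_right hMy (by positivity)
    have h2 : ((Dset z b').card : ℝ) * (C₁ * (1 + Real.log z)) ≤ y * Real.log N ^ (-F) := by
      rw [← hD]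
      have h3 : (0 : ℝ) ≤ C₁ * ((1 + 5 * c) * Real.log N) := by positivity
      calc (D.card : ℝ) * (C₁ * (1 + Real.log z))
          ≤ (D.card : ℝ) * (C₁ * ((1 + 5 * c) * Real.log N)) := by gcongr
        _ ≤ N ^ ((1 : ℝ) / 8) * (C₁ * ((1 + 5 * c) * Real.log N)) :=
            mul_le_mul_of_nonneg_right hDcard h3
        _ = N ^ ((1 : ℝ) / 8) * (C₁ * (1 + 5 * c) * Real.log N ^ (F + 1)) *
            Real.log N ^ (-F) := by
            have h5 : Real.log N ^ (F + 1) * Real.log N ^ (-F) = Real.log N := by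
              rw [← Real.rpow_add hL0]
              rw [show F + 1 + -F = 1 by ring, Real.rpow_one]
            calc _ = N ^ ((1 : ℝ) / 8) * (C₁ * (1 + 5 * c)) * Real.log N := by ring
              _ = N ^ ((1 : ℝ) / 8) * (C₁ * (1 + 5 * c)) *
                  (Real.log N ^ (F + 1) * Real.log N ^ (-F)) := by rw [h5]
              _ = _ := by ring
        _ ≤ N ^ ((1 : ℝ) / 8) * N ^ ((19 : ℝ) / 40) * Real.log N ^ (-F) := by gcongr
        _ = N ^ ((3 : ℝ) / 5) * Real.log N ^ (-F) := by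
            rw [← Real.rpow_add hN0]; norm_num
        _ ≤ y * Real.log N ^ (-F) := by gcongr
    nlinarith
  have hX3 : ∑ n ∈ Icc 1 M, (n.divisors.card : ℝ) ^ 3 ≤
      32 * 5 ^ 7 * y * Real.log N ^ (7 : ℝ) := by
    have h1 := (hDIV 3 M hM1).1
    refine h1.trans ?_
    have h2 : Real.log M ≤ Real.log (32 * y) := Real.log_le_log (by exact_mod_cast hM1) hMy
    have h3 : Real.log (32 * y) = 5 * Real.log 2 + Real.log y := by
      rw [Real.log_mul (by norm_num) hy0.ne', show (32 : ℝ) = 2 ^ 5 by norm_num, Real.log_pow]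
      push_cast
      ring
    have h4 : Real.log y ≤ Real.log N := Real.log_le_log hy0 hyN
    have h5 := Real.log_two_lt_d9
    have h6 : 1 + Real.log M ≤ 5 * Real.log N := by linarith
    have h7 : 0 ≤ Real.log M := Real.log_nonneg (by exact_mod_cast hM1)
    have h8 : (1 + Real.log M) ^ (2 ^ 3 - 1) ≤ (5 * Real.log N) ^ (2 ^ 3 - 1) :=
      pow_le_pow_left₀ (by linarith) h6 _
    calc (M : ℝ) * (1 + Real.log M) ^ (2 ^ 3 - 1) ≤ (32 * y) * (5 * Real.log N) ^ (2 ^ 3 - 1) :=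
          mul_le_mul hMy h8 (by positivity) (by positivity)
      _ = 32 * 5 ^ 7 * y * Real.log N ^ 7 := by norm_num; ring
      _ = _ := by norm_cast
  have hS : IO y (32 * y) ⊆ Ioc 0 M := by
    intro n hn
    unfold IO at hn
    rw [Finset.mem_Ioc] at hn ⊢
    rw [hM]
    exact ⟨by omega, hn.2⟩
  have hV := err_sq hcp hce hpt' hX1 hX3 hS
  obtain ⟨V, hVd⟩ : ∃ V, V = ∑ k ∈ IO y (32 * y), (up (Dset z b') cp k - rInd z k) ^ 2 :=
    ⟨_, rfl⟩
  rw [← hVd] at hV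
  have hV0 : 0 ≤ V := by rw [hVd]; exact Finset.sum_nonneg fun _ _ => sq_nonneg _
  have hCV : C₂ * Real.log N * V ≤ y * Real.log N ^ (-T) := by
    rw [← pow_le_pow_iff_left₀ (by positivity) (by positivity) two_ne_zero]
    have h1 : Real.log N ^ 2 * (Real.log N ^ (-F) * Real.log N ^ (7 : ℝ)) =
        (Real.log N)⁻¹ * (Real.log N ^ (-T)) ^ 2 := by
      rw [← Real.rpow_natCast, ← Real.rpow_natCast, ← Real.rpow_mul hL0.le,
        ← Real.rpow_neg_one (Real.log N), ← Real.rpow_add hL0, ← Real.rpow_add hL0,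
        ← Real.rpow_add hL0, hF]
      congr 1; push_cast; ring
    calc (C₂ * Real.log N * V) ^ 2 = C₂ ^ 2 * Real.log N ^ 2 * V ^ 2 := by ring
      _ ≤ C₂ ^ 2 * Real.log N ^ 2 * ((32 * C₁ + 1) * y * Real.log N ^ (-F) *
          (32 * 5 ^ 7 * y * Real.log N ^ (7 : ℝ))) :=
          mul_le_mul_of_nonneg_left hV (by positivity)
      _ = (C₂ ^ 2 * ((32 * C₁ + 1) * (32 * 5 ^ 7))) * y ^ 2 *
          (Real.log N ^ 2 * (Real.log N ^ (-F) * Real.log N ^ (7 : ℝ))) := by ring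
      _ = (C₂ ^ 2 * ((32 * C₁ + 1) * (32 * 5 ^ 7))) * (Real.log N)⁻¹ *
          (y * Real.log N ^ (-T)) ^ 2 := by rw [h1]; ring
      _ ≤ 1 * (y * Real.log N ^ (-T)) ^ 2 := by
          refine mul_le_mul_of_nonneg_right ?_ (by positivity)
          rw [← div_eq_mul_inv, div_le_one hL0]
          exact e5
      _ = _ := one_mul _
  have hP2 : ∫ t in E, ‖DP (IO y (32 * y))
      (fun k => ((up D cp k - rInd z k : ℝ) : ℂ) * χ k) t‖ ^ 2 ≤ y ^ 2 / Real.log N ^ T := by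
    have h1 := hH N y (IO y (32 * y)) (fun k => ((up D cp k - rInd z k : ℝ) : ℂ) * χ k) E e2
      (le_trans (Real.rpow_le_rpow_of_exponent_le hN1 (by norm_num)) hy) (by linarith) (by
        intro n hn
        rw [mem_IO hy0.le (by positivity)] at hn ⊢
        exact ⟨hn.1, by linarith [hn.2]⟩) hE hEN hvol₀
    refine h1.trans ?_
    have h2 : ∑ n ∈ IO y (32 * y), ‖((up D cp n - rInd z n : ℝ) : ℂ) * χ n‖ ^ 2 ≤ V := by
      rw [hVd, ← hD]
      refine Finset.sum_le_sum fun n _ => ?_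
      rw [norm_mul, Complex.norm_real, Real.norm_eq_abs, mul_pow, sq_abs]
      have h3 : ‖χ (n : ZMod q)‖ ^ 2 ≤ 1 := by
        have h4 := DirichletCharacter.norm_le_one χ (n : ZMod q)
        exact pow_le_one₀ (norm_nonneg _) h4
      have h5 : 0 ≤ (up D cp n - rInd z n) ^ 2 := sq_nonneg _
      calc (up D cp n - rInd z n) ^ 2 * ‖χ (n : ZMod q)‖ ^ 2
          ≤ (up D cp n - rInd z n) ^ 2 * 1 := mul_le_mul_of_nonneg_left h3 h5
        _ = _ := mul_one _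
    calc C₂ * y * Real.log N * ∑ n ∈ IO y (32 * y), ‖((up D cp n - rInd z n : ℝ) : ℂ) * χ n‖ ^ 2
        ≤ C₂ * y * Real.log N * V := mul_le_mul_of_nonneg_left h2 (by positivity)
      _ = y * (C₂ * Real.log N * V) := by ring
      _ ≤ y * (y * Real.log N ^ (-T)) := mul_le_mul_of_nonneg_left hCV hy0.le
      _ = _ := by rw [Real.rpow_neg hL0.le, div_eq_mul_inv]; ring
  -- together
  obtain ⟨κ, hκ⟩ : ∃ κ, κ = 1 / (2 * Real.log N * Wp (zz N c)) := ⟨_, rfl⟩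
  have hW := hNum.hW
  have hWp0 : 0 < Wp (zz N c) := by
    by_contra hcon
    have : Wp (zz N c) * (Real.log N / 4) ≤ 0 :=
      mul_nonpos_of_nonpos_of_nonneg (not_lt.1 hcon) (by positivity)
    linarith
  have hκ0 : 0 ≤ κ := by rw [hκ]; positivity
  have hκ1 : κ ≤ 1 / 8 := by
    rw [hκ, div_le_div_iff₀ (by positivity) (by norm_num)]
    linarith
  have hw1 : ∀ k, w1 N c k = κ * rInd z k := by
    intro k
    unfold w1
    rw [hκ, ← hz]
    ring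
  exact combine hE hEN (continuous_DP _ _) (continuous_DP _ _) (continuous_DP _ _)
    (fun t => model_split χ (IO y (32 * y)) hκ0 hκ1 hw1 t) hP1 hP2

theorem specWPO (hZSC : SpecZSC) (hHMJ : SpecHMJ) : SpecWPO := specWPO' specDIV hZSC hHMJ

end

end Pool.Agent.Lib.MP3efbeb.LG
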