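import Pool.Agent.Lib.MP_3efbeb_nt.LG.SpecC

/-!
# ZSC: sums of `χ(n) n^(it)`
-/

set_option autoImplicit false

namespace Pool.Agent.Lib.MP3efbeb.LG

open Finset MeasureTheory

noncomputable section

namespace ZSCM

/-- the integral of `u^(it)` -/
theorem norm_integral (y y' t : ℝ) (hy : 1 ≤ y) (hyy : y ≤ y') :
    ‖∫ u in y..y', Complex.exp ((t * Real.log u : ℝ) * Complex.I)‖ ≤ 2 * (y + y') / (1 + |t|) := by
  have hden : (1 + t * Complex.I : ℂ) ≠ 0 := by
    intro h
    have := congrArg Complex.re h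
    simp at this
  have hpos : ∀ u ∈ Set.uIcc y y', 0 < u := by
    intro u hu
    rw [Set.uIcc_of_le hyy] at hu
    linarith [hu.1]
  have hderiv : ∀ u ∈ Set.uIcc y y',
      HasDerivAt (fun u : ℝ => (u : ℂ) * Complex.exp ((t * Real.log u : ℝ) * Complex.I) /
        (1 + t * Complex.I)) (Complex.exp ((t * Real.log u : ℝ) * Complex.I)) u := by
    intro u hu
    have hu0 := hpos u hu
    have h1 : HasDerivAt (fun u : ℝ => (u : ℂ)) 1 u := by
      have := (hasDerivAt_id u).ofReal_comp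
      simpa using this
    have h2 : HasDerivAt (fun u : ℝ => ((t * Real.log u : ℝ) : ℂ)) ((t * u⁻¹ : ℝ) : ℂ) u :=
      ((Real.hasDerivAt_log hu0.ne').const_mul t).ofReal_comp
    have h3 : HasDerivAt (fun u : ℝ => Complex.exp ((t * Real.log u : ℝ) * Complex.I))
        (Complex.exp ((t * Real.log u : ℝ) * Complex.I) * (((t * u⁻¹ : ℝ) : ℂ) * Complex.I)) u :=
      (h2.mul_const Complex.I).cexp
    have h4 := (h1.mul h3).div_const (1 + t * Complex.I)
    refine h4.congr_deriv ?_
    have hu1 : (u : ℂ) ≠ 0 := by exact_mod_cast hu0.ne'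
    rw [div_eq_iff hden]
    push_cast
    field_simp
  have hcont : ContinuousOn (fun u : ℝ => Complex.exp ((t * Real.log u : ℝ) * Complex.I))
      (Set.uIcc y y') := by
    apply Continuous.comp_continuousOn Complex.continuous_exp
    apply ContinuousOn.mul _ continuousOn_const
    apply Complex.continuous_ofReal.comp_continuousOn
    apply ContinuousOn.mul continuousOn_const
    exact Real.continuousOn_log.mono fun u hu => (hpos u hu).ne'
  rw [intervalIntegral.integral_eq_sub_of_hasDerivAt hderiv hcont.intervalIntegrable]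
  have hn : ∀ u : ℝ, 0 ≤ u → ‖(u : ℂ) * Complex.exp ((t * Real.log u : ℝ) * Complex.I) /
      (1 + t * Complex.I)‖ ≤ 2 * u / (1 + |t|) := by
    intro u hu
    rw [norm_div, norm_mul, Complex.norm_exp_ofReal_mul_I, mul_one, Complex.norm_real,
      Real.norm_eq_abs, abs_of_nonneg hu]
    have h1 : (1 + |t|) / 2 ≤ ‖(1 + t * Complex.I : ℂ)‖ := by
      have e1 : |(1 + t * Complex.I : ℂ).re| ≤ ‖(1 + t * Complex.I : ℂ)‖ :=
        Complex.abs_re_le_norm _
      have e2 : |(1 + t * Complex.I : ℂ).im| ≤ ‖(1 + t * Complex.I : ℂ)‖ :=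
        Complex.abs_im_le_norm _
      simp only [Complex.add_re, Complex.one_re, Complex.mul_re, Complex.ofReal_re, Complex.I_re,
        mul_zero, Complex.ofReal_im, Complex.I_im, mul_one, sub_self, add_zero, abs_one,
        Complex.add_im, Complex.one_im, Complex.mul_im, zero_add] at e1 e2
      linarith
    have h2 : 0 < 1 + |t| := by positivity
    calc u / ‖(1 + t * Complex.I : ℂ)‖ ≤ u / ((1 + |t|) / 2) := by
          apply div_le_div_of_nonneg_left hu (by positivity) h1
      _ = 2 * u / (1 + |t|) := by field_simp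
  calc _ ≤ _ := norm_sub_le _ _
    _ ≤ 2 * y' / (1 + |t|) + 2 * y / (1 + |t|) :=
        add_le_add (hn y' (by linarith)) (hn y (by linarith))
    _ = _ := by ring

/-- comparison of two sets of `m` -/
theorem compare (X X' q a : ℕ) (hq : 0 < q) (ha : a < q) (g : ℕ → ℂ) (hg : ∀ m, ‖g m‖ ≤ 1) :
    ‖(∑ m ∈ (range (X' + 1)).filter (fun m => X < q * m + a ∧ q * m + a ≤ X'), g m) -
      ∑ m ∈ Ioc (X / q) (X' / q), g m‖ ≤ 2 := by
  set S := (range (X' + 1)).filter (fun m => X < q * m + a ∧ q * m + a ≤ X') with hS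
  set U := Ioc (X / q) (X' / q) with hU
  rw [← Finset.sum_sdiff_sub_sum_sdiff]
  have h1 : S \ U ⊆ {X / q} := by
    intro m hm
    rw [mem_sdiff, hS, hU, mem_filter, mem_Ioc, mem_range] at hm
    obtain ⟨⟨-, h1, h2⟩, h3⟩ := hm
    rw [mem_singleton]
    have h4 : m ≤ X' / q := by
      rw [Nat.le_div_iff_mul_le hq, mul_comm]
      omega
    have h5 : X / q ≤ m := by
      have h6 : X / q < m + 1 := by
        rw [Nat.div_lt_iff_lt_mul hq]
        have : (m + 1) * q = q * m + q := by ring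
        omega
      omega
    by_contra h7
    exact h3 ⟨by omega, h4⟩
  have h2 : U \ S ⊆ {X' / q} := by
    intro m hm
    rw [mem_sdiff, hS, hU, mem_filter, mem_Ioc, mem_range] at hm
    obtain ⟨⟨h1, h2⟩, h3⟩ := hm
    rw [mem_singleton]
    by_contra h4
    apply h3
    have h5 : X < q * m := by
      have := (Nat.div_lt_iff_lt_mul hq).1 h1
      rwa [mul_comm] at this
    have h6 : m + 1 ≤ X' / q := by omega
    rw [Nat.le_div_iff_mul_le hq] at h6
    have h7 : (m + 1) * q = q * m + q := by ring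
    have h8 : m ≤ q * m := Nat.le_mul_of_pos_left m hq
    refine ⟨by omega, by omega, by omega⟩
  have hb : ∀ (A : Finset ℕ) (r : ℕ), A ⊆ {r} → ‖∑ m ∈ A, g m‖ ≤ 1 := by
    intro A r hA
    calc ‖∑ m ∈ A, g m‖ ≤ ∑ m ∈ A, ‖g m‖ := norm_sum_le _ _
      _ ≤ ∑ m ∈ A, 1 := Finset.sum_le_sum fun m _ => hg m
      _ = (A.card : ℝ) := by simp
      _ ≤ (({r} : Finset ℕ).card : ℝ) := by exact_mod_cast card_le_card hA
      _ = 1 := by simp
  calc _ ≤ ‖∑ m ∈ S \ U, g m‖ + ‖∑ m ∈ U \ S, g m‖ := norm_sub_le _ _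
    _ ≤ 1 + 1 := add_le_add (hb _ _ h1) (hb _ _ h2)
    _ = 2 := by norm_num

/-- splitting a sum into residue classes -/
theorem split (X X' q : ℕ) (hq : 0 < q) (f : ℕ → ℂ) :
    ∑ n ∈ Ioc X X', f n = ∑ a ∈ range q,
      ∑ m ∈ (range (X' + 1)).filter (fun m => X < q * m + a ∧ q * m + a ≤ X'), f (q * m + a) := by
  rw [← Finset.sum_fiberwise_of_maps_to (s := Ioc X X') (t := range q) (g := fun n => n % q)
    (fun n _ => mem_range.2 (Nat.mod_lt n hq))]
  refine Finset.sum_congr rfl fun a ha => ?_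
  rw [mem_range] at ha
  refine Finset.sum_nbij' (fun n => n / q) (fun m => q * m + a) ?_ ?_ ?_ ?_ ?_
  · intro n hn
    rw [mem_filter, mem_Ioc] at hn
    obtain ⟨⟨h1, h2⟩, h3⟩ := hn
    have h4 : q * (n / q) + a = n := by rw [← h3]; exact Nat.div_add_mod n q
    rw [mem_filter, mem_range]
    have h5 : n / q ≤ n := Nat.div_le_self n q
    refine ⟨by omega, ?_, ?_⟩ <;> rw [h4] <;> assumption
  · intro m hm
    rw [mem_filter, mem_range] at hm
    rw [mem_filter, mem_Ioc]
    refine ⟨hm.2, ?_⟩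
    rw [Nat.mul_add_mod, Nat.mod_eq_of_lt ha]
  · intro n hn
    rw [mem_filter, mem_Ioc] at hn
    obtain ⟨-, h3⟩ := hn
    rw [← h3]; exact Nat.div_add_mod n q
  · intro m hm
    rw [Nat.mul_add_div hq, Nat.div_eq_of_lt ha, add_zero]
  · intro n hn
    rw [mem_filter, mem_Ioc] at hn
    obtain ⟨-, h3⟩ := hn
    rw [← h3, Nat.div_add_mod n q]

theorem sum_range_zmod {N : ℕ} [NeZero N] (f : ZMod N → ℂ) :
    ∑ i ∈ range N, f (i : ZMod N) = ∑ a : ZMod N, f a := by
  refine sum_nbij' (fun i : ℕ => (i : ZMod N)) (fun a : ZMod N => a.val) ?_ ?_ ?_ ?_ ?_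
  · intro i _; exact mem_univ _
  · intro a _; exact mem_range.mpr a.val_lt
  · intro i hi; exact ZMod.val_cast_of_lt (mem_range.mp hi)
  · intro a _; exact ZMod.natCast_zmod_val a
  · intro i _; rfl

end ZSCM

open ZSCM in
theorem specZSC (hZSK : SpecZSK) : SpecZSC := by
  intro B hB
  obtain ⟨c, C, hc0, hc1, hC, H⟩ := hZSK (2 * B) (by omega)
  refine ⟨c, C + 200, hc0, hc1, by linarith, ?_⟩
  intro x x' t q _ χ hx hxx hx64 ht
  have hq0 : 0 < q := Nat.pos_of_ne_zero (NeZero.ne q)
  have hqr : (1 : ℝ) ≤ q := by exact_mod_cast hq0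
  have hx0 : 0 < x := by linarith
  have hxc : 1 ≤ x ^ (1 - c) := Real.one_le_rpow hx (by linarith)
  have hq2 : (1 : ℝ) ≤ (q : ℝ) ^ 2 := by nlinarith
  have hchi : ∀ n : ℕ, ‖χ (n : ZMod q)‖ ≤ 1 := fun n => DirichletCharacter.norm_le_one χ n
  have hnit : ∀ n : ℕ, ‖nit n t‖ = 1 := fun n => by
    unfold nit
    exact Complex.norm_exp_ofReal_mul_I _
  have hterm : ∀ n : ℕ, ‖χ (n : ZMod q) * nit n t‖ ≤ 1 := fun n => by
    rw [norm_mul, hnit, mul_one]; exact hchi n
  -- the common bound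
  suffices hmain : ‖DP (IO x x') (fun n => χ n) t‖ ≤ (C + 200) * q ^ 2 * x ^ (1 - c) ∨
      (‖DP (IO x x') (fun n => χ n) t‖ ≤
        (C + 200) * q ^ 2 * (x / (1 + |t|) + x ^ (1 - c)) ∧ χ = 1) by
    by_cases hχ : χ = 1
    · right
      refine ⟨?_, hχ⟩
      rcases hmain with h | h
      · refine h.trans ?_
        have h1 : 0 ≤ x / (1 + |t|) := by positivity
        have h2 : 0 ≤ (C + 200) * (q : ℝ) ^ 2 := by positivity
        exact mul_le_mul_of_nonneg_left (by linarith) h2
      · exact h.1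
    · left
      rcases hmain with h | h
      · exact ⟨h, hχ⟩
      · exact absurd h.2 hχ
  rcases lt_or_ge x ((q : ℝ) ^ 2) with hqx | hqx
  · -- trivial bound
    left
    have h1 : ‖DP (IO x x') (fun n => χ n) t‖ ≤ ⌊x'⌋₊ := by
      unfold DP IO
      calc _ ≤ ∑ n ∈ Ioc ⌊x⌋₊ ⌊x'⌋₊, ‖χ (n : ZMod q) * nit n t‖ := norm_sum_le _ _
        _ ≤ ∑ n ∈ Ioc ⌊x⌋₊ ⌊x'⌋₊, 1 := Finset.sum_le_sum fun n _ => hterm n
        _ = ((Ioc ⌊x⌋₊ ⌊x'⌋₊).card : ℝ) := by simp
        _ ≤ _ := by
          rw [Nat.card_Ioc]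
          exact_mod_cast Nat.sub_le _ _
    have h2 : (⌊x'⌋₊ : ℝ) ≤ x' := Nat.floor_le (by linarith)
    have h3 : (C + 200) * (q : ℝ) ^ 2 * 1 ≤ (C + 200) * q ^ 2 * x ^ (1 - c) :=
      mul_le_mul_of_nonneg_left hxc (by positivity)
    nlinarith
  · -- the main case
    have hy1 : 1 ≤ x / q := by
      rw [le_div_iff₀ (by linarith)]
      nlinarith
    have hyy : x / q ≤ x' / q := by gcongr
    have hy64 : x' / q ≤ 64 * (x / q) := by
      rw [← mul_div_assoc]; gcongr
    have hyt : |t| ≤ (x / q) ^ (2 * B) := by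
      refine ht.trans ?_
      rw [pow_mul]
      refine pow_le_pow_left₀ hx0.le ?_ B
      rw [div_pow, le_div_iff₀ (by positivity)]
      nlinarith
    set I0 : ℂ := ∫ u in (x / q)..(x' / q), Complex.exp ((t * Real.log u : ℝ) * Complex.I) with hI0
    set e0 : ℂ := Complex.exp ((t * Real.log q : ℝ) * Complex.I) with he0
    have he0n : ‖e0‖ = 1 := Complex.norm_exp_ofReal_mul_I _
    set X := ⌊x⌋₊ with hX
    set X' := ⌊x'⌋₊ with hX'
    have hX1 : 1 ≤ X := by
      rw [hX]; exact Nat.le_floor (by simpa using hx)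
    -- one residue class
    have hclass : ∀ a ∈ range q,
        ‖(∑ m ∈ (range (X' + 1)).filter (fun m => X < q * m + a ∧ q * m + a ≤ X'),
          χ ((q * m + a : ℕ) : ZMod q) * nit (q * m + a) t) - χ (a : ZMod q) * e0 * I0‖ ≤
        C * x ^ (1 - c) + 2 := by
      intro a ha
      rw [mem_range] at ha
      have ha0 : (0 : ℝ) ≤ (a : ℝ) / q := by positivity
      have ha1 : (a : ℝ) / q ≤ 1 := by
        rw [div_le_one (by linarith)]
        exact_mod_cast ha.le
      have h1 := H (x / q) (x' / q) ((a : ℝ) / q) t hy1 hyy hy64 ha0 ha1 hyt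
      have h2 := compare X X' q a hq0 ha
        (fun m => Complex.exp ((t * Real.log ((m : ℝ) + (a : ℝ) / q) : ℝ) * Complex.I))
        (fun m => (Complex.norm_exp_ofReal_mul_I _).le)
      have h3 : IO (x / q) (x' / q) = Ioc (X / q) (X' / q) := by
        unfold IO
        rw [Nat.floor_div_natCast, Nat.floor_div_natCast]
      rw [h3] at h1
      have h4 : (∑ m ∈ (range (X' + 1)).filter (fun m => X < q * m + a ∧ q * m + a ≤ X'),
          χ ((q * m + a : ℕ) : ZMod q) * nit (q * m + a) t) =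
          χ (a : ZMod q) * e0 *
            ∑ m ∈ (range (X' + 1)).filter (fun m => X < q * m + a ∧ q * m + a ≤ X'),
              Complex.exp ((t * Real.log ((m : ℝ) + (a : ℝ) / q) : ℝ) * Complex.I) := by
        rw [Finset.mul_sum]
        refine Finset.sum_congr rfl fun m hm => ?_
        rw [mem_filter] at hm
        have hpos : (0 : ℝ) < (m : ℝ) + (a : ℝ) / q := by
          have h5 : 0 < q * m + a := by omega
          have h6 : (0 : ℝ) < (q : ℝ) * m + a := by exact_mod_cast h5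
          have h7 : (m : ℝ) + (a : ℝ) / q = ((q : ℝ) * m + a) / q := by
            field_simp
          rw [h7]
          positivity
        have e1 : ((q * m + a : ℕ) : ZMod q) = (a : ZMod q) := by
          push_cast
          rw [ZMod.natCast_self, zero_mul, zero_add]
        have e2 : ((q * m + a : ℕ) : ℝ) = q * ((m : ℝ) + (a : ℝ) / q) := by
          push_cast
          field_simp
        rw [e1, mul_assoc]
        congr 1
        unfold nit
        rw [e2, Real.log_mul (by linarith) hpos.ne', he0, ← Complex.exp_add]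
        congr 1
        push_cast
        ring
      rw [h4, ← mul_sub, norm_mul, norm_mul, he0n, mul_one]
      have h5 : ‖(∑ m ∈ (range (X' + 1)).filter (fun m => X < q * m + a ∧ q * m + a ≤ X'),
          Complex.exp ((t * Real.log ((m : ℝ) + (a : ℝ) / q) : ℝ) * Complex.I)) - I0‖ ≤
          C * x ^ (1 - c) + 2 := by
        have h6 : (x / q) ^ (1 - c) ≤ x ^ (1 - c) :=
          Real.rpow_le_rpow (by positivity) (div_le_self hx0.le hqr) (by linarith)
        have h7 : C * (x / q) ^ (1 - c) ≤ C * x ^ (1 - c) := mul_le_mul_of_nonneg_left h6 hC.le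
        have h8 := norm_sub_le_norm_sub_add_norm_sub
          (∑ m ∈ (range (X' + 1)).filter (fun m => X < q * m + a ∧ q * m + a ≤ X'),
            Complex.exp ((t * Real.log ((m : ℝ) + (a : ℝ) / q) : ℝ) * Complex.I))
          (∑ m ∈ Ioc (X / q) (X' / q),
            Complex.exp ((t * Real.log ((m : ℝ) + (a : ℝ) / q) : ℝ) * Complex.I)) I0
        linarith
      calc ‖χ (a : ZMod q)‖ * _ ≤ 1 * _ := mul_le_mul_of_nonneg_right (hchi a) (norm_nonneg _)
        _ ≤ _ := by rw [one_mul]; exact h5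
    -- sum over the classes
    have hsum : ‖DP (IO x x') (fun n => χ n) t - (∑ a ∈ range q, χ (a : ZMod q)) * e0 * I0‖ ≤
        q * (C * x ^ (1 - c) + 2) := by
      have h1 : DP (IO x x') (fun n => χ n) t = ∑ a ∈ range q,
          ∑ m ∈ (range (X' + 1)).filter (fun m => X < q * m + a ∧ q * m + a ≤ X'),
            χ ((q * m + a : ℕ) : ZMod q) * nit (q * m + a) t :=
        split X X' q hq0 (fun n => χ (n : ZMod q) * nit n t)
      rw [h1, Finset.sum_mul, Finset.sum_mul, ← Finset.sum_sub_distrib]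
      calc _ ≤ ∑ a ∈ range q, (C * x ^ (1 - c) + 2) :=
            norm_sum_le_of_le _ hclass
        _ = _ := by rw [Finset.sum_const, card_range, nsmul_eq_mul]
    have hqq : (q : ℝ) ≤ (q : ℝ) ^ 2 := by nlinarith
    have hbd : (q : ℝ) * (C * x ^ (1 - c) + 2) ≤ (C + 2) * q ^ 2 * x ^ (1 - c) := by
      have h1 : C * x ^ (1 - c) + 2 ≤ (C + 2) * x ^ (1 - c) := by nlinarith
      have h2 : 0 ≤ (C + 2) * x ^ (1 - c) := by positivity
      calc (q : ℝ) * (C * x ^ (1 - c) + 2) ≤ q * ((C + 2) * x ^ (1 - c)) :=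
            mul_le_mul_of_nonneg_left h1 (by linarith)
        _ ≤ q ^ 2 * ((C + 2) * x ^ (1 - c)) := mul_le_mul_of_nonneg_right hqq h2
        _ = _ := by ring
    have hpc : 0 ≤ (q : ℝ) ^ 2 * x ^ (1 - c) := by positivity
    by_cases hχ : χ = 1
    · right
      refine ⟨?_, hχ⟩
      have h1 : ‖(∑ a ∈ range q, χ (a : ZMod q)) * e0 * I0‖ ≤ q * (130 * (x / q) / (1 + |t|)) := by
        rw [norm_mul, norm_mul, he0n, mul_one]
        have h2 : ‖∑ a ∈ range q, χ (a : ZMod q)‖ ≤ q := by
          calc _ ≤ ∑ a ∈ range q, (1 : ℝ) := norm_sum_le_of_le _ fun a _ => hchi a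
            _ = q := by simp
        have h3 : ‖I0‖ ≤ 130 * (x / q) / (1 + |t|) := by
          refine (norm_integral (x / q) (x' / q) t hy1 hyy).trans ?_
          have h30 : 0 < 1 + |t| := by positivity
          have h31 : 2 * (x / q + x' / q) ≤ 130 * (x / q) := by linarith
          exact div_le_div_of_nonneg_right h31 h30.le
        exact mul_le_mul h2 h3 (norm_nonneg _) (by linarith)
      have h4 : (q : ℝ) * (130 * (x / q) / (1 + |t|)) = 130 * (x / (1 + |t|)) := by
        have : 0 < 1 + |t| := by positivity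
        field_simp
      rw [h4] at h1
      have h5 : 130 * (x / (1 + |t|)) ≤ (C + 200) * q ^ 2 * (x / (1 + |t|)) := by
        have h6 : 0 ≤ x / (1 + |t|) := by positivity
        refine mul_le_mul_of_nonneg_right ?_ h6
        nlinarith
      have h7 := norm_le_norm_sub_add (DP (IO x x') (fun n => χ n) t)
        ((∑ a ∈ range q, χ (a : ZMod q)) * e0 * I0)
      nlinarith
    · left
      have h0 : ∑ a ∈ range q, χ (a : ZMod q) = 0 := by
        rw [sum_range_zmod (fun a => χ a)]
        exact MulChar.sum_eq_zero_of_ne_one hχ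
      rw [h0, zero_mul, zero_mul, sub_zero] at hsum
      nlinarith

end

end Pool.Agent.Lib.MP3efbeb.LG
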