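import Pool.Agent.Lib.MP_3efbeb_nt.LG.SpecA
import Pool.Agent.Lib.MP_5b6025_nt.Avg.KL

/-!
# ZSM: sums of `n ^ (it)`
-/

set_option autoImplicit false

namespace Pool.Agent.Lib.MP3efbeb.LG

open Finset MeasureTheory

noncomputable section

namespace ZSMM

theorem norm_nit (n : ℕ) (t : ℝ) : ‖nit n t‖ = 1 := by
  rw [nit]; exact Complex.norm_exp_ofReal_mul_I _

theorem norm_exp_sub_exp (α β : ℝ) :
    ‖Complex.exp ((α : ℂ) * Complex.I) - Complex.exp ((β : ℂ) * Complex.I)‖ ≤ |α - β| := by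
  have h1 : Complex.exp ((α : ℂ) * Complex.I) - Complex.exp ((β : ℂ) * Complex.I) =
      Complex.exp ((β : ℂ) * Complex.I) * (Complex.exp (Complex.I * ((α - β : ℝ) : ℂ)) - 1) := by
    rw [mul_sub, ← Complex.exp_add, mul_one]
    congr 2
    push_cast; ring
  rw [h1, norm_mul, Complex.norm_exp_ofReal_mul_I, one_mul]
  exact Real.norm_exp_I_mul_ofReal_sub_one_le

/-- the antiderivative of `u ^ (it)` -/
def Gf (t u : ℝ) : ℂ :=
  Complex.exp (((1 : ℂ) + t * Complex.I) * ((Real.log u : ℝ) : ℂ)) / ((1 : ℂ) + t * Complex.I)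

theorem one_add_ne (t : ℝ) : (1 : ℂ) + t * Complex.I ≠ 0 := by
  intro h
  have := congrArg Complex.re h
  simp at this

theorem norm_one_add (t : ℝ) : (1 + |t|) / 2 ≤ ‖(1 : ℂ) + t * Complex.I‖ := by
  have h1 : |((1 : ℂ) + t * Complex.I).re| ≤ ‖(1 : ℂ) + t * Complex.I‖ := Complex.abs_re_le_norm _
  have h2 : |((1 : ℂ) + t * Complex.I).im| ≤ ‖(1 : ℂ) + t * Complex.I‖ := Complex.abs_im_le_norm _
  simp at h1 h2
  linarith

theorem norm_Gf {t u : ℝ} (hu : 0 < u) : ‖Gf t u‖ ≤ 2 * u / (1 + |t|) := by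
  have h1 : ‖Complex.exp (((1 : ℂ) + t * Complex.I) * ((Real.log u : ℝ) : ℂ))‖ = u := by
    rw [Complex.norm_exp]
    have : (((1 : ℂ) + t * Complex.I) * ((Real.log u : ℝ) : ℂ)).re = Real.log u := by simp
    rw [this, Real.exp_log hu]
  rw [Gf, norm_div, h1]
  have h2 := norm_one_add t
  have h3 : 0 < (1 + |t|) / 2 := by positivity
  calc u / ‖(1 : ℂ) + t * Complex.I‖ ≤ u / ((1 + |t|) / 2) := by gcongr
    _ = 2 * u / (1 + |t|) := by field_simp

theorem hasDerivAt_Gf {t u : ℝ} (hu : 0 < u) :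
    HasDerivAt (Gf t) (Complex.exp (((t * Real.log u : ℝ) : ℂ) * Complex.I)) u := by
  have h0 : HasDerivAt (fun u : ℝ => ((Real.log u : ℝ) : ℂ)) ((u⁻¹ : ℝ) : ℂ) u :=
    (Real.hasDerivAt_log hu.ne').ofReal_comp
  have h1 := ((h0.const_mul ((1 : ℂ) + t * Complex.I)).cexp).div_const ((1 : ℂ) + t * Complex.I)
  refine h1.congr_deriv ?_
  have h2 : Complex.exp (((1 : ℂ) + t * Complex.I) * ((Real.log u : ℝ) : ℂ)) =
      (u : ℂ) * Complex.exp (((t * Real.log u : ℝ) : ℂ) * Complex.I) := by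
    have h3 : ((1 : ℂ) + t * Complex.I) * ((Real.log u : ℝ) : ℂ) =
        ((Real.log u : ℝ) : ℂ) + ((t * Real.log u : ℝ) : ℂ) * Complex.I := by push_cast; ring
    rw [h3, Complex.exp_add, ← Complex.ofReal_exp, Real.exp_log hu]
  rw [h2]
  have hu' : (u : ℂ) ≠ 0 := by exact_mod_cast hu.ne'
  have ht := one_add_ne t
  rw [Complex.ofReal_inv]
  generalize (1 : ℂ) + t * Complex.I = z at ht ⊢
  field_simp

/-- one step of the comparison with the integral -/
theorem step_le (t : ℝ) {n : ℕ} (hn : 1 ≤ n) :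
    ‖nit (n + 1) t - (Gf t ((n : ℝ) + 1) - Gf t n)‖ ≤ |t| / n := by
  have hn0 : (0 : ℝ) < n := by exact_mod_cast hn
  set c : ℂ := nit (n + 1) t with hc
  have hderiv : ∀ u ∈ Set.Icc (n : ℝ) (n + 1), HasDerivWithinAt (fun u : ℝ => Gf t u - (u : ℂ) * c)
      (Complex.exp (((t * Real.log u : ℝ) : ℂ) * Complex.I) - c) (Set.Icc (n : ℝ) (n + 1)) u := by
    intro u hu
    have hu0 : 0 < u := lt_of_lt_of_le hn0 hu.1
    have h1 : HasDerivAt (fun u : ℝ => (u : ℂ) * c) (1 * c) u :=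
      (Complex.ofRealCLM.hasDerivAt (x := u)).mul_const c
    have h2 := (hasDerivAt_Gf (t := t) hu0).sub h1
    rw [one_mul] at h2
    exact h2.hasDerivWithinAt
  have hbound : ∀ u ∈ Set.Icc (n : ℝ) (n + 1),
      ‖Complex.exp (((t * Real.log u : ℝ) : ℂ) * Complex.I) - c‖ ≤ |t| / n := by
    intro u hu
    have hu0 : 0 < u := lt_of_lt_of_le hn0 hu.1
    rw [hc, nit]
    refine (norm_exp_sub_exp _ _).trans ?_
    have h1 : t * Real.log u - t * Real.log ((n + 1 : ℕ) : ℝ) =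
        t * (Real.log u - Real.log ((n + 1 : ℕ) : ℝ)) := by ring
    rw [h1, abs_mul, div_eq_mul_inv]
    apply mul_le_mul_of_nonneg_left _ (abs_nonneg t)
    push_cast
    have h2 : Real.log u ≤ Real.log ((n : ℝ) + 1) := Real.log_le_log hu0 hu.2
    have h3 : Real.log n ≤ Real.log u := Real.log_le_log hn0 hu.1
    rw [abs_of_nonpos (by linarith)]
    have h4 : Real.log ((n : ℝ) + 1) - Real.log n ≤ (n : ℝ)⁻¹ := by
      rw [← Real.log_div (by positivity) hn0.ne']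
      have h5 := Real.log_le_sub_one_of_pos (x := ((n : ℝ) + 1) / n) (by positivity)
      have h6 : ((n : ℝ) + 1) / n - 1 = (n : ℝ)⁻¹ := by field_simp; ring
      linarith
    linarith
  have h := (convex_Icc (n : ℝ) (n + 1)).norm_image_sub_le_of_norm_hasDerivWithin_le hderiv hbound
    (x := (n : ℝ)) (y := (n : ℝ) + 1) ⟨le_rfl, by linarith⟩ ⟨by linarith, le_rfl⟩
  have e : (Gf t ((n : ℝ) + 1) - (((n : ℝ) + 1 : ℝ) : ℂ) * c) - (Gf t n - ((n : ℝ) : ℂ) * c) =
      -(c - (Gf t ((n : ℝ) + 1) - Gf t n)) := by push_cast; ring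
  rw [e, norm_neg, add_sub_cancel_left, norm_one, mul_one] at h
  exact h

theorem sum_Ioc_eq {E : Type*} [AddCommMonoid E] (f : ℕ → E) (a M : ℕ) :
    ∑ n ∈ Ioc a (a + M), f n = ∑ i ∈ range M, f (a + i + 1) := by
  induction M with
  | zero => simp
  | succ M ih =>
    rw [Finset.sum_range_succ, ← ih, ← add_assoc, Finset.sum_Ioc_succ_top (by omega)]

/-- small `t` -/
theorem small (t : ℝ) {a M : ℕ} (ha : 1 ≤ a) :
    ‖∑ n ∈ Ioc a (a + M), nit n t‖ ≤ 2 * (2 * a + M) / (1 + |t|) + |t| * (M / a) := by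
  have ha0 : (0 : ℝ) < a := by exact_mod_cast ha
  rw [sum_Ioc_eq]
  have h1 : ∑ i ∈ range M, nit (a + i + 1) t =
      ∑ i ∈ range M, (nit (a + i + 1) t - (Gf t (((a + i : ℕ) : ℝ) + 1) - Gf t ((a + i : ℕ) : ℝ))) +
      (Gf t ((a + M : ℕ) : ℝ) - Gf t ((a + 0 : ℕ) : ℝ)) := by
    rw [Finset.sum_sub_distrib]
    have h2 : ∑ i ∈ range M, (Gf t (((a + i : ℕ) : ℝ) + 1) - Gf t ((a + i : ℕ) : ℝ)) =
        Gf t ((a + M : ℕ) : ℝ) - Gf t ((a + 0 : ℕ) : ℝ) := by
      rw [← Finset.sum_range_sub (fun i => Gf t ((a + i : ℕ) : ℝ)) M]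
      apply Finset.sum_congr rfl
      intro i _
      congr 2
      push_cast; ring
    rw [h2]; ring
  rw [h1]
  refine (norm_add_le _ _).trans ?_
  have h3 : ‖∑ i ∈ range M, (nit (a + i + 1) t -
      (Gf t (((a + i : ℕ) : ℝ) + 1) - Gf t ((a + i : ℕ) : ℝ)))‖ ≤ |t| * (M / a) := by
    refine (norm_sum_le _ _).trans ?_
    have h4 : ∀ i ∈ range M, ‖nit (a + i + 1) t -
        (Gf t (((a + i : ℕ) : ℝ) + 1) - Gf t ((a + i : ℕ) : ℝ))‖ ≤ |t| / a := by
      intro i _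
      refine (step_le t (n := a + i) (by omega)).trans ?_
      gcongr
      omega
    refine (Finset.sum_le_card_nsmul _ _ _ h4).trans ?_
    rw [Finset.card_range, nsmul_eq_mul]
    apply le_of_eq
    field_simp
  have h5 : ‖Gf t ((a + M : ℕ) : ℝ) - Gf t ((a + 0 : ℕ) : ℝ)‖ ≤ 2 * (2 * a + M) / (1 + |t|) := by
    refine (norm_sub_le _ _).trans ?_
    have h6 := norm_Gf (t := t) (u := ((a + M : ℕ) : ℝ)) (by push_cast; positivity)
    have h7 := norm_Gf (t := t) (u := ((a + 0 : ℕ) : ℝ)) (by push_cast; positivity)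
    refine (add_le_add h6 h7).trans (le_of_eq ?_)
    push_cast
    ring
  linarith

open Pool.Agent.Lib.MP_5b6025_nt in
/-- large `t > 0` -/
theorem large {t : ℝ} {a M : ℕ} {X : ℝ} {K : ℝ} (hK : 1 ≤ K) (ht : 0 < t) (hX : 1 ≤ X)
    (ha : X ≤ a + 1) (haM : (a : ℝ) + M ≤ K * X) :
    ‖∑ n ∈ Ioc a (a + M), nit n t‖ ≤ 1 + (K * t / X + 2) * (8 * K * X / √t + 1) := by
  have hpi := Real.pi_pos
  have hX0 : 0 < X := by linarith
  have hK0 : 0 < K := by linarith
  set lam : ℝ := t / (2 * Real.pi) / (K * X) ^ 2 with hlam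
  have hlam0 : 0 < lam := by positivity
  set f : ℕ → ℝ := fun i => -(t / (2 * Real.pi)) * Real.log (((a + i + 1 : ℕ) : ℝ)) with hf
  have hfd : ∀ n, n + 2 < M → lam ≤ fd 2 f n ∧ fd 2 f n ≤ K ^ 2 * lam := by
    intro n hn
    set c : ℝ := ((a + n + 1 : ℕ) : ℝ) with hc
    have hc1 : X ≤ c := by
      rw [hc]; push_cast
      have : (0 : ℝ) ≤ n := Nat.cast_nonneg n
      linarith
    have hc0 : 0 < c := by linarith
    have hc2 : c + 1 ≤ K * X := by
      have h1 : ((a + n + 2 : ℕ) : ℝ) ≤ ((a + M : ℕ) : ℝ) := by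
        exact_mod_cast (by omega : a + n + 2 ≤ a + M)
      push_cast at h1
      rw [hc]; push_cast
      linarith
    have e1 : fd 2 f n = t / (2 * Real.pi) * Real.log ((c + 1) ^ 2 / (c * (c + 2))) := by
      have e2 : ((a + (n + 1) + 1 : ℕ) : ℝ) = c + 1 := by rw [hc]; push_cast; ring
      have e3 : ((a + (n + 1 + 1) + 1 : ℕ) : ℝ) = c + 2 := by rw [hc]; push_cast; ring
      rw [Real.log_div (by positivity) (by positivity), Real.log_pow,
        Real.log_mul (by positivity) (by positivity)]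
      simp only [fd, hf]
      rw [e2, e3, ← hc]
      push_cast
      ring
    have e4 : (c + 1) ^ 2 / (c * (c + 2)) = 1 + 1 / (c * (c + 2)) := by field_simp; ring
    have hpos : 0 < t / (2 * Real.pi) := by positivity
    have e5 : 1 / (c * (c + 2)) ≤ 1 / X ^ 2 := by
      apply one_div_le_one_div_of_le (by positivity)
      nlinarith
    have e6 : Real.log ((c + 1) ^ 2 / (c * (c + 2))) ≤ 1 / X ^ 2 := by
      have h1 := Real.log_le_sub_one_of_pos (x := (c + 1) ^ 2 / (c * (c + 2))) (by positivity)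
      rw [e4] at h1 ⊢
      linarith
    have e7 : 1 / (K * X) ^ 2 ≤ Real.log ((c + 1) ^ 2 / (c * (c + 2))) := by
      have h1 := Real.one_sub_inv_le_log_of_pos (x := (c + 1) ^ 2 / (c * (c + 2))) (by positivity)
      have h2 : 1 - ((c + 1) ^ 2 / (c * (c + 2)))⁻¹ = 1 / (c + 1) ^ 2 := by field_simp; ring
      rw [h2] at h1
      refine le_trans ?_ h1
      apply one_div_le_one_div_of_le (by positivity)
      have : 0 < c + 1 := by linarith
      nlinarith
    rw [e1]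
    constructor
    · rw [hlam]
      calc t / (2 * Real.pi) / (K * X) ^ 2 = t / (2 * Real.pi) * (1 / (K * X) ^ 2) := by ring
        _ ≤ _ := by gcongr
    · rw [hlam]
      calc t / (2 * Real.pi) * Real.log ((c + 1) ^ 2 / (c * (c + 2)))
          ≤ t / (2 * Real.pi) * (1 / X ^ 2) := by gcongr
        _ = K ^ 2 * (t / (2 * Real.pi) / (K * X) ^ 2) := by field_simp
  have h2 := second_difference (f := f) (M := M) hlam0 (R := K ^ 2) (by nlinarith) hfd
  have h3 : ‖∑ n ∈ range M, Pool.Agent.Lib.MP_5b6025_nt.ee (f n)‖ = ‖∑ n ∈ Ioc a (a + M), nit n t‖ := by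
    rw [sum_Ioc_eq, ← Complex.norm_conj (∑ i ∈ range M, nit (a + i + 1) t), map_sum]
    congr 1
    apply Finset.sum_congr rfl
    intro i _
    rw [nit, ← Complex.exp_conj, map_mul, Complex.conj_ofReal, Complex.conj_I,
      Pool.Agent.Lib.MP_5b6025_nt.ee]
    congr 1
    simp only [hf]
    push_cast
    have : (Real.pi : ℂ) ≠ 0 := by exact_mod_cast hpi.ne'
    field_simp
  rw [h3] at h2
  refine h2.trans ?_
  have hM0 : (0 : ℝ) ≤ M := Nat.cast_nonneg M
  have hMX : (M : ℝ) ≤ K * X := by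
    have : (0 : ℝ) ≤ a := Nat.cast_nonneg a
    linarith
  have h4 : K ^ 2 * lam * M ≤ K * t / X := by
    have h5 : K ^ 2 * lam = t / (2 * Real.pi) / X ^ 2 := by rw [hlam]; field_simp
    rw [h5]
    have h6 : t / (2 * Real.pi) ≤ t := by
      rw [div_le_iff₀ (by positivity)]
      nlinarith [Real.pi_gt_three]
    calc t / (2 * Real.pi) / X ^ 2 * M ≤ t / X ^ 2 * (K * X) := by gcongr
      _ = K * t / X := by field_simp
  have h7 : 3 / √lam ≤ 8 * K * X / √t := by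
    have h8 : √lam = √(t / (2 * Real.pi)) / (K * X) := by
      rw [hlam, Real.sqrt_div (by positivity), Real.sqrt_sq (by positivity)]
    have h9 : √t / (8 / 3) ≤ √(t / (2 * Real.pi)) := by
      rw [Real.sqrt_div ht.le]
      have h10 : √(2 * Real.pi) ≤ 8 / 3 := by
        rw [Real.sqrt_le_left (by norm_num)]
        nlinarith [Real.pi_lt_d2]
      have h11 : 0 < √(2 * Real.pi) := by positivity
      gcongr
    have h12 : 0 < √t := Real.sqrt_pos.2 ht
    rw [h8, div_div_eq_mul_div, div_le_div_iff₀ (by positivity) h12]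
    calc 3 * (K * X) * √t = 8 * K * X * (√t / (8 / 3)) := by ring
      _ ≤ 8 * K * X * √(t / (2 * Real.pi)) := by gcongr
  have h13 : 0 ≤ 3 / √lam := by positivity
  gcongr

theorem nit_neg (n : ℕ) (t : ℝ) : nit n (-t) = (starRingEnd ℂ) (nit n t) := by
  rw [nit, nit, ← Complex.exp_conj, map_mul, Complex.conj_ofReal, Complex.conj_I]
  congr 1
  push_cast; ring

theorem norm_sum_abs (S : Finset ℕ) (t : ℝ) : ‖∑ n ∈ S, nit n t‖ = ‖∑ n ∈ S, nit n |t|‖ := by
  rcases abs_choice t with h | h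
  · rw [h]
  · rw [h]
    have : ∑ n ∈ S, nit n (-t) = (starRingEnd ℂ) (∑ n ∈ S, nit n t) := by
      rw [map_sum]
      exact Finset.sum_congr rfl fun n _ => nit_neg n t
    rw [this, Complex.norm_conj]

end ZSMM

open ZSMM in
theorem specZSM : SpecZSM := by
  intro K hK
  have hK1 : (1 : ℝ) ≤ K := by exact_mod_cast hK
  refine ⟨40 * K ^ 2, by positivity, ?_⟩
  intro x x' t hx hxx' hx' ht
  set a : ℕ := ⌊x⌋₊ with ha
  have ha1 : 1 ≤ a := (Nat.one_le_floor_iff x).2 hx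
  have ha1' : (1 : ℝ) ≤ a := by exact_mod_cast ha1
  have hax : (a : ℝ) ≤ x := Nat.floor_le (by linarith)
  have hxa : x < a + 1 := Nat.lt_floor_add_one x
  have hle : a ≤ ⌊x'⌋₊ := Nat.floor_le_floor hxx'
  obtain ⟨M, hM⟩ := Nat.exists_eq_add_of_le hle
  have haM : (a : ℝ) + M ≤ K * x := by
    have h1 : ((⌊x'⌋₊ : ℕ) : ℝ) ≤ x' := Nat.floor_le (by linarith)
    rw [hM] at h1
    push_cast at h1
    linarith
  have hDP : DP (IO x x') (fun _ => 1) t = ∑ n ∈ Ioc a (a + M), nit n t := by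
    rw [DP, IO, ← ha, hM]
    exact Finset.sum_congr rfl fun n _ => by rw [one_mul]
  rw [hDP]
  set y : ℝ := x ^ ((1 : ℝ) / 4) with hy
  have hx0 : 0 < x := by linarith
  have hy1 : 1 ≤ y := Real.one_le_rpow hx (by norm_num)
  have hy0 : 0 < y := by linarith
  have hxy : x = y ^ 4 := by
    rw [hy, ← Real.rpow_natCast, ← Real.rpow_mul hx0.le]; norm_num
  have hx34 : x ^ ((3 : ℝ) / 4) = y ^ 3 := by
    rw [hy, ← Real.rpow_natCast, ← Real.rpow_mul hx0.le]; norm_num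
  have hx54 : x ^ ((5 : ℝ) / 4) = y ^ 5 := by
    rw [hy, ← Real.rpow_natCast, ← Real.rpow_mul hx0.le]; norm_num
  rw [hx54] at ht
  rw [hx34]
  have hM0 : (0 : ℝ) ≤ M := Nat.cast_nonneg M
  have hq : 0 ≤ x / (1 + |t|) := by positivity
  rcases le_total |t| (y ^ 3) with h | h
  · -- small
    refine (small t ha1).trans ?_
    have h1 : (2 : ℝ) * (2 * a + M) / (1 + |t|) ≤ 4 * K * (x / (1 + |t|)) := by
      have g : (2 : ℝ) * (2 * a + M) ≤ 4 * K * x := by nlinarith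
      rw [← mul_div_assoc (4 * (K : ℝ)) x]
      exact div_le_div_of_nonneg_right g (by positivity)
    have h2 : (M : ℝ) / a ≤ 2 * K := by
      rw [div_le_iff₀ (by linarith)]
      nlinarith
    have h3 : |t| * (M / a) ≤ y ^ 3 * (2 * K) := by
      have h4 : 0 ≤ (M : ℝ) / a := by positivity
      exact mul_le_mul h h2 h4 (by positivity)
    have h5 : (K : ℝ) ≤ K ^ 2 := by nlinarith
    have hy3 : 0 ≤ y ^ 3 := by positivity
    nlinarith [mul_le_mul_of_nonneg_right h5 hq, mul_le_mul_of_nonneg_right h5 hy3, hq, hy3,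
      mul_nonneg (sq_nonneg (K : ℝ)) hq, mul_nonneg (sq_nonneg (K : ℝ)) hy3]
  · -- large
    have ht0 : 0 < |t| := lt_of_lt_of_le (by positivity) h
    rw [norm_sum_abs]
    refine (large hK1 ht0 hx hxa.le haM).trans ?_
    set T : ℝ := |t| with hT
    set s : ℝ := √T with hs
    have hs0 : 0 < s := Real.sqrt_pos.2 ht0
    have hss : s * s = T := Real.mul_self_sqrt ht0.le
    have hy5 : y ^ 5 ≤ y ^ 6 := pow_le_pow_right₀ hy1 (by norm_num)
    have hy2 : y ^ 2 ≤ y ^ 3 := pow_le_pow_right₀ hy1 (by norm_num)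
    have hy13 : y ≤ y ^ 3 := by
      calc y = y ^ 1 := (pow_one y).symm
        _ ≤ y ^ 3 := pow_le_pow_right₀ hy1 (by norm_num)
    have hy03 : 1 ≤ y ^ 3 := one_le_pow₀ hy1
    have g1 : s ≤ y ^ 3 := by
      rw [hs]
      apply Real.sqrt_le_iff.2 ⟨by positivity, ?_⟩
      calc T ≤ y ^ 5 := ht
        _ ≤ y ^ 6 := hy5
        _ = (y ^ 3) ^ 2 := by ring
    have g2 : y ≤ s := by
      rw [hs, Real.le_sqrt' hy0]
      exact hy2.trans h
    have g3 : T / x ≤ y ^ 3 := by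
      rw [div_le_iff₀ hx0, hxy]
      calc T ≤ y ^ 5 := ht
        _ ≤ y ^ 7 := pow_le_pow_right₀ hy1 (by norm_num)
        _ = y ^ 3 * y ^ 4 := by ring
    have g4 : x / s ≤ y ^ 3 := by
      rw [div_le_iff₀ hs0, hxy]
      calc y ^ 4 = y ^ 3 * y := by ring
        _ ≤ y ^ 3 * s := by gcongr
    have e1 : 1 + (K * T / x + 2) * (8 * K * x / s + 1) =
        3 + 8 * (K : ℝ) ^ 2 * s + K * (T / x) + 16 * K * (x / s) := by
      rw [← hss]
      field_simp
      ring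
    rw [e1]
    have h5 : (K : ℝ) ≤ K ^ 2 := by nlinarith
    have h6 : (1 : ℝ) ≤ K ^ 2 := by nlinarith
    have hy3 : 0 ≤ y ^ 3 := by positivity
    set Z : ℝ := (K : ℝ) ^ 2 * y ^ 3 with hZ
    have a1 : 8 * (K : ℝ) ^ 2 * s ≤ 8 * Z := by
      calc 8 * (K : ℝ) ^ 2 * s ≤ 8 * (K : ℝ) ^ 2 * y ^ 3 := by gcongr
        _ = 8 * Z := by rw [hZ]; ring
    have a2 : K * (T / x) ≤ Z := by
      calc (K : ℝ) * (T / x) ≤ K * y ^ 3 := by gcongr
        _ ≤ K ^ 2 * y ^ 3 := by gcongr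
    have a3 : 16 * K * (x / s) ≤ 16 * Z := by
      calc 16 * (K : ℝ) * (x / s) ≤ 16 * K * y ^ 3 := by gcongr
        _ ≤ 16 * K ^ 2 * y ^ 3 := by gcongr
        _ = 16 * Z := by rw [hZ]; ring
    have a4 : (1 : ℝ) ≤ Z := by
      calc (1 : ℝ) = 1 * 1 := by ring
        _ ≤ K ^ 2 * y ^ 3 := by gcongr
    have a6 : 0 ≤ (K : ℝ) ^ 2 * (x / (1 + T)) := by positivity
    have a7 : 40 * (K : ℝ) ^ 2 * (x / (1 + T) + y ^ 3) = 40 * ((K : ℝ) ^ 2 * (x / (1 + T))) + 40 * Z := by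
      rw [hZ]; ring
    rw [a7]
    linarith

end

end Pool.Agent.Lib.MP3efbeb.LG
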