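import Pool.Agent.Lib.MP_3efbeb_nt.LG.SpecC
import Pool.Agent.Lib.MP_3efbeb_nt.LG.ZSM
import Pool.Agent.Lib.MP_391708_nt.MR.VDC

/-!
# ZSK: sums of `(n + α) ^ (it)` with a power saving
-/

set_option autoImplicit false

namespace Pool.Agent.Lib.MP3efbeb.LG

open Finset MeasureTheory Filter Topology

noncomputable section

namespace ZSKM

open ZSMM (Gf norm_Gf hasDerivAt_Gf norm_exp_sub_exp sum_Ioc_eq)

/-- `u ^ (it)` -/
def g (t u : ℝ) : ℂ := Complex.exp ((t * Real.log u : ℝ) * Complex.I)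

lemma norm_g (t u : ℝ) : ‖g t u‖ = 1 := Complex.norm_exp_ofReal_mul_I _

lemma continuousOn_g (t : ℝ) : ContinuousOn (g t) (Set.Ioi 0) := by
  unfold g
  refine Complex.continuous_exp.comp_continuousOn (ContinuousOn.mul ?_ continuousOn_const)
  refine Complex.continuous_ofReal.comp_continuousOn (continuousOn_const.mul ?_)
  exact Real.continuousOn_log.mono fun u hu => (ne_of_gt hu : u ≠ 0)

lemma integral_g (t : ℝ) {p q : ℝ} (hp : 0 < p) (hpq : p ≤ q) :
    ∫ u in p..q, g t u = Gf t q - Gf t p := by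
  have hsub : Set.uIcc p q ⊆ Set.Ioi 0 := by
    rw [Set.uIcc_of_le hpq]
    exact fun u hu => lt_of_lt_of_le hp hu.1
  refine intervalIntegral.integral_eq_sub_of_hasDerivAt (fun u hu => hasDerivAt_Gf (hsub hu)) ?_
  exact ((continuousOn_g t).mono hsub).intervalIntegrable

lemma Gf_sub (t : ℝ) {p q : ℝ} (hp : 0 < p) (hpq : p ≤ q) : ‖Gf t q - Gf t p‖ ≤ q - p := by
  rw [← integral_g t hp hpq]
  have h := intervalIntegral.norm_integral_le_of_norm_le_const (a := p) (b := q) (f := g t) (C := 1)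
    (fun u _ => (norm_g t u).le)
  rwa [one_mul, abs_of_nonneg (by linarith)] at h

/-- one step of the comparison with the integral -/
theorem step_le (t : ℝ) {α : ℝ} (hα : 0 ≤ α) (hα1 : α ≤ 1) {n : ℕ} (hn : 1 ≤ n) :
    ‖g t ((n : ℝ) + 1 + α) - (Gf t ((n : ℝ) + 1) - Gf t n)‖ ≤ 2 * |t| / n := by
  have hn0 : (0 : ℝ) < n := by exact_mod_cast hn
  set c : ℂ := g t ((n : ℝ) + 1 + α) with hc
  have hderiv : ∀ u ∈ Set.Icc (n : ℝ) (n + 1), HasDerivWithinAt (fun u : ℝ => Gf t u - (u : ℂ) * c)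
      (g t u - c) (Set.Icc (n : ℝ) (n + 1)) u := by
    intro u hu
    have hu0 : 0 < u := lt_of_lt_of_le hn0 hu.1
    have h1 : HasDerivAt (fun u : ℝ => (u : ℂ) * c) (1 * c) u :=
      (Complex.ofRealCLM.hasDerivAt (x := u)).mul_const c
    have h2 := (hasDerivAt_Gf (t := t) hu0).sub h1
    rw [one_mul] at h2
    exact h2.hasDerivWithinAt
  have hbound : ∀ u ∈ Set.Icc (n : ℝ) (n + 1), ‖g t u - c‖ ≤ 2 * |t| / n := by
    intro u hu
    have hu0 : 0 < u := lt_of_lt_of_le hn0 hu.1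
    rw [hc, g, g]
    refine (norm_exp_sub_exp _ _).trans ?_
    have h1 : t * Real.log u - t * Real.log ((n : ℝ) + 1 + α) =
        t * (Real.log u - Real.log ((n : ℝ) + 1 + α)) := by ring
    rw [h1, abs_mul, mul_comm 2 |t|, mul_div_assoc]
    apply mul_le_mul_of_nonneg_left _ (abs_nonneg t)
    have h2 : Real.log u ≤ Real.log ((n : ℝ) + 1 + α) := Real.log_le_log hu0 (by linarith [hu.2])
    have h3 : Real.log n ≤ Real.log u := Real.log_le_log hn0 hu.1
    rw [abs_of_nonpos (by linarith)]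
    have h4 : Real.log ((n : ℝ) + 1 + α) - Real.log n ≤ 2 / n := by
      rw [← Real.log_div (by positivity) hn0.ne']
      have h5 := Real.log_le_sub_one_of_pos (x := ((n : ℝ) + 1 + α) / n) (by positivity)
      have h6 : ((n : ℝ) + 1 + α) / n - 1 = (1 + α) / n := by field_simp; ring
      have h7 : (1 + α) / n ≤ 2 / n := by gcongr; linarith
      linarith
    linarith
  have h := (convex_Icc (n : ℝ) (n + 1)).norm_image_sub_le_of_norm_hasDerivWithin_le hderiv hbound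
    (x := (n : ℝ)) (y := (n : ℝ) + 1) ⟨le_rfl, by linarith⟩ ⟨by linarith, le_rfl⟩
  have e : (Gf t ((n : ℝ) + 1) - (((n : ℝ) + 1 : ℝ) : ℂ) * c) - (Gf t n - ((n : ℝ) : ℂ) * c) =
      -(c - (Gf t ((n : ℝ) + 1) - Gf t n)) := by push_cast; ring
  rw [e, norm_neg, add_sub_cancel_left, norm_one, mul_one] at h
  exact h

/-- small `t` -/
theorem small (t : ℝ) {α : ℝ} (hα : 0 ≤ α) (hα1 : α ≤ 1) {a M : ℕ} (ha : 1 ≤ a) :
    ‖∑ i ∈ range M, g t (((a + i : ℕ) : ℝ) + 1 + α) - (Gf t ((a + M : ℕ) : ℝ) - Gf t a)‖ ≤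
      2 * |t| * (M / a) := by
  have ha0 : (0 : ℝ) < a := by exact_mod_cast ha
  have h2 : ∑ i ∈ range M, (Gf t (((a + i : ℕ) : ℝ) + 1) - Gf t ((a + i : ℕ) : ℝ)) =
      Gf t ((a + M : ℕ) : ℝ) - Gf t a := by
    have := Finset.sum_range_sub (fun i => Gf t ((a + i : ℕ) : ℝ)) M
    simp only [add_zero] at this
    rw [← this]
    apply Finset.sum_congr rfl
    intro i _
    congr 2
    push_cast; ring
  rw [← h2, ← Finset.sum_sub_distrib]
  refine (norm_sum_le _ _).trans ?_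
  have h4 : ∀ i ∈ range M, ‖g t (((a + i : ℕ) : ℝ) + 1 + α) -
      (Gf t (((a + i : ℕ) : ℝ) + 1) - Gf t ((a + i : ℕ) : ℝ))‖ ≤ 2 * |t| / a := by
    intro i _
    refine (step_le t hα hα1 (n := a + i) (by omega)).trans ?_
    gcongr
    omega
  refine (Finset.sum_le_card_nsmul _ _ _ h4).trans ?_
  rw [Finset.card_range, nsmul_eq_mul]
  apply le_of_eq
  field_simp

/-! ### The phase -/

/-- the logarithm, cut off smoothly below `1` -/
def sm (u : ℝ) : ℝ := Real.smoothTransition (2 * u - 1) * Real.log u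

lemma sm_eq {u : ℝ} (hu : 1 ≤ u) : sm u = Real.log u := by
  unfold sm
  rw [Real.smoothTransition.one_of_one_le (by linarith), one_mul]

lemma contDiff_sm (q : ℕ) : ContDiff ℝ q sm := by
  rw [contDiff_iff_contDiffAt]
  intro u
  by_cases hu : u = 0
  · have h : sm =ᶠ[𝓝 u] fun _ => (0 : ℝ) := by
      filter_upwards [Iio_mem_nhds (show u < 1 / 2 by rw [hu]; norm_num)] with v hv
      unfold sm
      have : v < 1 / 2 := hv
      rw [Real.smoothTransition.zero_of_nonpos (by linarith), zero_mul]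
    exact contDiffAt_const.congr_of_eventuallyEq h
  · apply ContDiffAt.mul
    · exact (Real.smoothTransition.contDiff.comp
        ((contDiff_const.mul contDiff_id).sub contDiff_const)).contDiffAt
    · exact Real.contDiffAt_log.2 hu

/-- the phase -/
def F (κ c s : ℝ) : ℝ := κ * sm (c + s)

lemma contDiff_F (κ c : ℝ) (q : ℕ) : ContDiff ℝ q (F κ c) := by
  unfold F
  exact contDiff_const.mul ((contDiff_sm q).comp (contDiff_const.add contDiff_id))

lemma iteratedDeriv_F (κ : ℝ) {c s : ℝ} (h : 1 < c + s) (n : ℕ) :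
    iteratedDeriv (n + 1) (F κ c) s = κ * (-1) ^ n * (n.factorial : ℝ) / (c + s) ^ (n + 1) := by
  have he : F κ c =ᶠ[𝓝 s] fun s => κ * Real.log (c + s) := by
    have e1 : ∀ᶠ s in 𝓝 s, 1 < c + s :=
      ((continuous_const.add continuous_id).continuousAt).eventually (lt_mem_nhds h)
    filter_upwards [e1] with s hs
    unfold F
    rw [sm_eq hs.le]
  rw [he.iteratedDeriv_eq, iteratedDeriv_const_mul_field]
  have h2 : iteratedDeriv (n + 1) (fun s : ℝ => Real.log (c + s)) s =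
      iteratedDeriv (n + 1) Real.log (c + s) := by
    rw [iteratedDeriv_comp_const_add]
  rw [h2, iteratedDeriv_succ', Real.deriv_log', iteratedDeriv_eq_iterate]
  have h3 := iter_deriv_inv (𝕜 := ℝ) n (c + s)
  rw [h3]
  have h5 : ((c + s) : ℝ) ^ (-1 - (n : ℤ)) = ((c + s) ^ (n + 1))⁻¹ := by
    rw [← zpow_natCast, ← zpow_neg]
    congr 1
    push_cast; ring
  rw [h5]
  ring

/-- the test for `x^(j-3/2) ≤ |t| ≤ x^(j-1/2)` -/
theorem big (j : ℕ) (hj : 2 ≤ j) : ∃ K : ℝ, 0 < K ∧ ∀ (x α t : ℝ) (a M : ℕ), 1 ≤ x → x ≤ a + 1 →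
    (a : ℝ) + M ≤ 64 * x → 1 ≤ a → 0 ≤ α → α ≤ 1 → x ^ ((j : ℝ) - 3 / 2) ≤ |t| →
    |t| ≤ x ^ ((j : ℝ) - 1 / 2) →
    ‖∑ i ∈ range M, g t (((a + i : ℕ) : ℝ) + 1 + α)‖ ≤ K * x ^ (1 - 1 / ((2 : ℝ) ^ j - 2) / 2) := by
  obtain ⟨C, hC, hV⟩ := Pool.Agent.Lib.MP391708.MR.specVDC j hj
  obtain ⟨n, rfl⟩ : ∃ n, j = n + 1 := ⟨j - 1, by omega⟩
  set j := n + 1 with hjn
  set R : ℝ := 66 ^ j * (n.factorial : ℝ) with hR
  have hfac : (1 : ℝ) ≤ (n.factorial : ℝ) := by exact_mod_cast n.factorial_pos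
  have h66 : (1 : ℝ) ≤ 66 ^ j := one_le_pow₀ (by norm_num)
  have hR1 : 1 ≤ R := by
    rw [hR]
    calc (1 : ℝ) = 1 * 1 := by norm_num
      _ ≤ _ := mul_le_mul h66 hfac (by norm_num) (by positivity)
  set k0 : ℝ := 1 / (7 * 66 ^ j) with hk0
  have hk0pos : 0 < k0 := by positivity
  have hk01 : k0 ≤ 1 := by
    rw [hk0, div_le_one (by positivity)]
    linarith
  refine ⟨C * R * (64 * (1 + k0⁻¹)), by positivity, ?_⟩
  intro x α t a M hx hxa haM ha hα hα1 ht1 ht2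
  have hx0 : 0 < x := by linarith
  rcases Nat.eq_zero_or_pos M with hM0 | hM
  · rw [hM0]
    simp only [Finset.range_zero, Finset.sum_empty, norm_zero]
    positivity
  -- the exponents
  set e : ℝ := 1 / ((2 : ℝ) ^ j - 2) with he
  have hjr : (4 : ℝ) ≤ 2 ^ j := by
    calc (4 : ℝ) = 2 ^ 2 := by norm_num
      _ ≤ 2 ^ j := pow_le_pow_right₀ (by norm_num) hj
  have h2j : (2 : ℝ) ^ j = 2 * 2 ^ (j - 1) := by
    rw [hjn, Nat.add_sub_cancel, pow_succ]; ring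
  have he0 : 0 < e := by
    rw [he]; exact div_pos one_pos (by linarith)
  have he1 : e ≤ 1 / 2 := by
    rw [he, div_le_div_iff₀ (by linarith) (by norm_num)]
    linarith
  set b : ℝ := 1 - 2 / (2 : ℝ) ^ (j - 1) with hb
  have h2j1 : (2 : ℝ) ≤ 2 ^ (j - 1) := by linarith
  have hb0 : 0 ≤ b := by
    rw [hb, sub_nonneg, div_le_one (by linarith)]
    exact h2j1
  have hb1 : b ≤ 1 := by
    rw [hb]
    have : 0 ≤ 2 / (2 : ℝ) ^ (j - 1) := by positivity
    linarith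
  have hbe : b + 3 / 2 * e ≤ 1 - e / 2 := by
    have h1 : 2 * e ≤ 2 / (2 : ℝ) ^ (j - 1) := by
      rw [he, ← mul_div_assoc, mul_one, div_le_div_iff₀ (by linarith) (by linarith)]
      linarith
    rw [hb]; linarith
  -- the phase
  set κ : ℝ := t / (2 * Real.pi) with hκ
  have hpi := Real.pi_pos
  have hpi3 := Real.pi_gt_three
  have hpi4 : Real.pi < 7 / 2 := by linarith [Real.pi_lt_d2]
  have hκabs : |κ| = |t| / (2 * Real.pi) := by
    rw [hκ, abs_div, abs_of_pos (by positivity : 0 < 2 * Real.pi)]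
  have hκ1 : |κ| ≤ x ^ ((j : ℝ) - 1 / 2) := by
    rw [hκabs]
    refine le_trans (div_le_self (abs_nonneg t) (by linarith)) ht2
  have hκ2 : x ^ ((j : ℝ) - 3 / 2) / 7 ≤ |κ| := by
    rw [hκabs]
    exact div_le_div₀ (abs_nonneg t) ht1 (by positivity) (by linarith)
  set c : ℝ := (a : ℝ) + 1 + α with hc
  have hc1 : x ≤ c := by linarith
  have hMr : (1 : ℝ) ≤ M := by exact_mod_cast hM
  have ha1 : (1 : ℝ) ≤ a := by exact_mod_cast ha
  have hM64 : (M : ℝ) ≤ 64 * x := by linarith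
  have hxj : (0 : ℝ) < x ^ j := by positivity
  set lb : ℝ := |κ| / (66 * x) ^ j with hlb
  have hκpos : 0 < |κ| := lt_of_lt_of_le (by positivity) hκ2
  have hlb0 : 0 < lb := by positivity
  have hlb1 : lb ≤ x ^ (-(1 : ℝ) / 2) := by
    have h1 : lb ≤ x ^ ((j : ℝ) - 1 / 2) / x ^ j := by
      rw [hlb]
      refine div_le_div₀ (by positivity) hκ1 hxj ?_
      exact pow_le_pow_left₀ hx0.le (by linarith) j
    refine h1.trans (le_of_eq ?_)
    rw [← Real.rpow_natCast x j, ← Real.rpow_sub hx0]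
    congr 1; ring
  have hlb2 : k0 * x ^ (-(3 : ℝ) / 2) ≤ lb := by
    have h1 : x ^ (-(3 : ℝ) / 2) = x ^ ((j : ℝ) - 3 / 2) / x ^ j := by
      rw [← Real.rpow_natCast x j, ← Real.rpow_sub hx0]
      congr 1; ring
    rw [h1, hlb, hk0, mul_pow]
    calc 1 / (7 * 66 ^ j) * (x ^ ((j : ℝ) - 3 / 2) / x ^ j) =
        (x ^ ((j : ℝ) - 3 / 2) / 7) / (66 ^ j * x ^ j) := by field_simp
      _ ≤ |κ| / (66 ^ j * x ^ j) := by gcongr
  have hlbone : lb ≤ 1 := hlb1.trans (Real.rpow_le_one_of_one_le_of_nonpos hx (by norm_num))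
  have hcs : ∀ s ∈ Set.Icc (0 : ℝ) M, x ≤ c + s ∧ c + s ≤ 66 * x := by
    intro s hs
    constructor
    · linarith [hs.1]
    · rw [hc]; linarith [hs.2]
  set w : ℝ := κ * (-1) ^ n with hw
  have hwabs : |w| = |κ| := by rw [hw, abs_mul, abs_pow, abs_neg, abs_one, one_pow, mul_one]
  have hval : ∀ s ∈ Set.Icc (0 : ℝ) M, iteratedDeriv j (F κ c) s =
      w * ((n.factorial : ℝ) / (c + s) ^ j) := by
    intro s hs
    have h1 : 1 < c + s := by rw [hc]; linarith [hs.1]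
    rw [hjn, iteratedDeriv_F κ h1 n, hw, mul_div_assoc]
  have hbd : ∀ s ∈ Set.Icc (0 : ℝ) M, lb ≤ |κ| * ((n.factorial : ℝ) / (c + s) ^ j) ∧
      |κ| * ((n.factorial : ℝ) / (c + s) ^ j) ≤ R * lb := by
    intro s hs
    obtain ⟨h1, h2⟩ := hcs s hs
    have h0 : 0 < c + s := by linarith
    constructor
    · rw [hlb, div_eq_mul_one_div]
      refine mul_le_mul_of_nonneg_left ?_ hκpos.le
      exact div_le_div₀ (by linarith) hfac (by positivity) (pow_le_pow_left₀ h0.le h2 j)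
    · have h3 : R * lb = |κ| * ((n.factorial : ℝ) / x ^ j) := by
        rw [hR, hlb, mul_pow]
        field_simp
      rw [h3]
      refine mul_le_mul_of_nonneg_left ?_ hκpos.le
      exact div_le_div_of_nonneg_left (by linarith) hxj (pow_le_pow_left₀ hx0.le h1 j)
  have hcase : ((∀ s ∈ Set.Icc (0 : ℝ) M, lb ≤ iteratedDeriv j (F κ c) s ∧
      iteratedDeriv j (F κ c) s ≤ R * lb) ∨
      (∀ s ∈ Set.Icc (0 : ℝ) M, lb ≤ -iteratedDeriv j (F κ c) s ∧
      -iteratedDeriv j (F κ c) s ≤ R * lb)) := by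
    rcases le_total 0 w with h | h
    · left
      intro s hs
      rw [hval s hs, ← abs_of_nonneg h, hwabs]
      exact hbd s hs
    · right
      intro s hs
      rw [hval s hs, ← neg_mul, ← abs_of_nonpos h, hwabs]
      exact hbd s hs
  have hres := hV M lb R (F κ c) hM hlb0 hlbone hR1 (contDiff_F κ c j) hcase
  have hsum : ∑ i ∈ range M, Complex.exp (2 * Real.pi * Complex.I * (F κ c i : ℂ)) =
      ∑ i ∈ range M, g t (((a + i : ℕ) : ℝ) + 1 + α) := by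
    refine Finset.sum_congr rfl (fun i _ => ?_)
    have hi : (0 : ℝ) ≤ i := Nat.cast_nonneg i
    have h1 : c + i = ((a + i : ℕ) : ℝ) + 1 + α := by rw [hc]; push_cast; ring
    have h2 : F κ c i = κ * Real.log (((a + i : ℕ) : ℝ) + 1 + α) := by
      rw [F, sm_eq (by rw [hc]; linarith), h1]
    have h3 : t = 2 * Real.pi * κ := by rw [hκ]; field_simp
    rw [g, h2]
    congr 1
    conv_rhs => rw [h3]
    push_cast
    ring
  rw [hsum] at hres
  have hexp3 : -(1 : ℝ) / (2 ^ j - 2) = -e := by rw [he]; ring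
  rw [hexp3] at hres
  refine hres.trans ?_
  -- the bounds
  have hb1' : (M : ℝ) * lb ^ e ≤ 64 * x ^ (1 - e / 2) := by
    have h1 : lb ^ e ≤ x ^ (-(e / 2)) := by
      calc lb ^ e ≤ (x ^ (-(1 : ℝ) / 2)) ^ e := Real.rpow_le_rpow hlb0.le hlb1 he0.le
        _ = x ^ (-(e / 2)) := by rw [← Real.rpow_mul hx0.le]; congr 1; ring
    calc (M : ℝ) * lb ^ e ≤ (64 * x) * x ^ (-(e / 2)) :=
          mul_le_mul hM64 h1 (by positivity) (by positivity)
      _ = 64 * (x ^ (1 : ℝ) * x ^ (-(e / 2))) := by rw [Real.rpow_one]; ring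
      _ = 64 * x ^ (1 - e / 2) := by rw [← Real.rpow_add hx0]; congr 2
  have hb2' : (M : ℝ) ^ b * lb ^ (-e) ≤ 64 * k0⁻¹ * x ^ (1 - e / 2) := by
    have h1 : (M : ℝ) ^ b ≤ 64 * x ^ b := by
      calc (M : ℝ) ^ b ≤ (64 * x) ^ b := Real.rpow_le_rpow (by positivity) hM64 hb0
        _ = 64 ^ b * x ^ b := Real.mul_rpow (by norm_num) hx0.le
        _ ≤ 64 ^ (1 : ℝ) * x ^ b := by
            refine mul_le_mul_of_nonneg_right ?_ (by positivity)
            exact Real.rpow_le_rpow_of_exponent_le (by norm_num) hb1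
        _ = 64 * x ^ b := by rw [Real.rpow_one]
    have h2 : lb ^ (-e) ≤ k0⁻¹ * x ^ (3 / 2 * e) := by
      have hpos : 0 < k0 * x ^ (-(3 : ℝ) / 2) := by positivity
      calc lb ^ (-e) ≤ (k0 * x ^ (-(3 : ℝ) / 2)) ^ (-e) :=
            Real.rpow_le_rpow_of_nonpos hpos hlb2 (by linarith)
        _ = k0 ^ (-e) * (x ^ (-(3 : ℝ) / 2)) ^ (-e) := Real.mul_rpow hk0pos.le (by positivity)
        _ = k0 ^ (-e) * x ^ (3 / 2 * e) := by
            rw [← Real.rpow_mul hx0.le]; congr 2; ring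
        _ ≤ k0 ^ (-(1 : ℝ)) * x ^ (3 / 2 * e) := by
            refine mul_le_mul_of_nonneg_right ?_ (by positivity)
            exact Real.rpow_le_rpow_of_exponent_ge hk0pos hk01 (by linarith)
        _ = k0⁻¹ * x ^ (3 / 2 * e) := by rw [Real.rpow_neg_one]
    calc (M : ℝ) ^ b * lb ^ (-e) ≤ (64 * x ^ b) * (k0⁻¹ * x ^ (3 / 2 * e)) :=
          mul_le_mul h1 h2 (by positivity) (by positivity)
      _ = 64 * k0⁻¹ * (x ^ b * x ^ (3 / 2 * e)) := by ring
      _ = 64 * k0⁻¹ * x ^ (b + 3 / 2 * e) := by rw [← Real.rpow_add hx0]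
      _ ≤ 64 * k0⁻¹ * x ^ (1 - e / 2) := by
          refine mul_le_mul_of_nonneg_left ?_ (by positivity)
          exact Real.rpow_le_rpow_of_exponent_le hx hbe
  calc C * R * ((M : ℝ) * lb ^ e + (M : ℝ) ^ b * lb ^ (-e)) ≤
      C * R * (64 * x ^ (1 - e / 2) + 64 * k0⁻¹ * x ^ (1 - e / 2)) := by
        refine mul_le_mul_of_nonneg_left ?_ (by positivity)
        linarith
    _ = C * R * (64 * (1 + k0⁻¹)) * x ^ (1 - e / 2) := by ring

theorem big' (j : ℕ) : ∃ K : ℝ, 0 < K ∧ (2 ≤ j → ∀ (x α t : ℝ) (a M : ℕ), 1 ≤ x → x ≤ a + 1 →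
    (a : ℝ) + M ≤ 64 * x → 1 ≤ a → 0 ≤ α → α ≤ 1 → x ^ ((j : ℝ) - 3 / 2) ≤ |t| →
    |t| ≤ x ^ ((j : ℝ) - 1 / 2) →
    ‖∑ i ∈ range M, g t (((a + i : ℕ) : ℝ) + 1 + α)‖ ≤ K * x ^ (1 - 1 / ((2 : ℝ) ^ j - 2) / 2)) := by
  by_cases hj : 2 ≤ j
  · obtain ⟨K, hK, h⟩ := big j hj
    exact ⟨K, hK, fun _ => h⟩
  · exact ⟨1, one_pos, fun h => absurd h hj⟩

end ZSKM

open ZSKM in
theorem specZSK : SpecZSK := by
  intro B hB
  choose K hK0 hK using big'
  set c : ℝ := 1 / 2 ^ (B + 2) with hc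
  have hc0 : 0 < c := by positivity
  have h2B : (2 : ℝ) ≤ 2 ^ (B + 2) := by
    calc (2 : ℝ) = 2 ^ 1 := by norm_num
      _ ≤ 2 ^ (B + 2) := pow_le_pow_right₀ (by norm_num) (by omega)
  have hc12 : c ≤ 1 / 2 := by
    rw [hc]; exact one_div_le_one_div_of_le (by norm_num) h2B
  have hS : 0 ≤ ∑ j ∈ range (B + 2), K j := Finset.sum_nonneg fun j _ => (hK0 j).le
  refine ⟨c, 600 + ∑ j ∈ range (B + 2), K j, hc0, hc12, by linarith, ?_⟩
  intro x x' α t hx hxx' hx' hα hα1 ht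
  have hx0 : 0 < x := by linarith
  set a : ℕ := ⌊x⌋₊ with ha
  have ha1 : 1 ≤ a := (Nat.one_le_floor_iff x).2 hx
  have ha1' : (1 : ℝ) ≤ a := by exact_mod_cast ha1
  have hax : (a : ℝ) ≤ x := Nat.floor_le (by linarith)
  have hxa : x < a + 1 := Nat.lt_floor_add_one x
  have hle : a ≤ ⌊x'⌋₊ := Nat.floor_le_floor hxx'
  obtain ⟨M, hM⟩ := Nat.exists_eq_add_of_le hle
  have hax' : (((a + M : ℕ) : ℝ)) ≤ x' := by rw [← hM]; exact Nat.floor_le (by linarith)
  have hx'a : x' < ((a + M : ℕ) : ℝ) + 1 := by rw [← hM]; exact Nat.lt_floor_add_one x'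
  have haM : (a : ℝ) + M ≤ 64 * x := by push_cast at hax'; linarith
  have hsum : ∑ n ∈ IO x x', Complex.exp ((t * Real.log (n + α) : ℝ) * Complex.I) =
      ∑ i ∈ range M, g t (((a + i : ℕ) : ℝ) + 1 + α) := by
    rw [IO, ← ha, hM, ZSMM.sum_Ioc_eq]
    refine Finset.sum_congr rfl (fun i _ => ?_)
    rw [g]
    push_cast
    rfl
  have hint : ∫ u in x..x', Complex.exp ((t * Real.log u : ℝ) * Complex.I) =
      ZSMM.Gf t x' - ZSMM.Gf t x := integral_g t hx0 hxx'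
  rw [hsum, hint]
  have h1c : x ^ ((1 : ℝ) / 2) ≤ x ^ (1 - c) := Real.rpow_le_rpow_of_exponent_le hx (by linarith)
  have hx1c : 1 ≤ x ^ (1 - c) := Real.one_le_rpow hx (by linarith)
  have hM0 : (0 : ℝ) ≤ M := Nat.cast_nonneg M
  rcases le_or_gt |t| (x ^ ((1 : ℝ) / 2)) with h | h
  · -- small
    have h1 := small t hα hα1 (a := a) (M := M) ha1
    have h2 := Gf_sub t (p := ((a + M : ℕ) : ℝ)) (q := x') (by push_cast; linarith) hax'
    have h3 := Gf_sub t (p := (a : ℝ)) (q := x) (by linarith) hax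
    have e1 : ∑ i ∈ range M, g t (((a + i : ℕ) : ℝ) + 1 + α) - (ZSMM.Gf t x' - ZSMM.Gf t x) =
        (∑ i ∈ range M, g t (((a + i : ℕ) : ℝ) + 1 + α) -
          (ZSMM.Gf t ((a + M : ℕ) : ℝ) - ZSMM.Gf t a)) -
        (ZSMM.Gf t x' - ZSMM.Gf t ((a + M : ℕ) : ℝ)) + (ZSMM.Gf t x - ZSMM.Gf t a) := by ring
    rw [e1]
    have h4 : 2 * |t| * ((M : ℝ) / a) ≤ 256 * x ^ ((1 : ℝ) / 2) := by
      have h5 : (M : ℝ) / a ≤ 128 := by
        rw [div_le_iff₀ (by linarith)]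
        linarith
      calc 2 * |t| * ((M : ℝ) / a) ≤ 2 * x ^ ((1 : ℝ) / 2) * 128 :=
            mul_le_mul (by linarith) h5 (by positivity) (by positivity)
        _ = _ := by ring
    have h6 := norm_add_le ((∑ i ∈ range M, g t (((a + i : ℕ) : ℝ) + 1 + α) -
          (ZSMM.Gf t ((a + M : ℕ) : ℝ) - ZSMM.Gf t a)) -
        (ZSMM.Gf t x' - ZSMM.Gf t ((a + M : ℕ) : ℝ))) (ZSMM.Gf t x - ZSMM.Gf t a)
    have h7 := norm_sub_le (∑ i ∈ range M, g t (((a + i : ℕ) : ℝ) + 1 + α) -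
          (ZSMM.Gf t ((a + M : ℕ) : ℝ) - ZSMM.Gf t a))
        (ZSMM.Gf t x' - ZSMM.Gf t ((a + M : ℕ) : ℝ))
    have h8 : 0 ≤ (∑ j ∈ range (B + 2), K j) * x ^ (1 - c) := by positivity
    nlinarith
  · -- large
    have hint2 : ‖ZSMM.Gf t x' - ZSMM.Gf t x‖ ≤ 256 * x ^ ((1 : ℝ) / 2) := by
      have ht0 : 0 < |t| := lt_of_le_of_lt (by positivity) h
      have h1 := ZSMM.norm_Gf (t := t) (u := x') (by linarith)
      have h2 := ZSMM.norm_Gf (t := t) (u := x) hx0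
      have h3 : ∀ y : ℝ, 0 < y → y ≤ 64 * x → 2 * y / (1 + |t|) ≤ 128 * x ^ ((1 : ℝ) / 2) := by
        intro y _ hy
        rw [div_le_iff₀ (by linarith)]
        have h4 : x = x ^ ((1 : ℝ) / 2) * x ^ ((1 : ℝ) / 2) := by
          rw [← Real.rpow_add hx0]; norm_num
        have h5 : x ^ ((1 : ℝ) / 2) * x ^ ((1 : ℝ) / 2) ≤ x ^ ((1 : ℝ) / 2) * (1 + |t|) :=
          mul_le_mul_of_nonneg_left (by linarith) (by positivity)
        rw [← h4] at h5
        nlinarith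
      have h6 := norm_sub_le (ZSMM.Gf t x') (ZSMM.Gf t x)
      have h7 := h3 x' (by linarith) hx'
      have h8 := h3 x hx0 (by linarith)
      linarith
    -- the order
    have hex : ∃ j : ℕ, |t| ≤ x ^ ((j : ℝ) - 1 / 2) := by
      refine ⟨B + 1, ht.trans ?_⟩
      rw [← Real.rpow_natCast x B]
      refine Real.rpow_le_rpow_of_exponent_le hx ?_
      push_cast; linarith
    classical
    set j := Nat.find hex with hj
    have hj1 : |t| ≤ x ^ ((j : ℝ) - 1 / 2) := Nat.find_spec hex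
    have hjB : j ≤ B + 1 := by
      refine Nat.find_min' hex (ht.trans ?_)
      rw [← Real.rpow_natCast x B]
      refine Real.rpow_le_rpow_of_exponent_le hx ?_
      push_cast; linarith
    have hj2 : 2 ≤ j := by
      by_contra hcon
      have h1 : (j : ℝ) ≤ 1 := by exact_mod_cast (by omega : j ≤ 1)
      have h2 : x ^ ((j : ℝ) - 1 / 2) ≤ x ^ ((1 : ℝ) / 2) :=
        Real.rpow_le_rpow_of_exponent_le hx (by linarith)
      linarith
    have hj3 : x ^ ((j : ℝ) - 3 / 2) ≤ |t| := by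
      have h1 := Nat.find_min hex (m := j - 1) (by omega)
      rw [not_le] at h1
      have h2 : (((j - 1 : ℕ) : ℝ)) - 1 / 2 = (j : ℝ) - 3 / 2 := by
        rw [Nat.cast_sub (by omega)]; push_cast; ring
      rw [h2] at h1
      exact h1.le
    have h1 := hK j hj2 x α t a M hx hxa.le haM ha1 hα hα1 hj3 hj1
    have h2 : x ^ (1 - 1 / ((2 : ℝ) ^ j - 2) / 2) ≤ x ^ (1 - c) := by
      refine Real.rpow_le_rpow_of_exponent_le hx ?_
      have h4 : (4 : ℝ) ≤ 2 ^ j := by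
        calc (4 : ℝ) = 2 ^ 2 := by norm_num
          _ ≤ 2 ^ j := pow_le_pow_right₀ (by norm_num) hj2
      have h5 : (2 : ℝ) ^ j ≤ 2 ^ (B + 1) := pow_le_pow_right₀ (by norm_num) hjB
      have h6 : c ≤ 1 / ((2 : ℝ) ^ j - 2) / 2 := by
        rw [hc, div_div]
        refine one_div_le_one_div_of_le (by linarith) ?_
        rw [pow_succ (2 : ℝ) (B + 1)]
        linarith
      linarith
    have h3 : K j ≤ ∑ j ∈ range (B + 2), K j :=
      Finset.single_le_sum (f := K) (fun j _ => (hK0 j).le) (Finset.mem_range.2 (by omega))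
    have h4 : K j * x ^ (1 - 1 / ((2 : ℝ) ^ j - 2) / 2) ≤ (∑ j ∈ range (B + 2), K j) * x ^ (1 - c) :=
      mul_le_mul h3 h2 (by positivity) hS
    have h5 := norm_sub_le (∑ i ∈ range M, g t (((a + i : ℕ) : ℝ) + 1 + α))
      (ZSMM.Gf t x' - ZSMM.Gf t x)
    nlinarith

end

end Pool.Agent.Lib.MP3efbeb.LG
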