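import Pool.Agent.Lib.MP_3efbeb_nt.LG.GPL
import Pool.Agent.Lib.MP_3efbeb_nt.LG.WNB
import Pool.Agent.Lib.MP_3efbeb_nt.LG.WIN
import Pool.Agent.Lib.MP_3efbeb_nt.LG.MVT
import Pool.Agent.Lib.MP_3efbeb_nt.LG.HMI
import Pool.Agent.Lib.MP_3efbeb_nt.LG.CHX
import Pool.Agent.Lib.MP_3efbeb_nt.LG.BET
import Pool.Agent.Lib.MP_3efbeb_nt.LG.DIR
import Pool.Agent.Lib.MP_3efbeb_nt.LG.MIN
import Pool.Agent.Lib.MP_3efbeb_nt.LG.TWO
import Pool.Agent.Lib.MP_3efbeb_nt.LG.DUA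
import Pool.Agent.Lib.MP_3efbeb_nt.LG.TEL
import Pool.Agent.Lib.MP_3efbeb_nt.LG.RGH
import Pool.Agent.Lib.MP_3efbeb_nt.LG.CPT
import Pool.Agent.Lib.MP_3efbeb_nt.LG.SLB
import Pool.Agent.Lib.MP_3efbeb_nt.LG.SSL
import Pool.Agent.Lib.MP_3efbeb_nt.LG.BVC
import Pool.Agent.Lib.MP_3efbeb_nt.LG.PNL
import Pool.Agent.Lib.MP_3efbeb_nt.LG.ZSK
import Pool.Agent.Lib.MP_3efbeb_nt.LG.ZSC
import Pool.Agent.Lib.MP_3efbeb_nt.LG.LVQ
import Pool.Agent.Lib.MP_3efbeb_nt.LG.HMJ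
import Pool.Agent.Lib.MP_3efbeb_nt.LG.DIV
import Pool.Agent.Lib.MP_3efbeb_nt.LG.VAU
import Pool.Agent.Lib.MP_3efbeb_nt.LG.PPL
import Pool.Agent.Lib.MP_3efbeb_nt.LG.TYI
import Pool.Agent.Lib.MP_3efbeb_nt.LG.TYJ
import Pool.Agent.Lib.MP_3efbeb_nt.LG.PRV
import Pool.Agent.Lib.MP_3efbeb_nt.LG.WPO
import Pool.Agent.Lib.MP_3efbeb_nt.LG.US2
import Pool.Agent.Lib.MP_3efbeb_nt.LG.U0B
import Pool.Agent.Lib.MP_3efbeb_nt.LG.CB2
import Pool.Agent.Lib.MP_3efbeb_nt.LG.FA2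
import Pool.Agent.Lib.MP_3efbeb_nt.LG.SI2
import Pool.Agent.Lib.MP_3efbeb_nt.LG.MA2
import Pool.Agent.Lib.MP_3efbeb_nt.LG.SU2
import Pool.Agent.Lib.MP_3efbeb_nt.LG.UE2
import Pool.Agent.Lib.MP_3efbeb_nt.LG.AD2
import Pool.Agent.Lib.MP_3efbeb_nt.LG.CO2
import Pool.Agent.Lib.MP_3efbeb_nt.LG.FR2
import Pool.Agent.Lib.MP_3efbeb_nt.LG.AV2
import Pool.Agent.Lib.MP_3efbeb_nt.LG.CF2
import Pool.Agent.Lib.MP_3efbeb_nt.LG.MT2
import Pool.Agent.Lib.MP_3efbeb_nt.LG.FI2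
import Pool.Agent.Lib.MP_3efbeb_nt.LG.Inputs

/-!
# LongPatterns, version 2 (`r_i ≥ 2`): all modules together
-/

set_option autoImplicit false

namespace Pool.Agent.Lib.MP3efbeb.LG

theorem b_win : SpecWIN := specWIN specGPL specWNB
theorem b_pnl : SpecPNL := specPNL Pool.Agent.Lib.VK.pnp
theorem b_zsk : SpecZSK := specZSK
theorem b_zsc : SpecZSC := specZSC b_zsk
theorem b_lvq : SpecLVQ := specLVQ specMVT
theorem b_hmj : SpecHMJ := specHMJ specHMI b_zsk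
theorem b_div : SpecDIV := specDIV
theorem b_vau : SpecVAU := specVAU
theorem b_ppl : SpecPPL := specPPL inPPB
theorem b_tyi : SpecTYI := specTYI b_zsc
theorem b_tyj : SpecTYJ := specTYJ b_ppl b_hmj b_div
theorem b_prv : SpecPRV := specPRV b_vau b_tyi b_tyj
theorem b_wpo : SpecWPO := specWPO b_zsc b_hmj
theorem b_us2 : SpecUS2 := specUS2 specRGH b_pnl
theorem b_u0b : SpecU0B := specU0B b_prv b_wpo b_us2
theorem b_si2 : SpecSI2 := specSI2 b_win specMVT b_lvq specCB2 specFA2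
theorem b_ma2 : SpecMA2 := specMA2 b_si2 specCHX specBET specCB2
theorem b_min : SpecMIN := specMIN specDIR
theorem b_su2 : SpecSU2 := specSU2 b_ma2 b_min specCB2
theorem b_ue2 : SpecUE2 := specUE2 b_u0b
theorem b_ad2 : SpecAD2 := specAD2 b_su2 b_ue2
theorem b_co2 : SpecCO2 := specCO2 b_ad2 specTWO specDUA
theorem b_av2 : SpecAV2 := specAV2 b_co2 specTEL specFR2
theorem b_bvc : SpecBVC := specBVC inBVS
theorem b_mt2 : SpecMT2 := specMT2 specCF2 specCPT specSLB specSSL b_bvc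

/-- version 2 -/
theorem main2 : SpecFI2 := specFI2 b_av2 b_mt2 specFR2

end Pool.Agent.Lib.MP3efbeb.LG
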