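import Pool.Agent.Lib.MP_3efbeb_nt.LG.SpecD
import Pool.Agent.Lib.MP_3efbeb_nt.LG.MT2
import Pool.Agent.Lib.MP_3efbeb_nt.T.B

/-!
# LongPatterns (MP_3efbeb_nt), module MT3: the main term, version 3
-/

set_option autoImplicit false

namespace Pool.Agent.Lib.MP3efbeb.LG

open Finset MeasureTheory
open Pool.Agent.Lib.MP391708.QPA (PB rInd Wp Rough)

noncomputable section

namespace MT3M

open MT2M

lemma dl_append {k f : ℕ} (h : Fin k → ℕ) (F : Fin f → ℕ) : dl h ∣ dl (Fin.append h F) := by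
  unfold dl
  refine mul_dvd_mul ?_ ?_
  · rw [Fin.prod_univ_add]
    refine Dvd.dvd.mul_right (dvd_of_eq ?_) _
    refine prod_congr rfl fun i _ => ?_
    rw [Fin.append_left]
  · rw [Fin.prod_univ_add]
    refine Dvd.dvd.mul_right ?_ _
    refine Finset.prod_dvd_prod_of_dvd _ _ fun i _ => ?_
    have h1 : ∏ j ∈ univ.filter (fun j => i < j), ((h i : ℤ) - h j).natAbs =
        ∏ j ∈ (univ.filter (fun j => i < j)).map (Fin.castAddEmb f),
          (((Fin.append h F (Fin.castAdd f i) : ℕ) : ℤ) - ((Fin.append h F j : ℕ) : ℤ)).natAbs := by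
      rw [prod_map]
      refine prod_congr rfl fun j _ => ?_
      rw [Fin.castAddEmb_apply, Fin.append_left, Fin.append_left]
    rw [h1]
    refine Finset.prod_dvd_prod_of_subset _ _ _ fun j hj => ?_
    obtain ⟨j', hj', rfl⟩ := mem_map.1 hj
    rw [mem_filter] at hj' ⊢
    exact ⟨mem_univ _, by
      rw [Fin.castAddEmb_apply, Fin.lt_def]
      exact hj'.2⟩

lemma rep_sum {k K : ℕ} (G : Finset (Fin k → ℕ)) (D : (Fin k → ℕ) → Finset ℕ) (Em : ℕ → ℝ) (X : ℕ)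
    (hG : ∀ m ∈ G, ∀ δ ∈ D m, Sys m δ ∧ 1 ≤ δ ∧ δ * ∏ i, m i ≤ X) (hEm : ∀ Q, 1 ≤ Q → 0 ≤ Em Q)
    (hk : 1 ≤ K) :
    ∑ m ∈ G, ∑ δ ∈ D m, (K : ℝ) ^ δ.primeFactors.card * Em (δ * ∏ i, m i) ≤
      ∑ Q ∈ Icc 1 X, ((K * (k + 1) : ℕ) : ℝ) ^ Q.primeFactors.card * Em Q := by
  classical
  rw [Finset.sum_sigma' G D (fun m δ => (K : ℝ) ^ δ.primeFactors.card * Em (δ * ∏ i, m i))]
  rw [← Finset.sum_fiberwise_of_maps_to (s := G.sigma D) (t := Icc 1 X)
    (g := fun x => x.2 * ∏ i, x.1 i)]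
  · refine sum_le_sum fun Q hQ => ?_
    have hQ1 := (mem_Icc.1 hQ).1
    have hk1 : (1 : ℝ) ≤ K := by exact_mod_cast hk
    have hF : ∀ x ∈ (G.sigma D).filter (fun x => x.2 * ∏ i, x.1 i = Q), Sys x.1 x.2 ∧
        x.2 * ∏ i, x.1 i = Q := by
      intro x hx
      obtain ⟨h1, h2⟩ := mem_filter.1 hx
      obtain ⟨h3, h4⟩ := mem_sigma.1 h1
      exact ⟨(hG _ h3 _ h4).1, h2⟩
    have hcard := fiber_card Q _ hF
    calc ∑ x ∈ (G.sigma D).filter (fun x => x.2 * ∏ i, x.1 i = Q),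
          (K : ℝ) ^ x.2.primeFactors.card * Em (x.2 * ∏ i, x.1 i)
        ≤ ∑ x ∈ (G.sigma D).filter (fun x => x.2 * ∏ i, x.1 i = Q),
          (K : ℝ) ^ Q.primeFactors.card * Em Q := by
          refine sum_le_sum fun x hx => ?_
          obtain ⟨h1, h2⟩ := hF x hx
          rw [h2]
          refine mul_le_mul_of_nonneg_right ?_ (hEm Q hQ1)
          refine pow_le_pow_right₀ hk1 (card_le_card ?_)
          refine Nat.primeFactors_mono ?_ (by omega)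
          rw [← h2]
          exact dvd_mul_right _ _
      _ = (((G.sigma D).filter (fun x => x.2 * ∏ i, x.1 i = Q)).card : ℝ) *
          ((K : ℝ) ^ Q.primeFactors.card * Em Q) := by rw [sum_const, nsmul_eq_mul]
      _ ≤ (((k + 1) ^ Q.primeFactors.card : ℕ) : ℝ) * ((K : ℝ) ^ Q.primeFactors.card * Em Q) := by
          refine mul_le_mul_of_nonneg_right (by exact_mod_cast hcard) ?_
          exact mul_nonneg (by positivity) (hEm Q hQ1)
      _ = ((K * (k + 1) : ℕ) : ℝ) ^ Q.primeFactors.card * Em Q := by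
          push_cast
          rw [mul_pow]
          ring
  · intro x hx
    obtain ⟨h3, h4⟩ := mem_sigma.1 hx
    have h5 := hG _ h3 _ h4
    rw [mem_Icc]
    refine ⟨?_, h5.2.2⟩
    exact Nat.mul_pos h5.2.1 (prod_pos fun j _ => h5.1.1 j)

lemma tuple_ge {k : ℕ} (N : ℕ) (h m : Fin k → ℕ) (z κ : ℝ) (w : ℕ → ℝ) (S : Finset ℕ)
    (P : ℕ → ℝ) (hP0 : ∀ n, 0 ≤ P n) (hP1 : ∀ n ∈ S, P n = 1)
    (hw0 : ∀ j, 0 ≤ w j) (hw : ∀ j, Rough z j → w j = κ) (hm : ∀ i, 1 ≤ m i)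
    (hcd : ∀ i, (m i).Coprime (dl h)) (hS : ∀ n ∈ S, n ∈ Ioc N (2 * N) ∧ n.Prime ∧
      ∀ i, m i ∣ n + h i ∧ ∀ l : ℕ, l.Prime → (l : ℝ) < z → ¬ l ∣ (∏ i, m i) → ¬ l ∣ n + h i)
    (hκ : 0 ≤ κ) :
    κ ^ k * ((S.card : ℝ) - (Bad N h m).card) ≤
      ∑ n ∈ Ioc N (2 * N), P n * ∏ i, (if m i ∣ n + h i then w ((n + h i) / m i) else 0) := by
  have hnn : ∀ n, 0 ≤ P n * ∏ i, (if m i ∣ n + h i then w ((n + h i) / m i) else 0) := by
    intro n
    refine mul_nonneg (hP0 n) (prod_nonneg fun i _ => ?_)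
    · split_ifs
      · exact hw0 _
      · exact le_rfl
  have hval : ∀ n ∈ S \ Bad N h m,
      P n * ∏ i, (if m i ∣ n + h i then w ((n + h i) / m i) else 0) = κ ^ k := by
    intro n hn
    obtain ⟨hn1, hn2⟩ := mem_sdiff.1 hn
    obtain ⟨hn3, hn4, hn5⟩ := hS n hn1
    have hb : ∀ i, ∀ l : ℕ, l.Prime → l ∣ m i → ¬ l * m i ∣ n + h i := by
      intro i l hl hli hd
      refine hn2 ?_
      unfold Bad
      rw [mem_biUnion]
      refine ⟨i, mem_univ i, ?_⟩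
      rw [mem_biUnion]
      refine ⟨l, Nat.mem_primeFactors.2 ⟨hl, hli, by have := hm i; omega⟩, ?_⟩
      exact mem_filter.2 ⟨hn3, fun j => (hn5 j).1, hd⟩
    have hR := rough_of hcd (fun i => (hn5 i).1) (fun i => (hn5 i).2) hb
    have h1 : ∀ i ∈ (univ : Finset (Fin k)),
        (if m i ∣ n + h i then w ((n + h i) / m i) else 0) = κ := by
      intro i _
      rw [if_pos (hn5 i).1]
      exact hw _ (hR i)
    rw [prod_congr rfl h1, prod_const, card_univ, Fintype.card_fin]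
    rw [hP1 n hn1, one_mul]
  have hsub : S \ Bad N h m ⊆ Ioc N (2 * N) := fun n hn => (hS n (mem_sdiff.1 hn).1).1
  have h2 := sum_le_sum_of_subset_of_nonneg hsub (fun n _ _ => hnn n)
  rw [sum_congr rfl hval, sum_const, nsmul_eq_mul] at h2
  refine le_trans ?_ h2
  rw [mul_comm]
  refine mul_le_mul_of_nonneg_right ?_ (by positivity)
  have h3 : S.card ≤ (S \ Bad N h m).card + (Bad N h m).card := by
    have := Finset.le_card_sdiff (Bad N h m) S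
    omega
  have h4 : (S.card : ℝ) ≤ ((S \ Bad N h m).card : ℝ) + ((Bad N h m).card : ℝ) := by
    exact_mod_cast h3
  linarith

lemma total_ge {k : ℕ} (N : ℕ) (h : Fin k → ℕ) (M : Fin k → Finset ℕ) (P : ℕ → ℝ)
    (hP0 : ∀ n, 0 ≤ P n)
    (G : Finset (Fin k → ℕ)) (hG : G ⊆ Fintype.piFinset M) (z κ : ℝ) (w : ℕ → ℝ)
    (S : (Fin k → ℕ) → Finset ℕ) (hP1 : ∀ m ∈ G, ∀ n ∈ S m, P n = 1)
    (hw0 : ∀ j, 0 ≤ w j) (hw : ∀ j, Rough z j → w j = κ) (hm : ∀ m ∈ G, ∀ i, 1 ≤ m i)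
    (hcd : ∀ m ∈ G, ∀ i, (m i).Coprime (dl h)) (hS : ∀ m ∈ G, ∀ n ∈ S m, n ∈ Ioc N (2 * N) ∧
      n.Prime ∧ ∀ i, m i ∣ n + h i ∧ ∀ l : ℕ, l.Prime → (l : ℝ) < z → ¬ l ∣ (∏ i, m i) →
        ¬ l ∣ n + h i)
    (hκ : 0 ≤ κ) :
    κ ^ k * ∑ m ∈ G, (((S m).card : ℝ) - (Bad N h m).card) ≤
      ∑ n ∈ Ioc N (2 * N), P n * ∏ i, ∑ m ∈ M i, if m ∣ n + h i then w ((n + h i) / m) else 0 := by
  have e1 : ∑ n ∈ Ioc N (2 * N), P n * ∏ i, ∑ m ∈ M i,
      (if m ∣ n + h i then w ((n + h i) / m) else 0) =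
      ∑ m ∈ Fintype.piFinset M, ∑ n ∈ Ioc N (2 * N),
        P n * ∏ i, (if m i ∣ n + h i then w ((n + h i) / m i) else 0) := by
    rw [sum_comm]
    refine sum_congr rfl fun n _ => ?_
    rw [prod_univ_sum, mul_sum]
  rw [e1, mul_sum]
  refine (sum_le_sum fun m hm' => tuple_ge N h m z κ w (S m) P hP0 (hP1 m hm') hw0 hw (hm m hm') (hcd m hm')
    (hS m hm') hκ).trans ?_
  refine sum_le_sum_of_subset_of_nonneg hG fun m _ _ => sum_nonneg fun n _ => ?_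
  refine mul_nonneg (hP0 n) (prod_nonneg fun i _ => ?_)
  · split_ifs
    · exact hw0 _
    · exact le_rfl

/-- the numerical conclusion -/
lemma numeric {k f : ℕ} {N L W Wy z κ y P T E cs c3 cst Cst R c0 Err Bad S : ℝ}
    (hL16 : 16 ≤ L) (hN : 3 ≤ N) (hW : 1 ≤ L * W) (hκ : κ = 1 / (2 * L * W))
    (hc3 : 0 < c3) (hWy : c3 / L ≤ Wy)
    (hz : 4 * (1 + z) ≤ 2 * L) (hcs : 0 < cs) (hcst : 0 < cst) (hCst : 1 ≤ Cst) (hR : 0 ≤ R)
    (hy : L ^ (k + f + 4) ≤ y) (hP : N / (2 * L) ≤ P) (hT1 : cst ^ k / 2 ≤ T) (hT2 : T ≤ Cst ^ k)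
    (hS : 1 / 2 * P * (cs * (W ^ k * Wy ^ f)) * T - 4 * (1 + z) * Err ≤ S)
    (hErr0 : 0 ≤ Err) (hErr : Err ≤ N / L ^ (k + f + 3)) (hB : Bad ≤ R * (N / y * T + E))
    (hE : E ≤ N / y * T)
    (hc0 : c0 = cs * cst ^ k * c3 ^ f / (8 * 2 ^ k))
    (hL1 : 2 * (2 + 2 * R * Cst ^ k) ≤ c0 * L) :
    c0 / 2 * N / L ^ (k + f + 1) ≤ κ ^ k * (S - Bad) := by
  have hL0 : 0 < L := by linarith
  have hW0 : 0 < W := by
    by_contra h
    have : W ≤ 0 := not_lt.1 h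
    nlinarith
  have hWy0 : 0 < c3 / L := by positivity
  have hκ0 : 0 < κ := by rw [hκ]; positivity
  have hκ1 : κ ≤ 1 := by
    rw [hκ, div_le_one (by positivity)]
    linarith
  have hκk : κ ^ k ≤ 1 := pow_le_one₀ hκ0.le hκ1
  have hκk0 : 0 < κ ^ k := by positivity
  have hy0 : 0 < y := (by positivity : 0 < L ^ (k + f + 4)).trans_le hy
  -- the main term
  have m1 : κ ^ k * (1 / 2 * P * (cs * (W ^ k * Wy ^ f)) * T) =
      cs / 2 * (1 / (2 ^ k * L ^ k)) * (Wy ^ f * (P * T)) := by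
    rw [hκ, div_pow, one_pow, mul_pow, mul_pow]
    field_simp
  have m2 : cs / 2 * (1 / (2 ^ k * L ^ k)) * ((c3 / L) ^ f * (N / (2 * L) * (cst ^ k / 2))) ≤
      cs / 2 * (1 / (2 ^ k * L ^ k)) * (Wy ^ f * (P * T)) := by
    have hP0 : 0 ≤ N / (2 * L) := by positivity
    have hT0 : 0 ≤ cst ^ k / 2 := by positivity
    have a1 : 0 ≤ cs / 2 * (1 / (2 ^ k * L ^ k)) := by positivity
    have a2 : N / (2 * L) * (cst ^ k / 2) ≤ P * T := mul_le_mul hP hT1 hT0 (hP0.trans hP)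
    have a3 : (c3 / L) ^ f ≤ Wy ^ f := pow_le_pow_left₀ hWy0.le hWy f
    have a4 : 0 ≤ Wy ^ f := le_trans (by positivity) a3
    exact mul_le_mul_of_nonneg_left (mul_le_mul a3 a2 (by positivity) a4) a1
  have m3 : cs / 2 * (1 / (2 ^ k * L ^ k)) * ((c3 / L) ^ f * (N / (2 * L) * (cst ^ k / 2))) =
      c0 * N / L ^ (k + f + 1) := by
    rw [hc0, pow_succ, pow_add, div_pow]
    field_simp
    norm_num
  -- the errors
  have r1 : κ ^ k * (4 * (1 + z) * Err) ≤ 2 * (N / L ^ (k + f + 2)) := by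
    have a1 : 4 * (1 + z) * Err ≤ 2 * L * Err := mul_le_mul_of_nonneg_right hz hErr0
    have a2 : 2 * L * Err ≤ 2 * L * (N / L ^ (k + f + 3)) :=
      mul_le_mul_of_nonneg_left hErr (by positivity)
    have a3 : 2 * L * (N / L ^ (k + f + 3)) = 2 * (N / L ^ (k + f + 2)) := by
      rw [pow_succ L (k + f + 2)]
      field_simp
    have a4 : κ ^ k * (4 * (1 + z) * Err) ≤ κ ^ k * (2 * (N / L ^ (k + f + 2))) :=
      mul_le_mul_of_nonneg_left (by linarith) hκk0.le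
    have a5 : κ ^ k * (2 * (N / L ^ (k + f + 2))) ≤ 1 * (2 * (N / L ^ (k + f + 2))) :=
      mul_le_mul_of_nonneg_right hκk (by positivity)
    linarith
  have r2 : κ ^ k * Bad ≤ 2 * R * Cst ^ k * (N / L ^ (k + f + 2)) := by
    have hT0 : 0 ≤ T := le_trans (by positivity) hT1
    have a1 : Bad ≤ 2 * R * (N / y * T) := by
      have : R * (N / y * T + E) ≤ R * (N / y * T + N / y * T) :=
        mul_le_mul_of_nonneg_left (by linarith) hR
      linarith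
    have a2 : N / y ≤ N / L ^ (k + f + 2) := by
      refine div_le_div_of_nonneg_left (by linarith) (by positivity) ?_
      refine le_trans ?_ hy
      exact pow_le_pow_right₀ (by linarith) (by omega)
    have a3 : N / y * T ≤ N / L ^ (k + f + 2) * Cst ^ k := mul_le_mul a2 hT2 hT0 (by positivity)
    have a4 : κ ^ k * Bad ≤ κ ^ k * (2 * R * (N / L ^ (k + f + 2) * Cst ^ k)) := by
      refine mul_le_mul_of_nonneg_left (a1.trans ?_) hκk0.le
      exact mul_le_mul_of_nonneg_left a3 (by linarith)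
    have a5 : κ ^ k * (2 * R * (N / L ^ (k + f + 2) * Cst ^ k)) ≤
        1 * (2 * R * (N / L ^ (k + f + 2) * Cst ^ k)) :=
      mul_le_mul_of_nonneg_right hκk (by positivity)
    linarith
  have r3 : (2 + 2 * R * Cst ^ k) * (N / L ^ (k + f + 2)) ≤ c0 / 2 * N / L ^ (k + f + 1) := by
    have a1 : c0 / 2 * N / L ^ (k + f + 1) = (c0 * L / 2) * (N / L ^ (k + f + 2)) := by
      rw [pow_succ L (k + f + 1)]
      field_simp
    rw [a1]
    exact mul_le_mul_of_nonneg_right (by linarith) (by positivity)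
  have s1 : κ ^ k * (1 / 2 * P * (cs * (W ^ k * Wy ^ f)) * T - 4 * (1 + z) * Err) ≤ κ ^ k * S :=
    mul_le_mul_of_nonneg_left hS hκk0.le
  have s2 : κ ^ k * (1 / 2 * P * (cs * (W ^ k * Wy ^ f)) * T - 4 * (1 + z) * Err) =
    κ ^ k * (1 / 2 * P * (cs * (W ^ k * Wy ^ f)) * T) - κ ^ k * (4 * (1 + z) * Err) := by ring
  have s3 : κ ^ k * (S - Bad) = κ ^ k * S - κ ^ k * Bad := by ring
  have s4 : c0 * N / L ^ (k + f + 1) = 2 * (c0 / 2 * N / L ^ (k + f + 1)) := by ring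
  rw [s3]
  rw [s2, m1] at s1
  rw [m3, s4] at m2
  have s5 : (2 + 2 * R * Cst ^ k) * (N / L ^ (k + f + 2)) =
    2 * (N / L ^ (k + f + 2)) + 2 * R * Cst ^ k * (N / L ^ (k + f + 2)) := by ring
  rw [s5] at r3
  linarith

end MT3M

open MT2M in
open scoped Classical in
theorem specMT3 (hCF2 : SpecCF2) (hCPT : SpecCPT) (hSL3 : SpecSL3) (hSS3 : SpecSS3)
    (hBVC : SpecBVC) : SpecMT3 := by
  intro k f r F hk hr hF1
  obtain ⟨ε, hε, hBV⟩ := hBVC
  obtain ⟨b, hb⟩ := hSL3 k f hk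
  obtain ⟨cs, hcs, hss⟩ := hSS3 k f hk
  obtain ⟨c3, hc3, hwl⟩ := Pool.Agent.Lib.MP3efbeb.T.BM.wp_lower
  obtain ⟨d, hd⟩ : ∃ d : ℝ, d = min ε 1 / (4 * b + 4) := ⟨_, rfl⟩
  have hd0 : 0 < d := by rw [hd]; positivity
  have hdb : d * (4 * b + 4) = min ε 1 := by
    rw [hd]
    exact div_mul_cancel₀ _ (by positivity)
  have hb0 : (0 : ℝ) ≤ b := Nat.cast_nonneg _
  have hdb0 : 0 ≤ d * b := by positivity
  have hd14 : d ≤ 1 / 4 := by
    have := min_le_right ε 1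
    linarith
  have hdbε : d * b ≤ ε / 2 := by
    have := min_le_left ε 1
    linarith
  choose cst₁ Cst₁ hc1 hC1 hCF using fun i => hCF2 (r i) (hr i)
  have : Nonempty (Fin k) := ⟨⟨0, hk⟩⟩
  obtain ⟨cst, hcst0, hcst⟩ : ∃ cst : ℝ, 0 < cst ∧ ∀ i, cst ≤ cst₁ i := by
    obtain ⟨i₀, hi₀⟩ := Finite.exists_min cst₁
    exact ⟨cst₁ i₀, hc1 i₀, hi₀⟩
  obtain ⟨Cst, hCst1, hCst⟩ : ∃ Cst : ℝ, 1 ≤ Cst ∧ ∀ i, Cst₁ i ≤ Cst := by
    obtain ⟨i₀, hi₀⟩ := Finite.exists_max Cst₁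
    exact ⟨Cst₁ i₀, hC1 i₀, hi₀⟩
  obtain ⟨R, hR⟩ : ∃ R : ℝ, R = ∑ i, (r i : ℝ) := ⟨_, rfl⟩
  have hRi : ∀ i, (r i : ℝ) ≤ R := by
    intro i
    rw [hR]
    exact single_le_sum (f := fun i => (r i : ℝ)) (fun i _ => Nat.cast_nonneg _) (mem_univ i)
  have hR1 : 1 ≤ R := by
    have h1 := hRi ⟨0, hk⟩
    have h2 : (2 : ℝ) ≤ r ⟨0, hk⟩ := by exact_mod_cast hr _
    linarith
  have hR0 : 0 < R := by linarith
  have hCk : 0 < Cst ^ k := by positivity
  have hck : 0 < cst ^ k := by positivity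
  obtain ⟨c0, hc0⟩ : ∃ c0 : ℝ, c0 = cs * cst ^ k * c3 ^ f / (8 * 2 ^ k) := ⟨_, rfl⟩
  have hc00 : 0 < c0 := by rw [hc0]; positivity
  refine ⟨min (1 / 8) (ε / 4) / R, c0 / 2, d, by positivity, ?_, by positivity, hd0, ?_⟩
  · intro i
    rw [div_mul_eq_mul_div, div_le_iff₀ hR0]
    have h1 : min (1 / 8 : ℝ) (ε / 4) ≤ 1 / 8 := min_le_left _ _
    have h2 : (0 : ℝ) ≤ min (1 / 8 : ℝ) (ε / 4) := by positivity
    exact mul_le_mul h1 (hRi i) (Nat.cast_nonneg _) (by norm_num)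
  intro e c he he0 hc
  have hk0 : (0 : ℝ) ≤ k := Nat.cast_nonneg _
  have hf0 : (0 : ℝ) ≤ f := Nat.cast_nonneg _
  have hc1' : 1 ≤ c := by linarith
  have heR : e * R ≤ min (1 / 8) (ε / 4) := (le_div_iff₀ hR0).1 he0
  have heR1 : e * R ≤ 1 / 8 := heR.trans (min_le_left _ _)
  have heR2 : e * R ≤ ε / 4 := heR.trans (min_le_right _ _)
  have heri : ∀ i, e * r i ≤ 1 / 8 := fun i =>
    (mul_le_mul_of_nonneg_left (hRi i) he.le).trans heR1
  choose N₁ hN₁ using fun i => hCF i e c he (heri i) hc1'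
  obtain ⟨i₁, hi₁⟩ := Finite.exists_max N₁
  obtain ⟨N₂, hN₂⟩ := hBV ((k + f) * (k + 1)) (k + f + 3)
  obtain ⟨N₃, hN₃⟩ := primes_ge
  obtain ⟨a, ha⟩ : ∃ a : ℝ, a = 2 + 2 * (((k + f : ℕ) : ℝ) + ((k + f : ℕ) : ℝ) ^ 2) := ⟨_, rfl⟩
  obtain ⟨N₄, hN₄⟩ := ev_facts c (2 * d) 1 hc1' (by positivity)
    (max (2 * (2 + 2 * R * Cst ^ k) / c0) (2 * (k : ℝ) ^ 2 * Cst ^ k * a / cst ^ k))
  refine ⟨max (max (max ⌈N₁ i₁⌉₊ N₂) (max ⌈N₃⌉₊ ⌈N₄⌉₊)) (∑ j, F j), fun N h hN' hh hdl0 hAdm => ?_⟩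
  have hN := (le_max_left _ _).trans hN'
  have hNF : ∀ j, F j ≤ N := fun j =>
    (single_le_sum (f := F) (fun _ _ => Nat.zero_le _) (mem_univ j)).trans
      ((le_max_right _ _).trans hN')
  have g1 : N₁ i₁ ≤ N := (Nat.le_ceil _).trans (by
    exact_mod_cast ((le_max_left _ _).trans (le_max_left _ _)).trans hN)
  have g2' : N₂ ≤ N := ((le_max_right _ _).trans (le_max_left _ _)).trans hN
  have g3 : N₃ ≤ N := (Nat.le_ceil _).trans (by
    exact_mod_cast ((le_max_left _ _).trans (le_max_right _ _)).trans hN)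
  have g4 : N₄ ≤ N := (Nat.le_ceil _).trans (by
    exact_mod_cast ((le_max_right _ _).trans (le_max_right _ _)).trans hN)
  obtain ⟨hL16, hL0', hLc, hzL, hz3, hzN, hzy', hN3⟩ := hN₄ N g4
  have hL1 := (le_max_left _ _).trans hL0'
  have hL2 := (le_max_right _ _).trans hL0'
  have hP := hN₃ N g3
  obtain ⟨Em, hEm, hErrBV⟩ := hN₂ N g2'
  have hCFi := fun i => hN₁ i N ((hi₁ i).trans g1)
  have hN0 : (0 : ℝ) < N := by linarith
  have hN1 : (1 : ℝ) ≤ N := by linarith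
  have hL0 : 0 < Real.log N := by linarith
  obtain ⟨y, hy⟩ : ∃ y : ℝ, y = (N : ℝ) ^ d := ⟨_, rfl⟩
  have hzy : zz N c ≤ y := by
    rw [pow_one] at hzy'
    rw [hy]
    have e1 : 2 * d / 2 = d := by ring
    rwa [e1] at hzy'
  have hyN : y ≤ N := by
    rw [hy]
    calc (N : ℝ) ^ d ≤ (N : ℝ) ^ (1 : ℝ) := Real.rpow_le_rpow_of_exponent_le hN1 (by linarith)
      _ = N := Real.rpow_one _
  have hy0' : 0 < y := by rw [hy]; positivity
  have hlogy : Real.log y = d * Real.log N := by rw [hy, Real.log_rpow hN0]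
  have hyb : y ^ b ≤ (N : ℝ) ^ (ε / 2) := by
    rw [hy, ← Real.rpow_natCast, ← Real.rpow_mul hN0.le]
    exact Real.rpow_le_rpow_of_exponent_le hN1 hdbε
  have hWy : c3 / Real.log N ≤ Wp y := by
    refine le_trans ?_ (hwl y (by linarith))
    rw [hlogy]
    refine div_le_div_of_nonneg_left hc3.le (by positivity) ?_
    nlinarith
  have hWy0 : 0 ≤ Wp y := le_trans (by positivity) hWy
  have h4y : 4 * (1 + Real.log y) ≤ 2 * Real.log N := by
    rw [hlogy]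
    nlinarith
  -- the system
  have hy1 : 1 ≤ Real.log N ^ c := Real.one_le_rpow (by linarith) (by linarith)
  have hy0 : 0 < Real.log N ^ c := by linarith
  have hyk : Real.log N ^ (k + f + 4) ≤ Real.log N ^ c := by
    rw [← Real.rpow_natCast]
    refine Real.rpow_le_rpow_of_exponent_le (by linarith) ?_
    push_cast
    linarith
  obtain ⟨M, hM⟩ : ∃ M : Fin k → Finset ℕ, M = fun i => m2 N c e (r i) := ⟨_, rfl⟩
  have hMi : ∀ i, M i = m2 N c e (r i) := fun i => by rw [hM]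
  obtain ⟨G, hG⟩ : ∃ G : Finset (Fin k → ℕ), G = (Fintype.piFinset M).filter (fun m =>
    (∀ i j, i ≠ j → (m i).Coprime (m j)) ∧ ∀ i, (m i).Coprime (dl (Fin.append h F))) := ⟨_, rfl⟩
  have hGm : ∀ m ∈ G, (∀ i, m i ∈ m2 N c e (r i)) ∧ (∀ i j, i ≠ j → (m i).Coprime (m j)) ∧
      ∀ i, (m i).Coprime (dl (Fin.append h F)) := by
    intro m hm
    rw [hG] at hm
    obtain ⟨h1, h2⟩ := mem_filter.1 hm
    exact ⟨fun i => by rw [← hMi]; exact Fintype.mem_piFinset.1 h1 i, h2⟩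
  have hm1 : ∀ m ∈ G, ∀ i, 1 ≤ m i := fun m hm i => ((hCFi i).1 _ ((hGm m hm).1 i)).1
  have hmP : ∀ m ∈ G, ((∏ i, m i : ℕ) : ℝ) ≤ (N : ℝ) ^ (2 * e * R) := by
    intro m hm
    push_cast
    calc ∏ i, (m i : ℝ) ≤ ∏ i, (N : ℝ) ^ (2 * e * r i) :=
          prod_le_prod (fun i _ => Nat.cast_nonneg _) fun i _ =>
            ((hCFi i).1 _ ((hGm m hm).1 i)).2.1
      _ = (N : ℝ) ^ (∑ i, 2 * e * r i) := (Real.rpow_sum_of_pos hN0 _ _).symm
      _ = (N : ℝ) ^ (2 * e * R) := by rw [hR, mul_sum]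
  have hmprod : ∀ m : Fin k → ℕ, ∏ i, 1 / (m i : ℝ) = 1 / ∏ i, (m i : ℝ) := by
    intro m
    simp only [one_div, prod_inv_distrib]
  -- the sieve weight
  have hWp := Wp_ge (show 2 ≤ zz N c by linarith)
  have hlz0 : 0 ≤ Real.log (zz N c) := Real.log_nonneg (by linarith)
  have hx1 : 1 ≤ 4 * (1 + Real.log (zz N c)) := by linarith
  have hxL : 4 * (1 + Real.log (zz N c)) ≤ Real.log N :=
    (le_self_pow₀ hx1 (by norm_num)).trans hzL
  have hW0 : 0 < Wp (zz N c) := by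
    by_contra hneg
    have h1 : Wp (zz N c) ≤ 0 := not_lt.1 hneg
    have h2 : 0 ≤ (4 * (1 + Real.log (zz N c))) ^ 16 := by positivity
    nlinarith
  have hWL : 1 ≤ Real.log N * Wp (zz N c) :=
    hWp.trans (mul_le_mul_of_nonneg_right hzL hW0.le)
  -- the sum over the good tuples
  obtain ⟨T, hT⟩ : ∃ T : ℝ, T = ∑ m ∈ G, ∏ i, 1 / (m i : ℝ) := ⟨_, rfl⟩
  have hT1 : cst ^ k / 2 ≤ T := by
    have h1 := hCPT k M cst Cst (Real.log N ^ c) (dl (Fin.append h F)) hcst0 hCst1 hy1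
      (Nat.pos_of_ne_zero hdl0)
      (fun i m hm => by
        rw [hMi] at hm
        exact ⟨((hCFi i).1 m hm).1, ((hCFi i).1 m hm).2.2.2⟩)
      (fun i => by rw [hMi]; exact (hcst i).trans (hCFi i).2.1)
      (fun i => by rw [hMi]; exact (hCFi i).2.2.1.trans (hCst i))
      (fun i l hl => by
        rw [hMi]
        refine ((hCFi i).2.2.2.1 l hl).trans ?_
        exact div_le_div_of_nonneg_right (hCst i) (Nat.cast_nonneg _))
    have h2 : T = ∑ m ∈ (Fintype.piFinset M).filter (fun m =>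
        (∀ i j, i ≠ j → (m i).Coprime (m j)) ∧ ∀ i, (m i).Coprime (dl (Fin.append h F))),
        ∏ i, 1 / (m i : ℝ) := by
      rw [hT, hG]
    rw [← h2] at h1
    have h3 := dl_log (Fin.append h F) (by exact_mod_cast (by linarith : (2 : ℝ) ≤ N)) (by
      intro i
      refine Fin.addCases (fun i => ?_) (fun j => ?_) i
      · rw [Fin.append_left]; exact hh i
      · rw [Fin.append_right]; exact ⟨hF1 j, hNF j⟩) hdl0
    have h4 : (k : ℝ) ^ 2 * Cst ^ k * (2 + Real.logb 2 (dl (Fin.append h F))) / Real.log N ^ c ≤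
        cst ^ k / 2 := by
      rw [div_le_iff₀ hy0]
      have h5 : 2 + Real.logb 2 (dl (Fin.append h F)) ≤ a * Real.log N := by
        rw [ha]
        nlinarith
      have h6 : Real.log N * Real.log N ≤ Real.log N ^ c := by
        refine le_trans ?_ hyk
        rw [← sq]
        exact pow_le_pow_right₀ (by linarith) (by omega)
      have h7 : 2 * (k : ℝ) ^ 2 * Cst ^ k * a ≤ Real.log N * cst ^ k := (div_le_iff₀ hck).1 hL2
      calc (k : ℝ) ^ 2 * Cst ^ k * (2 + Real.logb 2 (dl (Fin.append h F)))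
          ≤ (k : ℝ) ^ 2 * Cst ^ k * (a * Real.log N) :=
            mul_le_mul_of_nonneg_left h5 (by positivity)
        _ = (2 * (k : ℝ) ^ 2 * Cst ^ k * a) * Real.log N / 2 := by ring
        _ ≤ (Real.log N * cst ^ k) * Real.log N / 2 := by
            have := mul_le_mul_of_nonneg_right h7 hL0.le
            linarith
        _ = cst ^ k / 2 * (Real.log N * Real.log N) := by ring
        _ ≤ cst ^ k / 2 * Real.log N ^ c := mul_le_mul_of_nonneg_left h6 (by positivity)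
    linarith
  have hT2 : T ≤ Cst ^ k := by
    have h1 : T ≤ ∑ m ∈ Fintype.piFinset M, ∏ i, 1 / (m i : ℝ) := by
      rw [hT, hG]
      refine sum_le_sum_of_subset_of_nonneg (filter_subset _ _) fun m _ _ => ?_
      exact prod_nonneg fun i _ => by positivity
    rw [← prod_univ_sum M (fun _ m => 1 / (m : ℝ))] at h1
    refine h1.trans ?_
    calc ∏ i, ∑ m ∈ M i, 1 / (m : ℝ) ≤ ∏ _i : Fin k, Cst :=
          prod_le_prod (fun i _ => sum_nonneg fun m _ => by positivity) fun i _ => by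
            rw [hMi]
            exact (hCFi i).2.2.1.trans (hCst i)
      _ = Cst ^ k := by rw [prod_const, card_univ, Fintype.card_fin]
  -- the error terms
  have hEm0 : ∀ Q, 1 ≤ Q → 0 ≤ Em Q := fun Q hQ =>
    (abs_nonneg _).trans (hEm N Q 1 (Or.inl rfl) hQ (Nat.coprime_one_left Q))
  obtain ⟨D, hD⟩ : ∃ D : (Fin k → ℕ) → Finset ℕ, D = fun m =>
    (Icc 1 ⌊y ^ b⌋₊).filter (fun δ => Squarefree δ ∧ δ.Coprime (∏ i, m i)) := ⟨_, rfl⟩
  obtain ⟨Err, hErr⟩ : ∃ Err : ℝ, Err = ∑ m ∈ G, ∑ δ ∈ D m,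
    ((k + f : ℕ) : ℝ) ^ δ.primeFactors.card * Em (δ * ∏ i, m i) := ⟨_, rfl⟩
  have hDm : ∀ m ∈ G, ∀ δ ∈ D m, Sys m δ ∧ 1 ≤ δ ∧ δ * ∏ i, m i ≤ ⌊(N : ℝ) ^ ε⌋₊ := by
    intro m hm δ hδ
    rw [hD] at hδ
    obtain ⟨h1, h2⟩ := mem_filter.1 hδ
    obtain ⟨h3, h4⟩ := mem_Icc.1 h1
    refine ⟨⟨hm1 m hm, (hGm m hm).2.1, h2.2⟩, h3, ?_⟩
    rw [Nat.le_floor_iff (by positivity)]
    rw [Nat.cast_mul]
    have h5 : (δ : ℝ) ≤ (N : ℝ) ^ (ε / 2) := by
      have h6 : ((⌊y ^ b⌋₊ : ℕ) : ℝ) ≤ y ^ b := Nat.floor_le (by positivity)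
      have h7 : (δ : ℝ) ≤ ((⌊y ^ b⌋₊ : ℕ) : ℝ) := by exact_mod_cast h4
      linarith
    have h8 : (N : ℝ) ^ (2 * e * R) ≤ (N : ℝ) ^ (ε / 2) :=
      Real.rpow_le_rpow_of_exponent_le hN1 (by linarith)
    calc (δ : ℝ) * ((∏ i, m i : ℕ) : ℝ) ≤ (N : ℝ) ^ (ε / 2) * (N : ℝ) ^ (ε / 2) :=
          mul_le_mul h5 ((hmP m hm).trans h8) (Nat.cast_nonneg _) (by positivity)
      _ = (N : ℝ) ^ ε := by
          rw [← Real.rpow_add hN0]
          congr 1
          ring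
  have hErr0 : 0 ≤ Err := by
    rw [hErr]
    refine sum_nonneg fun m hm => sum_nonneg fun δ hδ => mul_nonneg (by positivity) (hEm0 _ ?_)
    exact Nat.mul_pos (hDm m hm δ hδ).2.1 (prod_pos fun i _ => hm1 m hm i)
  have hErr1 : Err ≤ N / Real.log N ^ (k + f + 3) := by
    rw [hErr]
    exact (MT3M.rep_sum G D Em ⌊(N : ℝ) ^ ε⌋₊ hDm hEm0 (hk.trans (Nat.le_add_right k f))).trans hErrBV
  -- the bad integers
  have hBad : ∑ m ∈ G, ((Bad N h m).card : ℝ) ≤ R * (N / Real.log N ^ c * T + G.card) := by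
    have h1 : ∀ m ∈ G, ((Bad N h m).card : ℝ) ≤
        R * (N / Real.log N ^ c * ∏ i, 1 / (m i : ℝ) + 1) := by
      intro m hm
      rw [hmprod, hR]
      refine Bad_card N h m r (Real.log N ^ c) hy1 (hm1 m hm) (hGm m hm).2.1 (fun i => ?_)
        (fun i l hl => ?_)
      · have h2 := ((hCFi i).1 _ ((hGm m hm).1 i)).2.2.1
        have h3 : (m i).primeFactors.card ≤ (m i).primeFactorsList.length :=
          List.toFinset_card_le _
        omega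
      · exact ((hCFi i).1 _ ((hGm m hm).1 i)).2.2.2 l (Nat.prime_of_mem_primeFactors hl)
          (Nat.dvd_of_mem_primeFactors hl)
    refine (sum_le_sum h1).trans (le_of_eq ?_)
    rw [← mul_sum, sum_add_distrib, ← mul_sum, sum_const, nsmul_eq_mul, mul_one, hT]
  have hGc : (G.card : ℝ) ≤ N / Real.log N ^ c * T := by
    have h1 : ∀ m ∈ G, (1 : ℝ) ≤ N / Real.log N ^ c * ∏ i, 1 / (m i : ℝ) := by
      intro m hm
      rw [hmprod, div_mul_div_comm, mul_one]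
      have hP0 : (0 : ℝ) < ∏ i, (m i : ℝ) := prod_pos fun i _ => by
        exact_mod_cast hm1 m hm i
      rw [le_div_iff₀ (by positivity), one_mul]
      have h2 := hmP m hm
      push_cast at h2
      have h3 : (N : ℝ) ^ (2 * e * R) ≤ (N : ℝ) ^ ((1 : ℝ) / 4) :=
        Real.rpow_le_rpow_of_exponent_le hN1 (by linarith)
      calc Real.log N ^ c * ∏ i, (m i : ℝ) ≤ (N : ℝ) ^ ((1 : ℝ) / 4) * (N : ℝ) ^ ((1 : ℝ) / 4) :=
            mul_le_mul hLc (h2.trans h3) hP0.le (by positivity)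
        _ = (N : ℝ) ^ ((1 : ℝ) / 2) := by
            rw [← Real.rpow_add hN0]
            norm_num
        _ ≤ (N : ℝ) ^ (1 : ℝ) := Real.rpow_le_rpow_of_exponent_le hN1 (by norm_num)
        _ = N := Real.rpow_one _
    have h2 := sum_le_sum h1
    rw [sum_const, nsmul_eq_mul, mul_one, ← mul_sum, ← hT] at h2
    exact h2
  -- the sieve
  obtain ⟨S, hS⟩ : ∃ S : (Fin k → ℕ) → Finset ℕ, S = fun m =>
    (Ioc N (2 * N)).filter (fun n : ℕ => n.Prime ∧ (∀ i, m i ∣ n + h i ∧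
      ∀ l : ℕ, l.Prime → (l : ℝ) < zz N c → ¬ l ∣ (∏ i, m i) → ¬ l ∣ n + h i) ∧
      ∀ j, ∀ l : ℕ, l.Prime → (l : ℝ) < y → ¬ l ∣ n + F j) := ⟨_, rfl⟩
  obtain ⟨P, hPdef⟩ : ∃ P : ℝ, P = (((Ioc N (2 * N)).filter Nat.Prime).card : ℝ) := ⟨_, rfl⟩
  have hP0 : 0 ≤ P := by rw [hPdef]; exact Nat.cast_nonneg _
  have hSsum : 1 / 2 * P * (cs * (Wp (zz N c) ^ k * Wp y ^ f)) * T - 4 * (1 + Real.log y) * Err ≤
      ∑ m ∈ G, ((S m).card : ℝ) := by
    have h1 : ∀ m ∈ G, 1 / 2 * P * (cs * (Wp (zz N c) ^ k * Wp y ^ f)) * ∏ i, 1 / (m i : ℝ) -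
        4 * (1 + Real.log y) * ∑ δ ∈ D m, ((k + f : ℕ) : ℝ) ^ δ.primeFactors.card *
          Em (δ * ∏ i, m i) ≤ ((S m).card : ℝ) := by
      intro m hm
      have h2 := hb N (zz N c) y h m F Em (by linarith) hzy hyN (fun i => (hh i).1) hF1 hAdm
        (hm1 m hm) (hGm m hm).2.1 (hGm m hm).2.2 hEm
      have h3 := hss h F (zz N c) y (by linarith) hzy hAdm
      have hPpos : 0 < ∏ i, m i := prod_pos fun i _ => hm1 m hm i
      have hφ0 : (0 : ℝ) < ((∏ i, m i).totient : ℝ) := by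
        exact_mod_cast Nat.totient_pos.2 hPpos
      have hφ : ((∏ i, m i).totient : ℝ) ≤ ((∏ i, m i : ℕ) : ℝ) := by
        exact_mod_cast Nat.totient_le _
      have h4 : P * ∏ i, 1 / (m i : ℝ) ≤ P / ((∏ i, m i).totient : ℝ) := by
        rw [hmprod, mul_one_div]
        refine div_le_div_of_nonneg_left hP0 hφ0 ?_
        push_cast at hφ
        exact hφ
      have h5 : 1 / 2 * P * (cs * (Wp (zz N c) ^ k * Wp y ^ f)) * ∏ i, 1 / (m i : ℝ) ≤
          1 / 2 * (P / ((∏ i, m i).totient : ℝ)) * vp h F (zz N c) y := by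
        have h6 : 0 ≤ cs * (Wp (zz N c) ^ k * Wp y ^ f) := by positivity
        have h7 : 0 ≤ P / ((∏ i, m i).totient : ℝ) := by positivity
        calc 1 / 2 * P * (cs * (Wp (zz N c) ^ k * Wp y ^ f)) * ∏ i, 1 / (m i : ℝ)
            = 1 / 2 * (P * ∏ i, 1 / (m i : ℝ)) * (cs * (Wp (zz N c) ^ k * Wp y ^ f)) := by ring
          _ ≤ 1 / 2 * (P / ((∏ i, m i).totient : ℝ)) * (cs * (Wp (zz N c) ^ k * Wp y ^ f)) := by
              refine mul_le_mul_of_nonneg_right ?_ h6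
              linarith
          _ ≤ _ := mul_le_mul_of_nonneg_left h3 (by positivity)
      have h8 : ((S m).card : ℝ) = (((Ioc N (2 * N)).filter (fun n : ℕ => n.Prime ∧
          (∀ i, m i ∣ n + h i ∧ ∀ l : ℕ, l.Prime → (l : ℝ) < zz N c → ¬ l ∣ (∏ i, m i) →
            ¬ l ∣ n + h i) ∧ ∀ j, ∀ l : ℕ, l.Prime → (l : ℝ) < y → ¬ l ∣ n + F j)).card : ℝ) := by
        rw [hS]
      have h9 : ∑ δ ∈ D m, ((k + f : ℕ) : ℝ) ^ δ.primeFactors.card * Em (δ * ∏ i, m i) =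
          ∑ δ ∈ (Icc 1 ⌊y ^ b⌋₊).filter (fun δ => Squarefree δ ∧ δ.Coprime (∏ i, m i)),
            ((k : ℝ) + f) ^ δ.primeFactors.card * Em (δ * ∏ i, m i) := by
        rw [hD]
        push_cast
        rfl
      rw [h8, h9]
      rw [hPdef] at h5
      rw [hPdef]
      refine le_trans ?_ h2
      linarith
    have h2 := sum_le_sum h1
    rw [sum_sub_distrib, ← mul_sum, ← mul_sum, ← hT, ← hErr] at h2
    exact h2
  -- the weights
  obtain ⟨κ, hκ⟩ : ∃ κ : ℝ, κ = 1 / (2 * Real.log N * Wp (zz N c)) := ⟨_, rfl⟩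
  have hκ0 : 0 ≤ κ := by rw [hκ]; positivity
  have hw0 : ∀ j, 0 ≤ w1 N c j := by
    intro j
    unfold w1 rInd
    split_ifs
    · positivity
    · simp
  have hw : ∀ j, Rough (zz N c) j → w1 N c j = κ := by
    intro j hj
    unfold w1 rInd
    rw [if_pos hj, hκ]
  obtain ⟨PP, hPP⟩ : ∃ PP : ℕ → ℝ, PP = fun n => pI n * rF F y n := ⟨_, rfl⟩
  have hPP0 : ∀ n, 0 ≤ PP n := by
    intro n
    rw [hPP]
    refine mul_nonneg ?_ (prod_nonneg fun j _ => ?_)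
    · unfold pI
      split_ifs <;> norm_num
    · unfold rInd
      split_ifs <;> norm_num
  have hPP1 : ∀ m ∈ G, ∀ n ∈ S m, PP n = 1 := by
    intro m hm n hn
    rw [hS] at hn
    obtain ⟨h1, h2, h3, h4⟩ := mem_filter.1 hn
    rw [hPP]
    show pI n * rF F y n = 1
    have h5 : rF F y n = 1 := by
      unfold rF
      refine prod_eq_one fun j _ => ?_
      unfold rInd
      rw [if_pos]
      intro p hp hpd
      by_contra hlt
      exact h4 j p hp (not_le.1 hlt) hpd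
    rw [h5, mul_one]
    unfold pI
    rw [if_pos h2]
  have htot := MT3M.total_ge N h M PP hPP0 G (by rw [hG]; exact filter_subset _ _) (zz N c) κ
    (w1 N c) S hPP1 hw0 hw
    hm1 (fun m hm i => ((hGm m hm).2.2 i).coprime_dvd_right (MT3M.dl_append h F))
    (fun m hm n hn => by
      rw [hS] at hn
      obtain ⟨h1, h2, h3, h4⟩ := mem_filter.1 hn
      exact ⟨h1, h2, h3⟩) hκ0
  rw [sum_sub_distrib] at htot
  have hfin : ∑ n ∈ Ioc N (2 * N), (pI n * rF F ((N : ℝ) ^ d) n) * ∏ i, g2 N c e (r i) (n + h i) =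
      ∑ n ∈ Ioc N (2 * N), PP n * ∏ i, ∑ m ∈ M i,
        if m ∣ n + h i then w1 N c ((n + h i) / m) else 0 := by
    refine sum_congr rfl fun n _ => ?_
    rw [hPP, hy]
    congr 1
    refine prod_congr rfl fun i _ => ?_
    rw [hMi]
    exact (hCFi i).2.2.2.2 _
  rw [hfin]
  refine le_trans ?_ htot
  have hL1' : 2 * (2 + 2 * R * Cst ^ k) ≤ c0 * Real.log N := by
    rw [mul_comm c0]
    exact (div_le_iff₀ hc00).1 hL1
  exact MT3M.numeric hL16 hN3 hWL hκ hc3 hWy h4y hcs hcst0 hCst1 hR0.le hyk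
    (by rw [hPdef]; exact hP) hT1 hT2 hSsum hErr0 hErr1 hBad hGc hc0 hL1'

end

end Pool.Agent.Lib.MP3efbeb.LG
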