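import Pool.Agent.Lib.MP_3efbeb_nt.LG.SpecD
import Pool.Agent.Lib.MP_3efbeb_nt.LG.SLB

/-!
# SL3: the sieve for one tuple of cofactors, with fixed shifts (MP_3efbeb_nt, LongPatterns)
-/

set_option autoImplicit false

namespace Pool.Agent.Lib.MP3efbeb.LG

open Finset
open Pool.Agent.Lib.MP391708.QPA (PB rInd Wp Rough)
open Pool.Agent.Lib.MP391708.QPA.FL (mem_PB)
open Pool.Agent.Lib.MP_3efbeb_nt.SV.SieveM (Mk Dens flk)
open scoped Classical

namespace SL3M

open SLBM (crt_card cc cl cc_le cc_adm dvd_prod_mod dvd_add_mod single split class_err Em_nonneg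
  totient_prod)

variable {k f : ℕ}

/-- all shifts below `z`, the fixed shifts above `z` -/
def PP (z : ℝ) (h : Fin k → ℕ) (F : Fin f → ℕ) (l a : ℕ) : Prop :=
  if (l : ℝ) < z then l ∣ ∏ i, (a + Fin.append h F i) else l ∣ ∏ j, (a + F j)

/-- the number of the nonzero classes -/
noncomputable def ccc (z : ℝ) (h : Fin k → ℕ) (F : Fin f → ℕ) (l : ℕ) : ℕ :=
  if (l : ℝ) < z then cc (Fin.append h F) l else cc F l

/-- the density -/
noncomputable def gdd (z : ℝ) (h : Fin k → ℕ) (F : Fin f → ℕ) (l : ℕ) : ℝ :=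
  if (l : ℝ) < z then gd (Fin.append h F) l else gd F l

lemma gdd_eq (z : ℝ) (h : Fin k → ℕ) (F : Fin f → ℕ) (l : ℕ) :
    gdd z h F l = (ccc z h F l : ℝ) / ((l : ℝ) - 1) := by
  unfold gdd ccc
  split_ifs <;> rfl

lemma adm_F {h : Fin k → ℕ} {F : Fin f → ℕ} (hA : Adm (Fin.append h F)) : Adm F := by
  intro l hl
  obtain ⟨a, ha⟩ := hA l hl
  refine ⟨a, fun hd => ha ?_⟩
  refine hd.trans (mul_dvd_mul_left a ?_)
  rw [Fin.prod_univ_add]
  simp only [Fin.append_right]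
  exact dvd_mul_left _ _

lemma cl' (z : ℝ) (h : Fin k → ℕ) (F : Fin f → ℕ) {l : ℕ} (hl : l.Prime) :
    ((range l).filter (fun a => ¬ l ∣ a ∧ PP z h F l a)).card = ccc z h F l := by
  unfold ccc
  by_cases hlz : (l : ℝ) < z
  · rw [if_pos hlz, ← cl (Fin.append h F) hl]
    congr 1
    refine filter_congr fun a _ => ?_
    rw [PP, if_pos hlz]
  · rw [if_neg hlz, ← cl F hl]
    congr 1
    refine filter_congr fun a _ => ?_
    rw [PP, if_neg hlz]

lemma ccc_le (z : ℝ) (h : Fin k → ℕ) (F : Fin f → ℕ) (l : ℕ) : ccc z h F l ≤ k + f := by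
  unfold ccc
  split_ifs
  · exact cc_le _ l
  · exact (cc_le F l).trans (Nat.le_add_left f k)

lemma ccc_adm {z : ℝ} {h : Fin k → ℕ} {F : Fin f → ℕ} (hA : Adm (Fin.append h F)) {l : ℕ}
    (hl : l.Prime) : ccc z h F l + 2 ≤ l := by
  unfold ccc
  split_ifs
  · exact cc_adm hA hl
  · exact cc_adm (adm_F hA) hl

lemma PP_mod (z : ℝ) (h : Fin k → ℕ) (F : Fin f → ℕ) {l n : ℕ} (a : ℕ) (hln : l ∣ n) :
    PP z h F l (a % n) ↔ PP z h F l a := by
  unfold PP
  split_ifs
  · exact dvd_prod_mod _ a hln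
  · exact dvd_prod_mod _ a hln

/-- the condition on the residue classes -/
def CP (z : ℝ) (h : Fin k → ℕ) (F : Fin f → ℕ) (s : Finset ℕ) (a : ℕ) : Prop :=
  ∀ l ∈ s, ¬ l ∣ a ∧ PP z h F l a

lemma CP_mod (z : ℝ) (h : Fin k → ℕ) (F : Fin f → ℕ) {s : Finset ℕ} {n : ℕ} (a : ℕ)
    (hs : ∀ l ∈ s, l ∣ n) : CP z h F s (a % n) ↔ CP z h F s a := by
  unfold CP
  refine forall₂_congr fun l hl => ?_
  rw [PP_mod z h F a (hs l hl), Nat.dvd_mod_iff (hs l hl)]

lemma prodset (z : ℝ) (h : Fin k → ℕ) (F : Fin f → ℕ) (s : Finset ℕ) (hs : ∀ l ∈ s, l.Prime) :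
    ((range (∏ l ∈ s, l)).filter (CP z h F s)).card = ∏ l ∈ s, ccc z h F l := by
  induction s using Finset.induction_on with
  | empty =>
    rw [prod_empty, prod_empty, filter_true_of_mem]
    · rfl
    · intro a _ l hl
      exact absurd hl (notMem_empty l)
  | insert l s hls ih =>
    have hl : l.Prime := hs l (mem_insert_self l s)
    have hs' : ∀ l' ∈ s, l'.Prime := fun l' h' => hs l' (mem_insert_of_mem h')
    rw [prod_insert hls, prod_insert hls, ← ih hs', ← cl' z h F hl]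
    have hcop : Nat.Coprime l (∏ l ∈ s, l) := by
      refine Nat.Coprime.prod_right fun l' h' => ?_
      rw [Nat.coprime_primes hl (hs' l' h')]
      rintro rfl
      exact hls h'
    rw [← crt_card hcop hl.pos (prod_pos fun l' h' => (hs' l' h').pos)
      (fun a => ¬ l ∣ a ∧ PP z h F l a) (CP z h F s)]
    congr 1
    refine filter_congr fun a _ => ?_
    rw [CP_mod z h F a (fun l' h' => dvd_prod_of_mem _ h')]
    rw [PP_mod z h F a dvd_rfl, Nat.dvd_mod_iff dvd_rfl]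
    unfold CP
    rw [forall_mem_insert]

lemma R_card (z : ℝ) (h m : Fin k → ℕ) (F : Fin f → ℕ) (hm : ∀ i, 1 ≤ m i)
    (hcop : ∀ i j, i ≠ j → (m i).Coprime (m j)) (s : Finset ℕ) (hs : ∀ l ∈ s, l.Prime)
    (hsm : Nat.Coprime (∏ l ∈ s, l) (∏ i, m i)) :
    ((range ((∏ l ∈ s, l) * ∏ i, m i)).filter
      (fun a => CP z h F s a ∧ ∀ i, m i ∣ a + h i)).card = ∏ l ∈ s, ccc z h F l := by
  have h1 := crt_card hsm (prod_pos fun l' h' => (hs l' h').pos) (prod_pos fun i _ => hm i)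
    (CP z h F s) (fun a => ∀ i, m i ∣ a + h i)
  rw [prodset z h F s hs, single h m hm hcop, mul_one] at h1
  rw [← h1]
  congr 1
  refine filter_congr fun a _ => ?_
  rw [CP_mod z h F a (fun l' h' => dvd_prod_of_mem _ h')]
  refine and_congr_right fun _ => forall_congr' fun i => ?_
  exact (dvd_add_mod a (h i) (dvd_prod_of_mem m (mem_univ i))).symm

/-- the product of the sieving primes dividing the value -/
noncomputable def vv (z y : ℝ) (h m : Fin k → ℕ) (F : Fin f → ℕ) (n : ℕ) : ℕ :=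
  ∏ l ∈ (PB y).filter (fun l => ¬ l ∣ (∏ i, m i) ∧ PP z h F l n), l

lemma dvd_vv {z y : ℝ} {h m : Fin k → ℕ} {F : Fin f → ℕ} {n l : ℕ} (hl : l.Prime) :
    l ∣ vv z y h m F n ↔ (l : ℝ) < y ∧ ¬ l ∣ (∏ i, m i) ∧ PP z h F l n := by
  unfold vv
  rw [hl.prime.dvd_finsetProd_iff]
  constructor
  · rintro ⟨l', h1, h2⟩
    rw [mem_filter, mem_PB] at h1
    have h3 : l = l' := (Nat.prime_dvd_prime_iff_eq hl h1.1.1).1 h2
    subst h3
    exact ⟨h1.1.2, h1.2⟩
  · rintro ⟨h1, h2⟩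
    exact ⟨l, mem_filter.2 ⟨mem_PB.2 ⟨hl, h1⟩, h2⟩, dvd_rfl⟩

lemma rem {N : ℕ} {z y : ℝ} {h m : Fin k → ℕ} {F : Fin f → ℕ} {Em : ℕ → ℝ} (hzN : y ≤ N)
    (hm : ∀ i, 1 ≤ m i) (hcop : ∀ i j, i ≠ j → (m i).Coprime (m j))
    (hdl : ∀ i, (m i).Coprime (dl (Fin.append h F)))
    (hE : IsEm N Em) {δ : ℕ} (hδ : 1 ≤ δ) (hsq : Squarefree δ)
    (hlt : ∀ p : ℕ, p.Prime → p ∣ δ → (p : ℝ) < y) (hδM : δ.Coprime (∏ i, m i)) :
    |((((Ioc N (2 * N)).filter (fun n : ℕ => n.Prime ∧ ∀ i, m i ∣ n + h i)).filter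
        (fun n => δ ∣ vv z y h m F n)).card : ℝ) -
      ((((Ioc N (2 * N)).filter Nat.Prime).card : ℝ) / (∏ i, m i).totient) *
        ∏ p ∈ δ.primeFactors, gdd z h F p| ≤
      2 * (((k : ℝ) + f) ^ δ.primeFactors.card * Em (δ * ∏ i, m i)) := by
  set M := ∏ i, m i with hM
  have hM0 : 0 < M := prod_pos fun i _ => hm i
  set s := δ.primeFactors with hs
  have hsp : ∀ l ∈ s, l.Prime := fun l hl => Nat.prime_of_mem_primeFactors hl
  have hδs : ∏ l ∈ s, l = δ := Nat.prod_primeFactors_of_squarefree hsq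
  have hsd : ∀ l ∈ s, l ∣ δ := fun l hl => Nat.dvd_of_mem_primeFactors hl
  set R := (range (δ * M)).filter (fun a => CP z h F s a ∧ ∀ i, m i ∣ a + h i) with hR
  have hRc : R.card = ∏ l ∈ s, ccc z h F l := by
    have h1 := R_card z h m F hm hcop s hsp (by rw [hδs]; exact hδM)
    rw [hδs] at h1
    exact h1
  have hQ0 : 0 < δ * M := Nat.mul_pos (by omega) hM0
  -- the set
  set A := ((Ioc N (2 * N)).filter (fun n : ℕ => n.Prime ∧ ∀ i, m i ∣ n + h i)).filter
        (fun n => δ ∣ vv z y h m F n) with hA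
  have hmodR : ∀ n : ℕ, n % (δ * M) ∈ R ↔ CP z h F s n ∧ ∀ i, m i ∣ n + h i := by
    intro n
    rw [hR, mem_filter, mem_range, CP_mod z h F n (fun l hl => (hsd l hl).mul_right M)]
    constructor
    · rintro ⟨_, h1, h2⟩
      exact ⟨h1, fun i => (dvd_add_mod n (h i)
        ((dvd_prod_of_mem m (mem_univ i)).mul_left δ)).1 (h2 i)⟩
    · rintro ⟨h1, h2⟩
      exact ⟨Nat.mod_lt _ hQ0, h1, fun i => (dvd_add_mod n (h i)
        ((dvd_prod_of_mem m (mem_univ i)).mul_left δ)).2 (h2 i)⟩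
  have hAmem : ∀ n, n ∈ A ↔ (n ∈ Ioc N (2 * N) ∧ n.Prime) ∧ n % (δ * M) ∈ R := by
    intro n
    rw [hmodR, hA, mem_filter, mem_filter]
    constructor
    · rintro ⟨⟨h1, h2, h3⟩, h4⟩
      refine ⟨⟨h1, h2⟩, ?_, h3⟩
      intro l hl
      have h5 := (dvd_vv (hsp l hl)).1 ((hsd l hl).trans h4)
      refine ⟨?_, h5.2.2⟩
      intro h6
      have h7 := (Nat.prime_dvd_prime_iff_eq (hsp l hl) h2).1 h6
      have h8 : (N : ℝ) < n := by exact_mod_cast (mem_Ioc.1 h1).1
      rw [← h7] at h8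
      linarith [h5.1]
    · rintro ⟨⟨h1, h2⟩, h3, h4⟩
      refine ⟨⟨h1, h2, h4⟩, ?_⟩
      rw [← hδs]
      unfold vv
      refine prod_dvd_prod_of_subset _ _ _ ?_
      intro l hl
      rw [mem_filter, mem_PB]
      refine ⟨⟨hsp l hl, hlt l (hsp l hl) (hsd l hl)⟩, ?_, (h3 l hl).2⟩
      intro h5
      have h6 := Nat.dvd_gcd (hsd l hl) h5
      rw [hδM] at h6
      exact (hsp l hl).one_lt.ne' (Nat.dvd_one.1 h6)
  -- the classes are coprime to the modulus
  have hRcop : ∀ a ∈ R, a.Coprime (δ * M) := by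
    intro a ha
    rw [hR, mem_filter] at ha
    obtain ⟨_, h1, h2⟩ := ha
    refine Nat.Coprime.mul_right ?_ ?_
    · rw [← hδs]
      refine Nat.Coprime.prod_right fun l hl => ?_
      exact Nat.Coprime.symm ((Nat.Prime.coprime_iff_not_dvd (hsp l hl)).2 (h1 l hl).1)
    · rw [hM]
      refine Nat.Coprime.prod_right fun i _ => ?_
      rw [Nat.coprime_iff_gcd_eq_one]
      have h3 : Nat.gcd a (m i) ∣ h i := by
        have h4 : Nat.gcd a (m i) ∣ a + h i := (Nat.gcd_dvd_right a (m i)).trans (h2 i)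
        exact (Nat.dvd_add_right (Nat.gcd_dvd_left a (m i))).1 h4
      have h4 : h i ∣ dl (Fin.append h F) := by
        unfold dl
        refine dvd_mul_of_dvd_left ?_ _
        have h6 := dvd_prod_of_mem (Fin.append h F) (mem_univ (Fin.castAdd f i))
        rwa [Fin.append_left] at h6
      have h5 : Nat.gcd a (m i) ∣ Nat.gcd (m i) (dl (Fin.append h F)) :=
        Nat.dvd_gcd (Nat.gcd_dvd_right a (m i)) (h3.trans h4)
      rw [hdl i] at h5
      exact Nat.dvd_one.1 h5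
  -- the count as a sum over the classes
  have hcount : (A.card : ℝ) = ∑ a ∈ R,
      (((Ioc N (2 * N)).filter (fun p => p.Prime ∧ p ≡ a [MOD (δ * M)])).card : ℝ) := by
    rw [← Nat.cast_sum]
    congr 1
    rw [card_eq_sum_card_fiberwise (f := fun n => n % (δ * M)) (t := R)
      (fun n hn => ((hAmem n).1 (mem_coe.1 hn)).2)]
    refine sum_congr rfl fun a ha => ?_
    congr 1
    ext n
    have ha' : a < δ * M := by
      have ha1 := ha
      rw [hR, mem_filter, mem_range] at ha1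
      exact ha1.1
    constructor
    · intro hn
      obtain ⟨hn1, h4⟩ := mem_filter.1 hn
      obtain ⟨⟨h1, h2⟩, h3⟩ := (hAmem n).1 hn1
      refine mem_filter.2 ⟨h1, h2, ?_⟩
      show n % (δ * M) = a % (δ * M)
      rw [Nat.mod_eq_of_lt ha']
      exact h4
    · intro hn
      obtain ⟨h1, h2, h3⟩ := mem_filter.1 hn
      have h4 : n % (δ * M) = a := by
        have h5 : n % (δ * M) = a % (δ * M) := h3
        rw [h5, Nat.mod_eq_of_lt ha']
      refine mem_filter.2 ⟨(hAmem n).2 ⟨⟨h1, h2⟩, ?_⟩, h4⟩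
      rw [h4]
      exact ha
  -- the main term
  have htot : ((δ * M).totient : ℝ) = (M.totient : ℝ) * ∏ l ∈ s, ((l : ℝ) - 1) := by
    rw [Nat.totient_mul hδM, ← hδs, totient_prod s hsp]
    push_cast
    rw [mul_comm]
    congr 1
    refine prod_congr rfl fun l hl => ?_
    rw [Nat.cast_sub (hsp l hl).one_lt.le, Nat.cast_one]
  have hmain : ((((Ioc N (2 * N)).filter Nat.Prime).card : ℝ) / M.totient) *
      ∏ p ∈ s, gdd z h F p = ∑ a ∈ R, (((Ioc N (2 * N)).filter Nat.Prime).card : ℝ) /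
        (δ * M).totient := by
    rw [sum_const, nsmul_eq_mul, hRc, htot]
    have h1 : ∏ p ∈ s, gdd z h F p = (∏ l ∈ s, (ccc z h F l : ℝ)) / ∏ l ∈ s, ((l : ℝ) - 1) := by
      rw [← prod_div_distrib]
      exact prod_congr rfl fun l _ => gdd_eq z h F l
    rw [h1]
    push_cast
    ring
  rw [hcount, hmain, ← sum_sub_distrib]
  refine (abs_sum_le_sum_abs _ _).trans ?_
  refine (sum_le_sum fun a ha => class_err hE hQ0 (hRcop a ha)).trans ?_
  rw [sum_const, nsmul_eq_mul, hRc]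
  have hE0 := Em_nonneg hE hQ0
  have h1 : ((∏ l ∈ s, ccc z h F l : ℕ) : ℝ) ≤ ((k : ℝ) + f) ^ s.card := by
    rw [← prod_const]
    push_cast
    exact prod_le_prod (fun _ _ => Nat.cast_nonneg _) (fun l _ => by exact_mod_cast ccc_le z h F l)
  calc ((∏ l ∈ s, ccc z h F l : ℕ) : ℝ) * (2 * Em (δ * M)) ≤ ((k : ℝ) + f) ^ s.card * (2 * Em (δ * M)) :=
        mul_le_mul_of_nonneg_right h1 (by positivity)
    _ = _ := by ring

lemma hi_hj {h : Fin k → ℕ} {F : Fin f → ℕ} (i : Fin k) (j : Fin f) :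
    ((h i : ℤ) - F j).natAbs ∣ dl (Fin.append h F) := by
  have h2 : Fin.castAdd f i < Fin.natAdd k j := by
    rw [Fin.lt_def, Fin.val_castAdd, Fin.val_natAdd]
    have := i.2
    omega
  have h3 : ∀ (G : Fin (k + f) → ℕ) (x x' : Fin (k + f)), x < x' →
      ((G x : ℤ) - G x').natAbs ∣ dl G := by
    intro G x x' hx
    unfold dl
    refine dvd_mul_of_dvd_right ?_ _
    refine dvd_trans ?_ (dvd_prod_of_mem _ (mem_univ x))
    exact dvd_prod_of_mem (fun j => ((G x : ℤ) - G j).natAbs) (mem_filter.2 ⟨mem_univ x', hx⟩)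
  have h4 := h3 (Fin.append h F) _ _ h2
  rwa [Fin.append_left, Fin.append_right] at h4

end SL3M

open SL3M in
open SLBM (Em_nonneg) in
theorem specSL3 : SpecSL3 := by
  intro k f hk
  obtain ⟨b, hb⟩ : ∃ b : ℕ, Mk (2 * (k + f)) * Real.exp (-(b : ℝ)) ≤ 1 / 2 := by
    have hM : 0 < Mk (2 * (k + f)) := Real.exp_pos _
    obtain ⟨b, hb⟩ := exists_nat_ge (2 * Mk (2 * (k + f)))
    refine ⟨b, ?_⟩
    rw [Real.exp_neg]
    have h1 : 2 * Mk (2 * (k + f)) ≤ Real.exp b := hb.trans (by linarith [Real.add_one_le_exp (b : ℝ)])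
    rw [mul_inv_le_iff₀ (Real.exp_pos _)]
    linarith
  refine ⟨8 * b + 16, ?_⟩
  intro N z y h m F Em hz hzy hyN hh hF hAdm hm hcop hdl hE
  have hy : 2 ≤ y := hz.trans hzy
  set M := ∏ i, m i with hM
  have hM0 : 0 < M := prod_pos fun i _ => hm i
  have hk0 : (0 : ℝ) < (k : ℝ) + f := by
    have : (0 : ℝ) < k := by exact_mod_cast hk
    positivity
  have hgdD : ∀ l : ℕ, l.Prime → 0 ≤ gdd z h F l ∧
      gdd z h F l ≤ ((2 * (k + f) : ℕ) : ℝ) / (l : ℝ) ∧
      gdd z h F l ≤ ((2 * (k + f) : ℕ) : ℝ) / (((2 * (k + f) : ℕ) : ℝ) + 1) := by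
    intro l hl
    have h1 : (ccc z h F l : ℝ) ≤ (k : ℝ) + f := by exact_mod_cast ccc_le z h F l
    have h2 : (ccc z h F l : ℝ) + 2 ≤ l := by exact_mod_cast ccc_adm hAdm hl
    have hl2 : (2 : ℝ) ≤ l := by exact_mod_cast hl.two_le
    have hl1 : (0 : ℝ) < (l : ℝ) - 1 := by linarith
    have hc0 : (0 : ℝ) ≤ ccc z h F l := Nat.cast_nonneg _
    rw [gdd_eq]
    push_cast
    refine ⟨by positivity, ?_, ?_⟩
    · rw [div_le_div_iff₀ hl1 (by linarith)]
      nlinarith
    · rw [div_le_div_iff₀ hl1 (by positivity)]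
      rcases le_total ((l : ℝ) - 1) (2 * ((k : ℝ) + f) + 1) with h3 | h3
      · nlinarith
      · nlinarith
  set g : ℕ → ℝ := fun l => if l ∣ M then 0 else gdd z h F l with hg
  have hgD : Dens (2 * (k + f)) g := by
    intro l hl
    rw [hg]
    simp only
    split_ifs with hd
    · refine ⟨le_rfl, by positivity, by positivity⟩
    · exact hgdD l hl
  have hgle : ∀ l ∈ PB y, 0 ≤ 1 - gdd z h F l ∧ 1 - gdd z h F l ≤ 1 - g l := by
    intro l hl
    have hlp := (mem_PB.1 hl).1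
    have h1 := hgdD l hlp
    have h2 : ((2 * (k + f) : ℕ) : ℝ) / (((2 * (k + f) : ℕ) : ℝ) + 1) ≤ 1 := by
      rw [div_le_one (by positivity)]
      linarith
    refine ⟨by linarith [h1.2.2], ?_⟩
    rw [hg]
    simp only
    split_ifs with hd
    · linarith [h1.1]
    · exact le_rfl
  set T := (Ioc N (2 * N)).filter (fun n : ℕ => n.Prime ∧ ∀ i, m i ∣ n + h i) with hT
  set X : ℝ := (((Ioc N (2 * N)).filter Nat.Prime).card : ℝ) / M.totient with hX
  have hX0 : 0 ≤ X := by positivity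
  have hfl := flk (2 * (k + f)) b hb y hy T (vv z y h m F) (fun _ => 1) X g hX0
    (fun _ _ => zero_le_one) hgD
  have hlog0 : 0 ≤ 1 + Real.log y := by
    have := Real.log_nonneg (by linarith : (1 : ℝ) ≤ y)
    linarith
  -- the right side
  have hrhs : ∑ i ∈ T, (1 : ℝ) * rInd y (vv z y h m F i) ≤
      (((Ioc N (2 * N)).filter (fun n : ℕ => n.Prime ∧ (∀ i, m i ∣ n + h i ∧
      ∀ l : ℕ, l.Prime → (l : ℝ) < z → ¬ l ∣ M → ¬ l ∣ n + h i) ∧
      ∀ j, ∀ l : ℕ, l.Prime → (l : ℝ) < y → ¬ l ∣ n + F j)).card : ℝ) := by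
    have e1 : ∑ i ∈ T, (1 : ℝ) * rInd y (vv z y h m F i) =
        ((T.filter (fun n => Rough y (vv z y h m F n))).card : ℝ) := by
      rw [card_filter]
      push_cast
      refine sum_congr rfl fun n _ => ?_
      rw [one_mul]
      rfl
    rw [e1, Nat.cast_le]
    refine card_le_card ?_
    intro n hn
    rw [mem_filter, hT, mem_filter] at hn
    obtain ⟨⟨h1, h2, h3⟩, h4⟩ := hn
    rw [mem_filter]
    refine ⟨h1, h2, fun i => ⟨h3 i, ?_⟩, ?_⟩
    · intro l hl hlz hlM hd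
      have h6 : PP z h F l n := by
        rw [PP, if_pos hlz]
        have h7 := dvd_prod_of_mem (fun i => n + Fin.append h F i) (mem_univ (Fin.castAdd f i))
        simp only [Fin.append_left] at h7
        exact hd.trans h7
      have h5 : l ∣ vv z y h m F n := (dvd_vv hl).2 ⟨hlz.trans_le hzy, hlM, h6⟩
      exact absurd (h4 l hl h5) (not_le.2 (hlz.trans_le hzy))
    · intro j l hl hly hd
      by_cases hlM : l ∣ M
      · obtain ⟨i, -, hi⟩ := (hl.prime.dvd_finsetProd_iff _).1 hlM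
        have h5 : l ∣ n + h i := hi.trans (h3 i)
        have h6 : (l : ℤ) ∣ (h i : ℤ) - F j := by
          have h7 : ((l : ℕ) : ℤ) ∣ ((n + h i : ℕ) : ℤ) - ((n + F j : ℕ) : ℤ) :=
            dvd_sub (by exact_mod_cast h5) (by exact_mod_cast hd)
          have h8 : ((n + h i : ℕ) : ℤ) - ((n + F j : ℕ) : ℤ) = (h i : ℤ) - F j := by
            push_cast; ring
          rwa [h8] at h7
        have h7 : l ∣ ((h i : ℤ) - F j).natAbs := Int.natCast_dvd.1 h6
        have h8 : l ∣ Nat.gcd (m i) (dl (Fin.append h F)) :=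
          Nat.dvd_gcd hi (h7.trans (hi_hj i j))
        rw [hdl i] at h8
        exact hl.one_lt.ne' (Nat.dvd_one.1 h8)
      · have h6 : PP z h F l n := by
          unfold PP
          split_ifs with hlz
          · have h7 := dvd_prod_of_mem (fun i => n + Fin.append h F i) (mem_univ (Fin.natAdd k j))
            simp only [Fin.append_right] at h7
            exact hd.trans h7
          · exact hd.trans (dvd_prod_of_mem (fun j => n + F j) (mem_univ j))
        have h5 : l ∣ vv z y h m F n := (dvd_vv hl).2 ⟨hly, hlM, h6⟩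
        exact absurd (h4 l hl h5) (not_le.2 hly)
  -- the remainders
  set D := (Icc 1 ⌊y ^ (8 * b + 16)⌋₊).filter
    (fun δ => Squarefree δ ∧ ∀ p : ℕ, p.Prime → p ∣ δ → (p : ℝ) < y) with hD
  set D' := (Icc 1 ⌊y ^ (8 * b + 16)⌋₊).filter (fun δ => Squarefree δ ∧ δ.Coprime M) with hD'
  have hrem : ∑ δ ∈ D, |(∑ i ∈ T.filter (fun i => δ ∣ vv z y h m F i), (1 : ℝ)) -
      X * ∏ p ∈ δ.primeFactors, g p| ≤
      ∑ δ ∈ D', 2 * (((k : ℝ) + f) ^ δ.primeFactors.card * Em (δ * M)) := by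
    have h1 : ∀ δ ∈ D, |(∑ i ∈ T.filter (fun i => δ ∣ vv z y h m F i), (1 : ℝ)) -
        X * ∏ p ∈ δ.primeFactors, g p| ≤
        if δ.Coprime M then 2 * (((k : ℝ) + f) ^ δ.primeFactors.card * Em (δ * M)) else 0 := by
      intro δ hδ
      rw [hD, mem_filter, mem_Icc] at hδ
      obtain ⟨⟨hδ1, _⟩, hsq, hlt⟩ := hδ
      have e1 : (∑ i ∈ T.filter (fun i => δ ∣ vv z y h m F i), (1 : ℝ)) =
          ((T.filter (fun i => δ ∣ vv z y h m F i)).card : ℝ) := by
        rw [sum_const, nsmul_eq_mul, mul_one]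
      rw [e1]
      split_ifs with hc
      · have e2 : ∏ p ∈ δ.primeFactors, g p = ∏ p ∈ δ.primeFactors, gdd z h F p := by
          refine prod_congr rfl fun p hp => ?_
          rw [hg]
          simp only
          rw [if_neg]
          intro hpM
          have h6 := Nat.dvd_gcd (Nat.dvd_of_mem_primeFactors hp) hpM
          rw [hc] at h6
          exact (Nat.prime_of_mem_primeFactors hp).one_lt.ne' (Nat.dvd_one.1 h6)
        rw [e2]
        exact SL3M.rem hyN hm hcop hdl hE hδ1 hsq hlt hc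
      · obtain ⟨p, hp, hpδ, hpM⟩ := Nat.Prime.not_coprime_iff_dvd.1 hc
        have e2 : ∏ p ∈ δ.primeFactors, g p = 0 := by
          refine prod_eq_zero (Nat.mem_primeFactors.2 ⟨hp, hpδ, by omega⟩) ?_
          rw [hg]
          simp only
          rw [if_pos hpM]
        have e3 : T.filter (fun i => δ ∣ vv z y h m F i) = ∅ := by
          refine filter_false_of_mem fun n _ hd => ?_
          exact ((dvd_vv hp).1 (hpδ.trans hd)).2.1 hpM
        rw [e2, e3]
        simp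
    refine (sum_le_sum h1).trans ?_
    rw [← sum_filter]
    refine sum_le_sum_of_subset_of_nonneg ?_ ?_
    · intro δ hδ
      rw [mem_filter, hD, mem_filter] at hδ
      rw [hD', mem_filter]
      exact ⟨hδ.1.1, hδ.1.2.1, hδ.2⟩
    · intro δ hδ _
      rw [hD', mem_filter, mem_Icc] at hδ
      have := Em_nonneg hE (Nat.mul_pos (by omega : 0 < δ) hM0)
      positivity
  rw [← mul_sum] at hrem
  -- the product
  have hprod : ∏ l ∈ PB y, (1 - gdd z h F l) ≤ ∏ p ∈ PB y, (1 - g p) :=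
    prod_le_prod (fun l hl => (hgle l hl).1) (fun l hl => (hgle l hl).2)
  have hvp : vp h F z y = ∏ l ∈ PB y, (1 - gdd z h F l) := by
    rw [← prod_filter_mul_prod_filter_not (PB y) (fun l : ℕ => (l : ℝ) < z), vp]
    congr 1
    · have e : (PB y).filter (fun l : ℕ => (l : ℝ) < z) = PB z := by
        ext l
        rw [mem_filter, mem_PB, mem_PB]
        exact ⟨fun h' => ⟨h'.1.1, h'.2⟩, fun h' => ⟨⟨h'.1, h'.2.trans_le hzy⟩, h'.2⟩⟩
      rw [e]
      refine prod_congr rfl fun l hl => ?_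
      rw [gdd, if_pos (mem_PB.1 hl).2]
    · refine prod_congr ?_ fun l hl => ?_
      · refine filter_congr fun l _ => ?_
        rw [not_lt]
      · rw [gdd, if_neg (mem_filter.1 hl).2]
  rw [hvp]
  refine le_trans ?_ (hfl.trans hrhs)
  have h1 : 1 / 2 * X * ∏ l ∈ PB y, (1 - gdd z h F l) ≤ 1 / 2 * X * ∏ p ∈ PB y, (1 - g p) :=
    mul_le_mul_of_nonneg_left hprod (by positivity)
  have h2 := mul_le_mul_of_nonneg_left hrem (by linarith : 0 ≤ 2 * (1 + Real.log y))
  linarith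

end Pool.Agent.Lib.MP3efbeb.LG
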