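import Pool.Agent.Lib.MP_3efbeb_nt.LG.SpecD
import Pool.Agent.Lib.MP_3efbeb_nt.LG.SSL

/-!
# Module SS3: the sieving product of version 3 is bounded below
-/

set_option autoImplicit false

namespace Pool.Agent.Lib.MP3efbeb.LG

open Finset MeasureTheory
open Pool.Agent.Lib.MP391708.QPA (PB rInd Wp Rough)

noncomputable section

namespace SS3M

lemma cl_le_one (k l : ℕ) : SSLM.cl k l ≤ 1 := by
  unfold SSLM.cl
  split_ifs with h
  · rw [div_le_one (by positivity)]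
    have : 1 ≤ 2 * k ^ 2 + 2 := by omega
    exact_mod_cast this
  · have : (0 : ℝ) ≤ (k : ℝ) ^ 2 / ((l : ℝ) - 1) ^ 2 := by positivity
    linarith

lemma adm_right {k f : ℕ} {h : Fin k → ℕ} {F : Fin f → ℕ} (hA : Adm (Fin.append h F)) :
    Adm F := by
  intro l hl
  obtain ⟨a, ha⟩ := hA l hl
  refine ⟨a, fun hd => ha ?_⟩
  rw [Fin.prod_univ_add]
  simp only [Fin.append_left, Fin.append_right]
  have h1 : a * ((∏ i, (a + h i)) * ∏ j, (a + F j)) =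
      (∏ i, (a + h i)) * (a * ∏ j, (a + F j)) := by ring
  rw [h1]
  exact hd.mul_left _

lemma PB_filter {z y : ℝ} (hzy : z ≤ y) :
    (PB y).filter (fun l : ℕ => ¬ z ≤ (l : ℝ)) = PB z := by
  ext l
  simp only [PB, Finset.mem_filter, Finset.mem_range, Nat.lt_ceil, not_le]
  constructor
  · rintro ⟨⟨-, h2⟩, h3⟩
    exact ⟨h3, h2⟩
  · rintro ⟨h3, h2⟩
    exact ⟨⟨h3.trans_le hzy, h2⟩, h3⟩

lemma Wp_split {z y : ℝ} (hzy : z ≤ y) :
    Wp y = Wp z * ∏ l ∈ (PB y).filter (fun l : ℕ => z ≤ (l : ℝ)), (1 - 1 / (l : ℝ)) := by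
  unfold Wp
  rw [← Finset.prod_filter_mul_prod_filter_not (PB y) (fun l : ℕ => z ≤ (l : ℝ)), PB_filter hzy,
    mul_comm]

/-- the constant for the fixed shifts -/
def c2 (f : ℕ) : ℝ := (1 / ((2 * f ^ 2 + 2 : ℕ) : ℝ)) ^ (2 * f ^ 2 + 2) * (1 / 2)

lemma c2_pos (f : ℕ) : 0 < c2 f := by
  unfold c2
  positivity

lemma c2_le_one (f : ℕ) : c2 f ≤ 1 := by
  unfold c2
  have h1 : (1 : ℝ) ≤ ((2 * f ^ 2 + 2 : ℕ) : ℝ) := by
    have : 1 ≤ 2 * f ^ 2 + 2 := by omega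
    exact_mod_cast this
  have h2 : (1 / ((2 * f ^ 2 + 2 : ℕ) : ℝ)) ^ (2 * f ^ 2 + 2) ≤ 1 := by
    apply pow_le_one₀ (by positivity)
    rw [div_le_one (by linarith)]
    exact h1
  linarith

lemma second {f : ℕ} (F : Fin f → ℕ) (hA : Adm F) (z y : ℝ) :
    c2 f * (∏ l ∈ (PB y).filter (fun l : ℕ => z ≤ (l : ℝ)), (1 - 1 / (l : ℝ))) ^ f ≤
      ∏ l ∈ (PB y).filter (fun l : ℕ => z ≤ (l : ℝ)), (1 - gd F l) := by
  have hprime : ∀ l ∈ PB y, l.Prime := by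
    intro l hl
    have : l ∈ (range ⌈y⌉₊).filter Nat.Prime := hl
    exact (Finset.mem_filter.1 this).2
  have hf0 : ∀ l ∈ PB y, (0 : ℝ) ≤ 1 - 1 / (l : ℝ) := by
    intro l hl
    have hl2 : (2 : ℝ) ≤ l := by exact_mod_cast (hprime l hl).two_le
    have : 1 / (l : ℝ) ≤ 1 / 2 := one_div_le_one_div_of_le (by norm_num) hl2
    linarith
  rcases Nat.eq_zero_or_pos f with rfl | hf
  · have h1 : ∀ l, gd F l = 0 := by
      intro l
      unfold gd
      simp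
    simp only [h1, sub_zero, Finset.prod_const_one, pow_zero, mul_one]
    exact c2_le_one 0
  · set S := (PB y).filter (fun l : ℕ => z ≤ (l : ℝ)) with hS
    have hSP : ∀ l ∈ S, l ∈ PB y := fun l hl => (Finset.mem_filter.1 hl).1
    have h1 : c2 f ≤ ∏ l ∈ S, SSLM.cl f l := by
      have h2 : c2 f ≤ ∏ l ∈ PB y, SSLM.cl f l := SSLM.prod_cl hf y
      refine h2.trans ?_
      rw [← Finset.prod_filter_mul_prod_filter_not (PB y) (fun l : ℕ => z ≤ (l : ℝ)), ← hS]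
      have h3 : ∏ l ∈ (PB y).filter (fun l : ℕ => ¬ z ≤ (l : ℝ)), SSLM.cl f l ≤ 1 :=
        Finset.prod_le_one (fun l _ => SSLM.cl_nonneg hf l) (fun l _ => cl_le_one f l)
      have h4 : 0 ≤ ∏ l ∈ S, SSLM.cl f l := Finset.prod_nonneg fun l _ => SSLM.cl_nonneg hf l
      calc (∏ l ∈ S, SSLM.cl f l) * ∏ l ∈ (PB y).filter (fun l : ℕ => ¬ z ≤ (l : ℝ)), SSLM.cl f l
          ≤ (∏ l ∈ S, SSLM.cl f l) * 1 := mul_le_mul_of_nonneg_left h3 h4
        _ = ∏ l ∈ S, SSLM.cl f l := mul_one _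
    have hR : 0 ≤ (∏ l ∈ S, (1 - 1 / (l : ℝ))) ^ f :=
      pow_nonneg (Finset.prod_nonneg fun l hl => hf0 l (hSP l hl)) _
    calc c2 f * (∏ l ∈ S, (1 - 1 / (l : ℝ))) ^ f
        ≤ (∏ l ∈ S, SSLM.cl f l) * (∏ l ∈ S, (1 - 1 / (l : ℝ))) ^ f :=
          mul_le_mul_of_nonneg_right h1 hR
      _ = ∏ l ∈ S, SSLM.cl f l * (1 - 1 / (l : ℝ)) ^ f := by
          rw [Finset.prod_mul_distrib, Finset.prod_pow]
      _ ≤ ∏ l ∈ S, (1 - gd F l) := by
          apply Finset.prod_le_prod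
          · intro l hl
            exact mul_nonneg (SSLM.cl_nonneg hf l) (pow_nonneg (hf0 l (hSP l hl)) f)
          · intro l hl
            exact SSLM.factor hf F hA (hprime l (hSP l hl))

end SS3M

open SS3M in
theorem specSS3 : SpecSS3 := by
  intro k f hk
  obtain ⟨c1, hc1, h1⟩ := specSSL (k + f) (by omega)
  refine ⟨c1 * c2 f, mul_pos hc1 (c2_pos f), ?_⟩
  intro h F z y hz hzy hA
  have hprime : ∀ l ∈ PB y, l.Prime := by
    intro l hl
    have : l ∈ (range ⌈y⌉₊).filter Nat.Prime := hl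
    exact (Finset.mem_filter.1 this).2
  have hprimez : ∀ l ∈ PB z, l.Prime := by
    intro l hl
    have : l ∈ (range ⌈z⌉₊).filter Nat.Prime := hl
    exact (Finset.mem_filter.1 this).2
  have hf : ∀ l : ℕ, l.Prime → (0 : ℝ) ≤ 1 - 1 / (l : ℝ) := by
    intro l hl
    have hl2 : (2 : ℝ) ≤ l := by exact_mod_cast hl.two_le
    have : 1 / (l : ℝ) ≤ 1 / 2 := one_div_le_one_div_of_le (by norm_num) hl2
    linarith
  have hWz : 0 ≤ Wp z := Finset.prod_nonneg fun l hl => hf l (hprimez l hl)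
  have e1 := h1 (Fin.append h F) z hz hA
  have e2 := second F (adm_right hA) z y
  have hR : 0 ≤ ∏ l ∈ (PB y).filter (fun l : ℕ => z ≤ (l : ℝ)), (1 - 1 / (l : ℝ)) :=
    Finset.prod_nonneg fun l hl => hf l (hprime l (Finset.mem_filter.1 hl).1)
  have e3 : 0 ≤ c1 * Wp z ^ (k + f) := mul_nonneg hc1.le (pow_nonneg hWz _)
  have e4 := mul_le_mul e1 e2 (mul_nonneg (c2_pos f).le (pow_nonneg hR _)) (e3.trans e1)
  unfold vp
  refine le_trans (le_of_eq ?_) e4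
  rw [Wp_split hzy]
  ring

end

end Pool.Agent.Lib.MP3efbeb.LG
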