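import Pool.Agent.Lib.MP_3efbeb_nt.LG.All2
import Pool.Agent.Lib.MP_3efbeb_nt.LG.SL3
import Pool.Agent.Lib.MP_3efbeb_nt.LG.SS3
import Pool.Agent.Lib.MP_3efbeb_nt.LG.MT3
import Pool.Agent.Lib.MP_3efbeb_nt.LG.FI3

/-!
# LongPatterns, version 3 (`r_i ≥ 2` and fixed shifts): all modules together
-/

set_option autoImplicit false

namespace Pool.Agent.Lib.MP3efbeb.LG

theorem c_mt3 : SpecMT3 := specMT3 specCF2 specCPT specSL3 specSS3 b_bvc

/-- version 3 -/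
theorem main3 : SpecFI3 := specFI3 b_av2 c_mt3 specFR2

end Pool.Agent.Lib.MP3efbeb.LG
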