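import Pool.Agent.Lib.MP_3efbeb_nt.LG.SpecB
import Pool.Agent.Lib.BVS.Main

/-!
# BVS: the Bombieri-Vinogradov theorem at a small level
-/

set_option autoImplicit false

namespace Pool.Agent.Lib.MP3efbeb.LG

theorem specBVS : SpecBVS := Pool.Agent.Lib.BVS.bvs

end Pool.Agent.Lib.MP3efbeb.LG
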