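import Pool.Agent.Lib.MP_3efbeb_nt.LG.SpecA

/-!
# Module DUA of LongPatterns (MP_3efbeb_nt): duality
-/

set_option autoImplicit false

namespace Pool.Agent.Lib.MP3efbeb.LG

open Finset

namespace DUAM

/-- the correlation -/
def cor (e : ℕ → ℝ) (X h : ℕ) : ℝ := ∑ n ∈ range (X + 1), e n * e (n + h)

theorem inner_le {e : ℕ → ℝ} {H X : ℕ} (he : ∀ n, e n ≠ 0 → H < n ∧ n ≤ X) {h h' : ℕ}
    (hh : h ≤ h') (hH : h < H) :
    ∑ m ∈ range (X + 1), e (m + h) * e (m + h') = cor e X (h' - h) := by
  unfold cor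
  have h1 : ∀ n ∈ range (X + 1), n ∉ (range (X + 1)).image (fun m => m + h) →
      e n * e (n + (h' - h)) = 0 := by
    intro n hn hni
    have hz : e n = 0 := by
      by_contra hne
      have h2 := he n hne
      apply hni
      rw [mem_image]
      exact ⟨n - h, by rw [mem_range] at hn ⊢; omega, by omega⟩
    rw [hz, zero_mul]
  have h2 : ∀ n ∈ (range (X + 1)).image (fun m => m + h), n ∉ range (X + 1) →
      e n * e (n + (h' - h)) = 0 := by
    intro n _ hn
    have hz : e n = 0 := by
      by_contra hne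
      have h2 := he n hne
      apply hn
      rw [mem_range]; omega
    rw [hz, zero_mul]
  have h3 : ∑ n ∈ (range (X + 1)).image (fun m => m + h), e n * e (n + (h' - h)) =
      ∑ m ∈ range (X + 1), e (m + h) * e (m + h') := by
    rw [sum_image (fun a _ b _ hab => by simpa using hab)]
    refine sum_congr rfl fun m _ => ?_
    rw [show m + h + (h' - h) = m + h' by omega]
  rw [← h3]
  have h4 : ∑ n ∈ range (X + 1) ∩ (range (X + 1)).image (fun m => m + h), e n * e (n + (h' - h)) =
      ∑ n ∈ range (X + 1), e n * e (n + (h' - h)) := by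
    refine sum_subset inter_subset_left fun n hn hni => h1 n hn fun h => hni ?_
    exact mem_inter.2 ⟨hn, h⟩
  have h5 : ∑ n ∈ range (X + 1) ∩ (range (X + 1)).image (fun m => m + h), e n * e (n + (h' - h)) =
      ∑ n ∈ (range (X + 1)).image (fun m => m + h), e n * e (n + (h' - h)) := by
    refine sum_subset inter_subset_right fun n hn hni => h2 n hn fun h => hni ?_
    exact mem_inter.2 ⟨h, hn⟩
  rw [← h4, h5]

/-- both orders -/
theorem inner_abs {e : ℕ → ℝ} {H X : ℕ} (he : ∀ n, e n ≠ 0 → H < n ∧ n ≤ X) {h h' : ℕ}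
    (hH : h < H) (hH' : h' < H) :
    |∑ m ∈ range (X + 1), e (m + h) * e (m + h')| ≤
      (if h ≤ h' then |cor e X (h' - h)| else 0) + (if h' ≤ h then |cor e X (h - h')| else 0) := by
  by_cases hc : h ≤ h'
  · rw [inner_le he hc hH, if_pos hc]
    have : 0 ≤ (if h' ≤ h then |cor e X (h - h')| else 0) := by
      split_ifs
      · exact abs_nonneg _
      · exact le_rfl
    linarith
  · have hc' : h' ≤ h := by omega
    have h1 : ∑ m ∈ range (X + 1), e (m + h) * e (m + h') =
        ∑ m ∈ range (X + 1), e (m + h') * e (m + h) := sum_congr rfl fun m _ => mul_comm _ _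
    rw [h1, inner_le he hc' hH', if_pos hc', if_neg hc, zero_add]

theorem row1 (f : ℕ → ℝ) (hf : ∀ j, 0 ≤ f j) (H h : ℕ) :
    ∑ h' ∈ range H, (if h ≤ h' then f (h' - h) else 0) ≤ ∑ j ∈ range H, f j := by
  rw [← sum_filter]
  have h1 : ∑ h' ∈ (range H).filter (fun h' => h ≤ h'), f (h' - h) =
      ∑ j ∈ ((range H).filter (fun h' => h ≤ h')).image (fun h' => h' - h), f j := by
    rw [sum_image]
    intro a ha b hb hab
    simp only [coe_filter, mem_range, Set.mem_ofPred_eq] at ha hb
    have : a - h = b - h := hab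
    omega
  rw [h1]
  refine sum_le_sum_of_subset_of_nonneg ?_ fun j _ _ => hf j
  intro j hj
  simp only [mem_image, mem_filter, mem_range] at hj ⊢
  obtain ⟨a, ha, rfl⟩ := hj
  omega

theorem row2 (f : ℕ → ℝ) (hf : ∀ j, 0 ≤ f j) (H h : ℕ) (hh : h < H) :
    ∑ h' ∈ range H, (if h' ≤ h then f (h - h') else 0) ≤ ∑ j ∈ range H, f j := by
  rw [← sum_filter]
  have h1 : ∑ h' ∈ (range H).filter (fun h' => h' ≤ h), f (h - h') =
      ∑ j ∈ ((range H).filter (fun h' => h' ≤ h)).image (fun h' => h - h'), f j := by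
    rw [sum_image]
    intro a ha b hb hab
    simp only [coe_filter, mem_range, Set.mem_ofPred_eq] at ha hb
    have : h - a = h - b := hab
    omega
  rw [h1]
  refine sum_le_sum_of_subset_of_nonneg ?_ fun j _ _ => hf j
  intro j hj
  simp only [mem_image, mem_filter, mem_range] at hj ⊢
  obtain ⟨a, ha, rfl⟩ := hj
  omega

end DUAM

open DUAM in
theorem specDUA : SpecDUA := by
  intro e g H X N b Γ hH he hg hΓ hcor
  set B : ℕ → ℝ := fun h => ∑ n ∈ Ioc N (2 * N), g n * e (n + b + h) with hB
  set S : ℝ := ∑ h ∈ range H, B h ^ 2 with hS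
  have hS0 : 0 ≤ S := sum_nonneg fun h _ => sq_nonneg _
  set F : ℕ → ℝ := fun m => ∑ h ∈ range H, B h * e (m + h) with hF
  -- S as a sum over n
  have h1 : S = ∑ n ∈ Ioc N (2 * N), g n * F (n + b) := by
    calc S = ∑ h ∈ range H, ∑ n ∈ Ioc N (2 * N), B h * (g n * e (n + b + h)) := by
          refine sum_congr rfl fun h _ => ?_
          rw [← mul_sum, sq]
      _ = ∑ n ∈ Ioc N (2 * N), ∑ h ∈ range H, B h * (g n * e (n + b + h)) := sum_comm
      _ = ∑ n ∈ Ioc N (2 * N), g n * F (n + b) := by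
          refine sum_congr rfl fun n _ => ?_
          rw [hF]
          simp only [mul_sum]
          refine sum_congr rfl fun h _ => ?_
          ring
  -- Cauchy-Schwarz
  have h2 : S ^ 2 ≤ (∑ n ∈ Ioc N (2 * N), g n ^ 2) * ∑ n ∈ Ioc N (2 * N), F (n + b) ^ 2 := by
    rw [h1]; exact sum_mul_sq_le_sq_mul_sq _ _ _
  have h3 : ∑ n ∈ Ioc N (2 * N), g n ^ 2 ≤ (N : ℝ) := by
    calc ∑ n ∈ Ioc N (2 * N), g n ^ 2 ≤ ∑ n ∈ Ioc N (2 * N), (1 : ℝ) := by
          refine sum_le_sum fun n _ => ?_
          exact (sq_le_one_iff_abs_le_one _).2 (hg n)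
      _ = (N : ℝ) := by
          rw [sum_const, Nat.card_Ioc, nsmul_eq_mul, mul_one]
          congr 1
          omega
  have hFz : ∀ m, X < m → F m = 0 := by
    intro m hm
    rw [hF]
    refine sum_eq_zero fun h _ => ?_
    have : e (m + h) = 0 := by
      by_contra hne
      have := he _ hne
      omega
    rw [this, mul_zero]
  have h4 : ∑ n ∈ Ioc N (2 * N), F (n + b) ^ 2 ≤ ∑ m ∈ range (X + 1), F m ^ 2 := by
    have h5 : ∑ n ∈ Ioc N (2 * N), F (n + b) ^ 2 =
        ∑ m ∈ (Ioc N (2 * N)).image (fun n => n + b), F m ^ 2 := by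
      rw [sum_image (fun a _ b _ hab => by simpa using hab)]
    rw [h5]
    have h6 : ∑ m ∈ (Ioc N (2 * N)).image (fun n => n + b), F m ^ 2 =
        ∑ m ∈ ((Ioc N (2 * N)).image (fun n => n + b)) ∩ range (X + 1), F m ^ 2 := by
      symm
      refine sum_subset inter_subset_left fun m hm hmi => ?_
      have : X < m := by
        by_contra hle
        apply hmi
        exact mem_inter.2 ⟨hm, mem_range.2 (by omega)⟩
      rw [hFz m this]; norm_num
    rw [h6]
    exact sum_le_sum_of_subset_of_nonneg inter_subset_right fun m _ _ => sq_nonneg _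
  -- expansion
  have h7 : ∑ m ∈ range (X + 1), F m ^ 2 =
      ∑ h ∈ range H, ∑ h' ∈ range H, B h * B h' * ∑ m ∈ range (X + 1), e (m + h) * e (m + h') := by
    calc ∑ m ∈ range (X + 1), F m ^ 2
        = ∑ m ∈ range (X + 1), ∑ h ∈ range H, ∑ h' ∈ range H,
            B h * B h' * (e (m + h) * e (m + h')) := by
          refine sum_congr rfl fun m _ => ?_
          rw [hF, sq, sum_mul_sum]
          refine sum_congr rfl fun h _ => sum_congr rfl fun h' _ => ?_
          ring
      _ = ∑ h ∈ range H, ∑ m ∈ range (X + 1), ∑ h' ∈ range H,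
            B h * B h' * (e (m + h) * e (m + h')) := sum_comm
      _ = _ := by
          refine sum_congr rfl fun h _ => ?_
          rw [sum_comm]
          refine sum_congr rfl fun h' _ => ?_
          exact (mul_sum _ _ _).symm
  set Cs : ℝ := ∑ j ∈ range H, |cor e X j| with hCs
  have hCs0 : 0 ≤ Cs := sum_nonneg fun j _ => abs_nonneg _
  set w : ℕ → ℕ → ℝ := fun h h' => (if h ≤ h' then |cor e X (h' - h)| else 0) +
    (if h' ≤ h then |cor e X (h - h')| else 0) with hw
  have hwsymm : ∀ h h', w h h' = w h' h := fun h h' => by rw [hw]; exact add_comm _ _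
  have hw0 : ∀ h h', 0 ≤ w h h' := by
    intro h h'
    rw [hw]
    apply add_nonneg <;> · split_ifs
                           · exact abs_nonneg _
                           · exact le_rfl
  have hwrow : ∀ h, h < H → ∑ h' ∈ range H, w h h' ≤ 2 * Cs := by
    intro h hh
    rw [hw, sum_add_distrib]
    have := row1 (fun j => |cor e X j|) (fun j => abs_nonneg _) H h
    have := row2 (fun j => |cor e X j|) (fun j => abs_nonneg _) H h hh
    linarith
  have h8 : ∑ m ∈ range (X + 1), F m ^ 2 ≤ 2 * Cs * S := by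
    rw [h7]
    calc ∑ h ∈ range H, ∑ h' ∈ range H, B h * B h' * ∑ m ∈ range (X + 1), e (m + h) * e (m + h')
        ≤ ∑ h ∈ range H, ∑ h' ∈ range H, ((B h ^ 2 * w h h' + B h' ^ 2 * w h h') / 2) := by
          refine sum_le_sum fun h hh => sum_le_sum fun h' hh' => ?_
          rw [mem_range] at hh hh'
          have h9 := inner_abs he hh hh'
          have h10 : B h * B h' * ∑ m ∈ range (X + 1), e (m + h) * e (m + h') ≤
              |B h * B h'| * w h h' := by
            calc _ ≤ |B h * B h' * ∑ m ∈ range (X + 1), e (m + h) * e (m + h')| := le_abs_self _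
              _ = |B h * B h'| * |∑ m ∈ range (X + 1), e (m + h) * e (m + h')| := abs_mul _ _
              _ ≤ _ := mul_le_mul_of_nonneg_left h9 (abs_nonneg _)
          have h11 : |B h * B h'| ≤ (B h ^ 2 + B h' ^ 2) / 2 := by
            rw [abs_le]
            constructor <;> nlinarith [sq_nonneg (B h - B h'), sq_nonneg (B h + B h')]
          calc _ ≤ |B h * B h'| * w h h' := h10
            _ ≤ (B h ^ 2 + B h' ^ 2) / 2 * w h h' := mul_le_mul_of_nonneg_right h11 (hw0 _ _)
            _ = _ := by ring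
      _ = (∑ h ∈ range H, B h ^ 2 * ∑ h' ∈ range H, w h h') / 2 +
          (∑ h' ∈ range H, B h' ^ 2 * ∑ h ∈ range H, w h' h) / 2 := by
          have : ∀ h h', (B h ^ 2 * w h h' + B h' ^ 2 * w h h') / 2 =
            (B h ^ 2 * w h h') / 2 + (B h' ^ 2 * w h' h) / 2 := fun h h' => by
              rw [hwsymm h' h]; ring
          simp only [this, sum_add_distrib]
          congr 1
          · rw [sum_div]
            refine sum_congr rfl fun h _ => ?_
            rw [mul_sum, sum_div]
          · rw [sum_comm, sum_div]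
            refine sum_congr rfl fun h _ => ?_
            rw [mul_sum, sum_div]
      _ ≤ (∑ h ∈ range H, B h ^ 2 * (2 * Cs)) / 2 + (∑ h ∈ range H, B h ^ 2 * (2 * Cs)) / 2 := by
          have : ∑ h ∈ range H, B h ^ 2 * ∑ h' ∈ range H, w h h' ≤
              ∑ h ∈ range H, B h ^ 2 * (2 * Cs) :=
            sum_le_sum fun h hh => mul_le_mul_of_nonneg_left (hwrow h (mem_range.1 hh)) (sq_nonneg _)
          linarith
      _ = 2 * Cs * S := by
          rw [← sum_mul]; ring
  -- the sum of the correlations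
  have h9 : Cs ≤ √(H * Γ) := by
    apply Real.le_sqrt_of_sq_le
    calc Cs ^ 2 = (∑ j ∈ range H, 1 * |cor e X j|) ^ 2 := by simp [hCs]
      _ ≤ (∑ j ∈ range H, (1 : ℝ) ^ 2) * ∑ j ∈ range H, |cor e X j| ^ 2 :=
          sum_mul_sq_le_sq_mul_sq _ _ _
      _ = H * ∑ j ∈ range H, (∑ n ∈ range (X + 1), e n * e (n + j)) ^ 2 := by
          simp [cor]
      _ ≤ H * Γ := mul_le_mul_of_nonneg_left hcor (Nat.cast_nonneg _)
  have h10 : S ^ 2 ≤ N * (2 * √(H * Γ) * S) := by
    calc S ^ 2 ≤ (∑ n ∈ Ioc N (2 * N), g n ^ 2) * ∑ n ∈ Ioc N (2 * N), F (n + b) ^ 2 := h2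
      _ ≤ N * (2 * √(H * Γ) * S) := by
          apply mul_le_mul h3 _ (sum_nonneg fun n _ => sq_nonneg _) (Nat.cast_nonneg _)
          calc _ ≤ _ := h4
            _ ≤ 2 * Cs * S := h8
            _ ≤ 2 * √(H * Γ) * S := by
                apply mul_le_mul_of_nonneg_right _ hS0
                linarith
  show S ≤ 2 * N * √(H * Γ)
  rcases hS0.eq_or_lt with h0 | hpos
  · rw [← h0]; positivity
  · nlinarith [h10]

end Pool.Agent.Lib.MP3efbeb.LG
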