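import Pool.Agent.Lib.MP_3efbeb_nt.LG.SpecC

set_option autoImplicit false

/-! Module FA2: the Dirichlet polynomial of a block with two factors is a product. -/

namespace Pool.Agent.Lib.MP3efbeb.LG

open Finset MeasureTheory

noncomputable section

namespace FA2M

lemma nit_mul {m n : ℕ} (hm : 0 < m) (hn : 0 < n) (t : ℝ) :
    nit (m * n) t = nit m t * nit n t := by
  unfold nit
  rw [← Complex.exp_add]
  congr 1
  have h : Real.log ((m * n : ℕ) : ℝ) = Real.log m + Real.log n := by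
    push_cast
    exact Real.log_mul (by exact_mod_cast hm.ne') (by exact_mod_cast hn.ne')
  rw [h]
  push_cast
  ring

lemma mem_PR {A : ℝ} (hA : 1 ≤ A) {p : ℕ} (hp : p ∈ PR A) :
    0 < p ∧ A < (p : ℝ) ∧ (p : ℝ) ≤ 2 * A := by
  unfold PR IO at hp
  rw [Finset.mem_filter, Finset.mem_Ioc] at hp
  obtain ⟨⟨h1, h2⟩, h3⟩ := hp
  refine ⟨h3.pos, (Nat.floor_lt (by linarith)).1 h1, (Nat.le_floor_iff (by linarith)).1 h2⟩

lemma mem_IO {x y : ℝ} (hx : 0 ≤ x) (hy : 0 ≤ y) {n : ℕ} :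
    n ∈ IO x y ↔ x < (n : ℝ) ∧ (n : ℝ) ≤ y := by
  unfold IO
  rw [Finset.mem_Ioc, Nat.floor_lt hx, Nat.le_floor_iff hy]

/-- The inner sum. -/
lemma inner {N A : ℝ} {u : ℕ → ℝ} (hN : 0 < N) (hA : 1 ≤ A)
    (hu : ∀ k, u k ≠ 0 → N / (8 * A) < k ∧ (k : ℝ) ≤ 4 * N / A) (c : ℕ → ℂ)
    {p : ℕ} (hp : p ∈ PR A) :
    ∑ n ∈ IO (N / 8) (8 * N), (((if p ∣ n then u (n / p) else 0 : ℝ) : ℂ) * c n) =
      ∑ k ∈ SV N A, (u k : ℂ) * c (p * k) := by
  obtain ⟨hp0, hpA, hpA'⟩ := mem_PR hA hp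
  have hA0 : 0 < A := by linarith
  symm
  refine Finset.sum_bij_ne_zero (fun k _ _ => p * k) ?_ ?_ ?_ ?_
  · intro k _ hk
    have huk : u k ≠ 0 := by
      intro h0
      exact hk (by rw [h0]; simp)
    obtain ⟨h1, h2⟩ := hu k huk
    have hk0 : (0 : ℝ) < k := lt_trans (by positivity) h1
    rw [mem_IO (by positivity) (by positivity)]
    push_cast
    constructor
    · have h4 : N / 8 < A * k := by
        rw [div_lt_iff₀ (by positivity)] at h1
        linarith
      calc N / 8 < A * k := h4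
        _ ≤ (p : ℝ) * k := mul_le_mul_of_nonneg_right hpA.le hk0.le
    · have h4 : (k : ℝ) * A ≤ 4 * N := by
        rwa [le_div_iff₀ hA0] at h2
      calc (p : ℝ) * k ≤ (2 * A) * k := mul_le_mul_of_nonneg_right hpA' hk0.le
        _ = 2 * ((k : ℝ) * A) := by ring
        _ ≤ 8 * N := by linarith
  · intro a _ _ b _ _ hab
    exact Nat.eq_of_mul_eq_mul_left hp0 hab
  · intro n _ hn
    by_cases hd : p ∣ n
    · obtain ⟨k, rfl⟩ := hd
      rw [if_pos (Dvd.intro k rfl), Nat.mul_div_cancel_left k hp0] at hn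
      have huk : u k ≠ 0 := by
        intro h0
        exact hn (by rw [h0]; simp)
      obtain ⟨h1, h2⟩ := hu k huk
      refine ⟨k, ?_, hn, rfl⟩
      unfold SV
      rw [mem_IO (by positivity) (by positivity)]
      exact ⟨h1, h2⟩
    · rw [if_neg hd] at hn
      exact absurd (by simp) hn
  · intro k _ _
    rw [if_pos (Dvd.intro k rfl), Nat.mul_div_cancel_left k hp0]

end FA2M

open FA2M

theorem specFA2 : SpecFA2 := by
  intro N A u χ hN hA hu hχ t
  have hA0 : 0 < A := by linarith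
  have e1 : DP (IO (N / 8) (8 * N)) (fun n => (cd A u n : ℂ) * χ n) t =
      ∑ p ∈ PR A, ∑ n ∈ IO (N / 8) (8 * N),
        (((if p ∣ n then u (n / p) else 0 : ℝ) : ℂ) * (χ n * nit n t)) := by
    unfold DP
    have : ∀ n ∈ IO (N / 8) (8 * N), (cd A u n : ℂ) * χ n * nit n t =
        ∑ p ∈ PR A, (((if p ∣ n then u (n / p) else 0 : ℝ) : ℂ) * (χ n * nit n t)) := by
      intro n _
      unfold cd
      rw [Complex.ofReal_sum, Finset.sum_mul, Finset.sum_mul]
      refine Finset.sum_congr rfl fun p _ => ?_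
      ring
    rw [Finset.sum_congr rfl this, Finset.sum_comm]
  rw [e1]
  have e2 : ∀ p ∈ PR A, ∑ n ∈ IO (N / 8) (8 * N),
      (((if p ∣ n then u (n / p) else 0 : ℝ) : ℂ) * (χ n * nit n t)) =
      (χ p * nit p t) * DP (SV N A) (fun k => (u k : ℂ) * χ k) t := by
    intro p hp
    rw [inner hN hA hu (fun n => χ n * nit n t) hp]
    unfold DP
    rw [Finset.mul_sum]
    refine Finset.sum_congr rfl fun k _ => ?_
    obtain ⟨hp0, -, -⟩ := mem_PR hA hp
    by_cases huk : u k = 0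
    · simp [huk]
    have hk0 : 0 < k := by
      have h1 := (hu k huk).1
      have : (0 : ℝ) < k := lt_trans (by positivity) h1
      exact_mod_cast this
    rw [hχ, nit_mul hp0 hk0]
    ring
  rw [Finset.sum_congr rfl fun p hp => e2 p hp, ← Finset.sum_mul]
  rfl

end

end Pool.Agent.Lib.MP3efbeb.LG
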