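import Pool.Agent.Lib.MP_3efbeb_nt.LG.SpecB

set_option autoImplicit false

/-! Module FAC: the Dirichlet polynomial of a block is a product. -/

namespace Pool.Agent.Lib.MP3efbeb.LG

open Finset MeasureTheory

noncomputable section

namespace FACM

lemma nit_mul {m n : ℕ} (hm : 0 < m) (hn : 0 < n) (t : ℝ) :
    nit (m * n) t = nit m t * nit n t := by
  unfold nit
  rw [← Complex.exp_add]
  congr 1
  have h : Real.log ((m * n : ℕ) : ℝ) = Real.log m + Real.log n := by
    push_cast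
    exact Real.log_mul (by exact_mod_cast hm.ne') (by exact_mod_cast hn.ne')
  rw [h]
  push_cast
  ring

lemma mem_PR {A : ℝ} (hA : 1 ≤ A) {p : ℕ} (hp : p ∈ PR A) :
    0 < p ∧ A < (p : ℝ) ∧ (p : ℝ) ≤ 2 * A := by
  unfold PR IO at hp
  rw [Finset.mem_filter, Finset.mem_Ioc] at hp
  obtain ⟨⟨h1, h2⟩, h3⟩ := hp
  refine ⟨h3.pos, (Nat.floor_lt (by linarith)).1 h1, (Nat.le_floor_iff (by linarith)).1 h2⟩

lemma mem_IO {x y : ℝ} (hx : 0 ≤ x) (hy : 0 ≤ y) {n : ℕ} :
    n ∈ IO x y ↔ x < (n : ℝ) ∧ (n : ℝ) ≤ y := by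
  unfold IO
  rw [Finset.mem_Ioc, Nat.floor_lt hx, Nat.le_floor_iff hy]

/-- The inner sum. -/
lemma inner {N A B : ℝ} {u : ℕ → ℝ} (hN : 0 < N) (hA : 1 ≤ A) (hB : 1 ≤ B)
    (hu : ∀ k, u k ≠ 0 → N / (8 * A * B) < k ∧ (k : ℝ) ≤ 4 * N / (A * B)) (c : ℕ → ℂ)
    {p q : ℕ} (hp : p ∈ PR A) (hq : q ∈ PR B) :
    ∑ n ∈ IO (N / 8) (16 * N), (((if p * q ∣ n then u (n / (p * q)) else 0 : ℝ) : ℂ) * c n) =
      ∑ k ∈ SU N A B, (u k : ℂ) * c (p * q * k) := by
  obtain ⟨hp0, hpA, hpA'⟩ := mem_PR hA hp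
  obtain ⟨hq0, hqB, hqB'⟩ := mem_PR hB hq
  have hpq : 0 < p * q := Nat.mul_pos hp0 hq0
  have hAB : 0 < A * B := by positivity
  symm
  refine Finset.sum_bij_ne_zero (fun k _ _ => p * q * k) ?_ ?_ ?_ ?_
  · intro k _ hk
    have huk : u k ≠ 0 := by
      intro h0
      exact hk (by rw [h0]; simp)
    obtain ⟨h1, h2⟩ := hu k huk
    have hk0 : (0 : ℝ) < k := lt_trans (by positivity) h1
    rw [mem_IO (by positivity) (by positivity)]
    push_cast
    constructor
    · have h3 : A * B ≤ (p : ℝ) * q := mul_le_mul hpA.le hqB.le (by linarith) (by positivity)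
      have h4 : N / 8 < A * B * k := by
        rw [div_lt_iff₀ (by positivity)] at h1
        linarith
      calc N / 8 < A * B * k := h4
        _ ≤ (p : ℝ) * q * k := mul_le_mul_of_nonneg_right h3 hk0.le
    · have h3 : (p : ℝ) * q ≤ (2 * A) * (2 * B) :=
        mul_le_mul hpA' hqB' (by positivity) (by positivity)
      have h4 : (k : ℝ) * (A * B) ≤ 4 * N := by
        rwa [le_div_iff₀ hAB] at h2
      calc (p : ℝ) * q * k ≤ (2 * A) * (2 * B) * k := mul_le_mul_of_nonneg_right h3 hk0.le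
        _ = 4 * ((k : ℝ) * (A * B)) := by ring
        _ ≤ 16 * N := by linarith
  · intro a _ _ b _ _ hab
    exact Nat.eq_of_mul_eq_mul_left hpq hab
  · intro n _ hn
    by_cases hd : p * q ∣ n
    · obtain ⟨k, rfl⟩ := hd
      rw [if_pos (Dvd.intro k rfl), Nat.mul_div_cancel_left k hpq] at hn
      have huk : u k ≠ 0 := by
        intro h0
        exact hn (by rw [h0]; simp)
      obtain ⟨h1, h2⟩ := hu k huk
      refine ⟨k, ?_, hn, rfl⟩
      unfold SU
      rw [mem_IO (by positivity) (by positivity)]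
      exact ⟨h1, h2⟩
    · rw [if_neg hd] at hn
      exact absurd (by simp) hn
  · intro k _ _
    rw [if_pos (Dvd.intro k rfl), Nat.mul_div_cancel_left k hpq]

end FACM

open FACM

theorem specFAC : SpecFAC := by
  intro N A B u χ hN hA hB hu hχ t
  have hAB : 0 < A * B := by positivity
  have e1 : DP (IO (N / 8) (16 * N)) (fun n => (cb A B u n : ℂ) * χ n) t =
      ∑ p ∈ PR A, ∑ q ∈ PR B, ∑ n ∈ IO (N / 8) (16 * N),
        (((if p * q ∣ n then u (n / (p * q)) else 0 : ℝ) : ℂ) * (χ n * nit n t)) := by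
    unfold DP
    have : ∀ n ∈ IO (N / 8) (16 * N), (cb A B u n : ℂ) * χ n * nit n t =
        ∑ p ∈ PR A, ∑ q ∈ PR B,
          (((if p * q ∣ n then u (n / (p * q)) else 0 : ℝ) : ℂ) * (χ n * nit n t)) := by
      intro n _
      unfold cb
      rw [Complex.ofReal_sum, Finset.sum_mul, Finset.sum_mul]
      refine Finset.sum_congr rfl fun p _ => ?_
      rw [Complex.ofReal_sum, Finset.sum_mul, Finset.sum_mul]
      refine Finset.sum_congr rfl fun q _ => ?_
      ring
    rw [Finset.sum_congr rfl this, Finset.sum_comm]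
    refine Finset.sum_congr rfl fun p _ => ?_
    rw [Finset.sum_comm]
  rw [e1]
  have e2 : ∀ p ∈ PR A, ∀ q ∈ PR B, ∑ n ∈ IO (N / 8) (16 * N),
      (((if p * q ∣ n then u (n / (p * q)) else 0 : ℝ) : ℂ) * (χ n * nit n t)) =
      (χ p * nit p t) * (χ q * nit q t) * DP (SU N A B) (fun k => (u k : ℂ) * χ k) t := by
    intro p hp q hq
    rw [inner hN hA hB hu (fun n => χ n * nit n t) hp hq]
    unfold DP
    rw [Finset.mul_sum]
    refine Finset.sum_congr rfl fun k _ => ?_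
    obtain ⟨hp0, -, -⟩ := mem_PR hA hp
    obtain ⟨hq0, -, -⟩ := mem_PR hB hq
    by_cases huk : u k = 0
    · simp [huk]
    have hk0 : 0 < k := by
      have h1 := (hu k huk).1
      have : (0 : ℝ) < k := lt_trans (by positivity) h1
      exact_mod_cast this
    rw [hχ, hχ, nit_mul (Nat.mul_pos hp0 hq0) hk0, nit_mul hp0 hq0]
    ring
  rw [Finset.sum_congr rfl fun p hp => Finset.sum_congr rfl fun q hq => e2 p hp q hq]
  have e3 : ∀ p ∈ PR A, ∑ q ∈ PR B, (χ p * nit p t) * (χ q * nit q t) *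
      DP (SU N A B) (fun k => (u k : ℂ) * χ k) t =
      (χ p * nit p t) * (DP (PR B) χ t * DP (SU N A B) (fun k => (u k : ℂ) * χ k) t) := by
    intro p _
    unfold DP
    rw [Finset.sum_mul, Finset.mul_sum]
    refine Finset.sum_congr rfl fun q _ => ?_
    ring
  rw [Finset.sum_congr rfl e3, ← Finset.sum_mul]
  change DP (PR A) χ t * _ = _
  ring

end

end Pool.Agent.Lib.MP3efbeb.LG
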