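import Pool.Agent.Lib.MP_3efbeb_nt.LG.SpecC
import Pool.Agent.Lib.MP_3efbeb_nt.LG.FIN

/-!
# FI2: the theorem LongPatterns, version 2 (from AV2, MT2, FR2)
-/

set_option autoImplicit false

namespace Pool.Agent.Lib.MP3efbeb.LG

open Finset Filter
open scoped Classical

namespace FI2M

/-- the bad patterns at one scale -/
noncomputable def Bad {k : ℕ} (r : Fin k → ℕ) (e c cst : ℝ) (H N : ℕ) : Finset (Fin k → ℕ) :=
  (Fintype.piFinset (fun _ : Fin k => Icc 1 H)).filter (fun h => Adm h ∧ dl h ≠ 0 ∧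
    ∑ n ∈ Ioc N (2 * N), pI n * ∏ i, f2 N c e (r i) (n + h i) <
      cst / 2 * N / Real.log N ^ (k + 1))

theorem bad_card {k : ℕ} (r : Fin k → ℕ) (e c cst B : ℝ) (H N : ℕ) (hcst : 0 < cst) (hN : 3 ≤ N)
    (hA : ∑ h ∈ Fintype.piFinset (fun _ : Fin k => Icc 1 H), |∑ n ∈ Ioc N (2 * N), pI n *
      (∏ i, f2 N c e (r i) (n + h i) - ∏ i, g2 N c e (r i) (n + h i))| ≤ B)
    (hM : ∀ h : Fin k → ℕ, (∀ i, 1 ≤ h i ∧ h i ≤ H) → dl h ≠ 0 → Adm h →
      cst * N / Real.log N ^ (k + 1) ≤ ∑ n ∈ Ioc N (2 * N), pI n * ∏ i, g2 N c e (r i) (n + h i)) :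
    ((Bad r e c cst H N).card : ℝ) * (cst / 2 * N / Real.log N ^ (k + 1)) ≤ B := by
  refine le_trans ?_ hA
  have hsub : Bad r e c cst H N ⊆ Fintype.piFinset (fun _ : Fin k => Icc 1 H) := filter_subset _ _
  calc ((Bad r e c cst H N).card : ℝ) * (cst / 2 * N / Real.log N ^ (k + 1))
      = ∑ h ∈ Bad r e c cst H N, (cst / 2 * N / Real.log N ^ (k + 1)) := by
        rw [sum_const, nsmul_eq_mul]
    _ ≤ ∑ h ∈ Bad r e c cst H N, |∑ n ∈ Ioc N (2 * N), pI n *
          (∏ i, f2 N c e (r i) (n + h i) - ∏ i, g2 N c e (r i) (n + h i))| := by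
        refine sum_le_sum fun h hh => ?_
        obtain ⟨h1, h2, h3, h4⟩ := mem_filter.1 hh
        have h5 := hM h (fun i => mem_Icc.1 (Fintype.mem_piFinset.1 h1 i)) h3 h2
        have h6 : ∑ n ∈ Ioc N (2 * N), pI n *
            (∏ i, f2 N c e (r i) (n + h i) - ∏ i, g2 N c e (r i) (n + h i)) =
            ∑ n ∈ Ioc N (2 * N), pI n * ∏ i, f2 N c e (r i) (n + h i) -
            ∑ n ∈ Ioc N (2 * N), pI n * ∏ i, g2 N c e (r i) (n + h i) := by
          rw [← sum_sub_distrib]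
          exact sum_congr rfl fun n _ => mul_sub _ _ _
        rw [h6, abs_sub_comm]
        refine le_trans ?_ (le_abs_self _)
        have h7 : cst / 2 * N / Real.log N ^ (k + 1) + cst / 2 * N / Real.log N ^ (k + 1) =
            cst * N / Real.log N ^ (k + 1) := by ring
        linarith
    _ ≤ _ := sum_le_sum_of_subset_of_nonneg hsub fun _ _ _ => abs_nonneg _

/-- the lower bound for `LPset` -/
theorem lp_lower {k : ℕ} (r : Fin k → ℕ) (e c : ℝ) (C1 : Fin k → ℝ) (h : Fin k → ℕ) (N M : ℕ)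
    (hNM : 2 * N ≤ M)
    (hC1 : ∀ i, 1 ≤ C1 i)
    (hF : ∀ i, ∀ n : ℕ, N < n → n ≤ 2 * N → 0 ≤ f2 N c e (r i) (n + h i) ∧
      f2 N c e (r i) (n + h i) ≤ C1 i ∧
      (f2 N c e (r i) (n + h i) ≠ 0 → (n + h i).primeFactorsList.length = r i)) :
    ∑ n ∈ Ioc N (2 * N), pI n * ∏ i, f2 N c e (r i) (n + h i) ≤
      (∏ i, C1 i) * ((LPset r h M).card : ℝ) := by
  have hCC : 0 ≤ ∏ i, C1 i := prod_nonneg fun i _ => zero_le_one.trans (hC1 i)
  calc ∑ n ∈ Ioc N (2 * N), pI n * ∏ i, f2 N c e (r i) (n + h i)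
      ≤ ∑ n ∈ Ioc N (2 * N), (if n ∈ LPset r h M then ∏ i, C1 i else 0) := by
        refine sum_le_sum fun n hn => ?_
        obtain ⟨hn1, hn2⟩ := mem_Ioc.1 hn
        by_cases hp : n.Prime
        · by_cases h0 : ∏ i, f2 N c e (r i) (n + h i) = 0
          · rw [h0, mul_zero]
            split_ifs
            · exact hCC
            · exact le_rfl
          · have hmem : n ∈ LPset r h M := by
              refine mem_filter.2 ⟨mem_Icc.2 ⟨by omega, by omega⟩, hp, fun i => ?_⟩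
              exact (hF i n hn1 hn2).2.2 (prod_ne_zero_iff.1 h0 i (mem_univ i))
            rw [if_pos hmem]
            have h1 : pI n = 1 := if_pos hp
            rw [h1, one_mul]
            exact prod_le_prod (fun i _ => (hF i n hn1 hn2).1) fun i _ => (hF i n hn1 hn2).2.1
        · have h1 : pI n = 0 := if_neg hp
          rw [h1, zero_mul]
          split_ifs
          · exact hCC
          · exact le_rfl
    _ = (((Ioc N (2 * N)).filter (fun n => n ∈ LPset r h M)).card : ℝ) * ∏ i, C1 i := by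
        rw [← sum_filter, sum_const, nsmul_eq_mul]
    _ ≤ (∏ i, C1 i) * ((LPset r h M).card : ℝ) := by
        rw [mul_comm]
        refine mul_le_mul_of_nonneg_left ?_ hCC
        have : ((Ioc N (2 * N)).filter (fun n => n ∈ LPset r h M)).card ≤ (LPset r h M).card :=
          card_le_card fun n hn => (mem_filter.1 hn).2
        exact_mod_cast this

end FI2M

/-- FI2 -/
theorem specFI2 (hAVG : SpecAV2) (hMTM : SpecMT2) (hFRB : SpecFR2) : SpecFI2 := by
  intro k r A hk hr hA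
  obtain ⟨e, cst, he, her, hcst, hM⟩ := hMTM k r hk hr
  choose C1 hC1 hF using fun i => hFRB e (r i) he (hr i) (her i)
  have hCC1 : 1 ≤ ∏ i, C1 i := by
    calc (1 : ℝ) = ∏ _i : Fin k, (1 : ℝ) := by simp
      _ ≤ ∏ i, C1 i := prod_le_prod (fun _ _ => zero_le_one) fun i _ => hC1 i
  set CC : ℝ := ∏ i, C1 i with hCC
  have hCC0 : 0 < CC := by linarith
  have hkR : (1 : ℝ) ≤ k := by exact_mod_cast hk
  obtain ⟨c₀, hc₀, hA1⟩ := hAVG k r (A + k + 6) e hk (by linarith) he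
    (fun i => ⟨hr i, her i⟩)
  set c₁ : ℝ := max c₀ (k + 4) with hc₁
  have hc₁1 : 1 ≤ c₁ := hc₀.trans (le_max_left _ _)
  obtain ⟨Na, hNa⟩ := hA1 c₁ (le_max_left _ _)
  obtain ⟨Nm, hNm⟩ := hM e c₁ he le_rfl (le_max_right _ _)
  choose Nf hNf using fun i => hF i c₁ hc₁1
  obtain ⟨Nf', hNf'⟩ : ∃ N : ℕ, ∀ i, Nf i ≤ N := by
    obtain ⟨N, hN⟩ := exists_nat_ge (∑ i, |Nf i|)
    exact ⟨N, fun i => (le_abs_self _).trans
      ((single_le_sum (f := fun i => |Nf i|) (fun _ _ => abs_nonneg _) (mem_univ i)).trans hN)⟩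
  set c : ℝ := min (1 / (8 * c₁)) (cst / (8 * CC)) with hcdef
  have hc : 0 < c := lt_min (by positivity) (by positivity)
  have hc8 : c ≤ 1 / (8 * c₁) := min_le_left _ _
  have hcC : c ≤ cst / (8 * CC) := min_le_right _ _
  obtain ⟨H₀, hH₀⟩ := eventually_atTop.1 (FINM.ev k A cst (Na + Nm + Nf'))
  refine ⟨c, H₀, hc, fun H hHH => ?_⟩
  obtain ⟨hH4, hHN, hH20, hHA, hHL⟩ := hH₀ H hHH
  have hHR : (4 : ℝ) ≤ H := by exact_mod_cast hH4
  have hHpos : (0 : ℝ) < H := by linarith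
  -- the scales
  set Jset : Finset ℕ := (range (Nat.log 2 ⌊Real.exp ((H : ℝ) ^ c)⌋₊ + 1)).filter (fun j =>
    H ^ 3 < 4 * 2 ^ j ∧ ((2 ^ j : ℕ) : ℝ) ≤ Real.exp ((H : ℝ) ^ c)) with hJ
  -- facts about a scale
  have hscale : ∀ j ∈ Jset, H ^ 2 ≤ 2 ^ j ∧ 2 * H ≤ 2 ^ j ∧ 3 ≤ 2 ^ j ∧ Hn ((2 ^ j : ℕ) : ℝ) c₁ ≤ H ∧
      1 ≤ j := by
    intro j hj
    obtain ⟨_, h1, h2⟩ := mem_filter.1 hj
    have h3 : 4 * H ^ 2 ≤ H ^ 3 := by
      have : H ^ 3 = H * H ^ 2 := by ring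
      rw [this]
      exact Nat.mul_le_mul_right _ hH4
    have h4 : H ^ 2 ≤ 2 ^ j := by omega
    have h5 : 4 * H ≤ H ^ 2 := by
      rw [sq]
      exact Nat.mul_le_mul_right _ hH4
    have h6 : 3 ≤ 2 ^ j := by omega
    refine ⟨h4, by omega, h6, ?_, ?_⟩
    · exact FINM.hn_le c₁ c H (2 ^ j) hH4 h6 hc₁1 hc8 h2
    · rcases Nat.eq_zero_or_pos j with h | h
      · subst h
        norm_num at h6
      · exact h
  -- the exceptional set
  have hsub : (Fintype.piFinset (fun _ : Fin k => Icc 1 H)).filter (fun h => Adm h ∧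
      ∃ N : ℕ, H ^ 3 ≤ N ∧ (N : ℝ) ≤ Real.exp ((H : ℝ) ^ c) ∧
        ((LPset r h N).card : ℝ) < c * N / Real.log N ^ (k + 1)) ⊆
      ((Fintype.piFinset (fun _ : Fin k => Icc 1 H)).filter (fun h => dl h = 0)) ∪
        Jset.biUnion (fun j => FI2M.Bad r e c₁ cst H (2 ^ j)) := by
    intro h hh
    obtain ⟨h1, h2, N, hN1, hN2, hN3⟩ := mem_filter.1 hh
    rw [mem_union]
    by_cases hd : dl h = 0
    · exact Or.inl (mem_filter.2 ⟨h1, hd⟩)
    right
    have hN64 : 64 ≤ N := by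
      have : 4 ^ 3 ≤ H ^ 3 := Nat.pow_le_pow_left hH4 3
      omega
    have hl1 : 1 ≤ Nat.log 2 N := by
      apply Nat.le_log_of_pow_le (by norm_num)
      omega
    obtain ⟨j, hj⟩ : ∃ j, Nat.log 2 N = j + 1 := ⟨Nat.log 2 N - 1, by omega⟩
    have h3 : 2 * 2 ^ j ≤ N := by
      have := Nat.pow_log_le_self 2 (show N ≠ 0 by omega)
      rw [hj, pow_succ] at this
      omega
    have h4 : N < 4 * 2 ^ j := by
      have := Nat.lt_pow_succ_log_self (b := 2) (by norm_num) N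
      rw [hj, pow_succ, pow_succ] at this
      omega
    have hjJ : j ∈ Jset := by
      refine mem_filter.2 ⟨mem_range.2 ?_, by omega, ?_⟩
      · have h5 : N ≤ ⌊Real.exp ((H : ℝ) ^ c)⌋₊ := Nat.le_floor hN2
        have h6 : Nat.log 2 N ≤ Nat.log 2 ⌊Real.exp ((H : ℝ) ^ c)⌋₊ := Nat.log_mono_right h5
        omega
      · refine le_trans ?_ hN2
        exact_mod_cast (by omega : 2 ^ j ≤ N)
    obtain ⟨hs1, hs2, hs3, hs4, hs5⟩ := hscale j hjJ
    refine mem_biUnion.2 ⟨j, hjJ, mem_filter.2 ⟨h1, h2, hd, ?_⟩⟩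
    by_contra hcon
    rw [not_lt] at hcon
    have hHle : ∀ i, 1 ≤ h i ∧ h i ≤ H := fun i => mem_Icc.1 (Fintype.mem_piFinset.1 h1 i)
    have hlow := FI2M.lp_lower r e c₁ C1 h (2 ^ j) N h3 hC1 (fun i n hn1 hn2 => by
      have hb := hNf i ((2 ^ j : ℕ) : ℝ) (n + h i)
        (by
          refine (hNf' i).trans ?_
          have : Nf' ≤ 2 ^ j := by omega
          exact_mod_cast this)
        (by
          have h7 : ((2 ^ j : ℕ) : ℝ) < ((n + h i : ℕ) : ℝ) := by exact_mod_cast (by omega : 2 ^ j < n + h i)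
          have h8 : (0 : ℝ) ≤ ((2 ^ j : ℕ) : ℝ) := Nat.cast_nonneg _
          linarith)
        (by
          have h7 := (hHle i).2
          exact_mod_cast (by omega : n + h i ≤ 4 * 2 ^ j))
      exact ⟨hb.1, hb.2.1, hb.2.2.2.2⟩)
    have hNR : (64 : ℝ) ≤ N := by exact_mod_cast hN64
    have hN'R : (3 : ℝ) ≤ ((2 ^ j : ℕ) : ℝ) := by exact_mod_cast hs3
    have hL'pos : 0 < Real.log ((2 ^ j : ℕ) : ℝ) := Real.log_pos (by linarith)
    have hLL : Real.log ((2 ^ j : ℕ) : ℝ) ≤ Real.log N :=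
      Real.log_le_log (by linarith) (by exact_mod_cast (by omega : 2 ^ j ≤ N))
    have hLpos : 0 < Real.log N := by linarith
    have h5 : (N : ℝ) / 4 ≤ ((2 ^ j : ℕ) : ℝ) := by
      have : (N : ℝ) ≤ ((4 * 2 ^ j : ℕ) : ℝ) := by exact_mod_cast h4.le
      rw [Nat.cast_mul] at this
      norm_num at this ⊢
      linarith
    have h6 : cst / 2 * (N / 4) / Real.log N ^ (k + 1) ≤
        cst / 2 * ((2 ^ j : ℕ) : ℝ) / Real.log ((2 ^ j : ℕ) : ℝ) ^ (k + 1) := by
      apply div_le_div₀ (by positivity) (mul_le_mul_of_nonneg_left h5 (by positivity))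
        (by positivity) (pow_le_pow_left₀ hL'pos.le hLL _)
    have h7 : cst / 2 * (N / 4) / Real.log N ^ (k + 1) ≤ CC * ((LPset r h N).card : ℝ) :=
      h6.trans (hcon.trans hlow)
    have h8 : CC * ((LPset r h N).card : ℝ) < CC * (c * N / Real.log N ^ (k + 1)) :=
      mul_lt_mul_of_pos_left hN3 hCC0
    have h9 : CC * (c * N / Real.log N ^ (k + 1)) ≤
        CC * ((cst / (8 * CC)) * N / Real.log N ^ (k + 1)) := by
      refine mul_le_mul_of_nonneg_left ?_ hCC0.le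
      apply div_le_div_of_nonneg_right _ (by positivity)
      exact mul_le_mul_of_nonneg_right hcC (by positivity)
    have h10 : CC * ((cst / (8 * CC)) * N / Real.log N ^ (k + 1)) =
        cst / 2 * (N / 4) / Real.log N ^ (k + 1) := by
      field_simp
      ring
    linarith
  -- the bound for one scale
  have hLA3 : 0 < Real.log H ^ (A + 3) := Real.rpow_pos_of_pos (by linarith) _
  have hbad : ∀ j ∈ Jset, ((FI2M.Bad r e c₁ cst H (2 ^ j)).card : ℝ) ≤
      2 / cst * (H : ℝ) ^ k / Real.log H ^ (A + 3) * (((j : ℝ) * Real.log 2) ^ 2)⁻¹ := by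
    intro j hj
    obtain ⟨hs1, hs2, hs3, hs4, hs5⟩ := hscale j hj
    have hNbig : Na + Nm ≤ 2 ^ j := by omega
    have h1 := FI2M.bad_card r e c₁ cst
      (((2 ^ j : ℕ) : ℝ) * (H : ℝ) ^ k / Real.log ((2 ^ j : ℕ) : ℝ) ^ (A + k + 6)) H (2 ^ j) hcst hs3
      (hNa (2 ^ j) H (by omega) hs4 hs2 pI FINM.pI_le)
      (fun h hh hd ha => hNm (2 ^ j) h (by omega) (fun i => ⟨(hh i).1, by
        have := (hh i).2
        omega⟩) hd ha)
    have hN'R : (3 : ℝ) ≤ ((2 ^ j : ℕ) : ℝ) := by exact_mod_cast hs3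
    have hlogN : Real.log ((2 ^ j : ℕ) : ℝ) = j * Real.log 2 := by
      push_cast
      exact Real.log_pow 2 j
    have hLpos : 0 < Real.log ((2 ^ j : ℕ) : ℝ) := Real.log_pos (by linarith)
    have hLH : Real.log H ≤ Real.log ((2 ^ j : ℕ) : ℝ) :=
      Real.log_le_log (by linarith) (by
        have : H ≤ 2 ^ j := by omega
        exact_mod_cast this)
    rw [hlogN] at h1 hLpos hLH
    set L : ℝ := (j : ℝ) * Real.log 2 with hL
    set N' : ℝ := ((2 ^ j : ℕ) : ℝ) with hN'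
    have hN'pos : 0 < N' := by linarith
    have h2 : L ^ (A + k + 6) = L ^ (k + 1) * (L ^ (A + 3) * L ^ 2) := by
      rw [← Real.rpow_natCast L (k + 1), ← Real.rpow_natCast L 2, ← Real.rpow_add hLpos,
        ← Real.rpow_add hLpos]
      congr 1
      push_cast
      ring
    have h3 : Real.log H ^ (A + 3) ≤ L ^ (A + 3) := Real.rpow_le_rpow (by linarith) hLH (by linarith)
    have hLA : 0 < L ^ (A + 3) := Real.rpow_pos_of_pos hLpos _
    have h4 : ((FI2M.Bad r e c₁ cst H (2 ^ j)).card : ℝ) ≤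
        2 / cst * (H : ℝ) ^ k / (L ^ (A + 3) * L ^ 2) := by
      rw [h2] at h1
      rw [le_div_iff₀ (by positivity)]
      have h5 : ((FI2M.Bad r e c₁ cst H (2 ^ j)).card : ℝ) * (cst / 2 * N' / L ^ (k + 1)) *
          (L ^ (k + 1) * (L ^ (A + 3) * L ^ 2)) ≤ N' * (H : ℝ) ^ k := by
        rwa [← le_div_iff₀ (by positivity)]
      have h6 : ((FI2M.Bad r e c₁ cst H (2 ^ j)).card : ℝ) * (cst / 2 * N' / L ^ (k + 1)) *
          (L ^ (k + 1) * (L ^ (A + 3) * L ^ 2)) =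
          (((FI2M.Bad r e c₁ cst H (2 ^ j)).card : ℝ) * (L ^ (A + 3) * L ^ 2)) *
            (cst / 2) * N' := by
        field_simp
      rw [h6, mul_comm N'] at h5
      have h7 := le_of_mul_le_mul_right h5 hN'pos
      rw [← le_div_iff₀ (by positivity)] at h7
      refine h7.trans (le_of_eq ?_)
      field_simp
    refine h4.trans ?_
    rw [div_mul_eq_div_div, div_eq_mul_inv _ (L ^ 2)]
    refine mul_le_mul_of_nonneg_right ?_ (by positivity)
    exact div_le_div_of_nonneg_left (by positivity) hLA3 h3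
  -- the sum
  have hLApos : 0 < Real.log H ^ A := Real.rpow_pos_of_pos (by linarith) _
  have hL3pos : 0 < Real.log H ^ 3 := by positivity
  have hunion : ((Jset.biUnion (fun j => FI2M.Bad r e c₁ cst H (2 ^ j))).card : ℝ) ≤
      (H : ℝ) ^ k / Real.log H ^ A / 2 := by
    have h1 : ((Jset.biUnion (fun j => FI2M.Bad r e c₁ cst H (2 ^ j))).card : ℝ) ≤
        ∑ j ∈ Jset, ((FI2M.Bad r e c₁ cst H (2 ^ j)).card : ℝ) := by
      exact_mod_cast card_biUnion_le
    refine h1.trans ((sum_le_sum hbad).trans ?_)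
    rw [← mul_sum]
    have h2 := FINM.sum_inv_sq Jset fun j hj => (hscale j hj).2.2.2.2
    have h3 : Real.log H ^ (A + 3) = Real.log H ^ A * Real.log H ^ 3 := by
      rw [← Real.rpow_natCast _ 3, ← Real.rpow_add (by linarith)]
      norm_num
    calc 2 / cst * (H : ℝ) ^ k / Real.log H ^ (A + 3) * ∑ j ∈ Jset, (((j : ℝ) * Real.log 2) ^ 2)⁻¹
        ≤ 2 / cst * (H : ℝ) ^ k / Real.log H ^ (A + 3) * 5 :=
          mul_le_mul_of_nonneg_left h2 (by positivity)
      _ = ((H : ℝ) ^ k / Real.log H ^ A / 2) * ((20 / cst) / Real.log H ^ 3) := by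
          rw [h3]
          field_simp
          norm_num
      _ ≤ ((H : ℝ) ^ k / Real.log H ^ A / 2) * 1 := by
          refine mul_le_mul_of_nonneg_left ?_ (by positivity)
          rw [div_le_one hL3pos]
          exact hH20
      _ = _ := mul_one _
  have hdl : (((Fintype.piFinset (fun _ : Fin k => Icc 1 H)).filter (fun h => dl h = 0)).card : ℝ) ≤
      (H : ℝ) ^ k / Real.log H ^ A / 2 := by
    refine (FINM.dl_zero_card k H).trans ?_
    rw [div_div, le_div_iff₀ (by positivity)]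
    have h1 : (H : ℝ) ^ k = (H : ℝ) ^ (k - 1) * H := by
      rw [← pow_succ]
      congr 1
      omega
    rw [h1]
    have h2 : (k : ℝ) ^ 2 * (H : ℝ) ^ (k - 1) * (Real.log H ^ A * 2) =
        (H : ℝ) ^ (k - 1) * (2 * (k : ℝ) ^ 2 * Real.log H ^ A) := by ring
    rw [h2]
    exact mul_le_mul_of_nonneg_left hHA (by positivity)
  have hfin : ((((Fintype.piFinset (fun _ : Fin k => Icc 1 H)).filter (fun h => Adm h ∧
      ∃ N : ℕ, H ^ 3 ≤ N ∧ (N : ℝ) ≤ Real.exp ((H : ℝ) ^ c) ∧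
        ((LPset r h N).card : ℝ) < c * N / Real.log N ^ (k + 1))).card : ℕ) : ℝ) ≤
      (((Fintype.piFinset (fun _ : Fin k => Icc 1 H)).filter (fun h => dl h = 0)).card : ℝ) +
        ((Jset.biUnion (fun j => FI2M.Bad r e c₁ cst H (2 ^ j))).card : ℝ) := by
    exact_mod_cast (card_le_card hsub).trans (card_union_le _ _)
  refine hfin.trans ?_
  linarith

end Pool.Agent.Lib.MP3efbeb.LG
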