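import Pool.Agent.Lib.MP_3efbeb_nt.LG.SpecA

/-!
# LongPatterns, module GPL: Plancherel for smoothed multiplicative windows
-/

set_option autoImplicit false

namespace Pool.Agent.Lib.MP3efbeb.LG

open Finset MeasureTheory FourierTransform

noncomputable section

namespace GPLM

section Planch

open SchwartzMap
open scoped ENNReal ContDiff

variable {E : Type*} [NormedAddCommGroup E] [InnerProductSpace ℝ E] [FiniteDimensional ℝ E]
  [MeasurableSpace E] [BorelSpace E]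

theorem continuous_fourier {f : E → ℂ} (h1 : Integrable f) : Continuous (𝓕 f) :=
  VectorFourier.fourierIntegral_continuous Real.continuous_fourierChar
    (L := innerₗ E) continuous_inner h1

theorem fourier_toLp_ae {f : E → ℂ} (h1 : Integrable f) (h2 : MemLp f 2) :
    ((𝓕 (h2.toLp f) : Lp ℂ 2 (volume : Measure E)) : E → ℂ) =ᵐ[volume] 𝓕 f := by
  apply ae_eq_of_integral_contDiff_smul_eq
  · exact (Lp.memLp _).locallyIntegrable one_le_two
  · exact (continuous_fourier h1).locallyIntegrable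
  · intro g g_smooth g_cpt
    have hg₁ : HasCompactSupport (Complex.ofRealCLM ∘ g) := g_cpt.comp_left rfl
    have hg₂ : ContDiff ℝ ∞ (Complex.ofRealCLM ∘ g) := by fun_prop
    set G : 𝓢(E, ℂ) := hg₁.toSchwartzMap hg₂ with hG
    have hGx : ∀ x, G x = (g x : ℂ) := fun x => by simp [hG]
    have e1 : ∫ x, g x • ((𝓕 (h2.toLp f) : Lp ℂ 2 (volume : Measure E)) : E → ℂ) x
        = Lp.toTemperedDistribution (𝓕 (h2.toLp f) : Lp ℂ 2 (volume : Measure E)) G := by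
      rw [Lp.toTemperedDistribution_apply]
      refine integral_congr_ae (Filter.Eventually.of_forall fun x => ?_)
      simp only [hGx, Complex.real_smul, smul_eq_mul]
    have e2 : Lp.toTemperedDistribution (𝓕 (h2.toLp f) : Lp ℂ 2 (volume : Measure E)) G
        = Lp.toTemperedDistribution (h2.toLp f) (𝓕 G) := by
      have := DFunLike.congr_fun (Lp.fourier_toTemperedDistribution_eq (h2.toLp f)) G
      rw [← this]
      rfl
    have e3 : Lp.toTemperedDistribution (h2.toLp f) (𝓕 G) = ∫ x, (𝓕 G) x • f x := by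
      rw [Lp.toTemperedDistribution_apply]
      refine integral_congr_ae ?_
      filter_upwards [h2.coeFn_toLp] with x hx
      rw [hx]
    have e4 : ∫ x, (𝓕 (G : E → ℂ)) x • f x = ∫ x, (G x) • (𝓕 f) x := by
      simpa using! (VectorFourier.integral_fourierIntegral_smul_eq_flip (L := innerₗ E)
        Real.continuous_fourierChar continuous_inner G.integrable h1)
    rw [e1, e2, e3]
    have e5 : ((𝓕 G : 𝓢(E, ℂ)) : E → ℂ) = 𝓕 (G : E → ℂ) := SchwartzMap.fourier_coe G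
    rw [e5, e4]
    refine integral_congr_ae (Filter.Eventually.of_forall fun x => ?_)
    simp only [hGx, Complex.real_smul, smul_eq_mul]

theorem lintegral_fourier_sq {f : E → ℂ} (h1 : Integrable f) (h2 : MemLp f 2) :
    ∫⁻ x, ‖𝓕 f x‖ₑ ^ 2 = ∫⁻ x, ‖f x‖ₑ ^ 2 := by
  have hn : ‖(𝓕 (h2.toLp f) : Lp ℂ 2 (volume : Measure E))‖ₑ = ‖h2.toLp f‖ₑ := by
    rw [← ofReal_norm, ← ofReal_norm, Lp.norm_fourier_eq]
  have key : ∀ (g : E → ℂ), eLpNorm g 2 volume ^ 2 = ∫⁻ x, ‖g x‖ₑ ^ 2 := by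
    intro g
    rw [eLpNorm_eq_lintegral_rpow_enorm_toReal (by norm_num) (by norm_num)]
    rw [← ENNReal.rpow_natCast, ← ENNReal.rpow_mul]
    simp
  rw [← key, ← key]
  congr 1
  rw [← eLpNorm_congr_ae (fourier_toLp_ae h1 h2), ← eLpNorm_congr_ae h2.coeFn_toLp,
    ← Lp.enorm_def, ← Lp.enorm_def, hn]


end Planch

/-- the additive character -/
def ch (x : ℝ) : ℂ := Complex.exp ((2 * Real.pi * x : ℝ) * Complex.I)

theorem norm_ch (x : ℝ) : ‖ch x‖ = 1 := by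
  rw [ch, Complex.norm_exp_ofReal_mul_I]

theorem continuous_ch : Continuous ch := by
  unfold ch; fun_prop

theorem ch_add (x y : ℝ) : ch (x + y) = ch x * ch y := by
  rw [ch, ch, ch, ← Complex.exp_add]; congr 1; push_cast; ring

/-- the Gaussian factor -/
def gs (ε τ : ℝ) : ℝ := Real.exp (-(2 * Real.pi ^ 2 * ε ^ 2) * τ ^ 2)

theorem gs_pos (ε τ : ℝ) : 0 < gs ε τ := Real.exp_pos _

theorem continuous_gs (ε : ℝ) : Continuous (gs ε) := by
  unfold gs; fun_prop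

theorem gs_integrable {ε : ℝ} (hε : 0 < ε) : Integrable (gs ε) :=
  integrable_exp_neg_mul_sq (by have := Real.pi_pos; positivity)

theorem gau_eq {ε : ℝ} (hε : 0 < ε) (x : ℝ) :
    ((gau ε x : ℝ) : ℂ) = ∫ τ : ℝ, ch (x * τ) * ((gs ε τ : ℝ) : ℂ) := by
  have hpi := Real.pi_pos
  have hb : 0 < (((2 * Real.pi ^ 2 * ε ^ 2 : ℝ) : ℂ)).re := by
    rw [Complex.ofReal_re]; positivity
  have h := fourierIntegral_gaussian hb ((2 * Real.pi * x : ℝ) : ℂ)
  have e1 : (∫ τ : ℝ, ch (x * τ) * ((gs ε τ : ℝ) : ℂ)) =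
      ∫ τ : ℝ, Complex.exp (Complex.I * ((2 * Real.pi * x : ℝ) : ℂ) * (τ : ℂ)) *
        Complex.exp (-((2 * Real.pi ^ 2 * ε ^ 2 : ℝ) : ℂ) * (τ : ℂ) ^ 2) := by
    refine integral_congr_ae (Filter.Eventually.of_forall fun τ => ?_)
    simp only [ch, gs]
    congr 1
    · congr 1; push_cast; ring
    · rw [Complex.ofReal_exp]; congr 1; push_cast; ring
  rw [e1, h]
  have e2 : ((Real.pi : ℂ) / ((2 * Real.pi ^ 2 * ε ^ 2 : ℝ) : ℂ)) ^ (1 / 2 : ℂ) =
      ((1 / (ε * √(2 * Real.pi)) : ℝ) : ℂ) := by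
    have : (Real.pi : ℂ) / ((2 * Real.pi ^ 2 * ε ^ 2 : ℝ) : ℂ) =
        ((Real.pi / (2 * Real.pi ^ 2 * ε ^ 2) : ℝ) : ℂ) := by push_cast; ring
    rw [this, show (1 / 2 : ℂ) = ((1 / 2 : ℝ) : ℂ) by push_cast; ring,
      ← Complex.ofReal_cpow (by positivity)]
    congr 1
    rw [← Real.sqrt_eq_rpow]
    rw [show Real.pi / (2 * Real.pi ^ 2 * ε ^ 2) = (1 / (ε * √(2 * Real.pi))) ^ 2 by
      rw [div_pow, mul_pow, Real.sq_sqrt (by positivity)]; field_simp]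
    rw [Real.sqrt_sq (by positivity)]
  rw [e2]
  have e3 : -(((2 * Real.pi * x : ℝ) : ℂ)) ^ 2 / (4 * ((2 * Real.pi ^ 2 * ε ^ 2 : ℝ) : ℂ)) =
      ((-(x ^ 2 / (2 * ε ^ 2)) : ℝ) : ℂ) := by
    have : ((-(x ^ 2 / (2 * ε ^ 2)) : ℝ)) =
        -(2 * Real.pi * x) ^ 2 / (4 * (2 * Real.pi ^ 2 * ε ^ 2)) := by
      field_simp
      ring
    rw [this]; push_cast; ring
  rw [e3, ← Complex.ofReal_exp, ← Complex.ofReal_mul]
  congr 1
  rw [gau]; ring

/-- the transform of the window -/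
def kk (δ τ : ℝ) : ℂ := ∫ s in (0 : ℝ)..δ, ch (-(s * τ))

theorem continuous_kk (δ : ℝ) : Continuous (kk δ) := by
  unfold kk
  apply intervalIntegral.continuous_parametric_intervalIntegral_of_continuous'
  have := continuous_ch
  fun_prop

theorem norm_kk {δ : ℝ} (hδ : 0 < δ) (τ : ℝ) : ‖kk δ τ‖ ≤ δ := by
  have := intervalIntegral.norm_integral_le_of_norm_le_const (a := 0) (b := δ) (C := 1)
    (f := fun s => ch (-(s * τ))) (fun s _ => by rw [norm_ch])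
  rw [sub_zero, abs_of_pos hδ, one_mul] at this
  exact this

theorem Wd_eq {δ ε : ℝ} (_hδ : 0 < δ) (hε : 0 < ε) (u : ℝ) :
    ((Wd δ ε u : ℝ) : ℂ) = ∫ τ : ℝ, ch (u * τ) * ((gs ε τ : ℝ) : ℂ) * kk δ τ := by
  rw [Wd, ← intervalIntegral.integral_ofReal]
  have h1 : ∀ s : ℝ, ((gau ε (u - s) : ℝ) : ℂ) =
      ∫ τ : ℝ, ch ((u - s) * τ) * ((gs ε τ : ℝ) : ℂ) := fun s => gau_eq hε _
  simp only [h1]
  rw [intervalIntegral_integral_swap]
  · refine integral_congr_ae (Filter.Eventually.of_forall fun τ => ?_)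
    simp only [kk]
    rw [← intervalIntegral.integral_const_mul]
    congr 1
    ext s
    rw [show (u - s) * τ = u * τ + -(s * τ) by ring, ch_add]
    ring
  · have hg : Integrable (fun p : ℝ × ℝ => (1 : ℝ) * gs ε p.2)
        ((volume.restrict (Set.uIoc 0 δ)).prod volume) := by
      apply Integrable.mul_prod (f := fun _ : ℝ => (1 : ℝ)) (g := gs ε)
      · exact intervalIntegrable_iff.1 (continuous_const.intervalIntegrable 0 δ)
      · exact gs_integrable hε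
    refine Integrable.mono' hg ?_ ?_
    · have h1 := continuous_ch
      have h2 := continuous_gs ε
      exact (by fun_prop : Continuous (fun p : ℝ × ℝ =>
        ch ((u - p.1) * p.2) * ((gs ε p.2 : ℝ) : ℂ))).aestronglyMeasurable
    · refine Filter.Eventually.of_forall fun p => ?_
      show ‖ch ((u - p.1) * p.2) * ((gs ε p.2 : ℝ) : ℂ)‖ ≤ 1 * gs ε p.2
      rw [norm_mul, norm_ch, Complex.norm_real, Real.norm_of_nonneg (gs_pos _ _).le]

theorem continuous_nit (n : ℕ) : Continuous (nit n) := by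
  unfold nit; fun_prop

theorem norm_nit (n : ℕ) (t : ℝ) : ‖nit n t‖ = 1 := by
  rw [nit, Complex.norm_exp_ofReal_mul_I]

theorem continuous_DP (S : Finset ℕ) (c : ℕ → ℂ) : Continuous (DP S c) := by
  unfold DP
  refine continuous_finsetSum _ fun n _ => ?_
  exact continuous_const.mul (continuous_nit n)

theorem norm_DP (S : Finset ℕ) (c : ℕ → ℂ) (t : ℝ) : ‖DP S c t‖ ≤ ∑ n ∈ S, ‖c n‖ := by
  unfold DP
  refine (norm_sum_le _ _).trans (Finset.sum_le_sum fun n _ => ?_)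
  rw [norm_mul, norm_nit, mul_one]

/-- the function whose Fourier transform is the smoothed sum -/
def Ps (S : Finset ℕ) (c : ℕ → ℂ) (δ ε τ : ℝ) : ℂ :=
  ((gs ε τ : ℝ) : ℂ) * DP S c (2 * Real.pi * τ) * kk δ τ

theorem continuous_Ps (S : Finset ℕ) (c : ℕ → ℂ) (δ ε : ℝ) : Continuous (Ps S c δ ε) := by
  have h1 := continuous_gs ε
  have h2 := continuous_DP S c
  have h3 := continuous_kk δ
  unfold Ps
  fun_prop

theorem norm_Ps (S : Finset ℕ) (c : ℕ → ℂ) {δ : ℝ} (ε : ℝ) (hδ : 0 < δ) (τ : ℝ) :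
    ‖Ps S c δ ε τ‖ ≤ (δ * ∑ n ∈ S, ‖c n‖) * gs ε τ := by
  rw [Ps, norm_mul, norm_mul, Complex.norm_real, Real.norm_of_nonneg (gs_pos _ _).le]
  have h1 := norm_DP S c (2 * Real.pi * τ)
  have h2 := norm_kk hδ τ
  have h3 := gs_pos ε τ
  have h4 : 0 ≤ ∑ n ∈ S, ‖c n‖ := Finset.sum_nonneg fun _ _ => norm_nonneg _
  calc gs ε τ * ‖DP S c (2 * Real.pi * τ)‖ * ‖kk δ τ‖
      ≤ gs ε τ * (∑ n ∈ S, ‖c n‖) * δ := by gcongr
    _ = _ := by ring

theorem int_Ps (S : Finset ℕ) (c : ℕ → ℂ) {δ ε : ℝ} (hδ : 0 < δ) (hε : 0 < ε) :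
    Integrable (Ps S c δ ε) :=
  Integrable.mono' ((gs_integrable hε).const_mul (δ * ∑ n ∈ S, ‖c n‖))
    (continuous_Ps S c δ ε).aestronglyMeasurable
    (Filter.Eventually.of_forall fun τ => norm_Ps S c ε hδ τ)

theorem gs_sq (ε τ : ℝ) : gs ε τ ^ 2 = Real.exp (-(ε ^ 2 * (2 * Real.pi * τ) ^ 2)) := by
  rw [gs, ← Real.exp_nat_mul]; congr 1; push_cast; ring

theorem norm_Ps_sq (S : Finset ℕ) (c : ℕ → ℂ) {δ : ℝ} (ε : ℝ) (hδ : 0 < δ) (τ : ℝ) :
    ‖Ps S c δ ε τ‖ ^ 2 ≤ δ ^ 2 * (‖DP S c (2 * Real.pi * τ)‖ ^ 2 *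
      Real.exp (-(ε ^ 2 * (2 * Real.pi * τ) ^ 2))) := by
  rw [Ps, norm_mul, norm_mul, Complex.norm_real, Real.norm_of_nonneg (gs_pos _ _).le, ← gs_sq,
    mul_pow, mul_pow]
  have h2 := norm_kk hδ τ
  have h3 : ‖kk δ τ‖ ^ 2 ≤ δ ^ 2 := by gcongr
  have h4 : 0 ≤ gs ε τ ^ 2 * ‖DP S c (2 * Real.pi * τ)‖ ^ 2 := by positivity
  calc _ ≤ gs ε τ ^ 2 * ‖DP S c (2 * Real.pi * τ)‖ ^ 2 * δ ^ 2 :=
        mul_le_mul_of_nonneg_left h3 h4
    _ = _ := by ring

theorem int_Dg (S : Finset ℕ) (c : ℕ → ℂ) {ε : ℝ} (hε : 0 < ε) :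
    Integrable (fun t : ℝ => ‖DP S c t‖ ^ 2 * Real.exp (-(ε ^ 2 * t ^ 2))) := by
  have h0 : Integrable (fun t : ℝ => (∑ n ∈ S, ‖c n‖) ^ 2 * Real.exp (-ε ^ 2 * t ^ 2)) :=
    (integrable_exp_neg_mul_sq (by positivity)).const_mul _
  have h0' : Integrable (fun t : ℝ => (∑ n ∈ S, ‖c n‖) ^ 2 * Real.exp (-(ε ^ 2 * t ^ 2))) := by
    simpa only [neg_mul] using h0
  refine Integrable.mono' h0' ?_ ?_
  · have := continuous_DP S c
    exact (by fun_prop : Continuous (fun t : ℝ => ‖DP S c t‖ ^ 2 *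
      Real.exp (-(ε ^ 2 * t ^ 2)))).aestronglyMeasurable
  · refine Filter.Eventually.of_forall fun t => ?_
    rw [Real.norm_of_nonneg (by positivity)]
    have := norm_DP S c t
    gcongr

theorem F_eq (S : Finset ℕ) (c : ℕ → ℂ) {δ ε : ℝ} (hδ : 0 < δ) (hε : 0 < ε) (v : ℝ) :
    ∑ n ∈ S, c n * ((Wd δ ε (Real.log n - v) : ℝ) : ℂ) = 𝓕 (Ps S c δ ε) v := by
  rw [Real.fourier_eq']
  have hI : ∀ n ∈ S, Integrable fun τ : ℝ =>
      c n * (ch ((Real.log n - v) * τ) * ((gs ε τ : ℝ) : ℂ) * kk δ τ) := by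
    intro n _
    apply Integrable.const_mul
    refine Integrable.mono' ((gs_integrable hε).const_mul δ) ?_ ?_
    · have h1 := continuous_ch
      have h2 := continuous_gs ε
      have h3 := continuous_kk δ
      exact (by fun_prop : Continuous (fun τ : ℝ =>
        ch ((Real.log n - v) * τ) * ((gs ε τ : ℝ) : ℂ) * kk δ τ)).aestronglyMeasurable
    · refine Filter.Eventually.of_forall fun τ => ?_
      rw [norm_mul, norm_mul, norm_ch, Complex.norm_real, Real.norm_of_nonneg (gs_pos _ _).le,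
        one_mul, mul_comm]
      have := norm_kk hδ τ
      have := gs_pos ε τ
      gcongr
  have h1 : ∀ n : ℕ, c n * ((Wd δ ε (Real.log n - v) : ℝ) : ℂ) =
      ∫ τ : ℝ, c n * (ch ((Real.log n - v) * τ) * ((gs ε τ : ℝ) : ℂ) * kk δ τ) := by
    intro n
    rw [Wd_eq hδ hε, integral_const_mul]
  simp only [h1]
  rw [← integral_finsetSum _ hI]
  refine integral_congr_ae (Filter.Eventually.of_forall fun τ => ?_)
  simp only [Ps, DP, smul_eq_mul]
  rw [Finset.mul_sum, Finset.sum_mul, Finset.mul_sum]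
  refine Finset.sum_congr rfl fun n _ => ?_
  have h2 : ch ((Real.log n - v) * τ) =
      Complex.exp (((-2 * Real.pi * (inner ℝ τ v) : ℝ) : ℂ) * Complex.I) *
        nit n (2 * Real.pi * τ) := by
    rw [ch, nit, ← Complex.exp_add]
    congr 1
    have : (inner ℝ τ v : ℝ) = v * τ := by simp
    rw [this]
    push_cast
    ring
  rw [h2]
  ring

end GPLM

open GPLM

theorem specGPL : SpecGPL := by
  intro S c δ ε hδ hε
  have hpi := Real.pi_pos
  have hF : (fun v : ℝ => ∑ n ∈ S, c n * ((Wd δ ε (Real.log n - v) : ℝ) : ℂ)) =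
      𝓕 (Ps S c δ ε) := funext fun v => F_eq S c hδ hε v
  have hi := int_Ps S c hδ hε
  have hcP := continuous_Ps S c δ ε
  have hDg := int_Dg S c hε
  have hDg2 : Integrable (fun τ : ℝ => δ ^ 2 * (‖DP S c (2 * Real.pi * τ)‖ ^ 2 *
      Real.exp (-(ε ^ 2 * (2 * Real.pi * τ) ^ 2)))) := by
    apply Integrable.const_mul
    exact hDg.comp_mul_left' (by positivity : 2 * Real.pi ≠ 0)
  have hi2 : Integrable (fun τ : ℝ => ‖Ps S c δ ε τ‖ ^ 2) := by
    refine Integrable.mono' hDg2 (hcP.norm.pow 2).aestronglyMeasurable ?_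
    refine Filter.Eventually.of_forall fun τ => ?_
    rw [Real.norm_of_nonneg (by positivity)]
    exact norm_Ps_sq S c ε hδ τ
  have hm2 : MemLp (Ps S c δ ε) 2 := by
    rw [memLp_two_iff_integrable_sq_norm hcP.aestronglyMeasurable]
    exact hi2
  have hPL := lintegral_fourier_sq hi hm2
  have hcF : Continuous (𝓕 (Ps S c δ ε)) := continuous_fourier hi
  have e2 : ∀ (f : ℝ → ℂ) (u : ℝ), ‖f u‖ₑ ^ 2 = ENNReal.ofReal (‖f u‖ ^ 2) := by
    intro f u
    rw [← ofReal_norm, ENNReal.ofReal_pow (norm_nonneg _)]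
  simp only [e2] at hPL
  have e1 : ∫⁻ τ : ℝ, ENNReal.ofReal (‖Ps S c δ ε τ‖ ^ 2) =
      ENNReal.ofReal (∫ τ : ℝ, ‖Ps S c δ ε τ‖ ^ 2) :=
    (ofReal_integral_eq_lintegral_ofReal hi2
      (Filter.Eventually.of_forall (fun v => by positivity))).symm
  have hi3 : Integrable (fun v : ℝ => ‖𝓕 (Ps S c δ ε) v‖ ^ 2) := by
    refine ⟨(hcF.norm.pow 2).aestronglyMeasurable, ?_⟩
    rw [hasFiniteIntegral_iff_ofReal (Filter.Eventually.of_forall (fun v => by positivity)), hPL, e1]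
    exact ENNReal.ofReal_lt_top
  have heq : ∫ v : ℝ, ‖𝓕 (Ps S c δ ε) v‖ ^ 2 = ∫ τ : ℝ, ‖Ps S c δ ε τ‖ ^ 2 := by
    rw [e1, ← ofReal_integral_eq_lintegral_ofReal hi3
      (Filter.Eventually.of_forall (fun v => by positivity))] at hPL
    exact (ENNReal.ofReal_eq_ofReal_iff (integral_nonneg (fun v => by positivity))
      (integral_nonneg (fun v => by positivity))).1 hPL
  have hF' : (fun v : ℝ => ‖∑ n ∈ S, c n * ((Wd δ ε (Real.log n - v) : ℝ) : ℂ)‖ ^ 2) =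
      fun v => ‖𝓕 (Ps S c δ ε) v‖ ^ 2 := by
    funext v
    rw [F_eq S c hδ hε v]
  refine ⟨?_, hDg, ?_⟩
  · rw [hF']; exact hi3
  · rw [hF', heq]
    have h5 : ∫ τ : ℝ, ‖Ps S c δ ε τ‖ ^ 2 ≤ ∫ τ : ℝ, δ ^ 2 * (‖DP S c (2 * Real.pi * τ)‖ ^ 2 *
        Real.exp (-(ε ^ 2 * (2 * Real.pi * τ) ^ 2))) :=
      integral_mono hi2 hDg2 (fun τ => norm_Ps_sq S c ε hδ τ)
    refine h5.trans ?_
    rw [integral_const_mul]
    have h6 : ∫ τ : ℝ, ‖DP S c (2 * Real.pi * τ)‖ ^ 2 *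
        Real.exp (-(ε ^ 2 * (2 * Real.pi * τ) ^ 2)) =
        |(2 * Real.pi)⁻¹| • ∫ t : ℝ, ‖DP S c t‖ ^ 2 * Real.exp (-(ε ^ 2 * t ^ 2)) :=
      Measure.integral_comp_mul_left
        (fun t : ℝ => ‖DP S c t‖ ^ 2 * Real.exp (-(ε ^ 2 * t ^ 2))) (2 * Real.pi)
    rw [h6]
    have h7 : 0 ≤ ∫ t : ℝ, ‖DP S c t‖ ^ 2 * Real.exp (-(ε ^ 2 * t ^ 2)) :=
      integral_nonneg (fun t => by positivity)
    have h8 : |(2 * Real.pi)⁻¹| ≤ 1 := by
      rw [abs_of_pos (by positivity)]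
      apply inv_le_one_of_one_le₀
      have := Real.pi_gt_three
      linarith
    rw [smul_eq_mul]
    have h9 : |(2 * Real.pi)⁻¹| * ∫ t : ℝ, ‖DP S c t‖ ^ 2 * Real.exp (-(ε ^ 2 * t ^ 2)) ≤
        1 * ∫ t : ℝ, ‖DP S c t‖ ^ 2 * Real.exp (-(ε ^ 2 * t ^ 2)) :=
      mul_le_mul_of_nonneg_right h8 h7
    rw [one_mul] at h9
    exact mul_le_mul_of_nonneg_left h9 (by positivity)

end

end Pool.Agent.Lib.MP3efbeb.LG
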