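import Pool.Agent.Lib.MP_3efbeb_nt.LG.SpecA

/-!
# Module MID (LongPatterns, part A): the mean square of a product of three Dirichlet polynomials
(helper92)
-/

set_option autoImplicit false

namespace Pool.Agent.Lib.MP3efbeb.LG

open Finset MeasureTheory

namespace MIDM

lemma nit_norm (n : ℕ) (t : ℝ) : ‖nit n t‖ = 1 := by
  unfold nit
  exact Complex.norm_exp_ofReal_mul_I _

lemma nit_mul {m n : ℕ} (hm : 1 ≤ m) (hn : 1 ≤ n) (t : ℝ) :
    nit (m * n) t = nit m t * nit n t := by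
  unfold nit
  rw [← Complex.exp_add, Nat.cast_mul, Real.log_mul (by positivity) (by positivity)]
  congr 1
  push_cast
  ring

lemma continuous_DP (S : Finset ℕ) (c : ℕ → ℂ) : Continuous (DP S c) := by
  unfold DP nit
  fun_prop

lemma norm_DP_le (S : Finset ℕ) (c : ℕ → ℂ) (hc : ∀ n, ‖c n‖ ≤ 1) (t : ℝ) :
    ‖DP S c t‖ ≤ (S.card : ℝ) := by
  unfold DP
  refine (norm_sum_le _ _).trans ?_
  have h : ∀ n ∈ S, ‖c n * nit n t‖ ≤ (1 : ℝ) := by
    intro n _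
    rw [norm_mul, nit_norm, mul_one]
    exact hc n
  refine (Finset.sum_le_sum h).trans ?_
  rw [Finset.sum_const, nsmul_eq_mul, mul_one]

lemma card_IO (x y : ℝ) (hy : 0 ≤ y) : ((IO x y).card : ℝ) ≤ y := by
  unfold IO
  rw [Nat.card_Ioc]
  refine le_trans ?_ (Nat.floor_le hy)
  exact_mod_cast Nat.sub_le _ _

lemma card_PR (A : ℝ) (hA : 0 ≤ A) : ((PR A).card : ℝ) ≤ 2 * A := by
  unfold PR
  refine le_trans ?_ (card_IO A (2 * A) (by linarith))
  exact_mod_cast Finset.card_filter_le _ _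

lemma mem_PR {A : ℝ} (hA : 0 ≤ A) {p : ℕ} (hp : p ∈ PR A) :
    p.Prime ∧ A < p ∧ (p : ℝ) ≤ 2 * A := by
  unfold PR IO at hp
  rw [Finset.mem_filter, Finset.mem_Ioc] at hp
  refine ⟨hp.2, (Nat.floor_lt hA).1 hp.1.1, ?_⟩
  exact (Nat.le_floor_iff (by linarith)).1 hp.1.2

lemma mem_IO' {x y : ℝ} (hy : 0 ≤ y) {n : ℕ} (hn : n ∈ IO x y) : 1 ≤ n ∧ (n : ℝ) ≤ y := by
  unfold IO at hn
  rw [Finset.mem_Ioc] at hn
  exact ⟨by omega, (Nat.le_floor_iff hy).1 hn.2⟩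

/-- few prime factors larger than `N ^ e` -/
lemma few_primes {e N B : ℝ} (he : 0 < e) (hN : 1 < N) (hB : N ^ e ≤ B) (m : ℕ) (hm : 1 ≤ m)
    (hmN : (m : ℝ) ≤ N) : (((PR B).filter (fun q => q ∣ m)).card : ℝ) ≤ 1 / e := by
  have hNe : 0 < N ^ e := Real.rpow_pos_of_pos (by linarith) e
  have hB0 : 0 ≤ B := by linarith
  obtain ⟨s, hs⟩ : ∃ s, s = (PR B).filter (fun q => q ∣ m) := ⟨_, rfl⟩
  rw [← hs]
  have hsp : ∀ p ∈ s, p.Prime ∧ B < p ∧ p ∣ m := by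
    intro p hp
    rw [hs, Finset.mem_filter] at hp
    obtain ⟨h1, h2, -⟩ := mem_PR hB0 hp.1
    exact ⟨h1, h2, hp.2⟩
  have h1 : ∏ p ∈ s, p ∣ m :=
    Finset.prod_primes_dvd m (fun p hp => (hsp p hp).1.prime) (fun p hp => (hsp p hp).2.2)
  have h2 : ∏ p ∈ s, p ≤ m := Nat.le_of_dvd hm h1
  have h3 : (N ^ e) ^ s.card ≤ ∏ p ∈ s, (p : ℝ) := by
    rw [← Finset.prod_const]
    refine Finset.prod_le_prod (fun p _ => hNe.le) fun p hp => ?_
    exact (hB.trans (hsp p hp).2.1.le)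
  have h4 : ∏ p ∈ s, (p : ℝ) ≤ N := by
    refine le_trans ?_ hmN
    have h2' : ((∏ p ∈ s, p : ℕ) : ℝ) ≤ m := by exact_mod_cast h2
    rwa [Nat.cast_prod] at h2'
  have h5 : N ^ (e * s.card) ≤ N ^ (1 : ℝ) := by
    rw [Real.rpow_one, Real.rpow_mul (by linarith), Real.rpow_natCast]
    exact h3.trans h4
  have h6 := (Real.rpow_le_rpow_left_iff hN).1 h5
  rw [le_div_iff₀ he]
  linarith

/-- the product of two Dirichlet polynomials -/
lemma DP_mul (S₁ S₂ : Finset ℕ) (h1 : ∀ n ∈ S₁, 1 ≤ n) (h2 : ∀ n ∈ S₂, 1 ≤ n) (b u : ℕ → ℂ)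
    (t : ℝ) : DP S₁ b t * DP S₂ u t = DP ((S₁ ×ˢ S₂).image fun z => z.1 * z.2)
      (fun m => ∑ z ∈ (S₁ ×ˢ S₂).filter (fun z => z.1 * z.2 = m), b z.1 * u z.2) t := by
  have e1 : DP S₁ b t * DP S₂ u t =
      ∑ z ∈ S₁ ×ˢ S₂, (b z.1 * u z.2) * nit (z.1 * z.2) t := by
    unfold DP
    rw [Finset.sum_mul_sum, ← Finset.sum_product']
    refine Finset.sum_congr rfl fun z hz => ?_
    rw [Finset.mem_product] at hz
    rw [nit_mul (h1 _ hz.1) (h2 _ hz.2)]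
    ring
  rw [e1]
  unfold DP
  rw [← Finset.sum_fiberwise_of_maps_to (s := S₁ ×ˢ S₂)
    (t := (S₁ ×ˢ S₂).image fun z => z.1 * z.2) (g := fun z => z.1 * z.2)
    (fun z hz => Finset.mem_image_of_mem _ hz)]
  refine Finset.sum_congr rfl fun m _ => ?_
  rw [Finset.sum_mul]
  refine Finset.sum_congr rfl fun z hz => ?_
  rw [(Finset.mem_filter.1 hz).2]

lemma coef_bound (S₁ S₂ : Finset ℕ) (h1 : ∀ n ∈ S₁, 1 ≤ n) (b u : ℕ → ℂ) (hb : ∀ n, ‖b n‖ ≤ 1)
    (hu : ∀ n, ‖u n‖ ≤ 1) (m : ℕ) :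
    ‖∑ z ∈ (S₁ ×ˢ S₂).filter (fun z => z.1 * z.2 = m), b z.1 * u z.2‖ ≤
      ((S₁.filter (fun q => q ∣ m)).card : ℝ) := by
  refine (norm_sum_le _ _).trans ?_
  have h : ∀ z ∈ (S₁ ×ˢ S₂).filter (fun z => z.1 * z.2 = m), ‖b z.1 * u z.2‖ ≤ (1 : ℝ) := by
    intro z _
    rw [norm_mul]
    calc ‖b z.1‖ * ‖u z.2‖ ≤ 1 * 1 :=
          mul_le_mul (hb _) (hu _) (norm_nonneg _) zero_le_one
      _ = 1 := one_mul 1
  refine (Finset.sum_le_sum h).trans ?_
  rw [Finset.sum_const, nsmul_eq_mul, mul_one]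
  have h3 : ((S₁ ×ˢ S₂).filter (fun z => z.1 * z.2 = m)).card ≤
      (S₁.filter (fun q => q ∣ m)).card := by
    refine Finset.card_le_card_of_injOn (fun z => z.1) ?_ ?_
    · intro z hz
      rw [Finset.mem_coe, Finset.mem_filter, Finset.mem_product] at hz
      rw [Finset.mem_coe, Finset.mem_filter]
      exact ⟨hz.1.1, ⟨z.2, hz.2.symm⟩⟩
    · intro z hz z' hz' hzz
      rw [Finset.mem_coe, Finset.mem_filter, Finset.mem_product] at hz hz'
      have hzz' : z.1 = z'.1 := hzz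
      have h4 : z.1 * z.2 = z.1 * z'.2 := by
        rw [hz.2, hzz', hz'.2]
      have h5 : 0 < z.1 := h1 _ hz.1.1
      exact Prod.ext hzz' (Nat.eq_of_mul_eq_mul_left h5 h4)
  exact_mod_cast h3

/-- the second moment of `Q U` -/
lemma part1 (C₁ : ℝ) (hC₁ : 0 < C₁)
    (hMVT : ∀ (S : Finset ℕ) (X T : ℝ) (b : ℕ → ℂ), 1 ≤ X → 1 ≤ T →
      (∀ n ∈ S, 1 ≤ n ∧ (n : ℝ) ≤ X) →
      ∫ t in (-T)..T, ‖DP S b t‖ ^ 2 ≤ C₁ * (T + X) * ∑ n ∈ S, ‖b n‖ ^ 2)
    {e N A B T : ℝ} (he : 0 < e) (hN : 1 < N) (hA : 8 ≤ A) (hAN : A ≤ N) (hB : N ^ e ≤ B)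
    (hT : 1 ≤ T) (hTN : T ≤ N / A) (b u : ℕ → ℂ) (hb : ∀ n, ‖b n‖ ≤ 1) (hu : ∀ n, ‖u n‖ ≤ 1) :
    ∫ t in (-T)..T, ‖DP (PR B) b t * DP (SU N A B) u t‖ ^ 2 ≤
      72 * C₁ / e ^ 2 * (N / A) ^ 2 := by
  have hA0 : 0 < A := by linarith
  have hNe : 0 < N ^ e := Real.rpow_pos_of_pos (by linarith) e
  have hB0 : 0 < B := by linarith
  have hN0 : 0 < N := by linarith
  have hPR1 : ∀ n ∈ PR B, 1 ≤ n := fun n hn => (mem_PR hB0.le hn).1.one_lt.le
  have hU1 : ∀ n ∈ SU N A B, 1 ≤ n ∧ (n : ℝ) ≤ 4 * N / (A * B) := fun n hn =>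
    mem_IO' (by positivity) hn
  have hX1 : 1 ≤ 8 * N / A := by
    rw [le_div_iff₀ hA0]
    linarith
  have hS3 : ∀ n : ℕ, n ∈ (PR B ×ˢ SU N A B).image (fun z : ℕ × ℕ => z.1 * z.2) →
      1 ≤ n ∧ (n : ℝ) ≤ 8 * N / A := by
    intro n hn
    rw [Finset.mem_image] at hn
    obtain ⟨z, hz, rfl⟩ := hn
    rw [Finset.mem_product] at hz
    obtain ⟨g1, g2, g3⟩ := mem_PR hB0.le hz.1
    obtain ⟨g4, g5⟩ := hU1 _ hz.2
    refine ⟨Nat.mul_pos g1.pos g4, ?_⟩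
    push_cast
    calc (z.1 : ℝ) * z.2 ≤ (2 * B) * (4 * N / (A * B)) :=
          mul_le_mul g3 g5 (Nat.cast_nonneg _) (by positivity)
      _ = 8 * N / A := by field_simp; ring
  have e1 : ∀ t, ‖DP (PR B) b t * DP (SU N A B) u t‖ ^ 2 =
      ‖DP ((PR B ×ˢ SU N A B).image fun z : ℕ × ℕ => z.1 * z.2)
      (fun m => ∑ z ∈ (PR B ×ˢ SU N A B).filter (fun z : ℕ × ℕ => z.1 * z.2 = m), b z.1 * u z.2) t‖ ^ 2 :=
    fun t => by rw [DP_mul _ _ hPR1 (fun n hn => (hU1 n hn).1)]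
  simp_rw [e1]
  refine (hMVT _ (8 * N / A) T _ hX1 hT hS3).trans ?_
  have h8 : 8 * N / A ≤ N := by
    rw [div_le_iff₀ hA0]
    nlinarith
  have hsum : ∑ m ∈ (PR B ×ˢ SU N A B).image (fun z : ℕ × ℕ => z.1 * z.2),
      ‖∑ z ∈ (PR B ×ˢ SU N A B).filter (fun z : ℕ × ℕ => z.1 * z.2 = m), b z.1 * u z.2‖ ^ 2 ≤
      (8 * N / A) * (1 / e) ^ 2 := by
    have h1 : ∀ m ∈ (PR B ×ˢ SU N A B).image (fun z : ℕ × ℕ => z.1 * z.2),
        ‖∑ z ∈ (PR B ×ˢ SU N A B).filter (fun z : ℕ × ℕ => z.1 * z.2 = m), b z.1 * u z.2‖ ^ 2 ≤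
        (1 / e) ^ 2 := by
      intro m hm
      obtain ⟨g1, g2⟩ := hS3 m hm
      refine pow_le_pow_left₀ (norm_nonneg _) ?_ 2
      exact (coef_bound _ _ hPR1 b u hb hu m).trans (few_primes he hN hB m g1 (g2.trans h8))
    refine (Finset.sum_le_sum h1).trans ?_
    rw [Finset.sum_const, nsmul_eq_mul]
    refine mul_le_mul_of_nonneg_right ?_ (by positivity)
    have h2 : (PR B ×ˢ SU N A B).image (fun z : ℕ × ℕ => z.1 * z.2) ⊆ Finset.Icc 1 ⌊8 * N / A⌋₊ := by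
      intro m hm
      obtain ⟨g1, g2⟩ := hS3 m hm
      rw [Finset.mem_Icc]
      exact ⟨g1, Nat.le_floor g2⟩
    have h3 := Finset.card_le_card h2
    rw [Nat.card_Icc, Nat.add_sub_cancel] at h3
    calc (((PR B ×ˢ SU N A B).image (fun z : ℕ × ℕ => z.1 * z.2)).card : ℝ) ≤ (⌊8 * N / A⌋₊ : ℝ) := by
          exact_mod_cast h3
      _ ≤ 8 * N / A := Nat.floor_le (by positivity)
  calc C₁ * (T + 8 * N / A) * ∑ m ∈ (PR B ×ˢ SU N A B).image (fun z : ℕ × ℕ => z.1 * z.2),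
      ‖∑ z ∈ (PR B ×ˢ SU N A B).filter (fun z : ℕ × ℕ => z.1 * z.2 = m), b z.1 * u z.2‖ ^ 2
      ≤ C₁ * (N / A + 8 * N / A) * ((8 * N / A) * (1 / e) ^ 2) := by
        refine mul_le_mul ?_ hsum (Finset.sum_nonneg fun _ _ => by positivity) (by positivity)
        refine mul_le_mul_of_nonneg_left ?_ hC₁.le
        linarith
    _ = 72 * C₁ / e ^ 2 * (N / A) ^ 2 := by
        field_simp
        ring

lemma int_inv (T t : ℝ) (ht : t ∈ Set.Icc (-T) T) :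
    ∫ s in (-T)..T, 1 / (1 + |t - s|) ≤ 2 * Real.log (1 + 2 * T) := by
  obtain ⟨h1, h2⟩ := ht
  have hc : Continuous fun s : ℝ => 1 / (1 + |t - s|) := by
    refine continuous_const.div (by fun_prop) fun s => ?_
    positivity
  rw [← intervalIntegral.integral_add_adjacent_intervals (hc.intervalIntegrable (-T) t)
    (hc.intervalIntegrable t T)]
  have e1 : ∫ s in (-T)..t, 1 / (1 + |t - s|) = Real.log (1 + t + T) := by
    have : ∫ s in (-T)..t, 1 / (1 + |t - s|) = ∫ s in (-T)..t, ((1 + t) - s)⁻¹ := by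
      refine intervalIntegral.integral_congr fun s hs => ?_
      rw [Set.uIcc_of_le h1] at hs
      have : |t - s| = t - s := abs_of_nonneg (by linarith [hs.2])
      rw [this, one_div]
      congr 1
      ring
    rw [this, intervalIntegral.integral_comp_sub_left (fun x => x⁻¹) (1 + t),
      integral_inv_of_pos (by linarith) (by linarith)]
    congr 1
    have : 1 + t - t = 1 := by ring
    rw [this, div_one]
    ring
  have e2 : ∫ s in t..T, 1 / (1 + |t - s|) = Real.log (1 + T - t) := by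
    have : ∫ s in t..T, 1 / (1 + |t - s|) = ∫ s in t..T, (s + (1 - t))⁻¹ := by
      refine intervalIntegral.integral_congr fun s hs => ?_
      rw [Set.uIcc_of_le h2] at hs
      have : |t - s| = s - t := by
        rw [abs_sub_comm]
        exact abs_of_nonneg (by linarith [hs.1])
      rw [this, one_div]
      congr 1
      ring
    rw [this, intervalIntegral.integral_comp_add_right (fun x => x⁻¹) (1 - t),
      integral_inv_of_pos (by linarith) (by linarith)]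
    congr 1
    have : t + (1 - t) = 1 := by ring
    rw [this, div_one]
    ring
  rw [e1, e2]
  have h3 : Real.log (1 + t + T) ≤ Real.log (1 + 2 * T) :=
    Real.log_le_log (by linarith) (by linarith)
  have h4 : Real.log (1 + T - t) ≤ Real.log (1 + 2 * T) :=
    Real.log_le_log (by linarith) (by linarith)
  linarith

/-- the large values -/
lemma partE (C₂ : ℝ) (hC₂ : 0 < C₂)
    (hZ : ∀ x x' t : ℝ, 1 ≤ x → x ≤ x' → x' ≤ (32 : ℕ) * x → |t| ≤ x ^ ((5 : ℝ) / 4) →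
      ‖DP (IO x x') (fun _ => 1) t‖ ≤ C₂ * (x / (1 + |t|) + x ^ ((3 : ℝ) / 4)))
    (hHMI : SpecHMI) {x x' T L V : ℝ} (hx : 1 ≤ x) (hxx : x' = 32 * x) (hT : 1 ≤ T)
    (hTx : 2 * T ≤ x ^ ((5 : ℝ) / 4)) (hL : 1 ≤ L) (hTL : Real.log (1 + 2 * T) ≤ L)
    (E : Set ℝ) (hE : MeasurableSet E) (hET : E ⊆ Set.Icc (-T) T)
    (hV : volume.real E ≤ V) (hVx : V ≤ x ^ ((1 : ℝ) / 4)) (u : ℕ → ℂ) (hu : ∀ n, ‖u n‖ ≤ 1) :
    ∫ t in E, ‖DP (IO x x') u t‖ ^ 2 ≤ 96 * C₂ * x ^ 2 * L := by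
  have hx0 : 0 < x := by linarith
  have hM : ∀ t ∈ E, ∫ t' in E, ‖DP (IO x x') (fun _ => 1) (t - t')‖ ≤ 3 * C₂ * x * L := by
    intro t ht
    have hc : Continuous fun s : ℝ => 1 / (1 + |t - s|) := by
      refine continuous_const.div (by fun_prop) fun s => ?_
      positivity
    have hc2 : Continuous fun s : ℝ => ‖DP (IO x x') (fun _ => 1) (t - s)‖ :=
      ((continuous_DP _ _).comp (by fun_prop)).norm
    have hi1 : IntegrableOn (fun s : ℝ => 1 / (1 + |t - s|)) E :=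
      (hc.integrableOn_Icc (a := -T) (b := T)).mono_set hET
    have hi2 : IntegrableOn (fun s : ℝ => ‖DP (IO x x') (fun _ => 1) (t - s)‖) E :=
      (hc2.integrableOn_Icc (a := -T) (b := T)).mono_set hET
    have hfin : volume E ≠ ⊤ :=
      ne_top_of_le_ne_top (by rw [Real.volume_Icc]; exact ENNReal.ofReal_ne_top)
        (measure_mono hET)
    have hi3 : IntegrableOn (fun _ : ℝ => x ^ ((3 : ℝ) / 4)) E :=
      integrableOn_const hfin
    have h1 : ∫ s in E, ‖DP (IO x x') (fun _ => 1) (t - s)‖ ≤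
        ∫ s in E, C₂ * (x * (1 / (1 + |t - s|)) + x ^ ((3 : ℝ) / 4)) := by
      refine setIntegral_mono_on hi2 (((hi1.const_mul x).add hi3).const_mul C₂) hE fun s hs => ?_
      have h2 : |t - s| ≤ x ^ ((5 : ℝ) / 4) := by
        have g1 := hET ht
        have g2 := hET hs
        rw [Set.mem_Icc] at g1 g2
        refine (abs_le.2 ⟨?_, ?_⟩).trans hTx <;> linarith [g1.1, g1.2, g2.1, g2.2]
      have h3 := hZ x x' (t - s) hx (by linarith) (by rw [hxx]; norm_num) h2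
      rwa [← mul_one_div x] at h3
    refine h1.trans ?_
    rw [integral_const_mul, integral_add (hi1.const_mul x) hi3, integral_const_mul,
      setIntegral_const, smul_eq_mul]
    have h4 : ∫ s in E, 1 / (1 + |t - s|) ≤ 2 * Real.log (1 + 2 * T) := by
      refine le_trans ?_ (int_inv T t (hET ht))
      rw [intervalIntegral.integral_of_le (by linarith), ← integral_Icc_eq_integral_Ioc]
      refine setIntegral_mono_set hc.integrableOn_Icc ?_ (Filter.Eventually.of_forall hET)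
      exact Filter.Eventually.of_forall fun s => by positivity
    have h5 : volume.real E * x ^ ((3 : ℝ) / 4) ≤ x := by
      calc volume.real E * x ^ ((3 : ℝ) / 4) ≤ x ^ ((1 : ℝ) / 4) * x ^ ((3 : ℝ) / 4) :=
            mul_le_mul_of_nonneg_right (hV.trans hVx) (Real.rpow_nonneg hx0.le _)
        _ = x := by
            rw [← Real.rpow_add hx0]
            norm_num
    have h6 : x * (∫ s in E, 1 / (1 + |t - s|)) ≤ x * (2 * L) :=
      mul_le_mul_of_nonneg_left (by linarith) hx0.le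
    have h7 : x ≤ x * L := by nlinarith
    calc C₂ * (x * (∫ s in E, 1 / (1 + |t - s|)) + volume.real E * x ^ ((3 : ℝ) / 4))
        ≤ C₂ * (x * (2 * L) + x * L) := by
          refine mul_le_mul_of_nonneg_left ?_ hC₂.le
          linarith
      _ = 3 * C₂ * x * L := by ring
  refine (hHMI (IO x x') u E T (3 * C₂ * x * L) hE hET (by positivity) hM).trans ?_
  have h8 : ∑ n ∈ IO x x', ‖u n‖ ^ 2 ≤ 32 * x := by
    have h9 : ∀ n ∈ IO x x', ‖u n‖ ^ 2 ≤ (1 : ℝ) := fun n _ => by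
      have := hu n
      have h10 := norm_nonneg (u n)
      nlinarith
    refine (Finset.sum_le_sum h9).trans ?_
    rw [Finset.sum_const, nsmul_eq_mul, mul_one, ← hxx]
    exact card_IO x x' (by linarith)
  calc 3 * C₂ * x * L * ∑ n ∈ IO x x', ‖u n‖ ^ 2 ≤ 3 * C₂ * x * L * (32 * x) :=
        mul_le_mul_of_nonneg_left h8 (by positivity)
    _ = 96 * C₂ * x ^ 2 * L := by ring

/-- the splitting of the integral -/
lemma split (P Q U : ℝ → ℂ) (hP : Continuous P) (hQ : Continuous Q) (hU : Continuous U)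
    {T R K₁ K₂ K₃ I₁ I₂ : ℝ} (hT : 0 ≤ T) (hR : 0 ≤ R) (hK₂ : 0 ≤ K₂)
    (hK₃ : 0 ≤ K₃) (E : Set ℝ) (hE : MeasurableSet E) (hET : E ⊆ Set.Icc (-T) T)
    (hpt : ∀ t ∈ Set.Icc (-T) T, ‖P t * Q t * U t‖ ^ 2 ≤ K₁ * ‖Q t * U t‖ ^ 2 ∨
      (t ∈ E ∧ ‖P t * Q t * U t‖ ^ 2 ≤ K₂ * ‖U t‖ ^ 2) ∨
      (t ∈ Set.Icc (-R) R ∧ ‖P t * Q t * U t‖ ^ 2 ≤ K₃)) (hK₁ : 0 ≤ K₁)
    (h1 : ∫ t in (-T)..T, ‖Q t * U t‖ ^ 2 ≤ I₁) (h2 : ∫ t in E, ‖U t‖ ^ 2 ≤ I₂) :
    ∫ t in (-T)..T, ‖P t * Q t * U t‖ ^ 2 ≤ K₁ * I₁ + K₂ * I₂ + K₃ * (2 * R) := by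
  have hc : Continuous fun t => ‖P t * Q t * U t‖ ^ 2 := by fun_prop
  have hc1 : Continuous fun t => K₁ * ‖Q t * U t‖ ^ 2 := by fun_prop
  have hc2 : Continuous fun t => K₂ * ‖U t‖ ^ 2 := by fun_prop
  have hc2' : Continuous fun t => ‖U t‖ ^ 2 := by fun_prop
  have hTT : -T ≤ T := by linarith
  have hi1 : Integrable (fun t => K₁ * ‖Q t * U t‖ ^ 2) (volume.restrict (Set.Ioc (-T) T)) :=
    hc1.integrableOn_Ioc
  have hi2 : Integrable (E.indicator fun t => K₂ * ‖U t‖ ^ 2)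
      (volume.restrict (Set.Ioc (-T) T)) :=
    Integrable.indicator (μ := volume.restrict (Set.Ioc (-T) T)) hc2.integrableOn_Ioc hE
  have hi3 : Integrable ((Set.Icc (-R) R).indicator fun _ : ℝ => K₃)
      (volume.restrict (Set.Ioc (-T) T)) :=
    Integrable.indicator (μ := volume.restrict (Set.Ioc (-T) T))
      (continuous_const.integrableOn_Ioc) measurableSet_Icc
  rw [intervalIntegral.integral_of_le hTT] at h1 ⊢
  have e1 : ∫ t in Set.Ioc (-T) T, ‖P t * Q t * U t‖ ^ 2 ≤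
      ∫ t in Set.Ioc (-T) T, (K₁ * ‖Q t * U t‖ ^ 2 +
        E.indicator (fun t => K₂ * ‖U t‖ ^ 2) t +
        (Set.Icc (-R) R).indicator (fun _ : ℝ => K₃) t) := by
    refine setIntegral_mono_on hc.integrableOn_Ioc ((hi1.add hi2).add hi3) measurableSet_Ioc
      fun t ht => ?_
    have g1 : 0 ≤ K₁ * ‖Q t * U t‖ ^ 2 := by positivity
    have g2 : 0 ≤ E.indicator (fun t => K₂ * ‖U t‖ ^ 2) t :=
      Set.indicator_nonneg (fun t _ => by positivity) t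
    have g3 : 0 ≤ (Set.Icc (-R) R).indicator (fun _ : ℝ => K₃) t :=
      Set.indicator_nonneg (fun t _ => hK₃) t
    rcases hpt t (Set.Ioc_subset_Icc_self ht) with h | ⟨hE', h⟩ | ⟨hR', h⟩
    · linarith
    · rw [Set.indicator_of_mem hE'] at g2 ⊢
      linarith
    · rw [Set.indicator_of_mem hR'] at g3 ⊢
      linarith
  refine e1.trans ?_
  rw [integral_add (f := fun t => K₁ * ‖Q t * U t‖ ^ 2 +
      E.indicator (fun t => K₂ * ‖U t‖ ^ 2) t) (hi1.add hi2) hi3,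
    integral_add (f := fun t => K₁ * ‖Q t * U t‖ ^ 2) hi1 hi2, integral_const_mul,
    setIntegral_indicator hE, setIntegral_indicator measurableSet_Icc]
  have e2 : ∫ t in Set.Ioc (-T) T ∩ E, K₂ * ‖U t‖ ^ 2 ≤ K₂ * I₂ := by
    rw [integral_const_mul]
    refine mul_le_mul_of_nonneg_left (le_trans ?_ h2) hK₂
    refine setIntegral_mono_set ((hc2'.integrableOn_Icc (a := -T) (b := T)).mono_set hET) ?_
      (Filter.Eventually.of_forall Set.inter_subset_right)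
    exact Filter.Eventually.of_forall fun s => by positivity
  have e3 : ∫ _ in Set.Ioc (-T) T ∩ Set.Icc (-R) R, K₃ ≤ K₃ * (2 * R) := by
    have e4 : ∫ _ in Set.Icc (-R) R, K₃ = K₃ * (2 * R) := by
      rw [setIntegral_const, smul_eq_mul, measureReal_def, Real.volume_Icc,
        ENNReal.toReal_ofReal (by linarith)]
      ring
    rw [← e4]
    refine setIntegral_mono_set continuous_const.integrableOn_Icc ?_
      (Filter.Eventually.of_forall Set.inter_subset_right)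
    exact Filter.Eventually.of_forall fun s => hK₃
  have e5 : K₁ * ∫ t in Set.Ioc (-T) T, ‖Q t * U t‖ ^ 2 ≤ K₁ * I₁ :=
    mul_le_mul_of_nonneg_left h1 hK₁
  linarith

/-- the size conditions -/
lemma sizes {N c A B T : ℝ} (hN : Real.exp 24 ≤ N) (hc : 64 ≤ c) (hA : Real.log N ^ c ≤ A)
    (hAN : A ≤ N ^ ((1 : ℝ) / 100)) (hB1 : 1 ≤ B) (hBN : B ≤ N ^ ((1 : ℝ) / 10))
    (hT : 1 ≤ T) (hTN : T ≤ N / A) :
    1 < N ∧ 24 ≤ Real.log N ∧ 8 ≤ A ∧ A ≤ N ∧ T ≤ N ∧ Real.log (1 + 2 * T) ≤ Real.log N ∧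
      N ^ ((4 : ℝ) / 5) ≤ N / (8 * A * B) ∧ 2 * T ≤ N := by
  have hN0 : 0 < N := lt_of_lt_of_le (Real.exp_pos _) hN
  have hL : 24 ≤ Real.log N := by
    rw [← Real.log_exp 24]
    exact Real.log_le_log (Real.exp_pos _) hN
  have hN1 : 1 < N := by
    have := Real.add_one_le_exp (24 : ℝ)
    linarith
  have hA8 : 8 ≤ A := by
    refine le_trans ?_ hA
    calc (8 : ℝ) ≤ Real.log N ^ (1 : ℝ) := by
          rw [Real.rpow_one]
          linarith
      _ ≤ Real.log N ^ c := Real.rpow_le_rpow_of_exponent_le (by linarith) (by linarith)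
  have hA0 : 0 < A := by linarith
  have hAN' : A ≤ N := by
    refine hAN.trans ?_
    calc N ^ ((1 : ℝ) / 100) ≤ N ^ (1 : ℝ) :=
          Real.rpow_le_rpow_of_exponent_le hN1.le (by norm_num)
      _ = N := Real.rpow_one N
  have hTA : T * A ≤ N := by
    rwa [le_div_iff₀ hA0] at hTN
  have hT8 : 8 * T ≤ N := by nlinarith
  refine ⟨hN1, hL, hA8, hAN', by linarith, ?_, ?_, by linarith⟩
  · exact Real.log_le_log (by linarith) (by nlinarith)
  · rw [le_div_iff₀ (by positivity)]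
    have h1 : A * B ≤ N ^ ((1 : ℝ) / 100) * N ^ ((1 : ℝ) / 10) :=
      mul_le_mul hAN hBN (by linarith) (Real.rpow_nonneg hN0.le _)
    have h2 : (8 : ℝ) ≤ N ^ ((9 : ℝ) / 100) := by
      have h3 : (8 : ℝ) = Real.exp (Real.log 8) := (Real.exp_log (by norm_num)).symm
      rw [h3, Real.rpow_def_of_pos hN0]
      refine Real.exp_le_exp.2 ?_
      have h4 : Real.log 8 = 3 * Real.log 2 := by
        rw [show (8 : ℝ) = 2 ^ 3 by norm_num, Real.log_pow]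
        norm_num
      have h5 := Real.log_two_lt_d9
      rw [h4]
      nlinarith
    have h6 : 0 ≤ N ^ ((4 : ℝ) / 5) := Real.rpow_nonneg hN0.le _
    calc N ^ ((4 : ℝ) / 5) * (8 * A * B) = N ^ ((4 : ℝ) / 5) * (8 * (A * B)) := by ring
      _ ≤ N ^ ((4 : ℝ) / 5) * (N ^ ((9 : ℝ) / 100) * (N ^ ((1 : ℝ) / 100) * N ^ ((1 : ℝ) / 10))) := by
          refine mul_le_mul_of_nonneg_left (mul_le_mul h2 h1 ?_ (by positivity)) h6
          have : 0 ≤ B := by linarith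
          positivity
      _ = N := by
          rw [← Real.rpow_add hN0, ← Real.rpow_add hN0, ← Real.rpow_add hN0]
          norm_num

end MIDM

open MIDM in
theorem specMID (hMVT : SpecMVT) (hHMI : SpecHMI) (hZSM : SpecZSM) (hLVP : SpecLVP) :
    SpecMID := by
  intro e he _
  obtain ⟨C₁, hC₁, hM⟩ := hMVT
  obtain ⟨C₂, hC₂, hZ⟩ := hZSM 32 (by norm_num)
  obtain ⟨N₁, hV⟩ := hLVP
  refine ⟨72 * C₁ / e ^ 2 + 6 * C₂ + 32, max N₁ (Real.exp 24), by positivity, ?_⟩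
  intro N c A B T D E₁ a b u hN hc hA hAN hB hBN hT hTN hD hE₁ ha hb hu hmain
  have hN24 : Real.exp 24 ≤ N := (le_max_right _ _).trans hN
  have hNN₁ : N₁ ≤ N := (le_max_left _ _).trans hN
  have hN1' : 1 ≤ N := by
    have := Real.add_one_le_exp (24 : ℝ)
    linarith
  have hB1 : 1 ≤ B := (Real.one_le_rpow hN1' he.le).trans hB
  obtain ⟨hN1, hL, hA8, hAN', hTN', hTL, hx45, h2T⟩ :=
    sizes hN24 hc hA hAN hB1 hBN hT hTN
  have hN0 : 0 < N := by linarith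
  have hA0 : 0 < A := by linarith
  have hB0 : 0 < B := by linarith
  obtain ⟨L, hLdef⟩ : ∃ L, L = Real.log N := ⟨_, rfl⟩
  rw [← hLdef] at hL hTL hmain ⊢
  obtain ⟨x, hx⟩ : ∃ x, x = N / (8 * A * B) := ⟨_, rfl⟩
  rw [← hx] at hx45
  have hx1 : 1 ≤ x := (Real.one_le_rpow hN1.le (by norm_num)).trans hx45
  have hx0 : 0 < x := by linarith
  have hxx : 4 * N / (A * B) = 32 * x := by
    rw [hx]
    field_simp
    ring
  have hSU : SU N A B = IO x (4 * N / (A * B)) := by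
    rw [hx]
    rfl
  -- the large values
  obtain ⟨E, hEdef⟩ : ∃ E : Set ℝ, E = {t : ℝ | t ∈ Set.Icc (-T) T ∧
    A ^ ((99 : ℝ) / 100) ≤ ‖DP (PR A) a t‖} := ⟨_, rfl⟩
  have hEm : MeasurableSet E := by
    rw [hEdef]
    refine measurableSet_Icc.inter ?_
    exact (isClosed_le continuous_const (continuous_DP _ _).norm).measurableSet
  have hET : E ⊆ Set.Icc (-T) T := by
    rw [hEdef]
    exact fun t ht => ht.1
  have hEV : volume.real E ≤ N ^ ((1 : ℝ) / 8) := by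
    rw [measureReal_def, hEdef]
    refine ENNReal.toReal_le_of_le_ofReal (Real.rpow_nonneg hN0.le _) ?_
    exact hV N c A T a hNN₁ hc hA hAN' hT hTN' ha
  have hVx : N ^ ((1 : ℝ) / 8) ≤ x ^ ((1 : ℝ) / 4) := by
    calc N ^ ((1 : ℝ) / 8) ≤ N ^ ((4 : ℝ) / 5 * (1 / 4)) :=
          Real.rpow_le_rpow_of_exponent_le hN1.le (by norm_num)
      _ = (N ^ ((4 : ℝ) / 5)) ^ ((1 : ℝ) / 4) := by rw [Real.rpow_mul hN0.le]
      _ ≤ x ^ ((1 : ℝ) / 4) :=
          Real.rpow_le_rpow (Real.rpow_nonneg hN0.le _) hx45 (by norm_num)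
  have hTx : 2 * T ≤ x ^ ((5 : ℝ) / 4) := by
    refine h2T.trans ?_
    calc N = (N ^ ((4 : ℝ) / 5)) ^ ((5 : ℝ) / 4) := by
          rw [← Real.rpow_mul hN0.le]
          norm_num
      _ ≤ x ^ ((5 : ℝ) / 4) :=
          Real.rpow_le_rpow (Real.rpow_nonneg hN0.le _) hx45 (by norm_num)
  have hI₂ : ∫ t in E, ‖DP (SU N A B) u t‖ ^ 2 ≤ 96 * C₂ * x ^ 2 * L := by
    rw [hSU]
    exact partE C₂ hC₂ hZ hHMI hx1 hxx hT hTx (by linarith) hTL E hEm hET hEV hVx u hu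
  have hI₁ := part1 C₁ hC₁ hM he hN1 hA8 hAN' hB hT hTN b u hb hu
  -- pointwise
  have hLD : 0 < L ^ D := Real.rpow_pos_of_pos (by linarith) D
  have hLDE : 0 < L ^ (D + E₁) := Real.rpow_pos_of_pos (by linarith) _
  have hLE : 1 ≤ L ^ E₁ := Real.one_le_rpow (by linarith) hE₁
  have hA99 : 0 < A ^ ((99 : ℝ) / 100) := Real.rpow_pos_of_pos hA0 _
  have hPle : ∀ t, ‖DP (PR A) a t‖ ≤ 2 * A := fun t =>
    (norm_DP_le _ _ ha t).trans (card_PR A hA0.le)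
  have hQle : ∀ t, ‖DP (PR B) b t‖ ≤ 2 * B := fun t =>
    (norm_DP_le _ _ hb t).trans (card_PR B hB0.le)
  have hfin := split (DP (PR A) a) (DP (PR B) b) (DP (SU N A B) u) (continuous_DP _ _)
    (continuous_DP _ _) (continuous_DP _ _) (T := T) (R := L ^ E₁)
    (K₁ := (A ^ ((99 : ℝ) / 100)) ^ 2) (K₂ := (2 * A) ^ 2 * (B / L ^ D) ^ 2)
    (K₃ := ((2 * A) * (2 * B) * (N / (A * B) / L ^ (D + E₁))) ^ 2) (by linarith) (by linarith)
    (by positivity) (by positivity) E hEm hET ?_ (by positivity) hI₁ hI₂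
  · refine hfin.trans ?_
    have t1 : (A ^ ((99 : ℝ) / 100)) ^ 2 * (72 * C₁ / e ^ 2 * (N / A) ^ 2) =
        72 * C₁ / e ^ 2 * N ^ 2 * A ^ (-(1 : ℝ) / 50) := by
      have g1 : (A ^ ((99 : ℝ) / 100)) ^ 2 = A ^ (-(1 : ℝ) / 50) * A ^ 2 := by
        rw [← Real.rpow_natCast, ← Real.rpow_natCast, ← Real.rpow_mul hA0.le,
          ← Real.rpow_add hA0]
        norm_num
      rw [g1]
      field_simp
    have g2 : L ^ (1 - 2 * D) = L / (L ^ D) ^ 2 := by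
      rw [Real.rpow_sub (by linarith), Real.rpow_one, mul_comm 2 D, Real.rpow_mul (by linarith)]
      congr 1
      exact Real.rpow_natCast _ 2
    have t2 : (2 * A) ^ 2 * (B / L ^ D) ^ 2 * (96 * C₂ * x ^ 2 * L) =
        6 * C₂ * N ^ 2 * L ^ (1 - 2 * D) := by
      rw [g2, hx]
      field_simp
      ring
    have t3 : ((2 * A) * (2 * B) * (N / (A * B) / L ^ (D + E₁))) ^ 2 * (2 * L ^ E₁) ≤
        32 * N ^ 2 * L ^ (1 - 2 * D) := by
      have g3 : L ^ (D + E₁) = L ^ D * L ^ E₁ := Real.rpow_add (by linarith) _ _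
      have g4 : ((2 * A) * (2 * B) * (N / (A * B) / L ^ (D + E₁))) ^ 2 * (2 * L ^ E₁) =
          32 * (N ^ 2 / (L ^ D) ^ 2) * (1 / L ^ E₁) := by
        rw [g3]
        have : 0 < L ^ E₁ := by linarith
        field_simp
        ring
      rw [g4, g2]
      have g5 : 1 / L ^ E₁ ≤ L := by
        refine le_trans ?_ (by linarith : (1 : ℝ) ≤ L)
        rw [div_le_one (by linarith)]
        exact hLE
      calc 32 * (N ^ 2 / (L ^ D) ^ 2) * (1 / L ^ E₁) ≤ 32 * (N ^ 2 / (L ^ D) ^ 2) * L :=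
            mul_le_mul_of_nonneg_left g5 (by positivity)
        _ = 32 * N ^ 2 * (L / (L ^ D) ^ 2) := by ring
    have p1 : 0 ≤ A ^ (-(1 : ℝ) / 50) := Real.rpow_nonneg hA0.le _
    have p2 : 0 ≤ L ^ (1 - 2 * D) := Real.rpow_nonneg (by linarith) _
    rw [t1, t2]
    have p3 : 0 ≤ 72 * C₁ / e ^ 2 := by positivity
    have q1 : 0 ≤ (6 * C₂ + 32) * N ^ 2 * A ^ (-(1 : ℝ) / 50) := by positivity
    have q2 : 0 ≤ 72 * C₁ / e ^ 2 * N ^ 2 * L ^ (1 - 2 * D) := by positivity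
    calc 72 * C₁ / e ^ 2 * N ^ 2 * A ^ (-(1 : ℝ) / 50) + 6 * C₂ * N ^ 2 * L ^ (1 - 2 * D) +
          ((2 * A) * (2 * B) * (N / (A * B) / L ^ (D + E₁))) ^ 2 * (2 * L ^ E₁)
        ≤ 72 * C₁ / e ^ 2 * N ^ 2 * A ^ (-(1 : ℝ) / 50) + 6 * C₂ * N ^ 2 * L ^ (1 - 2 * D) +
          32 * N ^ 2 * L ^ (1 - 2 * D) + (6 * C₂ + 32) * N ^ 2 * A ^ (-(1 : ℝ) / 50) +
          72 * C₁ / e ^ 2 * N ^ 2 * L ^ (1 - 2 * D) := by linarith
      _ = (72 * C₁ / e ^ 2 + 6 * C₂ + 32) * N ^ 2 *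
          (A ^ (-(1 : ℝ) / 50) + L ^ (1 - 2 * D)) := by ring
  · intro t ht
    have hnorm : ‖DP (PR A) a t * DP (PR B) b t * DP (SU N A B) u t‖ =
        ‖DP (PR A) a t‖ * ‖DP (PR B) b t‖ * ‖DP (SU N A B) u t‖ := by
      rw [norm_mul, norm_mul]
    have n1 := norm_nonneg (DP (PR A) a t)
    have n2 := norm_nonneg (DP (PR B) b t)
    have n3 := norm_nonneg (DP (SU N A B) u t)
    by_cases hE' : A ^ ((99 : ℝ) / 100) ≤ ‖DP (PR A) a t‖
    · right
      rcases hmain t (abs_le.2 ht) with h | ⟨h, h'⟩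
      · left
        refine ⟨by rw [hEdef]; exact ⟨ht, hE'⟩, ?_⟩
        rw [hnorm, mul_pow, mul_pow]
        refine mul_le_mul_of_nonneg_right ?_ (by positivity)
        exact mul_le_mul (pow_le_pow_left₀ n1 (hPle t) 2) (pow_le_pow_left₀ n2 h 2)
          (by positivity) (by positivity)
      · right
        refine ⟨abs_le.1 h, ?_⟩
        rw [hnorm]
        refine pow_le_pow_left₀ (by positivity) ?_ 2
        refine mul_le_mul ?_ h' n3 (by positivity)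
        exact mul_le_mul (hPle t) (hQle t) n2 (by positivity)
    · left
      rw [not_le] at hE'
      rw [hnorm, norm_mul, mul_assoc, mul_pow]
      refine mul_le_mul_of_nonneg_right ?_ (by positivity)
      exact pow_le_pow_left₀ n1 hE'.le 2

end Pool.Agent.Lib.MP3efbeb.LG
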