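import Pool.Agent.Lib.MP_3efbeb_nt.LG.SpecC
import Pool.Agent.Lib.MP_3efbeb_nt.LG.MID
import Pool.Agent.Lib.MP_3efbeb_nt.LG.ZSM
import Pool.Agent.Lib.MP_3efbeb_nt.LG.HMI

/-!
# Module HMJ (LongPatterns, part C): Halász-Montgomery on a small set of frequencies (helper4)
-/

set_option autoImplicit false

namespace Pool.Agent.Lib.MP3efbeb.LG

open Finset MeasureTheory

namespace HMJM

theorem integral_bound {x t : ℝ} (hx : 1 ≤ x) :
    ‖∫ u in x..(64 * x), Complex.exp ((t * Real.log u : ℝ) * Complex.I)‖ ≤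
      130 * x * (1 / (1 + |t|)) := by
  have hx0 : 0 < x := by linarith
  have h1 : ∫ u in x..(64 * x), Complex.exp ((t * Real.log u : ℝ) * Complex.I) =
      ZSMM.Gf t (64 * x) - ZSMM.Gf t x := by
    apply intervalIntegral.integral_eq_sub_of_hasDerivAt
    · intro u hu
      rw [Set.uIcc_of_le (by linarith)] at hu
      exact ZSMM.hasDerivAt_Gf (lt_of_lt_of_le hx0 hu.1)
    · apply ContinuousOn.intervalIntegrable
      rw [Set.uIcc_of_le (by linarith)]
      intro u hu
      have hu0 : u ≠ 0 := (lt_of_lt_of_le hx0 hu.1).ne'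
      apply ContinuousAt.continuousWithinAt
      have : ContinuousAt (fun u : ℝ => ((t * Real.log u : ℝ) : ℂ) * Complex.I) u :=
        (Complex.continuous_ofReal.continuousAt.comp
          (continuousAt_const.mul (Real.continuousAt_log hu0))).mul continuousAt_const
      exact this.cexp
  rw [h1]
  have h2 := ZSMM.norm_Gf (t := t) (u := 64 * x) (by linarith)
  have h3 := ZSMM.norm_Gf (t := t) (u := x) hx0
  refine (norm_sub_le _ _).trans ?_
  have h4 : 2 * (64 * x) / (1 + |t|) + 2 * x / (1 + |t|) = 130 * x * (1 / (1 + |t|)) := by ring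
  linarith

theorem DP_le {c C₀ : ℝ}
    (hZ : ∀ x x' α t : ℝ, 1 ≤ x → x ≤ x' → x' ≤ 64 * x → 0 ≤ α → α ≤ 1 → |t| ≤ x ^ 9 →
      ‖∑ n ∈ IO x x', Complex.exp ((t * Real.log (n + α) : ℝ) * Complex.I) -
        ∫ u in x..x', Complex.exp ((t * Real.log u : ℝ) * Complex.I)‖ ≤ C₀ * x ^ (1 - c))
    {x t : ℝ} (hx : 1 ≤ x) (ht : |t| ≤ x ^ 9) :
    ‖DP (IO x (64 * x)) (fun _ => 1) t‖ ≤ 130 * x * (1 / (1 + |t|)) + C₀ * x ^ (1 - c) := by
  have h1 := hZ x (64 * x) 0 t hx (by linarith) le_rfl le_rfl zero_le_one ht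
  have h2 : DP (IO x (64 * x)) (fun _ => 1) t =
      ∑ n ∈ IO x (64 * x), Complex.exp ((t * Real.log (n + 0) : ℝ) * Complex.I) := by
    unfold DP nit
    simp only [one_mul, add_zero]
  rw [← h2] at h1
  have h3 := integral_bound (x := x) (t := t) hx
  have h4 := norm_sub_norm_le (DP (IO x (64 * x)) (fun _ => 1) t)
    (∫ u in x..(64 * x), Complex.exp ((t * Real.log u : ℝ) * Complex.I))
  linarith

end HMJM

open HMJM in
theorem specHMJ (hHMI : SpecHMI) (hZSK : SpecZSK) : SpecHMJ := by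
  obtain ⟨c, C₀, hc, hc2, hC₀, hZ⟩ := hZSK 9 (by norm_num)
  refine ⟨c / 8, 520 + C₀, 256, by linarith, by linarith, by linarith, ?_⟩
  intro N x S a E hN hNx _ hS hE hEN hvol
  have hN0 : 0 < N := by linarith
  have hN8 : (2 : ℝ) ≤ N ^ ((1 : ℝ) / 8) := by
    have h1 : (256 : ℝ) ^ ((1 : ℝ) / 8) = 2 := by
      rw [show (256 : ℝ) = 2 ^ (8 : ℝ) by norm_num, ← Real.rpow_mul (by norm_num)]
      norm_num
    rw [← h1]
    exact Real.rpow_le_rpow (by norm_num) hN (by norm_num)
  have hx2 : 2 ≤ x := hN8.trans hNx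
  have hx0 : 0 < x := by linarith
  have hx1 : 1 ≤ x := by linarith
  have hx9 : 2 * N ≤ x ^ 9 := by
    have h1 : (N ^ ((1 : ℝ) / 8)) ^ 8 = N := by
      rw [← Real.rpow_natCast, ← Real.rpow_mul hN0.le]
      norm_num
    have h2 : (N ^ ((1 : ℝ) / 8)) ^ 8 ≤ x ^ 8 := pow_le_pow_left₀ (by positivity) hNx 8
    rw [h1] at h2
    calc 2 * N ≤ x * x ^ 8 := by nlinarith
      _ = x ^ 9 := by ring
  have hlogN : 1 ≤ Real.log N := by
    rw [Real.le_log_iff_exp_le hN0]
    have := Real.exp_one_lt_d9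
    linarith
  have hlog2 : Real.log (1 + 2 * N) ≤ 2 * Real.log N := by
    have h1 : Real.log (1 + 2 * N) ≤ Real.log (N ^ 2) :=
      Real.log_le_log (by linarith) (by nlinarith)
    rwa [Real.log_pow, Nat.cast_ofNat] at h1
  have hvolr : volume.real E ≤ N ^ (c / 8) :=
    ENNReal.toReal_le_of_le_ofReal (Real.rpow_nonneg hN0.le _) hvol
  have hNc : N ^ (c / 8) * x ^ (1 - c) ≤ x := by
    have h1 : N ^ (c / 8) ≤ x ^ c := by
      have h2 : N ^ (c / 8) = (N ^ ((1 : ℝ) / 8)) ^ c := by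
        rw [← Real.rpow_mul hN0.le]
        congr 1
        ring
      rw [h2]
      exact Real.rpow_le_rpow (by positivity) hNx hc.le
    calc N ^ (c / 8) * x ^ (1 - c) ≤ x ^ c * x ^ (1 - c) :=
          mul_le_mul_of_nonneg_right h1 (Real.rpow_nonneg hx0.le _)
      _ = x := by
        rw [← Real.rpow_add hx0]
        norm_num
  have hM : ∀ t ∈ E, ∫ t' in E, ‖DP (IO x (64 * x)) (fun _ => 1) (t - t')‖ ≤
      (520 + C₀) * x * Real.log N := by
    intro t ht
    have hcc : Continuous fun s : ℝ => 1 / (1 + |t - s|) := by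
      refine continuous_const.div (by fun_prop) fun s => ?_
      positivity
    have hc2 : Continuous fun s : ℝ => ‖DP (IO x (64 * x)) (fun _ => 1) (t - s)‖ :=
      ((HMIM.DP_cont _ _).comp (by fun_prop)).norm
    have hi1 : IntegrableOn (fun s : ℝ => 1 / (1 + |t - s|)) E :=
      (hcc.integrableOn_Icc (a := -N) (b := N)).mono_set hEN
    have hi2 : IntegrableOn (fun s : ℝ => ‖DP (IO x (64 * x)) (fun _ => 1) (t - s)‖) E :=
      (hc2.integrableOn_Icc (a := -N) (b := N)).mono_set hEN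
    have hfin : volume E ≠ ⊤ := ne_top_of_le_ne_top ENNReal.ofReal_ne_top hvol
    have hi3 : IntegrableOn (fun _ : ℝ => C₀ * x ^ (1 - c)) E := integrableOn_const hfin
    have h1 : ∫ s in E, ‖DP (IO x (64 * x)) (fun _ => 1) (t - s)‖ ≤
        ∫ s in E, (130 * x * (1 / (1 + |t - s|)) + C₀ * x ^ (1 - c)) := by
      refine setIntegral_mono_on hi2 ((hi1.const_mul (130 * x)).add hi3) hE fun s hs => ?_
      have h2 : |t - s| ≤ x ^ 9 := by
        have g1 := hEN ht
        have g2 := hEN hs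
        rw [Set.mem_Icc] at g1 g2
        refine (abs_le.2 ⟨?_, ?_⟩).trans hx9 <;> linarith [g1.1, g1.2, g2.1, g2.2]
      exact DP_le hZ hx1 h2
    refine h1.trans ?_
    rw [integral_add (hi1.const_mul (130 * x)) hi3, integral_const_mul, setIntegral_const,
      smul_eq_mul]
    have h4 : ∫ s in E, 1 / (1 + |t - s|) ≤ 2 * Real.log (1 + 2 * N) := by
      refine le_trans ?_ (MIDM.int_inv N t (hEN ht))
      rw [intervalIntegral.integral_of_le (by linarith), ← integral_Icc_eq_integral_Ioc]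
      refine setIntegral_mono_set hcc.integrableOn_Icc ?_ (Filter.Eventually.of_forall hEN)
      exact Filter.Eventually.of_forall fun s => by positivity
    have h5 : volume.real E * (C₀ * x ^ (1 - c)) ≤ C₀ * x := by
      calc volume.real E * (C₀ * x ^ (1 - c)) ≤ N ^ (c / 8) * (C₀ * x ^ (1 - c)) :=
            mul_le_mul_of_nonneg_right hvolr (by positivity)
        _ = C₀ * (N ^ (c / 8) * x ^ (1 - c)) := by ring
        _ ≤ C₀ * x := mul_le_mul_of_nonneg_left hNc hC₀.le
    have h6 : 130 * x * (∫ s in E, 1 / (1 + |t - s|)) ≤ 130 * x * (4 * Real.log N) :=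
      mul_le_mul_of_nonneg_left (by linarith) (by linarith)
    have h7 : C₀ * x ≤ C₀ * x * Real.log N := le_mul_of_one_le_right (by positivity) hlogN
    calc 130 * x * (∫ s in E, 1 / (1 + |t - s|)) + volume.real E * (C₀ * x ^ (1 - c))
        ≤ 130 * x * (4 * Real.log N) + C₀ * x * Real.log N := by linarith
      _ = (520 + C₀) * x * Real.log N := by ring
  have hfinal := hHMI (IO x (64 * x)) (fun n => if n ∈ S then a n else 0) E N
    ((520 + C₀) * x * Real.log N) hE hEN (by positivity) hM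
  have hDP : ∀ t, DP (IO x (64 * x)) (fun n => if n ∈ S then a n else 0) t = DP S a t := by
    intro t
    unfold DP
    rw [← Finset.sum_subset hS (fun n _ hn => by simp [hn])]
    exact Finset.sum_congr rfl fun n hn => by simp [hn]
  have hsum : ∑ n ∈ IO x (64 * x), ‖(if n ∈ S then a n else 0 : ℂ)‖ ^ 2 = ∑ n ∈ S, ‖a n‖ ^ 2 := by
    rw [← Finset.sum_subset hS (fun n _ hn => by simp [hn])]
    exact Finset.sum_congr rfl fun n hn => by simp [hn]
  simp only [hDP] at hfinal
  rw [hsum] at hfinal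
  exact hfinal

end Pool.Agent.Lib.MP3efbeb.LG
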