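import Pool.Agent.Lib.MP_3efbeb_nt.LG.SpecB

/-!
# The major arcs (module MAJ)
-/

set_option autoImplicit false

namespace Pool.Agent.Lib.MP3efbeb.LG

open Finset MeasureTheory Filter Topology

noncomputable section

namespace MAJM

theorem ee_add (x y : ℝ) : ee (x + y) = ee x * ee y := by
  rw [ee, ee, ee, ← Complex.exp_add]
  congr 1
  push_cast
  ring

/-- the number of characters -/
theorem card_char (q : ℕ) [NeZero q] : (Fintype.card (DirichletCharacter ℂ q) : ℝ) ≤ q := by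
  rw [← Nat.card_eq_fintype_card, DirichletCharacter.card_eq_totient_of_hasEnoughRootsOfUnity]
  exact_mod_cast Nat.totient_le q

end MAJM

/-- MAJ: the major arcs -/
theorem specMAJ (hSIT : SpecSIT) (hCHX : SpecCHX) (hBET : SpecBET) (hCBB : SpecCBB) : SpecMAJ := by
  intro D b e hD hb he he'
  obtain ⟨E, c₀, hE, hc₀, hS⟩ := hSIT (D + 4 * b + 2) b e (by linarith) hb he he'
  obtain ⟨C, -, hC⟩ := hCBB e he he'
  refine ⟨E, max c₀ b, hE, le_max_of_le_left hc₀, fun c hc => ?_⟩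
  have hcc : c₀ ≤ c := (le_max_left _ _).trans hc
  have hcb : b ≤ c := (le_max_right _ _).trans hc
  obtain ⟨N₁, hN₁⟩ := hS c hcc
  obtain ⟨N₂, hN₂⟩ := hC c (hc₀.trans hcc)
  refine ⟨max (max N₁ N₂) (Real.exp 10), fun N A B u hN hB q J a β hq hqL hβ => ?_⟩
  have hN1 : N₁ ≤ N := (le_max_left _ _).trans ((le_max_left _ _).trans hN)
  have hN2 : N₂ ≤ N := (le_max_right _ _).trans ((le_max_left _ _).trans hN)
  have hN3 : Real.exp 10 ≤ N := (le_max_right _ _).trans hN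
  have hN0 : 0 < N := (Real.exp_pos _).trans_le hN3
  have hlog : 10 ≤ Real.log N := by
    rw [Real.le_log_iff_exp_le hN0]
    exact hN3
  obtain ⟨-, -, hcop⟩ := hN₂ N A B E u hN2 hB
  obtain ⟨L, hL⟩ : ∃ L, L = Real.log N := ⟨_, rfl⟩
  obtain ⟨H, hH⟩ : ∃ H, H = Hn N c := ⟨_, rfl⟩
  have hSS := hN₁ N A B u hN1 hB
  rw [← hL] at hlog hqL hβ hcop hSS ⊢
  rw [← hH] at hβ hSS ⊢
  have hL0 : 0 < L := by linarith
  have hL1 : 1 ≤ L := by linarith
  have : NeZero q := ⟨by omega⟩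
  have hb0 : 0 < L ^ b := Real.rpow_pos_of_pos hL0 _
  have hb1 : 1 ≤ L ^ b := Real.one_le_rpow hL1 hb.le
  -- coprimality
  have hco : ∀ n, cb A B u n ≠ 0 → n.Coprime q := by
    intro n hn
    by_contra hnc
    obtain ⟨p, hp, hpn, hpq⟩ := Nat.Prime.not_coprime_iff_dvd.1 hnc
    have h1 : L ^ c < p := (hcop n hn).2.2 p hp hpn
    have h2 : (p : ℝ) ≤ q := by exact_mod_cast Nat.le_of_dvd (by omega) hpq
    have h3 : L ^ b ≤ L ^ c := Real.rpow_le_rpow_of_exponent_le hL1 hcb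
    linarith
  obtain ⟨G, hG⟩ : ∃ G, G = N * (H : ℝ) ^ 2 / L ^ (D + 4 * b + 2) := ⟨_, rfl⟩
  have hG0 : 0 ≤ G := by
    rw [hG]
    exact div_nonneg (by positivity) (Real.rpow_nonneg hL0.le _)
  -- one character
  have h1 : ∀ χ : DirichletCharacter ℂ q, ∑ j ∈ range J,
      ‖∑ n ∈ Ioc j (j + H), (cb A B u n : ℂ) * ee (β * n) * χ n‖ ^ 2 ≤ 82 * (L ^ b) ^ 2 * G := by
    intro χ
    have h2 := hBET H J β G (fun n => (cb A B u n : ℂ) * χ n) (fun y _ hy => by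
      rw [hG]
      exact hSS q χ y J hqL hy) hG0
    have h3 : ∀ j, ∑ n ∈ Ioc j (j + H), (cb A B u n : ℂ) * ee (β * n) * χ n =
        ∑ n ∈ Ioc j (j + H), (cb A B u n : ℂ) * χ n * ee (β * n) := fun j =>
      Finset.sum_congr rfl fun n _ => by ring
    simp only [h3]
    refine h2.trans ?_
    have h4 : (2 * Real.pi * |β| * H) ^ 2 ≤ 40 * (L ^ b) ^ 2 := by
      have h5 : 0 ≤ |β| * (H : ℝ) := by positivity
      have h6 : (|β| * (H : ℝ)) ^ 2 ≤ (L ^ b) ^ 2 := pow_le_pow_left₀ h5 hβ 2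
      have h7 : Real.pi ^ 2 ≤ 10 := by
        have := Real.pi_lt_d2
        nlinarith [Real.pi_pos]
      calc (2 * Real.pi * |β| * H) ^ 2 = 4 * Real.pi ^ 2 * (|β| * H) ^ 2 := by ring
        _ ≤ 4 * 10 * (L ^ b) ^ 2 := by
            refine mul_le_mul (by linarith) h6 (sq_nonneg _) (by norm_num)
        _ = 40 * (L ^ b) ^ 2 := by ring
    have h8 : 1 ≤ (L ^ b) ^ 2 := one_le_pow₀ hb1
    nlinarith
  -- all characters
  have h2 : ∀ j, ‖∑ n ∈ Ioc j (j + H), (cb A B u n : ℂ) * ee (((a : ℝ) / q + β) * n)‖ ^ 2 ≤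
      Fintype.card (DirichletCharacter ℂ q) * ∑ χ : DirichletCharacter ℂ q,
        ‖∑ n ∈ Ioc j (j + H), (cb A B u n : ℂ) * ee (β * n) * χ n‖ ^ 2 := by
    intro j
    have h3 := hCHX q a (Ioc j (j + H)) (fun n => (cb A B u n : ℂ) * ee (β * n))
      (fun n _ hn => hco n (by
        intro h0
        refine hn ?_
        rw [h0, Complex.ofReal_zero, zero_mul]))
    have h4 : ∑ n ∈ Ioc j (j + H), (cb A B u n : ℂ) * ee (((a : ℝ) / q + β) * n) =
        ∑ n ∈ Ioc j (j + H), (cb A B u n : ℂ) * ee (β * n) * ee ((a : ℝ) / q * n) := by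
      refine Finset.sum_congr rfl fun n _ => ?_
      rw [add_mul, MAJM.ee_add]
      ring
    rw [h4]
    refine (pow_le_pow_left₀ (norm_nonneg _) h3 2).trans ?_
    exact sq_sum_le_card_mul_sum_sq
  have hK := MAJM.card_char q
  obtain ⟨K, hKd⟩ : ∃ K : ℝ, K = (Fintype.card (DirichletCharacter ℂ q) : ℝ) := ⟨_, rfl⟩
  rw [← hKd] at hK
  simp only [← hKd] at h2
  have hK0 : 0 ≤ K := by rw [hKd]; exact Nat.cast_nonneg _
  calc ∑ j ∈ range J, ‖∑ n ∈ Ioc j (j + H), (cb A B u n : ℂ) * ee (((a : ℝ) / q + β) * n)‖ ^ 2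
      ≤ ∑ j ∈ range J, K * ∑ χ : DirichletCharacter ℂ q,
        ‖∑ n ∈ Ioc j (j + H), (cb A B u n : ℂ) * ee (β * n) * χ n‖ ^ 2 :=
        Finset.sum_le_sum fun j _ => h2 j
    _ = K * ∑ χ : DirichletCharacter ℂ q, ∑ j ∈ range J,
        ‖∑ n ∈ Ioc j (j + H), (cb A B u n : ℂ) * ee (β * n) * χ n‖ ^ 2 := by
        rw [← Finset.mul_sum, Finset.sum_comm]
    _ ≤ K * ∑ _χ : DirichletCharacter ℂ q, 82 * (L ^ b) ^ 2 * G :=
        mul_le_mul_of_nonneg_left (Finset.sum_le_sum fun χ _ => h1 χ) hK0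
    _ = K ^ 2 * (82 * (L ^ b) ^ 2 * G) := by
        rw [Finset.sum_const, Finset.card_univ, nsmul_eq_mul, ← hKd]
        ring
    _ ≤ (L ^ b) ^ 2 * (82 * (L ^ b) ^ 2 * G) := by
        refine mul_le_mul_of_nonneg_right ?_ (by positivity)
        exact pow_le_pow_left₀ hK0 (hK.trans hqL) 2
    _ = (N * (H : ℝ) ^ 2 / L ^ D) * (82 / L ^ 2) := by
        have h5 : L ^ (D + 4 * b + 2) = L ^ D * (L ^ b) ^ 4 * L ^ 2 := by
          rw [Real.rpow_add hL0, Real.rpow_add hL0, mul_comm 4 b, Real.rpow_mul hL0.le]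
          norm_cast
        have h6 : 0 < L ^ D := Real.rpow_pos_of_pos hL0 _
        rw [hG, h5]
        field_simp
    _ ≤ (N * (H : ℝ) ^ 2 / L ^ D) * 1 := by
        refine mul_le_mul_of_nonneg_left ?_ (div_nonneg (by positivity) (Real.rpow_nonneg hL0.le _))
        rw [div_le_one (by positivity)]
        nlinarith
    _ = N * (H : ℝ) ^ 2 / L ^ D := mul_one _

end

end Pool.Agent.Lib.MP3efbeb.LG
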