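import Pool.Agent.Lib.MP_3efbeb_nt.LG.SpecB
import Pool.Agent.Lib.MP_3efbeb_nt.SV.Sieve
import Pool.Agent.Lib.MP_391708_nt.QPA.PNT
import Pool.Agent.Lib.MP_391708_nt.QPA.PNTAP

/-!
# LongPatterns, module MTM (helper61): the main term
-/

set_option autoImplicit false

namespace Pool.Agent.Lib.MP3efbeb.LG

open Finset Filter Topology
open Pool.Agent.Lib.MP391708.QPA (PB rInd Wp Rough)

namespace MTMM

theorem wp_ge {z : ℝ} (hz : 2 ≤ z) :
    0 < Wp z ∧ 1 ≤ (4 * (1 + Real.log z)) ^ 16 * Wp z := by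
  have hD : Pool.Agent.Lib.MP_3efbeb_nt.SV.SieveM.Dens 1 (fun p : ℕ => 1 / (p : ℝ)) := by
    intro p hp
    have h2 : (2 : ℝ) ≤ p := by exact_mod_cast hp.two_le
    refine ⟨by positivity, by simp, ?_⟩
    push_cast
    rw [div_le_div_iff₀ (by linarith) (by norm_num)]
    linarith
  have h := Pool.Agent.Lib.MP_3efbeb_nt.SV.SieveM.prod_ge 1 hz hD
  have h16 : 8 * 1 * (1 + 1) = 16 := by norm_num
  rw [h16] at h
  have h' : 1 ≤ (4 * (1 + Real.log z)) ^ 16 * Wp z := h
  refine ⟨?_, h'⟩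
  have hlog : 0 ≤ Real.log z := Real.log_nonneg (by linarith)
  have hpos : (0 : ℝ) < (4 * (1 + Real.log z)) ^ 16 := by positivity
  by_contra hcon
  have : (4 * (1 + Real.log z)) ^ 16 * Wp z ≤ 0 :=
    mul_nonpos_of_nonneg_of_nonpos hpos.le (not_lt.1 hcon)
  linarith

theorem primes_ge : ∃ N₀ : ℕ, ∀ N : ℕ, N₀ ≤ N →
    (N : ℝ) / (2 * Real.log N) ≤ (((Ioc N (2 * N)).filter Nat.Prime).card : ℝ) := by
  have hpnt := Pool.Agent.Lib.MP391708.QPA.specPNT Pool.Agent.Lib.MP391708.QPA.specPNTAP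
  obtain ⟨X₀, hX⟩ := hpnt (1 / 10) (by norm_num)
  refine ⟨max ⌈X₀⌉₊ 1100, fun N hN => ?_⟩
  have hN1 : X₀ ≤ N := (Nat.le_ceil _).trans (by exact_mod_cast (le_max_left _ _).trans hN)
  have hN2 : (1100 : ℝ) ≤ N := by exact_mod_cast (le_max_right _ _).trans hN
  have hL : 10 * Real.log 2 ≤ Real.log N := by
    have h1 : 10 * Real.log 2 = Real.log 1024 := by
      rw [show (1024 : ℝ) = 2 ^ 10 by norm_num, Real.log_pow]
      push_cast
      ring
    rw [h1]
    exact Real.log_le_log (by norm_num) (by linarith)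
  have hlog2 : 0 < Real.log 2 := Real.log_pos (by norm_num)
  have hL0 : 0 < Real.log N := by linarith
  have hN0 : (0 : ℝ) < N := by linarith
  have h1 := hX N hN1
  have h2 := hX ((2 * N : ℕ) : ℝ) (by push_cast; linarith)
  rw [Nat.floor_natCast] at h1 h2
  have hsplit : (Icc 1 (2 * N)).filter Nat.Prime =
      (Icc 1 N).filter Nat.Prime ∪ (Ioc N (2 * N)).filter Nat.Prime := by
    rw [← Finset.filter_union]
    congr 1
    ext n
    simp only [Finset.mem_Icc, Finset.mem_union, Finset.mem_Ioc]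
    have : 1 ≤ N := by exact_mod_cast (by linarith : (1 : ℝ) ≤ N)
    omega
  have hdisj : Disjoint ((Icc 1 N).filter Nat.Prime) ((Ioc N (2 * N)).filter Nat.Prime) := by
    rw [Finset.disjoint_left]
    intro n hn hn'
    have h3 := (Finset.mem_Icc.1 (Finset.mem_filter.1 hn).1).2
    have h4 := (Finset.mem_Ioc.1 (Finset.mem_filter.1 hn').1).1
    omega
  have hcard : (((Icc 1 (2 * N)).filter Nat.Prime).card : ℝ) =
      (((Icc 1 N).filter Nat.Prime).card : ℝ) + (((Ioc N (2 * N)).filter Nat.Prime).card : ℝ) := by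
    rw [hsplit, Finset.card_union_of_disjoint hdisj]
    push_cast
    rfl
  have h1' := (abs_le.1 h1).2
  have h2' := (abs_le.1 h2).1
  rw [hcard] at h2'
  have hl2 : Real.log ((2 * N : ℕ) : ℝ) = Real.log 2 + Real.log N := by
    push_cast
    rw [Real.log_mul (by norm_num) hN0.ne']
  rw [hl2] at h2'
  push_cast at h2'
  set L := Real.log N with hLdef
  -- `2N/(log 2 + L) ≥ (20/11) N/L`
  have h5 : 20 / 11 * (N / L) ≤ 2 * N / (Real.log 2 + L) := by
    rw [← sub_nonneg]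
    have e : 2 * (N : ℝ) / (Real.log 2 + L) - 20 / 11 * (N / L) =
        N * (2 * L - 20 * Real.log 2) / (11 * (Real.log 2 + L) * L) := by
      field_simp
      ring
    rw [e]
    apply div_nonneg
    · exact mul_nonneg hN0.le (by linarith)
    · positivity
  have h6 : (1 : ℝ) / 10 * (2 * N) / (Real.log 2 + L) = 1 / 10 * (2 * N / (Real.log 2 + L)) := by ring
  have h7 : (1 : ℝ) / 10 * N / L = 1 / 10 * (N / L) := by ring
  rw [h6] at h2'
  rw [h7] at h1'
  have h8 : (N : ℝ) / (2 * L) = 1 / 2 * (N / L) := by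
    field_simp
  rw [h8]
  have h9 : 0 ≤ (N : ℝ) / L := by positivity
  nlinarith

/-- integers in `(N, 2N]` which are pairwise congruent -/
theorem card_congr_le (S : Finset ℕ) (N Q : ℕ) (hQ : 1 ≤ Q) (hS : S ⊆ Ioc N (2 * N))
    (h : ∀ x ∈ S, ∀ y ∈ S, x ≡ y [MOD Q]) : (S.card : ℝ) ≤ N / Q + 1 := by
  rcases S.eq_empty_or_nonempty with rfl | ⟨v, hv⟩
  · simp
    positivity
  · have h1 : S ⊆ (Ioc N (2 * N)).filter (fun x => x ≡ v [MOD Q]) := fun x hx =>
      Finset.mem_filter.2 ⟨hS hx, h x hx v hv⟩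
    have h2 := Finset.card_le_card h1
    have h3 := Nat.Ioc_filter_modEq_card N (2 * N) (r := Q) (by omega) v
    have hQ0 : (0 : ℝ) < Q := by exact_mod_cast hQ
    have h4 : ((((Ioc N (2 * N)).filter (fun x => x ≡ v [MOD Q])).card : ℤ) : ℝ) ≤ N / Q + 1 := by
      rw [h3]
      rw [Int.cast_max, Int.cast_sub]
      apply max_le
      · have a1 := Int.floor_le ((((2 * N : ℕ) : ℚ) - v) / Q)
        have a2 := Int.lt_floor_add_one (((N : ℚ) - v) / Q)
        have a1' : ((⌊(((2 * N : ℕ) : ℚ) - v) / Q⌋ : ℤ) : ℝ) ≤ (((2 * N : ℕ) : ℝ) - v) / Q := by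
          exact_mod_cast a1
        have a2' : ((N : ℝ) - v) / Q < ((⌊((N : ℚ) - v) / Q⌋ : ℤ) : ℝ) + 1 := by
          exact_mod_cast a2
        have e : (((2 * N : ℕ) : ℝ) - v) / Q = ((N : ℝ) - v) / Q + N / Q := by
          push_cast
          field_simp
          ring
        linarith
      · simp
        positivity
    have h5 : (S.card : ℝ) ≤ ((((Ioc N (2 * N)).filter (fun x => x ≡ v [MOD Q])).card : ℤ) : ℝ) := by
      exact_mod_cast h2
    linarith

/-- the number of the factorisations into `k + 1` coprime factors -/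
theorem fiber_card (k Q : ℕ) (hQ : 1 ≤ Q) (S : Finset ((Fin k → ℕ) × ℕ))
    (hS : ∀ x ∈ S, (∀ i j, i ≠ j → (x.1 i).Coprime (x.1 j)) ∧ (∀ i, x.2.Coprime (x.1 i)) ∧
      x.2 * ∏ i, x.1 i = Q) : S.card ≤ (k + 1) ^ Q.primeFactors.card := by
  classical
  let f : (Fin k → ℕ) × ℕ → (↥Q.primeFactors → Option (Fin k)) := fun x p =>
    if h : ∃ i, (p : ℕ) ∣ x.1 i then some h.choose else none
  have hf : ∀ x ∈ S, ∀ (p : ↥Q.primeFactors) (i : Fin k), f x p = some i ↔ (p : ℕ) ∣ x.1 i := by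
    intro x hx p i
    have hp : (p : ℕ).Prime := Nat.prime_of_mem_primeFactors p.2
    constructor
    · intro h
      by_cases h1 : ∃ i, (p : ℕ) ∣ x.1 i
      · simp only [f, dif_pos h1, Option.some.injEq] at h
        rw [← h]
        exact h1.choose_spec
      · simp only [f, dif_neg h1] at h
        exact absurd h (by simp)
    · intro h
      have h1 : ∃ i, (p : ℕ) ∣ x.1 i := ⟨i, h⟩
      simp only [f, dif_pos h1, Option.some.injEq]
      by_contra hne
      have h2 := (hS x hx).1 _ _ hne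
      exact hp.one_lt.ne' (Nat.eq_one_of_dvd_coprimes h2 h1.choose_spec h)
  have key : ∀ x ∈ S, ∀ x' ∈ S, f x = f x' → ∀ i, x.1 i ∣ x'.1 i := by
    intro x hx x' hx' hff i
    obtain ⟨hc, hd, hprod⟩ := hS x hx
    obtain ⟨hc', hd', hprod'⟩ := hS x' hx'
    have h1 : x.1 i ∣ x'.1 i * (x'.2 * ∏ j ∈ univ.erase i, x'.1 j) := by
      have e : x'.1 i * (x'.2 * ∏ j ∈ univ.erase i, x'.1 j) = Q := by
        rw [← hprod', ← Finset.mul_prod_erase univ x'.1 (Finset.mem_univ i)]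
        ring
      rw [e, ← hprod]
      exact (Finset.dvd_prod_of_mem x.1 (Finset.mem_univ i)).mul_left _
    refine Nat.Coprime.dvd_of_dvd_mul_right ?_ h1
    have hco' : (x'.1 i).Coprime (x'.2 * ∏ j ∈ univ.erase i, x'.1 j) := by
      refine Nat.Coprime.mul_right (hd' i).symm ?_
      refine Nat.Coprime.prod_right fun j hj => hc' i j ?_
      exact (Finset.ne_of_mem_erase hj).symm
    rw [Nat.coprime_iff_gcd_eq_one]
    by_contra hg
    obtain ⟨p, hp, hpg⟩ := Nat.exists_prime_and_dvd hg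
    have hp1 : p ∣ x.1 i := hpg.trans (Nat.gcd_dvd_left _ _)
    have hp2 : p ∣ x'.2 * ∏ j ∈ univ.erase i, x'.1 j := hpg.trans (Nat.gcd_dvd_right _ _)
    have hpQ : p ∣ Q := by
      rw [← hprod]
      exact (hp1.trans (Finset.dvd_prod_of_mem x.1 (Finset.mem_univ i))).mul_left _
    have hmem : p ∈ Q.primeFactors := Nat.mem_primeFactors.2 ⟨hp, hpQ, by omega⟩
    have h3 := (hf x hx ⟨p, hmem⟩ i).2 hp1
    rw [hff] at h3
    have h4 := (hf x' hx' ⟨p, hmem⟩ i).1 h3
    exact hp.one_lt.ne' (Nat.eq_one_of_dvd_coprimes hco' h4 hp2)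
  have hinj : Set.InjOn f (S : Set ((Fin k → ℕ) × ℕ)) := by
    intro x hx x' hx' hff
    have h1 : x.1 = x'.1 := by
      funext i
      exact Nat.dvd_antisymm (key x hx x' hx' hff i) (key x' hx' x hx hff.symm i)
    have hp1 := (hS x hx).2.2
    have hp2 := (hS x' hx').2.2
    rw [← h1] at hp2
    have h2 : x.2 = x'.2 := by
      have h0 : 0 < ∏ i, x.1 i := by
        rcases Nat.eq_zero_or_pos (∏ i, x.1 i) with h | h
        · rw [h, mul_zero] at hp1
          omega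
        · exact h
      exact Nat.eq_of_mul_eq_mul_right h0 (hp1.trans hp2.symm)
    exact Prod.ext h1 h2
  have hcard := Finset.card_le_card_of_injOn f (t := univ) (fun _ _ => Finset.mem_univ _) hinj
  rw [Finset.card_univ, Fintype.card_fun, Fintype.card_option, Fintype.card_fin,
    Fintype.card_coe] at hcard
  exact hcard

/-- the remainders of the sieve, collected by the modulus -/
theorem remainder (k : ℕ) (hk : 1 ≤ k) (G : Finset (Fin k → ℕ)) (D : (Fin k → ℕ) → Finset ℕ)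
    (Em : ℕ → ℝ) (Z : ℕ) (hEm : ∀ Q, 1 ≤ Q → 0 ≤ Em Q)
    (hG : ∀ m ∈ G, (∀ i j, i ≠ j → (m i).Coprime (m j)) ∧ (∀ i, 1 ≤ m i))
    (hD : ∀ m ∈ G, ∀ δ ∈ D m, 1 ≤ δ ∧ δ.Coprime (∏ i, m i) ∧ δ * ∏ i, m i ≤ Z) :
    ∑ m ∈ G, ∑ δ ∈ D m, (k : ℝ) ^ δ.primeFactors.card * Em (δ * ∏ i, m i) ≤
      ∑ Q ∈ Icc 1 Z, ((k * (k + 1) : ℕ) : ℝ) ^ Q.primeFactors.card * Em Q := by
  classical
  set T : Finset ((Fin k → ℕ) × ℕ) := (G ×ˢ (G.biUnion D)).filter (fun p => p.2 ∈ D p.1) with hT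
  have hTm : ∀ p, p ∈ T ↔ p.1 ∈ G ∧ p.2 ∈ D p.1 := by
    intro p
    rw [hT, Finset.mem_filter, Finset.mem_product, Finset.mem_biUnion]
    constructor
    · rintro ⟨⟨h1, -⟩, h2⟩
      exact ⟨h1, h2⟩
    · rintro ⟨h1, h2⟩
      exact ⟨⟨h1, ⟨p.1, h1, h2⟩⟩, h2⟩
  have h1 : ∑ m ∈ G, ∑ δ ∈ D m, (k : ℝ) ^ δ.primeFactors.card * Em (δ * ∏ i, m i) =
      ∑ p ∈ T, (k : ℝ) ^ p.2.primeFactors.card * Em (p.2 * ∏ i, p.1 i) :=
    (Finset.sum_finset_product T G D hTm
      (f := fun p => (k : ℝ) ^ p.2.primeFactors.card * Em (p.2 * ∏ i, p.1 i))).symm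
  have hpos : ∀ p ∈ T, 1 ≤ p.2 * ∏ i, p.1 i := by
    intro p hp
    have h2 := (hTm p).1 hp
    have h3 := (hD p.1 h2.1 p.2 h2.2).1
    have h4 : 0 < ∏ i, p.1 i := Finset.prod_pos fun i _ => (hG p.1 h2.1).2 i
    exact Nat.mul_pos h3 h4
  have hmap : ∀ p ∈ T, p.2 * ∏ i, p.1 i ∈ Icc 1 Z := by
    intro p hp
    have h2 := (hTm p).1 hp
    exact Finset.mem_Icc.2 ⟨hpos p hp, (hD p.1 h2.1 p.2 h2.2).2.2⟩
  rw [h1, ← Finset.sum_fiberwise_of_maps_to hmap]
  refine Finset.sum_le_sum fun Q hQ => ?_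
  have hQ1 := (Finset.mem_Icc.1 hQ).1
  have hE := hEm Q hQ1
  have hk1 : (1 : ℝ) ≤ k := by exact_mod_cast hk
  have h2 : ∀ p ∈ T.filter (fun p => p.2 * ∏ i, p.1 i = Q),
      (k : ℝ) ^ p.2.primeFactors.card * Em (p.2 * ∏ i, p.1 i) ≤
        (k : ℝ) ^ Q.primeFactors.card * Em Q := by
    intro p hp
    have h3 := (Finset.mem_filter.1 hp).2
    rw [h3]
    refine mul_le_mul_of_nonneg_right ?_ hE
    refine pow_le_pow_right₀ hk1 (Finset.card_le_card ?_)
    exact Nat.primeFactors_mono (Dvd.intro _ h3) (by omega)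
  refine (Finset.sum_le_card_nsmul _ _ _ h2).trans ?_
  have h4 : (T.filter (fun p => p.2 * ∏ i, p.1 i = Q)).card ≤ (k + 1) ^ Q.primeFactors.card := by
    refine fiber_card k Q hQ1 _ fun x hx => ?_
    have h5 := Finset.mem_filter.1 hx
    have h6 := (hTm x).1 h5.1
    refine ⟨(hG x.1 h6.1).1, fun i => ?_, h5.2⟩
    exact Nat.Coprime.coprime_dvd_right (Finset.dvd_prod_of_mem x.1 (Finset.mem_univ i))
      (hD x.1 h6.1 x.2 h6.2).2.1
  rw [nsmul_eq_mul]
  have h7 : ((T.filter (fun p => p.2 * ∏ i, p.1 i = Q)).card : ℝ) ≤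
      ((k : ℝ) + 1) ^ Q.primeFactors.card := by
    exact_mod_cast h4
  calc _ ≤ ((k : ℝ) + 1) ^ Q.primeFactors.card * ((k : ℝ) ^ Q.primeFactors.card * Em Q) :=
        mul_le_mul_of_nonneg_right h7 (mul_nonneg (by positivity) hE)
    _ = _ := by
      push_cast
      rw [mul_pow]
      ring

/-- a prime which divides two members of the pattern divides `dl h` -/
theorem dvd_dl {k : ℕ} (h : Fin k → ℕ) (n l : ℕ) (i j : Fin k) (hij : i ≠ j)
    (hi : l ∣ n + h i) (hj : l ∣ n + h j) : l ∣ dl h := by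
  have key : ∀ i j : Fin k, i < j → l ∣ n + h i → l ∣ n + h j → l ∣ dl h := by
    intro i j hlt hi hj
    have h1 : l ∣ ((h i : ℤ) - h j).natAbs := by
      rw [← Int.natCast_dvd_natCast, Int.dvd_natAbs]
      have h2 : ((l : ℤ)) ∣ ((n + h i : ℕ) : ℤ) - ((n + h j : ℕ) : ℤ) :=
        dvd_sub (Int.natCast_dvd_natCast.2 hi) (Int.natCast_dvd_natCast.2 hj)
      have e : ((n + h i : ℕ) : ℤ) - ((n + h j : ℕ) : ℤ) = (h i : ℤ) - h j := by
        push_cast
        ring
      rwa [e] at h2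
    refine h1.trans ?_
    have h3 : ((h i : ℤ) - h j).natAbs ∣
        ∏ j ∈ univ.filter (fun j => i < j), ((h i : ℤ) - h j).natAbs :=
      Finset.dvd_prod_of_mem (fun j => ((h i : ℤ) - h j).natAbs)
        (Finset.mem_filter.2 ⟨Finset.mem_univ j, hlt⟩)
    have h4 : (∏ j ∈ univ.filter (fun j => i < j), ((h i : ℤ) - h j).natAbs) ∣
        ∏ i, ∏ j ∈ univ.filter (fun j => i < j), ((h i : ℤ) - h j).natAbs :=
      Finset.dvd_prod_of_mem
        (fun i => ∏ j ∈ univ.filter (fun j => i < j), ((h i : ℤ) - h j).natAbs)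
        (Finset.mem_univ i)
    exact (h3.trans h4).mul_left _
  rcases lt_or_gt_of_ne hij with hlt | hlt
  · exact key i j hlt hi hj
  · exact key j i hlt hj hi

open scoped Classical in
/-- the integers with a further factor -/
theorem cset_le (k N : ℕ) (y : ℝ) (h m : Fin k → ℕ) (hy : 0 < y) (hm1 : ∀ i, 1 ≤ m i)
    (hco : ∀ i j, i ≠ j → (m i).Coprime (m j)) (i : Fin k) (l : ℕ) (hl : l.Prime) (hlm : l ∣ m i)
    (hly : y < l) :
    (((Ioc N (2 * N)).filter (fun n => l * m i ∣ n + h i ∧ ∀ j, m j ∣ n + h j)).card : ℝ) ≤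
      N / y * ∏ i, 1 / (m i : ℝ) + 1 := by
  have hP : 0 < ∏ j, m j := Finset.prod_pos fun j _ => hm1 j
  have h1 := card_congr_le ((Ioc N (2 * N)).filter
    (fun n => l * m i ∣ n + h i ∧ ∀ j, m j ∣ n + h j)) N (l * ∏ j, m j)
    (Nat.mul_pos hl.pos hP) (Finset.filter_subset _ _) (by
      intro x hx x' hx'
      have hx1 := (Finset.mem_filter.1 hx).2
      have hx2 := (Finset.mem_filter.1 hx').2
      have e : l * ∏ j, m j = ∏ j, (if j = i then l else 1) * m j := by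
        rw [Finset.prod_mul_distrib]
        simp
      rw [Nat.modEq_iff_dvd, e, Nat.cast_prod]
      refine Finset.prod_dvd_of_coprime ?_ ?_
      · intro a _ b _ hab
        rw [Function.onFun, Nat.isCoprime_iff_coprime]
        have hli : ∀ b, b ≠ i → l.Coprime (m b) := fun b hb =>
          Nat.Coprime.coprime_dvd_left hlm (hco i b hb.symm)
        by_cases ha : a = i
        · subst ha
          rw [if_pos rfl, if_neg (Ne.symm hab), one_mul]
          exact Nat.Coprime.mul_left (hli b (Ne.symm hab)) (hco a b hab)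
        · rw [if_neg ha, one_mul]
          by_cases hb : b = i
          · subst hb
            rw [if_pos rfl]
            exact Nat.Coprime.mul_right (hli a ha).symm (hco a b hab)
          · rw [if_neg hb, one_mul]
            exact hco a b hab
      · intro a _
        have e2 : (x' : ℤ) - x = ((x' + h a : ℕ) : ℤ) - ((x + h a : ℕ) : ℤ) := by
          push_cast
          ring
        rw [e2]
        by_cases ha : a = i
        · subst ha
          rw [if_pos rfl]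
          exact dvd_sub (Int.natCast_dvd_natCast.2 hx2.1) (Int.natCast_dvd_natCast.2 hx1.1)
        · rw [if_neg ha, one_mul]
          exact dvd_sub (Int.natCast_dvd_natCast.2 (hx2.2 a)) (Int.natCast_dvd_natCast.2 (hx1.2 a)))
  refine h1.trans ?_
  have hP' : (0 : ℝ) < ∏ j, (m j : ℝ) := by exact_mod_cast hP
  have e3 : ((l * ∏ j, m j : ℕ) : ℝ) = l * ∏ j, (m j : ℝ) := by push_cast; rfl
  have e4 : ∏ i, 1 / (m i : ℝ) = 1 / ∏ j, (m j : ℝ) := by
    rw [Finset.prod_div_distrib, Finset.prod_const_one]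
  rw [e3, e4]
  have hN : (0 : ℝ) ≤ N := Nat.cast_nonneg N
  have h5 : (N : ℝ) / (l * ∏ j, (m j : ℝ)) ≤ N / y * (1 / ∏ j, (m j : ℝ)) := by
    rw [div_mul_div_comm, mul_one]
    exact div_le_div_of_nonneg_left hN (by positivity)
      (mul_le_mul_of_nonneg_right hly.le hP'.le)
  linarith

open scoped Classical in
theorem bset_le (k N : ℕ) (z y : ℝ) (h m r : Fin k → ℕ) (hy : 0 < y) (hm1 : ∀ i, 1 ≤ m i)
    (hco : ∀ i j, i ≠ j → (m i).Coprime (m j)) (hcd : ∀ i, (m i).Coprime (dl h))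
    (hpf : ∀ i, ∀ p : ℕ, p.Prime → p ∣ m i → y < p)
    (hlen : ∀ i, (m i).primeFactorsList.length ≤ r i) :
    (((Ioc N (2 * N)).filter (fun n : ℕ => n.Prime ∧ ∀ i, m i ∣ n + h i ∧
      ∀ l : ℕ, l.Prime → (l : ℝ) < z → ¬ l ∣ (∏ i, m i) → ¬ l ∣ n + h i)).card : ℝ) ≤
    (((Ioc N (2 * N)).filter (fun n : ℕ => n.Prime ∧ ∀ i, m i ∣ n + h i ∧
      Rough z ((n + h i) / m i))).card : ℝ) +
      (∑ i, (r i : ℝ)) * (N / y * ∏ i, 1 / (m i : ℝ) + 1) := by
  set A := (Ioc N (2 * N)).filter (fun n : ℕ => n.Prime ∧ ∀ i, m i ∣ n + h i ∧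
      Rough z ((n + h i) / m i)) with hA
  set C : Fin k → ℕ → Finset ℕ := fun i l =>
    (Ioc N (2 * N)).filter (fun n => l * m i ∣ n + h i ∧ ∀ j, m j ∣ n + h j) with hC
  have hsub : (Ioc N (2 * N)).filter (fun n : ℕ => n.Prime ∧ ∀ i, m i ∣ n + h i ∧
      ∀ l : ℕ, l.Prime → (l : ℝ) < z → ¬ l ∣ (∏ i, m i) → ¬ l ∣ n + h i) ⊆
      A ∪ univ.biUnion (fun i => (m i).primeFactors.biUnion (fun l => C i l)) := by
    intro n hn
    obtain ⟨hn1, hnp, hn2⟩ := Finset.mem_filter.1 hn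
    by_cases hR : ∀ i, Rough z ((n + h i) / m i)
    · refine Finset.mem_union_left _ (Finset.mem_filter.2 ⟨hn1, hnp, fun i => ⟨(hn2 i).1, hR i⟩⟩)
    · push Not at hR
      obtain ⟨i, hi⟩ := hR
      rw [Rough] at hi
      push Not at hi
      obtain ⟨l, hl, hldvd, hlz⟩ := hi
      have hl1 : m i * l ∣ n + h i := Nat.mul_dvd_of_dvd_div (hn2 i).1 hldvd
      have hl2 : l ∣ n + h i := (dvd_mul_left l (m i)).trans hl1
      have hl3 : l ∣ ∏ i, m i := by
        by_contra hcon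
        exact (hn2 i).2 l hl hlz hcon hl2
      obtain ⟨j, -, hj⟩ := (Nat.prime_iff.1 hl).exists_mem_finset_dvd hl3
      have hji : j = i := by
        by_contra hne
        have h1 := dvd_dl h n l j i hne (hj.trans (hn2 j).1) hl2
        exact hl.one_lt.ne' (Nat.eq_one_of_dvd_coprimes (hcd j) hj h1)
      subst hji
      refine Finset.mem_union_right _ (Finset.mem_biUnion.2 ⟨j, Finset.mem_univ _,
        Finset.mem_biUnion.2 ⟨l, Nat.mem_primeFactors.2 ⟨hl, hj, by have := hm1 j; omega⟩, ?_⟩⟩)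
      refine Finset.mem_filter.2 ⟨hn1, ?_, fun j => (hn2 j).1⟩
      rw [mul_comm]
      exact hl1
  set E : ℝ := N / y * ∏ i, 1 / (m i : ℝ) + 1 with hE
  have hE0 : 0 ≤ E := by positivity
  have h1 : ((univ.biUnion (fun i => (m i).primeFactors.biUnion (fun l => C i l))).card : ℝ) ≤
      (∑ i, (r i : ℝ)) * E := by
    calc ((univ.biUnion (fun i => (m i).primeFactors.biUnion (fun l => C i l))).card : ℝ)
        ≤ ((∑ i, ((m i).primeFactors.biUnion (fun l => C i l)).card : ℕ) : ℝ) := by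
          exact_mod_cast Finset.card_biUnion_le
      _ ≤ ∑ i, (r i : ℝ) * E := by
          push_cast
          refine Finset.sum_le_sum fun i _ => ?_
          calc ((((m i).primeFactors.biUnion (fun l => C i l)).card : ℕ) : ℝ)
              ≤ ((∑ l ∈ (m i).primeFactors, (C i l).card : ℕ) : ℝ) := by
                exact_mod_cast Finset.card_biUnion_le
            _ ≤ ∑ l ∈ (m i).primeFactors, E := by
                push_cast
                refine Finset.sum_le_sum fun l hl => ?_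
                have hl1 := Nat.prime_of_mem_primeFactors hl
                have hl2 := Nat.dvd_of_mem_primeFactors hl
                exact cset_le k N y h m hy hm1 hco i l hl1 hl2 (hpf i l hl1 hl2)
            _ = ((m i).primeFactors.card : ℝ) * E := by
                rw [Finset.sum_const, nsmul_eq_mul]
            _ ≤ (r i : ℝ) * E := by
                refine mul_le_mul_of_nonneg_right ?_ hE0
                have h2 : (m i).primeFactors.card ≤ (m i).primeFactorsList.length :=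
                  List.toFinset_card_le _
                exact_mod_cast h2.trans (hlen i)
      _ = (∑ i, (r i : ℝ)) * E := by rw [Finset.sum_mul]
  calc _ ≤ (((A ∪ univ.biUnion (fun i => (m i).primeFactors.biUnion (fun l => C i l))).card : ℕ) : ℝ) := by
        exact_mod_cast Finset.card_le_card hsub
    _ ≤ (A.card : ℝ) +
        ((univ.biUnion (fun i => (m i).primeFactors.biUnion (fun l => C i l))).card : ℝ) := by
        exact_mod_cast Finset.card_union_le _ _
    _ ≤ _ := by linarith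

open scoped Classical in
/-- the sum over the pattern by the tuples of cofactors -/
theorem lower (k N : ℕ) (e c : ℝ) (h r : Fin k → ℕ) (G : Finset (Fin k → ℕ))
    (hG : G ⊆ Fintype.piFinset (fun i => mm N c e (r i))) (hN3 : 3 ≤ N)
    (hgr : ∀ i, ∀ n : ℕ, gr N c e (r i) n =
      ∑ m ∈ mm N c e (r i), if m ∣ n then w0 N c (n / m) else 0)
    (hm2 : ∀ i, ∀ m ∈ mm N c e (r i), 1 ≤ m ∧ (m : ℝ) ≤ N / 2)
    (hh : ∀ i, 1 ≤ h i ∧ h i ≤ N) (hW : 0 < Wp (zz N c)) (hL : 0 < Real.log N) :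
    (1 / (2 * Real.log N * Wp (zz N c))) ^ k * ∑ m ∈ G,
      (((Ioc N (2 * N)).filter (fun n : ℕ => n.Prime ∧ ∀ i, m i ∣ n + h i ∧
        Rough (zz N c) ((n + h i) / m i))).card : ℝ) ≤
    ∑ n ∈ Ioc N (2 * N), pI n * ∏ i, gr N c e (r i) (n + h i) := by
  set g : Fin k → ℕ → ℕ → ℝ := fun i n m =>
    if m ∣ n + h i then w0 N c ((n + h i) / m) else 0 with hg
  have hw0 : ∀ q : ℕ, 0 ≤ w0 N c q := by
    intro q
    rw [w0, rInd]
    apply div_nonneg
    · split_ifs <;> norm_num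
    · exact mul_nonneg hW.le (Real.log_natCast_nonneg q)
  have hg0 : ∀ i n m, 0 ≤ g i n m := by
    intro i n m
    simp only [hg]
    split_ifs
    · exact hw0 _
    · exact le_rfl
  have hpI : ∀ n, 0 ≤ pI n := by
    intro n
    rw [pI]
    split_ifs <;> norm_num
  have h1 : ∀ n, ∑ m ∈ G, pI n * ∏ i, g i n (m i) ≤ pI n * ∏ i, gr N c e (r i) (n + h i) := by
    intro n
    rw [← Finset.mul_sum]
    refine mul_le_mul_of_nonneg_left ?_ (hpI n)
    have e1 : ∏ i, gr N c e (r i) (n + h i) =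
        ∑ m ∈ Fintype.piFinset (fun i => mm N c e (r i)), ∏ i, g i n (m i) := by
      rw [← Finset.prod_univ_sum]
      refine Finset.prod_congr rfl fun i _ => ?_
      rw [hgr i]
    rw [e1]
    exact Finset.sum_le_sum_of_subset_of_nonneg hG fun m _ _ =>
      Finset.prod_nonneg fun i _ => hg0 i n (m i)
  refine le_trans ?_ (Finset.sum_le_sum fun n _ => h1 n)
  rw [Finset.sum_comm, Finset.mul_sum]
  refine Finset.sum_le_sum fun m hm => ?_
  set A := (Ioc N (2 * N)).filter (fun n : ℕ => n.Prime ∧ ∀ i, m i ∣ n + h i ∧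
        Rough (zz N c) ((n + h i) / m i)) with hA
  have hmm := Fintype.mem_piFinset.1 (hG hm)
  have hAsub : A ⊆ Ioc N (2 * N) := Finset.filter_subset _ _
  refine le_trans ?_ (Finset.sum_le_sum_of_subset_of_nonneg hAsub fun n _ _ =>
    mul_nonneg (hpI n) (Finset.prod_nonneg fun i _ => hg0 i n (m i)))
  rw [mul_comm, ← nsmul_eq_mul]
  refine Finset.card_nsmul_le_sum _ _ _ fun n hn => ?_
  obtain ⟨hn1, hnp, hn2⟩ := Finset.mem_filter.1 hn
  have hn1' := Finset.mem_Ioc.1 hn1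
  rw [pI, if_pos hnp, one_mul]
  have e2 : (1 / (2 * Real.log N * Wp (zz N c))) ^ k =
      ∏ _i : Fin k, (1 / (2 * Real.log N * Wp (zz N c))) := by
    rw [Finset.prod_const, Finset.card_univ, Fintype.card_fin]
  rw [e2]
  refine Finset.prod_le_prod (fun i _ => by positivity) fun i _ => ?_
  simp only [hg]
  rw [if_pos (hn2 i).1, w0, rInd, if_pos (hn2 i).2]
  have hq := Nat.div_mul_cancel (hn2 i).1
  set q := (n + h i) / m i with hqd
  have hmi := hm2 i (m i) (hmm i)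
  have hN3' : (3 : ℝ) ≤ N := by exact_mod_cast hN3
  have hq2 : 2 ≤ q := by
    by_contra hcon
    have h3 : q ≤ 1 := by omega
    have h4 : n + h i ≤ m i := by
      rw [← hq]
      calc q * m i ≤ 1 * m i := Nat.mul_le_mul_right _ h3
        _ = m i := one_mul _
    have h5 : ((n + h i : ℕ) : ℝ) ≤ N / 2 := (by exact_mod_cast h4 : ((n + h i : ℕ) : ℝ) ≤ m i).trans hmi.2
    have h6 : ((N : ℕ) : ℝ) ≤ ((n + h i : ℕ) : ℝ) := by exact_mod_cast (by omega : N ≤ n + h i)
    linarith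
  have hq3 : (q : ℝ) ≤ (N : ℝ) ^ 2 := by
    have h3 : q ≤ n + h i := Nat.div_le_self _ _
    have h4 := (hh i).2
    have h5 : q ≤ 3 * N := by omega
    have h6 : (q : ℝ) ≤ 3 * N := by exact_mod_cast h5
    nlinarith
  have hq2' : (2 : ℝ) ≤ q := by exact_mod_cast hq2
  have hlq : 0 < Real.log q := Real.log_pos (by linarith)
  have hlq2 : Real.log q ≤ 2 * Real.log N := by
    have h3 := Real.log_le_log (by linarith) hq3
    rw [Real.log_pow] at h3
    exact_mod_cast h3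
  apply one_div_le_one_div_of_le
  · positivity
  · rw [mul_comm]
    exact mul_le_mul_of_nonneg_right hlq2 hW.le

/-- the size of `dl h` -/
theorem dl_le {k : ℕ} (h : Fin k → ℕ) (N : ℕ) (hN : 1 ≤ N) (hh : ∀ i, 1 ≤ h i ∧ h i ≤ N) :
    dl h ≤ N ^ (k + k * k) := by
  rw [dl, pow_add]
  refine Nat.mul_le_mul ?_ ?_
  · calc ∏ i, h i ≤ ∏ _i : Fin k, N := Finset.prod_le_prod' fun i _ => (hh i).2
      _ = N ^ k := by rw [Finset.prod_const, Finset.card_univ, Fintype.card_fin]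
  · calc ∏ i, ∏ j ∈ univ.filter (fun j => i < j), ((h i : ℤ) - h j).natAbs
        ≤ ∏ _i : Fin k, N ^ k := by
          refine Finset.prod_le_prod' fun i _ => ?_
          calc ∏ j ∈ univ.filter (fun j => i < j), ((h i : ℤ) - h j).natAbs
              ≤ ∏ _j ∈ univ.filter (fun j : Fin k => i < j), N := by
                refine Finset.prod_le_prod' fun j _ => ?_
                have h1 := hh i
                have h2 := hh j
                omega
            _ = N ^ (univ.filter (fun j : Fin k => i < j)).card := Finset.prod_const _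
            _ ≤ N ^ k := by
                refine Nat.pow_le_pow_right hN ?_
                refine (Finset.card_filter_le _ _).trans ?_
                rw [Finset.card_univ, Fintype.card_fin]
      _ = N ^ (k * k) := by
          rw [Finset.prod_const, Finset.card_univ, Fintype.card_fin, ← pow_mul]

/-- the conditions on `N` -/
theorem large (k b : ℕ) (c ε Cc : ℝ) (hε : 0 < ε) (hc : 0 ≤ c) : ∃ N₀ : ℕ, ∀ N : ℕ, N₀ ≤ N →
    16 ≤ N ∧ 1 ≤ Real.log N ∧ Cc ≤ Real.log N ∧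
    4 * (1 + Real.log (zz N c)) ≤ Real.log N ∧
    (4 * (1 + Real.log (zz N c))) ^ 16 ≤ 2 * Real.log N ∧
    zz N c ≤ N ∧ (zz N c) ^ b ≤ (N : ℝ) ^ (ε / 2) ∧
    (N : ℝ) ^ ((1 : ℝ) / 4) * Real.log N ^ (k + 2) ≤ N := by
  have hlog : Tendsto (fun N : ℕ => Real.log N) atTop atTop :=
    Real.tendsto_log_atTop.comp tendsto_natCast_atTop_atTop
  have hsm : ∀ᶠ L : ℝ in atTop, 4 * (1 + 5 * c * Real.log L) ≤ L ^ ((1 : ℝ) / 16) := by
    have h1 : ∀ᶠ L : ℝ in atTop, ‖Real.log L‖ ≤ 1 / (40 * (|c| + 1)) * ‖L ^ ((1 : ℝ) / 16)‖ :=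
      (isLittleO_log_rpow_atTop (by norm_num : (0 : ℝ) < 1 / 16)).bound (by positivity)
    have h2 : ∀ᶠ L : ℝ in atTop, (8 : ℝ) ≤ L ^ ((1 : ℝ) / 16) :=
      (tendsto_rpow_atTop (by norm_num : (0 : ℝ) < 1 / 16)).eventually_ge_atTop 8
    filter_upwards [h1, h2, eventually_ge_atTop 1] with L h1 h2 h3
    have h4 : 0 ≤ Real.log L := Real.log_nonneg h3
    rw [Real.norm_of_nonneg h4, Real.norm_of_nonneg (by positivity)] at h1
    have h5 : 20 * c * Real.log L ≤ 20 * (|c| + 1) * Real.log L := by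
      refine mul_le_mul_of_nonneg_right ?_ h4
      have := le_abs_self c
      linarith
    have h6 : 20 * (|c| + 1) * Real.log L ≤ 1 / 2 * L ^ ((1 : ℝ) / 16) := by
      calc 20 * (|c| + 1) * Real.log L
          ≤ 20 * (|c| + 1) * (1 / (40 * (|c| + 1)) * L ^ ((1 : ℝ) / 16)) :=
            mul_le_mul_of_nonneg_left h1 (by positivity)
        _ = 1 / 2 * L ^ ((1 : ℝ) / 16) := by
            field_simp
            ring
    linarith
  have hpow : ∀ p q : ℝ, 0 < q → ∀ᶠ N : ℕ in atTop, Real.log N ^ p ≤ (N : ℝ) ^ q := by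
    intro p q hq
    have h1 := ((isLittleO_log_rpow_rpow_atTop p hq).bound (zero_lt_one)).filter_mono
      (le_refl _)
    have h2 := tendsto_natCast_atTop_atTop.eventually h1
    filter_upwards [h2, hlog.eventually_ge_atTop 0] with N h2 h3
    rw [Real.norm_of_nonneg (Real.rpow_nonneg h3 _), Real.norm_of_nonneg (by positivity),
      one_mul] at h2
    exact h2
  have hE := ((((hlog.eventually hsm).and (hlog.eventually_ge_atTop (max 1 Cc))).and
    ((hpow (5 * c) 1 zero_lt_one).and (hpow (5 * c * b) (ε / 2) (by linarith)))).and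
    (hpow (k + 2 : ℕ) (3 / 4) (by norm_num))).and (eventually_ge_atTop 16)
  obtain ⟨N₀, hN₀⟩ := Filter.eventually_atTop.1 hE
  refine ⟨N₀, fun N hN => ?_⟩
  obtain ⟨⟨⟨⟨h1, h2⟩, h3, h4⟩, h5⟩, h6⟩ := hN₀ N hN
  have hL1 : 1 ≤ Real.log N := (le_max_left _ _).trans h2
  have hL0 : 0 < Real.log N := by linarith
  have hlz : Real.log (zz N c) = 5 * c * Real.log (Real.log N) := by
    rw [zz, Real.log_rpow hL0]
  have hN16 : (16 : ℝ) ≤ N := by exact_mod_cast h6
  have hsmall : Real.log N ^ ((1 : ℝ) / 16) ≤ Real.log N := by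
    calc Real.log N ^ ((1 : ℝ) / 16) ≤ Real.log N ^ (1 : ℝ) :=
          Real.rpow_le_rpow_of_exponent_le hL1 (by norm_num)
      _ = Real.log N := Real.rpow_one _
  refine ⟨h6, hL1, (le_max_right _ _).trans h2, ?_, ?_, ?_, ?_, ?_⟩
  · rw [hlz]
    exact h1.trans hsmall
  · rw [hlz]
    have h0 : 0 ≤ Real.log (Real.log N) := Real.log_nonneg hL1
    have h7 : 0 ≤ 4 * (1 + 5 * c * Real.log (Real.log N)) := by positivity
    calc (4 * (1 + 5 * c * Real.log (Real.log N))) ^ 16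
        ≤ (Real.log N ^ ((1 : ℝ) / 16)) ^ 16 := pow_le_pow_left₀ h7 h1 16
      _ = Real.log N := by
          rw [← Real.rpow_natCast, ← Real.rpow_mul hL0.le]
          norm_num
      _ ≤ 2 * Real.log N := by linarith
  · rw [zz]
    rw [Real.rpow_one] at h3
    exact h3
  · rw [zz, ← Real.rpow_natCast, ← Real.rpow_mul hL0.le]
    exact h4
  · rw [Real.rpow_natCast] at h5
    calc (N : ℝ) ^ ((1 : ℝ) / 4) * Real.log N ^ (k + 2)
        ≤ (N : ℝ) ^ ((1 : ℝ) / 4) * (N : ℝ) ^ ((3 : ℝ) / 4) :=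
          mul_le_mul_of_nonneg_left h5 (by positivity)
      _ = N := by
          rw [← Real.rpow_add (by linarith)]
          norm_num

end MTMM

open MTMM in
theorem specMTM (hCOF : SpecCOF) (hCPT : SpecCPT) (hSLB : SpecSLB) (hSSL : SpecSSL)
    (hBVC : SpecBVC) : SpecMTM := by
  classical
  intro k r hk hr
  choose c1 C1 hc1 hC1 hcof using fun i => hCOF (r i) (hr i)
  obtain ⟨ε, hε, hbvc⟩ := hBVC
  obtain ⟨cS, hcS, hssl⟩ := hSSL k hk
  obtain ⟨b, hslb⟩ := hSLB k hk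
  have : Nonempty (Fin k) := ⟨⟨0, hk⟩⟩
  -- common constants
  obtain ⟨i₀, hi₀⟩ := Finite.exists_min c1
  obtain ⟨i₁, hi₁⟩ := Finite.exists_max C1
  set cm := c1 i₀ with hcm
  set CM := C1 i₁ with hCM
  have hcm0 : 0 < cm := hc1 i₀
  have hCM1 : 1 ≤ CM := hC1 i₁
  set R : ℝ := ∑ i, (r i : ℝ) with hR
  have hRi : ∀ i, (r i : ℝ) ≤ R := fun i =>
    Finset.single_le_sum (f := fun i => (r i : ℝ)) (fun j _ => Nat.cast_nonneg _)
      (Finset.mem_univ i)
  have hR3 : 3 ≤ R := by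
    have h1 : (3 : ℝ) ≤ r i₀ := by exact_mod_cast hr i₀
    exact h1.trans (hRi i₀)
  have hR0 : 0 < R := by linarith
  set e₀ : ℝ := min (1 / 20) (min (1 / (4 * R)) (ε / (2 * R))) with he₀
  have he₀1 : e₀ ≤ 1 / 20 := min_le_left _ _
  have he₀2 : e₀ * R ≤ 1 / 4 := by
    have h1 : e₀ ≤ 1 / (4 * R) := (min_le_right _ _).trans (min_le_left _ _)
    calc e₀ * R ≤ 1 / (4 * R) * R := mul_le_mul_of_nonneg_right h1 hR0.le
      _ = 1 / 4 := by field_simp
  have he₀3 : e₀ * R ≤ ε / 2 := by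
    have h1 : e₀ ≤ ε / (2 * R) := (min_le_right _ _).trans (min_le_right _ _)
    calc e₀ * R ≤ ε / (2 * R) * R := mul_le_mul_of_nonneg_right h1 hR0.le
      _ = ε / 2 := by field_simp
  have he₀0 : 0 < e₀ := by
    rw [he₀]
    exact lt_min (by norm_num) (lt_min (by positivity) (by positivity))
  set κ : ℝ := cS * cm ^ k / (8 * 2 ^ k) with hκ
  have hκ0 : 0 < κ := by positivity
  refine ⟨e₀, κ / 2, he₀0, he₀1, fun i => ?_, by positivity, ?_⟩
  · exact (mul_le_mul_of_nonneg_left (hRi i) he₀0.le).trans he₀2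
  intro e c he hee hkc
  have hc5 : 5 ≤ c := by
    have h1 : (1 : ℝ) ≤ k := by exact_mod_cast hk
    linarith
  have heR : e * R ≤ 1 / 4 := (mul_le_mul_of_nonneg_right hee hR0.le).trans he₀2
  have heR2 : e * R ≤ ε / 2 := (mul_le_mul_of_nonneg_right hee hR0.le).trans he₀3
  have hei : ∀ i, e * r i ≤ 1 / 4 := fun i =>
    (mul_le_mul_of_nonneg_left (hRi i) he.le).trans heR
  choose N1 hN1 using fun i => hcof i e c he (hee.trans he₀1) (hei i) (by linarith)
  obtain ⟨N2, hN2⟩ := hbvc (k * (k + 1)) (k + 3)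
  obtain ⟨N3, hN3⟩ := primes_ge
  -- the constant which `log N` has to exceed
  set CC : ℝ := max (2 * (1 + R * CM ^ k + R) / κ)
    (max 2 (2 * ((k : ℝ) ^ 2 * CM ^ k * (2 + 2 * (k + k * k))) / cm ^ k)) with hCC
  obtain ⟨N4, hN4⟩ := large k b c ε CC hε (by linarith)
  refine ⟨max (max N2 N3) (max N4 (∑ i, ⌈N1 i⌉₊)), fun N h hN hh hdl hadm => ?_⟩
  have hNN2 : N2 ≤ N := (le_max_left _ _).trans ((le_max_left _ _).trans hN)
  have hNN3 : N3 ≤ N := (le_max_right _ _).trans ((le_max_left _ _).trans hN)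
  have hNN4 : N4 ≤ N := (le_max_left _ _).trans ((le_max_right _ _).trans hN)
  have hNN1 : ∀ i, N1 i ≤ N := by
    intro i
    have h1 : ⌈N1 i⌉₊ ≤ ∑ i, ⌈N1 i⌉₊ :=
      Finset.single_le_sum (f := fun i => ⌈N1 i⌉₊) (fun j _ => Nat.zero_le _) (Finset.mem_univ i)
    have h2 : ⌈N1 i⌉₊ ≤ N := h1.trans ((le_max_right _ _).trans ((le_max_right _ _).trans hN))
    exact (Nat.le_ceil _).trans (by exact_mod_cast h2)
  obtain ⟨hN16, hL1, hLC, hlz, hlz16, hzN, hzb, hNL⟩ := hN4 N hNN4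
  have hcf := fun i => hN1 i N (hNN1 i)
  obtain ⟨Em, hEm, hEmsum⟩ := hN2 N hNN2
  have hπ := hN3 N hNN3
  have hN16' : (16 : ℝ) ≤ N := by exact_mod_cast hN16
  have hN0 : (0 : ℝ) < N := by linarith
  set L := Real.log N with hLdef
  have hL0 : 0 < L := by linarith
  have hLc1 : 2 * (1 + R * CM ^ k + R) / κ ≤ L := (le_max_left _ _).trans hLC
  have hL2 : 2 ≤ L := (le_max_left _ _).trans ((le_max_right _ _).trans hLC)
  have hLc3 : 2 * ((k : ℝ) ^ 2 * CM ^ k * (2 + 2 * (k + k * k))) / cm ^ k ≤ L :=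
    (le_max_right _ _).trans ((le_max_right _ _).trans hLC)
  set z := zz N c with hz
  set y := L ^ c with hy
  have hy0 : 0 < y := Real.rpow_pos_of_pos hL0 c
  have hyk : L ^ (k + 2) ≤ y := by
    rw [hy, ← Real.rpow_natCast]
    refine Real.rpow_le_rpow_of_exponent_le hL1 ?_
    push_cast
    linarith
  have hyk1 : L ^ 2 ≤ y := (pow_le_pow_right₀ hL1 (by omega)).trans hyk
  have hy1 : 1 ≤ y := (one_le_pow₀ hL1).trans hyk
  have hz2 : 2 ≤ z := by
    rw [hz, zz, ← hLdef]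
    calc (2 : ℝ) ≤ L := hL2
      _ = L ^ (1 : ℝ) := (Real.rpow_one _).symm
      _ ≤ L ^ (5 * c) := Real.rpow_le_rpow_of_exponent_le hL1 (by linarith)
  obtain ⟨hW0, hW16⟩ := wp_ge hz2
  set W := Wp z with hW
  -- the sets of cofactors
  set M : Fin k → Finset ℕ := fun i => mm N c e (r i) with hM
  have hMb : ∀ i, ∀ m ∈ M i, 1 ≤ m ∧ (m : ℝ) ≤ (N : ℝ) ^ (e * r i) ∧
      m.primeFactorsList.length = r i - 1 ∧ ∀ p : ℕ, p.Prime → p ∣ m → y < p := fun i => (hcf i).1
  have hN14 : (N : ℝ) ^ ((1 : ℝ) / 4) ≤ N / 2 := by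
    have h2 : (2 : ℝ) ≤ L ^ (k + 2) := by
      calc (2 : ℝ) ≤ L := hL2
        _ = L ^ 1 := (pow_one _).symm
        _ ≤ L ^ (k + 2) := pow_le_pow_right₀ hL1 (by omega)
    have h3 : 0 ≤ (N : ℝ) ^ ((1 : ℝ) / 4) := Real.rpow_nonneg hN0.le _
    have h4 := mul_le_mul_of_nonneg_left h2 h3
    linarith only [h4, hNL]
  have hMN : ∀ i, ∀ m ∈ M i, 1 ≤ m ∧ (m : ℝ) ≤ N / 2 := by
    intro i m hm
    refine ⟨(hMb i m hm).1, (hMb i m hm).2.1.trans (le_trans ?_ hN14)⟩
    exact Real.rpow_le_rpow_of_exponent_le (by linarith) (hei i)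
  -- the good tuples
  set G : Finset (Fin k → ℕ) := (Fintype.piFinset M).filter
    (fun m => (∀ i j, i ≠ j → (m i).Coprime (m j)) ∧ ∀ i, (m i).Coprime (dl h)) with hG
  have hGsub : G ⊆ Fintype.piFinset M := Finset.filter_subset _ _
  have hGm : ∀ m ∈ G, (∀ i, m i ∈ M i) ∧ (∀ i j, i ≠ j → (m i).Coprime (m j)) ∧
      ∀ i, (m i).Coprime (dl h) := by
    intro m hm
    have h1 := Finset.mem_filter.1 hm
    exact ⟨Fintype.mem_piFinset.1 h1.1, h1.2⟩
  -- sum over the good tuples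
  set a : ℝ := ∑ m ∈ G, ∏ i, 1 / (m i : ℝ) with ha
  have hdl1 : 1 ≤ dl h := Nat.one_le_iff_ne_zero.2 hdl
  have ha_low : cm ^ k / 2 ≤ a := by
    have h1 := hCPT k M cm CM y (dl h) hcm0 hCM1 hy1 hdl1
      (fun i m hm => ⟨(hMb i m hm).1, (hMb i m hm).2.2.2⟩)
      (fun i => (hi₀ i).trans (hcf i).2.1) (fun i => (hcf i).2.2.1.trans (hi₁ i))
      (fun i l hl => ((hcf i).2.2.2.1 l hl).trans (by
        have := hi₁ i
        gcongr))
    have hlogd : Real.logb 2 (dl h) ≤ 2 * (k + k * k) * L := by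
      have h2 : ((dl h : ℕ) : ℝ) ≤ (N : ℝ) ^ (k + k * k) := by
        exact_mod_cast dl_le h N (by omega) hh
      have h3 : Real.log (dl h) ≤ (k + k * k : ℕ) * L := by
        have h4 := Real.log_le_log (by exact_mod_cast hdl1) h2
        rwa [Real.log_pow] at h4
      have hl2 : (1 : ℝ) / 2 ≤ Real.log 2 := by
        have := Real.log_two_gt_d9
        linarith
      have hl20 : 0 < Real.log 2 := by linarith
      rw [Real.logb, div_le_iff₀ hl20]
      have h5 : 0 ≤ ((k : ℝ) + k * k) * L := by positivity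
      push_cast at h3
      have h6 := mul_le_mul_of_nonneg_left hl2 h5
      linarith only [h3, h6]
    have h2 : (k : ℝ) ^ 2 * CM ^ k * (2 + Real.logb 2 (dl h)) / y ≤ cm ^ k / 2 := by
      rw [div_le_iff₀ hy0]
      have h3 : 2 + Real.logb 2 (dl h) ≤ (2 + 2 * (k + k * k)) * L := by
        linarith only [hlogd, hL1]
      have h4 : (k : ℝ) ^ 2 * CM ^ k * (2 + Real.logb 2 (dl h)) ≤
          (k : ℝ) ^ 2 * CM ^ k * ((2 + 2 * (k + k * k)) * L) :=
        mul_le_mul_of_nonneg_left h3 (by positivity)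
      have h5 : 2 * ((k : ℝ) ^ 2 * CM ^ k * (2 + 2 * (k + k * k))) ≤ L * cm ^ k := by
        rwa [div_le_iff₀ (by positivity)] at hLc3
      have h6 : cm ^ k / 2 * L ^ 2 ≤ cm ^ k / 2 * y := mul_le_mul_of_nonneg_left hyk1 (by positivity)
      have h7 := mul_le_mul_of_nonneg_right h5 hL0.le
      linarith only [h4, h6, h7]
    have h3 : a = ∑ m ∈ (Fintype.piFinset M).filter
        (fun m => (∀ i j, i ≠ j → (m i).Coprime (m j)) ∧ ∀ i, (m i).Coprime (dl h)),
        ∏ i, 1 / (m i : ℝ) := rfl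
    rw [← h3] at h1
    linarith only [h1, h2]
  have ha0 : 0 ≤ a := Finset.sum_nonneg fun m _ => Finset.prod_nonneg fun i _ => by positivity
  have ha_up : a ≤ CM ^ k := by
    calc a ≤ ∑ m ∈ Fintype.piFinset M, ∏ i, 1 / (m i : ℝ) :=
          Finset.sum_le_sum_of_subset_of_nonneg hGsub fun m _ _ =>
            Finset.prod_nonneg fun i _ => by positivity
      _ = ∏ i, ∑ m ∈ M i, 1 / (m : ℝ) := (Finset.prod_univ_sum M fun _ m => 1 / (m : ℝ)).symm
      _ ≤ ∏ _i : Fin k, CM := Finset.prod_le_prod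
          (fun i _ => Finset.sum_nonneg fun m _ => by positivity)
          (fun i _ => (hcf i).2.2.1.trans (hi₁ i))
      _ = CM ^ k := by rw [Finset.prod_const, Finset.card_univ, Fintype.card_fin]
  have hprodN : ∏ i, (N : ℝ) ^ (e * r i) = (N : ℝ) ^ (e * R) := by
    rw [← Real.rpow_sum_of_pos hN0, hR, Finset.mul_sum]
  have hGcard : (G.card : ℝ) ≤ (N : ℝ) ^ ((1 : ℝ) / 4) := by
    have h1 : (G.card : ℝ) ≤ ((Fintype.piFinset M).card : ℝ) := by
      exact_mod_cast Finset.card_le_card hGsub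
    refine h1.trans ?_
    rw [Fintype.card_piFinset]
    push_cast
    calc ∏ i, ((M i).card : ℝ) ≤ ∏ i, (N : ℝ) ^ (e * r i) := by
          refine Finset.prod_le_prod (fun i _ => Nat.cast_nonneg _) fun i _ => ?_
          have h2 : M i ⊆ Icc 1 ⌊(N : ℝ) ^ (e * r i)⌋₊ := by
            intro m hm
            exact Finset.mem_Icc.2 ⟨(hMb i m hm).1, Nat.le_floor (hMb i m hm).2.1⟩
          have h3 := Finset.card_le_card h2
          rw [Nat.card_Icc, Nat.add_sub_cancel] at h3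
          exact (by exact_mod_cast h3 : ((M i).card : ℝ) ≤ ⌊(N : ℝ) ^ (e * r i)⌋₊).trans
            (Nat.floor_le (by positivity))
      _ = (N : ℝ) ^ (e * R) := hprodN
      _ ≤ (N : ℝ) ^ ((1 : ℝ) / 4) := Real.rpow_le_rpow_of_exponent_le (by linarith) heR
  -- the sieve
  set D : (Fin k → ℕ) → Finset ℕ := fun m =>
    (Icc 1 ⌊z ^ b⌋₊).filter (fun δ => Squarefree δ ∧ δ.Coprime (∏ i, m i)) with hD
  have hEm0 : ∀ Q, 1 ≤ Q → 0 ≤ Em Q := fun Q hQ =>
    (abs_nonneg _).trans (hEm N Q 1 (Or.inl rfl) hQ (Nat.coprime_one_left Q))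
  have hrem : ∑ m ∈ G, ∑ δ ∈ D m, (k : ℝ) ^ δ.primeFactors.card * Em (δ * ∏ i, m i) ≤
      N / L ^ (k + 3) := by
    refine (remainder k hk G D Em ⌊(N : ℝ) ^ ε⌋₊ hEm0
      (fun m hm => ⟨(hGm m hm).2.1, fun i => (hMb i _ ((hGm m hm).1 i)).1⟩) ?_).trans ?_
    · intro m hm δ hδ
      have h1 := Finset.mem_filter.1 hδ
      have h2 := Finset.mem_Icc.1 h1.1
      refine ⟨h2.1, h1.2.2, Nat.le_floor ?_⟩
      push_cast
      have h3 : (δ : ℝ) ≤ z ^ b := (by exact_mod_cast h2.2 : (δ : ℝ) ≤ ⌊z ^ b⌋₊).trans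
        (Nat.floor_le (by positivity))
      have h4 : ∏ i, (m i : ℝ) ≤ (N : ℝ) ^ (e * R) := by
        rw [← hprodN]
        exact Finset.prod_le_prod (fun i _ => Nat.cast_nonneg _)
          fun i _ => (hMb i _ ((hGm m hm).1 i)).2.1
      calc (δ : ℝ) * ∏ i, (m i : ℝ) ≤ (N : ℝ) ^ (ε / 2) * (N : ℝ) ^ (ε / 2) := by
            refine mul_le_mul (h3.trans hzb) (h4.trans ?_) (by positivity) (by positivity)
            exact Real.rpow_le_rpow_of_exponent_le (by linarith) heR2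
        _ = (N : ℝ) ^ ε := by
            rw [← Real.rpow_add hN0]
            congr 1
            ring
    · exact hEmsum
  -- one tuple
  set A : (Fin k → ℕ) → ℝ := fun m =>
    (((Ioc N (2 * N)).filter (fun n : ℕ => n.Prime ∧ ∀ i, m i ∣ n + h i ∧
      Rough z ((n + h i) / m i))).card : ℝ) with hA
  set PG := ∏ l ∈ PB z, (1 - gd h l) with hPG
  have hPGlow : cS * W ^ k ≤ PG := hssl h z hz2 hadm
  have hPG0 : 0 ≤ PG := le_trans (by positivity) hPGlow
  have hone : ∀ m ∈ G, N / (4 * L) * (cS * W ^ k) * (∏ i, 1 / (m i : ℝ)) -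
      4 * (1 + Real.log z) * ∑ δ ∈ D m, (k : ℝ) ^ δ.primeFactors.card * Em (δ * ∏ i, m i) -
      R * (N / y * ∏ i, 1 / (m i : ℝ) + 1) ≤ A m := by
    intro m hm
    obtain ⟨hm1, hm2, hm3⟩ := hGm m hm
    have hmpos : ∀ i, 1 ≤ m i := fun i => (hMb i _ (hm1 i)).1
    have h1 := hslb N z h m Em hz2 hzN (fun i => (hh i).1) hadm hmpos hm2 hm3 hEm
    have h2 := bset_le k N z y h m r hy0 hmpos hm2 hm3 (fun i => (hMb i _ (hm1 i)).2.2.2)
      (fun i => by rw [(hMb i _ (hm1 i)).2.2.1]; omega)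
    have hP : 0 < ∏ i, m i := Finset.prod_pos fun i _ => hmpos i
    have hP' : (0 : ℝ) < ∏ i, (m i : ℝ) := by exact_mod_cast hP
    have hφ : (0 : ℝ) < (∏ i, m i).totient := by exact_mod_cast Nat.totient_pos.2 hP
    have hφ2 : ((∏ i, m i).totient : ℝ) ≤ ∏ i, (m i : ℝ) := by
      exact_mod_cast Nat.totient_le _
    have e4 : ∏ i, 1 / (m i : ℝ) = 1 / ∏ j, (m j : ℝ) := by
      rw [Finset.prod_div_distrib, Finset.prod_const_one]
    have h3 : N / (2 * L) * (∏ i, 1 / (m i : ℝ)) ≤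
        (((Ioc N (2 * N)).filter Nat.Prime).card : ℝ) / (∏ i, m i).totient := by
      rw [e4, mul_one_div]
      exact div_le_div₀ (Nat.cast_nonneg _) hπ hφ hφ2
    have h4 : N / (4 * L) * (cS * W ^ k) * (∏ i, 1 / (m i : ℝ)) ≤
        1 / 2 * ((((Ioc N (2 * N)).filter Nat.Prime).card : ℝ) / (∏ i, m i).totient) * PG := by
      calc N / (4 * L) * (cS * W ^ k) * (∏ i, 1 / (m i : ℝ))
          = 1 / 2 * (N / (2 * L) * (∏ i, 1 / (m i : ℝ))) * (cS * W ^ k) := by
            field_simp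
            ring
        _ ≤ _ := by
            refine mul_le_mul (mul_le_mul_of_nonneg_left h3 (by norm_num)) hPGlow
              (by positivity) (by positivity)
    have h5 : A m = (((Ioc N (2 * N)).filter (fun n : ℕ => n.Prime ∧ ∀ i, m i ∣ n + h i ∧
      Rough z ((n + h i) / m i))).card : ℝ) := rfl
    have h6 := h1.trans (le_trans (le_of_eq (by congr)) h2)
    linarith only [h4, h5, h6]
  -- all tuples
  set S := ∑ m ∈ G, A m with hS
  have hSlow : N / (4 * L) * (cS * W ^ k) * a - 4 * (1 + Real.log z) * (N / L ^ (k + 3)) -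
      R * (N / y * a + G.card) ≤ S := by
    have hlz0 : 0 ≤ 4 * (1 + Real.log z) := by
      have := Real.log_nonneg (by linarith : (1 : ℝ) ≤ z)
      linarith
    have h1 := Finset.sum_le_sum hone
    have h2 : ∑ m ∈ G, (N / (4 * L) * (cS * W ^ k) * (∏ i, 1 / (m i : ℝ)) -
      4 * (1 + Real.log z) * ∑ δ ∈ D m, (k : ℝ) ^ δ.primeFactors.card * Em (δ * ∏ i, m i) -
      R * (N / y * ∏ i, 1 / (m i : ℝ) + 1)) =
      N / (4 * L) * (cS * W ^ k) * a -
      4 * (1 + Real.log z) *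
        (∑ m ∈ G, ∑ δ ∈ D m, (k : ℝ) ^ δ.primeFactors.card * Em (δ * ∏ i, m i)) -
      R * (N / y * a + G.card) := by
      rw [Finset.sum_sub_distrib, Finset.sum_sub_distrib, ← Finset.mul_sum, ← Finset.mul_sum,
        ← Finset.mul_sum, Finset.sum_add_distrib, ← Finset.mul_sum, Finset.sum_const,
        nsmul_eq_mul, mul_one]
    rw [h2] at h1
    have h3 := mul_le_mul_of_nonneg_left hrem hlz0
    linarith only [h1, h3]
  have hfin := lower k N e c h r G hGsub (by omega) (fun i => (hcf i).2.2.2.2) hMN hh hW0 hL0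
  set q : ℝ := 1 / (2 * L * W) with hq
  have hq0 : 0 ≤ q := by positivity
  have hq1 : q ≤ 1 := by
    rw [hq, div_le_one (by positivity)]
    have h1 := mul_le_mul_of_nonneg_right hlz16 hW0.le
    linarith only [h1, hW16]
  have hqk : q ^ k ≤ 1 := pow_le_one₀ hq0 hq1
  have hqk0 : 0 ≤ q ^ k := pow_nonneg hq0 k
  set E : ℝ := 4 * (1 + Real.log z) * (N / L ^ (k + 3)) + R * (N / y * a + G.card) with hE
  have hlz0 : 0 ≤ 4 * (1 + Real.log z) := by
    have := Real.log_nonneg (by linarith : (1 : ℝ) ≤ z)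
    linarith
  have hE0 : 0 ≤ E := by positivity
  have hEup : E ≤ κ / 2 * (N / L ^ (k + 1)) := by
    have hLk : 0 < L ^ (k + 2) := pow_pos hL0 _
    have h1 : 4 * (1 + Real.log z) * (N / L ^ (k + 3)) ≤ N / L ^ (k + 2) := by
      calc 4 * (1 + Real.log z) * (N / L ^ (k + 3)) ≤ L * (N / L ^ (k + 3)) :=
            mul_le_mul_of_nonneg_right hlz (by positivity)
        _ = N / L ^ (k + 2) := by
            rw [pow_succ L (k + 2)]
            field_simp
    have h2 : N / y * a ≤ CM ^ k * (N / L ^ (k + 2)) := by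
      rw [mul_comm]
      refine mul_le_mul ha_up ?_ (by positivity) (by positivity)
      exact div_le_div_of_nonneg_left hN0.le hLk hyk
    have h3 : (G.card : ℝ) ≤ N / L ^ (k + 2) := by
      rw [le_div_iff₀ hLk]
      exact (mul_le_mul_of_nonneg_right hGcard hLk.le).trans hNL
    have h4 : E ≤ (1 + R * CM ^ k + R) * (N / L ^ (k + 2)) := by
      have h5 := mul_le_mul_of_nonneg_left (add_le_add h2 h3) hR0.le
      rw [hE]
      linarith only [h1, h5]
    refine h4.trans ?_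
    have h6 : 2 * (1 + R * CM ^ k + R) ≤ L * κ := by
      rwa [div_le_iff₀ hκ0] at hLc1
    have h7 : N / L ^ (k + 1) = L * (N / L ^ (k + 2)) := by
      rw [pow_succ L (k + 1)]
      field_simp
    rw [h7]
    have h8 : 0 ≤ N / L ^ (k + 2) := by positivity
    have h9 := mul_le_mul_of_nonneg_right h6 h8
    linarith only [h9]
  have hmain : κ * (N / L ^ (k + 1)) ≤ q ^ k * (N / (4 * L) * (cS * W ^ k) * a) := by
    have h1 : q ^ k * (N / (4 * L) * (cS * W ^ k) * a) = cS * a * (N / (4 * 2 ^ k * L ^ (k + 1))) := by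
      rw [hq, one_div, inv_pow, mul_pow, mul_pow]
      field_simp
      ring
    rw [h1]
    have h2 : κ * (N / L ^ (k + 1)) = cS * (cm ^ k / 2) * (N / (4 * 2 ^ k * L ^ (k + 1))) := by
      rw [hκ]
      field_simp
      ring
    rw [h2]
    exact mul_le_mul_of_nonneg_right (mul_le_mul_of_nonneg_left ha_low hcS.le) (by positivity)
  have hlast : q ^ k * (N / (4 * L) * (cS * W ^ k) * a - E) ≤ q ^ k * S := by
    refine mul_le_mul_of_nonneg_left ?_ hqk0
    rw [hE]
    linarith only [hSlow]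
  have hqE : q ^ k * E ≤ E := mul_le_of_le_one_left hE0 hqk
  calc κ / 2 * N / L ^ (k + 1) = κ * (N / L ^ (k + 1)) - κ / 2 * (N / L ^ (k + 1)) := by ring
    _ ≤ q ^ k * (N / (4 * L) * (cS * W ^ k) * a) - q ^ k * E := by
        linarith only [hmain, hqE, hEup]
    _ = q ^ k * (N / (4 * L) * (cS * W ^ k) * a - E) := by ring
    _ ≤ q ^ k * S := hlast
    _ ≤ _ := hfin

end Pool.Agent.Lib.MP3efbeb.LG
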