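import Pool.Agent.Lib.MP_3efbeb_nt.LG.SpecB

/-!
# LongPatterns, module SIT: the short interval theorem for blocks
-/

set_option autoImplicit false

namespace Pool.Agent.Lib.MP3efbeb.LG

open Finset MeasureTheory Filter

noncomputable section

namespace SITM

/-- powers of the logarithm are small -/
lemma ev_log (a r C : ℝ) (hr : 0 < r) : ∀ᶠ N : ℝ in atTop, C * Real.log N ^ a ≤ N ^ r := by
  have h := (isLittleO_log_rpow_rpow_atTop a hr).bound
    (show (0 : ℝ) < 1 / (|C| + 1) by positivity)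
  filter_upwards [h, eventually_ge_atTop (1 : ℝ)] with N hN h1
  have hL : 0 ≤ Real.log N := Real.log_nonneg h1
  rw [Real.norm_of_nonneg (Real.rpow_nonneg hL a),
    Real.norm_of_nonneg (Real.rpow_nonneg (by linarith) r)] at hN
  have h0 : 0 ≤ Real.log N ^ a := Real.rpow_nonneg hL a
  calc C * Real.log N ^ a ≤ (|C| + 1) * Real.log N ^ a := by
        apply mul_le_mul_of_nonneg_right _ h0
        linarith [le_abs_self C]
    _ ≤ (|C| + 1) * (1 / (|C| + 1) * N ^ r) := by gcongr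
    _ = N ^ r := by field_simp

lemma ev_L (M : ℝ) : ∀ᶠ N : ℝ in atTop, M ≤ Real.log N :=
  Real.tendsto_log_atTop.eventually_ge_atTop M

/-- the trivial bound for short windows -/
lemma small_y (f : ℕ → ℂ) (N C₁ : ℝ) (y J : ℕ) (hN : 0 ≤ N) (hf : ∀ n, ‖f n‖ ≤ C₁)
    (hs : ∀ n, f n ≠ 0 → (n : ℝ) ≤ 16 * N) :
    ∑ j ∈ range J, ‖∑ n ∈ Ioc j (j + y), f n‖ ^ 2 ≤ (16 * N + 1) * (C₁ * y) ^ 2 := by
  have h1 : ∀ j : ℕ, ‖∑ n ∈ Ioc j (j + y), f n‖ ≤ C₁ * y := by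
    intro j
    calc ‖∑ n ∈ Ioc j (j + y), f n‖ ≤ ∑ n ∈ Ioc j (j + y), ‖f n‖ := norm_sum_le _ _
      _ ≤ ∑ n ∈ Ioc j (j + y), C₁ := Finset.sum_le_sum fun n _ => hf n
      _ = C₁ * y := by simp [mul_comm]
  have h2 : ∀ j ∈ range J, j ∉ range J ∩ range (⌊16 * N⌋₊ + 1) →
      ‖∑ n ∈ Ioc j (j + y), f n‖ ^ 2 = 0 := by
    intro j hj hj'
    have h0 : ∑ n ∈ Ioc j (j + y), f n = 0 := by
      apply Finset.sum_eq_zero
      intro n hn
      by_contra hne
      have h3 : n ≤ ⌊16 * N⌋₊ := Nat.le_floor (hs n hne)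
      simp only [Finset.mem_range, Finset.mem_Ioc, Finset.mem_inter, not_and] at hj hj' hn
      exact hj' hj (by omega)
    simp [h0]
  calc ∑ j ∈ range J, ‖∑ n ∈ Ioc j (j + y), f n‖ ^ 2
      = ∑ j ∈ range J ∩ range (⌊16 * N⌋₊ + 1), ‖∑ n ∈ Ioc j (j + y), f n‖ ^ 2 :=
        (Finset.sum_subset Finset.inter_subset_left h2).symm
    _ ≤ ∑ j ∈ range (⌊16 * N⌋₊ + 1), ‖∑ n ∈ Ioc j (j + y), f n‖ ^ 2 :=
        Finset.sum_le_sum_of_subset_of_nonneg Finset.inter_subset_right fun _ _ _ => by positivity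
    _ ≤ ∑ j ∈ range (⌊16 * N⌋₊ + 1), (C₁ * y) ^ 2 :=
        Finset.sum_le_sum fun j _ => pow_le_pow_left₀ (norm_nonneg _) (h1 j) 2
    _ = ((⌊16 * N⌋₊ : ℝ) + 1) * (C₁ * y) ^ 2 := by simp
    _ ≤ (16 * N + 1) * (C₁ * y) ^ 2 := by
        have : (⌊16 * N⌋₊ : ℝ) ≤ 16 * N := Nat.floor_le (by positivity)
        gcongr

lemma nit_eq (n : ℕ) (t : ℝ) (hn : n ≠ 0) : nit n t = (n : ℂ) ^ ((t : ℂ) * Complex.I) := by
  rw [Complex.cpow_def_of_ne_zero (by exact_mod_cast hn), ← Complex.natCast_log]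
  unfold nit
  congr 1
  push_cast
  ring

lemma DP_PR (q : ℕ) (χ : DirichletCharacter ℂ q) (B t : ℝ) :
    DP (PR B) (fun n => χ (n : ZMod q)) t =
      ∑ p ∈ (Ioc ⌊B⌋₊ ⌊2 * B⌋₊).filter Nat.Prime,
        χ (p : ZMod q) * (p : ℂ) ^ ((t : ℂ) * Complex.I) := by
  unfold DP PR IO
  apply Finset.sum_congr rfl
  intro p hp
  rw [nit_eq p t (Finset.mem_filter.mp hp).2.ne_zero]

lemma chi_one (q k : ℕ) [NeZero q] (z : ℝ) (hq : (q : ℝ) < z)
    (hk : ∀ p : ℕ, p.Prime → p ∣ k → z ≤ p) :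
    ((1 : DirichletCharacter ℂ q) (k : ZMod q)) = 1 := by
  apply MulChar.one_apply
  rw [ZMod.isUnit_iff_coprime]
  by_contra h
  obtain ⟨p, hp, h1, h2⟩ := Nat.Prime.not_coprime_iff_dvd.mp h
  have h4 := hk p hp h1
  have h3 : p ≤ q := Nat.le_of_dvd (Nat.pos_of_ne_zero (NeZero.ne q)) h2
  have h5 : (p : ℝ) ≤ q := by exact_mod_cast h3
  linarith

lemma DP_congr (S : Finset ℕ) (f g : ℕ → ℂ) (t : ℝ) (h : ∀ n ∈ S, f n = g n) :
    DP S f t = DP S g t := by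
  unfold DP
  exact Finset.sum_congr rfl fun n hn => by rw [h n hn]

lemma DP_smul (S : Finset ℕ) (f : ℕ → ℂ) (a : ℂ) (t : ℝ) :
    DP S (fun n => a * f n) t = a * DP S f t := by
  unfold DP
  rw [Finset.mul_sum]
  exact Finset.sum_congr rfl fun n _ => by ring

/-- the hypothesis of MID -/
lemma dich (D b e K X₀ : ℝ) (he : 0 < e) (he20 : e ≤ 1 / 20) (hD : 0 < D) (hb : 0 < b)
    (hPPB : ∀ (P Y : ℝ) (q : ℕ) [NeZero q]
      (χ : DirichletCharacter ℂ q) (t : ℝ), X₀ ≤ P → P ≤ Y → Y ≤ 2 * P →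
      (q : ℝ) ≤ Real.log P ^ (b + 1) →
      |t| ≤ P ^ (1 / e) → (χ ≠ 1 ∨ Real.log P ^ K ≤ |t|) →
      ‖∑ p ∈ (Ioc ⌊P⌋₊ ⌊Y⌋₊).filter Nat.Prime, χ (p : ZMod q) * (p : ℂ) ^ (t * Complex.I)‖ ≤
        P / Real.log P ^ (D + 4))
    (N c A B : ℝ) (u : ℕ → ℝ) (hc : b + 1 ≤ c) (hN : 1 < N) (hX : X₀ ≤ N ^ e)
    (hL1 : 1 ≤ e * Real.log N)
    (hL2 : 1 ≤ e ^ (b + 1) * Real.log N) (hL3 : 1 ≤ e ^ (D + 4) * Real.log N)
    (hblk : Blk N c e A B (D + 3 + max K 0) u)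
    (q : ℕ) [NeZero q] (χ : DirichletCharacter ℂ q) (hq : (q : ℝ) ≤ Real.log N ^ b) (t : ℝ)
    (ht : |t| ≤ N) :
    ‖DP (PR B) (fun n => χ (n : ZMod q)) t‖ ≤ B / Real.log N ^ (D + 3) ∨
      (|t| ≤ Real.log N ^ (max K 0) ∧
        ‖DP (SU N A B) (fun k => (u k : ℂ) * χ (k : ZMod q)) t‖ ≤
          N / (A * B) / Real.log N ^ (D + 3 + max K 0)) := by
  have hN0 : 0 < N := by linarith
  have hL0 : 0 < Real.log N := Real.log_pos hN
  have hL : 1 ≤ Real.log N := by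
    nlinarith
  have hBpos : 0 < N ^ e := Real.rpow_pos_of_pos hN0 e
  have hB0 : 0 < B := lt_of_lt_of_le hBpos hblk.hB
  have hlogB : e * Real.log N ≤ Real.log B := by
    rw [← Real.log_rpow hN0]
    exact Real.log_le_log hBpos hblk.hB
  have hlogB1 : 1 ≤ Real.log B := le_trans hL1 hlogB
  have hBN : Real.log B ≤ Real.log N := by
    apply Real.log_le_log hB0
    refine le_trans hblk.hB' ?_
    calc N ^ ((1 : ℝ) / 10) ≤ N ^ (1 : ℝ) :=
          Real.rpow_le_rpow_of_exponent_le hN.le (by norm_num)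
      _ = N := Real.rpow_one N
  have hpow1 : Real.log N ^ b ≤ Real.log B ^ (b + 1) := by
    calc Real.log N ^ b ≤ Real.log N ^ b * (e ^ (b + 1) * Real.log N) := by
          apply le_mul_of_one_le_right (Real.rpow_nonneg hL0.le b) hL2
      _ = e ^ (b + 1) * Real.log N ^ (b + 1) := by
          rw [Real.rpow_add_one hL0.ne']
          ring
      _ = (e * Real.log N) ^ (b + 1) := by rw [Real.mul_rpow he.le hL0.le]
      _ ≤ Real.log B ^ (b + 1) := by
          apply Real.rpow_le_rpow (by positivity) hlogB (by linarith)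
  have hpow2 : Real.log N ^ (D + 3) ≤ Real.log B ^ (D + 4) := by
    calc Real.log N ^ (D + 3) ≤ Real.log N ^ (D + 3) * (e ^ (D + 4) * Real.log N) := by
          apply le_mul_of_one_le_right (Real.rpow_nonneg hL0.le _) hL3
      _ = e ^ (D + 4) * Real.log N ^ (D + 3 + 1) := by
          rw [Real.rpow_add_one hL0.ne']
          ring
      _ = e ^ (D + 4) * Real.log N ^ (D + 4) := by
          congr 2
          ring
      _ = (e * Real.log N) ^ (D + 4) := by rw [Real.mul_rpow he.le hL0.le]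
      _ ≤ Real.log B ^ (D + 4) := by
          apply Real.rpow_le_rpow (by positivity) hlogB (by linarith)
  have htB : |t| ≤ B ^ (1 / e) := by
    refine le_trans ht ?_
    calc N = (N ^ e) ^ (1 / e) := by
          rw [← Real.rpow_mul hN0.le, mul_one_div_cancel he.ne', Real.rpow_one]
      _ ≤ B ^ (1 / e) := Real.rpow_le_rpow hBpos.le hblk.hB (by positivity)
  by_cases hcase : χ ≠ 1 ∨ Real.log B ^ K ≤ |t|
  · left
    have h := hPPB B (2 * B) q χ t (le_trans hX hblk.hB) (by linarith) le_rfl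
      (le_trans hq hpow1) htB hcase
    rw [DP_PR]
    refine le_trans h ?_
    apply div_le_div_of_nonneg_left hB0.le (Real.rpow_pos_of_pos hL0 _) hpow2
  · right
    push Not at hcase
    obtain ⟨hχ, htK⟩ := hcase
    have h1 : |t| ≤ Real.log N ^ (max K 0) := by
      calc |t| ≤ Real.log B ^ K := htK.le
        _ ≤ Real.log B ^ (max K 0) := Real.rpow_le_rpow_of_exponent_le hlogB1 (le_max_left _ _)
        _ ≤ Real.log N ^ (max K 0) :=
          Real.rpow_le_rpow (by linarith) hBN (le_max_right _ _)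
    refine ⟨h1, ?_⟩
    have h2 : DP (SU N A B) (fun k => (u k : ℂ) * χ (k : ZMod q)) t =
        DP (SU N A B) (fun k => (u k : ℂ)) t := by
      apply DP_congr
      intro k _
      by_cases hk : u k = 0
      · simp [hk]
      · rw [hχ, chi_one q k (zz N c) _ (hblk.rough k hk), mul_one]
        refine lt_of_le_of_lt hq ?_
        unfold zz
        by_cases hL1' : 1 < Real.log N
        · exact Real.rpow_lt_rpow_of_exponent_lt hL1' (by linarith)
        · exfalso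
          have h3 : Real.log N = 1 := le_antisymm (not_lt.mp hL1') hL
          rw [h3] at hL1
          linarith
    rw [h2]
    apply hblk.small
    refine le_trans h1 ?_
    exact Real.rpow_le_rpow_of_exponent_le hL (by linarith)

/-- the final estimate -/
lemma fin_est (CW CM C₁ D c N L H y η I : ℝ) (hCW : 0 < CW) (hCM : 0 < CM)
    (hN : 0 < N) (hL : 1 ≤ L) (hbig : CW * (16 * CM + C₁ ^ 2) ≤ L) (hη : η = L ^ (-(D + 2)))
    (hD : 0 < D) (hc : D + 1 ≤ 8 * c) (hy0 : 0 ≤ y) (hyH : y ≤ H) (hH : L ^ (4 * c) ≤ H)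
    (hI0 : 0 ≤ I) (hI : I ≤ 2 * CM * N ^ 2 * L ^ (-(2 * D + 5))) :
    C₁ ^ 2 * (CW * (y ^ 2 / (η * (N / 8)) * (1 / C₁ ^ 2 * I) + N / 8 * (η * y + 1) ^ 2)) ≤
      N * H ^ 2 / L ^ D := by
  have hL0 : 0 < L := by linarith
  have hη0 : 0 < η := by rw [hη]; exact Real.rpow_pos_of_pos hL0 _
  have hH0 : 0 < H := lt_of_lt_of_le (Real.rpow_pos_of_pos hL0 _) hH
  -- the first term
  have h1 : y ^ 2 / (η * (N / 8)) * I ≤ 16 * CM * N * H ^ 2 * L ^ (-(D + 1)) := by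
    have e1 : L ^ (-(2 * D + 5)) = η * L ^ (-(D + 3)) := by
      rw [hη, ← Real.rpow_add hL0]
      congr 1
      ring
    have e2 : L ^ (-(D + 3)) ≤ L ^ (-(D + 1)) :=
      Real.rpow_le_rpow_of_exponent_le hL (by linarith)
    calc y ^ 2 / (η * (N / 8)) * I
        ≤ H ^ 2 / (η * (N / 8)) * (2 * CM * N ^ 2 * L ^ (-(2 * D + 5))) := by gcongr
      _ = 16 * CM * N * H ^ 2 * L ^ (-(D + 3)) := by
          rw [e1]
          field_simp
          ring
      _ ≤ 16 * CM * N * H ^ 2 * L ^ (-(D + 1)) := by gcongr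
  -- the second term
  have h2 : (η * y + 1) ^ 2 ≤ 4 * H ^ 2 * L ^ (-(D + 1)) := by
    have e1 : (η * y) ^ 2 ≤ H ^ 2 * L ^ (-(D + 1)) := by
      have : η ^ 2 ≤ L ^ (-(D + 1)) := by
        rw [hη, ← Real.rpow_natCast, ← Real.rpow_mul hL0.le]
        apply Real.rpow_le_rpow_of_exponent_le hL
        push_cast
        linarith
      calc (η * y) ^ 2 = y ^ 2 * η ^ 2 := by ring
        _ ≤ H ^ 2 * L ^ (-(D + 1)) := by gcongr
    have e2 : 1 ≤ H ^ 2 * L ^ (-(D + 1)) := by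
      calc (1 : ℝ) = L ^ (8 * c) * L ^ (-(8 * c)) := by
            rw [← Real.rpow_add hL0]
            simp
        _ = (L ^ (4 * c)) ^ 2 * L ^ (-(8 * c)) := by
            congr 1
            rw [← Real.rpow_natCast, ← Real.rpow_mul hL0.le]
            congr 1
            push_cast
            ring
        _ ≤ H ^ 2 * L ^ (-(D + 1)) := by
            have : L ^ (-(8 * c)) ≤ L ^ (-(D + 1)) :=
              Real.rpow_le_rpow_of_exponent_le hL (by linarith)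
            gcongr
    nlinarith [sq_nonneg (η * y - 1)]
  have e3 : L ^ (-(D + 1)) = L ^ (-D) * L⁻¹ := by
    rw [neg_add, Real.rpow_add hL0, Real.rpow_neg_one]
  have hfin : CW * (16 * CM + C₁ ^ 2) * L⁻¹ ≤ 1 := by
    rw [mul_inv_le_iff₀ hL0]
    linarith
  by_cases hC : C₁ = 0
  · subst hC
    simp only [ne_eq, OfNat.ofNat_ne_zero, not_false_eq_true, zero_pow, zero_mul]
    positivity
  calc C₁ ^ 2 * (CW * (y ^ 2 / (η * (N / 8)) * (1 / C₁ ^ 2 * I) + N / 8 * (η * y + 1) ^ 2))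
      = CW * (y ^ 2 / (η * (N / 8)) * I) + CW * C₁ ^ 2 * (N / 8) * (η * y + 1) ^ 2 := by
        field_simp
    _ ≤ CW * (16 * CM * N * H ^ 2 * L ^ (-(D + 1))) +
        CW * C₁ ^ 2 * (N / 8) * (4 * H ^ 2 * L ^ (-(D + 1))) := by gcongr
    _ = (CW * (16 * CM + C₁ ^ 2 / 2) * L⁻¹) * (N * H ^ 2 * L ^ (-D)) := by
        rw [e3]
        ring
    _ ≤ 1 * (N * H ^ 2 * L ^ (-D)) := by
        apply mul_le_mul_of_nonneg_right _ (by positivity)
        refine le_trans ?_ hfin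
        gcongr
        linarith [sq_nonneg C₁]
    _ = N * H ^ 2 / L ^ D := by
        rw [Real.rpow_neg hL0.le, one_mul]
        rfl

/-- the estimate for short windows -/
lemma fin_small (C₁ D c N L H y η A : ℝ) (hD : 0 < D) (hN : 1 ≤ N) (hL : 1 ≤ L)
    (hbig : 17 * C₁ ^ 2 ≤ L) (hη : η = L ^ (-(D + 2)))
    (hc : 3 * D + 11 ≤ 4 * c) (hA' : A ≤ L ^ (2 * c)) (hy0 : 0 ≤ y)
    (hy : y < A * L ^ 3 / η) (hH : L ^ (4 * c) ≤ H) :
    (16 * N + 1) * (C₁ * y) ^ 2 ≤ N * H ^ 2 / L ^ D := by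
  have hL0 : 0 < L := by linarith
  have hη0 : 0 < η := by rw [hη]; exact Real.rpow_pos_of_pos hL0 _
  have h1 : A * L ^ 3 / η = A * L ^ (D + 5) := by
    rw [hη, Real.rpow_neg hL0.le, div_inv_eq_mul, mul_assoc]
    congr 1
    rw [← Real.rpow_natCast, ← Real.rpow_add hL0]
    congr 1
    push_cast
    ring
  have h2 : y ≤ L ^ (2 * c + D + 5) := by
    calc y ≤ A * L ^ (D + 5) := by rw [← h1]; exact hy.le
      _ ≤ L ^ (2 * c) * L ^ (D + 5) := by gcongr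
      _ = L ^ (2 * c + D + 5) := by
          rw [← Real.rpow_add hL0]
          congr 1
          ring
  have h3 : y ^ 2 ≤ L ^ (4 * c + 2 * D + 10) := by
    calc y ^ 2 ≤ (L ^ (2 * c + D + 5)) ^ 2 := by gcongr
      _ = L ^ (4 * c + 2 * D + 10) := by
          rw [← Real.rpow_natCast, ← Real.rpow_mul hL0.le]
          congr 1
          push_cast
          ring
  have h4 : L ^ (8 * c) ≤ H ^ 2 := by
    calc L ^ (8 * c) = (L ^ (4 * c)) ^ 2 := by
          rw [← Real.rpow_natCast, ← Real.rpow_mul hL0.le]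
          congr 1
          push_cast
          ring
      _ ≤ H ^ 2 := by gcongr
  rw [le_div_iff₀ (Real.rpow_pos_of_pos hL0 D)]
  calc (16 * N + 1) * (C₁ * y) ^ 2 * L ^ D ≤ (17 * N) * (C₁ * y) ^ 2 * L ^ D := by
        gcongr
        linarith
    _ = N * (17 * C₁ ^ 2) * y ^ 2 * L ^ D := by ring
    _ ≤ N * L * L ^ (4 * c + 2 * D + 10) * L ^ D := by gcongr
    _ = N * L ^ (4 * c + 3 * D + 11) := by
        rw [mul_assoc N L, ← Real.rpow_one_add' hL0.le (by linarith), mul_assoc,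
          ← Real.rpow_add hL0]
        congr 2
        ring
    _ ≤ N * L ^ (8 * c) := by
        gcongr
        linarith
    _ ≤ N * H ^ 2 := by gcongr

end SITM

open SITM in
/-- the short interval theorem -/
theorem specSIT (hWIN : SpecWIN) (hMID : SpecMID) (hCBB : SpecCBB) (hFAC : SpecFAC)
    (hPPB : SpecPPB) : SpecSIT := by
  intro D b e hD hb he he20
  obtain ⟨C₁, hC₁, hCBB⟩ := hCBB e he he20
  obtain ⟨CW, NW, hCW, hWIN⟩ := hWIN 128 (by norm_num)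
  obtain ⟨CM, NM, hCM, hMID⟩ := hMID e he he20
  obtain ⟨K, X₀, hPPB⟩ := hPPB (D + 4) (b + 1) (1 / e) (by linarith) (by linarith)
    (by rw [le_div_iff₀ he]; linarith)
  refine ⟨D + 3 + max K 0, max (100 * (D + 4)) (b + 1), by positivity,
    le_max_of_le_left (by linarith), ?_⟩
  intro c hc
  have hc1 : 100 * (D + 4) ≤ c := le_trans (le_max_left _ _) hc
  have hc2 : b + 1 ≤ c := le_trans (le_max_right _ _) hc
  have hc3 : 64 ≤ c := by linarith
  have hc4 : 1 ≤ c := by linarith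
  have hc0 : 0 < c := by linarith
  obtain ⟨NC, hCBB⟩ := hCBB c hc4
  have hev : ∀ᶠ N : ℝ in atTop,
      (8 * NW ≤ N ∧ NM ≤ N ∧ NC ≤ N ∧ 64 ≤ N) ∧ (X₀ ≤ N ^ e) ∧
      (2 ≤ Real.log N ∧ 1 / e ≤ Real.log N ∧ 1 / e ^ (b + 1) ≤ Real.log N ∧
        1 / e ^ (D + 4) ≤ Real.log N ∧ CW * (16 * CM + C₁ ^ 2) ≤ Real.log N ∧
        17 * C₁ ^ 2 ≤ Real.log N ∧ 10 ≤ Real.log N) ∧
      (2 * Real.log N ^ (4 * c) ≤ N ^ ((1 : ℝ) / 20)) ∧
      (1 * Real.log N ^ (D + 2) ≤ N ^ ((1 : ℝ) / 20)) ∧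
      (1 * Real.log N ^ (2 * c) ≤ N ^ ((1 : ℝ) / 100)) := by
    refine ((eventually_ge_atTop _).and ((eventually_ge_atTop _).and ((eventually_ge_atTop _).and
      (eventually_ge_atTop _)))).and (((tendsto_rpow_atTop he).eventually_ge_atTop X₀).and
      (((ev_L _).and ((ev_L _).and ((ev_L _).and ((ev_L _).and ((ev_L _).and ((ev_L _).and
      (ev_L _))))))).and ((ev_log _ _ _ (by norm_num)).and ((ev_log _ _ _ (by norm_num)).and
      (ev_log _ _ _ (by norm_num))))))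
  obtain ⟨N₀, hN₀⟩ := eventually_atTop.mp hev
  refine ⟨N₀, ?_⟩
  intro N A B u hN hblk q _ χ y J hq hy
  obtain ⟨⟨hNW, hNM, hNC, hN64⟩, hX, ⟨hL2, hLe, hLb, hLD, hLbig, hL17, hL10⟩, hlog1, hlog2,
    hlog3⟩ := hN₀ N hN
  have hN0 : 0 < N := by linarith
  have hN1 : 1 < N := by linarith
  set L := Real.log N with hLdef
  have hL1 : 1 ≤ L := by linarith
  have hL0 : 0 < L := by linarith
  have he1 : 1 ≤ e * L := by
    rw [div_le_iff₀ he] at hLe
    linarith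
  have heb : 1 ≤ e ^ (b + 1) * L := by
    rw [div_le_iff₀ (Real.rpow_pos_of_pos he _)] at hLb
    linarith
  have heD : 1 ≤ e ^ (D + 4) * L := by
    rw [div_le_iff₀ (Real.rpow_pos_of_pos he _)] at hLD
    linarith
  have hA0 : 0 < A := lt_of_lt_of_le (Real.rpow_pos_of_pos hL0 _) hblk.hA
  have hB0 : 0 < B := lt_of_lt_of_le (Real.rpow_pos_of_pos hN0 _) hblk.hB
  have hA1 : 1 ≤ A := le_trans (Real.one_le_rpow hL1 (by linarith)) hblk.hA
  have hB1 : 1 ≤ B := le_trans (Real.one_le_rpow hN1.le he.le) hblk.hB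
  obtain ⟨hb1, -, hb3⟩ := hCBB N A B (D + 3 + max K 0) u hNC hblk
  -- the sequence
  set f : ℕ → ℂ := fun n => (cb A B u n : ℂ) * χ (n : ZMod q) with hf
  have hfb : ∀ n, ‖f n‖ ≤ C₁ := by
    intro n
    have h1 : ‖χ (n : ZMod q)‖ ≤ 1 := DirichletCharacter.norm_le_one χ _
    have h2 : ‖(cb A B u n : ℂ)‖ ≤ C₁ := by
      rw [Complex.norm_real]
      exact hb1 n
    calc ‖f n‖ = ‖(cb A B u n : ℂ)‖ * ‖χ (n : ZMod q)‖ := norm_mul _ _
      _ ≤ C₁ * 1 := by gcongr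
      _ = C₁ := mul_one _
  have hfs : ∀ n, f n ≠ 0 → N / 8 < n ∧ (n : ℝ) ≤ 16 * N := by
    intro n hn
    have h1 : cb A B u n ≠ 0 := by
      intro h0
      apply hn
      simp [hf, h0]
    exact ⟨(hb3 n h1).1, (hb3 n h1).2.1⟩
  have hHn : L ^ (4 * c) ≤ (Hn N c : ℝ) := Nat.le_ceil _
  have hHn2 : (Hn N c : ℝ) ≤ 2 * L ^ (4 * c) := by
    have h1 : (Hn N c : ℝ) < L ^ (4 * c) + 1 := Nat.ceil_lt_add_one (by positivity)
    have h2 : 1 ≤ L ^ (4 * c) := Real.one_le_rpow hL1 (by linarith)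
    linarith
  have hyH : (y : ℝ) ≤ Hn N c := by exact_mod_cast hy
  set η : ℝ := L ^ (-(D + 2)) with hη
  have hη0 : 0 < η := Real.rpow_pos_of_pos hL0 _
  have hη1 : η ≤ 1 / 10 := by
    calc η ≤ L ^ (-1 : ℝ) := Real.rpow_le_rpow_of_exponent_le hL1 (by linarith)
      _ = 1 / L := by rw [Real.rpow_neg_one, one_div]
      _ ≤ 1 / 10 := by
          apply one_div_le_one_div_of_le (by norm_num) hL10
  by_cases hsmall : (y : ℝ) < A * L ^ 3 / η
  · refine le_trans (small_y f N C₁ y J hN0.le hfb fun n hn => (hfs n hn).2) ?_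
    exact fin_small C₁ D c N L (Hn N c) y η A hD hN1.le hL1 hL17 hη (by linarith) hblk.hA'
      (Nat.cast_nonneg y) hsmall hHn
  push Not at hsmall
  have hypos : 0 < (y : ℝ) := lt_of_lt_of_le (by positivity) hsmall
  have hy1 : 1 ≤ y := by
    have : 0 < y := by exact_mod_cast hypos
    omega
  -- the scale N / 8
  have hN8 : N ^ ((1 : ℝ) / 2) ≤ N / 8 := by
    have h1 : N ^ ((1 : ℝ) / 2) * N ^ ((1 : ℝ) / 2) = N := by
      rw [← Real.rpow_add hN0]
      norm_num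
    have h2 : (8 : ℝ) ≤ N ^ ((1 : ℝ) / 2) := by
      rw [← Real.sqrt_eq_rpow]
      exact Real.le_sqrt_of_sq_le (by norm_num; linarith)
    nlinarith
  have hN80 : 0 < N / 8 := by linarith
  have hN20 : N ^ ((1 : ℝ) / 20) ≤ (N / 8) ^ ((1 : ℝ) / 10) := by
    calc N ^ ((1 : ℝ) / 20) = (N ^ ((1 : ℝ) / 2)) ^ ((1 : ℝ) / 10) := by
          rw [← Real.rpow_mul hN0.le]
          norm_num
      _ ≤ (N / 8) ^ ((1 : ℝ) / 10) := Real.rpow_le_rpow (by positivity) hN8 (by norm_num)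
  have hlog8 : 1 ≤ Real.log (N / 8) := by
    calc (1 : ℝ) ≤ 1 / 2 * L := by linarith
      _ = Real.log (N ^ ((1 : ℝ) / 2)) := by rw [Real.log_rpow hN0]
      _ ≤ Real.log (N / 8) := Real.log_le_log (by positivity) hN8
  have hlog8' : Real.log (N / 8) ≤ L := Real.log_le_log hN80 (by linarith)
  have hyN : (y : ℝ) ≤ (N / 8) ^ ((1 : ℝ) / 10) := by linarith
  have hηN : (N / 8) ^ (-(1 : ℝ) / 10) ≤ η := by
    rw [hη, neg_div, Real.rpow_neg hN80.le, Real.rpow_neg hL0.le]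
    apply inv_anti₀ (Real.rpow_pos_of_pos hL0 _)
    linarith
  -- WIN
  set g : ℕ → ℂ := fun n => (1 / C₁ : ℂ) * f n with hg
  have hC0 : 0 < C₁ := by linarith
  have hgb : ∀ n, ‖g n‖ ≤ 1 := by
    intro n
    have : ‖(1 / C₁ : ℂ)‖ = 1 / C₁ := by
      rw [norm_div, norm_one, Complex.norm_real, Real.norm_of_nonneg hC0.le]
    rw [hg, norm_mul, this, one_div, inv_mul_le_iff₀ hC0, mul_one]
    exact hfb n
  have hgs : ∀ n, g n ≠ 0 → N / 8 < n ∧ (n : ℝ) ≤ ((128 : ℕ) : ℝ) * (N / 8) := by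
    intro n hn
    have h1 : f n ≠ 0 := by
      intro h0
      apply hn
      simp [hg, h0]
    refine ⟨(hfs n h1).1, ?_⟩
    have := (hfs n h1).2
    push_cast
    linarith
  have hW := hWIN (N / 8) η y g J (by linarith) hy1 hyN hηN hη1 hgs hgb
  set T : ℝ := N / 8 * Real.log (N / 8) ^ 3 / (η * y) with hT
  -- bounds for T
  have hT1 : 1 ≤ T := by
    rw [hT, one_le_div (by positivity)]
    have h1 : η * y ≤ N / 8 := by
      calc η * y ≤ 1 * y := by gcongr; linarith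
        _ ≤ (N / 8) ^ ((1 : ℝ) / 10) := by linarith
        _ ≤ (N / 8) ^ (1 : ℝ) := Real.rpow_le_rpow_of_exponent_le (by linarith) (by norm_num)
        _ = N / 8 := Real.rpow_one _
    have h2 : 1 ≤ Real.log (N / 8) ^ 3 := one_le_pow₀ hlog8
    exact le_trans h1 (le_mul_of_one_le_right hN80.le h2)
  have hTA : T ≤ N / A := by
    rw [hT, div_le_div_iff₀ (by positivity) hA0]
    have h1 : A * L ^ 3 ≤ y * η := by rwa [div_le_iff₀ hη0] at hsmall
    have h2 : Real.log (N / 8) ^ 3 ≤ L ^ 3 := by gcongr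
    calc N / 8 * Real.log (N / 8) ^ 3 * A ≤ N / 8 * L ^ 3 * A := by gcongr
      _ = N / 8 * (A * L ^ 3) := by ring
      _ ≤ N / 8 * (y * η) := by gcongr
      _ = N * (η * y) / 8 := by ring
      _ ≤ N * (η * y) := by
          have : 0 < N * (η * y) := by positivity
          linarith
  have hTN : T ≤ N := by
    refine le_trans hTA ?_
    exact div_le_self hN0.le hA1
  -- MID
  have hA100 : A ≤ N ^ ((1 : ℝ) / 100) := by
    refine le_trans hblk.hA' ?_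
    linarith
  have hMIDhyp : ∀ t : ℝ, |t| ≤ T →
      ‖DP (PR B) (fun n => χ (n : ZMod q)) t‖ ≤ B / Real.log N ^ (D + 3) ∨
      (|t| ≤ Real.log N ^ (max K 0) ∧
        ‖DP (SU N A B) (fun k => (u k : ℂ) * χ (k : ZMod q)) t‖ ≤
          N / (A * B) / Real.log N ^ (D + 3 + max K 0)) := by
    intro t ht
    exact dich D b e K X₀ he he20 hD hb hPPB N c A B u hc2 hN1 hX he1 heb heD hblk q χ hq t
      (le_trans ht hTN)
  have hχ1 : ∀ n : ℕ, ‖χ (n : ZMod q)‖ ≤ 1 := fun n => DirichletCharacter.norm_le_one χ _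
  have hM := hMID N c A B T (D + 3) (max K 0) (fun n => χ (n : ZMod q)) (fun n => χ (n : ZMod q))
    (fun k => (u k : ℂ) * χ (k : ZMod q)) hNM hc3 hblk.hA hA100 hblk.hB hblk.hB' hT1 hTA
    (by linarith) (le_max_right _ _) hχ1 hχ1 (by
      intro n
      have h2 : ‖(u n : ℂ)‖ ≤ 1 := by
        rw [Complex.norm_real]
        exact hblk.bd n
      calc ‖(u n : ℂ) * χ (n : ZMod q)‖ = ‖(u n : ℂ)‖ * ‖χ (n : ZMod q)‖ := norm_mul _ _
        _ ≤ 1 * 1 := mul_le_mul h2 (hχ1 n) (norm_nonneg _) (by norm_num)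
        _ = 1 := mul_one _) hMIDhyp
  -- the factorisation
  have hF : ∀ t : ℝ, DP (IO (N / 8) (16 * N)) f t =
      DP (PR A) (fun n => χ (n : ZMod q)) t * DP (PR B) (fun n => χ (n : ZMod q)) t *
        DP (SU N A B) (fun k => (u k : ℂ) * χ (k : ZMod q)) t := by
    intro t
    exact hFAC N A B u (fun n => χ (n : ZMod q)) hN0 hA1 hB1 hblk.supp
      (fun m n => by push_cast; exact map_mul χ _ _) t
  set I : ℝ := ∫ t in (-T)..T, ‖DP (PR A) (fun n => χ (n : ZMod q)) t *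
    DP (PR B) (fun n => χ (n : ZMod q)) t *
      DP (SU N A B) (fun k => (u k : ℂ) * χ (k : ZMod q)) t‖ ^ 2 with hI
  have hI0 : 0 ≤ I := intervalIntegral.integral_nonneg (by linarith) fun t _ => by positivity
  have hI2 : I ≤ 2 * CM * N ^ 2 * L ^ (-(2 * D + 5)) := by
    have h1 : A ^ (-(1 : ℝ) / 50) ≤ L ^ (-(2 * D + 5)) := by
      calc A ^ (-(1 : ℝ) / 50) ≤ (L ^ c) ^ (-(1 : ℝ) / 50) :=
            Real.rpow_le_rpow_of_nonpos (Real.rpow_pos_of_pos hL0 _) hblk.hA (by norm_num)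
        _ = L ^ (c * (-(1 : ℝ) / 50)) := by rw [← Real.rpow_mul hL0.le]
        _ ≤ L ^ (-(2 * D + 5)) := by
            apply Real.rpow_le_rpow_of_exponent_le hL1
            linarith
    have h2 : L ^ (1 - 2 * (D + 3)) = L ^ (-(2 * D + 5)) := by
      congr 1
      ring
    calc I ≤ CM * N ^ 2 * (A ^ (-(1 : ℝ) / 50) + L ^ (1 - 2 * (D + 3))) := hM
      _ ≤ CM * N ^ 2 * (L ^ (-(2 * D + 5)) + L ^ (-(2 * D + 5))) := by
          rw [h2]
          gcongr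
      _ = 2 * CM * N ^ 2 * L ^ (-(2 * D + 5)) := by ring
  have hint : ∫ t in (-T)..T, ‖DP (IO (N / 8) (((128 : ℕ) : ℝ) * (N / 8))) g t‖ ^ 2 =
      1 / C₁ ^ 2 * I := by
    rw [hI, ← intervalIntegral.integral_const_mul]
    congr 1
    funext t
    have h1 : ((128 : ℕ) : ℝ) * (N / 8) = 16 * N := by push_cast; ring
    rw [h1, hg, DP_smul, hF t, norm_mul, mul_pow]
    congr 1
    rw [norm_div, norm_one, Complex.norm_real, Real.norm_of_nonneg hC0.le, div_pow, one_pow]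
  rw [hint] at hW
  -- conclusion
  have hsum : ∑ j ∈ range J, ‖∑ n ∈ Ioc j (j + y), f n‖ ^ 2 =
      C₁ ^ 2 * ∑ j ∈ range J, ‖∑ n ∈ Ioc j (j + y), g n‖ ^ 2 := by
    rw [Finset.mul_sum]
    apply Finset.sum_congr rfl
    intro j _
    have h1 : ∑ n ∈ Ioc j (j + y), g n = (1 / C₁ : ℂ) * ∑ n ∈ Ioc j (j + y), f n := by
      rw [Finset.mul_sum]
    rw [h1, norm_mul, mul_pow, norm_div, norm_one, Complex.norm_real,
      Real.norm_of_nonneg hC0.le]
    field_simp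
  show ∑ j ∈ range J, ‖∑ n ∈ Ioc j (j + y), f n‖ ^ 2 ≤ N * (Hn N c : ℝ) ^ 2 / L ^ D
  rw [hsum]
  calc C₁ ^ 2 * ∑ j ∈ range J, ‖∑ n ∈ Ioc j (j + y), g n‖ ^ 2
      ≤ C₁ ^ 2 * (CW * ((y : ℝ) ^ 2 / (η * (N / 8)) * (1 / C₁ ^ 2 * I) +
          N / 8 * (η * y + 1) ^ 2)) := by gcongr
    _ ≤ N * (Hn N c : ℝ) ^ 2 / L ^ D :=
        fin_est CW CM C₁ D c N L (Hn N c) y η I hCW hCM hN0 hL1 hLbig hη hD (by linarith)
          (Nat.cast_nonneg y) hyH hHn hI0 hI2

end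

end Pool.Agent.Lib.MP3efbeb.LG
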