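import Pool.Agent.Lib.MP_3efbeb_nt.LG.SpecB

/-!
# Module SUP: all frequencies
-/

set_option autoImplicit false

namespace Pool.Agent.Lib.MP3efbeb.LG

open Finset MeasureTheory
open Pool.Agent.Lib.MP391708.QPA (PB rInd Wp Rough)

namespace SUPM

/-- the thresholds -/
lemma large (c K : ℝ) : ∃ L₀ : ℝ, 2 ≤ L₀ ∧ ∀ L : ℝ, L₀ ≤ L →
    2 * L ^ (4 * c) ≤ Real.exp L ∧ 1 + Real.log 2 + 4 * c * Real.log L ≤ L ∧ K ≤ L := by
  have h1 : ∀ᶠ L : ℝ in Filter.atTop, ‖L ^ (4 * c)‖ ≤ (1 / 2) * ‖Real.exp L‖ :=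
    (isLittleO_rpow_exp_atTop (4 * c)).bound (by norm_num)
  have h2 : ∀ᶠ L : ℝ in Filter.atTop, ‖Real.log L‖ ≤ (1 / (2 * (4 * |c| + 1))) * ‖L‖ :=
    (Real.isLittleO_log_id_atTop).bound (by positivity)
  obtain ⟨L₁, hL₁⟩ := Filter.eventually_atTop.1 (h1.and h2)
  refine ⟨max L₁ (max 4 K), (by norm_num : (2 : ℝ) ≤ 4).trans ((le_max_left 4 K).trans
    (le_max_right _ _)), fun L hL => ?_⟩
  have e1 : L₁ ≤ L := (le_max_left _ _).trans hL
  have e2 : (4 : ℝ) ≤ L := ((le_max_left 4 K).trans (le_max_right _ _)).trans hL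
  have e3 : K ≤ L := ((le_max_right 4 K).trans (le_max_right _ _)).trans hL
  obtain ⟨f1, f2⟩ := hL₁ L e1
  have hL0 : (0 : ℝ) < L := by linarith
  refine ⟨?_, ?_, e3⟩
  · rw [Real.norm_of_nonneg (Real.rpow_nonneg hL0.le _), Real.norm_of_nonneg (Real.exp_pos _).le] at f1
    linarith
  · have hlog : 0 ≤ Real.log L := Real.log_nonneg (by linarith)
    rw [Real.norm_of_nonneg hlog, Real.norm_of_nonneg hL0.le] at f2
    have f3 : 4 * c * Real.log L ≤ L / 2 := by
      have g1 : 4 * c * Real.log L ≤ (4 * |c| + 1) * Real.log L := by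
        apply mul_le_mul_of_nonneg_right _ hlog
        have := le_abs_self c
        linarith
      have g2 : (4 * |c| + 1) * Real.log L ≤ (4 * |c| + 1) * (1 / (2 * (4 * |c| + 1)) * L) :=
        mul_le_mul_of_nonneg_left f2 (by positivity)
      have g3 : (4 * |c| + 1) * (1 / (2 * (4 * |c| + 1)) * L) = L / 2 := by
        have : (4 * |c| + 1) ≠ 0 := by positivity
        field_simp
      linarith
    have h2 : Real.log 2 < 0.6931471808 := Real.log_two_lt_d9
    linarith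

/-- the block as a sum over the small primes -/
lemma cb_eq (A B : ℝ) (u : ℕ → ℝ) (n : ℕ) : cb A B u n =
    ∑ p ∈ PR A, if p ∣ n then (∑ q ∈ PR B, if q ∣ n / p then u (n / p / q) else 0) else 0 := by
  unfold cb
  refine Finset.sum_congr rfl fun p hp => ?_
  by_cases hpn : p ∣ n
  · rw [if_pos hpn]
    refine Finset.sum_congr rfl fun q _ => ?_
    rw [Nat.div_div_eq_div_mul]
    by_cases hq : p * q ∣ n
    · rw [if_pos hq, if_pos ((Nat.dvd_div_iff_mul_dvd hpn).2 hq)]
    · rw [if_neg hq, if_neg fun h => hq ((Nat.dvd_div_iff_mul_dvd hpn).1 h)]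
  · rw [if_neg hpn]
    refine Finset.sum_eq_zero fun q _ => ?_
    rw [if_neg fun h => hpn ((Nat.dvd_mul_right p q).trans h)]

end SUPM

open SUPM in
theorem specSUP (hMAJ : SpecMAJ) (hMIN : SpecMIN) (hCBB : SpecCBB) : SpecSUP := by
  intro D e hD he he20
  set b : ℝ := 8 * D + 16 with hb
  have hb0 : 0 < b := by rw [hb]; linarith
  obtain ⟨E, c₁, hE, hc₁, hMAJ'⟩ := hMAJ D b e hD hb0 he he20
  obtain ⟨C₁, hC₁, hCBB'⟩ := hCBB e he he20
  obtain ⟨C, hC, hMIN'⟩ := hMIN
  refine ⟨E, max c₁ b, hE, hc₁.trans (le_max_left _ _), fun c hc => ?_⟩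
  have hcc₁ : c₁ ≤ c := (le_max_left _ _).trans hc
  have hbc : b ≤ c := (le_max_right _ _).trans hc
  have hc1 : 1 ≤ c := hc₁.trans hcc₁
  obtain ⟨N₁, hN₁⟩ := hMAJ' c hcc₁
  obtain ⟨N₂, hN₂⟩ := hCBB' c hc1
  obtain ⟨L₀, hL₀2, hL₀⟩ := large c (C * C₁ ^ 2)
  refine ⟨max N₁ (max N₂ (Real.exp L₀)), fun N A B u hN hBlk α J => ?_⟩
  have hNN₁ : N₁ ≤ N := (le_max_left _ _).trans hN
  have hNN₂ : N₂ ≤ N := ((le_max_left _ _).trans (le_max_right _ _)).trans hN
  have hNexp : Real.exp L₀ ≤ N := ((le_max_right _ _).trans (le_max_right _ _)).trans hN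
  have hN0 : 0 < N := (Real.exp_pos _).trans_le hNexp
  set L : ℝ := Real.log N with hL
  have hLL₀ : L₀ ≤ L := by
    rw [hL, ← Real.log_exp L₀]
    exact Real.log_le_log (Real.exp_pos _) hNexp
  obtain ⟨l1, l2, l3⟩ := hL₀ L hLL₀
  have hL2 : 2 ≤ L := hL₀2.trans hLL₀
  have hL0 : 0 < L := by linarith
  have hL1 : 1 ≤ L := by linarith
  have hexpL : Real.exp L = N := by rw [hL, Real.exp_log hN0]
  -- the scales
  set W : ℝ := L ^ b with hW
  set H : ℕ := Hn N c with hH
  have hHdef : H = ⌈L ^ (4 * c)⌉₊ := by rw [hH, Hn]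
  have hH1 : L ^ (4 * c) ≤ (H : ℝ) := by rw [hHdef]; exact Nat.le_ceil _
  have hLc1 : 1 ≤ L ^ (4 * c) := Real.one_le_rpow hL1 (by linarith)
  have hH2 : (H : ℝ) ≤ 2 * L ^ (4 * c) := by
    have := Nat.ceil_lt_add_one (Real.rpow_nonneg hL0.le (4 * c))
    rw [← hHdef] at this
    linarith
  have hHN : (H : ℝ) ≤ N := by rw [← hexpL]; exact hH2.trans l1
  have hH0 : (0 : ℝ) < H := by linarith
  have hW2 : 2 ≤ W := by
    rw [hW]
    calc (2 : ℝ) ≤ L := hL2
      _ = L ^ (1 : ℝ) := (Real.rpow_one L).symm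
      _ ≤ L ^ b := Real.rpow_le_rpow_of_exponent_le hL1 (by linarith)
  have hW0 : 0 < W := by linarith
  have hWH : W ≤ H := le_trans (Real.rpow_le_rpow_of_exponent_le hL1 (by linarith)) hH1
  -- the rational approximation
  set n : ℕ := ⌊(H : ℝ) / W⌋₊ with hn
  have hn1 : 0 < n := by
    rw [hn]
    exact Nat.floor_pos.2 ((one_le_div hW0).2 hWH)
  have hnle : (n : ℝ) ≤ H / W := Nat.floor_le (by positivity)
  have hnlt : (H : ℝ) / W < n + 1 := Nat.lt_floor_add_one _
  obtain ⟨r, hr1, hr2⟩ := Real.exists_rat_abs_sub_le_and_den_le α hn1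
  have hq1 : 1 ≤ r.den := r.den_pos
  have hq0 : (0 : ℝ) < (r.den : ℝ) := by exact_mod_cast r.den_pos
  have hr3 : (r : ℝ) = (r.num : ℝ) / (r.den : ℝ) := by
    exact_mod_cast (Rat.num_div_den r).symm
  have hn1' : (0 : ℝ) < (n : ℝ) + 1 := by positivity
  by_cases hqW : (r.den : ℝ) ≤ W
  · -- major arcs
    have hβ : |α - (r : ℝ)| * H ≤ W := by
      have h1 : |α - (r : ℝ)| ≤ 1 / ((n : ℝ) + 1) := by
        refine hr1.trans ?_
        apply one_div_le_one_div_of_le hn1'
        have : (1 : ℝ) ≤ r.den := by exact_mod_cast hq1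
        nlinarith
      have h2 : (H : ℝ) < W * (n + 1) := by
        rw [div_lt_iff₀ hW0] at hnlt
        linarith
      calc |α - (r : ℝ)| * H ≤ 1 / ((n : ℝ) + 1) * H := mul_le_mul_of_nonneg_right h1 hH0.le
        _ ≤ 1 / ((n : ℝ) + 1) * (W * (n + 1)) := mul_le_mul_of_nonneg_left h2.le (by positivity)
        _ = W := by field_simp
    have := hN₁ N A B u hNN₁ hBlk r.den J r.num (α - (r : ℝ)) hq1 hqW hβ
    rw [← hr3, add_sub_cancel] at this
    exact this
  · -- minor arcs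
    push Not at hqW
    obtain ⟨k1, k2, k3⟩ := hN₂ N A B E u hNN₂ hBlk
    have hA0 : 0 < A := lt_of_lt_of_le (Real.rpow_pos_of_pos hL0 c) hBlk.hA
    have hB0 : 0 < B := lt_of_lt_of_le (Real.rpow_pos_of_pos hN0 e) hBlk.hB
    have hWA : W ≤ A := (Real.rpow_le_rpow_of_exponent_le hL1 hbc).trans hBlk.hA
    have hAH : A ^ 2 ≤ H := by
      refine le_trans ?_ hH1
      have h1 : A ^ 2 ≤ (L ^ (2 * c)) ^ 2 := by
        have := hBlk.hA'
        gcongr
      have h2 : (L ^ (2 * c)) ^ 2 = L ^ (4 * c) := by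
        rw [← Real.rpow_natCast (L ^ (2 * c)) 2, ← Real.rpow_mul hL0.le]
        congr 1
        push_cast
        ring
      rw [h2] at h1
      exact h1
    have hbm : ∀ m : ℕ, (∑ q ∈ PR B, if q ∣ m then u (m / q) else 0) ≠ 0 →
        1 ≤ m ∧ (m : ℝ) ≤ 16 * N / A := by
      intro m hm
      obtain ⟨q, hq, hqne⟩ := Finset.exists_ne_zero_of_sum_ne_zero hm
      have hqm : q ∣ m := by
        by_contra h
        rw [if_neg h] at hqne
        exact hqne rfl
      rw [if_pos hqm] at hqne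
      obtain ⟨s1, s2⟩ := hBlk.supp _ hqne
      have hpos : (0 : ℝ) < ((m / q : ℕ) : ℝ) := lt_trans (by positivity) s1
      have hpos' : 0 < m / q := by exact_mod_cast hpos
      have hm1 : 1 ≤ m := by
        rcases Nat.eq_zero_or_pos m with h | h
        · rw [h, Nat.zero_div] at hpos'
          exact absurd hpos' (lt_irrefl 0)
        · exact h
      have hqB : (q : ℝ) ≤ 2 * B := by
        simp only [PR, IO, Finset.mem_filter, Finset.mem_Ioc] at hq
        exact (Nat.le_floor_iff (by positivity)).1 hq.1.2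
      refine ⟨hm1, ?_⟩
      have hmq : (m : ℝ) = q * ((m / q : ℕ) : ℝ) := by
        exact_mod_cast (Nat.mul_div_cancel' hqm).symm
      rw [hmq]
      calc (q : ℝ) * ((m / q : ℕ) : ℝ) ≤ (2 * B) * (4 * N / (A * B)) :=
            mul_le_mul hqB s2 hpos.le (by positivity)
        _ = 8 * N / A := by field_simp; ring
        _ ≤ 16 * N / A := by
            apply div_le_div_of_nonneg_right _ hA0.le
            linarith
    have hcop : IsCoprime r.num ((r.den : ℕ) : ℤ) := by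
      rw [Int.isCoprime_iff_gcd_eq_one]
      exact r.reduced
    have hrn : (r.den : ℝ) ≤ n := by exact_mod_cast hr2
    have happ : |α - (r.num : ℝ) / (r.den : ℝ)| ≤ 1 / (r.den : ℝ) ^ 2 := by
      rw [← hr3]
      refine hr1.trans ?_
      apply one_div_le_one_div_of_le (by positivity)
      nlinarith
    have hqWH : (r.den : ℝ) * W ≤ H := by
      have := hrn.trans hnle
      rwa [le_div_iff₀ hW0] at this
    have hfin := hMIN' N A W C₁ α H J r.den r.num
      (fun m => ∑ q ∈ PR B, if q ∣ m then u (m / q) else 0) (cb A B u) hC₁ hW2 hWA hAH hHN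
      k2 k1 hbm (fun n => cb_eq A B u n) hq1 hcop happ hqW.le hqWH
    refine hfin.trans ?_
    -- the final numbers
    have hlogH : 1 + Real.log H ≤ L := by
      have h1 : Real.log H ≤ Real.log 2 + 4 * c * Real.log L := by
        have := Real.log_le_log hH0 hH2
        rwa [Real.log_mul (by norm_num) (by positivity), Real.log_rpow hL0] at this
      linarith
    have hlogH0 : 0 ≤ 1 + Real.log H := by
      have : 0 ≤ Real.log H := Real.log_nonneg (hLc1.trans hH1)
      linarith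
    have hW12 : W ^ ((1 : ℝ) / 2) = L ^ (4 * D + 8) := by
      rw [hW, ← Real.rpow_mul hL0.le]
      congr 1
      rw [hb]; ring
    have hq : ((1 + Real.log H) / W ^ ((1 : ℝ) / 2)) ^ ((1 : ℝ) / 2) ≤ L ^ (-(D + 1)) := by
      have h1 : (1 + Real.log H) / W ^ ((1 : ℝ) / 2) ≤ L ^ (-(2 * D + 2)) := by
        rw [hW12, div_le_iff₀ (by positivity), ← Real.rpow_add hL0]
        calc 1 + Real.log H ≤ L := hlogH
          _ = L ^ (1 : ℝ) := (Real.rpow_one L).symm
          _ ≤ L ^ (-(2 * D + 2) + (4 * D + 8)) :=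
              Real.rpow_le_rpow_of_exponent_le hL1 (by linarith)
      calc ((1 + Real.log H) / W ^ ((1 : ℝ) / 2)) ^ ((1 : ℝ) / 2) ≤
            (L ^ (-(2 * D + 2))) ^ ((1 : ℝ) / 2) :=
            Real.rpow_le_rpow (by positivity) h1 (by norm_num)
        _ = L ^ (-(D + 1)) := by
            rw [← Real.rpow_mul hL0.le]
            congr 1
            ring
    have hLD : 0 < L ^ D := by positivity
    calc C * C₁ ^ 2 * N * (H : ℝ) ^ 2 * ((1 + Real.log H) / W ^ ((1 : ℝ) / 2)) ^ ((1 : ℝ) / 2)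
        ≤ C * C₁ ^ 2 * N * (H : ℝ) ^ 2 * L ^ (-(D + 1)) :=
          mul_le_mul_of_nonneg_left hq (by positivity)
      _ = N * (H : ℝ) ^ 2 * (C * C₁ ^ 2 * L ^ (-(D + 1))) := by ring
      _ ≤ N * (H : ℝ) ^ 2 * (L * L ^ (-(D + 1))) := by
          apply mul_le_mul_of_nonneg_left _ (by positivity)
          exact mul_le_mul_of_nonneg_right l3 (by positivity)
      _ = N * (H : ℝ) ^ 2 / L ^ D := by
          rw [div_eq_mul_inv, ← Real.rpow_neg hL0.le]
          congr 1
          nth_rewrite 1 [← Real.rpow_one L]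
          rw [← Real.rpow_add hL0]
          congr 1
          ring

end Pool.Agent.Lib.MP3efbeb.LG
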