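import Mathlib

/-!
# LongPatterns (MP_3efbeb_nt), part A: sums over short intervals and mean values of Dirichlet polynomials

AIM of the project (captain helper22): for `k ≥ 1`, `r_1, .., r_k ≥ 3`, `A`: for all but at most `H ^ k / (log H) ^ A` of the
`h` in `[1, H] ^ k`: if `{0, h_1, .., h_k}` is admissible, then for ALL `N` with `H ^ 3 ≤ N ≤ exp (H ^ c)` at least
`c N / (log N) ^ (k + 1)` of the `n ≤ N` are PRIME with every `n + h_i` a product of exactly `r_i` primes.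

One module `XXX` = file `LG/XXX.lean`, namespace `Pool.Agent.Lib.MP3efbeb.LG`, own lemmas in the namespace `XXXM`, theorem
`specXXX (hYYY : SpecYYY) .. : SpecXXX` with the modules named after USES in this order. Everything is elementary; `C` are
constants, new ones at every occurrence. `L = log N`.
-/

set_option autoImplicit false

namespace Pool.Agent.Lib.MP3efbeb.LG

open Finset MeasureTheory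

noncomputable section

/-- `e(θ) = exp(2πiθ)` -/
def ee (θ : ℝ) : ℂ := Complex.exp (2 * Real.pi * θ * Complex.I)

/-- `n ^ (it)` (`n ≥ 1`) -/
def nit (n : ℕ) (t : ℝ) : ℂ := Complex.exp ((t * Real.log n : ℝ) * Complex.I)

/-- the Dirichlet polynomial `∑_{n ∈ S} c(n) n^(it)` -/
def DP (S : Finset ℕ) (c : ℕ → ℂ) (t : ℝ) : ℂ := ∑ n ∈ S, c n * nit n t

/-- the integers `n` with `x < n ≤ y` (for `0 ≤ x`) -/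
def IO (x y : ℝ) : Finset ℕ := Ioc ⌊x⌋₊ ⌊y⌋₊

/-- the primes `A < p ≤ 2A` -/
def PR (A : ℝ) : Finset ℕ := (IO A (2 * A)).filter Nat.Prime

/-- the Gaussian density of variance `ε²` -/
def gau (ε x : ℝ) : ℝ := Real.exp (-(x ^ 2 / (2 * ε ^ 2))) / (ε * √(2 * Real.pi))

/-- the smoothed window `[0, δ]` -/
def Wd (δ ε u : ℝ) : ℝ := ∫ s in (0 : ℝ)..δ, gau ε (u - s)

/-- GPL (300 lines): Plancherel for smoothed multiplicative windows.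
PROOF. `∫_v gau ε (a - v - s) gau ε (b - v - s') dv = G(a - b - s + s')` with `G` the Gaussian density of variance `2 ε²`, and
`G(x) = (1/2π) ∫ e^(-ε² t²) e^(itx) dt` (`fourierIntegral_gaussian`, `integral_cexp_quadratic`, ..). So, all integrals being
absolutely convergent (Fubini; the sums are finite, `s, s' ∈ [0, δ]`),
`∫ |∑ c(n) W(log n - v)|² dv = (1/2π) ∫ |C(t)|² |∫_0^δ e^(-its) ds|² e^(-ε² t²) dt`, `C(t) = DP S c t`, `|∫_0^δ ..| ≤ δ`, `1/2π ≤ 1`.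
(Integrability: `|C| ≤ ∑ |c|`; `W(u) ≤ e^(-u²/(8ε²)) · const` for `|u| ≥ 2δ`, `0 ≤ W ≤ 1`.) -/
def SpecGPL : Prop := ∀ (S : Finset ℕ) (c : ℕ → ℂ) (δ ε : ℝ), 0 < δ → 0 < ε →
  Integrable (fun v : ℝ => ‖∑ n ∈ S, c n * (Wd δ ε (Real.log n - v) : ℂ)‖ ^ 2) ∧
  Integrable (fun t : ℝ => ‖DP S c t‖ ^ 2 * Real.exp (-(ε ^ 2 * t ^ 2))) ∧
  ∫ v : ℝ, ‖∑ n ∈ S, c n * (Wd δ ε (Real.log n - v) : ℂ)‖ ^ 2 ≤
    δ ^ 2 * ∫ t : ℝ, ‖DP S c t‖ ^ 2 * Real.exp (-(ε ^ 2 * t ^ 2))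

/-- WNB (150 lines): the smoothed window is close to the sharp one.
PROOF. `Wd` is the integral of the Gaussian density over `[u - δ, u]`; total mass 1, mass outside `[-κ, κ]` at most
`2 e^(-κ²/(2ε²))` (`κ ≥ 0`; `∫_κ^∞ e^(-x²/(2ε²)) ≤ e^(-κ²/(2ε²)) ∫_0^∞ e^(-x²/(2ε²))`). -/
def SpecWNB : Prop := ∀ δ ε κ u : ℝ, 0 < δ → 0 < ε → 0 ≤ κ →
  0 ≤ Wd δ ε u ∧ Wd δ ε u ≤ 1 ∧
  (κ ≤ u → u ≤ δ - κ → 1 - 2 * Real.exp (-(κ ^ 2 / (2 * ε ^ 2))) ≤ Wd δ ε u) ∧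
  ((u ≤ -κ ∨ δ + κ ≤ u) → Wd δ ε u ≤ 2 * Real.exp (-(κ ^ 2 / (2 * ε ^ 2))))

/-- WIN (350 lines), USES GPL, WNB: mean squares of sums over short intervals by Dirichlet polynomials.
PROOF. `L = log N`, `ε = η y/(K N L)`, `κ = ε L = η y/(K N)`. Cover `[N/2, K N]` by the intervals `[x₀, x₀ (1 + η)]`,
`x₀ = (N/2) (1 + η)^i`, at most `C/η` of them (the terms `j < N/2` vanish as `y ≤ N/2`, those with `j > K N` too). Fix one, `δ = y/x₀`.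
For natural `j` in it and `v ∈ [log j, log (j+1))`: the window `v < log n ≤ v + δ` is `e^v < n ≤ e^v e^δ`, and
`e^v e^δ - e^v ∈ [y, y (1 + 2η) + 3]`; so it differs from `(j, j + y]` by at most `4 η y + 6` integers. By WNB the sum of
`|1_(0,δ](log n - v) - W(log n - v)|` over `n ≤ K N` is at most the number of `n` with `log n - v` within `κ` of `0` or `δ`, which is
`≤ 2 (2 κ e^δ e^v · 2 + 1) ≤ C (η y + 1)`, plus `K N · 2 e^(-L²/2) ≤ 1`. So with `T_j = ∑_{n ∈ Ioc j (j+y)} c n`,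
`|T_j|² ≤ 2 |Sm(v)|² + C (η y + 1)²`. Integrate over `v ∈ [log j, log (j+1)]` (length `≥ 1/(2 j) ≥ 1/(4 x₀)`): summing over `j`,
`∑_j |T_j|² ≤ 8 x₀ ∫ |Sm|² + C (η x₀ + 1) (η y + 1)² ≤ 8 x₀ δ² ∫ |DP|² e^(-ε² t²) + ..` (GPL), `8 x₀ δ² = 8 y²/x₀`. Sum over the `C/η`
intervals. Finally `∫_{|t| > T} |DP|² e^(-ε² t²) ≤ (K N)² e^(-L⁴/(2K²)) ∫ e^(-ε² t²/2) ≤ 1` for `N ≥ N₀(K)`, `ε T = L²/K`. -/
def SpecWIN : Prop := ∀ K : ℕ, 1 ≤ K → ∃ C N₀ : ℝ, 0 < C ∧ ∀ (N η : ℝ) (y : ℕ) (c : ℕ → ℂ) (J : ℕ),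
  N₀ ≤ N → 1 ≤ y → (y : ℝ) ≤ N ^ ((1 : ℝ) / 10) → N ^ (-(1 : ℝ) / 10) ≤ η → η ≤ 1 / 10 →
  (∀ n, c n ≠ 0 → N < n ∧ (n : ℝ) ≤ K * N) → (∀ n, ‖c n‖ ≤ 1) →
  ∑ j ∈ range J, ‖∑ n ∈ Ioc j (j + y), c n‖ ^ 2 ≤
    C * ((y : ℝ) ^ 2 / (η * N) * (∫ t in (-(N * Real.log N ^ 3 / (η * y)))..(N * Real.log N ^ 3 / (η * y)),
      ‖DP (IO N (K * N)) c t‖ ^ 2) + N * (η * y + 1) ^ 2)

/-- MVT (200 lines): the mean value theorem.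
PROOF. `1 ≤ e · e^(-t²/T²)` on `[-T, T]`. Expand: `∫ e^(-t²/T²) (n/m)^(it) dt = √π T e^(-T² log²(n/m)/4)` (real, positive),
`|log (n/m)| ≥ |n - m|/X`; `|b_n b_m| ≤ (|b_n|² + |b_m|²)/2`, and `∑_{m} e^(-T² (n-m)²/(4X²)) ≤ 1 + 2 ∑_{j≥1} .. ≤ C (1 + X/T)`
(compare with the integral, or `e^(-x²) ≤ 1/(1+x²)`.. ). -/
def SpecMVT : Prop := ∃ C : ℝ, 0 < C ∧ ∀ (S : Finset ℕ) (X T : ℝ) (b : ℕ → ℂ), 1 ≤ X → 1 ≤ T →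
  (∀ n ∈ S, 1 ≤ n ∧ (n : ℝ) ≤ X) →
  ∫ t in (-T)..T, ‖DP S b t‖ ^ 2 ≤ C * (T + X) * ∑ n ∈ S, ‖b n‖ ^ 2

/-- HMI (150 lines): the inequality of Halász and Montgomery for integrals.
PROOF. `K(t) = DP S a t` (continuous), `I = ∫_E |K|²`. `I = ∑_n a_n ∫_E n^(it) conj K(t) dt ≤ (∑ |a|²)^(1/2) (∑_n |∫_E n^(it) conj K|²)^(1/2)`
and the last sum is `∫∫_{E×E} conj K(t) K(t') DP S 1 (t - t') dt' dt ≤ ∫∫ (|K(t)|² + |K(t')|²)/2 |DP S 1 (t - t')| ≤ M I`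
(`|DP S 1 (-u)| = |DP S 1 u|`). -/
def SpecHMI : Prop := ∀ (S : Finset ℕ) (a : ℕ → ℂ) (E : Set ℝ) (T M : ℝ), MeasurableSet E →
  E ⊆ Set.Icc (-T) T → 0 ≤ M → (∀ t ∈ E, ∫ t' in E, ‖DP S (fun _ => 1) (t - t')‖ ≤ M) →
  ∫ t in E, ‖DP S a t‖ ^ 2 ≤ M * ∑ n ∈ S, ‖a n‖ ^ 2

/-- ZSM (250 lines): sums of `n^(it)`.
PROOF. `|t| ≤ x^(1/2)`: the sum is `∫_x^x' u^(it) du + O(1 + |t| log K)` (Euler-Maclaurin of order 0: on `[n-1, n]` the function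
varies by `≤ |t|/(n-1)`), and `|∫ u^(it) du| ≤ 2 K x/(1+|t|)` (`|1 + it| ≥ (1+|t|)/2`). `x^(1/2) ≤ |t| ≤ x^(5/4)`: the second
derivative test for `F(u) = (t/2π) log u`, `|F''| ≍ |t|/x²`: the sum is `≤ C (x (|t|/x²)^(1/2) + (|t|/x²)^(-1/2)) ≤ C x^(3/4)`. Use
`second_difference` of `Pool/Agent/Lib/MP_5b6025_nt/Avg/DiffTest.lean` (a test with second differences), or `specVDC` of
`MP_391708_nt/MR/VDC.lean` with `q = 2` (extend `F` from `[0, L]` to a `C²` function; real `ε`). -/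
def SpecZSM : Prop := ∀ K : ℕ, 1 ≤ K → ∃ C : ℝ, 0 < C ∧ ∀ x x' t : ℝ, 1 ≤ x → x ≤ x' → x' ≤ K * x →
  |t| ≤ x ^ ((5 : ℝ) / 4) → ‖DP (IO x x') (fun _ => 1) t‖ ≤ C * (x / (1 + |t|) + x ^ ((3 : ℝ) / 4))

/-- LVP (250 lines), USES MVT: the measure of the large values.
PROOF. `P(t) = DP (PR A) b t`, `S = PR A` (`#S ≤ 2A`), `l = ⌈log T/log A⌉ + 1`, so `T ≤ A^l ≤ T A³`, `l ≤ L/(c log L) + 3`. `P^l = DP` on the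
integers `≤ X = (2A)^l` with coefficients `β(n) = ∑_{p_1 ⋯ p_l = n} ∏ b(p_i)`; the number of the representations is `≤ l!`, so
`∑ |β(n)|² ≤ l! ∑_n #reps ≤ l! (2A)^l`. By MVT `vol · A^(2l·99/100) ≤ C (T + (2A)^l) l! (2A)^l ≤ 2 C l! 4^l A^(2l)`, so
`vol ≤ 2 C l! 4^l A^(l/50) ≤ 2 C (4l)^l (T A³)^(1/50) ≤ N^(1/8)` for `N ≥ N₀`: `(T A³)^(1/50) ≤ N^(4/50)` and `l log (4l) ≤
(L/(64 log L) + 3)(log L + 2) ≤ L/40`. -/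
def SpecLVP : Prop := ∃ N₀ : ℝ, ∀ (N c A T : ℝ) (b : ℕ → ℂ), N₀ ≤ N → 64 ≤ c → Real.log N ^ c ≤ A → A ≤ N →
  1 ≤ T → T ≤ N → (∀ p, ‖b p‖ ≤ 1) →
  volume {t : ℝ | t ∈ Set.Icc (-T) T ∧ A ^ ((99 : ℝ) / 100) ≤ ‖DP (PR A) b t‖} ≤
    ENNReal.ofReal (N ^ ((1 : ℝ) / 8))

/-- the range of the long variable -/
def SU (N A B : ℝ) : Finset ℕ := IO (N / (8 * A * B)) (4 * N / (A * B))

/-- MID (300 lines), USES MVT, HMI, ZSM, LVP: the mean square of a product of three Dirichlet polynomials.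
PROOF. `P = DP (PR A) a`, `Q = DP (PR B) b`, `U = DP (SU N A B) u`, `M = N/(A B) ≥ N^(4/5)`. `E` = the set where `|P| ≥ A^(99/100)`,
`vol E ≤ N^(1/8)` (LVP; closed in `[-T, T]`). (1) Outside `E`: `|P|² ≤ A^(2 - 1/50)`, `Q U = DP` on the `m ≤ 8 N/A` with coefficients
`∑_{q k = m} b_q u_k`, at most `2/e` in absolute value (a number `≤ N` has at most `1/e` prime factors `> N^e`), so by MVT
`∫ |Q U|² ≤ C (T + 8N/A) (2/e)² 8N/A ≤ C (N/A)²`; total `≤ C N² A^(-1/50)`. (2) On the part of `E` with `|Q| ≤ B/L^D`: `|P| ≤ 2A`;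
by HMI for this set and `S = SU`: `∫_E |DP S 1 (t - t')| dt' ≤ C ∫_{-2T}^{2T} M/(1+|τ|) dτ + C N^(1/8) M^(3/4) ≤ C M L` (ZSM with `K = 33`; `2T ≤ 2N/A ≤ (M/8)^(5/4)`
as `A ≥ 1` is large and `M ≥ N^(0.89)`), so `∫_E |U|² ≤ C M L · 4M`; total `≤ C A² B² L^(-2D) M² L = C N² L^(1-2D)`. (3) The rest: `|t| ≤ L^E₁`,
`|P|² |Q|² |U|² ≤ 16 A² B² M² L^(-2D-2E₁)`, length `2 L^E₁`. (`AB ≤ N^(11/100)`; `B ≤ N^(1/10)`, `A ≤ N^(1/100)`.) -/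
def SpecMID : Prop := ∀ e : ℝ, 0 < e → e ≤ 1 / 20 → ∃ C N₀ : ℝ, 0 < C ∧
  ∀ (N c A B T D E : ℝ) (a b u : ℕ → ℂ), N₀ ≤ N → 64 ≤ c → Real.log N ^ c ≤ A → A ≤ N ^ ((1 : ℝ) / 100) →
  N ^ e ≤ B → B ≤ N ^ ((1 : ℝ) / 10) → 1 ≤ T → T ≤ N / A → 0 ≤ D → 0 ≤ E →
  (∀ n, ‖a n‖ ≤ 1) → (∀ n, ‖b n‖ ≤ 1) → (∀ n, ‖u n‖ ≤ 1) →
  (∀ t : ℝ, |t| ≤ T → ‖DP (PR B) b t‖ ≤ B / Real.log N ^ D ∨
    (|t| ≤ Real.log N ^ E ∧ ‖DP (SU N A B) u t‖ ≤ N / (A * B) / Real.log N ^ (D + E))) →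
  ∫ t in (-T)..T, ‖DP (PR A) a t * DP (PR B) b t * DP (SU N A B) u t‖ ^ 2 ≤
    C * N ^ 2 * (A ^ (-(1 : ℝ) / 50) + Real.log N ^ (1 - 2 * D))

/-! ## Characters and additive phases -/

/-- CHX (60 lines): additive characters by multiplicative ones.
PROOF. For `n` coprime to `q`: `e(an/q) = ∑_χ c_χ χ(n)`, `c_χ = φ(q)⁻¹ ∑_{b mod q, coprime} e(ab/q) conj χ(b)`, `|c_χ| ≤ 1`
(`DirichletCharacter.sum_char_inv_mul_char_eq`). -/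
def SpecCHX : Prop := ∀ (q : ℕ) [NeZero q] (a : ℤ) (I : Finset ℕ) (c : ℕ → ℂ),
  (∀ n ∈ I, c n ≠ 0 → n.Coprime q) →
  ‖∑ n ∈ I, c n * ee ((a : ℝ) / q * n)‖ ≤ ∑ χ : DirichletCharacter ℂ q, ‖∑ n ∈ I, c n * χ n‖

/-- BET (120 lines): removal of a small `β`.
PROOF. Partial summation: `∑_{n ∈ Ioc j (j+H)} c(n) e(βn) = e(β(j+H)) T_H - ∑_{y=1}^{H-1} (e(β(j+y+1)) - e(β(j+y))) T_y`,
`T_y(j) = ∑_{Ioc j (j+y)} c`, `|e(β(x+1)) - e(βx)| ≤ 2π|β|`. Minkowski (or Cauchy-Schwarz: `|∑|² ≤ 2|T_H|² + 2 (2π|β|)² H ∑_y |T_y|²`). -/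
def SpecBET : Prop := ∀ (H J : ℕ) (β G : ℝ) (c : ℕ → ℂ),
  (∀ y : ℕ, 1 ≤ y → y ≤ H → ∑ j ∈ range J, ‖∑ n ∈ Ioc j (j + y), c n‖ ^ 2 ≤ G) → 0 ≤ G →
  ∑ j ∈ range J, ‖∑ n ∈ Ioc j (j + H), c n * ee (β * n)‖ ^ 2 ≤ 2 * (1 + (2 * Real.pi * |β| * H) ^ 2) * G

/-- the distance to the nearest integer -/
def nd (x : ℝ) : ℝ := |x - round x|

/-- DIR (200 lines): the standard sum over the multiples of `α`. (`1/0 = 0` in Lean: the min is written with a bound.)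
PROOF. Split `1 ≤ k ≤ A` into at most `A/q + 1` blocks of `q` consecutive integers. In a block the numbers `αk = αk₀ + (a/q) j + θ j/q²`,
`|θ| ≤ 1`, `0 ≤ j < q`, have for each residue `s` mod `q` at most 1 index `j` with `a j = s`, and `αk` is within `1/q` of `αk₀ + s/q`; so for
every `i` at most 8 indices have `nd (αk) ∈ [i/q, (i+1)/q)`: the block is `≤ 8 L + 8 ∑_{1≤i≤q} q/i ≤ C (L + q (1 + log q))`. -/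
def SpecDIR : Prop := ∃ C : ℝ, 0 < C ∧ ∀ (α : ℝ) (a : ℤ) (q A : ℕ) (F : ℕ → ℝ) (L : ℝ), 1 ≤ q →
  IsCoprime a (q : ℤ) → |α - a / q| ≤ 1 / (q : ℝ) ^ 2 → 0 ≤ L →
  (∀ k, 0 ≤ F k ∧ F k ≤ L ∧ F k * nd (α * k) ≤ 1) →
  ∑ k ∈ Icc 1 A, F k ≤ C * ((A : ℝ) / q + 1) * (L + q * (1 + Real.log q))

/-- MIN (350 lines), USES DIR: the minor arcs.
PROOF. `S_j = ∑_{n ∈ Ioc j (j+H)} c(n) e(αn)`, `Σ = ∑_{j<J} |S_j|²`, `Z(n) = ∑_{j < J, j < n ≤ j + H} conj S_j`. `|S_j| ≤ C₁ H`, `|Z| ≤ C₁ H²`,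
`|Z(n+1) - Z(n)| ≤ 2 C₁ H`. `Σ = ∑_j conj S_j ∑_{p,m} b(m) e(αpm) [j < pm ≤ j+H] = ∑_m b(m) ∑_p e(αpm) Z(pm)` (`c(n) = ∑_{p | n} b(n/p)`), and the
number of `m` is `≤ 16N/A`, so `Σ² ≤ C₁² (16N/A) E`, `E = ∑_m |∑_p e(αpm) Z(pm)|² = ∑_{p,p'} ∑_m e(α(p-p')m) Z(pm) conj Z(p'm)`.
`V = W^(1/2)`, `ℓ = ⌊H/(A V)⌋ ≥ 1`. Diagonal `p = p'`: `≤ 2A · (16N/A) C₁² H⁴`. `p ≠ p'`: cut the range of `m` into at most `16N/(Aℓ) + 1` blocks of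
length `ℓ`; in a block `|Z(pm) - Z(pm₀)| ≤ 2A ℓ · 2C₁ H ≤ 4 C₁ H²/V`, so replacing `Z(pm) conj Z(p'm)` by its value at `m₀` costs
`≤ 16 C₁² H⁴/V` per `m`, in total `≤ 4A² (16N/A) 16 C₁² H⁴/V`; and `|∑_{m in block} e(α(p-p')m)| ≤ min (ℓ, 1/nd (α(p-p')))`
(geometric sum), `∑_{p≠p'} ≤ 2 · 2A ∑_{1≤k≤2A} min (ℓ, 1/nd(αk)) ≤ C A (A/q + 1)(ℓ + q (1 + log q))` (DIR). Together, with `Aℓ ≤ H/V`,
`ℓ ≥ H/(2AV)`, `W ≤ q ≤ H/W`, `W ≤ A`, `A² ≤ H ≤ N`: `E ≤ C C₁² N A H⁴ (1/A + 1/V + (1/q + 1/A)(1 + q (1 + log q)/ℓ)) ≤ C C₁² N A H⁴ (1 + log H)/W^(1/2)`. -/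
def SpecMIN : Prop := ∃ C : ℝ, 0 < C ∧ ∀ (N A W C₁ α : ℝ) (H J q : ℕ) (a : ℤ) (b c : ℕ → ℝ), 1 ≤ C₁ →
  2 ≤ W → W ≤ A → A ^ 2 ≤ H → (H : ℝ) ≤ N → (∀ n, |b n| ≤ C₁) → (∀ n, |c n| ≤ C₁) →
  (∀ m, b m ≠ 0 → 1 ≤ m ∧ (m : ℝ) ≤ 16 * N / A) →
  (∀ n, c n = ∑ p ∈ PR A, if p ∣ n then b (n / p) else 0) → 1 ≤ q → IsCoprime a (q : ℤ) →
  |α - a / q| ≤ 1 / (q : ℝ) ^ 2 → W ≤ q → q * W ≤ H →
  ∑ j ∈ range J, ‖∑ n ∈ Ioc j (j + H), (c n : ℂ) * ee (α * n)‖ ^ 2 ≤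
    C * C₁ ^ 2 * N * H ^ 2 * ((1 + Real.log H) / W ^ ((1 : ℝ) / 2)) ^ ((1 : ℝ) / 2)

/-! ## From exponential sums to correlations -/

/-- TWO (200 lines): the fourth moment.
PROOF. Put `C(h) = ∑_n e(n) e(n+h)`, `G(α) = ∑_j |∑_{Ioc j (j+H)} e(n) e(αn)|² = ∑_{n,n'} e(n) e(n') e(α(n-n')) (H - |n-n'|)₊ =
∑_{|h|<H} (H - |h|) C(|h|) e(αh)` (all windows `j ≥ 0`: `e = 0` on `n ≤ H`). `∑_{|h|<H} (H-|h|)² C(|h|)² = ∫_0^1 G² ≤ sup G ∫_0^1 G = sup G · H ∑ e²`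
(finite form: average over `α = b/P`, `b < P`, with a natural number `P ≥ 2H`). For `h ≤ H/2` the weight is `≥ H²/4`. -/
def SpecTWO : Prop := ∀ (e : ℕ → ℝ) (H X : ℕ) (G : ℝ), 1 ≤ H → (∀ n, e n ≠ 0 → H < n ∧ n ≤ X) →
  (∀ α : ℝ, ∑ j ∈ range (X + 1), ‖∑ n ∈ Ioc j (j + H), (e n : ℂ) * ee (α * n)‖ ^ 2 ≤ G) →
  ∑ h ∈ range (H / 2 + 1), (∑ n ∈ range (X + 1), e n * e (n + h)) ^ 2 ≤
    4 * G * (∑ n ∈ range (X + 1), e n ^ 2) / H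

/-- DUA (150 lines): duality.
PROOF. `B(h) = ∑_{n ∈ Ioc N (2N)} g(n) e(n+b+h)`, `S = ∑_h B(h)² = ∑_n g(n) ∑_h B(h) e(n+b+h) ≤ (∑ g²)^(1/2) (∑_{m ≥ 0} (∑_h B(h) e(m+h))²)^(1/2)`
(`m = n + b`; more nonnegative terms, `m ≤ X`), and the last sum is `∑_{h,h'} B(h) B(h') ∑_m e(m+h) e(m+h')`, the inner one is `C(|h-h'|)` (`e = 0` on
`[0, H')`), so it is `≤ ∑ B² · 2 ∑_{j<H'} |C(j)| ≤ 2 S (H' Γ)^(1/2)`. So `S² ≤ N · 2 S (H' Γ)^(1/2)`. -/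
def SpecDUA : Prop := ∀ (e g : ℕ → ℝ) (H X N b : ℕ) (Γ : ℝ), 1 ≤ H → (∀ n, e n ≠ 0 → H < n ∧ n ≤ X) →
  (∀ n, |g n| ≤ 1) → 0 ≤ Γ → ∑ h ∈ range H, (∑ n ∈ range (X + 1), e n * e (n + h)) ^ 2 ≤ Γ →
  ∑ h ∈ range H, (∑ n ∈ Ioc N (2 * N), g n * e (n + b + h)) ^ 2 ≤ 2 * N * √(H * Γ)

/-- TEL (200 lines): telescoping over the members of a pattern.
PROOF. `∏ F_i - ∏ G_i = ∑_j (∏_{i<j} G_i) (F_j - G_j) (∏_{i>j} F_i)`. For fixed `j` and fixed `h_i`, `i ≠ j`, the hypothesis with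
`g(n) = P(n) ∏_{i≠j} (..)(n+h_i)/C₁^k` gives for every block `b + [1, H₀]`: `∑_{h in block} |∑_n g(n) (F_j - G_j)(n+h)| ≤ (H₀ Γ)^(1/2)` (Cauchy-Schwarz), and
`[1, H]` is covered by `≤ 2H/H₀` blocks inside `[0, 2H]`: sum over `h_j`: `≤ 2 H (Γ/H₀)^(1/2)`. -/
def SpecTEL : Prop := ∀ (k : ℕ) (F G : Fin k → ℕ → ℝ) (N H₀ H : ℕ) (C₁ Γ : ℝ), 1 ≤ C₁ → 1 ≤ H₀ → H₀ ≤ H →
  0 ≤ Γ → (∀ i n, |F i n| ≤ C₁) → (∀ i n, |G i n| ≤ C₁) →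
  (∀ (i : Fin k) (g : ℕ → ℝ) (b : ℕ), (∀ n, |g n| ≤ 1) → b ≤ 2 * H →
    ∑ h ∈ range H₀, (∑ n ∈ Ioc N (2 * N), g n * (F i (n + b + h) - G i (n + b + h))) ^ 2 ≤ Γ) →
  ∀ P : ℕ → ℝ, (∀ n, |P n| ≤ 1) →
  ∑ h ∈ Fintype.piFinset (fun _ : Fin k => Icc 1 H),
    |∑ n ∈ Ioc N (2 * N), P n * (∏ i, F i (n + h i) - ∏ i, G i (n + h i))| ≤
      k * C₁ ^ k * (2 * (H : ℝ)) * H ^ (k - 1) * √(Γ / H₀)

end

end Pool.Agent.Lib.MP3efbeb.LG
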