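import Pool.Agent.Lib.MP_3efbeb_nt.LG.SpecA
import Pool.Agent.Lib.MP_391708_nt.QPA.Defs

/-!
# LongPatterns (MP_3efbeb_nt), part B: almost primes, their models, main terms, the theorem

`L = log N`. Scales: `L^c < p ≤ L^(2c)` (the small prime), window length `Hn N c = L^(4c)`, roughness `zz N c = L^(5c)`, middle
primes `q` in `(N^e, N^(2e)]`, further primes in `(N^(e/3), N^(2e/3)]`, one long prime, replaced in the model by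
`w0 = [no prime factor below zz]/(Wp(zz) log k)`.
-/

set_option autoImplicit false

namespace Pool.Agent.Lib.MP3efbeb.LG

open Finset MeasureTheory
open Pool.Agent.Lib.MP391708.QPA (PB rInd Wp Rough)

noncomputable section

/-! ## Inputs -/

/-- PPB (helper53, `Pool/Agent/Lib/VK`): the pointwise bound for sums over primes. -/
def SpecPPB : Prop := ∀ A B C : ℝ, 1 ≤ A → 1 ≤ B → 1 ≤ C → ∃ K X₀ : ℝ, ∀ (P Y : ℝ) (q : ℕ) [NeZero q]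
  (χ : DirichletCharacter ℂ q) (t : ℝ), X₀ ≤ P → P ≤ Y → Y ≤ 2 * P → (q : ℝ) ≤ Real.log P ^ B →
  |t| ≤ P ^ C → (χ ≠ 1 ∨ Real.log P ^ K ≤ |t|) →
  ‖∑ p ∈ (Ioc ⌊P⌋₊ ⌊Y⌋₊).filter Nat.Prime, χ (p : ZMod q) * (p : ℂ) ^ (t * Complex.I)‖ ≤
    P / Real.log P ^ A

/-- PNE: the prime number theorem with a log-power error (from `Pool/Agent/Lib/VK`, helper53). -/
def SpecPNE : Prop := ∀ B : ℕ, ∃ x₀ : ℝ, ∀ x : ℝ, x₀ ≤ x →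
  |(((Icc 1 ⌊x⌋₊).filter Nat.Prime).card : ℝ) - ∫ t in (2 : ℝ)..x, 1 / Real.log t| ≤ x / Real.log x ^ B

/-- BVS: the Bombieri-Vinogradov theorem at a small level. -/
def SpecBVS : Prop := ∃ ε : ℝ, 0 < ε ∧ ∀ B : ℕ, ∃ x₀ : ℝ, ∀ x : ℝ, x₀ ≤ x → ∀ a : ℕ → ℕ,
  (∀ q, (a q).Coprime q) →
  ∑ q ∈ Icc 1 ⌊x ^ ε⌋₊, |(((Icc 1 ⌊x⌋₊).filter (fun p => p.Prime ∧ p ≡ a q [MOD q])).card : ℝ) -
    (((Icc 1 ⌊x⌋₊).filter Nat.Prime).card : ℝ) / q.totient| ≤ x / Real.log x ^ B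

/-! ## Definitions -/

/-- indicator of the primes -/
def pI (n : ℕ) : ℝ := if n.Prime then 1 else 0

/-- the level of roughness -/
def zz (N c : ℝ) : ℝ := Real.log N ^ (5 * c)

/-- the window length -/
def Hn (N c : ℝ) : ℕ := ⌈Real.log N ^ (4 * c)⌉₊

/-- the model of the primes -/
def w0 (N c : ℝ) (k : ℕ) : ℝ := rInd (zz N c) k / (Wp (zz N c) * Real.log k)

/-- the small primes -/
def PPs (N c : ℝ) : Finset ℕ :=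
  (IO (Real.log N ^ c) (2 ^ ⌊Real.logb 2 (Real.log N ^ c)⌋₊ * Real.log N ^ c)).filter Nat.Prime

/-- the middle primes -/
def QQs (N e : ℝ) : Finset ℕ := (IO (N ^ e) (2 ^ ⌊Real.logb 2 (N ^ e)⌋₊ * N ^ e)).filter Nat.Prime

/-- the products of `s` primes of the interval `(N^(e/3), N^(2e/3)]` -/
def DDs (N e : ℝ) (s : ℕ) : Finset ℕ :=
  (Icc 1 ⌊N⌋₊).filter (fun d => d.primeFactorsList.length = s ∧
    ∀ p ∈ d.primeFactorsList, N ^ (e / 3) < p ∧ (p : ℝ) ≤ N ^ (2 * e / 3))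

/-- the sum over the cofactors with a function of the long variable -/
def cof (N c e : ℝ) (r : ℕ) (w : ℕ → ℝ) (n : ℕ) : ℝ :=
  ∑ p ∈ PPs N c, ∑ q ∈ QQs N e, ∑ d ∈ DDs N e (r - 3), if p * q * d ∣ n then w (n / (p * q * d)) else 0

/-- products of exactly `r` primes with prime factors in the prescribed ranges -/
def fr (N c e : ℝ) (r n : ℕ) : ℝ := cof N c e r pI n

/-- the model of `fr` -/
def gr (N c e : ℝ) (r n : ℕ) : ℝ := cof N c e r (w0 N c) n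

/-- a block: `n = p q k`, `p ∈ (A, 2A]`, `q ∈ (B, 2B]` primes, weight `u k` -/
def cb (A B : ℝ) (u : ℕ → ℝ) (n : ℕ) : ℝ :=
  ∑ p ∈ PR A, ∑ q ∈ PR B, if p * q ∣ n then u (n / (p * q)) else 0

/-- the hypotheses on a block -/
structure Blk (N c e A B E : ℝ) (u : ℕ → ℝ) : Prop where
  hA : Real.log N ^ c ≤ A
  hA' : A ≤ Real.log N ^ (2 * c)
  hB : N ^ e ≤ B
  hB' : B ≤ N ^ ((1 : ℝ) / 10)
  bd : ∀ k, |u k| ≤ 1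
  supp : ∀ k, u k ≠ 0 → N / (8 * A * B) < k ∧ (k : ℝ) ≤ 4 * N / (A * B)
  rough : ∀ k, u k ≠ 0 → ∀ p : ℕ, p.Prime → p ∣ k → zz N c ≤ p
  small : ∀ t : ℝ, |t| ≤ Real.log N ^ E →
    ‖DP (SU N A B) (fun k => (u k : ℂ)) t‖ ≤ N / (A * B) / Real.log N ^ E

/-! ## The short interval theorem -/

/-- CBB (200 lines): bounds for a block.
PROOF. If `cb n ≠ 0` then `n = p q k` with `u k ≠ 0`: `N/8 < n ≤ 16 N`, and all prime factors of `n` are `> L^c` (`p > A`, `q > B ≥ N^e`, those of `k`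
`≥ L^(5c)`). `p ≤ 2A ≤ 2L^(2c) < L^(5c) ≤` all other prime factors, so `p` is determined by `n`; `q` is a prime factor `> N^e` of `n ≤ 16N ≤ N^2`: at most `2/e` values.
`C = 2/e`. -/
def SpecCBB : Prop := ∀ e : ℝ, 0 < e → e ≤ 1 / 20 → ∃ C : ℝ, 1 ≤ C ∧ ∀ c : ℝ, 1 ≤ c → ∃ N₀ : ℝ,
  ∀ (N A B E : ℝ) (u : ℕ → ℝ), N₀ ≤ N → Blk N c e A B E u →
  (∀ n, |cb A B u n| ≤ C) ∧ (∀ m, |∑ q ∈ PR B, if q ∣ m then u (m / q) else 0| ≤ C) ∧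
  (∀ n, cb A B u n ≠ 0 → N / 8 < n ∧ (n : ℝ) ≤ 16 * N ∧ ∀ p : ℕ, p.Prime → p ∣ n → Real.log N ^ c < p)

/-- FAC (120 lines): the Dirichlet polynomial of a block is a product. PROOF. Expand; `(p, q, k) ↦ p q k`, all products are in `(N/8, 16N]`. -/
def SpecFAC : Prop := ∀ (N A B : ℝ) (u : ℕ → ℝ) (χ : ℕ → ℂ), 0 < N → 1 ≤ A → 1 ≤ B →
  (∀ k, u k ≠ 0 → N / (8 * A * B) < k ∧ (k : ℝ) ≤ 4 * N / (A * B)) → (∀ m n, χ (m * n) = χ m * χ n) →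
  ∀ t : ℝ, DP (IO (N / 8) (16 * N)) (fun n => (cb A B u n : ℂ) * χ n) t =
    DP (PR A) χ t * DP (PR B) χ t * DP (SU N A B) (fun k => (u k : ℂ) * χ k) t

/-- SIT (300 lines), USES WIN, MID, CBB, FAC, PPB: the short interval theorem.
PROOF. `C₁` of CBB, `D₂ = D + 3`. `K ≥ 0` of PPB for the exponents `D₂ + 1`, `b + 1`, `1/e`; `E = D₂ + K`; `c₀ = max (100 (D + 4)) (b + 1)`
(and `≥ 64`). `η = L^(-(D+2))`. If `y < A L³/η`: the sum is at most `(16N + 1) C₁² y² ≤ N Hn²/L^D` (`Hn² ≥ L^(8c) ≥ A² L^(4c)`). Otherwise WIN for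
`N/8`, `K = 128`, `c n = cb n χ n/C₁`, `T = (N/8) log(N/8)³/(η y) ≤ N/A`: the term `N (η y + 1)²` is fine (`y ≤ Hn`). The integral: FAC, MID with
`D₂`, `E₁ = K`: `C N² (A^(-1/50) + L^(1-2D₂))`, times `C y²/(η N) ≤ C Hn² L^(D+2)/N`. The hypothesis of MID: `|t| ≤ T ≤ N ≤ B^(1/e)`, `log B ≥ e L`,
`q ≤ L^b ≤ (log B)^(b+1)`. If `χ ≠ 1` or `|t| ≥ (log B)^K`: PPB with `P = B`, `Y = 2B` (`nit n t = n^(it)`). Otherwise `|t| ≤ L^K`, `χ = 1`, and `χ k = 1` where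
`u k ≠ 0` (all prime factors of `k` are `≥ L^(5c) > q`), so `small` applies: `≤ N/(AB)/L^E`. -/
def SpecSIT : Prop := ∀ D b e : ℝ, 0 < D → 0 < b → 0 < e → e ≤ 1 / 20 → ∃ E c₀ : ℝ, 0 < E ∧ 1 ≤ c₀ ∧
  ∀ c : ℝ, c₀ ≤ c → ∃ N₀ : ℝ, ∀ (N A B : ℝ) (u : ℕ → ℝ), N₀ ≤ N → Blk N c e A B E u →
  ∀ (q : ℕ) [NeZero q] (χ : DirichletCharacter ℂ q) (y J : ℕ), (q : ℝ) ≤ Real.log N ^ b → y ≤ Hn N c →
  ∑ j ∈ range J, ‖∑ n ∈ Ioc j (j + y), (cb A B u n : ℂ) * χ n‖ ^ 2 ≤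
    N * (Hn N c : ℝ) ^ 2 / Real.log N ^ D

/-- MAJ (150 lines), USES SIT, CHX, BET, CBB: the major arcs.
PROOF. SIT with `D₁ = D + 4b + 2`. BET for every `χ` mod `q` and the sequence `cb n χ n`: `≤ 2 (1 + 40 L^(2b)) N Hn²/L^(D₁)`. CHX for `c n = cb n e(βn)`
(`n` coprime to `q ≤ L^b ≤ L^c`, CBB); Cauchy-Schwarz over the `φ(q) ≤ L^b` characters. -/
def SpecMAJ : Prop := ∀ D b e : ℝ, 0 < D → 0 < b → 0 < e → e ≤ 1 / 20 → ∃ E c₀ : ℝ, 0 < E ∧ 1 ≤ c₀ ∧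
  ∀ c : ℝ, c₀ ≤ c → ∃ N₀ : ℝ, ∀ (N A B : ℝ) (u : ℕ → ℝ), N₀ ≤ N → Blk N c e A B E u →
  ∀ (q J : ℕ) (a : ℤ) (β : ℝ), 1 ≤ q → (q : ℝ) ≤ Real.log N ^ b → |β| * Hn N c ≤ Real.log N ^ b →
  ∑ j ∈ range J, ‖∑ n ∈ Ioc j (j + Hn N c), (cb A B u n : ℂ) * ee (((a : ℝ) / q + β) * n)‖ ^ 2 ≤
    N * (Hn N c : ℝ) ^ 2 / Real.log N ^ D

/-- SUP (200 lines), USES MAJ, MIN, CBB: all frequencies.
PROOF. `b = 8D + 16`, `W = L^b`, `c₀ ≥ b`. Dirichlet (`Real.exists_int_int_abs_mul_sub_le` with `n = ⌊Hn/W⌋`): coprime `a`, `1 ≤ q ≤ Hn/W` with `|α q - a| ≤ W/Hn`.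
`q ≤ W`: MAJ with `β = α - a/q`, `|β| Hn ≤ W`. `q > W`: MIN with `b(m) = ∑_{q' ∈ PR B, q' ∣ m} u(m/q')` (`m ≤ 8N/A`), `c = cb`, `C₁` of CBB, `W ≤ A`,
`A² ≤ L^(4c) ≤ Hn ≤ N`, `|α - a/q| ≤ W/(q Hn) ≤ 1/q²`: `C C₁² N Hn² ((1 + log Hn)/L^(b/2))^(1/2) ≤ N Hn²/L^D`. -/
def SpecSUP : Prop := ∀ D e : ℝ, 0 < D → 0 < e → e ≤ 1 / 20 → ∃ E c₀ : ℝ, 0 < E ∧ 1 ≤ c₀ ∧
  ∀ c : ℝ, c₀ ≤ c → ∃ N₀ : ℝ, ∀ (N A B : ℝ) (u : ℕ → ℝ), N₀ ≤ N → Blk N c e A B E u →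
  ∀ (α : ℝ) (J : ℕ), ∑ j ∈ range J, ‖∑ n ∈ Ioc j (j + Hn N c), (cb A B u n : ℂ) * ee (α * n)‖ ^ 2 ≤
    N * (Hn N c : ℝ) ^ 2 / Real.log N ^ D

/-! ## The long variable -/

/-- RGH (150 lines; imports `MP_391708_nt/QPA/FL.lean`, theorem `specFL`): rough numbers in intervals.
PROOF. FL with `S = IO y y'`, `v = id`, `om = 1`, `g p = 1/p`, `X = y' - y`, `b = ⌈(E + 1) log L⌉ + const`: `C e^(-b) ≤ L^(-E)/2`; each remainder is `≤ 1`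
and `z^(8b+16) = exp (5c log L (8b + 16)) ≤ N^(1/8)` for `N ≥ N₀`; `C (1 + log z) N^(1/8) ≤ N^(1/4)`. -/
def SpecRGH : Prop := ∀ c E : ℝ, 1 ≤ c → 0 ≤ E → ∃ N₀ : ℝ, ∀ N : ℝ, N₀ ≤ N → ∀ y y' : ℝ, 0 ≤ y → y ≤ y' →
  |∑ k ∈ IO y y', rInd (zz N c) k - Wp (zz N c) * (y' - y)| ≤ (y' - y) / Real.log N ^ E + N ^ ((1 : ℝ) / 4)

/-- USM (250 lines), USES RGH, PNE (imports `MP_3efbeb_nt/SV/Sieve.lean`, lemma `prod_ge`, for `Wp z ≥ (4 (1 + log z))^(-16)`):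
primes against the model in intervals.
PROOF. `|pI - w0| ≤ 1 + (4(1 + log z))^16` (`w0 k ≠ 0` only for `k ≥ z`, there `log k ≥ 1`). The part `k ≤ x₁ = y'/L^(E+2)` is fine. For `x₁ < s < s' ≤ y'`: PNE gives
`∑ pI = ∫ dt/log t + O(y' L^(-E-4))`; partial summation with the weight `1/log k` in RGH (exponent `E + 6`) gives `∑ w0 = ∫_s^s' dt/log t + O(y' L^(-E-2))`
(compare `∑_{k ∈ IO x₁ y'} (rInd k - Wp)/log k` by Abel summation, and `∑ 1/log k` with the integral); `N^(1/4) ≤ y' N^(-1/4)`. -/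
def SpecUSM : Prop := ∀ c E : ℝ, 1 ≤ c → 0 ≤ E → ∃ N₀ : ℝ, ∀ N : ℝ, N₀ ≤ N → ∀ y y' : ℝ, 0 ≤ y → y ≤ y' →
  N ^ ((1 : ℝ) / 2) ≤ y' → y' ≤ 4 * N → |∑ k ∈ IO y y', (pI k - w0 N c k)| ≤ y' / Real.log N ^ E

/-- USR (200 lines), USES USM: small frequencies.
PROOF. The polynomial is `∑_{d ∈ DDs} d^(it) ∑_{k' ∈ IO (y/d) (32 y/d)} (pI - w0)(k') k'^(it)`, `y = N/(8AB)`, `y/d ≥ N^(1/2)` (`d ≤ N^(2es/3) ≤ N^(1/6)`). Abel summation with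
USM (exponent `2E + 4`): the inner sum is `≤ C (1 + |t|) (32 y/d)/L^(2E+4)`, and `∑_d 1/d ≤ 1 + L`. -/
def SpecUSR : Prop := ∀ (c e E : ℝ) (s : ℕ), 1 ≤ c → 0 < e → e ≤ 1 / 20 → e * s ≤ 1 / 4 → 0 ≤ E →
  ∃ N₀ : ℝ, ∀ N A B : ℝ, N₀ ≤ N → Real.log N ^ c ≤ A → A ≤ Real.log N ^ (2 * c) → N ^ e ≤ B →
  B ≤ N ^ ((1 : ℝ) / 10) → ∀ t : ℝ, |t| ≤ Real.log N ^ E →
  ‖DP (SU N A B) (fun k => ((∑ d ∈ DDs N e s, if d ∣ k then pI (k / d) - w0 N c (k / d) else 0 : ℝ) : ℂ)) t‖ ≤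
    N / (A * B) / Real.log N ^ E

/-- ADD (300 lines), USES SUP, USR (imports `SV/Sieve.lean` as USM): all blocks together.
PROOF. `C₂ = 2 (6/e)^r ≥ 1` (`k ≤ 4N` has at most `6/e` prime factors `> N^(e/3)`, so at most `(6/e)^(r-3)` divisors in `DDs (r-3)`; `|pI - w0| ≤ 2` at arguments `≥ N^(1/4)`:
`w0 ≤ (4(1+log z))^16/log k`). `A_i = 2^i L^c`, `B_j = 2^j N^e`, `i < a = ⌊logb 2 (L^c)⌋`, `j < b = ⌊logb 2 (N^e)⌋`, `u_ij(k) = C₂⁻¹ ∑_{d ∈ DDs, d ∣ k} (pI - w0)(k/d)` for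
`N/(8AB) < k ≤ 4N/(AB)`, `0` otherwise: `Blk` (rough: the prime factors of `d` are `> N^(e/3) > zz`, `k/d > N^(1/4)` is prime or rough; small: USR). `ε = C₂ ∑_{i,j} cb A_i B_j u_ij`; for
`N/2 < n ≤ 4N` the range condition on `k = n/(pq)` holds automatically, and `PPs`, `QQs` are the disjoint unions of the `PR A_i`, `PR B_j`: `ε n = fr n - gr n`. Cauchy-Schwarz over
`a b ≤ L²` blocks, SUP with `D + 6`. `|ε| ≤ C₁`: as in CBB `p` is determined by `n` and there are at most `2/e` primes `q`, so at most `2/e` blocks contribute. -/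
def SpecADD : Prop := ∀ (D e : ℝ) (r : ℕ), 0 < D → 0 < e → e ≤ 1 / 20 → 3 ≤ r → e * r ≤ 1 / 4 →
  ∃ C₁ c₀ : ℝ, 1 ≤ C₁ ∧ 1 ≤ c₀ ∧ ∀ c : ℝ, c₀ ≤ c → ∃ N₀ : ℝ, ∀ N : ℝ, N₀ ≤ N → ∃ ε : ℕ → ℝ,
  (∀ n : ℕ, N / 2 < n → (n : ℝ) ≤ 4 * N → ε n = fr N c e r n - gr N c e r n) ∧
  (∀ n, ε n ≠ 0 → N / 8 < n ∧ (n : ℝ) ≤ 16 * N) ∧ (∀ n, |ε n| ≤ C₁) ∧
  ∀ (α : ℝ) (J : ℕ), ∑ j ∈ range J, ‖∑ n ∈ Ioc j (j + Hn N c), (ε n : ℂ) * ee (α * n)‖ ^ 2 ≤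
    N * (Hn N c : ℝ) ^ 2 / Real.log N ^ D

/-- COR (150 lines), USES ADD, TWO, DUA: correlations with bounded functions.
PROOF. ADD with `2D + 4`. TWO with `H = Hn`, `X = 16N`: `∑_{h ≤ Hn/2} C(h)² ≤ 4 (N Hn²/L^(2D+4)) (17 C₁² N)/Hn =: Γ`. DUA with `H = Hn/2`: `≤ 2N √(Hn Γ) ≤ C C₁ N² Hn/L^(D+2)`. The arguments
`n + b + h` are in `(N/2, 4N]`. -/
def SpecCOR : Prop := ∀ (D e : ℝ) (r : ℕ), 0 < D → 0 < e → e ≤ 1 / 20 → 3 ≤ r → e * r ≤ 1 / 4 →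
  ∃ c₀ : ℝ, 1 ≤ c₀ ∧ ∀ c : ℝ, c₀ ≤ c → ∃ N₀ : ℕ, ∀ N : ℕ, N₀ ≤ N → ∀ (g : ℕ → ℝ) (b : ℕ),
  (∀ n, |g n| ≤ 1) → b ≤ N →
  ∑ h ∈ range (Hn N c / 2), (∑ n ∈ Ioc N (2 * N), g n * (fr N c e r (n + b + h) - gr N c e r (n + b + h))) ^ 2 ≤
    (N : ℝ) ^ 2 * Hn N c / Real.log N ^ D

/-- FRB (200 lines; imports `SV/Sieve.lean` as USM): bounds for `fr`, `gr`.
PROOF. As in CBB and ADD: for `n ≤ 4N`, `n > N/2`, a representation `n = p q d k` with `k` prime or rough, `k ≥ N^(1/4)`: `p` is the only prime factor of `n` below `zz`, `q` one of `≤ 2/e` primes,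
`d` one of `≤ (6/e)^r` divisors; `w0 k ≤ 1`. If `fr n ≠ 0` then `n = p q d k` with four factors of `Ω = 1, 1, r - 3, 1`. -/
def SpecFRB : Prop := ∀ (e : ℝ) (r : ℕ), 0 < e → e ≤ 1 / 20 → 3 ≤ r → e * r ≤ 1 / 4 → ∃ C₁ : ℝ, 1 ≤ C₁ ∧
  ∀ c : ℝ, 1 ≤ c → ∃ N₀ : ℝ, ∀ (N : ℝ) (n : ℕ), N₀ ≤ N → N / 2 < n → (n : ℝ) ≤ 4 * N →
  0 ≤ fr N c e r n ∧ fr N c e r n ≤ C₁ ∧ 0 ≤ gr N c e r n ∧ gr N c e r n ≤ C₁ ∧
  (fr N c e r n ≠ 0 → n.primeFactorsList.length = r)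

/-- AVG (150 lines), USES COR, TEL, FRB: patterns on average.
PROOF. `F i n = fr .. (r i) n` for `N < n ≤ 4N`, `0` otherwise, `G` likewise, `C₁` the maximum of the constants of FRB. COR with `D = 2A + 4` for every `i`; TEL with `H₀ = Hn/2`,
`Γ = N² Hn/L^D`, `b ≤ 2H ≤ N`; `√(Γ/H₀) ≤ 2 N/L^(A+2)`, `k C₁^k 4 ≤ L`. -/
def SpecAVG : Prop := ∀ (k : ℕ) (r : Fin k → ℕ) (A e : ℝ), 1 ≤ k → 0 < A → 0 < e → e ≤ 1 / 20 →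
  (∀ i, 3 ≤ r i ∧ e * r i ≤ 1 / 4) → ∃ c₀ : ℝ, 1 ≤ c₀ ∧ ∀ c : ℝ, c₀ ≤ c → ∃ N₀ : ℕ, ∀ N H : ℕ, N₀ ≤ N →
  Hn N c ≤ H → 2 * H ≤ N → ∀ P : ℕ → ℝ, (∀ n, |P n| ≤ 1) →
  ∑ h ∈ Fintype.piFinset (fun _ : Fin k => Icc 1 H), |∑ n ∈ Ioc N (2 * N), P n *
    (∏ i, fr N c e (r i) (n + h i) - ∏ i, gr N c e (r i) (n + h i))| ≤
    N * (H : ℝ) ^ k / Real.log N ^ A

/-! ## The main term -/

/-- `{0, h_1, .., h_k}` is admissible -/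
def Adm {k : ℕ} (h : Fin k → ℕ) : Prop := ∀ l : ℕ, l.Prime → ∃ a : ℕ, ¬ l ∣ a * ∏ i, (a + h i)

/-- the product of the differences of `0, h_1, .., h_k` -/
def dl {k : ℕ} (h : Fin k → ℕ) : ℕ :=
  (∏ i, h i) * ∏ i, ∏ j ∈ univ.filter (fun j => i < j), ((h i : ℤ) - h j).natAbs

/-- the density of `l ∣ ∏ (n + h_i)` among the primes `n` -/
def gd {k : ℕ} (h : Fin k → ℕ) (l : ℕ) : ℝ :=
  (((univ.image (fun i => h i % l)).erase 0).card : ℝ) / ((l : ℝ) - 1)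

/-- the cofactors `p q d` -/
def mm (N c e : ℝ) (r : ℕ) : Finset ℕ :=
  ((PPs N c ×ˢ QQs N e) ×ˢ DDs N e (r - 3)).image (fun t => t.1.1 * t.1.2 * t.2)

/-- the error function bounds the errors in the prime number theorem for progressions at `N` and `2N` -/
def IsEm (N : ℕ) (Em : ℕ → ℝ) : Prop := ∀ X Q a : ℕ, (X = N ∨ X = 2 * N) → 1 ≤ Q → a.Coprime Q →
  |(((Icc 1 X).filter (fun p => p.Prime ∧ p ≡ a [MOD Q])).card : ℝ) -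
    (((Icc 1 X).filter Nat.Prime).card : ℝ) / Q.totient| ≤ Em Q

/-- COF (300 lines; imports `QPA/..` `specPNT`, or Chebyshev's bounds of Mathlib): the cofactors.
PROOF. The prime factors of `p`, `q`, `d` lie in the disjoint intervals `(L^c, L^(2c)]`, `(N^e, N^(2e)]`, `(N^(e/3), N^(2e/3)]`, so `(p, q, d) ↦ p q d` is injective and `gr n` is the sum over `mm`.
`m ≤ L^(2c) N^(2e) N^(2e(r-3)/3) ≤ N^(er)`. For `x ≥ x₀` and `Y ≥ x^(3/2)`, `Y ≤ x²`: `c₁ ≤ ∑_{x<p≤Y} 1/p ≤ C₁` (dyadic intervals and `c X/log X ≤ π(2X) - π(X) ≤ C X/log X`); here `2^⌊logb 2 x⌋ x ≥ x²/2 ≥ x^(3/2)`.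
`∑_{d ∈ DDs s} 1/d` is between `(∑ 1/p)^s/s!` and `(∑ 1/p)^s` (`p` in `(N^(e/3), N^(2e/3)]`; the product of `s` such primes is in `DDs s` as it is `≤ N`). Multiples of a prime `l`: `m/l` runs through products of
the same type with one factor less (`p = l`, or `q = l`, or `d = l d'`, `d' ∈ DDs (s-1)`). `Cst ≥ (r + 1) C₁^r`. -/
def SpecCOF : Prop := ∀ r : ℕ, 3 ≤ r → ∃ cst Cst : ℝ, 0 < cst ∧ 1 ≤ Cst ∧ ∀ e c : ℝ, 0 < e → e ≤ 1 / 20 →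
  e * r ≤ 1 / 4 → 1 ≤ c → ∃ N₀ : ℝ, ∀ N : ℝ, N₀ ≤ N →
  (∀ m ∈ mm N c e r, 1 ≤ m ∧ (m : ℝ) ≤ N ^ (e * r) ∧ m.primeFactorsList.length = r - 1 ∧
    ∀ p : ℕ, p.Prime → p ∣ m → Real.log N ^ c < p) ∧
  cst ≤ ∑ m ∈ mm N c e r, 1 / (m : ℝ) ∧ ∑ m ∈ mm N c e r, 1 / (m : ℝ) ≤ Cst ∧
  (∀ l : ℕ, l.Prime → ∑ m ∈ (mm N c e r).filter (fun m => l ∣ m), 1 / (m : ℝ) ≤ Cst / l) ∧
  ∀ n : ℕ, gr N c e r n = ∑ m ∈ mm N c e r, if m ∣ n then w0 N c (n / m) else 0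

/-- CPT (200 lines): coprime tuples.
PROOF. All tuples: `∏ ∑ 1/m ≥ cst^k`. A tuple which is not good has `l ∣ Δ`, `l ∣ m_i`, or `l ∣ m_i, m_j` (`i ≠ j`) for a prime `l > y`: at most `k Cst^k ∑_{l ∣ Δ, l > y} 1/l ≤ k Cst^k logb 2 Δ/y` and
`k² Cst^k ∑_{l > y} 1/l² ≤ 2 k² Cst^k/y`. -/
def SpecCPT : Prop := ∀ (k : ℕ) (M : Fin k → Finset ℕ) (cst Cst y : ℝ) (Δ : ℕ), 0 < cst → 1 ≤ Cst → 1 ≤ y →
  1 ≤ Δ → (∀ i, ∀ m ∈ M i, 1 ≤ m ∧ ∀ p : ℕ, p.Prime → p ∣ m → y < p) →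
  (∀ i, cst ≤ ∑ m ∈ M i, 1 / (m : ℝ)) → (∀ i, ∑ m ∈ M i, 1 / (m : ℝ) ≤ Cst) →
  (∀ i, ∀ l : ℕ, l.Prime → ∑ m ∈ (M i).filter (fun m => l ∣ m), 1 / (m : ℝ) ≤ Cst / l) →
  cst ^ k - (k : ℝ) ^ 2 * Cst ^ k * (2 + Real.logb 2 Δ) / y ≤
    ∑ m ∈ (Fintype.piFinset M).filter (fun m => (∀ i j, i ≠ j → (m i).Coprime (m j)) ∧
      ∀ i, (m i).Coprime Δ), ∏ i, 1 / (m i : ℝ)

open scoped Classical in
/-- SLB (300 lines; imports `MP_3efbeb_nt/SV/Sieve.lean`, theorem `flk`): the sieve for one tuple of cofactors.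
PROOF. `flk` for `2k`, `T` = the primes `n ∈ (N, 2N]` with `m_i ∣ n + h_i` for all `i`, `om = 1`, `X = #primes/φ(∏ m)`, `g l = gd h l` if `l ∤ ∏ m`, `0` otherwise (`Dens (2k)`: `gd ≤ k/(l-1) ≤ 2k/l`; by `Adm`
`gd ≤ (l-2)/(l-1)`), `v n` = the product of the primes `l < z`, `l ∤ ∏ m`, `l ∣ ∏ (n + h_i)`. Let `δ` be squarefree with prime factors `< z`. If `δ` and `∏ m` are not coprime, both terms are 0. Otherwise `δ ∣ v n` means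
`n = -h_i` mod `l` for some `i`, for every `l ∣ δ`; the class 0 is impossible (`n ≥ N ≥ z` prime), so there are `∏_{l ∣ δ} card ((image).erase 0) ≤ k^ω(δ)` classes modulo `δ`, and one class modulo `∏ m`
(CRT; `-h_i` is coprime to `m_i` as `h_i ∣ dl h`): the error is `≤ k^ω(δ) · 2 Em(δ ∏ m)`. -/
def SpecSLB : Prop := ∀ k : ℕ, 1 ≤ k → ∃ b : ℕ, ∀ (N : ℕ) (z : ℝ) (h m : Fin k → ℕ) (Em : ℕ → ℝ), 2 ≤ z →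
  z ≤ N → (∀ i, 1 ≤ h i) → Adm h → (∀ i, 1 ≤ m i) → (∀ i j, i ≠ j → (m i).Coprime (m j)) →
  (∀ i, (m i).Coprime (dl h)) → IsEm N Em →
  1 / 2 * ((((Ioc N (2 * N)).filter Nat.Prime).card : ℝ) / (∏ i, m i).totient) * ∏ l ∈ PB z, (1 - gd h l) -
    4 * (1 + Real.log z) * ∑ δ ∈ (Icc 1 ⌊z ^ b⌋₊).filter (fun δ => Squarefree δ ∧ δ.Coprime (∏ i, m i)),
      (k : ℝ) ^ δ.primeFactors.card * Em (δ * ∏ i, m i) ≤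
    (((Ioc N (2 * N)).filter (fun n : ℕ => n.Prime ∧ ∀ i, m i ∣ n + h i ∧
      ∀ l : ℕ, l.Prime → (l : ℝ) < z → ¬ l ∣ (∏ i, m i) → ¬ l ∣ n + h i)).card : ℝ)

/-- SSL (150 lines): the singular series is bounded below.
PROOF. `1 - gd = (1 - ν/l)/(1 - 1/l)` with `ν ≤ k + 1` the number of classes of `0, -h_1, .., -h_k`. For `l > 4 (k+1)^2`: `≥ (1 - (k+1)/l)/(1 - 1/l) ≥ (1 - 1/l)^k (1 - C/l²)`, `∏ (1 - C/l²) ≥ 1/2` beyond a constant;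
for the boundedly many other `l`: `1 - gd ≥ 1/l` (Adm). -/
def SpecSSL : Prop := ∀ k : ℕ, 1 ≤ k → ∃ cst : ℝ, 0 < cst ∧ ∀ (h : Fin k → ℕ) (z : ℝ), 2 ≤ z → Adm h →
  cst * Wp z ^ k ≤ ∏ l ∈ PB z, (1 - gd h l)

/-- BVC (250 lines), USES BVS: the weighted form.
PROOF. `Em Q` = the maximum of the left side over `X ∈ {N, 2N}`, `a < Q` coprime to `Q` (and `a ≡ a'` mod `Q` gives the same value). BVS at `x = N` and `x = 2N` with the maximising `a`: `∑_{Q ≤ N^ε} Em Q ≤ 4N/L^(B')`.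
Trivially `Em Q ≤ 2N/Q + 1 + 2N/φ(Q) ≤ C N L/Q` (`Q ≤ N`; `φ(Q) ≥ Q/(C L)`, or `≥ Q/(1 + log₂ Q)`), and `∑_{Q ≤ N} K^(2ω(Q))/Q ≤ ∏_{p ≤ N} (1 + K²/(p-1)) ≤ exp (K² ∑_{n ≤ N} 2/n)`.. this is too large: use
`∏_{p ≤ N} (1 + K²/(p-1)) ≤ exp (2K² ∑_{p ≤ N} 1/p) ≤ (C L)^(C K²)` (`∑_{p ≤ N} 1/p ≤ 2 log log N + C`, Chebyshev). Cauchy-Schwarz. -/
def SpecBVC : Prop := ∃ ε : ℝ, 0 < ε ∧ ∀ K B : ℕ, ∃ N₀ : ℕ, ∀ N : ℕ, N₀ ≤ N → ∃ Em : ℕ → ℝ, IsEm N Em ∧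
  ∑ Q ∈ Icc 1 ⌊(N : ℝ) ^ ε⌋₊, (K : ℝ) ^ Q.primeFactors.card * Em Q ≤ N / Real.log N ^ B

/-- MTM (300 lines), USES COF, CPT, SLB, SSL, BVC (imports `QPA` `specPNT` for `π(2N) - π(N) ≥ N/(2L)`, `SV/Sieve.lean` for `Wp ≥ ..`): the main term.
PROOF. `e₀ k max r ≤ ε/2`. By COF `∑_n pI n ∏ gr = ∑_{m ∈ ∏ mm} ∑_{n prime, m_i ∣ n + h_i} ∏ w0((n+h_i)/m_i)`, all terms `≥ 0`; keep the good tuples of CPT (`Δ = dl h`, `y = L^c`; `logb 2 Δ ≤ (k + k²) 2L`, so the sum of `∏ 1/m_i`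
over them is `≥ cst^k/2`). For a good tuple and `n` in the set of SLB (`z = zz N c`): `(n+h_i)/m_i` has no prime factor `l < z` with `l ∤ ∏ m`, none with `l ∣ m_j`, `j ≠ i` (`l ∣ h_i - h_j`), and if none with `l ∣ m_i` then
`w0 = 1/(Wp log ..) ≥ 1/(2 L Wp)`. The `n` with `l m_i ∣ n + h_i` for some prime `l ∣ m_i` (`l > L^c`, at most `r` such `l`): at most `N/(l ∏ m) + 1` each, in total over all `m`: `≤ C N/L^c + N^(1/2)`, times `(2 L Wp)^(-k) ≤ 1`: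
negligible against `N/L^(k+1)` as `c ≥ k + 4`. Main term of SLB: `(1/2) (N/(2L)) ∑_good ∏ 1/m_i · cst_SSL Wp^k (2 L Wp)^(-k) ≥ c N/L^(k+1)` (`φ(∏ m) ≤ ∏ m_i`). Remainders: `Q = δ ∏ m ≤ z^b N^(ε/2) ≤ N^ε`, every `Q` has at most
`(k+1)^ω(Q)` representations (the parts are pairwise coprime), so they are at most `4 (1 + log z) ∑_Q (k (k+1))^ω(Q) Em Q ≤ N/L^(k+2)` (BVC). -/
def SpecMTM : Prop := ∀ (k : ℕ) (r : Fin k → ℕ), 1 ≤ k → (∀ i, 3 ≤ r i) → ∃ e₀ cst : ℝ, 0 < e₀ ∧ e₀ ≤ 1 / 20 ∧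
  (∀ i, e₀ * r i ≤ 1 / 4) ∧ 0 < cst ∧ ∀ e c : ℝ, 0 < e → e ≤ e₀ → (k : ℝ) + 4 ≤ c → ∃ N₀ : ℕ,
  ∀ (N : ℕ) (h : Fin k → ℕ), N₀ ≤ N → (∀ i, 1 ≤ h i ∧ h i ≤ N) → dl h ≠ 0 → Adm h →
  cst * N / Real.log N ^ (k + 1) ≤ ∑ n ∈ Ioc N (2 * N), pI n * ∏ i, gr N c e (r i) (n + h i)

/-- the primes `n ≤ N` such that every `n + h_i` has exactly `r_i` prime factors -/
def LPset {k : ℕ} (r h : Fin k → ℕ) (N : ℕ) : Finset ℕ :=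
  (Icc 1 N).filter (fun n : ℕ => n.Prime ∧ ∀ i, (n + h i).primeFactorsList.length = r i)

open scoped Classical in
/-- FIN (300 lines), USES AVG, MTM, FRB: the theorem.
PROOF. `e = e₀` of MTM, `A₁ = A + k + 6`, `c₁` = the maximum of `c₀` of AVG (exponent `A₁`) and `k + 4`; `c = min (1/(8 c₁)) (..)`. Let `N' = 2^j ≥ H³/8`, `log (2N') ≤ H^(1/(4c₁))/2`: `Hn N' c₁ ≤ H`, `2H ≤ N'`. AVG with `P = pI`: at most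
`H^k L^(-A₁) L^(k+1) (2/cst)` of the `h` have `∑_n pI n ∏ fr < (cst/2) N'/L^(k+1)` although `Adm h`, `dl h ≠ 0` (MTM). Sum over `j` (`L = j log 2 ≥ 2 log H`): `≤ C H^k (log H)^(k+2-A₁)`. The `h` with `dl h = 0`
(two equal): `≤ k² H^(k-1)`. For all other admissible `h` and `H³ ≤ N`, take `2^(j+1) ≤ N < 2^(j+2)`: `LPset N` contains the `n ∈ (2^j, 2^(j+1)]` with `∏ fr ≠ 0`, and `∏ fr ≤ C₁^k` (FRB). -/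
def SpecFIN : Prop := ∀ (k : ℕ) (r : Fin k → ℕ) (A : ℝ), 1 ≤ k → (∀ i, 3 ≤ r i) → 0 < A →
  ∃ (c : ℝ) (H₀ : ℕ), 0 < c ∧ ∀ H : ℕ, H₀ ≤ H →
  ((((Fintype.piFinset (fun _ : Fin k => Icc 1 H)).filter (fun h => Adm h ∧ ∃ N : ℕ, H ^ 3 ≤ N ∧
    (N : ℝ) ≤ Real.exp ((H : ℝ) ^ c) ∧ ((LPset r h N).card : ℝ) < c * N / Real.log N ^ (k + 1))).card : ℕ) : ℝ) ≤
    (H : ℝ) ^ k / Real.log H ^ A

end

end Pool.Agent.Lib.MP3efbeb.LG
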