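import Pool.Agent.Lib.MP_3efbeb_nt.LG.SpecB

/-!
# LongPatterns (MP_3efbeb_nt), part C: version 2, every `r_i ≥ 2`

The middle prime of version 1 is replaced by Vaughan's identity for the long prime on the exceptional set of frequencies.
Blocks have two factors `n = p u`, `p ∈ (A, 2A]`. The long prime is weighted by `log k/(2L)`, its model is `w1 = rInd/(2 L Wp)`.
Files `LG/XXX.lean`, import `LG.SpecC`, the same conventions as in parts A and B. Most modules are short adaptations of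
modules of parts A, B (named in the docstrings). `χ` is a character mod `q ≤ L^b`.
-/

set_option autoImplicit false

namespace Pool.Agent.Lib.MP3efbeb.LG

open Finset MeasureTheory
open ArithmeticFunction (vonMangoldt moebius)
open Pool.Agent.Lib.MP391708.QPA (PB rInd Wp Rough)

noncomputable section

/-- PNL: Chebyshev's function with a log-power error. (30 lines; imports `VK.Spec`: `theorem specPNL (h : Pool.Agent.Lib.VK.SpecPNP) : SpecPNL`,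
copy of `LP2/PNE.lean`.) -/
def SpecPNL : Prop := ∀ B : ℕ, ∃ x₀ : ℝ, ∀ x : ℝ, x₀ ≤ x →
  |∑ p ∈ (Icc 1 ⌊x⌋₊).filter Nat.Prime, Real.log p - x| ≤ x / Real.log x ^ B

/-! ## Sums of `n^(it)` with power saving -/

/-- ZSK (300 lines; imports `MP_391708_nt/MR/VDC.lean`, theorem `specVDC`): sums of `(n + α)^(it)`, `|t| ≤ x^B`.
PROOF. `|t| ≤ x^(1/2)`: on `[n, n+1]` the function `u^(it)` varies by `≤ |t|/n`, so the difference is `≤ C (1 + |t|)`. `x^(1/2) < |t| ≤ x^B`: the integral is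
`≤ 128 x/|t| ≤ 128 x^(1/2)`. Choose `j ≥ 2`, `j ≤ B + 2`, with `x^(j-3/2) < |t| ≤ x^(j-1/2)`; split `(x, x']` into `≤ 8` dyadic pieces `(x₁, 2x₁]`; `specVDC` with `q = j`,
`F(u) = (t/2π) log (x₂ + α + u)`, `x₂ = ⌊x₁⌋ + 1`, `0 ≤ u ≤ len ≤ x₁ + 1`, `|F^(j)| = (|t|/2π) (j-1)!/(x₂ + α + u)^j` of constant sign, `lb ≍ |t|/x^j ∈ [c x^(-3/2), C x^(-1/2)]`, `R ≤ C_B`:
`len lb^(1/(2^j-2)) + len^(1 - 4/2^j) lb^(-1/(2^j-2)) ≤ C (x^(1 - 1/(2(2^j-2))) + x^(1 - 4/2^j + 3/(2(2^j-2))))`, and `4/2^j - 3/(2 (2^j - 2)) > 0` for `j ≥ 2`.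
(`F` must be smooth on `ℝ`: compose `log` with `φ(u) = w + (x₂ + α + u - w) s(u)`, `w = x₂/4`, `s(u) = Real.smoothTransition ((4u + 2x₂)/x₂)`: `φ > 0`, `φ(u) = x₂ + α + u` for
`u ≥ -x₂/4`; derivatives at `u ≥ 0` by `Filter.EventuallyEq.iteratedDeriv_eq`.) -/
def SpecZSK : Prop := ∀ B : ℕ, 1 ≤ B → ∃ c C : ℝ, 0 < c ∧ c ≤ 1 / 2 ∧ 0 < C ∧ ∀ x x' α t : ℝ, 1 ≤ x → x ≤ x' → x' ≤ 64 * x →
  0 ≤ α → α ≤ 1 → |t| ≤ x ^ B →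
  ‖∑ n ∈ IO x x', Complex.exp ((t * Real.log (n + α) : ℝ) * Complex.I) -
    ∫ u in x..x', Complex.exp ((t * Real.log u : ℝ) * Complex.I)‖ ≤ C * x ^ (1 - c)

/-- ZSC (200 lines), USES ZSK: the same with a character.
PROOF. `n = q m + a`, `1 ≤ a ≤ q`: `∑_a χ(a) q^(it) ∑_{m} (m + a/q)^(it)`, `m` in `(x/q - a/q, x'/q - a/q]`, which differs from `IO (x/q) (x'/q)` by `≤ 4` terms (for `q ≤ x^(1/2)`;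
otherwise the bound is trivial): `q^(it) ∫_{x/q}^{x'/q} u^(it) du = (1/q) ∫_x^x' u^(it) du` for every `a` up to `C (x/q)^(1-c)`, `|t| ≤ x^B ≤ (x/q)^(2B)`. Sum: `(1/q) ∑_a χ(a) ∫`, which is
`0` for `χ ≠ 1`; `|∫_x^x' u^(it) du| ≤ 200 x/(1 + |t|)`. -/
def SpecZSC : Prop := ∀ B : ℕ, 1 ≤ B → ∃ c C : ℝ, 0 < c ∧ c ≤ 1 / 2 ∧ 0 < C ∧ ∀ (x x' t : ℝ) (q : ℕ) [NeZero q]
  (χ : DirichletCharacter ℂ q), 1 ≤ x → x ≤ x' → x' ≤ 64 * x → |t| ≤ x ^ B →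
  ‖DP (IO x x') (fun n => χ n) t‖ ≤ C * q ^ 2 * x ^ (1 - c) ∧ χ ≠ 1 ∨
  ‖DP (IO x x') (fun n => χ n) t‖ ≤ C * q ^ 2 * (x / (1 + |t|) + x ^ (1 - c)) ∧ χ = 1

/-- LVQ (250 lines), USES MVT: the measure of the large values (adapt `LG/LVP.lean`).
PROOF. As LVP with `1 - η/16` for `99/100`: `vol ≤ 2 C (4l)^l (T A³)^(η/8) ≤ N^η`: `(T A³)^(η/8) ≤ N^(η/2)`, `l ≤ L/(c log L) + 3`, `c ≥ 8/η`: `l log (4l) ≤ ηL/8 + 3 log L`. -/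
def SpecLVQ : Prop := ∀ η : ℝ, 0 < η → η ≤ 1 → ∃ N₀ : ℝ, ∀ (N c A T : ℝ) (b : ℕ → ℂ), N₀ ≤ N → 8 / η ≤ c →
  Real.log N ^ c ≤ A → A ≤ N → 1 ≤ T → T ≤ N → (∀ p, ‖b p‖ ≤ 1) →
  volume {t : ℝ | t ∈ Set.Icc (-T) T ∧ A ^ (1 - η / 16) ≤ ‖DP (PR A) b t‖} ≤ ENNReal.ofReal (N ^ η)

/-- HMJ (150 lines), USES HMI, ZSK: Halász-Montgomery on a small set of frequencies.
PROOF. HMI for `IO x (64x)` and `a` extended by zero. ZSK with `B = 9`, `α = 0`: for `|τ| ≤ 2N ≤ x^9` `|DP (IO x 64x) 1 τ| ≤ 200 x/(1+|τ|) + C x^(1-c)`; `∫_E ≤ C x L + N^η₀ C x^(1-c) ≤ C x L` with `η₀ = c/8`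
(`x ≥ N^(1/8)`). -/
def SpecHMJ : Prop := ∃ η₀ C N₀ : ℝ, 0 < η₀ ∧ η₀ ≤ 1 / 16 ∧ 0 < C ∧ ∀ (N x : ℝ) (S : Finset ℕ) (a : ℕ → ℂ) (E : Set ℝ),
  N₀ ≤ N → N ^ ((1 : ℝ) / 8) ≤ x → x ≤ 64 * N → S ⊆ IO x (64 * x) → MeasurableSet E → E ⊆ Set.Icc (-N) N →
  volume E ≤ ENNReal.ofReal (N ^ η₀) →
  ∫ t in E, ‖DP S a t‖ ^ 2 ≤ C * x * Real.log N * ∑ n ∈ S, ‖a n‖ ^ 2

/-- DIV (120 lines): moments of the divisor function.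
PROOF. Induction on `j`: `∑_{n ≤ X} τ(n)^(j+1) = ∑_{d ≤ X} ∑_{m ≤ X/d} τ(dm)^j ≤ ∑_d τ(d)^j ∑_{m ≤ X/d} τ(m)^j ≤ ∑_d τ(d)^j (X/d) (1 + log X)^(2^j - 1)` (`τ(dm) ≤ τ(d) τ(m)`), and
`∑_{d ≤ X} τ(d)^j/d ≤ (1 + log X)^(2^j)` (the same induction for the sums with `1/n`). -/
def SpecDIV : Prop := ∀ j X : ℕ, 1 ≤ X →
  ∑ n ∈ Icc 1 X, (n.divisors.card : ℝ) ^ j ≤ X * (1 + Real.log X) ^ (2 ^ j - 1) ∧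
  ∑ n ∈ Icc 1 X, (n.divisors.card : ℝ) ^ j / n ≤ (1 + Real.log X) ^ (2 ^ j)

/-! ## Vaughan's identity -/

/-- the first sum of Vaughan's identity -/
def va1 (V k : ℕ) : ℝ := ∑ b ∈ k.divisors.filter (fun b => b ≤ V), (moebius b : ℝ) * Real.log (k / b)

/-- the coefficients of the second sum -/
def vaa (V m : ℕ) : ℝ := ∑ b ∈ m.divisors.filter (fun b => b ≤ V ∧ m / b ≤ V), (moebius b : ℝ) * vonMangoldt (m / b)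

/-- the second sum -/
def va2 (V k : ℕ) : ℝ := ∑ m ∈ k.divisors, vaa V m

/-- the coefficients of the third sum -/
def vab (V m : ℕ) : ℝ := ∑ b ∈ m.divisors.filter (fun b => V < b), (moebius b : ℝ)

/-- the third sum -/
def va3 (V k : ℕ) : ℝ := ∑ c ∈ k.divisors.filter (fun c => V < c), vonMangoldt c * vab V (k / c)

/-- VAU (120 lines): Vaughan's identity, and bounds for the coefficients.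
PROOF. `∑_{b > V} ∑_{c > V, bc ∣ k} μ(b) Λ(c) = ∑_{b > V, b ∣ k} μ(b) (log (k/b) - ∑_{c ≤ V, c ∣ k/b} Λ(c))`; `∑_{b ∣ k} μ(b) log (k/b) = Λ(k)` and `∑_{bc ∣ k, c ≤ V} μ(b) Λ(c) = ∑_{c ≤ V, c ∣ k} Λ(c) [k = c] = 0` for
`k > V`. `|vaa| ≤ ∑_{c ∣ m} Λ(c) = log m`, it vanishes for `m > V²`; `|vab m| ≤ τ(m)`, it vanishes for `m ≤ V`. -/
def SpecVAU : Prop := ∀ V k m : ℕ, (V < k → vonMangoldt k = va1 V k - va2 V k + va3 V k) ∧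
  |vaa V m| ≤ Real.log m ∧ (V ^ 2 < m → vaa V m = 0) ∧ |vab V m| ≤ m.divisors.card ∧ (m ≤ V → vab V m = 0)

/-- PPL (150 lines), USES PPB: the pointwise bound with weights `Λ`.
PROOF. `K`, PPB with `A + 2`, `b + 1`, `C = 8` at `P = s` (`log s ≥ L/8`, `|t| ≤ N ≤ s^8`, `L^K ≥ (log s)^K'`, `K = K' + 1`), partial summation with the weight `log`; prime powers `p^j ∈ (s, 2s]`, `j ≥ 2`: at most `C √s log s` numbers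
with `Λ ≤ log (2s)`. -/
def SpecPPL : Prop := ∀ A b : ℝ, 1 ≤ A → 1 ≤ b → ∃ K N₀ : ℝ, 1 ≤ K ∧ ∀ (N s s' t : ℝ) (q : ℕ) [NeZero q]
  (χ : DirichletCharacter ℂ q), N₀ ≤ N → N ^ ((1 : ℝ) / 8) ≤ s → s ≤ 64 * N → s ≤ s' → s' ≤ 2 * s → (q : ℝ) ≤ Real.log N ^ b →
  |t| ≤ N → (χ ≠ 1 ∨ Real.log N ^ K ≤ |t|) →
  ‖DP (IO s s') (fun n => (vonMangoldt n : ℂ) * χ n) t‖ ≤ s / Real.log N ^ A

/-- the frequencies are admissible for `χ`: nonprincipal, or not small -/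
def Away (N K : ℝ) {q : ℕ} (χ : DirichletCharacter ℂ q) (E : Set ℝ) : Prop := χ ≠ 1 ∨ ∀ t ∈ E, Real.log N ^ K ≤ |t|

/-- TYI (200 lines), USES ZSC: Type I sums on a small set.
PROOF. `k = m n`: the polynomial is `∑_{m ≤ N^(1/4)} a(m) χ(m) m^(it) ∑_{n ∈ IO (y/m) (32 y/m)} ψ(n) χ(n) n^(it)`; for `ψ = 1` by ZSC with `B = 4` (`|t| ≤ N ≤ (y/m)^4`), for `ψ = log` by Abel summation from the subintervals: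
`≤ C L q² ((y/m)/(1+|t|) [χ = 1] + (y/m)^(1-c))`, `y/m ≥ N^(1/4)`. Sum over `m`: `≤ C L^(2b+4) (y/(1+|t|) [χ = 1] + y N^(-c/4))`. Square and integrate: `∫_{|t| ≥ L^K} (1+|t|)^(-2) ≤ 2 L^(-K)`, `N^η N^(-c/2)`, `η = c/4`. -/
def SpecTYI : Prop := ∃ η : ℝ, 0 < η ∧ ∀ D b : ℝ, 0 < D → 0 < b → ∃ K N₀ : ℝ, 1 ≤ K ∧ ∀ (N y : ℝ) (q : ℕ) [NeZero q]
  (χ : DirichletCharacter ℂ q) (E : Set ℝ) (a : ℕ → ℝ) (ψ : ℕ → ℝ), N₀ ≤ N → N ^ ((1 : ℝ) / 2) ≤ y → y ≤ N →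
  (q : ℝ) ≤ Real.log N ^ b → MeasurableSet E → E ⊆ Set.Icc (-N) N → volume E ≤ ENNReal.ofReal (N ^ η) → Away N K χ E →
  (∀ m, |a m| ≤ 2 * Real.log N) → (∀ m, a m ≠ 0 → (m : ℝ) ≤ N ^ ((1 : ℝ) / 4)) →
  ((∀ n, ψ n = 1) ∨ (∀ n, ψ n = Real.log n)) →
  ∫ t in E, ‖DP (IO y (32 * y)) (fun k => ((∑ m ∈ k.divisors, a m * ψ (k / m) : ℝ) : ℂ) * χ k) t‖ ^ 2 ≤
    y ^ 2 / Real.log N ^ D

/-- TYJ (350 lines), USES PPL, HMJ, DIV: Type II sums on a small set.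
PROOF. `V = ⌊N^(1/8)⌋`, `κ = L^(-F)`, `F` large. Cut `c ∈ (V, 32y/V]` into `≤ L^(F+2)` intervals `(s, s(1+κ)]`. In each replace the condition `cm ∈ (y, 32y]` by `m ∈ (y/s, 32y/s]`. The error is a polynomial with coefficients
`|err(k)| ≤ ∑_{cm=k} Λ(c) τ(m) ≤ 2 L τ(k)²` supported on `k ∈ (y, (1+κ)y] ∪ (32y, 32(1+κ)y]` (split it in two for HMJ): `∑ |err|² ≤ 4L² ∑ τ(k)^4 ≤ 4L² (C κ y)^(1/2) (∑_{k ≤ 64y} τ^8)^(1/2) ≤ y L^(260 - F/2)` (DIV); HMJ: `≤ C y L · y L^(260-F/2)`. Main part: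
by Cauchy-Schwarz over the intervals it suffices to bound `∫_E |A_s|² |B_s|²` with `A_s = DP (IO s (s(1+κ))) (Λ χ)`, `|A_s| ≤ s/L^A` (PPL), `B_s = DP (IO (y/s) (32y/s)) (vab V · χ)`, `∫_E |B_s|² ≤ C (y/s) L ∑ τ² ≤ C (y/s)² L^6` (HMJ, DIV; only `m > V`, so `y/s ≥ V/32`; if
`y/s < N^(1/8)` use HMJ for the part `m > V` of the interval with `x = V`..: take `x = max (y/s) N^(1/8)`). Total `≤ L^(2F+4) y² L^(6-2A)`; choose `A` after `F`. `η = η₀`. -/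
def SpecTYJ : Prop := ∃ η : ℝ, 0 < η ∧ ∀ D b : ℝ, 0 < D → 0 < b → ∃ K N₀ : ℝ, 1 ≤ K ∧ ∀ (N y : ℝ) (q : ℕ) [NeZero q]
  (χ : DirichletCharacter ℂ q) (E : Set ℝ), N₀ ≤ N → N ^ ((1 : ℝ) / 2) ≤ y → y ≤ N →
  (q : ℝ) ≤ Real.log N ^ b → MeasurableSet E → E ⊆ Set.Icc (-N) N → volume E ≤ ENNReal.ofReal (N ^ η) → Away N K χ E →
  ∫ t in E, ‖DP (IO y (32 * y)) (fun k => (va3 (⌊N ^ ((1 : ℝ) / 8)⌋₊ + 1) k : ℂ) * χ k) t‖ ^ 2 ≤ y ^ 2 / Real.log N ^ D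

/-- the long prime with weight `log k/(2L)` -/
def pL (N : ℝ) (k : ℕ) : ℝ := if k.Prime then Real.log k / (2 * Real.log N) else 0

/-- its model -/
def w1 (N c : ℝ) (k : ℕ) : ℝ := rInd (zz N c) k / (2 * Real.log N * Wp (zz N c))

/-- PRV (150 lines), USES VAU, TYI, TYJ: primes on a small set.
PROOF. `V = ⌊N^(1/8)⌋ + 1`, `V² ≤ N^(1/4) · const`.. (take `V² ≤ 4 N^(1/4)`; apply TYI with `N' = 2^16 N` if needed, or note `a m ≠ 0 → m ≤ N^(1/4)` may be replaced: use TYI for `N₁ = 256 N`, `E ⊆ [-N₁, N₁]`, `y ≥ N^(1/2) ≥ ..`). `2L pL = Λ - (prime powers)`; the prime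
powers `p^j ≤ 32y`, `j ≥ 2`: at most `C √y L` numbers, `∫_E ≤ N^η C y L^4 ≤ y²/L^(D+2)`. `Λ = va1 - va2 + va3` (VAU), TYI for `a = μ` on `b ≤ V`, `ψ = log` and for `a = vaa V`, `ψ = 1`, TYJ for `va3`; `η` = the minimum of theirs and `1/16`, `K` the maximum. -/
def SpecPRV : Prop := ∃ η : ℝ, 0 < η ∧ ∀ D b : ℝ, 0 < D → 0 < b → ∃ K N₀ : ℝ, 1 ≤ K ∧ ∀ (N y : ℝ) (q : ℕ) [NeZero q]
  (χ : DirichletCharacter ℂ q) (E : Set ℝ), N₀ ≤ N → N ^ ((3 : ℝ) / 5) ≤ y → y ≤ N →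
  (q : ℝ) ≤ Real.log N ^ b → MeasurableSet E → E ⊆ Set.Icc (-N) N → volume E ≤ ENNReal.ofReal (N ^ η) → Away N K χ E →
  ∫ t in E, ‖DP (IO y (32 * y)) (fun k => (pL N k : ℂ) * χ k) t‖ ^ 2 ≤ y ^ 2 / Real.log N ^ D

/-- WPO (300 lines), USES ZSC, HMJ (imports `QPA/FLP.lean`, theorem `specFLP`; `SV/Sieve.lean`, lemma `prod_ge`): the model on a small set.
PROOF. `specFLP` with `κ₀ = 1`, `z = zz N c`, `b' = ⌈F log L⌉`: `up(k) = ∑_{δ ∈ Dset, δ ∣ k} cp δ`, `0 ≤ up - rInd ≤ ∑_{δ ∣ k} ce δ` (`a p = [p ∣ k]`), `δ ≤ z^(8b'+16)`-type bound `≤ N^(1/8)`. The polynomial of `up χ` is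
`∑_δ cp δ χ(δ) δ^(it) DP (IO (y/δ) (32y/δ)) χ`: as in TYI (`a = cp`, bounded by 1): `≤ C L^(2b+1) (y/(1+|t|) [χ = 1] + y N^(-c'/4))`. The error `err = up - rInd`: `∑_{k ≤ 32y} err ≤ C e^(-b') y + C (1 + log z) N^(1/8) ≤ y L^(-F+1)` (the last clause of FLP with
`g p = 1/p`), `|err(k)| ≤ 1 + τ(k)`, so `∑ err² ≤ (∑ err)^(1/2) (∑ err³)^(1/2) ≤ y L^(-F/2 + 5)` (DIV-type bound for `∑ τ³ ≤ X (1 + log X)^7`); HMJ: `∫_E |DP (err χ)|² ≤ C y L y L^(5-F/2)`. `w1 = rInd/(2 L Wp)`, `Wp ≥ (4(1+log z))^(-16)`. -/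
def SpecWPO : Prop := ∃ η : ℝ, 0 < η ∧ ∀ D b c : ℝ, 0 < D → 0 < b → 1 ≤ c → ∃ K N₀ : ℝ, 1 ≤ K ∧ ∀ (N y : ℝ) (q : ℕ) [NeZero q]
  (χ : DirichletCharacter ℂ q) (E : Set ℝ), N₀ ≤ N → N ^ ((3 : ℝ) / 5) ≤ y → y ≤ N →
  (q : ℝ) ≤ Real.log N ^ b → MeasurableSet E → E ⊆ Set.Icc (-N) N → volume E ≤ ENNReal.ofReal (N ^ η) → Away N K χ E →
  ∫ t in E, ‖DP (IO y (32 * y)) (fun k => (w1 N c k : ℂ) * χ k) t‖ ^ 2 ≤ y ^ 2 / Real.log N ^ D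

/-- US2 (150 lines), USES RGH, PNL: small frequencies (adapt `LG/USM.lean`, `LG/USR.lean`; no weight `1/log k`).
PROOF. `∑_{IO y y'} pL = (θ(y') - θ(y))/(2L)`, `∑ w1 = ∑ rInd/(2 L Wp) = (y' - y)/(2L) + O(..)` (RGH with `E + 2`, `Wp ≥ (4(1+log z))^(-16)`); subtract: `≤ y'/L^(2E+4)` for `y' ≥ N^(1/2)`. Abel summation with `k^(it)`. -/
def SpecUS2 : Prop := ∀ c E : ℝ, 1 ≤ c → 0 ≤ E → ∃ N₀ : ℝ, ∀ N : ℝ, N₀ ≤ N → ∀ y t : ℝ, N ^ ((1 : ℝ) / 2) ≤ y → y ≤ N →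
  |t| ≤ Real.log N ^ E → ‖DP (IO y (32 * y)) (fun k => ((pL N k - w1 N c k : ℝ) : ℂ)) t‖ ≤ y / Real.log N ^ E

/-- U0B (120 lines), USES PRV, WPO, US2: the difference on any small set.
PROOF. `E₁ = E ∩ {|t| ≥ L^K}` (all of `E` if `χ ≠ 1`): PRV, WPO with `D + 3`, `‖a - b‖² ≤ 2‖a‖² + 2‖b‖²`. If `χ = 1`: on `|t| < L^K`: `χ k = 1` where `pL k ≠ 0` (a prime `> y > q`) or `w1 k ≠ 0` (all prime factors `≥ zz ≥ L^(5c) > L^b ≥ q`; this needs `b ≤ c`), so US2 with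
`E = K + D + 1`: `∫ ≤ 2 L^K y²/L^(2K+2D+2)`. -/
def SpecU0B : Prop := ∃ η : ℝ, 0 < η ∧ η ≤ 1 / 16 ∧ ∀ D b c : ℝ, 0 < D → 0 < b → 1 ≤ c → b ≤ c → ∃ N₀ : ℝ, ∀ (N y : ℝ) (q : ℕ) [NeZero q]
  (χ : DirichletCharacter ℂ q) (E : Set ℝ), N₀ ≤ N → N ^ ((3 : ℝ) / 5) ≤ y → y ≤ N →
  (q : ℝ) ≤ Real.log N ^ b → MeasurableSet E → E ⊆ Set.Icc (-N) N → volume E ≤ ENNReal.ofReal (N ^ η) →
  ∫ t in E, ‖DP (IO y (32 * y)) (fun k => ((pL N k - w1 N c k : ℝ) : ℂ) * χ k) t‖ ^ 2 ≤ y ^ 2 / Real.log N ^ D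

/-! ## Two factor blocks -/

/-- the range of the long variable -/
def SV (N A : ℝ) : Finset ℕ := IO (N / (8 * A)) (4 * N / A)

/-- the products of `s` primes of `(N^e, N^(2e)]` -/
def DE (N e : ℝ) (s : ℕ) : Finset ℕ :=
  (Icc 1 ⌊N⌋₊).filter (fun d => d.primeFactorsList.length = s ∧
    ∀ p ∈ d.primeFactorsList, N ^ e < p ∧ (p : ℝ) ≤ N ^ (2 * e))

/-- the sum over the cofactors `p d` -/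
def co2 (N c e : ℝ) (r : ℕ) (w : ℕ → ℝ) (n : ℕ) : ℝ :=
  ∑ p ∈ PPs N c, ∑ d ∈ DE N e (r - 2), if p * d ∣ n then w (n / (p * d)) else 0

/-- products of exactly `r ≥ 2` primes -/
def f2 (N c e : ℝ) (r n : ℕ) : ℝ := co2 N c e r (pL N) n

/-- the model of `f2` -/
def g2 (N c e : ℝ) (r n : ℕ) : ℝ := co2 N c e r (w1 N c) n

/-- a block `n = p k`, `p ∈ (A, 2A]` prime, weight `u k` -/
def cd (A : ℝ) (u : ℕ → ℝ) (n : ℕ) : ℝ := ∑ p ∈ PR A, if p ∣ n then u (n / p) else 0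

/-- the hypotheses on a block -/
structure Bk2 (N c A b η D : ℝ) (u : ℕ → ℝ) : Prop where
  hA : Real.log N ^ c ≤ A
  hA' : A ≤ Real.log N ^ (2 * c)
  bd : ∀ k, |u k| ≤ 1
  supp : ∀ k, u k ≠ 0 → N / (8 * A) < k ∧ (k : ℝ) ≤ 4 * N / A
  rough : ∀ k, u k ≠ 0 → ∀ p : ℕ, p.Prime → p ∣ k → zz N c ≤ p
  hE : ∀ (q : ℕ) [NeZero q] (χ : DirichletCharacter ℂ q) (E : Set ℝ), (q : ℝ) ≤ Real.log N ^ b → MeasurableSet E →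
    E ⊆ Set.Icc (-N) N → volume E ≤ ENNReal.ofReal (N ^ η) →
    ∫ t in E, ‖DP (SV N A) (fun k => (u k : ℂ) * χ k) t‖ ^ 2 ≤ (N / A) ^ 2 / Real.log N ^ D

/-- CB2 (120 lines): bounds for a block (adapt `LG/CBB.lean`; `p` is determined by `n`, so `|cd| ≤ 1`). -/
def SpecCB2 : Prop := ∀ c : ℝ, 1 ≤ c → ∃ N₀ : ℝ, ∀ (N A b η D : ℝ) (u : ℕ → ℝ), N₀ ≤ N → Bk2 N c A b η D u →
  (∀ n, |cd A u n| ≤ 1) ∧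
  (∀ n, cd A u n ≠ 0 → N / 8 < n ∧ (n : ℝ) ≤ 8 * N ∧ ∀ p : ℕ, p.Prime → p ∣ n → Real.log N ^ c < p)

/-- FA2 (80 lines): the Dirichlet polynomial of a block is a product (adapt `LG/FAC.lean`). -/
def SpecFA2 : Prop := ∀ (N A : ℝ) (u : ℕ → ℝ) (χ : ℕ → ℂ), 0 < N → 1 ≤ A →
  (∀ k, u k ≠ 0 → N / (8 * A) < k ∧ (k : ℝ) ≤ 4 * N / A) → (∀ m n, χ (m * n) = χ m * χ n) →
  ∀ t : ℝ, DP (IO (N / 8) (8 * N)) (fun n => (cd A u n : ℂ) * χ n) t =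
    DP (PR A) χ t * DP (SV N A) (fun k => (u k : ℂ) * χ k) t

/-- SI2 (250 lines), USES WIN, MVT, LVQ, CB2, FA2: the short interval theorem (adapt `LG/SIT.lean`).
PROOF. `D' = 2D + 6`, `w = L^(-(D+2))` in the role of the `η` of WIN, `K = 64`, `N/8`; trivial if `y < A L³/w`. `T ≤ N/A`, `E = {|t| ≤ T, |DP (PR A) χ| ≥ A^(1-η/16)}`, `vol E ≤ N^η` (LVQ; `c ≥ 8/η`). Outside `E`: `A^(2-η/8) · C (T + 4N/A) (4N/A) ≤ C N² A^(-η/8)` (MVT);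
on `E`: `(2A)² (N/A)²/L^(D')` (`hE`). Times `C y²/(w N)`: `≤ C Hn² N L^(D+2) (L^(-cη/8) + L^(-D'))`; `c₀ ≥ 8 (2D + 4)/η`, `8/η`, `2D + 6`. -/
def SpecSI2 : Prop := ∀ η D b : ℝ, 0 < η → η ≤ 1 → 0 < D → 0 < b → ∃ D' c₀ : ℝ, 0 < D' ∧ 1 ≤ c₀ ∧
  ∀ c : ℝ, c₀ ≤ c → ∃ N₀ : ℝ, ∀ (N A : ℝ) (u : ℕ → ℝ), N₀ ≤ N → Bk2 N c A b η D' u →
  ∀ (q : ℕ) [NeZero q] (χ : DirichletCharacter ℂ q) (y J : ℕ), (q : ℝ) ≤ Real.log N ^ b → y ≤ Hn N c →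
  ∑ j ∈ range J, ‖∑ n ∈ Ioc j (j + y), (cd A u n : ℂ) * χ n‖ ^ 2 ≤ N * (Hn N c : ℝ) ^ 2 / Real.log N ^ D

/-- MA2 (120 lines), USES SI2, CHX, BET, CB2: the major arcs (adapt `LG/MAJ.lean`; `c₀ ≥ b`). -/
def SpecMA2 : Prop := ∀ η D b : ℝ, 0 < η → η ≤ 1 → 0 < D → 0 < b → ∃ D' c₀ : ℝ, 0 < D' ∧ 1 ≤ c₀ ∧ b ≤ c₀ ∧
  ∀ c : ℝ, c₀ ≤ c → ∃ N₀ : ℝ, ∀ (N A : ℝ) (u : ℕ → ℝ), N₀ ≤ N → Bk2 N c A b η D' u →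
  ∀ (q J : ℕ) (a : ℤ) (β : ℝ), 1 ≤ q → (q : ℝ) ≤ Real.log N ^ b → |β| * Hn N c ≤ Real.log N ^ b →
  ∑ j ∈ range J, ‖∑ n ∈ Ioc j (j + Hn N c), (cd A u n : ℂ) * ee (((a : ℝ) / q + β) * n)‖ ^ 2 ≤
    N * (Hn N c : ℝ) ^ 2 / Real.log N ^ D

/-- SU2 (150 lines), USES MA2, MIN, CB2: all frequencies (adapt `LG/SUP.lean`; MIN with `b = u`, `c = cd`, `C₁ = 1`; here `b = 8D + 16` is part of the block). -/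
def SpecSU2 : Prop := ∀ η D : ℝ, 0 < η → η ≤ 1 → 0 < D → ∃ D' c₀ : ℝ, 0 < D' ∧ 8 * D + 16 ≤ c₀ ∧
  ∀ c : ℝ, c₀ ≤ c → ∃ N₀ : ℝ, ∀ (N A : ℝ) (u : ℕ → ℝ), N₀ ≤ N → Bk2 N c A (8 * D + 16) η D' u →
  ∀ (α : ℝ) (J : ℕ), ∑ j ∈ range J, ‖∑ n ∈ Ioc j (j + Hn N c), (cd A u n : ℂ) * ee (α * n)‖ ^ 2 ≤
    N * (Hn N c : ℝ) ^ 2 / Real.log N ^ D

/-- UE2 (150 lines), USES U0B: the sum over the divisors `d`.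
PROOF. `DP (SV N A) (∑_{d ∣ k} (pL - w1)(k/d) χ(k)) = ∑_{d ∈ DE} χ(d) d^(it) DP (IO y_d (32 y_d)) ((pL - w1) χ)`, `y_d = N/(8Ad) ≥ N^(3/5)` (`d ≤ N^(2es) ≤ N^(1/4)`). Minkowski in `L²(E)` (or Cauchy-Schwarz with weights `1/d`: `‖∑ v_d‖² ≤ (∑ 1/d) ∑ d ‖v_d‖²`), `∑ 1/d ≤ 1 + L`, U0B with
`D + 3`. -/
def SpecUE2 : Prop := ∃ η : ℝ, 0 < η ∧ η ≤ 1 / 16 ∧ ∀ (D b c e : ℝ) (s : ℕ), 0 < D → 0 < b → 1 ≤ c → b ≤ c → 0 < e →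
  e * s ≤ 1 / 8 → ∃ N₀ : ℝ, ∀ (N A : ℝ) (q : ℕ) [NeZero q] (χ : DirichletCharacter ℂ q) (E : Set ℝ), N₀ ≤ N →
  Real.log N ^ c ≤ A → A ≤ Real.log N ^ (2 * c) →
  (q : ℝ) ≤ Real.log N ^ b → MeasurableSet E → E ⊆ Set.Icc (-N) N → volume E ≤ ENNReal.ofReal (N ^ η) →
  ∫ t in E, ‖DP (SV N A) (fun k => ((∑ d ∈ DE N e s, if d ∣ k then pL N (k / d) - w1 N c (k / d) else 0 : ℝ) : ℂ) * χ k) t‖ ^ 2 ≤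
    (N / A) ^ 2 / Real.log N ^ D

/-- AD2 (250 lines), USES SU2, UE2: all blocks together (adapt `LG/ADD.lean`).
PROOF. As ADD with the blocks `A_i` only: `u_i(k) = C₂⁻¹ ∑_{d ∈ DE (r-2), d ∣ k} (pL - w1)(k/d)` on `N/(8A) < k ≤ 4N/A`, `C₂ = 2 (2/e)^r + 1`; for `N/2 < n ≤ 4N`, `p ∈ (A, 2A]`: `n/p ∈ (N/(4A), 4N/A]`. `hE` from UE2. At most one block contributes to a given `n`: `|ε| ≤ C₂`. -/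
def SpecAD2 : Prop := ∀ (D e : ℝ) (r : ℕ), 0 < D → 0 < e → 2 ≤ r → e * r ≤ 1 / 8 →
  ∃ C₁ c₀ : ℝ, 1 ≤ C₁ ∧ 1 ≤ c₀ ∧ ∀ c : ℝ, c₀ ≤ c → ∃ N₀ : ℝ, ∀ N : ℝ, N₀ ≤ N → ∃ ε : ℕ → ℝ,
  (∀ n : ℕ, N / 2 < n → (n : ℝ) ≤ 4 * N → ε n = f2 N c e r n - g2 N c e r n) ∧
  (∀ n, ε n ≠ 0 → N / 8 < n ∧ (n : ℝ) ≤ 16 * N) ∧ (∀ n, |ε n| ≤ C₁) ∧
  ∀ (α : ℝ) (J : ℕ), ∑ j ∈ range J, ‖∑ n ∈ Ioc j (j + Hn N c), (ε n : ℂ) * ee (α * n)‖ ^ 2 ≤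
    N * (Hn N c : ℝ) ^ 2 / Real.log N ^ D

/-- CO2 (100 lines), USES AD2, TWO, DUA (adapt `LG/COR.lean`). -/
def SpecCO2 : Prop := ∀ (D e : ℝ) (r : ℕ), 0 < D → 0 < e → 2 ≤ r → e * r ≤ 1 / 8 →
  ∃ c₀ : ℝ, 1 ≤ c₀ ∧ ∀ c : ℝ, c₀ ≤ c → ∃ N₀ : ℕ, ∀ N : ℕ, N₀ ≤ N → ∀ (g : ℕ → ℝ) (b : ℕ),
  (∀ n, |g n| ≤ 1) → b ≤ N →
  ∑ h ∈ range (Hn N c / 2), (∑ n ∈ Ioc N (2 * N), g n * (f2 N c e r (n + b + h) - g2 N c e r (n + b + h))) ^ 2 ≤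
    (N : ℝ) ^ 2 * Hn N c / Real.log N ^ D

/-- FR2 (150 lines): bounds for `f2`, `g2` (adapt `LG/FRB.lean`; `pL ≤ 1`, `w1 ≤ 1`). -/
def SpecFR2 : Prop := ∀ (e : ℝ) (r : ℕ), 0 < e → 2 ≤ r → e * r ≤ 1 / 8 → ∃ C₁ : ℝ, 1 ≤ C₁ ∧
  ∀ c : ℝ, 1 ≤ c → ∃ N₀ : ℝ, ∀ (N : ℝ) (n : ℕ), N₀ ≤ N → N / 2 < n → (n : ℝ) ≤ 4 * N →
  0 ≤ f2 N c e r n ∧ f2 N c e r n ≤ C₁ ∧ 0 ≤ g2 N c e r n ∧ g2 N c e r n ≤ C₁ ∧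
  (f2 N c e r n ≠ 0 → n.primeFactorsList.length = r)

/-- AV2 (120 lines), USES CO2, TEL, FR2 (adapt `LG/AVG.lean`). -/
def SpecAV2 : Prop := ∀ (k : ℕ) (r : Fin k → ℕ) (A e : ℝ), 1 ≤ k → 0 < A → 0 < e →
  (∀ i, 2 ≤ r i ∧ e * r i ≤ 1 / 8) → ∃ c₀ : ℝ, 1 ≤ c₀ ∧ ∀ c : ℝ, c₀ ≤ c → ∃ N₀ : ℕ, ∀ N H : ℕ, N₀ ≤ N →
  Hn N c ≤ H → 2 * H ≤ N → ∀ P : ℕ → ℝ, (∀ n, |P n| ≤ 1) →
  ∑ h ∈ Fintype.piFinset (fun _ : Fin k => Icc 1 H), |∑ n ∈ Ioc N (2 * N), P n *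
    (∏ i, f2 N c e (r i) (n + h i) - ∏ i, g2 N c e (r i) (n + h i))| ≤
    N * (H : ℝ) ^ k / Real.log N ^ A

/-- the cofactors `p d` -/
def m2 (N c e : ℝ) (r : ℕ) : Finset ℕ := (PPs N c ×ˢ DE N e (r - 2)).image (fun t => t.1 * t.2)

/-- CF2 (200 lines): the cofactors (adapt `LG/COF.lean`; `m ≤ L^(2c) N^(2e(r-2)) ≤ N^(2er)`). -/
def SpecCF2 : Prop := ∀ r : ℕ, 2 ≤ r → ∃ cst Cst : ℝ, 0 < cst ∧ 1 ≤ Cst ∧ ∀ e c : ℝ, 0 < e →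
  e * r ≤ 1 / 8 → 1 ≤ c → ∃ N₀ : ℝ, ∀ N : ℝ, N₀ ≤ N →
  (∀ m ∈ m2 N c e r, 1 ≤ m ∧ (m : ℝ) ≤ N ^ (2 * e * r) ∧ m.primeFactorsList.length = r - 1 ∧
    ∀ p : ℕ, p.Prime → p ∣ m → Real.log N ^ c < p) ∧
  cst ≤ ∑ m ∈ m2 N c e r, 1 / (m : ℝ) ∧ ∑ m ∈ m2 N c e r, 1 / (m : ℝ) ≤ Cst ∧
  (∀ l : ℕ, l.Prime → ∑ m ∈ (m2 N c e r).filter (fun m => l ∣ m), 1 / (m : ℝ) ≤ Cst / l) ∧
  ∀ n : ℕ, g2 N c e r n = ∑ m ∈ m2 N c e r, if m ∣ n then w1 N c (n / m) else 0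

/-- MT2 (250 lines), USES CF2, CPT, SLB, SSL, BVC: the main term (adapt `LG/MTM.lean`; `w1 = 1/(2 L Wp)` on rough numbers; `e₀ · 2 k max r ≤ ε/2`). -/
def SpecMT2 : Prop := ∀ (k : ℕ) (r : Fin k → ℕ), 1 ≤ k → (∀ i, 2 ≤ r i) → ∃ e₀ cst : ℝ, 0 < e₀ ∧
  (∀ i, e₀ * r i ≤ 1 / 8) ∧ 0 < cst ∧ ∀ e c : ℝ, 0 < e → e ≤ e₀ → (k : ℝ) + 4 ≤ c → ∃ N₀ : ℕ,
  ∀ (N : ℕ) (h : Fin k → ℕ), N₀ ≤ N → (∀ i, 1 ≤ h i ∧ h i ≤ N) → dl h ≠ 0 → Adm h →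
  cst * N / Real.log N ^ (k + 1) ≤ ∑ n ∈ Ioc N (2 * N), pI n * ∏ i, g2 N c e (r i) (n + h i)

open scoped Classical in
/-- FI2 (250 lines), USES AV2, MT2, FR2: the theorem, version 2 (adapt `LG/FIN.lean`). -/
def SpecFI2 : Prop := ∀ (k : ℕ) (r : Fin k → ℕ) (A : ℝ), 1 ≤ k → (∀ i, 2 ≤ r i) → 0 < A →
  ∃ (c : ℝ) (H₀ : ℕ), 0 < c ∧ ∀ H : ℕ, H₀ ≤ H →
  ((((Fintype.piFinset (fun _ : Fin k => Icc 1 H)).filter (fun h => Adm h ∧ ∃ N : ℕ, H ^ 3 ≤ N ∧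
    (N : ℝ) ≤ Real.exp ((H : ℝ) ^ c) ∧ ((LPset r h N).card : ℝ) < c * N / Real.log N ^ (k + 1))).card : ℕ) : ℝ) ≤
    (H : ℝ) ^ k / Real.log H ^ A

end

end Pool.Agent.Lib.MP3efbeb.LG
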