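import Pool.Agent.Lib.MP_3efbeb_nt.LG.SpecC

/-!
# LongPatterns (MP_3efbeb_nt), part D: version 3, a fixed part of the pattern

Version 2 with, in addition, FIXED shifts `F_1, .., F_f` (for instance `2, 6, 8`): `n` prime, every `n + h_i` a product of exactly
`r_i ≥ 2` primes, and every `n + F_j` without prime factors below `N^c`, for almost all `h` and ALL `N ≤ exp (H^c)`, in the expected
number `≫ N/(log N)^(k+f+1)`. Only the main term changes: AV2 holds for every bounded `P`. Version 2 is `f = 0`. Files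
`LG/XXX.lean`, import `LG.SpecD`, the same conventions as in parts A, B, C.
-/

set_option autoImplicit false

namespace Pool.Agent.Lib.MP3efbeb.LG

open Finset MeasureTheory
open Pool.Agent.Lib.MP391708.QPA (PB rInd Wp Rough)

noncomputable section

/-- the sieving product: all shifts below `z`, the fixed shifts between `z` and `y` -/
def vp {k f : ℕ} (h : Fin k → ℕ) (F : Fin f → ℕ) (z y : ℝ) : ℝ :=
  (∏ l ∈ PB z, (1 - gd (Fin.append h F) l)) * ∏ l ∈ (PB y).filter (fun l : ℕ => z ≤ (l : ℝ)), (1 - gd F l)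

open scoped Classical in
/-- SL3 (300 lines; adapt `LG/SLB.lean`; imports `MP_3efbeb_nt/SV/Sieve.lean`, theorem `flk`): the sieve for one tuple of cofactors.
PROOF. `flk` for `2(k+f)` and the sieving limit `y`, `T` = the primes `n ∈ (N, 2N]` with `m_i ∣ n + h_i` for all `i`, `om = 1`, `X = #primes/φ(∏ m)`;
`g l = gd (append h F) l` for `l < z`, `gd F l` for `z ≤ l < y`, and `0` if `l ∣ ∏ m` (`Dens (2(k+f))`: `gd ≤ (k+f)/(l-1) ≤ 2(k+f)/l`; by `Adm`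
`gd ≤ (l-2)/(l-1)`; `Adm (append h F)` gives `Adm F`), `v n` = the product of the primes `l < y`, `l ∤ ∏ m`, such that `l ∣ n + h_i` for some `i` or
`l ∣ n + F_j` for some `j` (if `l < z`), `l ∣ n + F_j` for some `j` (if `z ≤ l`). The remainders as in SLB (class 0 impossible: `n > N ≥ y`): `≤ (k+f)^ω(δ) · 2 Em(δ ∏ m)`.
`1 - g l ≥ 1 - gd l ≥ 0`. For the last line of the conclusion with `l ∣ ∏ m`: `l ∣ m_i`, so `l ∣ n + h_i`, and `l ∣ n + F_j` would give `l ∣ h_i - F_j`, a divisor of `dl`,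
but `m_i` is coprime to `dl` (`dl ≠ 0` is not needed: if `h_i = F_j` then `dl = 0`, `m_i = 1`). -/
def SpecSL3 : Prop := ∀ k f : ℕ, 1 ≤ k → ∃ b : ℕ, ∀ (N : ℕ) (z y : ℝ) (h m : Fin k → ℕ) (F : Fin f → ℕ) (Em : ℕ → ℝ),
  2 ≤ z → z ≤ y → y ≤ N → (∀ i, 1 ≤ h i) → (∀ j, 1 ≤ F j) → Adm (Fin.append h F) → (∀ i, 1 ≤ m i) →
  (∀ i j, i ≠ j → (m i).Coprime (m j)) → (∀ i, (m i).Coprime (dl (Fin.append h F))) → IsEm N Em →
  1 / 2 * ((((Ioc N (2 * N)).filter Nat.Prime).card : ℝ) / (∏ i, m i).totient) * vp h F z y -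
    4 * (1 + Real.log y) * ∑ δ ∈ (Icc 1 ⌊y ^ b⌋₊).filter (fun δ => Squarefree δ ∧ δ.Coprime (∏ i, m i)),
      ((k : ℝ) + f) ^ δ.primeFactors.card * Em (δ * ∏ i, m i) ≤
    (((Ioc N (2 * N)).filter (fun n : ℕ => n.Prime ∧ (∀ i, m i ∣ n + h i ∧
      ∀ l : ℕ, l.Prime → (l : ℝ) < z → ¬ l ∣ (∏ i, m i) → ¬ l ∣ n + h i) ∧
      ∀ j, ∀ l : ℕ, l.Prime → (l : ℝ) < y → ¬ l ∣ n + F j)).card : ℝ)

/-- SS3 (180 lines; adapt `LG/SSL.lean`): the sieving product is bounded below.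
PROOF. `1 - gd l = (1 - ν/l)/(1 - 1/l)`, `ν` the number of classes of `0` and the shifts. For `l > 4 (k+f+1)²`: `1 - gd (append h F) l ≥ (1 - 1/l)^(k+f) (1 - C/l²)` and
`1 - gd F l ≥ (1 - 1/l)^f (1 - C/l²)`; for the boundedly many other `l` both are `≥ 1/l` (`Adm (append h F)` gives `Adm F`). `∏ (1 - C/l²)` over the large `l` is `≥ c`. And
`∏_{l<z} (1-1/l)^(k+f) ∏_{z≤l<y} (1-1/l)^f = Wp z ^ k · Wp y ^ f`. -/
def SpecSS3 : Prop := ∀ k f : ℕ, 1 ≤ k → ∃ cst : ℝ, 0 < cst ∧ ∀ (h : Fin k → ℕ) (F : Fin f → ℕ) (z y : ℝ),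
  2 ≤ z → z ≤ y → Adm (Fin.append h F) → cst * (Wp z ^ k * Wp y ^ f) ≤ vp h F z y

/-- the fixed members have no prime factor below `y` -/
def rF {f : ℕ} (F : Fin f → ℕ) (y : ℝ) (n : ℕ) : ℝ := ∏ j, rInd y (n + F j)

/-- MT3 (300 lines), USES CF2, CPT, SL3, SS3, BVC (adapt `LG/MT2.lean`): the main term.
PROOF. As MT2 with SL3 (`z = zz N c`, `y = N^d`) and SS3. `b` of SL3, `ε ≤ 1` of BVC: `d = ε/(4b+4)` (so `y^b ≤ N^(ε/4)`, and `z ≤ y` for `N ≥ N₀`), `e₀ · 2 k max r ≤ ε/2`. Good tuples: CPT with `Δ = dl (append h F)`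
(`≤ (2N)^((k+f)+(k+f)²)` for `N ≥ N₀`, as `F_j ≤ N`), `y = L^c`. For `n` in the set of SL3 without `l m_i ∣ n + h_i` for a prime `l ∣ m_i`: `(n+h_i)/m_i` is rough at `z` (a prime `l ∣ m_j`, `j ≠ i`, is
excluded by `l ∣ h_i - h_j`), so `∏ w1 = (2 L Wp z)^(-k)`, and `rF = 1`. Main term: `(1/2) (N/(2L)) ∑_good ∏ 1/m_i · cst Wp(z)^k Wp(y)^f (2 L Wp z)^(-k) ≥ c N/L^(k+f+1)` (`Wp y ≥ c/log y ≥ c/L`, `wp_lower` in
`MP_3efbeb_nt/T/B.lean`). The bad `n`: `≤ C N/L^c + N^(1/2)`, `c ≥ k + f + 4`. Remainders: `4 (1 + log y) ∑_Q ((k+f)(k+1))^ω(Q) Em Q ≤ N/L^(k+f+2)` (BVC). -/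
def SpecMT3 : Prop := ∀ (k f : ℕ) (r : Fin k → ℕ) (F : Fin f → ℕ), 1 ≤ k → (∀ i, 2 ≤ r i) → (∀ j, 1 ≤ F j) →
  ∃ e₀ cst d : ℝ, 0 < e₀ ∧ (∀ i, e₀ * r i ≤ 1 / 8) ∧ 0 < cst ∧ 0 < d ∧
  ∀ e c : ℝ, 0 < e → e ≤ e₀ → (k : ℝ) + f + 4 ≤ c → ∃ N₀ : ℕ,
  ∀ (N : ℕ) (h : Fin k → ℕ), N₀ ≤ N → (∀ i, 1 ≤ h i ∧ h i ≤ N) → dl (Fin.append h F) ≠ 0 → Adm (Fin.append h F) →
  cst * N / Real.log N ^ (k + f + 1) ≤
    ∑ n ∈ Ioc N (2 * N), (pI n * rF F ((N : ℝ) ^ d) n) * ∏ i, g2 N c e (r i) (n + h i)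

/-- the primes `n ≤ N` such that every `n + h_i` has exactly `r_i` prime factors and every `n + F_j` none below `N^c` -/
def LPfix {k f : ℕ} (r h : Fin k → ℕ) (F : Fin f → ℕ) (c : ℝ) (N : ℕ) : Finset ℕ :=
  open scoped Classical in
  (Icc 1 N).filter (fun n : ℕ => n.Prime ∧ (∀ i, (n + h i).primeFactorsList.length = r i) ∧
    ∀ j, ∀ l : ℕ, l.Prime → l ∣ n + F j → (N : ℝ) ^ c ≤ l)

open scoped Classical in
/-- FI3 (280 lines), USES AV2, MT3, FR2 (adapt `LG/FI2.lean`): the theorem, version 3.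
PROOF. As FI2 (FIN) with `P n = pI n · rF F (N'^d) n` (`|P| ≤ 1`) in AV2, `A₁ = A + k + f + 6`, `c₁` = the maximum of `c₀` of AV2 and `k + f + 4`; the `h` with `dl (append h F) = 0`
(`F` is injective: two equal `h_i`, or `h_i = F_j`): `≤ (k² + k f) H^(k-1)`. If `∏ f2 · rF ≠ 0`, `N' = 2^j`, `2^(j+1) ≤ N < 2^(j+2)`: the prime factors of `n + F_j` are `≥ N'^d ≥ (N/4)^d ≥ N^(d/2) ≥ N^c`
(`n + F_j ≥ 2`). `c ≤ d/2`. -/
def SpecFI3 : Prop := ∀ (k f : ℕ) (r : Fin k → ℕ) (F : Fin f → ℕ) (A : ℝ), 1 ≤ k → (∀ i, 2 ≤ r i) → (∀ j, 1 ≤ F j) →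
  Function.Injective F → 0 < A → ∃ (c : ℝ) (H₀ : ℕ), 0 < c ∧ ∀ H : ℕ, H₀ ≤ H →
  ((((Fintype.piFinset (fun _ : Fin k => Icc 1 H)).filter (fun h => Adm (Fin.append h F) ∧ ∃ N : ℕ, H ^ 3 ≤ N ∧
    (N : ℝ) ≤ Real.exp ((H : ℝ) ^ c) ∧
    ((LPfix r h F c N).card : ℝ) < c * N / Real.log N ^ (k + f + 1))).card : ℕ) : ℝ) ≤
    (H : ℝ) ^ k / Real.log H ^ A

end

end Pool.Agent.Lib.MP3efbeb.LG
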