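import Pool.Agent.Lib.MP_3efbeb_nt.LG.SpecB

/-!
# Module USR: small frequencies
-/

set_option autoImplicit false

namespace Pool.Agent.Lib.MP3efbeb.LG

open Finset Filter

namespace USRM

private lemma nitNorm (n : ℕ) (t : ℝ) : ‖nit n t‖ = 1 := by
  unfold nit
  exact Complex.norm_exp_ofReal_mul_I _

private lemma nitMul (m n : ℕ) (hm : m ≠ 0) (hn : n ≠ 0) (t : ℝ) :
    nit (m * n) t = nit m t * nit n t := by
  unfold nit
  rw [← Complex.exp_add]
  congr 1
  have h1 : (m : ℝ) ≠ 0 := Nat.cast_ne_zero.mpr hm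
  have h2 : (n : ℝ) ≠ 0 := Nat.cast_ne_zero.mpr hn
  rw [Nat.cast_mul, Real.log_mul h1 h2]
  push_cast
  ring

private lemma nitStep (m : ℕ) (hm : 1 ≤ m) (t : ℝ) :
    ‖nit m t - nit (m + 1) t‖ ≤ |t| / m := by
  have hm0 : (0 : ℝ) < m := by exact_mod_cast hm
  have h1 : nit (m + 1) t = nit m t *
      Complex.exp (Complex.I * ((t * (Real.log ((m : ℝ) + 1) - Real.log m) : ℝ) : ℂ)) := by
    unfold nit
    rw [← Complex.exp_add]
    congr 1
    push_cast
    ring
  have h2 : nit m t - nit (m + 1) t = -(nit m t *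
      (Complex.exp (Complex.I * ((t * (Real.log ((m : ℝ) + 1) - Real.log m) : ℝ) : ℂ)) - 1)) := by
    rw [h1]
    ring
  rw [h2, norm_neg, norm_mul, nitNorm, one_mul]
  refine le_trans Real.norm_exp_I_mul_ofReal_sub_one_le ?_
  rw [Real.norm_eq_abs, abs_mul]
  have h3 : Real.log ((m : ℝ) + 1) - Real.log m = Real.log (1 + 1 / m) := by
    rw [← Real.log_div (by positivity) hm0.ne']
    congr 1
    field_simp
  have h4 : Real.log (1 + 1 / (m : ℝ)) ≤ 1 / m := by
    have h5 := Real.log_le_sub_one_of_pos (show (0 : ℝ) < 1 + 1 / m by positivity)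
    linarith
  have h5 : 0 ≤ Real.log (1 + 1 / (m : ℝ)) := Real.log_nonneg (by
    have : (0 : ℝ) ≤ 1 / m := by positivity
    linarith)
  have h6 : |t| / (m : ℝ) = |t| * (1 / m) := by rw [mul_one_div]
  rw [h3, abs_of_nonneg h5, h6]
  exact mul_le_mul_of_nonneg_left h4 (abs_nonneg t)

private lemma abel (a b : ℕ) (g : ℕ → ℝ) (δ t : ℝ) (hδ : 0 ≤ δ)
    (hG : ∀ m, a < m → m ≤ b → |∑ k ∈ Ioc a m, g k| ≤ δ * m) :
    ∀ m, a ≤ m → m ≤ b →
      ‖∑ k ∈ Ioc a m, (g k : ℂ) * nit k t - ((∑ k ∈ Ioc a m, g k : ℝ) : ℂ) * nit m t‖ ≤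
        δ * |t| * ((m : ℝ) - a) := by
  intro m ham
  induction m, ham using Nat.le_induction with
  | base =>
    intro _
    simp
  | succ m ham ih =>
    intro hmb
    have ih' := ih (by omega)
    rw [Finset.sum_Ioc_succ_top (by omega), Finset.sum_Ioc_succ_top (by omega)]
    have h1 : ∑ k ∈ Ioc a m, (g k : ℂ) * nit k t + (g (m + 1) : ℂ) * nit (m + 1) t -
        ((∑ k ∈ Ioc a m, g k + g (m + 1) : ℝ) : ℂ) * nit (m + 1) t =
        (∑ k ∈ Ioc a m, (g k : ℂ) * nit k t - ((∑ k ∈ Ioc a m, g k : ℝ) : ℂ) * nit m t) +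
        ((∑ k ∈ Ioc a m, g k : ℝ) : ℂ) * (nit m t - nit (m + 1) t) := by
      push_cast
      ring
    rw [h1]
    have h2 : ‖((∑ k ∈ Ioc a m, g k : ℝ) : ℂ) * (nit m t - nit (m + 1) t)‖ ≤ δ * |t| := by
      rcases Nat.eq_or_lt_of_le ham with h | h
      · subst h
        simp only [Finset.Ioc_self, Finset.sum_empty, Complex.ofReal_zero, zero_mul, norm_zero]
        positivity
      · have hm1 : 1 ≤ m := by omega
        have hm0 : (0 : ℝ) < m := by exact_mod_cast hm1
        rw [norm_mul, Complex.norm_real, Real.norm_eq_abs]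
        calc |∑ k ∈ Ioc a m, g k| * ‖nit m t - nit (m + 1) t‖
            ≤ (δ * m) * (|t| / m) :=
              mul_le_mul (hG m h (by omega)) (nitStep m hm1 t) (norm_nonneg _) (by positivity)
          _ = δ * |t| := by
              field_simp
    refine le_trans (norm_add_le _ _) ?_
    have h3 : δ * |t| * (((m + 1 : ℕ) : ℝ) - a) = δ * |t| * ((m : ℝ) - a) + δ * |t| := by
      push_cast
      ring
    rw [h3]
    exact add_le_add ih' h2

private lemma abelBound (a b : ℕ) (hab : a < b) (g : ℕ → ℝ) (δ t : ℝ) (hδ : 0 ≤ δ)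
    (hG : ∀ m, a < m → m ≤ b → |∑ k ∈ Ioc a m, g k| ≤ δ * m) :
    ‖∑ k ∈ Ioc a b, (g k : ℂ) * nit k t‖ ≤ δ * (1 + |t|) * b := by
  have h1 := abel a b g δ t hδ hG b hab.le le_rfl
  have h2 : ‖((∑ k ∈ Ioc a b, g k : ℝ) : ℂ) * nit b t‖ ≤ δ * b := by
    rw [norm_mul, nitNorm, mul_one, Complex.norm_real, Real.norm_eq_abs]
    exact hG b hab le_rfl
  have h3 := norm_add_le
    (∑ k ∈ Ioc a b, (g k : ℂ) * nit k t - ((∑ k ∈ Ioc a b, g k : ℝ) : ℂ) * nit b t)
    (((∑ k ∈ Ioc a b, g k : ℝ) : ℂ) * nit b t)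
  rw [sub_add_cancel] at h3
  have h4 : 0 ≤ δ * |t| * a := by positivity
  nlinarith [h1, h2, h3, h4]

private lemma listProd (x : ℝ) (hx : 0 ≤ x) (l : List ℕ) (h : ∀ p ∈ l, (p : ℝ) ≤ x) :
    ((l.prod : ℕ) : ℝ) ≤ x ^ l.length := by
  induction l with
  | nil => simp
  | cons a l ih =>
    rw [List.prod_cons, List.length_cons, pow_succ, Nat.cast_mul, mul_comm]
    exact mul_le_mul (ih fun p hp => h p (List.mem_cons_of_mem _ hp)) (h a (List.mem_cons_self))
      (Nat.cast_nonneg _) (by positivity)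

private lemma reindex (d : ℕ) (hd : 0 < d) (y Y : ℝ) (g : ℕ → ℝ) (t : ℝ) :
    ∑ k ∈ IO y Y, (if d ∣ k then (g (k / d) : ℂ) else 0) * nit k t =
      nit d t * ∑ k ∈ IO (y / d) (Y / d), (g k : ℂ) * nit k t := by
  have h1 : ∑ k ∈ IO y Y, (if d ∣ k then (g (k / d) : ℂ) else 0) * nit k t =
      ∑ k ∈ (IO y Y).filter (fun k => d ∣ k), (g (k / d) : ℂ) * nit k t := by
    rw [Finset.sum_filter]
    refine Finset.sum_congr rfl fun k _ => ?_
    split_ifs <;> simp
  rw [h1, Finset.mul_sum]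
  unfold IO
  rw [Nat.floor_div_natCast, Nat.floor_div_natCast]
  refine Finset.sum_nbij' (fun k => k / d) (fun k => d * k) ?_ ?_ ?_ ?_ ?_
  · intro k hk
    rw [Finset.mem_filter, Finset.mem_Ioc] at hk
    obtain ⟨⟨h2, h3⟩, m, rfl⟩ := hk
    rw [Finset.mem_Ioc, Nat.mul_div_cancel_left _ hd]
    refine ⟨?_, ?_⟩
    · rw [Nat.div_lt_iff_lt_mul hd, mul_comm]
      exact h2
    · rw [Nat.le_div_iff_mul_le hd, mul_comm]
      exact h3
  · intro k hk
    rw [Finset.mem_Ioc] at hk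
    rw [Finset.mem_filter, Finset.mem_Ioc]
    refine ⟨⟨?_, ?_⟩, Dvd.intro _ rfl⟩
    · have h2 := hk.1
      rw [Nat.div_lt_iff_lt_mul hd, mul_comm] at h2
      exact h2
    · have h2 := hk.2
      rw [Nat.le_div_iff_mul_le hd, mul_comm] at h2
      exact h2
  · intro k hk
    rw [Finset.mem_filter] at hk
    exact Nat.mul_div_cancel' hk.2
  · intro k _
    exact Nat.mul_div_cancel_left _ hd
  · intro k hk
    rw [Finset.mem_filter, Finset.mem_Ioc] at hk
    obtain ⟨⟨h2, h3⟩, m, rfl⟩ := hk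
    have hm : m ≠ 0 := by
      rintro rfl
      omega
    rw [Nat.mul_div_cancel_left _ hd, nitMul d m hd.ne' hm]
    ring

private lemma numeric (L LE LD Y R : ℝ) (hL : 3 ≤ L) (hLE : 1 ≤ LE) (hY : 0 ≤ Y)
    (hR : R ≤ 1 + L) (hLD : LD = LE * LE * L ^ 4) :
    1 / LD * (1 + LE) * (4 * Y) * R ≤ Y / LE := by
  have hL0 : 0 < L := by linarith
  have hLE0 : 0 < LE := by linarith
  have hLD0 : 0 < LD := by
    rw [hLD]
    positivity
  have h1 : 1 / LD * (1 + LE) * (4 * Y) * R ≤ 1 / LD * (2 * LE) * (4 * Y) * (2 * L) := by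
    have h2 : 1 / LD * (1 + LE) * (4 * Y) * R ≤ 1 / LD * (1 + LE) * (4 * Y) * (2 * L) :=
      mul_le_mul_of_nonneg_left (by linarith) (by positivity)
    have h3 : 1 / LD * (1 + LE) * (4 * Y) * (2 * L) ≤ 1 / LD * (2 * LE) * (4 * Y) * (2 * L) := by
      apply mul_le_mul_of_nonneg_right _ (by positivity)
      apply mul_le_mul_of_nonneg_right _ (by positivity)
      exact mul_le_mul_of_nonneg_left (by linarith) (by positivity)
    linarith
  refine le_trans h1 ?_
  have h4 : 1 / LD * (2 * LE) * (4 * Y) * (2 * L) = Y / LE * (16 / L ^ 3) := by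
    rw [hLD]
    field_simp
    ring
  rw [h4]
  have h5 : 16 / L ^ 3 ≤ 1 := by
    rw [div_le_one (by positivity)]
    have : (3 : ℝ) ^ 3 ≤ L ^ 3 := pow_le_pow_left₀ (by norm_num) hL 3
    linarith
  calc Y / LE * (16 / L ^ 3) ≤ Y / LE * 1 := mul_le_mul_of_nonneg_left h5 (by positivity)
    _ = Y / LE := mul_one _

end USRM

theorem specUSR (hUSM : SpecUSM) : SpecUSR := by
  intro c e E s hc he he2 hes hE
  obtain ⟨N1, hN1⟩ := hUSM c (2 * E + 4) hc (by linarith)
  have hev : ∀ᶠ N : ℝ in atTop, 8 * Real.log N ^ (2 * c) ≤ N ^ ((7 : ℝ) / 30) := by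
    have h1 := (isLittleO_log_rpow_rpow_atTop (2 * c) (show (0 : ℝ) < 7 / 30 by norm_num)).def
      (show (0 : ℝ) < 1 / 8 by norm_num)
    filter_upwards [h1, eventually_ge_atTop (1 : ℝ)] with N h2 h3
    have h4 : 0 ≤ Real.log N := Real.log_nonneg h3
    have h5 : 0 ≤ Real.log N ^ (2 * c) := Real.rpow_nonneg h4 _
    have h6 : 0 ≤ N ^ ((7 : ℝ) / 30) := Real.rpow_nonneg (by linarith) _
    rw [Real.norm_of_nonneg h5, Real.norm_of_nonneg h6] at h2
    linarith
  obtain ⟨N2, hN2⟩ := eventually_atTop.mp hev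
  refine ⟨max (max N1 N2) (Real.exp 3), ?_⟩
  intro N A B hN hA1 hA2 hB1 hB2 t ht
  have hNN1 : N1 ≤ N := le_trans (le_trans (le_max_left _ _) (le_max_left _ _)) hN
  have hNN2 : N2 ≤ N := le_trans (le_trans (le_max_right _ _) (le_max_left _ _)) hN
  have hexp : Real.exp 3 ≤ N := le_trans (le_max_right _ _) hN
  have hN0 : 0 < N := lt_of_lt_of_le (Real.exp_pos _) hexp
  have hL : 3 ≤ Real.log N := by
    rw [Real.le_log_iff_exp_le hN0]
    exact hexp
  have hN1' : 1 ≤ N := by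
    have := Real.add_one_le_exp (3 : ℝ)
    linarith
  have hA : 1 ≤ A := le_trans (Real.one_le_rpow (by linarith) (by linarith)) hA1
  have hB : 1 ≤ B := le_trans (Real.one_le_rpow hN1' he.le) hB1
  have hAB : 0 < A * B := by positivity
  -- the lower bound for the interval
  have hlow : N ^ ((2 : ℝ) / 3) ≤ N / (8 * A * B) := by
    rw [le_div_iff₀ (by positivity)]
    have h1 : 8 * A * B ≤ N ^ ((7 : ℝ) / 30) * N ^ ((1 : ℝ) / 10) := by
      apply mul_le_mul _ hB2 (by linarith) (by positivity)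
      exact le_trans (by linarith) (hN2 N hNN2)
    calc N ^ ((2 : ℝ) / 3) * (8 * A * B)
        ≤ N ^ ((2 : ℝ) / 3) * (N ^ ((7 : ℝ) / 30) * N ^ ((1 : ℝ) / 10)) :=
          mul_le_mul_of_nonneg_left h1 (by positivity)
      _ = N := by
          rw [← Real.rpow_add hN0, ← Real.rpow_add hN0]
          norm_num
  have hdb : ∀ d ∈ DDs N e s, 1 ≤ d ∧ (d : ℝ) ≤ N ^ ((1 : ℝ) / 6) := by
    intro d hd
    unfold DDs at hd
    rw [Finset.mem_filter, Finset.mem_Icc] at hd
    obtain ⟨⟨h1, _⟩, h2, h3⟩ := hd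
    refine ⟨h1, ?_⟩
    have h4 := USRM.listProd (N ^ (2 * e / 3)) (by positivity) d.primeFactorsList
      fun p hp => (h3 p hp).2
    rw [Nat.prod_primeFactorsList (by omega), h2, ← Real.rpow_natCast, ← Real.rpow_mul hN0.le] at h4
    refine le_trans h4 (Real.rpow_le_rpow_of_exponent_le hN1' ?_)
    linarith
  have hinner : ∀ d ∈ DDs N e s,
      ‖∑ k ∈ IO (N / (8 * A * B) / d) (4 * N / (A * B) / d),
        ((pI k - w0 N c k : ℝ) : ℂ) * nit k t‖ ≤
        1 / Real.log N ^ (2 * E + 4) * (1 + |t|) * (4 * N / (A * B) / d) := by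
    intro d hd
    obtain ⟨hd1, hd2⟩ := hdb d hd
    have hd0 : (0 : ℝ) < d := by exact_mod_cast hd1
    have hd1' : (1 : ℝ) ≤ d := by exact_mod_cast hd1
    have hy1 : N ^ ((1 : ℝ) / 2) ≤ N / (8 * A * B) / d := by
      rw [le_div_iff₀ hd0]
      refine le_trans ?_ hlow
      calc N ^ ((1 : ℝ) / 2) * d ≤ N ^ ((1 : ℝ) / 2) * N ^ ((1 : ℝ) / 6) :=
            mul_le_mul_of_nonneg_left hd2 (by positivity)
        _ = N ^ ((2 : ℝ) / 3) := by
            rw [← Real.rpow_add hN0]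
            norm_num
    have hy0 : 0 ≤ N / (8 * A * B) / d := by positivity
    have hy2 : 4 * N / (A * B) / d ≤ 4 * N := by
      rw [div_div, div_le_iff₀ (by positivity)]
      have h1 : 1 ≤ A * B * d := by
        have h2 : 1 ≤ A * B := one_le_mul_of_one_le_of_one_le hA hB
        exact one_le_mul_of_one_le_of_one_le h2 hd1'
      nlinarith
    have hy3 : N / (8 * A * B) / d + 1 ≤ 4 * N / (A * B) / d := by
      have h1 : 4 * N / (A * B) / d = 32 * (N / (8 * A * B) / d) := by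
        field_simp
        ring
      have h2 : 1 ≤ N ^ ((1 : ℝ) / 2) := Real.one_le_rpow hN1' (by norm_num)
      rw [h1]
      linarith
    have hfl : ⌊N / (8 * A * B) / d⌋₊ < ⌊4 * N / (A * B) / d⌋₊ := by
      have h1 := Nat.floor_le_floor hy3
      rw [Nat.floor_add_one hy0] at h1
      omega
    have h1 := USRM.abelBound ⌊N / (8 * A * B) / d⌋₊ ⌊4 * N / (A * B) / d⌋₊ hfl
      (fun k => pI k - w0 N c k) (1 / Real.log N ^ (2 * E + 4)) t (by positivity) (by
        intro m hm1 hm2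
        have h2 : N / (8 * A * B) / d ≤ m := by
          rw [Nat.floor_lt hy0] at hm1
          exact hm1.le
        have h3 : (m : ℝ) ≤ 4 * N / (A * B) / d :=
          le_trans (Nat.cast_le.mpr hm2) (Nat.floor_le (by positivity))
        have h4 := hN1 N hNN1 (N / (8 * A * B) / d) m hy0 h2 (le_trans hy1 h2) (le_trans h3 hy2)
        unfold IO at h4
        rw [Nat.floor_natCast] at h4
        have h5 : 1 / Real.log N ^ (2 * E + 4) * (m : ℝ) = m / Real.log N ^ (2 * E + 4) := by ring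
        rw [h5]
        exact h4)
    unfold IO
    refine le_trans h1 ?_
    exact mul_le_mul_of_nonneg_left (Nat.floor_le (by positivity)) (by positivity)
  have hsplit : DP (SU N A B) (fun k => ((∑ d ∈ DDs N e s,
      if d ∣ k then pI (k / d) - w0 N c (k / d) else 0 : ℝ) : ℂ)) t =
      ∑ d ∈ DDs N e s, nit d t * ∑ k ∈ IO (N / (8 * A * B) / d) (4 * N / (A * B) / d),
        ((pI k - w0 N c k : ℝ) : ℂ) * nit k t := by
    unfold DP SU
    have h1 : ∀ k ∈ IO (N / (8 * A * B)) (4 * N / (A * B)),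
        ((∑ d ∈ DDs N e s, if d ∣ k then pI (k / d) - w0 N c (k / d) else 0 : ℝ) : ℂ) * nit k t =
        ∑ d ∈ DDs N e s, (if d ∣ k then
          (((fun k => pI k - w0 N c k) (k / d) : ℝ) : ℂ) else 0) * nit k t := by
      intro k _
      rw [Complex.ofReal_sum, Finset.sum_mul]
      refine Finset.sum_congr rfl fun d _ => ?_
      congr 1
      split_ifs <;> simp
    rw [Finset.sum_congr rfl h1, Finset.sum_comm]
    refine Finset.sum_congr rfl fun d hd => ?_
    exact USRM.reindex d (by have := (hdb d hd).1; omega) _ _ (fun k => pI k - w0 N c k) t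
  rw [hsplit]
  have hLE : 1 ≤ Real.log N ^ E := Real.one_le_rpow (by linarith) hE
  have hharm : ∑ d ∈ DDs N e s, (1 : ℝ) / d ≤ 1 + Real.log N := by
    have h1 : ∑ d ∈ DDs N e s, (1 : ℝ) / d ≤ ∑ d ∈ Icc 1 ⌊N⌋₊, (1 : ℝ) / d :=
      Finset.sum_le_sum_of_subset_of_nonneg (Finset.filter_subset _ _) fun _ _ _ => by positivity
    refine le_trans h1 ?_
    have h2 := harmonic_floor_le_one_add_log N hN1'
    rw [harmonic_eq_sum_Icc] at h2
    push_cast at h2
    simpa [one_div] using h2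
  calc ‖∑ d ∈ DDs N e s, nit d t * ∑ k ∈ IO (N / (8 * A * B) / d) (4 * N / (A * B) / d),
        ((pI k - w0 N c k : ℝ) : ℂ) * nit k t‖
      ≤ ∑ d ∈ DDs N e s, ‖nit d t * ∑ k ∈ IO (N / (8 * A * B) / d) (4 * N / (A * B) / d),
        ((pI k - w0 N c k : ℝ) : ℂ) * nit k t‖ := norm_sum_le _ _
    _ ≤ ∑ d ∈ DDs N e s, 1 / Real.log N ^ (2 * E + 4) * (1 + Real.log N ^ E) *
        (4 * (N / (A * B))) * (1 / d) := by
        refine Finset.sum_le_sum fun d hd => ?_
        rw [norm_mul, USRM.nitNorm, one_mul]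
        refine le_trans (hinner d hd) ?_
        have hd1 : (1 : ℝ) ≤ d := by exact_mod_cast (hdb d hd).1
        have h1 : 4 * N / (A * B) / d = (4 * (N / (A * B))) * (1 / d) := by
          field_simp
        rw [h1, ← mul_assoc]
        apply mul_le_mul_of_nonneg_right _ (by positivity)
        apply mul_le_mul_of_nonneg_right _ (by positivity)
        exact mul_le_mul_of_nonneg_left (by linarith) (by positivity)
    _ = 1 / Real.log N ^ (2 * E + 4) * (1 + Real.log N ^ E) * (4 * (N / (A * B))) *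
        ∑ d ∈ DDs N e s, (1 : ℝ) / d := by
        rw [Finset.mul_sum]
    _ ≤ N / (A * B) / Real.log N ^ E := by
        apply USRM.numeric (Real.log N) (Real.log N ^ E) (Real.log N ^ (2 * E + 4)) (N / (A * B)) _
          hL hLE (by positivity) hharm
        have hL0 : 0 < Real.log N := by linarith
        rw [show 2 * E + 4 = E + E + (4 : ℕ) by push_cast; ring, Real.rpow_add hL0,
          Real.rpow_add hL0, Real.rpow_natCast]

end Pool.Agent.Lib.MP3efbeb.LG
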